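import Mathlib

set_option autoImplicit false

namespace Pool.Agent.ExtremalSim

open Filter Topology

/-- The Hilbert space of square summable complex sequences. -/
abbrev E : Type := lp (fun _ : ℕ => ℂ) 2

theorem two_toReal : (2 : ENNReal).toReal = 2 := by norm_num

theorem summable_sq (x : E) : Summable (fun n => ‖x n‖ ^ 2) := by
  have h := (lp.memℓp x).summable (by norm_num)
  simpa [two_toReal] using h

theorem norm_sq (x : E) : ‖x‖ ^ 2 = ∑' n, ‖x n‖ ^ 2 := by
  have h := lp.norm_rpow_eq_tsum (p := 2) (by norm_num) x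
  simpa [two_toReal] using h

theorem mem_of_summable (f : ℕ → ℂ) (h : Summable (fun n => ‖f n‖ ^ 2)) : Memℓp f 2 := by
  apply memℓp_gen
  simpa [two_toReal] using h

theorem norm_le_of_coord (x y : E) (C : ℝ) (hC : 0 ≤ C) (h : ∀ n, ‖y n‖ ≤ C * ‖x n‖) :
    ‖y‖ ≤ C * ‖x‖ := by
  have h1 : ‖y‖ ^ 2 ≤ (C * ‖x‖) ^ 2 := by
    rw [mul_pow, norm_sq, norm_sq, ← tsum_mul_left]
    apply Summable.tsum_le_tsum _ (summable_sq y) ((summable_sq x).mul_left _)
    intro n
    rw [← mul_pow]
    exact pow_le_pow_left₀ (norm_nonneg _) (h n) 2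
  exact le_of_sq_le_sq h1 (by positivity)

theorem diag_mem (a : ℕ → ℝ) (C : ℝ) (ha : ∀ n, |a n| ≤ C) (x : E) :
    Memℓp (fun n => (a n : ℂ) * x n) 2 := by
  apply mem_of_summable
  apply Summable.of_nonneg_of_le (fun n => by positivity) _ ((summable_sq x).mul_left (C ^ 2))
  intro n
  rw [norm_mul, mul_pow, Complex.norm_real, Real.norm_eq_abs]
  exact mul_le_mul_of_nonneg_right (pow_le_pow_left₀ (abs_nonneg _) (ha n) 2) (by positivity)

/-- Diagonal operators. -/
noncomputable def diag (a : ℕ → ℝ) (C : ℝ) (ha : ∀ n, |a n| ≤ C) : E →L[ℂ] E :=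
  LinearMap.mkContinuous
    { toFun := fun x => ⟨fun n => (a n : ℂ) * x n, diag_mem a C ha x⟩
      map_add' := by
        intro x y
        apply lp.ext
        funext n
        change (a n : ℂ) * (x n + y n) = (a n : ℂ) * x n + (a n : ℂ) * y n
        ring
      map_smul' := by
        intro c x
        apply lp.ext
        funext n
        change (a n : ℂ) * (c * x n) = c * ((a n : ℂ) * x n)
        ring } C (by
    intro x
    have hC : 0 ≤ C := (abs_nonneg _).trans (ha 0)
    apply norm_le_of_coord _ _ _ hC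
    intro n
    change ‖(a n : ℂ) * x n‖ ≤ _
    rw [norm_mul, Complex.norm_real, Real.norm_eq_abs]
    exact mul_le_mul_of_nonneg_right (ha n) (norm_nonneg _))

theorem diag_apply (a : ℕ → ℝ) (C : ℝ) (ha : ∀ n, |a n| ≤ C) (x : E) (n : ℕ) :
    diag a C ha x n = (a n : ℂ) * x n := rfl

theorem diag_norm_le (a : ℕ → ℝ) (C : ℝ) (ha : ∀ n, |a n| ≤ C) : ‖diag a C ha‖ ≤ C :=
  LinearMap.mkContinuous_norm_le _ ((abs_nonneg _).trans (ha 0)) _

/-- Invertible diagonal operators. -/
noncomputable def diagEquiv (a b : ℕ → ℝ) (C D : ℝ) (ha : ∀ n, |a n| ≤ C)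
    (hb : ∀ n, |b n| ≤ D) (hab : ∀ n, a n * b n = 1) : E ≃L[ℂ] E :=
  ContinuousLinearEquiv.equivOfInverse (diag a C ha) (diag b D hb)
    (by
      intro x
      apply lp.ext
      funext n
      rw [diag_apply, diag_apply, ← mul_assoc, ← Complex.ofReal_mul, mul_comm (b n), hab]
      simp)
    (by
      intro x
      apply lp.ext
      funext n
      rw [diag_apply, diag_apply, ← mul_assoc, ← Complex.ofReal_mul, hab]
      simp)

/-- The shift by two places on functions. -/
def sh (f : ℕ → ℂ) : ℕ → ℂ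
  | 0 => 0
  | 1 => 0
  | (n + 2) => f n

theorem sh_summable (x : E) : Summable (fun n => ‖sh x n‖ ^ 2) := by
  rw [← summable_nat_add_iff 2]
  exact summable_sq x

/-- The shift by two places. -/
noncomputable def Sh : E →L[ℂ] E :=
  LinearMap.mkContinuous
    { toFun := fun x => ⟨sh x, mem_of_summable _ (sh_summable x)⟩
      map_add' := by
        intro x y
        apply lp.ext
        funext n
        rcases n with _ | _ | n
        · change (0 : ℂ) = 0 + 0
          simp
        · change (0 : ℂ) = 0 + 0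
          simp
        · rfl
      map_smul' := by
        intro c x
        apply lp.ext
        funext n
        rcases n with _ | _ | n
        · change (0 : ℂ) = c * 0
          simp
        · change (0 : ℂ) = c * 0
          simp
        · rfl } 1 (by
    intro x
    have h1 : ∀ y : E, (y : ℕ → ℂ) = sh x → ‖y‖ ^ 2 = ‖x‖ ^ 2 := by
      intro y hy
      rw [norm_sq, norm_sq, hy, ← (sh_summable x).sum_add_tsum_nat_add 2]
      rw [Finset.sum_range_succ, Finset.sum_range_succ, Finset.sum_range_zero]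
      simp [sh]
    rw [one_mul]
    exact le_of_sq_le_sq (h1 _ rfl).le (norm_nonneg _))

theorem Sh_apply (x : E) (n : ℕ) : Sh x n = sh x n := rfl

theorem Sh_norm (x : E) : ‖Sh x‖ = ‖x‖ := by
  have h1 : ‖Sh x‖ ^ 2 = ‖x‖ ^ 2 := by
    rw [norm_sq, norm_sq]
    simp only [Sh_apply]
    rw [← (sh_summable x).sum_add_tsum_nat_add 2]
    rw [Finset.sum_range_succ, Finset.sum_range_succ, Finset.sum_range_zero]
    simp [sh]
  exact (sq_eq_sq₀ (norm_nonneg _) (norm_nonneg _)).1 h1

theorem Sh_isometry : Isometry Sh := AddMonoidHomClass.isometry_of_norm _ Sh_norm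

/-- the weights of `L` -/
noncomputable def a : ℕ → ℝ
  | 0 => 1 / 2
  | 1 => 2
  | (_ + 2) => 1

/-- the inverse weights -/
noncomputable def b : ℕ → ℝ
  | 0 => 2
  | 1 => 1 / 2
  | (_ + 2) => 1

theorem a_le (n : ℕ) : |a n| ≤ 2 := by
  rcases n with _ | _ | n <;> norm_num [a]

theorem b_le (n : ℕ) : |b n| ≤ 2 := by
  rcases n with _ | _ | n <;> norm_num [b]

theorem ab (n : ℕ) : a n * b n = 1 := by
  rcases n with _ | _ | n <;> norm_num [a, b]

/-- the operator `L` -/
noncomputable def L : E ≃L[ℂ] E := diagEquiv a b 2 2 a_le b_le ab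

/-- the weights of a commuting operator: two on even, one on odd places -/
noncomputable def e : ℕ → ℝ
  | 0 => 2
  | 1 => 1
  | (n + 2) => e n

theorem e_cases (n : ℕ) : e n = 2 ∨ e n = 1 := by
  induction n using Nat.strong_induction_on with
  | _ n ih =>
    rcases n with _ | _ | n
    · left; rfl
    · right; rfl
    · exact ih n (by omega)

/-- weights of the better similarity -/
noncomputable def a' (n : ℕ) : ℝ := e n * a n

/-- the inverse weights -/
noncomputable def b' (n : ℕ) : ℝ := (e n * a n)⁻¹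

theorem a'_le (n : ℕ) : |a' n| ≤ 2 := by
  rcases n with _ | _ | n
  · norm_num [a', e, a]
  · norm_num [a', e, a]
  · rcases e_cases (n + 2) with h | h <;> rw [a', h] <;> norm_num [a]

theorem b'_le (n : ℕ) : |b' n| ≤ 1 := by
  rcases n with _ | _ | n
  · norm_num [b', e, a]
  · norm_num [b', e, a]
  · rcases e_cases (n + 2) with h | h <;> rw [b', h] <;> norm_num [a]

theorem ab' (n : ℕ) : a' n * b' n = 1 := by
  apply mul_inv_cancel₀
  change e n * a n ≠ 0
  rcases n with _ | _ | n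
  · norm_num [e, a]
  · norm_num [e, a]
  · rcases e_cases (n + 2) with h | h <;> rw [h] <;> norm_num [a]

/-- the better similarity -/
noncomputable def L' : E ≃L[ℂ] E := diagEquiv a' b' 2 1 a'_le b'_le ab'

/-- the operator `T` -/
noncomputable def T : E →L[ℂ] E := (L.symm : E →L[ℂ] E).comp (Sh.comp (L : E →L[ℂ] E))

theorem L_apply (x : E) (n : ℕ) : L x n = (a n : ℂ) * x n := rfl
theorem Lsymm_apply (x : E) (n : ℕ) : L.symm x n = (b n : ℂ) * x n := rfl
theorem L'_apply (x : E) (n : ℕ) : L' x n = (a' n : ℂ) * x n := rfl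
theorem L'symm_apply (x : E) (n : ℕ) : L'.symm x n = (b' n : ℂ) * x n := rfl

theorem T_eq' : T = (L'.symm : E →L[ℂ] E).comp (Sh.comp (L' : E →L[ℂ] E)) := by
  ext x n
  change L.symm (Sh (L x)) n = L'.symm (Sh (L' x)) n
  rw [Lsymm_apply, L'symm_apply, Sh_apply, Sh_apply]
  rcases n with _ | _ | n
  · simp [sh]
  · simp [sh]
  · change (b (n + 2) : ℂ) * L x n = (b' (n + 2) : ℂ) * L' x n
    rw [L_apply, L'_apply]
    have h1 : b (n + 2) = 1 := rfl
    have h2 : b' (n + 2) = (e n)⁻¹ := by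
      change (e n * 1)⁻¹ = _
      rw [mul_one]
    have h3 : (e n : ℂ) ≠ 0 := by
      rcases e_cases n with h | h <;> rw [h] <;> norm_num
    rw [h1, h2, a']
    push_cast
    rw [one_mul, mul_assoc, inv_mul_cancel_left₀ h3]

theorem Lsymm_Sh (x : E) : L.symm (Sh x) = Sh x := by
  apply lp.ext
  funext n
  rw [Lsymm_apply, Sh_apply]
  rcases n with _ | _ | n
  · simp [sh]
  · simp [sh]
  · have h1 : b (n + 2) = 1 := rfl
    rw [h1]; simp

theorem T_norm (n : ℕ) (x : E) : ‖(T ^ (n + 1)) x‖ = ‖L x‖ := by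
  have h : ∀ n, ∃ y : E, (T ^ (n + 1)) x = Sh y ∧ ‖y‖ = ‖L x‖ := by
    intro n
    induction n with
    | zero =>
      refine ⟨L x, ?_, rfl⟩
      rw [zero_add, pow_one]
      exact Lsymm_Sh _
    | succ n ih =>
      obtain ⟨y, hy, hyn⟩ := ih
      refine ⟨Sh y, ?_, by rw [Sh_norm, hyn]⟩
      rw [pow_succ']
      change T ((T ^ (n + 1)) x) = _
      rw [hy]
      change L.symm (Sh (L (Sh y))) = _
      rw [Lsymm_Sh]
      congr 1
      rw [← Lsymm_Sh y, ContinuousLinearEquiv.apply_symm_apply, Lsymm_Sh]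
  obtain ⟨y, hy, hyn⟩ := h n
  rw [hy, Sh_norm, hyn]


theorem hn (i : ℕ) : ‖(lp.single 2 i (1 : ℂ) : E)‖ = 1 := by
  rw [lp.norm_single (by norm_num)]
  simp

theorem L_ge : 2 ≤ ‖(L : E →L[ℂ] E)‖ := by
  have h3 := (L : E →L[ℂ] E).le_opNorm (lp.single 2 1 (1 : ℂ))
  rw [hn, mul_one] at h3
  refine le_trans ?_ h3
  have h4 := lp.norm_apply_le_norm (p := 2) (by norm_num)
    ((L : E →L[ℂ] E) (lp.single 2 1 (1 : ℂ))) 1
  refine le_trans (le_of_eq ?_) h4
  change 2 = ‖(a 1 : ℂ) * (lp.single 2 1 (1 : ℂ) : E) 1‖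
  rw [lp.single_apply_self]
  norm_num [a]

theorem Lsymm_ge : 2 ≤ ‖(L.symm : E →L[ℂ] E)‖ := by
  have h3 := (L.symm : E →L[ℂ] E).le_opNorm (lp.single 2 0 (1 : ℂ))
  rw [hn, mul_one] at h3
  refine le_trans ?_ h3
  have h4 := lp.norm_apply_le_norm (p := 2) (by norm_num)
    ((L.symm : E →L[ℂ] E) (lp.single 2 0 (1 : ℂ))) 0
  refine le_trans (le_of_eq ?_) h4
  change 2 = ‖(b 0 : ℂ) * (lp.single 2 0 (1 : ℂ) : E) 0‖
  rw [lp.single_apply_self]
  norm_num [b]

theorem L'_le : ‖(L' : E →L[ℂ] E)‖ ≤ 2 := diag_norm_le _ _ a'_le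

theorem L'symm_le : ‖(L'.symm : E →L[ℂ] E)‖ ≤ 1 := diag_norm_le _ _ b'_le

end Pool.Agent.ExtremalSim
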