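import Mathlib
import Pool.Agent.GrothDefs

set_option autoImplicit false

namespace Pool.Agent.Groth

open Topology Filter

lemma acc_iff {Z : Type*} [TopologicalSpace Z] [T1Space Z] (z : Z) (B : Set Z) :
    AccPt z (𝓟 B) ↔ ∀ U ∈ 𝓝 z, (U ∩ B).Infinite := by
  rw [accPt_iff_nhds]
  constructor
  · intro h U hU hfin
    have hfin' : ((U ∩ B) \ {z}).Finite := hfin.subset Set.sdiff_subset
    have hopen : ((U ∩ B) \ {z})ᶜ ∈ 𝓝 z := by
      apply hfin'.isClosed.isOpen_compl.mem_nhds
      simp
    obtain ⟨y, ⟨⟨hy1, hy2⟩, hy3⟩, hy4⟩ := h _ (inter_mem hU hopen)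
    exact hy2 ⟨⟨hy1, hy3⟩, hy4⟩
  · intro h U hU
    obtain ⟨y, ⟨hy1, hy2⟩, hy3⟩ := ((h U hU).sdiff (Set.finite_singleton z)).nonempty
    exact ⟨y, ⟨hy1, hy2⟩, hy3⟩

lemma cc_image {Z Z' : Type*} [TopologicalSpace Z] [T1Space Z] [TopologicalSpace Z'] [T1Space Z']
    {A : Set Z} (hA : CountablyCompactIn A) (φ : Z → Z') (hφ : Continuous φ) :
    CountablyCompactIn (φ '' A) := by
  intro B hB hinf
  have hsurj : Set.SurjOn φ A B := hB
  obtain ⟨B', hB', hbij⟩ := hsurj.exists_bijOn_subset
  have hinf' : B'.Infinite := by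
    intro hf
    exact hinf (hbij.image_eq ▸ hf.image φ)
  obtain ⟨z, hz⟩ := hA B' hB' hinf'
  refine ⟨φ z, ?_⟩
  rw [acc_iff] at hz ⊢
  intro V hV
  have h1 := hz _ (hφ.continuousAt.preimage_mem_nhds hV)
  have h2 : (φ '' (φ ⁻¹' V ∩ B')).Infinite :=
    h1.image (hbij.injOn.mono Set.inter_subset_right)
  apply h2.mono
  rintro _ ⟨x, ⟨hx1, hx2⟩, rfl⟩
  exact ⟨hx1, hbij.mapsTo hx2⟩

/-- an injective-range or not: a convergent sequence in a countably compact set has its limit
among the accumulation points -/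
lemma limit_eq {Z W : Type*} [TopologicalSpace Z] [T1Space Z] [TopologicalSpace W] [T2Space W]
    {A : Set Z} (hA : CountablyCompactIn A) (i : Z → W) (hi : Continuous i)
    (hinj : Function.Injective i) (u : ℕ → Z) (hu : ∀ n, u n ∈ A) (w : W)
    (hw : Tendsto (fun n => i (u n)) atTop (𝓝 w)) : ∃ z, i z = w := by
  by_cases hfin : (Set.range u).Finite
  · -- some value is taken infinitely often
    obtain ⟨z, hz⟩ : ∃ z, ∃ᶠ n in atTop, u n = z := by
      by_contra hcon
      push Not at hcon
      have h1 : ∀ z ∈ Set.range u, ∀ᶠ n in atTop, u n ≠ z := fun z _ => by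
        have := hcon z
        exact this
      have h2 : ∀ᶠ n in atTop, ∀ z ∈ Set.range u, u n ≠ z :=
        (hfin.eventually_all).mpr h1
      obtain ⟨n, hn⟩ := h2.exists
      exact hn (u n) ⟨n, rfl⟩ rfl
    refine ⟨z, ?_⟩
    by_contra hne
    have h3 : ∀ᶠ n in atTop, i (u n) ∈ ({i z}ᶜ : Set W) :=
      hw (isClosed_singleton.isOpen_compl.mem_nhds (fun h => hne h.symm))
    obtain ⟨n, hn1, hn2⟩ := (hz.and_eventually h3).exists
    exact hn2 (by rw [hn1]; rfl)
  · obtain ⟨z, hz⟩ := hA (Set.range u) (by rintro _ ⟨n, rfl⟩; exact hu n) hfin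
    refine ⟨z, ?_⟩
    by_contra hne
    obtain ⟨U, V, hU, hV, hzU, hwV, hdis⟩ := t2_separation hne
    rw [acc_iff] at hz
    have h1 := hz _ (hi.continuousAt.preimage_mem_nhds (hU.mem_nhds hzU))
    have h2 : ∀ᶠ n in atTop, i (u n) ∈ V := hw (hV.mem_nhds hwV)
    rw [eventually_atTop] at h2
    obtain ⟨N, hN⟩ := h2
    apply h1
    apply ((Set.finite_lt_nat N).image u).subset
    rintro _ ⟨hx, ⟨n, rfl⟩⟩
    refine ⟨n, ?_, rfl⟩
    by_contra hn
    exact Set.disjoint_left.mp hdis hx (hN n (not_lt.mp hn))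

/-- the angelic property -/
def Ang (Z : Type*) [TopologicalSpace Z] : Prop :=
  ∀ A : Set Z, CountablyCompactIn A → IsCompact (closure A) ∧
    ∀ z ∈ closure A, ∃ u : ℕ → Z, (∀ n, u n ∈ A) ∧ Tendsto u atTop (𝓝 z)

lemma key {Z : Type*} [TopologicalSpace Z] [T2Space Z] {S : Set Z} (hS : GSpace S) {A : Set Z}
    (hAS : A ⊆ S) (hcc : CountablyCompactIn (Subtype.val ⁻¹' A : Set S)) :
    IsCompact (closure A) ∧ closure A ⊆ S := by
  have h1 := hS _ hcc
  have h2 : IsCompact (Subtype.val '' (closure (Subtype.val ⁻¹' A : Set S))) :=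
    h1.image continuous_subtype_val
  have h3 : A ⊆ Subtype.val '' (closure (Subtype.val ⁻¹' A : Set S)) := by
    intro a ha
    exact ⟨⟨a, hAS ha⟩, subset_closure ha, rfl⟩
  have h4 : closure A ⊆ Subtype.val '' (closure (Subtype.val ⁻¹' A : Set S)) :=
    closure_minimal h3 h2.isClosed
  refine ⟨h2.of_isClosed_subset isClosed_closure h4, h4.trans ?_⟩
  rintro _ ⟨x, _, rfl⟩
  exact x.2

theorem ang_of_g {Z : Type*} [TopologicalSpace Z] [T2Space Z] (hG : ∀ S : Set Z, GSpace S) :
    Ang Z := by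
  intro A hA
  have hcomp : IsCompact (closure A) := by
    refine (key (hG Set.univ) (Set.subset_univ A) ?_).1
    intro B hB hinf
    have hinf' : (Subtype.val '' B).Infinite := hinf.image Subtype.val_injective.injOn
    obtain ⟨z, hz⟩ := hA (Subtype.val '' B) (by rintro _ ⟨b, hb, rfl⟩; exact hB hb) hinf'
    refine ⟨⟨z, trivial⟩, ?_⟩
    rw [acc_iff] at hz ⊢
    intro U hU
    rw [nhds_subtype_eq_comap] at hU
    obtain ⟨V, hV, hVU⟩ := hU
    have h1 := hz V hV
    intro hf
    apply h1
    apply (hf.image Subtype.val).subset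
    rintro _ ⟨hx, ⟨b, hb, rfl⟩⟩
    exact ⟨b, ⟨hVU hx, hb⟩, rfl⟩
  refine ⟨hcomp, ?_⟩
  intro z hz
  by_contra hno
  push Not at hno
  have hzA : z ∉ A := by
    intro hzA
    exact hno (fun _ => z) (fun _ => hzA) tendsto_const_nhds
  have hAS : A ⊆ ({z}ᶜ : Set Z) := by
    rintro a ha rfl
    exact hzA ha
  have := (key (hG ({z}ᶜ : Set Z)) hAS ?_).2 hz
  · exact this rfl
  intro B hB hinf
  have hinf' : (Subtype.val '' B).Infinite := hinf.image Subtype.val_injective.injOn
  have hBA : Subtype.val '' B ⊆ A := by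
    rintro _ ⟨b, hb, rfl⟩
    exact hB hb
  let b : ℕ → Z := fun n => (hinf'.natEmbedding _ n : Z)
  have hbB : ∀ n, b n ∈ Subtype.val '' B := fun n => (hinf'.natEmbedding _ n).2
  have hbinj : Function.Injective b := by
    intro m n hmn
    exact (hinf'.natEmbedding _).injective (Subtype.ext hmn)
  have hnb := hno b (fun n => hBA (hbB n))
  rw [tendsto_nhds] at hnb
  push Not at hnb
  obtain ⟨U, hU, hzU, hUn⟩ := hnb
  have hfreq : ∃ᶠ n in atTop, b n ∉ U := by
    intro h
    apply hUn
    filter_upwards [h] with n hn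
    exact not_not.mp hn
  have hinfU : {n | b n ∉ U}.Infinite := Nat.frequently_atTop_iff_infinite.mp hfreq
  obtain ⟨w, hw⟩ := hA (b '' {n | b n ∉ U}) (by
    rintro _ ⟨n, _, rfl⟩
    exact hBA (hbB n)) (hinfU.image hbinj.injOn)
  rw [acc_iff] at hw
  have hwU : w ∉ U := by
    intro hwU
    obtain ⟨x, hx1, ⟨n, hn, rfl⟩⟩ := (hw U (hU.mem_nhds hwU)).nonempty
    exact hn hx1
  have hwz : w ≠ z := fun h => hwU (h ▸ hzU)
  refine ⟨⟨w, hwz⟩, ?_⟩
  rw [acc_iff]
  intro V hV
  rw [nhds_subtype_eq_comap] at hV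
  obtain ⟨V', hV', hVV⟩ := hV
  intro hf
  apply hw V' hV'
  apply (hf.image Subtype.val).subset
  rintro _ ⟨hx, ⟨n, hn, rfl⟩⟩
  obtain ⟨c, hc, hcb⟩ := hbB n
  refine ⟨c, ⟨hVV ?_, hc⟩, hcb⟩
  rw [Set.mem_preimage, hcb]
  exact hx

theorem g_of_ang {Z : Type*} [TopologicalSpace Z] [T2Space Z] (hZ : Ang Z) (S : Set Z) :
    GSpace S := by
  intro A hA
  have hA' : CountablyCompactIn (Subtype.val '' A) := cc_image hA _ continuous_subtype_val
  obtain ⟨h1, h2⟩ := hZ _ hA'
  have hsub : closure (Subtype.val '' A) ⊆ S := by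
    intro z hz
    obtain ⟨u, hu, hlim⟩ := h2 z hz
    choose v hv hvu using hu
    obtain ⟨s, hs⟩ := limit_eq hA Subtype.val continuous_subtype_val Subtype.val_injective v hv z
      (by simpa only [hvu] using hlim)
    rw [← hs]
    exact s.2
  rw [Subtype.isCompact_iff]
  have h3 : Subtype.val '' (closure A) = closure (Subtype.val '' A) := by
    apply subset_antisymm
    · exact image_closure_subset_closure_image continuous_subtype_val
    · intro z hz
      refine ⟨⟨z, hsub hz⟩, ?_, rfl⟩
      rw [closure_subtype]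
      exact hz
  rw [h3]
  exact h1

theorem ang_prod {X : Type*} {Y : Type*} [TopologicalSpace X] [TopologicalSpace Y] [Countable Y]
    (hX : Ang (Cp X)) : Ang (Cp (X × Y)) := by
  classical
  intro A hA
  -- restriction maps
  let r : Y → Cp (X × Y) → Cp X := fun y f =>
    ⟨fun x => f.1 (x, y), f.2.comp (continuous_id.prodMk continuous_const)⟩
  have hr : ∀ y, Continuous (r y) := by
    intro y
    apply Continuous.subtype_mk
    apply continuous_pi
    intro x
    exact (continuous_apply (x, y)).comp continuous_subtype_val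
  have hK : ∀ y, IsCompact (closure (r y '' A)) := fun y => (hX _ (cc_image hA _ (hr y))).1
  let K' : Y → Set (X → ℝ) := fun y => Subtype.val '' (closure (r y '' A))
  have hK' : ∀ y, IsCompact (K' y) := fun y => (hK y).image continuous_subtype_val
  let Ψ : (Y → (X → ℝ)) → (X × Y → ℝ) := fun g p => g p.2 p.1
  have hΨ : Continuous Ψ := by
    apply continuous_pi
    intro p
    exact (continuous_apply p.1).comp (continuous_apply p.2)
  let T : Set (X × Y → ℝ) := Ψ '' (Set.pi Set.univ K')
  have hT : IsCompact T := (isCompact_univ_pi hK').image hΨ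
  have hTmem : ∀ f ∈ T, ∀ y, Continuous (fun x => f (x, y)) := by
    rintro _ ⟨g, hg, rfl⟩ y
    obtain ⟨k, _, hk⟩ := hg y trivial
    show Continuous (g y)
    rw [← hk]
    exact k.2
  have hAT : Subtype.val '' A ⊆ T := by
    rintro _ ⟨a, ha, rfl⟩
    refine ⟨fun y x => a.1 (x, y), ?_, rfl⟩
    intro y _
    exact ⟨r y a, subset_closure ⟨a, ha, rfl⟩, rfl⟩
  have hCT : closure (Subtype.val '' A) ⊆ T := closure_minimal hAT hT.isClosed
  have hC : IsCompact (closure (Subtype.val '' A)) := hT.of_isClosed_subset isClosed_closure hCT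
  obtain ⟨e, he⟩ := exists_injective_nat Y
  let w : Y → ℝ := fun y => (1 / 2 : ℝ) ^ (e y)
  have hw : Summable w := summable_geometric_two.comp_injective he
  have hwpos : ∀ y, 0 < w y := fun y => by positivity
  -- each point of the closure is a sequential limit
  have hseq : ∀ f ∈ closure (Subtype.val '' A), ∃ u : ℕ → Cp (X × Y), (∀ n, u n ∈ A) ∧
      Tendsto (fun n => (u n).1) atTop (𝓝 f) := by
    intro f hf
    let θ : (X × Y → ℝ) → (X → ℝ) := fun g x => ∑' y, w y * min 1 |g (x, y) - f (x, y)|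
    have hterm : ∀ (g : X × Y → ℝ) (x : X) (y : Y),
        ‖w y * min 1 |g (x, y) - f (x, y)|‖ ≤ w y := by
      intro g x y
      rw [Real.norm_eq_abs, abs_of_nonneg (mul_nonneg (hwpos y).le (by positivity))]
      calc w y * min 1 |g (x, y) - f (x, y)| ≤ w y * 1 :=
            mul_le_mul_of_nonneg_left (min_le_left _ _) (hwpos y).le
        _ = w y := mul_one _
    have hθ : Continuous θ := by
      apply continuous_pi
      intro x
      refine continuous_tsum (u := w) ?_ hw (fun y g => hterm g x y)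
      intro y
      exact continuous_const.mul
        (continuous_const.min (((continuous_apply (x, y)).sub continuous_const).abs))
    have hθc : ∀ g ∈ T, Continuous (θ g) := by
      intro g hg
      refine continuous_tsum (u := w) ?_ hw (fun y x => hterm g x y)
      intro y
      exact continuous_const.mul
        (continuous_const.min (((hTmem g hg y).sub (hTmem f (hCT hf) y)).abs))
    have hθf : θ f = 0 := by
      funext x
      simp [θ]
    let D : Set (Cp X) := {h | ∃ a ∈ A, h.1 = θ a.1}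
    let M : Set (Cp X) := {h | h.1 ∈ θ '' T}
    have hM : IsCompact M := by
      rw [Subtype.isCompact_iff]
      have : Subtype.val '' M = θ '' T := by
        apply subset_antisymm
        · rintro _ ⟨h, hh, rfl⟩
          exact hh
        · rintro _ ⟨g, hg, rfl⟩
          exact ⟨⟨θ g, hθc g hg⟩, ⟨g, hg, rfl⟩, rfl⟩
      rw [this]
      exact hT.image hθ
    have hDM : D ⊆ M := by
      rintro h ⟨a, ha, hh⟩
      exact ⟨a.1, hAT ⟨a, ha, rfl⟩, hh.symm⟩
    have hDcc : CountablyCompactIn D := by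
      intro B hB hinf
      obtain ⟨x, _, hx⟩ := hinf.exists_accPt_of_subset_isCompact hM (hB.trans hDM)
      exact ⟨x, hx⟩
    have h0 : (⟨0, continuous_const⟩ : Cp X) ∈ closure D := by
      rw [closure_subtype]
      have h1 : θ f ∈ closure (θ '' (Subtype.val '' A)) :=
        image_closure_subset_closure_image hθ ⟨f, hf, rfl⟩
      rw [hθf] at h1
      refine closure_mono ?_ h1
      rintro _ ⟨_, ⟨a, ha, rfl⟩, rfl⟩
      exact ⟨⟨θ a.1, hθc _ (hAT ⟨a, ha, rfl⟩)⟩, ⟨a, ha, rfl⟩, rfl⟩
    obtain ⟨d, hd, hlim⟩ := (hX D hDcc).2 _ h0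
    choose u hu hdu using hd
    refine ⟨u, hu, ?_⟩
    rw [tendsto_pi_nhds]
    rintro ⟨x, y⟩
    have h1 : Tendsto (fun n => (d n).1 x) atTop (𝓝 0) := by
      have h2 : Continuous (fun h : Cp X => h.1 x) :=
        (continuous_apply x).comp continuous_subtype_val
      exact (h2.tendsto _).comp hlim
    have h2 : ∀ n, w y * min 1 |(u n).1 (x, y) - f (x, y)| ≤ (d n).1 x := by
      intro n
      rw [hdu n]
      have hs : Summable (fun y => w y * min 1 |(u n).1 (x, y) - f (x, y)|) :=
        Summable.of_norm_bounded hw (fun y => hterm _ x y)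
      exact hs.le_tsum y (fun y' _ => mul_nonneg (hwpos y').le (by positivity))
    have h3 : Tendsto (fun n => w y * min 1 |(u n).1 (x, y) - f (x, y)|) atTop (𝓝 0) :=
      squeeze_zero (fun n => mul_nonneg (hwpos y).le (by positivity)) h2 h1
    have h4 : Tendsto (fun n => min 1 |(u n).1 (x, y) - f (x, y)|) atTop (𝓝 0) := by
      have h5 := h3.const_mul (w y)⁻¹
      rw [mul_zero] at h5
      refine h5.congr (fun n => ?_)
      rw [← mul_assoc, inv_mul_cancel₀ (hwpos y).ne', one_mul]
    have h6 : Tendsto (fun n => |(u n).1 (x, y) - f (x, y)|) atTop (𝓝 0) := by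
      refine h4.congr' ?_
      have h7 : ∀ᶠ n in atTop, min 1 |(u n).1 (x, y) - f (x, y)| < 1 :=
        h4.eventually (gt_mem_nhds one_pos)
      filter_upwards [h7] with n hn
      rcases min_lt_iff.mp hn with h8 | h8
      · exact absurd h8 (lt_irrefl _)
      · exact min_eq_right h8.le
    have h9 : Tendsto (fun n => (u n).1 (x, y) - f (x, y)) atTop (𝓝 0) :=
      (tendsto_zero_iff_abs_tendsto_zero _).mpr h6
    have h10 := h9.add_const (f (x, y))
    simpa using h10
  -- points of the closure are continuous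
  have hcont : ∀ f ∈ closure (Subtype.val '' A), Continuous f := by
    intro f hf
    obtain ⟨u, hu, hlim⟩ := hseq f hf
    obtain ⟨z, hz⟩ := limit_eq hA Subtype.val continuous_subtype_val Subtype.val_injective u hu f
      hlim
    rw [← hz]
    exact z.2
  constructor
  · rw [Subtype.isCompact_iff]
    have h3 : Subtype.val '' (closure A) = closure (Subtype.val '' A) := by
      apply subset_antisymm
      · exact image_closure_subset_closure_image continuous_subtype_val
      · intro z hz
        refine ⟨⟨z, hcont z hz⟩, ?_, rfl⟩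
        rw [closure_subtype]
        exact hz
    rw [h3]
    exact hC
  · intro z hz
    rw [closure_subtype] at hz
    obtain ⟨u, hu, hlim⟩ := hseq _ hz
    refine ⟨u, hu, ?_⟩
    rw [tendsto_subtype_rng]
    exact hlim

theorem main {X : Type*} {Y : Type*} [TopologicalSpace X] [TopologicalSpace Y] [Countable Y]
    (hX : Grothendieck X) : Grothendieck (X × Y) :=
  g_of_ang (ang_prod (ang_of_g hX))

end Pool.Agent.Groth
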