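import Mathlib
import Pool.Agent.GrothDefs
import Pool.Agent.GrothMain

set_option autoImplicit false

namespace Pool.Agent.Groth

open Topology Filter

lemma cc_mono {Z : Type*} [TopologicalSpace Z] {A B : Set Z} (hA : CountablyCompactIn A)
    (h : B ⊆ A) : CountablyCompactIn B := fun C hC hinf => hA C (hC.trans h) hinf

lemma cc_closed {Z : Type*} [TopologicalSpace Z] [T1Space Z] {A C : Set Z}
    (hA : CountablyCompactIn A) (hC : IsClosed C) :
    CountablyCompactIn (Subtype.val ⁻¹' A : Set C) := by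
  intro B hB hinf
  have hinf' : (Subtype.val '' B).Infinite := hinf.image Subtype.val_injective.injOn
  obtain ⟨z, hz⟩ := hA (Subtype.val '' B) (by rintro _ ⟨b, hb, rfl⟩; exact hB hb) hinf'
  rw [acc_iff] at hz
  have hzC : z ∈ C := by
    rw [← hC.closure_eq, mem_closure_iff_nhds]
    intro U hU
    obtain ⟨x, hx1, ⟨b, hb, rfl⟩⟩ := (hz U hU).nonempty
    exact ⟨b, hx1, b.2⟩
  refine ⟨⟨z, hzC⟩, ?_⟩
  rw [acc_iff]
  intro U hU
  rw [nhds_subtype_eq_comap] at hU
  obtain ⟨V, hV, hVU⟩ := hU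
  intro hf
  apply hz V hV
  apply (hf.image Subtype.val).subset
  rintro _ ⟨hx, ⟨b, hb, rfl⟩⟩
  exact ⟨b, ⟨hVU hx, hb⟩, rfl⟩

/-- lifting of convergence -/
lemma lift_tendsto {Z W : Type*} [TopologicalSpace Z] [T1Space Z] [TopologicalSpace W] [T2Space W]
    (ρ : Z → W) (hρ : Continuous ρ) (hinj : Function.Injective ρ) {A : Set Z}
    (hA : CountablyCompactIn A) (b : ℕ → Z) (hb : ∀ n, b n ∈ A) (z : Z)
    (hlim : Tendsto (fun n => ρ (b n)) atTop (𝓝 (ρ z))) : Tendsto b atTop (𝓝 z) := by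
  rw [tendsto_nhds]
  intro U hU hzU
  by_contra hcon
  have hfreq : ∃ᶠ n in atTop, b n ∉ U := by
    intro h
    apply hcon
    filter_upwards [h] with n hn
    exact not_not.mp hn
  obtain ⟨φ, hφ, hφU⟩ := extraction_of_frequently_atTop hfreq
  have hcc := cc_closed hA hU.isClosed_compl
  obtain ⟨w, hw⟩ := limit_eq hcc (fun x : (Uᶜ : Set Z) => ρ x.1)
    (hρ.comp continuous_subtype_val) (fun x y hxy => Subtype.ext (hinj hxy))
    (fun n => (⟨b (φ n), hφU n⟩ : (Uᶜ : Set Z))) (fun n => hb (φ n)) (ρ z)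
    (hlim.comp hφ.tendsto_atTop)
  exact w.2 (hinj hw ▸ hzU)

/-- the angelic lemma -/
theorem ang_lemma {Z W : Type*} [TopologicalSpace Z] [T3Space Z] [TopologicalSpace W] [T2Space W]
    (ρ : Z → W) (hρ : Continuous ρ) (hinj : Function.Injective ρ) (hW : Ang W) : Ang Z := by
  intro A hA
  have hρA : CountablyCompactIn (ρ '' A) := cc_image hA ρ hρ
  obtain ⟨hC, hseq⟩ := hW _ hρA
  -- every point of the closure of a subset of ρ(A) lifts to a sequential limit
  have hlift : ∀ A' ⊆ A, ∀ w ∈ closure (ρ '' A'), ∃ (z : Z) (b : ℕ → Z), (∀ n, b n ∈ A') ∧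
      ρ z = w ∧ Tendsto b atTop (𝓝 z) := by
    intro A' hA' w hw
    have hcc' := cc_mono hA hA'
    obtain ⟨u, hu, hlim⟩ := (hW _ (cc_image hcc' ρ hρ)).2 w hw
    choose b hb hbu using hu
    have hlim' : Tendsto (fun n => ρ (b n)) atTop (𝓝 w) := by simpa only [hbu] using hlim
    obtain ⟨z, hz⟩ := limit_eq hcc' ρ hρ hinj b hb w hlim'
    exact ⟨z, b, hb, hz, lift_tendsto ρ hρ hinj hcc' b hb z (by rw [hz]; exact hlim')⟩
  have hcl : closure A = ρ ⁻¹' (closure (ρ '' A)) := by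
    apply subset_antisymm
    · intro z hz
      exact image_closure_subset_closure_image hρ ⟨z, hz, rfl⟩
    · intro z hz
      obtain ⟨z', b, hb, hz', hlim⟩ := hlift A subset_rfl (ρ z) hz
      rw [← hinj hz']
      exact mem_closure_of_tendsto hlim (Eventually.of_forall hb)
  constructor
  · rw [isCompact_iff_ultrafilter_le_nhds]
    intro 𝒰 h𝒰
    rw [le_principal_iff] at h𝒰
    have h1 : ((𝒰.map ρ : Ultrafilter W) : Filter W) ≤ 𝓟 (closure (ρ '' A)) := by
      rw [le_principal_iff, Ultrafilter.coe_map, mem_map]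
      rw [← hcl]
      exact h𝒰
    obtain ⟨w, hw, hwlim⟩ := isCompact_iff_ultrafilter_le_nhds.mp hC _ h1
    obtain ⟨z, b, hb, hzw, hlim⟩ := hlift A subset_rfl w hw
    refine ⟨z, mem_closure_of_tendsto hlim (Eventually.of_forall hb), ?_⟩
    intro U₀ hU₀
    obtain ⟨U, hUsub, hU, hzU⟩ := mem_nhds_iff.mp hU₀
    by_contra hnot
    have hUn : U ∉ (𝒰 : Filter Z) := fun h => hnot (mem_of_superset h hUsub)
    have hUc : Uᶜ ∈ (𝒰 : Filter Z) := Ultrafilter.compl_mem_iff_notMem.mpr hUn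
    obtain ⟨V, hV, hVcl, hVU⟩ := exists_mem_nhds_isClosed_subset (hU.mem_nhds hzU)
    have hsub : ρ '' (Uᶜ ∩ closure A) ⊆ closure (ρ '' (A \ V)) := by
      rintro _ ⟨p, ⟨hpU, hpA⟩, rfl⟩
      rw [hcl] at hpA
      obtain ⟨p', c, hc, hp', hclim⟩ := hlift A subset_rfl (ρ p) hpA
      have hpp := hinj hp'
      subst hpp
      have hpV : p' ∉ V := fun h => hpU (hVU h)
      have hev : ∀ᶠ n in atTop, c n ∈ Vᶜ := hclim (hVcl.isOpen_compl.mem_nhds hpV)
      refine mem_closure_of_tendsto ((hρ.tendsto _).comp hclim) ?_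
      filter_upwards [hev] with n hn
      exact ⟨c n, ⟨hc n, hn⟩, rfl⟩
    have hw2 : w ∈ closure (ρ '' (A \ V)) := by
      have h2 : closure (ρ '' (A \ V)) ∈ ((𝒰.map ρ : Ultrafilter W) : Filter W) := by
        rw [Ultrafilter.coe_map, mem_map]
        filter_upwards [hUc, h𝒰] with x hx1 hx2
        exact hsub ⟨x, ⟨hx1, hx2⟩, rfl⟩
      rw [← isClosed_closure.closure_eq]
      exact mem_closure_iff_ultrafilter.mpr ⟨𝒰.map ρ, h2, hwlim⟩
    obtain ⟨z', c, hc, hz', hclim⟩ := hlift (A \ V) sdiff_le w hw2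
    have hzz : z' = z := hinj (hz'.trans hzw.symm)
    rw [hzz] at hclim
    have h9 : ∀ᶠ n in atTop, c n ∈ V := hclim hV
    obtain ⟨n, hn⟩ := h9.exists
    exact (hc n).2 hn
  · intro z hz
    rw [hcl] at hz
    obtain ⟨z', b, hb, hz', hlim⟩ := hlift A subset_rfl (ρ z) hz
    exact ⟨b, hb, hinj hz' ▸ hlim⟩

lemma real_bdd {A : Set ℝ} (hA : CountablyCompactIn A) : ∃ M : ℝ, ∀ a ∈ A, |a| ≤ M := by
  by_contra hcon
  push Not at hcon
  choose b hb hbn using fun n : ℕ => hcon n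
  have hinf : (Set.range b).Infinite := by
    intro hfin
    obtain ⟨M, hM⟩ := (hfin.image (fun x => |x|)).bddAbove
    obtain ⟨n, hn⟩ := exists_nat_gt M
    have := hM ⟨b n, ⟨n, rfl⟩, rfl⟩
    have h2 := hbn n
    simp only at this
    linarith
  obtain ⟨z, hz⟩ := hA (Set.range b) (by rintro _ ⟨n, rfl⟩; exact hb n) hinf
  rw [acc_iff] at hz
  apply hz _ (Metric.ball_mem_nhds z one_pos)
  obtain ⟨N, hN⟩ := exists_nat_gt (|z| + 1)
  apply ((Set.finite_lt_nat N).image b).subset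
  rintro _ ⟨hx, ⟨n, rfl⟩⟩
  refine ⟨n, ?_, rfl⟩
  by_contra hn
  have h1 : (N : ℝ) ≤ n := by exact_mod_cast not_lt.mp hn
  have h2 := hbn n
  rw [Metric.mem_ball, Real.dist_eq] at hx
  have h3 : |b n| ≤ |b n - z| + |z| := by
    have := abs_add_le (b n - z) z
    simpa using this
  linarith

theorem ang_seq {ι : Type*} [Countable ι] : Ang (ι → ℝ) := by
  intro A hA
  have hb : ∀ n, ∃ M : ℝ, ∀ a ∈ A, |a n| ≤ M := by
    intro n
    obtain ⟨M, hM⟩ := real_bdd (cc_image hA (fun a : ι → ℝ => a n) (continuous_apply n))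
    exact ⟨M, fun a ha => hM _ ⟨a, ha, rfl⟩⟩
  choose M hM using hb
  have hT : IsCompact (Set.pi Set.univ (fun n => Set.Icc (-(M n)) (M n))) :=
    isCompact_univ_pi (fun n => isCompact_Icc)
  constructor
  · apply hT.of_isClosed_subset isClosed_closure
    apply closure_minimal _ hT.isClosed
    intro a ha n _
    exact abs_le.mp (hM n a ha)
  · intro z hz
    exact mem_closure_iff_seq_limit.mp hz

theorem ang_of_dense {Y : Type*} [TopologicalSpace Y] (s : Set Y) (hs : s.Countable)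
    (hd : Dense s) : Ang (Cp Y) := by
  have : Countable s := hs.to_subtype
  refine ang_lemma (W := s → ℝ) (fun f y => f.1 y.1) ?_ ?_ ang_seq
  · apply continuous_pi
    intro y
    exact (continuous_apply y.1).comp continuous_subtype_val
  · intro f g hfg
    apply Subtype.ext
    apply Continuous.ext_on hd f.2 g.2
    intro y hy
    exact congrFun hfg ⟨y, hy⟩

theorem grothendieck_of_dense {Y : Type*} [TopologicalSpace Y] (s : Set Y) (hs : s.Countable)
    (hd : Dense s) : Grothendieck Y := g_of_ang (ang_of_dense s hs hd)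

end Pool.Agent.Groth
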