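import Mathlib
import Pool.Agent.GrothDefs
import Pool.Agent.GrothMain
import Pool.Agent.GrothAng

set_option autoImplicit false

namespace Pool.Agent.Groth.Ex

open Topology Filter Pool.Agent.Groth

/-- the uncountable discrete set -/
abbrev D : Type := ℕ → Bool

/-- the index set: sequences in `D` -/
abbrev I : Type := ℕ → D

lemma exists_not_mem (R : Set D) (hR : R.Countable) : ∃ d : D, d ∉ R := by
  by_contra hcon
  push Not at hcon
  have h1 : (Set.univ : Set D).Countable := hR.mono (fun d _ => hcon d)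
  rw [Set.countable_univ_iff] at h1
  have h2 := h1
  obtain ⟨g, hg⟩ := exists_surjective_nat D
  obtain ⟨n, hn⟩ := hg (fun n => !(g n n))
  have := congrFun hn n
  simp at this

open Classical in
/-- the embedding of the one point extension -/
noncomputable def φ : Option D → (I → Bool)
  | none => fun _ => false
  | some d => fun i => decide (d ∈ Set.range i)

lemma φ_some (d : D) (i : I) : φ (some d) i = true ↔ d ∈ Set.range i := by
  simp [φ]

/-- restriction of an index -/
def res (n : ℕ) (i : I) : Fin n → Fin n → Bool := fun a b => i a b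

/-- the countable dense set -/
def q (c : Σ n : ℕ, ((Fin n → Fin n → Bool) → Bool)) : I → Bool := fun i => c.2 (res c.1 i)

lemma res_sep (J : Finset I) : ∃ n : ℕ, ∀ i ∈ J, ∀ j ∈ J, res n i = res n j → i = j := by
  classical
  have hpair : ∀ i j : I, ∃ n : ℕ, ∀ m, n ≤ m → res m i = res m j → i = j := by
    intro i j
    by_cases hij : i = j
    · exact ⟨0, fun _ _ _ => hij⟩
    · obtain ⟨a, ha⟩ := Function.ne_iff.mp hij
      obtain ⟨b, hb⟩ := Function.ne_iff.mp ha
      refine ⟨max a b + 1, ?_⟩
      intro m hm h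
      exfalso
      have ha' : a < m := by have := le_max_left a b; omega
      have hb' : b < m := by have := le_max_right a b; omega
      exact hb (congrFun (congrFun h ⟨a, ha'⟩) ⟨b, hb'⟩)
  choose N hN using hpair
  refine ⟨(J ×ˢ J).sup (fun p => N p.1 p.2), ?_⟩
  intro i hi j hj h
  apply hN i j _ _ h
  exact Finset.le_sup (f := fun p : I × I => N p.1 p.2) (Finset.mk_mem_product hi hj)

lemma q_dense (J : Finset I) (t : I → Bool) : ∃ c, ∀ i ∈ J, q c i = t i := by
  classical
  obtain ⟨n, hn⟩ := res_sep J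
  refine ⟨⟨n, fun r => decide (∃ i ∈ J, res n i = r ∧ t i = true)⟩, ?_⟩
  intro i hi
  show decide (∃ i' ∈ J, res n i' = res n i ∧ t i' = true) = t i
  rcases h : t i with _ | _
  · rw [decide_eq_false_iff_not]
    rintro ⟨j, hj, hji, htj⟩
    have := hn j hj i hi hji
    rw [this, h] at htj
    exact Bool.false_ne_true htj
  · rw [decide_eq_true_eq]
    exact ⟨i, hi, rfl, h⟩

/-- the separable space -/
def YS : Set ((I → Bool) × ℝ) :=
  {y | (∃ x : Option D, y = (φ x, 0)) ∨ ∃ c, ∃ n : ℕ, y = (q c, 1 / ((n : ℝ) + 1))}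

abbrev Y : Type := YS

/-- the closed subspace -/
def FS : Set (I → Bool) := Set.range φ

abbrev F : Type := FS

/-- the embedding -/
def j (z : F) : Y := ⟨(z.1, 0), Or.inl (by obtain ⟨x, hx⟩ := z.2; exact ⟨x, by rw [hx]⟩)⟩

lemma j_cont : Continuous j := by
  apply Continuous.subtype_mk
  exact continuous_subtype_val.prodMk continuous_const

lemma j_inj : Function.Injective j := by
  intro a b hab
  have h1 : ((a.1, (0:ℝ)) : (I → Bool) × ℝ) = (b.1, 0) := congrArg Subtype.val hab
  exact Subtype.ext (congrArg Prod.fst h1)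

lemma j_range : Set.range j = {y : Y | y.1.2 = 0} := by
  ext y
  constructor
  · rintro ⟨z, rfl⟩
    rfl
  · intro hy
    rcases y.2 with ⟨x, hx⟩ | ⟨c, n, hx⟩
    · refine ⟨⟨φ x, x, rfl⟩, Subtype.ext ?_⟩
      exact hx.symm
    · exfalso
      have h1 : y.1.2 = 1 / ((n : ℝ) + 1) := by rw [hx]
      have h2 : (0 : ℝ) < 1 / ((n : ℝ) + 1) := Nat.one_div_pos_of_nat
      rw [Set.mem_ofPred_eq] at hy
      linarith

lemma j_closed : IsClosedEmbedding j := by
  refine ⟨⟨⟨?_⟩, j_inj⟩, ?_⟩
  · apply le_antisymm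
    · exact continuous_iff_le_induced.mp j_cont
    · have h : Continuous (fun y : Y => y.1.1) := continuous_fst.comp continuous_subtype_val
      intro U hU
      obtain ⟨V, hV, rfl⟩ := hU
      exact ⟨(fun y : Y => y.1.1) ⁻¹' V, hV.preimage h, rfl⟩
  · rw [j_range]
    exact isClosed_singleton.preimage (continuous_snd.comp continuous_subtype_val)

/-- the countable dense subset -/
def S : Set Y := {y | ∃ c, ∃ n : ℕ, y.1 = (q c, 1 / ((n : ℝ) + 1))}

lemma S_countable : S.Countable := by
  have h1 : (Set.range (fun p : (Σ n : ℕ, ((Fin n → Fin n → Bool) → Bool)) × ℕ =>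
      ((q p.1, 1 / ((p.2 : ℝ) + 1)) : (I → Bool) × ℝ))).Countable := Set.countable_range _
  have h2 := h1.preimage (f := (Subtype.val : Y → (I → Bool) × ℝ)) Subtype.val_injective
  apply h2.mono
  rintro y ⟨c, n, hy⟩
  exact ⟨(c, n), hy.symm⟩

lemma S_dense : Dense S := by
  classical
  intro y
  rcases y.2 with ⟨x, hx⟩ | h
  · rw [mem_closure_iff]
    intro U hU hyU
    obtain ⟨V, hV, rfl⟩ := isOpen_induced_iff.mp hU
    have hyV : y.1 ∈ V := hyU
    rw [hx] at hyV
    obtain ⟨V₁, V₂, hV₁, hV₂, h1, h2, h12⟩ := isOpen_prod_iff.mp hV _ _ hyV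
    obtain ⟨J, u, hu, huV⟩ := isOpen_pi_iff.mp hV₁ _ h1
    obtain ⟨c, hc⟩ := q_dense J (φ x)
    have h3 : Tendsto (fun n : ℕ => 1 / ((n : ℝ) + 1)) atTop (𝓝 0) :=
      tendsto_one_div_add_atTop_nhds_zero_nat
    have h4 : ∀ᶠ n : ℕ in atTop, 1 / ((n : ℝ) + 1) ∈ V₂ := h3 (hV₂.mem_nhds h2)
    obtain ⟨n, hn⟩ := h4.exists
    refine ⟨⟨(q c, 1 / ((n : ℝ) + 1)), Or.inr ⟨c, n, rfl⟩⟩, ?_, c, n, rfl⟩
    show ((q c, 1 / ((n : ℝ) + 1)) : (I → Bool) × ℝ) ∈ V
    apply h12
    refine ⟨huV ?_, hn⟩
    intro i hi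
    show q c i ∈ u i
    rw [hc i hi]
    exact (hu i hi).2
  · exact subset_closure h

/-- the space `X` -/
abbrev X : Type := Y ⊕ F

/-- the perfect map -/
def f : X → Y := Sum.elim id j

lemma f_cont : Continuous f := continuous_id.sumElim j_cont

lemma f_closed : IsClosedMap f := by
  intro C hC
  have h1 : f '' C = (Sum.inl ⁻¹' C) ∪ j '' (Sum.inr ⁻¹' C) := by
    ext y
    constructor
    · rintro ⟨x | x, hx, rfl⟩
      · exact Or.inl hx
      · exact Or.inr ⟨x, hx, rfl⟩
    · rintro (hx | ⟨x, hx, rfl⟩)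
      · exact ⟨Sum.inl y, hx, rfl⟩
      · exact ⟨Sum.inr x, hx, rfl⟩
  rw [h1]
  exact (hC.preimage continuous_inl).union (j_closed.isClosedMap _ (hC.preimage continuous_inr))

lemma f_surj : Function.Surjective f := fun y => ⟨Sum.inl y, rfl⟩

lemma f_fib (y : Y) : IsCompact (f ⁻¹' {y}) := by
  apply Set.Finite.isCompact
  have h1 : f ⁻¹' {y} ⊆ {Sum.inl y} ∪ (Sum.inr '' {z : F | j z = y}) := by
    rintro (x | x) hx
    · left
      exact congrArg Sum.inl hx
    · right
      exact ⟨x, hx, rfl⟩
  apply Set.Finite.subset _ h1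
  apply (Set.finite_singleton _).union
  apply Set.Finite.image
  apply Set.Subsingleton.finite
  intro a ha b hb
  exact j_inj (ha.trans hb.symm)

/-- complete regularity of sums -/
lemma t35_sum {X₁ X₂ : Type*} [TopologicalSpace X₁] [TopologicalSpace X₂] [T35Space X₁]
    [T35Space X₂] : T35Space (X₁ ⊕ X₂) := by
  have hcr : CompletelyRegularSpace (X₁ ⊕ X₂) := by
    constructor
    rintro (x | x) K hK hx
    · obtain ⟨g, hg, hg0, hg1⟩ := CompletelyRegularSpace.completely_regular x (Sum.inl ⁻¹' K)
        (hK.preimage continuous_inl) hx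
      refine ⟨Sum.elim g (fun _ => 1), hg.sumElim continuous_const, hg0, ?_⟩
      rintro (z | z) hz
      · exact hg1 hz
      · rfl
    · obtain ⟨g, hg, hg0, hg1⟩ := CompletelyRegularSpace.completely_regular x (Sum.inr ⁻¹' K)
        (hK.preimage continuous_inr) hx
      refine ⟨Sum.elim (fun _ => 1) g, continuous_const.sumElim hg, hg0, ?_⟩
      rintro (z | z) hz
      · rfl
      · exact hg1 hz
  have h1 : T1Space (X₁ ⊕ X₂) := inferInstance
  exact { }

/-- the point `p` -/
noncomputable def p : F := ⟨φ none, none, rfl⟩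

/-- the isolated points of `F` -/
noncomputable def e (d : D) : F := ⟨φ (some d), some d, rfl⟩

lemma F_cases (z : F) : z = p ∨ ∃ d, z = e d := by
  obtain ⟨x, hx⟩ := z.2
  rcases x with _ | d
  · left
    exact Subtype.ext hx.symm
  · right
    exact ⟨d, Subtype.ext hx.symm⟩

lemma e_apply (d : D) (i : I) : (e d).1 i = true ↔ d ∈ Set.range i := φ_some d i

lemma p_apply (i : I) : p.1 i = false := rfl

lemma p_ne_e (d : D) : p ≠ e d := by
  intro h
  have h1 : (e d).1 (fun _ => d) = true := (e_apply d _).mpr ⟨0, rfl⟩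
  rw [← h, p_apply] at h1
  exact Bool.false_ne_true h1

lemma e_inj : Function.Injective e := by
  intro a b h
  have h1 : (e a).1 (fun _ => a) = true := (e_apply a _).mpr ⟨0, rfl⟩
  rw [h] at h1
  obtain ⟨_, hn⟩ := (e_apply b _).mp h1
  exact hn

/-- functions with countable support avoiding `p` are continuous -/
lemma cont_of_countable (g : F → ℝ) (hp : g p = 0) (i : I)
    (hg : ∀ d, d ∉ Set.range i → g (e d) = 0) : Continuous g := by
  have hcoord : ∀ k : I, IsOpen {z : F | z.1 k = true} := by
    intro k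
    have : Continuous (fun z : F => z.1 k) := (continuous_apply k).comp continuous_subtype_val
    exact (isOpen_discrete {true}).preimage this
  have hcoord' : ∀ k : I, IsOpen {z : F | z.1 k = false} := by
    intro k
    have : Continuous (fun z : F => z.1 k) := (continuous_apply k).comp continuous_subtype_val
    exact (isOpen_discrete {false}).preimage this
  rw [continuous_iff_continuousAt]
  intro z
  rcases F_cases z with rfl | ⟨d, rfl⟩
  · have h1 : g =ᶠ[𝓝 p] fun _ => 0 := by
      filter_upwards [(hcoord' i).mem_nhds (p_apply i)] with z hz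
      rcases F_cases z with rfl | ⟨d, rfl⟩
      · exact hp
      · apply hg
        intro hd
        rw [← e_apply] at hd
        rw [hd] at hz
        exact Bool.false_ne_true hz.symm
    exact continuousAt_const.congr h1.symm
  · have h1 : g =ᶠ[𝓝 (e d)] fun _ => g (e d) := by
      have hd : (e d).1 (fun _ => d) = true := (e_apply d _).mpr ⟨0, rfl⟩
      filter_upwards [(hcoord (fun _ => d)).mem_nhds hd] with z hz
      rcases F_cases z with rfl | ⟨d', rfl⟩
      · rw [p_apply] at hz
        exact absurd hz Bool.false_ne_true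
      · obtain ⟨_, h2⟩ := (e_apply d' _).mp hz
        simp only at h2
        rw [h2]
    exact continuousAt_const.congr h1.symm

/-- the function attached to an index -/
def uF (i : I) : F → ℝ := fun z => if z.1 i = true then 1 else 0

lemma uF_p (i : I) : uF i p = 0 := by
  simp [uF, p_apply]

lemma uF_e (i : I) (d : D) (hd : d ∉ Set.range i) : uF i (e d) = 0 := by
  rw [← e_apply] at hd
  simp [uF, hd]

lemma uF_e' (i : I) (d : D) (hd : d ∈ Set.range i) : uF i (e d) = 1 := by
  rw [← e_apply] at hd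
  simp [uF, hd]

lemma uF_cont (i : I) : Continuous (uF i) := cont_of_countable _ (uF_p i) i (uF_e i)

/-- the elements of the bad family -/
def u (i : I) : Cp X := ⟨Sum.elim (fun _ => 0) (uF i), continuous_const.sumElim (uF_cont i)⟩

lemma bad_cc : CountablyCompactIn (Set.range u) := by
  classical
  intro B hB hinf
  let b : ℕ → Cp X := fun n => (hinf.natEmbedding _ n : Cp X)
  have hbB : ∀ n, b n ∈ B := fun n => (hinf.natEmbedding _ n).2
  have hbinj : Function.Injective b := by
    intro m n hmn
    exact (hinf.natEmbedding _).injective (Subtype.ext hmn)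
  choose k hk using fun n => hB (hbB n)
  -- one index enumerating all the ranges
  let i₀ : I := fun m => k (Nat.unpair m).1 (Nat.unpair m).2
  have hi₀ : ∀ n, Set.range (k n) ⊆ Set.range i₀ := by
    rintro n _ ⟨m, rfl⟩
    refine ⟨Nat.pair n m, ?_⟩
    simp only [i₀, Nat.unpair_pair]
  -- compact set
  let T : Set (X → ℝ) := {g | (∀ y, g (Sum.inl y) = 0) ∧ g (Sum.inr p) = 0 ∧
    (∀ d, d ∉ Set.range i₀ → g (Sum.inr (e d)) = 0)} ∩ Set.pi Set.univ (fun _ => Set.Icc 0 1)
  have hTc : IsCompact T := by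
    apply IsCompact.inter_left (isCompact_univ_pi (fun _ => isCompact_Icc))
    apply IsClosed.inter
    · have : {g : X → ℝ | ∀ y, g (Sum.inl y) = 0} = ⋂ y, {g : X → ℝ | g (Sum.inl y) = 0} := by
        ext g
        simp
      show IsClosed {g : X → ℝ | ∀ y, g (Sum.inl y) = 0}
      rw [this]
      exact isClosed_iInter (fun y => isClosed_eq (continuous_apply _) continuous_const)
    · apply IsClosed.inter
      · exact isClosed_eq (continuous_apply _) continuous_const
      · have : {g : X → ℝ | ∀ d, d ∉ Set.range i₀ → g (Sum.inr (e d)) = 0} =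
            ⋂ d, ⋂ (_ : d ∉ Set.range i₀), {g : X → ℝ | g (Sum.inr (e d)) = 0} := by
          ext g
          simp
        show IsClosed {g : X → ℝ | ∀ d, d ∉ Set.range i₀ → g (Sum.inr (e d)) = 0}
        rw [this]
        exact isClosed_iInter (fun d => isClosed_iInter (fun _ =>
          isClosed_eq (continuous_apply _) continuous_const))
  have hTcont : ∀ g ∈ T, Continuous g := by
    rintro g ⟨⟨h1, h2, h3⟩, _⟩
    have h4 : g = Sum.elim (fun _ => 0) (fun z => g (Sum.inr z)) := by
      funext x
      rcases x with x | x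
      · exact h1 x
      · rfl
    rw [h4]
    exact continuous_const.sumElim (cont_of_countable _ h2 i₀ h3)
  let M : Set (Cp X) := {h | h.1 ∈ T}
  have hM : IsCompact M := by
    rw [Subtype.isCompact_iff]
    have : Subtype.val '' M = T := by
      apply subset_antisymm
      · rintro _ ⟨h, hh, rfl⟩
        exact hh
      · intro g hg
        exact ⟨⟨g, hTcont g hg⟩, hg, rfl⟩
    rw [this]
    exact hTc
  have hrange : Set.range b ⊆ M := by
    rintro _ ⟨n, rfl⟩
    show (b n).1 ∈ T
    rw [← hk n]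
    refine ⟨⟨fun _ => rfl, uF_p (k n), ?_⟩, ?_⟩
    · intro d hd
      exact uF_e _ _ (fun h => hd (hi₀ n h))
    · rintro (x | x) _
      · exact ⟨le_rfl, zero_le_one⟩
      · show uF (k n) x ∈ Set.Icc 0 1
        unfold uF
        split_ifs
        · exact ⟨zero_le_one, le_rfl⟩
        · exact ⟨le_rfl, zero_le_one⟩
  have hinf2 : (Set.range b).Infinite := Set.infinite_range_of_injective hbinj
  obtain ⟨z, _, hz⟩ := hinf2.exists_accPt_of_subset_isCompact hM hrange
  refine ⟨z, hz.mono (principal_mono.mpr ?_)⟩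
  rintro _ ⟨n, rfl⟩
  exact hbB n

/-- the discontinuous limit -/
noncomputable def χ : X → ℝ := Sum.elim (fun _ => 0) (fun z => by
  classical exact if z = p then 0 else 1)

lemma χ_mem : χ ∈ closure (Subtype.val '' (Set.range u)) := by
  classical
  rw [mem_closure_iff]
  intro U hU hχ
  obtain ⟨J, v, hv, hvU⟩ := isOpen_pi_iff.mp hU _ hχ
  -- finite set of d's
  obtain ⟨i, hi⟩ : ∃ i : I, ∀ d, Sum.inr (e d) ∈ J → d ∈ Set.range i := by
    have hfin : {d : D | (Sum.inr (e d) : X) ∈ J}.Finite := by
      apply Set.Finite.preimage _ J.finite_toSet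
      intro a _ b _ hab
      exact e_inj (Sum.inr_injective hab)
    by_cases hne : {d : D | (Sum.inr (e d) : X) ∈ J}.Nonempty
    · obtain ⟨i, hi⟩ := hfin.countable.exists_eq_range hne
      exact ⟨i, fun d hd => hi ▸ hd⟩
    · exact ⟨fun _ _ => true, fun d hd => absurd ⟨d, hd⟩ hne⟩
  refine ⟨(u i).1, hvU ?_, u i, ⟨i, rfl⟩, rfl⟩
  intro x hx
  have heq : (u i).1 x = χ x := by
    rcases x with x | x
    · rfl
    · rcases F_cases x with rfl | ⟨d, rfl⟩
      · show uF i p = _
        rw [uF_p]
        simp [χ]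
      · show uF i (e d) = _
        rw [uF_e' i d (hi d hx)]
        simp [χ, (p_ne_e d).symm]
  rw [heq]
  exact (hv x hx).2

lemma p_closure : p ∈ closure (Set.range e) := by
  classical
  rw [mem_closure_iff]
  intro U hU hp
  obtain ⟨V, hV, rfl⟩ := isOpen_induced_iff.mp hU
  obtain ⟨J, v, hv, hvV⟩ := isOpen_pi_iff.mp hV _ hp
  obtain ⟨d, hd⟩ := exists_not_mem (⋃ i ∈ J, Set.range i)
    (Set.Countable.biUnion J.countable_toSet (fun i _ => Set.countable_range i))
  refine ⟨e d, ?_, d, rfl⟩
  apply hvV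
  intro i hi
  have h1 : (e d).1 i = p.1 i := by
    rw [p_apply]
    by_contra hne
    rw [Bool.not_eq_false, e_apply] at hne
    exact hd (Set.mem_biUnion hi hne)
  rw [h1]
  exact (hv i hi).2

lemma χ_not_cont : ¬ Continuous χ := by
  intro h
  have h1 : Continuous (fun z : F => χ (Sum.inr z)) := h.comp continuous_inr
  have h2 : χ (Sum.inr p) ∈ closure ((fun z : F => χ (Sum.inr z)) '' (Set.range e)) :=
    image_closure_subset_closure_image h1 ⟨p, p_closure, rfl⟩
  have h3 : (fun z : F => χ (Sum.inr z)) '' (Set.range e) ⊆ {1} := by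
    rintro _ ⟨_, ⟨d, rfl⟩, rfl⟩
    simp [χ, (p_ne_e d).symm]
  have h4 := closure_minimal h3 isClosed_singleton h2
  simp [χ] at h4

theorem X_bad : ¬ GSpace (Cp X) := by
  intro h
  have h1 := h _ bad_cc
  have h2 : IsCompact (Subtype.val '' (closure (Set.range u))) := h1.image continuous_subtype_val
  have h3 : closure (Subtype.val '' (Set.range u)) ⊆ Subtype.val '' (closure (Set.range u)) :=
    closure_minimal (Set.image_mono subset_closure) h2.isClosed
  obtain ⟨g, _, hg⟩ := h3 χ_mem
  exact χ_not_cont (hg ▸ g.2)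

theorem Y_good : Grothendieck Y := grothendieck_of_dense S S_countable S_dense

end Pool.Agent.Groth.Ex
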