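import Mathlib
import Pool.Agent.GrothDefs
import Pool.Agent.GrothMain
import Pool.Agent.GrothAng

set_option autoImplicit false

namespace Pool.Agent.Groth

open Topology Filter

lemma eval_cont {Y : Type*} [TopologicalSpace Y] (y : Y) : Continuous (fun f : Cp Y => f.1 y) :=
  (continuous_apply y).comp continuous_subtype_val

lemma cc_seq {Z : Type*} [TopologicalSpace Z] [T1Space Z] {A : Set Z} (hA : CountablyCompactIn A)
    (u : ℕ → Z) (hu : ∀ n, u n ∈ A) : ∃ z, MapClusterPt z atTop u := by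
  by_cases hfin : (Set.range u).Finite
  · obtain ⟨z, hz⟩ : ∃ z, ∃ᶠ n in atTop, u n = z := by
      by_contra hcon
      push Not at hcon
      have h1 : ∀ z ∈ Set.range u, ∀ᶠ n in atTop, u n ≠ z := fun z _ => by
        have := hcon z
        exact this
      have h2 : ∀ᶠ n in atTop, ∀ z ∈ Set.range u, u n ≠ z :=
        (hfin.eventually_all).mpr h1
      obtain ⟨n, hn⟩ := h2.exists
      exact hn (u n) ⟨n, rfl⟩ rfl
    refine ⟨z, ?_⟩
    rw [mapClusterPt_iff_frequently]
    intro s hs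
    exact hz.mono (fun n hn => by rw [hn]; exact mem_of_mem_nhds hs)
  · obtain ⟨z, hz⟩ := hA (Set.range u) (by rintro _ ⟨n, rfl⟩; exact hu n) hfin
    refine ⟨z, ?_⟩
    rw [mapClusterPt_iff_frequently]
    intro s hs
    rw [acc_iff] at hz
    have h1 := hz s hs
    rw [Nat.frequently_atTop_iff_infinite]
    intro hf
    apply h1
    apply (hf.image u).subset
    rintro _ ⟨hx, ⟨n, rfl⟩⟩
    exact ⟨n, hx, rfl⟩

lemma cluster_eq {Z : Type*} [TopologicalSpace Z] [T2Space Z] {v : ℕ → Z} {a b : Z}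
    (ha : MapClusterPt a atTop v) (hb : Tendsto v atTop (𝓝 b)) : a = b := by
  have h : (𝓝 a ⊓ 𝓝 b).NeBot := by
    have h1 : (𝓝 a ⊓ map v atTop).NeBot := ha
    exact h1.mono (inf_le_inf_left _ hb)
  exact eq_of_nhds_neBot h

/-- precomposition -/
def pre {Y W : Type*} [TopologicalSpace Y] [TopologicalSpace W] (j : W → Y) (hj : Continuous j)
    (f : Cp Y) : Cp W := ⟨fun w => f.1 (j w), f.2.comp hj⟩

lemma pre_cont {Y W : Type*} [TopologicalSpace Y] [TopologicalSpace W] (j : W → Y)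
    (hj : Continuous j) : Continuous (pre j hj) := by
  apply Continuous.subtype_mk
  apply continuous_pi
  intro w
  exact eval_cont (j w)

/-- separated sets of continuous metric images are countable -/
lemma sep_lemma {X : Type*} [TopologicalSpace X] (hX : Ang (Cp X)) {M : Type*}
    [PseudoMetricSpace M] (φ : X → M) (hφ : Continuous φ) (ε : ℝ) (hε : 0 < ε) (T : Set X)
    (hT : ∀ t ∈ T, ∀ t' ∈ T, t ≠ t' → ε ≤ dist (φ t) (φ t')) : T.Countable := by
  classical
  by_contra hunc
  let g : T → X → ℝ := fun t x => max 0 (1 - (3 / ε) * dist (φ x) (φ t))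
  have hg : ∀ t, Continuous (g t) := fun t =>
    continuous_const.max (continuous_const.sub (continuous_const.mul (hφ.dist continuous_const)))
  have hgpos : ∀ t x, g t x ≠ 0 → dist (φ x) (φ t) < ε / 3 := by
    intro t x h
    by_contra hcon
    push Not at hcon
    apply h
    apply max_eq_left
    have : (3 / ε) * (ε / 3) ≤ (3 / ε) * dist (φ x) (φ t) :=
      mul_le_mul_of_nonneg_left hcon (by positivity)
    have h2 : (3 / ε) * (ε / 3) = 1 := by field_simp
    linarith
  have hgself : ∀ t : T, g t t = 1 := by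
    intro t
    simp [g]
  have huniq : ∀ (x y y' : X) (t t' : T), dist (φ y) (φ x) < ε / 6 → dist (φ y') (φ x) < ε / 6 →
      g t y ≠ 0 → g t' y' ≠ 0 → t = t' := by
    intro x y y' t t' h1 h2 h3 h4
    by_contra hne
    have h5 := hT t t.2 t' t'.2 (fun h => hne (Subtype.ext h))
    have h6 := hgpos t y h3
    have h7 := hgpos t' y' h4
    have h8 : dist (φ t) (φ t') ≤ dist (φ t) (φ y) + dist (φ y) (φ x) + dist (φ x) (φ y') +
        dist (φ y') (φ t') := by
      calc dist (φ t) (φ t') ≤ dist (φ t) (φ y') + dist (φ y') (φ t') := dist_triangle _ _ _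
        _ ≤ (dist (φ t) (φ x) + dist (φ x) (φ y')) + dist (φ y') (φ t') := by
            gcongr; exact dist_triangle _ _ _
        _ ≤ ((dist (φ t) (φ y) + dist (φ y) (φ x)) + dist (φ x) (φ y')) + dist (φ y') (φ t') := by
            gcongr; exact dist_triangle _ _ _
    rw [dist_comm (φ t) (φ y), dist_comm (φ x) (φ y')] at h8
    linarith
  have hgoff : ∀ t t' : T, t ≠ t' → g t t' = 0 := by
    intro t t' hne
    by_contra h
    apply hne
    refine huniq t' t' t' t t' ?_ ?_ h ?_
    · rw [dist_self]; positivity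
    · rw [dist_self]; positivity
    · rw [hgself]; exact one_ne_zero
  have hlf : LocallyFinite (fun t : T => Function.support (g t)) := by
    intro x
    refine ⟨{y | dist (φ y) (φ x) < ε / 6}, ?_, ?_⟩
    · have : Tendsto (fun y => dist (φ y) (φ x)) (𝓝 x) (𝓝 (dist (φ x) (φ x))) :=
        (hφ.dist continuous_const).tendsto x
      rw [dist_self] at this
      exact this.eventually (gt_mem_nhds (by positivity))
    · apply Set.Subsingleton.finite
      rintro t ⟨y, hy1, hy2⟩ t' ⟨y', hy1', hy2'⟩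
      exact huniq x y y' t t' hy2 hy2' hy1 hy1'
  have hpf : ∀ x, {t : T | g t x ≠ 0}.Finite := fun x => hlf.point_finite x
  let U : (T → ℝ) → Cp X := fun c => ⟨fun x => ∑ᶠ t, c t * g t x, by
    apply continuous_finsum
    · intro t
      exact continuous_const.mul (hg t)
    · apply hlf.subset
      intro t x hx
      exact right_ne_zero_of_mul hx⟩
  have hUapp : ∀ c x, (U c).1 x = ∑ t ∈ (hpf x).toFinset, c t * g t x := by
    intro c x
    apply finsum_eq_sum_of_support_subset
    intro t ht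
    rw [Set.Finite.coe_toFinset]
    exact right_ne_zero_of_mul ht
  have hUcont : Continuous U := by
    apply Continuous.subtype_mk
    apply continuous_pi
    intro x
    have : (fun c : T → ℝ => ∑ᶠ t, c t * g t x) =
        fun c => ∑ t ∈ (hpf x).toFinset, c t * g t x := by
      funext c
      exact hUapp c x
    rw [this]
    apply continuous_finsetSum
    intro t _
    exact (continuous_apply t).mul continuous_const
  have hUt : ∀ (c : T → ℝ) (t : T), (U c).1 t = c t := by
    intro c t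
    rw [hUapp, Finset.sum_eq_single t]
    · rw [hgself, mul_one]
    · intro t' _ hne
      rw [hgoff t' t hne, mul_zero]
    · intro h
      exfalso
      apply h
      rw [Set.Finite.mem_toFinset]
      show g t t ≠ 0
      rw [hgself]
      exact one_ne_zero
  have hPc : IsCompact (Set.pi Set.univ (fun _ : T => Set.Icc (0 : ℝ) 1)) :=
    isCompact_univ_pi (fun _ => isCompact_Icc)
  have hMc : IsCompact (U '' (Set.pi Set.univ (fun _ : T => Set.Icc (0 : ℝ) 1))) :=
    hPc.image hUcont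
  let A₀ : Set (Cp X) := U '' {c | (∀ t, c t ∈ Set.Icc (0 : ℝ) 1) ∧ (Function.support c).Countable}
  have hA₀M : A₀ ⊆ U '' (Set.pi Set.univ (fun _ : T => Set.Icc (0 : ℝ) 1)) := by
    apply Set.image_mono
    rintro c ⟨hc, _⟩ t _
    exact hc t
  have hcc : CountablyCompactIn A₀ := by
    intro B hB hinf
    obtain ⟨x, _, hx⟩ := hinf.exists_accPt_of_subset_isCompact hMc (hB.trans hA₀M)
    exact ⟨x, hx⟩
  have h1 : U (fun _ => 1) ∈ closure A₀ := by
    have hlim : Tendsto (fun F : Finset T => (fun t => if t ∈ F then (1 : ℝ) else 0)) atTop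
        (𝓝 (fun _ => 1)) := by
      rw [tendsto_pi_nhds]
      intro t
      apply tendsto_const_nhds.congr'
      filter_upwards [eventually_ge_atTop {t}] with F hF
      rw [if_pos (hF (Finset.mem_singleton_self t))]
    refine mem_closure_of_tendsto ((hUcont.tendsto _).comp hlim) (Eventually.of_forall ?_)
    intro F
    refine ⟨_, ⟨?_, ?_⟩, rfl⟩
    · intro t
      dsimp only
      split_ifs
      · exact ⟨zero_le_one, le_rfl⟩
      · exact ⟨le_rfl, zero_le_one⟩
    · apply (F.countable_toSet).mono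
      intro t ht
      by_contra h
      exact ht (if_neg h)
  obtain ⟨u, hu, hlim⟩ := (hX A₀ hcc).2 _ h1
  choose c hc hcu using hu
  have hcount : (⋃ n, Function.support (c n)).Countable :=
    Set.countable_iUnion (fun n => (hc n).2)
  obtain ⟨t, ht⟩ : ∃ t : T, t ∉ ⋃ n, Function.support (c n) := by
    by_contra hcon
    push Not at hcon
    apply hunc
    have h2 : (Set.univ : Set T).Countable := hcount.mono (fun t _ => hcon t)
    have h3 := Set.countable_univ_iff.mp h2
    exact Set.countable_coe_iff.mp h3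
  have h2 : ∀ n, (u n).1 t = 0 := by
    intro n
    rw [← hcu n, hUt]
    by_contra h
    exact ht (Set.mem_iUnion.mpr ⟨n, h⟩)
  have h3 : Tendsto (fun n => (u n).1 t) atTop (𝓝 ((U (fun _ => 1)).1 t)) :=
    ((eval_cont (t : X)).tendsto _).comp hlim
  simp only [h2] at h3
  rw [hUt] at h3
  have := tendsto_nhds_unique h3 tendsto_const_nhds
  exact one_ne_zero this

lemma sep_countable {X K : Type*} [TopologicalSpace X] [TopologicalSpace K] [CompactSpace K]
    (hX : Ang (Cp X)) (a : Cp (X × K)) :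
    ∃ T : Set X, T.Countable ∧ ∀ x, ∀ ε > 0, ∃ t ∈ T, ∀ k, |a.1 (x, k) - a.1 (t, k)| < ε := by
  let φ : X → C(K, ℝ) := fun x => ⟨fun k => a.1 (x, k), a.2.comp (continuous_const.prodMk continuous_id)⟩
  have hφ : Continuous φ := (ContinuousMap.curry ⟨a.1, a.2⟩).continuous
  have hex : ∀ ε > 0, ∃ T : Set X, T.Countable ∧ ∀ x, ∃ t ∈ T, dist (φ x) (φ t) < ε := by
    intro ε hε
    obtain ⟨T, hT⟩ := zorn_subset {T : Set X | ∀ t ∈ T, ∀ t' ∈ T, t ≠ t' → ε ≤ dist (φ t) (φ t')} (by
      intro c hc hchain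
      refine ⟨⋃₀ c, ?_, fun s hs => Set.subset_sUnion_of_mem hs⟩
      rintro t ⟨s, hs, hts⟩ t' ⟨s', hs', hts'⟩ hne
      rcases hchain.total hs hs' with h | h
      · exact hc hs' t (h hts) t' hts' hne
      · exact hc hs t hts t' (h hts') hne)
    refine ⟨T, sep_lemma hX φ hφ ε hε T hT.prop, ?_⟩
    intro x
    by_contra hcon
    push Not at hcon
    have hxT : x ∉ T := by
      intro hx
      have := hcon x hx
      rw [dist_self] at this
      linarith
    apply hxT
    have h2 : insert x T ∈ {T : Set X | ∀ t ∈ T, ∀ t' ∈ T, t ≠ t' → ε ≤ dist (φ t) (φ t')} := by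
      rintro t (rfl | ht) t' (rfl | ht') hne
      · exact absurd rfl hne
      · exact hcon t' ht'
      · rw [dist_comm]; exact hcon t ht
      · exact hT.prop t ht t' ht' hne
    exact hT.le_of_ge h2 (Set.subset_insert x T) (Set.mem_insert x T)
  choose T hTc hT using fun n : ℕ => hex (1 / ((n : ℝ) + 1)) (by positivity)
  refine ⟨⋃ n, T n, Set.countable_iUnion hTc, ?_⟩
  intro x ε hε
  obtain ⟨n, hn⟩ := exists_nat_one_div_lt hε
  obtain ⟨t, ht, hd⟩ := hT n x
  refine ⟨t, Set.mem_iUnion.mpr ⟨n, ht⟩, ?_⟩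
  intro k
  have h1 := ContinuousMap.dist_apply_le_dist (f := φ x) (g := φ t) k
  rw [Real.dist_eq] at h1
  exact lt_of_le_of_lt h1 (hd.trans hn)

lemma dense_idx {K : Type*} [TopologicalSpace K] [CompactSpace K] {ι : Type*} [Countable ι]
    (ψ : ι → K → ℝ) (hψ : ∀ i, Continuous (ψ i)) :
    ∃ E : Set K, E.Countable ∧ ∀ C : Set K, IsClosed C → E ⊆ C → ∀ k, ∃ c ∈ C,
      ∀ i, ψ i c = ψ i k := by
  let q : K → (ι → ℝ) := fun k i => ψ i k
  have hq : Continuous q := continuous_pi hψ
  obtain ⟨s, hs, hd⟩ := TopologicalSpace.exists_countable_dense (Set.range q)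
  choose e he using fun r : Set.range q => r.2
  refine ⟨e '' s, hs.image e, ?_⟩
  intro C hC hEC k
  have h1 : IsClosed (q '' C) := (hC.isCompact.image hq).isClosed
  have h2 : Subtype.val '' s ⊆ q '' C := by
    rintro _ ⟨r, hr, rfl⟩
    exact ⟨e r, hEC ⟨r, hr, rfl⟩, he r⟩
  have h3 : q k ∈ q '' C := by
    have h4 : (⟨q k, ⟨k, rfl⟩⟩ : Set.range q) ∈ closure s := hd _
    rw [closure_subtype] at h4
    exact closure_minimal h2 h1 h4
  obtain ⟨c, hc, hck⟩ := h3
  exact ⟨c, hc, fun i => congrFun hck i⟩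

lemma dense_set {X K : Type*} [TopologicalSpace X] [TopologicalSpace K] [CompactSpace K]
    (hX : Ang (Cp X)) (B : Set (Cp (X × K))) (hB : B.Countable) :
    ∃ E : Set K, E.Countable ∧ ∀ C : Set K, IsClosed C → E ⊆ C → ∀ k, ∃ c ∈ C,
      ∀ a ∈ B, ∀ x, a.1 (x, c) = a.1 (x, k) := by
  choose T hTc hT using sep_countable (K := K) hX
  have : Countable B := hB.to_subtype
  have h1 : ∀ a : B, Countable (T a.1) := fun a => (hTc a.1).to_subtype
  obtain ⟨E, hE, hE2⟩ := dense_idx (ι := Σ a : B, T a.1) (fun i k => i.1.1.1 (i.2.1, k))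
    (fun i => i.1.1.2.comp (continuous_const.prodMk continuous_id))
  refine ⟨E, hE, ?_⟩
  intro C hC hEC k
  obtain ⟨c, hc, hck⟩ := hE2 C hC hEC k
  refine ⟨c, hc, ?_⟩
  intro a ha x
  by_contra hne
  have hpos : 0 < |a.1 (x, c) - a.1 (x, k)| := abs_pos.mpr (sub_ne_zero.mpr hne)
  obtain ⟨t, ht, h2⟩ := hT a x (|a.1 (x, c) - a.1 (x, k)| / 2) (by positivity)
  have h3 := h2 c
  have h4 := h2 k
  have h5 : a.1 (t, c) = a.1 (t, k) := hck ⟨⟨a, ha⟩, ⟨t, ht⟩⟩
  rw [h5] at h3
  have h6 : |a.1 (x, c) - a.1 (x, k)| ≤ |a.1 (x, c) - a.1 (t, k)| + |a.1 (x, k) - a.1 (t, k)| := by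
    have := abs_sub_le (a.1 (x, c)) (a.1 (t, k)) (a.1 (x, k))
    rw [abs_sub_comm (a.1 (t, k))] at this
    exact this
  linarith

lemma ang_transfer {Z : Type*} [TopologicalSpace Z] [T1Space Z] {C A : Set Z} (hC : IsClosed C)
    (hang : Ang C) (hA : CountablyCompactIn A) (hAC : A ⊆ C) : IsCompact (closure A) ∧
    ∀ z ∈ closure A, ∃ u : ℕ → Z, (∀ n, u n ∈ A) ∧ Tendsto u atTop (𝓝 z) := by
  obtain ⟨h1, h2⟩ := hang _ (cc_closed hA hC)
  have h3 : Subtype.val '' (Subtype.val ⁻¹' A : Set C) = A := by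
    rw [Subtype.image_preimage_coe, Set.inter_eq_right.mpr hAC]
  have h4 : closure A = Subtype.val '' (closure (Subtype.val ⁻¹' A : Set C)) := by
    conv_lhs => rw [← h3]
    exact hC.isClosedEmbedding_subtypeVal.closure_image_eq _
  rw [h4]
  refine ⟨h1.image continuous_subtype_val, ?_⟩
  rintro _ ⟨z, hz, rfl⟩
  obtain ⟨u, hu, hlim⟩ := h2 z hz
  exact ⟨fun n => (u n).1, hu, (continuous_subtype_val.tendsto _).comp hlim⟩

lemma meas_closure {X K : Type*} [TopologicalSpace X] [TopologicalSpace K]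
    {A : Set (Cp (X × K))} {h : Cp (X × K)} (hh : h ∈ closure A) {k k' : K}
    (hk : ∀ a ∈ A, ∀ x, a.1 (x, k) = a.1 (x, k')) (x : X) : h.1 (x, k) = h.1 (x, k') := by
  have hcl : IsClosed {f : Cp (X × K) | f.1 (x, k) = f.1 (x, k')} :=
    isClosed_eq (eval_cont _) (eval_cont _)
  exact closure_minimal (fun a ha => hk a ha x) hcl hh

theorem countable_case {X K : Type*} [TopologicalSpace X] [TopologicalSpace K] [CompactSpace K]
    (hX : Ang (Cp X)) {A : Set (Cp (X × K))} (hA : CountablyCompactIn A) (hc : A.Countable) :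
    IsCompact (closure A) ∧
    ∀ z ∈ closure A, ∃ u : ℕ → Cp (X × K), (∀ n, u n ∈ A) ∧ Tendsto u atTop (𝓝 z) := by
  obtain ⟨E, hE, hE2⟩ := dense_set hX A hc
  have : Countable E := hE.to_subtype
  let Z₀ : Set (Cp (X × K)) := {f | ∀ k k', (∀ a ∈ A, ∀ x, a.1 (x, k) = a.1 (x, k')) →
    ∀ x, f.1 (x, k) = f.1 (x, k')}
  have hZ₀ : IsClosed Z₀ := by
    have : Z₀ = ⋂ k, ⋂ k', ⋂ (_ : ∀ a ∈ A, ∀ x, a.1 (x, k) = a.1 (x, k')), ⋂ x,
        {f | f.1 (x, k) = f.1 (x, k')} := by
      ext f
      simp [Z₀]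
    rw [this]
    refine isClosed_iInter fun k => isClosed_iInter fun k' => isClosed_iInter fun _ =>
      isClosed_iInter fun x => isClosed_eq (eval_cont _) (eval_cont _)
  have hAZ : A ⊆ Z₀ := by
    intro a ha k k' hk x
    exact hk a ha x
  apply ang_transfer hZ₀ _ hA hAZ
  let ρ : Z₀ → Cp (X × E) := fun f =>
    pre (fun p : X × E => (p.1, (p.2 : K)))
      (continuous_fst.prodMk (continuous_subtype_val.comp continuous_snd)) f.1
  have hρ : Continuous ρ := (pre_cont _ _).comp continuous_subtype_val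
  refine ang_lemma ρ hρ ?_ (ang_prod hX)
  intro f g hfg
  apply Subtype.ext
  apply Subtype.ext
  funext p
  obtain ⟨x, k⟩ := p
  obtain ⟨c, hc, hck⟩ := hE2 {k | f.1.1 (x, k) = g.1.1 (x, k)}
    (isClosed_eq (f.1.2.comp (continuous_const.prodMk continuous_id))
      (g.1.2.comp (continuous_const.prodMk continuous_id))) (by
    intro e he
    have := congrFun (congrArg Subtype.val hfg) (x, ⟨e, he⟩)
    exact this) k
  have h1 := f.2 c k hck x
  have h2 := g.2 c k hck x
  rw [← h1, ← h2]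
  exact hc

/-- gluing sequential limits -/
theorem glue {X K : Type*} [TopologicalSpace X] [TopologicalSpace K] [CompactSpace K]
    (hX : Ang (Cp X)) {A : Set (Cp (X × K))} (hA : CountablyCompactIn A) (g : X × K → ℝ)
    (L : ℕ → Set K) (hL : ∀ n, L n ⊆ L (n + 1)) (u : ℕ → ℕ → Cp (X × K))
    (hu : ∀ n m, u n m ∈ A)
    (hlim : ∀ n x, ∀ k ∈ L n, Tendsto (fun m => (u n m).1 (x, k)) atTop (𝓝 (g (x, k)))) :
    ∃ h ∈ closure (⋃ n, Set.range (u n)), ∀ n x, ∀ k ∈ L n, h.1 (x, k) = g (x, k) := by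
  have hsub : (⋃ n, Set.range (u n)) ⊆ A := by
    rintro _ ⟨_, ⟨n, rfl⟩, ⟨m, rfl⟩⟩
    exact hu n m
  have hcount : (⋃ n, Set.range (u n)).Countable :=
    Set.countable_iUnion (fun n => Set.countable_range _)
  obtain ⟨hC, _⟩ := countable_case hX (cc_mono hA hsub) hcount
  let H : ℕ → Set (Cp (X × K)) := fun n =>
    {h | h ∈ closure (⋃ n, Set.range (u n)) ∧ ∀ x, ∀ k ∈ L n, h.1 (x, k) = g (x, k)}
  have hHcl : ∀ n, IsClosed (H n) := by
    intro n
    apply IsClosed.inter isClosed_closure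
    have : {h : Cp (X × K) | ∀ x, ∀ k ∈ L n, h.1 (x, k) = g (x, k)} =
        ⋂ x, ⋂ k, ⋂ (_ : k ∈ L n), {h | h.1 (x, k) = g (x, k)} := by
      ext f
      simp
    show IsClosed {h : Cp (X × K) | ∀ x, ∀ k ∈ L n, h.1 (x, k) = g (x, k)}
    rw [this]
    exact isClosed_iInter fun x => isClosed_iInter fun k => isClosed_iInter fun _ =>
      isClosed_eq (eval_cont _) continuous_const
  have hne : ∀ n, (H n).Nonempty := by
    intro n
    obtain ⟨z, hz⟩ := cc_seq hA (u n) (hu n)
    refine ⟨z, ?_, ?_⟩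
    · rw [mem_closure_iff_nhds]
      intro t ht
      obtain ⟨m, hm⟩ := ((mapClusterPt_iff_frequently.mp hz) t ht).exists
      exact ⟨u n m, hm, Set.mem_iUnion.mpr ⟨n, ⟨m, rfl⟩⟩⟩
    · intro x k hk
      have h1 : MapClusterPt (z.1 (x, k)) atTop (fun m => (u n m).1 (x, k)) :=
        hz.continuousAt_comp (eval_cont (x, k)).continuousAt
      exact cluster_eq h1 (hlim n x k hk)
  obtain ⟨h, hh⟩ := IsCompact.nonempty_iInter_of_sequence_nonempty_isCompact_isClosed H
    (fun n h hh => ⟨hh.1, fun x k hk => hh.2 x k (hL n hk)⟩) hne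
    (hC.of_isClosed_subset (hHcl 0) (fun h hh => hh.1)) hHcl
  rw [Set.mem_iInter] at hh
  exact ⟨h, (hh 0).1, fun n x k hk => (hh n).2 x k hk⟩

end Pool.Agent.Groth
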