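import Mathlib
import Pool.Agent.GrothK1

set_option autoImplicit false

namespace Pool.Agent.Groth

open Topology Filter

/-- sequences suffice for continuous points of the closure -/
theorem seq_case {X K : Type*} [TopologicalSpace X] [TopologicalSpace K] [CompactSpace K]
    (hX : Ang (Cp X)) {A : Set (Cp (X × K))} (hA : CountablyCompactIn A) (g : Cp (X × K))
    (hg : g ∈ closure A) :
    ∃ u : ℕ → Cp (X × K), (∀ n, u n ∈ A) ∧ Tendsto u atTop (𝓝 g) := by
  have hs : ∀ E : Set K, E.Countable → ∃ u : ℕ → Cp (X × K), (∀ n, u n ∈ A) ∧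
      ∀ x, ∀ k ∈ E, Tendsto (fun m => (u m).1 (x, k)) atTop (𝓝 (g.1 (x, k))) := by
    intro E hE
    have : Countable E := hE.to_subtype
    let j : X × E → X × K := fun p => (p.1, (p.2 : K))
    have hj : Continuous j := continuous_fst.prodMk (continuous_subtype_val.comp continuous_snd)
    have h1 : pre j hj g ∈ closure (pre j hj '' A) :=
      image_closure_subset_closure_image (pre_cont j hj) ⟨g, hg, rfl⟩
    obtain ⟨v, hv, hlim⟩ := (ang_prod hX _ (cc_image hA _ (pre_cont j hj))).2 _ h1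
    choose u hu huv using hv
    refine ⟨u, hu, ?_⟩
    intro x k hk
    have h2 : Tendsto (fun m => (v m).1 (x, ⟨k, hk⟩)) atTop (𝓝 ((pre j hj g).1 (x, ⟨k, hk⟩))) :=
      ((eval_cont (x, (⟨k, hk⟩ : E))).tendsto _).comp hlim
    simp only [← huv] at h2
    exact h2
  have hd := fun B : Set (Cp (X × K)) => dense_set hX B
  have hne : Nonempty (ℕ → Cp (X × K)) := ⟨fun _ => g⟩
  choose! s hs1 hs2 using hs
  choose! D hD1 hD2 using hd
  let P : ℕ → Set (Cp (X × K)) × Set K := fun n => Nat.rec (∅, ∅)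
    (fun _ p => (p.1 ∪ Set.range (s p.2), p.2 ∪ D (insert g (p.1 ∪ Set.range (s p.2))))) n
  have hP1 : ∀ n, (P (n + 1)).1 = (P n).1 ∪ Set.range (s (P n).2) := fun n => rfl
  have hP2 : ∀ n, (P (n + 1)).2 = (P n).2 ∪ D (insert g (P (n + 1)).1) := fun n => rfl
  have hcount : ∀ n, (P n).1.Countable ∧ (P n).2.Countable := by
    intro n
    induction n with
    | zero => exact ⟨Set.countable_empty, Set.countable_empty⟩
    | succ n ih =>
      have h1 : (P (n + 1)).1.Countable := by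
        rw [hP1]
        exact ih.1.union (Set.countable_range _)
      refine ⟨h1, ?_⟩
      rw [hP2]
      exact ih.2.union (hD1 _ (h1.insert g))
  obtain ⟨h, hh, hhg⟩ := glue hX hA g.1 (fun n => (P n).2)
    (fun n => by rw [hP2]; exact Set.subset_union_left) (fun n => s (P n).2)
    (fun n m => hs1 _ (hcount n).2 m) (fun n x k hk => hs2 _ (hcount n).2 x k hk)
  -- the sets `P n .1` are contained in the union of ranges
  have hsub : ∀ n, (P n).1 ⊆ ⋃ n, Set.range (s (P n).2) := by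
    intro n
    induction n with
    | zero => exact Set.empty_subset _
    | succ n ih =>
      rw [hP1]
      exact Set.union_subset ih (Set.subset_iUnion (fun n => Set.range (s (P n).2)) n)
  have hsup : (⋃ n, Set.range (s (P n).2)) ⊆ ⋃ n, (P n).1 := by
    apply Set.iUnion_subset
    intro n
    refine Set.Subset.trans ?_ (Set.subset_iUnion (fun n => (P n).1) (n + 1))
    show Set.range (s (P n).2) ⊆ (P (n + 1)).1
    rw [hP1]
    exact Set.subset_union_right
  have hmono : ∀ n, (P n).1 ⊆ (P (n + 1)).1 := fun n => by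
    rw [hP1]; exact Set.subset_union_left
  have hmono' : Monotone (fun n => (P n).1) := monotone_nat_of_le_succ hmono
  have hgh : h = g := by
    apply Subtype.ext
    funext p
    obtain ⟨x, k⟩ := p
    have hCcl : IsClosed {k | h.1 (x, k) = g.1 (x, k)} :=
      isClosed_eq (h.2.comp (continuous_const.prodMk continuous_id))
        (g.2.comp (continuous_const.prodMk continuous_id))
    let C : ℕ → Set K := fun n => {c | h.1 (x, c) = g.1 (x, c) ∧
      ∀ a ∈ insert g (P (n + 1)).1, ∀ y, a.1 (y, c) = a.1 (y, k)}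
    have hCn : ∀ n, IsClosed (C n) := by
      intro n
      apply IsClosed.inter hCcl
      have : {c : K | ∀ a ∈ insert g (P (n + 1)).1, ∀ y, a.1 (y, c) = a.1 (y, k)} =
          ⋂ a, ⋂ (_ : a ∈ insert g (P (n + 1)).1), ⋂ y, {c | a.1 (y, c) = a.1 (y, k)} := by
        ext c
        simp
      show IsClosed {c : K | ∀ a ∈ insert g (P (n + 1)).1, ∀ y, a.1 (y, c) = a.1 (y, k)}
      rw [this]
      exact isClosed_iInter fun a => isClosed_iInter fun _ => isClosed_iInter fun y =>
        isClosed_eq (a.2.comp (continuous_const.prodMk continuous_id)) continuous_const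
    have hCne : ∀ n, (C n).Nonempty := by
      intro n
      obtain ⟨c, hc, hck⟩ := hD2 (insert g (P (n + 1)).1) ((hcount (n + 1)).1.insert g)
        {k | h.1 (x, k) = g.1 (x, k)} hCcl (by
          intro e he
          refine hhg (n + 1) x e ?_
          rw [hP2]
          exact Or.inr he) k
      exact ⟨c, hc, hck⟩
    obtain ⟨c, hc⟩ := IsCompact.nonempty_iInter_of_sequence_nonempty_isCompact_isClosed C
      (fun n c hc => ⟨hc.1, fun a ha y => hc.2 a (Set.insert_subset_insert (hmono (n + 1)) ha) y⟩)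
      hCne (hCn 0).isCompact hCn
    rw [Set.mem_iInter] at hc
    have h1 : h.1 (x, c) = h.1 (x, k) := by
      refine meas_closure hh ?_ x
      intro a ha y
      obtain ⟨n, hn⟩ := Set.mem_iUnion.mp (hsup ha)
      exact (hc n).2 a (Or.inr (hmono n hn)) y
    have h2 : g.1 (x, c) = g.1 (x, k) := (hc 0).2 g (Set.mem_insert _ _) x
    rw [← h1, ← h2]
    exact (hc 0).1
  have hsubA : (⋃ n, Set.range (s (P n).2)) ⊆ A := by
    rintro _ ⟨_, ⟨n, rfl⟩, ⟨m, rfl⟩⟩
    exact hs1 _ (hcount n).2 m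
  obtain ⟨_, h3⟩ := countable_case hX (cc_mono hA hsubA)
    (Set.countable_iUnion (fun n => Set.countable_range _))
  obtain ⟨u, hu, hlim⟩ := h3 h hh
  rw [hgh] at hlim
  exact ⟨u, fun n => hsubA (hu n), hlim⟩

/-- Grothendieck's theorem for compact spaces, in the form needed here. -/
theorem compact_closure_cont {K : Type*} [TopologicalSpace K] [CompactSpace K] {A : Set (Cp K)}
    (hA : CountablyCompactIn A) (γ : K → ℝ) (hγ : γ ∈ closure (Subtype.val '' A)) :
    Continuous γ := by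
  classical
  rw [continuous_iff_continuousAt]
  intro k₀
  by_contra hcon
  have hcon' : ∃ ε > 0, ∀ V ∈ 𝓝 k₀, ∃ k ∈ V, ε ≤ |γ k - γ k₀| := by
    by_contra h
    push Not at h
    apply hcon
    rw [ContinuousAt, Metric.tendsto_nhds]
    intro ε hε
    obtain ⟨V, hV, hVε⟩ := h ε hε
    filter_upwards [hV] with k hk
    rw [Real.dist_eq]
    exact hVε k hk
  obtain ⟨ε, hε, hV⟩ := hcon'
  -- approximation on finite sets
  have happ : ∀ (F : Finset K) (δ : ℝ), 0 < δ → ∃ a ∈ A, ∀ k ∈ F, |a.1 k - γ k| < δ := by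
    intro F δ hδ
    have hnhds : {f : K → ℝ | ∀ k ∈ F, |f k - γ k| < δ} ∈ 𝓝 γ := by
      have h1 : ∀ k ∈ F, {f : K → ℝ | |f k - γ k| < δ} ∈ 𝓝 γ := by
        intro k _
        have h2 : Tendsto (fun f : K → ℝ => |f k - γ k|) (𝓝 γ) (𝓝 |γ k - γ k|) :=
          (((continuous_apply k).sub continuous_const).abs).tendsto γ
        rw [sub_self, abs_zero] at h2
        exact h2.eventually (gt_mem_nhds hδ)
      have h3 := (biInter_finset_mem F).mpr h1
      filter_upwards [h3] with f hf k hk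
      exact Set.mem_iInter₂.mp hf k hk
    obtain ⟨_, h1, ⟨a, ha, rfl⟩⟩ := (mem_closure_iff_nhds.mp hγ) _ hnhds
    exact ⟨a, ha, h1⟩
  obtain ⟨f, hf1, hf2⟩ := exists_seq_of_forall_finset_exists
    (fun p : Cp K × K × ℕ => p.1 ∈ A ∧ ε ≤ |γ p.2.1 - γ k₀| ∧ |p.1.1 k₀ - γ k₀| < 1 / ((p.2.2 : ℝ) + 1))
    (fun p p' => p.2.2 < p'.2.2 ∧ |p'.1.1 p.2.1 - γ p.2.1| < 1 / ((p'.2.2 : ℝ) + 1) ∧
      |p.1.1 p'.2.1 - p.1.1 k₀| < 1 / ((p'.2.2 : ℝ) + 1)) (by
    intro S _
    let N : ℕ := (S.sup fun p => p.2.2) + 1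
    have hN : (0 : ℝ) < 1 / ((N : ℝ) + 1) := by positivity
    have hV1 : {k : K | ∀ p ∈ S, |p.1.1 k - p.1.1 k₀| < 1 / ((N : ℝ) + 1)} ∈ 𝓝 k₀ := by
      have h1 : ∀ p ∈ S, {k : K | |p.1.1 k - p.1.1 k₀| < 1 / ((N : ℝ) + 1)} ∈ 𝓝 k₀ := by
        intro p _
        have h2 : Tendsto (fun k : K => |p.1.1 k - p.1.1 k₀|) (𝓝 k₀) (𝓝 |p.1.1 k₀ - p.1.1 k₀|) :=
          ((p.1.2.sub continuous_const).abs).tendsto k₀
        rw [sub_self, abs_zero] at h2
        exact h2.eventually (gt_mem_nhds hN)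
      have h3 := (biInter_finset_mem S).mpr h1
      filter_upwards [h3] with f hf k hk
      exact Set.mem_iInter₂.mp hf k hk
    obtain ⟨k', hk', hk'ε⟩ := hV _ hV1
    obtain ⟨a', ha', ha'2⟩ := happ (insert k₀ (S.image fun p => p.2.1)) _ hN
    refine ⟨(a', k', N), ⟨ha', hk'ε, ha'2 k₀ (Finset.mem_insert_self _ _)⟩, ?_⟩
    intro p hp
    refine ⟨?_, ?_, hk' p hp⟩
    · exact Nat.lt_succ_of_le (Finset.le_sup (f := fun p : Cp K × K × ℕ => p.2.2) hp)
    · exact ha'2 _ (Finset.mem_insert_of_mem (Finset.mem_image_of_mem _ hp)))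
  have hmono : StrictMono (fun n => (f n).2.2) := fun m n hmn => (hf2 m n hmn).1
  have hge : ∀ n, n ≤ (f n).2.2 := hmono.id_le
  have hsmall : Tendsto (fun n => 1 / (((f n).2.2 : ℝ) + 1)) atTop (𝓝 0) :=
    tendsto_one_div_add_atTop_nhds_zero_nat.comp hmono.tendsto_atTop
  -- the three limits
  have hL1 : ∀ i, Tendsto (fun n => (f n).1.1 (f i).2.1) atTop (𝓝 (γ (f i).2.1)) := by
    intro i
    rw [tendsto_iff_dist_tendsto_zero]
    refine squeeze_zero' (Eventually.of_forall fun n => dist_nonneg) ?_ hsmall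
    filter_upwards [eventually_gt_atTop i] with n hn
    rw [Real.dist_eq]
    exact (hf2 i n hn).2.1.le
  have hL2 : Tendsto (fun n => (f n).1.1 k₀) atTop (𝓝 (γ k₀)) := by
    rw [tendsto_iff_dist_tendsto_zero]
    refine squeeze_zero (fun n => dist_nonneg) (fun n => ?_) hsmall
    rw [Real.dist_eq]
    exact (hf1 n).2.2.le
  have hL3 : ∀ i, Tendsto (fun n => (f i).1.1 (f n).2.1) atTop (𝓝 ((f i).1.1 k₀)) := by
    intro i
    rw [tendsto_iff_dist_tendsto_zero]
    refine squeeze_zero' (Eventually.of_forall fun n => dist_nonneg) ?_ hsmall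
    filter_upwards [eventually_gt_atTop i] with n hn
    rw [Real.dist_eq]
    exact (hf2 i n hn).2.2.le
  obtain ⟨b, hb⟩ := cc_seq hA (fun n => (f n).1) (fun n => (hf1 n).1)
  obtain ⟨k', _, hk'⟩ := isCompact_univ.exists_mapClusterPt (f := atTop) (u := fun n => (f n).2.1)
    (by simp)
  have hbk : ∀ k, MapClusterPt (b.1 k) atTop (fun n => (f n).1.1 k) := fun k =>
    hb.continuousAt_comp (eval_cont k).continuousAt
  have e1 : ∀ i, b.1 (f i).2.1 = γ (f i).2.1 := fun i => cluster_eq (hbk _) (hL1 i)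
  have e2 : ∀ i, (f i).1.1 k' = (f i).1.1 k₀ := fun i =>
    cluster_eq (hk'.continuousAt_comp (f i).1.2.continuousAt) (hL3 i)
  have e3 : b.1 k' = γ k₀ := by
    refine cluster_eq (hbk k') ?_
    simp only [e2]
    exact hL2
  have e4 : MapClusterPt (b.1 k') atTop (fun n => b.1 (f n).2.1) :=
    hk'.continuousAt_comp b.2.continuousAt
  simp only [e1, e3] at e4
  rw [mapClusterPt_iff_frequently] at e4
  obtain ⟨n, hn⟩ := (e4 _ (Metric.ball_mem_nhds _ hε)).exists
  rw [Metric.mem_ball, Real.dist_eq] at hn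
  exact absurd (hf1 n).2.1 (not_le.mpr hn)

end Pool.Agent.Groth
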