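import Mathlib
import Pool.Agent.GrothK1
import Pool.Agent.GrothK2

set_option autoImplicit false
set_option linter.unusedSectionVars false

namespace Pool.Agent.Groth

open Topology Filter

lemma pre_closure {Y W : Type*} [TopologicalSpace Y] [TopologicalSpace W] (j : W → Y)
    (hj : Continuous j) {A : Set (Cp Y)} (hc : IsCompact (closure (pre j hj '' A))) {g : Y → ℝ}
    (hg : g ∈ closure (Subtype.val '' A)) :
    ∃ h : Cp W, h ∈ closure (pre j hj '' A) ∧ h.1 = fun w => g (j w) := by
  have h1 : IsClosed (Subtype.val '' (closure (pre j hj '' A))) :=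
    (hc.image continuous_subtype_val).isClosed
  let G : (Y → ℝ) → (W → ℝ) := fun f w => f (j w)
  have hG : Continuous G := continuous_pi fun w => continuous_apply (j w)
  have h2 : G g ∈ closure (G '' (Subtype.val '' A)) :=
    image_closure_subset_closure_image hG ⟨g, hg, rfl⟩
  have h3 : G '' (Subtype.val '' A) ⊆ Subtype.val '' (closure (pre j hj '' A)) := by
    rintro _ ⟨_, ⟨a, ha, rfl⟩, rfl⟩
    exact ⟨pre j hj a, subset_closure ⟨a, ha, rfl⟩, rfl⟩
  obtain ⟨h, hh, hhg⟩ := closure_minimal h3 h1 h2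
  exact ⟨h, hh, hhg⟩

/-- `g(x,·)` varies uniformly on `E` as `x` moves -/
def Good {X K : Type*} [TopologicalSpace X] (g : X × K → ℝ) (E : Set K) : Prop :=
  ∀ x', ∀ ε > 0, ∀ᶠ x in 𝓝 x', ∀ k ∈ E, |g (x, k) - g (x', k)| ≤ ε

lemma good_union {X K : Type*} [TopologicalSpace X] {g : X × K → ℝ} {E F : Set K}
    (hE : Good g E) (hF : Good g F) : Good g (E ∪ F) := by
  intro x' ε hε
  filter_upwards [hE x' ε hε, hF x' ε hε] with x h1 h2 k hk
  rcases hk with hk | hk
  · exact h1 k hk
  · exact h2 k hk

lemma good_closure {X K : Type*} [TopologicalSpace X] [TopologicalSpace K] {g : X × K → ℝ}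
    (h2 : ∀ x, Continuous fun k => g (x, k)) {E : Set K} (hE : Good g E) :
    Good g (closure E) := by
  intro x' ε hε
  filter_upwards [hE x' ε hε] with x hx
  have hcl : IsClosed {k | |g (x, k) - g (x', k)| ≤ ε} :=
    isClosed_le ((h2 x).sub (h2 x')).abs continuous_const
  exact fun k hk => closure_minimal (fun k hk => hx k hk) hcl hk

lemma good_cont {X K : Type*} [TopologicalSpace X] [TopologicalSpace K] {g : X × K → ℝ}
    (h2 : ∀ x, Continuous fun k => g (x, k)) (hE : Good g Set.univ) : Continuous g := by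
  rw [continuous_iff_continuousAt]
  rintro ⟨x', k'⟩
  rw [ContinuousAt, Metric.tendsto_nhds]
  intro ε hε
  rw [nhds_prod_eq]
  have h3 : ∀ᶠ k in 𝓝 k', |g (x', k) - g (x', k')| < ε / 2 := by
    have h4 : Tendsto (fun k => |g (x', k) - g (x', k')|) (𝓝 k') (𝓝 |g (x', k') - g (x', k')|) :=
      (((h2 x').sub continuous_const).abs).tendsto k'
    rw [sub_self, abs_zero] at h4
    exact h4.eventually (gt_mem_nhds (by positivity))
  filter_upwards [(hE x' (ε / 2) (by positivity)).prod_mk h3] with p hp
  rw [Real.dist_eq]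
  have h5 := hp.1 p.2 (Set.mem_univ _)
  have h6 := hp.2
  have h7 := abs_sub_le (g p) (g (x', p.2)) (g (x', k'))
  have h8 : g (p.1, p.2) = g p := rfl
  rw [h8] at h5
  linarith

lemma good_of_cont {X K : Type*} [TopologicalSpace X] [TopologicalSpace K] [CompactSpace K]
    (h : Cp (X × K)) : Good h.1 Set.univ := by
  let φ : X → C(K, ℝ) := fun x => ⟨fun k => h.1 (x, k), h.2.comp (continuous_const.prodMk continuous_id)⟩
  have hφ : Continuous φ := (ContinuousMap.curry ⟨h.1, h.2⟩).continuous
  intro x' ε hε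
  have h1 := (Metric.tendsto_nhds.mp (hφ.tendsto x')) ε hε
  filter_upwards [h1] with x hx k _
  have h2 := ContinuousMap.dist_apply_le_dist (f := φ x) (g := φ x') k
  rw [Real.dist_eq] at h2
  exact (lt_of_le_of_lt h2 hx).le

/-- countable unions of good sets are good -/
theorem good_iUnion {X K : Type*} [TopologicalSpace X] [TopologicalSpace K] [CompactSpace K]
    (hX : Ang (Cp X)) {A : Set (Cp (X × K))} (hA : CountablyCompactIn A) {g : X × K → ℝ}
    (hg : g ∈ closure (Subtype.val '' A)) (h2 : ∀ x, Continuous fun k => g (x, k))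
    (G : ℕ → Set K) (hG : ∀ n, Good g (G n)) : Good g (⋃ n, G n) := by
  -- finite unions
  let F : ℕ → Set K := fun n => Nat.rec (G 0) (fun n s => s ∪ G (n + 1)) n
  have hF1 : ∀ n, F (n + 1) = F n ∪ G (n + 1) := fun n => rfl
  have hFG : ∀ n, Good g (F n) := by
    intro n
    induction n with
    | zero => exact hG 0
    | succ n ih => rw [hF1]; exact good_union ih (hG _)
  have hGF : ∀ n, G n ⊆ F n := by
    intro n
    cases n with
    | zero => exact subset_rfl
    | succ n => rw [hF1]; exact Set.subset_union_right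
  let L : ℕ → Set K := fun n => closure (F n)
  have hL : ∀ n, L n ⊆ L (n + 1) := fun n => closure_mono (by rw [hF1]; exact Set.subset_union_left)
  have hLG : ∀ n, Good g (L n) := fun n => good_closure h2 (hFG n)
  have hex : ∀ n, ∃ u : ℕ → Cp (X × K), (∀ m, u m ∈ A) ∧
      ∀ x, ∀ k ∈ L n, Tendsto (fun m => (u m).1 (x, k)) atTop (𝓝 (g (x, k))) := by
    intro n
    have hcomp : CompactSpace (L n) := isCompact_iff_compactSpace.mp isClosed_closure.isCompact
    let j : X × (L n) → X × K := fun p => (p.1, (p.2 : K))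
    have hj : Continuous j := continuous_fst.prodMk (continuous_subtype_val.comp continuous_snd)
    have hgc : Continuous (fun p : X × (L n) => g (p.1, (p.2 : K))) := by
      apply good_cont
      · intro x
        exact (h2 x).comp continuous_subtype_val
      · intro x' ε hε
        filter_upwards [hLG n x' ε hε] with x hx k _
        exact hx k.1 k.2
    let g' : Cp (X × (L n)) := ⟨fun p => g (p.1, (p.2 : K)), hgc⟩
    have hg' : g' ∈ closure (pre j hj '' A) := by
      rw [closure_subtype]
      let R : (X × K → ℝ) → (X × (L n) → ℝ) := fun f w => f (j w)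
      have hR : Continuous R := continuous_pi fun w => continuous_apply (j w)
      have h3 : R g ∈ closure (R '' (Subtype.val '' A)) :=
        image_closure_subset_closure_image hR ⟨g, hg, rfl⟩
      refine closure_mono ?_ h3
      rintro _ ⟨_, ⟨a, ha, rfl⟩, rfl⟩
      exact ⟨pre j hj a, ⟨a, ha, rfl⟩, rfl⟩
    obtain ⟨v, hv, hlim⟩ := seq_case hX (cc_image hA _ (pre_cont j hj)) g' hg'
    choose u hu huv using hv
    refine ⟨u, hu, ?_⟩
    intro x k hk
    have h3 : Tendsto (fun m => (v m).1 (x, ⟨k, hk⟩)) atTop (𝓝 (g'.1 (x, ⟨k, hk⟩))) :=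
      ((eval_cont (x, (⟨k, hk⟩ : L n))).tendsto _).comp hlim
    simp only [← huv] at h3
    exact h3
  choose u hu hlim using hex
  obtain ⟨h, _, hhg⟩ := glue hX hA g L hL u hu hlim
  intro x' ε hε
  filter_upwards [good_of_cont h x' ε hε] with x hx k hk
  obtain ⟨n, hn⟩ := Set.mem_iUnion.mp hk
  have hkL : k ∈ L n := subset_closure (hGF n hn)
  rw [← hhg n x k hkL, ← hhg n x' k hkL]
  exact hx k (Set.mem_univ _)

section chain

variable {X K : Type*} [TopologicalSpace X] [TopologicalSpace K] [CompactSpace K]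

/-- `sup_{k ∈ C} |g(x,k) - g(x',k)|` -/
noncomputable def sup' (g : X × K → ℝ) (x' : X) (C : Set K) (x : X) : ℝ :=
  sSup ((fun k => |g (x, k) - g (x', k)|) '' C)

variable {g : X × K → ℝ} (h2 : ∀ x, Continuous fun k => g (x, k))

include h2 in
lemma sup_bdd (x' x : X) : ∃ M : ℝ, 0 ≤ M ∧ ∀ k, |g (x, k) - g (x', k)| ≤ M := by
  obtain ⟨M, hM⟩ := (isCompact_univ.image (((h2 x).sub (h2 x')).abs)).bddAbove
  refine ⟨max M 0, le_max_right _ _, fun k => ?_⟩
  exact (hM ⟨k, trivial, rfl⟩).trans (le_max_left _ _)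

include h2 in
lemma le_sup' (x' x : X) {C : Set K} {k : K} (hk : k ∈ C) :
    |g (x, k) - g (x', k)| ≤ sup' g x' C x := by
  obtain ⟨M, _, hM⟩ := sup_bdd h2 x' x
  apply le_csSup
  · exact ⟨M, by rintro _ ⟨k, _, rfl⟩; exact hM k⟩
  · exact ⟨k, hk, rfl⟩

lemma sup'_le (x' x : X) {C : Set K} {b : ℝ} (hb : 0 ≤ b)
    (h : ∀ k ∈ C, |g (x, k) - g (x', k)| ≤ b) : sup' g x' C x ≤ b := by
  apply Real.sSup_le _ hb
  rintro _ ⟨k, hk, rfl⟩
  exact h k hk

lemma sup'_nonneg (x' x : X) (C : Set K) : 0 ≤ sup' g x' C x := by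
  apply Real.sSup_nonneg
  rintro _ ⟨k, _, rfl⟩
  exact abs_nonneg _

include h2 in
lemma sup'_mono (x' x : X) {C D : Set K} (h : C ⊆ D) : sup' g x' C x ≤ sup' g x' D x :=
  sup'_le x' x (sup'_nonneg x' x D) fun _ hk => le_sup' h2 x' x (h hk)

include h2 in
lemma sup'_diff (x' x y : X) {C : Set K} {ε : ℝ} (hε : 0 ≤ ε)
    (h : ∀ k ∈ C, |g (x, k) - g (y, k)| ≤ ε) :
    |sup' g x' C x - sup' g x' C y| ≤ ε := by
  have h1 : ∀ a b : X, (∀ k ∈ C, |g (a, k) - g (b, k)| ≤ ε) →
      sup' g x' C a ≤ sup' g x' C b + ε := by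
    intro a b hab
    apply sup'_le x' a (add_nonneg (sup'_nonneg x' b C) hε)
    intro k hk
    have h3 := abs_sub_le (g (a, k)) (g (b, k)) (g (x', k))
    have h4 := le_sup' h2 x' b hk
    have h5 := hab k hk
    linarith
  have h6 := h1 x y h
  have h7 := h1 y x (fun k hk => by rw [abs_sub_comm]; exact h k hk)
  rw [abs_le]
  constructor <;> linarith

end chain

theorem good_chain {X K : Type*} [TopologicalSpace X] [TopologicalSpace K] [CompactSpace K]
    (hX : Ang (Cp X)) {A : Set (Cp (X × K))} (hA : CountablyCompactIn A) {g : X × K → ℝ}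
    (hg : g ∈ closure (Subtype.val '' A)) (h2 : ∀ x, Continuous fun k => g (x, k))
    (c : Set (Set K)) (hc : ∀ C ∈ c, Good g C) (hchain : IsChain (· ⊆ ·) c) (hne : c.Nonempty) :
    Good g (⋃₀ c) := by
  intro x' ε hε
  have hcont : ∀ C, Good g C → Continuous (sup' g x' C) := by
    intro C hC
    rw [continuous_iff_continuousAt]
    intro y
    rw [ContinuousAt, Metric.tendsto_nhds]
    intro δ hδ
    filter_upwards [hC y (δ / 2) (by positivity)] with x hx
    rw [Real.dist_eq]
    have := sup'_diff h2 x' x y (by positivity) hx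
    linarith
  let S : Set (Cp X) := {f | ∃ C ∈ c, f.1 = sup' g x' C}
  choose M hM0 hM using sup_bdd h2 x'
  have hPc : IsCompact (Set.pi Set.univ (fun x : X => Set.Icc (0 : ℝ) (M x))) :=
    isCompact_univ_pi (fun _ => isCompact_Icc)
  have hS : CountablyCompactIn S := by
    intro B hB hinf
    let f : ℕ → Cp X := fun n => (hinf.natEmbedding _ n : Cp X)
    have hfB : ∀ n, f n ∈ B := fun n => (hinf.natEmbedding _ n).2
    have hfinj : Function.Injective f := by
      intro m n hmn
      exact (hinf.natEmbedding _).injective (Subtype.ext hmn)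
    choose C hCc hCf using fun n => hB (hfB n)
    have hCgood : Good g (⋃ n, C n) := good_iUnion hX hA hg h2 C (fun n => hc _ (hCc n))
    have hFinf : (Set.range fun n => (f n).1).Infinite :=
      Set.infinite_range_of_injective (Subtype.val_injective.comp hfinj)
    have hFP : (Set.range fun n => (f n).1) ⊆ Set.pi Set.univ (fun x : X => Set.Icc (0 : ℝ) (M x)) := by
      rintro _ ⟨n, rfl⟩ x _
      dsimp only
      rw [hCf n]
      exact ⟨sup'_nonneg x' x _, sup'_le x' x (hM0 x) fun k _ => hM x k⟩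
    obtain ⟨p, _, hp⟩ := hFinf.exists_accPt_of_subset_isCompact hPc hFP
    have hpcl : p ∈ closure (Set.range fun n => (f n).1) := by
      rw [acc_iff] at hp
      rw [mem_closure_iff_nhds]
      intro t ht
      exact (hp t ht).nonempty
    have hpc : Continuous p := by
      rw [continuous_iff_continuousAt]
      intro y
      rw [ContinuousAt, Metric.tendsto_nhds]
      intro δ hδ
      filter_upwards [hCgood y (δ / 2) (by positivity)] with x hx
      rw [Real.dist_eq]
      have hcl : IsClosed {q : X → ℝ | |q x - q y| ≤ δ / 2} :=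
        isClosed_le ((continuous_apply x).sub (continuous_apply y)).abs continuous_const
      have hsub : (Set.range fun n => (f n).1) ⊆ {q : X → ℝ | |q x - q y| ≤ δ / 2} := by
        rintro _ ⟨n, rfl⟩
        show |(f n).1 x - (f n).1 y| ≤ δ / 2
        rw [hCf n]
        exact sup'_diff h2 x' x y (by positivity) fun k hk => hx k (Set.mem_iUnion.mpr ⟨n, hk⟩)
      have := closure_minimal hsub hcl hpcl
      have h3 : |p x - p y| ≤ δ / 2 := this
      linarith
    refine ⟨⟨p, hpc⟩, ?_⟩
    rw [acc_iff] at hp ⊢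
    intro V hV
    rw [nhds_subtype_eq_comap] at hV
    obtain ⟨V', hV', hVV⟩ := hV
    intro hf
    apply hp V' hV'
    apply (hf.image Subtype.val).subset
    rintro _ ⟨hx, ⟨n, rfl⟩⟩
    exact ⟨f n, ⟨hVV hx, hfB n⟩, rfl⟩
  have hScl := (hX S hS).1
  have hcl : IsClosed (Subtype.val '' (closure S)) := (hScl.image continuous_subtype_val).isClosed
  -- the supremum function is in the closure
  have : Nonempty c := hne.to_subtype
  have hdir : IsDirectedOrder c := ⟨by
    rintro ⟨C, hC⟩ ⟨D, hD⟩
    rcases hchain.total hC hD with h | h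
    · exact ⟨⟨D, hD⟩, h, le_rfl⟩
    · exact ⟨⟨C, hC⟩, le_rfl, h⟩⟩
  have hlim : Tendsto (fun C : c => sup' g x' C.1) atTop (𝓝 (sup' g x' (⋃₀ c))) := by
    rw [tendsto_pi_nhds]
    intro x
    have hbdd : BddAbove (Set.range fun C : c => sup' g x' C.1 x) := by
      refine ⟨M x, ?_⟩
      rintro _ ⟨C, rfl⟩
      exact sup'_le x' x (hM0 x) fun k _ => hM x k
    have h3 : sup' g x' (⋃₀ c) x = ⨆ C : c, sup' g x' C.1 x := by
      apply le_antisymm
      · apply sup'_le x' x
        · exact Real.iSup_nonneg fun C => sup'_nonneg x' x _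
        · rintro k ⟨C, hC, hkC⟩
          exact (le_sup' h2 x' x hkC).trans (le_ciSup hbdd ⟨C, hC⟩)
      · apply ciSup_le
        intro C
        exact sup'_mono h2 x' x (Set.subset_sUnion_of_mem C.2)
    rw [h3]
    apply tendsto_atTop_ciSup _ hbdd
    intro C D hCD
    exact sup'_mono h2 x' x hCD
  have hmem : sup' g x' (⋃₀ c) ∈ Subtype.val '' (closure S) := by
    rw [← hcl.closure_eq]
    refine mem_closure_of_tendsto hlim (Eventually.of_forall ?_)
    intro C
    exact ⟨⟨_, hcont _ (hc _ C.2)⟩, subset_closure ⟨C.1, C.2, rfl⟩, rfl⟩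
  obtain ⟨σ, _, hσ⟩ := hmem
  have hσc : Continuous (sup' g x' (⋃₀ c)) := by
    rw [← hσ]
    exact σ.2
  have h0 : sup' g x' (⋃₀ c) x' = 0 := by
    apply le_antisymm
    · apply sup'_le x' x' le_rfl
      intro k _
      simp
    · exact sup'_nonneg x' x' _
  have h3 := (Metric.tendsto_nhds.mp (hσc.tendsto x')) ε hε
  filter_upwards [h3] with x hx k hk
  rw [h0, Real.dist_eq, sub_zero] at hx
  exact ((le_sup' h2 x' x hk).trans (le_abs_self _)).trans hx.le

/-- points of the closure in `ℝ^{X × K}` are continuous -/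
theorem closure_cont {X K : Type*} [TopologicalSpace X] [TopologicalSpace K] [CompactSpace K]
    (hX : Ang (Cp X)) {A : Set (Cp (X × K))} (hA : CountablyCompactIn A) {g : X × K → ℝ}
    (hg : g ∈ closure (Subtype.val '' A)) : Continuous g := by
  have h1 : ∀ k, Continuous fun x => g (x, k) := by
    intro k
    have hj : Continuous (fun x : X => (x, k)) := continuous_id.prodMk continuous_const
    obtain ⟨h, _, hh⟩ := pre_closure _ hj (hX _ (cc_image hA _ (pre_cont _ hj))).1 hg
    have : Continuous h.1 := h.2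
    rw [hh] at this
    exact this
  have h2 : ∀ x, Continuous fun k => g (x, k) := by
    intro x
    have hj : Continuous (fun k : K => (x, k)) := continuous_const.prodMk continuous_id
    apply compact_closure_cont (cc_image hA _ (pre_cont _ hj))
    let R : (X × K → ℝ) → (K → ℝ) := fun f k => f (x, k)
    have hR : Continuous R := continuous_pi fun k => continuous_apply (x, k)
    have h3 : R g ∈ closure (R '' (Subtype.val '' A)) :=
      image_closure_subset_closure_image hR ⟨g, hg, rfl⟩
    refine closure_mono ?_ h3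
    rintro _ ⟨_, ⟨a, ha, rfl⟩, rfl⟩
    exact ⟨pre _ hj a, ⟨a, ha, rfl⟩, rfl⟩
  apply good_cont h2
  obtain ⟨m, hm⟩ := zorn_subset {E : Set K | Good g E} (by
    intro c hc hchain
    rcases c.eq_empty_or_nonempty with rfl | hne
    · refine ⟨∅, ?_, by simp⟩
      intro x' ε hε
      exact Eventually.of_forall fun x k hk => absurd hk (Set.notMem_empty k)
    · exact ⟨⋃₀ c, good_chain hX hA hg h2 c (fun C hC => hc hC) hchain hne,
        fun s hs => Set.subset_sUnion_of_mem hs⟩)
  have hmuniv : m = Set.univ := by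
    rw [Set.eq_univ_iff_forall]
    intro k
    have h3 : Good g (m ∪ {k}) := by
      apply good_union hm.prop
      intro x' ε hε
      have h4 := (Metric.tendsto_nhds.mp ((h1 k).tendsto x')) ε hε
      filter_upwards [h4] with x hx k' hk'
      rw [Set.mem_singleton_iff.mp hk']
      rw [Real.dist_eq] at hx
      exact hx.le
    exact hm.le_of_ge h3 Set.subset_union_left (Or.inr rfl)
  rw [← hmuniv]
  exact hm.prop

theorem ang_compact {X K : Type*} [TopologicalSpace X] [TopologicalSpace K] [CompactSpace K]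
    (hX : Ang (Cp X)) : Ang (Cp (X × K)) := by
  intro A hA
  refine ⟨?_, fun g hg => seq_case hX hA g hg⟩
  rw [Subtype.isCompact_iff]
  have h3 : Subtype.val '' (closure A) = closure (Subtype.val '' A) := by
    apply subset_antisymm
    · exact image_closure_subset_closure_image continuous_subtype_val
    · intro z hz
      refine ⟨⟨z, closure_cont hX hA hz⟩, ?_, rfl⟩
      rw [closure_subtype]
      exact hz
  rw [h3]
  have hb : ∀ p : X × K, ∃ M : ℝ, ∀ a ∈ A, |a.1 p| ≤ M := by
    intro p
    obtain ⟨M, hM⟩ := real_bdd (cc_image hA (fun a : Cp (X × K) => a.1 p) (eval_cont p))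
    exact ⟨M, fun a ha => hM _ ⟨a, ha, rfl⟩⟩
  choose M hM using hb
  have hT : IsCompact (Set.pi Set.univ (fun p => Set.Icc (-(M p)) (M p))) :=
    isCompact_univ_pi (fun n => isCompact_Icc)
  apply hT.of_isClosed_subset isClosed_closure
  apply closure_minimal _ hT.isClosed
  rintro _ ⟨a, ha, rfl⟩ p _
  exact abs_le.mp (hM p a ha)

end Pool.Agent.Groth
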