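import Pool.Agent.H7ApolarDefs

set_option autoImplicit false

open MvPolynomial

namespace Pool.Agent.H7Apolar

noncomputable section

/-! ### The evaluation `δ` and the ideals `J e s` -/

variable {n : ℕ}

/-- weight of an exponent -/
def wt (e : Fin n → ℕ) (α : Fin n →₀ ℕ) : ℕ := ∑ k, e k * α k

lemma wt_add (e : Fin n → ℕ) (α β : Fin n →₀ ℕ) : wt e (α + β) = wt e α + wt e β := by
  simp [wt, mul_add, Finset.sum_add_distrib]

lemma wt_single (e : Fin n → ℕ) (k : Fin n) (a : ℕ) : wt e (Finsupp.single k a) = e k * a := by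
  classical
  unfold wt
  rw [Finset.sum_eq_single k]
  · simp
  · intro b _ hb
    rw [Finsupp.single_eq_of_ne hb, mul_zero]
  · intro h; exact absurd (Finset.mem_univ k) h

/-- `x_k ↦ t^(e k)` -/
def dl (e : Fin n → ℕ) : MvPolynomial (Fin n) ℂ →ₐ[ℂ] Polynomial ℂ :=
  aeval (fun k => Polynomial.X ^ e k)

lemma dl_monomial (e : Fin n → ℕ) (α : Fin n →₀ ℕ) (c : ℂ) :
    dl e (monomial α c) = Polynomial.C c * Polynomial.X ^ (wt e α) := by
  unfold dl wt
  rw [aeval_monomial, Finsupp.prod_fintype _ _ (by intro i; simp)]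
  congr 1
  rw [← Finset.prod_pow_eq_pow_sum]
  refine Finset.prod_congr rfl (fun k _ => ?_)
  rw [← pow_mul]

lemma dl_X (e : Fin n → ℕ) (k : Fin n) : dl e (X k) = Polynomial.X ^ e k := by
  simp [dl]

lemma coeff_dl (e : Fin n → ℕ) (g : MvPolynomial (Fin n) ℂ) (r : ℕ) :
    (dl e g).coeff r = ∑ α ∈ g.support, if wt e α = r then coeff α g else 0 := by
  conv_lhs => rw [← support_sum_monomial_coeff g]
  rw [map_sum, Polynomial.finsetSum_coeff]
  refine Finset.sum_congr rfl (fun α _ => ?_)
  rw [dl_monomial, Polynomial.coeff_C_mul, Polynomial.coeff_X_pow]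
  by_cases h : wt e α = r
  · rw [if_pos h, if_pos h.symm, mul_one]
  · rw [if_neg h, if_neg (fun h' => h h'.symm), mul_zero]

/-- bigraded version -/
def ps (e : Fin n → ℕ) : MvPolynomial (Fin n) ℂ →ₐ[ℂ] Polynomial (Polynomial ℂ) :=
  aeval (fun k => Polynomial.C (Polynomial.X ^ e k) * Polynomial.X)

lemma ps_X (e : Fin n → ℕ) (k : Fin n) :
    ps e (X k) = Polynomial.C (Polynomial.X ^ e k) * Polynomial.X := by
  simp [ps]

lemma ps_monomial (e : Fin n → ℕ) (α : Fin n →₀ ℕ) (c : ℂ) :
    ps e (monomial α c) = Polynomial.C (dl e (monomial α c)) * Polynomial.X ^ α.degree := by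
  rw [dl_monomial]
  unfold ps wt
  rw [aeval_monomial, Finsupp.prod_fintype _ _ (by intro i; simp)]
  simp_rw [mul_pow]
  rw [Finset.prod_mul_distrib, Finset.prod_pow_eq_pow_sum, ← mul_assoc, Finsupp.degree_eq_sum]
  congr 1
  rw [Polynomial.C_mul]
  congr 1
  rw [← Finset.prod_pow_eq_pow_sum, map_prod]
  refine Finset.prod_congr rfl (fun k _ => ?_)
  rw [← map_pow, ← pow_mul]

lemma ps_hom (e : Fin n → ℕ) {g : MvPolynomial (Fin n) ℂ} {i : ℕ} (hg : g.IsHomogeneous i) :
    ps e g = Polynomial.C (dl e g) * Polynomial.X ^ i := by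
  conv_lhs => rw [← support_sum_monomial_coeff g]
  conv_rhs => rw [← support_sum_monomial_coeff g]
  rw [map_sum, map_sum, map_sum, Finset.sum_mul]
  refine Finset.sum_congr rfl (fun α hα => ?_)
  rw [ps_monomial]
  congr 2
  by_contra hne
  exact (mem_support_iff.1 hα) (hg.coeff_eq_zero hne)

lemma coeff_ps (e : Fin n → ℕ) (g : MvPolynomial (Fin n) ℂ) (i : ℕ) :
    (ps e g).coeff i = dl e (homogeneousComponent i g) := by
  conv_lhs => rw [← sum_homogeneousComponent g]
  rw [map_sum, Polynomial.finsetSum_coeff]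
  have h1 : ∀ j ∈ Finset.range (g.totalDegree + 1),
      (ps e (homogeneousComponent j g)).coeff i =
        if j = i then dl e (homogeneousComponent i g) else 0 := by
    intro j _
    rw [ps_hom e (homogeneousComponent_isHomogeneous j g), Polynomial.coeff_C_mul,
      Polynomial.coeff_X_pow]
    by_cases h : j = i
    · subst h; simp
    · rw [if_neg (fun h' => h h'.symm), if_neg h, mul_zero]
  rw [Finset.sum_congr rfl h1, Finset.sum_ite_eq' (Finset.range (g.totalDegree + 1)) i]
  split_ifs with h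
  · rfl
  · rw [Finset.mem_range, not_lt] at h
    rw [homogeneousComponent_eq_zero _ _ (by omega), map_zero]

/-- the ideal -/
def J (e : Fin n → ℕ) (s : ℕ) : Ideal (MvPolynomial (Fin n) ℂ) :=
  (Ideal.span {Polynomial.C (Polynomial.X ^ (s + 1) : Polynomial ℂ)}).comap (ps e)

lemma mem_J {e : Fin n → ℕ} {s : ℕ} {g : MvPolynomial (Fin n) ℂ} :
    g ∈ J e s ↔ ∀ i, (Polynomial.X ^ (s + 1) : Polynomial ℂ) ∣ dl e (homogeneousComponent i g) := by
  unfold J
  rw [Ideal.mem_comap, Ideal.mem_span_singleton, Polynomial.C_dvd_iff_dvd_coeff]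
  simp only [coeff_ps]

lemma comp_comp (g : MvPolynomial (Fin n) ℂ) (i j : ℕ) :
    homogeneousComponent j (homogeneousComponent i g) =
      if j = i then homogeneousComponent i g else 0 :=
  homogeneousComponent_of_mem (homogeneousComponent_isHomogeneous i g)

lemma mem_J_hom {e : Fin n → ℕ} {s : ℕ} {g : MvPolynomial (Fin n) ℂ} {i : ℕ}
    (hg : g.IsHomogeneous i) :
    g ∈ J e s ↔ (Polynomial.X ^ (s + 1) : Polynomial ℂ) ∣ dl e g := by
  rw [mem_J]
  constructor
  · intro h
    have := h i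
    rwa [homogeneousComponent_of_mem (m := i) (n := i) hg, if_pos rfl] at this
  · intro h j
    rw [homogeneousComponent_of_mem (m := j) (n := i) hg]
    split_ifs
    · exact h
    · simp

lemma J_homog (e : Fin n → ℕ) (s : ℕ) : HomogIdeal (J e s) := by
  intro g hg i
  rw [mem_J_hom (homogeneousComponent_isHomogeneous i g)]
  exact mem_J.1 hg i

lemma J_sat (e : Fin n → ℕ) (s : ℕ) {z : Fin n} (hz : e z = 0) : Saturated (J e s) := by
  intro g hg
  have h := hg z
  unfold J at h ⊢
  rw [Ideal.mem_comap, Ideal.mem_span_singleton, Polynomial.C_dvd_iff_dvd_coeff] at h ⊢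
  intro i
  have := h (i + 1)
  rwa [map_mul, ps_X, hz, pow_zero, map_one, one_mul, Polynomial.coeff_X_mul] at this

/-- the linear map `S_i → ℂ^(s+1)` -/
def L (e : Fin n → ℕ) (s i : ℕ) : homogeneousSubmodule (Fin n) ℂ i →ₗ[ℂ] (Fin (s + 1) → ℂ) where
  toFun g r := (dl e (g : MvPolynomial (Fin n) ℂ)).coeff r
  map_add' a b := by
    funext r; simp
  map_smul' c a := by
    funext r; simp

lemma ker_L (e : Fin n → ℕ) (s i : ℕ) :
    LinearMap.ker (L e s i) = ((J e s).restrictScalars ℂ).comap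
      (homogeneousSubmodule (Fin n) ℂ i).subtype := by
  ext g
  rw [LinearMap.mem_ker, Submodule.mem_comap, Submodule.restrictScalars_mem,
    Submodule.subtype_apply, mem_J_hom g.2, Polynomial.X_pow_dvd_iff]
  constructor
  · intro h d hd
    exact congrFun h ⟨d, hd⟩
  · intro h
    funext r
    exact h r r.2

lemma hilb_J (e : Fin n → ℕ) (s i : ℕ) :
    hilb (J e s) i = Module.finrank ℂ (LinearMap.range (L e s i)) := by
  unfold hilb
  rw [← ker_L]
  exact (L e s i).quotKerEquivRange.finrank_eq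

lemma L_surj {e : Fin n → ℕ} {s i : ℕ} {z x : Fin n} (hz : e z = 0) (hx : e x = 1)
    (hsi : s ≤ i) : Function.Surjective (L e s i) := by
  classical
  rw [← LinearMap.range_eq_top, eq_top_iff, ← (Pi.basisFun ℂ (Fin (s + 1))).span_eq,
    Submodule.span_le]
  rintro _ ⟨r, rfl⟩
  have hr : (r : ℕ) ≤ i := by omega
  have hdeg : (Finsupp.single x (r : ℕ) + Finsupp.single z (i - r)).degree = i := by
    rw [map_add, Finsupp.degree_single, Finsupp.degree_single]; omega
  refine ⟨⟨monomial (Finsupp.single x (r : ℕ) + Finsupp.single z (i - r)) 1,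
    isHomogeneous_monomial 1 hdeg⟩, ?_⟩
  funext q
  simp only [L, LinearMap.coe_mk, AddHom.coe_mk, dl_monomial, wt_add, wt_single, hz, hx,
    one_mul, zero_mul, add_zero, Polynomial.C_1, Polynomial.coeff_X_pow, Pi.basisFun_apply,
    Pi.single_apply]
  by_cases h : q = r
  · rw [if_pos h, if_pos (by rw [h])]
  · rw [if_neg h, if_neg (fun h' => h (Fin.ext h'))]

lemma hilb_J_large {e : Fin n → ℕ} {s i : ℕ} {z x : Fin n} (hz : e z = 0) (hx : e x = 1)
    (hsi : s ≤ i) : hilb (J e s) i = s + 1 := by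
  rw [hilb_J, LinearMap.range_eq_top.2 (L_surj hz hx hsi), finrank_top]
  simp

lemma hilb_J_small {e : Fin n → ℕ} {s i r : ℕ} (hr : r ≤ s)
    (h : ∀ α : Fin n →₀ ℕ, α.degree = i → wt e α ≠ r) : hilb (J e s) i < s + 1 := by
  rw [hilb_J]
  have hne : LinearMap.range (L e s i) ≠ ⊤ := by
    intro htop
    have hmem : (Pi.single ⟨r, by omega⟩ 1 : Fin (s + 1) → ℂ) ∈ LinearMap.range (L e s i) := by
      rw [htop]; trivial
    obtain ⟨g, hg⟩ := hmem
    have h1 := congrFun hg ⟨r, by omega⟩
    rw [Pi.single_eq_same] at h1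
    have h2 : (L e s i g) ⟨r, by omega⟩ = (dl e (g : MvPolynomial (Fin n) ℂ)).coeff r := rfl
    rw [h2, coeff_dl] at h1
    have h3 : ∑ α ∈ (g : MvPolynomial (Fin n) ℂ).support,
        (if wt e α = r then coeff α (g : MvPolynomial (Fin n) ℂ) else 0) = 0 := by
      refine Finset.sum_eq_zero (fun α hα => ?_)
      rw [if_neg]
      apply h
      by_contra hne
      exact (mem_support_iff.1 hα) (g.2.coeff_eq_zero hne)
    rw [h3] at h1
    exact zero_ne_one h1
  have := Submodule.finrank_lt hne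
  simpa using this

lemma J_zeroDim {e : Fin n → ℕ} {s : ℕ} {z x : Fin n} (hz : e z = 0) (hx : e x = 1) :
    ZeroDimScheme (J e s) :=
  ⟨J_homog e s, J_sat e s hz, s + 1, by omega, s, fun _ hi => hilb_J_large hz hx hi⟩

lemma le_reg {e : Fin n → ℕ} {s ρ : ℕ} {z x : Fin n} (hz : e z = 0) (hx : e x = 1)
    (h : ∀ i < ρ, ∃ r ≤ s, ∀ α : Fin n →₀ ℕ, α.degree = i → wt e α ≠ r) :
    ρ ≤ reg (J e s) := by
  unfold reg
  have hne : {i : ℕ | HasDegree (J e s) (hilb (J e s) i)}.Nonempty :=
    ⟨s, s, fun i hi => by rw [hilb_J_large hz hx hi, hilb_J_large hz hx le_rfl]⟩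
  by_contra hlt
  push Not at hlt
  have hmem := Nat.sInf_mem hne
  obtain ⟨i₀, hi₀⟩ := hmem
  obtain ⟨r, hr, hr2⟩ := h _ hlt
  have h1 := hilb_J_small hr hr2
  have h2 := hi₀ (max i₀ s) (le_max_left _ _)
  rw [hilb_J_large hz hx (le_max_right _ _)] at h2
  omega

/-! ### Sub-schemes of `J e s` -/

lemma mem_of_comps {I : Ideal (MvPolynomial (Fin n) ℂ)} {g : MvPolynomial (Fin n) ℂ}
    (h : ∀ i, homogeneousComponent i g ∈ I) : g ∈ I := by
  rw [← sum_homogeneousComponent g]
  exact Ideal.sum_mem _ (fun i _ => h i)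

lemma homog_polynomial (x z : Fin n) (e : Fin n → ℕ) (hz : e z = 0) (hx : e x = 1)
    (v : Polynomial ℂ) : ∃ h : MvPolynomial (Fin n) ℂ, h.IsHomogeneous v.natDegree ∧
      dl e h = v := by
  refine ⟨∑ l ∈ Finset.range (v.natDegree + 1),
    monomial (Finsupp.single x l + Finsupp.single z (v.natDegree - l)) (v.coeff l), ?_, ?_⟩
  · apply IsHomogeneous.sum
    intro l hl
    apply isHomogeneous_monomial
    rw [Finset.mem_range] at hl
    rw [map_add, Finsupp.degree_single, Finsupp.degree_single]; omega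
  · rw [map_sum]
    conv_rhs => rw [v.as_sum_range_C_mul_X_pow]
    refine Finset.sum_congr rfl (fun l _ => ?_)
    rw [dl_monomial, wt_add, wt_single, wt_single, hz, hx, one_mul, zero_mul, add_zero]

lemma isHomogeneous_X_pow' (k : Fin n) (a : ℕ) :
    (X k ^ a : MvPolynomial (Fin n) ℂ).IsHomogeneous a := by
  have := (isHomogeneous_X ℂ k).pow a
  simpa using this

lemma socle_mem {e : Fin n → ℕ} {s d : ℕ} {z x : Fin n} (hz : e z = 0) (hx : e x = 1)
    (hpos : ∀ k, k ≠ z → 1 ≤ e k) {σ : MvPolynomial (Fin n) ℂ} (hσ : σ.IsHomogeneous d)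
    (hσs : dl e σ = Polynomial.X ^ s) {I' : Ideal (MvPolynomial (Fin n) ℂ)}
    (hI : HomogIdeal I') (hS : Saturated I') (hlt : J e s < I') : σ ∈ I' := by
  obtain ⟨hle, hnot⟩ := (SetLike.lt_iff_le_and_exists).1 hlt
  obtain ⟨g0, hg0, hg0'⟩ := hnot
  have h1 : ∃ m, homogeneousComponent m g0 ∉ J e s := by
    by_contra hcon
    push Not at hcon
    exact hg0' (mem_of_comps hcon)
  obtain ⟨m, hm⟩ := h1
  set g := homogeneousComponent m g0 with hg
  have hgI : g ∈ I' := hI g0 hg0 m
  have hgh : g.IsHomogeneous m := homogeneousComponent_isHomogeneous m g0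
  rw [mem_J_hom hgh] at hm
  have hq0 : dl e g ≠ 0 := by
    intro h; rw [h] at hm; exact hm (dvd_zero _)
  obtain ⟨u, hu1, hu2⟩ := Polynomial.exists_eq_pow_rootMultiplicity_mul_and_not_dvd (dl e g) hq0 0
  set j := Polynomial.rootMultiplicity 0 (dl e g) with hj
  rw [Polynomial.C_0, sub_zero] at hu1 hu2
  have hjs : j ≤ s := by
    by_contra hcon
    push Not at hcon
    apply hm
    rw [hu1]
    exact Dvd.dvd.mul_right (pow_dvd_pow _ hcon) _
  have hcop : IsCoprime (Polynomial.X ^ (s + 1) : Polynomial ℂ) u :=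
    IsCoprime.pow_left ((Polynomial.prime_X.coprime_iff_not_dvd).2 hu2)
  obtain ⟨a, v, hav⟩ := hcop
  obtain ⟨h, hh, hdh⟩ := homog_polynomial x z e hz hx v
  -- the product
  set N := m + v.natDegree + (s - j) with hN
  have hw : (g * h * X x ^ (s - j) * X z ^ d).IsHomogeneous (N + d) :=
    ((hgh.mul hh).mul (isHomogeneous_X_pow' x _)).mul (isHomogeneous_X_pow' z _)
  have hw2 : (σ * X z ^ N).IsHomogeneous (N + d) := by
    have := hσ.mul (isHomogeneous_X_pow' z N)
    rwa [add_comm d N] at this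
  have hdiff : σ * X z ^ N - g * h * X x ^ (s - j) * X z ^ d ∈ J e s := by
    rw [mem_J_hom (i := N + d) (hw2.sub hw)]
    rw [map_sub, map_mul, map_mul, map_mul, map_mul, map_pow, map_pow, map_pow, dl_X, dl_X,
      hz, hx, hσs, hdh, hu1]
    refine ⟨a * Polynomial.X ^ s, ?_⟩
    have e1 : (Polynomial.X : Polynomial ℂ) ^ s = Polynomial.X ^ j * Polynomial.X ^ (s - j) := by
      rw [← pow_add]; congr 1; omega
    calc Polynomial.X ^ s * (Polynomial.X ^ 0) ^ N -
          Polynomial.X ^ j * u * v * (Polynomial.X ^ 1) ^ (s - j) * (Polynomial.X ^ 0) ^ d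
        = Polynomial.X ^ s - (Polynomial.X ^ j * Polynomial.X ^ (s - j)) * (v * u) := by
          simp only [pow_zero, one_pow, mul_one, pow_one]; ring
      _ = Polynomial.X ^ s * (1 - v * u) := by rw [← e1]; ring
      _ = Polynomial.X ^ s * (a * Polynomial.X ^ (s + 1)) := by
          rw [← hav]; ring
      _ = Polynomial.X ^ (s + 1) * (a * Polynomial.X ^ s) := by ring
  have hN' : σ * X z ^ N ∈ I' := by
    have h2 : g * h * X x ^ (s - j) * X z ^ d ∈ I' := by
      rw [mul_assoc, mul_assoc]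
      exact Ideal.mul_mem_right _ _ hgI
    have := I'.add_mem (hle hdiff) h2
    rwa [sub_add_cancel] at this
  -- descending induction
  have hdesc : ∀ N : ℕ, σ * X z ^ N ∈ I' → σ ∈ I' := by
    intro N
    induction N with
    | zero => intro h; simpa using h
    | succ N ih =>
      intro hmem
      apply ih
      apply hS
      intro k
      by_cases hk : k = z
      · subst hk
        have : X k * (σ * X k ^ N) = σ * X k ^ (N + 1) := by ring
        rw [this]; exact hmem
      · apply hle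
        have hhom : (X k * (σ * X z ^ N)).IsHomogeneous (1 + (d + N)) :=
          (isHomogeneous_X ℂ k).mul (hσ.mul (isHomogeneous_X_pow' z N))
        rw [mem_J_hom hhom, map_mul, map_mul, map_pow, dl_X, dl_X, hz, hσs]
        simp only [pow_zero, one_pow, mul_one]
        rw [← pow_add]
        apply pow_dvd_pow
        have := hpos k hk
        omega
  exact hdesc N hN'

/-! ### Apolarity to a monomial -/

lemma act_monomial_eq_zero {β : Fin n →₀ ℕ} {g : MvPolynomial (Fin n) ℂ}
    (h : ∀ α, α ≤ β → coeff α g = 0) : act g (monomial β 1) = 0 := by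
  unfold act
  refine Finset.sum_eq_zero (fun α hα => ?_)
  refine Finset.sum_eq_zero (fun β' hβ' => ?_)
  have hβ : β' = β := by
    have := support_monomial_subset hβ'
    simpa using this
  subst hβ
  have hnot : ¬ α ≤ β' := fun hle => (mem_support_iff.1 hα) (h α hle)
  rw [Finsupp.le_def] at hnot
  push Not at hnot
  obtain ⟨i, hi⟩ := hnot
  have : ∏ i, ((β' i).descFactorial (α i) : ℂ) = 0 := by
    apply Finset.prod_eq_zero (Finset.mem_univ i)
    rw [Nat.descFactorial_of_lt hi, Nat.cast_zero]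
  rw [this, mul_zero, map_zero]

lemma act_self_ne (β : Fin n →₀ ℕ) :
    act (monomial β (1 : ℂ)) (monomial β 1) ≠ 0 := by
  classical
  unfold act
  have hs : (monomial β (1 : ℂ)).support = {β} := by
    rw [support_monomial, if_neg one_ne_zero]
  rw [hs, Finset.sum_singleton, Finset.sum_singleton, tsub_self, coeff_monomial, if_pos rfl]
  intro h
  have h1 := congrArg (coeff 0) h
  rw [coeff_monomial, if_pos rfl, coeff_zero, one_mul, one_mul] at h1
  rw [Finset.prod_eq_zero_iff] at h1
  obtain ⟨i, _, hi⟩ := h1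
  rw [Nat.descFactorial_self] at hi
  exact (Nat.factorial_ne_zero _) (by exact_mod_cast hi)

lemma wt_mono {e : Fin n → ℕ} {α β : Fin n →₀ ℕ} (h : α ≤ β) : wt e α ≤ wt e β := by
  unfold wt
  exact Finset.sum_le_sum (fun k _ => Nat.mul_le_mul_left _ (h k))

lemma J_irredundant {e : Fin n → ℕ} {s : ℕ} {z x : Fin n} (hz : e z = 0) (hx : e x = 1)
    (hpos : ∀ k, k ≠ z → 1 ≤ e k) {β : Fin n →₀ ℕ} (hβ : wt e β = s)
    (huniq : ∀ α, α ≤ β → ∀ α' : Fin n →₀ ℕ, α'.degree = α.degree → wt e α' = wt e α → α' = α) :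
    Irredundant (J e s) (monomial β 1) := by
  constructor
  · intro g hg
    apply act_monomial_eq_zero
    intro α hα
    have h1 := mem_J.1 hg α.degree
    rw [Polynomial.X_pow_dvd_iff] at h1
    have hwt : wt e α ≤ s := by rw [← hβ]; exact wt_mono hα
    have h2 := h1 (wt e α) (by omega)
    rw [coeff_dl] at h2
    have h3 : ∀ α' ∈ (homogeneousComponent α.degree g).support,
        (if wt e α' = wt e α then coeff α' (homogeneousComponent α.degree g) else 0) =
        if α' = α then coeff α g else 0 := by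
      intro α' hα'
      have hdeg : α'.degree = α.degree := by
        by_contra hne
        exact (mem_support_iff.1 hα')
          ((homogeneousComponent_isHomogeneous α.degree g).coeff_eq_zero hne)
      by_cases h : wt e α' = wt e α
      · have := huniq α hα α' hdeg h
        subst this
        rw [if_pos rfl, if_pos rfl, coeff_homogeneousComponent, if_pos rfl]
      · rw [if_neg h, if_neg]
        intro h'; exact h (by rw [h'])
    rw [Finset.sum_congr rfl h3, Finset.sum_ite_eq'] at h2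
    split_ifs at h2 with h4
    · exact h2
    · have h5 : coeff α (homogeneousComponent α.degree g) = 0 := by
        by_contra h6; exact h4 (mem_support_iff.2 h6)
      rwa [coeff_homogeneousComponent, if_pos rfl] at h5
  · intro I' hI hS hlt hap
    have hσ : (monomial β (1 : ℂ)).IsHomogeneous β.degree := isHomogeneous_monomial 1 rfl
    have hσs : dl e (monomial β (1 : ℂ)) = Polynomial.X ^ s := by
      rw [dl_monomial, hβ, Polynomial.C_1, one_mul]
    exact act_self_ne β (hap _ (socle_mem hz hx hpos hσ hσs hI hS hlt))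

/-! ### Lower bounds -/

lemma M_ge_of {n d : ℕ} {e : Fin n → ℕ} {s ρ : ℕ} {z x : Fin n} (hz : e z = 0) (hx : e x = 1)
    (hpos : ∀ k, k ≠ z → 1 ≤ e k) {β : Fin n →₀ ℕ} (hβ : wt e β = s) (hβd : β.degree = d)
    (huniq : ∀ α, α ≤ β → ∀ α' : Fin n →₀ ℕ, α'.degree = α.degree → wt e α' = wt e α → α' = α)
    (h : ∀ i < ρ, ∃ r ≤ s, ∀ α : Fin n →₀ ℕ, α.degree = i → wt e α ≠ r) :
    (ρ : ℕ∞) ≤ M n d := by
  refine le_trans (Nat.cast_le.2 (le_reg hz hx h)) ?_
  apply le_sSup
  refine ⟨monomial β 1, J e s, ?_, isHomogeneous_monomial 1 hβd, J_zeroDim hz hx,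
    J_irredundant hz hx hpos hβ huniq, rfl⟩
  intro h0
  have := congrArg (coeff β) h0
  simp at this

end

end Pool.Agent.H7Apolar
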