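import Pool.Agent.H7Apolar

set_option autoImplicit false

open MvPolynomial

namespace Pool.Agent.H7Apolar

noncomputable section

/-! ### Lower bound for `n = 2` -/

def e2 : Fin 2 → ℕ := ![0, 1]

lemma e2_0 : e2 0 = 0 := rfl
lemma e2_1 : e2 1 = 1 := rfl

lemma wt_e2 (α : Fin 2 →₀ ℕ) : wt e2 α = α 1 := by
  simp [wt, e2]

lemma degree2 (α : Fin 2 →₀ ℕ) : α.degree = α 0 + α 1 := by
  simp [Finsupp.degree_eq_sum]

lemma M2_ge (d : ℕ) : (d : ℕ∞) ≤ M 2 d := by
  have hβ1 : (Finsupp.single (1 : Fin 2) d) 1 = d := Finsupp.single_eq_same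
  have hβ0 : (Finsupp.single (1 : Fin 2) d) 0 = 0 := Finsupp.single_eq_of_ne (by decide)
  apply M_ge_of (e := e2) (s := d) (z := 0) (x := 1) e2_0 e2_1 (β := Finsupp.single 1 d)
  · intro k hk
    fin_cases k
    · exact absurd rfl hk
    · exact le_refl _
  · rw [wt_e2, hβ1]
  · rw [Finsupp.degree_single]
  · intro α hα α' hdeg hwt
    rw [wt_e2, wt_e2] at hwt
    rw [degree2, degree2] at hdeg
    have h0 : α 0 ≤ 0 := by rw [← hβ0]; exact hα 0
    ext k
    fin_cases k
    · simp only [Fin.zero_eta]; omega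
    · simp only [Fin.mk_one]; omega
  · intro i hi
    refine ⟨d, le_refl _, ?_⟩
    intro α hα
    rw [wt_e2]
    rw [degree2] at hα
    omega

/-! ### Lower bound for `n ≥ 3` -/

lemma M3_ge {n d : ℕ} (hn : 3 ≤ n) (hd : 1 ≤ d) (s : ℕ) (hs : d < s) :
    ((s - 1 : ℕ) : ℕ∞) ≤ M n d := by
  classical
  set i0 : Fin n := ⟨0, by omega⟩ with hi0
  set i1 : Fin n := ⟨1, by omega⟩ with hi1
  set i2 : Fin n := ⟨2, by omega⟩ with hi2
  have h01 : i0 ≠ i1 := by simp [hi0, hi1]
  have h02 : i0 ≠ i2 := by simp [hi0, hi2]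
  have h12 : i1 ≠ i2 := by simp [hi1, hi2]
  set e : Fin n → ℕ := fun k => if k = i0 then 0 else if k = i1 then 1 else if k = i2 then s
    else s + 1 with he
  have e0 : e i0 = 0 := by simp [he]
  have e1 : e i1 = 1 := by simp [he, h01.symm]
  have ei2 : e i2 = s := by simp [he, h02.symm, h12.symm]
  have eo : ∀ k, k ≠ i0 → k ≠ i1 → k ≠ i2 → e k = s + 1 := by
    intro k h0 h1 h2
    simp [he, h0, h1, h2]
  have term_le : ∀ (α : Fin n →₀ ℕ) (k : Fin n), e k * α k ≤ wt e α := by
    intro α k
    unfold wt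
    exact Finset.single_le_sum (f := fun k => e k * α k) (fun _ _ => Nat.zero_le _)
      (Finset.mem_univ k)
  have decomp : ∀ α : Fin n →₀ ℕ, (∀ k, k ≠ i0 → k ≠ i1 → k ≠ i2 → α k = 0) →
      α = Finsupp.single i0 (α i0) + Finsupp.single i1 (α i1) + Finsupp.single i2 (α i2) := by
    intro α h
    ext k
    simp only [Finsupp.add_apply, Finsupp.single_apply]
    by_cases h0 : k = i0
    · subst h0
      simp [h01.symm, h02.symm]
    · by_cases h1 : k = i1
      · subst h1
        simp [h01, h12.symm]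
      · by_cases h2 : k = i2
        · subst h2
          simp [h02, h12]
        · rw [h k h0 h1 h2]
          simp [Ne.symm h0, Ne.symm h1, Ne.symm h2]
  have wt3 : ∀ α : Fin n →₀ ℕ, (∀ k, k ≠ i0 → k ≠ i1 → k ≠ i2 → α k = 0) →
      wt e α = α i1 + s * α i2 := by
    intro α h
    conv_lhs => rw [decomp α h]
    rw [wt_add, wt_add, wt_single, wt_single, wt_single, e0, e1, ei2]
    ring
  have deg3 : ∀ α : Fin n →₀ ℕ, (∀ k, k ≠ i0 → k ≠ i1 → k ≠ i2 → α k = 0) →
      α.degree = α i0 + α i1 + α i2 := by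
    intro α h
    conv_lhs => rw [decomp α h]
    rw [map_add, map_add, Finsupp.degree_single, Finsupp.degree_single, Finsupp.degree_single]
  set β : Fin n →₀ ℕ := Finsupp.single i2 1 + Finsupp.single i0 (d - 1) with hβ
  have hβ0 : β i0 = d - 1 := by
    simp [hβ, Finsupp.single_apply, h02.symm]
  have hβ1 : β i1 = 0 := by
    simp [hβ, Finsupp.single_apply, h12.symm, h01]
  have hβ2 : β i2 = 1 := by
    simp [hβ, Finsupp.single_apply, h02]
  have hβo : ∀ k, k ≠ i0 → k ≠ i1 → k ≠ i2 → β k = 0 := by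
    intro k h0 h1 h2
    simp [hβ, Finsupp.single_apply, Ne.symm h0, Ne.symm h2]
  apply M_ge_of (e := e) (s := s) (z := i0) (x := i1) e0 e1 (β := β)
  · intro k hk
    by_cases h1 : k = i1
    · rw [h1, e1]
    · by_cases h2 : k = i2
      · rw [h2, ei2]; omega
      · rw [eo k hk h1 h2]; omega
  · rw [wt3 β hβo, hβ1, hβ2]; omega
  · rw [deg3 β hβo, hβ0, hβ1, hβ2]; omega
  · intro α hα α' hdeg hwt
    have hαo : ∀ k, k ≠ i0 → k ≠ i1 → k ≠ i2 → α k = 0 := by
      intro k h0 h1 h2
      have := hα k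
      rw [hβo k h0 h1 h2] at this
      omega
    have hα0 : α i0 ≤ d - 1 := by rw [← hβ0]; exact hα i0
    have hα1 : α i1 = 0 := by
      have := hα i1
      rw [hβ1] at this
      omega
    have hα2 : α i2 ≤ 1 := by rw [← hβ2]; exact hα i2
    rw [wt3 α hαo, hα1, zero_add] at hwt
    rw [deg3 α hαo, hα1] at hdeg
    have hwle : wt e α' ≤ s := by
      rw [hwt]
      calc s * α i2 ≤ s * 1 := Nat.mul_le_mul_left _ hα2
        _ = s := mul_one s
    have hα'o : ∀ k, k ≠ i0 → k ≠ i1 → k ≠ i2 → α' k = 0 := by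
      intro k h0 h1 h2
      have := term_le α' k
      rw [eo k h0 h1 h2] at this
      by_contra hne
      have h3 : 1 ≤ α' k := Nat.one_le_iff_ne_zero.2 hne
      have h4 : (s + 1) * 1 ≤ (s + 1) * α' k := Nat.mul_le_mul_left _ h3
      omega
    rw [wt3 α' hα'o] at hwt hwle
    rw [deg3 α' hα'o] at hdeg
    have hmain : α' i1 = 0 ∧ α' i2 = α i2 := by
      have hlt : α' i1 < s := by omega
      have hα2c : α i2 = 0 ∨ α i2 = 1 := by omega
      have hα2c' : α' i2 = 0 ∨ α' i2 = 1 ∨ 2 ≤ α' i2 := by omega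
      rcases hα2c with h | h
      · rw [h, mul_zero] at hwt
        have h1 : α' i1 = 0 := by omega
        have h2 : s * α' i2 = 0 := by omega
        rcases Nat.mul_eq_zero.1 h2 with h3 | h3
        · omega
        · exact ⟨h1, by omega⟩
      · rw [h, mul_one] at hwt
        rcases hα2c' with h3 | h3 | h3
        · rw [h3, mul_zero] at hwt; omega
        · rw [h3, mul_one] at hwt; omega
        · have : s * 2 ≤ s * α' i2 := Nat.mul_le_mul_left _ h3
          omega
    have h00 : α' i0 = α i0 := by omega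
    ext k
    by_cases h0 : k = i0
    · rw [h0, h00]
    · by_cases h1 : k = i1
      · rw [h1, hmain.1, hα1]
      · by_cases h2 : k = i2
        · rw [h2, hmain.2]
        · rw [hαo k h0 h1 h2, hα'o k h0 h1 h2]
  · intro i hi
    refine ⟨s - 1, by omega, ?_⟩
    intro α hα hwt
    have hαo : ∀ k, k ≠ i0 → k ≠ i1 → k ≠ i2 → α k = 0 := by
      intro k h0 h1 h2
      have := term_le α k
      rw [eo k h0 h1 h2] at this
      by_contra hne
      have h3 : 1 ≤ α k := Nat.one_le_iff_ne_zero.2 hne
      have h4 : (s + 1) * 1 ≤ (s + 1) * α k := Nat.mul_le_mul_left _ h3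
      omega
    rw [wt3 α hαo] at hwt
    rw [deg3 α hαo] at hα
    have h2 : α i2 = 0 := by
      by_contra hne
      have h3 : 1 ≤ α i2 := Nat.one_le_iff_ne_zero.2 hne
      have h4 : s * 1 ≤ s * α i2 := Nat.mul_le_mul_left _ h3
      omega
    rw [h2] at hwt
    omega

lemma M3_top {n d : ℕ} (hn : 3 ≤ n) (hd : 1 ≤ d) : M n d = ⊤ := by
  rw [ENat.eq_top_iff_forall_ge]
  intro m
  have := M3_ge hn hd (m + d + 1) (by omega)
  refine le_trans ?_ this
  exact_mod_cast (by omega : m ≤ m + d + 1 - 1)

/-! ### The Hilbert function step -/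

lemma h_step {n : ℕ} {I : Ideal (MvPolynomial (Fin n) ℂ)} {l : MvPolynomial (Fin n) ℂ} {i : ℕ}
    (hl : l.IsHomogeneous 1) (hnzd : ∀ u, l * u ∈ I → u ∈ I)
    (hsurj : ∀ w : MvPolynomial (Fin n) ℂ, w.IsHomogeneous (i + 1) →
      ∃ q : MvPolynomial (Fin n) ℂ, q.IsHomogeneous i ∧ w - l * q ∈ I) :
    hilb I (i + 1) = hilb I i := by
  unfold hilb
  set N1 := (I.restrictScalars ℂ).comap (homogeneousSubmodule (Fin n) ℂ (i + 1)).subtype with hN1
  set N0 := (I.restrictScalars ℂ).comap (homogeneousSubmodule (Fin n) ℂ i).subtype with hN0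
  let mu : homogeneousSubmodule (Fin n) ℂ i →ₗ[ℂ] homogeneousSubmodule (Fin n) ℂ (i + 1) :=
    { toFun := fun q => ⟨l * (q : MvPolynomial (Fin n) ℂ), by
        have := hl.mul q.2
        rw [mem_homogeneousSubmodule]
        rwa [add_comm 1 i] at this⟩
      map_add' := by
        intro a b
        apply Subtype.ext
        simp [mul_add]
      map_smul' := by
        intro c a
        apply Subtype.ext
        simp }
  let F := N1.mkQ ∘ₗ mu
  have hker : LinearMap.ker F = N0 := by
    ext q
    rw [LinearMap.mem_ker]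
    change N1.mkQ (mu q) = 0 ↔ _
    rw [Submodule.mkQ_apply, Submodule.Quotient.mk_eq_zero]
    constructor
    · intro h
      exact hnzd _ h
    · intro h
      exact Ideal.mul_mem_left _ l h
  have hsur : Function.Surjective F := by
    intro y
    obtain ⟨w, rfl⟩ := Submodule.mkQ_surjective N1 y
    obtain ⟨q, hq, hq2⟩ := hsurj w w.2
    refine ⟨⟨q, hq⟩, ?_⟩
    change N1.mkQ (mu ⟨q, hq⟩) = N1.mkQ w
    symm
    rw [Submodule.mkQ_apply, Submodule.mkQ_apply, Submodule.Quotient.eq]
    exact hq2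
  have e := (F.quotKerEquivOfSurjective hsur).finrank_eq
  rw [hker] at e
  exact e.symm

lemma reg_le_of_const {n : ℕ} {I : Ideal (MvPolynomial (Fin n) ℂ)} {d : ℕ}
    (h : ∀ i, d ≤ i → hilb I (i + 1) = hilb I i) : reg I ≤ d := by
  apply Nat.sInf_le
  refine ⟨d, ?_⟩
  intro i hi
  induction i, hi using Nat.le_induction with
  | base => rfl
  | succ i hi ih => rw [h i hi, ih]

/-! ### `n = 1` -/

lemma reg1 {I : Ideal (MvPolynomial (Fin 1) ℂ)} (hS : Saturated I) : reg I = 0 := by
  have : reg I ≤ 0 := by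
    apply reg_le_of_const
    intro i _
    apply h_step (l := X 0) (isHomogeneous_X ℂ 0)
    · intro u hu
      apply hS
      intro k
      have : k = 0 := Subsingleton.elim _ _
      rw [this]; exact hu
    · intro w hw
      refine ⟨∑ α ∈ w.support, monomial (Finsupp.single 0 i) (coeff α w), ?_, ?_⟩
      · apply IsHomogeneous.sum
        intro α _
        apply isHomogeneous_monomial
        rw [Finsupp.degree_single]
      · have : w = X 0 * ∑ α ∈ w.support, monomial (Finsupp.single 0 i) (coeff α w) := by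
          conv_lhs => rw [← support_sum_monomial_coeff w]
          rw [Finset.mul_sum]
          refine Finset.sum_congr rfl (fun α hα => ?_)
          have hdeg : α.degree = i + 1 := by
            by_contra hne
            exact (mem_support_iff.1 hα) (hw.coeff_eq_zero hne)
          have hα1 : α = Finsupp.single 0 1 + Finsupp.single 0 i := by
            rw [Finsupp.degree_eq_sum] at hdeg
            simp only [Finset.univ_unique, Fin.default_eq_zero, Finset.sum_singleton] at hdeg
            apply Finsupp.ext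
            intro k
            have hk : k = 0 := Subsingleton.elim _ _
            subst hk
            rw [hdeg]
            simp [add_comm]
          have hX : (X 0 : MvPolynomial (Fin 1) ℂ) = monomial (Finsupp.single 0 1) 1 := rfl
          rw [hX, monomial_mul, one_mul, ← hα1]
        rw [← this, sub_self]
        exact I.zero_mem
  omega

lemma M1 (d : ℕ) : M 1 d = 0 := by
  unfold M
  rw [sSup_eq_bot.2]
  · rfl
  · rintro r ⟨f, I, _, _, hI, _, rfl⟩
    rw [reg1 hI.2.1]
    rfl

/-! ### Binary forms -/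

/-- division of a binary form by a linear form -/
lemma division (μ : ℂ) {w : MvPolynomial (Fin 2) ℂ} {k : ℕ} (hw : w.IsHomogeneous k) :
    ∃ q : MvPolynomial (Fin 2) ℂ, q.IsHomogeneous (k - 1) ∧
      w = C ((dl e2 w).eval μ) * X 0 ^ k + (X 1 - C μ * X 0) * q := by
  have hq : ∀ α : Fin 2 →₀ ℕ, α.degree = k → ∀ c : ℂ,
      ∃ q : MvPolynomial (Fin 2) ℂ, q.IsHomogeneous (k - 1) ∧
      monomial α c = C ((dl e2 (monomial α c)).eval μ) * X 0 ^ k + (X 1 - C μ * X 0) * q := by
    intro α hα c
    rw [degree2] at hα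
    refine ⟨C c * X 0 ^ (α 0) * ∑ i ∈ Finset.range (α 1), X 1 ^ i * (C μ * X 0) ^ (α 1 - 1 - i),
      ?_, ?_⟩
    · rw [Finset.mul_sum]
      apply IsHomogeneous.sum
      intro i hi
      rw [Finset.mem_range] at hi
      have h1 : (C c * X 0 ^ (α 0) : MvPolynomial (Fin 2) ℂ).IsHomogeneous (0 + α 0) :=
        (isHomogeneous_C _ c).mul (isHomogeneous_X_pow' 0 _)
      have h2 : (C μ * X 0 : MvPolynomial (Fin 2) ℂ).IsHomogeneous (0 + 1) :=
        (isHomogeneous_C _ μ).mul (isHomogeneous_X ℂ 0)
      have h3 := h2.pow (α 1 - 1 - i)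
      have h4 := h1.mul ((isHomogeneous_X_pow' (1 : Fin 2) i).mul h3)
      have h5 : 0 + α 0 + (i + (0 + 1) * (α 1 - 1 - i)) = k - 1 := by omega
      rwa [h5] at h4
    · have hmon : (monomial α c : MvPolynomial (Fin 2) ℂ) = C c * X 0 ^ (α 0) * X 1 ^ (α 1) := by
        rw [monomial_eq, Finsupp.prod_fintype _ _ (by intro i; simp), Fin.prod_univ_two, mul_assoc]
      have hg := geom_sum₂_mul (X 1 : MvPolynomial (Fin 2) ℂ) (C μ * X 0) (α 1)
      rw [dl_monomial, wt_e2, Polynomial.eval_mul, Polynomial.eval_C, Polynomial.eval_pow,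
        Polynomial.eval_X]
      rw [hmon, ← hα, pow_add, C_mul, C_pow]
      rw [mul_pow] at hg
      linear_combination (-(C c) * X 0 ^ (α 0)) * hg
  choose! q hq1 hq2 using hq
  refine ⟨∑ α ∈ w.support, q α (coeff α w), ?_, ?_⟩
  · apply IsHomogeneous.sum
    intro α hα
    apply hq1
    by_contra hne
    exact (mem_support_iff.1 hα) (hw.coeff_eq_zero hne)
  · have h1 : w = ∑ α ∈ w.support, monomial α (coeff α w) := (support_sum_monomial_coeff w).symm
    have h2 : C ((dl e2 w).eval μ) = ∑ α ∈ w.support,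
        (C ((dl e2 (monomial α (coeff α w))).eval μ) : MvPolynomial (Fin 2) ℂ) := by
      conv_lhs => rw [h1]
      rw [map_sum, Polynomial.eval_finsetSum, map_sum]
    rw [h2, Finset.sum_mul, Finset.mul_sum, ← Finset.sum_add_distrib]
    conv_lhs => rw [h1]
    refine Finset.sum_congr rfl (fun α hα => ?_)
    apply hq2
    by_contra hne
    exact (mem_support_iff.1 hα) (hw.coeff_eq_zero hne)

lemma dl_inj {w : MvPolynomial (Fin 2) ℂ} {k : ℕ} (hw : w.IsHomogeneous k)
    (h : dl e2 w = 0) : w = 0 := by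
  ext α
  rw [coeff_zero]
  by_cases hα : α.degree = k
  · have h1 := congrArg (fun p => Polynomial.coeff p (α 1)) h
    simp only [Polynomial.coeff_zero] at h1
    rw [coeff_dl] at h1
    have h3 : ∀ α' ∈ w.support, (if wt e2 α' = α 1 then coeff α' w else 0) =
        if α' = α then coeff α w else 0 := by
      intro α' hα'
      have hdeg : α'.degree = k := by
        by_contra hne
        exact (mem_support_iff.1 hα') (hw.coeff_eq_zero hne)
      rw [wt_e2]
      by_cases h : α' 1 = α 1
      · have : α' = α := by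
          rw [degree2] at hα hdeg
          ext j
          fin_cases j
          · simp only [Fin.zero_eta]; omega
          · simp only [Fin.mk_one]; omega
        subst this
        simp
      · rw [if_neg h, if_neg]
        intro h'; exact h (by rw [h'])
    rw [Finset.sum_congr rfl h3, Finset.sum_ite_eq'] at h1
    split_ifs at h1 with h4
    · exact h1
    · by_contra h6; exact h4 (mem_support_iff.2 h6)
  · exact hw.coeff_eq_zero hα

lemma isHomogeneous_lin (μ : ℂ) : (X 1 - C μ * X 0 : MvPolynomial (Fin 2) ℂ).IsHomogeneous 1 := by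
  have h2 : (C μ * X 0 : MvPolynomial (Fin 2) ℂ).IsHomogeneous (0 + 1) :=
    (isHomogeneous_C _ μ).mul (isHomogeneous_X ℂ 0)
  rw [zero_add] at h2
  exact (isHomogeneous_X ℂ 1).sub h2

/-- every nonconstant binary form has a linear factor -/
lemma exists_factor {g : MvPolynomial (Fin 2) ℂ} {k : ℕ} (hg : g.IsHomogeneous (k + 1)) :
    ∃ l q : MvPolynomial (Fin 2) ℂ, l.IsHomogeneous 1 ∧ l ≠ 0 ∧ q.IsHomogeneous k ∧ g = l * q := by
  by_cases hdeg : (dl e2 g).degree = 0
  · have hc := Polynomial.eq_C_of_degree_eq_zero hdeg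
    set c := (dl e2 g).coeff 0 with hcdef
    have hhom : (C c * X 0 ^ (k + 1) : MvPolynomial (Fin 2) ℂ).IsHomogeneous (k + 1) := by
      have := (isHomogeneous_C (Fin 2) c).mul (isHomogeneous_X_pow' (0 : Fin 2) (k + 1))
      rwa [zero_add] at this
    have h0 : g - C c * X 0 ^ (k + 1) = 0 := by
      apply dl_inj (hg.sub hhom)
      rw [map_sub, map_mul, map_pow, dl_X, e2_0, pow_zero, one_pow, mul_one, hc]
      simp [dl]
    have hhom2 : (C c * X 0 ^ k : MvPolynomial (Fin 2) ℂ).IsHomogeneous k := by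
      have := (isHomogeneous_C (Fin 2) c).mul (isHomogeneous_X_pow' (0 : Fin 2) k)
      rwa [zero_add] at this
    refine ⟨X 0, C c * X 0 ^ k, isHomogeneous_X ℂ 0, X_ne_zero 0, hhom2, ?_⟩
    rw [sub_eq_zero.1 h0]; ring
  · obtain ⟨μ, hμ⟩ := IsAlgClosed.exists_root _ hdeg
    obtain ⟨q, hq, hgq⟩ := division μ hg
    rw [hμ.eq_zero, map_zero, zero_mul, zero_add] at hgq
    refine ⟨_, q, isHomogeneous_lin μ, ?_, by simpa using hq, hgq⟩
    intro h0
    have := congrArg (dl e2) h0
    rw [map_sub, map_mul, dl_X, dl_X, e2_0, e2_1, map_zero] at this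
    have h1 := congrArg (fun p => Polynomial.coeff p 1) this
    simp [dl] at h1

/-! ### Upper bound for `n = 2` -/

lemma comp_mul {n : ℕ} {l : MvPolynomial (Fin n) ℂ} (hl : l.IsHomogeneous 1)
    (u : MvPolynomial (Fin n) ℂ) (i : ℕ) :
    homogeneousComponent (i + 1) (l * u) = l * homogeneousComponent i u := by
  conv_lhs => rw [← sum_homogeneousComponent u]
  rw [Finset.mul_sum, map_sum]
  have h1 : ∀ j ∈ Finset.range (u.totalDegree + 1),
      homogeneousComponent (i + 1) (l * homogeneousComponent j u) =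
        if j = i then l * homogeneousComponent i u else 0 := by
    intro j _
    have hh : (l * homogeneousComponent j u).IsHomogeneous (j + 1) := by
      have := hl.mul (homogeneousComponent_isHomogeneous j u)
      rwa [add_comm 1 j] at this
    rw [homogeneousComponent_of_mem (n := j + 1) hh]
    by_cases h : j = i
    · subst h; simp
    · rw [if_neg h, if_neg (by omega)]
  rw [Finset.sum_congr rfl h1, Finset.sum_ite_eq' (Finset.range (u.totalDegree + 1)) i]
  split_ifs with h
  · rfl
  · rw [Finset.mem_range, not_lt] at h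
    rw [homogeneousComponent_eq_zero _ _ (by omega), mul_zero]

/-- the colon ideal -/
def col {n : ℕ} (I : Ideal (MvPolynomial (Fin n) ℂ)) (l : MvPolynomial (Fin n) ℂ) :
    Ideal (MvPolynomial (Fin n) ℂ) where
  carrier := {u | l * u ∈ I}
  add_mem' := by
    intro a b ha hb
    simp only [Set.mem_setOf_eq] at *
    rw [mul_add]; exact I.add_mem ha hb
  zero_mem' := by simp
  smul_mem' := by
    intro c a ha
    simp only [Set.mem_setOf_eq, smul_eq_mul] at *
    have : l * (c * a) = c * (l * a) := by ring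
    rw [this]; exact I.mul_mem_left c ha

lemma mem_col {n : ℕ} {I : Ideal (MvPolynomial (Fin n) ℂ)} {l u : MvPolynomial (Fin n) ℂ} :
    u ∈ col I l ↔ l * u ∈ I := Iff.rfl

lemma act_eq_zero_of_comps {n d : ℕ} {g f : MvPolynomial (Fin n) ℂ} (hf : f.IsHomogeneous d)
    (h : ∀ i ≤ d, homogeneousComponent i g = 0) : act g f = 0 := by
  unfold act
  refine Finset.sum_eq_zero (fun α hα => ?_)
  refine Finset.sum_eq_zero (fun β hβ => ?_)
  have hβd : β.degree = d := by
    by_contra hne
    exact (mem_support_iff.1 hβ) (hf.coeff_eq_zero hne)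
  have hαd : d < α.degree := by
    by_contra hle
    push Not at hle
    have h1 := congrArg (coeff α) (h α.degree hle)
    rw [coeff_homogeneousComponent, if_pos rfl, coeff_zero] at h1
    exact (mem_support_iff.1 hα) h1
  have hnot : ¬ α ≤ β := by
    intro hle
    have : α.degree ≤ β.degree := by
      rw [Finsupp.degree_eq_sum, Finsupp.degree_eq_sum]
      exact Finset.sum_le_sum (fun k _ => hle k)
    omega
  rw [Finsupp.le_def] at hnot
  push Not at hnot
  obtain ⟨i, hi⟩ := hnot
  have : ∏ i, ((β i).descFactorial (α i) : ℂ) = 0 := by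
    apply Finset.prod_eq_zero (Finset.mem_univ i)
    rw [Nat.descFactorial_of_lt hi, Nat.cast_zero]
  rw [this, mul_zero, map_zero]

/-- if `I` contains a nonzero form of degree `k + 1` then the Hilbert function is constant
from `k` on -/
lemma const_of_form {I : Ideal (MvPolynomial (Fin 2) ℂ)} (hS : Saturated I) {k : ℕ}
    {g : MvPolynomial (Fin 2) ℂ} (hgI : g ∈ I) (hg : g.IsHomogeneous (k + 1)) (hg0 : g ≠ 0) :
    ∀ i, k ≤ i → hilb I (i + 1) = hilb I i := by
  have hp : dl e2 g ≠ 0 := fun h => hg0 (dl_inj hg h)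
  obtain ⟨μ, hμ⟩ : ∃ μ : ℂ, (dl e2 g).eval μ ≠ 0 := by
    by_contra hcon
    push Not at hcon
    exact hp (Polynomial.funext (fun r => by rw [hcon r, Polynomial.eval_zero]))
  set c := (dl e2 g).eval μ with hc
  set l : MvPolynomial (Fin 2) ℂ := X 1 - C μ * X 0 with hl
  obtain ⟨q0, hq0, hgq0⟩ := division μ hg
  rw [← hc, ← hl] at hgq0
  have hq0' : q0.IsHomogeneous k := by simpa using hq0
  have hCc : (C c⁻¹ * C c : MvPolynomial (Fin 2) ℂ) = 1 := by
    rw [← C_mul, inv_mul_cancel₀ hμ, C_1]
  -- X0^(k+1) = c⁻¹ (g - l q0)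
  have hX : (X 0 ^ (k + 1) : MvPolynomial (Fin 2) ℂ) = C c⁻¹ * g - l * (C c⁻¹ * q0) := by
    rw [hgq0]
    linear_combination (-(X 0 : MvPolynomial (Fin 2) ℂ) ^ (k + 1)) * hCc
  have hnzd : ∀ u, l * u ∈ I → u ∈ I := by
    intro u hu
    have hdesc : ∀ N : ℕ, X 0 ^ N * u ∈ I → u ∈ I := by
      intro N
      induction N with
      | zero => intro h; simpa using h
      | succ N ih =>
        intro h
        apply ih
        apply hS
        intro j
        fin_cases j
        · have : (X 0 : MvPolynomial (Fin 2) ℂ) * (X 0 ^ N * u) = X 0 ^ (N + 1) * u := by ring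
          simp only [Fin.zero_eta]
          rw [this]; exact h
        · have : (X 1 : MvPolynomial (Fin 2) ℂ) * (X 0 ^ N * u) =
              X 0 ^ N * (l * u) + C μ * (X 0 ^ (N + 1) * u) := by rw [hl]; ring
          simp only [Fin.mk_one]
          rw [this]
          exact I.add_mem (I.mul_mem_left _ hu) (I.mul_mem_left _ h)
    apply hdesc (k + 1)
    have : (X 0 ^ (k + 1) : MvPolynomial (Fin 2) ℂ) * u =
        (C c⁻¹ * u) * g - (C c⁻¹ * q0) * (l * u) := by rw [hX]; ring
    rw [this]
    exact I.sub_mem (I.mul_mem_left _ hgI) (I.mul_mem_left _ hu)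
  intro i hi
  apply h_step (isHomogeneous_lin μ) hnzd
  intro w hw
  obtain ⟨q, hq, hwq⟩ := division μ hw
  set b := (dl e2 w).eval μ with hb
  rw [← hl] at hwq
  have hq' : q.IsHomogeneous i := by simpa using hq
  refine ⟨q - C b * (C c⁻¹ * q0) * X 0 ^ (i - k), ?_, ?_⟩
  · apply hq'.sub
    have h1 : (C b * (C c⁻¹ * q0) : MvPolynomial (Fin 2) ℂ).IsHomogeneous (0 + (0 + k)) :=
      (isHomogeneous_C _ b).mul ((isHomogeneous_C _ _).mul hq0')
    have h2 := h1.mul (isHomogeneous_X_pow' (0 : Fin 2) (i - k))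
    have h3 : 0 + (0 + k) + (i - k) = i := by omega
    rwa [h3] at h2
  · have e1 : (X 0 ^ (i + 1) : MvPolynomial (Fin 2) ℂ) = X 0 ^ (k + 1) * X 0 ^ (i - k) := by
      rw [← pow_add]; congr 1; omega
    have : w - l * (q - C b * (C c⁻¹ * q0) * X 0 ^ (i - k)) =
        (C b * C c⁻¹ * X 0 ^ (i - k)) * g := by
      rw [hwq, e1, hX]; ring
    rw [← hl, this]
    exact I.mul_mem_left _ hgI

/-- an ideal of a `0`-dimensional scheme in `ℙ¹` contains a nonzero form -/
lemma exists_form {I : Ideal (MvPolynomial (Fin 2) ℂ)} (hI : ZeroDimScheme I) :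
    ∃ k : ℕ, ∃ g ∈ I, g.IsHomogeneous k ∧ g ≠ 0 := by
  by_contra hcon
  push Not at hcon
  obtain ⟨m, hm, i₀, hi₀⟩ := hI.2.2
  have hfin : ∀ i, hilb I i = i + 1 := by
    intro i
    unfold hilb
    have hbot : (I.restrictScalars ℂ).comap (homogeneousSubmodule (Fin 2) ℂ i).subtype =
        LinearMap.ker (L e2 i i) := by
      rw [ker_L]
      ext q
      constructor
      · intro hq
        have h0 : (q : MvPolynomial (Fin 2) ℂ) = 0 := hcon i _ hq q.2
        rw [Submodule.mem_comap]
        change (q : MvPolynomial (Fin 2) ℂ) ∈ J e2 i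
        rw [h0]; exact (J e2 i).zero_mem
      · intro hq
        have hq' : (q : MvPolynomial (Fin 2) ℂ) ∈ J e2 i := hq
        rw [mem_J_hom q.2] at hq'
        have hz : dl e2 (q : MvPolynomial (Fin 2) ℂ) = 0 := by
          ext r
          by_cases hr : r < i + 1
          · exact (Polynomial.X_pow_dvd_iff.1 hq') r hr
          · rw [coeff_dl, Polynomial.coeff_zero]
            refine Finset.sum_eq_zero (fun α hα => ?_)
            have hdeg : α.degree = i := by
              by_contra hne
              exact (mem_support_iff.1 hα) (q.2.coeff_eq_zero hne)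
            rw [if_neg]
            rw [wt_e2]
            rw [degree2] at hdeg
            omega
        have h0 := dl_inj q.2 hz
        rw [Submodule.mem_comap]
        change (q : MvPolynomial (Fin 2) ℂ) ∈ I
        rw [h0]; exact I.zero_mem
    rw [hbot]
    have e := (L e2 i i).quotKerEquivRange.finrank_eq
    rw [e, LinearMap.range_eq_top.2 (L_surj e2_0 e2_1 (le_refl i)), finrank_top]
    simp
  have h1 := hi₀ i₀ (le_refl _)
  have h2 := hi₀ (i₀ + 1) (by omega)
  rw [hfin] at h1 h2
  omega

lemma reg2_le {d : ℕ} {f : MvPolynomial (Fin 2) ℂ} (hf : f.IsHomogeneous d)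
    {I : Ideal (MvPolynomial (Fin 2) ℂ)} (hI : ZeroDimScheme I) (hirr : Irredundant I f) :
    reg I ≤ d := by
  classical
  by_cases hform : ∃ g ∈ I, g.IsHomogeneous (d + 1) ∧ g ≠ 0
  · obtain ⟨g, hgI, hg, hg0⟩ := hform
    exact reg_le_of_const (const_of_form hI.2.1 hgI hg hg0)
  · exfalso
    push Not at hform
    have hex := exists_form hI
    set k := Nat.find hex with hk
    obtain ⟨g, hgI, hg, hg0⟩ := Nat.find_spec hex
    have hmin : ∀ j < k, ∀ g ∈ I, g.IsHomogeneous j → g = 0 := by
      intro j hj g hg hgh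
      by_contra hne
      exact Nat.find_min hex hj ⟨g, hg, hgh, hne⟩
    -- k ≠ 0
    have hk0 : k ≠ 0 := by
      intro h0
      rw [← hk, h0] at hg
      have hgc : g = C (coeff 0 g) := by
        rw [← totalDegree_eq_zero_iff_eq_C]
        exact Nat.le_zero.1 hg.totalDegree_le
      have hu : IsUnit g := by
        rw [hgc]
        apply IsUnit.map
        rw [isUnit_iff_ne_zero]
        intro h; apply hg0; rw [hgc, h, map_zero]
      have htop : I = ⊤ := Ideal.eq_top_of_isUnit_mem I hgI hu
      obtain ⟨m, hm, i₀, hi₀⟩ := hI.2.2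
      have h1 := hi₀ i₀ (le_refl _)
      have h2 : hilb I i₀ = 0 := by
        unfold hilb
        rw [htop]
        have : (Submodule.restrictScalars ℂ (⊤ : Ideal (MvPolynomial (Fin 2) ℂ))).comap
            (homogeneousSubmodule (Fin 2) ℂ i₀).subtype = ⊤ := by
          ext x; simp
        rw [this]
        have : Subsingleton (homogeneousSubmodule (Fin 2) ℂ i₀ ⧸
            (⊤ : Submodule ℂ (homogeneousSubmodule (Fin 2) ℂ i₀))) :=
          (Submodule.Quotient.subsingleton_iff).2 rfl
        exact Module.finrank_zero_of_subsingleton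
      omega
    obtain ⟨k', hk'⟩ : ∃ k', k = k' + 1 := ⟨k - 1, by omega⟩
    rw [← hk, hk'] at hg
    obtain ⟨l, q, hl, hl0, hq, hglq⟩ := exists_factor hg
    have hq0 : q ≠ 0 := by
      intro h; apply hg0; rw [hglq, h, mul_zero]
    have hqI : q ∉ I := fun h => hq0 (hmin k' (by omega) q h hq)
    -- the colon ideal
    apply hirr.2 (col I l)
    · intro u hu i
      rw [mem_col] at hu ⊢
      rw [← comp_mul hl]
      exact hI.1 _ hu _
    · intro u hu
      rw [mem_col]
      apply hI.2.1
      intro j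
      have := hu j
      rw [mem_col] at this
      have e : X j * (l * u) = l * (X j * u) := by ring
      rw [e]; exact this
    · rw [SetLike.lt_iff_le_and_exists]
      refine ⟨?_, q, ?_, hqI⟩
      · intro u hu
        rw [mem_col]
        exact I.mul_mem_left _ hu
      · rw [mem_col, ← hglq]; exact hgI
    · intro u hu
      apply act_eq_zero_of_comps hf
      intro i hi
      rw [mem_col] at hu
      have h1 : l * homogeneousComponent i u ∈ I := by
        rw [← comp_mul hl]; exact hI.1 _ hu _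
      have h2 : X 0 ^ (d - i) * (l * homogeneousComponent i u) = 0 := by
        apply hform
        · exact I.mul_mem_left _ h1
        · have := (isHomogeneous_X_pow' (0 : Fin 2) (d - i)).mul
            (hl.mul (homogeneousComponent_isHomogeneous i u))
          have e : d - i + (1 + i) = d + 1 := by omega
          rwa [e] at this
      rcases mul_eq_zero.1 h2 with h | h
      · exact absurd h (pow_ne_zero _ (X_ne_zero 0))
      · rcases mul_eq_zero.1 h with h | h
        · exact absurd h hl0
        · exact h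

lemma M2 (d : ℕ) : M 2 d = d := by
  apply le_antisymm _ (M2_ge d)
  apply sSup_le
  rintro r ⟨f, I, _, hf, hI, hirr, rfl⟩
  exact_mod_cast reg2_le hf hI hirr

theorem main (n d : ℕ) (hn : 1 ≤ n) (hd : 1 ≤ d) :
    M n d = if n = 1 then 0 else if n = 2 then (d : ℕ∞) else ⊤ := by
  split_ifs with h1 h2
  · subst h1; exact M1 d
  · subst h2; exact M2 d
  · exact M3_top (by omega) hd

end

end Pool.Agent.H7Apolar
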