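import Mathlib

set_option autoImplicit false

open MvPolynomial

namespace Pool.Agent.H7Apolar

/-- The action of `S = ℂ[x_1,…,x_n]` on `ℂ[X_1,…,X_n]` by differentiation, `x_i` acting as
`∂/∂X_i`; explicitly `x^α ∘ X^β = ∂^α X^β = ∏ β_i!/(β_i-α_i)! · X^(β-α)` (and `0` unless
`α ≤ β`, which is automatic as `β_i.descFactorial α_i = 0` for `α_i > β_i`). -/
noncomputable def act {n : ℕ} (g f : MvPolynomial (Fin n) ℂ) : MvPolynomial (Fin n) ℂ :=
  ∑ α ∈ g.support, ∑ β ∈ f.support,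
    monomial (β - α) (coeff α g * coeff β f * ∏ i, ((β i).descFactorial (α i) : ℂ))

/-- Homogeneous ideals of `S`. -/
def HomogIdeal {n : ℕ} (I : Ideal (MvPolynomial (Fin n) ℂ)) : Prop :=
  ∀ g ∈ I, ∀ i : ℕ, homogeneousComponent i g ∈ I

/-- Saturated ideals with respect to `(x_1,…,x_n)`: `(I : (x_1,…,x_n)) = I`. -/
def Saturated {n : ℕ} (I : Ideal (MvPolynomial (Fin n) ℂ)) : Prop :=
  ∀ g, (∀ k : Fin n, X k * g ∈ I) → g ∈ I

/-- Hilbert function `i ↦ dim (S/I)_i = dim S_i / (S_i ∩ I)`. -/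
noncomputable def hilb {n : ℕ} (I : Ideal (MvPolynomial (Fin n) ℂ)) (i : ℕ) : ℕ :=
  Module.finrank ℂ (homogeneousSubmodule (Fin n) ℂ i ⧸
    (I.restrictScalars ℂ).comap (homogeneousSubmodule (Fin n) ℂ i).subtype)

/-- The Hilbert function of `S/I` is eventually equal to `m`. -/
def HasDegree {n : ℕ} (I : Ideal (MvPolynomial (Fin n) ℂ)) (m : ℕ) : Prop :=
  ∃ i₀ : ℕ, ∀ i, i₀ ≤ i → hilb I i = m

/-- `I` is the saturated homogeneous ideal of a (nonempty) `0`-dimensional subscheme of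
`ℙ^(n-1)`. -/
def ZeroDimScheme {n : ℕ} (I : Ideal (MvPolynomial (Fin n) ℂ)) : Prop :=
  HomogIdeal I ∧ Saturated I ∧ ∃ m : ℕ, 1 ≤ m ∧ HasDegree I m

/-- Regularity: the least `i ≥ 0` with `h_X(i) = deg X`. -/
noncomputable def reg {n : ℕ} (I : Ideal (MvPolynomial (Fin n) ℂ)) : ℕ :=
  sInf {i : ℕ | HasDegree I (hilb I i)}

/-- `I ⊆ Ann(f)`. -/
def Apolar {n : ℕ} (I : Ideal (MvPolynomial (Fin n) ℂ)) (f : MvPolynomial (Fin n) ℂ) : Prop :=
  ∀ g ∈ I, act g f = 0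

/-- The scheme of `I` is apolar to `f` and no proper closed subscheme of it (i.e. no saturated
homogeneous ideal strictly containing `I`) is apolar to `f`. -/
def Irredundant {n : ℕ} (I : Ideal (MvPolynomial (Fin n) ℂ)) (f : MvPolynomial (Fin n) ℂ) :
    Prop :=
  Apolar I f ∧ ∀ I' : Ideal (MvPolynomial (Fin n) ℂ),
    HomogIdeal I' → Saturated I' → I < I' → ¬ Apolar I' f

/-- `M(n,d)`, the supremum (in `ℕ ∪ {∞}`) of the regularities of the `0`-dimensional schemes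
in `ℙ^(n-1)` irredundant for some nonzero form of degree `d`. -/
noncomputable def M (n d : ℕ) : ℕ∞ :=
  sSup {r : ℕ∞ | ∃ (f : MvPolynomial (Fin n) ℂ) (I : Ideal (MvPolynomial (Fin n) ℂ)),
    f ≠ 0 ∧ f.IsHomogeneous d ∧ ZeroDimScheme I ∧ Irredundant I f ∧ r = (reg I : ℕ∞)}

end Pool.Agent.H7Apolar
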