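import Mathlib

/-! The Herglotz kernel, its primitive and elementary estimates. -/

namespace H7Bpr

open Complex Real

/-- the point `exp(2 pi i x)` -/
noncomputable def ze (x : ℝ) : ℂ := cexp (((2 * π * x : ℝ) : ℂ) * I)

lemma norm_ze (x : ℝ) : ‖ze x‖ = 1 := Complex.norm_exp_ofReal_mul_I _

lemma ze_ne_zero (x : ℝ) : ze x ≠ 0 := Complex.exp_ne_zero _

lemma ze_zero : ze 0 = 1 := by simp [ze]

lemma ze_one : ze 1 = 1 := by
  unfold ze
  have : ((2 * π * 1 : ℝ) : ℂ) * I = 2 * π * I := by push_cast; ring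
  rw [this, Complex.exp_two_pi_mul_I]

lemma hasDerivAt_ze (x : ℝ) : HasDerivAt ze (2 * π * I * ze x) x := by
  have h1 : HasDerivAt (fun y : ℝ => ((2 * π * y : ℝ) : ℂ) * I) (2 * π * I) x := by
    have h0 : HasDerivAt (fun y : ℝ => 2 * π * y) (2 * π * 1) x :=
      (hasDerivAt_id' x).const_mul (2 * π)
    have := (h0.ofReal_comp).mul_const I
    refine this.congr_deriv ?_
    push_cast
    ring
  have h2 := h1.cexp
  refine h2.congr_deriv ?_
  unfold ze
  ring

lemma ze_sub_ne {z : ℂ} (hz : ‖z‖ < 1) (x : ℝ) : ze x - z ≠ 0 := by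
  intro h
  have : ze x = z := sub_eq_zero.mp h
  have h2 := norm_ze x
  rw [this] at h2
  linarith

lemma dist_lower {z : ℂ} (x : ℝ) : 1 - ‖z‖ ≤ ‖ze x - z‖ := by
  have := norm_sub_norm_le (ze x) z
  rw [norm_ze] at this
  exact this

lemma dist_upper {z : ℂ} (hz : ‖z‖ < 1) (x : ℝ) : ‖ze x - z‖ ≤ 2 := by
  have := norm_sub_le (ze x) z
  rw [norm_ze] at this
  linarith

lemma ze_lip (x y : ℝ) : ‖ze x - ze y‖ ≤ 2 * π * |x - y| := by
  have h : ze x - ze y = ze y * (cexp (I * ((2 * π * (x - y) : ℝ) : ℂ)) - 1) := by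
    unfold ze
    rw [mul_sub, mul_one, ← Complex.exp_add]
    congr 2
    push_cast
    ring
  rw [h, norm_mul, norm_ze, one_mul]
  refine (Real.norm_exp_I_mul_ofReal_sub_one_le (x := 2 * π * (x - y))).trans ?_
  rw [Real.norm_eq_abs, abs_mul, abs_of_pos Real.two_pi_pos]

/-- Harnack-type comparison. -/
lemma harnack {z : ℂ} (x y : ℝ) (h : |x - y| ≤ 1 - ‖z‖) :
    ‖ze x - z‖ ≤ (1 + 2 * π) * ‖ze y - z‖ := by
  have h1 : ‖ze x - z‖ ≤ ‖ze x - ze y‖ + ‖ze y - z‖ := by
    have := norm_add_le (ze x - ze y) (ze y - z)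
    rwa [sub_add_sub_cancel] at this
  have h2 := ze_lip x y
  have h3 := dist_lower (z := z) y
  have h4 : 2 * π * |x - y| ≤ 2 * π * ‖ze y - z‖ :=
    mul_le_mul_of_nonneg_left (h.trans h3) (by positivity)
  linarith

/-- the Herglotz kernel -/
noncomputable def K (z : ℂ) (x : ℝ) : ℂ := (ze x + z) / (ze x - z)

/-- the primitive of the Herglotz kernel -/
noncomputable def E (z : ℂ) (x : ℝ) : ℂ := x + (1 / (π * I)) * Complex.log (1 - z / ze x)

lemma slit {z : ℂ} (hz : ‖z‖ < 1) (x : ℝ) : 1 - z / ze x ∈ Complex.slitPlane := by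
  left
  have h1 : ‖z / ze x‖ < 1 := by rw [norm_div, norm_ze, div_one]; exact hz
  have h2 := Complex.re_le_norm (z / ze x)
  simp only [sub_re, one_re]
  linarith

lemma hasDerivAt_E_x {z : ℂ} (hz : ‖z‖ < 1) (x : ℝ) : HasDerivAt (fun y => E z y) (K z x) x := by
  have hne := ze_ne_zero x
  have hne2 := ze_sub_ne hz x
  have h1 : HasDerivAt (fun y : ℝ => 1 - z / ze y) (z * (2 * π * I) / ze x) x := by
    have h0 := ((hasDerivAt_ze x).inv hne).const_mul z
    have h2 := h0.const_sub 1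
    have e : (fun y : ℝ => 1 - z / ze y) = fun y => 1 - z * (ze⁻¹) y := by
      funext y; rw [div_eq_mul_inv]; rfl
    rw [e]
    refine h2.congr_deriv ?_
    field_simp
  have h3 := (h1.clog_real (slit hz x)).const_mul (1 / (π * I) : ℂ)
  have h4 : HasDerivAt (fun y : ℝ => (y : ℂ)) 1 x := by
    simpa using (hasDerivAt_id' x).ofReal_comp
  refine (h4.add h3).congr_deriv ?_
  have hpi : (π : ℂ) ≠ 0 := by exact_mod_cast Real.pi_ne_zero
  have hne3 : 1 - z / ze x ≠ 0 := Complex.slitPlane_ne_zero (slit hz x)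
  unfold K
  field_simp
  ring

lemma hasDerivAt_E_z {z : ℂ} (hz : ‖z‖ < 1) (x : ℝ) :
    HasDerivAt (fun w => E w x) (-(1 / (π * I)) / (ze x - z)) z := by
  have hne := ze_ne_zero x
  have hne2 := ze_sub_ne hz x
  have h1 : HasDerivAt (fun w : ℂ => 1 - w / ze x) (-(1 / ze x)) z := by
    have := ((hasDerivAt_id' z).div_const (ze x)).const_sub 1
    exact this
  have h3 := (h1.clog (slit hz x)).const_mul (1 / (π * I) : ℂ)
  have h4 := h3.const_add (x:ℂ)
  refine h4.congr_deriv ?_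
  have hpi : (π : ℂ) ≠ 0 := by exact_mod_cast Real.pi_ne_zero
  have hne3 : 1 - z / ze x ≠ 0 := Complex.slitPlane_ne_zero (slit hz x)
  field_simp

lemma E_one (z : ℂ) : E z 1 = E z 0 + 1 := by
  unfold E
  rw [ze_one, ze_zero]
  push_cast
  ring

lemma K_re {z : ℂ} (x : ℝ) : (K z x).re = (1 - ‖z‖ ^ 2) / ‖ze x - z‖ ^ 2 := by
  unfold K
  rw [Complex.div_re, ← Complex.normSq_eq_norm_sq (ze x - z), ← add_div]
  congr 1
  have h : ‖ze x‖ ^ 2 = 1 := by rw [norm_ze]; norm_num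
  rw [← Complex.normSq_eq_norm_sq, Complex.normSq_apply] at h
  rw [← Complex.normSq_eq_norm_sq, Complex.normSq_apply]
  simp only [add_re, sub_re, add_im, sub_im]
  linarith

lemma hasDerivAt_K {z : ℂ} (hz : ‖z‖ < 1) (x : ℝ) :
    HasDerivAt (fun y => K z y) (-(4 * π * I * z * ze x) / (ze x - z) ^ 2) x := by
  have hne2 := ze_sub_ne hz x
  have h := hasDerivAt_ze x
  have h1 := (h.add_const z).div (h.sub_const z) hne2
  refine HasDerivAt.congr_deriv (f := fun y => K z y) h1 ?_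
  congr 1
  ring

/-- second difference estimate -/
lemma second_diff {g g' g'' : ℝ → ℂ} (x h S : ℝ) (hh : 0 ≤ h)
    (hg : ∀ y, HasDerivAt g (g' y) y)
    (hg' : ∀ y, HasDerivAt g' (g'' y) y)
    (hS : ∀ y ∈ Set.Icc (x - h) (x + h), ‖g'' y‖ ≤ S) :
    ‖g (x - h) - 2 * g x + g (x + h)‖ ≤ 2 * S * h ^ 2 := by
  have hS0 : 0 ≤ S := (norm_nonneg _).trans (hS x ⟨by linarith, by linarith⟩)
  have hd : ∀ t ∈ Set.Icc 0 h, HasDerivWithinAt (fun t => g (x - t) + g (x + t))
      (-(g' (x - t)) + g' (x + t)) (Set.Icc 0 h) t := by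
    intro t _
    apply HasDerivAt.hasDerivWithinAt
    have h1 : HasDerivAt (fun t : ℝ => x - t) (-1) t := (hasDerivAt_id' t).const_sub x
    have h2 : HasDerivAt (fun t : ℝ => x + t) 1 t := (hasDerivAt_id' t).const_add x
    have h3 := (hg (x - t)).scomp t h1
    have h4 := (hg (x + t)).scomp t h2
    refine (h3.add h4).congr_deriv ?_
    simp
  have hb : ∀ t ∈ Set.Icc 0 h, ‖-(g' (x - t)) + g' (x + t)‖ ≤ 2 * S * h := by
    intro t ht
    have h5 : ‖g' (x + t) - g' (x - t)‖ ≤ S * ‖(x + t) - (x - t)‖ := by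
      apply Convex.norm_image_sub_le_of_norm_hasDerivWithin_le (s := Set.Icc (x - h) (x + h))
        (f' := g'')
      · intro y _; exact (hg' y).hasDerivWithinAt
      · exact hS
      · exact convex_Icc _ _
      · exact ⟨by linarith [ht.2], by linarith [ht.1]⟩
      · exact ⟨by linarith [ht.1], by linarith [ht.2]⟩
    rw [neg_add_eq_sub]
    refine h5.trans ?_
    rw [Real.norm_eq_abs, show x + t - (x - t) = 2 * t by ring, abs_of_nonneg (by linarith [ht.1])]
    nlinarith [ht.1, ht.2]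
  have h6 := Convex.norm_image_sub_le_of_norm_hasDerivWithin_le
    (f := fun t => g (x - t) + g (x + t)) (x := 0) (y := h) hd hb (convex_Icc 0 h)
    ⟨le_refl _, hh⟩ ⟨hh, le_refl _⟩
  simp only [sub_zero, add_zero] at h6
  rw [Real.norm_eq_abs, abs_of_nonneg hh] at h6
  have e : g (x - h) - 2 * g x + g (x + h) = g (x - h) + g (x + h) - (g x + g x) := by ring
  rw [e]
  refine h6.trans (le_of_eq ?_)
  ring

end H7Bpr
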