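import Mathlib

/-! The absorbed random walk on the 4-adic tree. -/

namespace H7Bpr

open Finset

/-- the four children of a value -/
def ch (c i : ℕ) : ℕ := if i = 1 then (if c = 0 then 0 else c + 1) else if i = 2 then c - 1 else c

/-- the walk -/
def H : ℕ → ℕ → ℕ
  | 0, _ => 1
  | (J + 1), n => ch (H J (n / 4)) (n % 4)

lemma H_zero (n : ℕ) : H 0 n = 1 := rfl

lemma H_succ (J n : ℕ) : H (J + 1) n = ch (H J (n / 4)) (n % 4) := rfl

lemma H_child (J m i : ℕ) (hi : i < 4) : H (J + 1) (4 * m + i) = ch (H J m) i := by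
  rw [H_succ]
  congr 2 <;> omega

lemma sum_four {M : Type*} [AddCommMonoid M] (g : ℕ → M) (N : ℕ) :
    ∑ n ∈ range (4 * N), g n =
      ∑ m ∈ range N, (g (4 * m) + g (4 * m + 1) + g (4 * m + 2) + g (4 * m + 3)) := by
  induction N with
  | zero => simp
  | succ N ih =>
    rw [sum_range_succ, ← ih, show 4 * (N + 1) = 4 * N + 1 + 1 + 1 + 1 by ring]
    simp only [sum_range_succ]
    simp only [add_assoc]

lemma ch_le (c i : ℕ) : (ch c i : ℤ) - c ≤ 1 ∧ -1 ≤ (ch c i : ℤ) - c := by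
  unfold ch
  split_ifs <;> omega

lemma ch_zero' (c : ℕ) : ch c 0 = c := by simp [ch]
lemma ch_three (c : ℕ) : ch c 3 = c := by simp [ch]
lemma ch_one (c : ℕ) : ch c 1 = if c = 0 then 0 else c + 1 := by simp [ch]
lemma ch_two (c : ℕ) : ch c 2 = c - 1 := by simp [ch]

/-- consecutive values differ by at most two -/
lemma H_jump (J : ℕ) : ∀ m : ℕ, |(H J (m + 1) : ℤ) - H J m| ≤ 2 := by
  induction J with
  | zero => intro m; simp [H_zero]
  | succ J ih =>
    intro m
    rw [H_succ, H_succ]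
    by_cases h : m % 4 = 3
    · have h1 : (m + 1) % 4 = 0 := by omega
      have h2 : (m + 1) / 4 = m / 4 + 1 := by omega
      rw [h, h1, h2, ch_zero', ch_three]
      exact ih (m / 4)
    · have h2 : (m + 1) / 4 = m / 4 := by omega
      rw [h2]
      have a := ch_le (H J (m / 4)) ((m + 1) % 4)
      have b := ch_le (H J (m / 4)) (m % 4)
      rw [abs_le]
      constructor <;> linarith [a.1, a.2, b.1, b.2]

lemma H_first (J : ℕ) : H J 0 = 1 := by
  induction J with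
  | zero => rfl
  | succ J ih => rw [H_succ]; simp [ih, ch_zero']

lemma H_last (J : ℕ) : H J (4 ^ J - 1) = 1 := by
  induction J with
  | zero => rfl
  | succ J ih =>
    rw [H_succ]
    have hp : 0 < 4 ^ J := by positivity
    have h1 : (4 ^ (J + 1) - 1) / 4 = 4 ^ J - 1 := by rw [pow_succ]; omega
    have h2 : (4 ^ (J + 1) - 1) % 4 = 3 := by rw [pow_succ]; omega
    rw [h1, h2, ih, ch_three]

lemma sum_ch (c : ℕ) : ch c 0 + ch c 1 + ch c 2 + ch c 3 = 4 * c := by
  rw [ch_zero', ch_one, ch_two, ch_three]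
  split_ifs <;> omega

lemma sum_ch_sq (c : ℕ) : ch c 0 ^ 2 + ch c 1 ^ 2 + ch c 2 ^ 2 + ch c 3 ^ 2
    = 4 * c ^ 2 + 2 * (if c = 0 then 0 else 1) := by
  rw [ch_zero', ch_one, ch_two, ch_three]
  rcases c with _ | c
  · simp
  · simp only [Nat.add_sub_cancel, Nat.add_eq_zero_iff, one_ne_zero, and_false, if_false]
    ring

lemma H_sum (J : ℕ) : ∑ n ∈ range (4 ^ J), H J n = 4 ^ J := by
  induction J with
  | zero => simp [H_zero]
  | succ J ih =>
    rw [pow_succ, mul_comm, sum_four]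
    have : ∀ m, H (J + 1) (4 * m) + H (J + 1) (4 * m + 1) + H (J + 1) (4 * m + 2)
        + H (J + 1) (4 * m + 3) = 4 * H J m := by
      intro m
      have h0 := H_child J m 0 (by norm_num)
      have h1 := H_child J m 1 (by norm_num)
      have h2 := H_child J m 2 (by norm_num)
      have h3 := H_child J m 3 (by norm_num)
      rw [add_zero] at h0
      rw [h0, h1, h2, h3, sum_ch]
    simp_rw [this]
    rw [← mul_sum, ih]

lemma H_sq_step (J : ℕ) : ∑ n ∈ range (4 ^ (J + 1)), H (J + 1) n ^ 2 =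
    4 * ∑ n ∈ range (4 ^ J), H J n ^ 2
      + 2 * ∑ n ∈ range (4 ^ J), (if H J n = 0 then 0 else 1) := by
  rw [pow_succ, mul_comm, sum_four]
  have : ∀ m, H (J + 1) (4 * m) ^ 2 + H (J + 1) (4 * m + 1) ^ 2 + H (J + 1) (4 * m + 2) ^ 2
      + H (J + 1) (4 * m + 3) ^ 2 = 4 * H J m ^ 2 + 2 * (if H J m = 0 then 0 else 1) := by
    intro m
    have h0 := H_child J m 0 (by norm_num)
    have h1 := H_child J m 1 (by norm_num)
    have h2 := H_child J m 2 (by norm_num)
    have h3 := H_child J m 3 (by norm_num)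
    rw [add_zero] at h0
    rw [h0, h1, h2, h3, sum_ch_sq]
  simp_rw [this]
  rw [sum_add_distrib, ← mul_sum, ← mul_sum]

/-- Cauchy-Schwarz: the walk survives with probability at least one over its second moment. -/
lemma H_CS (J : ℕ) : (4:ℝ) ^ J * 4 ^ J ≤
    (∑ n ∈ range (4 ^ J), (H J n : ℝ) ^ 2) *
      ∑ n ∈ range (4 ^ J), (if H J n = 0 then (0:ℝ) else 1) := by
  have h := Finset.sum_mul_sq_le_sq_mul_sq (range (4 ^ J)) (fun n => (H J n : ℝ))
    (fun n => if H J n = 0 then (0:ℝ) else 1)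
  have h1 : ∑ n ∈ range (4 ^ J), (H J n : ℝ) * (if H J n = 0 then (0:ℝ) else 1) = 4 ^ J := by
    have : ∀ n, (H J n : ℝ) * (if H J n = 0 then (0:ℝ) else 1) = H J n := by
      intro n; split_ifs with h0 <;> simp [h0]
    simp_rw [this]
    exact_mod_cast H_sum J
  have h2 : ∀ n, (if H J n = 0 then (0:ℝ) else 1) ^ 2 = if H J n = 0 then (0:ℝ) else 1 := by
    intro n; split_ifs <;> simp
  simp_rw [h1, h2] at h
  rw [← pow_two]
  exact h

/-- The second moment of the walk grows like the square root. -/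
lemma H_second (J : ℕ) : √((J:ℝ) + 1) * 4 ^ J ≤ ∑ n ∈ range (4 ^ J), (H J n : ℝ) ^ 2 := by
  induction J with
  | zero => simp [H_zero]
  | succ J ih =>
    have hstep : (∑ n ∈ range (4 ^ (J + 1)), (H (J + 1) n : ℝ) ^ 2) =
        4 * ∑ n ∈ range (4 ^ J), (H J n : ℝ) ^ 2
          + 2 * ∑ n ∈ range (4 ^ J), (if H J n = 0 then (0:ℝ) else 1) := by
      have := H_sq_step J
      exact_mod_cast this
    have hcs := H_CS J
    rw [hstep]
    set P := ∑ n ∈ range (4 ^ J), (if H J n = 0 then (0:ℝ) else 1) with hP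
    set Q := ∑ n ∈ range (4 ^ J), (H J n : ℝ) ^ 2 with hQ
    have h4 : (0:ℝ) < 4 ^ J := by positivity
    have hs : 0 < √((J:ℝ) + 1) := Real.sqrt_pos.mpr (by positivity)
    have hQpos : 0 < Q := lt_of_lt_of_le (by positivity) ih
    have hP0 : 0 ≤ P := sum_nonneg fun n _ => by split_ifs <;> norm_num
    -- want √(J+2) 4^(J+1) ≤ 4Q + 2P
    have key : ((J:ℝ) + 2) * (4 ^ (J + 1)) ^ 2 ≤ (4 * Q + 2 * P) ^ 2 := by
      have e1 : (4 * Q + 2 * P) ^ 2 = 16 * Q ^ 2 + 16 * (Q * P) + 4 * P ^ 2 := by ring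
      have e2 : ((J:ℝ) + 1) * (4 ^ J) ^ 2 ≤ Q ^ 2 := by
        have := mul_self_le_mul_self (by positivity) ih
        have e3 : √((J:ℝ) + 1) * 4 ^ J * (√((J:ℝ) + 1) * 4 ^ J) = ((J:ℝ) + 1) * (4 ^ J) ^ 2 := by
          have := Real.mul_self_sqrt (show (0:ℝ) ≤ (J:ℝ) + 1 by positivity)
          calc _ = (√((J:ℝ) + 1) * √((J:ℝ) + 1)) * (4 ^ J) ^ 2 := by ring
            _ = _ := by rw [this]
        nlinarith
      have e4 : ((4:ℝ) ^ (J + 1)) ^ 2 = 16 * (4 ^ J) ^ 2 := by ring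
      rw [e1, e4]
      nlinarith [sq_nonneg P]
    have h5 : √((J:ℝ) + 2) * 4 ^ (J + 1) ≤ 4 * Q + 2 * P := by
      apply le_of_sq_le_sq _ (by positivity : 0 ≤ 4 * Q + 2 * P)
      rw [mul_pow, Real.sq_sqrt (by positivity)]
      exact key
    have e6 : ((J + 1 : ℕ) : ℝ) + 1 = (J:ℝ) + 2 := by push_cast; ring
    rw [e6]
    exact h5

end H7Bpr
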