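import Mathlib
import Pool.Agent.H7BprWalk
import Pool.Agent.H7BprKernel

/-! The approximating functions and their limit. -/

namespace H7Bpr

open Complex Real Finset

/-- the 4-adic points -/
noncomputable def pt (J n : ℕ) : ℝ := (n:ℝ) / 4 ^ J

/-- approximating functions -/
noncomputable def fJ (J : ℕ) (z : ℂ) : ℂ :=
  ∑ n ∈ range (4 ^ J), (H J n : ℂ) * (E z (pt J (n + 1)) - E z (pt J n))

/-- 1 if the walk is alive and 0 otherwise -/
noncomputable def eps (J n : ℕ) : ℂ := if H J n = 0 then 0 else 1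

lemma norm_eps_le (J n : ℕ) : ‖eps J n‖ ≤ 1 := by
  unfold eps; split_ifs <;> simp

lemma fJ_zero (z : ℂ) : fJ 0 z = 1 := by
  simp [fJ, H_zero, pt, E_one]

lemma pt_four (J m : ℕ) : pt (J + 1) (4 * m) = pt J m := by
  unfold pt; rw [pow_succ]; push_cast; field_simp

/-- General refinement identity for telescoping sums against any function. -/
lemma refine_sum (g : ℝ → ℂ) (J : ℕ) :
    ∑ n ∈ range (4 ^ (J + 1)), (H (J + 1) n : ℂ) * (g (pt (J + 1) (n + 1)) - g (pt (J + 1) n))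
    - ∑ n ∈ range (4 ^ J), (H J n : ℂ) * (g (pt J (n + 1)) - g (pt J n))
    = - ∑ m ∈ range (4 ^ J), eps J m * (g (pt (J + 1) (4 * m + 2) - 1 / 4 ^ (J + 1))
      - 2 * g (pt (J + 1) (4 * m + 2)) + g (pt (J + 1) (4 * m + 2) + 1 / 4 ^ (J + 1))) := by
  rw [show 4 ^ (J + 1) = 4 * 4 ^ J by ring, sum_four, ← sum_sub_distrib, ← sum_neg_distrib]
  apply sum_congr rfl
  intro m _
  have h0 := H_child J m 0 (by norm_num)
  have h1 := H_child J m 1 (by norm_num)
  have h2 := H_child J m 2 (by norm_num)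
  have h3 := H_child J m 3 (by norm_num)
  rw [add_zero] at h0
  rw [h0, h1, h2, h3, ch_zero', ch_one, ch_two, ch_three]
  have e1 : pt (J + 1) (4 * m + 2) - 1 / 4 ^ (J + 1) = pt (J + 1) (4 * m + 1) := by
    unfold pt; push_cast; ring
  have e2 : pt (J + 1) (4 * m + 2) + 1 / 4 ^ (J + 1) = pt (J + 1) (4 * m + 3) := by
    unfold pt; push_cast; ring
  have e3 : pt (J + 1) (4 * m + 3 + 1) = pt J (m + 1) := by
    rw [← pt_four J (m + 1)]; congr 1
  have e4 : pt (J + 1) (4 * m) = pt J m := pt_four J m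
  rw [e1, e2, e3, e4]
  unfold eps
  rcases hH : H J m with _ | c
  · simp
  · simp only [Nat.add_eq_zero_iff, one_ne_zero, and_false, if_false, Nat.add_sub_cancel]
    push_cast
    ring

lemma pt_nonneg (J n : ℕ) : 0 ≤ pt J n := by unfold pt; positivity

/-- consecutive approximations are close -/
lemma fJ_step {z : ℂ} (hz : ‖z‖ < 1) (J : ℕ) :
    ‖fJ (J + 1) z - fJ J z‖ ≤ (4 * π / (1 - ‖z‖) ^ 2) * (1 / 4) ^ J := by
  have h1 := refine_sum (fun x => E z x) J
  unfold fJ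
  rw [h1, norm_neg]
  have hd : 0 < 1 - ‖z‖ := by linarith
  refine (norm_sum_le _ _).trans ?_
  have hbound : ∀ m ∈ range (4 ^ J), ‖eps J m * ((fun x => E z x) (pt (J + 1) (4 * m + 2) - 1 / 4 ^ (J + 1))
      - 2 * (fun x => E z x) (pt (J + 1) (4 * m + 2))
      + (fun x => E z x) (pt (J + 1) (4 * m + 2) + 1 / 4 ^ (J + 1)))‖
      ≤ 2 * (4 * π / (1 - ‖z‖) ^ 2) * (1 / 4 ^ (J + 1)) ^ 2 := by
    intro m _
    rw [norm_mul]
    have h2 := second_diff (g := fun x => E z x) (g' := fun x => K z x)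
      (g'' := fun x => -(4 * π * I * z * ze x) / (ze x - z) ^ 2) (pt (J + 1) (4 * m + 2))
      (1 / 4 ^ (J + 1)) (4 * π / (1 - ‖z‖) ^ 2) (by positivity) (hasDerivAt_E_x hz)
      (hasDerivAt_K hz) (by
        intro y _
        rw [norm_div, norm_neg, norm_pow]
        simp only [norm_mul, Complex.norm_I, norm_ze, mul_one, Complex.norm_real,
          Complex.norm_ofNat, Real.norm_eq_abs, abs_of_pos Real.pi_pos]
        have h3 := dist_lower (z := z) y
        have h4 : 4 * π * ‖z‖ ≤ 4 * π := by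
          have := Real.pi_pos
          nlinarith [norm_nonneg z]
        gcongr)
    calc _ ≤ 1 * (2 * (4 * π / (1 - ‖z‖) ^ 2) * (1 / 4 ^ (J + 1)) ^ 2) := by
          apply mul_le_mul (norm_eps_le J m) h2 (norm_nonneg _) zero_le_one
      _ = _ := one_mul _
  refine (sum_le_sum hbound).trans ?_
  rw [sum_const, card_range, nsmul_eq_mul]
  have h4 : ((4 ^ J : ℕ) : ℝ) * (2 * (4 * π / (1 - ‖z‖) ^ 2) * (1 / 4 ^ (J + 1)) ^ 2)
     = (1 / 8) * ((4 * π / (1 - ‖z‖) ^ 2) * (1 / 4) ^ J) := by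
    have e5 : (1 / 4 : ℝ) ^ J * 4 ^ J = 1 := by rw [← mul_pow]; norm_num
    have e6 : (1 / (4:ℝ) ^ (J + 1)) = (1 / 4) * (1 / 4) ^ J := by
      rw [← one_div_pow, pow_succ]; ring
    push_cast
    rw [e6]
    have e7 : (4:ℝ) ^ J * (2 * (4 * π / (1 - ‖z‖) ^ 2) * (1 / 4 * (1 / 4) ^ J) ^ 2)
      = (1 / 8) * (4 * π / (1 - ‖z‖) ^ 2) * ((1 / 4) ^ J * 4 ^ J) * (1 / 4) ^ J := by ring
    rw [e7, e5]
    ring
  rw [h4]
  have : 0 ≤ (4 * π / (1 - ‖z‖) ^ 2) * (1 / 4 : ℝ) ^ J := by positivity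
  linarith

/-- the limit function -/
noncomputable def F (z : ℂ) : ℂ := 1 + ∑' J : ℕ, (fJ (J + 1) z - fJ J z)

lemma fJ_eq_sum (z : ℂ) (N : ℕ) : fJ N z = 1 + ∑ J ∈ range N, (fJ (J + 1) z - fJ J z) := by
  have := Finset.sum_range_sub (fun J => fJ J z) N
  rw [this, fJ_zero]; ring

lemma tendsto_unif {ρ : ℝ} (hρ : ρ < 1) :
    TendstoUniformlyOn (fun N z => fJ N z) F Filter.atTop (Metric.closedBall 0 ρ) := by
  rcases lt_or_ge ρ 0 with hneg | hρ0
  · rw [Metric.closedBall_eq_empty.mpr hneg]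
    exact tendstoUniformlyOn_empty
  have hu : Summable fun J : ℕ => (4 * π / (1 - ρ) ^ 2) * (1 / 4 : ℝ) ^ J :=
    (summable_geometric_of_lt_one (by norm_num) (by norm_num)).mul_left _
  have h := tendstoUniformlyOn_tsum_nat (f := fun J z => fJ (J + 1) z - fJ J z)
    (s := Metric.closedBall (0:ℂ) ρ) hu (by
      intro J z hz
      rw [mem_closedBall_zero_iff] at hz
      refine (fJ_step (by linarith) J).trans ?_
      have : 0 < 1 - ρ := by linarith
      have hpi := Real.pi_pos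
      gcongr)
  rw [Metric.tendstoUniformlyOn_iff] at h ⊢
  intro ε hε
  filter_upwards [h ε hε] with N hN z hz
  rw [fJ_eq_sum z N, F, dist_add_left]
  exact hN z hz

lemma tendsto_loc : TendstoLocallyUniformlyOn (fun N z => fJ N z) F Filter.atTop
    (Metric.ball 0 1) := by
  rw [tendstoLocallyUniformlyOn_iff_forall_isCompact Metric.isOpen_ball]
  intro k hk hkc
  rcases k.eq_empty_or_nonempty with he | hne
  · rw [he]; exact tendstoUniformlyOn_empty
  · obtain ⟨z0, hz0, hmax⟩ := hkc.exists_isMaxOn hne continuous_norm.continuousOn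
    have h1 : ‖z0‖ < 1 := by simpa using hk hz0
    apply (tendsto_unif h1).mono
    intro z hz
    rw [mem_closedBall_zero_iff]
    exact hmax hz

lemma hasDerivAt_fJ (J : ℕ) {z : ℂ} (hz : ‖z‖ < 1) : HasDerivAt (fJ J)
    (∑ n ∈ range (4 ^ J), (H J n : ℂ) * (-(1 / (π * I)) / (ze (pt J (n + 1)) - z)
      - (-(1 / (π * I)) / (ze (pt J n) - z)))) z := by
  unfold fJ
  apply HasDerivAt.fun_sum
  intro n _
  exact ((hasDerivAt_E_z hz _).sub (hasDerivAt_E_z hz _)).const_mul _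

lemma fJ_diff (J : ℕ) : DifferentiableOn ℂ (fJ J) (Metric.ball 0 1) := by
  intro z hz
  exact (hasDerivAt_fJ J (by simpa using hz)).differentiableAt.differentiableWithinAt

lemma F_diff : DifferentiableOn ℂ F (Metric.ball 0 1) :=
  tendsto_loc.differentiableOn (Filter.Eventually.of_forall fJ_diff) Metric.isOpen_ball

/-- second derivative of the approximations -/
lemma deriv2_fJ (J : ℕ) {z : ℂ} (hz : ‖z‖ < 1) : deriv (deriv (fJ J)) z =
    ∑ n ∈ range (4 ^ J), (H J n : ℂ) *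
      ((fun x => -(1 / (π * I)) / (ze x - z) ^ 2) (pt J (n + 1))
      - (fun x => -(1 / (π * I)) / (ze x - z) ^ 2) (pt J n)) := by
  have h1 : deriv (fJ J) =ᶠ[nhds z] fun w => ∑ n ∈ range (4 ^ J), (H J n : ℂ) *
      (-(1 / (π * I)) / (ze (pt J (n + 1)) - w) - (-(1 / (π * I)) / (ze (pt J n) - w))) := by
    filter_upwards [Metric.isOpen_ball.mem_nhds (show z ∈ Metric.ball (0:ℂ) 1 by simpa using hz)]
      with w hw
    exact (hasDerivAt_fJ J (by simpa using hw)).deriv
  rw [h1.deriv_eq]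
  apply HasDerivAt.deriv
  apply HasDerivAt.fun_sum
  intro n _
  have hd : ∀ x : ℝ, HasDerivAt (fun w : ℂ => -(1 / (π * I)) / (ze x - w))
      (-(1 / (π * I)) / (ze x - z) ^ 2) z := by
    intro x
    have hne := ze_sub_ne hz x
    have h2 := ((hasDerivAt_id' z).const_sub (ze x)).inv hne
    have h3 := h2.const_mul (-(1 / (π * I)) : ℂ)
    have e : (fun w : ℂ => -(1 / (π * I)) / (ze x - w)) =
        fun w => -(1 / (π * I)) * (fun w => ze x - w)⁻¹ w := by
      funext w; rw [div_eq_mul_inv]; rfl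
    rw [e]
    refine h3.congr_deriv ?_
    simp only [neg_neg, mul_one_div]
  exact ((hd _).sub (hd _)).const_mul _

lemma tendsto_deriv2 {z : ℂ} (hz : ‖z‖ < 1) :
    Filter.Tendsto (fun J => deriv (deriv (fJ J)) z) Filter.atTop (nhds (deriv (deriv F) z)) := by
  have h1 := tendsto_loc.deriv (Filter.Eventually.of_forall fJ_diff) Metric.isOpen_ball
  have h2 := h1.deriv (Filter.Eventually.of_forall fun J =>
    (fJ_diff J).deriv Metric.isOpen_ball) Metric.isOpen_ball
  exact h2.tendsto_at (by simpa using hz)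

end H7Bpr
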