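import Mathlib
import Pool.Agent.H7BprWalk
import Pool.Agent.H7BprKernel
import Pool.Agent.H7BprApprox

/-! The limit function is a Bloch function. -/

namespace H7Bpr

open Complex Real Finset

lemma hasDerivAt_E_re {z : ℂ} (hz : ‖z‖ < 1) (x : ℝ) :
    HasDerivAt (fun y : ℝ => (E z y).re) (K z x).re x := by
  have h := hasDerivAt_E_x hz x
  have h2 := (Complex.reCLM.hasFDerivAt.comp_hasDerivAt x h)
  exact h2

lemma E_re_lower {z : ℂ} (hz : ‖z‖ < 1) {a b κ : ℝ} (hab : a ≤ b)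
    (h : ∀ y ∈ Set.Icc a b, κ ≤ (K z y).re) : κ * (b - a) ≤ (E z b).re - (E z a).re := by
  apply Convex.mul_sub_le_image_sub_of_le_deriv (D := Set.Icc a b) (f := fun y => (E z y).re)
    (convex_Icc a b)
  · intro y _
    exact (hasDerivAt_E_re hz y).continuousAt.continuousWithinAt
  · intro y _
    exact (hasDerivAt_E_re hz y).differentiableAt.differentiableWithinAt
  · intro y hy
    rw [(hasDerivAt_E_re hz y).deriv]
    exact h y (interior_subset hy)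
  · exact ⟨le_refl _, hab⟩
  · exact ⟨hab, le_refl _⟩
  · exact hab

lemma pt_succ_sub (J n : ℕ) : pt J (n + 1) - pt J n = 1 / 4 ^ J := by
  unfold pt; push_cast; ring

lemma pt_full (J : ℕ) : pt J (4 ^ J) = 1 := by
  unfold pt; push_cast; field_simp

lemma pt_zero (J : ℕ) : pt J 0 = 0 := by simp [pt]

lemma K_re_nonneg {z : ℂ} (hz : ‖z‖ < 1) (x : ℝ) : 0 ≤ (K z x).re := by
  rw [K_re]
  apply div_nonneg _ (by positivity)
  nlinarith [norm_nonneg z]

/-- Sum of the Poisson kernel over equally spaced points. -/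
lemma sum_bound {z : ℂ} (hz : ‖z‖ < 1) (J : ℕ) (hJ : (1:ℝ) / 4 ^ J ≤ 1 - ‖z‖) :
    ∑ n ∈ range (4 ^ J), 1 / ‖ze (pt J n) - z‖ ^ 2 ≤ (1 + 2 * π) ^ 2 * 4 ^ J / (1 - ‖z‖) := by
  have hz0 := norm_nonneg z
  have hd : 0 < 1 - ‖z‖ := by linarith
  have hpi := Real.pi_pos
  have hterm : ∀ n ∈ range (4 ^ J), (1 - ‖z‖) / (1 + 2 * π) ^ 2 * (1 / 4 ^ J) *
      (1 / ‖ze (pt J n) - z‖ ^ 2) ≤ (E z (pt J (n + 1))).re - (E z (pt J n)).re := by
    intro n _
    have h1 := E_re_lower hz (a := pt J n) (b := pt J (n + 1))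
      (κ := (1 - ‖z‖) / (1 + 2 * π) ^ 2 * (1 / ‖ze (pt J n) - z‖ ^ 2))
      (by have := pt_succ_sub J n; have h4 : (0:ℝ) < 1 / 4 ^ J := by positivity
          linarith) (by
        intro y hy
        rw [K_re]
        have h2 : |y - pt J n| ≤ 1 - ‖z‖ := by
          rw [abs_of_nonneg (by linarith [hy.1])]
          have := pt_succ_sub J n
          linarith [hy.2]
        have h3 := harnack (z := z) y (pt J n) h2
        have h4 : 0 < ‖ze y - z‖ := lt_of_lt_of_le hd (dist_lower y)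
        have h5 : 0 < ‖ze (pt J n) - z‖ := lt_of_lt_of_le hd (dist_lower _)
        have h6 : 1 - ‖z‖ ≤ 1 - ‖z‖ ^ 2 := by nlinarith
        have h7 : ‖ze y - z‖ ^ 2 ≤ (1 + 2 * π) ^ 2 * ‖ze (pt J n) - z‖ ^ 2 := by
          rw [← mul_pow]; exact pow_le_pow_left₀ h4.le h3 2
        rw [div_mul_div_comm, mul_one, div_le_div_iff₀ (by positivity) (by positivity)]
        nlinarith [mul_le_mul h6 h7 (by positivity) (by linarith)])
    rw [pt_succ_sub] at h1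
    linarith
  have hsum := sum_le_sum hterm
  rw [← mul_sum] at hsum
  have htel : ∑ n ∈ range (4 ^ J), ((E z (pt J (n + 1))).re - (E z (pt J n)).re) = 1 := by
    have := Finset.sum_range_sub (fun n => (E z (pt J n)).re) (4 ^ J)
    rw [this, pt_full, pt_zero, E_one]
    simp
  rw [htel] at hsum
  rw [le_div_iff₀ hd]
  have h8 : (1 - ‖z‖) / (1 + 2 * π) ^ 2 * (1 / 4 ^ J) *
      (∑ n ∈ range (4 ^ J), 1 / ‖ze (pt J n) - z‖ ^ 2) * ((1 + 2 * π) ^ 2 * 4 ^ J)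
      = (∑ n ∈ range (4 ^ J), 1 / ‖ze (pt J n) - z‖ ^ 2) * (1 - ‖z‖) := by
    field_simp
  rw [← h8]
  have h9 := mul_le_mul_of_nonneg_right hsum (show 0 ≤ (1 + 2 * π) ^ 2 * (4:ℝ) ^ J by positivity)
  linarith

/-- summation by parts -/
lemma by_parts (a e : ℕ → ℂ) (N : ℕ) : ∑ n ∈ range (N + 1), a n * (e (n + 1) - e n) =
    a N * e (N + 1) - a 0 * e 0 - ∑ n ∈ range N, (a (n + 1) - a n) * e (n + 1) := by
  induction N with
  | zero => simp; ring
  | succ N ih =>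
    rw [sum_range_succ, ih, sum_range_succ]
    ring

/-- coarse estimate of the second derivative -/
lemma coarse {z : ℂ} (hz : ‖z‖ < 1) (J : ℕ) (hJ : (1:ℝ) / 4 ^ J ≤ 1 - ‖z‖) :
    ‖deriv (deriv (fJ J)) z‖ ≤ 2 * (1 + 2 * π) ^ 2 * 4 ^ J / (1 - ‖z‖) := by
  rw [deriv2_fJ J hz]
  obtain ⟨N, hN⟩ : ∃ N, 4 ^ J = N + 1 :=
    ⟨4 ^ J - 1, by have : 0 < 4 ^ J := by positivity
                   omega⟩
  have hHN : H J N = 1 := by
    have := H_last J
    rwa [hN, Nat.add_sub_cancel] at this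
  set e : ℕ → ℂ := fun n => -(1 / (π * I)) / (ze (pt J n) - z) ^ 2 with he
  have h1 := by_parts (fun n => (H J n : ℂ)) e N
  have hN1 : pt J (N + 1) = 1 := by rw [← hN]; exact pt_full J
  have he1 : e (N + 1) = e 0 := by
    simp only [he]
    rw [hN1, pt_zero, ze_one, ze_zero]
  rw [hHN, H_first, he1] at h1
  simp only [sub_self, zero_sub] at h1
  have hnorm : ∀ n, ‖e n‖ ≤ 1 / ‖ze (pt J n) - z‖ ^ 2 := by
    intro n
    simp only [he]
    rw [norm_div, norm_neg, norm_pow, norm_div, norm_mul, Complex.norm_I, Complex.norm_real,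
      Real.norm_eq_abs, abs_of_pos Real.pi_pos, norm_one, mul_one]
    have h5 : 0 < ‖ze (pt J n) - z‖ := lt_of_lt_of_le (by linarith) (dist_lower _)
    have : 1 / π ≤ 1 := by
      rw [div_le_one Real.pi_pos]; linarith [Real.pi_gt_three]
    gcongr
  have h2 : ‖∑ n ∈ range (N + 1), (H J n : ℂ) * (e (n + 1) - e n)‖
      ≤ ∑ n ∈ range (N + 1), 2 * (1 / ‖ze (pt J n) - z‖ ^ 2) := by
    rw [h1, norm_neg]
    refine (norm_sum_le _ _).trans ?_
    rw [sum_range_succ' (fun n => 2 * (1 / ‖ze (pt J n) - z‖ ^ 2))]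
    have h3 : ∑ n ∈ range N, ‖((H J (n + 1) : ℂ) - H J n) * e (n + 1)‖ ≤
        ∑ n ∈ range N, 2 * (1 / ‖ze (pt J (n + 1)) - z‖ ^ 2) := by
      apply sum_le_sum
      intro n _
      rw [norm_mul]
      have hj := H_jump J n
      have : ‖(H J (n + 1) : ℂ) - H J n‖ ≤ 2 := by
        have e1 : (H J (n + 1) : ℂ) - H J n = (((H J (n + 1) : ℤ) - H J n : ℤ) : ℂ) := by
          push_cast; ring
        rw [e1, Complex.norm_intCast]
        exact_mod_cast hj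
      exact mul_le_mul this (hnorm _) (norm_nonneg _) (by norm_num)
    have h4 : 0 ≤ 2 * (1 / ‖ze (pt J 0) - z‖ ^ 2) := by positivity
    linarith
  rw [← mul_sum] at h2
  have h6 := sum_bound hz J hJ
  rw [hN] at h6
  calc _ = ‖∑ n ∈ range (N + 1), (H J n : ℂ) * (e (n + 1) - e n)‖ := by rw [← hN]
    _ ≤ _ := h2
    _ ≤ 2 * ((1 + 2 * π) ^ 2 * 4 ^ J / (1 - ‖z‖)) := by linarith
    _ = _ := by ring

lemma hasDerivAt_R {z : ℂ} (hz : ‖z‖ < 1) (x : ℝ) :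
    HasDerivAt (fun y : ℝ => -(1 / (π * I)) / (ze y - z) ^ 2) (4 * ze x / (ze x - z) ^ 3) x := by
  have hne2 := ze_sub_ne hz x
  have hpi : (π : ℂ) ≠ 0 := by exact_mod_cast Real.pi_ne_zero
  have h := ((hasDerivAt_ze x).sub_const z)
  have h1 := ((h.pow 2).inv (pow_ne_zero 2 hne2)).const_mul (-(1 / (π * I)) : ℂ)
  have e : (fun y : ℝ => -(1 / (π * I)) / (ze y - z) ^ 2) =
      fun y => -(1 / (π * I)) * ((fun x => ze x - z) ^ 2)⁻¹ y := by
    funext y; rw [div_eq_mul_inv]; rfl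
  rw [e]
  refine h1.congr_deriv ?_
  simp only [Pi.pow_apply]
  field_simp
  ring

lemma hasDerivAt_R' {z : ℂ} (hz : ‖z‖ < 1) (x : ℝ) :
    HasDerivAt (fun y : ℝ => 4 * ze y / (ze y - z) ^ 3)
      (-(8 * π * I * ze x * (2 * ze x + z)) / (ze x - z) ^ 4) x := by
  have hne2 := ze_sub_ne hz x
  have h := ((hasDerivAt_ze x).sub_const z)
  have h1 := ((hasDerivAt_ze x).const_mul 4).div (h.pow 3) (pow_ne_zero 3 hne2)
  refine HasDerivAt.congr_deriv (f := fun y : ℝ => 4 * ze y / (ze y - z) ^ 3) h1 ?_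
  simp only [Pi.pow_apply]
  field_simp
  ring

/-- fine estimate of the second derivative -/
lemma fine {z : ℂ} (hz : ‖z‖ < 1) (J : ℕ) (hJ : (1:ℝ) / 4 ^ J ≤ 1 - ‖z‖) :
    ‖deriv (deriv (fJ (J + 1))) z - deriv (deriv (fJ J)) z‖ ≤
      3 * π * (1 + 2 * π) ^ 6 * (1 / 4) ^ J / (1 - ‖z‖) ^ 3 := by
  have hz0 := norm_nonneg z
  have hd : 0 < 1 - ‖z‖ := by linarith
  have hpi := Real.pi_pos
  have hr := refine_sum (fun x => -(1 / (π * I)) / (ze x - z) ^ 2) J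
  beta_reduce at hr
  rw [deriv2_fJ _ hz, deriv2_fJ _ hz]
  beta_reduce
  rw [hr, norm_neg]
  refine (norm_sum_le _ _).trans ?_
  have hbound : ∀ m ∈ range (4 ^ J), ‖eps J m *
      ((fun x => -(1 / (π * I)) / (ze x - z) ^ 2) (pt (J + 1) (4 * m + 2) - 1 / 4 ^ (J + 1))
      - 2 * (fun x => -(1 / (π * I)) / (ze x - z) ^ 2) (pt (J + 1) (4 * m + 2))
      + (fun x => -(1 / (π * I)) / (ze x - z) ^ 2) (pt (J + 1) (4 * m + 2) + 1 / 4 ^ (J + 1)))‖
      ≤ (2 * (24 * π * (1 + 2 * π) ^ 4 / (1 - ‖z‖) ^ 2) * (1 / 4 ^ (J + 1)) ^ 2) *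
        (1 / ‖ze (pt J m) - z‖ ^ 2) := by
    intro m _
    rw [norm_mul]
    have h5 : 0 < ‖ze (pt J m) - z‖ := lt_of_lt_of_le hd (dist_lower _)
    have h2 := second_diff (g := fun x => -(1 / (π * I)) / (ze x - z) ^ 2)
      (g' := fun x => 4 * ze x / (ze x - z) ^ 3)
      (g'' := fun x => -(8 * π * I * ze x * (2 * ze x + z)) / (ze x - z) ^ 4)
      (pt (J + 1) (4 * m + 2))
      (1 / 4 ^ (J + 1)) (24 * π * (1 + 2 * π) ^ 4 / (1 - ‖z‖) ^ 2 * (1 / ‖ze (pt J m) - z‖ ^ 2))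
      (by positivity) (hasDerivAt_R hz)
      (hasDerivAt_R' hz) (by
        intro y hy
        rw [norm_div, norm_neg, norm_pow]
        simp only [norm_mul, Complex.norm_I, norm_ze, mul_one, Complex.norm_real,
          Complex.norm_ofNat, Real.norm_eq_abs, abs_of_pos Real.pi_pos]
        have h3 : ‖2 * ze y + z‖ ≤ 3 := by
          have := norm_add_le (2 * ze y) z
          rw [norm_mul, norm_ze, Complex.norm_ofNat] at this
          linarith
        have h4 : |pt J m - y| ≤ 1 - ‖z‖ := by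
          refine le_trans ?_ hJ
          have e1 : pt (J + 1) (4 * m + 2) = pt J m + 2 / 4 ^ (J + 1) := by
            unfold pt; push_cast; rw [pow_succ]; field_simp
          have e2 : (1:ℝ) / 4 ^ J = 4 * (1 / 4 ^ (J + 1)) := by rw [pow_succ]; field_simp
          rw [e1] at hy
          have e3 : (2:ℝ) / 4 ^ (J + 1) = 2 * (1 / 4 ^ (J + 1)) := by ring
          rw [e3] at hy
          rw [e2]
          have hq : (0:ℝ) < 1 / 4 ^ (J + 1) := by positivity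
          rw [abs_le]
          constructor
          · linarith [hy.2]
          · linarith [hy.1]
        have h6 := harnack (z := z) (pt J m) y h4
        have h7 : 0 < ‖ze y - z‖ := lt_of_lt_of_le hd (dist_lower y)
        have h8 : ‖ze (pt J m) - z‖ ^ 4 ≤ (1 + 2 * π) ^ 4 * ‖ze y - z‖ ^ 4 := by
          rw [← mul_pow]; exact pow_le_pow_left₀ h5.le h6 4
        have h9 : (1 - ‖z‖) ^ 2 * ‖ze (pt J m) - z‖ ^ 2 ≤ ‖ze (pt J m) - z‖ ^ 4 := by
          have : (1 - ‖z‖) ^ 2 ≤ ‖ze (pt J m) - z‖ ^ 2 :=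
            pow_le_pow_left₀ hd.le (dist_lower _) 2
          nlinarith [sq_nonneg ‖ze (pt J m) - z‖]
        rw [div_mul_div_comm, mul_one, div_le_div_iff₀ (by positivity) (by positivity)]
        calc 8 * π * ‖2 * ze y + z‖ * ((1 - ‖z‖) ^ 2 * ‖ze (pt J m) - z‖ ^ 2)
            ≤ 8 * π * 3 * ((1 + 2 * π) ^ 4 * ‖ze y - z‖ ^ 4) := by
              apply mul_le_mul _ (h9.trans h8) (by positivity) (by positivity)
              apply mul_le_mul_of_nonneg_left h3 (by positivity)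
          _ = _ := by ring)
    calc _ ≤ 1 * (2 * (24 * π * (1 + 2 * π) ^ 4 / (1 - ‖z‖) ^ 2 *
        (1 / ‖ze (pt J m) - z‖ ^ 2)) * (1 / 4 ^ (J + 1)) ^ 2) := by
          apply mul_le_mul (norm_eps_le J m) h2 (norm_nonneg _) zero_le_one
      _ = _ := by ring
  refine (sum_le_sum hbound).trans ?_
  rw [← mul_sum]
  have h6 := sum_bound hz J hJ
  refine (mul_le_mul_of_nonneg_left h6 (by positivity)).trans (le_of_eq ?_)
  have e5 : (1 / 4 : ℝ) ^ J * 4 ^ J = 1 := by rw [← mul_pow]; norm_num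
  have e6 : (1 / (4:ℝ) ^ (J + 1)) = (1 / 4) * (1 / 4) ^ J := by
    rw [← one_div_pow, pow_succ]; ring
  rw [e6]
  have e7 : 2 * (24 * π * (1 + 2 * π) ^ 4 / (1 - ‖z‖) ^ 2) * (1 / 4 * (1 / 4) ^ J) ^ 2 *
      ((1 + 2 * π) ^ 2 * 4 ^ J / (1 - ‖z‖))
      = 3 * π * (1 + 2 * π) ^ 6 * (1 / 4) ^ J * ((1 / 4) ^ J * 4 ^ J) / (1 - ‖z‖) ^ 3 := by
    field_simp
    ring
  rw [e7, e5, mul_one]

/-- The second derivative of the limit function. -/
lemma second_deriv_bound {z : ℂ} (hz : ‖z‖ < 1) :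
    ‖deriv (deriv F) z‖ ≤ (8 * (1 + 2 * π) ^ 2 + 4 * π * (1 + 2 * π) ^ 6) / (1 - ‖z‖) ^ 2 := by
  have hz0 := norm_nonneg z
  have hd : 0 < 1 - ‖z‖ := by linarith
  have hpi := Real.pi_pos
  have hex : ∃ J : ℕ, (1:ℝ) / 4 ^ J ≤ 1 - ‖z‖ := by
    obtain ⟨n, hn⟩ := exists_pow_lt_of_lt_one hd (show (1/4 : ℝ) < 1 by norm_num)
    exact ⟨n, by rw [one_div_pow] at hn; exact hn.le⟩
  obtain ⟨J0, hJ0, hup⟩ : ∃ J0 : ℕ, (1:ℝ) / 4 ^ J0 ≤ 1 - ‖z‖ ∧ (4:ℝ) ^ J0 ≤ 4 / (1 - ‖z‖) := by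
    classical
    refine ⟨Nat.find hex, Nat.find_spec hex, ?_⟩
    rcases h : Nat.find hex with _ | k
    · rw [pow_zero, le_div_iff₀ hd]; linarith
    · have hk := Nat.find_min hex (m := k) (by omega)
      rw [not_le] at hk
      rw [pow_succ, le_div_iff₀ hd]
      rw [lt_div_iff₀ (by positivity)] at hk
      nlinarith
  have hind : ∀ k : ℕ, ‖deriv (deriv (fJ (J0 + k))) z - deriv (deriv (fJ J0)) z‖ ≤
      4 * π * (1 + 2 * π) ^ 6 * (1 / 4) ^ J0 * (1 - (1 / 4) ^ k) / (1 - ‖z‖) ^ 3 := by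
    intro k
    induction k with
    | zero => simp
    | succ k ih =>
      have hk : (1:ℝ) / 4 ^ (J0 + k) ≤ 1 - ‖z‖ := by
        refine le_trans ?_ hJ0
        apply one_div_le_one_div_of_le (by positivity)
        exact pow_le_pow_right₀ (by norm_num) (by omega)
      have h1 := fine hz (J0 + k) hk
      have h2 : ‖deriv (deriv (fJ (J0 + (k + 1)))) z - deriv (deriv (fJ J0)) z‖ ≤
          ‖deriv (deriv (fJ (J0 + k + 1))) z - deriv (deriv (fJ (J0 + k))) z‖ +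
          ‖deriv (deriv (fJ (J0 + k))) z - deriv (deriv (fJ J0)) z‖ := by
        have := norm_add_le (deriv (deriv (fJ (J0 + k + 1))) z - deriv (deriv (fJ (J0 + k))) z)
          (deriv (deriv (fJ (J0 + k))) z - deriv (deriv (fJ J0)) z)
        rwa [sub_add_sub_cancel] at this
      refine h2.trans ((add_le_add h1 ih).trans (le_of_eq ?_))
      rw [pow_add, pow_succ]
      ring
  have hall : ∀ k : ℕ, ‖deriv (deriv (fJ (J0 + k))) z‖ ≤
      (8 * (1 + 2 * π) ^ 2 + 4 * π * (1 + 2 * π) ^ 6) / (1 - ‖z‖) ^ 2 := by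
    intro k
    have h1 := coarse hz J0 hJ0
    have h2 := hind k
    have h3 : ‖deriv (deriv (fJ (J0 + k))) z‖ ≤
        ‖deriv (deriv (fJ (J0 + k))) z - deriv (deriv (fJ J0)) z‖ + ‖deriv (deriv (fJ J0)) z‖ := by
      have := norm_add_le (deriv (deriv (fJ (J0 + k))) z - deriv (deriv (fJ J0)) z)
        (deriv (deriv (fJ J0)) z)
      rwa [sub_add_cancel] at this
    have h4 : 2 * (1 + 2 * π) ^ 2 * 4 ^ J0 / (1 - ‖z‖) ≤ 8 * (1 + 2 * π) ^ 2 / (1 - ‖z‖) ^ 2 := by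
      rw [div_le_div_iff₀ hd (by positivity)]
      rw [le_div_iff₀ hd] at hup
      have : 0 ≤ 2 * (1 + 2 * π) ^ 2 * (1 - ‖z‖) := by positivity
      nlinarith [mul_le_mul_of_nonneg_left hup this]
    have h5 : 4 * π * (1 + 2 * π) ^ 6 * (1 / 4) ^ J0 * (1 - (1 / 4) ^ k) / (1 - ‖z‖) ^ 3 ≤
        4 * π * (1 + 2 * π) ^ 6 / (1 - ‖z‖) ^ 2 := by
      have h6 : (1 / 4 : ℝ) ^ J0 ≤ 1 - ‖z‖ := by rw [one_div_pow]; exact hJ0
      have h7 : (1 / 4 : ℝ) ^ J0 * (1 - (1 / 4) ^ k) ≤ 1 - ‖z‖ := by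
        have : (1 / 4 : ℝ) ^ J0 * (1 - (1 / 4) ^ k) ≤ (1 / 4 : ℝ) ^ J0 * 1 := by
          apply mul_le_mul_of_nonneg_left _ (by positivity)
          have : (0:ℝ) ≤ (1 / 4) ^ k := by positivity
          linarith
        linarith
      rw [div_le_div_iff₀ (by positivity) (by positivity)]
      have h8 : 0 ≤ 4 * π * (1 + 2 * π) ^ 6 * (1 - ‖z‖) ^ 2 := by positivity
      nlinarith [mul_le_mul_of_nonneg_left h7 h8]
    rw [add_div]
    linarith
  have hlim : Filter.Tendsto (fun k : ℕ => ‖deriv (deriv (fJ (J0 + k))) z‖) Filter.atTop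
      (nhds ‖deriv (deriv F) z‖) := by
    have h1 := (tendsto_deriv2 hz).norm
    have h2 := h1.comp (Filter.tendsto_add_atTop_nat J0)
    refine h2.congr fun k => ?_
    simp only [Function.comp]
    rw [add_comm]
  exact le_of_tendsto' hlim hall

/-- The limit function is a Bloch function. -/
lemma F_bloch : ∃ B : ℝ, ∀ z ∈ Metric.ball (0:ℂ) 1, (1 - ‖z‖ ^ 2) * ‖deriv F z‖ ≤ B := by
  set C := 8 * (1 + 2 * π) ^ 2 + 4 * π * (1 + 2 * π) ^ 6 with hC
  have hpi := Real.pi_pos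
  have hC0 : 0 < C := by positivity
  refine ⟨‖deriv F 0‖ + 2 * C, ?_⟩
  intro z hz
  have hz1 : ‖z‖ < 1 := by simpa using hz
  have hz0 := norm_nonneg z
  have hd : 0 < 1 - ‖z‖ := by linarith
  have hdF : DifferentiableOn ℂ (deriv F) (Metric.ball 0 1) := F_diff.deriv Metric.isOpen_ball
  have htz : ∀ t ∈ Set.Icc (0:ℝ) 1, ‖(t:ℂ) * z‖ < 1 := by
    intro t ht
    rw [norm_mul, Complex.norm_real, Real.norm_eq_abs, abs_of_nonneg ht.1]
    nlinarith [ht.1, ht.2]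
  have hden : ∀ t ∈ Set.Icc (0:ℝ) 1, 0 < 1 - t * ‖z‖ := by
    intro t ht
    nlinarith [ht.1, ht.2]
  have hder : ∀ t ∈ Set.Icc (0:ℝ) 1, HasDerivAt (fun t : ℝ => deriv F ((t:ℂ) * z))
      (deriv (deriv F) ((t:ℂ) * z) * z) t := by
    intro t ht
    have h1 : HasDerivAt (deriv F) (deriv (deriv F) ((t:ℂ) * z)) ((t:ℂ) * z) :=
      (hdF.differentiableAt (Metric.isOpen_ball.mem_nhds (by simpa using htz t ht))).hasDerivAt
    have h2 : HasDerivAt (fun t : ℝ => (t:ℂ) * z) (1 * z) t := by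
      have := ((hasDerivAt_id' t).ofReal_comp).mul_const z
      simpa using this
    have h3 := h1.comp t h2
    rw [one_mul] at h3
    exact h3
  have hBder : ∀ t ∈ Set.Icc (0:ℝ) 1, HasDerivAt
      (fun t : ℝ => ‖deriv F 0‖ + C * (1 - t * ‖z‖)⁻¹) (C * (‖z‖ / (1 - t * ‖z‖) ^ 2)) t := by
    intro t ht
    have h1 : HasDerivAt (fun t : ℝ => 1 - t * ‖z‖) (-(1 * ‖z‖)) t :=
      ((hasDerivAt_id' t).mul_const ‖z‖).const_sub 1
    have h2 := ((h1.inv (hden t ht).ne').const_mul C).const_add ‖deriv F 0‖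
    refine h2.congr_deriv ?_
    ring
  have h := image_norm_le_of_norm_deriv_right_le_deriv_boundary'
    (f := fun t : ℝ => deriv F ((t:ℂ) * z)) (a := 0) (b := 1)
    (f' := fun t => deriv (deriv F) ((t:ℂ) * z) * z)
    (B := fun t : ℝ => ‖deriv F 0‖ + C * (1 - t * ‖z‖)⁻¹)
    (B' := fun t => C * (‖z‖ / (1 - t * ‖z‖) ^ 2))
    (fun t ht => (hder t ht).continuousAt.continuousWithinAt)
    (fun t ht => (hder t ⟨ht.1, ht.2.le⟩).hasDerivWithinAt)
    (by simp; exact hC0.le)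
    (fun t ht => (hBder t ht).continuousAt.continuousWithinAt)
    (fun t ht => (hBder t ⟨ht.1, ht.2.le⟩).hasDerivWithinAt)
    (by
      intro t ht
      have h1 := second_deriv_bound (htz t ⟨ht.1, ht.2.le⟩)
      rw [norm_mul (t:ℂ) z, Complex.norm_real, Real.norm_eq_abs, abs_of_nonneg ht.1] at h1
      rw [norm_mul]
      have := mul_le_mul_of_nonneg_right h1 hz0
      refine this.trans (le_of_eq ?_)
      rw [hC]
      ring)
    (x := 1) ⟨zero_le_one, le_refl _⟩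
  simp only [ofReal_one, one_mul] at h
  have h1 : 0 ≤ 1 - ‖z‖ ^ 2 := by nlinarith
  have h2 : (1 - ‖z‖ ^ 2) * (1 - ‖z‖)⁻¹ = 1 + ‖z‖ := by
    field_simp
    ring
  calc (1 - ‖z‖ ^ 2) * ‖deriv F z‖ ≤ (1 - ‖z‖ ^ 2) * (‖deriv F 0‖ + C * (1 - ‖z‖)⁻¹) :=
        mul_le_mul_of_nonneg_left h h1
    _ = (1 - ‖z‖ ^ 2) * ‖deriv F 0‖ + C * ((1 - ‖z‖ ^ 2) * (1 - ‖z‖)⁻¹) := by ring
    _ = (1 - ‖z‖ ^ 2) * ‖deriv F 0‖ + C * (1 + ‖z‖) := by rw [h2]
    _ ≤ ‖deriv F 0‖ + 2 * C := by nlinarith [norm_nonneg (deriv F 0), sq_nonneg ‖z‖]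

end H7Bpr
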