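import Mathlib

/-! Definitions for MP_034cab_an. -/

namespace H7Bpr

/-- The class `C` of the problem: Bloch functions on the unit disc with positive real part
and `f 0 = 1`. -/
structure ClassC (f : ℂ → ℂ) : Prop where
  /-- `f` is holomorphic in the open unit disc -/
  holo : DifferentiableOn ℂ f (Metric.ball 0 1)
  /-- `f` is a Bloch function -/
  bloch : ∃ B : ℝ, ∀ z ∈ Metric.ball (0:ℂ) 1, (1 - ‖z‖ ^ 2) * ‖deriv f z‖ ≤ B
  /-- positive real part -/
  pos : ∀ z ∈ Metric.ball (0:ℂ) 1, 0 < (f z).re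
  /-- normalisation -/
  norm : f 0 = 1

/-- The `n`-th Taylor coefficient of `f` at `0`. -/
noncomputable def coef (f : ℂ → ℂ) (n : ℕ) : ℂ := iteratedDeriv n f 0 / (n.factorial : ℂ)

/-- `S_N(f) = sum of |a_n|^2 over 1 ≤ n ≤ N`. -/
noncomputable def S (f : ℂ → ℂ) (N : ℕ) : ℝ := ∑ n ∈ Finset.Icc 1 N, ‖coef f n‖ ^ 2

end H7Bpr
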