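import Mathlib

/-! Parseval-type identities for power series on circles. -/

namespace H7Bpr

open Complex Real MeasureTheory

/-- orthogonality of the exponentials -/
lemma orth (n m : ℕ) :
    ∫ θ in (0:ℝ)..2 * π, (cexp (θ * I)) ^ n * (starRingEnd ℂ) ((cexp (θ * I)) ^ m)
      = if n = m then (2 * π : ℂ) else 0 := by
  have h : ∀ θ : ℝ, (cexp (θ * I)) ^ n * (starRingEnd ℂ) ((cexp (θ * I)) ^ m)
      = cexp ((((n:ℂ) - m) * I) * θ) := by
    intro θ
    rw [map_pow, ← Complex.exp_conj, ← Complex.exp_nat_mul, ← Complex.exp_nat_mul,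
      ← Complex.exp_add]
    congr 1
    simp only [map_mul, Complex.conj_ofReal, Complex.conj_I]
    ring
  simp_rw [h]
  split_ifs with hnm
  · subst hnm
    simp
  · have hc : (((n:ℂ) - m) * I) ≠ 0 := by
      apply mul_ne_zero _ I_ne_zero
      rw [sub_ne_zero]
      exact_mod_cast hnm
    rw [integral_exp_mul_complex hc]
    have h1 : cexp ((((n:ℂ) - m) * I) * ((2 * π : ℝ) : ℂ)) = 1 := by
      rw [Complex.exp_eq_one_iff]
      refine ⟨(n:ℤ) - m, ?_⟩
      push_cast
      ring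
    rw [h1]
    simp

/-- One power series against a monomial. -/
lemma pars_one (B : ℕ → ℂ) (G : ℂ → ℂ) (r : ℝ) (hr : 0 ≤ r)
    (hB : Summable fun n => ‖B n‖ * r ^ n)
    (hG : ∀ z : ℂ, ‖z‖ = r → HasSum (fun n => B n * z ^ n) (G z)) (n : ℕ) :
    ∫ θ in (0:ℝ)..2 * π, (cexp (θ * I)) ^ n * (starRingEnd ℂ) (G (circleMap 0 r θ))
      = 2 * π * ((r:ℂ) ^ n * (starRingEnd ℂ) (B n)) := by
  have hnorm : ∀ θ : ℝ, ‖circleMap 0 r θ‖ = r := by
    intro θ; simp [abs_of_nonneg hr]
  have hs : HasSum (fun m : ℕ => ∫ θ in (0:ℝ)..2 * π,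
      (cexp (θ * I)) ^ n * (starRingEnd ℂ) (B m * (circleMap 0 r θ) ^ m))
      (∫ θ in (0:ℝ)..2 * π, (cexp (θ * I)) ^ n * (starRingEnd ℂ) (G (circleMap 0 r θ))) := by
    apply intervalIntegral.hasSum_integral_of_dominated_convergence
      (bound := fun m _ => ‖B m‖ * r ^ m)
    · intro m
      apply Continuous.aestronglyMeasurable
      fun_prop
    · intro m
      filter_upwards with θ _
      rw [norm_mul, norm_pow, Complex.norm_exp_ofReal_mul_I, one_pow, one_mul,
        RCLike.norm_conj, norm_mul, norm_pow, hnorm]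
    · filter_upwards with θ _
      exact hB
    · exact _root_.intervalIntegrable_const
    · filter_upwards with θ _
      have := (hG _ (hnorm θ))
      have h2 := this.map (starRingEnd ℂ) Complex.continuous_conj
      exact h2.mul_left _
  have hval : ∀ m : ℕ, (∫ θ in (0:ℝ)..2 * π,
      (cexp (θ * I)) ^ n * (starRingEnd ℂ) (B m * (circleMap 0 r θ) ^ m))
      = if m = n then 2 * π * ((r:ℂ) ^ n * (starRingEnd ℂ) (B n)) else 0 := by
    intro m
    have h : ∀ θ : ℝ, (cexp (θ * I)) ^ n * (starRingEnd ℂ) (B m * (circleMap 0 r θ) ^ m)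
       = ((starRingEnd ℂ) (B m) * (r:ℂ) ^ m) *
          ((cexp (θ * I)) ^ n * (starRingEnd ℂ) ((cexp (θ * I)) ^ m)) := by
      intro θ
      rw [circleMap, zero_add, mul_pow]
      simp only [map_mul, map_pow, Complex.conj_ofReal]
      ring
    simp_rw [h]
    rw [intervalIntegral.integral_const_mul, orth]
    by_cases hmn : m = n
    · subst hmn
      simp
      ring
    · simp [hmn, Ne.symm hmn]
  simp_rw [hval] at hs
  exact (hs.unique (hasSum_ite_eq n _))

/-- Parseval for two power series. -/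
lemma pars (A B : ℕ → ℂ) (F G : ℂ → ℂ) (r : ℝ) (hr : 0 ≤ r)
    (hA : Summable fun n => ‖A n‖ * r ^ n)
    (hB : Summable fun n => ‖B n‖ * r ^ n)
    (hF : ∀ z : ℂ, ‖z‖ = r → HasSum (fun n => A n * z ^ n) (F z))
    (hG : ∀ z : ℂ, ‖z‖ = r → HasSum (fun n => B n * z ^ n) (G z))
    (hGc : ContinuousOn G (Metric.sphere 0 r)) :
    HasSum (fun n => A n * (starRingEnd ℂ) (B n) * (r:ℂ) ^ (2 * n))
      (circleAverage (fun z => F z * (starRingEnd ℂ) (G z)) 0 r) := by
  have hnorm : ∀ θ : ℝ, ‖circleMap 0 r θ‖ = r := by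
    intro θ; simp [abs_of_nonneg hr]
  have hGcont : Continuous (fun θ : ℝ => G (circleMap 0 r θ)) := by
    apply hGc.comp_continuous (continuous_circleMap 0 r)
    intro θ
    simp [abs_of_nonneg hr]
  have hGbd : ∀ θ : ℝ, ‖G (circleMap 0 r θ)‖ ≤ ∑' m, ‖B m‖ * r ^ m := by
    intro θ
    have h1 := hG _ (hnorm θ)
    rw [← h1.tsum_eq]
    have h2 : ∀ m, ‖B m * (circleMap 0 r θ) ^ m‖ = ‖B m‖ * r ^ m := by
      intro m; rw [norm_mul, norm_pow, hnorm]
    calc ‖∑' m, B m * (circleMap 0 r θ) ^ m‖ ≤ ∑' m, ‖B m * (circleMap 0 r θ) ^ m‖ := by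
          apply norm_tsum_le_tsum_norm
          simp_rw [h2]; exact hB
      _ = _ := by simp_rw [h2]
  have hs : HasSum (fun n : ℕ => ∫ θ in (0:ℝ)..2 * π,
      (A n * (circleMap 0 r θ) ^ n) * (starRingEnd ℂ) (G (circleMap 0 r θ)))
      (∫ θ in (0:ℝ)..2 * π, F (circleMap 0 r θ) * (starRingEnd ℂ) (G (circleMap 0 r θ))) := by
    apply intervalIntegral.hasSum_integral_of_dominated_convergence
      (bound := fun m _ => (‖A m‖ * r ^ m) * ∑' m, ‖B m‖ * r ^ m)
    · intro m
      apply Continuous.aestronglyMeasurable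
      exact (by fun_prop : Continuous fun θ : ℝ => A m * (circleMap 0 r θ) ^ m).mul
        (Complex.continuous_conj.comp hGcont)
    · intro m
      filter_upwards with θ _
      rw [norm_mul, norm_mul, norm_pow, RCLike.norm_conj, hnorm]
      exact mul_le_mul_of_nonneg_left (hGbd θ) (by positivity)
    · filter_upwards with θ _
      exact hA.mul_right _
    · exact _root_.intervalIntegrable_const
    · filter_upwards with θ _
      exact (hF _ (hnorm θ)).mul_right _
  have hval : ∀ n : ℕ, (∫ θ in (0:ℝ)..2 * π,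
      (A n * (circleMap 0 r θ) ^ n) * (starRingEnd ℂ) (G (circleMap 0 r θ)))
      = (2 * π) * (A n * (starRingEnd ℂ) (B n) * (r:ℂ) ^ (2 * n)) := by
    intro n
    have h : ∀ θ : ℝ, (A n * (circleMap 0 r θ) ^ n) * (starRingEnd ℂ) (G (circleMap 0 r θ))
       = (A n * (r:ℂ) ^ n) *
          ((cexp (θ * I)) ^ n * (starRingEnd ℂ) (G (circleMap 0 r θ))) := by
      intro θ
      rw [show (circleMap 0 r θ) ^ n = (r:ℂ) ^ n * (cexp (θ * I)) ^ n by
        rw [circleMap, zero_add, mul_pow]]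
      ring
    simp_rw [h]
    rw [intervalIntegral.integral_const_mul, pars_one B G r hr hB hG n]
    ring
  simp_rw [hval] at hs
  rw [circleAverage]
  have h3 := hs.mul_left ((2 * π : ℂ)⁻¹)
  have hpi : (2 * π : ℂ) ≠ 0 := by
    exact_mod_cast (by positivity : (2 * π : ℝ) ≠ 0)
  have h4 : ∀ n, (2 * π : ℂ)⁻¹ * ((2 * π) * (A n * (starRingEnd ℂ) (B n) * (r:ℂ) ^ (2 * n)))
     = A n * (starRingEnd ℂ) (B n) * (r:ℂ) ^ (2 * n) := by
    intro n
    field_simp
  simp_rw [h4] at h3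
  have h5 : (2 * π)⁻¹ • (∫ θ in (0:ℝ)..2 * π, F (circleMap 0 r θ) *
      (starRingEnd ℂ) (G (circleMap 0 r θ)))
      = (2 * π : ℂ)⁻¹ * ∫ θ in (0:ℝ)..2 * π, F (circleMap 0 r θ) *
      (starRingEnd ℂ) (G (circleMap 0 r θ)) := by
    rw [Complex.real_smul]
    push_cast
    rfl
  rw [h5]
  exact h3

end H7Bpr
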