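import Mathlib
import Pool.Agent.H7BprDefs
import Pool.Agent.H7BprParseval

/-! Upper bound. -/

namespace H7Bpr

open Complex Real MeasureTheory

lemma hasSum_coef {f : ℂ → ℂ} (hf : DifferentiableOn ℂ f (Metric.ball 0 1)) {z : ℂ}
    (hz : ‖z‖ < 1) : HasSum (fun n => coef f n * z ^ n) (f z) := by
  have h := Complex.hasSum_taylorSeries_on_ball hf (z := z) (by simpa using hz)
  have e : (fun n => coef f n * z ^ n) =
      fun n : ℕ => ((n.factorial : ℕ) : ℂ)⁻¹ • (z - 0) ^ n • iteratedDeriv n f 0 := by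
    funext n
    rw [coef, sub_zero, smul_eq_mul, smul_eq_mul]
    field_simp
  rw [e]
  exact h

lemma summable_coef {f : ℂ → ℂ} (hf : DifferentiableOn ℂ f (Metric.ball 0 1)) {r : ℝ}
    (hr : 0 ≤ r) (hr1 : r < 1) : Summable (fun n => ‖coef f n‖ * r ^ n) := by
  have h := (hasSum_coef hf (z := (r:ℂ)) (by simpa [abs_of_nonneg hr] using hr1)).summable.norm
  refine h.congr fun n => ?_
  rw [norm_mul, norm_pow, Complex.norm_real, Real.norm_eq_abs, abs_of_nonneg hr]

lemma coef_deriv (f : ℂ → ℂ) (n : ℕ) : coef (deriv f) n = (n + 1) * coef f (n + 1) := by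
  rw [coef, coef, iteratedDeriv_succ', Nat.factorial_succ]
  push_cast
  have : ((n:ℂ) + 1) ≠ 0 := by exact_mod_cast Nat.succ_ne_zero n
  have h2 : ((n.factorial : ℕ) : ℂ) ≠ 0 := by exact_mod_cast Nat.factorial_ne_zero n
  field_simp

lemma coef_zero (f : ℂ → ℂ) : coef f 0 = f 0 := by simp [coef]

/-- Parseval for holomorphic functions. -/
lemma parsH {F G : ℂ → ℂ} (hF : DifferentiableOn ℂ F (Metric.ball 0 1))
    (hG : DifferentiableOn ℂ G (Metric.ball 0 1)) {r : ℝ} (hr : 0 ≤ r) (hr1 : r < 1) :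
    HasSum (fun n => coef F n * (starRingEnd ℂ) (coef G n) * (r:ℂ) ^ (2 * n))
      (circleAverage (fun z => F z * (starRingEnd ℂ) (G z)) 0 r) := by
  apply pars (coef F) (coef G) F G r hr (summable_coef hF hr hr1) (summable_coef hG hr hr1)
  · intro z hz; exact hasSum_coef hF (by rw [hz]; exact hr1)
  · intro z hz; exact hasSum_coef hG (by rw [hz]; exact hr1)
  · apply hG.continuousOn.mono
    intro z hz
    simp only [mem_sphere_iff_norm, sub_zero] at hz
    simp [hz, hr1]

/-- weights do not destroy summability -/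
lemma summable_weight (b : ℕ → ℝ) (hb : ∀ x : ℝ, 0 ≤ x → x < 1 → Summable fun n => |b n| * x ^ n)
    (k : ℕ) {x : ℝ} (hx : 0 ≤ x) (hx1 : x < 1) :
    Summable fun n : ℕ => (n:ℝ) ^ k * |b n| * x ^ n := by
  obtain ⟨y, hxy, hy1⟩ := exists_between hx1
  have hy0 : 0 < y := lt_of_le_of_lt hx hxy
  have hs := hb y hy0.le hy1
  obtain ⟨C, hC⟩ : ∃ C : ℝ, ∀ n, |b n| * y ^ n ≤ C := by
    refine ⟨∑' n, |b n| * y ^ n, fun n => ?_⟩
    exact hs.le_tsum n (fun j _ => by positivity)
  have h2 : Summable fun n : ℕ => (n:ℝ) ^ k * (x / y) ^ n := by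
    have := summable_norm_pow_mul_geometric_of_norm_lt_one k (r := x / y) (R := ℝ) (by
      rw [Real.norm_eq_abs, abs_of_nonneg (by positivity), div_lt_one hy0]; exact hxy)
    refine this.congr fun n => ?_
    rw [Real.norm_eq_abs, abs_of_nonneg (by positivity)]
  refine Summable.of_nonneg_of_le (fun n => by positivity) (fun n => ?_) (h2.mul_left C)
  have : (n:ℝ) ^ k * |b n| * x ^ n = (|b n| * y ^ n) * ((n:ℝ) ^ k * (x / y) ^ n) := by
    rw [div_pow]; field_simp
  rw [this]
  exact mul_le_mul_of_nonneg_right (hC n) (by positivity)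

/-- Termwise differentiation of a power series. -/
lemma hasDerivAt_series (b : ℕ → ℝ)
    (hb : ∀ x : ℝ, 0 ≤ x → x < 1 → Summable fun n => |b n| * x ^ n) {x : ℝ} (hx : |x| < 1) :
    HasDerivAt (fun y : ℝ => ∑' n : ℕ, b n * y ^ n) (∑' n : ℕ, b n * (n * x ^ (n - 1))) x := by
  obtain ⟨R, hxR, hR1⟩ := exists_between hx
  have hR0 : 0 < R := lt_of_le_of_lt (abs_nonneg x) hxR
  have hu : Summable fun n : ℕ => |b n| * (n * R ^ (n - 1)) := by
    have := (summable_weight b hb 1 hR0.le hR1).mul_left (1 / R)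
    refine this.congr fun n => ?_
    rcases n with _ | n
    · simp
    · simp only [Nat.add_sub_cancel, pow_succ]
      field_simp
  refine hasDerivAt_tsum_of_isPreconnected (g := fun (n : ℕ) (y : ℝ) => b n * y ^ n)
    (g' := fun (n : ℕ) (y : ℝ) => b n * (n * y ^ (n - 1)))
    (u := fun n : ℕ => |b n| * (n * R ^ (n - 1)))
    (t := Set.Ioo (-R) R) (y₀ := 0) hu isOpen_Ioo isPreconnected_Ioo ?_ ?_ ?_ ?_ ?_
  · intro n y _
    exact (hasDerivAt_pow n y).const_mul (b n)
  · intro n y hy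
    rw [norm_mul, norm_mul, norm_pow, Real.norm_eq_abs, Real.norm_eq_abs, Real.norm_eq_abs,
      Nat.abs_cast]
    have : |y| ≤ R := abs_le.mpr ⟨hy.1.le, hy.2.le⟩
    gcongr
  · exact ⟨by linarith, hR0⟩
  · apply summable_of_ne_finset_zero (s := {0})
    intro n hn
    simp only [Finset.mem_singleton] at hn
    simp [hn]
  · exact ⟨by linarith [neg_abs_le x, abs_nonneg x], by linarith [le_abs_self x]⟩

/-- The comparison argument. -/
lemma series_bound (b : ℕ → ℝ) (D : ℝ)
    (hb : ∀ x : ℝ, 0 ≤ x → x < 1 → Summable fun n => |b n| * x ^ n)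
    (hT : ∀ x : ℝ, 0 < x → x < 1 →
      ∑' n : ℕ, ((n:ℝ) + 1) ^ 2 * b (n + 1) * x ^ n ≤ D / (1 - x) ^ 2) {x : ℝ} (hx : 0 ≤ x)
    (hx1 : x < 1) :
    ∑' n : ℕ, b n * x ^ n ≤ b 0 - D * Real.log (1 - x) := by
  have hb1 : ∀ x : ℝ, 0 ≤ x → x < 1 → Summable fun n : ℕ => |(n:ℝ) * b n| * x ^ n := by
    intro x hx hx1
    refine (summable_weight b hb 1 hx hx1).congr fun n => ?_
    rw [abs_mul, Nat.abs_cast, pow_one]
  have hP : ∀ x : ℝ, |x| < 1 → HasDerivAt (fun y : ℝ => ∑' n : ℕ, b n * y ^ n)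
      (∑' n : ℕ, b n * (n * x ^ (n - 1))) x := fun x hx => hasDerivAt_series b hb hx
  have hQ : ∀ x : ℝ, |x| < 1 → HasDerivAt (fun y : ℝ => ∑' n : ℕ, ((n:ℝ) * b n) * y ^ n)
      (∑' n : ℕ, ((n:ℝ) * b n) * (n * x ^ (n - 1))) x := fun x hx => hasDerivAt_series _ hb1 hx
  have hQT : ∀ x : ℝ, 0 < x → x < 1 → (∑' n : ℕ, ((n:ℝ) * b n) * (n * x ^ (n - 1)))
      ≤ D / (1 - x) ^ 2 := by
    intro x hx hx1
    have hsum : Summable fun n : ℕ => ((n:ℝ) * b n) * (n * x ^ (n - 1)) := by
      have h0 := ((summable_weight b hb 2 hx.le hx1).mul_left (1 / x))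
      have h1 : Summable fun n : ℕ => ‖((n:ℝ) * b n) * (n * x ^ (n - 1))‖ := by
        refine h0.congr fun n => ?_
        rcases n with _ | n
        · simp
        · simp only [Nat.add_sub_cancel, pow_succ, norm_mul, norm_pow, Real.norm_eq_abs,
            abs_of_pos hx, Nat.abs_cast]
          field_simp
      exact h1.of_norm
    rw [hsum.tsum_eq_zero_add]
    simp only [Nat.cast_zero, zero_mul, zero_add, mul_zero]
    refine le_trans (le_of_eq ?_) (hT x hx hx1)
    apply tsum_congr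
    intro n
    simp only [Nat.add_sub_cancel]
    push_cast
    ring
  have hPQ : ∀ x : ℝ, 0 < x → x < 1 → x * (∑' n : ℕ, b n * (n * x ^ (n - 1)))
      = ∑' n : ℕ, ((n:ℝ) * b n) * x ^ n := by
    intro x hx hx1
    rw [← tsum_mul_left]
    apply tsum_congr
    intro n
    rcases n with _ | n
    · simp
    · simp only [Nat.add_sub_cancel, pow_succ]
      ring
  -- first integration
  have hQle : ∀ x : ℝ, 0 ≤ x → x < 1 → (∑' n : ℕ, ((n:ℝ) * b n) * x ^ n) ≤ D * x / (1 - x) := by
    intro x hx hx1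
    have hmono : MonotoneOn (fun y : ℝ => D * y / (1 - y) - ∑' n : ℕ, ((n:ℝ) * b n) * y ^ n)
        (Set.Ico 0 1) := by
      have hder : ∀ y : ℝ, 0 ≤ y → y < 1 → HasDerivAt
          (fun y : ℝ => D * y / (1 - y) - ∑' n : ℕ, ((n:ℝ) * b n) * y ^ n)
          (D / (1 - y) ^ 2 - ∑' n : ℕ, ((n:ℝ) * b n) * (n * y ^ (n - 1))) y := by
        intro y hy hy1
        have h1 : HasDerivAt (fun y : ℝ => D * y / (1 - y)) (D / (1 - y) ^ 2) y := by
          have hne : 1 - y ≠ 0 := by linarith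
          have h2 : HasDerivAt (fun y : ℝ => D * y) (D * 1) y := (hasDerivAt_id' y).const_mul D
          have h3 : HasDerivAt (fun y : ℝ => 1 - y) (-1) y := (hasDerivAt_id' y).const_sub 1
          exact (h2.div h3 hne).congr_deriv (by congr 1; ring)
        exact h1.sub (hQ y (by rw [abs_of_nonneg hy]; exact hy1))
      apply monotoneOn_of_deriv_nonneg (convex_Ico 0 1)
      · intro y hy
        exact (hder y hy.1 hy.2).continuousAt.continuousWithinAt
      · intro y hy
        rw [interior_Ico] at hy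
        exact (hder y hy.1.le hy.2).differentiableAt.differentiableWithinAt
      · intro y hy
        rw [interior_Ico] at hy
        rw [(hder y hy.1.le hy.2).deriv]
        linarith [hQT y hy.1 hy.2]
    have h0 := hmono (a := 0) (b := x) ⟨le_refl _, one_pos⟩ ⟨hx, hx1⟩ hx
    have hz : (∑' n : ℕ, ((n:ℝ) * b n) * (0:ℝ) ^ n) = 0 := by
      rw [tsum_eq_single 0]
      · simp
      · intro n hn; simp [hn]
    simp only [mul_zero, zero_div, hz] at h0
    linarith
  have hmono : MonotoneOn (fun y : ℝ => -D * Real.log (1 - y) - ∑' n : ℕ, b n * y ^ n)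
      (Set.Ico 0 1) := by
    have hder : ∀ y : ℝ, 0 ≤ y → y < 1 → HasDerivAt
        (fun y : ℝ => -D * Real.log (1 - y) - ∑' n : ℕ, b n * y ^ n)
        (D / (1 - y) - ∑' n : ℕ, b n * (n * y ^ (n - 1))) y := by
      intro y hy hy1
      have h1 : HasDerivAt (fun y : ℝ => -D * Real.log (1 - y)) (D / (1 - y)) y := by
        have hne : 1 - y ≠ 0 := by linarith
        have h3 : HasDerivAt (fun y : ℝ => 1 - y) (-1) y := (hasDerivAt_id' y).const_sub 1
        exact ((h3.log hne).const_mul (-D)).congr_deriv (by ring)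
      exact h1.sub (hP y (by rw [abs_of_nonneg hy]; exact hy1))
    apply monotoneOn_of_deriv_nonneg (convex_Ico 0 1)
    · intro y hy
      exact (hder y hy.1 hy.2).continuousAt.continuousWithinAt
    · intro y hy
      rw [interior_Ico] at hy
      exact (hder y hy.1.le hy.2).differentiableAt.differentiableWithinAt
    · intro y hy
      rw [interior_Ico] at hy
      rw [(hder y hy.1.le hy.2).deriv]
      have h2 := hQle y hy.1.le hy.2
      rw [← hPQ y hy.1 hy.2] at h2
      have h3 : y * (∑' n : ℕ, b n * (n * y ^ (n - 1))) ≤ y * (D / (1 - y)) := by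
        rw [show y * (D / (1 - y)) = D * y / (1 - y) by ring]; exact h2
      have h4 := le_of_mul_le_mul_left h3 hy.1
      linarith
  have h0 := hmono (a := 0) (b := x) ⟨le_refl _, one_pos⟩ ⟨hx, hx1⟩ hx
  have hz : (∑' n : ℕ, b n * (0:ℝ) ^ n) = b 0 := by
    rw [tsum_eq_single 0]
    · simp
    · intro n hn; simp [hn]
  simp only [hz, sub_zero, Real.log_one, mul_zero, zero_sub] at h0
  linarith

end H7Bpr
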