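import Mathlib
import Pool.Agent.H7BprDefs
import Pool.Agent.H7BprParseval
import Pool.Agent.H7BprUpper

/-! Upper bound, main estimate. -/

namespace H7Bpr

open Complex Real MeasureTheory Metric

lemma avg_re {F : ℂ → ℂ} {r : ℝ} (hF : ContinuousOn F (sphere 0 |r|)) :
    circleAverage (fun z => (F z).re) 0 r = (circleAverage F 0 r).re := by
  have := ContinuousLinearMap.circleAverage_comp_comm Complex.reCLM (f := F) (c := 0) (R := r)
    hF.circleIntegrable'
  exact this

lemma avg_holo {F : ℂ → ℂ} (hF : DifferentiableOn ℂ F (ball 0 1)) {r : ℝ} (hr : 0 ≤ r)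
    (hr1 : r < 1) : circleAverage F 0 r = F 0 := by
  apply DiffContOnCl.circleAverage
  apply hF.diffContOnCl_ball
  rw [abs_of_nonneg hr]
  exact closedBall_subset_ball hr1

lemma sphere_sub {r : ℝ} (hr : 0 ≤ r) (hr1 : r < 1) : sphere (0:ℂ) |r| ⊆ ball 0 1 := by
  rw [abs_of_nonneg hr]
  exact sphere_subset_closedBall.trans (closedBall_subset_ball hr1)

lemma avg_sq {f : ℂ → ℂ} (hf : ClassC f) {r : ℝ} (hr : 0 ≤ r) (hr1 : r < 1) :
    HasSum (fun n => ‖coef f n‖ ^ 2 * (r ^ 2) ^ n)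
      (2 * circleAverage (fun z => (f z).re ^ 2) 0 r - 1) := by
  have hc : ContinuousOn f (sphere 0 |r|) := hf.holo.continuousOn.mono (sphere_sub hr hr1)
  have hcc : ContinuousOn (fun z => f z * (starRingEnd ℂ) (f z)) (sphere 0 |r|) :=
    hc.mul (Complex.continuous_conj.comp_continuousOn hc)
  have h1 := parsH hf.holo hf.holo hr hr1
  have h2 := Complex.hasSum_re h1
  have h3 : (circleAverage (fun z => f z * (starRingEnd ℂ) (f z)) 0 r).re
      = 2 * circleAverage (fun z => (f z).re ^ 2) 0 r - 1 := by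
    rw [← avg_re hcc]
    have h4 : circleAverage (fun z => (f z ^ 2).re) 0 r = 1 := by
      rw [avg_re (F := fun z => f z ^ 2) (hc.pow 2),
        avg_holo (F := fun z => f z ^ 2) (hf.holo.pow 2) hr hr1]
      simp [hf.norm]
    have h5 : circleAverage (fun z => (f z * (starRingEnd ℂ) (f z)).re + (f z ^ 2).re) 0 r
        = circleAverage (fun z => (2:ℝ) • ((f z).re ^ 2)) 0 r := by
      congr 1
      funext z
      simp [pow_two]
      ring
    rw [circleAverage_fun_smul, circleAverage_fun_add, h4] at h5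
    · rw [smul_eq_mul] at h5; linarith
    · exact (Complex.continuous_re.comp_continuousOn hcc).circleIntegrable'
    · exact (Complex.continuous_re.comp_continuousOn (hc.pow 2)).circleIntegrable'
  rw [h3] at h2
  have e : (fun n => ‖coef f n‖ ^ 2 * (r ^ 2) ^ n) =
      fun n => (coef f n * (starRingEnd ℂ) (coef f n) * (r:ℂ) ^ (2 * n)).re := by
    funext n
    rw [Complex.mul_conj, Complex.normSq_eq_norm_sq, pow_mul]
    norm_cast
  rw [e]
  exact h2

lemma avg_cube {f : ℂ → ℂ} (hf : ClassC f) {r : ℝ} (hr : 0 ≤ r) (hr1 : r < 1) :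
    circleAverage (fun z => (f z).re ^ 3) 0 r =
      1 / 4 + 3 / 4 * (circleAverage (fun z => f z ^ 2 * (starRingEnd ℂ) (f z)) 0 r).re := by
  have hc : ContinuousOn f (sphere 0 |r|) := hf.holo.continuousOn.mono (sphere_sub hr hr1)
  have hcc : ContinuousOn (fun z => f z ^ 2 * (starRingEnd ℂ) (f z)) (sphere 0 |r|) :=
    (hc.pow 2).mul (Complex.continuous_conj.comp_continuousOn hc)
  rw [← avg_re hcc]
  have h4 : circleAverage (fun z => (f z ^ 3).re) 0 r = 1 := by
    rw [avg_re (F := fun z => f z ^ 3) (hc.pow 3),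
      avg_holo (F := fun z => f z ^ 3) (hf.holo.pow 3) hr hr1]
    simp [hf.norm]
  have h5 : circleAverage (fun z => (3:ℝ) • (f z ^ 2 * (starRingEnd ℂ) (f z)).re
      + (f z ^ 3).re) 0 r
      = circleAverage (fun z => (4:ℝ) • ((f z).re ^ 3)) 0 r := by
    congr 1
    funext z
    simp [pow_succ]
    ring
  rw [circleAverage_fun_smul, circleAverage_fun_add, circleAverage_fun_smul, h4] at h5
  · rw [smul_eq_mul, smul_eq_mul] at h5; linarith
  · exact ((Complex.continuous_re.comp_continuousOn hcc).const_smul (3:ℝ)).circleIntegrable'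
  · exact (Complex.continuous_re.comp_continuousOn (hc.pow 3)).circleIntegrable'

lemma avg_T {f : ℂ → ℂ} (hf : ClassC f) {B : ℝ}
    (hB : ∀ z ∈ ball (0:ℂ) 1, (1 - ‖z‖ ^ 2) * ‖deriv f z‖ ≤ B) {r : ℝ} (hr : 0 ≤ r)
    (hr1 : r < 1) :
    ∑' n : ℕ, ((n:ℝ) + 1) ^ 2 *
      (coef (fun z => f z ^ 2) (n + 1) * (starRingEnd ℂ) (coef f (n + 1))).re * (r ^ 2) ^ n
      ≤ 2 * B ^ 2 / (1 - r ^ 2) ^ 2 := by
  have hd : DifferentiableOn ℂ (deriv f) (ball 0 1) := hf.holo.deriv isOpen_ball
  have hg : DifferentiableOn ℂ (fun z => f z ^ 2) (ball 0 1) := hf.holo.pow 2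
  have hgd : DifferentiableOn ℂ (deriv (fun z => f z ^ 2)) (ball 0 1) := hg.deriv isOpen_ball
  have h1 := Complex.hasSum_re (parsH hgd hd hr hr1)
  have e : (fun n : ℕ => ((n:ℝ) + 1) ^ 2 *
      (coef (fun z => f z ^ 2) (n + 1) * (starRingEnd ℂ) (coef f (n + 1))).re * (r ^ 2) ^ n) =
      fun n => (coef (deriv fun z => f z ^ 2) n *
        (starRingEnd ℂ) (coef (deriv f) n) * (r:ℂ) ^ (2 * n)).re := by
    funext n
    rw [coef_deriv, coef_deriv, map_mul]
    have e1 : (starRingEnd ℂ) ((n:ℂ) + 1) = (n:ℂ) + 1 := by simp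
    rw [e1]
    have e2 : ((n:ℂ) + 1) * coef (fun z => f z ^ 2) (n + 1) *
        (((n:ℂ) + 1) * (starRingEnd ℂ) (coef f (n + 1))) * (r:ℂ) ^ (2 * n)
        = ((((n:ℝ) + 1) ^ 2 * (r ^ 2) ^ n : ℝ) : ℂ) *
          (coef (fun z => f z ^ 2) (n + 1) * (starRingEnd ℂ) (coef f (n + 1))) := by
      push_cast
      ring
    rw [e2, Complex.re_ofReal_mul]
    ring
  rw [e, h1.tsum_eq]
  have hc : ContinuousOn f (sphere 0 |r|) := hf.holo.continuousOn.mono (sphere_sub hr hr1)
  have hdc : ContinuousOn (deriv f) (sphere 0 |r|) := hd.continuousOn.mono (sphere_sub hr hr1)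
  have hgdc : ContinuousOn (deriv (fun z => f z ^ 2)) (sphere 0 |r|) :=
    hgd.continuousOn.mono (sphere_sub hr hr1)
  have hcc : ContinuousOn (fun z => (deriv (fun z => f z ^ 2)) z * (starRingEnd ℂ) (deriv f z))
      (sphere 0 |r|) :=
    hgdc.mul (Complex.continuous_conj.comp_continuousOn hdc)
  rw [← avg_re hcc]
  have hD : 0 < 1 - r ^ 2 := by nlinarith
  have hu : circleAverage (fun z => (f z).re) 0 r = 1 := by
    rw [avg_re hc, avg_holo hf.holo hr hr1, hf.norm]; simp
  have hle : circleAverage (fun z => ((deriv (fun z => f z ^ 2)) z *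
      (starRingEnd ℂ) (deriv f z)).re) 0 r ≤
      circleAverage (fun z => (2 * B ^ 2 / (1 - r ^ 2) ^ 2) • (f z).re) 0 r := by
    apply circleAverage_mono
    · exact (Complex.continuous_re.comp_continuousOn hcc).circleIntegrable'
    · exact ((Complex.continuous_re.comp_continuousOn hc).const_smul
        (2 * B ^ 2 / (1 - r ^ 2) ^ 2)).circleIntegrable'
    · intro z hz
      have hzb := sphere_sub hr hr1 hz
      have hzr : ‖z‖ = r := by
        rw [mem_sphere_zero_iff_norm] at hz; rw [hz, abs_of_nonneg hr]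
      have hfz : DifferentiableAt ℂ f z := hf.holo.differentiableAt (isOpen_ball.mem_nhds hzb)
      have hder : deriv (fun z => f z ^ 2) z = 2 * f z * deriv f z := by
        rw [deriv_fun_pow hfz]; simp
      rw [hder]
      have e3 : (2 * f z * deriv f z * (starRingEnd ℂ) (deriv f z)).re
          = 2 * (f z).re * ‖deriv f z‖ ^ 2 := by
        rw [mul_assoc, Complex.mul_conj, Complex.normSq_eq_norm_sq]
        rw [Complex.mul_re]
        simp [← Complex.ofReal_pow]
      rw [e3, smul_eq_mul]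
      have h6 := hB z hzb
      rw [hzr] at h6
      have h7 : ‖deriv f z‖ ≤ B / (1 - r ^ 2) := by
        rw [le_div_iff₀ hD]; linarith
      have h8 : ‖deriv f z‖ ^ 2 ≤ (B / (1 - r ^ 2)) ^ 2 := by
        exact pow_le_pow_left₀ (norm_nonneg _) h7 2
      have hp := hf.pos z hzb
      calc 2 * (f z).re * ‖deriv f z‖ ^ 2 ≤ 2 * (f z).re * (B / (1 - r ^ 2)) ^ 2 := by
            apply mul_le_mul_of_nonneg_left h8 (by linarith)
        _ = 2 * B ^ 2 / (1 - r ^ 2) ^ 2 * (f z).re := by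
            rw [div_pow]; ring
  rw [circleAverage_fun_smul, hu] at hle
  simpa using hle

/-- Third moments grow at most logarithmically. -/
lemma cube_bound {f : ℂ → ℂ} (hf : ClassC f) {B : ℝ}
    (hB : ∀ z ∈ ball (0:ℂ) 1, (1 - ‖z‖ ^ 2) * ‖deriv f z‖ ≤ B) {r : ℝ} (hr : 0 ≤ r)
    (hr1 : r < 1) :
    circleAverage (fun z => (f z).re ^ 3) 0 r ≤ 1 - 3 / 2 * B ^ 2 * Real.log (1 - r ^ 2) := by
  have hg : DifferentiableOn ℂ (fun z => f z ^ 2) (ball 0 1) := hf.holo.pow 2
  set b : ℕ → ℝ := fun n => (coef (fun z => f z ^ 2) n * (starRingEnd ℂ) (coef f n)).re with hbdef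
  have hre : ∀ (r : ℝ) (n : ℕ), (coef (fun z => f z ^ 2) n * (starRingEnd ℂ) (coef f n) *
      (r:ℂ) ^ (2 * n)).re = b n * (r ^ 2) ^ n := by
    intro r n
    have : coef (fun z => f z ^ 2) n * (starRingEnd ℂ) (coef f n) * (r:ℂ) ^ (2 * n)
      = (((r ^ 2) ^ n : ℝ) : ℂ) * (coef (fun z => f z ^ 2) n * (starRingEnd ℂ) (coef f n)) := by
      push_cast; ring
    rw [this, Complex.re_ofReal_mul, hbdef]
    ring
  have hsum : ∀ r : ℝ, 0 ≤ r → r < 1 → HasSum (fun n => b n * (r ^ 2) ^ n)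
      (circleAverage (fun z => f z ^ 2 * (starRingEnd ℂ) (f z)) 0 r).re := by
    intro r hr hr1
    have := Complex.hasSum_re (parsH hg hf.holo hr hr1)
    simp_rw [hre] at this
    exact this
  have hbs : ∀ x : ℝ, 0 ≤ x → x < 1 → Summable fun n => |b n| * x ^ n := by
    intro x hx hx1
    have hr1' : √x < 1 := by rw [Real.sqrt_lt' one_pos]; simpa using hx1
    have h1 := (hsum (√x) (Real.sqrt_nonneg x) hr1').summable.norm
    refine h1.congr fun n => ?_
    rw [Real.sq_sqrt hx, norm_mul, Real.norm_eq_abs, Real.norm_eq_abs, abs_of_nonneg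
      (pow_nonneg hx n)]
  have hT : ∀ x : ℝ, 0 < x → x < 1 →
      ∑' n : ℕ, ((n:ℝ) + 1) ^ 2 * b (n + 1) * x ^ n ≤ (2 * B ^ 2) / (1 - x) ^ 2 := by
    intro x hx hx1
    have hr1' : √x < 1 := by rw [Real.sqrt_lt' one_pos]; simpa using hx1
    have := avg_T hf hB (Real.sqrt_nonneg x) hr1'
    rw [Real.sq_sqrt hx.le] at this
    exact this
  have hx1 : r ^ 2 < 1 := by nlinarith
  have h2 := series_bound b (2 * B ^ 2) hbs hT (x := r ^ 2) (by positivity) hx1
  rw [(hsum r hr hr1).tsum_eq] at h2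
  have hb0 : b 0 = 1 := by
    simp [hbdef, coef_zero, hf.norm]
  rw [avg_cube hf hr hr1]
  rw [hb0] at h2
  linarith

/-- The weighted coefficient sums are bounded by the square root of the logarithm. -/
theorem upper_main {f : ℂ → ℂ} (hf : ClassC f) {B : ℝ}
    (hB : ∀ z ∈ ball (0:ℂ) 1, (1 - ‖z‖ ^ 2) * ‖deriv f z‖ ≤ B) {r : ℝ} (hr : 0 ≤ r)
    (hr1 : r < 1) :
    ∑' n : ℕ, ‖coef f n‖ ^ 2 * (r ^ 2) ^ n ≤
      2 * √(1 - 3 / 2 * B ^ 2 * Real.log (1 - r ^ 2)) := by
  have h1 := avg_sq hf hr hr1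
  rw [h1.tsum_eq]
  set D := 1 - 3 / 2 * B ^ 2 * Real.log (1 - r ^ 2) with hD
  have hx1 : r ^ 2 < 1 := by nlinarith
  have hlog : Real.log (1 - r ^ 2) ≤ 0 := Real.log_nonpos (by linarith) (by nlinarith [sq_nonneg r])
  have hD1 : 1 ≤ D := by
    rw [hD]
    nlinarith [mul_nonneg (sq_nonneg B) (neg_nonneg.mpr hlog)]
  have hs : 1 ≤ √D := by rw [Real.one_le_sqrt]; exact hD1
  have hc : ContinuousOn f (sphere 0 |r|) := hf.holo.continuousOn.mono (sphere_sub hr hr1)
  have hcr : ContinuousOn (fun z => (f z).re) (sphere 0 |r|) :=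
    Complex.continuous_re.comp_continuousOn hc
  have hu : circleAverage (fun z => (f z).re) 0 r = 1 := by
    rw [avg_re hc, avg_holo hf.holo hr hr1, hf.norm]; simp
  have hle : circleAverage (fun z => (f z).re ^ 2) 0 r ≤
      circleAverage (fun z => (√D / 2) • (f z).re + (1 / (2 * √D)) • (f z).re ^ 3) 0 r := by
    apply circleAverage_mono
    · exact (hcr.pow 2).circleIntegrable'
    · exact ((hcr.const_smul (√D / 2)).add ((hcr.pow 3).const_smul
        (1 / (2 * √D)))).circleIntegrable'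
    · intro z hz
      have hp := hf.pos z (sphere_sub hr hr1 hz)
      rw [smul_eq_mul, smul_eq_mul]
      have hs0 : 0 < √D := by linarith
      have : √D / 2 * (f z).re + 1 / (2 * √D) * (f z).re ^ 3 - (f z).re ^ 2
        = (f z).re / (2 * √D) * (√D - (f z).re) ^ 2 := by
        field_simp
        ring
      have h9 : 0 ≤ (f z).re / (2 * √D) * (√D - (f z).re) ^ 2 := by positivity
      linarith
  rw [circleAverage_fun_add, circleAverage_fun_smul, circleAverage_fun_smul, hu] at hle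
  · rw [smul_eq_mul, smul_eq_mul] at hle
    have h3 := cube_bound hf hB hr hr1
    have hs0 : 0 < √D := by linarith
    have h4 : 1 / (2 * √D) * circleAverage (fun z => (f z).re ^ 3) 0 r ≤ 1 / (2 * √D) * D :=
      mul_le_mul_of_nonneg_left h3 (by positivity)
    have h5 : 1 / (2 * √D) * D = √D / 2 := by
      have : D = √D * √D := (Real.mul_self_sqrt (by linarith)).symm
      rw [div_mul_eq_mul_div, one_mul]
      rw [div_eq_div_iff (by positivity) (by norm_num)]
      nlinarith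
    linarith
  · exact (hcr.const_smul (√D / 2)).circleIntegrable'
  · exact ((hcr.pow 3).const_smul (1 / (2 * √D))).circleIntegrable'

end H7Bpr
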