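import Mathlib
import Pool.Agent.H7BprDefs
import Pool.Agent.H7BprUpper2
import Pool.Agent.H7BprBloch

/-! Lower bound for the limit function. -/

namespace H7Bpr

open Complex Real Finset

lemma H_desc_sum (k m j : ℕ) : ∑ n ∈ range (4 ^ j), H (k + j) (m * 4 ^ j + n) = 4 ^ j * H k m := by
  induction j with
  | zero => simp
  | succ j ih =>
    rw [show 4 ^ (j + 1) = 4 * 4 ^ j by ring, sum_four]
    have : ∀ q, H (k + (j + 1)) (m * (4 * 4 ^ j) + 4 * q) +
        H (k + (j + 1)) (m * (4 * 4 ^ j) + (4 * q + 1)) +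
        H (k + (j + 1)) (m * (4 * 4 ^ j) + (4 * q + 2)) +
        H (k + (j + 1)) (m * (4 * 4 ^ j) + (4 * q + 3)) = 4 * H (k + j) (m * 4 ^ j + q) := by
      intro q
      have h0 := H_child (k + j) (m * 4 ^ j + q) 0 (by norm_num)
      have h1 := H_child (k + j) (m * 4 ^ j + q) 1 (by norm_num)
      have h2 := H_child (k + j) (m * 4 ^ j + q) 2 (by norm_num)
      have h3 := H_child (k + j) (m * 4 ^ j + q) 3 (by norm_num)
      rw [add_zero] at h0
      rw [show m * (4 * 4 ^ j) + 4 * q = 4 * (m * 4 ^ j + q) by ring,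
        show m * (4 * 4 ^ j) + (4 * q + 1) = 4 * (m * 4 ^ j + q) + 1 by ring,
        show m * (4 * 4 ^ j) + (4 * q + 2) = 4 * (m * 4 ^ j + q) + 2 by ring,
        show m * (4 * 4 ^ j) + (4 * q + 3) = 4 * (m * 4 ^ j + q) + 3 by ring,
        show k + (j + 1) = k + j + 1 by ring, h0, h1, h2, h3, sum_ch]
    simp only [← add_assoc] at this ⊢
    rw [sum_congr rfl (fun q _ => this q), ← mul_sum, ih]
    ring

lemma fJ_re (J : ℕ) (z : ℂ) : (fJ J z).re =
    ∑ n ∈ range (4 ^ J), (H J n : ℝ) * ((E z (pt J (n + 1))).re - (E z (pt J n)).re) := by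
  unfold fJ
  rw [Complex.re_sum]
  apply sum_congr rfl
  intro n _
  have : (H J n : ℂ) = ((H J n : ℝ) : ℂ) := by push_cast; rfl
  rw [this, Complex.re_ofReal_mul, Complex.sub_re]

/-- Lower bound for the real part from a single interval. -/
lemma fJ_lower {z : ℂ} (hz : ‖z‖ < 1) (k m j : ℕ) (hm : m < 4 ^ k) {κ : ℝ}
    (hκ : ∀ y ∈ Set.Icc (pt k m) (pt k (m + 1)), κ ≤ (K z y).re) :
    κ * (H k m) / 4 ^ k ≤ (fJ (k + j) z).re := by
  rw [fJ_re]
  set v : ℕ → ℝ := fun n => (H (k + j) n : ℝ) *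
    ((E z (pt (k + j) (n + 1))).re - (E z (pt (k + j) n)).re) with hv
  have hpt : ∀ n, pt (k + j) n ≤ pt (k + j) (n + 1) := by
    intro n
    have := pt_succ_sub (k + j) n
    have h4 : (0:ℝ) < 1 / 4 ^ (k + j) := by positivity
    linarith
  have hv0 : ∀ n, 0 ≤ v n := by
    intro n
    have h1 := E_re_lower hz (hpt n) (κ := 0) (fun y _ => K_re_nonneg hz y)
    rw [zero_mul] at h1
    exact mul_nonneg (Nat.cast_nonneg _) h1
  have hsub : Finset.Ico (m * 4 ^ j) (m * 4 ^ j + 4 ^ j) ⊆ range (4 ^ (k + j)) := by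
    intro n hn
    rw [Finset.mem_Ico] at hn
    rw [Finset.mem_range]
    have : (m + 1) * 4 ^ j ≤ 4 ^ k * 4 ^ j := Nat.mul_le_mul_right _ hm
    rw [pow_add]
    nlinarith [hn.2]
  have h2 := sum_le_sum_of_subset_of_nonneg hsub (f := v) (fun n _ _ => hv0 n)
  refine le_trans ?_ h2
  rw [Finset.sum_Ico_eq_sum_range, Nat.add_sub_cancel_left]
  have h3 : ∀ n ∈ range (4 ^ j), (H (k + j) (m * 4 ^ j + n) : ℝ) * (κ / 4 ^ (k + j)) ≤
      v (m * 4 ^ j + n) := by
    intro n hn
    rw [Finset.mem_range] at hn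
    simp only [hv]
    apply mul_le_mul_of_nonneg_left _ (Nat.cast_nonneg _)
    have h4 := E_re_lower hz (hpt (m * 4 ^ j + n)) (κ := κ) (by
      intro y hy
      apply hκ
      have e1 : pt k m ≤ pt (k + j) (m * 4 ^ j + n) := by
        unfold pt
        rw [div_le_div_iff₀ (by positivity) (by positivity), pow_add]
        push_cast
        have : (0:ℝ) ≤ (n:ℝ) * 4 ^ k := by positivity
        nlinarith
      have e2 : pt (k + j) (m * 4 ^ j + n + 1) ≤ pt k (m + 1) := by
        unfold pt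
        rw [div_le_div_iff₀ (by positivity) (by positivity), pow_add]
        have hn' : (n:ℝ) + 1 ≤ 4 ^ j := by exact_mod_cast hn
        push_cast
        have : ((n:ℝ) + 1) * 4 ^ k ≤ 4 ^ j * 4 ^ k := by
          apply mul_le_mul_of_nonneg_right hn' (by positivity)
        nlinarith
      exact ⟨e1.trans hy.1, hy.2.trans e2⟩)
    rw [pt_succ_sub] at h4
    refine le_trans (le_of_eq ?_) h4
    ring
  refine le_trans (le_of_eq ?_) (sum_le_sum h3)
  rw [← sum_mul]
  have h5 : ∑ n ∈ range (4 ^ j), (H (k + j) (m * 4 ^ j + n) : ℝ) = 4 ^ j * H k m := by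
    exact_mod_cast H_desc_sum k m j
  rw [h5, pow_add]
  field_simp

lemma F_lower {z : ℂ} (hz : ‖z‖ < 1) (k m : ℕ) (hm : m < 4 ^ k) {κ : ℝ}
    (hκ : ∀ y ∈ Set.Icc (pt k m) (pt k (m + 1)), κ ≤ (K z y).re) :
    κ * (H k m) / 4 ^ k ≤ (F z).re := by
  have hlim : Filter.Tendsto (fun j : ℕ => (fJ (k + j) z).re) Filter.atTop
      (nhds (F z).re) := by
    have h1 := tendsto_loc.tendsto_at (a := z) (by simpa using hz)
    have h2 := (Complex.continuous_re.tendsto _).comp h1
    have h3 := h2.comp (Filter.tendsto_add_atTop_nat k)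
    refine h3.congr fun j => ?_
    simp only [Function.comp]
    rw [add_comm]
  exact ge_of_tendsto' hlim fun j => fJ_lower hz k m j hm hκ

lemma F_pos {z : ℂ} (hz : ‖z‖ < 1) : 0 < (F z).re := by
  have hz0 := norm_nonneg z
  have h := F_lower hz 0 0 (by norm_num) (κ := (1 - ‖z‖ ^ 2) / 4) (by
    intro y _
    rw [K_re]
    have h1 := dist_upper hz y
    have h2 : 0 < ‖ze y - z‖ := lt_of_lt_of_le (by linarith) (dist_lower y)
    have h3 : ‖ze y - z‖ ^ 2 ≤ 4 := by nlinarith
    have h4 : 0 ≤ 1 - ‖z‖ ^ 2 := by nlinarith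
    exact div_le_div_of_nonneg_left h4 (by positivity) h3)
  rw [H_zero] at h
  have h4 : 0 < 1 - ‖z‖ ^ 2 := by nlinarith
  simp only [Nat.cast_one, mul_one, pow_zero, div_one] at h
  linarith

lemma F_zero : F 0 = 1 := by
  have h : ∀ J, fJ J 0 = 1 := by
    intro J
    unfold fJ
    have : ∀ n ∈ range (4 ^ J), (H J n : ℂ) * (E 0 (pt J (n + 1)) - E 0 (pt J n))
        = (H J n : ℂ) * (1 / 4 ^ J) := by
      intro n _
      have h1 := pt_succ_sub J n
      unfold E
      simp only [zero_div, sub_zero, Complex.log_one, mul_zero, add_zero]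
      rw [← Complex.ofReal_sub, h1]
      push_cast
      rfl
    rw [sum_congr rfl this, ← sum_mul]
    have h2 : ∑ n ∈ range (4 ^ J), (H J n : ℂ) = 4 ^ J := by exact_mod_cast H_sum J
    rw [h2]
    field_simp
  unfold F
  simp [h]

/-- The limit function lies in the class. -/
theorem F_classC : ClassC F where
  holo := F_diff
  bloch := F_bloch
  pos := fun z hz => F_pos (by simpa using hz)
  norm := F_zero

/-- pointwise lower bound on circles -/
lemma F_lower_circle (k m : ℕ) (hm : m < 4 ^ k) {x : ℝ} (hx : x ∈ Set.Icc (pt k m) (pt k (m + 1))) :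
    (H k m : ℝ) / (1 + 2 * π) ^ 2 ≤ (F ((1 - 1 / 4 ^ k : ℝ) * ze x)).re := by
  have hpi := Real.pi_pos
  have hq : (0:ℝ) < 1 / 4 ^ k := by positivity
  have hq1 : (1:ℝ) / 4 ^ k ≤ 1 := by
    rw [div_le_one (by positivity)]; exact one_le_pow₀ (by norm_num)
  set q : ℝ := 1 / 4 ^ k with hqdef
  have hnorm : ‖((1 - q : ℝ) : ℂ) * ze x‖ = 1 - q := by
    rw [norm_mul, norm_ze, mul_one, Complex.norm_real, Real.norm_eq_abs,
      abs_of_nonneg (by linarith)]
  have hz : ‖((1 - q : ℝ) : ℂ) * ze x‖ < 1 := by rw [hnorm]; linarith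
  have h := F_lower hz k m hm (κ := 4 ^ k / (1 + 2 * π) ^ 2) (by
    intro y hy
    rw [K_re, hnorm]
    have h1 : ‖ze y - ((1 - q : ℝ) : ℂ) * ze x‖ ≤ (1 + 2 * π) * q := by
      have e : ze y - ((1 - q : ℝ) : ℂ) * ze x = (ze y - ze x) + (q:ℂ) * ze x := by
        push_cast; ring
      rw [e]
      refine (norm_add_le _ _).trans ?_
      rw [norm_mul, norm_ze, mul_one, Complex.norm_real, Real.norm_eq_abs, abs_of_pos hq]
      have h2 := ze_lip y x
      have h3 : |y - x| ≤ q := by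
        have := pt_succ_sub k m
        rw [abs_le]
        constructor <;> linarith [hx.1, hx.2, hy.1, hy.2]
      have h4 : 2 * π * |y - x| ≤ 2 * π * q := mul_le_mul_of_nonneg_left h3 (by positivity)
      linarith
    have h5 : 0 < ‖ze y - ((1 - q : ℝ) : ℂ) * ze x‖ :=
      lt_of_lt_of_le (by linarith) (dist_lower y)
    have h6 : ‖ze y - ((1 - q : ℝ) : ℂ) * ze x‖ ^ 2 ≤ ((1 + 2 * π) * q) ^ 2 :=
      pow_le_pow_left₀ h5.le h1 2
    have h7 : q ≤ 1 - (1 - q) ^ 2 := by nlinarith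
    have h8 : (4:ℝ) ^ k = 1 / q := by rw [hqdef]; field_simp
    rw [h8, div_div, div_le_div_iff₀ (by positivity) (by positivity)]
    calc 1 * ‖ze y - ((1 - q : ℝ) : ℂ) * ze x‖ ^ 2 ≤ ((1 + 2 * π) * q) ^ 2 := by
          rw [one_mul]; exact h6
      _ = q * (q * (1 + 2 * π) ^ 2) := by ring
      _ ≤ (1 - (1 - q) ^ 2) * (q * (1 + 2 * π) ^ 2) := by
          apply mul_le_mul_of_nonneg_right h7 (by positivity))
  refine le_trans (le_of_eq ?_) h
  field_simp

/-- second moments of the limit function on circles -/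
lemma F_moment (k : ℕ) : √((k:ℝ) + 1) / (1 + 2 * π) ^ 4 ≤
    circleAverage (fun z => (F z).re ^ 2) 0 (1 - 1 / 4 ^ k) := by
  have hpi := Real.pi_pos
  have hq : (0:ℝ) < 1 / 4 ^ k := by positivity
  have hq1 : (1:ℝ) / 4 ^ k ≤ 1 := by
    rw [div_le_one (by positivity)]; exact one_le_pow₀ (by norm_num)
  set r : ℝ := 1 - 1 / 4 ^ k with hr
  have hr0 : 0 ≤ r := by linarith
  have hr1 : r < 1 := by linarith
  have hcont : Continuous (fun θ : ℝ => (F (circleMap 0 r θ)).re ^ 2) := by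
    have h1 : Continuous fun θ : ℝ => F (circleMap 0 r θ) := by
      apply F_diff.continuousOn.comp_continuous (continuous_circleMap 0 r)
      intro θ
      simp only [mem_ball_zero_iff, circleMap, zero_add, norm_mul, Complex.norm_real,
        Complex.norm_exp_ofReal_mul_I, mul_one, Real.norm_eq_abs, abs_of_nonneg hr0]
      exact hr1
    exact (Complex.continuous_re.comp h1).pow 2
  have hsplit := intervalIntegral.sum_integral_adjacent_intervals
    (f := fun θ : ℝ => (F (circleMap 0 r θ)).re ^ 2) (μ := MeasureTheory.volume)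
    (a := fun n => 2 * π * pt k n) (n := 4 ^ k)
    (fun n _ => hcont.intervalIntegrable _ _)
  rw [pt_full, pt_zero, mul_zero, mul_one] at hsplit
  rw [circleAverage, ← hsplit]
  have hterm : ∀ n ∈ range (4 ^ k), (2 * π / 4 ^ k) * ((H k n : ℝ) / (1 + 2 * π) ^ 2) ^ 2 ≤
      ∫ θ in (2 * π * pt k n)..(2 * π * pt k (n + 1)), (F (circleMap 0 r θ)).re ^ 2 := by
    intro n hn
    rw [Finset.mem_range] at hn
    have hle : 2 * π * pt k n ≤ 2 * π * pt k (n + 1) := by
      apply mul_le_mul_of_nonneg_left _ (by positivity)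
      have := pt_succ_sub k n; linarith
    have h1 : ∫ θ in (2 * π * pt k n)..(2 * π * pt k (n + 1)),
        ((H k n : ℝ) / (1 + 2 * π) ^ 2) ^ 2 ≤
        ∫ θ in (2 * π * pt k n)..(2 * π * pt k (n + 1)), (F (circleMap 0 r θ)).re ^ 2 := by
      apply intervalIntegral.integral_mono_on hle (by simp) (hcont.intervalIntegrable _ _)
      intro θ hθ
      have hx : θ / (2 * π) ∈ Set.Icc (pt k n) (pt k (n + 1)) := by
        constructor
        · rw [le_div_iff₀ (by positivity)]; linarith [hθ.1]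
        · rw [div_le_iff₀ (by positivity)]; linarith [hθ.2]
      have h2 := F_lower_circle k n hn hx
      have e : circleMap 0 r θ = ((1 - 1 / 4 ^ k : ℝ) : ℂ) * ze (θ / (2 * π)) := by
        rw [circleMap, zero_add, ← hr]
        unfold ze
        congr 3
        field_simp
      rw [e]
      exact pow_le_pow_left₀ (by positivity) h2 2
    refine le_trans (le_of_eq ?_) h1
    rw [intervalIntegral.integral_const, smul_eq_mul, ← mul_sub, pt_succ_sub]
    ring
  have hsum := sum_le_sum hterm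
  have h3 := H_second k
  have h4 : √((k:ℝ) + 1) / (1 + 2 * π) ^ 4 ≤ (2 * π)⁻¹ *
      ∑ n ∈ range (4 ^ k), (2 * π / 4 ^ k) * ((H k n : ℝ) / (1 + 2 * π) ^ 2) ^ 2 := by
    have e1 : ∑ n ∈ range (4 ^ k), (2 * π / 4 ^ k) * ((H k n : ℝ) / (1 + 2 * π) ^ 2) ^ 2
      = (2 * π / 4 ^ k) * (1 / (1 + 2 * π) ^ 4) * ∑ n ∈ range (4 ^ k), (H k n : ℝ) ^ 2 := by
      rw [mul_sum]
      apply sum_congr rfl
      intro n _
      rw [div_pow]
      field_simp
    rw [e1]
    have e2 : (2 * π)⁻¹ * ((2 * π / 4 ^ k) * (1 / (1 + 2 * π) ^ 4) *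
        ∑ n ∈ range (4 ^ k), (H k n : ℝ) ^ 2)
        = (∑ n ∈ range (4 ^ k), (H k n : ℝ) ^ 2) / 4 ^ k / (1 + 2 * π) ^ 4 := by
      field_simp
    rw [e2]
    apply div_le_div_of_nonneg_right _ (by positivity)
    rw [le_div_iff₀ (by positivity)]
    exact h3
  rw [smul_eq_mul]
  exact h4.trans (mul_le_mul_of_nonneg_left hsum (by positivity))

end H7Bpr
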