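import Mathlib
import Pool.Agent.H7BprDefs
import Pool.Agent.H7BprUpper2
import Pool.Agent.H7BprLower

/-! Main theorem. -/

namespace H7Bpr

open Complex Real Finset Filter Asymptotics

lemma S_nonneg (f : ℂ → ℂ) (N : ℕ) : 0 ≤ S f N := sum_nonneg fun _ _ => by positivity

lemma S_mono (f : ℂ → ℂ) : Monotone (S f) := by
  intro a b hab
  unfold S
  apply sum_le_sum_of_subset_of_nonneg
  · exact Finset.Icc_subset_Icc le_rfl hab
  · intro i _ _; positivity

lemma sum_range_eq_S {f : ℂ → ℂ} (hf : ClassC f) (N : ℕ) :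
    ∑ n ∈ range (N + 1), ‖coef f n‖ ^ 2 = 1 + S f N := by
  rw [sum_range_succ', coef_zero, hf.norm, norm_one, one_pow, add_comm]
  congr 1
  unfold S
  rw [← Finset.Ico_succ_right_eq_Icc, Finset.sum_Ico_eq_sum_range]
  apply sum_congr
  · simp
  · intro n _; rw [add_comm]

lemma coef_summable {f : ℂ → ℂ} (hf : ClassC f) {x : ℝ} (hx : 0 ≤ x) (hx1 : x < 1) :
    Summable fun n => ‖coef f n‖ ^ 2 * x ^ n := by
  have hr1' : √x < 1 := by rw [Real.sqrt_lt' one_pos]; simpa using hx1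
  have := (avg_sq hf (Real.sqrt_nonneg x) hr1').summable
  rwa [Real.sq_sqrt hx] at this

lemma upper_x {f : ℂ → ℂ} (hf : ClassC f) {B : ℝ}
    (hB : ∀ z ∈ Metric.ball (0:ℂ) 1, (1 - ‖z‖ ^ 2) * ‖deriv f z‖ ≤ B) {x : ℝ} (hx : 0 ≤ x)
    (hx1 : x < 1) :
    ∑' n : ℕ, ‖coef f n‖ ^ 2 * x ^ n ≤ 2 * √(1 - 3 / 2 * B ^ 2 * Real.log (1 - x)) := by
  have hr1' : √x < 1 := by rw [Real.sqrt_lt' one_pos]; simpa using hx1
  have := upper_main hf hB (Real.sqrt_nonneg x) hr1'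
  rwa [Real.sq_sqrt hx] at this

/-- explicit upper bound -/
lemma S_upper {f : ℂ → ℂ} (hf : ClassC f) {B : ℝ}
    (hB : ∀ z ∈ Metric.ball (0:ℂ) 1, (1 - ‖z‖ ^ 2) * ‖deriv f z‖ ≤ B) {N : ℕ} (hN : 3 ≤ N) :
    S f N ≤ 4 * √(1 + 3 * B ^ 2) * √(Real.log N) := by
  have hN0 : (3:ℝ) ≤ N := by exact_mod_cast hN
  have hq : (0:ℝ) < 1 / (2 * N) := by positivity
  have hq1 : (1:ℝ) / (2 * N) ≤ 1 := by
    rw [div_le_one (by positivity)]; linarith
  set x : ℝ := 1 - 1 / (2 * N) with hx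
  have hx0 : 0 ≤ x := by linarith
  have hx1 : x < 1 := by linarith
  have h1 := upper_x hf hB hx0 hx1
  have h2 : (1:ℝ) / 2 ≤ x ^ N := by
    have := one_add_mul_le_pow (a := -(1 / (2 * (N:ℝ)))) (by linarith) N
    have e : 1 + (N:ℝ) * -(1 / (2 * (N:ℝ))) = 1 / 2 := by field_simp; norm_num
    rw [e] at this
    rw [hx, sub_eq_add_neg]
    exact this
  have h3 : (1 / 2) * S f N ≤ ∑' n : ℕ, ‖coef f n‖ ^ 2 * x ^ n := by
    have h4 : ∑ n ∈ range (N + 1), ‖coef f n‖ ^ 2 * x ^ n ≤ ∑' n : ℕ, ‖coef f n‖ ^ 2 * x ^ n :=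
      (coef_summable hf hx0 hx1).sum_le_tsum _ fun n _ => by positivity
    have h5 : (1 / 2) * ∑ n ∈ range (N + 1), ‖coef f n‖ ^ 2 ≤
        ∑ n ∈ range (N + 1), ‖coef f n‖ ^ 2 * x ^ n := by
      rw [mul_sum]
      apply sum_le_sum
      intro n hn
      rw [Finset.mem_range] at hn
      have : x ^ N ≤ x ^ n := pow_le_pow_of_le_one hx0 hx1.le (by omega)
      nlinarith [sq_nonneg ‖coef f n‖]
    rw [sum_range_eq_S hf] at h5
    linarith
  have hlogN : 1 ≤ Real.log N := by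
    rw [← Real.log_exp 1]
    apply Real.log_le_log (Real.exp_pos 1)
    linarith [Real.exp_one_lt_d9]
  have h6 : 1 - 3 / 2 * B ^ 2 * Real.log (1 - x) ≤ (1 + 3 * B ^ 2) * Real.log N := by
    have e : 1 - x = (2 * (N:ℝ))⁻¹ := by rw [hx]; ring
    rw [e, Real.log_inv, Real.log_mul (by norm_num) (by positivity)]
    have h7 : Real.log 2 ≤ 1 := by linarith [Real.log_two_lt_d9]
    nlinarith [sq_nonneg B, mul_nonneg (sq_nonneg B) (sub_nonneg.mpr (h7.trans hlogN))]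
  have h8 : √(1 - 3 / 2 * B ^ 2 * Real.log (1 - x)) ≤ √(1 + 3 * B ^ 2) * √(Real.log N) := by
    rw [← Real.sqrt_mul (by positivity)]
    exact Real.sqrt_le_sqrt h6
  linarith

lemma upper_O {f : ℂ → ℂ} (hf : ClassC f) : S f =O[atTop] fun N : ℕ => √(Real.log N) := by
  obtain ⟨B, hB⟩ := hf.bloch
  apply IsBigO.of_bound (4 * √(1 + 3 * B ^ 2))
  filter_upwards [eventually_ge_atTop 3] with N hN
  rw [Real.norm_eq_abs, Real.norm_eq_abs, abs_of_nonneg (S_nonneg f N),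
    abs_of_nonneg (Real.sqrt_nonneg _)]
  exact S_upper hf hB hN

lemma tendsto_sqrt_log : Tendsto (fun N : ℕ => √(Real.log N)) atTop atTop :=
  Real.tendsto_sqrt_atTop.comp (Real.tendsto_log_atTop.comp tendsto_natCast_atTop_atTop)

/-- lower bound along a subsequence -/
lemma F_S_lower : ∃ (m : ℕ) (A : ℝ), 1 ≤ m ∧ 0 < A ∧
    ∀ k : ℕ, √((k:ℝ) + 1) / A - 2 ≤ S F (m * 4 ^ k) := by
  have hpi := Real.pi_pos
  obtain ⟨B, hB⟩ := F_bloch
  set A : ℝ := (1 + 2 * π) ^ 4 with hA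
  have hA0 : 0 < A := by positivity
  obtain ⟨m, hm⟩ := exists_nat_ge (2 * A * √(1 + 3 * B ^ 2) + 1)
  have hs0 : 0 ≤ √(1 + 3 * B ^ 2) := Real.sqrt_nonneg _
  have hm1 : (1:ℝ) ≤ m := by nlinarith [mul_nonneg hA0.le hs0]
  refine ⟨m, A, by exact_mod_cast hm1, hA0, fun k => ?_⟩
  have hq : (0:ℝ) < 1 / 4 ^ k := by positivity
  have hq1 : (1:ℝ) / 4 ^ k ≤ 1 := by
    rw [div_le_one (by positivity)]; exact one_le_pow₀ (by norm_num)
  set r : ℝ := 1 - 1 / 4 ^ k with hr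
  have hr0 : 0 ≤ r := by linarith
  have hr1 : r < 1 := by linarith
  have h1 := avg_sq F_classC hr0 hr1
  have h2 := F_moment k
  rw [← hr, ← hA] at h2
  set N := m * 4 ^ k with hN
  have h3 : ∑' n : ℕ, ‖coef F n‖ ^ 2 * (r ^ 2) ^ n ≤
      ∑ n ∈ range (N + 1), ‖coef F n‖ ^ 2 + r ^ N * ∑' n : ℕ, ‖coef F n‖ ^ 2 * r ^ n := by
    have hsr := coef_summable F_classC hr0 hr1
    have hfin : HasSum (fun n => if n ∈ range (N + 1) then ‖coef F n‖ ^ 2 else 0)
        (∑ n ∈ range (N + 1), ‖coef F n‖ ^ 2) := by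
      have h : HasSum (fun n => if n ∈ range (N + 1) then ‖coef F n‖ ^ 2 else 0)
          (∑ n ∈ range (N + 1), if n ∈ range (N + 1) then ‖coef F n‖ ^ 2 else 0) :=
        hasSum_sum_of_ne_finset_zero (fun n hn => by simp only [if_neg hn])
      rw [Finset.sum_congr rfl (fun n hn => if_pos hn)] at h
      exact h
    have hsum := hfin.add (hsr.hasSum.mul_left (r ^ N))
    refine hasSum_le ?_ h1.summable.hasSum hsum
    intro n
    by_cases hn : n ∈ range (N + 1)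
    · rw [if_pos hn]
      have e1 : (r ^ 2) ^ n ≤ 1 := pow_le_one₀ (by positivity) (by nlinarith)
      have e2 : 0 ≤ r ^ N * (‖coef F n‖ ^ 2 * r ^ n) := by positivity
      nlinarith [sq_nonneg ‖coef F n‖]
    · rw [if_neg hn, zero_add]
      rw [Finset.mem_range] at hn
      have e1 : r ^ n ≤ r ^ N := pow_le_pow_of_le_one hr0 hr1.le (by omega)
      have e2 : (r ^ 2) ^ n = r ^ n * r ^ n := by rw [← pow_mul, mul_comm 2 n, pow_mul, pow_two]
      rw [e2]
      have e3 : 0 ≤ ‖coef F n‖ ^ 2 * r ^ n := by positivity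
      nlinarith
  rw [h1.tsum_eq, sum_range_eq_S F_classC] at h3
  have h4 := upper_x F_classC hB hr0 hr1
  have h5 : √(1 - 3 / 2 * B ^ 2 * Real.log (1 - r)) ≤ √(1 + 3 * B ^ 2) * √((k:ℝ) + 1) := by
    rw [← Real.sqrt_mul (by positivity)]
    apply Real.sqrt_le_sqrt
    have e : 1 - r = ((4:ℝ) ^ k)⁻¹ := by rw [hr]; ring
    rw [e, Real.log_inv, Real.log_pow]
    have h7 : Real.log 4 ≤ 2 := by
      rw [show (4:ℝ) = 2 ^ 2 by norm_num, Real.log_pow]
      push_cast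
      linarith [Real.log_two_lt_d9]
    have hk : (0:ℝ) ≤ k := Nat.cast_nonneg k
    have h9 : (k:ℝ) * Real.log 4 ≤ k * 2 := mul_le_mul_of_nonneg_left h7 hk
    nlinarith [sq_nonneg B, mul_le_mul_of_nonneg_left h9 (sq_nonneg B)]
  have h6 : r ^ N ≤ 1 / m := by
    have e1 : r ≤ Real.exp (-(1 / 4 ^ k)) := by
      have := Real.add_one_le_exp (-(1 / (4:ℝ) ^ k))
      rw [hr]; linarith
    have e2 : r ^ N ≤ Real.exp (-(m:ℝ)) := by
      have := pow_le_pow_left₀ hr0 e1 N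
      rw [← Real.exp_nat_mul] at this
      refine this.trans (le_of_eq ?_)
      congr 1
      rw [hN]
      push_cast
      field_simp
    have e3 : Real.exp (-(m:ℝ)) ≤ 1 / m := by
      rw [Real.exp_neg, ← one_div]
      apply one_div_le_one_div_of_le (by linarith)
      linarith [Real.add_one_le_exp (m:ℝ)]
    exact e2.trans e3
  have hsk : 0 ≤ √((k:ℝ) + 1) := Real.sqrt_nonneg _
  have h7 : r ^ N * ∑' n : ℕ, ‖coef F n‖ ^ 2 * r ^ n ≤ √((k:ℝ) + 1) / A := by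
    have e1 : ∑' n : ℕ, ‖coef F n‖ ^ 2 * r ^ n ≤ 2 * √(1 + 3 * B ^ 2) * √((k:ℝ) + 1) := by
      linarith
    have e2 : r ^ N * ∑' n : ℕ, ‖coef F n‖ ^ 2 * r ^ n ≤
        1 / m * (2 * √(1 + 3 * B ^ 2) * √((k:ℝ) + 1)) := by
      apply mul_le_mul h6 e1 (tsum_nonneg fun n => by positivity) (by positivity)
    refine e2.trans ?_
    rw [div_mul_eq_mul_div, one_mul, div_le_div_iff₀ (by linarith) hA0]
    have e3 : 2 * √(1 + 3 * B ^ 2) * A ≤ m := by nlinarith
    calc 2 * √(1 + 3 * B ^ 2) * √((k:ℝ) + 1) * A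
        = (2 * √(1 + 3 * B ^ 2) * A) * √((k:ℝ) + 1) := by ring
      _ ≤ m * √((k:ℝ) + 1) := mul_le_mul_of_nonneg_right e3 hsk
      _ = _ := by ring
  have h8 : 2 * (√((k:ℝ) + 1) / A) = √((k:ℝ) + 1) / A + √((k:ℝ) + 1) / A := by ring
  linarith

lemma lower_O : (fun N : ℕ => √(Real.log N)) =O[atTop] S F := by
  obtain ⟨m, A, hm, hA, hlow⟩ := F_S_lower
  have hm' : (1:ℝ) ≤ m := by exact_mod_cast hm
  set L : ℝ := Real.log m + 2 with hL
  have hlm : 0 ≤ Real.log m := Real.log_nonneg hm'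
  have hL0 : 0 < L := by linarith
  have hsL : 0 < √L := Real.sqrt_pos.mpr hL0
  apply IsBigO.of_bound (2 * A * √L)
  filter_upwards [eventually_ge_atTop m, tendsto_sqrt_log.eventually_ge_atTop (4 * A * √L)]
    with N hN hbig
  rw [Real.norm_eq_abs, Real.norm_eq_abs, abs_of_nonneg (S_nonneg F N),
    abs_of_nonneg (Real.sqrt_nonneg _)]
  set k := Nat.log 4 (N / m) with hk
  have hdiv : N / m ≠ 0 := by
    have := Nat.div_pos hN hm
    omega
  have h1 : 4 ^ k ≤ N / m := Nat.pow_log_le_self 4 hdiv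
  have h2 : N / m < 4 ^ (k + 1) := Nat.lt_pow_succ_log_self (by norm_num) _
  have h3 : m * 4 ^ k ≤ N := (Nat.mul_le_mul_left m h1).trans (Nat.mul_div_le N m)
  have h4 : N ≤ m * 4 ^ (k + 1) := by
    have e1 : N < m * (N / m + 1) := Nat.lt_mul_div_succ N hm
    have e2 : m * (N / m + 1) ≤ m * 4 ^ (k + 1) := Nat.mul_le_mul_left m h2
    omega
  have h5 : Real.log N ≤ L * ((k:ℝ) + 1) := by
    have hN0 : (0:ℝ) < N := by
      have : 0 < N := lt_of_lt_of_le hm hN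
      exact_mod_cast this
    have e1 : Real.log N ≤ Real.log (m * 4 ^ (k + 1)) :=
      Real.log_le_log hN0 (by exact_mod_cast h4)
    rw [Real.log_mul (by positivity) (by positivity), Real.log_pow] at e1
    have h7 : Real.log 4 ≤ 2 := by
      rw [show (4:ℝ) = 2 ^ 2 by norm_num, Real.log_pow]
      push_cast
      linarith [Real.log_two_lt_d9]
    push_cast at e1
    have hk0 : (0:ℝ) ≤ k := Nat.cast_nonneg k
    rw [hL]
    nlinarith [mul_nonneg hlm hk0]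
  have h6 : √(Real.log N) ≤ √L * √((k:ℝ) + 1) := by
    rw [← Real.sqrt_mul hL0.le]
    exact Real.sqrt_le_sqrt h5
  have h7 := (hlow k).trans (S_mono F h3)
  have h8 : √(Real.log N) / √L ≤ √((k:ℝ) + 1) := by
    rw [div_le_iff₀ hsL]; linarith
  have h9 : √(Real.log N) / √L / A - 2 ≤ S F N := by
    have : √(Real.log N) / √L / A ≤ √((k:ℝ) + 1) / A := div_le_div_of_nonneg_right h8 hA.le
    linarith
  have h10 : √(Real.log N) / √L / A - 2 ≥ √(Real.log N) / √L / A / 2 := by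
    have : 4 ≤ √(Real.log N) / √L / A := by
      rw [le_div_iff₀ hA, le_div_iff₀ hsL]; linarith
    linarith
  have h11 : √(Real.log N) / √L / A / 2 ≤ S F N := by linarith
  rw [div_div, div_div, div_le_iff₀ (by positivity)] at h11
  linarith

theorem main :
    (∀ f : ℂ → ℂ, ClassC f → S f =O[atTop] fun N : ℕ => √(Real.log N)) ∧
    (∃ f : ℂ → ℂ, ClassC f ∧ (fun N : ℕ => √(Real.log N)) =O[atTop] S f) ∧
    (∃ f : ℂ → ℂ, ClassC f ∧ ¬ (S f =o[atTop] fun N : ℕ => √(Real.log N))) ∧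
    (∀ f : ℂ → ℂ, ClassC f → S f =o[atTop] fun N : ℕ => Real.log N) := by
  refine ⟨fun f hf => upper_O hf, ⟨F, F_classC, lower_O⟩, ⟨F, F_classC, ?_⟩, ?_⟩
  · intro h
    have h1 := lower_O.trans_isLittleO h
    have h3 := tendsto_sqrt_log.eventually_gt_atTop 0
    exact isLittleO_irrefl (h3.frequently.mono fun N hN => ne_of_gt hN) h1
  · intro f hf
    refine (upper_O hf).trans_isLittleO ?_
    have h1 : Tendsto (fun N : ℕ => Real.log N) atTop atTop :=
      Real.tendsto_log_atTop.comp tendsto_natCast_atTop_atTop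
    rw [isLittleO_iff]
    intro c hc
    filter_upwards [tendsto_sqrt_log.eventually_ge_atTop (1 / c), h1.eventually_ge_atTop 0]
      with N hN hN0
    rw [Real.norm_eq_abs, Real.norm_eq_abs, abs_of_nonneg (Real.sqrt_nonneg _), abs_of_nonneg hN0]
    have h2 : 1 ≤ c * √(Real.log N) := by
      rw [div_le_iff₀ hc] at hN; linarith
    have h3 := Real.mul_self_sqrt hN0
    nlinarith [Real.sqrt_nonneg (Real.log N)]

end H7Bpr
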