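import Pool.Agent.H7CinfDefs

set_option autoImplicit false

open scoped ContDiff Topology
open Set MeasureTheory

namespace Pool.Agent.H7Cinf

noncomputable section

abbrev I : Set ℝ := Set.Icc (0 : ℝ) 1

lemma ext_apply (f : Set.Icc (0 : ℝ) 1 → ℂ) (t : Set.Icc (0 : ℝ) 1) : ext f t = f t := by
  unfold ext
  exact Set.IccExtend_val _ _ t

lemma ext_of_mem (f : Set.Icc (0 : ℝ) 1 → ℂ) {t : ℝ} (ht : t ∈ I) : ext f t = f ⟨t, ht⟩ :=
  Set.IccExtend_of_mem _ _ ht

lemma deriv_zero (f : Cinf) {t : ℝ} (ht : t ∈ I) : deriv 0 f t = (f : I → ℂ) ⟨t, ht⟩ := by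
  unfold deriv
  rw [iteratedDerivWithin_zero]
  exact ext_of_mem _ ht

lemma hasDeriv (j : ℕ) (f : Cinf) {t : ℝ} (ht : t ∈ I) :
    HasDerivWithinAt (deriv j f) (deriv (j + 1) f t) I t := by
  have hd : DifferentiableOn ℝ (deriv j f) I :=
    ContDiffOn.differentiableOn_iteratedDerivWithin f.2
      (by exact_mod_cast WithTop.coe_lt_top _) uniqueDiffOn_Icc01
  have := (hd t ht).hasDerivWithinAt
  have e : deriv (j + 1) f t = derivWithin (deriv j f) I t := by
    unfold deriv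
    rw [iteratedDerivWithin_succ]
  rw [e]
  exact this

/-- criterion for membership in `C^∞([0,1])` -/
lemma iter_eq {G : ℕ → ℝ → ℂ} (hG : ∀ j, ∀ t ∈ I, HasDerivWithinAt (G j) (G (j + 1) t) I t)
    (j : ℕ) : ∀ t ∈ I, iteratedDerivWithin j (G 0) I t = G j t := by
  induction j with
  | zero => intro t _; rw [iteratedDerivWithin_zero]
  | succ j ih =>
    intro t ht
    rw [iteratedDerivWithin_succ]
    rw [derivWithin_congr ih (ih t ht)]
    exact (hG j t ht).derivWithin (uniqueDiffOn_Icc01 t ht)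

lemma contDiffOn_of_chain {G : ℕ → ℝ → ℂ}
    (hG : ∀ j, ∀ t ∈ I, HasDerivWithinAt (G j) (G (j + 1) t) I t) :
    ContDiffOn ℝ ∞ (G 0) I := by
  apply contDiffOn_of_differentiableOn_deriv
  intro m _ t ht
  have h1 : DifferentiableWithinAt ℝ (G m) I t := (hG m t ht).differentiableWithinAt
  exact h1.congr (iter_eq hG m) (iter_eq hG m t ht)

lemma exists_of_chain {G : ℕ → ℝ → ℂ}
    (hG : ∀ j, ∀ t ∈ I, HasDerivWithinAt (G j) (G (j + 1) t) I t) :
    ∃ g : Cinf, ∀ j, ∀ t ∈ I, deriv j g t = G j t := by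
  have hc : EqOn (ext (fun x : I => G 0 x)) (G 0) I := by
    intro t ht
    rw [ext_of_mem _ ht]
  refine ⟨⟨fun x => G 0 x, ?_⟩, ?_⟩
  · exact (contDiffOn_of_chain hG).congr hc
  · intro j t ht
    unfold deriv
    rw [← iter_eq hG j t ht]
    exact iteratedDerivWithin_congr hc ht

/-- the point `μ + s (t - μ)` -/
lemma mem_line {μ t s : ℝ} (hμ : μ ∈ I) (ht : t ∈ I) (hs : s ∈ I) : μ + s * (t - μ) ∈ I := by
  obtain ⟨h1, h2⟩ := hμ
  obtain ⟨h3, h4⟩ := ht
  obtain ⟨h5, h6⟩ := hs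
  constructor
  · nlinarith
  · nlinarith

def G (f : Cinf) (μ : ℝ) (j : ℕ) (t : ℝ) : ℂ :=
  ∫ s in (0 : ℝ)..1, (s : ℂ) ^ j * deriv (j + 1) f (μ + s * (t - μ))

lemma contOn_integrand (f : Cinf) {μ t : ℝ} (hμ : μ ∈ I) (ht : t ∈ I) (j k : ℕ) :
    ContinuousOn (fun s : ℝ => (s : ℂ) ^ j * deriv k f (μ + s * (t - μ))) I := by
  apply ContinuousOn.mul
  · fun_prop
  · refine (continuousOn_deriv k f).comp (by fun_prop) ?_
    intro s hs
    exact mem_line hμ ht hs

lemma intervalIntegrable_integrand (f : Cinf) {μ t : ℝ} (hμ : μ ∈ I) (ht : t ∈ I) (j k : ℕ) :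
    IntervalIntegrable (fun s : ℝ => (s : ℂ) ^ j * deriv k f (μ + s * (t - μ))) volume 0 1 := by
  apply ContinuousOn.intervalIntegrable
  rw [uIcc_of_le zero_le_one]
  exact contOn_integrand f hμ ht j k

/-- second order estimate -/
lemma taylor2 (f : Cinf) (j : ℕ) {M : ℝ} (hM : ∀ t ∈ I, ‖deriv (j + 2) f t‖ ≤ M) {a b : ℝ}
    (ha : a ∈ I) (hb : b ∈ I) :
    ‖deriv j f b - deriv j f a - ((b - a : ℝ) : ℂ) * deriv (j + 1) f a‖ ≤ M * |b - a| ^ 2 := by
  have hM0 : 0 ≤ M := (norm_nonneg _).trans (hM a ha)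
  have hsub : uIcc a b ⊆ I := (ordConnected_Icc).uIcc_subset ha hb
  -- first: derivative difference
  have h1 : ∀ c ∈ uIcc a b, ‖deriv (j + 1) f c - deriv (j + 1) f a‖ ≤ M * |b - a| := by
    intro c hc
    have := Convex.norm_image_sub_le_of_norm_hasDerivWithin_le (f := deriv (j + 1) f)
      (f' := deriv (j + 2) f) (s := I) (x := a) (y := c) (C := M)
      (fun x hx => hasDeriv (j + 1) f hx) hM (convex_Icc 0 1) ha (hsub hc)
    refine this.trans ?_
    apply mul_le_mul_of_nonneg_left _ hM0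
    rw [Real.norm_eq_abs]
    rw [mem_uIcc] at hc
    rcases hc with hc | hc
    · rw [abs_of_nonneg (by linarith [hc.1]), abs_of_nonneg (by linarith [hc.1, hc.2])]
      linarith [hc.2]
    · rw [abs_of_nonpos (by linarith [hc.2]), abs_of_nonpos (by linarith [hc.1, hc.2])]
      linarith [hc.1]
  have h2 := Convex.norm_image_sub_le_of_norm_hasDerivWithin_le
    (f := fun c : ℝ => deriv j f c - ((c - a : ℝ) : ℂ) * deriv (j + 1) f a)
    (f' := fun c : ℝ => deriv (j + 1) f c - deriv (j + 1) f a)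
    (s := uIcc a b) (x := a) (y := b) (C := M * |b - a|)
    (by
      intro c hc
      have e1 : HasDerivWithinAt (deriv j f) (deriv (j + 1) f c) (uIcc a b) c :=
        (hasDeriv j f (hsub hc)).mono hsub
      have e2 : HasDerivWithinAt (fun c : ℝ => ((c - a : ℝ) : ℂ)) (1 : ℂ) (uIcc a b) c := by
        have : HasDerivAt (fun c : ℝ => ((c - a : ℝ) : ℂ)) ((1 : ℝ) : ℂ) c :=
          ((hasDerivAt_id c).sub_const a).ofReal_comp
        simpa using this.hasDerivWithinAt
      have e3 := e2.mul_const (deriv (j + 1) f a)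
      rw [one_mul] at e3
      exact e1.sub e3)
    h1 (convex_uIcc a b) left_mem_uIcc right_mem_uIcc
  simp only [sub_self, Complex.ofReal_zero, zero_mul, sub_zero, Real.norm_eq_abs] at h2
  calc ‖deriv j f b - deriv j f a - ((b - a : ℝ) : ℂ) * deriv (j + 1) f a‖
      = ‖deriv j f b - ((b - a : ℝ) : ℂ) * deriv (j + 1) f a - deriv j f a‖ := by
        congr 1; ring
    _ ≤ M * |b - a| * |b - a| := h2
    _ = M * |b - a| ^ 2 := by ring

lemma exists_bound (f : Cinf) (j : ℕ) : ∃ M, ∀ t ∈ I, ‖deriv j f t‖ ≤ M :=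
  isCompact_Icc.exists_bound_of_continuousOn (continuousOn_deriv j f)

lemma G_hasDeriv (f : Cinf) {μ : ℝ} (hμ : μ ∈ I) (j : ℕ) {t : ℝ} (ht : t ∈ I) :
    HasDerivWithinAt (G f μ j) (G f μ (j + 1) t) I t := by
  obtain ⟨M, hM⟩ := exists_bound f (j + 3)
  have hM0 : 0 ≤ M := (norm_nonneg _).trans (hM t ht)
  rw [hasDerivWithinAt_iff_isLittleO]
  have key : ∀ t' ∈ I, ‖G f μ j t' - G f μ j t - (t' - t) • G f μ (j + 1) t‖ ≤
      M * |t' - t| ^ 2 := by
    intro t' ht'
    have e : G f μ j t' - G f μ j t - (t' - t) • G f μ (j + 1) t =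
        ∫ s in (0 : ℝ)..1, (s : ℂ) ^ j * (deriv (j + 1) f (μ + s * (t' - μ)) -
          deriv (j + 1) f (μ + s * (t - μ)) -
          (((μ + s * (t' - μ)) - (μ + s * (t - μ)) : ℝ) : ℂ) *
            deriv (j + 1 + 1) f (μ + s * (t - μ))) := by
      unfold G
      rw [← intervalIntegral.integral_sub (intervalIntegrable_integrand f hμ ht' j (j + 1))
        (intervalIntegrable_integrand f hμ ht j (j + 1)), ← intervalIntegral.integral_smul,
        ← intervalIntegral.integral_sub]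
      · apply intervalIntegral.integral_congr
        intro s _
        simp only [Complex.real_smul]
        push_cast
        ring
      · exact (intervalIntegrable_integrand f hμ ht' j (j + 1)).sub
          (intervalIntegrable_integrand f hμ ht j (j + 1))
      · exact (intervalIntegrable_integrand f hμ ht (j + 1) (j + 1 + 1)).smul _
    rw [e]
    have := intervalIntegral.norm_integral_le_of_norm_le_const (a := (0 : ℝ)) (b := 1)
      (C := M * |t' - t| ^ 2) (f := fun s : ℝ => (s : ℂ) ^ j *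
        (deriv (j + 1) f (μ + s * (t' - μ)) -
          deriv (j + 1) f (μ + s * (t - μ)) -
          (((μ + s * (t' - μ)) - (μ + s * (t - μ)) : ℝ) : ℂ) *
            deriv (j + 1 + 1) f (μ + s * (t - μ)))) (by
      intro s hs
      rw [uIoc_of_le zero_le_one] at hs
      have hs' : s ∈ I := ⟨hs.1.le, hs.2⟩
      rw [norm_mul, norm_pow, Complex.norm_of_nonneg hs'.1]
      have h1 := taylor2 f (j + 1) hM (mem_line hμ ht hs') (mem_line hμ ht' hs')
      have h2 : s ^ j ≤ 1 := pow_le_one₀ hs'.1 hs'.2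
      have h3 : |(μ + s * (t' - μ)) - (μ + s * (t - μ))| ≤ |t' - t| := by
        have : (μ + s * (t' - μ)) - (μ + s * (t - μ)) = s * (t' - t) := by ring
        rw [this, abs_mul, abs_of_nonneg hs'.1]
        calc s * |t' - t| ≤ 1 * |t' - t| := mul_le_mul_of_nonneg_right hs'.2 (abs_nonneg _)
          _ = |t' - t| := one_mul _
      calc s ^ j * _ ≤ 1 * (M * |(μ + s * (t' - μ)) - (μ + s * (t - μ))| ^ 2) :=
            mul_le_mul h2 h1 (norm_nonneg _) zero_le_one
        _ = M * |(μ + s * (t' - μ)) - (μ + s * (t - μ))| ^ 2 := one_mul _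
        _ ≤ M * |t' - t| ^ 2 := by
            apply mul_le_mul_of_nonneg_left _ hM0
            exact pow_le_pow_left₀ (abs_nonneg _) h3 2)
    simpa using this
  rw [Asymptotics.isLittleO_iff]
  intro c hc
  have hev : ∀ᶠ t' in 𝓝[I] t, M * |t' - t| ≤ c := by
    have hcont : Filter.Tendsto (fun t' : ℝ => M * |t' - t|) (𝓝[I] t) (𝓝 (M * |t - t|)) := by
      apply Filter.Tendsto.mono_left _ nhdsWithin_le_nhds
      apply Continuous.tendsto (f := fun t' : ℝ => M * |t' - t|)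
      fun_prop
    rw [sub_self, abs_zero, mul_zero] at hcont
    exact (hcont.eventually (ge_mem_nhds hc))
  filter_upwards [hev, self_mem_nhdsWithin] with t' h1 h2
  calc ‖G f μ j t' - G f μ j t - (t' - t) • G f μ (j + 1) t‖ ≤ M * |t' - t| ^ 2 := key t' h2
    _ = (M * |t' - t|) * |t' - t| := by ring
    _ ≤ c * |t' - t| := mul_le_mul_of_nonneg_right h1 (abs_nonneg _)
    _ = c * ‖t' - t‖ := by rw [Real.norm_eq_abs]

lemma G_zero (f : Cinf) {μ t : ℝ} (hμ : μ ∈ I) (ht : t ∈ I) :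
    ((t - μ : ℝ) : ℂ) * G f μ 0 t = deriv 0 f t - deriv 0 f μ := by
  unfold G
  have h := intervalIntegral.integral_eq_sub_of_hasDeriv_right (a := (0 : ℝ)) (b := 1)
    (f := fun s : ℝ => deriv 0 f (μ + s * (t - μ)))
    (f' := fun s : ℝ => ((t - μ : ℝ) : ℂ) * ((s : ℂ) ^ 0 * deriv (0 + 1) f (μ + s * (t - μ))))
    (by
      rw [uIcc_of_le zero_le_one]
      have := contOn_integrand f hμ ht 0 0
      simpa using this)
    (by
      intro s hs
      rw [min_eq_left zero_le_one, max_eq_right zero_le_one] at hs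
      have hs' : s ∈ I := ⟨hs.1.le, hs.2.le⟩
      have h1 : HasDerivWithinAt (deriv 0 f) (deriv (0 + 1) f (μ + s * (t - μ))) I
        (μ + s * (t - μ)) := hasDeriv 0 f (mem_line hμ ht hs')
      have h2 : HasDerivWithinAt (fun s : ℝ => μ + s * (t - μ)) (t - μ) I s := by
        have : HasDerivAt (fun s : ℝ => μ + s * (t - μ)) (t - μ) s := by
          have := ((hasDerivAt_id s).mul_const (t - μ)).const_add μ
          simpa using this
        exact this.hasDerivWithinAt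
      have h3 := h1.scomp s h2 (fun x hx => mem_line hμ ht hx)
      have h4 : HasDerivAt (fun s : ℝ => deriv 0 f (μ + s * (t - μ)))
          ((t - μ) • deriv (0 + 1) f (μ + s * (t - μ))) s :=
        h3.hasDerivAt (Icc_mem_nhds hs.1 hs.2)
      have h5 := h4.hasDerivWithinAt (s := Ioi s)
      rw [Complex.real_smul] at h5
      simpa using h5)
    ((intervalIntegrable_integrand f hμ ht 0 (0 + 1)).const_mul _)
  rw [intervalIntegral.integral_const_mul] at h
  rw [h]
  simp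

lemma G_bound (f : Cinf) {μ t : ℝ} (hμ : μ ∈ I) (ht : t ∈ I) (j : ℕ) {M : ℝ}
    (hM : ∀ t ∈ I, ‖deriv (j + 1) f t‖ ≤ M) : ‖G f μ j t‖ ≤ M := by
  unfold G
  have := intervalIntegral.norm_integral_le_of_norm_le_const (a := (0 : ℝ)) (b := 1)
      (C := M) (f := fun s : ℝ => (s : ℂ) ^ j * deriv (j + 1) f (μ + s * (t - μ))) (by
      intro s hs
      rw [uIoc_of_le zero_le_one] at hs
      have hs' : s ∈ I := ⟨hs.1.le, hs.2⟩
      rw [norm_mul, norm_pow, Complex.norm_of_nonneg hs'.1]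
      have h2 : s ^ j ≤ 1 := pow_le_one₀ hs'.1 hs'.2
      calc s ^ j * ‖deriv (j + 1) f (μ + s * (t - μ))‖ ≤ 1 * M :=
            mul_le_mul h2 (hM _ (mem_line hμ ht hs')) (norm_nonneg _) zero_le_one
        _ = M := one_mul _)
  simpa using this

/-! ### The coordinate functions and division -/

/-- the function `t ↦ t - z` -/
def X (z : ℂ) : Cinf :=
  ⟨fun t => ((t : ℝ) : ℂ) - z, by
    have hc : EqOn (ext (fun t : I => ((t : ℝ) : ℂ) - z)) (fun t : ℝ => (t : ℂ) - z) I := by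
      intro t ht
      rw [ext_of_mem _ ht]
    have h : ContDiff ℝ ∞ (fun t : ℝ => (t : ℂ) - z) :=
      Complex.ofRealCLM.contDiff.sub contDiff_const
    exact h.contDiffOn.congr hc⟩

lemma X_apply (z : ℂ) (t : I) : (X z : I → ℂ) t = (t : ℂ) - z := rfl

lemma le_supDeriv (j : ℕ) (f : Cinf) {t : ℝ} (ht : t ∈ I) : ‖deriv j f t‖ ≤ supDeriv j f :=
  le_ciSup (bddAbove_deriv j f) ⟨t, ht⟩

lemma supDeriv_le (j : ℕ) (f : Cinf) {M : ℝ} (h : ∀ t ∈ I, ‖deriv j f t‖ ≤ M) :
    supDeriv j f ≤ M := by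
  have : Nonempty (Set.Icc (0 : ℝ) 1) := ⟨⟨0, by simp⟩⟩
  exact ciSup_le (fun t => h t t.2)

/-- Hadamard's lemma with estimates -/
lemma hadamard (f : Cinf) (μ : I) : ∃ g : Cinf,
    f = (f : I → ℂ) μ • (1 : Cinf) + X (μ : ℝ) * g ∧ ∀ j, supDeriv j g ≤ supDeriv (j + 1) f := by
  obtain ⟨g, hg⟩ := exists_of_chain (G := G f μ) (fun j t ht => G_hasDeriv f μ.2 j ht)
  refine ⟨g, ?_, ?_⟩
  · apply Subtype.ext
    funext t
    have h1 := G_zero f μ.2 t.2
    rw [← hg 0 t t.2, deriv_zero g t.2, deriv_zero f t.2, deriv_zero f μ.2] at h1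
    change (f : I → ℂ) t = (f : I → ℂ) μ • (1 : ℂ) + (((t : ℝ) : ℂ) - ((μ : ℝ) : ℂ)) * (g : I → ℂ) t
    push_cast at h1
    rw [h1, smul_eq_mul, mul_one]
    ring
  · intro j
    apply supDeriv_le
    intro t ht
    rw [hg j t ht]
    exact G_bound f μ.2 ht j (fun t ht => le_supDeriv (j + 1) f ht)

lemma continuous_coe (f : Cinf) : Continuous (f : I → ℂ) := by
  have h : ContinuousOn (ext (f : I → ℂ)) I := f.2.continuousOn
  have h2 := continuousOn_iff_continuous_domRestrict.1 h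
  have : (f : I → ℂ) = I.domRestrict (ext (f : I → ℂ)) := by
    funext t
    rw [Set.domRestrict_apply, ext_apply]
  rw [this]; exact h2

/-- inverses -/
lemma exists_inv (f : Cinf) (h : ∀ t : I, (f : I → ℂ) t ≠ 0) : ∃ g : Cinf, f * g = 1 := by
  have hc : ContDiffOn ℝ ∞ (ext (f : I → ℂ))⁻¹ I := by
    apply ContDiffOn.inv f.2
    intro t ht
    rw [ext_of_mem _ ht]
    exact h _
  refine ⟨⟨fun t => ((f : I → ℂ) t)⁻¹, ?_⟩, ?_⟩
  · refine hc.congr ?_
    intro t ht
    rw [ext_of_mem _ ht, Pi.inv_apply, ext_of_mem _ ht]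
  · apply Subtype.ext
    funext t
    change (f : I → ℂ) t * ((f : I → ℂ) t)⁻¹ = 1
    exact mul_inv_cancel₀ (h t)

/-- complex conjugation -/
def conj (f : Cinf) : Cinf :=
  ⟨fun t => (starRingEnd ℂ) ((f : I → ℂ) t), by
    have h : ContDiffOn ℝ ∞ (fun t : ℝ => Complex.conjCLE (ext (f : I → ℂ) t)) I :=
      Complex.conjCLE.contDiff.comp_contDiffOn f.2
    exact h⟩

lemma conj_apply (f : Cinf) (t : I) : (conj f : I → ℂ) t = (starRingEnd ℂ) ((f : I → ℂ) t) := rfl

/-- `X μ` is a non-zero-divisor -/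
lemma X_cancel (μ : I) {f g : Cinf} (h : X (μ : ℝ) * f = X (μ : ℝ) * g) : f = g := by
  have hne : ∀ t : I, t ≠ μ → (f : I → ℂ) t = (g : I → ℂ) t := by
    intro t ht
    have h1 : (X (μ : ℝ) * f : Cinf) = X (μ : ℝ) * g := h
    have h2 := congrFun (congrArg Subtype.val h1) t
    change (((t : ℝ) : ℂ) - ((μ : ℝ) : ℂ)) * (f : I → ℂ) t =
      (((t : ℝ) : ℂ) - ((μ : ℝ) : ℂ)) * (g : I → ℂ) t at h2
    have h3 : ((t : ℝ) : ℂ) - ((μ : ℝ) : ℂ) ≠ 0 := by
      rw [sub_ne_zero]
      intro h4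
      exact ht (Subtype.ext (by exact_mod_cast h4))
    exact mul_left_cancel₀ h3 h2
  apply Subtype.ext
  have hcl : IsClosed {t : I | (f : I → ℂ) t = (g : I → ℂ) t} :=
    isClosed_eq (continuous_coe f) (continuous_coe g)
  have hdense : Dense {t : I | t ≠ μ} := by
    have : {t : I | t ≠ μ} = {μ}ᶜ := rfl
    rw [this]
    exact dense_compl_singleton μ
  have huniv : {t : I | (f : I → ℂ) t = (g : I → ℂ) t} = univ := by
    apply eq_univ_of_univ_subset
    rw [← hdense.closure_eq]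
    exact closure_minimal (fun t ht => hne t ht) hcl
  funext t
  have : t ∈ {t : I | (f : I → ℂ) t = (g : I → ℂ) t} := by rw [huniv]; trivial
  exact this

end

end Pool.Agent.H7Cinf
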