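import Pool.Agent.H7Cinf

set_option autoImplicit false

open scoped ContDiff Topology
open Set

namespace Pool.Agent.H7Cinf

noncomputable section

variable {B : Type*} [NonUnitalNormedRing B] [NormedSpace ℂ B] [IsScalarTower ℂ B B]
  [SMulCommClass ℂ B B] [CompleteSpace B]

/-- open mapping -/
lemma open_map (θ : Cinf →ₙₐ[ℂ] B) (hθ : Function.Surjective θ) (μ : I) :
    ∃ C > 0, ∀ b : B, ∃ (c : ℂ) (b' : B), b = c • θ 1 + θ (X (μ : ℝ)) * b' ∧
      ‖c‖ ≤ C * ‖b‖ ∧ ‖b'‖ ≤ C * ‖b‖ := by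
  let F : (ℂ × B) →L[ℂ] B :=
    (ContinuousLinearMap.fst ℂ ℂ B).smulRight (θ 1) +
      (ContinuousLinearMap.mul ℂ B (θ (X (μ : ℝ)))).comp (ContinuousLinearMap.snd ℂ ℂ B)
  have hF : ∀ c b', F (c, b') = c • θ 1 + θ (X (μ : ℝ)) * b' := by
    intro c b'
    simp [F]
  have hsurj : Function.Surjective F := by
    intro b
    obtain ⟨f, rfl⟩ := hθ b
    obtain ⟨g, hg, _⟩ := hadamard f μ
    refine ⟨((f : I → ℂ) μ, θ g), ?_⟩
    rw [hF]
    conv_rhs => rw [hg]
    rw [map_add, map_smul, map_mul]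
  obtain ⟨C, hC, h⟩ := F.exists_preimage_norm_le hsurj
  refine ⟨C, hC, fun b => ?_⟩
  obtain ⟨⟨c, b'⟩, h1, h2⟩ := h b
  refine ⟨c, b', ?_, ?_, ?_⟩
  · rw [← hF]; exact h1.symm
  · exact (le_max_left _ _).trans h2
  · exact (le_max_right _ _).trans h2

/-- `f` vanishes to infinite order at `μ` -/
def Flat (μ : I) (f : Cinf) : Prop := ∀ N : ℕ, ∃ u : Cinf, f = X (μ : ℝ) ^ N * u

lemma flat_zero (μ : I) : Flat μ 0 := fun N => ⟨0, by rw [mul_zero]⟩

lemma Flat.sub {μ : I} {f g : Cinf} (hf : Flat μ f) (hg : Flat μ g) : Flat μ (f - g) := by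
  intro N
  obtain ⟨u, hu⟩ := hf N
  obtain ⟨v, hv⟩ := hg N
  exact ⟨u - v, by rw [hu, hv, mul_sub]⟩

lemma Flat.eval {μ : I} {f : Cinf} (hf : Flat μ f) : (f : I → ℂ) μ = 0 := by
  obtain ⟨u, hu⟩ := hf 1
  rw [hu, pow_one]
  change (((μ : ℝ) : ℂ) - ((μ : ℝ) : ℂ)) * (u : I → ℂ) μ = 0
  rw [sub_self, zero_mul]

lemma Flat.of_mul {μ : I} {f : Cinf} (hf : Flat μ (X (μ : ℝ) * f)) : Flat μ f := by
  intro N
  obtain ⟨u, hu⟩ := hf (N + 1)
  refine ⟨u, ?_⟩
  apply X_cancel μ
  rw [hu, pow_succ]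
  ring

lemma coe_add (f g : Cinf) (t : I) : ((f + g : Cinf) : I → ℂ) t = (f : I → ℂ) t + (g : I → ℂ) t :=
  rfl
lemma coe_sub (f g : Cinf) (t : I) : ((f - g : Cinf) : I → ℂ) t = (f : I → ℂ) t - (g : I → ℂ) t :=
  rfl
lemma coe_mul (f g : Cinf) (t : I) : ((f * g : Cinf) : I → ℂ) t = (f : I → ℂ) t * (g : I → ℂ) t :=
  rfl
lemma coe_smul (c : ℂ) (g : Cinf) (t : I) : ((c • g : Cinf) : I → ℂ) t = c * (g : I → ℂ) t :=
  rfl
lemma coe_one (t : I) : ((1 : Cinf) : I → ℂ) t = 1 := rfl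

/-- the kernel contains a function which is not flat at `μ` -/
lemma exists_nonflat (θ : Cinf →ₙₐ[ℂ] B) (hθ : Function.Surjective θ) (μ : I) :
    ∃ h : Cinf, θ h = 0 ∧ ¬ Flat μ h := by
  by_contra hcon
  push Not at hcon
  obtain ⟨C, hC, hop⟩ := open_map θ hθ μ
  set ε : ℝ := 1 / (2 * C) with hε
  have hε0 : 0 < ε := by positivity
  set w : ℂ := Complex.I * ε with hw
  have hw0 : w ≠ 0 := mul_ne_zero Complex.I_ne_zero (by exact_mod_cast hε0.ne')
  have hwn : ‖w‖ = ε := by
    rw [hw, norm_mul, Complex.norm_I, one_mul, Complex.norm_of_nonneg hε0.le]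
  -- f = 1 / (t - μ - w)
  obtain ⟨f, hf⟩ := exists_inv (X ((μ : ℝ) + w)) (by
    intro t
    rw [X_apply]
    intro h
    have him := congrArg Complex.im h
    rw [hw] at him
    simp at him
    exact hε0.ne' him)
  have hf' : X (μ : ℝ) * f = 1 + w • f := by
    have e : X (μ : ℝ) = X ((μ : ℝ) + w) + w • (1 : Cinf) := by
      apply Subtype.ext
      funext t
      change ((t : ℝ) : ℂ) - ((μ : ℝ) : ℂ) = (((t : ℝ) : ℂ) - (((μ : ℝ) : ℂ) + w)) + w * 1
      ring
    rw [e, add_mul, hf, smul_mul_assoc, one_mul]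
  -- choose functions
  choose cc bb hcb hcc hbb using hop
  -- sequence in B
  let β : ℕ → B := fun n => Nat.rec (θ f) (fun _ b => bb b) n
  have hβ0 : β 0 = θ f := rfl
  have hβs : ∀ n, β (n + 1) = bb (β n) := fun n => rfl
  have hβn : ∀ n, ‖β n‖ ≤ C ^ n * ‖θ f‖ := by
    intro n
    induction n with
    | zero => rw [hβ0, pow_zero, one_mul]
    | succ n ih =>
      rw [hβs]
      calc ‖bb (β n)‖ ≤ C * ‖β n‖ := hbb _
        _ ≤ C * (C ^ n * ‖θ f‖) := mul_le_mul_of_nonneg_left ih hC.le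
        _ = C ^ (n + 1) * ‖θ f‖ := by ring
  -- lifts
  have hlift : ∀ b : B, ∃ g : Cinf, θ g = b := hθ
  choose lf hlf using hlift
  let g : ℕ → Cinf := fun n => if n = 0 then f else lf (β n)
  have hg0 : g 0 = f := if_pos rfl
  have hg : ∀ n, θ (g n) = β n := by
    intro n
    by_cases hn : n = 0
    · subst hn; rw [hg0, hβ0]
    · simp only [g, if_neg hn]; exact hlf _
  -- f_n = w^{-n} f
  have hclaim : ∀ n, Flat μ (g n - (w⁻¹ ^ n) • f) ∧ (n = 0 ∨ True) := by
    intro n
    refine ⟨?_, Or.inr trivial⟩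
    induction n with
    | zero =>
      rw [hg0, pow_zero, one_smul, sub_self]
      exact flat_zero μ
    | succ n ih =>
      -- relation in the kernel
      have hker : θ (g n - cc (β n) • (1 : Cinf) - X (μ : ℝ) * g (n + 1)) = 0 := by
        rw [map_sub, map_sub, map_smul, map_mul, hg, hg, hβs]
        conv_lhs => rw [hcb (β n)]
        have := hcb (β n)
        rw [← this]
        rw [sub_sub, sub_eq_zero]
        exact this
      have hfl := hcon _ hker
      have h2 := ih.sub hfl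
      have e : g n - (w⁻¹ ^ n) • f - (g n - cc (β n) • (1 : Cinf) - X (μ : ℝ) * g (n + 1)) =
          (cc (β n) + w⁻¹ ^ (n + 1)) • (1 : Cinf) +
            X (μ : ℝ) * (g (n + 1) - (w⁻¹ ^ (n + 1)) • f) := by
        rw [mul_sub, mul_smul_comm, hf', smul_add, add_smul]
        rw [smul_smul]
        have e2 : w⁻¹ ^ (n + 1) * w = w⁻¹ ^ n := by
          rw [pow_succ, mul_assoc, inv_mul_cancel₀ hw0, mul_one]
        rw [e2]
        abel
      rw [e] at h2
      have h3 := h2.eval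
      rw [coe_add, coe_smul, coe_one, coe_mul, X_apply, sub_self, zero_mul, add_zero, mul_one]
        at h3
      rw [h3, zero_smul, zero_add] at h2
      exact h2.of_mul
  -- coefficients
  have hcoef : ∀ n, cc (β n) = - w⁻¹ ^ (n + 1) := by
    intro n
    have ih := (hclaim n).1
    have hker : θ (g n - cc (β n) • (1 : Cinf) - X (μ : ℝ) * g (n + 1)) = 0 := by
      rw [map_sub, map_sub, map_smul, map_mul, hg, hg, hβs]
      rw [sub_sub, sub_eq_zero]
      exact hcb (β n)
    have hfl := hcon _ hker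
    have h2 := (ih.sub hfl).eval
    rw [coe_sub, coe_sub, coe_sub, coe_sub, coe_smul, coe_smul, coe_one, coe_mul, X_apply,
      sub_self, zero_mul, mul_one, sub_zero] at h2
    have hfμ : (f : I → ℂ) μ = - w⁻¹ := by
      have := congrFun (congrArg Subtype.val hf') μ
      change (((μ : ℝ) : ℂ) - ((μ : ℝ) : ℂ)) * (f : I → ℂ) μ = 1 + w * (f : I → ℂ) μ at this
      rw [sub_self, zero_mul] at this
      field_simp
      linear_combination -this
    rw [hfμ] at h2
    rw [pow_succ]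
    linear_combination h2
  have hfinal : ∀ n : ℕ, (2 : ℝ) ^ (n + 1) ≤ ‖θ f‖ := by
    intro n
    have h1 : ‖cc (β n)‖ ≤ C * (C ^ n * ‖θ f‖) :=
      (hcc _).trans (mul_le_mul_of_nonneg_left (hβn n) hC.le)
    rw [hcoef n, norm_neg, norm_pow, norm_inv, hwn, hε] at h1
    have h2 : (1 / (2 * C))⁻¹ = 2 * C := by rw [one_div, inv_inv]
    rw [h2, mul_pow] at h1
    have h3 : C * (C ^ n * ‖θ f‖) = C ^ (n + 1) * ‖θ f‖ := by ring
    rw [h3, mul_comm] at h1
    exact le_of_mul_le_mul_left h1 (by positivity)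
  obtain ⟨n, hn⟩ := pow_unbounded_of_one_lt ‖θ f‖ (one_lt_two : (1 : ℝ) < 2)
  have h1 := hfinal n
  have h2 : (2 : ℝ) ^ n ≤ 2 ^ (n + 1) := pow_le_pow_right₀ one_le_two (Nat.le_succ n)
  linarith

/-- a kernel element of finite order -/
lemma exists_order (θ : Cinf →ₙₐ[ℂ] B) (hθ : Function.Surjective θ) (μ : I) :
    ∃ (N : ℕ) (u : Cinf), θ (X (μ : ℝ) ^ N * u) = 0 ∧ (u : I → ℂ) μ ≠ 0 := by
  classical
  obtain ⟨h, hh, hflat⟩ := exists_nonflat θ hθ μ
  unfold Flat at hflat
  push Not at hflat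
  have hN := Nat.find_spec hflat
  set N := Nat.find hflat with hNdef
  have hN0 : N ≠ 0 := by
    intro h0
    rw [h0] at hN
    exact hN h (by rw [pow_zero, one_mul])
  obtain ⟨M, hM⟩ : ∃ M, N = M + 1 := ⟨N - 1, by omega⟩
  have hmin := Nat.find_min hflat (m := M) (by rw [← hNdef]; omega)
  push Not at hmin
  obtain ⟨u, hu⟩ := hmin
  refine ⟨M, u, by rw [← hu]; exact hh, ?_⟩
  intro h0
  obtain ⟨g, hg, _⟩ := hadamard u μ
  rw [h0, zero_smul, zero_add] at hg
  rw [hM] at hN
  apply hN g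
  rw [hu]
  conv_lhs => rw [hg]
  rw [pow_succ]; ring

/-- the kernel contains a polynomial -/
lemma exists_poly (θ : Cinf →ₙₐ[ℂ] B) (hθ : Function.Surjective θ) :
    ∃ L : List I, θ ((L.map (fun μ : I => X (μ : ℝ))).prod) = 0 := by
  classical
  choose N u h1 h2 using exists_order θ hθ
  have hopen : ∀ μ : I, IsOpen {t : I | (u μ : I → ℂ) t ≠ 0} := fun μ =>
    isOpen_ne_fun (continuous_coe (u μ)) continuous_const
  obtain ⟨T, hT⟩ := isCompact_univ.elim_finite_subcover (fun μ : I => {t : I | (u μ : I → ℂ) t ≠ 0})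
    hopen (fun t _ => mem_iUnion.2 ⟨t, h2 t⟩)
  -- U = ∑ u conj u
  set U : Cinf := ∑ μ ∈ T, u μ * conj (u μ) with hU
  have hUt : ∀ t : I, (U : I → ℂ) t ≠ 0 := by
    intro t
    have e1 : (U : I → ℂ) t = ((∑ μ ∈ T, Complex.normSq ((u μ : I → ℂ) t) : ℝ) : ℂ) := by
      rw [hU]
      have : ∀ S : Finset I, ((∑ μ ∈ S, u μ * conj (u μ) : Cinf) : I → ℂ) t =
          ((∑ μ ∈ S, Complex.normSq ((u μ : I → ℂ) t) : ℝ) : ℂ) := by
        intro S
        induction S using Finset.induction_on with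
        | empty => simp
        | insert a S ha ih =>
          rw [Finset.sum_insert ha, Finset.sum_insert ha, coe_add, ih, coe_mul, conj_apply,
            Complex.mul_conj]
          push_cast
          rfl
      exact this T
    rw [e1]
    have hpos : 0 < ∑ μ ∈ T, Complex.normSq ((u μ : I → ℂ) t) := by
      obtain ⟨μ, hμ⟩ := mem_iUnion.1 (hT (mem_univ t))
      obtain ⟨hμT, hμt⟩ := mem_iUnion.1 hμ
      apply Finset.sum_pos'
      · intro i _; exact Complex.normSq_nonneg _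
      · exact ⟨μ, hμT, Complex.normSq_pos.2 hμt⟩
    exact_mod_cast hpos.ne'
  obtain ⟨V, hV⟩ := exists_inv U hUt
  refine ⟨T.toList.flatMap (fun μ => List.replicate (N μ) μ), ?_⟩
  have hprod : ∀ l : List I, ((l.flatMap (fun μ => List.replicate (N μ) μ)).map
      (fun μ : I => X (μ : ℝ))).prod = (l.map (fun μ : I => X (μ : ℝ) ^ N μ)).prod := by
    intro l
    induction l with
    | nil => simp
    | cons a l ih =>
      rw [List.flatMap_cons, List.map_append, List.prod_append, ih, List.map_cons, List.prod_cons,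
        List.map_replicate, List.prod_replicate]
  rw [hprod, Finset.prod_map_toList]
  set P : Cinf := ∏ μ ∈ T, X (μ : ℝ) ^ N μ with hP
  have hPe : P = ∑ μ ∈ T, (X (μ : ℝ) ^ N μ * u μ) *
      ((∏ ν ∈ T.erase μ, X (ν : ℝ) ^ N ν) * conj (u μ) * V) := by
    have : P = P * (U * V) := by rw [hV, mul_one]
    rw [this, hU, Finset.sum_mul, Finset.mul_sum]
    apply Finset.sum_congr rfl
    intro μ hμ
    rw [hP, ← Finset.mul_prod_erase T _ hμ]
    ring
  rw [hPe, map_sum]
  apply Finset.sum_eq_zero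
  intro μ _
  rw [map_mul, h1, zero_mul]

/-- Newton interpolation -/
lemma newton (θ : Cinf →ₙₐ[ℂ] B) (L : List I) : ∃ (C : ℝ) (S : Finset Cinf), 0 ≤ C ∧
    ∀ f : Cinf, ∃ r g : Cinf, r ∈ Submodule.span ℂ (S : Set Cinf) ∧
      f = r + (L.map (fun μ : I => X (μ : ℝ))).prod * g ∧
      ‖θ r‖ ≤ C * ∑ j ∈ Finset.range (L.length + 1), supDeriv j f ∧
      ∀ j, supDeriv j g ≤ supDeriv (j + L.length) f := by
  classical
  induction L with
  | nil =>
    refine ⟨0, ∅, le_refl _, fun f => ⟨0, f, Submodule.zero_mem _, ?_, ?_, ?_⟩⟩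
    · simp
    · simp
    · intro j; simp
  | cons μ L ih =>
    obtain ⟨C, S, hC, h⟩ := ih
    set P : Cinf := (L.map (fun μ : I => X (μ : ℝ))).prod with hP
    refine ⟨C + ‖θ P‖, insert P S, by positivity, fun f => ?_⟩
    obtain ⟨r, g, hr, hf, hθr, hg⟩ := h f
    obtain ⟨g', hg', hgs⟩ := hadamard g μ
    refine ⟨r + (g : I → ℂ) μ • P, g', ?_, ?_, ?_, ?_⟩
    · apply Submodule.add_mem
      · exact Submodule.span_mono (by simp) hr
      · apply Submodule.smul_mem
        exact Submodule.subset_span (by simp)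
    · rw [List.map_cons, List.prod_cons, ← hP]
      conv_lhs => rw [hf, hg']
      rw [mul_add, mul_smul_comm, mul_one]
      ring
    · have hle : ∑ j ∈ Finset.range (L.length + 1), supDeriv j f ≤
          ∑ j ∈ Finset.range ((μ :: L).length + 1), supDeriv j f := by
        apply Finset.sum_le_sum_of_subset_of_nonneg
        · intro x hx
          rw [Finset.mem_range] at *
          rw [List.length_cons]; omega
        · intro i _ _
          exact apply_nonneg _ _
      have hgμ : ‖(g : I → ℂ) μ‖ ≤ ∑ j ∈ Finset.range ((μ :: L).length + 1), supDeriv j f := by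
        have e1 : ‖(g : I → ℂ) μ‖ ≤ supDeriv 0 g := by
          have := le_supDeriv 0 g μ.2
          rwa [deriv_zero g μ.2] at this
        have e2 := hg 0
        rw [zero_add] at e2
        refine (e1.trans e2).trans ?_
        apply Finset.single_le_sum (f := fun j => supDeriv j f)
        · intro i _; exact apply_nonneg _ _
        · rw [Finset.mem_range, List.length_cons]; omega
      rw [map_add, map_smul]
      calc ‖θ r + (g : I → ℂ) μ • θ P‖ ≤ ‖θ r‖ + ‖(g : I → ℂ) μ • θ P‖ := norm_add_le _ _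
        _ ≤ C * ∑ j ∈ Finset.range ((μ :: L).length + 1), supDeriv j f +
            (∑ j ∈ Finset.range ((μ :: L).length + 1), supDeriv j f) * ‖θ P‖ := by
            rw [norm_smul]
            apply add_le_add
            · exact hθr.trans (mul_le_mul_of_nonneg_left hle hC)
            · exact mul_le_mul_of_nonneg_right hgμ (norm_nonneg _)
        _ = (C + ‖θ P‖) * ∑ j ∈ Finset.range ((μ :: L).length + 1), supDeriv j f := by ring
    · intro j
      calc supDeriv j g' ≤ supDeriv (j + 1) g := hgs j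
        _ ≤ supDeriv (j + 1 + L.length) f := hg (j + 1)
        _ = supDeriv (j + (μ :: L).length) f := by
            congr 2
            rw [List.length_cons]; omega

theorem main (θ : Cinf →ₙₐ[ℂ] B) (hθ : Function.Surjective θ) :
    @Continuous Cinf B frechet' _ θ ∧ FiniteDimensional ℂ B := by
  classical
  obtain ⟨L, hL⟩ := exists_poly θ hθ
  obtain ⟨C, S, hC, h⟩ := newton θ L
  constructor
  · let _ : TopologicalSpace Cinf := frechet'
    have hw : WithSeminorms (𝕜 := ℂ) (E := Cinf) (ι := ℕ) supDeriv := ⟨rfl⟩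
    apply hw.continuous_normedSpace_rng (f := (θ : Cinf →ₗ[ℂ] B))
    refine ⟨Finset.range (L.length + 1), ⟨C * (L.length + 1), by positivity⟩, ?_⟩
    intro f
    obtain ⟨r, g, _, hf, hθr, _⟩ := h f
    have hfr : θ f = θ r := by
      conv_lhs => rw [hf]
      rw [map_add, map_mul, hL, zero_mul, add_zero]
    change ‖θ f‖ ≤ (C * (L.length + 1)) * ((Finset.range (L.length + 1)).sup supDeriv) f
    rw [hfr]
    refine hθr.trans ?_
    rw [mul_assoc]
    apply mul_le_mul_of_nonneg_left _ hC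
    have hsum : ∑ j ∈ Finset.range (L.length + 1), supDeriv j f ≤
        ∑ _j ∈ Finset.range (L.length + 1), ((Finset.range (L.length + 1)).sup supDeriv) f := by
      apply Finset.sum_le_sum
      intro j hj
      exact Seminorm.le_finset_sup_apply hj
    refine hsum.trans ?_
    rw [Finset.sum_const, Finset.card_range, nsmul_eq_mul]
    push_cast
    exact le_refl _
  · have htop : Submodule.span ℂ ((S.image θ : Finset B) : Set B) = ⊤ := by
      rw [eq_top_iff]
      rintro b -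
      obtain ⟨f, rfl⟩ := hθ b
      obtain ⟨r, g, hr, hf, _, _⟩ := h f
      have hfr : θ f = θ r := by
        conv_lhs => rw [hf]
        rw [map_add, map_mul, hL, zero_mul, add_zero]
      rw [hfr, Finset.coe_image]
      have := Submodule.mem_map_of_mem (f := (θ : Cinf →ₗ[ℂ] B)) hr
      rw [Submodule.map_span] at this
      exact this
    exact ⟨⟨S.image θ, htop⟩⟩

end

end Pool.Agent.H7Cinf

namespace Pool.Agent.H7Cinf

theorem bound {B : Type*} [NonUnitalNormedRing B] [NormedSpace ℂ B] [IsScalarTower ℂ B B]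
    [SMulCommClass ℂ B B] [CompleteSpace B] (θ : Cinf →ₙₐ[ℂ] B) (hθ : Function.Surjective θ) :
    ∃ (K : ℕ) (C : ℝ), 0 ≤ C ∧ ∀ f : Cinf, ‖θ f‖ ≤ C * ∑ j ∈ Finset.range K, supDeriv j f := by
  obtain ⟨L, hL⟩ := exists_poly θ hθ
  obtain ⟨C, S, hC, h⟩ := newton θ L
  refine ⟨L.length + 1, C, hC, fun f => ?_⟩
  obtain ⟨r, g, _, hf, hθr, _⟩ := h f
  have hfr : θ f = θ r := by
    conv_lhs => rw [hf]
    rw [map_add, map_mul, hL, zero_mul, add_zero]
  rw [hfr]; exact hθr

theorem main' {B : Type*} [NonUnitalNormedRing B] [NormedSpace ℂ B] [IsScalarTower ℂ B B]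
    [SMulCommClass ℂ B B] [CompleteSpace B] (θ : (J → ℂ) → B) (hom : IsHom θ)
    (surj : ∀ b : B, ∃ f, IsSmooth f ∧ θ f = b) :
    FrechetContinuous θ ∧ FiniteDimensional ℂ B := by
  let Θ : Cinf →ₙₐ[ℂ] B :=
    { toFun := fun f => θ (f : J → ℂ)
      map_smul' := fun c f => hom.smul c f f.2
      map_zero' := by
        have := hom.smul 0 (0 : Cinf) (0 : Cinf).2
        rw [zero_smul, zero_smul] at this
        exact this
      map_add' := fun f g => hom.add f g f.2 g.2
      map_mul' := fun f g => hom.mul f g f.2 g.2 }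
  have hΘ : Function.Surjective Θ := by
    intro b
    obtain ⟨f, hf, hb⟩ := surj b
    exact ⟨⟨f, hf⟩, hb⟩
  refine ⟨?_, (main Θ hΘ).2⟩
  obtain ⟨K, C, hC, hb⟩ := bound Θ hΘ
  intro f hf ε hε
  refine ⟨K, ε / (C * K + 1), by positivity, ?_⟩
  intro g hg hj
  have e1 : θ g - θ f = Θ (⟨g, hg⟩ - ⟨f, hf⟩) := by
    rw [map_sub]; rfl
  rw [e1]
  have e2 : ∀ j ∈ Finset.range K,
      supDeriv j ((⟨g, hg⟩ : Cinf) - ⟨f, hf⟩) ≤ ε / (C * K + 1) := by
    intro j hjK
    apply supDeriv_le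
    intro t ht
    exact (hj j (Finset.mem_range.1 hjK).le ⟨t, ht⟩).le
  have hpos : 0 < C * K + 1 := by positivity
  calc ‖Θ (⟨g, hg⟩ - ⟨f, hf⟩)‖
      ≤ C * ∑ j ∈ Finset.range K, supDeriv j ((⟨g, hg⟩ : Cinf) - ⟨f, hf⟩) := hb _
    _ ≤ C * ∑ _j ∈ Finset.range K, ε / (C * K + 1) :=
        mul_le_mul_of_nonneg_left (Finset.sum_le_sum e2) hC
    _ = (C * K) * (ε / (C * K + 1)) := by
        rw [Finset.sum_const, Finset.card_range, nsmul_eq_mul]; ring
    _ < (C * K + 1) * (ε / (C * K + 1)) := by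
        apply mul_lt_mul_of_pos_right _ (by positivity)
        linarith
    _ = ε := by field_simp

end Pool.Agent.H7Cinf
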