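import Pool.Agent.H7CinfStmt

set_option autoImplicit false

open scoped ContDiff

namespace Pool.Agent.H7Cinf

lemma smooth_mul {f g : J → ℂ} (hf : IsSmooth f) (hg : IsSmooth g) : IsSmooth (f * g) :=
  ContDiffOn.mul hf hg

lemma smooth_add {f g : J → ℂ} (hf : IsSmooth f) (hg : IsSmooth g) : IsSmooth (f + g) :=
  ContDiffOn.add hf hg

lemma smooth_const (c : ℂ) : IsSmooth (algebraMap ℂ (J → ℂ) c) := contDiffOn_const

/-- The algebra `C^∞([0,1])` with pointwise operations, as a subalgebra of all functions. -/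
def Cinf : Subalgebra ℂ (J → ℂ) where
  carrier := {f | IsSmooth f}
  mul_mem' := smooth_mul
  add_mem' := smooth_add
  algebraMap_mem' := smooth_const

/-- `sup_{t ∈ [0,1]} |f^{(j)}(t)|` -/
noncomputable def supFun (j : ℕ) (f : Cinf) : ℝ :=
  ⨆ t : J, ‖iteratedDerivWithin j (ext f) (Set.Icc 0 1) t‖

lemma uniqueDiffOn_Icc01 : UniqueDiffOn ℝ (Set.Icc (0 : ℝ) 1) := uniqueDiffOn_Icc zero_lt_one

lemma bddAbove_fn (j : ℕ) (f : Cinf) :
    BddAbove (Set.range fun t : J => ‖iteratedDerivWithin j (ext f) (Set.Icc 0 1) t‖) := by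
  have h : IsSmooth f := f.2
  obtain ⟨C, hC⟩ := isCompact_Icc.exists_bound_of_continuousOn
    (ContDiffOn.continuousOn_iteratedDerivWithin h (m := j) (by exact_mod_cast le_top)
      uniqueDiffOn_Icc01)
  refine ⟨C, ?_⟩
  rintro _ ⟨t, rfl⟩
  exact hC t t.2

lemma supFun_add (j : ℕ) (f g : Cinf) : supFun j (f + g) ≤ supFun j f + supFun j g := by
  have : Nonempty J := ⟨⟨0, by simp⟩⟩
  have hf : IsSmooth f := f.2
  have hg : IsSmooth g := g.2
  apply ciSup_le
  intro t
  have e : iteratedDerivWithin j (ext ((f + g : Cinf) : J → ℂ)) (Set.Icc 0 1) t =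
      iteratedDerivWithin j (ext f) (Set.Icc 0 1) t +
      iteratedDerivWithin j (ext g) (Set.Icc 0 1) t :=
    iteratedDerivWithin_add t.2 uniqueDiffOn_Icc01
      ((hf t t.2).of_le (by exact_mod_cast le_top)) ((hg t t.2).of_le (by exact_mod_cast le_top))
  rw [e]
  exact (norm_add_le _ _).trans
    (add_le_add (le_ciSup (bddAbove_fn j f) t) (le_ciSup (bddAbove_fn j g) t))

lemma supFun_smul (j : ℕ) (c : ℂ) (f : Cinf) : supFun j (c • f) = ‖c‖ * supFun j f := by
  have hf : IsSmooth f := f.2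
  unfold supFun
  have : Nonempty J := ⟨⟨0, by simp⟩⟩
  rw [Real.mul_iSup_of_nonneg (norm_nonneg c)]
  congr 1
  funext t
  have e : iteratedDerivWithin j (ext ((c • f : Cinf) : J → ℂ)) (Set.Icc 0 1) t =
      c • iteratedDerivWithin j (ext f) (Set.Icc 0 1) t :=
    iteratedDerivWithin_const_smul t.2 uniqueDiffOn_Icc01 c
      ((hf t t.2).of_le (by exact_mod_cast le_top))
  rw [e, norm_smul]

/-- The seminorm `f ↦ sup_{t ∈ [0,1]} |f^{(j)}(t)|` on `C^∞([0,1])`. -/
noncomputable def supNorm (j : ℕ) : Seminorm ℂ Cinf :=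
  Seminorm.of (supFun j) (supFun_add j) (supFun_smul j)

/-- The Fréchet topology of `C^∞([0,1])`: the locally convex topology given by the seminorms
`f ↦ sup |f^{(j)}|`, `j ≥ 0`. -/
noncomputable abbrev frechet : TopologicalSpace Cinf :=
  (SeminormFamily.moduleFilterBasis supNorm).topology


/-- The `j`-th derivative of `f ∈ C^∞([0,1])` at a point `t` of `[0,1]` (one-sided at the
endpoints). -/
noncomputable def deriv (j : ℕ) (f : Cinf) (t : ℝ) : ℂ :=
  iteratedDerivWithin j (ext (f : Set.Icc (0 : ℝ) 1 → ℂ)) (Set.Icc 0 1) t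

lemma continuousOn_deriv (j : ℕ) (f : Cinf) : ContinuousOn (deriv j f) (Set.Icc 0 1) :=
  ContDiffOn.continuousOn_iteratedDerivWithin f.2 (by exact_mod_cast le_top) uniqueDiffOn_Icc01

lemma bddAbove_deriv (j : ℕ) (f : Cinf) :
    BddAbove (Set.range fun t : Set.Icc (0 : ℝ) 1 => ‖deriv j f t‖) := bddAbove_fn j f

noncomputable def supDeriv (j : ℕ) : Seminorm ℂ Cinf := supNorm j

lemma supDeriv_apply (j : ℕ) (f : Cinf) :
    supDeriv j f = ⨆ t : Set.Icc (0 : ℝ) 1, ‖deriv j f t‖ := rfl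

noncomputable abbrev frechet' : TopologicalSpace Cinf :=
  (SeminormFamily.moduleFilterBasis (𝕜 := ℂ) (F := Cinf) (ι := ℕ) supDeriv).topology

end Pool.Agent.H7Cinf
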