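import Mathlib

set_option autoImplicit false

open scoped ContDiff

namespace Pool.Agent.H7Cinf

/-- The interval `[0,1]`. -/
abbrev J : Type := Set.Icc (0 : ℝ) 1

/-- Extension of a function on `[0,1]` to `ℝ`, constant outside `[0,1]`. Only its values on
`[0,1]` matter below. -/
noncomputable def ext (f : J → ℂ) : ℝ → ℂ := Set.IccExtend zero_le_one f

/-- `f : [0,1] → ℂ` has derivatives of all orders on `[0,1]` (one-sided at the endpoints). -/
def IsSmooth (f : J → ℂ) : Prop := ContDiffOn ℝ ∞ (ext f) (Set.Icc 0 1)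

/-- `θ` (restricted to smooth functions) is an algebra homomorphism `C^∞([0,1]) → B`. The values
of `θ` at non-smooth functions play no role. -/
structure IsHom {B : Type*} [NonUnitalNormedRing B] [NormedSpace ℂ B] (θ : (J → ℂ) → B) :
    Prop where
  add : ∀ f g, IsSmooth f → IsSmooth g → θ (f + g) = θ f + θ g
  mul : ∀ f g, IsSmooth f → IsSmooth g → θ (f * g) = θ f * θ g
  smul : ∀ (c : ℂ) (f), IsSmooth f → θ (c • f) = c • θ f

/-- Continuity of `θ` on `C^∞([0,1])` for the Fréchet topology (seminorms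
`p_k(f) = max_{j ≤ k} sup |f^{(j)}|`) and the norm topology of `B`, in `ε`-`δ` form. -/
def FrechetContinuous {B : Type*} [NonUnitalNormedRing B] (θ : (J → ℂ) → B) : Prop :=
  ∀ f, IsSmooth f → ∀ ε > 0, ∃ k : ℕ, ∃ δ > 0, ∀ g, IsSmooth g →
    (∀ j ≤ k, ∀ t : J, ‖iteratedDerivWithin j (ext (g - f)) (Set.Icc 0 1) t‖ < δ) →
      ‖θ g - θ f‖ < ε

end Pool.Agent.H7Cinf
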