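import Mathlib

namespace Pool.Agent.H7CubicTwo

lemma rep_unique_aux (p : ℕ) (hp : p.Prime) (A B y : ℤ) (h1 : (p:ℤ) = A^2+3*B^2)
    (h2 : (p:ℤ) = 1+3*y^2) (hd : (p:ℤ) ∣ B - A * y) : B^2 = y^2 := by
  obtain ⟨t, ht⟩ := hd
  have hp0 : (0:ℤ) < p := by exact_mod_cast hp.pos
  have e : (A+3*B*y)^2 + 3 * (B - A*y)^2 = (p:ℤ)^2 := by
    have : (p:ℤ)^2 = (A^2+3*B^2) * (1+3*y^2) := by rw [← h1, ← h2]; ring
    rw [this]; ring
  rw [ht] at e
  have ht0 : t = 0 := by
    by_contra hne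
    have : 1 ≤ t^2 := by
      have := sq_nonneg t
      have h3 : t^2 ≠ 0 := pow_ne_zero 2 hne
      omega
    have h4 : (p:ℤ)^2 * (3 * t^2) ≤ (p:ℤ)^2 := by nlinarith [sq_nonneg (A+3*B*y)]
    have h5 : 0 < (p:ℤ)^2 := by positivity
    nlinarith
  rw [ht0, mul_zero] at ht
  have hB : B = A * y := by linarith
  have hA : A^2 = 1 := by
    rw [hB] at h1
    have h3 : (p:ℤ) = A^2 * p := by
      calc (p:ℤ) = A^2 + 3 * (A*y)^2 := h1
        _ = A^2 * (1+3*y^2) := by ring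
        _ = A^2 * p := by rw [← h2]
    have : (p:ℤ) * (A^2 - 1) = 0 := by linarith
    rcases mul_eq_zero.mp this with h | h
    · omega
    · linarith
  rw [hB, mul_pow, hA, one_mul]

lemma rep_unique (p : ℕ) (hp : p.Prime) (A B y : ℤ) (h1 : (p:ℤ) = A^2+3*B^2)
    (h2 : (p:ℤ) = 1+3*y^2) : B^2 = y^2 := by
  have hprod : (p:ℤ) ∣ (B - A*y) * (B + A*y) := by
    refine ⟨B^2 - y^2, ?_⟩
    have : A^2 = p - 3*B^2 := by linarith
    calc (B - A*y) * (B + A*y) = B^2 - A^2*y^2 := by ring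
      _ = B^2 - (p - 3*B^2)*y^2 := by rw [this]
      _ = B^2 * (1+3*y^2) - p*y^2 := by ring
      _ = B^2 * p - p*y^2 := by rw [← h2]
      _ = _ := by ring
  rcases (Nat.prime_iff_prime_int.mp hp).dvd_or_dvd hprod with h | h
  · exact rep_unique_aux p hp A B y h1 h2 h
  · exact rep_unique_aux p hp (-A) B y (by rw [h1]; ring) h2 (by
      have : B - -A * y = B + A * y := by ring
      rw [this]; exact h)

lemma omega_im {ω : ℂ} (h : ω^2 + ω + 1 = 0) : ω.im ≠ 0 := by
  intro him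
  have hr : ω = (ω.re : ℂ) := by
    apply Complex.ext <;> simp [him]
  rw [hr] at h
  have : (ω.re)^2 + ω.re + 1 = 0 := by exact_mod_cast h
  nlinarith [sq_nonneg (ω.re + 1/2)]

lemma eis_ext {ω : ℂ} (h : ω^2 + ω + 1 = 0) (a b c d : ℤ)
    (he : (a:ℂ) + b * ω = c + d * ω) : a = c ∧ b = d := by
  have him := omega_im h
  have h2 := congrArg Complex.im he
  simp at h2
  have hb : b = d := by
    rcases h2 with h2 | h2
    · exact h2
    · exact absurd h2 him
  subst hb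
  refine ⟨?_, rfl⟩
  have : (a:ℂ) = c := by linear_combination he
  exact_mod_cast this

lemma adjoin_form {ω : ℂ} (h : ω^2 + ω + 1 = 0) (z : ℂ) (hz : z ∈ Algebra.adjoin ℤ {ω}) :
    ∃ c d : ℤ, z = c + d * ω := by
  induction hz using Algebra.adjoin_induction with
  | mem x hx =>
    rw [Set.mem_singleton_iff] at hx
    exact ⟨0, 1, by simp [hx]⟩
  | algebraMap r => exact ⟨r, 0, by simp⟩
  | add x y _ _ hx hy =>
    obtain ⟨a, b, rfl⟩ := hx
    obtain ⟨c, d, rfl⟩ := hy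
    exact ⟨a + c, b + d, by push_cast; ring⟩
  | mul x y _ _ hx hy =>
    obtain ⟨a, b, rfl⟩ := hx
    obtain ⟨c, d, rfl⟩ := hy
    exact ⟨a * c - b * d, a * d + b * c - b * d, by
      push_cast
      linear_combination (b * d : ℂ) * h⟩

/-- If `p = 1 + 3 y ^ 2` is a prime with `y` not divisible by three, then two is not a
cube modulo `p`. -/
theorem two_not_cube (p : ℕ) [Fact p.Prime] (y : ℤ) (hp : (p:ℤ) = 1+3*y^2)
    (hy3 : ¬ (3:ℤ) ∣ y) (x : ZMod p) (hx : x^3 = 2) : False := by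
  classical
  have hpp : p.Prime := Fact.out
  obtain ⟨ω, hωp⟩ : ∃ ω : ℂ, IsPrimitiveRoot ω 3 := ⟨_, Complex.isPrimitiveRoot_exp 3 (by norm_num)⟩
  have hω : ω^2 + ω + 1 = 0 := by
    have h1 : ω^3 = 1 := hωp.pow_eq_one
    have h2 : ω ≠ 1 := hωp.ne_one (by norm_num)
    have h3 : (ω - 1) * (ω^2 + ω + 1) = 0 := by linear_combination h1
    rcases mul_eq_zero.mp h3 with h | h
    · exact absurd (sub_eq_zero.mp h) h2
    · exact h
  have hω3 : ω^3 = 1 := hωp.pow_eq_one
  have hω1 : ω ≠ 1 := hωp.ne_one (by norm_num)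
  have hω0 : ω ≠ 0 := hωp.ne_zero (by norm_num)
  have hωω : ω^2 ≠ ω := by
    intro h
    have : ω * (ω - 1) = 0 := by linear_combination h
    rcases mul_eq_zero.mp this with h | h
    · exact hω0 h
    · exact hω1 (sub_eq_zero.mp h)
  have hω21 : ω^2 ≠ 1 := by
    intro h
    apply hω1
    have : ω^3 = ω := by rw [pow_succ, h, one_mul]
    rw [← this, hω3]
  have hcard : Fintype.card (ZMod p) = p := ZMod.card p
  have h3dvd : 3 ∣ Fintype.card (ZMod p) - 1 := by
    rw [hcard]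
    have h1 : (3:ℤ) ∣ (p:ℤ) - 1 := ⟨y^2, by rw [hp]; ring⟩
    have hp1 : 1 ≤ p := hpp.one_lt.le
    have : ((p - 1 : ℕ) : ℤ) = (p:ℤ) - 1 := by push_cast [hp1]; ring
    rw [← this] at h1
    exact_mod_cast h1
  have hpodd : (2 : ZMod p) ≠ 0 := by
    intro h
    have h2 : (p:ℕ) ∣ 2 := (ZMod.natCast_eq_zero_iff 2 p).mp (by exact_mod_cast h)
    have : p = 2 := (Nat.prime_dvd_prime_iff_eq hpp Nat.prime_two).mp h2
    rw [this] at hp
    push_cast at hp
    omega
  obtain ⟨χ, hχ⟩ := MulChar.exists_mulChar_orderOf (ZMod p) h3dvd hωp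
  have hχ3 : χ^3 = 1 := by rw [← hχ]; exact pow_orderOf_eq_one χ
  have hχ1 : χ ≠ 1 := by
    intro h; rw [h, orderOf_one] at hχ; norm_num at hχ
  have hχχ : χ * χ ≠ 1 := by
    intro h
    have h2 : χ^2 = 1 := by rw [sq]; exact h
    have := orderOf_dvd_of_pow_eq_one h2
    rw [hχ] at this
    norm_num at this
  have hinv : χ⁻¹ = χ^2 := by
    rw [inv_eq_iff_mul_eq_one, ← pow_succ', hχ3]
  have hval : ∀ u : ZMod p, u ≠ 0 → χ u = 1 ∨ χ u = ω ∨ χ u = ω^2 := by
    intro u hu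
    have h1 : (χ u)^3 = 1 := by
      rw [← MulChar.pow_apply' χ (by norm_num), hχ3, MulChar.one_apply (Ne.isUnit hu)]
    obtain ⟨i, hi, hi2⟩ := hωp.eq_pow_of_pow_eq_one h1
    interval_cases i
    · left; rw [← hi2, pow_zero]
    · right; left; rw [← hi2, pow_one]
    · right; right; rw [← hi2]
  have hχ2 : χ 2 = 1 := by
    rw [← hx, map_pow]
    have hx0 : x ≠ 0 := by
      rintro rfl
      apply hpodd
      rw [← hx]; ring
    rcases hval x hx0 with h | h | h <;> rw [h]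
    · ring
    · exact hω3
    · rw [← pow_mul, mul_comm, pow_mul, hω3, one_pow]
  set f : ZMod p → ℂ := fun x => χ (x * (1 - x)) with hf
  have hfval : ∀ x, f x = 0 ∨ f x = 1 ∨ f x = ω ∨ f x = ω^2 := by
    intro x
    by_cases h : x * (1 - x) = 0
    · left; simp only [hf, h]; exact MulChar.map_zero χ
    · right; exact hval _ h
  set S : ℂ → Finset (ZMod p) := fun w => Finset.univ.filter (fun x => f x = w) with hS
  have hsum : ∀ g : ℂ → ℂ, g 0 = 0 → ∑ x, g (f x) = (S 1).card * g 1 + (S ω).card * g ω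
      + (S (ω^2)).card * g (ω^2) := by
    intro g hg
    have h1 : ∀ w : ℂ, ((S w).card : ℂ) * g w = ∑ x, if f x = w then g w else 0 := by
      intro w
      rw [← Finset.sum_filter, Finset.sum_const, nsmul_eq_mul]
    rw [h1, h1, h1, ← Finset.sum_add_distrib, ← Finset.sum_add_distrib]
    apply Finset.sum_congr rfl
    intro x _
    rcases hfval x with h | h | h | h <;> rw [h]
    · simp [hg, hω0.symm, (pow_ne_zero 2 hω0).symm]
    · simp [hω1.symm, hω21.symm]
    · simp [hω1, hωω.symm]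
    · simp [hω21, hωω]
  set N0 : ℤ := ((S 1).card : ℤ) with hN0
  set N1 : ℤ := ((S ω).card : ℤ) with hN1
  set N2 : ℤ := ((S (ω^2)).card : ℤ) with hN2
  have hJ : jacobiSum χ χ = N0 + N1 * ω + N2 * ω^2 := by
    have : jacobiSum χ χ = ∑ x, (fun z => z) (f x) := by
      simp only [jacobiSum, hf, map_mul]
    rw [this, hsum (fun z => z) rfl, hN0, hN1, hN2]
    push_cast
    ring
  have hJ' : jacobiSum χ⁻¹ χ⁻¹ = N0 + N1 * ω^2 + N2 * ω^4 := by
    have : jacobiSum χ⁻¹ χ⁻¹ = ∑ x, (fun z => z^2) (f x) := by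
      simp only [jacobiSum, hf, map_mul, hinv]
      apply Finset.sum_congr rfl
      intro x _
      rw [MulChar.pow_apply' χ (by norm_num), MulChar.pow_apply' χ (by norm_num), mul_pow]
    rw [this, hsum (fun z => z^2) (by norm_num), hN0, hN1, hN2]
    push_cast
    ring
  have hring : ringChar ℂ ≠ ringChar (ZMod p) := by
    rw [ringChar.eq_zero (R := ℂ), ZMod.ringChar_zmod_n]
    exact hpp.pos.ne
  have hnorm : (p:ℤ) = (N0 - N2)^2 - (N0 - N2)*(N1 - N2) + (N1 - N2)^2 := by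
    have h := jacobiSum_mul_jacobiSum_inv hring hχ1 hχ1 hχχ
    rw [hJ, hJ', hcard] at h
    have h4 : ω^4 = ω := by rw [pow_succ, hω3, one_mul]
    have : ((p:ℤ):ℂ) = (((N0 - N2)^2 - (N0 - N2)*(N1 - N2) + (N1 - N2)^2 : ℤ) : ℂ) := by
      push_cast
      rw [← h, h4]
      have h2 : ω^2 = -1 - ω := by linear_combination hω
      rw [h2]
      ring_nf
      rw [h2]
      ring
    exact_mod_cast this
  have hmod3 : (3:ℤ) ∣ N1 - N2 := by
    obtain ⟨z, hz, hz2⟩ := exists_jacobiSum_eq_neg_one_add (by norm_num : 2 < 3) hχ3 hχ3 h3dvd hωp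
    obtain ⟨c, d, rfl⟩ := adjoin_form hω z hz
    rw [hJ] at hz2
    have h2 : ω^2 = -1 - ω := by linear_combination hω
    have he : ((N0 - N2 : ℤ) : ℂ) + ((N1 - N2 : ℤ) : ℂ) * ω = ((-1 + 3*d : ℤ) : ℂ) + ((3*d - 3*c : ℤ):ℂ) * ω := by
      push_cast
      linear_combination hz2 - (N2:ℂ) * hω + (c + d * ω) * hω - 3 * (d:ℂ) * hω
    obtain ⟨-, hb⟩ := eis_ext hω _ _ _ _ he
    exact ⟨d - c, by rw [hb]; ring⟩
  have heven : ∀ w : ℂ, w ≠ 1 → (2:ℤ) ∣ ((S w).card : ℤ) := by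
    intro w hw
    have h1 : (((S w).card : ℕ) : ZMod 2) = 0 := by
      rw [Finset.card_eq_sum_ones, Nat.cast_sum]
      have hmem : ∀ a ∈ S w, 1 - a ∈ S w := by
        intro a ha
        have ha' : f a = w := by simpa [hS] using ha
        have h1a : f (1 - a) = f a := by
          simp only [hf]
          congr 1
          ring
        simpa [hS, h1a] using ha'
      refine Finset.sum_involution (fun x _ => 1 - x) (fun a _ => by decide) ?_ hmem
        (fun a _ => by ring)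
      intro a ha _ hfix
      have ha' : f a = w := by simpa [hS] using ha
      apply hw
      rw [← ha']
      have hfix' : 1 - a = a := hfix
      have h2a : 2 * a = 1 := by linear_combination -hfix'
      have : χ (2 * a) = 1 := by rw [h2a]; exact map_one χ
      rw [map_mul, hχ2, one_mul] at this
      have hfa : f a = χ a * χ a := by
        simp only [hf, hfix']
        exact map_mul χ a a
      rw [hfa, this, one_mul]
    have h2 : 2 ∣ (S w).card := (ZMod.natCast_eq_zero_iff _ 2).mp h1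
    exact_mod_cast h2
  have he1 : (2:ℤ) ∣ N1 := heven ω hω1
  have he2 : (2:ℤ) ∣ N2 := heven (ω^2) hω21
  obtain ⟨b', hb'⟩ : (2:ℤ) ∣ N1 - N2 := dvd_sub he1 he2
  have h3b : (3:ℤ) ∣ b' := by
    rw [hb'] at hmod3
    omega
  have hrep : (p:ℤ) = (N0 - N2 - b')^2 + 3 * b'^2 := by
    rw [hnorm, hb']; ring
  have := rep_unique p hpp _ _ _ hrep hp
  have h3y : (3:ℤ) ∣ y^2 := by
    rw [← this]; exact dvd_pow h3b (by norm_num)
  exact hy3 ((Int.prime_three).dvd_of_dvd_pow h3y)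

end Pool.Agent.H7CubicTwo
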