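import Mathlib

set_option autoImplicit false

open MeasureTheory ProbabilityTheory
open scoped ENNReal NNReal

namespace Pool.Agent.H7Ent

noncomputable section

/-- `f` is a nonnegative, locally absolutely continuous density of the measure `ν` on `ℝ`. -/
def IsACDensity (ν : Measure ℝ) (f : ℝ → ℝ) : Prop :=
  (∀ x, 0 ≤ f x) ∧ (∀ a b, AbsolutelyContinuousOnInterval f a b) ∧
    ν = volume.withDensity (fun x => ENNReal.ofReal (f x))

/-- Relative Fisher information `J(f‖φ) = ∫ f (f'/f + x)² dx` of a law `ν` with locally absolutely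
continuous density `f` (such an `f` is unique); it is `+∞` if there is no such density. -/
def J (ν : Measure ℝ) : ℝ≥0∞ :=
  ⨅ (f : ℝ → ℝ) (_ : IsACDensity ν f),
    ∫⁻ x, ENNReal.ofReal (f x * (deriv f x / f x + x) ^ 2)

/-- Relative entropy `D(f‖φ) = ∫ f log (f/φ) dx` of a law with respect to the standard normal law
(the Kullback–Leibler divergence of Mathlib). -/
def D (ν : Measure ℝ) : ℝ≥0∞ := InformationTheory.klDiv ν (gaussianReal 0 1)

/-- The law of `S_n = (X_1 + ⋯ + X_n)/√n` for `X_1, …, X_n` i.i.d. with law `μ`. -/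
def lawS (μ : Measure ℝ) (n : ℕ) : Measure ℝ :=
  (Measure.pi (fun _ : Fin n => μ)).map (fun x => (∑ i, x i) / Real.sqrt n)

/-- The laws allowed in the question: `E X = 0`, `E X² = 1`, `E X⁴ ≤ M`. -/
def Admissible (M : ℝ) (μ : Measure ℝ) : Prop :=
  IsProbabilityMeasure μ ∧ Integrable (fun x : ℝ => x ^ 4) μ ∧ ∫ x, x ∂μ = 0 ∧
    ∫ x, x ^ 2 ∂μ = 1 ∧ ∫ x, x ^ 4 ∂μ ≤ M

/-- Q1: for every `M` there is `C` with `J(f_n‖φ) ≤ (C/n) J(f_1‖φ)` for all `n ≥ 1` and all laws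
with `E X⁴ ≤ M`. -/
def Q1 : Prop := ∀ M : ℝ, ∃ C : ℝ, ∀ μ : Measure ℝ, Admissible M μ → ∀ n : ℕ, 1 ≤ n →
  J (lawS μ n) ≤ ENNReal.ofReal (C / n) * J μ

/-- Q2: the same with `D` in place of `J`. -/
def Q2 : Prop := ∀ M : ℝ, ∃ C : ℝ, ∀ μ : Measure ℝ, Admissible M μ → ∀ n : ℕ, 1 ≤ n →
  D (lawS μ n) ≤ ENNReal.ofReal (C / n) * D μ

end

end Pool.Agent.H7Ent
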