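import Mathlib
import Pool.Agent.H7EntDefs

set_option autoImplicit false

open MeasureTheory ProbabilityTheory Finset
open scoped ENNReal NNReal

namespace Pool.Agent.H7Ent

noncomputable section

/-- finite Gaussian mixture -/
def mix {κ : Type} [Fintype κ] (W c : κ → ℝ) (v : ℝ≥0) : Measure ℝ :=
  ∑ k, ENNReal.ofReal (W k) • gaussianReal (c k) v

lemma mix_apply {κ : Type} [Fintype κ] (W c : κ → ℝ) (v : ℝ≥0) (A : Set ℝ) :
    mix W c v A = ∑ k, ENNReal.ofReal (W k) * gaussianReal (c k) v A := by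
  unfold mix
  rw [Measure.finsetSum_apply]
  rfl

lemma mix_univ {κ : Type} [Fintype κ] (W c : κ → ℝ) (hW : ∀ k, 0 ≤ W k) (v : ℝ≥0) :
    mix W c v Set.univ = ENNReal.ofReal (∑ k, W k) := by
  rw [mix_apply, ENNReal.ofReal_sum_of_nonneg (fun k _ => hW k)]
  simp

instance {κ : Type} [Fintype κ] (W c : κ → ℝ) (v : ℝ≥0) : IsFiniteMeasure (mix W c v) := by
  refine ⟨?_⟩
  rw [mix_apply]
  apply ENNReal.sum_lt_top.2
  intro k _
  simp

lemma charFun_mix {κ : Type} [Fintype κ] (W c : κ → ℝ) (hW : ∀ k, 0 ≤ W k) (v : ℝ≥0) (t : ℝ) :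
    charFun (mix W c v) t =
      Complex.exp (-(v * t ^ 2 / 2)) * ∑ k, (W k : ℂ) * Complex.exp (c k * t * Complex.I) := by
  unfold mix
  rw [charFun_apply, integral_finsetSum_measure]
  · rw [Finset.mul_sum]
    refine Finset.sum_congr rfl (fun k _ => ?_)
    rw [integral_smul_measure, ENNReal.toReal_ofReal (hW k)]
    have h1 : ∫ x, Complex.exp ((inner ℝ x t : ℝ) * Complex.I) ∂(gaussianReal (c k) v) =
        Complex.exp (t * c k * Complex.I - v * t ^ 2 / 2) := by
      rw [← charFun_apply, charFun_gaussianReal]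
    rw [h1, sub_eq_add_neg, Complex.exp_add, Complex.real_smul]
    have e : (t : ℂ) * c k * Complex.I = c k * t * Complex.I := by ring
    rw [e]
    ring
  · intro k _
    apply Integrable.smul_measure _ ENNReal.ofReal_ne_top
    apply Integrable.of_bound (C := 1)
    · fun_prop
    · filter_upwards with x
      rw [Complex.norm_exp_ofReal_mul_I]

/-- the law of the normalised sum of a mixture is a mixture -/
lemma lawS_mix {κ : Type} [Fintype κ] (W c : κ → ℝ) (hW : ∀ k, 0 ≤ W k)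
    (v : ℝ≥0) [IsProbabilityMeasure (mix W c v)] {n : ℕ} (hn : 1 ≤ n) :
    lawS (mix W c v) n = mix (fun s : Fin n → κ => ∏ i, W (s i))
      (fun s => (∑ i, c (s i)) / Real.sqrt n) v := by
  have hn0 : (0 : ℝ) < n := by exact_mod_cast hn
  have hsq : (0 : ℝ) < Real.sqrt n := Real.sqrt_pos.2 hn0
  have h1 : lawS (mix W c v) n =
      ((Measure.pi (fun _ : Fin n => mix W c v)).map (fun x => ∑ i, x i)).map
        (fun x => (Real.sqrt n)⁻¹ * x) := by
    unfold lawS
    rw [Measure.map_map (by fun_prop) (by fun_prop)]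
    congr 1
    funext x
    simp only [Function.comp_apply]
    rw [div_eq_inv_mul]
  haveI : IsProbabilityMeasure (lawS (mix W c v) n) := by
    unfold lawS
    apply Measure.isProbabilityMeasure_map
    fun_prop
  apply Measure.ext_of_charFun
  ext t
  rw [charFun_mix _ _ (fun s => Finset.prod_nonneg (fun i _ => hW _)), h1, charFun_map_mul,
    charFun_map_sum_pi_eq_prod, Finset.prod_const, Finset.card_univ, Fintype.card_fin,
    Pi.pow_apply, charFun_mix W c hW, mul_pow, Fintype.sum_pow, ← Complex.exp_nat_mul]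
  congr 1
  · congr 1
    have h2 : (n : ℂ) * ((Real.sqrt n : ℝ) : ℂ)⁻¹ ^ 2 = 1 := by
      have : (n : ℝ) * (Real.sqrt n)⁻¹ ^ 2 = 1 := by
        rw [inv_pow, Real.sq_sqrt hn0.le]
        exact mul_inv_cancel₀ hn0.ne'
      exact_mod_cast this
    push_cast
    calc (n : ℂ) * -(v * (((Real.sqrt n : ℝ) : ℂ)⁻¹ * t) ^ 2 / 2) =
        -(v * (((n : ℂ) * ((Real.sqrt n : ℝ) : ℂ)⁻¹ ^ 2) * t ^ 2) / 2) := by ring
      _ = _ := by rw [h2, one_mul]
  · refine Finset.sum_congr rfl (fun s _ => ?_)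
    rw [Finset.prod_mul_distrib, ← Complex.exp_sum]
    push_cast
    congr 2
    rw [Finset.sum_div, Finset.sum_mul, Finset.sum_mul]
    refine Finset.sum_congr rfl (fun i _ => ?_)
    ring

/-- moment generating function of the mixture of the sum -/
lemma mgf_pow {κ : Type} [Fintype κ] (W c : κ → ℝ) (n : ℕ) (r t : ℝ) :
    ∑ s : Fin n → κ, (∏ i, W (s i)) * Real.exp ((∑ i, c (s i)) / r * t) =
      (∑ k, W k * Real.exp (c k * t / r)) ^ n := by
  rw [Fintype.sum_pow]
  refine Finset.sum_congr rfl (fun s _ => ?_)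
  rw [Finset.prod_mul_distrib, ← Real.exp_sum]
  congr 2
  rw [Finset.sum_div, Finset.sum_mul]
  refine Finset.sum_congr rfl (fun i _ => ?_)
  ring

lemma sum_weights_pow {κ : Type} [Fintype κ] (W : κ → ℝ) (n : ℕ) :
    ∑ s : Fin n → κ, (∏ i, W (s i)) = (∑ k, W k) ^ n := by
  rw [Fintype.sum_pow]

end

end Pool.Agent.H7Ent
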