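import Mathlib
import Pool.Agent.H7EntA

set_option autoImplicit false

open MeasureTheory ProbabilityTheory Finset
open scoped ENNReal NNReal

namespace Pool.Agent.H7Ent

noncomputable section

/-- density of the mixture -/
def dens {κ : Type} [Fintype κ] (W c : κ → ℝ) (v : ℝ≥0) (x : ℝ) : ℝ :=
  ∑ k, W k * gaussianPDFReal (c k) v x

def dens' {κ : Type} [Fintype κ] (W c : κ → ℝ) (v : ℝ≥0) (x : ℝ) : ℝ :=
  ∑ k, W k * (-((x - c k) / v) * gaussianPDFReal (c k) v x)

lemma hasDerivAt_pdf (c : ℝ) {v : ℝ≥0} (hv : v ≠ 0) (x : ℝ) :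
    HasDerivAt (gaussianPDFReal c v) (-((x - c) / v) * gaussianPDFReal c v x) x := by
  have hv' : (v : ℝ) ≠ 0 := by exact_mod_cast hv
  unfold gaussianPDFReal
  have h1 : HasDerivAt (fun x : ℝ => -(x - c) ^ 2 / (2 * v)) (-((x - c) / v)) x := by
    have := ((((hasDerivAt_id' x).sub_const c).pow 2).neg.div_const (2 * (v : ℝ)))
    refine this.congr_deriv ?_
    field_simp
    ring
  have h2 := h1.exp.const_mul (Real.sqrt (2 * Real.pi * v))⁻¹
  refine h2.congr_deriv ?_
  ring

lemma hasDerivAt_dens {κ : Type} [Fintype κ] (W c : κ → ℝ) {v : ℝ≥0} (hv : v ≠ 0) (x : ℝ) :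
    HasDerivAt (dens W c v) (dens' W c v x) x := by
  unfold dens dens'
  exact HasDerivAt.fun_sum (fun k _ => (hasDerivAt_pdf (c k) hv x).const_mul (W k))

lemma continuous_pdf (c : ℝ) (v : ℝ≥0) : Continuous (gaussianPDFReal c v) := by
  unfold gaussianPDFReal
  fun_prop

lemma continuous_dens {κ : Type} [Fintype κ] (W c : κ → ℝ) (v : ℝ≥0) :
    Continuous (dens W c v) := by
  unfold dens
  exact continuous_finsetSum _ (fun k _ => (continuous_pdf _ _).const_mul _)

lemma continuous_dens' {κ : Type} [Fintype κ] (W c : κ → ℝ) (v : ℝ≥0) :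
    Continuous (dens' W c v) := by
  unfold dens'
  refine continuous_finsetSum _ (fun k _ => ?_)
  have := continuous_pdf (c k) v
  fun_prop

lemma contDiff_dens {κ : Type} [Fintype κ] (W c : κ → ℝ) {v : ℝ≥0} (hv : v ≠ 0) :
    ContDiff ℝ 1 (dens W c v) := by
  rw [contDiff_one_iff_deriv]
  refine ⟨fun x => (hasDerivAt_dens W c hv x).differentiableAt, ?_⟩
  have : deriv (dens W c v) = dens' W c v := by
    funext x
    exact (hasDerivAt_dens W c hv x).deriv
  rw [this]
  exact continuous_dens' W c v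

lemma dens_nonneg {κ : Type} [Fintype κ] (W c : κ → ℝ) (hW : ∀ k, 0 ≤ W k) (v : ℝ≥0) (x : ℝ) :
    0 ≤ dens W c v x :=
  Finset.sum_nonneg (fun k _ => mul_nonneg (hW k) (gaussianPDFReal_nonneg _ _ _))

lemma dens_pos {κ : Type} [Fintype κ] (W c : κ → ℝ) (hW : ∀ k, 0 ≤ W k) (h1 : ∑ k, W k = 1)
    {v : ℝ≥0} (hv : v ≠ 0) (x : ℝ) : 0 < dens W c v x := by
  have hex : ∃ k, 0 < W k := by
    by_contra hcon
    push Not at hcon
    have : ∑ k, W k ≤ 0 := Finset.sum_nonpos (fun k _ => hcon k)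
    linarith
  obtain ⟨k, hk⟩ := hex
  apply Finset.sum_pos' (fun k _ => mul_nonneg (hW k) (gaussianPDFReal_nonneg _ _ _))
  exact ⟨k, mem_univ _, mul_pos hk (gaussianPDFReal_pos _ _ _ hv)⟩

lemma mix_eq {κ : Type} [Fintype κ] (W c : κ → ℝ) (hW : ∀ k, 0 ≤ W k) {v : ℝ≥0} (hv : v ≠ 0) :
    mix W c v = volume.withDensity (fun x => ENNReal.ofReal (dens W c v x)) := by
  ext A hA
  rw [mix_apply, withDensity_apply _ hA]
  have h1 : ∀ x, ENNReal.ofReal (dens W c v x) =
      ∑ k, ENNReal.ofReal (W k) * gaussianPDF (c k) v x := by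
    intro x
    unfold dens
    rw [ENNReal.ofReal_sum_of_nonneg (fun k _ =>
      mul_nonneg (hW k) (gaussianPDFReal_nonneg _ _ _))]
    refine Finset.sum_congr rfl (fun k _ => ?_)
    rw [ENNReal.ofReal_mul (hW k)]
    rfl
  simp only [h1]
  rw [lintegral_finsetSum]
  · refine Finset.sum_congr rfl (fun k _ => ?_)
    rw [lintegral_const_mul _ (measurable_gaussianPDF _ _), gaussianReal_apply _ hv]
  · intro k _
    exact (measurable_gaussianPDF _ _).const_mul _

lemma isACDensity_dens {κ : Type} [Fintype κ] (W c : κ → ℝ) (hW : ∀ k, 0 ≤ W k) {v : ℝ≥0}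
    (hv : v ≠ 0) : IsACDensity (mix W c v) (dens W c v) := by
  refine ⟨dens_nonneg W c hW v, fun a b => ?_, mix_eq W c hW hv⟩
  exact (contDiff_dens W c hv).contDiffOn.absolutelyContinuousOnInterval

lemma ac_continuous {f : ℝ → ℝ} (hf : ∀ a b, AbsolutelyContinuousOnInterval f a b) :
    Continuous f := by
  rw [continuous_iff_continuousAt]
  intro x
  have h := (hf (x - 1) (x + 1)).continuousOn
  rw [Set.uIcc_of_le (by linarith)] at h
  exact h.continuousAt (Icc_mem_nhds (by linarith) (by linarith))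

lemma ac_unique {ν : Measure ℝ} [IsFiniteMeasure ν] {f g : ℝ → ℝ} (hf : IsACDensity ν f)
    (hg : IsACDensity ν g) : f = g := by
  have hfc := ac_continuous hf.2.1
  have hgc := ac_continuous hg.2.1
  have h1 : volume.withDensity (fun x => ENNReal.ofReal (f x)) =
      volume.withDensity (fun x => ENNReal.ofReal (g x)) := hf.2.2.symm.trans hg.2.2
  rw [withDensity_eq_iff_of_sigmaFinite (by fun_prop) (by fun_prop)] at h1
  rw [← Continuous.ae_eq_iff_eq (μ := volume) hfc hgc]
  filter_upwards [h1] with x hx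
  exact (ENNReal.ofReal_eq_ofReal_iff (hf.1 x) (hg.1 x)).1 hx

lemma J_mix {κ : Type} [Fintype κ] (W c : κ → ℝ) (hW : ∀ k, 0 ≤ W k) {v : ℝ≥0} (hv : v ≠ 0) :
    J (mix W c v) = ∫⁻ x, ENNReal.ofReal
      (dens W c v x * (dens' W c v x / dens W c v x + x) ^ 2) := by
  have hd := isACDensity_dens W c hW hv
  have e : ∀ x, deriv (dens W c v) x = dens' W c v x := fun x => (hasDerivAt_dens W c hv x).deriv
  apply le_antisymm
  · unfold J
    refine (iInf₂_le (dens W c v) hd).trans (le_of_eq ?_)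
    simp only [e]
  · unfold J
    refine le_iInf₂ (fun f hf => ?_)
    rw [ac_unique hf hd]
    simp only [e]
    exact le_rfl

/-- pointwise Cauchy-Schwarz -/
lemma cs_point {κ : Type} [Fintype κ] (p b : κ → ℝ) (hp : ∀ k, 0 ≤ p k) (hpos : 0 < ∑ k, p k) :
    (∑ k, p k) * ((∑ k, p k * b k) / (∑ k, p k)) ^ 2 ≤ ∑ k, p k * b k ^ 2 := by
  have h := Finset.sum_mul_sq_le_sq_mul_sq univ (fun k => Real.sqrt (p k))
    (fun k => Real.sqrt (p k) * b k)
  have e1 : ∀ k, Real.sqrt (p k) * (Real.sqrt (p k) * b k) = p k * b k := by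
    intro k
    rw [← mul_assoc, Real.mul_self_sqrt (hp k)]
  have e2 : ∀ k, Real.sqrt (p k) ^ 2 = p k := fun k => Real.sq_sqrt (hp k)
  have e3 : ∀ k, (Real.sqrt (p k) * b k) ^ 2 = p k * b k ^ 2 := by
    intro k
    rw [mul_pow, e2]
  simp only [e1, e2, e3] at h
  have : (∑ k, p k) * ((∑ k, p k * b k) / (∑ k, p k)) ^ 2 =
      (∑ k, p k * b k) ^ 2 / (∑ k, p k) := by
    field_simp
  rw [this, div_le_iff₀ hpos]
  linarith

/-! ### Gaussian integrals -/

lemma g_int (c : ℝ) (v : ℝ≥0) (t : ℝ) (n : ℕ) :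
    Integrable (fun x : ℝ => x ^ n * Real.exp (t * x)) (gaussianReal c v) := by
  apply integrable_pow_mul_exp_of_mem_interior_integrableExpSet (X := fun x : ℝ => x)
  simp

lemma g_int_pow (c : ℝ) (v : ℝ≥0) (n : ℕ) :
    Integrable (fun x : ℝ => x ^ n) (gaussianReal c v) := by
  have := g_int c v 0 n
  simpa using this

lemma g_exp (c : ℝ) (v : ℝ≥0) (t : ℝ) :
    ∫ x, Real.exp (t * x) ∂(gaussianReal c v) = Real.exp (c * t + v * t ^ 2 / 2) := by
  have := congrFun (mgf_fun_id_gaussianReal (μ := c) (v := v)) t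
  exact this

lemma g_xexp (c : ℝ) (v : ℝ≥0) (t : ℝ) :
    ∫ x, x * Real.exp (t * x) ∂(gaussianReal c v) =
      (c + v * t) * Real.exp (c * t + v * t ^ 2 / 2) := by
  have h1 : HasDerivAt (mgf (fun x : ℝ => x) (gaussianReal c v))
      (∫ x, x * Real.exp (t * x) ∂(gaussianReal c v)) t :=
    hasDerivAt_mgf (by simp)
  rw [mgf_fun_id_gaussianReal] at h1
  have h2 : HasDerivAt (fun t : ℝ => Real.exp (c * t + v * t ^ 2 / 2))
      (Real.exp (c * t + v * t ^ 2 / 2) * (c * 1 + v * (2 * t ^ 1 * 1) / 2)) t := by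
    apply HasDerivAt.exp
    apply HasDerivAt.add
    · exact (hasDerivAt_id' t).const_mul c
    · exact (((hasDerivAt_id' t).pow 2).const_mul (v : ℝ)).div_const 2
  rw [h1.unique h2]
  ring

lemma g_sq (c : ℝ) (v : ℝ≥0) : ∫ x, (x - c) ^ 2 ∂(gaussianReal c v) = v := by
  have h1 := variance_fun_id_gaussianReal (μ := c) (v := v)
  rw [variance_eq_integral measurable_id'.aemeasurable] at h1
  simpa using h1

lemma g_sq' (c β : ℝ) (v : ℝ≥0) :
    ∫ x, (c + β * (x - c)) ^ 2 ∂(gaussianReal c v) = c ^ 2 + β ^ 2 * v := by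
  have hi1 : Integrable (fun x : ℝ => x) (gaussianReal c v) := by
    simpa using g_int_pow c v 1
  have hi2 : Integrable (fun x : ℝ => (x - c) ^ 2) (gaussianReal c v) := by
    have h2 := g_int_pow c v 2
    have : (fun x : ℝ => (x - c) ^ 2) = fun x => x ^ 2 - (2 * c) * x + c ^ 2 := by
      funext x; ring
    rw [this]
    exact (h2.sub (hi1.const_mul _)).add (integrable_const _)
  have e : (fun x : ℝ => (c + β * (x - c)) ^ 2) =
      fun x => (c ^ 2 - 2 * c ^ 2 * β) + (2 * c * β) * x + β ^ 2 * (x - c) ^ 2 := by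
    funext x; ring
  rw [e, integral_add, integral_add, integral_const_mul, integral_const_mul, g_sq,
    integral_id_gaussianReal, integral_const]
  · simp
    ring
  · exact integrable_const _
  · exact hi1.const_mul _
  · exact (integrable_const _).add (hi1.const_mul _)
  · exact hi2.const_mul _

lemma lint_pdf (c : ℝ) {v : ℝ≥0} (hv : v ≠ 0) (g : ℝ → ℝ≥0∞) (hg : Measurable g) :
    ∫⁻ x, gaussianPDF c v x * g x = ∫⁻ x, g x ∂(gaussianReal c v) := by
  rw [gaussianReal_of_var_ne_zero _ hv,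
    lintegral_withDensity_eq_lintegral_mul _ (measurable_gaussianPDF _ _) hg]
  rfl

/-! ### Bounds for J -/

lemma key_alg {κ : Type} [Fintype κ] (W c : κ → ℝ) (v : ℝ≥0) (x : ℝ) :
    dens' W c v x + x * dens W c v x =
      ∑ k, (W k * gaussianPDFReal (c k) v x) * (x - (x - c k) / v) := by
  unfold dens dens'
  rw [Finset.mul_sum, ← Finset.sum_add_distrib]
  refine Finset.sum_congr rfl (fun k _ => ?_)
  ring

lemma J_mix_le {κ : Type} [Fintype κ] (W c : κ → ℝ) (hW : ∀ k, 0 ≤ W k) (h1 : ∑ k, W k = 1)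
    {v : ℝ≥0} (hv : v ≠ 0) :
    J (mix W c v) ≤ ENNReal.ofReal (∑ k, W k * ((c k) ^ 2 + (1 - 1 / (v : ℝ)) ^ 2 * v)) := by
  have hv' : (v : ℝ) ≠ 0 := by exact_mod_cast hv
  rw [J_mix W c hW hv]
  have hpt : ∀ x, ENNReal.ofReal (dens W c v x * (dens' W c v x / dens W c v x + x) ^ 2) ≤
      ∑ k, ENNReal.ofReal (W k) * (gaussianPDF (c k) v x *
        ENNReal.ofReal ((c k + (1 - 1 / (v : ℝ)) * (x - c k)) ^ 2)) := by
    intro x
    have hpos := dens_pos W c hW h1 hv x
    have e1 : dens' W c v x / dens W c v x + x =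
        (∑ k, (W k * gaussianPDFReal (c k) v x) * (x - (x - c k) / v)) /
          (∑ k, (W k * gaussianPDFReal (c k) v x)) := by
      rw [← key_alg]
      change _ = _ / dens W c v x
      field_simp
    have h2 := cs_point (fun k => W k * gaussianPDFReal (c k) v x)
      (fun k => x - (x - c k) / v)
      (fun k => mul_nonneg (hW k) (gaussianPDFReal_nonneg _ _ _)) hpos
    rw [← e1] at h2
    refine (ENNReal.ofReal_le_ofReal h2).trans (le_of_eq ?_)
    rw [ENNReal.ofReal_sum_of_nonneg]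
    · refine Finset.sum_congr rfl (fun k _ => ?_)
      rw [mul_assoc, ENNReal.ofReal_mul (hW k), ENNReal.ofReal_mul (gaussianPDFReal_nonneg _ _ _)]
      have : x - (x - c k) / (v : ℝ) = c k + (1 - 1 / (v : ℝ)) * (x - c k) := by
        field_simp
        ring
      rw [this]
      rfl
    · intro k _
      exact mul_nonneg (mul_nonneg (hW k) (gaussianPDFReal_nonneg _ _ _)) (sq_nonneg _)
  refine (lintegral_mono hpt).trans (le_of_eq ?_)
  rw [lintegral_finsetSum, ENNReal.ofReal_sum_of_nonneg]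
  · refine Finset.sum_congr rfl (fun k _ => ?_)
    rw [lintegral_const_mul, lint_pdf _ hv, ENNReal.ofReal_mul (hW k)]
    · congr 1
      rw [← ofReal_integral_eq_lintegral_ofReal, g_sq']
      · have hi1 : Integrable (fun x : ℝ => x) (gaussianReal (c k) v) := by
          simpa using g_int_pow (c k) v 1
        have h2 := g_int_pow (c k) v 2
        have : (fun x : ℝ => (c k + (1 - 1 / (v : ℝ)) * (x - c k)) ^ 2) =
            fun x => (1 - 1 / (v : ℝ)) ^ 2 * x ^ 2 +
              (2 * (c k - (1 - 1 / (v : ℝ)) * c k) * (1 - 1 / (v : ℝ))) * x +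
                (c k - (1 - 1 / (v : ℝ)) * c k) ^ 2 := by
          funext x; ring
        rw [this]
        exact ((h2.const_mul _).add (hi1.const_mul _)).add (integrable_const _)
      · filter_upwards with x
        positivity
    · fun_prop
    · exact (measurable_gaussianPDF _ _).mul (by fun_prop)
  · intro k _
    exact mul_nonneg (hW k) (by positivity)
  · intro k _
    exact ((measurable_gaussianPDF _ _).mul (by fun_prop)).const_mul _

lemma ofReal_int_le {α : Type} [MeasurableSpace α] {μ : Measure α} {h : α → ℝ}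
    (hi : Integrable h μ) : ENNReal.ofReal (∫ x, h x ∂μ) ≤ ∫⁻ x, ENNReal.ofReal (h x) ∂μ := by
  rw [integral_eq_lintegral_pos_part_sub_lintegral_neg_part hi]
  calc ENNReal.ofReal ((∫⁻ x, ENNReal.ofReal (h x) ∂μ).toReal -
        (∫⁻ x, ENNReal.ofReal (-h x) ∂μ).toReal)
      ≤ ENNReal.ofReal ((∫⁻ x, ENNReal.ofReal (h x) ∂μ).toReal) := by
        apply ENNReal.ofReal_le_ofReal
        have : 0 ≤ (∫⁻ x, ENNReal.ofReal (-h x) ∂μ).toReal := ENNReal.toReal_nonneg
        linarith
    _ ≤ _ := ENNReal.ofReal_toReal_le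

lemma int_pdf (c : ℝ) {v : ℝ≥0} (hv : v ≠ 0) {h : ℝ → ℝ}
    (hi : Integrable h (gaussianReal c v)) :
    Integrable (fun x => gaussianPDFReal c v x * h x) := by
  rw [gaussianReal_of_var_ne_zero _ hv,
    integrable_withDensity_iff_integrable_smul' (measurable_gaussianPDF _ _)
      (ae_of_all _ fun _ => gaussianPDF_lt_top)] at hi
  simpa only [toReal_gaussianPDF, smul_eq_mul] using hi

lemma J_mix_ge {κ : Type} [Fintype κ] (W c : κ → ℝ) (hW : ∀ k, 0 ≤ W k) (h1 : ∑ k, W k = 1)
    {v : ℝ≥0} (hv : v ≠ 0) (t l : ℝ) :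
    ENNReal.ofReal (2 * l * (∑ k, W k * ((c k + v * t - t) * Real.exp (c k * t + v * t ^ 2 / 2))) -
      l ^ 2 * ∑ k, W k * Real.exp (c k * (2 * t) + v * (2 * t) ^ 2 / 2)) ≤ J (mix W c v) := by
  have hv' : (v : ℝ) ≠ 0 := by exact_mod_cast hv
  rw [J_mix W c hW hv]
  let hk : κ → ℝ → ℝ := fun k x =>
    2 * l * ((1 - 1 / (v : ℝ)) * (x * Real.exp (t * x)) + (c k / v) * Real.exp (t * x)) -
      l ^ 2 * Real.exp (2 * t * x)
  have hi_exp : ∀ k (s : ℝ), Integrable (fun x : ℝ => Real.exp (s * x)) (gaussianReal (c k) v) := by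
    intro k s
    have := g_int (c k) v s 0
    simpa using this
  have hi_xexp : ∀ k (s : ℝ), Integrable (fun x : ℝ => x * Real.exp (s * x))
      (gaussianReal (c k) v) := by
    intro k s
    have := g_int (c k) v s 1
    simpa using this
  have hki : ∀ k, Integrable (hk k) (gaussianReal (c k) v) := by
    intro k
    exact ((((hi_xexp k t).const_mul _).add ((hi_exp k t).const_mul _)).const_mul _).sub
      ((hi_exp k (2 * t)).const_mul _)
  have hkint : ∀ k, ∫ x, hk k x ∂(gaussianReal (c k) v) =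
      2 * l * ((c k + v * t - t) * Real.exp (c k * t + v * t ^ 2 / 2)) -
        l ^ 2 * Real.exp (c k * (2 * t) + v * (2 * t) ^ 2 / 2) := by
    intro k
    simp only [hk]
    rw [integral_sub, integral_const_mul, integral_add, integral_const_mul, integral_const_mul,
      integral_const_mul, g_xexp, g_exp, g_exp]
    · field_simp
      ring
    · exact (hi_xexp k t).const_mul _
    · exact (hi_exp k t).const_mul _
    · exact (((hi_xexp k t).const_mul _).add ((hi_exp k t).const_mul _)).const_mul _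
    · exact (hi_exp k (2 * t)).const_mul _
  let H : ℝ → ℝ := fun x => ∑ k, W k * (gaussianPDFReal (c k) v x * hk k x)
  have hHi : Integrable H := by
    apply integrable_finsetSum
    intro k _
    exact (int_pdf (c k) hv (hki k)).const_mul _
  have hHint : ∫ x, H x = 2 * l * (∑ k, W k * ((c k + v * t - t) *
      Real.exp (c k * t + v * t ^ 2 / 2))) -
      l ^ 2 * ∑ k, W k * Real.exp (c k * (2 * t) + v * (2 * t) ^ 2 / 2) := by
    simp only [H]
    rw [integral_finsetSum _ (fun k _ => (int_pdf (c k) hv (hki k)).const_mul _),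
      Finset.mul_sum, Finset.mul_sum, ← Finset.sum_sub_distrib]
    refine Finset.sum_congr rfl (fun k _ => ?_)
    rw [integral_const_mul]
    have := integral_gaussianReal_eq_integral_smul (μ := c k) (f := hk k) hv
    simp only [smul_eq_mul] at this
    rw [← this, hkint]
    ring
  rw [← hHint]
  refine (ofReal_int_le hHi).trans ?_
  apply lintegral_mono
  intro x
  apply ENNReal.ofReal_le_ofReal
  have hpos := dens_pos W c hW h1 hv x
  set d := dens W c v x with hd
  set s := dens' W c v x / d + x with hs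
  have e1 : d * s = dens' W c v x + x * d := by
    rw [hs]; field_simp
  have e2 : H x = 2 * l * (d * s) * Real.exp (t * x) - l ^ 2 * d * Real.exp (t * x) ^ 2 := by
    rw [e1, hd, key_alg]
    simp only [H, hk]
    have e3 : Real.exp (2 * t * x) = Real.exp (t * x) ^ 2 := by
      rw [← Real.exp_nat_mul]; congr 1; push_cast; ring
    rw [e3]
    unfold dens
    simp only [Finset.mul_sum, Finset.sum_mul]
    rw [← Finset.sum_sub_distrib]
    refine Finset.sum_congr rfl (fun k _ => ?_)
    field_simp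
    ring
  rw [e2]
  have h3 : 0 ≤ d * (s - l * Real.exp (t * x)) ^ 2 := by positivity
  nlinarith [h3]

end

end Pool.Agent.H7Ent
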