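import Mathlib
import Pool.Agent.H7EntB

set_option autoImplicit false

open MeasureTheory ProbabilityTheory Finset InformationTheory
open scoped ENNReal NNReal

namespace Pool.Agent.H7Ent

noncomputable section

lemma young {r : ℝ} (hr : 0 ≤ r) (a : ℝ) : a * r - Real.exp a ≤ klFun r := by
  rw [klFun_apply]
  rcases hr.eq_or_lt with h0 | hpos
  · rw [← h0]
    have := Real.exp_pos a
    simp
    linarith
  · have h1 := Real.add_one_le_exp (a - Real.log r)
    have h2 : Real.exp (a - Real.log r) = Real.exp a / r := by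
      rw [Real.exp_sub, Real.exp_log hpos]
    rw [h2, le_div_iff₀ hpos] at h1
    nlinarith

lemma klDiv_lower (ν γ : Measure ℝ) [IsFiniteMeasure ν] [IsFiniteMeasure γ] {A : Set ℝ}
    (hA : MeasurableSet A) (a : ℝ) :
    ENNReal.ofReal (a * ν.real A - Real.exp a * γ.real A) ≤ klDiv ν γ := by
  by_cases hac : ν ≪ γ
  swap
  · rw [klDiv_of_not_ac hac]
    exact le_top
  rw [klDiv_eq_lintegral_klFun_of_ac hac]
  have hi : Integrable (fun x => (ν.rnDeriv γ x).toReal) γ := Measure.integrable_toReal_rnDeriv
  let h : ℝ → ℝ := A.indicator (fun x => a * (ν.rnDeriv γ x).toReal - Real.exp a)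
  have hhi : Integrable h γ := ((hi.const_mul a).sub (integrable_const _)).indicator hA
  have hint : ∫ x, h x ∂γ = a * ν.real A - Real.exp a * γ.real A := by
    simp only [h]
    rw [integral_indicator hA, integral_sub, integral_const_mul,
      Measure.setIntegral_toReal_rnDeriv hac, integral_const]
    · simp [mul_comm]
    · exact (hi.const_mul a).integrableOn
    · exact (integrable_const _).integrableOn
  rw [← hint]
  refine (ofReal_int_le hhi).trans (lintegral_mono (fun x => ENNReal.ofReal_le_ofReal ?_))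
  simp only [h]
  by_cases hx : x ∈ A
  · rw [Set.indicator_of_mem hx]
    exact young ENNReal.toReal_nonneg a
  · rw [Set.indicator_of_notMem hx]
    exact klFun_nonneg ENNReal.toReal_nonneg

lemma gauss_half (m : ℝ) (v : ℝ≥0) : 1 / 2 ≤ (gaussianReal m v).real (Set.Ici m) := by
  have h1 : (gaussianReal m v).real (Set.Ici m) = (gaussianReal 0 v).real (Set.Ici 0) := by
    have : (gaussianReal 0 v).map (fun x => x + m) = gaussianReal m v := by
      rw [gaussianReal_map_add_const]; simp
    rw [← this, map_measureReal_apply (by fun_prop) measurableSet_Ici]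
    congr 1
    ext x
    simp
  have h2 : (gaussianReal 0 v).real (Set.Iic 0) = (gaussianReal 0 v).real (Set.Ici 0) := by
    have : (gaussianReal 0 v).map (fun x => -x) = gaussianReal 0 v := by
      rw [gaussianReal_map_neg]; simp
    conv_lhs => rw [← this]
    rw [map_measureReal_apply (by fun_prop) measurableSet_Iic]
    congr 1
    ext x
    simp
  have h3 : (gaussianReal 0 v).real Set.univ ≤
      (gaussianReal 0 v).real (Set.Iic 0) + (gaussianReal 0 v).real (Set.Ici 0) := by
    refine le_trans (le_of_eq ?_) (measureReal_union_le _ _)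
    congr 1
    rw [Set.Iic_union_Ici]
  rw [probReal_univ, h2] at h3
  rw [h1]
  linarith

lemma gauss_tail {m : ℝ} (hm : 0 ≤ m) :
    (gaussianReal 0 1).real (Set.Ici m) ≤ Real.exp (-(m ^ 2 / 2)) := by
  have h := measure_ge_le_exp_mul_mgf (μ := gaussianReal 0 1) (X := fun x : ℝ => x) m hm
    (integrable_exp_mul_gaussianReal m)
  have h2 : mgf (fun x : ℝ => x) (gaussianReal 0 1) m = Real.exp (m ^ 2 / 2) := by
    rw [mgf_fun_id_gaussianReal]
    simp
  rw [h2, ← Real.exp_add] at h
  refine le_trans (le_of_eq ?_) (h.trans (le_of_eq ?_))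
  · rfl
  · congr 1
    ring

lemma log_ratio (c : ℝ) {v : ℝ≥0} (hv : v ≠ 0) (x : ℝ) :
    Real.log (gaussianPDFReal c v x / gaussianPDFReal 0 1 x) =
      -(Real.log v / 2) - (x - c) ^ 2 / (2 * v) + x ^ 2 / 2 := by
  have hv' : (0 : ℝ) < v := by
    have : 0 < v := pos_iff_ne_zero.2 hv
    exact_mod_cast this
  have hp := gaussianPDFReal_pos c v x hv
  have hq := gaussianPDFReal_pos 0 1 x one_ne_zero
  rw [Real.log_div hp.ne' hq.ne']
  unfold gaussianPDFReal
  have h2pi : (0 : ℝ) < 2 * Real.pi := by positivity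
  rw [Real.log_mul (by positivity) (Real.exp_pos _).ne', Real.log_mul (by positivity)
    (Real.exp_pos _).ne', Real.log_exp, Real.log_exp, Real.log_inv, Real.log_inv,
    Real.log_sqrt (by positivity), Real.log_sqrt (by positivity),
    Real.log_mul h2pi.ne' hv'.ne']
  simp
  ring

lemma sq_int (c : ℝ) (v : ℝ≥0) : ∫ x, x ^ 2 ∂(gaussianReal c v) = c ^ 2 + v := by
  have := g_sq' c 1 v
  simpa using this

lemma klFun_gauss (c : ℝ) {v : ℝ≥0} (hv : v ≠ 0) :
    ∫⁻ x, ENNReal.ofReal (gaussianPDFReal 0 1 x *
      klFun (gaussianPDFReal c v x / gaussianPDFReal 0 1 x)) =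
      ENNReal.ofReal ((v + c ^ 2 - 1 - Real.log v) / 2) := by
  have hv' : (0 : ℝ) < v := by
    have : 0 < v := pos_iff_ne_zero.2 hv
    exact_mod_cast this
  let g : ℝ → ℝ := fun x => -(Real.log v / 2) - (x - c) ^ 2 / (2 * v) + x ^ 2 / 2
  have hi1 : Integrable (fun x : ℝ => x) (gaussianReal c v) := by
    simpa using g_int_pow c v 1
  have hi2 := g_int_pow c v 2
  have hic : Integrable (fun x : ℝ => (x - c) ^ 2) (gaussianReal c v) := by
    have : (fun x : ℝ => (x - c) ^ 2) = fun x => x ^ 2 - (2 * c) * x + c ^ 2 := by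
      funext x; ring
    rw [this]
    exact (hi2.sub (hi1.const_mul _)).add (integrable_const _)
  have hgi : Integrable g (gaussianReal c v) :=
    ((integrable_const _).sub (hic.div_const _)).add (hi2.div_const _)
  have hgint : ∫ x, g x ∂(gaussianReal c v) = (v + c ^ 2 - 1 - Real.log v) / 2 := by
    simp only [g]
    rw [integral_add, integral_sub, integral_div, integral_div, g_sq,
      sq_int, integral_const]
    · simp
      field_simp
      ring
    · exact integrable_const _
    · exact hic.div_const _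
    · exact (integrable_const _).sub (hic.div_const _)
    · exact hi2.div_const _
  have e : ∀ x, gaussianPDFReal 0 1 x * klFun (gaussianPDFReal c v x / gaussianPDFReal 0 1 x) =
      gaussianPDFReal c v x * g x + gaussianPDFReal 0 1 x - gaussianPDFReal c v x := by
    intro x
    have hq := gaussianPDFReal_pos 0 1 x one_ne_zero
    rw [klFun_apply, log_ratio c hv]
    simp only [g]
    field_simp
  have hI : Integrable (fun x => gaussianPDFReal c v x * g x + gaussianPDFReal 0 1 x -
      gaussianPDFReal c v x) :=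
    ((int_pdf c hv hgi).add (integrable_gaussianPDFReal 0 1)).sub (integrable_gaussianPDFReal c v)
  have hnn : ∀ x, 0 ≤ gaussianPDFReal c v x * g x + gaussianPDFReal 0 1 x -
      gaussianPDFReal c v x := by
    intro x
    rw [← e]
    exact mul_nonneg (gaussianPDFReal_nonneg _ _ _) (klFun_nonneg (div_nonneg
      (gaussianPDFReal_nonneg _ _ _) (gaussianPDFReal_nonneg _ _ _)))
  simp only [e]
  rw [← ofReal_integral_eq_lintegral_ofReal hI (ae_of_all _ hnn)]
  congr 1
  have this := integral_gaussianReal_eq_integral_smul (μ := c) (f := g) hv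
  simp only [smul_eq_mul] at this
  rw [integral_sub, integral_add, integral_gaussianPDFReal_eq_one _ hv,
    integral_gaussianPDFReal_eq_one _ one_ne_zero, ← this, hgint]
  · ring
  · exact int_pdf c hv hgi
  · exact integrable_gaussianPDFReal 0 1
  · exact (int_pdf c hv hgi).add (integrable_gaussianPDFReal 0 1)
  · exact integrable_gaussianPDFReal c v

lemma D_mix {κ : Type} [Fintype κ] (W c : κ → ℝ) (hW : ∀ k, 0 ≤ W k) {v : ℝ≥0} (hv : v ≠ 0) :
    D (mix W c v) = ∫⁻ x, ENNReal.ofReal (gaussianPDFReal 0 1 x *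
      klFun (dens W c v x / gaussianPDFReal 0 1 x)) := by
  let r : ℝ → ℝ≥0∞ := fun x => ENNReal.ofReal (dens W c v x / gaussianPDFReal 0 1 x)
  have hcont : Continuous (fun x => dens W c v x / gaussianPDFReal 0 1 x) := by
    apply (continuous_dens W c v).div (continuous_pdf 0 1)
    intro x
    exact (gaussianPDFReal_pos 0 1 x one_ne_zero).ne'
  have hrm : Measurable r := hcont.measurable.ennreal_ofReal
  have hmix : mix W c v = (gaussianReal 0 1).withDensity r := by
    rw [mix_eq W c hW hv, gaussianReal_of_var_ne_zero _ one_ne_zero,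
      ← withDensity_mul _ (measurable_gaussianPDF _ _) hrm]
    congr 1
    funext x
    simp only [Pi.mul_apply, r]
    unfold gaussianPDF
    rw [← ENNReal.ofReal_mul (gaussianPDFReal_nonneg _ _ _)]
    congr 1
    have hq := gaussianPDFReal_pos 0 1 x one_ne_zero
    field_simp
  have hac : mix W c v ≪ gaussianReal 0 1 := by
    rw [hmix]
    exact withDensity_absolutelyContinuous _ _
  unfold D
  rw [klDiv_eq_lintegral_klFun_of_ac hac]
  have hrn : (mix W c v).rnDeriv (gaussianReal 0 1) =ᵐ[gaussianReal 0 1] r := by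
    rw [hmix]
    exact Measure.rnDeriv_withDensity _ hrm
  have e1 : ∫⁻ x, ENNReal.ofReal (klFun ((mix W c v).rnDeriv (gaussianReal 0 1) x).toReal)
      ∂(gaussianReal 0 1) = ∫⁻ x, ENNReal.ofReal
        (klFun (dens W c v x / gaussianPDFReal 0 1 x)) ∂(gaussianReal 0 1) := by
    apply lintegral_congr_ae
    filter_upwards [hrn] with x hx
    rw [hx]
    simp only [r]
    rw [ENNReal.toReal_ofReal (div_nonneg (dens_nonneg W c hW v x)
      (gaussianPDFReal_nonneg _ _ _))]
  rw [e1, ← lint_pdf 0 one_ne_zero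
    (fun x => ENNReal.ofReal (klFun (dens W c v x / gaussianPDFReal 0 1 x)))
    ((measurable_klFun.comp hcont.measurable).ennreal_ofReal)]
  refine lintegral_congr (fun x => ?_)
  unfold gaussianPDF
  rw [← ENNReal.ofReal_mul (gaussianPDFReal_nonneg _ _ _)]

lemma D_mix_le {κ : Type} [Fintype κ] (W c : κ → ℝ) (hW : ∀ k, 0 ≤ W k) (h1 : ∑ k, W k = 1)
    {v : ℝ≥0} (hv : v ≠ 0) (hpos : ∀ k, 0 ≤ (v + c k ^ 2 - 1 - Real.log v) / 2) :
    D (mix W c v) ≤ ENNReal.ofReal (∑ k, W k * ((v + c k ^ 2 - 1 - Real.log v) / 2)) := by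
  rw [D_mix W c hW hv]
  have hpt : ∀ x, ENNReal.ofReal (gaussianPDFReal 0 1 x *
      klFun (dens W c v x / gaussianPDFReal 0 1 x)) ≤
      ∑ k, ENNReal.ofReal (W k) * ENNReal.ofReal (gaussianPDFReal 0 1 x *
        klFun (gaussianPDFReal (c k) v x / gaussianPDFReal 0 1 x)) := by
    intro x
    have hq := gaussianPDFReal_pos 0 1 x one_ne_zero
    have h2 := convexOn_klFun.map_sum_le (t := univ) (w := W)
      (p := fun k => gaussianPDFReal (c k) v x / gaussianPDFReal 0 1 x) (fun k _ => hW k) h1
      (fun k _ => div_nonneg (gaussianPDFReal_nonneg _ _ _) hq.le)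
    simp only [smul_eq_mul] at h2
    have e1 : ∑ k, W k * (gaussianPDFReal (c k) v x / gaussianPDFReal 0 1 x) =
        dens W c v x / gaussianPDFReal 0 1 x := by
      unfold dens
      rw [Finset.sum_div]
      refine Finset.sum_congr rfl (fun k _ => ?_)
      ring
    rw [e1] at h2
    have hnn : ∀ k, 0 ≤ gaussianPDFReal 0 1 x *
        klFun (gaussianPDFReal (c k) v x / gaussianPDFReal 0 1 x) := fun k =>
      mul_nonneg hq.le (klFun_nonneg (div_nonneg (gaussianPDFReal_nonneg _ _ _) hq.le))
    refine (ENNReal.ofReal_le_ofReal (mul_le_mul_of_nonneg_left h2 hq.le)).trans (le_of_eq ?_)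
    rw [Finset.mul_sum, ENNReal.ofReal_sum_of_nonneg]
    · refine Finset.sum_congr rfl (fun k _ => ?_)
      rw [← ENNReal.ofReal_mul (hW k)]
      congr 1
      ring
    · intro k _
      have := mul_nonneg (hW k) (hnn k)
      calc 0 ≤ _ := this
        _ = _ := by ring
  refine (lintegral_mono hpt).trans (le_of_eq ?_)
  have hm : ∀ k, Measurable (fun x => ENNReal.ofReal (gaussianPDFReal 0 1 x *
        klFun (gaussianPDFReal (c k) v x / gaussianPDFReal 0 1 x))) := by
    intro k
    have h1 := measurable_gaussianPDFReal 0 1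
    have h2 := measurable_gaussianPDFReal (c k) v
    exact (h1.mul (measurable_klFun.comp (h2.div h1))).ennreal_ofReal
  rw [lintegral_finsetSum _ (fun k _ => (hm k).const_mul _), ENNReal.ofReal_sum_of_nonneg]
  · refine Finset.sum_congr rfl (fun k _ => ?_)
    rw [lintegral_const_mul _ (hm k), klFun_gauss (c k) hv, ENNReal.ofReal_mul (hW k)]
  · intro k _
    exact mul_nonneg (hW k) (hpos k)

end

end Pool.Agent.H7Ent
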