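import Mathlib
import Pool.Agent.H7EntC

set_option autoImplicit false

open MeasureTheory ProbabilityTheory Finset InformationTheory
open scoped ENNReal NNReal

namespace Pool.Agent.H7Ent

noncomputable section

lemma mix_integrable {κ : Type} [Fintype κ] (W c : κ → ℝ) (v : ℝ≥0) {f : ℝ → ℝ}
    (hf : ∀ k, Integrable f (gaussianReal (c k) v)) : Integrable f (mix W c v) := by
  unfold mix
  rw [integrable_finsetSum_measure]
  intro k _
  exact (hf k).smul_measure ENNReal.ofReal_ne_top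

lemma mix_integral {κ : Type} [Fintype κ] (W c : κ → ℝ) (hW : ∀ k, 0 ≤ W k) (v : ℝ≥0)
    {f : ℝ → ℝ} (hf : ∀ k, Integrable f (gaussianReal (c k) v)) :
    ∫ x, f x ∂(mix W c v) = ∑ k, W k * ∫ x, f x ∂(gaussianReal (c k) v) := by
  unfold mix
  rw [integral_finsetSum_measure (fun k _ => (hf k).smul_measure ENNReal.ofReal_ne_top)]
  refine Finset.sum_congr rfl (fun k _ => ?_)
  rw [integral_smul_measure, ENNReal.toReal_ofReal (hW k), smul_eq_mul]

lemma four_moment (c : ℝ) {v : ℝ≥0} (hv : (v : ℝ) ≤ 1) :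
    ∫ x, x ^ 4 ∂(gaussianReal c v) ≤ 8 * c ^ 4 + 640 := by
  have hE : ∀ s : ℝ, Integrable (fun x : ℝ => Real.exp (s * x)) (gaussianReal c v) := by
    intro s
    have := g_int c v s 0
    simpa using this
  let g : ℝ → ℝ := fun x => 8 * c ^ 4 + 192 * (Real.exp (-c) * Real.exp (1 * x) +
    Real.exp c * Real.exp (-1 * x))
  have hgi : Integrable g (gaussianReal c v) :=
    (integrable_const _).add ((((hE 1).const_mul _).add ((hE (-1)).const_mul _)).const_mul _)
  have hle : ∀ x : ℝ, x ^ 4 ≤ g x := by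
    intro x
    have h1 : x ^ 4 ≤ 8 * c ^ 4 + 8 * |x - c| ^ 4 := by
      have e : |x - c| ^ 4 = (x - c) ^ 4 := by
        rw [show (4 : ℕ) = 2 * 2 from rfl, pow_mul, pow_mul, sq_abs]
      rw [e]
      nlinarith [sq_nonneg (x ^ 2 - 4 * x * c + 4 * c ^ 2 - c ^ 2), sq_nonneg (x - 2 * c),
        sq_nonneg (x * (x - 2 * c)), sq_nonneg (c * (x - 2 * c)), sq_nonneg (x - c),
        sq_nonneg ((x - c) ^ 2 - c ^ 2), sq_nonneg ((x - c) - c), sq_nonneg (x),
        mul_nonneg (sq_nonneg x) (sq_nonneg (x - 2 * c)),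
        mul_nonneg (sq_nonneg c) (sq_nonneg (x - 2 * c))]
    have h2 : |x - c| ^ 4 / 24 ≤ Real.exp |x - c| := by
      have := Real.pow_div_factorial_le_exp |x - c| (abs_nonneg _) 4
      simpa [Nat.factorial] using this
    have h3 : Real.exp |x - c| ≤ Real.exp (-c) * Real.exp (1 * x) +
        Real.exp c * Real.exp (-1 * x) := by
      rw [← Real.exp_add, ← Real.exp_add]
      rcases abs_cases (x - c) with ⟨h, _⟩ | ⟨h, _⟩
      · rw [h]
        have : Real.exp (x - c) = Real.exp (-c + 1 * x) := by congr 1; ring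
        rw [this]
        have := Real.exp_pos (c + -1 * x)
        linarith
      · rw [h]
        have : Real.exp (-(x - c)) = Real.exp (c + -1 * x) := by congr 1; ring
        rw [this]
        have := Real.exp_pos (-c + 1 * x)
        linarith
    simp only [g]
    linarith
  have h4 := integral_mono (g_int_pow c v 4) hgi hle
  refine h4.trans ?_
  have h5 : ∫ x, g x ∂(gaussianReal c v) = 8 * c ^ 4 + 192 * (Real.exp (-c) *
      Real.exp (c * 1 + v * 1 ^ 2 / 2) + Real.exp c * Real.exp (c * (-1) + v * (-1) ^ 2 / 2)) := by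
    simp only [g]
    generalize 8 * c ^ 4 = C0
    rw [integral_add, integral_const_mul, integral_add, integral_const_mul, integral_const_mul,
      g_exp, g_exp, integral_const]
    · simp
    · exact (hE 1).const_mul _
    · exact (hE (-1)).const_mul _
    · exact integrable_const _
    · exact (((hE 1).const_mul _).add ((hE (-1)).const_mul _)).const_mul _
  rw [h5, ← Real.exp_add, ← Real.exp_add]
  have e1 : -c + (c * 1 + (v : ℝ) * 1 ^ 2 / 2) = v / 2 := by ring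
  have e2 : c + (c * (-1) + (v : ℝ) * (-1) ^ 2 / 2) = v / 2 := by ring
  rw [e1, e2]
  have h6 : Real.exp ((v : ℝ) / 2) ≤ 5 / 3 := by
    have h7 : Real.exp ((v : ℝ) / 2) ≤ Real.exp (1 / 2) := Real.exp_le_exp.2 (by linarith)
    have h8 : Real.exp (1 / 2) ^ 2 = Real.exp 1 := by
      rw [← Real.exp_nat_mul]; norm_num
    have h9 := Real.exp_one_lt_d9
    have h10 := Real.exp_pos (1 / 2 : ℝ)
    refine h7.trans ?_
    nlinarith
  linarith

/-! ### The parameters -/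

section params

variable (K : ℕ)

def del : ℝ := 1 / (K : ℝ) ^ 8

def wt : Fin 3 → ℝ := ![1 - del K, del K / 2, del K / 2]

def ct : Fin 3 → ℝ := ![0, (K : ℝ) ^ 2, -(K : ℝ) ^ 2]

def vt : ℝ≥0 := (1 - 1 / (K : ℝ) ^ 4).toNNReal

variable {K}

lemma hKr (hK : 100 ≤ K) : (100 : ℝ) ≤ K := by exact_mod_cast hK

lemma del_pos (hK : 100 ≤ K) : 0 < del K := by
  have := hKr hK
  unfold del
  positivity

lemma del_le (hK : 100 ≤ K) : del K ≤ 1 / 100 := by
  have h := hKr hK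
  unfold del
  apply one_div_le_one_div_of_le (by norm_num)
  calc (100 : ℝ) ≤ K := h
    _ = (K : ℝ) ^ 1 := (pow_one _).symm
    _ ≤ (K : ℝ) ^ 8 := pow_le_pow_right₀ (by linarith) (by norm_num)

lemma wt_nonneg (hK : 100 ≤ K) : ∀ k, 0 ≤ wt K k := by
  have h1 := del_pos hK
  have h2 := del_le hK
  intro k
  fin_cases k
  · simp [wt]; linarith
  · simp [wt]; linarith
  · simp [wt]; linarith

lemma wt_sum : ∑ k, wt K k = 1 := by
  rw [Fin.sum_univ_three]
  simp [wt]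
  ring

lemma k4_le (hK : 100 ≤ K) : 1 / (K : ℝ) ^ 4 ≤ 1 / 100 := by
  have h := hKr hK
  apply one_div_le_one_div_of_le (by norm_num)
  calc (100 : ℝ) ≤ K := h
    _ = (K : ℝ) ^ 1 := (pow_one _).symm
    _ ≤ (K : ℝ) ^ 4 := pow_le_pow_right₀ (by linarith) (by norm_num)

lemma vt_coe (hK : 100 ≤ K) : (vt K : ℝ) = 1 - 1 / (K : ℝ) ^ 4 := by
  unfold vt
  rw [Real.coe_toNNReal]
  have := k4_le hK
  linarith

lemma vt_ne (hK : 100 ≤ K) : vt K ≠ 0 := by
  intro h
  have h1 := vt_coe hK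
  rw [h] at h1
  have h2 := k4_le hK
  simp at h1
  simp at h2
  linarith

lemma prob_mix (hK : 100 ≤ K) : IsProbabilityMeasure (mix (wt K) (ct K) (vt K)) := by
  refine ⟨?_⟩
  rw [mix_univ _ _ (wt_nonneg hK), wt_sum]
  simp

lemma admissible (hK : 100 ≤ K) : Admissible 648 (mix (wt K) (ct K) (vt K)) := by
  have hr := hKr hK
  have hK0 : (K : ℝ) ≠ 0 := by linarith
  have hi1 : ∀ k, Integrable (fun x : ℝ => x) (gaussianReal (ct K k) (vt K)) := fun k => by
    simpa using g_int_pow (ct K k) (vt K) 1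
  refine ⟨prob_mix hK, mix_integrable _ _ _ (fun k => g_int_pow _ _ 4), ?_, ?_, ?_⟩
  · rw [mix_integral _ _ (wt_nonneg hK) _ hi1, Fin.sum_univ_three]
    simp only [integral_id_gaussianReal]
    simp [wt, ct]
  · rw [mix_integral _ _ (wt_nonneg hK) _ (fun k => g_int_pow _ _ 2), Fin.sum_univ_three]
    simp only [sq_int, vt_coe hK]
    simp only [wt, ct, Matrix.cons_val_zero, Matrix.cons_val_one, Matrix.cons_val]
    unfold del
    field_simp
    ring
  · rw [mix_integral _ _ (wt_nonneg hK) _ (fun k => g_int_pow _ _ 4)]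
    have hv1 : (vt K : ℝ) ≤ 1 := by
      rw [vt_coe hK]
      have : 0 < 1 / (K : ℝ) ^ 4 := by positivity
      linarith
    calc ∑ k, wt K k * ∫ x, x ^ 4 ∂(gaussianReal (ct K k) (vt K))
        ≤ ∑ k, wt K k * (8 * (ct K k) ^ 4 + 640) := by
          apply Finset.sum_le_sum
          intro k _
          exact mul_le_mul_of_nonneg_left (four_moment _ hv1) (wt_nonneg hK k)
      _ = 648 := by
          rw [Fin.sum_univ_three]
          simp only [wt, ct, Matrix.cons_val_zero, Matrix.cons_val_one, Matrix.cons_val]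
          unfold del
          field_simp
          ring
      _ ≤ 648 := le_rfl

/-! ### Upper bounds for the law of `X_1` -/

lemma one_sub_vt (hK : 100 ≤ K) : (1 - (vt K : ℝ)) ^ 2 / vt K ≤ 1 / (K : ℝ) ^ 4 := by
  have hr := hKr hK
  have h4 := k4_le hK
  have hK4 : (0 : ℝ) < 1 / (K : ℝ) ^ 4 := by positivity
  rw [vt_coe hK]
  set e := 1 / (K : ℝ) ^ 4 with he
  rw [div_le_iff₀ (by linarith)]
  nlinarith

lemma J_upper (hK : 100 ≤ K) :
    J (mix (wt K) (ct K) (vt K)) ≤ ENNReal.ofReal (2 / (K : ℝ) ^ 4) := by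
  have hr := hKr hK
  have hvne := vt_ne hK
  have hv0 : (vt K : ℝ) ≠ 0 := by exact_mod_cast hvne
  refine (J_mix_le _ _ (wt_nonneg hK) wt_sum hvne).trans (ENNReal.ofReal_le_ofReal ?_)
  have h1 := one_sub_vt hK
  have e1 : (1 - 1 / (vt K : ℝ)) ^ 2 * vt K = (1 - (vt K : ℝ)) ^ 2 / vt K := by
    field_simp
    ring
  simp only [e1]
  have e2 : ∑ k, wt K k * (ct K k ^ 2 + (1 - (vt K : ℝ)) ^ 2 / vt K) =
      1 / (K : ℝ) ^ 4 + (1 - (vt K : ℝ)) ^ 2 / vt K := by
    generalize (1 - (vt K : ℝ)) ^ 2 / vt K = q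
    rw [Fin.sum_univ_three]
    simp only [wt, ct, Matrix.cons_val_zero, Matrix.cons_val_one, Matrix.cons_val]
    unfold del
    field_simp
    ring
  rw [e2]
  have : 2 / (K : ℝ) ^ 4 = 1 / (K : ℝ) ^ 4 + 1 / (K : ℝ) ^ 4 := by ring
  linarith

lemma D_upper (hK : 100 ≤ K) :
    D (mix (wt K) (ct K) (vt K)) ≤ ENNReal.ofReal (1 / (K : ℝ) ^ 4) := by
  have hr := hKr hK
  have hvne := vt_ne hK
  have hvpos : (0 : ℝ) < vt K := by
    have : 0 < vt K := pos_iff_ne_zero.2 hvne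
    exact_mod_cast this
  have hlog1 : Real.log (vt K) ≤ vt K - 1 := Real.log_le_sub_one_of_pos hvpos
  have hlog2 : -Real.log (vt K) ≤ 1 / vt K - 1 := by
    have := Real.log_le_sub_one_of_pos (x := 1 / (vt K : ℝ)) (by positivity)
    rw [one_div, Real.log_inv] at this
    rw [one_div]
    exact this
  refine (D_mix_le _ _ (wt_nonneg hK) wt_sum hvne (fun k => ?_)).trans
    (ENNReal.ofReal_le_ofReal ?_)
  · have := sq_nonneg (ct K k)
    linarith
  · have h1 := one_sub_vt hK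
    have e1 : (1 - (vt K : ℝ)) ^ 2 / vt K = vt K - 1 + (1 / vt K - 1) := by
      field_simp
      ring
    have e2 : ∑ k, wt K k * ((vt K + ct K k ^ 2 - 1 - Real.log (vt K)) / 2) =
        (1 / (K : ℝ) ^ 4 + (vt K - 1 - Real.log (vt K))) / 2 := by
      generalize Real.log (vt K) = q
      generalize (vt K : ℝ) = q'
      rw [Fin.sum_univ_three]
      simp only [wt, ct, Matrix.cons_val_zero, Matrix.cons_val_one, Matrix.cons_val]
      unfold del
      field_simp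
      ring
    rw [e2]
    linarith

/-! ### The law of `S_n`, `n = K²` -/

def Ws (K : ℕ) (s : Fin (K ^ 2) → Fin 3) : ℝ := ∏ i, wt K (s i)

def cs (K : ℕ) (s : Fin (K ^ 2) → Fin 3) : ℝ := (∑ i, ct K (s i)) / K

lemma lawS_eq (hK : 100 ≤ K) : lawS (mix (wt K) (ct K) (vt K)) (K ^ 2) =
    mix (Ws K) (cs K) (vt K) := by
  haveI := prob_mix hK
  rw [lawS_mix _ _ (wt_nonneg hK) _ (Nat.one_le_pow _ _ (by omega))]
  have : Real.sqrt ((K ^ 2 : ℕ) : ℝ) = K := by
    push_cast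
    exact Real.sqrt_sq (by positivity)
  rw [this]
  rfl

lemma Ws_nonneg (hK : 100 ≤ K) : ∀ s, 0 ≤ Ws K s := fun _ =>
  Finset.prod_nonneg (fun _ _ => wt_nonneg hK _)

lemma Ws_sum : ∑ s, Ws K s = 1 := by
  unfold Ws
  rw [sum_weights_pow, wt_sum, one_pow]

def yy (K : ℕ) (t : ℝ) : ℝ := 1 - del K + del K * Real.cosh (K * t)

lemma Mt (hK : 100 ≤ K) (t : ℝ) : ∑ s, Ws K s * Real.exp (cs K s * t) = yy K t ^ (K ^ 2) := by
  have hr := hKr hK
  have hK0 : (K : ℝ) ≠ 0 := by linarith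
  unfold Ws cs
  rw [mgf_pow]
  congr 1
  rw [Fin.sum_univ_three, yy, Real.cosh_eq]
  simp only [wt, ct, Matrix.cons_val_zero, Matrix.cons_val_one, Matrix.cons_val]
  have e1 : (K : ℝ) ^ 2 * t / K = K * t := by field_simp
  have e2 : -(K : ℝ) ^ 2 * t / K = -(K * t) := by field_simp
  rw [e1, e2]
  simp
  ring

lemma Mt' (hK : 100 ≤ K) (t : ℝ) : ∑ s, Ws K s * (cs K s * Real.exp (cs K s * t)) =
    (K ^ 2 : ℕ) * yy K t ^ (K ^ 2 - 1) * (del K * (Real.sinh (K * t) * K)) := by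
  have h1 : HasDerivAt (fun t => ∑ s, Ws K s * Real.exp (cs K s * t))
      (∑ s, Ws K s * (Real.exp (cs K s * t) * (cs K s * 1))) t := by
    apply HasDerivAt.fun_sum
    intro s _
    exact (((hasDerivAt_id' t).const_mul (cs K s)).exp).const_mul (Ws K s)
  have h2 : HasDerivAt (fun t => yy K t ^ (K ^ 2))
      ((K ^ 2 : ℕ) * yy K t ^ (K ^ 2 - 1) * (del K * (Real.sinh (K * t) * (K * 1)))) t := by
    apply HasDerivAt.fun_pow
    unfold yy
    exact ((((hasDerivAt_id' t).const_mul (K : ℝ)).cosh).const_mul (del K)).const_add _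
  have h3 : (fun t => ∑ s, Ws K s * Real.exp (cs K s * t)) = fun t => yy K t ^ (K ^ 2) := by
    funext t
    exact Mt hK t
  rw [h3] at h1
  have h4 := h1.unique h2
  calc ∑ s, Ws K s * (cs K s * Real.exp (cs K s * t)) =
      ∑ s, Ws K s * (Real.exp (cs K s * t) * (cs K s * 1)) :=
        Finset.sum_congr rfl (fun s _ => by ring)
    _ = _ := h4
    _ = _ := by ring

def tt (K : ℕ) : ℝ := 3 * Real.log K / K

lemma log_le (hK : 100 ≤ K) : Real.log K ≤ K / 5 := by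
  have hr := hKr hK
  have h1 : (0 : ℝ) < Real.sqrt K := Real.sqrt_pos.2 (by linarith)
  have h2 : Real.sqrt K ^ 2 = K := Real.sq_sqrt (by linarith)
  have h3 : Real.log K = 2 * Real.log (Real.sqrt K) := by
    rw [Real.log_sqrt (by linarith)]; ring
  have h4 : Real.log (Real.sqrt K) ≤ Real.sqrt K - 1 := Real.log_le_sub_one_of_pos h1
  have h5 : (10 : ℝ) ≤ Real.sqrt K := by
    rw [show (10 : ℝ) = Real.sqrt 100 by
      rw [show (100 : ℝ) = 10 ^ 2 by norm_num]; exact (Real.sqrt_sq (by norm_num)).symm]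
    exact Real.sqrt_le_sqrt hr
  rw [h3]
  nlinarith

lemma log_nonneg' (hK : 100 ≤ K) : 0 ≤ Real.log K := Real.log_nonneg (by linarith [hKr hK])

lemma tt_le (hK : 100 ≤ K) : tt K ≤ 3 / 5 := by
  have hr := hKr hK
  have h := log_le hK
  unfold tt
  rw [div_le_iff₀ (by linarith)]
  linarith

lemma tt_nonneg (hK : 100 ≤ K) : 0 ≤ tt K := by
  have hr := hKr hK
  have h := log_nonneg' hK
  unfold tt
  positivity

lemma exp_tt (hK : 100 ≤ K) : Real.exp (K * tt K) = (K : ℝ) ^ 3 := by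
  have hr := hKr hK
  have hK0 : (K : ℝ) ≠ 0 := by linarith
  have : (K : ℝ) * tt K = (3 : ℕ) * Real.log K := by
    unfold tt
    push_cast
    field_simp
  rw [this, Real.exp_nat_mul, Real.exp_log (by linarith)]

lemma yy_ge (hK : 100 ≤ K) (t : ℝ) : 1 ≤ yy K t := by
  unfold yy
  have h1 := Real.one_le_cosh (K * t)
  have h2 := del_pos hK
  nlinarith

lemma cosh_le_exp {x : ℝ} (hx : 0 ≤ x) : Real.cosh x ≤ Real.exp x := by
  rw [Real.cosh_eq]
  have : Real.exp (-x) ≤ Real.exp x := Real.exp_le_exp.2 (by linarith)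
  linarith

lemma A_lower (hK : 100 ≤ K) : 1 / (8 * (K : ℝ) ^ 2) ≤
    ∑ s, Ws K s * ((cs K s + vt K * tt K - tt K) *
      Real.exp (cs K s * tt K + vt K * tt K ^ 2 / 2)) := by
  have hr := hKr hK
  have hk0 : (K : ℝ) ≠ 0 := by linarith
  have hkpos : (0 : ℝ) < K := by linarith
  have e1 : ∑ s, Ws K s * ((cs K s + vt K * tt K - tt K) *
      Real.exp (cs K s * tt K + vt K * tt K ^ 2 / 2)) =
      Real.exp (vt K * tt K ^ 2 / 2) * (∑ s, Ws K s * (cs K s * Real.exp (cs K s * tt K)) -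
        (1 - vt K) * tt K * ∑ s, Ws K s * Real.exp (cs K s * tt K)) := by
    rw [Finset.mul_sum, ← Finset.sum_sub_distrib, Finset.mul_sum]
    refine Finset.sum_congr rfl (fun s _ => ?_)
    rw [Real.exp_add]
    ring
  rw [e1, Mt hK, Mt' hK]
  set y := yy K (tt K) with hy
  have hy1 : 1 ≤ y := yy_ge hK _
  have hpow : y ^ (K ^ 2) = y ^ (K ^ 2 - 1) * y := by
    rw [← pow_succ]
    congr 1
    have : 1 ≤ K ^ 2 := Nat.one_le_pow _ _ (by omega)
    omega
  rw [hpow]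
  set Y := y ^ (K ^ 2 - 1) with hY
  have hY1 : 1 ≤ Y := one_le_pow₀ hy1
  have hexp : 1 ≤ Real.exp (vt K * tt K ^ 2 / 2) := Real.one_le_exp (by positivity)
  have hsinh : (K : ℝ) ^ 3 / 4 ≤ Real.sinh (K * tt K) := by
    rw [Real.sinh_eq, Real.exp_neg, exp_tt hK]
    have h1 : ((K : ℝ) ^ 3)⁻¹ ≤ 1 := inv_le_one_of_one_le₀ (one_le_pow₀ (by linarith))
    have h2 : (2 : ℝ) ≤ (K : ℝ) ^ 3 := by
      calc (2 : ℝ) ≤ K := by linarith
        _ = (K : ℝ) ^ 1 := (pow_one _).symm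
        _ ≤ (K : ℝ) ^ 3 := pow_le_pow_right₀ (by linarith) (by norm_num)
    linarith
  have hy2 : y ≤ 2 := by
    have h1 : Real.cosh (K * tt K) ≤ (K : ℝ) ^ 3 := by
      refine (cosh_le_exp ?_).trans (le_of_eq (exp_tt hK))
      have := tt_nonneg hK
      positivity
    have h2 : del K * (K : ℝ) ^ 3 ≤ 1 := by
      unfold del
      rw [one_div, inv_mul_le_iff₀ (by positivity), mul_one]
      exact pow_le_pow_right₀ (by linarith) (by norm_num)
    have h3 := del_pos hK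
    have h4 : del K * Real.cosh (K * tt K) ≤ del K * (K : ℝ) ^ 3 :=
      mul_le_mul_of_nonneg_left h1 h3.le
    rw [hy, yy]
    linarith
  have hbr : 1 / (8 * (K : ℝ) ^ 2) ≤
      (K : ℝ) ^ 2 * (del K * (Real.sinh (K * tt K) * K)) - (1 - vt K) * tt K * y := by
    have h1 : (K : ℝ) ^ 2 * (del K * ((K : ℝ) ^ 3 / 4 * K)) = 1 / (4 * (K : ℝ) ^ 2) := by
      unfold del
      field_simp
    have h2 : (K : ℝ) ^ 2 * (del K * ((K : ℝ) ^ 3 / 4 * K)) ≤
        (K : ℝ) ^ 2 * (del K * (Real.sinh (K * tt K) * K)) := by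
      have := del_pos hK
      gcongr
    have h3 : (1 - (vt K : ℝ)) * tt K * y ≤ 1 / (K : ℝ) ^ 4 * (3 / 5) * 2 := by
      rw [vt_coe hK]
      have h4 : (1 : ℝ) - (1 - 1 / (K : ℝ) ^ 4) = 1 / (K : ℝ) ^ 4 := by ring
      rw [h4]
      have := tt_le hK
      have := tt_nonneg hK
      gcongr
    have h5 : 1 / (K : ℝ) ^ 4 * (3 / 5) * 2 ≤ 1 / (8 * (K : ℝ) ^ 2) := by
      rw [div_mul_eq_mul_div, div_mul_eq_mul_div, div_le_div_iff₀ (by positivity) (by positivity)]
      have : (100 : ℝ) ≤ (K : ℝ) ^ 2 := by nlinarith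
      have h6 : (K : ℝ) ^ 4 = (K : ℝ) ^ 2 * (K : ℝ) ^ 2 := by ring
      rw [h6]
      nlinarith
    have h7 : 1 / (4 * (K : ℝ) ^ 2) = 1 / (8 * (K : ℝ) ^ 2) + 1 / (8 * (K : ℝ) ^ 2) := by
      field_simp
      norm_num
    linarith
  have hA0 : 0 ≤ 1 / (8 * (K : ℝ) ^ 2) := by positivity
  push_cast
  calc 1 / (8 * (K : ℝ) ^ 2) = 1 * (1 * (1 / (8 * (K : ℝ) ^ 2))) := by ring
    _ ≤ Real.exp (vt K * tt K ^ 2 / 2) * (Y * ((K : ℝ) ^ 2 * (del K *
        (Real.sinh (K * tt K) * K)) - (1 - vt K) * tt K * y)) := by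
        gcongr
    _ = _ := by ring

lemma B_upper (hK : 100 ≤ K) :
    ∑ s, Ws K s * Real.exp (cs K s * (2 * tt K) + vt K * (2 * tt K) ^ 2 / 2) ≤ 9 := by
  have hr := hKr hK
  have hk0 : (K : ℝ) ≠ 0 := by linarith
  have hkpos : (0 : ℝ) < K := by linarith
  have e1 : ∑ s, Ws K s * Real.exp (cs K s * (2 * tt K) + vt K * (2 * tt K) ^ 2 / 2) =
      Real.exp (vt K * (2 * tt K) ^ 2 / 2) * ∑ s, Ws K s * Real.exp (cs K s * (2 * tt K)) := by
    rw [Finset.mul_sum]
    refine Finset.sum_congr rfl (fun s _ => ?_)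
    rw [Real.exp_add]
    ring
  rw [e1, Mt hK]
  have h1 : Real.exp (vt K * (2 * tt K) ^ 2 / 2) ≤ Real.exp 1 := by
    apply Real.exp_le_exp.2
    have h2 := tt_le hK
    have h3 := tt_nonneg hK
    have h4 : (vt K : ℝ) ≤ 1 := by
      rw [vt_coe hK]
      have : 0 < 1 / (K : ℝ) ^ 4 := by positivity
      linarith
    have h5 : (vt K : ℝ) * (2 * tt K) ^ 2 ≤ 1 * (2 * (3 / 5)) ^ 2 := by gcongr
    linarith
  have h2 : yy K (2 * tt K) ≤ Real.exp (1 / (K : ℝ) ^ 2) := by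
    have h3 : Real.cosh (K * (2 * tt K)) ≤ (K : ℝ) ^ 6 := by
      have h4 : Real.exp (K * (2 * tt K)) = (K : ℝ) ^ 6 := by
        have : (K : ℝ) * (2 * tt K) = (2 : ℕ) * (K * tt K) := by push_cast; ring
        rw [this, Real.exp_nat_mul, exp_tt hK]
        ring
      rw [← h4]
      apply cosh_le_exp
      have := tt_nonneg hK
      positivity
    have h5 : del K * (K : ℝ) ^ 6 = 1 / (K : ℝ) ^ 2 := by
      unfold del
      field_simp
    have h6 := del_pos hK
    have h7 : del K * Real.cosh (K * (2 * tt K)) ≤ 1 / (K : ℝ) ^ 2 := by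
      rw [← h5]
      exact mul_le_mul_of_nonneg_left h3 h6.le
    have h8 := Real.add_one_le_exp (1 / (K : ℝ) ^ 2)
    unfold yy
    linarith
  have h3 : yy K (2 * tt K) ^ (K ^ 2) ≤ Real.exp 1 := by
    calc yy K (2 * tt K) ^ (K ^ 2) ≤ Real.exp (1 / (K : ℝ) ^ 2) ^ (K ^ 2) :=
          pow_le_pow_left₀ (by linarith [yy_ge hK (2 * tt K)]) h2 _
      _ = Real.exp 1 := by
          rw [← Real.exp_nat_mul]
          congr 1
          push_cast
          field_simp
  have h4 : 0 ≤ yy K (2 * tt K) ^ (K ^ 2) := by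
    have := yy_ge hK (2 * tt K)
    positivity
  have h5 := Real.exp_one_lt_d9
  have h6 := Real.exp_pos 1
  calc Real.exp (vt K * (2 * tt K) ^ 2 / 2) * yy K (2 * tt K) ^ (K ^ 2)
      ≤ Real.exp 1 * Real.exp 1 := by gcongr
    _ ≤ 9 := by nlinarith

lemma J_lower (hK : 100 ≤ K) : ENNReal.ofReal (1 / (576 * (K : ℝ) ^ 4)) ≤
    J (lawS (mix (wt K) (ct K) (vt K)) (K ^ 2)) := by
  have hr := hKr hK
  have hkpos : (0 : ℝ) < K := by linarith
  rw [lawS_eq hK]
  refine le_trans (ENNReal.ofReal_le_ofReal ?_)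
    (J_mix_ge (Ws K) (cs K) (Ws_nonneg hK) Ws_sum (vt_ne hK) (tt K) (1 / (72 * (K : ℝ) ^ 2)))
  have hA := A_lower hK
  have hB := B_upper hK
  set A := ∑ s, Ws K s * ((cs K s + vt K * tt K - tt K) *
      Real.exp (cs K s * tt K + vt K * tt K ^ 2 / 2))
  set B := ∑ s, Ws K s * Real.exp (cs K s * (2 * tt K) + vt K * (2 * tt K) ^ 2 / 2)
  have h1 : 2 * (1 / (72 * (K : ℝ) ^ 2)) * (1 / (8 * (K : ℝ) ^ 2)) ≤
      2 * (1 / (72 * (K : ℝ) ^ 2)) * A := by gcongr
  have h2 : (1 / (72 * (K : ℝ) ^ 2)) ^ 2 * B ≤ (1 / (72 * (K : ℝ) ^ 2)) ^ 2 * 9 := by gcongr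
  have h3 : 1 / (576 * (K : ℝ) ^ 4) = 2 * (1 / (72 * (K : ℝ) ^ 2)) * (1 / (8 * (K : ℝ) ^ 2)) -
      (1 / (72 * (K : ℝ) ^ 2)) ^ 2 * 9 := by
    field_simp
    norm_num
  rw [h3]
  linarith

lemma mix_real {κ : Type} [Fintype κ] (W c : κ → ℝ) (hW : ∀ k, 0 ≤ W k) (v : ℝ≥0) (A : Set ℝ) :
    (mix W c v).real A = ∑ k, W k * (gaussianReal (c k) v).real A := by
  unfold Measure.real
  rw [mix_apply, ENNReal.toReal_sum]
  · refine Finset.sum_congr rfl (fun k _ => ?_)
    rw [ENNReal.toReal_mul, ENNReal.toReal_ofReal (hW k)]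
  · intro k _
    exact ENNReal.mul_ne_top ENNReal.ofReal_ne_top (measure_ne_top _ _)

def sing (K : ℕ) (i : Fin (K ^ 2)) : Fin (K ^ 2) → Fin 3 := fun j => if j = i then 1 else 0

lemma sing_inj : Function.Injective (sing K) := by
  intro i i' h
  by_contra hne
  have := congrFun h i
  unfold sing at this
  rw [if_pos rfl, if_neg hne] at this
  exact absurd this (by decide)

lemma cs_sing (hK : 100 ≤ K) (i : Fin (K ^ 2)) : cs K (sing K i) = K := by
  have hr := hKr hK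
  have hk0 : (K : ℝ) ≠ 0 := by linarith
  have h1 : ∀ j, ct K (sing K i j) = if j = i then (K : ℝ) ^ 2 else 0 := by
    intro j
    unfold sing
    split_ifs
    · simp [ct]
    · simp [ct]
  unfold cs
  simp only [h1]
  rw [Finset.sum_ite_eq' univ i, if_pos (mem_univ _)]
  field_simp

lemma Ws_sing (i : Fin (K ^ 2)) :
    Ws K (sing K i) = del K / 2 * (1 - del K) ^ (K ^ 2 - 1) := by
  have h1 : ∀ j, wt K (sing K i j) = if j = i then del K / 2 else 1 - del K := by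
    intro j
    unfold sing
    split_ifs
    · simp [wt]
    · simp [wt]
  unfold Ws
  simp only [h1]
  rw [← Finset.mul_prod_erase univ _ (mem_univ i), if_pos rfl]
  congr 1
  rw [Finset.prod_congr rfl (g := fun _ => 1 - del K)]
  · rw [Finset.prod_const, Finset.card_erase_of_mem (mem_univ _), Finset.card_univ,
      Fintype.card_fin]
  · intro j hj
    rw [if_neg (Finset.ne_of_mem_erase hj)]

lemma mass_lower (hK : 100 ≤ K) :
    1 / (8 * (K : ℝ) ^ 6) ≤ (mix (Ws K) (cs K) (vt K)).real (Set.Ici (K : ℝ)) := by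
  have hr := hKr hK
  have hkpos : (0 : ℝ) < K := by linarith
  rw [mix_real _ _ (Ws_nonneg hK)]
  have h1 : ∑ i : Fin (K ^ 2), Ws K (sing K i) * (gaussianReal (cs K (sing K i)) (vt K)).real
      (Set.Ici (K : ℝ)) ≤ ∑ s, Ws K s * (gaussianReal (cs K s) (vt K)).real
      (Set.Ici (K : ℝ)) := by
    rw [← Finset.sum_image (s := univ) (g := sing K)
      (f := fun s => Ws K s * (gaussianReal (cs K s) (vt K)).real (Set.Ici (K : ℝ)))
      (fun i _ j _ h => sing_inj h)]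
    apply Finset.sum_le_univ_sum_of_nonneg
    intro s
    exact mul_nonneg (Ws_nonneg hK s) measureReal_nonneg
  refine le_trans ?_ h1
  have hd := del_pos hK
  have hd1 := del_le hK
  have h2 : (1 : ℝ) / 2 ≤ (1 - del K) ^ (K ^ 2 - 1) := by
    have h3 := one_add_mul_le_pow (a := -del K) (by linarith) (K ^ 2 - 1)
    have h4 : ((K ^ 2 - 1 : ℕ) : ℝ) * del K ≤ 1 / 2 := by
      have h5 : ((K ^ 2 - 1 : ℕ) : ℝ) ≤ (K : ℝ) ^ 2 := by
        have : ((K ^ 2 - 1 : ℕ) : ℝ) ≤ ((K ^ 2 : ℕ) : ℝ) := by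
          exact_mod_cast Nat.sub_le _ _
        push_cast at this
        exact this
      have h6 : (K : ℝ) ^ 2 * del K = 1 / (K : ℝ) ^ 6 := by
        unfold del
        field_simp
      have h7 : 1 / (K : ℝ) ^ 6 ≤ 1 / 2 := by
        apply one_div_le_one_div_of_le (by norm_num)
        calc (2 : ℝ) ≤ K := by linarith
          _ = (K : ℝ) ^ 1 := (pow_one _).symm
          _ ≤ (K : ℝ) ^ 6 := pow_le_pow_right₀ (by linarith) (by norm_num)
      calc ((K ^ 2 - 1 : ℕ) : ℝ) * del K ≤ (K : ℝ) ^ 2 * del K := by gcongr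
        _ ≤ 1 / 2 := by rw [h6]; exact h7
    have h8 : (1 : ℝ) + -del K = 1 - del K := by ring
    rw [h8] at h3
    have h9 : ((K ^ 2 - 1 : ℕ) : ℝ) * -del K = -(((K ^ 2 - 1 : ℕ) : ℝ) * del K) := by ring
    rw [h9] at h3
    linarith
  calc 1 / (8 * (K : ℝ) ^ 6) = ∑ _i : Fin (K ^ 2), del K / 2 * (1 / 2) * (1 / 2) := by
        rw [Finset.sum_const, Finset.card_univ, Fintype.card_fin, nsmul_eq_mul]
        unfold del
        push_cast
        field_simp
        norm_num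
    _ ≤ _ := by
        apply Finset.sum_le_sum
        intro i _
        rw [Ws_sing, cs_sing hK]
        have h3 := gauss_half (K : ℝ) (vt K)
        gcongr

lemma D_lower (hK : 100 ≤ K) : ENNReal.ofReal (1 / (64 * (K : ℝ) ^ 4)) ≤
    D (lawS (mix (wt K) (ct K) (vt K)) (K ^ 2)) := by
  have hr := hKr hK
  have hkpos : (0 : ℝ) < K := by linarith
  rw [lawS_eq hK]
  unfold D
  refine le_trans (ENNReal.ofReal_le_ofReal ?_)
    (klDiv_lower _ _ (measurableSet_Ici (a := (K : ℝ))) ((K : ℝ) ^ 2 / 2 - 8 * Real.log K))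
  have h1 := mass_lower hK
  have h2 := gauss_tail hkpos.le
  have h3 := log_le hK
  have h4 : (K : ℝ) ^ 2 / 4 ≤ (K : ℝ) ^ 2 / 2 - 8 * Real.log K := by nlinarith
  have h5 : (K : ℝ) ^ 2 / 4 * (1 / (8 * (K : ℝ) ^ 6)) ≤ ((K : ℝ) ^ 2 / 2 - 8 * Real.log K) *
      (mix (Ws K) (cs K) (vt K)).real (Set.Ici (K : ℝ)) := by
    have : (0 : ℝ) ≤ (K : ℝ) ^ 2 / 4 := by positivity
    gcongr
    linarith
  have h6 : Real.exp ((K : ℝ) ^ 2 / 2 - 8 * Real.log K) *
      (gaussianReal 0 1).real (Set.Ici (K : ℝ)) ≤ 1 / (K : ℝ) ^ 8 := by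
    calc Real.exp ((K : ℝ) ^ 2 / 2 - 8 * Real.log K) *
        (gaussianReal 0 1).real (Set.Ici (K : ℝ)) ≤
        Real.exp ((K : ℝ) ^ 2 / 2 - 8 * Real.log K) * Real.exp (-((K : ℝ) ^ 2 / 2)) := by gcongr
      _ = Real.exp (-((8 : ℕ) * Real.log K)) := by
          rw [← Real.exp_add]
          congr 1
          push_cast
          ring
      _ = 1 / (K : ℝ) ^ 8 := by
          rw [Real.exp_neg, Real.exp_nat_mul, Real.exp_log hkpos, one_div]
  have h7 : (K : ℝ) ^ 2 / 4 * (1 / (8 * (K : ℝ) ^ 6)) = 2 * (1 / (64 * (K : ℝ) ^ 4)) := by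
    field_simp
    norm_num
  have h8 : 1 / (K : ℝ) ^ 8 ≤ 1 / (64 * (K : ℝ) ^ 4) := by
    apply one_div_le_one_div_of_le (by positivity)
    have h9 : (64 : ℝ) ≤ (K : ℝ) ^ 4 := by
      calc (64 : ℝ) ≤ K := by linarith
        _ = (K : ℝ) ^ 1 := (pow_one _).symm
        _ ≤ (K : ℝ) ^ 4 := pow_le_pow_right₀ (by linarith) (by norm_num)
    calc 64 * (K : ℝ) ^ 4 ≤ (K : ℝ) ^ 4 * (K : ℝ) ^ 4 := by gcongr
      _ = (K : ℝ) ^ 8 := by ring
  linarith

end params

/-- the quantitative statement -/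
theorem strong : ∃ M : ℝ, ∀ C : ℝ, ∃ (μ : Measure ℝ) (n : ℕ), Admissible M μ ∧ 1 ≤ n ∧
    J μ < ⊤ ∧ D μ < ⊤ ∧ ENNReal.ofReal (C / n) * J μ < J (lawS μ n) ∧
      ENNReal.ofReal (C / n) * D μ < D (lawS μ n) := by
  refine ⟨648, fun C => ?_⟩
  obtain ⟨K0, hK0⟩ := exists_nat_gt (1152 * |C|)
  set K := max 100 K0 with hKdef
  have hK : 100 ≤ K := le_max_left _ _
  have hr := hKr hK
  have hkpos : (0 : ℝ) < K := by linarith
  have hKC : 1152 * |C| < K := lt_of_lt_of_le hK0 (by exact_mod_cast le_max_right _ _)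
  have hKC2 : 1152 * |C| < (K : ℝ) ^ 2 := by nlinarith
  have hJ := J_upper hK
  have hD := D_upper hK
  refine ⟨mix (wt K) (ct K) (vt K), K ^ 2, admissible hK, Nat.one_le_pow _ _ (by omega),
    lt_of_le_of_lt hJ ENNReal.ofReal_lt_top, lt_of_le_of_lt hD ENNReal.ofReal_lt_top, ?_, ?_⟩
  · refine lt_of_lt_of_le ?_ (J_lower hK)
    calc ENNReal.ofReal (C / ((K ^ 2 : ℕ) : ℝ)) * J (mix (wt K) (ct K) (vt K))
        ≤ ENNReal.ofReal (|C| / (K : ℝ) ^ 2) * ENNReal.ofReal (2 / (K : ℝ) ^ 4) := by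
          refine mul_le_mul' (ENNReal.ofReal_le_ofReal ?_) hJ
          push_cast
          gcongr
          exact le_abs_self C
      _ = ENNReal.ofReal (|C| / (K : ℝ) ^ 2 * (2 / (K : ℝ) ^ 4)) := by
          rw [ENNReal.ofReal_mul (by positivity)]
      _ < ENNReal.ofReal (1 / (576 * (K : ℝ) ^ 4)) := by
          rw [ENNReal.ofReal_lt_ofReal_iff (by positivity)]
          rw [div_mul_div_comm, div_lt_div_iff₀ (by positivity) (by positivity)]
          have : (0 : ℝ) < (K : ℝ) ^ 4 := by positivity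
          nlinarith
  · refine lt_of_lt_of_le ?_ (D_lower hK)
    calc ENNReal.ofReal (C / ((K ^ 2 : ℕ) : ℝ)) * D (mix (wt K) (ct K) (vt K))
        ≤ ENNReal.ofReal (|C| / (K : ℝ) ^ 2) * ENNReal.ofReal (1 / (K : ℝ) ^ 4) := by
          refine mul_le_mul' (ENNReal.ofReal_le_ofReal ?_) hD
          push_cast
          gcongr
          exact le_abs_self C
      _ = ENNReal.ofReal (|C| / (K : ℝ) ^ 2 * (1 / (K : ℝ) ^ 4)) := by
          rw [ENNReal.ofReal_mul (by positivity)]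
      _ < ENNReal.ofReal (1 / (64 * (K : ℝ) ^ 4)) := by
          rw [ENNReal.ofReal_lt_ofReal_iff (by positivity)]
          rw [div_mul_div_comm, div_lt_div_iff₀ (by positivity) (by positivity)]
          have h4 : (0 : ℝ) < (K : ℝ) ^ 4 := by positivity
          have hC := abs_nonneg C
          nlinarith

end

end Pool.Agent.H7Ent
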