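import Mathlib

set_option autoImplicit false

open MeasureTheory ProbabilityTheory Finset
open scoped ENNReal

namespace Pool.Agent.H7Hit

noncomputable section

open Classical in
/-- One-step probability of the simple random walk on the digraph `G`: from `x` it moves to a
uniformly random out-neighbour of `x`. -/
def step {V : Type} (G : Digraph V) (x y : V) : ℝ :=
  if G.Adj x y then 1 / (Set.ncard {z | G.Adj x z} : ℝ) else 0

/-- `X` is a simple random walk on `G` started at `u`, on the probability space `(Ω, μ)`: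
`P(X_0 = x_0, ..., X_n = x_n) = 1_{x_0 = u} ∏_{i<n} step (x_i, x_{i+1})`. -/
def IsWalk {V Ω : Type} [MeasurableSpace V] [MeasurableSpace Ω] (G : Digraph V) (u : V)
    (μ : Measure Ω) (X : ℕ → Ω → V) : Prop :=
  (∀ n, Measurable (X n)) ∧ ∀ (n : ℕ) (x : ℕ → V),
    (x 0 = u → μ {ω | ∀ i ≤ n, X i ω = x i} =
      ENNReal.ofReal (∏ i ∈ Finset.range n, step G (x i) (x (i + 1)))) ∧
    (x 0 ≠ u → μ {ω | ∀ i ≤ n, X i ω = x i} = 0)

/-- The hitting time of `v` by the trajectory `X` (`∞` if `v` is never visited). -/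
def hit {V Ω : Type} (X : ℕ → Ω → V) (v : V) (ω : Ω) : ℝ≥0∞ :=
  ⨅ (t : ℕ) (_ : X t ω = v), (t : ℝ≥0∞)

open Classical in
/-- `P(ς(u,v) > t)`: the total probability of all trajectories `x_0 = u, x_1, ..., x_t` of the
simple random walk that avoid `v`. -/
def surv {V : Type} [Fintype V] (G : Digraph V) (u v : V) (t : ℕ) : ℝ :=
  ∑ x : Fin (t + 1) → V, if x 0 = u ∧ ∀ i, x i ≠ v then
    ∏ i : Fin t, step G (x i.castSucc) (x i.succ) else 0

/-- `h({u_1, ..., u_k}, v) = E min_i ς(u_i, v) = ∑_{t ≥ 0} P(min_i ς(u_i, v) > t)`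
`= ∑_{t ≥ 0} ∏_i P(ς(u_i, v) > t)` for `k` independent simple random walks (see the first part of
`result`). -/
def hSet {V : Type} [Fintype V] (G : Digraph V) {k : ℕ} (u : Fin k → V) (v : V) : ℝ≥0∞ :=
  ∑' t : ℕ, ENNReal.ofReal (∏ i, surv G (u i) v t)

/-- `h(u,v)`, the expected hitting time of `v` from `u` (one walk). -/
def h {V : Type} [Fintype V] (G : Digraph V) (u v : V) : ℝ≥0∞ :=
  hSet G (fun _ : Fin 1 => u) v

/-- `h_max = max_{u,v} h(u,v)`. -/
def hmax {V : Type} [Fintype V] (G : Digraph V) : ℝ≥0∞ := ⨆ (u : V) (v : V), h G u v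

/-- `h^k_max = max_{u_1,...,u_k,v} h({u_1,...,u_k},v)`. -/
def hkmax {V : Type} [Fintype V] (G : Digraph V) (k : ℕ) : ℝ≥0∞ :=
  ⨆ (u : Fin k → V) (v : V), hSet G u v

end

end Pool.Agent.H7Hit
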