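import Mathlib
import Pool.Agent.H7HitDefs

set_option autoImplicit false

open MeasureTheory ProbabilityTheory Finset
open scoped ENNReal

namespace Pool.Agent.H7Hit

noncomputable section

/-! ### Basic recursion -/

section basic

variable {V : Type} [Fintype V] (G : Digraph V)

lemma step_nonneg (x y : V) : 0 ≤ step G x y := by
  unfold step
  split_ifs
  · positivity
  · exact le_rfl

lemma step_sum (x : V) : ∑ y, step G x y ≤ 1 := by
  classical
  unfold step
  rw [← Finset.sum_filter, Finset.sum_const, nsmul_eq_mul]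
  have h1 : (Set.ncard {z | G.Adj x z} : ℝ) = ((univ.filter (fun z => G.Adj x z)).card : ℝ) := by
    rw [Set.ncard_eq_toFinset_card']
    congr 2
    ext z
    simp
  rw [h1]
  by_cases h0 : ((univ.filter (fun z => G.Adj x z)).card : ℝ) = 0
  · rw [h0]; norm_num
  · rw [mul_one_div, div_self h0]

lemma surv_nonneg (u v : V) (t : ℕ) : 0 ≤ surv G u v t := by
  unfold surv
  apply Finset.sum_nonneg
  intro x _
  split_ifs
  · exact Finset.prod_nonneg (fun i _ => step_nonneg G _ _)
  · exact le_rfl

lemma surv_self (v : V) (t : ℕ) : surv G v v t = 0 := by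
  unfold surv
  apply Finset.sum_eq_zero
  intro x _
  rw [if_neg]
  rintro ⟨h1, h2⟩
  exact h2 0 h1

lemma surv_zero {u v : V} (huv : u ≠ v) : surv G u v 0 = 1 := by
  classical
  unfold surv
  rw [Finset.sum_eq_single (fun _ => u)]
  · rw [if_pos ⟨rfl, fun _ => huv⟩]
    simp
  · intro x _ hx
    rw [if_neg]
    rintro ⟨h1, _⟩
    apply hx
    funext i
    have : i = 0 := Fin.ext (by omega)
    rw [this, h1]
  · intro h
    exact absurd (mem_univ _) h

lemma surv_succ {u v : V} (huv : u ≠ v) (t : ℕ) :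
    surv G u v (t + 1) = ∑ w, step G u w * surv G w v t := by
  classical
  unfold surv
  have e1 : ∑ x : Fin (t + 1 + 1) → V, (if x 0 = u ∧ ∀ i, x i ≠ v then
      ∏ i : Fin (t + 1), step G (x i.castSucc) (x i.succ) else 0) =
      ∑ p : V × (Fin (t + 1) → V), (if p.1 = u ∧ ∀ i, (Fin.cons p.1 p.2 : Fin (t + 1 + 1) → V) i ≠ v
        then step G p.1 (p.2 0) * ∏ i : Fin t, step G (p.2 i.castSucc) (p.2 i.succ) else 0) := by
    rw [← (Fin.consEquiv (fun _ : Fin (t + 1 + 1) => V)).sum_comp]
    refine Finset.sum_congr rfl (fun p _ => ?_)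
    simp only [Fin.consEquiv_apply]
    rw [Fin.cons_zero, Fin.prod_univ_succ]
    simp only [Fin.castSucc_zero, Fin.cons_zero, Fin.cons_succ, Fin.castSucc_succ]
  rw [e1, Fintype.sum_prod_type]
  rw [Finset.sum_eq_single u]
  rotate_left
  · intro b _ hb
    apply Finset.sum_eq_zero
    intro x _
    rw [if_neg]
    rintro ⟨h1, _⟩
    exact hb h1
  · intro h
    exact absurd (mem_univ _) h
  simp only [Finset.mul_sum]
  rw [Finset.sum_comm]
  refine Finset.sum_congr rfl (fun x _ => ?_)
  rw [Finset.sum_eq_single (x 0)]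
  · by_cases hx : ∀ i, x i ≠ v
    · rw [if_pos, if_pos ⟨rfl, hx⟩]
      refine ⟨trivial, ?_⟩
      intro i
      refine Fin.cases ?_ (fun j => ?_) i
      · rw [Fin.cons_zero]; exact huv
      · rw [Fin.cons_succ]; exact hx j
    · rw [if_neg, if_neg (fun h => hx h.2), mul_zero]
      rintro ⟨_, h2⟩
      apply hx
      intro i
      have := h2 i.succ
      rw [Fin.cons_succ] at this
      exact this
  · intro w _ hw
    rw [if_neg (fun h => hw h.1.symm), mul_zero]
  · intro h
    exact absurd (mem_univ _) h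

lemma surv_anti (v : V) (t : ℕ) : ∀ x, surv G x v (t + 1) ≤ surv G x v t := by
  classical
  induction t with
  | zero =>
    intro x
    by_cases hx : x = v
    · subst hx; rw [surv_self, surv_self]
    · rw [surv_succ G hx, surv_zero G hx]
      refine le_trans ?_ (step_sum G x)
      apply Finset.sum_le_sum
      intro w _
      by_cases hw : w = v
      · subst hw; rw [surv_self, mul_zero]; exact step_nonneg G _ _
      · rw [surv_zero G hw, mul_one]
  | succ t ih =>
    intro x
    by_cases hx : x = v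
    · subst hx; rw [surv_self, surv_self]
    · rw [surv_succ G hx (t + 1), surv_succ G hx t]
      apply Finset.sum_le_sum
      intro w _
      exact mul_le_mul_of_nonneg_left (ih w) (step_nonneg G _ _)

lemma surv_le_one (x v : V) (t : ℕ) : surv G x v t ≤ 1 := by
  induction t with
  | zero =>
    by_cases hx : x = v
    · subst hx; rw [surv_self]; norm_num
    · rw [surv_zero G hx]
  | succ t ih => exact (surv_anti G v t x).trans ih

lemma tail_le (v : V) (n : ℕ) (M : ℝ) (hM : ∀ y, ∑ s ∈ range n, surv G y v s ≤ M) (t : ℕ) :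
    ∀ x, ∑ s ∈ range n, surv G x v (t + s) ≤ M * surv G x v t := by
  classical
  induction t with
  | zero =>
    intro x
    by_cases hx : x = v
    · subst hx; simp [surv_self]
    · rw [surv_zero G hx, mul_one]
      simpa using hM x
  | succ t ih =>
    intro x
    by_cases hx : x = v
    · subst hx; simp [surv_self]
    · have e : ∀ s, surv G x v (t + 1 + s) = ∑ w, step G x w * surv G w v (t + s) := by
        intro s
        rw [show t + 1 + s = (t + s) + 1 by ring, surv_succ G hx]
      simp only [e]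
      rw [Finset.sum_comm, surv_succ G hx, Finset.mul_sum]
      apply Finset.sum_le_sum
      intro w _
      rw [← Finset.mul_sum]
      calc step G x w * ∑ s ∈ range n, surv G w v (t + s)
          ≤ step G x w * (M * surv G w v t) :=
            mul_le_mul_of_nonneg_left (ih w) (step_nonneg G _ _)
        _ = M * (step G x w * surv G w v t) := by ring

lemma surv_add_le (v : V) (N : ℕ) (c : ℝ) (hc : ∀ y, surv G y v N ≤ c) (t : ℕ) :
    ∀ x, surv G x v (t + N) ≤ c * surv G x v t := by
  classical
  induction t with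
  | zero =>
    intro x
    by_cases hx : x = v
    · subst hx; simp [surv_self]
    · rw [surv_zero G hx, mul_one]
      simpa using hc x
  | succ t ih =>
    intro x
    by_cases hx : x = v
    · subst hx; simp [surv_self]
    · rw [show t + 1 + N = (t + N) + 1 by ring, surv_succ G hx, surv_succ G hx, Finset.mul_sum]
      apply Finset.sum_le_sum
      intro w _
      calc step G x w * surv G w v (t + N)
          ≤ step G x w * (c * surv G w v t) :=
            mul_le_mul_of_nonneg_left (ih w) (step_nonneg G _ _)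
        _ = c * (step G x w * surv G w v t) := by ring

lemma surv_lt_one {v x : V} (hxv : Relation.ReflTransGen G.Adj x v) :
    ∃ n, surv G x v n < 1 := by
  classical
  induction hxv using Relation.ReflTransGen.head_induction_on with
  | refl => exact ⟨0, by rw [surv_self]; norm_num⟩
  | head hxy _ ih =>
    rename_i x y _
    obtain ⟨n, hn⟩ := ih
    refine ⟨n + 1, ?_⟩
    by_cases hx : x = v
    · subst hx; rw [surv_self]; norm_num
    · rw [surv_succ G hx]
      refine lt_of_lt_of_le ?_ (step_sum G x)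
      apply Finset.sum_lt_sum
      · intro w _
        calc step G x w * surv G w v n ≤ step G x w * 1 :=
              mul_le_mul_of_nonneg_left (surv_le_one G w v n) (step_nonneg G _ _)
          _ = step G x w := mul_one _
      · refine ⟨y, mem_univ _, ?_⟩
        have hpos : 0 < step G x y := by
          unfold step
          rw [if_pos hxy]
          have : 0 < Set.ncard {z | G.Adj x z} := by
            rw [Set.ncard_pos]
            exact ⟨y, hxy⟩
          positivity
        calc step G x y * surv G y v n < step G x y * 1 := by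
              exact mul_lt_mul_of_pos_left hn hpos
          _ = step G x y := mul_one _

/-- the tail sums are bounded for a strongly connected graph -/
lemma sum_bounded (v : V) (hG : ∀ x y, Relation.ReflTransGen G.Adj x y) :
    ∃ B : ℝ, ∀ x T, ∑ t ∈ range T, surv G x v t ≤ B := by
  classical
  have h1 : ∀ x, ∃ n, surv G x v n < 1 := fun x => surv_lt_one G (hG x v)
  choose n hn using h1
  set N := ∑ x, n x with hN
  have hanti : ∀ x, Antitone (fun t => surv G x v t) := fun x =>
    antitone_nat_of_succ_le (fun t => surv_anti G v t x)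
  have h2 : ∀ x, surv G x v N < 1 := fun x =>
    lt_of_le_of_lt (hanti x (Finset.single_le_sum (f := n) (fun _ _ => Nat.zero_le _)
      (mem_univ x))) (hn x)
  obtain ⟨x0, -, hx0⟩ := Finset.exists_max_image (univ : Finset V) (fun x => surv G x v N)
    ⟨v, mem_univ v⟩
  set c := surv G x0 v N with hc
  have hc1 : c < 1 := h2 x0
  have hc0 : 0 ≤ c := surv_nonneg G _ _ _
  refine ⟨N / (1 - c), fun x T => ?_⟩
  rw [le_div_iff₀ (by linarith)]
  have h3 : ∑ t ∈ range T, surv G x v (t + N) ≤ c * ∑ t ∈ range T, surv G x v t := by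
    rw [Finset.mul_sum]
    exact Finset.sum_le_sum (fun t _ => surv_add_le G v N c (fun y => hx0 y (mem_univ y)) t x)
  have h4 : ∑ t ∈ range (N + T), surv G x v t =
      ∑ t ∈ range N, surv G x v t + ∑ t ∈ range T, surv G x v (t + N) := by
    rw [Finset.sum_range_add]
    congr 1
    exact Finset.sum_congr rfl (fun t _ => by rw [add_comm])
  have h5 : ∑ t ∈ range N, surv G x v t ≤ N := by
    calc ∑ t ∈ range N, surv G x v t ≤ ∑ _t ∈ range N, (1 : ℝ) :=
          Finset.sum_le_sum (fun t _ => surv_le_one G x v t)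
      _ = N := by simp
  have h6 : ∑ t ∈ range T, surv G x v t ≤ ∑ t ∈ range (N + T), surv G x v t := by
    apply Finset.sum_le_sum_of_subset_of_nonneg
    · exact Finset.range_mono (by omega)
    · intro t _ _
      exact surv_nonneg G _ _ _
  nlinarith

end basic

/-! ### The inequality -/

lemma pow_sub_le {a b : ℝ} (hb : 0 ≤ b) (hab : b ≤ a) (k : ℕ) :
    a ^ (k + 1) - b ^ (k + 1) ≤ (k + 1) * ((a - b) * a ^ k) := by
  have ha : 0 ≤ a := hb.trans hab
  induction k with
  | zero => simp
  | succ k ih =>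
    have h1 : a ^ (k + 1 + 1) - b ^ (k + 1 + 1) =
        a * (a ^ (k + 1) - b ^ (k + 1)) + (a - b) * b ^ (k + 1) := by ring
    have h2 : b ^ (k + 1) ≤ a ^ (k + 1) := pow_le_pow_left₀ hb hab _
    have h3 : a * (a ^ (k + 1) - b ^ (k + 1)) ≤ a * ((k + 1) * ((a - b) * a ^ k)) :=
      mul_le_mul_of_nonneg_left ih ha
    have h4 : (a - b) * b ^ (k + 1) ≤ (a - b) * a ^ (k + 1) :=
      mul_le_mul_of_nonneg_left h2 (by linarith)
    rw [h1]
    push_cast
    calc a * (a ^ (k + 1) - b ^ (k + 1)) + (a - b) * b ^ (k + 1)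
        ≤ a * ((k + 1) * ((a - b) * a ^ k)) + (a - b) * a ^ (k + 1) := add_le_add h3 h4
      _ = (k + 1 + 1) * ((a - b) * a ^ (k + 1)) := by ring

lemma main_real (f : ℕ → ℝ) (T k : ℕ) (M : ℝ) (hM : ∑ s ∈ range T, f s = M)
    (hf : ∀ t, 0 ≤ f t) (hG : ∀ t < T, ∑ s ∈ Ico t T, f s ≤ M * f t) :
    M ≤ (k + 1) * ∑ t ∈ range T, (f t) ^ (k + 1) := by
  have hM0 : 0 ≤ M := by rw [← hM]; exact Finset.sum_nonneg (fun t _ => hf t)
  rcases hM0.eq_or_lt with h0 | hpos
  · rw [← h0]
    have : 0 ≤ ∑ t ∈ range T, (f t) ^ (k + 1) :=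
      Finset.sum_nonneg (fun t _ => pow_nonneg (hf t) _)
    positivity
  · set g : ℕ → ℝ := fun t => ∑ s ∈ Ico t T, f s with hg
    have hg0 : ∀ t, 0 ≤ g t := fun t => Finset.sum_nonneg (fun s _ => hf s)
    have hgs : ∀ t < T, g t = f t + g (t + 1) := by
      intro t ht
      exact (Finset.sum_eq_sum_Ico_succ_bot ht f)
    have h1 : ∀ t ∈ range T, g t ^ (k + 1) - g (t + 1) ^ (k + 1) ≤
        (k + 1) * (M ^ k * f t ^ (k + 1)) := by
      intro t ht
      rw [Finset.mem_range] at ht
      have hle : g (t + 1) ≤ g t := by rw [hgs t ht]; linarith [hf t]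
      refine (pow_sub_le (hg0 _) hle k).trans ?_
      have e : g t - g (t + 1) = f t := by rw [hgs t ht]; ring
      rw [e]
      have h2 : g t ^ k ≤ (M * f t) ^ k := pow_le_pow_left₀ (hg0 t) (hG t ht) k
      have h3 : f t * g t ^ k ≤ f t * (M * f t) ^ k := mul_le_mul_of_nonneg_left h2 (hf t)
      calc ((k : ℝ) + 1) * (f t * g t ^ k) ≤ (k + 1) * (f t * (M * f t) ^ k) :=
            mul_le_mul_of_nonneg_left h3 (by positivity)
        _ = (k + 1) * (M ^ k * f t ^ (k + 1)) := by rw [mul_pow]; ring
    have h2 := Finset.sum_le_sum h1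
    rw [Finset.sum_range_sub'] at h2
    have hgT : g T = 0 := by simp [hg]
    have hg00 : g 0 = M := by rw [← hM, hg]; simp
    rw [hgT, hg00, zero_pow (Nat.succ_ne_zero k), sub_zero, ← Finset.mul_sum,
      ← Finset.mul_sum] at h2
    have h3 : M ^ k * M ≤ M ^ k * ((k + 1) * ∑ t ∈ range T, f t ^ (k + 1)) := by
      calc M ^ k * M = M ^ (k + 1) := (pow_succ M k).symm
        _ ≤ _ := h2
        _ = _ := by ring
    exact le_of_mul_le_mul_left h3 (pow_pos hpos k)

lemma main_ineq {V : Type} [Fintype V] [Nonempty V] (G : Digraph V) (k : ℕ) (hk : 1 ≤ k) :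
    hmax G ≤ k * hkmax G k := by
  classical
  obtain ⟨k, rfl⟩ : ∃ k', k = k' + 1 := ⟨k - 1, by omega⟩
  unfold hmax
  refine iSup_le fun x => iSup_le fun v => ?_
  unfold h hSet
  rw [ENNReal.tsum_eq_iSup_nat]
  refine iSup_le fun T => ?_
  obtain ⟨u, -, hu⟩ := Finset.exists_max_image (univ : Finset V)
    (fun y => ∑ s ∈ range T, surv G y v s) univ_nonempty
  set M := ∑ s ∈ range T, surv G u v s with hM
  have h1 : M ≤ (k + 1) * ∑ t ∈ range T, (surv G u v t) ^ (k + 1) := by
    apply main_real _ T k M hM.symm (fun t => surv_nonneg G _ _ _)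
    intro t ht
    refine le_trans ?_ (tail_le G v T M (fun y => hu y (mem_univ y)) t u)
    rw [Finset.sum_Ico_eq_sum_range]
    apply Finset.sum_le_sum_of_subset_of_nonneg
    · exact Finset.range_mono (by omega)
    · intro s _ _
      exact surv_nonneg G _ _ _
  calc ∑ t ∈ range T, ENNReal.ofReal (∏ _i : Fin 1, surv G x v t)
      = ENNReal.ofReal (∑ t ∈ range T, surv G x v t) := by
        rw [ENNReal.ofReal_sum_of_nonneg (fun t _ => surv_nonneg G _ _ _)]
        simp
    _ ≤ ENNReal.ofReal ((k + 1) * ∑ t ∈ range T, (surv G u v t) ^ (k + 1)) :=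
        ENNReal.ofReal_le_ofReal ((hu x (mem_univ x)).trans h1)
    _ = ((k + 1 : ℕ) : ℝ≥0∞) * ∑ t ∈ range T, ENNReal.ofReal (∏ _i : Fin (k + 1), surv G u v t) := by
        rw [ENNReal.ofReal_mul (by positivity),
          ENNReal.ofReal_sum_of_nonneg (fun t _ => pow_nonneg (surv_nonneg G _ _ _) _)]
        congr 1
        · rw [← ENNReal.ofReal_natCast]
          push_cast
          rfl
        · refine Finset.sum_congr rfl (fun t _ => ?_)
          simp
    _ ≤ ((k + 1 : ℕ) : ℝ≥0∞) * hSet G (fun _ : Fin (k + 1) => u) v :=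
        mul_le_mul_right (ENNReal.sum_le_tsum _) _
    _ ≤ ((k + 1 : ℕ) : ℝ≥0∞) * hkmax G (k + 1) := by
        refine mul_le_mul_right ?_ _
        unfold hkmax
        exact le_iSup₂ (f := fun (u : Fin (k + 1) → V) (v : V) => hSet G u v) (fun _ => u) v

lemma hmax_finite {V : Type} [Fintype V] (G : Digraph V)
    (hG : ∀ x y, Relation.ReflTransGen G.Adj x y) : hmax G < ⊤ := by
  classical
  have h1 : ∀ v, ∃ B : ℝ, ∀ x T, ∑ t ∈ range T, surv G x v t ≤ B := fun v => sum_bounded G v hG
  choose B hB using h1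
  have h2 : hmax G ≤ ∑ v, ENNReal.ofReal (B v) := by
    unfold hmax
    refine iSup_le fun x => iSup_le fun v => ?_
    refine le_trans ?_ (Finset.single_le_sum (f := fun v => ENNReal.ofReal (B v))
      (fun _ _ => zero_le) (mem_univ v))
    unfold h hSet
    rw [ENNReal.tsum_eq_iSup_nat]
    refine iSup_le fun T => ?_
    have e : ∑ t ∈ range T, ENNReal.ofReal (∏ _i : Fin 1, surv G x v t) =
        ENNReal.ofReal (∑ t ∈ range T, surv G x v t) := by
      rw [ENNReal.ofReal_sum_of_nonneg (fun t _ => surv_nonneg G _ _ _)]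
      simp
    rw [e]
    exact ENNReal.ofReal_le_ofReal (hB v x T)
  exact lt_of_le_of_lt h2 (ENNReal.sum_lt_top.2 (fun v _ => ENNReal.ofReal_lt_top))

/-! ### The expectations -/

open Classical in
lemma iInf_eq_tsum (H : ℕ → Prop) : (⨅ (t : ℕ) (_ : H t), (t : ℝ≥0∞)) =
    ∑' t : ℕ, if ∀ s ≤ t, ¬ H s then (1 : ℝ≥0∞) else 0 := by
  by_cases hex : ∃ t, H t
  · set T := Nat.find hex with hT
    have hHT : H T := Nat.find_spec hex
    have hmin : ∀ s, s < T → ¬ H s := fun s hs => Nat.find_min hex hs
    have e1 : (⨅ (t : ℕ) (_ : H t), (t : ℝ≥0∞)) = T := by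
      apply le_antisymm
      · exact iInf₂_le T hHT
      · refine le_iInf₂ (fun t ht => ?_)
        have : T ≤ t := Nat.find_min' hex ht
        exact_mod_cast this
    have e2 : ∑' t : ℕ, (if ∀ s ≤ t, ¬ H s then (1 : ℝ≥0∞) else 0) = T := by
      rw [tsum_eq_sum (s := range T)]
      · rw [Finset.sum_congr rfl (fun t ht => if_pos (fun s hs =>
          hmin s (lt_of_le_of_lt hs (Finset.mem_range.1 ht))))]
        simp
      · intro t ht
        rw [if_neg]
        intro h
        rw [Finset.mem_range, not_lt] at ht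
        exact h T ht hHT
    rw [e1, e2]
  · push Not at hex
    have e1 : (⨅ (t : ℕ) (_ : H t), (t : ℝ≥0∞)) = ⊤ := by
      rw [iInf₂_eq_top]
      intro t ht
      exact absurd ht (hex t)
    rw [e1]
    symm
    have : (fun t : ℕ => if ∀ s ≤ t, ¬ H s then (1 : ℝ≥0∞) else 0) = fun _ => 1 := by
      funext t
      exact if_pos (fun s _ => hex s)
    rw [this]
    exact ENNReal.tsum_const_eq_top_of_ne_zero one_ne_zero

lemma walk_surv {V Ω : Type} [Fintype V] [MeasurableSpace V] [MeasurableSingletonClass V]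
    [MeasurableSpace Ω] (G : Digraph V) (u v : V) (μ : Measure Ω) (X : ℕ → Ω → V)
    (hX : IsWalk G u μ X) (t : ℕ) :
    μ {ω | ∀ s ≤ t, X s ω ≠ v} = ENNReal.ofReal (surv G u v t) := by
  classical
  let Y : Ω → (Fin (t + 1) → V) := fun ω i => X i ω
  have hset : {ω | ∀ s ≤ t, X s ω ≠ v} =
      Y ⁻¹' ((univ.filter (fun x : Fin (t + 1) → V => ∀ i, x i ≠ v) : Finset _) : Set _) := by
    ext ω
    simp only [Set.mem_ofPred_eq, Set.mem_preimage, Finset.coe_filter, Finset.mem_univ, true_and]
    constructor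
    · intro h i
      exact h i (by omega)
    · intro h s hs
      exact h ⟨s, by omega⟩
  have hpath : ∀ x : Fin (t + 1) → V, ∃ x' : ℕ → V, (∀ i : Fin (t + 1), x' i = x i) ∧
      Y ⁻¹' {x} = {ω | ∀ i ≤ t, X i ω = x' i} := by
    intro x
    refine ⟨fun n => x ⟨min n t, by omega⟩, ?_, ?_⟩
    · intro i
      refine congrArg x (Fin.ext ?_)
      change min (i : ℕ) t = i
      omega
    · ext ω
      simp only [Set.mem_preimage, Set.mem_singleton_iff, Set.mem_ofPred_eq]
      constructor
      · intro h i hi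
        have := congrFun h ⟨i, by omega⟩
        simp only [Y] at this
        rw [this]
        refine congrArg x (Fin.ext ?_)
        change i = min i t
        omega
      · intro h
        funext i
        have := h i (by omega)
        simp only [Y]
        rw [this]
        refine congrArg x (Fin.ext ?_)
        change min (i : ℕ) t = i
        omega
  have hmeas : ∀ x : Fin (t + 1) → V, MeasurableSet (Y ⁻¹' {x}) := by
    intro x
    have : Y ⁻¹' {x} = ⋂ i : Fin (t + 1), (X i) ⁻¹' {x i} := by
      ext ω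
      simp only [Set.mem_preimage, Set.mem_singleton_iff, Set.mem_iInter, Y]
      exact funext_iff
    rw [this]
    exact MeasurableSet.iInter (fun i => (hX.1 i) (measurableSet_singleton _))
  rw [hset, ← sum_measure_preimage_singleton _ (fun x _ => hmeas x)]
  unfold surv
  rw [ENNReal.ofReal_sum_of_nonneg, Finset.sum_filter]
  swap
  · intro x _
    split_ifs
    · exact Finset.prod_nonneg (fun i _ => step_nonneg G _ _)
    · exact le_rfl
  refine Finset.sum_congr rfl (fun x _ => ?_)
  obtain ⟨x', hx', hY⟩ := hpath x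
  have h0 : x' 0 = x 0 := hx' 0
  by_cases hv : ∀ i, x i ≠ v
  · rw [if_pos hv, hY]
    by_cases hu : x 0 = u
    · rw [if_pos ⟨hu, hv⟩, (hX.2 t x').1 (h0.trans hu), Finset.prod_range]
      congr 1
      refine Finset.prod_congr rfl (fun i _ => ?_)
      rw [← hx', ← hx']
      rfl
    · rw [if_neg (fun h => hu h.1), (hX.2 t x').2 (fun h => hu (h0.symm.trans h)),
        ENNReal.ofReal_zero]
  · rw [if_neg hv, if_neg (fun h => hv h.2), ENNReal.ofReal_zero]

lemma expect_min {V Ω : Type} [Fintype V] [MeasurableSpace V] [MeasurableSingletonClass V]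
    [MeasurableSpace Ω] (G : Digraph V) (μ : Measure Ω) [IsProbabilityMeasure μ] {k : ℕ}
    (u : Fin k → V) (v : V) (X : Fin k → ℕ → Ω → V) (hX : ∀ i, IsWalk G (u i) μ (X i))
    (hind : iIndepFun (fun (i : Fin k) (ω : Ω) (t : ℕ) => X i t ω) μ) :
    ∫⁻ ω, ⨅ i, hit (X i) v ω ∂μ = hSet G u v := by
  classical
  have e1 : ∀ ω, (⨅ i, hit (X i) v ω) =
      ∑' t : ℕ, Set.indicator {ω | ∀ i, ∀ s ≤ t, X i s ω ≠ v} (fun _ => (1 : ℝ≥0∞)) ω := by
    intro ω
    have : (⨅ i, hit (X i) v ω) = ⨅ (t : ℕ) (_ : ∃ i, X i t ω = v), (t : ℝ≥0∞) := by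
      unfold hit
      rw [iInf_comm]
      refine iInf_congr (fun t => ?_)
      rw [iInf_exists]
    rw [this, iInf_eq_tsum]
    refine tsum_congr (fun t => ?_)
    rw [Set.indicator_apply]
    congr 1
    simp only [Set.mem_ofPred_eq, not_exists, eq_iff_iff]
    exact ⟨fun h i s hs => h s hs i, fun h s hs i => h i s hs⟩
  have hS : ∀ t, MeasurableSet {y : ℕ → V | ∀ s ≤ t, y s ≠ v} := by
    intro t
    have : {y : ℕ → V | ∀ s ≤ t, y s ≠ v} = ⋂ s ∈ Set.Iic t, (fun y : ℕ → V => y s) ⁻¹' {v}ᶜ := by
      ext y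
      simp
    rw [this]
    exact MeasurableSet.biInter (Set.to_countable _) (fun s _ =>
      (measurable_pi_apply s) (measurableSet_singleton v).compl)
  have hXm : ∀ i, Measurable (fun ω t => X i t ω) := fun i =>
    measurable_pi_lambda _ (fun t => (hX i).1 t)
  have hA : ∀ t, {ω | ∀ i, ∀ s ≤ t, X i s ω ≠ v} =
      ⋂ i ∈ (univ : Finset (Fin k)), (fun ω t => X i t ω) ⁻¹' {y : ℕ → V | ∀ s ≤ t, y s ≠ v} := by
    intro t
    ext ω
    simp
  have hAm : ∀ t, MeasurableSet {ω | ∀ i, ∀ s ≤ t, X i s ω ≠ v} := by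
    intro t
    rw [hA]
    exact Finset.measurableSet_biInter _ (fun i _ => hXm i (hS t))
  calc ∫⁻ ω, ⨅ i, hit (X i) v ω ∂μ
      = ∫⁻ ω, ∑' t : ℕ, Set.indicator {ω | ∀ i, ∀ s ≤ t, X i s ω ≠ v}
          (fun _ => (1 : ℝ≥0∞)) ω ∂μ := lintegral_congr e1
    _ = ∑' t : ℕ, μ {ω | ∀ i, ∀ s ≤ t, X i s ω ≠ v} := by
        rw [lintegral_tsum (fun t => (measurable_const.indicator (hAm t)).aemeasurable)]
        refine tsum_congr (fun t => ?_)
        rw [lintegral_indicator (hAm t)]
        simp
    _ = hSet G u v := by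
        unfold hSet
        refine tsum_congr (fun t => ?_)
        rw [hA, hind.measure_inter_preimage_eq_mul univ (fun i _ => hS t),
          ENNReal.ofReal_prod_of_nonneg (fun i _ => surv_nonneg G _ _ _)]
        refine Finset.prod_congr rfl (fun i _ => ?_)
        exact walk_surv G (u i) v μ (X i) (hX i) t

end

end Pool.Agent.H7Hit
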