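import Mathlib

/-!
Convex bodies with arbitrarily large primitive inner/outer illuminating sets: auxiliary lemmas.
-/

namespace Pool.Agent.H7Illum

open Set Topology

section general
variable {E : Type*} [NormedAddCommGroup E] [NormedSpace ℝ E]

lemma not_mem_interior (K : Set E) (L : E →ₗ[ℝ] ℝ) (hL : ∀ z ∈ K, L z ≤ 1) (p : E)
    (hp : 1 ≤ L p) : p ∉ interior K := by
  intro hpi
  have hcont : Continuous (fun t : ℝ => (1 + t) • p) := by fun_prop
  have hopen : IsOpen ((fun t : ℝ => (1 + t) • p) ⁻¹' interior K) := isOpen_interior.preimage hcont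
  have h0 : (0:ℝ) ∈ ((fun t : ℝ => (1 + t) • p) ⁻¹' interior K) := by
    simpa using hpi
  obtain ⟨δ, hδ, hball⟩ := Metric.isOpen_iff.mp hopen 0 h0
  have hmem : (δ / 2) ∈ Metric.ball (0:ℝ) δ := by
    rw [Metric.mem_ball, Real.dist_eq, sub_zero, abs_of_pos (by positivity)]
    linarith
  have h1 := interior_subset (hball hmem)
  have h2 := hL _ h1
  rw [map_smul, smul_eq_mul] at h2
  nlinarith

lemma smul_mem_int {K : Set E} (hK : Convex ℝ K) (h0 : (0:E) ∈ interior K) {z : E} (hz : z ∈ K)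
    {t : ℝ} (ht0 : 0 ≤ t) (ht1 : t < 1) : t • z ∈ interior K := by
  have := hK.combo_interior_self_mem_interior h0 hz (a := 1 - t) (b := t) (by linarith) ht0 (by ring)
  simpa using this

/-- If `z` is a convex combination of `g` and `z'` with positive weight of `g`, and the segment
from `g` to `a` meets the interior, so does the segment from `z` to `a`. -/
lemma inner_transfer {K : Set E} (hK : Convex ℝ K) {g z' a : E} (hz' : z' ∈ K)
    {ε θ : ℝ} (hε0 : 0 < ε) (hε1 : ε < 1) (hθ0 : 0 < θ) (hθ1 : θ ≤ 1)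
    (h : (1 - ε) • g + ε • a ∈ interior K) :
    ∃ τ : ℝ, 0 < τ ∧ τ < 1 ∧ (1 - τ) • (θ • g + (1 - θ) • z') + τ • a ∈ interior K := by
  have hden : 0 < θ * ε + (1 - ε) := by nlinarith
  refine ⟨θ * ε / (θ * ε + (1 - ε)), by positivity, ?_, ?_⟩
  · rw [div_lt_one hden]; linarith
  · set D := θ * ε + (1 - ε) with hD
    have h1 : (1 - θ * ε / D) • (θ • g + (1 - θ) • z') + (θ * ε / D) • a =
        (θ / D) • ((1 - ε) • g + ε • a) + (1 - θ / D) • z' := by
      have e0 : 1 - θ * ε / D = (1 - ε) / D := by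
        rw [eq_div_iff hden.ne', sub_mul, div_mul_cancel₀ _ hden.ne']; linarith
      have e1 : (1 - θ * ε / D) * θ = θ / D * (1 - ε) := by
        rw [e0]; ring
      have e2 : (1 - θ * ε / D) * (1 - θ) = 1 - θ / D := by
        rw [e0, eq_sub_iff_add_eq, div_mul_eq_mul_div, ← add_div, div_eq_one_iff_eq hden.ne', hD]; ring
      have e3 : θ * ε / D = θ / D * ε := by ring
      rw [smul_add, smul_smul, smul_smul, smul_add, smul_smul, smul_smul, e1, e2, e3]
      abel
    rw [h1]
    apply hK.combo_interior_self_mem_interior h hz' (by positivity)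
    · rw [sub_nonneg, div_le_one hden]; nlinarith
    · ring

/-- every point of the hull of `G` is a combination of a point of `G` with positive weight and a
point of the hull. -/
lemma exists_decomp (G : Set E) (z : E) (hz : z ∈ convexHull ℝ G) :
    ∃ g ∈ G, ∃ z' ∈ convexHull ℝ G, ∃ θ : ℝ, 0 < θ ∧ θ ≤ 1 ∧ z = θ • g + (1 - θ) • z' := by
  let S : Set E := {z | z ∈ convexHull ℝ G ∧ ∃ g ∈ G, ∃ z' ∈ convexHull ℝ G, ∃ θ : ℝ, 0 < θ ∧ θ ≤ 1 ∧
    z = θ • g + (1 - θ) • z'}
  have hGS : G ⊆ S := fun g hg =>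
    ⟨subset_convexHull ℝ G hg, g, hg, g, subset_convexHull ℝ G hg, 1, one_pos, le_rfl, by simp⟩
  have hS : Convex ℝ S := by
    intro x hx y hy a b ha hb hab
    refine ⟨(convex_convexHull ℝ G) hx.1 hy.1 ha hb hab, ?_⟩
    rcases ha.eq_or_lt with h0 | hapos
    · subst h0
      have hb1 : b = 1 := by linarith
      subst hb1
      simpa using hy.2
    · obtain ⟨-, g, hg, z', hz', θ, hθ0, hθ1, rfl⟩ := hx
      have ha1 : a ≤ 1 := by linarith
      refine ⟨g, hg, ?_⟩
      by_cases h1 : a * θ = 1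
      · refine ⟨g, subset_convexHull ℝ G hg, 1, one_pos, le_rfl, ?_⟩
        have hθ : θ = 1 := by nlinarith
        have ha' : a = 1 := by nlinarith
        have hb0 : b = 0 := by linarith
        subst hθ; subst ha'; subst hb0
        simp
      · have hlt : a * θ < 1 := lt_of_le_of_ne (by nlinarith) h1
        have hpos : 0 < 1 - a * θ := by linarith
        refine ⟨((a * (1 - θ)) / (1 - a * θ)) • z' + (b / (1 - a * θ)) • y, ?_, a * θ,
          by positivity, hlt.le, ?_⟩
        · apply (convex_convexHull ℝ G) hz' hy.1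
          · apply div_nonneg _ hpos.le
            exact mul_nonneg ha (by linarith)
          · exact div_nonneg hb hpos.le
          · rw [← add_div]
            rw [div_eq_one_iff_eq hpos.ne']
            linarith
        · rw [smul_add, smul_smul, smul_smul, smul_add, smul_smul, smul_smul]
          have e1 : (1 - a * θ) * (a * (1 - θ) / (1 - a * θ)) = a * (1 - θ) := by
            field_simp
          have e2 : (1 - a * θ) * (b / (1 - a * θ)) = b := by
            field_simp
          rw [e1, e2]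
          abel
  exact (convexHull_min hGS hS hz).2

lemma inner_of_gen {G A : Set E}
    (h : ∀ g ∈ G, ∃ a ∈ A, ∃ ε : ℝ, 0 < ε ∧ ε < 1 ∧
      (1 - ε) • g + ε • a ∈ interior (convexHull ℝ G)) :
    ∀ x ∈ convexHull ℝ G, ∃ a ∈ A, ∃ ε : ℝ, 0 < ε ∧ ε < 1 ∧
      (1 - ε) • x + ε • a ∈ interior (convexHull ℝ G) := by
  intro x hx
  obtain ⟨g, hg, z', hz', θ, hθ0, hθ1, rfl⟩ := exists_decomp G x hx
  obtain ⟨a, ha, ε, hε0, hε1, hint⟩ := h g hg
  exact ⟨a, ha, inner_transfer (convex_convexHull ℝ G) hz' hε0 hε1 hθ0 hθ1 hint⟩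

/-- the normalisation of a direction -/
noncomputable def nrm (w : E) : E := ‖w‖⁻¹ • w

lemma outer_unit {K : Set E} (hK : Convex ℝ K) {x w : E} (hx : x ∈ K) (hw : w ≠ 0)
    (h : x + w ∈ interior K) : ∃ ε : ℝ, 0 < ε ∧ ε < 1 ∧ x + ε • nrm w ∈ interior K := by
  have hn : 0 < ‖w‖ := norm_pos_iff.mpr hw
  set t : ℝ := 1 / (1 + ‖w‖) with ht
  have ht0 : 0 < t := by positivity
  have ht1 : t ≤ 1 := by
    rw [ht, div_le_one (by positivity)]; linarith
  refine ⟨t * ‖w‖, by positivity, ?_, ?_⟩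
  · rw [ht, div_mul_eq_mul_div, one_mul, div_lt_one (by positivity)]; linarith
  · have h1 : x + (t * ‖w‖) • nrm w = t • (x + w) + (1 - t) • x := by
      have e1 : (t * ‖w‖) • nrm w = t • w := by
        rw [nrm, smul_smul]
        congr 1
        field_simp
      rw [e1, smul_add, sub_smul, one_smul]
      abel
    rw [h1]
    exact hK.combo_interior_self_mem_interior h hx ht0 (by linarith) (by ring)

lemma outer_of_gen {G U : Set E}
    (h : ∀ g ∈ G, ∃ w : E, w ≠ 0 ∧ nrm w ∈ U ∧ g + w ∈ interior (convexHull ℝ G)) :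
    ∀ x ∈ convexHull ℝ G, ∃ u ∈ U, ∃ ε : ℝ, 0 < ε ∧ ε < 1 ∧
      x + ε • u ∈ interior (convexHull ℝ G) := by
  intro x hx
  obtain ⟨g, hg, z', hz', θ, hθ0, hθ1, rfl⟩ := exists_decomp G x hx
  obtain ⟨w, hw0, hwU, hint⟩ := h g hg
  refine ⟨nrm w, hwU, ?_⟩
  have hconv := convex_convexHull ℝ G
  have h1 : (θ • g + (1 - θ) • z') + θ • w ∈ interior (convexHull ℝ G) := by
    have : (θ • g + (1 - θ) • z') + θ • w = θ • (g + w) + (1 - θ) • z' := by
      rw [smul_add]; abel
    rw [this]
    exact hconv.combo_interior_self_mem_interior hint hz' hθ0 (by linarith) (by ring)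
  obtain ⟨ε, h2, h3, h4⟩ := outer_unit hconv hx (smul_ne_zero hθ0.ne' hw0) h1
  refine ⟨ε, h2, h3, ?_⟩
  have : nrm (θ • w) = nrm w := by
    unfold nrm
    rw [norm_smul, Real.norm_of_nonneg hθ0.le, smul_smul]
    congr 1
    field_simp
  rwa [this] at h4

lemma norm_nrm {w : E} (hw : w ≠ 0) : ‖nrm w‖ = 1 := by
  unfold nrm
  rw [norm_smul, norm_inv, norm_norm]
  exact inv_mul_cancel₀ (norm_ne_zero_iff.mpr hw)

end general

/-- A finite set with a property contains a minimal set with this property. -/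
theorem exists_minimal_sub {E : Type*} (P : Set E → Prop) (A : Set E) (hfin : A.Finite) (hA : P A) :
    ∃ B ⊆ A, P B ∧ ∀ C, C ⊂ B → ¬ P C := by
  obtain ⟨n, hn⟩ : ∃ n, n = A.ncard := ⟨_, rfl⟩
  induction n using Nat.strong_induction_on generalizing A with
  | _ n ih =>
    by_cases h : ∃ C, C ⊂ A ∧ P C
    · obtain ⟨C, hCA, hPC⟩ := h
      have hCfin : C.Finite := hfin.subset hCA.subset
      have hlt : C.ncard < n := by rw [hn]; exact Set.ncard_lt_ncard hCA hfin
      obtain ⟨B, hBC, hPB, hmin⟩ := ih _ hlt C hCfin hPC rfl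
      exact ⟨B, hBC.trans hCA.subset, hPB, hmin⟩
    · push Not at h
      exact ⟨A, subset_rfl, hA, h⟩


end Pool.Agent.H7Illum
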