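import Mathlib
import Pool.Agent.H7Illum

namespace Pool.Agent.H7Illum

open Set Topology

/-- `d`-dimensional Euclidean space, `d = m + 4` -/
abbrev Ed (m : ℕ) := EuclideanSpace ℝ (Fin (m+4))

variable {m : ℕ}

def i0 : Fin (m+4) := ⟨0, by omega⟩
def i1 : Fin (m+4) := ⟨1, by omega⟩
def i2 : Fin (m+4) := ⟨2, by omega⟩
def i3 : Fin (m+4) := ⟨3, by omega⟩

/-- the copy of a planar vector in the first two coordinates -/
noncomputable def Xv (v : ℝ × ℝ) : Ed m :=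
  WithLp.toLp 2 (fun k => if k.val = 0 then v.1 else if k.val = 1 then v.2 else 0)

/-- the copy of a planar vector in the next two coordinates -/
noncomputable def Yv (v : ℝ × ℝ) : Ed m :=
  WithLp.toLp 2 (fun k => if k.val = 2 then v.1 else if k.val = 3 then v.2 else 0)

noncomputable def ev (k : Fin (m+4)) : Ed m :=
  WithLp.toLp 2 (fun j => if j = k then 1 else 0)

def co (k : Fin (m+4)) : Ed m →ₗ[ℝ] ℝ where
  toFun z := z k
  map_add' _ _ := rfl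
  map_smul' _ _ := rfl

noncomputable def LX (v : ℝ × ℝ) : Ed m →ₗ[ℝ] ℝ := v.1 • co i0 + v.2 • co i1
noncomputable def LY (v : ℝ × ℝ) : Ed m →ₗ[ℝ] ℝ := v.1 • co i2 + v.2 • co i3

def dot (u v : ℝ × ℝ) : ℝ := u.1 * v.1 + u.2 * v.2

lemma co_apply (k : Fin (m+4)) (z : Ed m) : co k z = z k := rfl
lemma LX_apply (u : ℝ × ℝ) (z : Ed m) : LX u z = u.1 * z i0 + u.2 * z i1 := rfl
lemma LY_apply (u : ℝ × ℝ) (z : Ed m) : LY u z = u.1 * z i2 + u.2 * z i3 := rfl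
lemma Xv_apply (v : ℝ × ℝ) (k : Fin (m+4)) :
    (Xv v : Ed m) k = if k.val = 0 then v.1 else if k.val = 1 then v.2 else 0 := rfl
lemma Yv_apply (v : ℝ × ℝ) (k : Fin (m+4)) :
    (Yv v : Ed m) k = if k.val = 2 then v.1 else if k.val = 3 then v.2 else 0 := rfl
lemma ev_apply (k j : Fin (m+4)) : (ev k : Ed m) j = if j = k then 1 else 0 := rfl

lemma LX_X (u v : ℝ × ℝ) : LX u (Xv v : Ed m) = dot u v := by
  simp [LX_apply, Xv_apply, i0, i1, dot]
lemma LX_Y (u v : ℝ × ℝ) : LX u (Yv v : Ed m) = 0 := by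
  simp [LX_apply, Yv_apply, i0, i1]
lemma LY_X (u v : ℝ × ℝ) : LY u (Xv v : Ed m) = 0 := by
  simp [LY_apply, Xv_apply, i2, i3]
lemma LY_Y (u v : ℝ × ℝ) : LY u (Yv v : Ed m) = dot u v := by
  simp [LY_apply, Yv_apply, i2, i3, dot]
lemma LX_e (u : ℝ × ℝ) (k : Fin (m+4)) (hk : 4 ≤ k.val) : LX u (ev k : Ed m) = 0 := by
  have h0 : i0 ≠ k := by intro h; rw [← h] at hk; simp [i0] at hk
  have h1 : i1 ≠ k := by intro h; rw [← h] at hk; simp [i1] at hk
  simp [LX_apply, ev_apply, h0, h1]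
lemma LY_e (u : ℝ × ℝ) (k : Fin (m+4)) (hk : 4 ≤ k.val) : LY u (ev k : Ed m) = 0 := by
  have h0 : i2 ≠ k := by intro h; rw [← h] at hk; simp [i2] at hk
  have h1 : i3 ≠ k := by intro h; rw [← h] at hk; simp [i3] at hk
  simp [LY_apply, ev_apply, h0, h1]
lemma co_X (k : Fin (m+4)) (hk : 4 ≤ k.val) (v : ℝ × ℝ) : co k (Xv v : Ed m) = 0 := by
  rw [co_apply, Xv_apply, if_neg (by omega), if_neg (by omega)]
lemma co_Y (k : Fin (m+4)) (hk : 4 ≤ k.val) (v : ℝ × ℝ) : co k (Yv v : Ed m) = 0 := by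
  rw [co_apply, Yv_apply, if_neg (by omega), if_neg (by omega)]
lemma co_e (k j : Fin (m+4)) : co k (ev j : Ed m) = if k = j then 1 else 0 := rfl

/-- the generators of the convex body -/
def Gen (m : ℕ) (V : Finset (ℝ × ℝ)) (μ : ℝ) : Set (Ed m) :=
  {z | (∃ v ∈ V, z = Xv v) ∨ (∃ v ∈ V, z = Yv v) ∨ (∃ v ∈ V, z = μ • (Xv v + Yv v)) ∨
    (∃ k : Fin (m+4), 4 ≤ k.val ∧ (z = ev k ∨ z = - ev k))}

lemma Gen_finite (V : Finset (ℝ × ℝ)) (μ : ℝ) : (Gen m V μ).Finite := by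
  have h : Gen m V μ ⊆ (Xv '' (V : Set (ℝ × ℝ))) ∪ (Yv '' (V : Set (ℝ × ℝ))) ∪
      ((fun v => μ • (Xv v + Yv v)) '' (V : Set (ℝ × ℝ))) ∪
      (Set.range (fun k : Fin (m+4) => (ev k : Ed m))) ∪ (Set.range (fun k : Fin (m+4) => (- ev k : Ed m))) := by
    rintro z (⟨v, hv, rfl⟩ | ⟨v, hv, rfl⟩ | ⟨v, hv, rfl⟩ | ⟨k, _, rfl | rfl⟩)
    · exact Or.inl (Or.inl (Or.inl (Or.inl ⟨v, hv, rfl⟩)))
    · exact Or.inl (Or.inl (Or.inl (Or.inr ⟨v, hv, rfl⟩)))
    · exact Or.inl (Or.inl (Or.inr ⟨v, hv, rfl⟩))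
    · exact Or.inl (Or.inr ⟨k, rfl⟩)
    · exact Or.inr ⟨k, rfl⟩
  refine Set.Finite.subset ?_ h
  exact ((((V.finite_toSet.image _).union (V.finite_toSet.image _)).union
    (V.finite_toSet.image _)).union (Set.finite_range _)).union (Set.finite_range _)

lemma le_on_hull {E : Type*} [AddCommGroup E] [Module ℝ E] (G : Set E) (L : E →ₗ[ℝ] ℝ)
    (h : ∀ g ∈ G, L g ≤ 1) : ∀ z ∈ convexHull ℝ G, L z ≤ 1 := by
  intro z hz
  have : convexHull ℝ G ⊆ {z | L z ≤ 1} :=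
    convexHull_min h (convex_halfSpace_le L.isLinear 1)
  exact this hz

/-- hypotheses on the planar configuration -/
structure Good (V : Finset (ℝ × ℝ)) (c : ℝ) : Prop where
  unit : ∀ v ∈ V, v.1 ^ 2 + v.2 ^ 2 = 1
  neg : ∀ v ∈ V, -v ∈ V
  m1 : (1, 0) ∈ V
  m2 : (0, 1) ∈ V
  c0 : 1 / 2 ≤ c
  c1 : c < 1
  sep : ∀ u ∈ V, ∀ v ∈ V, u ≠ v → dot u v ≤ c

variable {V : Finset (ℝ × ℝ)} {c : ℝ}

lemma Good.dot_le (h : Good V c) {u v : ℝ × ℝ} (hu : u ∈ V) (hv : v ∈ V) : dot u v ≤ 1 := by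
  have h1 := h.unit u hu
  have h2 := h.unit v hv
  unfold dot
  nlinarith [sq_nonneg (u.1 - v.1), sq_nonneg (u.2 - v.2)]

lemma Good.dot_self (h : Good V c) {u : ℝ × ℝ} (hu : u ∈ V) : dot u u = 1 := by
  have h1 := h.unit u hu
  unfold dot
  linarith

lemma Good.mu_pos (h : Good V c) : 0 < 1 / (1 + c) := by
  have := h.c0
  positivity

lemma Good.mu_lt (h : Good V c) : 1 / (1 + c) < 1 := by
  have := h.c0
  rw [div_lt_one (by linarith)]
  linarith

lemma Good.mu_gt (h : Good V c) : 1 / 2 < 1 / (1 + c) := by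
  have := h.c0
  have := h.c1
  rw [div_lt_div_iff₀ (by norm_num) (by linarith)]
  linarith

/-- the separating functional for two different indices -/
lemma sep_on_G (h : Good V c) {u v : ℝ × ℝ} (hu : u ∈ V) (hv : v ∈ V) (huv : u ≠ v) :
    ∀ g ∈ Gen m V (1/(1+c)), (LX u + LY v : Ed m →ₗ[ℝ] ℝ) g ≤ 1 := by
  have hmu := h.mu_pos
  rintro z (⟨w, hw, rfl⟩ | ⟨w, hw, rfl⟩ | ⟨w, hw, rfl⟩ | ⟨k, hk, rfl | rfl⟩)
  · rw [LinearMap.add_apply, LX_X, LY_X, add_zero]; exact h.dot_le hu hw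
  · rw [LinearMap.add_apply, LX_Y, LY_Y, zero_add]; exact h.dot_le hv hw
  · rw [map_smul, smul_eq_mul, map_add, LinearMap.add_apply, LinearMap.add_apply, LX_X, LX_Y, LY_X, LY_Y]
    have h1 : dot u w + dot v w ≤ 1 + c := by
      by_cases hwu : u = w
      · have : v ≠ w := by rw [← hwu]; exact huv.symm
        linarith [h.dot_le hu hw, h.sep v hv w hw this]
      · linarith [h.sep u hu w hw hwu, h.dot_le hv hw]
    have h2 : 0 < 1 + c := by have := h.c0; linarith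
    rw [div_mul_eq_mul_div, div_le_one h2]
    linarith
  · rw [LinearMap.add_apply, LX_e u k hk, LY_e v k hk]; norm_num
  · rw [map_neg, LinearMap.add_apply, LX_e u k hk, LY_e v k hk]; norm_num

lemma LX_on_G (h : Good V c) {u : ℝ × ℝ} (hu : u ∈ V) :
    ∀ g ∈ Gen m V (1/(1+c)), (LX u) g ≤ 1 := by
  have hmu := h.mu_pos
  have hmu1 := h.mu_lt
  rintro z (⟨w, hw, rfl⟩ | ⟨w, hw, rfl⟩ | ⟨w, hw, rfl⟩ | ⟨k, hk, rfl | rfl⟩)
  · rw [LX_X]; exact h.dot_le hu hw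
  · rw [LX_Y]; norm_num
  · rw [map_smul, smul_eq_mul, map_add, LX_X, LX_Y]
    have := h.dot_le hu hw
    nlinarith
  · rw [LX_e u k hk]; norm_num
  · rw [map_neg, LX_e u k hk]; norm_num

lemma LY_on_G (h : Good V c) {u : ℝ × ℝ} (hu : u ∈ V) :
    ∀ g ∈ Gen m V (1/(1+c)), (LY u) g ≤ 1 := by
  have hmu := h.mu_pos
  have hmu1 := h.mu_lt
  rintro z (⟨w, hw, rfl⟩ | ⟨w, hw, rfl⟩ | ⟨w, hw, rfl⟩ | ⟨k, hk, rfl | rfl⟩)
  · rw [LY_X]; norm_num
  · rw [LY_Y]; exact h.dot_le hu hw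
  · rw [map_smul, smul_eq_mul, map_add, LY_X, LY_Y]
    have := h.dot_le hu hw
    nlinarith
  · rw [LY_e u k hk]; norm_num
  · rw [map_neg, LY_e u k hk]; norm_num

/-- functional `s * coordinate k` -/
lemma co_on_G (k : Fin (m+4)) (hk : 4 ≤ k.val) (s : ℝ) (hs : s = 1 ∨ s = -1) :
    ∀ g ∈ Gen m V (1/(1+c)), (s • co k) g ≤ 1 := by
  rintro z (⟨w, hw, rfl⟩ | ⟨w, hw, rfl⟩ | ⟨w, hw, rfl⟩ | ⟨j, hj, rfl | rfl⟩)
  · rw [LinearMap.smul_apply, co_X k hk]; norm_num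
  · rw [LinearMap.smul_apply, co_Y k hk]; norm_num
  · rw [LinearMap.smul_apply, map_smul, map_add, co_X k hk, co_Y k hk]; norm_num
  · rw [LinearMap.smul_apply, co_e]
    split_ifs <;> rcases hs with rfl | rfl <;> norm_num
  · rw [LinearMap.smul_apply, map_neg, co_e]
    split_ifs <;> rcases hs with rfl | rfl <;> norm_num

lemma LXco_on_G (h : Good V c) {u : ℝ × ℝ} (hu : u ∈ V) (k : Fin (m+4)) (hk : 4 ≤ k.val)
    (s : ℝ) (hs : s = 1 ∨ s = -1) :
    ∀ g ∈ Gen m V (1/(1+c)), (LX u + s • co k : Ed m →ₗ[ℝ] ℝ) g ≤ 1 := by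
  have hmu := h.mu_pos
  have hmu1 := h.mu_lt
  rintro z (⟨w, hw, rfl⟩ | ⟨w, hw, rfl⟩ | ⟨w, hw, rfl⟩ | ⟨j, hj, rfl | rfl⟩)
  · rw [LinearMap.add_apply, LinearMap.smul_apply, co_X k hk, LX_X, smul_zero, add_zero]
    exact h.dot_le hu hw
  · rw [LinearMap.add_apply, LinearMap.smul_apply, co_Y k hk, LX_Y]; norm_num
  · rw [LinearMap.add_apply, LinearMap.smul_apply, map_smul, map_smul, map_add, map_add, co_X k hk,
      co_Y k hk, LX_X, LX_Y]
    have := h.dot_le hu hw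
    simp only [add_zero, smul_eq_mul, mul_zero]
    nlinarith
  · rw [LinearMap.add_apply, LinearMap.smul_apply, co_e, LX_e u j hj]
    split_ifs <;> rcases hs with rfl | rfl <;> norm_num
  · rw [LinearMap.add_apply, LinearMap.smul_apply, map_neg, map_neg, co_e, LX_e u j hj]
    split_ifs <;> rcases hs with rfl | rfl <;> norm_num

lemma Xv_neg (v : ℝ × ℝ) : (Xv (-v) : Ed m) = - Xv v := by
  ext k
  simp only [Xv, Prod.fst_neg, Prod.snd_neg, PiLp.neg_apply]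
  split_ifs <;> simp

lemma Yv_neg (v : ℝ × ℝ) : (Yv (-v) : Ed m) = - Yv v := by
  ext k
  simp only [Yv, Prod.fst_neg, Prod.snd_neg, PiLp.neg_apply]
  split_ifs <;> simp

lemma ev_mem (h : Good V c) (k : Fin (m+4)) :
    (ev k : Ed m) ∈ Gen m V (1/(1+c)) ∧ (- ev k : Ed m) ∈ Gen m V (1/(1+c)) := by
  by_cases h4 : 4 ≤ k.val
  · exact ⟨Or.inr (Or.inr (Or.inr ⟨k, h4, Or.inl rfl⟩)), Or.inr (Or.inr (Or.inr ⟨k, h4, Or.inr rfl⟩))⟩
  · have hk : k.val = 0 ∨ k.val = 1 ∨ k.val = 2 ∨ k.val = 3 := by omega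
    rcases hk with hk | hk | hk | hk
    · have e1 : (ev k : Ed m) = Xv (1, 0) := by
        ext j; simp only [ev, Xv, Fin.ext_iff, hk]
        split_ifs <;> simp
      rw [e1, ← Xv_neg]
      exact ⟨Or.inl ⟨_, h.m1, rfl⟩, Or.inl ⟨_, h.neg _ h.m1, rfl⟩⟩
    · have e1 : (ev k : Ed m) = Xv (0, 1) := by
        ext j; simp only [ev, Xv, Fin.ext_iff, hk]
        split_ifs <;> simp_all
      rw [e1, ← Xv_neg]
      exact ⟨Or.inl ⟨_, h.m2, rfl⟩, Or.inl ⟨_, h.neg _ h.m2, rfl⟩⟩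
    · have e1 : (ev k : Ed m) = Yv (1, 0) := by
        ext j; simp only [ev, Yv, Fin.ext_iff, hk]
        split_ifs <;> simp
      rw [e1, ← Yv_neg]
      exact ⟨Or.inr (Or.inl ⟨_, h.m1, rfl⟩), Or.inr (Or.inl ⟨_, h.neg _ h.m1, rfl⟩)⟩
    · have e1 : (ev k : Ed m) = Yv (0, 1) := by
        ext j; simp only [ev, Yv, Fin.ext_iff, hk]
        split_ifs <;> simp_all
      rw [e1, ← Yv_neg]
      exact ⟨Or.inr (Or.inl ⟨_, h.m2, rfl⟩), Or.inr (Or.inl ⟨_, h.neg _ h.m2, rfl⟩)⟩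

lemma zero_int (h : Good V c) : (0 : Ed m) ∈ interior (convexHull ℝ (Gen m V (1/(1+c)))) := by
  set K := convexHull ℝ (Gen m V (1/(1+c))) with hK
  have hconv : Convex ℝ K := convex_convexHull ℝ _
  have hseg : ∀ (k : Fin (m+4)) (t : ℝ), -1 ≤ t → t ≤ 1 → t • (ev k : Ed m) ∈ K := by
    intro k t h1 h2
    obtain ⟨a, b⟩ := ev_mem (m := m) h k
    have := hconv (subset_convexHull ℝ _ a) (subset_convexHull ℝ _ b)
      (by linarith : 0 ≤ (1 + t) / 2) (by linarith : 0 ≤ (1 - t) / 2) (by ring)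
    have e : ((1 + t) / 2) • (ev k : Ed m) + ((1 - t) / 2) • (- ev k : Ed m) = t • ev k := by
      rw [smul_neg, ← sub_eq_add_neg, ← sub_smul]
      congr 1; ring
    rwa [e] at this
  rw [mem_interior]
  refine ⟨Metric.ball 0 (1 / ((m:ℝ) + 4)), ?_, Metric.isOpen_ball, Metric.mem_ball_self (by positivity)⟩
  intro z hz
  rw [Metric.mem_ball, dist_zero_right] at hz
  have hco : ∀ k : Fin (m+4), |z k| ≤ 1 / ((m:ℝ) + 4) := by
    intro k
    have := EuclideanSpace.norm_eq z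
    have h1 : |z k| ≤ ‖z‖ := by
      rw [← Real.norm_eq_abs]
      exact PiLp.norm_apply_le z k
    linarith
  have hz2 : z = ∑ k : Fin (m+4), (1 / ((m:ℝ) + 4)) • ((((m:ℝ) + 4) * z k) • (ev k : Ed m)) := by
    ext j
    have hm : ((m:ℝ) + 4) ≠ 0 := by positivity
    simp only [smul_smul]
    have : ∀ k : Fin (m+4), (1 / ((m:ℝ) + 4)) * (((m:ℝ) + 4) * z k) = z k := by
      intro k; field_simp
    simp only [this]
    rw [WithLp.ofLp_sum, Finset.sum_apply]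
    simp [ev]
  rw [hz2]
  apply hconv.sum_mem
  · intro k _; positivity
  · simp only [Finset.sum_const, Finset.card_univ, Fintype.card_fin, nsmul_eq_mul]
    push_cast
    have hm : ((m:ℝ) + 4) ≠ 0 := by positivity
    field_simp
  · intro k _
    apply hseg
    · have := (abs_le.mp (hco k)).1
      have hm : 0 < (m:ℝ) + 4 := by positivity
      have h2 : -(1 / ((m:ℝ) + 4)) * ((m:ℝ) + 4) ≤ z k * ((m:ℝ) + 4) := by
        apply mul_le_mul_of_nonneg_right this hm.le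
      have h3 : -(1 / ((m:ℝ) + 4)) * ((m:ℝ) + 4) = -1 := by field_simp
      linarith
    · have := (abs_le.mp (hco k)).2
      have hm : 0 < (m:ℝ) + 4 := by positivity
      have h2 : z k * ((m:ℝ) + 4) ≤ (1 / ((m:ℝ) + 4)) * ((m:ℝ) + 4) := by
        apply mul_le_mul_of_nonneg_right this hm.le
      have h3 : (1 / ((m:ℝ) + 4)) * ((m:ℝ) + 4) = 1 := by field_simp
      linarith


lemma exists_good (N : ℕ) : ∃ (V : Finset (ℝ × ℝ)) (c : ℝ), Good V c ∧ N ≤ V.card := by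
  classical
  set f : ℕ → ℝ × ℝ := fun t => ((1 - (t:ℝ)^2) / (1 + (t:ℝ)^2), 2 * (t:ℝ) / (1 + (t:ℝ)^2)) with hf
  have hinj : Function.Injective f := by
    intro s t hst
    have h1 : (1 - (s:ℝ)^2) / (1 + (s:ℝ)^2) = (1 - (t:ℝ)^2) / (1 + (t:ℝ)^2) := congrArg Prod.fst hst
    rw [div_eq_div_iff (by positivity) (by positivity)] at h1
    have h2 : (s:ℝ)^2 = (t:ℝ)^2 := by linarith
    have h3 : (s:ℝ) = t := by
      exact (sq_eq_sq₀ (by positivity) (by positivity)).mp h2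
    exact_mod_cast h3
  set V : Finset (ℝ × ℝ) := (Finset.range (N+2)).image f ∪ (Finset.range (N+2)).image (fun t => - f t) with hV
  have hunit : ∀ v ∈ V, v.1 ^ 2 + v.2 ^ 2 = 1 := by
    intro v hv
    rw [hV, Finset.mem_union, Finset.mem_image, Finset.mem_image] at hv
    rcases hv with ⟨t, _, rfl⟩ | ⟨t, _, rfl⟩
    · simp only [hf]
      have : (1 + (t:ℝ)^2) ≠ 0 := by positivity
      field_simp
      ring
    · simp only [hf, Prod.fst_neg, Prod.snd_neg]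
      have : (1 + (t:ℝ)^2) ≠ 0 := by positivity
      field_simp
      ring
  have hneg : ∀ v ∈ V, -v ∈ V := by
    intro v hv
    rw [hV, Finset.mem_union, Finset.mem_image, Finset.mem_image] at hv ⊢
    rcases hv with ⟨t, ht, rfl⟩ | ⟨t, ht, rfl⟩
    · exact Or.inr ⟨t, ht, rfl⟩
    · exact Or.inl ⟨t, ht, by simp⟩
  have hm1 : ((1:ℝ), (0:ℝ)) ∈ V := by
    rw [hV, Finset.mem_union, Finset.mem_image]
    exact Or.inl ⟨0, by simp, by simp [hf]⟩
  have hm2 : ((0:ℝ), (1:ℝ)) ∈ V := by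
    rw [hV, Finset.mem_union, Finset.mem_image]
    refine Or.inl ⟨1, by simp, ?_⟩
    simp only [hf]
    norm_num
  set S : Finset ℝ := insert (1/2) (((V ×ˢ V).filter (fun p => p.1 ≠ p.2)).image (fun p => dot p.1 p.2)) with hS
  have hSne : S.Nonempty := ⟨1/2, Finset.mem_insert_self _ _⟩
  refine ⟨V, S.max' hSne, ⟨hunit, hneg, hm1, hm2, ?_, ?_, ?_⟩, ?_⟩
  · exact Finset.le_max' S _ (Finset.mem_insert_self _ _)
  · rw [Finset.max'_lt_iff]
    intro y hy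
    rw [hS, Finset.mem_insert, Finset.mem_image] at hy
    rcases hy with rfl | ⟨⟨u, v⟩, huv, rfl⟩
    · norm_num
    · rw [Finset.mem_filter, Finset.mem_product] at huv
      obtain ⟨⟨hu, hv⟩, hne⟩ := huv
      have h1 := hunit u hu
      have h2 := hunit v hv
      have h3 : 0 < (u.1 - v.1)^2 + (u.2 - v.2)^2 := by
        by_contra hcon
        apply hne
        have ha : (u.1 - v.1)^2 = 0 := by nlinarith [sq_nonneg (u.1 - v.1), sq_nonneg (u.2 - v.2)]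
        have hb : (u.2 - v.2)^2 = 0 := by nlinarith [sq_nonneg (u.1 - v.1), sq_nonneg (u.2 - v.2)]
        have ha' := pow_eq_zero_iff (two_ne_zero) |>.mp ha
        have hb' := pow_eq_zero_iff (two_ne_zero) |>.mp hb
        exact Prod.ext (by linarith) (by linarith)
      unfold dot
      nlinarith
  · intro u hu v hv huv
    apply Finset.le_max' S
    rw [hS, Finset.mem_insert, Finset.mem_image]
    exact Or.inr ⟨(u, v), by rw [Finset.mem_filter, Finset.mem_product]; exact ⟨⟨hu, hv⟩, huv⟩, rfl⟩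
  · calc N ≤ N + 2 := by omega
      _ = ((Finset.range (N+2)).image f).card := by
        rw [Finset.card_image_of_injective _ hinj, Finset.card_range]
      _ ≤ V.card := Finset.card_le_card Finset.subset_union_left

end Pool.Agent.H7Illum
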