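import Mathlib
import Pool.Agent.H7Illum2

namespace Pool.Agent.H7Illum

open Set Topology

variable {m : ℕ} {V : Finset (ℝ × ℝ)} {c : ℝ}

lemma nrm_smul {E : Type*} [NormedAddCommGroup E] [NormedSpace ℝ E] (w : E) {t : ℝ} (ht : 0 < t) :
    nrm (t • w) = nrm w := by
  unfold nrm
  rw [norm_smul, Real.norm_of_nonneg ht.le, smul_smul]
  congr 1
  field_simp

/-- the body -/
def Body (m : ℕ) (V : Finset (ℝ × ℝ)) (c : ℝ) : Set (Ed m) := convexHull ℝ (Gen m V (1/(1+c)))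

lemma body_convex : Convex ℝ (Body m V c) := convex_convexHull ℝ _

lemma body_compact : IsCompact (Body m V c) := Set.Finite.isCompact_convexHull ℝ (Gen_finite V _)

lemma mem_frontier_of {p : Ed m} (hp : p ∈ Body m V c) (L : Ed m →ₗ[ℝ] ℝ)
    (hL : ∀ g ∈ Gen m V (1/(1+c)), L g ≤ 1) (h1 : 1 ≤ L p) : p ∈ frontier (Body m V c) := by
  rw [body_compact.isClosed.frontier_eq]
  exact ⟨hp, not_mem_interior _ L (le_on_hull _ L hL) p h1⟩

lemma X_mem {v : ℝ × ℝ} (hv : v ∈ V) : (Xv v : Ed m) ∈ Body m V c :=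
  subset_convexHull ℝ _ (Or.inl ⟨v, hv, rfl⟩)
lemma Y_mem {v : ℝ × ℝ} (hv : v ∈ V) : (Yv v : Ed m) ∈ Body m V c :=
  subset_convexHull ℝ _ (Or.inr (Or.inl ⟨v, hv, rfl⟩))
lemma W_mem {v : ℝ × ℝ} (hv : v ∈ V) : ((1/(1+c)) • (Xv v + Yv v) : Ed m) ∈ Body m V c :=
  subset_convexHull ℝ _ (Or.inr (Or.inr (Or.inl ⟨v, hv, rfl⟩)))

lemma X_frontier (h : Good V c) {v : ℝ × ℝ} (hv : v ∈ V) : (Xv v : Ed m) ∈ frontier (Body m V c) :=
  mem_frontier_of (X_mem hv) (LX v) (LX_on_G h hv) (by rw [LX_X, h.dot_self hv])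

lemma Y_frontier (h : Good V c) {v : ℝ × ℝ} (hv : v ∈ V) : (Yv v : Ed m) ∈ frontier (Body m V c) :=
  mem_frontier_of (Y_mem hv) (LY v) (LY_on_G h hv) (by rw [LY_Y, h.dot_self hv])

lemma e_frontier (h : Good V c) (k : Fin (m+4)) (hk : 4 ≤ k.val) :
    (ev k : Ed m) ∈ frontier (Body m V c) ∧ (- ev k : Ed m) ∈ frontier (Body m V c) := by
  refine ⟨mem_frontier_of (subset_convexHull ℝ _ (ev_mem h k).1) ((1:ℝ) • co k)
      (co_on_G k hk 1 (Or.inl rfl)) ?_,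
    mem_frontier_of (subset_convexHull ℝ _ (ev_mem h k).2) ((-1:ℝ) • co k)
      (co_on_G k hk (-1) (Or.inr rfl)) ?_⟩
  · rw [LinearMap.smul_apply, co_e]; simp
  · rw [LinearMap.smul_apply, map_neg, co_e]; simp

lemma half_int (h : Good V c) {v : ℝ × ℝ} (hv : v ∈ V) :
    ((1/2 : ℝ) • (Xv v + Yv v) : Ed m) ∈ interior (Body m V c) := by
  have h1 := smul_mem_int body_convex (zero_int h) (W_mem (m := m) (c := c) hv)
    (t := (1 + c) / 2) (by have := h.c0; linarith) (by have := h.c1; linarith)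
  rw [smul_smul] at h1
  have : (1 + c) / 2 * (1 / (1 + c)) = 1 / 2 := by
    have : 1 + c ≠ 0 := by have := h.c0; linarith
    field_simp
  rwa [this] at h1

/-- candidate inner illuminating set -/
def A0 (m : ℕ) (V : Finset (ℝ × ℝ)) : Set (Ed m) :=
  {a | (∃ v ∈ V, a = Yv v) ∨ (∃ k : Fin (m+4), 4 ≤ k.val ∧ (a = ev k ∨ a = - ev k))}

lemma A0_finite : (A0 m V).Finite :=
  (Gen_finite V 1).subset (by
    rintro z (⟨v, hv, rfl⟩ | ⟨k, hk, hz⟩)
    · exact Or.inr (Or.inl ⟨v, hv, rfl⟩)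
    · exact Or.inr (Or.inr (Or.inr ⟨k, hk, hz⟩)))

lemma A0_frontier (h : Good V c) : A0 m V ⊆ frontier (Body m V c) := by
  rintro z (⟨v, hv, rfl⟩ | ⟨k, hk, rfl | rfl⟩)
  · exact Y_frontier h hv
  · exact (e_frontier h k hk).1
  · exact (e_frontier h k hk).2

lemma A0_illum (h : Good V c) : ∀ x ∈ Body m V c, ∃ a ∈ A0 m V, ∃ ε : ℝ, 0 < ε ∧ ε < 1 ∧
    (1 - ε) • x + ε • a ∈ interior (Body m V c) := by
  apply inner_of_gen
  have hz := zero_int (m := m) h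
  have mu0 := h.mu_pos
  rintro z (⟨v, hv, rfl⟩ | ⟨v, hv, rfl⟩ | ⟨v, hv, rfl⟩ | ⟨k, hk, rfl | rfl⟩)
  · refine ⟨Yv v, Or.inl ⟨v, hv, rfl⟩, 1/2, by norm_num, by norm_num, ?_⟩
    have h1 := half_int (m := m) h hv
    rw [smul_add] at h1
    have e : (1 - (1/2:ℝ)) = 1/2 := by norm_num
    rw [e]
    exact h1
  · refine ⟨Yv (-v), Or.inl ⟨-v, h.neg v hv, rfl⟩, 1/2, by norm_num, by norm_num, ?_⟩
    rw [Yv_neg]
    have : (1 - (1/2:ℝ)) • (Yv v : Ed m) + (1/2:ℝ) • (-Yv v) = 0 := by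
      rw [smul_neg]; norm_num
    rw [this]
    exact hz
  · set μ := 1 / (1 + c) with hmu
    refine ⟨Yv (-v), Or.inl ⟨-v, h.neg v hv, rfl⟩, μ / (1 + μ), by positivity, ?_, ?_⟩
    · rw [div_lt_one (by positivity)]; linarith
    · have hne : 1 + μ ≠ 0 := by positivity
      have e1 : (1 - μ / (1 + μ)) • (μ • (Xv v + Yv v) : Ed m) + (μ / (1 + μ)) • (Yv (-v) : Ed m)
          = (μ / (1 + μ)) • Xv v := by
        have e2 : (1 - μ / (1 + μ)) * μ = μ / (1 + μ) := by field_simp; ring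
        rw [Yv_neg, smul_smul, e2, smul_add, smul_neg, add_neg_cancel_right]
      rw [e1]
      apply smul_mem_int body_convex hz (X_mem hv) (by positivity)
      rw [div_lt_one (by positivity)]; linarith
  · refine ⟨- ev k, Or.inr ⟨k, hk, Or.inr rfl⟩, 1/2, by norm_num, by norm_num, ?_⟩
    have : (1 - (1/2:ℝ)) • (ev k : Ed m) + (1/2:ℝ) • (- ev k) = 0 := by
      rw [smul_neg]; norm_num
    rw [this]
    exact hz
  · refine ⟨ev k, Or.inr ⟨k, hk, Or.inl rfl⟩, 1/2, by norm_num, by norm_num, ?_⟩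
    have : (1 - (1/2:ℝ)) • (- ev k : Ed m) + (1/2:ℝ) • (ev k) = 0 := by
      rw [smul_neg]; norm_num
    rw [this]
    exact hz

lemma A0_private (h : Good V c) {v : ℝ × ℝ} (hv : v ∈ V) {b : Ed m} (hb : b ∈ A0 m V) {ε : ℝ}
    (hint : (1 - ε) • Xv v + ε • b ∈ interior (Body m V c)) : b = Yv v := by
  rcases hb with ⟨u, hu, rfl⟩ | ⟨k, hk, rfl | rfl⟩
  · by_contra hne
    have huv : v ≠ u := by
      rintro rfl; exact hne rfl
    refine not_mem_interior _ (LX v + LY u) (le_on_hull _ _ (sep_on_G h hv hu huv)) _ ?_ hint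
    rw [map_add, map_smul, map_smul, LinearMap.add_apply, LinearMap.add_apply, LX_X, LY_X, LX_Y, LY_Y,
      h.dot_self hv, h.dot_self hu]
    simp only [smul_eq_mul]
    linarith
  · exfalso
    refine not_mem_interior _ (LX v + (1:ℝ) • co k) (le_on_hull _ _ (LXco_on_G h hv k hk 1 (Or.inl rfl)))
      _ ?_ hint
    rw [map_add, map_smul, map_smul, LinearMap.add_apply, LinearMap.add_apply, LX_X, LX_e v k hk,
      LinearMap.smul_apply, LinearMap.smul_apply, co_e, co_X k hk, h.dot_self hv]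
    simp only [smul_eq_mul, if_true]
    linarith
  · exfalso
    refine not_mem_interior _ (LX v + (-1:ℝ) • co k) (le_on_hull _ _ (LXco_on_G h hv k hk (-1) (Or.inr rfl)))
      _ ?_ hint
    rw [map_add, map_smul, map_smul, LinearMap.add_apply, LinearMap.add_apply, map_neg, map_neg, LX_X,
      LX_e v k hk, LinearMap.smul_apply, LinearMap.smul_apply, co_e, co_X k hk, h.dot_self hv]
    simp only [smul_eq_mul, if_true]
    linarith

lemma Y_inj (h : Good V c) : Set.InjOn (fun v => (Yv v : Ed m)) (V : Set (ℝ × ℝ)) := by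
  intro u hu v hv huv
  by_contra hne
  have h1 : LY u (Yv u : Ed m) = LY u (Yv v : Ed m) := congrArg _ huv
  rw [LY_Y, LY_Y, h.dot_self hu] at h1
  have := h.sep u hu v hv hne
  have := h.c1
  linarith

/-- candidate outer illuminating set -/
def U0 (m : ℕ) (V : Finset (ℝ × ℝ)) : Set (Ed m) :=
  {a | (∃ v ∈ V, a = nrm (Yv v - Xv v)) ∨ (∃ v ∈ V, a = nrm (- Yv v)) ∨
    (∃ k : Fin (m+4), 4 ≤ k.val ∧ (a = nrm (ev k) ∨ a = nrm (- ev k)))}

lemma U0_finite : (U0 m V).Finite := by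
  have h : U0 m V ⊆ ((fun v => nrm (Yv v - Xv v)) '' (V : Set (ℝ × ℝ))) ∪
      ((fun v => nrm (- Yv v)) '' (V : Set (ℝ × ℝ))) ∪
      (Set.range (fun k : Fin (m+4) => nrm (ev k : Ed m))) ∪
      (Set.range (fun k : Fin (m+4) => nrm (- ev k : Ed m))) := by
    rintro z (⟨v, hv, rfl⟩ | ⟨v, hv, rfl⟩ | ⟨k, _, rfl | rfl⟩)
    · exact Or.inl (Or.inl (Or.inl ⟨v, hv, rfl⟩))
    · exact Or.inl (Or.inl (Or.inr ⟨v, hv, rfl⟩))
    · exact Or.inl (Or.inr ⟨k, rfl⟩)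
    · exact Or.inr ⟨k, rfl⟩
  refine Set.Finite.subset ?_ h
  exact (((V.finite_toSet.image _).union (V.finite_toSet.image _)).union
    (Set.finite_range _)).union (Set.finite_range _)

lemma ne_zero_of {L : Ed m →ₗ[ℝ] ℝ} {w : Ed m} (h : L w ≠ 0) : w ≠ 0 := by
  rintro rfl; exact h (map_zero L)

lemma d_ne (h : Good V c) {v : ℝ × ℝ} (hv : v ∈ V) : (Yv v - Xv v : Ed m) ≠ 0 := by
  apply ne_zero_of (L := LY v)
  rw [map_sub, LY_Y, LY_X, h.dot_self hv]; norm_num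

lemma Y_ne (h : Good V c) {v : ℝ × ℝ} (hv : v ∈ V) : (- Yv v : Ed m) ≠ 0 := by
  apply ne_zero_of (L := LY v)
  rw [map_neg, LY_Y, h.dot_self hv]; norm_num

lemma e_ne (k : Fin (m+4)) : (ev k : Ed m) ≠ 0 := by
  apply ne_zero_of (L := co k)
  rw [co_e]; simp

lemma U0_unit (h : Good V c) : ∀ u ∈ U0 m V, ‖u‖ = 1 := by
  rintro z (⟨v, hv, rfl⟩ | ⟨v, hv, rfl⟩ | ⟨k, _, rfl | rfl⟩)
  · exact norm_nrm (d_ne h hv)
  · exact norm_nrm (Y_ne h hv)
  · exact norm_nrm (e_ne k)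
  · exact norm_nrm (neg_ne_zero.mpr (e_ne k))

lemma U0_illum (h : Good V c) : ∀ x ∈ Body m V c, ∃ u ∈ U0 m V, ∃ ε : ℝ, 0 < ε ∧ ε < 1 ∧
    x + ε • u ∈ interior (Body m V c) := by
  apply outer_of_gen
  have hz := zero_int (m := m) h
  have mu0 := h.mu_pos
  have mu1 := h.mu_lt
  rintro z (⟨v, hv, rfl⟩ | ⟨v, hv, rfl⟩ | ⟨v, hv, rfl⟩ | ⟨k, hk, rfl | rfl⟩)
  · refine ⟨(1/2:ℝ) • (Yv v - Xv v), smul_ne_zero (by norm_num) (d_ne h hv), ?_, ?_⟩
    · rw [nrm_smul _ (by norm_num)]; exact Or.inl ⟨v, hv, rfl⟩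
    · have h1 := half_int (m := m) h hv
      have : (Xv v : Ed m) + (1/2:ℝ) • (Yv v - Xv v) = (1/2:ℝ) • (Xv v + Yv v) := by
        module
      rw [this]; exact h1
  · refine ⟨(1/2:ℝ) • (- Yv v), smul_ne_zero (by norm_num) (Y_ne h hv), ?_, ?_⟩
    · rw [nrm_smul _ (by norm_num)]; exact Or.inr (Or.inl ⟨v, hv, rfl⟩)
    · have : (Yv v : Ed m) + (1/2:ℝ) • (- Yv v) = (1/2:ℝ) • Yv v := by module
      rw [this]
      exact smul_mem_int body_convex hz (Y_mem hv) (by norm_num) (by norm_num)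
  · refine ⟨(1/(1+c)) • (- Yv v), smul_ne_zero mu0.ne' (Y_ne h hv), ?_, ?_⟩
    · rw [nrm_smul _ mu0]; exact Or.inr (Or.inl ⟨v, hv, rfl⟩)
    · have : (1/(1+c)) • (Xv v + Yv v : Ed m) + (1/(1+c)) • (- Yv v) = (1/(1+c)) • Xv v := by module
      rw [this]
      exact smul_mem_int body_convex hz (X_mem hv) mu0.le mu1
  · refine ⟨(1/2:ℝ) • (- ev k), smul_ne_zero (by norm_num) (neg_ne_zero.mpr (e_ne k)), ?_, ?_⟩
    · rw [nrm_smul _ (by norm_num)]; exact Or.inr (Or.inr ⟨k, hk, Or.inr rfl⟩)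
    · have : (ev k : Ed m) + (1/2:ℝ) • (- ev k) = (1/2:ℝ) • ev k := by module
      rw [this]
      exact smul_mem_int body_convex hz (subset_convexHull ℝ _ (ev_mem h k).1) (by norm_num) (by norm_num)
  · refine ⟨(1/2:ℝ) • (ev k), smul_ne_zero (by norm_num) (e_ne k), ?_, ?_⟩
    · rw [nrm_smul _ (by norm_num)]; exact Or.inr (Or.inr ⟨k, hk, Or.inl rfl⟩)
    · have : (- ev k : Ed m) + (1/2:ℝ) • (ev k) = (1/2:ℝ) • (- ev k) := by module
      rw [this]
      exact smul_mem_int body_convex hz (subset_convexHull ℝ _ (ev_mem h k).2) (by norm_num) (by norm_num)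

lemma U0_private (h : Good V c) {v : ℝ × ℝ} (hv : v ∈ V) {b : Ed m} (hb : b ∈ U0 m V) {ε : ℝ}
    (hε : 0 < ε) (hint : Xv v + ε • b ∈ interior (Body m V c)) : b = nrm (Yv v - Xv v) := by
  rcases hb with ⟨u, hu, rfl⟩ | ⟨u, hu, rfl⟩ | ⟨k, hk, rfl | rfl⟩
  · by_contra hne
    have huv : v ≠ u := by
      rintro rfl; exact hne rfl
    refine not_mem_interior _ (LX v + LY u) (le_on_hull _ _ (sep_on_G h hv hu huv)) _ ?_ hint
    unfold nrm
    rw [map_add, map_smul, map_smul, map_sub, LinearMap.add_apply, LinearMap.add_apply,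
      LinearMap.add_apply, LX_X, LY_X, LX_Y, LY_Y, LX_X, LY_X, h.dot_self hv, h.dot_self hu]
    simp only [smul_eq_mul]
    have h1 : dot v u ≤ 1 := h.dot_le hv hu
    have h2 : 0 ≤ ‖(Yv u - Xv u : Ed m)‖⁻¹ := by positivity
    have h3 : 0 ≤ ε * (‖(Yv u - Xv u : Ed m)‖⁻¹ * (0 + 1 - (dot v u + 0))) := by
      apply mul_nonneg hε.le
      apply mul_nonneg h2
      linarith
    linarith
  · exfalso
    refine not_mem_interior _ (LX v) (le_on_hull _ _ (LX_on_G h hv)) _ ?_ hint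
    unfold nrm
    rw [map_add, map_smul, map_smul, map_neg, LX_X, LX_Y, h.dot_self hv]
    simp
  · exfalso
    refine not_mem_interior _ (LX v) (le_on_hull _ _ (LX_on_G h hv)) _ ?_ hint
    unfold nrm
    rw [map_add, map_smul, map_smul, LX_X, LX_e v k hk, h.dot_self hv]
    simp
  · exfalso
    refine not_mem_interior _ (LX v) (le_on_hull _ _ (LX_on_G h hv)) _ ?_ hint
    unfold nrm
    rw [map_add, map_smul, map_smul, map_neg, LX_X, LX_e v k hk, h.dot_self hv]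
    simp

lemma D_inj (h : Good V c) : Set.InjOn (fun v => nrm (Yv v - Xv v : Ed m)) (V : Set (ℝ × ℝ)) := by
  intro u hu v hv huv
  by_contra hne
  have huv' : nrm (Yv u - Xv u : Ed m) = nrm (Yv v - Xv v) := huv
  -- `nrm (Y v - X v)` illuminates `X v`
  have h1 : (Xv v : Ed m) + (1/2:ℝ) • (Yv v - Xv v) ∈ interior (Body m V c) := by
    have h1 := half_int (m := m) h hv
    have : (Xv v : Ed m) + (1/2:ℝ) • (Yv v - Xv v) = (1/2:ℝ) • (Xv v + Yv v) := by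
      module
    rw [this]; exact h1
  obtain ⟨ε, hε, _, h2⟩ := outer_unit body_convex (X_mem hv)
    (smul_ne_zero (by norm_num) (d_ne h hv)) h1
  rw [nrm_smul _ (by norm_num), ← huv'] at h2
  have hvu : v ≠ u := fun e => hne e.symm
  refine not_mem_interior _ (LX v + LY u) (le_on_hull _ _ (sep_on_G h hv hu hvu)) _ ?_ h2
  unfold nrm
  rw [map_add, map_smul, map_smul, map_sub, LinearMap.add_apply, LinearMap.add_apply,
    LinearMap.add_apply, LX_X, LY_X, LX_Y, LY_Y, LX_X, LY_X, h.dot_self hv, h.dot_self hu]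
  simp only [smul_eq_mul]
  have h1 : dot v u ≤ 1 := h.dot_le hv hu
  have h2 : 0 ≤ ‖(Yv u - Xv u : Ed m)‖⁻¹ := by positivity
  have h3 : 0 ≤ ε * (‖(Yv u - Xv u : Ed m)‖⁻¹ * (0 + 1 - (dot v u + 0))) := by
    apply mul_nonneg hε.le
    apply mul_nonneg h2
    linarith
  linarith

end Pool.Agent.H7Illum
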