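import Mathlib

set_option autoImplicit false

open Complex Filter Set Metric Topology

namespace Pool.Agent.H7Suff

/-- complement of the set `S` -/
def D : Set ℂ := {z | Real.exp 4 < ‖z‖ ∧ ‖z‖ < z.re * √(Real.log ‖z‖)}

def S : Set ℂ := Dᶜ

lemma exp4_pos : (0:ℝ) < Real.exp 4 := Real.exp_pos 4

lemma one_lt_exp4 : (1:ℝ) < Real.exp 4 := by
  rw [Real.one_lt_exp_iff]; norm_num

lemma sqrtlog_ge {r : ℝ} (hr : Real.exp 4 ≤ r) : 2 ≤ √(Real.log r) := by
  have h1 : (4:ℝ) ≤ Real.log r := by
    rw [Real.le_log_iff_exp_le (lt_of_lt_of_le exp4_pos hr)]; exact hr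
  have : (2:ℝ) = √(2^2) := by
    rw [Real.sqrt_sq]; norm_num
  rw [this]
  apply Real.sqrt_le_sqrt
  linarith

lemma continuousAt_aux {z : ℂ} (hz : z ≠ 0) :
    ContinuousAt (fun z : ℂ => z.re * √(Real.log ‖z‖)) z := by
  have h1 : ContinuousAt (fun z : ℂ => Real.log ‖z‖) z :=
    ContinuousAt.log continuous_norm.continuousAt (by simpa using hz)
  have h2 : ContinuousAt (fun z : ℂ => √(Real.log ‖z‖)) z :=
    Real.continuous_sqrt.continuousAt.comp h1
  exact Complex.continuous_re.continuousAt.mul h2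

lemma isOpen_D : IsOpen D := by
  rw [isOpen_iff_mem_nhds]
  rintro z ⟨h1, h2⟩
  have hz : z ≠ 0 := by
    rintro rfl
    simp at h1
    linarith [exp4_pos]
  have e1 : ∀ᶠ w in 𝓝 z, Real.exp 4 < ‖w‖ :=
    continuous_norm.continuousAt.eventually (lt_mem_nhds h1)
  have e2 : ∀ᶠ w in 𝓝 z, ‖w‖ < w.re * √(Real.log ‖w‖) :=
    (continuous_norm.continuousAt).eventually_lt (continuousAt_aux hz) h2
  filter_upwards [e1, e2] with w hw1 hw2 using ⟨hw1, hw2⟩

lemma closure_D {z : ℂ} (hz : z ∈ closure D) :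
    Real.exp 4 ≤ ‖z‖ ∧ ‖z‖ ≤ z.re * √(Real.log ‖z‖) := by
  rw [mem_closure_iff_seq_limit] at hz
  obtain ⟨u, hu, hlim⟩ := hz
  have n1 : Tendsto (fun n => ‖u n‖) atTop (𝓝 ‖z‖) := hlim.norm
  have h1 : Real.exp 4 ≤ ‖z‖ := ge_of_tendsto' n1 (fun n => (hu n).1.le)
  have hz : z ≠ 0 := by
    rintro rfl
    simp at h1
    linarith [exp4_pos]
  refine ⟨h1, ?_⟩
  have n2 : Tendsto (fun n => (u n).re * √(Real.log ‖u n‖)) atTop
      (𝓝 (z.re * √(Real.log ‖z‖))) := (continuousAt_aux hz).tendsto.comp hlim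
  exact le_of_tendsto_of_tendsto' n1 n2 (fun n => (hu n).2.le)

lemma re_pos {z : ℂ} (h1 : Real.exp 4 ≤ ‖z‖) (h2 : ‖z‖ ≤ z.re * √(Real.log ‖z‖)) :
    0 < z.re := by
  by_contra h
  push Not at h
  have := sqrtlog_ge h1
  have : z.re * √(Real.log ‖z‖) ≤ 0 := mul_nonpos_of_nonpos_of_nonneg h (by linarith)
  linarith [exp4_pos]

lemma re_zlogz {z : ℂ} (h1 : Real.exp 4 ≤ ‖z‖) (h2 : ‖z‖ ≤ z.re * √(Real.log ‖z‖)) :
    ‖z‖ * (√(Real.log ‖z‖) - 2) ≤ (z * Complex.log z).re := by
  have hre := re_pos h1 h2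
  have hl : 0 ≤ Real.log ‖z‖ := Real.log_nonneg (by linarith [one_lt_exp4])
  have hs := sqrtlog_ge h1
  rw [Complex.mul_re, Complex.log_re, Complex.log_im]
  have ha : |z.arg| ≤ 2 := by
    have := (Complex.abs_arg_le_pi_div_two_iff).2 hre.le
    have hpi := Real.pi_lt_four
    linarith
  have hb : z.im * z.arg ≤ ‖z‖ * 2 := by
    calc z.im * z.arg ≤ |z.im * z.arg| := le_abs_self _
      _ = |z.im| * |z.arg| := abs_mul _ _
      _ ≤ ‖z‖ * 2 := mul_le_mul (Complex.abs_im_le_norm z) ha (abs_nonneg _) (norm_nonneg _)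
  have hc : ‖z‖ * √(Real.log ‖z‖) ≤ z.re * Real.log ‖z‖ := by
    calc ‖z‖ * √(Real.log ‖z‖) ≤ (z.re * √(Real.log ‖z‖)) * √(Real.log ‖z‖) :=
          mul_le_mul_of_nonneg_right h2 (Real.sqrt_nonneg _)
      _ = z.re * Real.log ‖z‖ := by rw [mul_assoc, Real.mul_self_sqrt hl]
  linarith

lemma bdd_of_bdd {f : ℂ → ℂ} (hf : Differentiable ℂ f) {A B : ℝ}
    (hA : 0 < A) (hB : 0 < B) (hAB : ∀ z : ℂ, ‖f z‖ ≤ B * Real.exp (A * ‖z‖))
    {M : ℝ} (hM : 0 < M) (hS : ∀ z ∈ S, ‖f z‖ ≤ M) (z : ℂ) : ‖f z‖ ≤ M := by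
  by_cases hzS : z ∈ S
  · exact hS z hzS
  have hzD : z ∈ D := by simpa [S] using hzS
  -- main estimate for each ε
  have key : ∀ ε : ℝ, 0 < ε → ‖f z‖ ≤ M * Real.exp (ε * (z * Complex.log z).re) := by
    intro ε hε
    set g : ℂ → ℂ := fun w => f w * Complex.exp (-(ε * (w * Complex.log w))) with hg
    have hgn : ∀ w, ‖g w‖ = ‖f w‖ * Real.exp (-(ε * (w * Complex.log w).re)) := by
      intro w
      rw [hg]
      simp only [norm_mul, Complex.norm_exp, Complex.neg_re, Complex.re_ofReal_mul]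
    -- eventually the bound at radius R is at most M
    have hev : ∀ᶠ R : ℝ in atTop, B * Real.exp (A * R) * Real.exp (-(ε * (R * (√(Real.log R) - 2)))) ≤ M := by
      have t1 : Tendsto (fun R : ℝ => √(Real.log R)) atTop atTop :=
        Real.tendsto_sqrt_atTop.comp Real.tendsto_log_atTop
      have e1 : ∀ᶠ R : ℝ in atTop, (A + 1) / ε + 2 ≤ √(Real.log R) := t1.eventually_ge_atTop _
      have e2 : ∀ᶠ R : ℝ in atTop, Real.log (B / M) ≤ R := eventually_ge_atTop _
      have e3 : ∀ᶠ R : ℝ in atTop, 0 ≤ R := eventually_ge_atTop _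
      filter_upwards [e1, e2, e3] with R h1 h2 h3
      have h4 : (A + 1) ≤ ε * (√(Real.log R) - 2) := by
        have : (A + 1) / ε ≤ √(Real.log R) - 2 := by linarith
        rw [div_le_iff₀ hε] at this
        linarith
      have h5 : A * R + -(ε * (R * (√(Real.log R) - 2))) ≤ - R := by
        have := mul_le_mul_of_nonneg_right h4 h3
        nlinarith
      rw [mul_assoc, ← Real.exp_add]
      calc B * Real.exp (A * R + -(ε * (R * (√(Real.log R) - 2))))
          ≤ B * Real.exp (-R) := by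
            apply mul_le_mul_of_nonneg_left _ hB.le
            exact Real.exp_le_exp.2 h5
        _ ≤ M := by
            have h6 : B / M ≤ Real.exp R := by
              rw [← Real.log_le_iff_le_exp (div_pos hB hM)]; exact h2
            rw [div_le_iff₀ hM] at h6
            rw [Real.exp_neg]
            rw [← div_eq_mul_inv, div_le_iff₀ (Real.exp_pos R)]
            linarith
    obtain ⟨R, hR1, hR2⟩ := (hev.and (eventually_gt_atTop ‖z‖)).exists
    set U : Set ℂ := D ∩ ball (0:ℂ) R with hU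
    have hUb : Bornology.IsBounded U := isBounded_ball.subset inter_subset_right
    have hUo : IsOpen U := isOpen_D.inter isOpen_ball
    have hUD : closure U ⊆ closure D := closure_mono inter_subset_left
    have hdiff : DiffContOnCl ℂ g U := by
      apply DifferentiableOn.diffContOnCl
      intro w hw
      apply DifferentiableAt.differentiableWithinAt
      have hw' := closure_D (hUD hw)
      have hwre := re_pos hw'.1 hw'.2
      have hslit : w ∈ Complex.slitPlane := Or.inl hwre
      apply DifferentiableAt.mul (hf w)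
      apply DifferentiableAt.cexp
      apply DifferentiableAt.neg
      apply DifferentiableAt.const_mul
      exact differentiableAt_id.mul (Complex.differentiableAt_log hslit)
    have hfr : ∀ w ∈ frontier U, ‖g w‖ ≤ M := by
      intro w hw
      rw [hUo.frontier_eq] at hw
      obtain ⟨hw1, hw2⟩ := hw
      have hwD := closure_D (hUD hw1)
      have hre := re_zlogz hwD.1 hwD.2
      have hsq := sqrtlog_ge hwD.1
      rw [hgn]
      by_cases hwS : w ∈ S
      · calc ‖f w‖ * Real.exp (-(ε * (w * Complex.log w).re)) ≤ M * 1 := by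
              apply mul_le_mul (hS w hwS) _ (Real.exp_pos _).le hM.le
              rw [Real.exp_le_one_iff]
              have : 0 ≤ (w * Complex.log w).re := by
                refine le_trans ?_ hre
                exact mul_nonneg (norm_nonneg _) (by linarith)
              have := mul_nonneg hε.le this
              linarith
          _ = M := mul_one M
      · have hwD' : w ∈ D := by simpa [S] using hwS
        have hwR : ‖w‖ = R := by
          have h1 : R ≤ ‖w‖ := by
            by_contra hlt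
            push Not at hlt
            exact hw2 ⟨hwD', by simpa using hlt⟩
          have h2 : ‖w‖ ≤ R := by
            have : w ∈ closure (ball (0:ℂ) R) := closure_mono inter_subset_right hw1
            have := closure_ball_subset_closedBall this
            simpa using this
          linarith
        calc ‖f w‖ * Real.exp (-(ε * (w * Complex.log w).re))
            ≤ (B * Real.exp (A * R)) * Real.exp (-(ε * (R * (√(Real.log R) - 2)))) := by
              apply mul_le_mul
              · have := hAB w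
                rwa [hwR] at this
              · apply Real.exp_le_exp.2
                rw [hwR] at hre
                have := mul_le_mul_of_nonneg_left hre hε.le
                linarith
              · exact (Real.exp_pos _).le
              · positivity
          _ ≤ M := hR1
    have hzU : z ∈ closure U := subset_closure ⟨hzD, by simpa using hR2⟩
    have := Complex.norm_le_of_forall_mem_frontier_norm_le hUb hdiff hfr hzU
    rw [hgn, Real.exp_neg, ← div_eq_mul_inv, div_le_iff₀ (Real.exp_pos _)] at this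
    exact this
  -- let ε → 0
  have hlim : Tendsto (fun ε : ℝ => M * Real.exp (ε * (z * Complex.log z).re)) (𝓝[>] 0)
      (𝓝 (M * Real.exp (0 * (z * Complex.log z).re))) := by
    apply Tendsto.mono_left _ nhdsWithin_le_nhds
    apply Continuous.tendsto
    fun_prop
  have h := ge_of_tendsto hlim (b := ‖f z‖) (by
    filter_upwards [self_mem_nhdsWithin] with ε hε using key ε hε)
  simpa using h

lemma S_bound {N : ℝ} (hN : 2 ≤ N) {z : ℂ} (hz : z ∈ S) :
    N * z.re - N * Real.exp (N^2) ≤ ‖z‖ := by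
  have hre : z.re ≤ ‖z‖ := Complex.re_le_norm z
  by_cases h1 : ‖z‖ ≤ Real.exp (N^2)
  · have : N * z.re ≤ N * Real.exp (N^2) :=
      mul_le_mul_of_nonneg_left (hre.trans h1) (by linarith)
    linarith [norm_nonneg z]
  push Not at h1
  have hpos : 0 < ‖z‖ := lt_trans (Real.exp_pos _) h1
  have h4 : Real.exp 4 < ‖z‖ := by
    refine lt_of_le_of_lt ?_ h1
    apply Real.exp_le_exp.2
    nlinarith
  have h5 : z.re * √(Real.log ‖z‖) ≤ ‖z‖ := by
    by_contra h
    push Not at h
    exact hz ⟨h4, h⟩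
  have h6 : N ≤ √(Real.log ‖z‖) := by
    apply Real.le_sqrt_of_sq_le
    rw [Real.le_log_iff_exp_le hpos]
    exact h1.le
  have h7 : N * z.re ≤ ‖z‖ := by
    by_cases hr : z.re ≤ 0
    · have : N * z.re ≤ 0 := mul_nonpos_of_nonneg_of_nonpos (by linarith) hr
      linarith
    · push Not at hr
      have := mul_le_mul_of_nonneg_left h6 hr.le
      linarith
  have : 0 ≤ N * Real.exp (N^2) := by positivity
  linarith

noncomputable def k (z : ℂ) : ℝ := Real.exp (‖z‖ * (√(Real.log (1 + ‖z‖)) / 2))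

lemma k_pos (z : ℂ) : 0 < k z := Real.exp_pos _

lemma k_cont : Continuous k := by
  unfold k
  apply Real.continuous_exp.comp
  apply continuous_norm.mul
  apply Continuous.div_const
  apply Real.continuous_sqrt.comp
  apply Continuous.log (by fun_prop)
  intro z
  positivity

lemma k_weight (A : ℝ) :
    Asymptotics.IsLittleO (Filter.cocompact ℂ) (fun z : ℂ => Real.exp (A * ‖z‖ ^ (1:ℝ))) k := by
  unfold k
  rw [Real.isLittleO_exp_comp_exp_comp]
  have t0 : Tendsto (fun r : ℝ => √(Real.log (1 + r)) / 2 - A) atTop atTop := by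
    apply tendsto_atTop_add_const_right
    apply Tendsto.atTop_div_const (by norm_num)
    apply Real.tendsto_sqrt_atTop.comp
    apply Real.tendsto_log_atTop.comp
    exact tendsto_atTop_add_const_left _ _ tendsto_id
  have t1 : Tendsto (fun r : ℝ => r * (√(Real.log (1 + r)) / 2 - A)) atTop atTop :=
    tendsto_id.atTop_mul_atTop₀ t0
  have t2 := t1.comp (tendsto_norm_cocompact_atTop (E := ℂ))
  refine t2.congr ?_
  intro z
  simp only [Function.comp, Real.rpow_one]
  ring

lemma k'_lower {k' : ℂ → ℝ} (hc : Continuous k') (hp : ∀ z, 0 < k' z)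
    (hw : ∀ A : ℝ, 0 < A →
      Asymptotics.IsLittleO (Filter.cocompact ℂ) (fun z : ℂ => Real.exp (A * ‖z‖ ^ (1:ℝ))) k') :
    ∃ c : ℝ, 0 < c ∧ ∀ z, c * Real.exp ‖z‖ ≤ k' z := by
  have h1 := hw 1 one_pos
  rw [Asymptotics.isLittleO_iff] at h1
  have h2 := h1 one_pos
  rw [Filter.eventually_iff, Filter.mem_cocompact] at h2
  obtain ⟨t, ht, ht2⟩ := h2
  have hcont : ContinuousOn (fun z : ℂ => Real.exp ‖z‖ / k' z) t := by
    apply Continuous.continuousOn
    exact Continuous.div (by fun_prop) hc (fun z => (hp z).ne')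
  obtain ⟨C1, hC1⟩ := ht.exists_bound_of_continuousOn hcont
  refine ⟨1 / max C1 1, by positivity, ?_⟩
  intro z
  have hm : 0 < max C1 1 := lt_max_of_lt_right one_pos
  rw [div_mul_eq_mul_div, one_mul, div_le_iff₀ hm]
  by_cases hz : z ∈ t
  · have := hC1 z hz
    rw [Real.norm_of_nonneg (div_nonneg (Real.exp_pos _).le (hp z).le), div_le_iff₀ (hp z)] at this
    calc Real.exp ‖z‖ ≤ C1 * k' z := this
      _ ≤ max C1 1 * k' z := mul_le_mul_of_nonneg_right (le_max_left _ _) (hp z).le
      _ = k' z * max C1 1 := mul_comm _ _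
  · have := ht2 hz
    simp only [one_mul, Real.rpow_one, Set.mem_ofPred_eq] at this
    rw [Real.norm_of_nonneg (Real.exp_pos _).le, Real.norm_of_nonneg (hp z).le] at this
    calc Real.exp ‖z‖ ≤ k' z := this
      _ = k' z * 1 := (mul_one _).symm
      _ ≤ k' z * max C1 1 := mul_le_mul_of_nonneg_left (le_max_right _ _) (hp z).le

theorem main :
    ¬ (∀ ρ : ℝ, 0 < ρ → ∀ S : Set ℂ,
      (∀ f : ℂ → ℂ, Differentiable ℂ f →
        (∃ A B : ℝ, 0 < A ∧ 0 < B ∧ ∀ z : ℂ, ‖f z‖ ≤ B * Real.exp (A * ‖z‖ ^ ρ)) →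
        (Bornology.IsBounded (f '' S) ↔ Bornology.IsBounded (Set.range f))) →
      ∀ k : ℂ → ℝ, Continuous k → (∀ z : ℂ, 0 < k z) →
        (∀ A : ℝ, 0 < A →
          Asymptotics.IsLittleO (Filter.cocompact ℂ) (fun z : ℂ => Real.exp (A * ‖z‖ ^ ρ)) k) →
        ∃ k' : ℂ → ℝ, Continuous k' ∧ (∀ z : ℂ, 0 < k' z) ∧
          (∀ A : ℝ, 0 < A →
            Asymptotics.IsLittleO (Filter.cocompact ℂ) (fun z : ℂ => Real.exp (A * ‖z‖ ^ ρ)) k') ∧
          ∃ C : ℝ, 0 < C ∧
            ∀ f : ℂ → ℂ, Differentiable ℂ f →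
              (∃ A B : ℝ, 0 < A ∧ 0 < B ∧ ∀ z : ℂ, ‖f z‖ ≤ B * Real.exp (A * ‖z‖ ^ ρ)) →
              (∀ z ∈ S, ‖f z‖ ≤ k' z) → ∀ z : ℂ, ‖f z‖ ≤ C * k z) := by
  intro H
  obtain ⟨k', hc, hp, hw, C, hC, hf⟩ := H 1 one_pos S (by
    intro f hf ⟨A, B, hA, hB, hAB⟩
    constructor
    · intro hb
      obtain ⟨M, hM⟩ := hb.exists_norm_le
      have hM' : ∀ z ∈ S, ‖f z‖ ≤ max M 1 := fun z hz =>
        (hM (f z) (mem_image_of_mem f hz)).trans (le_max_left _ _)
      have := bdd_of_bdd hf hA hB (by simpa using hAB)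
        (M := max M 1) (lt_max_of_lt_right one_pos) hM'
      rw [isBounded_iff_forall_norm_le]
      refine ⟨max M 1, ?_⟩
      rintro _ ⟨z, rfl⟩
      exact this z
    · intro hb
      exact hb.subset (image_subset_range f S)) k k_cont k_pos (fun A _ => k_weight A)
  obtain ⟨c, hc0, hck⟩ := k'_lower hc hp hw
  -- choose N
  obtain ⟨n, hn⟩ := exists_nat_gt (max (C / c) 5)
  set N : ℝ := (n : ℝ) with hN
  have hN5 : (5:ℝ) ≤ N := (le_max_right _ _).trans hn.le
  have hNC : C / c < N := lt_of_le_of_lt (le_max_left _ _) hn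
  set x : ℝ := N * Real.exp (N^2) with hx
  have hx0 : 0 < x := by positivity
  set F : ℂ → ℂ := fun z => (c : ℂ) * Complex.exp ((N : ℂ) * z - (x : ℂ)) with hF
  have hFn : ∀ z, ‖F z‖ = c * Real.exp (N * z.re - x) := by
    intro z
    rw [hF]
    simp only [norm_mul, Complex.norm_exp, Complex.sub_re, Complex.re_ofReal_mul, Complex.ofReal_re]
    rw [Complex.norm_of_nonneg hc0.le]
  have hb := hf F (by rw [hF]; fun_prop) ⟨N, c, by linarith, hc0, by
    intro z
    rw [hFn, Real.rpow_one]
    apply mul_le_mul_of_nonneg_left _ hc0.le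
    apply Real.exp_le_exp.2
    have := mul_le_mul_of_nonneg_left (Complex.re_le_norm z) (by linarith : 0 ≤ N)
    linarith⟩ (by
    intro z hz
    rw [hFn]
    refine le_trans ?_ (hck z)
    apply mul_le_mul_of_nonneg_left _ hc0.le
    apply Real.exp_le_exp.2
    exact S_bound (by linarith) hz) (x : ℂ)
  rw [hFn, Complex.ofReal_re] at hb
  unfold k at hb
  have hnx : ‖(x:ℂ)‖ = x := Complex.norm_of_nonneg hx0.le
  rw [hnx] at hb
  have hlog : Real.log (1 + x) ≤ (2 * (N - 2))^2 := by
    have h1 : 1 + x ≤ Real.exp (N + N^2) := by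
      rw [Real.exp_add]
      have a1 : 1 ≤ Real.exp (N^2) := Real.one_le_exp (by positivity)
      have a2 : N + 1 ≤ Real.exp N := Real.add_one_le_exp N
      calc 1 + x ≤ Real.exp (N^2) + N * Real.exp (N^2) := by linarith
        _ = (N + 1) * Real.exp (N^2) := by ring
        _ ≤ Real.exp N * Real.exp (N^2) := mul_le_mul_of_nonneg_right a2 (Real.exp_pos _).le
    have h2 : Real.log (1 + x) ≤ N + N^2 := by
      rw [Real.log_le_iff_le_exp (by linarith)]
      exact h1
    nlinarith
  have hsq : √(Real.log (1 + x)) / 2 ≤ N - 2 := by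
    have : √(Real.log (1 + x)) ≤ 2 * (N - 2) := by
      apply Real.sqrt_le_iff.2
      exact ⟨by linarith, hlog⟩
    linarith
  have h1 : c * Real.exp ((N - 1) * x) ≤ C * Real.exp ((N - 2) * x) := by
    calc c * Real.exp ((N - 1) * x) = c * Real.exp (N * x - x) := by ring_nf
      _ ≤ C * Real.exp (x * (√(Real.log (1 + x)) / 2)) := hb
      _ ≤ C * Real.exp ((N - 2) * x) := by
        apply mul_le_mul_of_nonneg_left _ hC.le
        apply Real.exp_le_exp.2
        have := mul_le_mul_of_nonneg_left hsq hx0.le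
        linarith
  have h2 : Real.exp ((N - 1) * x) = Real.exp x * Real.exp ((N - 2) * x) := by
    rw [← Real.exp_add]; ring_nf
  rw [h2] at h1
  have h3 : c * Real.exp x ≤ C := by
    have h4 : (c * Real.exp x) * Real.exp ((N - 2) * x) ≤ C * Real.exp ((N - 2) * x) := by
      linarith [h1]
    exact le_of_mul_le_mul_right h4 (Real.exp_pos _)
  have h5 : N ≤ Real.exp x := by
    have a1 : 1 ≤ Real.exp (N^2) := Real.one_le_exp (by positivity)
    have a2 : N ≤ x := by
      calc N = N * 1 := (mul_one _).symm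
        _ ≤ x := mul_le_mul_of_nonneg_left a1 (by linarith)
    have := Real.add_one_le_exp x
    linarith
  have h6 : c * N ≤ C := (mul_le_mul_of_nonneg_left h5 hc0.le).trans h3
  rw [div_lt_iff₀ hc0] at hNC
  linarith

end Pool.Agent.H7Suff
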