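import Mathlib

set_option autoImplicit false

open Finset

namespace Pool.Agent.H7Tens

noncomputable section

/-! ### Codes given by moment conditions -/

/-- vanishing moments -/
def Mom (s : ℕ) {a : ℕ} (x : Fin a → ℂ) : Prop :=
  ∀ p : Polynomial ℂ, p.natDegree < s → ∑ i, x i * p.eval ((i : ℕ) : ℂ) = 0

lemma Mom.weight {s a : ℕ} {x : Fin a → ℂ} (hx : Mom s x) {i0 : Fin a} (h0 : x i0 ≠ 0) :
    s + 1 ≤ (univ.filter (fun i => x i ≠ 0)).card := by
  classical
  by_contra hlt
  push Not at hlt
  set T := univ.filter (fun i => x i ≠ 0) with hT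
  have hi0 : i0 ∈ T := by rw [hT]; simp [h0]
  have hcard : 1 ≤ T.card := Finset.card_pos.2 ⟨i0, hi0⟩
  set p : Polynomial ℂ := ∏ i ∈ T.erase i0, (Polynomial.X - Polynomial.C (((i : Fin a) : ℕ) : ℂ))
    with hp
  have hdeg : p.natDegree = T.card - 1 := by
    rw [hp, Polynomial.natDegree_prod_of_monic _ _ (fun i _ => Polynomial.monic_X_sub_C _)]
    simp only [Polynomial.natDegree_X_sub_C, Finset.sum_const, smul_eq_mul, mul_one]
    exact Finset.card_erase_of_mem hi0
  have hsum := hx p (by rw [hdeg]; omega)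
  rw [Finset.sum_eq_single i0] at hsum
  · rcases mul_eq_zero.1 hsum with h | h
    · exact h0 h
    · rw [hp, Polynomial.eval_prod, Finset.prod_eq_zero_iff] at h
      obtain ⟨j, hj, hj2⟩ := h
      rw [Polynomial.eval_sub, Polynomial.eval_X, Polynomial.eval_C, sub_eq_zero] at hj2
      have : (i0 : ℕ) = (j : ℕ) := by exact_mod_cast hj2
      exact (Finset.mem_erase.1 hj).1 (Fin.ext this.symm)
  · intro j _ hj
    by_cases hjT : j ∈ T
    · have : p.eval ((j : ℕ) : ℂ) = 0 := by
        rw [hp, Polynomial.eval_prod]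
        apply Finset.prod_eq_zero (Finset.mem_erase.2 ⟨hj, hjT⟩)
        rw [Polynomial.eval_sub, Polynomial.eval_X, Polynomial.eval_C, sub_self]
      rw [this, mul_zero]
    · have : x j = 0 := by
        by_contra hne
        exact hjT (by rw [hT]; simp [hne])
      rw [this, zero_mul]
  · intro h; exact absurd (mem_univ i0) h

lemma Mom.zero (s a : ℕ) : Mom s (0 : Fin a → ℂ) := by
  intro p _; simp

lemma Mom.add {s a : ℕ} {x y : Fin a → ℂ} (hx : Mom s x) (hy : Mom s y) : Mom s (x + y) := by
  intro p hp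
  have h1 := hx p hp
  have h2 := hy p hp
  simp only [Pi.add_apply, add_mul, Finset.sum_add_distrib, h1, h2, add_zero]

lemma Mom.smul {s a : ℕ} {x : Fin a → ℂ} (c : ℂ) (hx : Mom s x) : Mom s (c • x) := by
  intro p hp
  have h1 := hx p hp
  simp only [Pi.smul_apply, smul_eq_mul, mul_assoc, ← Finset.mul_sum, h1, mul_zero]

/-- the diagonal number `d` of a matrix, as a function of the row index -/
def diag {a b : ℕ} (X : Fin a → Fin b → ℂ) (d : ℤ) : Fin a → ℂ :=
  fun i => ∑ j : Fin b, if ((j : ℕ) : ℤ) - ((i : ℕ) : ℤ) = d then X i j else 0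

lemma diag_apply {a b : ℕ} (X : Fin a → Fin b → ℂ) (i : Fin a) (j : Fin b) :
    diag X (((j : ℕ) : ℤ) - ((i : ℕ) : ℤ)) i = X i j := by
  unfold diag
  rw [Finset.sum_eq_single j]
  · rw [if_pos rfl]
  · intro k _ hk
    rw [if_neg]
    intro h
    apply hk
    apply Fin.ext
    omega
  · intro h; exact absurd (mem_univ j) h

/-- all diagonals have vanishing moments -/
def DM (s : ℕ) {a b : ℕ} (X : Fin a → Fin b → ℂ) : Prop := ∀ d, Mom s (diag X d)

lemma DM.zero (s a b : ℕ) : DM s (0 : Fin a → Fin b → ℂ) := by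
  intro d
  have : diag (0 : Fin a → Fin b → ℂ) d = 0 := by
    funext i; simp [diag]
  rw [this]; exact Mom.zero s a

lemma DM.add {s a b : ℕ} {X Y : Fin a → Fin b → ℂ} (hX : DM s X) (hY : DM s Y) :
    DM s (X + Y) := by
  intro d
  have : diag (X + Y) d = diag X d + diag Y d := by
    funext i
    simp only [diag, Pi.add_apply, ← Finset.sum_add_distrib]
    refine Finset.sum_congr rfl (fun j _ => ?_)
    split_ifs <;> simp
  rw [this]; exact (hX d).add (hY d)

lemma DM.smul {s a b : ℕ} {X : Fin a → Fin b → ℂ} (c : ℂ) (hX : DM s X) :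
    DM s (c • X) := by
  intro d
  have : diag (c • X) d = c • diag X d := by
    funext i
    simp only [diag, Pi.smul_apply, Finset.smul_sum]
    refine Finset.sum_congr rfl (fun j _ => ?_)
    split_ifs <;> simp
  rw [this]; exact (hX d).smul c

lemma DM.sum {s a b : ℕ} {ι : Type*} (S : Finset ι) {X : ι → Fin a → Fin b → ℂ}
    (hX : ∀ i ∈ S, DM s (X i)) : DM s (∑ i ∈ S, X i) := by
  classical
  induction S using Finset.induction_on with
  | empty => rw [Finset.sum_empty]; exact DM.zero s a b
  | insert i S hi ih =>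
    rw [Finset.sum_insert hi]
    exact (hX i (mem_insert_self _ _)).add (ih (fun j hj => hX j (mem_insert_of_mem hj)))

/-- the basic matrices -/
def Wm (a b s u v : ℕ) : Fin a → Fin b → ℂ := fun i j =>
  if u ≤ (i : ℕ) ∧ v ≤ (j : ℕ) ∧ (i : ℕ) - u = (j : ℕ) - v then
    (-1) ^ (s - ((i : ℕ) - u)) * (s.choose ((i : ℕ) - u) : ℂ) else 0

lemma diag_Wm {a b s u v : ℕ} (hv : v + s < b) (d : ℤ) :
    diag (Wm a b s u v) d = if d = (v : ℤ) - u then
      (fun i : Fin a => if u ≤ (i : ℕ) then
        (-1) ^ (s - ((i : ℕ) - u)) * (s.choose ((i : ℕ) - u) : ℂ) else 0) else 0 := by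
  funext i
  unfold diag Wm
  by_cases hd : d = (v : ℤ) - u
  · rw [if_pos hd]
    by_cases hui : u ≤ (i : ℕ)
    · rw [if_pos hui]
      by_cases hb : v + ((i : ℕ) - u) < b
      · rw [Finset.sum_eq_single (⟨v + ((i : ℕ) - u), hb⟩ : Fin b)]
        · rw [if_pos (by simp only; omega), if_pos (by simp only; omega)]
        · intro j _ hj
          rw [if_neg]
          intro h
          apply hj
          apply Fin.ext
          simp only
          omega
        · intro h; exact absurd (mem_univ _) h
      · have : s.choose ((i : ℕ) - u) = 0 := Nat.choose_eq_zero_of_lt (by omega)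
        rw [this, Nat.cast_zero, mul_zero]
        apply Finset.sum_eq_zero
        intro j _
        split_ifs with h1 h2
        · rfl
        · rfl
        · rfl
    · rw [if_neg hui]
      apply Finset.sum_eq_zero
      intro j _
      split_ifs with h1 h2
      · exact absurd h2.1 hui
      · rfl
      · rfl
  · rw [if_neg hd]
    simp only [Pi.zero_apply]
    apply Finset.sum_eq_zero
    intro j _
    split_ifs with h1 h2
    · exfalso
      apply hd
      omega
    · rfl
    · rfl

lemma DM_Wm {a b s u v : ℕ} (hu : u + s < a) (hv : v + s < b) : DM s (Wm a b s u v) := by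
  intro d
  rw [diag_Wm hv]
  split_ifs with hd
  swap
  · exact Mom.zero s a
  intro p hp
  have h := congrFun (Polynomial.fwdDiff_iter_eq_zero_of_degree_lt hp) ((u : ℕ) : ℂ)
  rw [fwdDiff_iter_eq_sum_shift] at h
  simp only [Pi.zero_apply] at h
  -- reindex
  have e2 : ∑ i : Fin a, (if u ≤ (i : ℕ) then
        (-1) ^ (s - ((i : ℕ) - u)) * (s.choose ((i : ℕ) - u) : ℂ) else 0) *
        p.eval ((i : ℕ) : ℂ) =
      ∑ m ∈ range a, (if u ≤ m then
        (-1) ^ (s - (m - u)) * (s.choose (m - u) : ℂ) else 0) * p.eval (m : ℂ) := by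
    rw [Finset.sum_range]
  refine Eq.trans (Eq.trans e2 ?_) h
  symm
  apply Finset.sum_bij_ne_zero (fun k _ _ => u + k)
  · intro k hk _
    rw [Finset.mem_range] at *
    omega
  · intro k _ _ k' _ _ hkk
    omega
  · intro m hm hne
    rw [Finset.mem_range] at hm
    by_cases hum : u ≤ m
    · refine ⟨m - u, ?_, ?_, by omega⟩
      · rw [Finset.mem_range]
        by_contra hge
        push Not at hge
        apply hne
        have : s.choose (m - u) = 0 := Nat.choose_eq_zero_of_lt (by omega)
        rw [this]; simp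
      · intro h0
        apply hne
        rw [if_pos hum, ← h0]
        have : ((u : ℕ) : ℂ) + (m - u) • (1 : ℂ) = (m : ℂ) := by
          rw [nsmul_eq_mul, mul_one, Nat.cast_sub hum]; ring
        rw [this, zsmul_eq_mul]
        push_cast
        ring
    · exact absurd (by rw [if_neg hum, zero_mul]) hne
  · intro k hk _
    rw [if_pos (by omega)]
    have h1 : u + k - u = k := by omega
    rw [h1, zsmul_eq_mul, nsmul_eq_mul, mul_one]
    push_cast
    ring

/-- the basic matrices are linearly independent -/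
lemma Wm_indep {a b s : ℕ} (c : ℕ → ℕ → ℂ)
    (h : ∀ (i : Fin a) (j : Fin b), ∑ u ∈ range (a - s), ∑ v ∈ range (b - s),
      c u v * Wm a b s u v i j = 0) :
    ∀ u, u < a - s → ∀ v, v < b - s → c u v = 0 := by
  intro u
  induction u using Nat.strong_induction_on with
  | _ u ih =>
    intro hu v hv
    have h1 := h ⟨u, by omega⟩ ⟨v, by omega⟩
    rw [Finset.sum_eq_single u] at h1
    · rw [Finset.sum_eq_single v] at h1
      · unfold Wm at h1
        rw [if_pos (by simp)] at h1
        simp only [tsub_self, tsub_zero, Nat.choose_zero_right, Nat.cast_one, mul_one] at h1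
        rcases mul_eq_zero.1 h1 with h2 | h2
        · exact h2
        · exact absurd h2 (pow_ne_zero _ (by norm_num))
      · intro v' hv' hne
        unfold Wm
        rw [if_neg, mul_zero]
        rintro ⟨_, h3, h4⟩
        simp only at h3 h4
        omega
      · intro hmem; exact absurd (mem_range.2 hv) hmem
    · intro u' hu' hne
      rw [mem_range] at hu'
      apply Finset.sum_eq_zero
      intro v' hv'
      rw [mem_range] at hv'
      by_cases hlt : u' < u
      · rw [ih u' hlt hu' v' hv', zero_mul]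
      · unfold Wm
        rw [if_neg, mul_zero]
        rintro ⟨h2, _, _⟩
        simp only at h2
        omega
    · intro hmem; exact absurd (mem_range.2 hu) hmem

/-! ### The rank bound for the tensor product -/

abbrev L2 (a b : ℕ) := Lex (Fin a × Fin b)

lemma tensor_rank {a1 b1 a2 b2 s1 s2 : ℕ}
    (S : Matrix (Fin a1 × Fin a2) (Fin b1 × Fin b2) ℂ) (hne : S ≠ 0)
    (h1 : ∀ i2 j2, DM s1 (fun i1 j1 => S (i1, i2) (j1, j2)))
    (h2 : ∀ i1 j1, DM s2 (fun i2 j2 => S (i1, i2) (j1, j2))) :
    (s1 + 1) * (s2 + 1) ≤ S.rank := by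
  classical
  -- the lex-minimal bidiagonal
  let key : (Fin a1 × Fin a2) × (Fin b1 × Fin b2) → ℤ ×ₗ ℤ := fun x =>
    toLex (((x.2.1 : ℕ) : ℤ) - ((x.1.1 : ℕ) : ℤ), ((x.2.2 : ℕ) : ℤ) - ((x.1.2 : ℕ) : ℤ))
  let supp : Finset ((Fin a1 × Fin a2) × (Fin b1 × Fin b2)) :=
    univ.filter (fun x => S x.1 x.2 ≠ 0)
  have hsupp : supp.Nonempty := by
    by_contra hemp
    rw [Finset.not_nonempty_iff_eq_empty] at hemp
    apply hne
    ext i j
    by_contra hij
    have : (i, j) ∈ supp := by simp [supp]; exact hij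
    rw [hemp] at this
    simp at this
  obtain ⟨x0, hx0, hmin⟩ := Finset.exists_min_image supp key hsupp
  have hS0 : S x0.1 x0.2 ≠ 0 := by simpa [supp] using hx0
  set d : ℤ := ((x0.2.1 : ℕ) : ℤ) - ((x0.1.1 : ℕ) : ℤ) with hd
  set e : ℤ := ((x0.2.2 : ℕ) : ℤ) - ((x0.1.2 : ℕ) : ℤ) with he
  have hmin' : ∀ i j, S i j ≠ 0 → toLex (d, e) ≤ key (i, j) := by
    intro i j hij
    exact hmin (i, j) (by simp [supp, hij])
  -- bidiagonal
  let y : Fin a1 → Fin a2 → ℂ := fun i1 i2 =>
    ∑ j2 : Fin b2, if ((j2 : ℕ) : ℤ) - ((i2 : ℕ) : ℤ) = e then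
      diag (fun i1 j1 => S (i1, i2) (j1, j2)) d i1 else 0
  have hy0 : y x0.1.1 x0.1.2 ≠ 0 := by
    have : y x0.1.1 x0.1.2 = S x0.1 x0.2 := by
      simp only [y]
      rw [Finset.sum_eq_single x0.2.2]
      · rw [if_pos he.symm, hd]
        exact diag_apply (fun i1 j1 => S (i1, x0.1.2) (j1, x0.2.2)) x0.1.1 x0.2.1
      · intro j _ hj
        rw [if_neg]
        intro h
        apply hj
        apply Fin.ext
        omega
      · intro h; exact absurd (mem_univ _) h
    rw [this]; exact hS0
  -- nonzero values of y come from entries of S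
  have hyS : ∀ i1 i2, y i1 i2 ≠ 0 → ∃ j1 : Fin b1, ∃ j2 : Fin b2,
      ((j1 : ℕ) : ℤ) - ((i1 : ℕ) : ℤ) = d ∧ ((j2 : ℕ) : ℤ) - ((i2 : ℕ) : ℤ) = e ∧
      S (i1, i2) (j1, j2) ≠ 0 := by
    intro i1 i2 hy
    obtain ⟨j2, _, hj2⟩ := Finset.exists_ne_zero_of_sum_ne_zero hy
    by_cases hc : ((j2 : ℕ) : ℤ) - ((i2 : ℕ) : ℤ) = e
    · rw [if_pos hc] at hj2
      obtain ⟨j1, _, hj1⟩ := Finset.exists_ne_zero_of_sum_ne_zero hj2
      by_cases hc1 : ((j1 : ℕ) : ℤ) - ((i1 : ℕ) : ℤ) = d
      · rw [if_pos hc1] at hj1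
        exact ⟨j1, j2, hc1, hc, hj1⟩
      · rw [if_neg hc1] at hj1; exact absurd rfl hj1
    · rw [if_neg hc] at hj2; exact absurd rfl hj2
  -- columns of y are codewords
  have hcol : ∀ i2, Mom s1 (fun i1 => y i1 i2) := by
    intro i2
    by_cases hj : ∃ j2 : Fin b2, ((j2 : ℕ) : ℤ) - ((i2 : ℕ) : ℤ) = e
    · obtain ⟨j2, hj2⟩ := hj
      have : (fun i1 => y i1 i2) = diag (fun i1 j1 => S (i1, i2) (j1, j2)) d := by
        funext i1
        simp only [y]
        rw [Finset.sum_eq_single j2]
        · rw [if_pos hj2]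
        · intro j _ hj
          rw [if_neg]
          intro h
          apply hj
          apply Fin.ext
          omega
        · intro h; exact absurd (mem_univ _) h
      rw [this]
      exact h1 i2 j2 d
    · push Not at hj
      have : (fun i1 => y i1 i2) = 0 := by
        funext i1
        simp only [y, Pi.zero_apply]
        apply Finset.sum_eq_zero
        intro j _
        rw [if_neg (hj j)]
      rw [this]; exact Mom.zero _ _
  -- rows of y are codewords
  have hrow : ∀ i1, Mom s2 (fun i2 => y i1 i2) := by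
    intro i1
    by_cases hj : ∃ j1 : Fin b1, ((j1 : ℕ) : ℤ) - ((i1 : ℕ) : ℤ) = d
    · obtain ⟨j1, hj1⟩ := hj
      have : (fun i2 => y i1 i2) = diag (fun i2 j2 => S (i1, i2) (j1, j2)) e := by
        funext i2
        simp only [y, diag]
        refine Finset.sum_congr rfl (fun j2 _ => ?_)
        by_cases hc : ((j2 : ℕ) : ℤ) - ((i2 : ℕ) : ℤ) = e
        · rw [if_pos hc, if_pos hc, Finset.sum_eq_single j1]
          · rw [if_pos hj1]
          · intro j _ hj
            rw [if_neg]
            intro h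
            apply hj
            apply Fin.ext
            omega
          · intro h; exact absurd (mem_univ _) h
        · rw [if_neg hc, if_neg hc]
      rw [this]
      exact h2 i1 j1 e
    · push Not at hj
      have : (fun i2 => y i1 i2) = 0 := by
        funext i2
        simp only [y, diag, Pi.zero_apply]
        apply Finset.sum_eq_zero
        intro j _
        split_ifs
        · apply Finset.sum_eq_zero
          intro j' _
          rw [if_neg (hj j')]
        · rfl
      rw [this]; exact Mom.zero _ _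
  -- the support of y
  let T : Finset (Fin a1 × Fin a2) := univ.filter (fun x => y x.1 x.2 ≠ 0)
  have hT : (s1 + 1) * (s2 + 1) ≤ T.card := by
    have hA := (hcol x0.1.2).weight (i0 := x0.1.1) hy0
    set A := univ.filter (fun i1 => y i1 x0.1.2 ≠ 0) with hAdef
    have hfib : ∀ i1 ∈ A, s2 + 1 ≤ (univ.filter (fun i2 => y i1 i2 ≠ 0)).card := by
      intro i1 hi1
      rw [hAdef, mem_filter] at hi1
      exact (hrow i1).weight (i0 := x0.1.2) hi1.2
    have hsub : (A.sigma (fun i1 => univ.filter (fun i2 => y i1 i2 ≠ 0))).card ≤ T.card := by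
      apply Finset.card_le_card_of_injOn (fun x => (x.1, x.2))
      · intro x hx
        rw [Finset.mem_coe, Finset.mem_sigma] at hx
        simp only [T, Finset.coe_filter, mem_univ, true_and, Set.mem_ofPred_eq]
        exact (mem_filter.1 hx.2).2
      · rintro ⟨x1, x2⟩ _ ⟨y1, y2⟩ _ hxy
        simp only [Prod.mk.injEq] at hxy
        obtain ⟨h, h'⟩ := hxy
        subst h; subst h'; rfl
    rw [Finset.card_sigma] at hsub
    calc (s1 + 1) * (s2 + 1) ≤ A.card * (s2 + 1) := Nat.mul_le_mul_right _ hA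
      _ = ∑ _i ∈ A, (s2 + 1) := by rw [Finset.sum_const, smul_eq_mul]
      _ ≤ ∑ i ∈ A, (univ.filter (fun i2 => y i i2 ≠ 0)).card := Finset.sum_le_sum hfib
      _ ≤ T.card := hsub
  -- columns
  have hex : ∀ x : T, ∃ j : Fin b1 × Fin b2, ((j.1 : ℕ) : ℤ) - ((x.1.1 : ℕ) : ℤ) = d ∧
      ((j.2 : ℕ) : ℤ) - ((x.1.2 : ℕ) : ℤ) = e ∧ S x.1 j ≠ 0 := by
    intro x
    obtain ⟨j1, j2, h3, h4, h5⟩ := hyS x.1.1 x.1.2 (mem_filter.1 x.2).2
    exact ⟨(j1, j2), h3, h4, h5⟩
  choose col hc1 hc2 hc3 using hex
  let N : Matrix T T ℂ := S.submatrix (fun x => x.1) col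
  -- triangularity
  have htri : ∀ x x' : T, toLex x'.1 < toLex x.1 → N x x' = 0 := by
    intro x x' hlt
    by_contra hne
    have h3 := hmin' x.1 (col x') hne
    have h4 : key (x.1, col x') < toLex (d, e) := by
      simp only [key]
      rw [Prod.Lex.toLex_lt_toLex]
      rw [Prod.Lex.toLex_lt_toLex] at hlt
      have e1 := hc1 x'
      have e2 := hc2 x'
      rcases hlt with h | ⟨h, h'⟩
      · left
        have : ((x'.1.1 : ℕ)) < (x.1.1 : ℕ) := h
        omega
      · right
        have e3 : ((x'.1.1 : ℕ)) = (x.1.1 : ℕ) := by rw [h]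
        have e4 : ((x'.1.2 : ℕ)) < (x.1.2 : ℕ) := h'
        constructor
        · omega
        · omega
    exact absurd h3 (not_le.2 h4)
  have hdet : IsUnit N := by
    rw [← Matrix.mulVec_injective_iff_isUnit, ← Matrix.coe_mulVecLin, ← LinearMap.ker_eq_bot,
      LinearMap.ker_eq_bot']
    intro c hc
    by_contra hne
    have hnonempty : (univ.filter (fun x : T => c x ≠ 0)).Nonempty := by
      by_contra hemp
      rw [Finset.not_nonempty_iff_eq_empty] at hemp
      apply hne
      funext x
      by_contra hx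
      have : x ∈ univ.filter (fun x : T => c x ≠ 0) := by simp; exact hx
      rw [hemp] at this
      simp at this
    obtain ⟨m, hm, hmax⟩ := Finset.exists_max_image _ (fun x : T => toLex x.1) hnonempty
    have h3 := congrFun hc m
    rw [Matrix.mulVecLin_apply, Matrix.mulVec, dotProduct, Finset.sum_eq_single m] at h3
    · rcases mul_eq_zero.1 h3 with h4 | h4
      · exact hc3 m h4
      · exact (mem_filter.1 hm).2 h4
    · intro x _ hx
      by_cases hcx : c x = 0
      · rw [hcx, mul_zero]
      · have hle := hmax x (by simp [hcx])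
        have hlt : toLex x.1 < toLex m.1 := by
          refine lt_of_le_of_ne hle ?_
          intro h
          apply hx
          apply Subtype.ext
          exact toLex.injective h
        rw [htri m x hlt, zero_mul]
    · intro h; exact absurd (mem_univ m) h
  have hrank : N.rank = T.card := by
    rw [Matrix.rank_of_isUnit N hdet, Fintype.card_coe]
  calc (s1 + 1) * (s2 + 1) ≤ T.card := hT
    _ = N.rank := hrank.symm
    _ ≤ S.rank := Matrix.rank_submatrix_le S _ _

end

end Pool.Agent.H7Tens
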