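import Mathlib

set_option autoImplicit false

open Finset

namespace Pool.Agent.H7Tens

noncomputable section

/-! ### Linear algebra of ranks -/

section LA

variable {α β : Type} [Fintype α] [Fintype β] [DecidableEq α] [DecidableEq β]

lemma exists_UW (X : Matrix α β ℂ) {R : ℕ} (h : R ≤ X.rank) :
    ∃ (U : Matrix (Fin R) α ℂ) (W : Matrix β (Fin R) ℂ), U * X * W = 1 := by
  classical
  have h1 : R ≤ Module.finrank ℂ (LinearMap.range X.mulVecLin) := h
  obtain ⟨v, hv⟩ := exists_linearIndependent_of_le_finrank h1
  have hpre : ∀ i, ∃ w : β → ℂ, X.mulVec w = (v i : α → ℂ) := fun i => by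
    obtain ⟨w, hw⟩ := (v i).2
    exact ⟨w, hw⟩
  choose w hw using hpre
  have hv' : LinearIndependent ℂ (fun i => (v i : α → ℂ)) :=
    hv.map' (Submodule.subtype _) (Submodule.ker_subtype _)
  -- the linear map ℂ^R → ℂ^α
  let F : (Fin R → ℂ) →ₗ[ℂ] (α → ℂ) := Fintype.linearCombination ℂ (fun i => (v i : α → ℂ))
  have hF : LinearMap.ker F = ⊥ := by
    rw [LinearMap.ker_eq_bot']
    intro c hc
    rw [Fintype.linearCombination_apply] at hc
    funext i
    exact (Fintype.linearIndependent_iff.1 hv') c hc i
  obtain ⟨g, hg⟩ := F.exists_leftInverse_of_injective hF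
  refine ⟨LinearMap.toMatrix' g, Matrix.of (fun b i => w i b), ?_⟩
  ext i j
  have h2 : (LinearMap.toMatrix' g * X * Matrix.of (fun b i => w i b)) i j =
      (g (X.mulVec (w j))) i := by
    rw [Matrix.mul_assoc]
    have h3 : ∀ y : α → ℂ, g y = (LinearMap.toMatrix' g).mulVec y := by
      intro y
      rw [← LinearMap.toMatrix'_mulVec]
    rw [h3]
    simp [Matrix.mul_apply, Matrix.mulVec, dotProduct]
  rw [h2, hw]
  have h4 : (v j : α → ℂ) = F (Pi.single j 1) := by
    rw [Fintype.linearCombination_apply_single, one_smul]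
  rw [h4]
  have h5 := LinearMap.congr_fun hg (Pi.single j 1)
  rw [LinearMap.comp_apply, LinearMap.id_apply] at h5
  rw [h5, Matrix.one_apply, Pi.single_apply]

lemma rank_of_det (X : Matrix α β ℂ) {R : ℕ} (U : Matrix (Fin R) α ℂ) (W : Matrix β (Fin R) ℂ)
    (h : (U * X * W).det ≠ 0) : R ≤ X.rank := by
  have h1 : (U * X * W).rank = R := by
    rw [Matrix.rank_of_det_ne_zero h, Fintype.card_fin]
  calc R = (U * X * W).rank := h1.symm
    _ ≤ (U * X).rank := Matrix.rank_mul_le_left _ _
    _ ≤ X.rank := Matrix.rank_mul_le_right _ _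

/-- rank factorization -/
lemma exists_factor (X : Matrix α β ℂ) :
    ∃ (U : Matrix α (Fin X.rank) ℂ) (V : Matrix (Fin X.rank) β ℂ), X = U * V := by
  classical
  let b := Module.finBasis ℂ (LinearMap.range X.mulVecLin)
  have hr : Module.finrank ℂ (LinearMap.range X.mulVecLin) = X.rank := rfl
  refine ⟨Matrix.of (fun a i => ((b i : LinearMap.range X.mulVecLin) : α → ℂ) a),
    Matrix.of (fun i j => b.repr ⟨X.mulVec (Pi.single j 1), ⟨Pi.single j 1, rfl⟩⟩ i), ?_⟩
  ext a j
  rw [Matrix.mul_apply]
  have h1 := b.sum_repr ⟨X.mulVec (Pi.single j 1), ⟨Pi.single j 1, rfl⟩⟩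
  have h2 := congrArg (fun z : LinearMap.range X.mulVecLin => (z : α → ℂ) a) h1
  simp only [Submodule.coe_sum, Submodule.coe_smul, Finset.sum_apply, Pi.smul_apply,
    smul_eq_mul] at h2
  have h3 : X.mulVec (Pi.single j 1) a = X a j := by
    rw [Matrix.mulVec_single_one]
    rfl
  simp only [Matrix.of_apply]
  refine (h3.symm.trans h2.symm).trans ?_
  refine Finset.sum_congr rfl (fun i _ => ?_)
  rw [mul_comm]

end LA

lemma rank_kron {a1 b1 a2 b2 : ℕ} (A : Matrix (Fin a1) (Fin b1) ℂ)
    (B : Matrix (Fin a2) (Fin b2) ℂ) :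
    (Matrix.kroneckerMap (fun u v : ℂ => u * v) A B).rank ≤ A.rank * B.rank := by
  obtain ⟨U, V, hA⟩ := exists_factor A
  obtain ⟨U', V', hB⟩ := exists_factor B
  have h : Matrix.kroneckerMap (fun u v : ℂ => u * v) A B =
      Matrix.kroneckerMap (fun u v : ℂ => u * v) U U' *
        Matrix.kroneckerMap (fun u v : ℂ => u * v) V V' := by
    conv_lhs => rw [hA, hB]
    exact Matrix.mul_kronecker_mul _ _ _ _
  rw [h]
  refine (Matrix.rank_mul_le_left _ _).trans ?_
  refine (Matrix.rank_le_card_width _).trans ?_
  rw [Fintype.card_prod, Fintype.card_fin, Fintype.card_fin]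

/-! ### Elimination -/

/-- Let `f i` be forms of degree `R` in the variables `κ` whose coefficients are polynomials in
the variables `σ`. If at the parameter `m0` they have no common zero except `0`, then there is a
polynomial `P` in the parameters with `P(m0) ≠ 0` such that the same holds whenever
`P(m) ≠ 0`. -/
lemma elimination {σ κ ι : Type} [Fintype κ] [DecidableEq κ]
    (R : ℕ) (f : ι → MvPolynomial κ (MvPolynomial σ ℂ)) (hf : ∀ i, (f i).IsHomogeneous R)
    (m0 : σ → ℂ)
    (h0 : ∀ c : κ → ℂ, (∀ i, MvPolynomial.eval c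
      (MvPolynomial.map (MvPolynomial.eval m0) (f i)) = 0) → c = 0) :
    ∃ P : MvPolynomial σ ℂ, MvPolynomial.eval m0 P ≠ 0 ∧ ∀ m : σ → ℂ, MvPolynomial.eval m P ≠ 0 →
      ∀ c : κ → ℂ, (∀ i, MvPolynomial.eval c
        (MvPolynomial.map (MvPolynomial.eval m) (f i)) = 0) → c = 0 := by
  classical
  set f0 : ι → MvPolynomial κ ℂ := fun i => MvPolynomial.map (MvPolynomial.eval m0) (f i) with hf0
  have hf0h : ∀ i, (f0 i).IsHomogeneous R := fun i => (hf i).map _
  set I : Ideal (MvPolynomial κ ℂ) := Ideal.span (Set.range f0) with hI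
  -- each variable is in the radical
  have hrad : ∀ j : κ, (MvPolynomial.X j : MvPolynomial κ ℂ) ∈ I.radical := by
    intro j
    rw [← MvPolynomial.vanishingIdeal_zeroLocus_eq_radical (K := ℂ)]
    rw [MvPolynomial.mem_vanishingIdeal_iff]
    intro c hc
    have hc0 : c = 0 := by
      apply h0
      intro i
      have := hc (f0 i) (Ideal.subset_span ⟨i, rfl⟩)
      rw [MvPolynomial.aeval_eq_eval] at this
      exact this
    rw [hc0]
    simp
  have hpow : ∀ j : κ, ∃ D : ℕ, (MvPolynomial.X j : MvPolynomial κ ℂ) ^ D ∈ I := fun j => hrad j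
  choose D hD using hpow
  -- a degree in which all monomials are in I
  set E : ℕ := ∑ j, D j with hE
  set N : ℕ := E + 1 with hN
  have hmon : ∀ a : κ →₀ ℕ, a.degree = N → MvPolynomial.monomial a (1 : ℂ) ∈ I := by
    intro a ha
    have hex : ∃ j, D j ≤ a j := by
      by_contra hcon
      push Not at hcon
      have : a.degree ≤ E := by
        rw [Finsupp.degree_eq_sum, hE]
        exact Finset.sum_le_sum (fun j _ => (hcon j).le)
      omega
    obtain ⟨j, hj⟩ := hex
    have e1 : a = Finsupp.single j (D j) + (a - Finsupp.single j (D j)) := by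
      rw [add_tsub_cancel_of_le]
      rw [Finsupp.single_le_iff]
      exact hj
    have e2 : MvPolynomial.monomial a (1 : ℂ) =
        MvPolynomial.X j ^ (D j) * MvPolynomial.monomial (a - Finsupp.single j (D j)) 1 := by
      rw [MvPolynomial.X_pow_eq_monomial, MvPolynomial.monomial_mul, one_mul, ← e1]
    rw [e2]
    exact I.mul_mem_right _ (hD j)
  -- the finite set of exponents
  have hfin : Set.Finite {a : κ →₀ ℕ | a.degree = N} := by
    apply Set.Finite.subset (Set.finite_Iic (Finsupp.equivFunOnFinite.symm (fun _ : κ => N)))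
    intro a ha
    rw [Set.mem_Iic]
    intro j
    change a j ≤ N
    have ha' : a.degree = N := ha
    rw [Finsupp.degree_eq_sum] at ha'
    rw [← ha']
    exact Finset.single_le_sum (f := fun j => a j) (fun _ _ => Nat.zero_le _) (mem_univ j)
  let A : Type := {a : κ →₀ ℕ // a.degree = N}
  haveI : Fintype A := hfin.fintype
  -- representations
  have hrep : ∀ a : A, ∃ (s : Finset ι) (g : ι → MvPolynomial κ ℂ),
      MvPolynomial.monomial a.1 (1 : ℂ) = ∑ i ∈ s, g i * f0 i := by
    intro a
    have := hmon a.1 a.2
    rw [hI, Ideal.span, Finsupp.mem_span_range_iff_exists_finsupp] at this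
    obtain ⟨c, hc⟩ := this
    refine ⟨c.support, fun i => c i, ?_⟩
    rw [← hc]
    rfl
  choose s g hg using hrep
  -- the perturbed forms
  let F : A → MvPolynomial κ (MvPolynomial σ ℂ) := fun a =>
    MvPolynomial.homogeneousComponent N
      (∑ i ∈ s a, MvPolynomial.map MvPolynomial.C (g a i) * f i)
  let T : Matrix A A (MvPolynomial σ ℂ) := fun b a => MvPolynomial.coeff b.1 (F a)
  have hFm : ∀ (m : σ → ℂ) (a : A), MvPolynomial.map (MvPolynomial.eval m) (F a) =
      MvPolynomial.homogeneousComponent N
        (∑ i ∈ s a, g a i * MvPolynomial.map (MvPolynomial.eval m) (f i)) := by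
    intro m a
    ext b
    rw [MvPolynomial.coeff_map, MvPolynomial.coeff_homogeneousComponent,
      MvPolynomial.coeff_homogeneousComponent]
    have e : ∑ i ∈ s a, g a i * MvPolynomial.map (MvPolynomial.eval m) (f i) =
        MvPolynomial.map (MvPolynomial.eval m)
          (∑ i ∈ s a, MvPolynomial.map MvPolynomial.C (g a i) * f i) := by
      rw [map_sum]
      refine Finset.sum_congr rfl (fun i _ => ?_)
      rw [map_mul, MvPolynomial.map_map]
      congr 1
      have : (MvPolynomial.eval m).comp (MvPolynomial.C : ℂ →+* MvPolynomial σ ℂ) =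
          RingHom.id ℂ := by
        ext z; simp
      rw [this, MvPolynomial.map_id]
    rw [e, MvPolynomial.coeff_map]
    split_ifs
    · rfl
    · rw [map_zero]
  refine ⟨T.det, ?_, ?_⟩
  · -- at m0 the matrix is the identity
    have h1 : (MvPolynomial.eval m0) T.det = (T.map (MvPolynomial.eval m0)).det := by
      rw [RingHom.map_det]; rfl
    have h2 : T.map (MvPolynomial.eval m0) = 1 := by
      ext b a
      rw [Matrix.map_apply]
      change MvPolynomial.eval m0 (MvPolynomial.coeff b.1 (F a)) = _
      rw [← MvPolynomial.coeff_map, hFm, ← hg a, MvPolynomial.coeff_homogeneousComponent,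
        if_pos b.2, MvPolynomial.coeff_monomial, Matrix.one_apply]
      by_cases h : b = a
      · rw [if_pos (by rw [h]), if_pos h]
      · rw [if_neg (fun h' => h (Subtype.ext h'.symm)), if_neg h]
    rw [h1, h2, Matrix.det_one]
    exact one_ne_zero
  · intro m hm c hc
    have h1 : (MvPolynomial.eval m) T.det = (T.map (MvPolynomial.eval m)).det := by
      rw [RingHom.map_det]; rfl
    rw [h1] at hm
    -- values of F at c vanish
    have hFc : ∀ a : A, MvPolynomial.eval c (MvPolynomial.map (MvPolynomial.eval m) (F a)) = 0 := by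
      intro a
      rw [hFm]
      -- the homogeneous component is a combination of homogeneous components of g times f
      have hcomp : MvPolynomial.homogeneousComponent N
          (∑ i ∈ s a, g a i * MvPolynomial.map (MvPolynomial.eval m) (f i)) =
          ∑ i ∈ s a, ∑ k ∈ Finset.range ((g a i).totalDegree + 1),
            MvPolynomial.homogeneousComponent N (MvPolynomial.homogeneousComponent k (g a i) *
              MvPolynomial.map (MvPolynomial.eval m) (f i)) := by
        rw [map_sum]
        refine Finset.sum_congr rfl (fun i _ => ?_)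
        conv_lhs => rw [← MvPolynomial.sum_homogeneousComponent (g a i)]
        rw [Finset.sum_mul, map_sum]
      rw [hcomp, map_sum]
      apply Finset.sum_eq_zero
      intro i _
      rw [map_sum]
      apply Finset.sum_eq_zero
      intro k _
      have hh : (MvPolynomial.homogeneousComponent k (g a i) *
          MvPolynomial.map (MvPolynomial.eval m) (f i)).IsHomogeneous (k + R) :=
        (MvPolynomial.homogeneousComponent_isHomogeneous k _).mul ((hf i).map _)
      rw [MvPolynomial.homogeneousComponent_of_mem (n := k + R) hh]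
      split_ifs
      · rw [map_mul, hc i, mul_zero]
      · rw [map_zero]
    -- hence the vector of monomials is killed by T
    have hvec : Matrix.vecMul (fun b : A => MvPolynomial.eval c (MvPolynomial.monomial b.1 (1 : ℂ)))
        (T.map (MvPolynomial.eval m)) = 0 := by
      funext a
      rw [Pi.zero_apply, ← hFc a]
      have hhom : (MvPolynomial.map (MvPolynomial.eval m) (F a)).IsHomogeneous N := by
        rw [hFm]
        exact MvPolynomial.homogeneousComponent_isHomogeneous _ _
      have hexp : MvPolynomial.map (MvPolynomial.eval m) (F a) =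
          ∑ b : A, MvPolynomial.monomial b.1 (MvPolynomial.coeff b.1
            (MvPolynomial.map (MvPolynomial.eval m) (F a))) := by
        ext d
        rw [MvPolynomial.coeff_sum]
        by_cases hd : d.degree = N
        · rw [Finset.sum_eq_single (⟨d, hd⟩ : A)]
          · rw [MvPolynomial.coeff_monomial, if_pos rfl]
          · intro b _ hb
            rw [MvPolynomial.coeff_monomial, if_neg]
            intro h
            exact hb (Subtype.ext h)
          · intro h; exact absurd (mem_univ _) h
        · rw [hhom.coeff_eq_zero hd]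
          symm
          apply Finset.sum_eq_zero
          intro b _
          rw [MvPolynomial.coeff_monomial, if_neg]
          intro h
          exact hd (by rw [← h]; exact b.2)
      rw [hexp, map_sum, Matrix.vecMul, dotProduct]
      refine Finset.sum_congr rfl (fun b _ => ?_)
      rw [Matrix.map_apply, MvPolynomial.coeff_map, MvPolynomial.eval_monomial,
        MvPolynomial.eval_monomial, one_mul, mul_comm]
    have hz := Matrix.eq_zero_of_vecMul_eq_zero hm hvec
    funext j
    have h2 := congrFun hz (⟨Finsupp.single j N, by rw [Finsupp.degree_single]⟩ : A)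
    simp only [Pi.zero_apply, MvPolynomial.eval_monomial, one_mul] at h2
    rw [Finsupp.prod_single_index (h := fun n e => c n ^ e) (pow_zero _)] at h2
    exact pow_eq_zero_iff (by omega) |>.1 h2

end

end Pool.Agent.H7Tens
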