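import Mathlib
import Pool.Agent.H7TensB

set_option autoImplicit false

open Finset

namespace Pool.Agent.H7Tens

noncomputable section

section ER

variable {σ κ α β : Type} [Fintype κ] [DecidableEq κ] [Fintype α] [Fintype β]
  [DecidableEq α] [DecidableEq β]

def genMat (Y : κ → Matrix α β (MvPolynomial σ ℂ)) :
    Matrix α β (MvPolynomial κ (MvPolynomial σ ℂ)) :=
  fun p q => ∑ j, MvPolynomial.X j * MvPolynomial.C (Y j p q)

def liftM {α' β' : Type} (κ σ : Type) (U : Matrix α' β' ℂ) :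
    Matrix α' β' (MvPolynomial κ (MvPolynomial σ ℂ)) :=
  fun i j => MvPolynomial.C (MvPolynomial.C (U i j))

def detForm (Y : κ → Matrix α β (MvPolynomial σ ℂ)) (R : ℕ) (U : Matrix (Fin R) α ℂ)
    (W : Matrix β (Fin R) ℂ) : MvPolynomial κ (MvPolynomial σ ℂ) :=
  Matrix.det (liftM κ σ U * genMat Y * liftM κ σ W)

lemma detForm_hom (Y : κ → Matrix α β (MvPolynomial σ ℂ)) (R : ℕ) (U : Matrix (Fin R) α ℂ)
    (W : Matrix β (Fin R) ℂ) : (detForm Y R U W).IsHomogeneous R := by
  unfold detForm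
  rw [Matrix.det_apply']
  apply MvPolynomial.IsHomogeneous.sum
  intro τ _
  have h0 : (((Equiv.Perm.sign τ : ℤ) : MvPolynomial κ (MvPolynomial σ ℂ))).IsHomogeneous 0 := by
    have : ((Equiv.Perm.sign τ : ℤ) : MvPolynomial κ (MvPolynomial σ ℂ)) =
      MvPolynomial.C ((Equiv.Perm.sign τ : ℤ) : MvPolynomial σ ℂ) := by
      simp
    rw [this]
    exact MvPolynomial.isHomogeneous_C _ _
  have h1 : (∏ i : Fin R, (liftM κ σ U * genMat Y * liftM κ σ W) (τ i) i).IsHomogeneous
      (∑ _i : Fin R, 1) := by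
    apply MvPolynomial.IsHomogeneous.prod
    intro i _
    rw [Matrix.mul_apply]
    apply MvPolynomial.IsHomogeneous.sum
    intro q _
    have h2 : ((liftM κ σ U * genMat Y) (τ i) q).IsHomogeneous 1 := by
      rw [Matrix.mul_apply]
      apply MvPolynomial.IsHomogeneous.sum
      intro p _
      rw [liftM, genMat, Finset.mul_sum]
      apply MvPolynomial.IsHomogeneous.sum
      intro j _
      have := (MvPolynomial.isHomogeneous_C κ (MvPolynomial.C (U (τ i) p) : MvPolynomial σ ℂ)).mul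
        ((MvPolynomial.isHomogeneous_X (MvPolynomial σ ℂ) j).mul
          (MvPolynomial.isHomogeneous_C κ (Y j p q)))
      simpa using this
    have h3 := h2.mul (MvPolynomial.isHomogeneous_C κ (MvPolynomial.C (W q i) : MvPolynomial σ ℂ))
    simpa [liftM] using h3
  have h4 := h0.mul h1
  simpa using h4

lemma detForm_eval (Y : κ → Matrix α β (MvPolynomial σ ℂ)) (R : ℕ) (U : Matrix (Fin R) α ℂ)
    (W : Matrix β (Fin R) ℂ) (m : σ → ℂ) (c : κ → ℂ) :
    MvPolynomial.eval c (MvPolynomial.map (MvPolynomial.eval m) (detForm Y R U W)) =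
      (U * (∑ j, c j • (Y j).map (MvPolynomial.eval m)) * W).det := by
  have h1 : MvPolynomial.eval c (MvPolynomial.map (MvPolynomial.eval m) (detForm Y R U W)) =
      ((MvPolynomial.eval c).comp (MvPolynomial.map (MvPolynomial.eval m))) (detForm Y R U W) := rfl
  rw [h1]
  set φ := ((MvPolynomial.eval c).comp (MvPolynomial.map (MvPolynomial.eval m)) :
    MvPolynomial κ (MvPolynomial σ ℂ) →+* ℂ) with hφ
  unfold detForm
  rw [RingHom.map_det, RingHom.mapMatrix_apply, Matrix.map_mul, Matrix.map_mul]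
  have hU : (liftM κ σ U).map φ = U := by
    ext i j
    simp [hφ, liftM]
  have hW : (liftM κ σ W).map φ = W := by
    ext i j
    simp [hφ, liftM]
  have hG : ((genMat Y).map φ) = ∑ j, c j • (Y j).map (MvPolynomial.eval m) := by
    ext p q
    rw [Matrix.map_apply, genMat, map_sum, Matrix.sum_apply]
    refine Finset.sum_congr rfl (fun j _ => ?_)
    simp [hφ]
  rw [hU, hW, hG]

/-- openness (in the Zariski sense) of `all nonzero combinations have rank at least R` -/
lemma elim_rank (R : ℕ) (Y : κ → Matrix α β (MvPolynomial σ ℂ)) (m0 : σ → ℂ)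
    (h0 : ∀ c : κ → ℂ, c ≠ 0 → R ≤ (∑ j, c j • (Y j).map (MvPolynomial.eval m0)).rank) :
    ∃ P : MvPolynomial σ ℂ, MvPolynomial.eval m0 P ≠ 0 ∧ ∀ m : σ → ℂ, MvPolynomial.eval m P ≠ 0 →
      ∀ c : κ → ℂ, c ≠ 0 → R ≤ (∑ j, c j • (Y j).map (MvPolynomial.eval m)).rank := by
  obtain ⟨P, hP0, hP⟩ := elimination (κ := κ) (σ := σ)
    (ι := Matrix (Fin R) α ℂ × Matrix β (Fin R) ℂ) R (fun i => detForm Y R i.1 i.2)
    (fun i => detForm_hom Y R i.1 i.2) m0 (by
      intro c hc
      by_contra hne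
      obtain ⟨U, W, hUW⟩ := exists_UW _ (h0 c hne)
      have := hc (U, W)
      rw [detForm_eval] at this
      simp only at this
      rw [hUW, Matrix.det_one] at this
      exact one_ne_zero this)
  refine ⟨P, hP0, fun m hm c hc => ?_⟩
  by_contra hlt
  apply hc
  apply hP m hm c
  intro i
  rw [detForm_eval]
  by_contra hne
  exact hlt (rank_of_det _ _ _ hne)

end ER

/-- a polynomial vanishing near a point is zero -/
lemma poly_zero_of_open {τ : Type} [Fintype τ] (P : MvPolynomial τ ℂ) (m0 : τ → ℂ)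
    (h : ∀ᶠ m in nhds m0, MvPolynomial.eval m P = 0) : P = 0 := by
  classical
  rw [Metric.eventually_nhds_iff_ball] at h
  obtain ⟨ε, hε, h⟩ := h
  apply MvPolynomial.funext_set (s := fun i => Metric.ball (m0 i) ε)
  · intro i
    exact infinite_of_mem_nhds (m0 i) (Metric.ball_mem_nhds _ hε)
  · intro x hx
    rw [map_zero]
    apply h
    rw [ball_pi _ hε]
    exact hx

/-- the parametrisation of tuples with a combination of small rank -/
def Gm (a b ρ k : ℕ) : ((Fin a → Fin ρ → ℂ) × (Fin ρ → Fin b → ℂ) × (Fin k → ℂ) ×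
    (Fin k → Fin a → Fin b → ℂ)) → (Fin (k + 1) × Fin a × Fin b → ℂ) :=
  fun x t => Fin.cases (∑ r, x.1 t.2.1 r * x.2.1 r t.2.2 - ∑ l, x.2.2.1 l * x.2.2.2 l t.2.1 t.2.2)
    (fun l => x.2.2.2 l t.2.1 t.2.2) t.1

lemma Gm_contDiff (a b ρ k : ℕ) : ContDiff ℂ 1 (Gm a b ρ k) := by
  rw [contDiff_pi]
  rintro ⟨i, p, q⟩
  unfold Gm
  refine Fin.cases ?_ (fun l => ?_) i
  · simp only [Fin.cases_zero]
    fun_prop
  · simp only [Fin.cases_succ]
    fun_prop

lemma Gm_surj {a b ρ k : ℕ} (ha : ρ ≤ a) (hb : ρ ≤ b) (e : Fin (a - ρ) × Fin (b - ρ) ↪ Fin k) :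
    ∃ x0, ∀ w, ∃ v, fderiv ℂ (Gm a b ρ k) x0 v = w := by
  classical
  let U0 : Fin a → Fin ρ → ℂ := fun p r => if (p : ℕ) = r then 1 else 0
  let V0 : Fin ρ → Fin b → ℂ := fun r q => if (r : ℕ) = q then 1 else 0
  let M0 : Fin k → Fin a → Fin b → ℂ := fun l p q =>
    if h : ρ ≤ (p : ℕ) ∧ ρ ≤ (q : ℕ) then
      (if e (⟨(p : ℕ) - ρ, by omega⟩, ⟨(q : ℕ) - ρ, by omega⟩) = l then 1 else 0) else 0
  refine ⟨(U0, V0, 0, M0), fun w => ?_⟩
  let dU : Fin a → Fin ρ → ℂ := fun p r => w (0, p, ⟨r, by omega⟩)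
  let dV : Fin ρ → Fin b → ℂ := fun r q => if ρ ≤ (q : ℕ) then w (0, ⟨r, by omega⟩, q) else 0
  let dc : Fin k → ℂ := fun l => - ∑ z : Fin (a - ρ) × Fin (b - ρ),
    if e z = l then w (0, ⟨ρ + z.1, by omega⟩, ⟨ρ + z.2, by omega⟩) else 0
  let dM : Fin k → Fin a → Fin b → ℂ := fun l p q => w (l.succ, p, q)
  refine ⟨(dU, dV, dc, dM), ?_⟩
  have h1 : HasFDerivAt (Gm a b ρ k) (fderiv ℂ (Gm a b ρ k) (U0, V0, 0, M0)) (U0, V0, 0, M0) :=
    ((Gm_contDiff a b ρ k).differentiable one_ne_zero _).hasFDerivAt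
  have h2 := h1.hasLineDerivAt (dU, dV, dc, dM)
  have h3 : HasLineDerivAt ℂ (Gm a b ρ k) w (U0, V0, 0, M0) (dU, dV, dc, dM) := by
    unfold HasLineDerivAt
    rw [hasDerivAt_pi]
    rintro ⟨i, p, q⟩
    refine Fin.cases ?_ (fun l => ?_) i
    · have k1 : ∑ r, dU p r * V0 r q = if (q : ℕ) < ρ then w (0, p, q) else 0 := by
        by_cases hq : (q : ℕ) < ρ
        · rw [if_pos hq, Finset.sum_eq_single (⟨q, hq⟩ : Fin ρ)]
          · simp [dU, V0]
          · intro r _ hr
            have : (r : ℕ) ≠ q := fun h => hr (Fin.ext h)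
            simp [V0, this]
          · intro h; exact absurd (mem_univ _) h
        · rw [if_neg hq]
          apply Finset.sum_eq_zero
          intro r _
          have : (r : ℕ) ≠ q := by omega
          simp [V0, this]
      have k2 : ∑ r, U0 p r * dV r q =
          if (p : ℕ) < ρ then (if ρ ≤ (q : ℕ) then w (0, p, q) else 0) else 0 := by
        by_cases hp : (p : ℕ) < ρ
        · rw [if_pos hp, Finset.sum_eq_single (⟨p, hp⟩ : Fin ρ)]
          · simp [U0, dV]
          · intro r _ hr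
            have : (p : ℕ) ≠ r := fun h => hr (Fin.ext h.symm)
            simp [U0, this]
          · intro h; exact absurd (mem_univ _) h
        · rw [if_neg hp]
          apply Finset.sum_eq_zero
          intro r _
          have : (p : ℕ) ≠ r := by omega
          simp [U0, this]
      have k3 : ∑ l, dc l * M0 l p q =
          if ρ ≤ (p : ℕ) ∧ ρ ≤ (q : ℕ) then - w (0, p, q) else 0 := by
        by_cases h : ρ ≤ (p : ℕ) ∧ ρ ≤ (q : ℕ)
        · rw [if_pos h]
          have hM0 : ∀ l, M0 l p q =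
              if e (⟨(p : ℕ) - ρ, by omega⟩, ⟨(q : ℕ) - ρ, by omega⟩) = l then 1 else 0 := by
            intro l
            simp only [M0]
            rw [dif_pos h]
          simp only [hM0, mul_ite, mul_one, mul_zero, Finset.sum_ite_eq, Finset.mem_univ, if_true]
          simp only [dc]
          rw [Finset.sum_eq_single
            ((⟨(p : ℕ) - ρ, by omega⟩, ⟨(q : ℕ) - ρ, by omega⟩) : Fin (a - ρ) × Fin (b - ρ))]
          · rw [if_pos rfl]
            congr 2
            refine Prod.ext rfl (Prod.ext (Fin.ext ?_) (Fin.ext ?_))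
            · simp only
              omega
            · simp only
              omega
          · intro z _ hz
            rw [if_neg]
            intro h'
            exact hz (e.injective h')
          · intro h; exact absurd (mem_univ _) h
        · rw [if_neg h]
          apply Finset.sum_eq_zero
          intro l _
          have : M0 l p q = 0 := by
            simp only [M0]
            rw [dif_neg h]
          rw [this, mul_zero]
      have key : ∑ r, (dU p r * V0 r q + U0 p r * dV r q) - ∑ l, dc l * M0 l p q = w (0, p, q) := by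
        rw [Finset.sum_add_distrib, k1, k2, k3]
        by_cases hq : (q : ℕ) < ρ
        · have hq' : ¬ (ρ ≤ (q : ℕ)) := by omega
          simp [hq, hq']
        · have hq' : ρ ≤ (q : ℕ) := by omega
          by_cases hp : (p : ℕ) < ρ
          · have hp' : ¬ (ρ ≤ (p : ℕ)) := by omega
            simp [hq, hq', hp, hp']
          · have hp' : ρ ≤ (p : ℕ) := by omega
            simp [hq, hq', hp, hp']
      have h4 : HasDerivAt (fun t : ℂ => ∑ r, (U0 p r + t * dU p r) * (V0 r q + t * dV r q) -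
          ∑ l, (0 + t * dc l) * (M0 l p q + t * dM l p q)) (w (0, p, q)) 0 := by
        rw [← key]
        have aff : ∀ x y : ℂ, HasDerivAt (fun t : ℂ => x + t * y) y 0 := by
          intro x y
          have := ((hasDerivAt_id (0 : ℂ)).mul_const y).const_add x
          simpa using this
        apply HasDerivAt.sub
        · apply HasDerivAt.fun_sum
          intro r _
          have := (aff (U0 p r) (dU p r)).fun_mul (aff (V0 r q) (dV r q))
          simpa using this
        · apply HasDerivAt.fun_sum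
          intro l _
          have := (aff 0 (dc l)).fun_mul (aff (M0 l p q) (dM l p q))
          simpa using this
      exact h4
    · have h4 : HasDerivAt (fun t : ℂ => M0 l p q + t * dM l p q) (w (l.succ, p, q)) 0 := by
        have := ((hasDerivAt_id (0 : ℂ)).mul_const (dM l p q)).const_add (M0 l p q)
        simpa using this
      exact h4
  exact h2.unique h3

lemma Gm_rank {a b ρ k : ℕ} (x : (Fin a → Fin ρ → ℂ) × (Fin ρ → Fin b → ℂ) × (Fin k → ℂ) ×
    (Fin k → Fin a → Fin b → ℂ)) :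
    ∃ c : Fin (k + 1) → ℂ, c ≠ 0 ∧
      (∑ i, c i • (Matrix.of fun p q => Gm a b ρ k x (i, p, q))).rank ≤ ρ := by
  refine ⟨Fin.cons 1 x.2.2.1, ?_, ?_⟩
  · intro h
    have := congrFun h 0
    rw [Fin.cons_zero] at this
    exact one_ne_zero this
  · have h1 : (∑ i, (Fin.cons 1 x.2.2.1 : Fin (k + 1) → ℂ) i •
        (Matrix.of fun p q => Gm a b ρ k x (i, p, q))) =
        (Matrix.of x.1) * (Matrix.of x.2.1) := by
      ext p q
      rw [Fin.sum_univ_succ, Matrix.add_apply, Matrix.sum_apply, Matrix.mul_apply]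
      simp only [Fin.cons_zero, Fin.cons_succ, one_smul, Matrix.smul_apply, Matrix.of_apply,
        Gm, Fin.cases_zero, Fin.cases_succ, smul_eq_mul]
      ring
    rw [h1]
    refine (Matrix.rank_mul_le_left _ _).trans ?_
    refine (Matrix.rank_le_card_width _).trans ?_
    rw [Fintype.card_fin]

lemma poly_zero {a b ρ k : ℕ} (ha : ρ ≤ a) (hb : ρ ≤ b) (hk : (a - ρ) * (b - ρ) ≤ k)
    (P : MvPolynomial (Fin (k + 1) × Fin a × Fin b) ℂ)
    (h : ∀ m : Fin (k + 1) × Fin a × Fin b → ℂ, (∃ c : Fin (k + 1) → ℂ, c ≠ 0 ∧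
      (∑ i, c i • (Matrix.of fun p q => m (i, p, q))).rank ≤ ρ) → MvPolynomial.eval m P = 0) :
    P = 0 := by
  have hcard : Fintype.card (Fin (a - ρ) × Fin (b - ρ)) ≤ Fintype.card (Fin k) := by
    rw [Fintype.card_prod, Fintype.card_fin, Fintype.card_fin, Fintype.card_fin]
    exact hk
  obtain ⟨e⟩ := Function.Embedding.nonempty_of_card_le hcard
  obtain ⟨x0, hx0⟩ := Gm_surj ha hb e
  have hs : HasStrictFDerivAt (Gm a b ρ k) (fderiv ℂ (Gm a b ρ k) x0) x0 :=
    (Gm_contDiff a b ρ k).contDiffAt.hasStrictFDerivAt one_ne_zero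
  have hr : (fderiv ℂ (Gm a b ρ k) x0).range = ⊤ := by
    rw [LinearMap.range_eq_top]
    intro w
    exact hx0 w
  have hmap := hs.map_nhds_eq_of_surj hr
  apply poly_zero_of_open P (Gm a b ρ k x0)
  rw [← hmap, Filter.eventually_map]
  filter_upwards with x
  exact h _ (Gm_rank x)

/-- every `k` tuple has a nontrivial combination of rank at most `ρ` as soon as
`(a - ρ) (b - ρ) < k` -/
lemma upper {a b ρ k : ℕ} (ha : ρ ≤ a) (hb : ρ ≤ b) (hk : (a - ρ) * (b - ρ) < k)
    (M : Fin k → Matrix (Fin a) (Fin b) ℂ) :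
    ∃ c : Fin k → ℂ, c ≠ 0 ∧ (∑ i, c i • M i).rank ≤ ρ := by
  obtain ⟨k, rfl⟩ : ∃ k', k = k' + 1 := ⟨k - 1, by omega⟩
  by_contra hcon
  push Not at hcon
  let Y : Fin (k + 1) → Matrix (Fin a) (Fin b) (MvPolynomial (Fin (k + 1) × Fin a × Fin b) ℂ) :=
    fun i p q => MvPolynomial.X (i, p, q)
  have hY : ∀ m : Fin (k + 1) × Fin a × Fin b → ℂ, ∀ i, (Y i).map (MvPolynomial.eval m) =
      Matrix.of fun p q => m (i, p, q) := by
    intro m i
    ext p q
    rw [Matrix.map_apply]
    exact MvPolynomial.eval_X _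
  obtain ⟨P, hP0, hP⟩ := elim_rank (ρ + 1) Y (fun t => M t.1 t.2.1 t.2.2) (by
    intro c hc
    simp only [hY]
    exact hcon c hc)
  have : P = 0 := by
    apply poly_zero ha hb (Nat.lt_succ_iff.1 hk) P
    rintro m ⟨c, hc, hr⟩
    by_contra hne
    have := hP m hne c hc
    simp only [hY] at this
    omega
  rw [this, map_zero] at hP0
  exact hP0 rfl

end

end Pool.Agent.H7Tens
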