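import Pool.Statements.S0056
import Pool.Agent.H26.Iso
-- import your own Pool.Agent.* helpers here

set_option autoImplicit false
open Pool Pool.MP_4658d5_ag

namespace Pool.Agent.S0056

/-- The negation of the preceding statement: For every complex polynomial p in n variables whose zero set is contractible (Euclidean topology), there is a finite set S such that any two fibres p=c and p=d with c, d outside S are isomorphic affine varieties via polynomial maps. -/
theorem result :
    ¬ (∀ (n : ℕ) (p : MvPolynomial (Fin n) ℂ),
      ContractibleSpace {x : Fin n → ℂ // MvPolynomial.eval x p = 0} →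
      ∃ S : Finset ℂ, ∀ c d : ℂ, c ∉ S → d ∉ S →
        ∃ f g : Fin n → MvPolynomial (Fin n) ℂ,
          (∀ x : Fin n → ℂ, MvPolynomial.eval x p = c →
              MvPolynomial.eval (fun i => MvPolynomial.eval x (f i)) p = d ∧
              (fun j => MvPolynomial.eval (fun i => MvPolynomial.eval x (f i)) (g j)) = x) ∧
          (∀ y : Fin n → ℂ, MvPolynomial.eval y p = d →
              MvPolynomial.eval (fun i => MvPolynomial.eval y (g i)) p = c ∧
              (fun j => MvPolynomial.eval (fun i => MvPolynomial.eval y (g i)) (f j)) = y)) := by
  exact Pool.Agent.H26.Iso.main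

end Pool.Agent.S0056
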