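import Pool.Statements.S0073
import Pool.Agent.H3.ToricB

set_option autoImplicit false
open Pool Pool.MP_68f414_ag

namespace Pool.Agent.S0073

/-- For all large n there is a bihomogeneous prime ideal in ℂ[x0,x1,x2,y0,y1,y2] whose bidegree-(s,t) Hilbert function is eventually s²+nst+t²+linear, i.e. an integral surface in P²×P² of class 2(pt×P²)+n(line×line)+2(P²×pt). -/
theorem result :
    ∃ N : ℕ, ∀ n : ℕ, N ≤ n →
      ∃ P : Ideal (MvPolynomial (Fin 3 ⊕ Fin 3) ℂ), P.IsPrime ∧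
        (∀ f ∈ P, ∀ d : ℕ × ℕ,
          MvPolynomial.weightedHomogeneousComponent
            (Sum.elim (fun _ : Fin 3 => ((1, 0) : ℕ × ℕ)) (fun _ : Fin 3 => ((0, 1) : ℕ × ℕ))) d f ∈ P) ∧
        ∃ a b c : ℚ, ∃ s₀ : ℕ, ∀ s t : ℕ, s₀ ≤ s → s₀ ≤ t →
          ((Module.finrank ℂ
              (↥(MvPolynomial.weightedHomogeneousSubmodule ℂ
                  (Sum.elim (fun _ : Fin 3 => ((1, 0) : ℕ × ℕ)) (fun _ : Fin 3 => ((0, 1) : ℕ × ℕ))) (s, t)) ⧸
                Submodule.comap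
                  (MvPolynomial.weightedHomogeneousSubmodule ℂ
                    (Sum.elim (fun _ : Fin 3 => ((1, 0) : ℕ × ℕ)) (fun _ : Fin 3 => ((0, 1) : ℕ × ℕ))) (s, t)).subtype
                  (P.restrictScalars ℂ)) : ℕ) : ℚ)
            = (s : ℚ) ^ 2 + (n : ℚ) * s * t + (t : ℚ) ^ 2 + a * s + b * t + c := by
  refine ⟨5, fun n hn => ?_⟩
  obtain ⟨m, rfl⟩ : ∃ m, n = m + 5 := ⟨n - 5, by omega⟩
  refine ⟨Pool.Agent.H3.Toric.PP (Pool.Agent.H3.Toric.ee m), Pool.Agent.H3.Toric.prime_PP _,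
    Pool.Agent.H3.Toric.bihom_PP _ (Pool.Agent.H3.Toric.weight_ee m),
    (Pool.Agent.H3.Toric.mu m 0 : ℚ) - m, -(m : ℚ),
    m - Pool.Agent.H3.Toric.mu m 0 + 2 - ∑ j ∈ Finset.range m, ∑ w ∈ Finset.range m,
      Pool.Agent.H3.Toric.dfc m j w, m + 2, fun s t hs ht => ?_⟩
  have h1 := Pool.Agent.H3.Toric.finrank_eq (Pool.Agent.H3.Toric.ee m) s t
  have h2 := Pool.Agent.H3.Toric.card_image m s t
  have h3 := Pool.Agent.H3.Toric.final_count m s t hs (by omega)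
  rw [h2] at h1
  rw [← h1] at h3
  refine h3.trans ?_
  push_cast
  ring

end Pool.Agent.S0073
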