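import Pool.Statements.S0100
import Pool.Agent.Lead.DiscD7

set_option autoImplicit false
open Pool Pool.MP_8e46bf_ag

namespace Pool.Agent.S0100

/-- The negation of the preceding statement: For every n ≥ 2 there are nonnegative reals c_k and lists of index pairs such that, for all complex z, the discriminant of the derivative of ∏(x−z_i) equals Σ c_k·(∏ over the k-th list of (z_i−z_j))². -/
theorem result :
    ¬ (∀ n : ℕ, 2 ≤ n →
      ∃ (m : ℕ) (c : Fin m → ℝ) (E : Fin m → List (Fin n × Fin n)),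
        (∀ k, 0 ≤ c k) ∧
        ∀ (z : Fin n → ℂ) (r : Fin (n - 1) → ℂ),
          Polynomial.derivative (∏ i : Fin n, (Polynomial.X - Polynomial.C (z i))) =
              Polynomial.C (n : ℂ) * ∏ j : Fin (n - 1), (Polynomial.X - Polynomial.C (r j)) →
            (n : ℂ) ^ (2 * n - 4) * ∏ a : Fin (n - 1), ∏ b ∈ Finset.Ioi a, (r a - r b) ^ 2 =
              ∑ k : Fin m, ((c k : ℝ) : ℂ) * (((E k).map (fun p => z p.1 - z p.2)).prod) ^ 2) := by
  intro H
  obtain ⟨m, c, E, hc, h⟩ := H 7 (by norm_num)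
  have h' : ∀ (z : Fin 7 → ℂ) (r : Fin 6 → ℂ),
          Polynomial.derivative (∏ i : Fin 7, (Polynomial.X - Polynomial.C (z i))) =
            Polynomial.C (7:ℂ) * ∏ j : Fin 6, (Polynomial.X - Polynomial.C (r j)) →
            (7:ℂ) ^ 10 * ∏ a : Fin 6, ∏ b ∈ Finset.Ioi a, (r a - r b) ^ 2 =
              ∑ k : Fin m, ((c k : ℝ) : ℂ) * (((E k).map (fun p => z p.1 - z p.2)).prod) ^ 2 := by
    intro z r hr
    exact h z r hr
  have v0 := Pool.Agent.Lead.DiscD7.val 0 m c E h'
  have v1 := Pool.Agent.Lead.DiscD7.val 10000 m c E h'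
  have v2 := Pool.Agent.Lead.DiscD7.val 1000000 m c E h'
  rw [Pool.Agent.Lead.DiscD7.det0] at v0
  rw [Pool.Agent.Lead.DiscD7.det1] at v1
  rw [Pool.Agent.Lead.DiscD7.det2] at v2
  have key : ∑ k, c k * Pool.Agent.Lead.DiscD7.PP 10000 (E k) ^ 2
      ≤ (10102/100)^10 * ∑ k, c k * Pool.Agent.Lead.DiscD7.PP 0 (E k) ^ 2
        + (10102/999898)^12 * ∑ k, c k * Pool.Agent.Lead.DiscD7.PP 1000000 (E k) ^ 2 := by
    rw [Finset.mul_sum, Finset.mul_sum, ← Finset.sum_add_distrib]
    refine Finset.sum_le_sum fun k _ => ?_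
    have := mul_le_mul_of_nonneg_left (Pool.Agent.Lead.DiscD7.PP_main (E k)) (hc k)
    calc _ ≤ _ := this
      _ = _ := by ring
  simp only [Int.cast_zero, Int.cast_ofNat] at v0 v1 v2
  generalize (∑ k, c k * Pool.Agent.Lead.DiscD7.PP 0 (E k) ^ 2) = S0 at *
  generalize (∑ k, c k * Pool.Agent.Lead.DiscD7.PP 10000 (E k) ^ 2) = S1 at *
  generalize (∑ k, c k * Pool.Agent.Lead.DiscD7.PP 1000000 (E k) ^ 2) = S2 at *
  have e0 : S0 = 22125558845833736355533586337250706521053141321498383072648483369725202923520000 / 7^20 := by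
    rw [eq_div_iff (by norm_num)]; linarith
  have e1 : S1 = 2573931854437100717353696585699588537178623740056682123883905150076976134656058104072508281323520000 / 7^20 := by
    rw [eq_div_iff (by norm_num)]; linarith
  have e2 : S2 = 257477811254760563318364763989864005875908293820877310319990326254616773948647924663672911155238871511200509202923520000 / 7^20 := by
    rw [eq_div_iff (by norm_num)]; linarith
  rw [e0, e1, e2] at key
  norm_num at key

end Pool.Agent.S0100
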