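import Pool.Statements.S0223
-- import your own Pool.Agent.* helpers here
import Pool.Agent.H7TensA
import Pool.Agent.H7TensC

set_option autoImplicit false
open Pool Pool.MP_066b7c_al

namespace Pool.Agent.S0223

open Finset Pool.Agent.H7Tens

lemma base {a b k : ℕ} (hk1 : 1 ≤ k) (hk : k ≤ a * b) :
    ∃ s, s < a ∧ s < b ∧ (a - (s + 1)) * (b - (s + 1)) < k ∧
      ∃ X : Fin k → (Fin a → Fin b → ℂ), (∀ i, DM s (X i)) ∧
        (∀ c : Fin k → ℂ, (∀ p q, ∑ i, c i * X i p q = 0) → c = 0) := by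
  classical
  have hex : ∃ r, (a - r) * (b - r) < k := ⟨a, by simp; omega⟩
  set ρ := Nat.find hex with hρ
  have h1 : (a - ρ) * (b - ρ) < k := Nat.find_spec hex
  have h0 : ρ ≠ 0 := by
    intro h
    rw [h] at h1
    simp at h1
    omega
  have ha : ρ ≤ a := Nat.find_min' hex (by simp; omega)
  have hb : ρ ≤ b := Nat.find_min' hex (by simp; omega)
  have h2 : ¬ ((a - (ρ - 1)) * (b - (ρ - 1)) < k) := Nat.find_min hex (by omega)
  push Not at h2
  refine ⟨ρ - 1, by omega, by omega, ?_, ?_⟩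
  · have : ρ - 1 + 1 = ρ := by omega
    rw [this]
    exact h1
  · set s := ρ - 1 with hs
    have hcard : Fintype.card (Fin k) ≤ Fintype.card (Fin (a - s) × Fin (b - s)) := by
      rw [Fintype.card_prod, Fintype.card_fin, Fintype.card_fin, Fintype.card_fin]
      exact h2
    obtain ⟨e⟩ := Function.Embedding.nonempty_of_card_le hcard
    refine ⟨fun i => Wm a b s (e i).1 (e i).2, fun i => ?_, fun c hc => ?_⟩
    · apply DM_Wm
      · omega
      · omega
    · have key := Wm_indep (a := a) (b := b) (s := s)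
        (fun u v => ∑ i, if ((e i).1 : ℕ) = u ∧ ((e i).2 : ℕ) = v then c i else 0) (by
          intro p q
          refine Eq.trans ?_ (hc p q)
          simp only [Finset.sum_mul]
          rw [Finset.sum_congr rfl (fun u _ => Finset.sum_comm)]
          rw [Finset.sum_comm]
          refine Finset.sum_congr rfl (fun i _ => ?_)
          rw [Finset.sum_eq_single ((e i).1 : ℕ)]
          · rw [Finset.sum_eq_single ((e i).2 : ℕ)]
            · rw [if_pos ⟨rfl, rfl⟩]
            · intro v _ hv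
              rw [if_neg (fun h => hv h.2.symm), zero_mul]
            · intro h
              exact absurd (Finset.mem_range.2 (e i).2.2) h
          · intro u _ hu
            apply Finset.sum_eq_zero
            intro v _
            rw [if_neg (fun h => hu h.1.symm), zero_mul]
          · intro h
            exact absurd (Finset.mem_range.2 (e i).1.2) h)
      funext i
      have h3 := key (e i).1 (e i).1.2 (e i).2 (e i).2.2
      rw [Finset.sum_eq_single i] at h3
      · rw [if_pos ⟨rfl, rfl⟩] at h3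
        exact h3
      · intro j _ hj
        rw [if_neg]
        rintro ⟨h4, h5⟩
        exact hj (e.injective (Prod.ext (Fin.ext h4) (Fin.ext h5)))
      · intro h
        exact absurd (mem_univ _) h

lemma base_lower {a1 b1 k1 s1 a2 b2 k2 s2 : ℕ} (X1 : Fin k1 → (Fin a1 → Fin b1 → ℂ))
    (X2 : Fin k2 → (Fin a2 → Fin b2 → ℂ)) (h1 : ∀ i, DM s1 (X1 i)) (h2 : ∀ i, DM s2 (X2 i))
    (hi1 : ∀ c : Fin k1 → ℂ, (∀ p q, ∑ i, c i * X1 i p q = 0) → c = 0)
    (hi2 : ∀ c : Fin k2 → ℂ, (∀ p q, ∑ i, c i * X2 i p q = 0) → c = 0)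
    (c : Fin k1 × Fin k2 → ℂ) (hc : c ≠ 0) :
    (s1 + 1) * (s2 + 1) ≤ (∑ t : Fin k1 × Fin k2, c t •
      (Matrix.of fun (p : Fin a1 × Fin a2) (q : Fin b1 × Fin b2) =>
        X1 t.1 p.1 q.1 * X2 t.2 p.2 q.2)).rank := by
  set S : Matrix (Fin a1 × Fin a2) (Fin b1 × Fin b2) ℂ := ∑ t : Fin k1 × Fin k2, c t •
      (Matrix.of fun (p : Fin a1 × Fin a2) (q : Fin b1 × Fin b2) =>
        X1 t.1 p.1 q.1 * X2 t.2 p.2 q.2) with hS
  have hSv : ∀ p q, S p q = ∑ t : Fin k1 × Fin k2, c t * (X1 t.1 p.1 q.1 * X2 t.2 p.2 q.2) := by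
    intro p q
    rw [hS, Matrix.sum_apply]
    rfl
  apply tensor_rank
  · intro h0
    apply hc
    have e1 : ∀ p' q' i, ∑ j, c (i, j) * X2 j p' q' = 0 := by
      intro p' q'
      have := hi1 (fun i => ∑ j, c (i, j) * X2 j p' q') (by
        intro p q
        have e2 := hSv (p, p') (q, q')
        rw [h0] at e2
        simp only [Matrix.zero_apply] at e2
        rw [e2, Fintype.sum_prod_type]
        refine Finset.sum_congr rfl (fun i _ => ?_)
        rw [Finset.sum_mul]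
        refine Finset.sum_congr rfl (fun j _ => ?_)
        ring)
      exact fun i => congrFun this i
    funext t
    obtain ⟨i, j⟩ := t
    exact congrFun (hi2 (fun j => c (i, j)) (fun p' q' => e1 p' q' i)) j
  · intro i2 j2
    have : (fun i1 j1 => S (i1, i2) (j1, j2)) =
        ∑ t : Fin k1 × Fin k2, (c t * X2 t.2 i2 j2) • X1 t.1 := by
      funext i1 j1
      rw [hSv, Finset.sum_apply, Finset.sum_apply]
      refine Finset.sum_congr rfl (fun t _ => ?_)
      simp only [Pi.smul_apply, smul_eq_mul]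
      ring
    rw [this]
    exact DM.sum _ (fun t _ => DM.smul _ (h1 t.1))
  · intro i1 j1
    have : (fun i2 j2 => S (i1, i2) (j1, j2)) =
        ∑ t : Fin k1 × Fin k2, (c t * X1 t.1 i1 j1) • X2 t.2 := by
      funext i2 j2
      rw [hSv, Finset.sum_apply, Finset.sum_apply]
      refine Finset.sum_congr rfl (fun t _ => ?_)
      simp only [Pi.smul_apply, smul_eq_mul]
      ring
    rw [this]
    exact DM.sum _ (fun t _ => DM.smul _ (h2 t.2))

lemma kron_sum {a1 b1 k1 a2 b2 k2 : ℕ} (M : Fin k1 → Matrix (Fin a1) (Fin b1) ℂ)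
    (N : Fin k2 → Matrix (Fin a2) (Fin b2) ℂ) (c : Fin k1 → ℂ) (d : Fin k2 → ℂ) :
    Matrix.kroneckerMap (fun u v : ℂ => u * v) (∑ i, c i • M i) (∑ j, d j • N j) =
      ∑ t : Fin k1 × Fin k2, (c t.1 * d t.2) •
        Matrix.kroneckerMap (fun u v : ℂ => u * v) (M t.1) (N t.2) := by
  ext ⟨p, p'⟩ ⟨q, q'⟩
  rw [Matrix.kroneckerMap_apply, Matrix.sum_apply, Matrix.sum_apply, Matrix.sum_apply,
    Finset.sum_mul_sum, Fintype.sum_prod_type]
  refine Finset.sum_congr rfl (fun i _ => Finset.sum_congr rfl (fun j _ => ?_))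
  simp only [Matrix.smul_apply, Matrix.kroneckerMap_apply, smul_eq_mul]
  ring

/-- For all sizes with 1≤k_i≤a_i b_i, off a proper algebraic set of pairs of k_i-tuples of complex a_i×b_i matrices, the min rank of nonzero elements of span(M_i⊗N_j) equals the product of the min ranks of span(M) and span(N). -/
theorem result :
    ∀ (a1 b1 k1 a2 b2 k2 : ℕ), 1 ≤ k1 → k1 ≤ a1 * b1 → 1 ≤ k2 → k2 ≤ a2 * b2 →
      ∃ P : MvPolynomial ((Fin k1 × Fin a1 × Fin b1) ⊕ (Fin k2 × Fin a2 × Fin b2)) ℂ,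
        P ≠ 0 ∧
        ∀ (M : Fin k1 → Matrix (Fin a1) (Fin b1) ℂ) (N : Fin k2 → Matrix (Fin a2) (Fin b2) ℂ),
          MvPolynomial.eval
              (Sum.elim (fun t : Fin k1 × Fin a1 × Fin b1 => M t.1 t.2.1 t.2.2)
                (fun t : Fin k2 × Fin a2 × Fin b2 => N t.1 t.2.1 t.2.2)) P ≠ 0 →
          sInf {r : ℕ | ∃ s ∈ Submodule.span ℂ
              {x : Matrix (Fin a1 × Fin a2) (Fin b1 × Fin b2) ℂ |
                ∃ i j, x = Matrix.kroneckerMap (fun u v : ℂ => u * v) (M i) (N j)},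
              s ≠ 0 ∧ s.rank = r}
            = sInf {r : ℕ | ∃ s ∈ Submodule.span ℂ (Set.range M), s ≠ 0 ∧ s.rank = r} *
              sInf {r : ℕ | ∃ s ∈ Submodule.span ℂ (Set.range N), s ≠ 0 ∧ s.rank = r} := by
  intro a1 b1 k1 a2 b2 k2 hk1 hk1' hk2 hk2'
  obtain ⟨s1, hs1a, hs1b, hs1k, X1, hX1, hi1⟩ := base hk1 hk1'
  obtain ⟨s2, hs2a, hs2b, hs2k, X2, hX2, hi2⟩ := base hk2 hk2'
  let Y : Fin k1 × Fin k2 → Matrix (Fin a1 × Fin a2) (Fin b1 × Fin b2)
      (MvPolynomial ((Fin k1 × Fin a1 × Fin b1) ⊕ (Fin k2 × Fin a2 × Fin b2)) ℂ) :=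
    fun t p q => MvPolynomial.X (Sum.inl (t.1, p.1, q.1)) * MvPolynomial.X (Sum.inr (t.2, p.2, q.2))
  have hY : ∀ (M : Fin k1 → (Fin a1 → Fin b1 → ℂ)) (N : Fin k2 → (Fin a2 → Fin b2 → ℂ)) t,
      (Y t).map (MvPolynomial.eval (Sum.elim (fun t : Fin k1 × Fin a1 × Fin b1 => M t.1 t.2.1 t.2.2)
                (fun t : Fin k2 × Fin a2 × Fin b2 => N t.1 t.2.1 t.2.2))) =
      (Matrix.of fun (p : Fin a1 × Fin a2) (q : Fin b1 × Fin b2) =>
        M t.1 p.1 q.1 * N t.2 p.2 q.2) := by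
    intro M N t
    ext p q
    rw [Matrix.map_apply]
    simp only [Y, map_mul, MvPolynomial.eval_X]
    rfl
  obtain ⟨P, hP0, hP⟩ := elim_rank ((s1 + 1) * (s2 + 1)) Y
    (Sum.elim (fun t : Fin k1 × Fin a1 × Fin b1 => X1 t.1 t.2.1 t.2.2)
                (fun t : Fin k2 × Fin a2 × Fin b2 => X2 t.1 t.2.1 t.2.2)) (by
      intro c hc
      simp only [hY]
      exact base_lower X1 X2 hX1 hX2 hi1 hi2 c hc)
  refine ⟨P, ?_, ?_⟩
  · rintro rfl
    rw [map_zero] at hP0
    exact hP0 rfl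
  · intro M N hMN
    have low : ∀ c : Fin k1 × Fin k2 → ℂ, c ≠ 0 → (s1 + 1) * (s2 + 1) ≤
        (∑ t, c t • Matrix.kroneckerMap (fun u v : ℂ => u * v) (M t.1) (N t.2)).rank := by
      intro c hc
      have := hP _ hMN c hc
      have e : ∀ t, (Y t).map (MvPolynomial.eval (Sum.elim
                (fun t : Fin k1 × Fin a1 × Fin b1 => M t.1 t.2.1 t.2.2)
                (fun t : Fin k2 × Fin a2 × Fin b2 => N t.1 t.2.1 t.2.2))) =
          Matrix.kroneckerMap (fun u v : ℂ => u * v) (M t.1) (N t.2) := by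
        intro t
        exact hY M N t
      simp only [e] at this
      exact this
    have hne : ∀ (c : Fin k1 → ℂ) (d : Fin k2 → ℂ), c ≠ 0 → d ≠ 0 →
        (fun t : Fin k1 × Fin k2 => c t.1 * d t.2) ≠ 0 := by
      intro c d hc hd h
      obtain ⟨i, hi⟩ := Function.ne_iff.1 hc
      obtain ⟨j, hj⟩ := Function.ne_iff.1 hd
      exact mul_ne_zero hi hj (congrFun h (i, j))
    have low2 : ∀ (c : Fin k1 → ℂ) (d : Fin k2 → ℂ), c ≠ 0 → d ≠ 0 →
        Matrix.kroneckerMap (fun u v : ℂ => u * v) (∑ i, c i • M i) (∑ j, d j • N j) ≠ 0 := by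
      intro c d hc hd h
      have h1 := low _ (hne c d hc hd)
      rw [← kron_sum, h, Matrix.rank_zero] at h1
      have : 0 < (s1 + 1) * (s2 + 1) := by positivity
      omega
    have indM : ∀ c : Fin k1 → ℂ, c ≠ 0 → ∑ i, c i • M i ≠ 0 := by
      intro c hc h
      have hd : (fun _ => 1 : Fin k2 → ℂ) ≠ 0 := by
        intro h
        exact one_ne_zero (congrFun h ⟨0, hk2⟩)
      apply low2 c _ hc hd
      rw [h]
      ext p q
      simp
    have indN : ∀ c : Fin k2 → ℂ, c ≠ 0 → ∑ i, c i • N i ≠ 0 := by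
      intro c hc h
      have hd : (fun _ => 1 : Fin k1 → ℂ) ≠ 0 := by
        intro h
        exact one_ne_zero (congrFun h ⟨0, hk1⟩)
      apply low2 _ c hd hc
      rw [h]
      ext p q
      simp
    set A := {r : ℕ | ∃ s ∈ Submodule.span ℂ (Set.range M), s ≠ 0 ∧ s.rank = r} with hA
    set B := {r : ℕ | ∃ s ∈ Submodule.span ℂ (Set.range N), s ≠ 0 ∧ s.rank = r} with hB
    set T := {r : ℕ | ∃ s ∈ Submodule.span ℂ
              {x : Matrix (Fin a1 × Fin a2) (Fin b1 × Fin b2) ℂ |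
                ∃ i j, x = Matrix.kroneckerMap (fun u v : ℂ => u * v) (M i) (N j)},
              s ≠ 0 ∧ s.rank = r} with hT
    obtain ⟨c1, hc1, hr1⟩ := upper (ρ := s1 + 1) (by omega) (by omega) hs1k M
    obtain ⟨c2, hc2, hr2⟩ := upper (ρ := s2 + 1) (by omega) (by omega) hs2k N
    have hAmem : (∑ i, c1 i • M i).rank ∈ A :=
      ⟨_, Submodule.sum_mem _ (fun i _ => Submodule.smul_mem _ _ (Submodule.subset_span ⟨i, rfl⟩)),
        indM c1 hc1, rfl⟩
    have hBmem : (∑ i, c2 i • N i).rank ∈ B :=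
      ⟨_, Submodule.sum_mem _ (fun i _ => Submodule.smul_mem _ _ (Submodule.subset_span ⟨i, rfl⟩)),
        indN c2 hc2, rfl⟩
    have hAle : sInf A ≤ s1 + 1 := (Nat.sInf_le hAmem).trans hr1
    have hBle : sInf B ≤ s2 + 1 := (Nat.sInf_le hBmem).trans hr2
    obtain ⟨sA, hsA, hsA0, hsAr⟩ := Nat.sInf_mem ⟨_, hAmem⟩
    obtain ⟨sB, hsB, hsB0, hsBr⟩ := Nat.sInf_mem ⟨_, hBmem⟩
    rw [Submodule.mem_span_range_iff_exists_fun] at hsA hsB
    obtain ⟨c, rfl⟩ := hsA
    obtain ⟨d, rfl⟩ := hsB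
    have hc : c ≠ 0 := by
      rintro rfl
      apply hsA0
      simp
    have hd : d ≠ 0 := by
      rintro rfl
      apply hsB0
      simp
    have hTmem : (Matrix.kroneckerMap (fun u v : ℂ => u * v) (∑ i, c i • M i)
        (∑ j, d j • N j)).rank ∈ T := by
      refine ⟨_, ?_, low2 c d hc hd, rfl⟩
      rw [kron_sum]
      exact Submodule.sum_mem _ (fun t _ => Submodule.smul_mem _ _
        (Submodule.subset_span ⟨t.1, t.2, rfl⟩))
    apply le_antisymm
    · refine (Nat.sInf_le hTmem).trans ((rank_kron _ _).trans ?_)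
      rw [hsAr, hsBr]
    · refine (Nat.mul_le_mul hAle hBle).trans ?_
      apply le_csInf ⟨_, hTmem⟩
      rintro r ⟨s, hs, hs0, rfl⟩
      have hset : {x : Matrix (Fin a1 × Fin a2) (Fin b1 × Fin b2) ℂ |
          ∃ i j, x = Matrix.kroneckerMap (fun u v : ℂ => u * v) (M i) (N j)} =
          Set.range (fun t : Fin k1 × Fin k2 =>
            Matrix.kroneckerMap (fun u v : ℂ => u * v) (M t.1) (N t.2)) := by
        ext x
        constructor
        · rintro ⟨i, j, rfl⟩
          exact ⟨(i, j), rfl⟩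
        · rintro ⟨t, rfl⟩
          exact ⟨t.1, t.2, rfl⟩
      rw [hset, Submodule.mem_span_range_iff_exists_fun] at hs
      obtain ⟨C, rfl⟩ := hs
      apply low
      rintro rfl
      apply hs0
      simp

end Pool.Agent.S0223
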