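import Pool.Statements.S0248
-- import your own Pool.Agent.* helpers here
import Pool.Agent.H27.Rigid
import Pool.Agent.H27.QBar

set_option autoImplicit false
open Pool Pool.MP_0ed2d6_al

namespace Pool.Agent.S0248

open LaurentPolynomial in
theorem exists_embedding : ∃ ι : ℤ[T;T⁻¹] →+* ℂ, Function.Injective ι := by
  have h1 : Transcendental ℤ (liouvilleNumber 2) := transcendental_liouvilleNumber le_rfl
  have h2 : Transcendental ℤ ((liouvilleNumber 2 : ℝ) : ℂ) := by
    intro h
    exact h1 ((isAlgebraic_algebraMap_iff (R := ℤ) (S := ℝ) (A := ℂ) 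
      (algebraMap ℝ ℂ).injective).1 h)
  have h3 : ((liouvilleNumber 2 : ℝ) : ℂ) ≠ 0 := by
    intro h
    rw [h] at h2
    exact h2 isAlgebraic_zero
  refine ⟨LaurentPolynomial.eval₂ (Int.castRingHom ℂ) (Units.mk0 _ h3), ?_⟩
  rw [injective_iff_map_eq_zero]
  intro f hf
  obtain ⟨n, f', hf'⟩ := LaurentPolynomial.exists_T_pow f
  have h4 := congrArg (LaurentPolynomial.eval₂ (Int.castRingHom ℂ) (Units.mk0 _ h3)) hf'
  rw [map_mul, hf, zero_mul, LaurentPolynomial.eval₂_toLaurent] at h4
  have h5 : Polynomial.aeval ((liouvilleNumber 2 : ℝ) : ℂ) f' = 0 := h4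
  have h6 : f' = 0 := by
    by_contra hne
    exact h2 ⟨f', hne, h5⟩
  rw [h6, map_zero] at hf'
  have h7 : f * T n * T (-n) = 0 := by rw [← hf', zero_mul]
  rwa [mul_assoc, ← T_add, add_neg_cancel, T_zero, mul_one] at h7

/-- The negation of the preceding statement: For every n, every finitely generated torsion-free subgroup G of GL_n(C), and every nontrivial g in G, there is a homomorphism from G to GL_n(Qbar) that does not kill g and has torsion-free image. -/
theorem result :
    ¬ (∀ n : ℕ, ∀ G : Subgroup (Matrix.GeneralLinearGroup (Fin n) ℂ),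
      G.FG →
      (∀ x : G, IsOfFinOrder x → x = 1) →
      ∀ g : G, g ≠ 1 →
        ∃ φ : G →* Matrix.GeneralLinearGroup (Fin n) (AlgebraicClosure ℚ),
          φ g ≠ 1 ∧
          ∀ h : Matrix.GeneralLinearGroup (Fin n) (AlgebraicClosure ℚ),
            h ∈ φ.range → IsOfFinOrder h → h = 1) := by
  intro hall
  obtain ⟨ι, hι⟩ := exists_embedding
  let f : (Matrix (Fin 3) (Fin 3) (LaurentPolynomial ℤ))ˣ →* Matrix.GeneralLinearGroup (Fin 3) ℂ :=
    Units.map (RingHom.mapMatrix ι : Matrix (Fin 3) (Fin 3) (LaurentPolynomial ℤ) →+* _).toMonoidHom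
  have hf : Function.Injective f := by
    apply Units.map_injective
    intro A B hAB
    ext1 i j
    have := congrFun (congrFun hAB i) j
    exact hι this
  let g0 : Pool.Agent.H27.Gp2.G := 
    ⟨Pool.Agent.H27.Grp.U 0 0 ((LaurentPolynomial.T 1 - 1) * Pool.Agent.H27.Gp2.p2), 
      Pool.Agent.H27.Gp2.memZ _⟩
  have hg0 : g0 ≠ 1 := by
    intro h
    have h1 : Pool.Agent.H27.Grp.U 0 0 ((LaurentPolynomial.T 1 - 1) * Pool.Agent.H27.Gp2.p2) = 1 := 
      congrArg Subtype.val h
    obtain ⟨-, -, h2⟩ := Pool.Agent.H27.Grp.U_injective h1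
    rcases mul_eq_zero.1 h2 with h3 | h3
    · have h4 := congrArg (fun p => p.coeff 0) h3
      rw [← LaurentPolynomial.T_zero] at h4
      simp [LaurentPolynomial.T_apply] at h4
    · have h4 := congrArg (fun p => p.coeff 0) h3
      rw [Pool.Agent.H27.Gp2.p2, ← LaurentPolynomial.T_zero] at h4
      simp [LaurentPolynomial.T_apply] at h4
  obtain ⟨φ, h1, h2⟩ := hall 3 (Pool.Agent.H27.Gp2.G.map f) (by
      rw [Subgroup.fg_iff]
      refine ⟨f '' Pool.Agent.H27.Gp2.gens, ?_, Pool.Agent.H27.Gp2.gens_finite.image _⟩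
      rw [Pool.Agent.H27.Gp2.G, MonoidHom.map_closure]) (by
      rintro ⟨_, x, hx, rfl⟩ hfin
      have h3 : IsOfFinOrder (f x) := Submonoid.isOfFinOrder_coe.2 hfin
      rw [hf.isOfFinOrder_iff] at h3
      have h4 := Pool.Agent.H27.Gp2.G_torsionfree hx h3
      subst h4
      ext1
      exact map_one f) (f.subgroupMap Pool.Agent.H27.Gp2.G g0) (by
      intro h
      apply hg0
      have h3 : f g0.1 = 1 := congrArg Subtype.val h
      ext1
      exact hf (h3.trans (map_one f).symm))
  apply h1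
  exact Pool.Agent.H27.Rigid.kill Pool.Agent.H27.QBar.qbar_isAlgebraic (φ.comp (f.subgroupMap Pool.Agent.H27.Gp2.G)) (by
    rintro _ ⟨x, rfl⟩ hfin
    exact h2 _ ⟨f.subgroupMap _ x, rfl⟩ hfin)

end Pool.Agent.S0248
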