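-- Proof of the frozen statement S0251.
import Pool.Statements.S0251
import Pool.Agent.H8.SdfFC

set_option autoImplicit false
open Pool Pool.MP_102156_al

namespace Pool.Agent.S0251

/-- Suppose G is a periodic, residually finite group in which every conjugacy class is finite, and whose abelianization is a direct sum of cyclic groups. Then G embeds in the restricted direct product of some family of finite groups. -/
theorem result :
    ∀ (G : Type) [Group G],
      Monoid.IsTorsion G →
      (∀ g : G, {h : G | IsConj g h}.Finite) →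
      (∀ g : G, g ≠ 1 → ∃ N : Subgroup G, N.Normal ∧ N.FiniteIndex ∧ g ∉ N) →
      (∃ (J : Type) (C : J → Type) (_ : ∀ j, AddCommGroup (C j)),
          (∀ j, IsAddCyclic (C j)) ∧
          Nonempty (Additive (Abelianization G) ≃+ Π₀ j, C j)) →
      ∃ (I : Type) (H : I → Type) (_ : ∀ i, Group (H i)) (_ : ∀ i, Finite (H i))
        (f : G →* ∀ i, H i),
        Function.Injective f ∧ ∀ g : G, {i : I | f g i ≠ 1}.Finite := by
  classical
  intro G _ ht hfc hRF hdec
  obtain ⟨J, C, inst, hcyc, ⟨e⟩⟩ := hdec
  have hfin : ∀ j, Finite (C j) := by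
    intro j
    obtain ⟨g, hg⟩ := (hcyc j).exists_generator
    have hord : IsOfFinAddOrder g := by
      obtain ⟨a, ha⟩ := e.surjective (DFinsupp.single j g)
      obtain ⟨x, hx⟩ : ∃ x : G, Additive.ofMul (Abelianization.of x) = a :=
        QuotientGroup.mk'_surjective (commutator G) (Additive.toMul a)
      have h1 := ht x
      rw [isOfFinOrder_iff_pow_eq_one] at h1
      obtain ⟨k, hk, hk'⟩ := h1
      rw [isOfFinAddOrder_iff_nsmul_eq_zero]
      refine ⟨k, hk, ?_⟩
      have h2 : k • a = 0 := by
        rw [← hx, ← ofMul_pow, ← map_pow, hk', map_one]; rfl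
      have h4 : k • (DFinsupp.single j g : Π₀ j, C j) = 0 := by
        rw [← ha, ← map_nsmul, h2, map_zero]
      have h5 := congrArg (fun f : Π₀ j, C j => f j) h4
      simpa using h5
    have h6 : (AddSubgroup.zmultiples g : Set (C j)).Finite := finite_zmultiples.mpr hord
    have h7 : (AddSubgroup.zmultiples g : Set (C j)) = Set.univ := by
      rw [Set.eq_univ_iff_forall]
      intro x
      exact hg x
    rw [h7] at h6
    exact Set.finite_univ_iff.mp h6
  let e' : (Π₀ j, C j) ≃+ Π₀ j, ZMod (Nat.card (C j)) :=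
    DFinsupp.mapRange.addEquiv (fun j => (zmodAddCyclicAddEquiv (hcyc j)).symm)
  obtain ⟨π, D⟩ := Pool.Agent.H8Sdf.dec_of_equiv
    (fun j => (Nat.card_pos (α := C j)).ne') (e.trans e')
  exact Pool.Agent.H8Sdf.main D (Pool.Agent.H8Sdf.ln_of_fc ht hfc) hRF

end Pool.Agent.S0251
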