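import Pool.Statements.S0269
-- import your own Pool.Agent.* helpers here

set_option autoImplicit false
open Pool Pool.MP_18df54_al

namespace Pool.Agent.S0269

/-- The index type of a basis of `V`, `dim V = 28`. -/
abbrev Idx := Fin 14 × Bool

/-- The ring `k + V + V (x) V` (tensor algebra of `V = k^28` truncated in degree `3`), `k` the rationals. -/
@[ext] structure TT where
  a : ℚ
  v : Idx → ℚ
  M : Idx → Idx → ℚ

namespace TT

instance : Zero TT := ⟨⟨0, fun _ => 0, fun _ _ => 0⟩⟩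
instance : One TT := ⟨⟨1, fun _ => 0, fun _ _ => 0⟩⟩
instance : Add TT := ⟨fun x y => ⟨x.a + y.a, fun i => x.v i + y.v i, fun i j => x.M i j + y.M i j⟩⟩
instance : Neg TT := ⟨fun x => ⟨-x.a, fun i => -x.v i, fun i j => -x.M i j⟩⟩
instance : Sub TT := ⟨fun x y => ⟨x.a - y.a, fun i => x.v i - y.v i, fun i j => x.M i j - y.M i j⟩⟩
instance : Mul TT := ⟨fun x y => ⟨x.a * y.a, fun i => x.a * y.v i + x.v i * y.a,
  fun i j => x.a * y.M i j + x.M i j * y.a + x.v i * y.v j⟩⟩

@[simp] lemma zero_a : (0 : TT).a = 0 := rfl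
@[simp] lemma zero_v (i) : (0 : TT).v i = 0 := rfl
@[simp] lemma zero_M (i j) : (0 : TT).M i j = 0 := rfl
@[simp] lemma one_a : (1 : TT).a = 1 := rfl
@[simp] lemma one_v (i) : (1 : TT).v i = 0 := rfl
@[simp] lemma one_M (i j) : (1 : TT).M i j = 0 := rfl
@[simp] lemma add_a (x y : TT) : (x + y).a = x.a + y.a := rfl
@[simp] lemma add_v (x y : TT) (i) : (x + y).v i = x.v i + y.v i := rfl
@[simp] lemma add_M (x y : TT) (i j) : (x + y).M i j = x.M i j + y.M i j := rfl
@[simp] lemma neg_a (x : TT) : (-x).a = -x.a := rfl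
@[simp] lemma neg_v (x : TT) (i) : (-x).v i = -x.v i := rfl
@[simp] lemma neg_M (x : TT) (i j) : (-x).M i j = -x.M i j := rfl
@[simp] lemma sub_a (x y : TT) : (x - y).a = x.a - y.a := rfl
@[simp] lemma sub_v (x y : TT) (i) : (x - y).v i = x.v i - y.v i := rfl
@[simp] lemma sub_M (x y : TT) (i j) : (x - y).M i j = x.M i j - y.M i j := rfl
@[simp] lemma mul_a (x y : TT) : (x * y).a = x.a * y.a := rfl
@[simp] lemma mul_v (x y : TT) (i) : (x * y).v i = x.a * y.v i + x.v i * y.a := rfl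
@[simp] lemma mul_M (x y : TT) (i j) :
    (x * y).M i j = x.a * y.M i j + x.M i j * y.a + x.v i * y.v j := rfl

instance : Ring TT where
  add_assoc x y z := by ext <;> simp <;> ring
  zero_add x := by ext <;> simp
  add_zero x := by ext <;> simp
  add_comm x y := by ext <;> simp <;> ring
  left_distrib x y z := by ext <;> simp <;> ring
  right_distrib x y z := by ext <;> simp <;> ring
  zero_mul x := by ext <;> simp
  mul_zero x := by ext <;> simp
  mul_assoc x y z := by ext <;> simp <;> ring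
  one_mul x := by ext <;> simp
  mul_one x := by ext <;> simp
  neg_add_cancel x := by ext <;> simp
  sub_eq_add_neg x y := by ext <;> simp <;> ring
  nsmul := nsmulRec
  zsmul := zsmulRec

/-- degree-zero part -/
def aHom : TT →+* ℚ where
  toFun := TT.a
  map_one' := rfl
  map_mul' _ _ := rfl
  map_zero' := rfl
  map_add' _ _ := rfl

/-- the map to the dual numbers attached to a functional `f` and a basis index `s` -/
def phi (f : Idx → ℚ) (s : Idx) : TT →+ DualNumber ℚ where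
  toFun x := TrivSqZeroExt.inl x.a + TrivSqZeroExt.inr (∑ i, f i * x.M i s)
  map_zero' := by ext <;> simp
  map_add' x y := by
    ext
    · simp
    · simp [mul_add, Finset.sum_add_distrib]

lemma phi_mul (f : Idx → ℚ) (s : Idx) (x y : TT) (hx : ∑ i, f i * x.v i = 0) :
    phi f s (x * y) = phi f s x * phi f s y := by
  ext
  · simp [phi]
  · simp only [phi, AddMonoidHom.coe_mk, ZeroHom.coe_mk, TrivSqZeroExt.snd_add,
      TrivSqZeroExt.snd_inl, TrivSqZeroExt.snd_inr, zero_add, TrivSqZeroExt.snd_mul,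
      TrivSqZeroExt.fst_add, TrivSqZeroExt.fst_inl, TrivSqZeroExt.fst_inr, add_zero, mul_M,
      smul_eq_mul, MulOpposite.smul_eq_mul_unop, MulOpposite.unop_op]
    have : ∀ i, f i * (x.a * y.M i s + x.M i s * y.a + x.v i * y.v s)
        = x.a * (f i * y.M i s) + (f i * x.M i s) * y.a + (f i * x.v i) * y.v s := by
      intro i; ring
    simp only [this, Finset.sum_add_distrib, ← Finset.mul_sum, ← Finset.sum_mul, hx]
    ring

lemma phi_one (f : Idx → ℚ) (s : Idx) : phi f s 1 = 1 := by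
  ext <;> simp [phi]

end TT

open TT

abbrev Mat := Matrix (Fin 3) (Fin 3) TT

lemma map_phi_mul (f : Idx → ℚ) (s : Idx) (X Y : Mat)
    (hX : ∀ p q, ∑ i, f i * (X p q).v i = 0) :
    (X * Y).map (phi f s) = X.map (phi f s) * Y.map (phi f s) := by
  ext1 p q
  simp only [Matrix.map_apply, Matrix.mul_apply, map_sum]
  exact Finset.sum_congr rfl fun r _ => phi_mul f s _ _ (hX p r)

lemma map_phi_one (f : Idx → ℚ) (s : Idx) : (1 : Mat).map (phi f s) = 1 := by
  ext1 p q
  by_cases h : p = q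
  · subst h; simp [phi_one]
  · simp [h]

/-- the tensor `sum_k (e_k (x) e_k' - e_k' (x) e_k)` -/
def J : Idx → Idx → ℚ := fun p q =>
  if p.1 = q.1 then (if p.2 = q.2 then 0 else if p.2 then 1 else -1) else 0

/-- element of degree two -/
def U (N : Idx → Idx → ℚ) : TT := ⟨1, fun _ => 0, N⟩

/-- the matrix `diag (1 + N, 1, 1)` -/
def D (N : Idx → Idx → ℚ) : Mat := !![U N, 0, 0; 0, 1, 0; 0, 0, 1]

/-- the matrix `g` -/
def G : Mat := !![U J, 1, 0; 0, 1, 0; 0, 0, 1]

/-- the elementary group -/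
abbrev E : Subgroup (Mat)ˣ := Subgroup.closure
          {u : (Matrix (Fin 3) (Fin 3) TT)ˣ |
            ∃ i j : Fin 3, ∃ c : TT, i ≠ j ∧
              (u : Matrix (Fin 3) (Fin 3) TT) = 1 + Matrix.single i j c}

/-- there is a nonzero functional killing the degree-one parts of the entries of three matrices -/
lemma exists_f (X Y Z : Mat) : ∃ f : Idx → ℚ, f ≠ 0 ∧
    (∀ p q, ∑ i, f i * (X p q).v i = 0) ∧
    (∀ p q, ∑ i, f i * (Y p q).v i = 0) ∧
    (∀ p q, ∑ i, f i * (Z p q).v i = 0) := by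
  let w : (Fin 3 × Fin 3) ⊕ ((Fin 3 × Fin 3) ⊕ (Fin 3 × Fin 3)) → Idx → ℚ :=
    Sum.elim (fun t => (X t.1 t.2).v) (Sum.elim (fun t => (Y t.1 t.2).v) (fun t => (Z t.1 t.2).v))
  let L : (Idx → ℚ) →ₗ[ℚ] ((Fin 3 × Fin 3) ⊕ ((Fin 3 × Fin 3) ⊕ (Fin 3 × Fin 3)) → ℚ) :=
    { toFun := fun f t => ∑ i, f i * w t i
      map_add' := by intro f g; ext t; simp [add_mul, Finset.sum_add_distrib]
      map_smul' := by intro c f; ext t; simp [Finset.mul_sum, mul_assoc] }
  have hker : LinearMap.ker L ≠ ⊥ := by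
    apply LinearMap.ker_ne_bot_of_finrank_lt
    simp [Module.finrank_fintype_fun_eq_card]
  obtain ⟨f, hf, hf0⟩ := (Submodule.ne_bot_iff _).1 hker
  refine ⟨f, hf0, ?_, ?_, ?_⟩
  · intro p q; exact congrFun (LinearMap.mem_ker.1 hf) (Sum.inl (p, q))
  · intro p q; exact congrFun (LinearMap.mem_ker.1 hf) (Sum.inr (Sum.inl (p, q)))
  · intro p q; exact congrFun (LinearMap.mem_ker.1 hf) (Sum.inr (Sum.inr (p, q)))

lemma exists_s (f : Idx → ℚ) (hf : f ≠ 0) : ∃ s, ∑ i, f i * J i s ≠ 0 := by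
  obtain ⟨⟨k, b⟩, hk⟩ := Function.ne_iff.1 hf
  refine ⟨(k, !b), ?_⟩
  rw [Finset.sum_eq_single (k, b)]
  · cases b <;> simpa [J] using hk
  · rintro ⟨k', b'⟩ - hne
    by_cases h : k' = k
    · subst h
      cases b <;> cases b' <;> simp_all [J]
    · simp [J, h]
  · simp

lemma not_comm (x y : (Mat)ˣ) (h : G = (x : Mat) * y * (x⁻¹ : (Mat)ˣ) * (y⁻¹ : (Mat)ˣ)) : False := by
  obtain ⟨f, hf, h1, h2, h3⟩ := exists_f x y (x⁻¹ : (Mat)ˣ)
  obtain ⟨s, hs⟩ := exists_s f hf
  have e1 : (x : Mat).map (phi f s) * ((x⁻¹ : (Mat)ˣ) : Mat).map (phi f s) = 1 := by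
    rw [← map_phi_mul f s _ _ h1, Units.mul_inv, map_phi_one]
  have e2 : (y : Mat).map (phi f s) * ((y⁻¹ : (Mat)ˣ) : Mat).map (phi f s) = 1 := by
    rw [← map_phi_mul f s _ _ h2, Units.mul_inv, map_phi_one]
  have e3 : G.map (phi f s) = (x : Mat).map (phi f s) * ((y : Mat).map (phi f s) *
      (((x⁻¹ : (Mat)ˣ) : Mat).map (phi f s) * ((y⁻¹ : (Mat)ˣ) : Mat).map (phi f s))) := by
    rw [h, mul_assoc, mul_assoc, map_phi_mul f s _ _ h1, map_phi_mul f s _ _ h2,
      map_phi_mul f s _ _ h3]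
  have d1 := congrArg Matrix.det e1
  have d2 := congrArg Matrix.det e2
  have d3 := congrArg Matrix.det e3
  simp only [Matrix.det_mul, Matrix.det_one] at d1 d2 d3
  have d4 : (G.map (phi f s)).det = 1 := by
    rw [d3]
    calc _ = (((x : Mat).map (phi f s)).det * (((x⁻¹ : (Mat)ˣ) : Mat).map (phi f s)).det) *
        (((y : Mat).map (phi f s)).det * (((y⁻¹ : (Mat)ˣ) : Mat).map (phi f s)).det) := by ring
      _ = 1 := by rw [d1, d2, one_mul]
  have d5 : (G.map (phi f s)).det = phi f s (U J) := by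
    rw [Matrix.det_fin_three]
    simp [G, phi_one]
  rw [d5] at d4
  have d6 := congrArg TrivSqZeroExt.snd d4
  simp [phi, U] at d6
  exact hs d6

lemma mat_ext3 {X Y : Mat} (h : ∀ i j, X i j = Y i j) : X = Y := by
  ext1 i j; exact h i j

/-- elementary matrices as units -/
def el (i j : Fin 3) (hij : i ≠ j) (c : TT) : (Mat)ˣ where
  val := 1 + Matrix.single i j c
  inv := 1 - Matrix.single i j c
  val_inv := by
    have : Matrix.single i j c * Matrix.single i j c = (0 : Mat) :=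
      Matrix.single_mul_single_of_ne _ _ _ _ (Ne.symm hij) _
    rw [add_mul, one_mul, mul_sub, mul_one, this]; abel
  inv_val := by
    have : Matrix.single i j c * Matrix.single i j c = (0 : Mat) :=
      Matrix.single_mul_single_of_ne _ _ _ _ (Ne.symm hij) _
    rw [sub_mul, one_mul, mul_add, mul_one, this]; abel

lemma el_mem (i j : Fin 3) (hij : i ≠ j) (c : TT) : el i j hij c ∈ E :=
  Subgroup.subset_closure ⟨i, j, c, hij, rfl⟩

lemma el01 (c : TT) : (el 0 1 (by decide) c : Mat) = !![1, c, 0; 0, 1, 0; 0, 0, 1] := by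
  apply mat_ext3
  intro i j; fin_cases i <;> fin_cases j <;> simp [el, Matrix.single]

lemma el10 (c : TT) : (el 1 0 (by decide) c : Mat) = !![1, 0, 0; c, 1, 0; 0, 0, 1] := by
  apply mat_ext3
  intro i j; fin_cases i <;> fin_cases j <;> simp [el, Matrix.single]

lemma el02 (c : TT) : (el 0 2 (by decide) c : Mat) = !![1, 0, c; 0, 1, 0; 0, 0, 1] := by
  apply mat_ext3
  intro i j; fin_cases i <;> fin_cases j <;> simp [el, Matrix.single]

lemma el20 (c : TT) : (el 2 0 (by decide) c : Mat) = !![1, 0, 0; 0, 1, 0; c, 0, 1] := by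
  apply mat_ext3
  intro i j; fin_cases i <;> fin_cases j <;> simp [el, Matrix.single]

lemma h12_mem (a b : TT) (hab : a * b = 1) (hba : b * a = 1) :
    ∃ u ∈ E, (u : Mat) = !![a, 0, 0; 0, b, 0; 0, 0, 1] := by
  refine ⟨el 0 1 (by decide) a * el 1 0 (by decide) (-b) * el 0 1 (by decide) a *
    (el 0 1 (by decide) (-1) * el 1 0 (by decide) 1 * el 0 1 (by decide) (-1)), ?_, ?_⟩
  · exact mul_mem (mul_mem (mul_mem (el_mem _ _ _ _) (el_mem _ _ _ _)) (el_mem _ _ _ _))
      (mul_mem (mul_mem (el_mem _ _ _ _) (el_mem _ _ _ _)) (el_mem _ _ _ _))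
  · simp only [Units.val_mul, el01, el10]
    apply mat_ext3
    intro i j; fin_cases i <;> fin_cases j <;>
      simp [Matrix.mul_apply, Fin.sum_univ_three, hab, hba]

lemma h13_mem (a b : TT) (hab : a * b = 1) (hba : b * a = 1) :
    ∃ u ∈ E, (u : Mat) = !![a, 0, 0; 0, 1, 0; 0, 0, b] := by
  refine ⟨el 0 2 (by decide) a * el 2 0 (by decide) (-b) * el 0 2 (by decide) a *
    (el 0 2 (by decide) (-1) * el 2 0 (by decide) 1 * el 0 2 (by decide) (-1)), ?_, ?_⟩
  · exact mul_mem (mul_mem (mul_mem (el_mem _ _ _ _) (el_mem _ _ _ _)) (el_mem _ _ _ _))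
      (mul_mem (mul_mem (el_mem _ _ _ _) (el_mem _ _ _ _)) (el_mem _ _ _ _))
  · simp only [Units.val_mul, el02, el20]
    apply mat_ext3
    intro i j; fin_cases i <;> fin_cases j <;>
      simp [Matrix.mul_apply, Fin.sum_univ_three, hab, hba]

/-- degree-one vector `v` as the unit `1 + v` and its inverse -/
def V1 (v : Idx → ℚ) : TT := ⟨1, v, fun _ _ => 0⟩
def V2 (v : Idx → ℚ) : TT := ⟨1, fun i => -v i, fun i j => v i * v j⟩

lemma V12 (v : Idx → ℚ) : V1 v * V2 v = 1 := by
  ext <;> simp [V1, V2]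

lemma V21 (v : Idx → ℚ) : V2 v * V1 v = 1 := by
  ext <;> simp [V1, V2]

lemma V_comm (v w : Idx → ℚ) :
    V1 v * V1 w * V2 v * V2 w = U (fun i j => v i * w j - w i * v j) := by
  ext <;> simp [V1, V2, U]
  ring

lemma D_comm_mem (v w : Idx → ℚ) :
    ∃ u ∈ E, (u : Mat) = D (fun i j => v i * w j - w i * v j) := by
  obtain ⟨u1, hu1, e1⟩ := h12_mem _ _ (V12 v) (V21 v)
  obtain ⟨u2, hu2, e2⟩ := h13_mem _ _ (V12 w) (V21 w)
  obtain ⟨u3, hu3, e3⟩ := h12_mem _ _ (V21 v) (V12 v)
  obtain ⟨u4, hu4, e4⟩ := h13_mem _ _ (V21 w) (V12 w)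
  refine ⟨u1 * u2 * u3 * u4, mul_mem (mul_mem (mul_mem hu1 hu2) hu3) hu4, ?_⟩
  simp only [Units.val_mul, e1, e2, e3, e4]
  apply mat_ext3
  intro i j; fin_cases i <;> fin_cases j <;>
      simp [Matrix.mul_apply, Fin.sum_univ_three, D, V_comm, V12, V21]

lemma D_add (N N' : Idx → Idx → ℚ) : D N * D N' = D (N + N') := by
  have h : U N * U N' = U (N + N') := by
    ext <;> simp [U]
    ring
  apply mat_ext3
  intro i j; fin_cases i <;> fin_cases j <;>
      simp [Matrix.mul_apply, Fin.sum_univ_three, D, h]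

lemma D_zero : D 0 = 1 := by
  have h : U 0 = 1 := by
    ext <;> simp [U]
  apply mat_ext3
  intro i j; fin_cases i <;> fin_cases j <;>
      simp [D, h]

/-- basis vector -/
def bv (k : Fin 14) (b : Bool) : Idx → ℚ := fun p => if p = (k, b) then 1 else 0

lemma D_sum_mem (s : Finset (Fin 14)) :
    ∃ u ∈ E, (u : Mat) = D (∑ k ∈ s, fun i j => bv k true i * bv k false j - bv k false i * bv k true j) := by
  induction s using Finset.induction_on with
  | empty => exact ⟨1, one_mem _, by simp [D_zero]⟩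
  | insert k s hk ih =>
    obtain ⟨u, hu, e⟩ := ih
    obtain ⟨u', hu', e'⟩ := D_comm_mem (bv k true) (bv k false)
    refine ⟨u' * u, mul_mem hu' hu, ?_⟩
    rw [Units.val_mul, e, e', D_add, Finset.sum_insert hk]

lemma J_eq : (∑ k : Fin 14, fun i j => bv k true i * bv k false j - bv k false i * bv k true j) = J := by
  funext p q
  obtain ⟨k1, b1⟩ := p
  obtain ⟨k2, b2⟩ := q
  simp only [Finset.sum_apply]
  rw [Finset.sum_eq_single k1]
  · by_cases h : k1 = k2
    · subst h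
      cases b1 <;> cases b2 <;> simp [bv, J]
    · have h' : ¬ k2 = k1 := fun e => h e.symm
      simp [bv, J, h, h']
  · intro b _ hb
    have hb' : ¬ k1 = b := fun e => hb e.symm
    simp [bv, hb']
  · simp

lemma G_mem : ∃ u ∈ E, (u : Mat) = G := by
  obtain ⟨u, hu, e⟩ := D_sum_mem Finset.univ
  rw [J_eq] at e
  refine ⟨el 0 1 (by decide) 1 * u, mul_mem (el_mem _ _ _ _) hu, ?_⟩
  rw [Units.val_mul, e, el01]
  apply mat_ext3
  intro i j; fin_cases i <;> fin_cases j <;>
      simp [Matrix.mul_apply, Fin.sum_univ_three, D, G]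

/-- There exist n > 2, a ring A with 1, and a matrix g in the group generated by elementary matrices in GL_n(A), such that g is nonscalar modulo every proper two-sided ideal and g is not x y x⁻¹ y⁻¹ for any x, y in GL_n(A). -/
theorem result :
    ∃ n : ℕ, 2 < n ∧ ∃ (A : Type) (_ : Ring A),
      ∃ g ∈ Subgroup.closure
          {u : (Matrix (Fin n) (Fin n) A)ˣ |
            ∃ i j : Fin n, ∃ c : A, i ≠ j ∧
              (u : Matrix (Fin n) (Fin n) A) = 1 + Matrix.single i j c},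
        (∀ J : TwoSidedIdeal A, J ≠ ⊤ →
          ¬ ∃ a : A, ∀ i j : Fin n,
            (g : Matrix (Fin n) (Fin n) A) i j - (if i = j then a else 0) ∈ J) ∧
        ∀ x y : (Matrix (Fin n) (Fin n) A)ˣ, g ≠ x * y * x⁻¹ * y⁻¹ := by
  obtain ⟨g, hg, e⟩ := G_mem
  refine ⟨3, by decide, TT, inferInstance, g, hg, ?_, ?_⟩
  · rintro I hI ⟨a, ha⟩
    apply hI
    have h := ha 0 1
    rw [e] at h
    have h1 : (1 : TT) ∈ I := by simpa [G] using h
    exact I.one_mem_iff.1 h1
  · intro x y h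
    apply not_comm x y
    rw [← e, h]
    simp only [Units.val_mul]

end Pool.Agent.S0269
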