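import Pool.Statements.S0276
import Pool.Agent.H26.Inv
-- import your own Pool.Agent.* helpers here

set_option autoImplicit false
open Pool Pool.MP_1a5400_al

namespace Pool.Agent.S0276

/-- The negation of the preceding statement: For every index-2 subgroup S of the free group on two generators, every subgroup R and every isomorphism f from S onto R, some nontrivial subgroup H inside S satisfies f(H) ⊆ H. -/
theorem result :
    ¬ (∀ (S R : Subgroup (FreeGroup (Fin 2))), S.index = 2 →
      ∀ f : S ≃* R,
        ∃ H : Subgroup (FreeGroup (Fin 2)),
          H ≤ S ∧ H ≠ ⊥ ∧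
            ∀ x : S, (x : FreeGroup (Fin 2)) ∈ H → ((f x : R) : FreeGroup (Fin 2)) ∈ H) := by
  exact Pool.Agent.H26.Inv.main

end Pool.Agent.S0276
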