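import Pool.Statements.S0290
-- import your own Pool.Agent.* helpers here

set_option autoImplicit false
open Pool Pool.MP_1d7e2f_al

namespace Pool.Agent.S0290

/-! ### signs -/

def sg (n : ℤ) : ℤ := if n % 2 = 0 then 1 else -1

lemma sg_add (a b : ℤ) : sg (a + b) = sg a * sg b := by
  unfold sg; split_ifs <;> omega

lemma sg_sg_mul (a b : ℤ) : sg (sg a * b) = sg b := by
  unfold sg; split_ifs <;> omega

lemma sg_mul_self (a : ℤ) : sg a * sg a = 1 := by
  unfold sg; split_ifs <;> omega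

lemma sg_neg (a : ℤ) : sg (-a) = sg a := by
  unfold sg; split_ifs <;> omega

lemma sg_zero : sg 0 = 1 := rfl
lemma sg_one : sg 1 = -1 := rfl

lemma sg_cases (a : ℤ) : sg a = 1 ∨ sg a = -1 := by
  unfold sg; split_ifs <;> simp

/-! ### the group `L` -/

structure L where
  v : ℕ →₀ ℤ

namespace L

lemma ext' {a b : L} (h : ∀ i, a.v i = b.v i) : a = b := by
  cases a; cases b
  congr 1
  exact Finsupp.ext h

noncomputable instance : Mul L := ⟨fun k l => ⟨Finsupp.onFinset (k.v.support ∪ l.v.support)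
  (fun i => k.v i + sg (k.v (i + 1)) * l.v i) (by
    intro i hi
    rw [Finset.mem_union, Finsupp.mem_support_iff, Finsupp.mem_support_iff]
    by_contra h
    push Not at h
    apply hi
    rw [h.1, h.2, mul_zero, add_zero])⟩⟩

lemma mul_v (k l : L) (i : ℕ) : (k * l).v i = k.v i + sg (k.v (i + 1)) * l.v i := rfl

noncomputable instance : One L := ⟨⟨0⟩⟩

lemma one_v (i : ℕ) : (1 : L).v i = 0 := rfl

noncomputable instance : Inv L := ⟨fun k => ⟨Finsupp.onFinset k.v.support
  (fun i => -(sg (k.v (i + 1)) * k.v i)) (by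
    intro i hi
    rw [Finsupp.mem_support_iff]
    intro h
    apply hi
    rw [h, mul_zero, neg_zero])⟩⟩

lemma inv_v (k : L) (i : ℕ) : (k⁻¹).v i = -(sg (k.v (i + 1)) * k.v i) := rfl

noncomputable instance : Group L := Group.ofLeftAxioms
  (by
    intro a b c
    apply ext'
    intro i
    simp only [mul_v, sg_add, sg_sg_mul]
    ring)
  (by
    intro a
    apply ext'
    intro i
    simp only [mul_v, one_v, sg_zero]
    ring)
  (by
    intro a
    apply ext'
    intro i
    simp only [mul_v, one_v, inv_v, sg_neg, sg_sg_mul]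
    ring)

/-- shift -/
noncomputable def sh (n : ℕ) : L →* L where
  toFun k := ⟨k.v.comapDomain (fun i => i + n) (fun a _ b _ h => Nat.add_right_cancel h)⟩
  map_one' := ext' fun i => rfl
  map_mul' k l := ext' fun i => by
    show k.v (i + n) + sg (k.v (i + n + 1)) * l.v (i + n) =
      k.v (i + n) + sg (k.v (i + 1 + n)) * l.v (i + n)
    rw [show i + 1 + n = i + n + 1 by omega]

lemma sh_v (n : ℕ) (k : L) (i : ℕ) : (sh n k).v i = k.v (i + n) := rfl

noncomputable def toC (k : L) : Colex (ℕ →₀ ℤ) := toColex k.v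

lemma toC_inj : Function.Injective toC := by
  intro a b h
  have h2 : a.v = b.v := toColex.injective h
  cases a; cases b
  exact congrArg L.mk h2

noncomputable instance : LinearOrder L := LinearOrder.lift' toC toC_inj

lemma lt_iff (a b : L) : a < b ↔ ∃ i, (∀ j, i < j → a.v j = b.v j) ∧ a.v i < b.v i := Iff.rfl

lemma mul_lt {a b : L} (h : a < b) (c : L) : a * c < b * c := by
  rw [lt_iff] at *
  obtain ⟨i, h1, h2⟩ := h
  refine ⟨i, fun j hj => ?_, ?_⟩
  · rw [mul_v, mul_v, h1 j hj, h1 (j + 1) (by omega)]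
  · rw [mul_v, mul_v, h1 (i + 1) (by omega)]
    linarith

end L

/-! ### the big group over abstract data -/

structure Dat (M : Type) [AddCommGroup M] where
  α : L →* AddMonoid.End M
  deg : M →+ ℤ
  deg_α : ∀ l m, deg (α l m) = sg (l.v 0) * deg m

structure GG {M : Type} [AddCommGroup M] (d : Dat M) where
  v : ℕ →₀ M

namespace GG

variable {M : Type} [AddCommGroup M] {d : Dat M}

lemma ext' {a b : GG d} (h : ∀ i, a.v i = b.v i) : a = b := by
  cases a; cases b
  congr 1
  exact Finsupp.ext h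

noncomputable def D (g : GG d) : L := ⟨g.v.mapRange d.deg (map_zero _)⟩

lemma D_v (g : GG d) (i : ℕ) : (D g).v i = d.deg (g.v i) := rfl

open Classical in
noncomputable instance : Mul (GG d) := ⟨fun g h => ⟨Finsupp.onFinset (g.v.support ∪ h.v.support)
  (fun i => g.v i + d.α (L.sh (i + 1) (D g)) (h.v i)) (by
    intro i hi
    rw [Finset.mem_union, Finsupp.mem_support_iff, Finsupp.mem_support_iff]
    by_contra h
    push Not at h
    apply hi
    rw [h.1, h.2, map_zero, add_zero])⟩⟩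

lemma mul_v (g h : GG d) (i : ℕ) :
    (g * h).v i = g.v i + d.α (L.sh (i + 1) (D g)) (h.v i) := rfl

noncomputable instance : One (GG d) := ⟨⟨0⟩⟩

lemma one_v (i : ℕ) : (1 : GG d).v i = 0 := rfl

noncomputable instance : Inv (GG d) := ⟨fun g => ⟨Finsupp.onFinset g.v.support
  (fun i => -(d.α (L.sh (i + 1) (D g))⁻¹ (g.v i))) (by
    intro i hi
    rw [Finsupp.mem_support_iff]
    intro h
    apply hi
    rw [h, map_zero, neg_zero])⟩⟩

lemma inv_v (g : GG d) (i : ℕ) :
    (g⁻¹).v i = -(d.α (L.sh (i + 1) (D g))⁻¹ (g.v i)) := rfl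

lemma D_mul (g h : GG d) : D (g * h) = D g * D h := by
  apply L.ext'
  intro i
  rw [D_v, mul_v, map_add, d.deg_α, L.mul_v, D_v, D_v, D_v, L.sh_v, D_v, Nat.zero_add]

lemma D_one : D (1 : GG d) = 1 := by
  apply L.ext'
  intro i
  rw [D_v, one_v, map_zero, L.one_v]

lemma D_inv (g : GG d) : D (g⁻¹) = (D g)⁻¹ := by
  apply L.ext'
  intro i
  rw [D_v, inv_v, map_neg, d.deg_α, L.inv_v, L.inv_v, D_v, D_v, L.sh_v, L.sh_v, D_v, D_v,
    sg_neg, sg_sg_mul, Nat.zero_add]

noncomputable instance : Group (GG d) := Group.ofLeftAxioms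
  (by
    intro a b c
    apply ext'
    intro i
    simp only [mul_v, D_mul, map_mul, map_add]
    rw [add_assoc]
    rfl)
  (by
    intro a
    apply ext'
    intro i
    simp only [mul_v, one_v, D_one, map_one]
    rw [zero_add]
    rfl)
  (by
    intro a
    apply ext'
    intro i
    simp only [mul_v, one_v, inv_v, D_inv, map_inv]
    rw [neg_add_cancel])

/-- `D` as a homomorphism -/
noncomputable def Dh : GG d →* L where
  toFun := D
  map_one' := D_one
  map_mul' := D_mul

/-- parity -/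
def par : L →* (ℕ → Multiplicative (ZMod 2)) where
  toFun l := fun i => Multiplicative.ofAdd ((l.v i : ℤ) : ZMod 2)
  map_one' := by
    funext i
    rw [L.one_v]
    rfl
  map_mul' k l := by
    funext i
    show Multiplicative.ofAdd (((k * l).v i : ℤ) : ZMod 2) =
      Multiplicative.ofAdd (((k.v i : ℤ) : ZMod 2) + ((l.v i : ℤ) : ZMod 2))
    congr 1
    rw [L.mul_v]
    rcases sg_cases (k.v (i + 1)) with h | h <;> rw [h]
    · push_cast; ring
    · push_cast
      have : (-1 : ZMod 2) = 1 := by decide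
      rw [this, one_mul]

lemma L_solvable : Group.IsSolvable L := by
  have : Group.IsSolvable par.ker := by
    apply Group.isSolvable_of_comm
    rintro ⟨a, ha⟩ ⟨b, hb⟩
    apply Subtype.ext
    show a * b = b * a
    have key : ∀ c : L, c ∈ par.ker → ∀ i, sg (c.v i) = 1 := by
      intro c hc i
      have h1 := congrFun hc i
      have h2 : ((c.v i : ℤ) : ZMod 2) = 0 := h1
      rw [ZMod.intCast_zmod_eq_zero_iff_dvd] at h2
      unfold sg
      rw [if_pos]
      exact Int.emod_eq_zero_of_dvd h2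
    apply L.ext'
    intro i
    rw [L.mul_v, L.mul_v, key a ha, key b hb]
    ring
  have : Group.IsSolvable (ℕ → Multiplicative (ZMod 2)) := Group.isSolvable_of_comm fun a b => mul_comm a b
  exact Group.isSolvable_of_ker_le_range par.ker.subtype par (by simp)

lemma solvable : Group.IsSolvable (GG d) := by
  have : Group.IsSolvable (Dh (d := d)).ker := by
    apply Group.isSolvable_of_comm
    rintro ⟨a, ha⟩ ⟨b, hb⟩
    apply Subtype.ext
    show a * b = b * a
    have ha' : D a = 1 := ha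
    have hb' : D b = 1 := hb
    apply ext'
    intro i
    rw [mul_v, mul_v, ha', hb', map_one, map_one]
    exact add_comm _ _
  have := L_solvable
  exact Group.isSolvable_of_ker_le_range (Dh (d := d)).ker.subtype Dh (by simp)

/-- element living on one level -/
noncomputable def e (i : ℕ) (m : M) : GG d := ⟨Finsupp.single i m⟩

lemma e_v_same (i : ℕ) (m : M) : (e (d := d) i m).v i = m := Finsupp.single_eq_same

lemma e_v_ne {i j : ℕ} (h : j ≠ i) (m : M) : (e (d := d) i m).v j = 0 :=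
  Finsupp.single_eq_of_ne h

/-- element of `L` living on one level -/
noncomputable def el (n : ℤ) : L := ⟨Finsupp.single 0 n⟩

lemma el_v_zero (n : ℤ) : (el n).v 0 = n := Finsupp.single_eq_same
lemma el_v_succ (n : ℤ) (i : ℕ) : (el n).v (i + 1) = 0 := Finsupp.single_eq_of_ne (by omega)

lemma sh_D_e {i j : ℕ} (h : i < j) (m : M) : L.sh j (D (e (d := d) i m)) = 1 := by
  apply L.ext'
  intro k
  rw [L.sh_v, D_v, e_v_ne (by omega), map_zero, L.one_v]

lemma sh_D_e_self {i : ℕ} (m : M) : L.sh i (D (e (d := d) i m)) = el (d.deg m) := by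
  apply L.ext'
  intro k
  rw [L.sh_v, D_v]
  cases k with
  | zero => rw [Nat.zero_add, e_v_same, el_v_zero]
  | succ k => rw [e_v_ne (by omega), map_zero, el_v_succ]

lemma e_mul (i : ℕ) (m m' : M) : e (d := d) i m * e i m' = e i (m + m') := by
  apply ext'
  intro j
  rw [mul_v]
  rcases eq_or_ne j i with h | h
  · subst h
    rw [e_v_same, e_v_same, e_v_same, sh_D_e (by omega), map_one]
    rfl
  · rw [e_v_ne h, e_v_ne h, e_v_ne h, map_zero, add_zero]

lemma e_conj (i : ℕ) (u m : M) :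
    e (d := d) (i + 1) u * e i m = e i (d.α (el (d.deg u)) m) * e (i + 1) u := by
  apply ext'
  intro j
  rw [mul_v, mul_v]
  rcases eq_or_ne j i with h | h
  · subst h
    rw [e_v_same, e_v_same, e_v_ne (by omega), sh_D_e_self, map_zero, zero_add, add_zero]
  · rcases eq_or_ne j (i + 1) with h' | h'
    · subst h'
      rw [e_v_same, e_v_ne h, e_v_ne h, map_zero, add_zero, zero_add, sh_D_e (by omega), map_one]
      rfl
    · rw [e_v_ne h, e_v_ne h, e_v_ne h', map_zero, map_zero]

/-- restriction to the levels `< n` -/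
lemma of_sq (hT : ∀ m : M, ∃ m', m + m = d.α (el 1) m' - m') (hu : ∃ u : M, d.deg u = 1)
    (i : ℕ) (m : M) : (Abelianization.of (e (d := d) i m)) ^ 2 = 1 := by
  obtain ⟨m', hm'⟩ := hT m
  obtain ⟨u, hu⟩ := hu
  have h1 := congrArg (Abelianization.of (G := GG d)) (e_conj (d := d) i u m')
  rw [map_mul, map_mul, hu, mul_comm (Abelianization.of (e (i + 1) u))] at h1
  have h2 : Abelianization.of (e (d := d) i m') = Abelianization.of (e i (d.α (el 1) m')) :=
    mul_right_cancel h1
  have h3 : e (d := d) i (m + m) * e i m' = e i (d.α (el 1) m') := by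
    rw [e_mul, hm', sub_add_cancel]
  have h4 := congrArg (Abelianization.of (G := GG d)) h3
  rw [map_mul, ← h2] at h4
  have h5 : Abelianization.of (e (d := d) i (m + m)) = 1 := mul_eq_right.1 h4
  rw [← e_mul, map_mul] at h5
  rw [pow_two, h5]

lemma peel (n : ℕ) (g : GG d) (hg : ∀ i, n + 1 ≤ i → g.v i = 0) :
    ∃ g' : GG d, (∀ i, n ≤ i → g'.v i = 0) ∧ g = g' * e n (g.v n) := by
  refine ⟨⟨g.v.erase n⟩, ?_, ?_⟩
  · intro i hi
    show (g.v.erase n) i = 0
    rcases eq_or_ne i n with h | h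
    · rw [h, Finsupp.erase_same]
    · rw [Finsupp.erase_ne h, hg i (by omega)]
  · apply ext'
    intro i
    rw [mul_v]
    show g.v i = (g.v.erase n) i + _
    rcases eq_or_ne i n with h | h
    · subst h
      rw [Finsupp.erase_same, e_v_same, zero_add]
      have : L.sh (i + 1) (D (d := d) ⟨g.v.erase i⟩) = 1 := by
        apply L.ext'
        intro k
        rw [L.sh_v, D_v, L.one_v]
        show d.deg ((g.v.erase i) (k + (i + 1))) = 0
        rw [Finsupp.erase_ne (by omega), hg _ (by omega), map_zero]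
      rw [this, map_one]
      rfl
    · rw [Finsupp.erase_ne h, e_v_ne h, map_zero, add_zero]

lemma abel_sq (hT : ∀ m : M, ∃ m', m + m = d.α (el 1) m' - m') (hu : ∃ u : M, d.deg u = 1) :
    ∀ (n : ℕ) (g : GG d), (∀ i, n ≤ i → g.v i = 0) → (Abelianization.of g) ^ 2 = 1 := by
  intro n
  induction n with
  | zero =>
    intro g hg
    have : g = 1 := ext' fun i => by rw [hg i (Nat.zero_le _), one_v]
    rw [this, map_one, one_pow]
  | succ n ih =>
    intro g hg
    obtain ⟨g', h1, h2⟩ := peel n g hg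
    rw [h2, map_mul, mul_pow, ih g' h1, of_sq hT hu, one_mul]

lemma abel_fin (hT : ∀ m : M, ∃ m', m + m = d.α (el 1) m' - m') (hu : ∃ u : M, d.deg u = 1)
    (x : Abelianization (GG d)) : IsOfFinOrder x := by
  obtain ⟨g, rfl⟩ : ∃ g, Abelianization.of g = x := QuotientGroup.mk_surjective x
  rw [isOfFinOrder_iff_pow_eq_one]
  refine ⟨2, by norm_num, abel_sq hT hu (g.v.support.sup id + 1) g ?_⟩
  intro i hi
  by_contra h
  have := Finset.le_sup (f := id) (Finsupp.mem_support_iff.2 h)
  simp only [id] at this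
  omega

/-! order -/

variable [LinearOrder M]

noncomputable def toC (k : GG d) : Colex (ℕ →₀ M) := toColex k.v

lemma toC_inj : Function.Injective (toC (d := d)) := by
  intro a b h
  have h2 : a.v = b.v := toColex.injective h
  cases a; cases b
  exact congrArg GG.mk h2

noncomputable instance : LinearOrder (GG d) := LinearOrder.lift' toC toC_inj

lemma lt_iff (a b : GG d) : a < b ↔ ∃ i, (∀ j, i < j → a.v j = b.v j) ∧ a.v i < b.v i := Iff.rfl

variable [IsOrderedAddMonoid M]

lemma mulLeftMono (hα : ∀ l (m m' : M), m < m' → d.α l m < d.α l m') : MulLeftMono (GG d) := by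
  constructor
  intro c a b hab
  rcases eq_or_lt_of_le hab with h | h
  · rw [h]
  · apply le_of_lt
    show c * a < c * b
    rw [lt_iff] at *
    obtain ⟨i, h1, h2⟩ := h
    refine ⟨i, fun j hj => ?_, ?_⟩
    · rw [mul_v, mul_v, h1 j hj]
    · rw [mul_v, mul_v]
      exact add_lt_add_right (hα _ _ _ h2) _

lemma mulRightMono : MulRightMono (GG d) := by
  constructor
  intro c a b hab
  rcases eq_or_lt_of_le hab with h | h
  · rw [h]
  · apply le_of_lt
    show a * c < b * c
    rw [lt_iff] at *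
    obtain ⟨i, h1, h2⟩ := h
    have h3 : ∀ j, i ≤ j → L.sh (j + 1) (D a) = L.sh (j + 1) (D b) := by
      intro j hj
      apply L.ext'
      intro k
      rw [L.sh_v, L.sh_v, D_v, D_v, h1 _ (by omega)]
    refine ⟨i, fun j hj => ?_, ?_⟩
    · rw [mul_v, mul_v, h1 j hj, h3 j (by omega)]
    · rw [mul_v, mul_v, h3 i le_rfl]
      exact add_lt_add_left h2 _

end GG


/-! ### the concrete module -/

open Polynomial in
/-- rational functions of `τ` with poles only at `0` and `1` -/
noncomputable def A (τ : ℝ) : Submodule ℚ ℝ where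
  carrier := {a | ∃ (p : ℚ[X]) (i j : ℕ), a * (τ ^ i * (τ - 1) ^ j) = aeval τ p}
  zero_mem' := ⟨0, 0, 0, by simp⟩
  add_mem' := by
    rintro a b ⟨p, i, j, h⟩ ⟨q, k, l, h'⟩
    refine ⟨p * (X ^ k * (X - 1) ^ l) + q * (X ^ i * (X - 1) ^ j), i + k, j + l, ?_⟩
    simp only [map_add, map_mul, map_pow, aeval_X, map_sub, map_one]
    rw [← h, ← h']
    ring
  smul_mem' := by
    rintro c a ⟨p, i, j, h⟩
    refine ⟨C c * p, i, j, ?_⟩
    rw [map_mul, aeval_C, ← h, Rat.smul_def]
    simp only [eq_ratCast]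
    ring

open Polynomial in
lemma A_one (τ : ℝ) : (1 : ℝ) ∈ A τ := ⟨1, 0, 0, by simp⟩

open Polynomial in
lemma A_mul {τ a : ℝ} (ha : a ∈ A τ) : τ * a ∈ A τ := by
  obtain ⟨p, i, j, h⟩ := ha
  refine ⟨X * p, i, j, ?_⟩
  rw [map_mul, aeval_X, ← h]
  ring

open Polynomial in
lemma A_inv {τ a : ℝ} (hτ : 1 < τ) (ha : a ∈ A τ) : τ⁻¹ * a ∈ A τ := by
  obtain ⟨p, i, j, h⟩ := ha
  refine ⟨p, i + 1, j, ?_⟩
  rw [← h, pow_succ]
  have : τ ≠ 0 := by linarith
  field_simp

open Polynomial in
lemma A_sub {τ a : ℝ} (hτ : 1 < τ) (ha : a ∈ A τ) : (τ - 1)⁻¹ * a ∈ A τ := by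
  obtain ⟨p, i, j, h⟩ := ha
  refine ⟨p, i, j + 1, ?_⟩
  rw [← h, pow_succ]
  have : τ - 1 ≠ 0 := by linarith
  field_simp

structure Env where
  τ : ℝ
  h1 : 1 < τ
  f : ℝ →ₗ[ℚ] ℚ
  f1 : f 1 = 1
  fτ : ∀ a ∈ A τ, f (τ * a) = - f a

lemma exists_tau : ∃ τ : ℝ, 1 < τ ∧ Transcendental ℚ τ := by
  by_contra h
  push Not at h
  have h1 : (Set.Ioi (1 : ℝ)).Countable := by
    refine (Algebraic.countable ℚ ℝ).mono ?_
    intro τ hτ
    have := h τ hτ
    unfold Transcendental at this
    exact not_not.1 this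
  have h2 := Cardinal.mk_Ioi_real 1
  rw [← Set.countable_coe_iff, ← Cardinal.mk_le_aleph0_iff, h2] at h1
  exact absurd Cardinal.aleph0_lt_continuum (not_lt.2 h1)

open Polynomial in
lemma exists_env : Nonempty Env := by
  obtain ⟨τ, h1, ht⟩ := exists_tau
  let B : Submodule ℚ ℝ := (A τ).map (LinearMap.mulLeft ℚ (τ + 1))
  have hB : (1 : ℝ) ∉ B := by
    rintro ⟨a, ⟨p, i, j, h⟩, h'⟩
    have h'' : (τ + 1) * a = 1 := h'
    have h2 : aeval τ (X ^ i * (X - 1) ^ j - (X + 1) * p : ℚ[X]) = 0 := by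
      simp only [map_add, map_mul, map_pow, aeval_X, map_sub, map_one]
      rw [← h]
      have : (τ + 1) * (a * (τ ^ i * (τ - 1) ^ j)) = ((τ + 1) * a) * (τ ^ i * (τ - 1) ^ j) := by
        ring
      rw [this, h'']
      ring
    have h3 := (transcendental_iff.1 ht) _ h2
    have h4 := congrArg (eval (-1 : ℚ)) h3
    simp only [eval_sub, eval_mul, eval_pow, eval_X, eval_one, eval_add, eval_zero] at h4
    have h5 : ((-1 : ℚ)) ^ i * (-1 - 1) ^ j = 0 := by linarith
    have h6 : ((-1 : ℚ)) ^ i * (-1 - 1) ^ j ≠ 0 := by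
      apply mul_ne_zero <;> apply pow_ne_zero <;> norm_num
    exact h6 h5
  obtain ⟨f, hf⟩ := LinearMap.exists_extend_of_notMem (0 : B →ₗ[ℚ] ℚ) hB 1
  refine ⟨⟨τ, h1, f, hf.2, ?_⟩⟩
  intro a ha
  have h2 : f ((τ + 1) * a) = 0 := by
    have : (τ + 1) * a ∈ B := ⟨a, ha, rfl⟩
    have h3 := congrArg (fun g : B →ₗ[ℚ] ℚ => g ⟨_, this⟩) hf.1
    exact h3
  have h3 : (τ + 1) * a = τ * a + a := by ring
  rw [h3, map_add] at h2
  linarith

section conc
variable (E : Env)

lemma tau_pos : 0 < E.τ := by have := E.h1; linarith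

lemma f_zpow (n : ℤ) : ∀ a ∈ A E.τ, E.τ ^ n * a ∈ A E.τ ∧ E.f (E.τ ^ n * a) = sg n * E.f a := by
  have h0 := (tau_pos E).ne'
  induction n using Int.induction_on with
  | zero => intro a ha; simpa [sg_zero] using ha
  | succ n ih =>
    intro a ha
    obtain ⟨h1, h2⟩ := ih a ha
    have h3 : E.τ ^ ((n : ℤ) + 1) * a = E.τ * (E.τ ^ (n : ℤ) * a) := by
      rw [zpow_add_one₀ h0]; ring
    rw [h3, E.fτ _ h1, h2, sg_add, sg_one]
    refine ⟨A_mul h1, ?_⟩
    push_cast; ring
  | pred n ih =>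
    intro a ha
    obtain ⟨h1, h2⟩ := ih a ha
    have h3 : E.τ ^ (-(n : ℤ) - 1) * a = E.τ⁻¹ * (E.τ ^ (-(n : ℤ)) * a) := by
      rw [zpow_sub_one₀ h0]; ring
    have h4 := A_inv E.h1 h1
    have h5 := E.fτ _ h4
    rw [← mul_assoc, mul_inv_cancel₀ h0, one_mul, h2] at h5
    rw [h3]
    refine ⟨h4, ?_⟩
    have h6 : sg (-(n : ℤ) - 1) = - sg (-(n : ℤ)) := by
      unfold sg; split_ifs <;> omega
    rw [h6]
    push_cast
    linarith

noncomputable def F : (L →₀ ℝ) →+ ℚ := Finsupp.liftAddHom (fun _ => E.f.toAddMonoidHom)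

lemma F_apply (m : L →₀ ℝ) : F E m = m.sum (fun _ a => E.f a) := rfl

noncomputable def M0 : AddSubgroup (L →₀ ℝ) where
  carrier := {m | (∀ x, m x ∈ A E.τ) ∧ ∃ n : ℤ, F E m = n}
  zero_mem' := ⟨fun x => (A E.τ).zero_mem, 0, by simp⟩
  add_mem' := by
    rintro a b ⟨ha, n, hn⟩ ⟨hb, k, hk⟩
    refine ⟨fun x => (A E.τ).add_mem (ha x) (hb x), n + k, ?_⟩
    rw [map_add, hn, hk]; push_cast; rfl
  neg_mem' := by
    rintro a ⟨ha, n, hn⟩
    refine ⟨fun x => (A E.τ).neg_mem (ha x), -n, ?_⟩
    rw [map_neg, hn]; push_cast; rfl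

def M : Type := M0 E

noncomputable instance : AddCommGroup (M E) := inferInstanceAs (AddCommGroup (M0 E))

noncomputable def M.toC (k : M E) : Colex (L →₀ ℝ) := toColex k.1

lemma M.toC_inj : Function.Injective (M.toC E) := by
  intro a b h
  exact Subtype.ext (toColex.injective h)

noncomputable instance : LinearOrder (M E) := LinearOrder.lift' (M.toC E) (M.toC_inj E)

variable {E} in
lemma M.lt_iff (a b : M E) : a < b ↔
    ∃ i, (∀ j, i < j → a.1 j = b.1 j) ∧ a.1 i < b.1 i := Iff.rfl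

instance : IsOrderedAddMonoid (M E) where
  add_le_add_left := by
    intro a b hab c
    rcases eq_or_lt_of_le hab with h | h
    · rw [h]
    · apply le_of_lt
      rw [M.lt_iff] at *
      obtain ⟨i, h1, h2⟩ := h
      refine ⟨i, fun j hj => ?_, ?_⟩
      · show a.1 j + c.1 j = b.1 j + c.1 j
        rw [h1 j hj]
      · show a.1 i + c.1 i < b.1 i + c.1 i
        linarith

noncomputable def deg : M E →+ ℤ := AddMonoidHom.mk' (fun m => m.2.2.choose) (by
  intro a b
  have h1 := a.2.2.choose_spec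
  have h2 := b.2.2.choose_spec
  have h3 := (a + b).2.2.choose_spec
  have h4 : F E (a + b).1 = F E a.1 + F E b.1 := map_add _ _ _
  have h5 := h3.symm.trans (h4.trans (congrArg₂ (· + ·) h1 h2))
  exact_mod_cast h5)

lemma deg_spec (m : M E) : F E m.1 = (deg E m : ℤ) := m.2.2.choose_spec

open Classical in
noncomputable def act (l : L) (m : L →₀ ℝ) : L →₀ ℝ :=
  Finsupp.onFinset (m.support.image (fun y => y * (L.sh 1 l)⁻¹))
    (fun x => E.τ ^ (sg (x.v 0) * l.v 0) * m (x * L.sh 1 l)) (by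
      intro x hx
      rw [Finset.mem_image]
      refine ⟨x * L.sh 1 l, ?_, by group⟩
      rw [Finsupp.mem_support_iff]
      intro h
      apply hx
      rw [h, mul_zero])

lemma act_apply (l : L) (m : L →₀ ℝ) (x : L) :
    act E l m x = E.τ ^ (sg (x.v 0) * l.v 0) * m (x * L.sh 1 l) := rfl

lemma act_A (l : L) {m : L →₀ ℝ} (hm : ∀ x, m x ∈ A E.τ) (x : L) : act E l m x ∈ A E.τ := by
  rw [act_apply]
  exact (f_zpow E _ _ (hm _)).1

lemma F_act (l : L) {m : L →₀ ℝ} (hm : ∀ x, m x ∈ A E.τ) :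
    F E (act E l m) = sg (l.v 0) * F E m := by
  classical
  rw [F_apply, F_apply, act, Finsupp.onFinset_sum _ (fun _ => map_zero _), Finset.sum_image,
    Finsupp.sum, Finset.mul_sum]
  · refine Finset.sum_congr rfl fun y _ => ?_
    rw [(f_zpow E _ _ (hm _)).2, sg_sg_mul, inv_mul_cancel_right]
  · intro a _ b _ h
    exact mul_right_cancel h

lemma act_one (m : L →₀ ℝ) : act E 1 m = m := by
  ext x
  rw [act_apply, L.one_v, mul_zero, zpow_zero, one_mul, map_one, mul_one]

lemma act_mul (k l : L) (m : L →₀ ℝ) : act E (k * l) m = act E k (act E l m) := by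
  ext x
  have h1 : x * L.sh 1 (k * l) = x * L.sh 1 k * L.sh 1 l := by
    rw [map_mul (L.sh 1), mul_assoc]
  rw [act_apply, act_apply, act_apply, h1, ← mul_assoc (E.τ ^ _),
    ← zpow_add₀ (tau_pos E).ne']
  congr 2
  rw [L.mul_v, L.mul_v, L.sh_v, Nat.zero_add, sg_add, sg_sg_mul]
  ring

lemma act_add (l : L) (m m' : L →₀ ℝ) : act E l (m + m') = act E l m + act E l m' := by
  ext x
  rw [Finsupp.add_apply, act_apply, act_apply, act_apply, Finsupp.add_apply, mul_add]

lemma act_zero (l : L) : act E l 0 = 0 := by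
  ext x
  rw [act_apply, Finsupp.zero_apply, mul_zero]
  rfl

lemma act_M0 (l : L) {m : L →₀ ℝ} (hm : m ∈ M0 E) : act E l m ∈ M0 E := by
  obtain ⟨h1, n, hn⟩ := hm
  refine ⟨act_A E l h1, sg (l.v 0) * n, ?_⟩
  rw [F_act E l h1, hn]
  push_cast; rfl

noncomputable def alpha : L →* AddMonoid.End (M E) where
  toFun l :=
    { toFun := fun m => ⟨act E l m.1, act_M0 E l m.2⟩
      map_zero' := Subtype.ext (act_zero E l)
      map_add' := fun m m' => Subtype.ext (act_add E l m.1 m'.1) }
  map_one' := by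
    ext m
    exact Subtype.ext (act_one E m.1)
  map_mul' k l := by
    ext m
    exact Subtype.ext (act_mul E k l m.1)

lemma alpha_val (l : L) (m : M E) : (alpha E l m).1 = act E l m.1 := rfl

noncomputable def dat : Dat (M E) where
  α := alpha E
  deg := deg E
  deg_α l m := by
    have h1 := deg_spec E (alpha E l m)
    rw [alpha_val, F_act E l m.2.1, deg_spec] at h1
    exact_mod_cast h1.symm

lemma alpha_mono (l : L) (m m' : M E) (h : m < m') : alpha E l m < alpha E l m' := by
  rw [M.lt_iff] at *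
  obtain ⟨i, h1, h2⟩ := h
  refine ⟨i * (L.sh 1 l)⁻¹, fun j hj => ?_, ?_⟩
  · rw [alpha_val, alpha_val, act_apply, act_apply, h1]
    have := L.mul_lt hj (L.sh 1 l)
    rwa [inv_mul_cancel_right] at this
  · rw [alpha_val, alpha_val, act_apply, act_apply, inv_mul_cancel_right]
    exact mul_lt_mul_of_pos_left h2 (zpow_pos (tau_pos E) _)

/-- the inverse of `T - 1` -/
noncomputable def cc (x : L) : ℝ := if sg (x.v 0) = 1 then (E.τ - 1)⁻¹ else -(E.τ * (E.τ - 1)⁻¹)

lemma cc_eq (x : L) : E.τ ^ (sg (x.v 0)) * cc E x - cc E x = 1 := by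
  have h0 := (tau_pos E).ne'
  have h1 : E.τ - 1 ≠ 0 := by have := E.h1; linarith
  unfold cc
  rcases sg_cases (x.v 0) with h | h
  · rw [if_pos h, h, zpow_one]
    field_simp
  · rw [h, if_neg (by norm_num), zpow_neg_one]
    field_simp
    ring

lemma cc_A (x : L) {a : ℝ} (ha : a ∈ A E.τ) : cc E x * a ∈ A E.τ := by
  unfold cc
  split_ifs
  · exact A_sub E.h1 ha
  · have : -(E.τ * (E.τ - 1)⁻¹) * a = -(E.τ * ((E.τ - 1)⁻¹ * a)) := by ring
    rw [this]
    exact (A E.τ).neg_mem (A_mul (A_sub E.h1 ha))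

lemma sh_el (n : ℤ) : L.sh 1 (GG.el n) = 1 := by
  apply L.ext'
  intro i
  rw [L.sh_v, GG.el_v_succ, L.one_v]

lemma hT (m : M E) : ∃ m', m + m = (dat E).α (GG.el 1) m' - m' := by
  let m' : L →₀ ℝ := Finsupp.onFinset m.1.support (fun x => cc E x * (m.1 x + m.1 x)) (by
    intro x hx
    rw [Finsupp.mem_support_iff]
    intro h
    apply hx
    rw [h, add_zero, mul_zero])
  have hm' : ∀ x, m' x = cc E x * (m.1 x + m.1 x) := fun x => rfl
  have hA : ∀ x, m' x ∈ A E.τ := by
    intro x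
    rw [hm']
    exact cc_A E x ((A E.τ).add_mem (m.2.1 x) (m.2.1 x))
  have heq : act E (GG.el 1) m' = (m.1 + m.1) + m' := by
    ext x
    rw [act_apply, sh_el, mul_one, GG.el_v_zero, mul_one, Finsupp.add_apply, Finsupp.add_apply,
      hm', ← mul_assoc]
    have := cc_eq E x
    have h2 : E.τ ^ sg (x.v 0) * cc E x = 1 + cc E x := by linarith
    rw [h2]
    ring
  have hF : F E m' = -(deg E m : ℤ) := by
    have h1 := F_act E (GG.el 1) hA
    rw [heq, map_add, map_add, deg_spec, GG.el_v_zero, sg_one] at h1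
    push_cast at h1
    linarith
  have hmem : m' ∈ M0 E := ⟨hA, -(deg E m), by rw [hF]; push_cast; rfl⟩
  let w : M E := ⟨m', hmem⟩
  have hw : m + m + w = alpha E (GG.el 1) w := Subtype.ext heq.symm
  exact ⟨w, eq_sub_of_add_eq hw⟩

lemma hu : ∃ u : M E, (dat E).deg u = 1 := by
  have hF : F E (Finsupp.single 1 1) = 1 := by
    rw [F_apply, Finsupp.sum_single_index (h := fun _ a => E.f a) (map_zero E.f), E.f1]
  let u : M E := ⟨Finsupp.single 1 1, by
    refine ⟨fun x => ?_, 1, by rw [hF]; push_cast; rfl⟩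
    classical
    rw [Finsupp.single_apply]
    split_ifs
    · exact A_one _
    · exact (A E.τ).zero_mem⟩
  refine ⟨u, ?_⟩
  have h1 := deg_spec E u
  have h2 : F E u.1 = 1 := hF
  rw [h2] at h1
  show deg E u = 1
  exact_mod_cast h1.symm

end conc

/-- The negation of the preceding statement: Every nontrivial solvable group with a total order invariant under left and right multiplication has an abelianization G/G' containing an element of infinite order. -/
theorem result :
    ¬ (∀ (G : Type) [Group G] [LinearOrder G] [MulLeftMono G] [MulRightMono G]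
      [Nontrivial G], IsSolvable G → ∃ x : Abelianization G, ¬ IsOfFinOrder x) := by
  intro H
  obtain ⟨E⟩ := exists_env
  have i1 : MulLeftMono (GG (dat E)) := GG.mulLeftMono (alpha_mono E)
  have i2 : MulRightMono (GG (dat E)) := GG.mulRightMono
  have i3 : Nontrivial (GG (dat E)) := by
    obtain ⟨u, hu⟩ := hu E
    refine ⟨GG.e 0 u, 1, fun h => ?_⟩
    have h1 : (GG.e (d := dat E) 0 u).v 0 = (1 : GG (dat E)).v 0 := by rw [h]
    rw [GG.e_v_same, GG.one_v] at h1
    rw [h1, map_zero] at hu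
    exact absurd hu (by norm_num)
  obtain ⟨x, hx⟩ := H (GG (dat E)) GG.solvable
  exact hx (GG.abel_fin (hT E) (hu E) x)

end Pool.Agent.S0290
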