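import Pool.Statements.S0299
-- import your own Pool.Agent.* helpers here

set_option autoImplicit false
open Pool Pool.MP_21aa77_al

namespace Pool.Agent.S0299

/-- `g` permutes the dyadic blocks of every level. -/
def Pres (g : Equiv.Perm ℕ) : Prop := ∀ k x y : ℕ, x / 2 ^ k = y / 2 ^ k ↔ g x / 2 ^ k = g y / 2 ^ k

/-- `g` fixes everything from `2 ^ N` on. -/
def Bdd (N : ℕ) (g : Equiv.Perm ℕ) : Prop := ∀ x, 2 ^ N ≤ x → g x = x

lemma Bdd.mono {N M : ℕ} (h : N ≤ M) {g : Equiv.Perm ℕ} (hg : Bdd N g) : Bdd M g :=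
  fun x hx => hg x ((Nat.pow_le_pow_right (by norm_num) h).trans hx)

lemma Pres.one : Pres 1 := fun _ _ _ => Iff.rfl

lemma Pres.mul {g h : Equiv.Perm ℕ} (hg : Pres g) (hh : Pres h) : Pres (g * h) :=
  fun k x y => (hh k x y).trans (hg k (h x) (h y))

lemma Pres.inv {g : Equiv.Perm ℕ} (hg : Pres g) : Pres g⁻¹ := by
  intro k x y
  have := hg k (g⁻¹ x) (g⁻¹ y)
  rw [show g (g⁻¹ x) = x from g.apply_symm_apply x,
    show g (g⁻¹ y) = y from g.apply_symm_apply y] at this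
  exact this.symm

lemma Bdd.mul {N : ℕ} {g h : Equiv.Perm ℕ} (hg : Bdd N g) (hh : Bdd N h) : Bdd N (g * h) := by
  intro x hx
  rw [Equiv.Perm.mul_apply, hh x hx, hg x hx]

lemma Bdd.inv {N : ℕ} {g : Equiv.Perm ℕ} (hg : Bdd N g) : Bdd N g⁻¹ := by
  intro x hx
  rw [Equiv.Perm.inv_eq_iff_eq]
  exact (hg x hx).symm

lemma Bdd.lt {N : ℕ} {g : Equiv.Perm ℕ} (hg : Bdd N g) {x : ℕ} (hx : x < 2 ^ N) : g x < 2 ^ N := by
  by_contra h
  have h1 := hg (g x) (not_lt.mp h)
  have h2 := g.injective h1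
  omega

/-- The union of the iterated wreath products of groups of order two. -/
def W : Subgroup (Equiv.Perm ℕ) where
  carrier := {g | Pres g ∧ ∃ N, Bdd N g}
  mul_mem' := by
    rintro g h ⟨hg, N, hN⟩ ⟨hh, M, hM⟩
    exact ⟨hg.mul hh, max N M, (hN.mono (le_max_left _ _)).mul (hM.mono (le_max_right _ _))⟩
  one_mem' := ⟨Pres.one, 0, fun _ _ => rfl⟩
  inv_mem' := by
    rintro g ⟨hg, N, hN⟩
    exact ⟨hg.inv, N, hN.inv⟩

/-- The subgroup of elements supported on `[0, 2 ^ N)`. -/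
def WN (N : ℕ) : Subgroup W where
  carrier := {g | Bdd N g.1}
  mul_mem' := fun hg hh => Bdd.mul hg hh
  one_mem' := fun _ _ => rfl
  inv_mem' := fun hg => Bdd.inv hg

lemma finite_WN (N : ℕ) : Finite (WN N) := by
  let f : WN N → (Fin (2 ^ N) → Fin (2 ^ N)) := fun g i => ⟨g.1.1 i, Bdd.lt g.2 i.2⟩
  apply Finite.of_injective f
  intro g h hgh
  apply Subtype.ext
  apply Subtype.ext
  apply Equiv.ext
  intro x
  by_cases hx : x < 2 ^ N
  · have := congrFun hgh ⟨x, hx⟩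
    exact congrArg Fin.val this
  · rw [g.2 x (not_lt.mp hx), h.2 x (not_lt.mp hx)]

lemma level (N : ℕ) (g : Equiv.Perm ℕ) (hg : Pres g) (hN : Bdd N g) :
    ∀ j : ℕ, j ≤ N → ∀ x, (g ^ 2 ^ j) x / 2 ^ (N - j) = x / 2 ^ (N - j) := by
  intro j
  induction j with
  | zero =>
    intro _ x
    simp only [pow_zero, pow_one, Nat.sub_zero]
    by_cases hx : x < 2 ^ N
    · rw [Nat.div_eq_of_lt hx, Nat.div_eq_of_lt (hN.lt hx)]
    · rw [hN x (not_lt.mp hx)]
  | succ j ih =>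
    intro hj x
    have hpow : ∀ n : ℕ, Pres (g ^ n) := by
      intro n
      induction n with
      | zero => exact Pres.one
      | succ n ih => rw [pow_succ]; exact ih.mul hg
    set h := g ^ 2 ^ j with hh
    have hP : Pres h := hpow _
    have ih' := ih (by omega)
    set k := N - (j + 1) with hk
    have hk1 : N - j = k + 1 := by omega
    rw [hk1] at ih'
    have e : (g ^ 2 ^ (j + 1)) x = h (h x) := by
      rw [pow_succ, pow_mul, pow_two, ← hh, Equiv.Perm.mul_apply]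
    rw [e]
    have h1 := ih' x
    have h2 := ih' (h x)
    rw [pow_succ, ← Nat.div_div_eq_div_mul, ← Nat.div_div_eq_div_mul] at h1 h2
    have h3 := hP k x (h x)
    omega

lemma isPGroup : IsPGroup 2 W := by
  rintro ⟨g, hg, N, hN⟩
  refine ⟨N, ?_⟩
  apply Subtype.ext
  apply Equiv.ext
  intro x
  have := level N g hg hN N le_rfl x
  simpa using this

lemma exists_bound (s : Set W) (hs : s.Finite) : ∃ N, s ⊆ WN N := by
  induction s, hs using Set.Finite.induction_on with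
  | empty => exact ⟨0, by simp⟩
  | @insert a s _ _ ih =>
    obtain ⟨N, hN⟩ := ih
    obtain ⟨M, hM⟩ := a.2.2
    refine ⟨max N M, ?_⟩
    intro x hx
    rcases Set.mem_insert_iff.mp hx with rfl | hx
    · exact hM.mono (le_max_right _ _)
    · exact Bdd.mono (le_max_left _ _) (hN hx)

lemma locallyFinite (s : Set W) (hs : s.Finite) : Finite ↥(Subgroup.closure s) := by
  obtain ⟨N, hN⟩ := exists_bound s hs
  have hle : Subgroup.closure s ≤ WN N := (Subgroup.closure_le _).mpr hN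
  have := finite_WN N
  exact Finite.of_injective (Subgroup.inclusion hle) (Subgroup.inclusion_injective hle)

instance : Countable W := by
  have h : (Set.univ : Set W) = ⋃ N, (WN N : Set W) := by
    ext g
    simp only [Set.mem_univ, Set.mem_iUnion, true_iff]
    exact g.2.2
  rw [← Set.countable_univ_iff, h]
  apply Set.countable_iUnion
  intro N
  have := finite_WN N
  exact (Set.toFinite (WN N : Set W)).countable

/-- the involution exchanging `[0, 2 ^ m)` and `[2 ^ m, 2 ^ (m + 1))` -/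
def sw (m x : ℕ) : ℕ := if x < 2 ^ m then x + 2 ^ m else if x < 2 ^ m + 2 ^ m then x - 2 ^ m else x

lemma sw_sw (m x : ℕ) : sw m (sw m x) = x := by
  unfold sw
  split_ifs <;> omega

lemma sw_div (m k x : ℕ) (hk : k ≤ m) : sw m x / 2 ^ k = sw (m - k) (x / 2 ^ k) := by
  obtain ⟨j, rfl⟩ := Nat.exists_eq_add_of_le hk
  have hj : k + j - k = j := by omega
  rw [hj]
  have hpos : 0 < 2 ^ k := by positivity
  have e : 2 ^ (k + j) = 2 ^ j * 2 ^ k := by rw [pow_add, mul_comm]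
  unfold sw
  have h1 : x < 2 ^ (k + j) ↔ x / 2 ^ k < 2 ^ j := by
    rw [Nat.div_lt_iff_lt_mul hpos, e]
  have h2 : x < 2 ^ (k + j) + 2 ^ (k + j) ↔ x / 2 ^ k < 2 ^ j + 2 ^ j := by
    rw [Nat.div_lt_iff_lt_mul hpos, e, add_mul]
  by_cases c1 : x < 2 ^ (k + j)
  · rw [if_pos c1, if_pos (h1.mp c1), e, Nat.add_mul_div_right _ _ hpos]
  · rw [if_neg c1, if_neg (fun h => c1 (h1.mpr h))]
    by_cases c2 : x < 2 ^ (k + j) + 2 ^ (k + j)
    · rw [if_pos c2, if_pos (h2.mp c2), e, mul_comm (2 ^ j) (2 ^ k), Nat.sub_mul_div]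
    · rw [if_neg c2, if_neg (fun h => c2 (h2.mpr h))]

lemma sw_div' (m k x : ℕ) (hk : m < k) : sw m x / 2 ^ k = x / 2 ^ k := by
  have hle : 2 ^ m + 2 ^ m ≤ 2 ^ k := by
    calc 2 ^ m + 2 ^ m = 2 ^ (m + 1) := by ring
      _ ≤ 2 ^ k := Nat.pow_le_pow_right (by norm_num) hk
  unfold sw
  split_ifs with h1 h2
  · rw [Nat.div_eq_of_lt (by omega), Nat.div_eq_of_lt (by omega)]
  · rw [Nat.div_eq_of_lt (by omega), Nat.div_eq_of_lt (by omega)]
  · rfl

def swp (m : ℕ) : Equiv.Perm ℕ where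
  toFun := sw m
  invFun := sw m
  left_inv := sw_sw m
  right_inv := sw_sw m

lemma swp_mem (m : ℕ) : swp m ∈ W := by
  refine ⟨?_, m + 1, ?_⟩
  · have h : ∀ k x y : ℕ, x / 2 ^ k = y / 2 ^ k → sw m x / 2 ^ k = sw m y / 2 ^ k := by
      intro k x y hxy
      by_cases hk : k ≤ m
      · rw [sw_div m k x hk, sw_div m k y hk, hxy]
      · rw [sw_div' m k x (not_le.mp hk), sw_div' m k y (not_le.mp hk), hxy]
    intro k x y
    refine ⟨h k x y, ?_⟩
    intro hh
    have := h k _ _ hh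
    change sw m (sw m x) / 2 ^ k = sw m (sw m y) / 2 ^ k at this
    rwa [sw_sw, sw_sw] at this
  · intro x hx
    have e : 2 ^ (m + 1) = 2 ^ m + 2 ^ m := by ring
    rw [e] at hx
    change sw m x = x
    unfold sw
    rw [if_neg (by omega), if_neg (by omega)]

def σ (m : ℕ) : W := ⟨swp m, swp_mem m⟩

lemma σ_apply (m x : ℕ) : (σ m).1 x = sw m x := rfl

lemma σ_inv_apply (m x : ℕ) : (σ m)⁻¹.1 x = sw m x := rfl

/-- A conjugate of an element supported on `[0, 2 ^ m)`, supported on `[2 ^ m, 2 ^ (m + 1))`. -/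
lemma supp_conj (m : ℕ) (g : W) (hg : Bdd m g.1) (x : ℕ) (hx : x < 2 ^ m ∨ 2 ^ m + 2 ^ m ≤ x) :
    ((σ m)⁻¹ * g * σ m).1 x = x := by
  have e : ((σ m)⁻¹ * g * σ m).1 x = sw m (g.1 (sw m x)) := rfl
  rw [e]
  have h1 : 2 ^ m ≤ sw m x := by
    unfold sw
    rcases hx with hx | hx
    · rw [if_pos hx]; omega
    · rw [if_neg (by omega), if_neg (by omega)]; omega
  rw [hg _ h1, sw_sw]

lemma supp_conj_range (m : ℕ) (g : W) (hg : Bdd m g.1) (x : ℕ) (hx : 2 ^ m ≤ x)
    (hx' : x < 2 ^ m + 2 ^ m) :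
    2 ^ m ≤ ((σ m)⁻¹ * g * σ m).1 x ∧ ((σ m)⁻¹ * g * σ m).1 x < 2 ^ m + 2 ^ m := by
  have e : ((σ m)⁻¹ * g * σ m).1 x = sw m (g.1 (sw m x)) := rfl
  rw [e]
  have h1 : sw m x < 2 ^ m := by
    unfold sw
    rw [if_neg (by omega), if_pos hx']; omega
  have h2 := hg.lt h1
  have h3 : sw m (g.1 (sw m x)) = g.1 (sw m x) + 2 ^ m := by
    conv_lhs => unfold sw
    have : (if x < 2 ^ m then x + 2 ^ m else if x < 2 ^ m + 2 ^ m then x - 2 ^ m else x) = sw m x :=
      rfl
    rw [this, if_pos h2]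
  rw [h3]
  omega

lemma conj_comm (m n : ℕ) (hmn : m < n) (g h : W) (hg : Bdd m g.1) (hh : Bdd n h.1) :
    ((σ m)⁻¹ * g * σ m) * ((σ n)⁻¹ * h * σ n) = ((σ n)⁻¹ * h * σ n) * ((σ m)⁻¹ * g * σ m) := by
  have hle : 2 ^ m + 2 ^ m ≤ 2 ^ n := by
    calc 2 ^ m + 2 ^ m = 2 ^ (m + 1) := by ring
      _ ≤ 2 ^ n := Nat.pow_le_pow_right (by norm_num) hmn
  set a := (σ m)⁻¹ * g * σ m with ha
  set b := (σ n)⁻¹ * h * σ n with hb
  apply Subtype.ext
  apply Equiv.ext
  intro x
  change a.1 (b.1 x) = b.1 (a.1 x)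
  by_cases h1 : 2 ^ m ≤ x ∧ x < 2 ^ m + 2 ^ m
  · have h2 := supp_conj_range m g hg x h1.1 h1.2
    rw [← ha] at h2
    rw [hb, supp_conj n h hh x (Or.inl (by omega)), supp_conj n h hh (a.1 x) (Or.inl (by omega))]
  · rw [ha, supp_conj m g hg x (by omega)]
    by_cases h3 : 2 ^ n ≤ x ∧ x < 2 ^ n + 2 ^ n
    · have h4 := supp_conj_range n h hh x h3.1 h3.2
      rw [← hb] at h4
      exact supp_conj m g hg _ (Or.inr (by omega))
    · rw [hb, supp_conj n h hh x (by omega), supp_conj m g hg x (by omega)]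

/-- There is a prime p and a locally finite p-group G with a proper abelian subgroup A such that every element of G lies in some conjugate of A. -/
theorem result :
    ∃ (p : ℕ) (G : Type) (_ : Group G) (A : Subgroup G),
      p.Prime ∧ IsPGroup p G ∧
      (∀ s : Set G, s.Finite → Finite ↥(Subgroup.closure s)) ∧
      A ≠ ⊤ ∧
      (∀ a ∈ A, ∀ b ∈ A, a * b = b * a) ∧
      (∀ g : G, ∃ x : G, x⁻¹ * g * x ∈ A) := by
  obtain ⟨e, he⟩ := exists_injective_nat W
  have hN : ∀ g : W, ∃ N, Bdd N g.1 := fun g => g.2.2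
  choose N hN using hN
  let m : W → ℕ := fun g => Nat.pair (e g) (N g)
  have hm1 : ∀ g, Bdd (m g) g.1 := fun g => (hN g).mono (Nat.right_le_pair _ _)
  have hm2 : ∀ g h, g ≠ h → m g ≠ m h := by
    intro g h hgh hmm
    have := Nat.pair_eq_pair.mp hmm
    exact hgh (he this.1)
  let S : Set W := {x | ∃ g, x = (σ (m g))⁻¹ * g * σ (m g)}
  have hS : ∀ x ∈ S, ∀ y ∈ S, x * y = y * x := by
    rintro x ⟨g, rfl⟩ y ⟨h, rfl⟩
    by_cases hgh : g = h
    · rw [hgh]
    · rcases lt_or_gt_of_ne (hm2 g h hgh) with hlt | hlt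
      · exact conj_comm _ _ hlt g h (hm1 g) (hm1 h)
      · exact (conj_comm _ _ hlt h g (hm1 h) (hm1 g)).symm
  have hA : ∀ a ∈ Subgroup.closure S, ∀ b ∈ Subgroup.closure S, a * b = b * a := by
    intro a ha b hb
    have h1 : Subgroup.closure S ≤ Subgroup.centralizer S := by
      rw [Subgroup.closure_le]
      intro x hx
      rw [SetLike.mem_coe, Subgroup.mem_centralizer_iff]
      intro y hy
      exact hS y hy x hx
    have h2 : Subgroup.closure S ≤ Subgroup.centralizer (Subgroup.closure S : Set W) := by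
      rw [Subgroup.closure_le]
      intro x hx
      rw [SetLike.mem_coe, Subgroup.mem_centralizer_iff]
      intro y hy
      have := Subgroup.mem_centralizer_iff.mp (h1 hy) x hx
      exact this.symm
    exact (Subgroup.mem_centralizer_iff.mp (h2 ha) b hb).symm
  refine ⟨2, W, inferInstance, Subgroup.closure S, Nat.prime_two, isPGroup, locallyFinite, ?_, hA,
    ?_⟩
  · intro htop
    have h1 := hA (σ 0) (by rw [htop]; exact Subgroup.mem_top _) (σ 1)
      (by rw [htop]; exact Subgroup.mem_top _)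
    have h2 := congrArg (fun f : W => f.1 2) h1
    have h3 : sw 0 (sw 1 2) = sw 1 (sw 0 2) := h2
    exact absurd h3 (by decide)
  · intro g
    exact ⟨σ (m g), Subgroup.subset_closure ⟨g, rfl⟩⟩

end Pool.Agent.S0299
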