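import Pool.Statements.S0309
import Pool.Agent.H17.Uni7
-- import your own Pool.Agent.* helpers here

set_option autoImplicit false
open Pool Pool.MP_23cc9e_al

namespace Pool.Agent.S0309

/-- For every group G satisfying all quasi-identities true in every torsion-free nilpotent group, the restricted wreath product of G by the integers also satisfies all those quasi-identities. -/
theorem result :
    ∀ (G : Type) [Group G],
      (∀ (n : ℕ) (ps : List (FreeGroup (Fin n))) (w : FreeGroup (Fin n)),
        (∀ (N : Type) [Group N], Group.IsNilpotent N →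
          (∀ g : N, g ≠ 1 → ∀ k : ℕ, 0 < k → g ^ k ≠ 1) →
          ∀ f : FreeGroup (Fin n) →* N, (∀ p ∈ ps, f p = 1) → f w = 1) →
        ∀ f : FreeGroup (Fin n) →* G, (∀ p ∈ ps, f p = 1) → f w = 1) →
      (∀ (n : ℕ) (ps : List (FreeGroup (Fin n))) (w : FreeGroup (Fin n)),
        (∀ (N : Type) [Group N], Group.IsNilpotent N →
          (∀ g : N, g ≠ 1 → ∀ k : ℕ, 0 < k → g ^ k ≠ 1) →
          ∀ f : FreeGroup (Fin n) →* N, (∀ p ∈ ps, f p = 1) → f w = 1) →
        ∀ f : FreeGroup (Fin n) →*
            ↥(Subgroup.closure
              ((Set.range (fun g : G => SemidirectProduct.inl (Pi.mulSingle (0 : ℤ) g)) ∪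
                {SemidirectProduct.inr (Multiplicative.ofAdd (1 : ℤ))} :
                Set (SemidirectProduct (ℤ → G) (Multiplicative ℤ)
                  (zpowersHom (MulAut (ℤ → G))
                    ({ toFun := fun (x : ℤ → G) (i : ℤ) => x (i + 1),
                       invFun := fun (x : ℤ → G) (i : ℤ) => x (i - 1),
                       left_inv := fun (x : ℤ → G) => funext fun (i : ℤ) => congrArg x (sub_add_cancel i 1),
                       right_inv := fun (x : ℤ → G) => funext fun (i : ℤ) => congrArg x (add_sub_cancel_right i 1),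
                       map_mul' := fun (x y : ℤ → G) => rfl } :
                      (ℤ → G) ≃* (ℤ → G))))))),
          (∀ p ∈ ps, f p = 1) → f w = 1) := by
  intro G _ hG n ps w hvalid
  refine Pool.Agent.H17.Uni.finalU G hG n ps w hvalid _ ?_
  rintro x (⟨g, rfl⟩ | rfl)
  · refine (Set.finite_singleton (0 : ℤ)).subset ?_
    intro i hi
    by_contra hc
    apply hi
    show (Pi.mulSingle (0 : ℤ) g : ℤ → G) i = 1
    exact Pi.mulSingle_eq_of_ne (M := fun _ : ℤ => G) hc g
  · refine Set.finite_empty.subset ?_
    intro i hi
    exact absurd rfl hi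

end Pool.Agent.S0309
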