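import Pool.Statements.S0312

set_option autoImplicit false
open Pool Pool.MP_2475ca_al

namespace Pool.Agent.S0312

open MulAction

section general

variable {G Ω P : Type} [Group G] [Finite G] [MulAction G Ω] [Finite Ω] [MulAction G P] [Finite P]

theorem card_map_sub {G : Type} [Group G] (K : Subgroup G) (N : Subgroup K) :
    Nat.card (N.map K.subtype : Subgroup G) = Nat.card N :=
  Subgroup.card_map_of_injective K.subtype_injective

/-- If all orbits have size divisible by `q` then so does the whole set. -/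
theorem dvd_card_of_orbits {S X : Type} [Group S] [MulAction S X] [Finite X] (q : ℕ)
    (h : ∀ x : X, q ∣ Nat.card (orbit S x)) : q ∣ Nat.card X := by
  classical
  rw [Nat.card_congr (selfEquivSigmaOrbits S X)]
  have := Fintype.ofFinite (Quotient (orbitRel S X))
  rw [Nat.card_sigma]
  exact Finset.dvd_sum (fun ω _ => h _)

/-- A Sylow subgroup of the subgroup `H`. -/
structure IsSyl (p : ℕ) (S H : Subgroup G) : Prop where
  le : S ≤ H
  pgroup : IsPGroup p S
  ndvd : ¬ p ∣ S.relIndex H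

theorem exists_syl (p : ℕ) [Fact p.Prime] (H : Subgroup G) : ∃ S : Subgroup G, IsSyl p S H := by
  obtain ⟨T⟩ : Nonempty (Sylow p H) := inferInstance
  refine ⟨(T : Subgroup H).map H.subtype, Subgroup.map_subtype_le _, T.isPGroup'.map _, ?_⟩
  rw [Subgroup.relIndex, Subgroup.subgroupOf, Subgroup.comap_map_eq_self_of_injective
    H.subtype_injective]
  exact T.not_dvd_index

/-- Orbits of a Sylow subgroup on the set of parts. -/
theorem lemA (p : ℕ) [hp : Fact p.Prime] (M : Subgroup G) (hMP : ∀ m ∈ M, ∀ i : P, m • i = i)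
    (htrP : ∀ i j : P, ∃ g : G, g • i = j) (H : Subgroup G)
    (hHM : ∀ g : G, ∃ h ∈ H, ∃ m ∈ M, g = h * m) (S : Subgroup G) (hS : IsSyl p S H) (i : P) :
    p ^ (Nat.card P).factorization p ∣ (stabilizer G i).relIndex S := by
  have h1 : (stabilizer G i).relIndex H = Nat.card P := by
    have htr : IsPretransitive H P := by
      refine ⟨fun a b => ?_⟩
      obtain ⟨g, hg⟩ := htrP a b
      obtain ⟨h, hh, m, hm, rfl⟩ := hHM g
      refine ⟨⟨h, hh⟩, ?_⟩
      change h • a = b
      rw [← hg, mul_smul, hMP m hm]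
    have : (stabilizer G i).subgroupOf H = stabilizer H i := by
      ext x; rfl
    rw [Subgroup.relIndex, this, index_stabilizer_of_transitive]
  have h2 : (S ⊓ stabilizer G i).relIndex S * S.relIndex H = (S ⊓ stabilizer G i).relIndex H :=
    Subgroup.relIndex_mul_relIndex _ _ _ inf_le_left hS.le
  have h3 : (S ⊓ stabilizer G i).relIndex (H ⊓ stabilizer G i) *
      (H ⊓ stabilizer G i).relIndex H = (S ⊓ stabilizer G i).relIndex H :=
    Subgroup.relIndex_mul_relIndex _ _ _ (inf_le_inf_right _ hS.le) inf_le_left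
  rw [← h3, Subgroup.inf_relIndex_left, Subgroup.inf_relIndex_left, h1] at h2
  have h4 : p ^ (Nat.card P).factorization p ∣ (stabilizer G i).relIndex S * S.relIndex H := by
    rw [h2]
    exact (Nat.ordProj_dvd _ _).mul_left _
  refine Nat.Coprime.dvd_of_dvd_mul_right ?_ h4
  exact Nat.Coprime.pow_left _ ((Nat.Prime.coprime_iff_not_dvd hp.out).2 hS.ndvd)

/-- Counting an invariant set containing a fixed point. -/
theorem lemB (c : Ω → Ω → P) (hc : ∀ (g : G) (a b : Ω), a ≠ b → c (g • a) (g • b) = g • c a b)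
    (S : Subgroup G) (q : ℕ) (hq : ∀ i : P, q ∣ (stabilizer G i).relIndex S)
    (β : Ω) (hβ : ∀ s ∈ S, s • β = β) (Γ : Set Ω) (hΓ : ∀ s ∈ S, ∀ γ ∈ Γ, s • γ ∈ Γ)
    (hβΓ : β ∈ Γ) : Nat.card Γ ≡ 1 [MOD q] := by
  classical
  let X : SubMulAction S Ω :=
    { carrier := Γ \ {β}
      smul_mem' := by
        rintro ⟨s, hs⟩ x ⟨hx, hxβ⟩
        refine ⟨hΓ s hs x hx, fun h => hxβ ?_⟩
        have h' : s • x = β := h
        have : s • x = s • β := by rw [h', hβ s hs]
        exact smul_left_cancel s this }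
  have hX : q ∣ Nat.card X := by
    apply dvd_card_of_orbits (S := S) (X := X)
    intro x
    have h1 : (stabilizer S x).index = Nat.card (orbit S x) := index_stabilizer S x
    rw [← h1]
    refine (hq (c β x.1)).trans ?_
    apply Subgroup.index_dvd_of_le
    intro s hs
    rw [Subgroup.mem_subgroupOf, mem_stabilizer_iff]
    have hs' : (s : G) • (x.1 : Ω) = x.1 := congrArg Subtype.val (mem_stabilizer_iff.1 hs)
    have hne : β ≠ x.1 := fun h => x.2.2 h.symm
    rw [← hc _ _ _ hne, hβ s s.2, hs']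
  have hcard : Nat.card X + 1 = Nat.card Γ := by
    have h1 : Nat.card X = (Γ \ {β}).ncard := rfl
    have h2 : Nat.card Γ = Γ.ncard := rfl
    rw [h1, h2, Set.ncard_sdiff_singleton_add_one hβΓ (Set.toFinite _)]
  rw [← hcard]
  obtain ⟨t, ht⟩ := hX
  rw [ht]
  exact (Nat.modEq_iff_dvd' (by omega)).2 ⟨t, by omega⟩ |>.symm

/-- Fixed points of `p`-groups on sets of size prime to `p`. -/
theorem lemF (p : ℕ) [hp : Fact p.Prime] (S : Subgroup G) (hS : IsPGroup p S)
    (Γ : Set Ω) (hΓ : ∀ s ∈ S, ∀ γ ∈ Γ, s • γ ∈ Γ) (hcard : ¬ p ∣ Nat.card Γ) :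
    ∃ β ∈ Γ, ∀ s ∈ S, s • β = β := by
  let X : SubMulAction S Ω :=
    { carrier := Γ
      smul_mem' := fun s x hx => hΓ s s.2 x hx }
  obtain ⟨x, hx⟩ := hS.nonempty_fixed_point_of_prime_not_dvd_card X hcard
  refine ⟨x.1, x.2, fun s hs => ?_⟩
  exact congrArg Subtype.val (hx ⟨s, hs⟩)

/-- A form of the Frattini argument. -/
theorem frat (r : ℕ) [hr : Fact r.Prime] (M : Subgroup G) [M.Normal] (K Q : Subgroup G)
    (hQ : IsPGroup r Q) (hQK : Q ≤ K) (hQM : Q ≤ M) :
    ∃ Q1 : Subgroup G, Q ≤ Q1 ∧ Q1 ≤ K ∧ Q1 ≤ M ∧ IsPGroup r Q1 ∧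
      Nat.card Q1 = r ^ (Nat.card (K ⊓ M : Subgroup G)).factorization r ∧
      ∀ g ∈ K, ∃ h ∈ K ⊓ Subgroup.normalizer (Q1 : Set G), ∃ m ∈ M, g = h * m := by
  let N : Subgroup K := M.subgroupOf K
  let Q' : Subgroup N := (Q.subgroupOf K).subgroupOf N
  have hQ' : IsPGroup r Q' := by
    apply IsPGroup.comap_of_injective (IsPGroup.comap_of_injective hQ _ K.subtype_injective) _
      N.subtype_injective
  obtain ⟨T, hT⟩ := hQ'.exists_le_sylow
  let T1 : Subgroup K := (T : Subgroup N).map N.subtype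
  let Q1 : Subgroup G := T1.map K.subtype
  have e1 : Nat.card Q1 = Nat.card T := by
    rw [card_map_sub, card_map_sub]
  have e2 : Nat.card N = Nat.card (K ⊓ M : Subgroup G) := by
    rw [← card_map_sub K N]
    congr 2
    ext x
    simp only [N, Subgroup.mem_map, Subgroup.mem_subgroupOf, Subgroup.mem_inf]
    constructor
    · rintro ⟨y, hy, rfl⟩
      exact ⟨y.2, hy⟩
    · rintro ⟨h1, h2⟩
      exact ⟨⟨x, h1⟩, h2, rfl⟩
  refine ⟨Q1, ?_, ?_, ?_, ?_, ?_, ?_⟩
  · intro x hx
    have hxK := hQK hx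
    have hxM := hQM hx
    have : (⟨⟨x, hxK⟩, hxM⟩ : N) ∈ Q' := hx
    exact ⟨⟨x, hxK⟩, ⟨⟨⟨x, hxK⟩, hxM⟩, hT this, rfl⟩, rfl⟩
  · exact Subgroup.map_subtype_le _
  · rintro _ ⟨y, ⟨z, _, rfl⟩, rfl⟩
    exact z.2
  · exact (T.isPGroup'.map _).map _
  · rw [e1, T.card_eq_multiplicity, e2]
  · intro g hg
    have h1 := T.normalizer_sup_eq_top
    have h2 : (⟨g, hg⟩ : K) ∈ Subgroup.normalizer (T1 : Set K) ⊔ N := by
      have : (⟨g, hg⟩ : K) ∈ (⊤ : Subgroup K) := Subgroup.mem_top _
      rw [← h1] at this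
      exact this
    rw [Subgroup.mem_sup_of_normal_right] at h2
    obtain ⟨x, hx, m, hm, hxm⟩ := h2
    refine ⟨x.1, ⟨x.2, ?_⟩, m.1, hm, ?_⟩
    · change x.1 ∈ Subgroup.normalizer (Q1 : Set G)
      rw [Subgroup.mem_normalizer_iff] at hx ⊢
      intro y
      constructor
      · rintro ⟨z, hz, rfl⟩
        exact ⟨x * z * x⁻¹, (hx z).1 hz, rfl⟩
      · rintro ⟨z, hz, hzy⟩
        have hz' : z.1 = x.1 * y * x.1⁻¹ := hzy
        have hyK : y ∈ K := by
          have : y = x.1⁻¹ * z.1 * x.1 := by rw [hz']; group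
          rw [this]
          exact K.mul_mem (K.mul_mem (K.inv_mem x.2) z.2) x.2
        have hzz : z = x * ⟨y, hyK⟩ * x⁻¹ := Subtype.ext hz'
        have : (⟨y, hyK⟩ : K) ∈ T1 := by
          refine (hx _).2 ?_
          rw [← hzz]; exact hz
        exact ⟨⟨y, hyK⟩, this, rfl⟩
    · exact congrArg Subtype.val hxm.symm

end general

section main

variable {G Ω P : Type} [Group G] [Finite G] [MulAction G Ω] [Finite Ω] [MulAction G P] [Finite P]

/-- The set of points whose stabilizer in `Q` has order `R`. -/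
def F (Q : Subgroup G) (R : ℕ) : Set Ω := {β | Nat.card (Q ⊓ stabilizer G β : Subgroup G) = R}

theorem card_conj (Q : Subgroup G) (g : G) (hg : g ∈ Subgroup.normalizer (Q : Set G)) (β : Ω) :
    Nat.card (Q ⊓ stabilizer G (g • β) : Subgroup G) = Nat.card (Q ⊓ stabilizer G β : Subgroup G) := by
  rw [Subgroup.mem_normalizer_iff] at hg
  symm
  have hmap : (Q ⊓ stabilizer G (g • β) : Subgroup G) =
      (Q ⊓ stabilizer G β).map (MulAut.conj g).toMonoidHom := by
    ext x
    simp only [Subgroup.mem_inf, Subgroup.mem_map, mem_stabilizer_iff]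
    constructor
    · rintro ⟨h1, h2⟩
      refine ⟨g⁻¹ * x * g, ⟨?_, ?_⟩, ?_⟩
      · refine (hg _).2 ?_
        have : g * (g⁻¹ * x * g) * g⁻¹ = x := by group
        rwa [this]
      · rw [mul_smul, mul_smul, h2, inv_smul_smul]
      · change g * (g⁻¹ * x * g) * g⁻¹ = x
        group
    · rintro ⟨y, ⟨h1, h2⟩, rfl⟩
      refine ⟨(hg y).1 h1, ?_⟩
      change (g * y * g⁻¹) • g • β = g • β
      rw [mul_smul, inv_smul_smul, mul_smul, h2]
  rw [hmap, Subgroup.card_map_of_injective (MulAut.conj g).injective]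

theorem main (M : Subgroup G) [M.Normal] (hMP : ∀ m ∈ M, ∀ i : P, m • i = i)
    (htr : ∀ a b : Ω, ∃ m ∈ M, m • a = b) (htrP : ∀ i j : P, ∃ g : G, g • i = j)
    (c : Ω → Ω → P) (hc : ∀ (g : G) (a b : Ω), a ≠ b → c (g • a) (g • b) = g • c a b)
    (p r : ℕ) [hp : Fact p.Prime] [hr : Fact r.Prime] (hpP : p ∣ Nat.card P) [Nonempty Ω]
    [Nonempty P] :
    r ^ (Nat.card Ω).factorization r ≡ 1 [MOD p ^ (Nat.card P).factorization p] := by
  -- orders of stabilizers in `M`
  have hMst : ∀ β : Ω, Nat.card (M ⊓ stabilizer G β : Subgroup G) * Nat.card Ω = Nat.card M := by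
    intro β
    have htrM : IsPretransitive M Ω := ⟨fun a b => by
      obtain ⟨m, hm, h⟩ := htr a b
      exact ⟨⟨m, hm⟩, h⟩⟩
    have h1 := index_stabilizer_of_transitive M β
    have h2 := (stabilizer M β).card_mul_index
    rw [h1] at h2
    rw [← h2]
    congr 1
    rw [← card_map_sub M (stabilizer M β)]
    congr 2
    ext x
    simp only [Subgroup.mem_map, Subgroup.mem_inf]
    constructor
    · rintro ⟨h1, h2⟩
      exact ⟨⟨x, h1⟩, h2, rfl⟩
    · rintro ⟨y, hy, rfl⟩
      exact ⟨y.2, hy⟩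
  obtain ⟨α⟩ : Nonempty Ω := inferInstance
  set R : ℕ := r ^ (Nat.card (M ⊓ stabilizer G α : Subgroup G)).factorization r with hR
  have hΩpos : 0 < Nat.card Ω := Nat.card_pos
  have hRβ : ∀ β : Ω, Nat.card (M ⊓ stabilizer G β : Subgroup G) =
      Nat.card (M ⊓ stabilizer G α : Subgroup G) := by
    intro β
    have := (hMst β).trans (hMst α).symm
    exact Nat.eq_of_mul_eq_mul_right hΩpos this
  have hMR : Nat.card M ≠ 0 := Nat.card_pos.ne'
  have hM_fact : r ^ (Nat.card M).factorization r = R * r ^ (Nat.card Ω).factorization r := by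
    rw [hR, ← pow_add, ← hMst α, Nat.factorization_mul (Nat.card_pos.ne') hΩpos.ne']
    rfl
  have hq1 : 1 ≤ (Nat.card P).factorization p :=
    (hp.out.dvd_iff_one_le_factorization Nat.card_pos.ne').1 hpP
  -- `r`-subgroups have small stabilizers
  have hRle : ∀ (Q : Subgroup G), Q ≤ M → IsPGroup r Q → ∀ β : Ω,
      Nat.card (Q ⊓ stabilizer G β : Subgroup G) ∣ R := by
    intro Q hQM hQ β
    have h1 : IsPGroup r (Q ⊓ stabilizer G β : Subgroup G) := hQ.to_le inf_le_left
    obtain ⟨k, hk⟩ := IsPGroup.iff_card.1 h1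
    rw [hk, hR]
    apply Nat.pow_dvd_pow
    rw [← hr.out.pow_dvd_iff_le_factorization Nat.card_pos.ne', ← hk, ← hRβ β]
    exact Subgroup.card_dvd_of_le (inf_le_inf_right _ hQM)
  -- the induction
  have key : ∀ (t : ℕ) (Q H S : Subgroup G) (β : Ω), Nat.card G - Nat.card Q = t → Q ≤ M →
      IsPGroup r Q → H ≤ Subgroup.normalizer (Q : Set G) →
      (∀ g : G, ∃ h ∈ H, ∃ m ∈ M, g = h * m) → IsSyl p S H → (∀ s ∈ S, s • β = β) →
      β ∈ F Q R → r ^ (Nat.card Ω).factorization r ≡ 1 [MOD p ^ (Nat.card P).factorization p] := by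
    intro t
    induction t using Nat.strong_induction_on with
    | _ t ih =>
    intro Q H S β ht hQM hQ hHQ hHM hS hβ hβF
    have hA := lemA p M hMP htrP H hHM S hS
    by_cases hcard : Nat.card Q = r ^ (Nat.card M).factorization r
    · -- `Q` is Sylow in `M`
      have h1 := lemB c hc S _ hA β hβ (orbit Q β) (by
        rintro s hs _ ⟨⟨x, hx⟩, rfl⟩
        have hsN := hHQ (hS.le hs)
        rw [Subgroup.mem_normalizer_iff] at hsN
        refine ⟨⟨s * x * s⁻¹, (hsN x).1 hx⟩, ?_⟩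
        change (s * x * s⁻¹) • β = s • x • β
        have : s⁻¹ • β = β := by
          rw [inv_smul_eq_iff, hβ s hs]
        rw [mul_smul, this, mul_smul]) (mem_orbit_self β)
      have h2 : Nat.card (orbit Q β) = r ^ (Nat.card Ω).factorization r := by
        have h3 : (stabilizer Q β).index = Nat.card (orbit Q β) := index_stabilizer Q β
        have h4 := (stabilizer Q β).card_mul_index
        rw [h3, hcard, hM_fact] at h4
        have h5 : Nat.card (stabilizer Q β) = R := by
          have : Nat.card (Q ⊓ stabilizer G β : Subgroup G) = R := hβF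
          rw [← this, ← card_map_sub Q (stabilizer Q β)]
          congr 2
          ext x
          simp only [Subgroup.mem_map, Subgroup.mem_inf]
          constructor
          · rintro ⟨y, hy, rfl⟩
            exact ⟨y.2, hy⟩
          · rintro ⟨h1, h2⟩
            exact ⟨⟨x, h1⟩, h2, rfl⟩
        rw [h5] at h4
        have hRpos : 0 < R := by rw [hR]; exact pow_pos hr.out.pos _
        exact Nat.eq_of_mul_eq_mul_left hRpos h4
      rwa [h2] at h1
    · -- enlarge `Q`
      obtain ⟨Q1, hQQ1, hQ1N, hQ1M, hQ1, hQ1c, hfr⟩ :=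
        frat r M (Subgroup.normalizer (Q : Set G)) Q hQ Subgroup.le_normalizer hQM
      set H1 := Subgroup.normalizer (Q : Set G) ⊓ Subgroup.normalizer (Q1 : Set G) with hH1
      have hH1M : ∀ g : G, ∃ h ∈ H1, ∃ m ∈ M, g = h * m := by
        intro g
        obtain ⟨h, hh, m, hm, rfl⟩ := hHM g
        obtain ⟨h1, hh1, m1, hm1, rfl⟩ := hfr h (hHQ hh)
        exact ⟨h1, hh1, m1 * m, M.mul_mem hm1 hm, by rw [mul_assoc]⟩
      obtain ⟨S1, hS1⟩ := exists_syl p H1
      have hFcard := lemB c hc S _ hA β hβ (F Q R) (by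
        intro s hs γ hγ
        change Nat.card _ = R
        rw [card_conj Q s (hHQ (hS.le hs))]
        exact hγ) hβF
      have hFp : ¬ p ∣ Nat.card (F (Ω := Ω) Q R) := by
        intro hdvd
        have h1 : Nat.card (F (Ω := Ω) Q R) ≡ 1 [MOD p] :=
          hFcard.of_dvd (dvd_pow_self p (by omega))
        have h2 : 1 ≡ 0 [MOD p] := h1.symm.trans hdvd.modEq_zero_nat
        have h3 : p ∣ 1 := (Nat.modEq_zero_iff_dvd).1 h2
        exact hp.out.one_lt.ne' (Nat.dvd_one.1 h3)
      obtain ⟨β1, hβ1F, hβ1⟩ := lemF p S1 hS1.pgroup (F (Ω := Ω) Q R) (by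
        intro s hs γ hγ
        change Nat.card _ = R
        rw [card_conj Q s (hS1.le hs).1]
        exact hγ) hFp
      have hβ1F1 : β1 ∈ F Q1 R := by
        have h1 : Nat.card (Q ⊓ stabilizer G β1 : Subgroup G) = R := hβ1F
        have h2 : Nat.card (Q ⊓ stabilizer G β1 : Subgroup G) ∣
            Nat.card (Q1 ⊓ stabilizer G β1 : Subgroup G) :=
          Subgroup.card_dvd_of_le (inf_le_inf_right _ hQQ1)
        rw [h1] at h2
        exact Nat.dvd_antisymm (hRle Q1 hQ1M hQ1 β1) h2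
      have hlt : Nat.card Q < Nat.card Q1 := by
        -- normalizers grow
        obtain ⟨k, hk⟩ := IsPGroup.iff_card.1 hQ
        let Q' : Subgroup M := Q.subgroupOf M
        have hQ'c : Nat.card Q' = r ^ k := by
          rw [← hk]
          rw [← card_map_sub M Q', Subgroup.subgroupOf_map_subtype, inf_eq_left.2 hQM]
        have hkle : k < (Nat.card M).factorization r := by
          have h1 : k ≤ (Nat.card M).factorization r := by
            rw [← hr.out.pow_dvd_iff_le_factorization hMR, ← hk]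
            exact Subgroup.card_dvd_of_le hQM
          rcases h1.lt_or_eq with h | h
          · exact h
          · exact absurd (by rw [hk, h]) hcard
        have hdvd : r ^ (k + 1) ∣ Nat.card M :=
          (hr.out.pow_dvd_iff_le_factorization hMR).2 hkle
        have h2 := Sylow.prime_pow_dvd_card_normalizer hdvd hQ'c
        rw [← Subgroup.subgroupOf_normalizer_eq hQM, ← card_map_sub,
          Subgroup.subgroupOf_map_subtype] at h2
        rw [hr.out.pow_dvd_iff_le_factorization Nat.card_pos.ne'] at h2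
        rw [hk, hQ1c]
        exact Nat.pow_lt_pow_right hr.out.one_lt h2
      have hle1 : Nat.card Q1 ≤ Nat.card G := Subgroup.card_le_card_group Q1
      exact ih (Nat.card G - Nat.card Q1) (by omega) Q1 H1 S1 β1 rfl hQ1M hQ1 inf_le_right hH1M
        hS1 hβ1 hβ1F1
  -- base case
  obtain ⟨Q, -, hQα, hQM, hQ, hQc, hfr⟩ := frat r M (stabilizer G α) ⊥ IsPGroup.of_bot bot_le bot_le
  set H := stabilizer G α ⊓ Subgroup.normalizer (Q : Set G) with hH
  have hHM : ∀ g : G, ∃ h ∈ H, ∃ m ∈ M, g = h * m := by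
    intro g
    obtain ⟨m, hm, hmα⟩ := htr α (g • α)
    have hk : m⁻¹ * g ∈ stabilizer G α := by
      rw [mem_stabilizer_iff, mul_smul, ← hmα, inv_smul_smul]
    obtain ⟨h, hh, m', hm', he⟩ := hfr _ hk
    refine ⟨h, hh, (h⁻¹ * m * h) * m', M.mul_mem ?_ hm', ?_⟩
    · have := (inferInstance : M.Normal).conj_mem m hm h⁻¹
      rwa [inv_inv] at this
    · have : g = m * (m⁻¹ * g) := by group
      rw [this, he]; group
  obtain ⟨S, hS⟩ := exists_syl p H
  refine key _ Q H S α rfl hQM hQ inf_le_right hHM hS (fun s hs => (hS.le hs).1) ?_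
  change Nat.card (Q ⊓ stabilizer G α : Subgroup G) = R
  rw [inf_eq_left.2 hQα, hQc, hR, inf_comm]

end main

/-- The negation of the preceding statement: There exist M < G acting on n points with M transitive, and a partition of ordered distinct pairs into k ≥ 2 classes, G-invariant, G-transitive, each fixed by M, with G inducing a non-cyclic group on the classes and some prime part of n not ≡ 1 mod k. -/
theorem result :
    ¬ (∃ (n k : ℕ) (M G : Subgroup (Equiv.Perm (Fin n))) (c : Fin n → Fin n → Fin k),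
    2 ≤ k ∧ M < G ∧
    (∀ a b : Fin n, ∃ m ∈ M, m a = b) ∧
    (∀ i : Fin k, ∃ a b : Fin n, a ≠ b ∧ c a b = i) ∧
    (∀ g ∈ G, ∃ σ : Equiv.Perm (Fin k),
      ∀ a b : Fin n, a ≠ b → c (g a) (g b) = σ (c a b)) ∧
    (∀ i j : Fin k, ∃ g ∈ G,
      ∀ a b : Fin n, a ≠ b → c a b = i → c (g a) (g b) = j) ∧
    (∀ m ∈ M, ∀ a b : Fin n, a ≠ b → c (m a) (m b) = c a b) ∧
    (¬ ∃ τ : Equiv.Perm (Fin k), ∀ g ∈ G, ∃ z : ℤ,
      ∀ a b : Fin n, a ≠ b → c (g a) (g b) = (τ ^ z) (c a b)) ∧
    (∃ r : ℕ, r.Prime ∧ r ∣ n ∧ ¬ Nat.ModEq k (r ^ (n.factorization r)) 1)) := by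
  rintro ⟨n, k, M, G, c, hk, hMG, htr, hsurj, hinv, htrP, hMc, -, r, hr, hrn, hmod⟩
  choose σ hσ using hinv
  -- the action on the parts
  let π : G →* Equiv.Perm (Fin k) := MonoidHom.mk' (fun g => σ g.1 g.2) (by
    intro g h
    apply Equiv.ext
    intro i
    obtain ⟨a, b, hab, rfl⟩ := hsurj i
    rw [Equiv.Perm.mul_apply, ← hσ _ _ a b hab, ← hσ _ _ a b hab,
      ← hσ _ _ _ _ (fun h' => hab (h.1.injective h'))]
    rfl)
  let act : MulAction G (Fin k) := MulAction.compHom (Fin k) π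
  have hact : ∀ (g : G) (i : Fin k), g • i = σ g.1 g.2 i := fun _ _ => rfl
  have hMker : ∀ m, ∀ (hm : m ∈ M), (⟨m, hMG.le hm⟩ : G) ∈ π.ker := by
    intro m hm
    rw [MonoidHom.mem_ker]
    apply Equiv.ext
    intro i
    obtain ⟨a, b, hab, rfl⟩ := hsurj i
    change σ m _ (c a b) = c a b
    rw [← hσ _ _ a b hab, hMc m hm a b hab]
  have hcG : ∀ (g : G) (a b : Fin n), a ≠ b → c (g • a) (g • b) = g • c a b :=
    fun g a b hab => hσ g.1 g.2 a b hab
  have hn : 0 < n := by
    obtain ⟨a, -, -, -⟩ := hsurj ⟨0, by omega⟩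
    exact a.pos
  have : Nonempty (Fin n) := ⟨⟨0, hn⟩⟩
  have : Nonempty (Fin k) := ⟨⟨0, by omega⟩⟩
  apply hmod
  -- reduce to prime powers
  have hall : ∀ p : ℕ, p.Prime → p ∣ k →
      r ^ n.factorization r ≡ 1 [MOD p ^ k.factorization p] := by
    intro p hp hpk
    have : Fact p.Prime := ⟨hp⟩
    have : Fact r.Prime := ⟨hr⟩
    have := main (G := G) (Ω := Fin n) (P := Fin k) π.ker
      (fun m hm i => by
        rw [hact]
        have : π m = 1 := hm
        exact congrArg (fun τ : Equiv.Perm (Fin k) => τ i) this)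
      (fun a b => by
        obtain ⟨m, hm, h⟩ := htr a b
        exact ⟨⟨m, hMG.le hm⟩, hMker m hm, h⟩)
      (fun i j => by
        obtain ⟨g, hg, h⟩ := htrP i j
        refine ⟨⟨g, hg⟩, ?_⟩
        obtain ⟨a, b, hab, rfl⟩ := hsurj i
        rw [hact, ← hσ _ _ a b hab]
        exact h a b hab rfl)
      c hcG p r (by simpa using hpk)
    simpa using this
  have hpos : 1 ≤ r ^ n.factorization r := Nat.one_le_pow _ _ hr.pos
  refine Nat.ModEq.symm ((Nat.modEq_iff_dvd' hpos).2 ?_)
  rcases Nat.eq_zero_or_pos (r ^ n.factorization r - 1) with h0 | h0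
  · rw [h0]; exact dvd_zero _
  rw [← Nat.factorization_le_iff_dvd (by omega) h0.ne']
  intro p
  by_cases hp : p.Prime
  · by_cases hpk : p ∣ k
    · have h1 := (Nat.modEq_iff_dvd' hpos).1 (hall p hp hpk).symm
      exact (hp.pow_dvd_iff_le_factorization h0.ne').1 h1
    · rw [Nat.factorization_eq_zero_of_not_dvd hpk]; exact Nat.zero_le _
  · rw [Nat.factorization_eq_zero_of_not_prime _ hp]; exact Nat.zero_le _

end Pool.Agent.S0312
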