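import Pool.Statements.S0339
import Pool.Agent.H26.CT
-- import your own Pool.Agent.* helpers here

set_option autoImplicit false
open Pool Pool.MP_2b3d4e_al

namespace Pool.Agent.S0339

/-- The group generated by all class transpositions of ℤ equals the set of permutations of ℤ that are affine (rational coefficients) on each residue class modulo some m>0 and map the nonnegative integers onto themselves. -/
theorem result :
    ((Subgroup.closure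
        {σ : Equiv.Perm ℤ | ∃ r₁ m₁ r₂ m₂ : ℤ,
          0 ≤ r₁ ∧ r₁ < m₁ ∧ 0 ≤ r₂ ∧ r₂ < m₂ ∧
          (∀ n : ℤ, ¬ (Int.ModEq m₁ n r₁ ∧ Int.ModEq m₂ n r₂)) ∧
          (∀ k : ℤ, σ (r₁ + m₁ * k) = r₂ + m₂ * k ∧ σ (r₂ + m₂ * k) = r₁ + m₁ * k) ∧
          ∀ n : ℤ, ¬ Int.ModEq m₁ n r₁ → ¬ Int.ModEq m₂ n r₂ → σ n = n}
        : Subgroup (Equiv.Perm ℤ)) : Set (Equiv.Perm ℤ)) =
      {g : Equiv.Perm ℤ |
        (∃ m : ℤ, 0 < m ∧ ∀ r : ℤ, ∃ a b : ℚ, ∀ n : ℤ,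
            Int.ModEq m n r → ((g n : ℤ) : ℚ) = a * (n : ℚ) + b) ∧
        ∀ n : ℤ, 0 ≤ g n ↔ 0 ≤ n} := by
  exact Pool.Agent.H26.CT.main

end Pool.Agent.S0339
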