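import Pool.Statements.S0344
import Pool.Agent.H1.LatE

set_option autoImplicit false
open Pool Pool.MP_2d9567_al

namespace Pool.Agent.S0344

/-- The negation of the preceding statement: If an ℓ-group G has the property that every group operation compatible with its lattice gives an ℓ-group isomorphic to G via a lattice automorphism, then G is abelian. -/
theorem result :
    ¬ (∀ (L : Type) [Lattice L] (G : Group L),
      (∀ a b c : L, a ≤ b → G.mul c a ≤ G.mul c b ∧ G.mul a c ≤ G.mul b c) →
      (∀ H : Group L,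
        (∀ a b c : L, a ≤ b → H.mul c a ≤ H.mul c b ∧ H.mul a c ≤ H.mul b c) →
        ∃ φ : L ≃o L, ∀ x y : L, φ (G.mul x y) = H.mul (φ x) (φ y)) →
      ∀ x y : L, G.mul x y = G.mul y x) := by
  intro hmain
  have h := hmain LatR.L (inferInstance : Group LatR.L)
    (fun a b c hab => ⟨LatR.lmul_mono c hab, LatR.rmul_mono c hab⟩)
    (fun H hH => @LatR.main1 LatR.L H LatR.instLat ⟨fun c a b hab => (hH a b c hab).1⟩
      ⟨fun c a b hab => (hH a b c hab).2⟩ (OrderIso.refl LatR.L))
    (LatR.aff 1 1 one_pos) (LatR.aff 2 0 two_pos)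
  have h2 := congrArg (fun f : LatR.L => f 0) h
  have e1 : (1 : ℝ) * (2 * 0 + 0) + 1 = 2 * (1 * 0 + 1) + 0 := h2
  norm_num at e1

end Pool.Agent.S0344
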