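import Pool.Statements.S0345
import Pool.Agent.H24.HeisD

set_option autoImplicit false
open Pool Pool.MP_2e6fbe_al

namespace Pool.Agent.S0345

/-- There is an injective multiplicative map from the real Heisenberg group modulo the central copy of the integers (coordinates a,b,c with c mod 1, product adding ab') into the permutation group of the natural numbers. -/
theorem result :
    ∃ f : ℝ × ℝ × AddCircle (1 : ℝ) → Equiv.Perm ℕ,
      Function.Injective f ∧
      ∀ x y : ℝ × ℝ × AddCircle (1 : ℝ),
        f (x.1 + y.1, x.2.1 + y.2.1,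
            x.2.2 + y.2.2 + ((x.1 * y.2.1 : ℝ) : AddCircle (1 : ℝ))) = f x * f y := by
  obtain ⟨f, hf⟩ := Pool.Agent.H24.Heis.main
  exact ⟨f, hf, fun x y => f.map_mul x y⟩

end Pool.Agent.S0345
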