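import Pool.Statements.S0382
import Pool.Agent.H10.K382c

set_option autoImplicit false
open Pool Pool.MP_36bee5_al

namespace Pool.Agent.S0382

/-- The negation of the preceding statement: For a standard graded algebra with a Koszul filtration F, every nonzero product of d ≥ 1 ideals from F has a d-linear free resolution over R (generated in degree d, linear matrices thereafter), i.e. its regularity over R equals d. -/
theorem result :
    ¬ (∀ (K : Type) [Field K] (n : ℕ) (J : Ideal (MvPolynomial (Fin n) K)),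
      (∀ p ∈ J, ∀ i : ℕ, MvPolynomial.homogeneousComponent i p ∈ J) →
      ∀ (F : Set (Ideal (MvPolynomial (Fin n) K ⧸ J))),
        (∀ I ∈ F, I = Ideal.span {y : MvPolynomial (Fin n) K ⧸ J | y ∈ I ∧
            ∃ p : MvPolynomial (Fin n) K, p.IsHomogeneous 1 ∧ Ideal.Quotient.mk J p = y}) →
        (⊥ ∈ F) →
        (Ideal.span {y : MvPolynomial (Fin n) K ⧸ J |
            ∃ p : MvPolynomial (Fin n) K, p.IsHomogeneous 1 ∧ Ideal.Quotient.mk J p = y} ∈ F) →
        (∀ I ∈ F, I ≠ ⊥ → ∃ I' ∈ F, I' ≤ I ∧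
            (∃ x : MvPolynomial (Fin n) K ⧸ J,
              (∃ p : MvPolynomial (Fin n) K, p.IsHomogeneous 1 ∧ Ideal.Quotient.mk J p = x) ∧
              I = I' ⊔ Ideal.span {x}) ∧
            ∃ C ∈ F, ∀ r : MvPolynomial (Fin n) K ⧸ J, r ∈ C ↔ ∀ y ∈ I, r * y ∈ I') →
        ∀ (d : ℕ), 1 ≤ d → ∀ (I : Fin d → Ideal (MvPolynomial (Fin n) K ⧸ J)),
          (∀ k, I k ∈ F) → (∏ k, I k) ≠ ⊥ →
          ∃ b : ℕ → ℕ, ∃ g : Fin (b 0) → MvPolynomial (Fin n) K ⧸ J,
            ∃ A : (i : ℕ) → Matrix (Fin (b i)) (Fin (b (i + 1))) (MvPolynomial (Fin n) K ⧸ J),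
              (∀ j, ∃ p : MvPolynomial (Fin n) K, p.IsHomogeneous d ∧ Ideal.Quotient.mk J p = g j) ∧
              (∀ i a c, ∃ p : MvPolynomial (Fin n) K, p.IsHomogeneous 1 ∧
                  Ideal.Quotient.mk J p = A i a c) ∧
              Ideal.span (Set.range g) = ∏ k, I k ∧
              (∀ v : Fin (b 0) → MvPolynomial (Fin n) K ⧸ J,
                  ∑ j, v j * g j = 0 ↔ ∃ w, (A 0).mulVec w = v) ∧
              (∀ (i : ℕ) (v : Fin (b (i + 1)) → MvPolynomial (Fin n) K ⧸ J),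
                  (A i).mulVec v = 0 ↔ ∃ w, (A (i + 1)).mulVec w = v)) := by
  intro H
  have hprod : ∏ _k : Fin 2, (Ideal.span {Pool.Agent.H10.K382.xy} :
      Ideal Pool.Agent.H10.K382.A) =
      Ideal.span {Pool.Agent.H10.K382.xy * Pool.Agent.H10.K382.xy} := by
    rw [Fin.prod_univ_two, Ideal.span_singleton_mul_span_singleton]
  obtain ⟨b, g, A, hg, hA, hs, h0, -⟩ := H ℚ 4 Pool.Agent.H10.K382.J Pool.Agent.H10.K382.J_hom
    Pool.Agent.H10.K382.F Pool.Agent.H10.K382.F_lin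
    (by simp [Pool.Agent.H10.K382.F])
    (by rw [Pool.Agent.H10.K382.max_eq]; simp [Pool.Agent.H10.K382.F])
    Pool.Agent.H10.K382.F_col 2 (by norm_num)
    (fun _ => Ideal.span {Pool.Agent.H10.K382.xy})
    (fun _ => by simp [Pool.Agent.H10.K382.F])
    (by
      rw [hprod, Ne, Ideal.span_singleton_eq_bot]
      exact Pool.Agent.H10.K382.yy_ne)
  rw [hprod] at hs
  exact Pool.Agent.H10.K382.no_res b g A hg hA hs h0

end Pool.Agent.S0382
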