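import Pool.Statements.S0438
-- import your own Pool.Agent.* helpers here

set_option autoImplicit false
open Pool Pool.MP_42baf1_al

namespace Pool.Agent.S0438

open Equiv

lemma pow_rot (N k : ℕ) (hk : k ≤ N + 1) : (((finRotate (N+2))^k) 0).val = k := by
  induction k with
  | zero => simp
  | succ k ih =>
    rw [pow_succ', Perm.mul_apply, coe_finRotate, ih (by omega)]
    have : ((finRotate (N+2))^k) 0 ≠ Fin.last (N+1) := by
      intro h
      have := congrArg Fin.val h
      rw [ih (by omega)] at this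
      simp at this
      omega
    rw [if_neg this]

/-- twice the position, reduced -/
def rho (N h : ℕ) (z : Fin (N+2)) : ℤ := if z.val ≤ h then 2 * (z.val : ℤ) else 2 * (z.val : ℤ) - (N + 2)

def gg (N h : ℕ) (z : Fin (N+2)) : ℤ := if z.val = 0 then 0 else if z.val = h then 2 else 1

/-- the state of one token -/
def Tok (N h : ℕ) (T Θ : ℤ) (z : Fin (N+2)) (D m : ℤ) : Prop :=
  m * (N + 2) + rho N h z = Θ + 2 * T - D ∧ D ≤ m + gg N h z ∧ -D ≤ m + 1

lemma tok_rot (N h : ℕ) (hN : N + 2 = 2 * h + 1) (hh : 1 ≤ h) (T Θ : ℤ) (z : Fin (N+2)) (D m : ℤ)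
    (H : Tok N h T Θ z D m) : ∃ m', Tok N h (T+1) Θ (finRotate (N+2) z) D m' := by
  obtain ⟨h1, h2, h3⟩ := H
  have hz := z.isLt
  unfold Tok
  by_cases hlast : z = Fin.last (N+1)
  · -- wraps to zero
    have hv : z.val = N + 1 := by rw [hlast]; rfl
    have hr : (finRotate (N+2) z).val = 0 := by rw [coe_finRotate, if_pos hlast]
    refine ⟨m + 1, ?_, ?_, ?_⟩
    · unfold rho at h1 ⊢
      rw [hr]; rw [hv] at h1
      simp only [if_neg (show ¬ (N + 1 ≤ h) by omega)] at h1
      simp only [if_pos (Nat.zero_le h)]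
      push_cast at h1 ⊢
      have : (N:ℤ) + 2 = 2 * h + 1 := by exact_mod_cast hN
      linarith
    · unfold gg at h2 ⊢
      rw [hr]; rw [hv] at h2
      simp only [if_neg (show ¬ (N + 1 = 0) by omega), if_neg (show ¬ (N + 1 = h) by omega)] at h2
      simp only [if_pos]
      linarith
    · linarith
  · have hr : (finRotate (N+2) z).val = z.val + 1 := by rw [coe_finRotate, if_neg hlast]
    have hv : z.val < N + 1 := by
      have : z.val ≠ N + 1 := fun h => hlast (Fin.ext h)
      omega
    by_cases hzh : z.val = h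
    · refine ⟨m + 1, ?_, ?_, ?_⟩
      · unfold rho at h1 ⊢
        rw [hr]
        rw [if_pos (by omega)] at h1
        rw [if_neg (by omega)]
        push_cast
        linarith
      · unfold gg at h2 ⊢
        rw [hr]
        rw [if_neg (by omega), if_pos hzh] at h2
        rw [if_neg (by omega), if_neg (by omega)]
        linarith
      · linarith
    · refine ⟨m, ?_, ?_, ?_⟩
      · unfold rho at h1 ⊢
        rw [hr]
        by_cases hle : z.val ≤ h
        · rw [if_pos hle] at h1
          rw [if_pos (by omega)]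
          push_cast
          linarith
        · rw [if_neg hle] at h1
          rw [if_neg (by omega)]
          push_cast
          linarith
      · unfold gg at h2 ⊢
        rw [hr]
        rw [if_neg (by omega : ¬ (z.val + 1 = 0))]
        split_ifs at h2 ⊢ <;> linarith
      · exact h3

lemma tok_swap (N h : ℕ) (hN : N + 2 = 2 * h + 1) (hh : 1 ≤ h) (T Θ : ℤ) (z c : Fin (N+2))
    (hc : c.val = h) (D m : ℤ)
    (H : Tok N h T Θ z D m) : ∃ D' m', Tok N h T Θ (swap 0 c z) D' m' := by
  obtain ⟨h1, h2, h3⟩ := H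
  have hz := z.isLt
  have hNz : (N:ℤ) + 2 = 2 * h + 1 := by exact_mod_cast hN
  unfold Tok
  by_cases hz0 : z = 0
  · subst hz0
    rw [swap_apply_left]
    refine ⟨D + 1, m - 1, ?_, ?_, ?_⟩
    · unfold rho at h1 ⊢
      rw [hc, if_pos le_rfl]
      simp only [Fin.val_zero, Nat.zero_le, if_true] at h1
      push_cast at h1
      linarith
    · unfold gg at h2 ⊢
      rw [hc, if_neg (by omega), if_pos rfl]
      simp only [Fin.val_zero, if_true] at h2
      linarith
    · unfold gg at h2
      linarith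
  · by_cases hzc : z = c
    · subst hzc
      rw [swap_apply_right]
      refine ⟨D - 1, m + 1, ?_, ?_, ?_⟩
      · unfold rho at h1 ⊢
        rw [if_pos hc.le, hc] at h1
        simp only [Fin.val_zero, Nat.zero_le, if_true]
        push_cast
        linarith
      · unfold gg at h2 ⊢
        rw [hc, if_neg (by omega), if_pos rfl] at h2
        simp only [Fin.val_zero, if_true]
        linarith
      · linarith
    · rw [swap_apply_of_ne_of_ne hz0 hzc]
      exact ⟨D, m, h1, h2, h3⟩

lemma tok_word (N h : ℕ) (hN : N + 2 = 2 * h + 1) (hh : 1 ≤ h) (c : Fin (N+2)) (hc : c.val = h)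
    (w : List (Perm (Fin (N+2)))) (hw : ∀ s ∈ w, s = finRotate (N+2) ∨ s = swap 0 c) :
    ∃ T : ℕ, T ≤ w.length ∧ ∀ (Θ : ℤ) (z : Fin (N+2)) (D m : ℤ), Tok N h 0 Θ z D m →
      ∃ D' m', Tok N h T Θ (w.prod z) D' m' := by
  induction w with
  | nil => exact ⟨0, le_rfl, fun Θ z D m H => ⟨D, m, by simpa using H⟩⟩
  | cons s w ih =>
    obtain ⟨T, hT, hTok⟩ := ih (fun s hs => hw s (List.mem_cons_of_mem _ hs))
    rcases hw s List.mem_cons_self with rfl | rfl
    · refine ⟨T + 1, by simp [hT], fun Θ z D m H => ?_⟩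
      obtain ⟨D', m', H'⟩ := hTok Θ z D m H
      obtain ⟨m'', H''⟩ := tok_rot N h hN hh _ _ _ _ _ H'
      refine ⟨D', m'', ?_⟩
      rw [List.prod_cons, Perm.mul_apply]
      push_cast
      exact H''
    · refine ⟨T, by rw [List.length_cons]; omega, fun Θ z D m H => ?_⟩
      obtain ⟨D', m', H'⟩ := hTok Θ z D m H
      obtain ⟨D'', m'', H''⟩ := tok_swap N h hN hh _ _ _ c hc _ _ H'
      refine ⟨D'', m'', ?_⟩
      rw [List.prod_cons, Perm.mul_apply]
      exact H''

lemma preprim (α : Type) : MulAction.IsPreprimitive (⊤ : Subgroup (Perm α)) α := by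
  let φ : Perm α → (⊤ : Subgroup (Perm α)) := fun g => ⟨g, Subgroup.mem_top g⟩
  let f : α →ₑ[φ] α := ⟨id, fun g x => rfl⟩
  exact MulAction.IsPreprimitive.of_surjective (f := f) Function.surjective_id

/-- The negation of the preceding statement: There is a constant C such that for every primitive G ≤ Sym(n) generated by S, every partition P and distinct points a, b: if some element of G sends a, b into one part of P, then some word over S of length at most C·n does too. -/
theorem result :
    ¬ (∃ C : ℕ, ∀ (n : ℕ) (G : Subgroup (Equiv.Perm (Fin n))),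
      MulAction.IsPreprimitive G (Fin n) →
      ∀ S : Set (Equiv.Perm (Fin n)), Subgroup.closure S = G →
      ∀ P : Setoid (Fin n), ∀ a b : Fin n, a ≠ b →
        (∃ g ∈ G, P.r (g a) (g b)) →
        ∃ w : List (Equiv.Perm (Fin n)), (∀ s ∈ w, s ∈ S) ∧
          w.length ≤ C * n ∧ P.r (w.prod a) (w.prod b)) := by
  rintro ⟨C, H⟩
  -- parameters
  obtain ⟨e, he⟩ : ∃ e : ℕ, e = 4 * C + 20 := ⟨_, rfl⟩
  obtain ⟨N, hN⟩ : ∃ N : ℕ, N + 2 = 2 * (2 * e) + 1 := ⟨4 * e - 1, by omega⟩
  set h := 2 * e with hh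
  have hh1 : 1 ≤ h := by omega
  set c : Fin (N+2) := ((finRotate (N+2))^h) 0 with hcdef
  have hc : c.val = h := pow_rot N h (by omega)
  set d : Fin (N+2) := ⟨e, by omega⟩ with hd
  have hcl : Subgroup.closure ({finRotate (N+2), swap 0 c} : Set (Perm (Fin (N+2)))) = ⊤ := by
    apply Perm.closure_cycle_coprime_swap
    · rw [Fintype.card_fin, hN]
      have : Nat.Coprime h (1 + 2 * h) := by
        rw [Nat.coprime_add_mul_right_right]
        exact Nat.coprime_one_right h
      rwa [add_comm] at this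
    · exact isCycle_finRotate
    · exact support_finRotate
  set P : Setoid (Fin (N+2)) := Setoid.ker (fun x => if x = d then (0 : Fin (N+2)) else x) with hP
  have hd0 : d ≠ 0 := by
    intro h0
    have := congrArg Fin.val h0
    simp [hd] at this
    omega
  have hc0 : c ≠ 0 := by
    intro h0
    have := congrArg Fin.val h0
    rw [hc] at this
    simp at this
    omega
  obtain ⟨w, hwS, hwl, hwP⟩ := H (N+2) ⊤ (preprim _) _ hcl P 0 c (Ne.symm hc0)
    ⟨swap c d, Subgroup.mem_top _, by
      rw [swap_apply_left]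
      rw [swap_apply_of_ne_of_ne (Ne.symm hc0) (Ne.symm hd0)]
      show (if (0 : Fin (N+2)) = d then (0 : Fin (N+2)) else 0) = (if d = d then 0 else d)
      rw [if_pos rfl, if_neg (Ne.symm hd0)]⟩
  obtain ⟨T, hT, hTok⟩ := tok_word N h hN hh1 c hc w (by
    intro s hs
    have := hwS s hs
    simpa using this)
  have hNz : (N:ℤ) + 2 = 2 * h + 1 := by exact_mod_cast hN
  obtain ⟨D1, m1, H1⟩ := hTok 0 0 0 0 (by
    refine ⟨?_, ?_, ?_⟩ <;> simp [rho, gg])
  obtain ⟨D2, m2, H2⟩ := hTok (-1) c 0 (-1) (by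
    refine ⟨?_, ?_, ?_⟩
    · unfold rho
      rw [hc, if_pos le_rfl]
      linarith
    · unfold gg
      rw [hc, if_neg (by omega), if_pos rfl]
      norm_num
    · norm_num)
  have hne : w.prod 0 ≠ w.prod c := fun h => hc0 (w.prod.injective h).symm
  have hpair : (w.prod 0 = 0 ∧ w.prod c = d) ∨ (w.prod 0 = d ∧ w.prod c = 0) := by
    have hwP' : (if w.prod 0 = d then (0 : Fin (N+2)) else w.prod 0) =
      (if w.prod c = d then (0 : Fin (N+2)) else w.prod c) := hwP
    split_ifs at hwP' with ha hb hb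
    · exact absurd (ha.trans hb.symm) hne
    · right; exact ⟨ha, hwP'.symm⟩
    · left; exact ⟨hwP', hb⟩
    · exact absurd hwP' hne
  have hTz : (T:ℤ) ≤ C * (N + 2) := by
    have : T ≤ C * (N + 2) := hT.trans hwl
    exact_mod_cast this
  have hrho0 : rho N h 0 = 0 := by simp [rho]
  have hrhod : rho N h d = 2 * e := by
    unfold rho
    rw [if_pos (by simp [hd]; omega)]
  -- bounds on the displacements
  have key : ∀ (Θ : ℤ) (z : Fin (N+2)) (D m : ℤ), Θ ≤ 0 → (z = 0 ∨ z = d) → Tok N h T Θ z D m →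
      D ≤ 2 * C + 5 ∧ -D ≤ 2 * C + 5 := by
    intro Θ z D m hΘ hz H
    obtain ⟨a1, a2, a3⟩ := H
    have hg : gg N h z ≤ 2 := by
      unfold gg; split_ifs <;> norm_num
    have hr : 0 ≤ rho N h z := by
      rcases hz with rfl | rfl
      · rw [hrho0]
      · rw [hrhod]; positivity
    have hm : m ≤ 2 * C + 3 := by
      by_contra hcon
      push Not at hcon
      have h1 : (2 * (C:ℤ) + 4) * (N + 1) ≤ m * (N + 1) := by
        apply mul_le_mul_of_nonneg_right _ (by positivity)
        linarith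
      have h2 : (C:ℤ) < N := by
        have : C < N := by omega
        exact_mod_cast this
      nlinarith
    constructor <;> linarith
  have hz1 : w.prod 0 = 0 ∨ w.prod 0 = d := by
    rcases hpair with ⟨h1, _⟩ | ⟨h1, _⟩
    · exact Or.inl h1
    · exact Or.inr h1
  have hz2 : w.prod c = 0 ∨ w.prod c = d := by
    rcases hpair with ⟨_, h1⟩ | ⟨_, h1⟩
    · exact Or.inr h1
    · exact Or.inl h1
  obtain ⟨b1, b2⟩ := key 0 _ _ _ le_rfl hz1 H1
  obtain ⟨b3, b4⟩ := key (-1) _ _ _ (by norm_num) hz2 H2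
  obtain ⟨e1, -, -⟩ := H1
  obtain ⟨e2, -, -⟩ := H2
  have hez : (e:ℤ) = 4 * C + 20 := by exact_mod_cast he
  have hhz : (h:ℤ) = 2 * e := by rw [hh]; push_cast; ring
  have hlin : (m1 - m2) * (N + 2) + (rho N h (w.prod 0) - rho N h (w.prod c)) = 1 - D1 + D2 := by
    linarith
  generalize hk : m1 - m2 = k at hlin
  rcases hpair with ⟨p1, p2⟩ | ⟨p1, p2⟩
  · rw [p1, p2, hrho0, hrhod] at hlin
    rcases lt_trichotomy k 0 with hk0 | hk0 | hk0
    · nlinarith
    · subst hk0; linarith
    · nlinarith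
  · rw [p1, p2, hrho0, hrhod] at hlin
    rcases lt_trichotomy k 0 with hk0 | hk0 | hk0
    · nlinarith
    · subst hk0; linarith
    · nlinarith

end Pool.Agent.S0438
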