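-- Proof of the frozen statement S0527.
import Pool.Statements.S0527
import Pool.Agent.H8.SdfFC
import Pool.Agent.H8.SdfBasicSub2

set_option autoImplicit false
set_option linter.style.haveILetI false
open Pool Pool.MP_5e7eb0_al

namespace Pool.Agent.S0527

open Pool.Agent.H8Sdf in
/-- Every locally normal residually finite group G has a normal subgroup H that embeds in a restricted direct product of finite groups, with G/H a divisible abelian group. -/
theorem result :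
    ∀ (G : Type) [Group G],
      (∀ s : Finset G, ∃ N : Subgroup G, N.Normal ∧ (N : Set G).Finite ∧ (↑s : Set G) ⊆ (N : Set G)) →
      (∀ g : G, g ≠ 1 → ∃ N : Subgroup G, N.Normal ∧ N.FiniteIndex ∧ g ∉ N) →
      ∃ H : Subgroup G, H.Normal ∧
        (∃ (ι : Type) (F : ι → Type) (instG : ∀ i, Group (F i)) (instF : ∀ i, Finite (F i))
            (φ : H →* ((i : ι) → F i)),
            Function.Injective φ ∧ ∀ h : H, {i : ι | φ h i ≠ 1}.Finite) ∧
        (∀ a b : G, a * b * a⁻¹ * b⁻¹ ∈ H) ∧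
        (∀ (g : G) (n : ℕ), 0 < n → ∃ y : G, g⁻¹ * y ^ n ∈ H) := by
  classical
  intro G _ hLN hRF
  have htor : ∀ x : G, ∃ m : ℕ, 0 < m ∧ x ^ m = 1 := by
    intro x
    obtain ⟨N, h1, h2, h3⟩ := hLN {x}
    haveI : Finite N := h2
    refine ⟨Nat.card N, Nat.card_pos, ?_⟩
    have h4 : (⟨x, h3 (by simp)⟩ : N) ^ Nat.card N = 1 := pow_card_eq_one'
    exact congrArg Subtype.val h4
  have hof : ∀ a : Additive (Abelianization G), ∃ x : G, Additive.ofMul (Abelianization.of x) = a :=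
    fun a => QuotientGroup.mk'_surjective (commutator G) (Additive.toMul a)
  obtain ⟨J, n, β, hn, hinj, hdiv⟩ := basic (Additive (Abelianization G)) (by
    intro a
    obtain ⟨x, rfl⟩ := hof a
    obtain ⟨m, hm, hxm⟩ := htor x
    refine ⟨m, hm, ?_⟩
    rw [← ofMul_pow, ← map_pow, hxm, map_one]; rfl)
  let B : Subgroup G :=
    { carrier := {x | Additive.ofMul (Abelianization.of x) ∈ β.range}
      one_mem' := by
        show Additive.ofMul (Abelianization.of (1 : G)) ∈ β.range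
        rw [map_one]; exact AddSubgroup.zero_mem _
      mul_mem' := by
        intro x y hx hy
        show Additive.ofMul (Abelianization.of (x * y)) ∈ β.range
        rw [map_mul, ofMul_mul]
        exact AddSubgroup.add_mem _ hx hy
      inv_mem' := by
        intro x hx
        show Additive.ofMul (Abelianization.of x⁻¹) ∈ β.range
        rw [map_inv, ofMul_inv]
        exact AddSubgroup.neg_mem _ hx }
  have hB : ∀ x, x ∈ B ↔ Additive.ofMul (Abelianization.of x) ∈ β.range := fun x => Iff.rfl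
  have hBcomm : ∀ a b : G, a * b * a⁻¹ * b⁻¹ ∈ B := by
    intro a b
    rw [hB]
    have : Abelianization.of (a * b * a⁻¹ * b⁻¹) = 1 := by
      rw [map_mul, map_mul, map_mul, map_inv, map_inv, mul_comm (Abelianization.of a)]
      group
    rw [this]; exact AddSubgroup.zero_mem _
  haveI hBn : B.Normal := by
    refine ⟨fun b hb g => ?_⟩
    have h1 := B.mul_mem (hBcomm g b) hb
    have h2 : g * b * g⁻¹ * b⁻¹ * b = g * b * g⁻¹ := by group
    rw [h2] at h1
    exact h1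
  have hBdiv : ∀ (g : G) (m : ℕ), 0 < m → ∃ y : G, g⁻¹ * y ^ m ∈ B := by
    intro g m hm
    obtain ⟨b, hb⟩ := hdiv m (Additive.ofMul (Abelianization.of g)) hm
    obtain ⟨y, rfl⟩ := hof b
    refine ⟨y, ?_⟩
    rw [hB, map_mul, map_inv, map_pow, ofMul_mul, ofMul_inv, ofMul_pow]
    have h1 := AddSubgroup.neg_mem _ hb
    have h2 : -(Additive.ofMul (Abelianization.of g) - m • Additive.ofMul (Abelianization.of y)) =
        -Additive.ofMul (Abelianization.of g) + m • Additive.ofMul (Abelianization.of y) := by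
      abel
    rw [h2] at h1
    exact h1
  -- decomposition relative to an element
  have hdec : ∀ x g : G, ∃ b ∈ B, ∃ c : G, c * x = x * c ∧ g = b * c := by
    intro x g
    obtain ⟨N, hN1, hN2, hN3⟩ := hLN {x}
    haveI := hN1
    haveI : Finite N := hN2
    have hxN : x ∈ N := hN3 (by simp)
    haveI : Finite (MulAut N) := inferInstance
    obtain ⟨y, hy⟩ := hBdiv g (Nat.card (MulAut N)) Nat.card_pos
    have hc : (MulAut.conjNormal (y ^ Nat.card (MulAut N)) : MulAut N) = 1 := by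
      rw [map_pow]; exact pow_card_eq_one'
    have hcx : y ^ Nat.card (MulAut N) * x * (y ^ Nat.card (MulAut N))⁻¹ = x := by
      have h1 : ((MulAut.conjNormal (y ^ Nat.card (MulAut N)) : MulAut N) ⟨x, hxN⟩ : G) = x := by
        rw [hc]; rfl
      rw [MulAut.conjNormal_apply] at h1
      exact h1
    obtain ⟨c, hcdef⟩ : ∃ c, c = y ^ Nat.card (MulAut N) := ⟨_, rfl⟩
    rw [← hcdef] at hy hcx
    refine ⟨c * (g⁻¹ * c)⁻¹ * c⁻¹, hBn.conj_mem _ (B.inv_mem hy) c, c, ?_, ?_⟩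
    · rw [mul_inv_eq_iff_eq_mul] at hcx
      exact hcx
    · group
  have hcommB : ∀ x ∈ commutator G, ∀ hx : x ∈ B, (⟨x, hx⟩ : B) ∈ commutator B := by
    have h1 : commutator G ≤ (commutator B).map B.subtype := by
      rw [commutator_def, Subgroup.commutator_le]
      intro x _ y _
      obtain ⟨b₁, hb₁, c₁, hc₁, rfl⟩ := hdec x y
      obtain ⟨b₂, hb₂, c₂, hc₂, hx⟩ := hdec b₁ x
      refine ⟨(⟨b₂, hb₂⟩ : B) * (⟨b₁, hb₁⟩ : B) * (⟨b₂, hb₂⟩ : B)⁻¹ * (⟨b₁, hb₁⟩ : B)⁻¹, ?_, ?_⟩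
      · rw [SetLike.mem_coe, commutator_def]
        exact Subgroup.commutator_mem_commutator (G := B) (Subgroup.mem_top (⟨b₂, hb₂⟩ : B))
          (Subgroup.mem_top (⟨b₁, hb₁⟩ : B))
      · show b₂ * b₁ * b₂⁻¹ * b₁⁻¹ = x * (b₁ * c₁) * x⁻¹ * (b₁ * c₁)⁻¹
        have h2 : x * (b₁ * c₁) * x⁻¹ * (b₁ * c₁)⁻¹ = x * b₁ * x⁻¹ * b₁⁻¹ := by
          have h4 : c₁ * x⁻¹ = x⁻¹ * c₁ := Commute.inv_right hc₁
          calc x * (b₁ * c₁) * x⁻¹ * (b₁ * c₁)⁻¹ = x * b₁ * (c₁ * x⁻¹) * c₁⁻¹ * b₁⁻¹ := by group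
            _ = x * b₁ * (x⁻¹ * c₁) * c₁⁻¹ * b₁⁻¹ := by rw [h4]
            _ = x * b₁ * x⁻¹ * b₁⁻¹ := by group
        have h3 : x * b₁ * x⁻¹ * b₁⁻¹ = b₂ * b₁ * b₂⁻¹ * b₁⁻¹ := by
          rw [hx]
          calc b₂ * c₂ * b₁ * (b₂ * c₂)⁻¹ * b₁⁻¹ = b₂ * (c₂ * b₁) * c₂⁻¹ * b₂⁻¹ * b₁⁻¹ := by group
            _ = b₂ * (b₁ * c₂) * c₂⁻¹ * b₂⁻¹ * b₁⁻¹ := by rw [hc₂]
            _ = b₂ * b₁ * b₂⁻¹ * b₁⁻¹ := by group
        rw [h2, h3]
    intro x hx hxB
    obtain ⟨y, hy, hyx⟩ := h1 hx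
    have : y = ⟨x, hxB⟩ := Subtype.ext hyx
    rw [← this]; exact hy
  let e : (Π₀ j, ZMod (n j)) ≃+ β.range := AddMonoidHom.ofInjective hinj
  let π : B →* Multiplicative (Π₀ j, ZMod (n j)) := MonoidHom.mk'
    (fun x => Multiplicative.ofAdd (e.symm ⟨Additive.ofMul (Abelianization.of x.1), x.2⟩)) (by
      intro x y
      rw [← ofAdd_add, ← map_add]
      congr 2)
  have D : Dec π := by
    refine ⟨hn, ?_, ?_⟩
    · intro f
      obtain ⟨x, hx⟩ := hof (β (Multiplicative.toAdd f))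
      refine ⟨⟨x, by rw [hB, hx]; exact ⟨_, rfl⟩⟩, ?_⟩
      show Multiplicative.ofAdd (e.symm _) = f
      have : e.symm ⟨Additive.ofMul (Abelianization.of x), by rw [hx]; exact ⟨_, rfl⟩⟩ =
          Multiplicative.toAdd f := by
        rw [AddEquiv.symm_apply_eq]
        apply Subtype.ext
        exact hx
      rw [this]; rfl
    · intro x hx
      have h1 : e.symm ⟨Additive.ofMul (Abelianization.of x.1), x.2⟩ = 0 := hx
      rw [AddEquiv.symm_apply_eq, map_zero] at h1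
      have h2 : Additive.ofMul (Abelianization.of x.1) = 0 := congrArg Subtype.val h1
      have h3 : x.1 ∈ commutator G := (QuotientGroup.eq_one_iff x.1).mp h2
      exact hcommB x.1 h3 x.2
  have hRFB : RF B := by
    intro x hx
    obtain ⟨N, h1, h2, h3⟩ := hRF x.1 (fun h => hx (Subtype.ext h))
    exact ⟨N.subgroupOf B, inferInstance, inferInstance, h3⟩
  exact ⟨B, hBn, main D (LN.sub hLN B) hRFB, hBcomm, hBdiv⟩

end Pool.Agent.S0527
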