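import Pool.Statements.S0563
-- import your own Pool.Agent.* helpers here

set_option autoImplicit false
open Pool Pool.MP_67f4ab_al

namespace Pool.Agent.S0563

/-- letters of marked words -/
inductive Letter (G : Type) : Type
  | g : Letter G
  | k : Letter G
  | u : G → Letter G

section
variable {G : Type} [Group G]

def val (a b : G) : Letter G → G
  | .g => a
  | .k => b
  | .u x => x

def cst (f : G → ℝ) : Letter G → ℝ
  | .g => 0
  | .k => 0
  | .u x => f x

def ng : Letter G → ℕ
  | .g => 1
  | .k => 0
  | .u _ => 0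

def nk : Letter G → ℕ
  | .g => 0
  | .k => 1
  | .u _ => 0

def pr (a b : G) (w : List (Letter G)) : G := (w.map (val a b)).prod
def wc (f : G → ℝ) (w : List (Letter G)) : ℝ := (w.map (cst f)).sum
def wg (w : List (Letter G)) : ℕ := (w.map ng).sum
def wk (w : List (Letter G)) : ℕ := (w.map nk).sum

omit [Group G] in
lemma exists_g (w : List (Letter G)) (h : wg w ≠ 0) : ∃ A B, w = A ++ Letter.g :: B := by
  induction w with
  | nil => simp [wg] at h
  | cons l w ih =>
    cases l with
    | g => exact ⟨[], w, rfl⟩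
    | k =>
      have : wg w ≠ 0 := by simpa [wg, ng] using h
      obtain ⟨A, B, hAB⟩ := ih this
      exact ⟨.k :: A, B, by rw [hAB]; rfl⟩
    | u x =>
      have : wg w ≠ 0 := by simpa [wg, ng] using h
      obtain ⟨A, B, hAB⟩ := ih this
      exact ⟨.u x :: A, B, by rw [hAB]; rfl⟩

omit [Group G] in
lemma exists_k (w : List (Letter G)) (h : wk w ≠ 0) : ∃ A B, w = A ++ Letter.k :: B := by
  induction w with
  | nil => simp [wk] at h
  | cons l w ih =>
    cases l with
    | k => exact ⟨[], w, rfl⟩
    | g =>
      have : wk w ≠ 0 := by simpa [wk, nk] using h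
      obtain ⟨A, B, hAB⟩ := ih this
      exact ⟨.g :: A, B, by rw [hAB]; rfl⟩
    | u x =>
      have : wk w ≠ 0 := by simpa [wk, nk] using h
      obtain ⟨A, B, hAB⟩ := ih this
      exact ⟨.u x :: A, B, by rw [hAB]; rfl⟩

lemma base (φ f : G → ℝ) (a b : G) (h1 : φ 1 = 0)
    (hsub : ∀ g h, f (g * h) ≤ f g + f h) (hle : ∀ g, φ g ≤ f g)
    (w : List (Letter G)) (h2 : wg w = 0) (h3 : wk w = 0) :
    φ (pr a b w) ≤ wc f w := by
  cases w with
  | nil => simp [pr, wc, h1]
  | cons l w =>
    have key : ∀ (w : List (Letter G)) (l : Letter G), wg (l :: w) = 0 → wk (l :: w) = 0 →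
        f (pr a b (l :: w)) ≤ wc f (l :: w) := by
      intro w
      induction w with
      | nil =>
        intro l h2 h3
        cases l with
        | g => simp [wg, ng] at h2
        | k => simp [wk, nk] at h3
        | u x => simp [pr, wc, val, cst]
      | cons l' w ih =>
        intro l h2 h3
        cases l with
        | g => simp [wg, ng] at h2
        | k => simp [wk, nk] at h3
        | u x =>
          have h2' : wg (l' :: w) = 0 := by simpa [wg, ng] using h2
          have h3' : wk (l' :: w) = 0 := by simpa [wk, nk] using h3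
          have := ih l' h2' h3'
          have e1 : pr a b (Letter.u x :: l' :: w) = x * pr a b (l' :: w) := by
            simp [pr, val]
          have e2 : wc f (Letter.u x :: l' :: w) = f x + wc f (l' :: w) := by
            simp [wc, cst]
          rw [e1, e2]
          linarith [hsub x (pr a b (l' :: w))]
    exact (hle _).trans (key w l h2 h3)

lemma pr_append (a b : G) (v w : List (Letter G)) : pr a b (v ++ w) = pr a b v * pr a b w := by
  simp [pr]
lemma pr_cons_g (a b : G) (w : List (Letter G)) : pr a b (.g :: w) = a * pr a b w := by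
  simp [pr, val]
lemma pr_cons_k (a b : G) (w : List (Letter G)) : pr a b (.k :: w) = b * pr a b w := by
  simp [pr, val]
lemma pr_cons_u (a b x : G) (w : List (Letter G)) : pr a b (.u x :: w) = x * pr a b w := by
  simp [pr, val]
omit [Group G] in
lemma wc_append (f : G → ℝ) (v w : List (Letter G)) : wc f (v ++ w) = wc f v + wc f w := by
  simp [wc]
omit [Group G] in
lemma wc_cons_g (f : G → ℝ) (w : List (Letter G)) : wc f (.g :: w) = wc f w := by
  simp [wc, cst]
omit [Group G] in
lemma wc_cons_k (f : G → ℝ) (w : List (Letter G)) : wc f (.k :: w) = wc f w := by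
  simp [wc, cst]
omit [Group G] in
lemma wc_cons_u (f : G → ℝ) (x : G) (w : List (Letter G)) : wc f (.u x :: w) = f x + wc f w := by
  simp [wc, cst]
omit [Group G] in
lemma wg_append (v w : List (Letter G)) : wg (v ++ w) = wg v + wg w := by
  simp [wg]
omit [Group G] in
lemma wg_cons_g (w : List (Letter G)) : wg (.g :: w) = wg w + 1 := by
  simp [wg, ng, add_comm]
omit [Group G] in
lemma wg_cons_k (w : List (Letter G)) : wg (.k :: w) = wg w := by
  simp [wg, ng]
omit [Group G] in
lemma wg_cons_u (x : G) (w : List (Letter G)) : wg (.u x :: w) = wg w := by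
  simp [wg, ng]
omit [Group G] in
lemma wk_append (v w : List (Letter G)) : wk (v ++ w) = wk v + wk w := by
  simp [wk]
omit [Group G] in
lemma wk_cons_g (w : List (Letter G)) : wk (.g :: w) = wk w := by
  simp [wk, nk]
omit [Group G] in
lemma wk_cons_k (w : List (Letter G)) : wk (.k :: w) = wk w + 1 := by
  simp [wk, nk, add_comm]
omit [Group G] in
lemma wk_cons_u (x : G) (w : List (Letter G)) : wk (.u x :: w) = wk w := by
  simp [wk, nk]

lemma surgery (φ f : G → ℝ) (D : ℝ) (a b : G)
    (hD : ∀ g h : G, |φ (g * h) - φ g - φ h| ≤ D)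
    (hconj : ∀ g h : G, φ (g * h) = φ (h * g)) (h1 : φ 1 = 0)
    (hsub : ∀ g h, f (g * h) ≤ f g + f h) (hle : ∀ g, φ g ≤ f g) :
    ∀ (N : ℕ) (ws : Multiset (List (Letter G))), (ws.map wg).sum = N → (ws.map wk).sum = N →
      (ws.map (fun w => φ (pr a b w))).sum ≤ N * (D + f (a * b)) + (ws.map (wc f)).sum := by
  intro N
  induction N with
  | zero =>
    intro ws h2 h3
    rw [Multiset.sum_eq_zero_iff] at h2 h3
    simp only [Nat.cast_zero, zero_mul, zero_add]
    apply Multiset.sum_map_le_sum_map
    intro w hw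
    apply base φ f a b h1 hsub hle w
    · exact h2 _ (Multiset.mem_map_of_mem _ hw)
    · exact h3 _ (Multiset.mem_map_of_mem _ hw)
  | succ N ih =>
    intro ws h2 h3
    have hex : ∃ w ∈ ws, wg w ≠ 0 := by
      by_contra hcon
      push Not at hcon
      have : (ws.map wg).sum = 0 := by
        rw [Multiset.sum_eq_zero_iff]
        intro x hx
        obtain ⟨w, hw, rfl⟩ := Multiset.mem_map.1 hx
        exact hcon w hw
      omega
    obtain ⟨w, hw, hwg⟩ := hex
    obtain ⟨ws', rfl⟩ := Multiset.exists_cons_of_mem hw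
    obtain ⟨A, B, rfl⟩ := exists_g w hwg
    simp only [Multiset.map_cons, Multiset.sum_cons, wg_append, wg_cons_g, wk_append, wk_cons_g,
      pr_append, pr_cons_g, wc_append, wc_cons_g] at h2 h3 ⊢
    by_cases hB : wk B ≠ 0
    · obtain ⟨B1, B2, rfl⟩ := exists_k B hB
      have := ih (B1 ::ₘ ((Letter.u (a * b)) :: (B2 ++ A)) ::ₘ ws') (by
        simp only [Multiset.map_cons, Multiset.sum_cons, wg_append, wg_cons_u, wg_cons_k] at h2 ⊢
        omega) (by
        simp only [Multiset.map_cons, Multiset.sum_cons, wk_append, wk_cons_u, wk_cons_k] at h3 ⊢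
        omega)
      simp only [Multiset.map_cons, Multiset.sum_cons, pr_append, pr_cons_u, pr_cons_k,
        wc_append, wc_cons_u, wc_cons_k] at this ⊢
      have e1 : φ (pr a b A * (a * (pr a b B1 * (b * pr a b B2)))) =
          φ (pr a b B1 * (b * pr a b B2 * pr a b A * a)) := by
        rw [show pr a b A * (a * (pr a b B1 * (b * pr a b B2))) =
          (pr a b A * a) * (pr a b B1 * (b * pr a b B2)) by group, hconj]
        congr 1; group
      have e2 : φ (b * pr a b B2 * pr a b A * a) = φ (a * b * (pr a b B2 * pr a b A)) := by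
        rw [hconj]; congr 1; group
      have e3 := abs_le.1 (hD (pr a b B1) (b * pr a b B2 * pr a b A * a))
      push_cast
      linarith [e3.1, e3.2]
    · push Not at hB
      by_cases hA : wk A ≠ 0
      · obtain ⟨A1, A2, rfl⟩ := exists_k A hA
        have := ih ((B ++ A1) ::ₘ ((Letter.u (a * b)) :: A2) ::ₘ ws') (by
          simp only [Multiset.map_cons, Multiset.sum_cons, wg_append, wg_cons_u, wg_cons_k] at h2 ⊢
          omega) (by
          simp only [Multiset.map_cons, Multiset.sum_cons, wk_append, wk_cons_u, wk_cons_k] at h3 ⊢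
          omega)
        simp only [Multiset.map_cons, Multiset.sum_cons, pr_append, pr_cons_u, pr_cons_k,
          wc_append, wc_cons_u, wc_cons_k] at this ⊢
        have e1 : φ (pr a b A1 * (b * pr a b A2) * (a * pr a b B)) =
            φ (pr a b B * pr a b A1 * (b * pr a b A2 * a)) := by
          rw [show pr a b A1 * (b * pr a b A2) * (a * pr a b B) =
            (pr a b A1 * (b * pr a b A2) * a) * (pr a b B) by group, hconj]
          congr 1; group
        have e2 : φ (b * pr a b A2 * a) = φ (a * b * pr a b A2) := by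
          rw [hconj]; congr 1; group
        have e3 := abs_le.1 (hD (pr a b B * pr a b A1) (b * pr a b A2 * a))
        push_cast
        linarith [e3.1, e3.2]
      · push Not at hA
        have hex : ∃ w ∈ ws', wk w ≠ 0 := by
          by_contra hcon
          push Not at hcon
          have : (ws'.map wk).sum = 0 := by
            rw [Multiset.sum_eq_zero_iff]
            intro x hx
            obtain ⟨w, hw, rfl⟩ := Multiset.mem_map.1 hx
            exact hcon w hw
          omega
        obtain ⟨w', hw', hwk⟩ := hex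
        obtain ⟨ws'', rfl⟩ := Multiset.exists_cons_of_mem hw'
        obtain ⟨C, E, rfl⟩ := exists_k w' hwk
        have := ih ((B ++ A ++ (Letter.u (a * b)) :: (E ++ C)) ::ₘ ws'') (by
          simp only [Multiset.map_cons, Multiset.sum_cons, wg_append, wg_cons_u, wg_cons_k] at h2 ⊢
          omega) (by
          simp only [Multiset.map_cons, Multiset.sum_cons, wk_append, wk_cons_u, wk_cons_k] at h3 ⊢
          omega)
        simp only [Multiset.map_cons, Multiset.sum_cons, pr_append, pr_cons_u, pr_cons_k,
          wc_append, wc_cons_u, wc_cons_k] at this ⊢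
        have e1 : φ (pr a b A * (a * pr a b B)) = φ (pr a b B * pr a b A * a) := by
          rw [show pr a b A * (a * pr a b B) = (pr a b A * a) * pr a b B by group, hconj]
          congr 1; group
        have e2 : φ (pr a b C * (b * pr a b E)) = φ (b * pr a b E * pr a b C) := by
          rw [hconj]
        have e3 : φ (pr a b B * pr a b A * (a * b * (pr a b E * pr a b C))) =
            φ ((pr a b B * pr a b A * a) * (b * pr a b E * pr a b C)) := by
          congr 1; group
        have e4 := abs_le.1 (hD (pr a b B * pr a b A * a) (b * pr a b E * pr a b C))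
        push_cast
        linarith [e4.1, e4.2]

lemma exists_min (φ f₀ : G → ℝ) (h0 : ∀ g h, f₀ (g * h) ≤ f₀ g + f₀ h) (hφ : ∀ g, φ g ≤ f₀ g) :
    ∃ f : G → ℝ, (∀ g, f g ≤ f₀ g) ∧ (∀ g h, f (g * h) ≤ f g + f h) ∧ (∀ g, φ g ≤ f g) ∧
      ∀ f' : G → ℝ, (∀ g h, f' (g * h) ≤ f' g + f' h) → (∀ g, φ g ≤ f' g) →
        (∀ g, f' g ≤ f g) → ∀ g, f g ≤ f' g := by
  let s : Set (G → ℝ)ᵒᵈ := {f | (∀ g h, (OrderDual.ofDual f) (g * h) ≤ (OrderDual.ofDual f) g
    + (OrderDual.ofDual f) h) ∧ ∀ g, φ g ≤ (OrderDual.ofDual f) g}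
  obtain ⟨m, hm1, hm2⟩ := zorn_le_nonempty₀ s (by
    intro c hcs hc y hy
    have hne : Nonempty c := ⟨⟨y, hy⟩⟩
    have hbdd : ∀ g, BddBelow (Set.range fun f : c => (OrderDual.ofDual f.1) g) := by
      intro g
      refine ⟨φ g, ?_⟩
      rintro _ ⟨f, rfl⟩
      exact (hcs f.2).2 g
    refine ⟨OrderDual.toDual (fun g => ⨅ f : c, (OrderDual.ofDual f.1) g), ⟨?_, ?_⟩, ?_⟩
    · intro g h
      simp only [OrderDual.ofDual_toDual]
      apply le_of_forall_pos_le_add
      intro ε hε
      obtain ⟨f1, hf1⟩ := exists_lt_of_ciInf_lt (lt_add_of_pos_right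
        (⨅ f : c, (OrderDual.ofDual f.1) g) (half_pos hε))
      obtain ⟨f2, hf2⟩ := exists_lt_of_ciInf_lt (lt_add_of_pos_right
        (⨅ f : c, (OrderDual.ofDual f.1) h) (half_pos hε))
      have htot := hc.total f1.2 f2.2
      rcases htot with h12 | h21
      · have hh : ∀ x, (OrderDual.ofDual f2.1) x ≤ (OrderDual.ofDual f1.1) x := fun x => h12 x
        have h3 := ciInf_le (hbdd (g * h)) f2
        have h4 := (hcs f2.2).1 g h
        have h5 := hh g
        linarith
      · have hh : ∀ x, (OrderDual.ofDual f1.1) x ≤ (OrderDual.ofDual f2.1) x := fun x => h21 x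
        have h3 := ciInf_le (hbdd (g * h)) f1
        have h4 := (hcs f1.2).1 g h
        have h5 := hh h
        linarith
    · intro g
      exact le_ciInf fun f => (hcs f.2).2 g
    · intro z hz g
      exact ciInf_le (hbdd g) ⟨z, hz⟩) (OrderDual.toDual f₀) ⟨h0, hφ⟩
  refine ⟨OrderDual.ofDual m, fun g => hm1 g, hm2.prop.1, hm2.prop.2, ?_⟩
  intro f' h1 h2 h3 g
  have hmem : OrderDual.toDual f' ∈ s := ⟨h1, h2⟩
  exact hm2.le_of_ge hmem (fun x => h3 x) g

def valO (g₀ : G) : Option G → G
  | none => g₀
  | some x => x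

def costO (f : G → ℝ) (c : ℝ) : Option G → ℝ
  | none => c
  | some x => f x

lemma exists_word (φ f : G → ℝ)
    (hmin : ∀ f' : G → ℝ, (∀ g h, f' (g * h) ≤ f' g + f' h) → (∀ g, φ g ≤ f' g) →
        (∀ g, f' g ≤ f g) → ∀ g, f g ≤ f' g) (g₀ : G) (ε : ℝ) (hε : 0 < ε) :
    ∃ w : List (Option G), (w.map (costO f (f g₀ - ε))).sum < φ ((w.map (valO g₀)).prod) := by
  by_contra hcon
  push Not at hcon
  let c : List (Option G) → ℝ := fun w => (w.map (costO f (f g₀ - ε))).sum
  let p : List (Option G) → G := fun w => (w.map (valO g₀)).prod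
  have hcon' : ∀ w, φ (p w) ≤ c w := hcon
  let f' : G → ℝ := fun x => ⨅ w : {w // p w = x}, c w.1
  have hne : ∀ x, Nonempty {w // p w = x} := fun x => ⟨⟨[some x], by simp [p, valO]⟩⟩
  have hbdd : ∀ x, BddBelow (Set.range fun w : {w // p w = x} => c w.1) := by
    intro x
    refine ⟨φ x, ?_⟩
    rintro _ ⟨w, rfl⟩
    have := hcon' w.1
    rw [w.2] at this
    exact this
  have hf'le : ∀ (x : G) (w : List (Option G)), p w = x → f' x ≤ c w := by
    intro x w hw
    exact ciInf_le (hbdd x) ⟨w, hw⟩
  have h1 : ∀ g h, f' (g * h) ≤ f' g + f' h := by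
    intro g h
    apply le_of_forall_pos_le_add
    intro δ hδ
    obtain ⟨w1, hw1⟩ := exists_lt_of_ciInf_lt (lt_add_of_pos_right
      (⨅ w : {w // p w = g}, c w.1) (half_pos hδ))
    obtain ⟨w2, hw2⟩ := exists_lt_of_ciInf_lt (lt_add_of_pos_right
      (⨅ w : {w // p w = h}, c w.1) (half_pos hδ))
    have h3 := hf'le (g * h) (w1.1 ++ w2.1) (by
      have e1 := w1.2
      have e2 := w2.2
      simp only [p] at e1 e2 ⊢
      simp [e1, e2])
    have h4 : c (w1.1 ++ w2.1) = c w1.1 + c w2.1 := by simp [c]
    have e1 : f' g = ⨅ w : {w // p w = g}, c w.1 := rfl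
    have e2 : f' h = ⨅ w : {w // p w = h}, c w.1 := rfl
    linarith
  have h2 : ∀ g, φ g ≤ f' g := by
    intro g
    haveI := hne g
    apply le_ciInf
    intro w
    have := hcon' w.1
    rw [w.2] at this
    exact this
  have h3 : ∀ g, f' g ≤ f g := by
    intro g
    have := hf'le g [some g] (by simp [p, valO])
    simpa [c, costO] using this
  have h4 := hmin f' h1 h2 h3 g₀
  have h5 := hf'le g₀ [none] (by simp [p, valO])
  have h6 : c [none] = f g₀ - ε := by simp [c, costO]
  linarith

def embG : Option G → Letter G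
  | none => .g
  | some x => .u x

def embK : Option G → Letter G
  | none => .k
  | some x => .u x

lemma embG_pr (a b : G) (w : List (Option G)) : pr a b (w.map embG) = (w.map (valO a)).prod := by
  induction w with
  | nil => simp [pr]
  | cons l w ih =>
    cases l with
    | none => rw [List.map_cons, embG, pr_cons_g, ih]; simp [valO]
    | some x => rw [List.map_cons, embG, pr_cons_u, ih]; simp [valO]

lemma embK_pr (a b : G) (w : List (Option G)) : pr a b (w.map embK) = (w.map (valO b)).prod := by
  induction w with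
  | nil => simp [pr]
  | cons l w ih =>
    cases l with
    | none => rw [List.map_cons, embK, pr_cons_k, ih]; simp [valO]
    | some x => rw [List.map_cons, embK, pr_cons_u, ih]; simp [valO]

omit [Group G] in
lemma embG_cost (f : G → ℝ) (c : ℝ) (w : List (Option G)) :
    (w.map (costO f c)).sum = wc f (w.map embG) + wg (w.map embG) * c := by
  induction w with
  | nil => simp [wc, wg]
  | cons l w ih =>
    cases l with
    | none =>
      rw [List.map_cons, List.map_cons, List.sum_cons, embG, wc_cons_g, wg_cons_g, ih]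
      simp only [costO]; push_cast; ring
    | some x =>
      rw [List.map_cons, List.map_cons, List.sum_cons, embG, wc_cons_u, wg_cons_u, ih]
      simp only [costO]; ring

omit [Group G] in
lemma embK_cost (f : G → ℝ) (c : ℝ) (w : List (Option G)) :
    (w.map (costO f c)).sum = wc f (w.map embK) + wk (w.map embK) * c := by
  induction w with
  | nil => simp [wc, wk]
  | cons l w ih =>
    cases l with
    | none =>
      rw [List.map_cons, List.map_cons, List.sum_cons, embK, wc_cons_k, wk_cons_k, ih]
      simp only [costO]; push_cast; ring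
    | some x =>
      rw [List.map_cons, List.map_cons, List.sum_cons, embK, wc_cons_u, wk_cons_u, ih]
      simp only [costO]; ring

omit [Group G] in
lemma embG_wk (w : List (Option G)) : wk (w.map embG) = 0 := by
  induction w with
  | nil => simp [wk]
  | cons l w ih =>
    cases l with
    | none => rw [List.map_cons, embG, wk_cons_g, ih]
    | some x => rw [List.map_cons, embG, wk_cons_u, ih]

omit [Group G] in
lemma embK_wg (w : List (Option G)) : wg (w.map embK) = 0 := by
  induction w with
  | nil => simp [wg]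
  | cons l w ih =>
    cases l with
    | none => rw [List.map_cons, embK, wg_cons_k, ih]
    | some x => rw [List.map_cons, embK, wg_cons_u, ih]

theorem main (φ : G → ℝ) (D : ℝ)
    (hD : ∀ g h : G, |φ (g * h) - φ g - φ h| ≤ D)
    (hhom : ∀ (g : G) (n : ℕ), φ (g ^ n) = (n : ℝ) * φ g) :
    ∃ ψ : G → ℝ, (∃ C : ℝ, ∀ g : G, |ψ g - φ g| ≤ C) ∧
      ∀ g h : G, |ψ (g * h) - ψ g - ψ h| ≤ D / 2 := by
  have hD0 : 0 ≤ D := (abs_nonneg _).trans (hD 1 1)
  have h1 : φ 1 = 0 := by
    have := hhom 1 0
    simpa using this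
  -- helper: a real x with n*|x| ≤ C for all n is zero
  have harch : ∀ (x C : ℝ), (∀ n : ℕ, (n : ℝ) * |x| ≤ C) → x = 0 := by
    intro x C h
    by_contra hx
    have hpos : 0 < |x| := abs_pos.2 hx
    obtain ⟨n, hn⟩ := exists_nat_gt (C / |x|)
    have := h n
    rw [div_lt_iff₀ hpos] at hn
    linarith
  have hconj : ∀ g h : G, φ (g * h) = φ (h * g) := by
    intro g h
    have : φ (g * h) - φ (h * g) = 0 := by
      apply harch _ (2 * D + |φ g| + |φ g⁻¹|)
      intro n
      have e1 : (g * h) ^ n = g * (h * g) ^ n * g⁻¹ := by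
        induction n with
        | zero => simp
        | succ n ih => rw [pow_succ, ih, pow_succ]; group
      have e2 := hD (g * (h * g) ^ n) g⁻¹
      have e3 := hD g ((h * g) ^ n)
      rw [← e1] at e2
      rw [hhom] at e2
      rw [hhom] at e3
      have e4 : (n : ℝ) * |φ (g * h) - φ (h * g)| = |(n : ℝ) * φ (g * h) - (n : ℝ) * φ (h * g)| := by
        rw [← mul_sub, abs_mul, Nat.abs_cast]
      rw [e4]
      rw [abs_le] at e2 e3 ⊢
      have e5 := neg_abs_le (φ g)
      have e6 := neg_abs_le (φ g⁻¹)
      have e7 := le_abs_self (φ g)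
      have e8 := le_abs_self (φ g⁻¹)
      constructor <;> linarith [e2.1, e2.2, e3.1, e3.2]
    linarith
  obtain ⟨f, hf0, hsub, hle, hmin⟩ := exists_min φ (fun g => φ g + D) (by
    intro g h
    have := abs_le.1 (hD g h)
    show φ (g * h) + D ≤ φ g + D + (φ h + D)
    linarith [this.2]) (by intro g; show φ g ≤ φ g + D; linarith)
  have key : ∀ g k : G, f g + f k ≤ f (g * k) + D := by
    intro g k
    apply le_of_forall_pos_le_add
    intro ε' hε'
    set ε := ε' / 2 with hεdef
    have hε : 0 < ε := half_pos hε'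
    obtain ⟨w1, hw1⟩ := exists_word φ f hmin g ε hε
    obtain ⟨w2, hw2⟩ := exists_word φ f hmin k ε hε
    rw [embG_cost, ← embG_pr g k] at hw1
    rw [embK_cost, ← embK_pr g k] at hw2
    set v1 := w1.map embG with hv1
    set v2 := w2.map embK with hv2
    have hk1 : wk v1 = 0 := embG_wk w1
    have hg2 : wg v2 = 0 := embK_wg w2
    set a := wg v1 with ha
    set b := wk v2 with hb
    have ha0 : a ≠ 0 := by
      intro h0
      have := base φ f g k h1 hsub hle v1 (by rw [← ha]; exact h0) hk1
      rw [h0] at hw1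
      simp at hw1
      linarith
    have hb0 : b ≠ 0 := by
      intro h0
      have := base φ f g k h1 hsub hle v2 hg2 (by rw [← hb]; exact h0)
      rw [h0] at hw2
      simp at hw2
      linarith
    have hs := surgery φ f D g k hD hconj h1 hsub hle (a * b)
      (Multiset.replicate b v1 + Multiset.replicate a v2) (by
        simp only [Multiset.map_add, Multiset.map_replicate, Multiset.sum_add,
          Multiset.sum_replicate, smul_eq_mul]
        rw [← ha, hg2]; ring) (by
        simp only [Multiset.map_add, Multiset.map_replicate, Multiset.sum_add,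
          Multiset.sum_replicate, smul_eq_mul]
        rw [← hb, hk1]; ring)
    simp only [Multiset.map_add, Multiset.map_replicate, Multiset.sum_add,
          Multiset.sum_replicate, nsmul_eq_mul, Nat.cast_mul] at hs
    have ha1 : (0 : ℝ) < a := by exact_mod_cast Nat.pos_of_ne_zero ha0
    have hb1 : (0 : ℝ) < b := by exact_mod_cast Nat.pos_of_ne_zero hb0
    have m1 := mul_lt_mul_of_pos_left hw1 hb1
    have m2 := mul_lt_mul_of_pos_left hw2 ha1
    have hfin : (a * b : ℝ) * (f g + f k - 2 * ε) < (a * b : ℝ) * (D + f (g * k)) := by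
      nlinarith
    have := lt_of_mul_lt_mul_left hfin (by positivity)
    have : 2 * ε = ε' := by rw [hεdef]; ring
    linarith
  refine ⟨fun g => f g - D / 2, ⟨D, ?_⟩, ?_⟩
  · intro g
    have e1 := hf0 g
    have e2 := hle g
    show |f g - D / 2 - φ g| ≤ D
    rw [abs_le]
    constructor <;> linarith
  · intro g h
    have e1 := hsub g h
    have e2 := key g h
    show |f (g * h) - D / 2 - (f g - D / 2) - (f h - D / 2)| ≤ D / 2
    rw [abs_le]
    constructor <;> linarith

end

/-- For every free group and every homogeneous quasimorphism φ on it with defect D, there is a function ψ within bounded distance of φ whose defect is at most D/2, hence exactly D/2. -/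
theorem result :
    ∀ (α : Type) (φ : FreeGroup α → ℝ) (D : ℝ),
      (∀ g h : FreeGroup α, |φ (g * h) - φ g - φ h| ≤ D) →
      (∀ D' : ℝ, (∀ g h : FreeGroup α, |φ (g * h) - φ g - φ h| ≤ D') → D ≤ D') →
      (∀ (g : FreeGroup α) (n : ℕ), φ (g ^ n) = (n : ℝ) * φ g) →
      ∃ ψ : FreeGroup α → ℝ,
        (∃ C : ℝ, ∀ g : FreeGroup α, |ψ g - φ g| ≤ C) ∧
        ∀ g h : FreeGroup α, |ψ (g * h) - ψ g - ψ h| ≤ D / 2 := by
  intro α φ D hD _ hhom
  exact main φ D hD hhom

end Pool.Agent.S0563
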