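import Pool.Statements.S0619
-- import your own Pool.Agent.* helpers here

set_option autoImplicit false
open Pool Pool.MP_7490a7_al

namespace Pool.Agent.S0619

/-!
Letters: `0 = A` (left end marker), `1 = R` (right end marker), `2 = a`, `3 = x` (tape letters, not
yet passed), `4 = a'`, `5 = x'` (tape letters, already passed), `6 = p₀`, `7 = p₁` (right moving
heads), `8 = l` (left moving head).
-/

abbrev W := List (Fin 9)

/-- the eight rules -/
def rule (c d : Fin 9) : Option (Fin 9 × Fin 9) :=
  if c = 6 ∧ d = 2 then some (4, 7)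
  else if c = 7 ∧ d = 2 then some (5, 6)
  else if c = 6 ∧ d = 3 then some (5, 6)
  else if c = 7 ∧ d = 3 then some (5, 7)
  else if c = 6 ∧ d = 1 then some (8, 1)
  else if c = 4 ∧ d = 8 then some (8, 2)
  else if c = 5 ∧ d = 8 then some (8, 3)
  else if c = 0 ∧ d = 8 then some (0, 7)
  else none

def Step (u v : W) : Prop :=
  ∃ (x y : W) (c d e f : Fin 9), rule c d = some (e, f) ∧ u = x ++ c :: d :: y ∧
    v = x ++ e :: f :: y

lemma rule_cases {c d e f : Fin 9} (h : rule c d = some (e, f)) :
    (c = 6 ∧ d = 2 ∧ e = 4 ∧ f = 7) ∨ (c = 7 ∧ d = 2 ∧ e = 5 ∧ f = 6) ∨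
    (c = 6 ∧ d = 3 ∧ e = 5 ∧ f = 6) ∨ (c = 7 ∧ d = 3 ∧ e = 5 ∧ f = 7) ∨
    (c = 4 ∧ d = 8 ∧ e = 8 ∧ f = 2) ∨ (c = 5 ∧ d = 8 ∧ e = 8 ∧ f = 3) ∨
    (c = 6 ∧ d = 1 ∧ e = 8 ∧ f = 1) ∨ (c = 0 ∧ d = 8 ∧ e = 0 ∧ f = 7) := by
  unfold rule at h
  split_ifs at h with h1 h2 h3 h4 h5 h6 h7 h8
  all_goals (simp only [Option.some.injEq, Prod.mk.injEq] at h)
  · exact Or.inl ⟨h1.1, h1.2, h.1.symm, h.2.symm⟩
  · exact Or.inr (Or.inl ⟨h2.1, h2.2, h.1.symm, h.2.symm⟩)
  · exact Or.inr (Or.inr (Or.inl ⟨h3.1, h3.2, h.1.symm, h.2.symm⟩))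
  · exact Or.inr (Or.inr (Or.inr (Or.inl ⟨h4.1, h4.2, h.1.symm, h.2.symm⟩)))
  · exact Or.inr (Or.inr (Or.inr (Or.inr (Or.inr (Or.inr (Or.inl
      ⟨h5.1, h5.2, h.1.symm, h.2.symm⟩))))))
  · exact Or.inr (Or.inr (Or.inr (Or.inr (Or.inl ⟨h6.1, h6.2, h.1.symm, h.2.symm⟩))))
  · exact Or.inr (Or.inr (Or.inr (Or.inr (Or.inr (Or.inl ⟨h7.1, h7.2, h.1.symm, h.2.symm⟩)))))
  · exact Or.inr (Or.inr (Or.inr (Or.inr (Or.inr (Or.inr (Or.inr
      ⟨h8.1, h8.2, h.1.symm, h.2.symm⟩))))))

lemma no_overlap (c d e : Fin 9) (p q : Fin 9 × Fin 9) (h1 : rule c d = some p) :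
    rule d e ≠ some q := by
  intro h2
  obtain ⟨p1, p2⟩ := p
  obtain ⟨q1, q2⟩ := q
  have h3 : d = 2 ∨ d = 3 ∨ d = 8 ∨ d = 1 := by
    rcases rule_cases h1 with h | h | h | h | h | h | h | h <;> simp [h.2.1]
  have h4 : d = 6 ∨ d = 7 ∨ d = 4 ∨ d = 5 ∨ d = 0 := by
    rcases rule_cases h2 with h | h | h | h | h | h | h | h <;> simp [h.1]
  rcases h3 with rfl | rfl | rfl | rfl <;> rcases h4 with h | h | h | h | h <;>
    exact absurd h (by decide)

lemma diamond_aux (x1 : W) : ∀ (x2 y1 y2 : W) (c d e f c' d' e' f' : Fin 9),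
    rule c d = some (e, f) → rule c' d' = some (e', f') →
    x1 ++ c :: d :: y1 = x2 ++ c' :: d' :: y2 →
    (x1 ++ e :: f :: y1 = x2 ++ e' :: f' :: y2) ∨
      ∃ z, Step (x1 ++ e :: f :: y1) z ∧ Step (x2 ++ e' :: f' :: y2) z := by
  induction x1 with
  | nil =>
    intro x2 y1 y2 c d e f c' d' e' f' h1 h2 h
    rcases x2 with _ | ⟨g, _ | ⟨g', x2⟩⟩
    · simp only [List.nil_append, List.cons.injEq] at h
      obtain ⟨rfl, rfl, rfl⟩ := h
      rw [h1] at h2
      simp only [Option.some.injEq, Prod.mk.injEq] at h2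
      obtain ⟨rfl, rfl⟩ := h2
      left; rfl
    · simp only [List.nil_append, List.cons_append, List.cons.injEq] at h
      obtain ⟨rfl, rfl, _⟩ := h
      exact absurd h2 (no_overlap _ _ _ _ _ h1)
    · simp only [List.nil_append, List.cons_append, List.cons.injEq] at h
      obtain ⟨rfl, rfl, rfl⟩ := h
      right
      refine ⟨e :: f :: x2 ++ e' :: f' :: y2, ⟨e :: f :: x2, y2, c', d', e', f', h2, ?_, ?_⟩,
        ⟨[], x2 ++ e' :: f' :: y2, c, d, e, f, h1, ?_, ?_⟩⟩ <;> simp
  | cons g x1 ih =>
    intro x2 y1 y2 c d e f c' d' e' f' h1 h2 h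
    rcases x2 with _ | ⟨g', x2⟩
    · rcases x1 with _ | ⟨g', x1⟩
      · simp only [List.nil_append, List.cons_append, List.cons.injEq] at h
        obtain ⟨rfl, rfl, _⟩ := h
        exact absurd h1 (no_overlap _ _ _ _ _ h2)
      · simp only [List.nil_append, List.cons_append, List.cons.injEq] at h
        obtain ⟨rfl, rfl, rfl⟩ := h
        right
        refine ⟨e' :: f' :: x1 ++ e :: f :: y1,
          ⟨[], x1 ++ e :: f :: y1, _, _, e', f', h2, ?_, ?_⟩,
          ⟨e' :: f' :: x1, y1, c, d, e, f, h1, ?_, ?_⟩⟩ <;> simp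
    · simp only [List.cons_append, List.cons.injEq] at h
      obtain ⟨rfl, h⟩ := h
      rcases ih x2 y1 y2 c d e f c' d' e' f' h1 h2 h with h | ⟨z, ⟨a1, b1, c1, d1, e1, f1, g1, g2, g3⟩,
        ⟨a2, b2, c2, d2, e2, f2, k1, k2, k3⟩⟩
      · left; rw [List.cons_append, List.cons_append, h]
      · right
        refine ⟨g :: z, ⟨g :: a1, b1, c1, d1, e1, f1, g1, ?_, ?_⟩,
          ⟨g :: a2, b2, c2, d2, e2, f2, k1, ?_, ?_⟩⟩
        · simp only [List.cons_append, g2]
        · simp only [List.cons_append, g3]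
        · simp only [List.cons_append, k2]
        · simp only [List.cons_append, k3]

lemma diamond {u v w : W} (h1 : Step u v) (h2 : Step u w) :
    v = w ∨ ∃ z, Step v z ∧ Step w z := by
  obtain ⟨x1, y1, c, d, e, f, g1, rfl, rfl⟩ := h1
  obtain ⟨x2, y2, c', d', e', f', g2, hu, rfl⟩ := h2
  exact diamond_aux x1 x2 y1 y2 c d e f c' d' e' f' g1 g2 hu

/-- `Red n u z`: `u` reduces in exactly `n` steps to the normal form `z` -/
inductive Red : ℕ → W → W → Prop
  | nf (z : W) (h : ∀ v, ¬ Step z v) : Red 0 z z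
  | step {n : ℕ} {u v z : W} (h : Step u v) (hr : Red n v z) : Red (n + 1) u z

lemma descent {n : ℕ} {u z : W} (h : Red n u z) : ∀ v, Step u v → ∃ m, n = m + 1 ∧ Red m v z := by
  induction h with
  | nf z h => intro v hv; exact absurd hv (h v)
  | @step n u u' z hu hr ih =>
    intro v hv
    rcases diamond hu hv with rfl | ⟨w, hw1, hw2⟩
    · exact ⟨n, rfl, hr⟩
    · obtain ⟨m, hm, hr'⟩ := ih w hw1
      exact ⟨n, rfl, by rw [hm]; exact Red.step hw2 hr'⟩

/-! ### The potential -/

def isP (c : Fin 9) : Bool := c = 6 || c = 7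
def isHead (c : Fin 9) : Bool := c = 6 || c = 7 || c = 8
def isDelim (c : Fin 9) : Bool := c = 0 || c = 1
def isRt (c : Fin 9) : Bool := c = 2 || c = 3
def isLf (c : Fin 9) : Bool := c = 4 || c = 5
def isA (c : Fin 9) : Bool := c = 2 || c = 4

def hasHead : W → Bool
  | [] => false
  | c :: t => isHead c || hasHead t

def wR : Bool → W → ℕ
  | _, [] => 0
  | b, c :: t => if isP c then wR true t else if c = 8 then wR false t
      else (if isRt c && b then 2 else 0) + wR b t

def wL : W → ℕ
  | [] => 0
  | c :: t => (if isLf c && hasHead t then 1 else 0) + wL t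

def wH : W → ℕ
  | [] => 0
  | c :: t => (if isP c then 1 else 0) + wH t

def cA : W → ℕ
  | [] => 0
  | c :: t => (if isA c then 1 else 0) + cA t

def hval (n : ℕ) (c : Fin 9) (t : W) : ℕ :=
  if hasHead t then (if c = 8 then 1 else 0)
  else if c = 8 then 1 + Nat.size (n + cA t)
  else if c = 6 then (if cA t % 2 = 0 then 1 + Nat.size (n + (cA t + 1) / 2) else 0)
  else (if cA t % 2 = 1 then 1 + Nat.size (n + cA t / 2) else 0)

def kap : ℕ → W → ℕ
  | _, [] => 0
  | n, c :: t => if isHead c then hval n c t else kap (n + (if isA c then 1 else 0)) t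

def phi (s : W) : ℕ := wR false s + wL s + wH s + kap 0 s * (2 * s.length + 1)

lemma hasHead_app (acc s : W) : hasHead (acc ++ s) = (hasHead acc || hasHead s) := by
  induction acc with
  | nil => simp [hasHead]
  | cons c t ih => simp [hasHead, ih, Bool.or_assoc]

lemma wR_app {s s' : W} {k : ℕ} (h : ∀ b, wR b s = wR b s' + k) :
    ∀ (acc : W) (b : Bool), wR b (acc ++ s) = wR b (acc ++ s') + k := by
  intro acc
  induction acc with
  | nil => exact h
  | cons c t ih =>
    intro b
    simp only [List.cons_append, wR]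
    split_ifs
    · exact ih true
    · exact ih false
    · rw [ih b]; ring
    · rw [ih b]; ring

lemma wL_app {s s' : W} {k : ℕ} (hh : hasHead s = hasHead s') (h : wL s = wL s' + k) :
    ∀ acc : W, wL (acc ++ s) = wL (acc ++ s') + k := by
  intro acc
  induction acc with
  | nil => exact h
  | cons c t ih =>
    simp only [List.cons_append, wL]
    rw [hasHead_app, hasHead_app, hh, ih]
    ring

lemma wH_app {s s' : W} {k : ℕ} (h : wH s = wH s' + k) :
    ∀ acc : W, wH (acc ++ s) = wH (acc ++ s') + k := by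
  intro acc
  induction acc with
  | nil => exact h
  | cons c t ih =>
    simp only [List.cons_append, wH]
    rw [ih]; ring

lemma kap_app {s s' : W} (hs : hasHead s = true) (hs' : hasHead s' = true)
    (h : ∀ n, kap n s' ≤ kap n s) : ∀ (acc : W) (n : ℕ), kap n (acc ++ s') ≤ kap n (acc ++ s) := by
  intro acc
  induction acc with
  | nil => exact h
  | cons c t ih =>
    intro n
    simp only [List.cons_append, kap]
    split_ifs
    · unfold hval
      rw [hasHead_app, hasHead_app, hs, hs']
      simp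
    · exact ih _
    · exact ih _

/-- a local change decreasing the local weights decreases `phi` -/
lemma phi_lt {s s' : W} {kR kL kH mR mL mH : ℕ} (hlen : s'.length = s.length)
    (h1 : ∀ b, wR b s + mR = wR b s' + kR)
    (h2 : hasHead s = true) (h3 : hasHead s' = true)
    (h4 : wL s + mL = wL s' + kL) (h5 : wH s + mH = wH s' + kH)
    (hk : mR + mL + mH < kR + kL + kH)
    (h6 : ∀ n, kap n s' ≤ kap n s) (acc : W) :
    phi (acc ++ s') < phi (acc ++ s) := by
  have aR : ∀ (acc : W) (b : Bool), wR b (acc ++ s) + mR = wR b (acc ++ s') + kR := by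
    intro acc
    induction acc with
    | nil => exact h1
    | cons c t ih =>
      intro b
      simp only [List.cons_append, wR]
      split_ifs
      · exact ih true
      · exact ih false
      · have := ih b; omega
      · have := ih b; omega
  have aL : ∀ acc : W, wL (acc ++ s) + mL = wL (acc ++ s') + kL := by
    intro acc
    induction acc with
    | nil => exact h4
    | cons c t ih =>
      simp only [List.cons_append, wL]
      rw [hasHead_app, hasHead_app, h2, h3]
      omega
  have aH : ∀ acc : W, wH (acc ++ s) + mH = wH (acc ++ s') + kH := by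
    intro acc
    induction acc with
    | nil => exact h5
    | cons c t ih =>
      simp only [List.cons_append, wH]
      omega
  have g1 := aR acc false
  have g2 := aL acc
  have g3 := aH acc
  have g4 := kap_app h2 h3 h6 acc 0
  have hl : (acc ++ s').length = (acc ++ s).length := by simp [hlen]
  unfold phi
  rw [hl]
  have g5 := Nat.mul_le_mul_right (2 * (acc ++ s).length + 1) g4
  omega

lemma phi_tape {c d e f : Fin 9} (h : rule c d = some (e, f)) (hc : isDelim c = false)
    (hd : isDelim d = false) (acc z : W) :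
    phi (acc ++ e :: f :: z) < phi (acc ++ c :: d :: z) := by
  rcases rule_cases h with h | h | h | h | h | h | h | h <;> obtain ⟨rfl, rfl, rfl, rfl⟩ := h
  · apply phi_lt (kR := 2) (kL := 0) (kH := 0) (mR := 0) (mL := 1) (mH := 0)
    · simp
    · intro b; simp [wR, isP, isRt]; omega
    · simp [hasHead, isHead]
    · simp [hasHead, isHead]
    · simp [wL, isLf, hasHead, isHead]; omega
    · simp [wH, isP]
    · norm_num
    · intro n
      by_cases hz : hasHead z = true
      · simp [kap, isHead, isA, hval, hasHead, cA, hz]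
      · simp only [Bool.not_eq_true] at hz
        by_cases h2 : cA z % 2 = 1
        · have h3 : (1 + cA z) % 2 = 0 := by omega
          have e1 : (1 + (cA z + 1)) / 2 = 1 + cA z / 2 := by omega
          simp [kap, isHead, isA, hval, hasHead, cA, hz, h2, h3, e1, Nat.add_assoc]
        · simp [kap, isHead, isA, hval, hasHead, cA, hz, h2]
  · apply phi_lt (kR := 2) (kL := 0) (kH := 0) (mR := 0) (mL := 1) (mH := 0)
    · simp
    · intro b; simp [wR, isP, isRt]; omega
    · simp [hasHead, isHead]
    · simp [hasHead, isHead]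
    · simp [wL, isLf, hasHead, isHead]; omega
    · simp [wH, isP]
    · norm_num
    · intro n
      by_cases hz : hasHead z = true
      · simp [kap, isHead, isA, hval, hasHead, cA, hz]
      · simp only [Bool.not_eq_true] at hz
        by_cases h2 : cA z % 2 = 0
        · have h3 : (1 + cA z) % 2 = 1 := by omega
          have e1 : (1 + cA z) / 2 = (cA z + 1) / 2 := by omega
          simp [kap, isHead, isA, hval, hasHead, cA, hz, h2, h3, e1]
        · simp [kap, isHead, isA, hval, hasHead, cA, hz, h2]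
  · apply phi_lt (kR := 2) (kL := 0) (kH := 0) (mR := 0) (mL := 1) (mH := 0)
    · simp
    · intro b; simp [wR, isP, isRt]; omega
    · simp [hasHead, isHead]
    · simp [hasHead, isHead]
    · simp [wL, isLf, hasHead, isHead]; omega
    · simp [wH, isP]
    · norm_num
    · intro n
      by_cases hz : hasHead z = true
      · simp [kap, isHead, isA, hval, hasHead, cA, hz]
      · simp only [Bool.not_eq_true] at hz
        simp [kap, isHead, isA, hval, hasHead, cA, hz]
  · apply phi_lt (kR := 2) (kL := 0) (kH := 0) (mR := 0) (mL := 1) (mH := 0)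
    · simp
    · intro b; simp [wR, isP, isRt]; omega
    · simp [hasHead, isHead]
    · simp [hasHead, isHead]
    · simp [wL, isLf, hasHead, isHead]; omega
    · simp [wH, isP]
    · norm_num
    · intro n
      by_cases hz : hasHead z = true
      · simp [kap, isHead, isA, hval, hasHead, cA, hz]
      · simp only [Bool.not_eq_true] at hz
        simp [kap, isHead, isA, hval, hasHead, cA, hz]
  · apply phi_lt (kR := 0) (kL := 1) (kH := 0) (mR := 0) (mL := 0) (mH := 0)
    · simp
    · intro b; simp [wR, isP, isRt]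
    · simp [hasHead, isHead]
    · simp [hasHead, isHead]
    · simp [wL, isLf, hasHead, isHead]; omega
    · simp [wH, isP]
    · norm_num
    · intro n
      by_cases hz : hasHead z = true
      · simp [kap, isHead, isA, hval, hasHead, cA, hz]
      · simp only [Bool.not_eq_true] at hz
        simp [kap, isHead, isA, hval, hasHead, cA, hz, Nat.add_assoc]
  · apply phi_lt (kR := 0) (kL := 1) (kH := 0) (mR := 0) (mL := 0) (mH := 0)
    · simp
    · intro b; simp [wR, isP, isRt]
    · simp [hasHead, isHead]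
    · simp [hasHead, isHead]
    · simp [wL, isLf, hasHead, isHead]; omega
    · simp [wH, isP]
    · norm_num
    · intro n
      by_cases hz : hasHead z = true
      · simp [kap, isHead, isA, hval, hasHead, cA, hz]
      · simp only [Bool.not_eq_true] at hz
        simp [kap, isHead, isA, hval, hasHead, cA, hz]
  · exact absurd hd (by decide)
  · exact absurd hc (by decide)

lemma phi_right (acc : W) : phi (acc ++ [8]) < phi (acc ++ [6]) := by
  apply phi_lt (kR := 0) (kL := 0) (kH := 1) (mR := 0) (mL := 0) (mH := 0)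
  · simp
  · intro b; simp [wR, isP]
  · simp [hasHead, isHead]
  · simp [hasHead, isHead]
  · simp [wL, isLf, hasHead]
  · simp [wH, isP]
  · norm_num
  · intro n
    simp [kap, isHead, hval, hasHead, cA]

lemma wR_bool (z : W) : wR true z ≤ wR false z + 2 * z.length := by
  induction z with
  | nil => simp [wR]
  | cons c t ih =>
    simp only [wR, List.length_cons]
    split_ifs <;> simp at * <;> omega

lemma size_half (c : ℕ) (h : c % 2 = 1) : Nat.size (c / 2) + 1 = Nat.size c := by
  have h1 : Nat.bit true (c / 2) = c := by rw [Nat.bit_val]; simp; omega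
  have h2 : Nat.bit true (c / 2) ≠ 0 := by rw [h1]; omega
  have h3 := Nat.size_bit h2
  rw [h1] at h3; omega

lemma phi_left (z : W) : phi (7 :: z) < phi (8 :: z) := by
  have h1 := wR_bool z
  have h2 : kap 0 (7 :: z) + 1 ≤ kap 0 (8 :: z) := by
    by_cases hz : hasHead z = true
    · simp [kap, isHead, hval, hz]
    · simp only [Bool.not_eq_true] at hz
      by_cases h2 : cA z % 2 = 1
      · simp [kap, isHead, hval, hz, h2]
        have := size_half _ h2
        omega
      · simp [kap, isHead, hval, hz, h2]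
  have h3 := Nat.mul_le_mul_right (2 * (8 :: z).length + 1) h2
  have e1 : wR false (7 :: z) = wR true z := by simp [wR, isP]
  have e2 : wR false (8 :: z) = wR false z := by simp [wR, isP]
  have e3 : wL (7 :: z) = wL z := by simp [wL, isLf]
  have e4 : wL (8 :: z) = wL z := by simp [wL, isLf]
  have e5 : wH (7 :: z) = 1 + wH z := by simp [wH, isP]
  have e6 : wH (8 :: z) = wH z := by simp [wH, isP]
  unfold phi
  rw [e1, e2, e3, e4, e5, e6]
  simp only [List.length_cons] at h3 ⊢
  rw [Nat.add_mul] at h3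
  omega


/-! ### The accumulated potential -/

def Phi : W → W → ℕ
  | [], acc => phi acc
  | c :: t, acc => if isDelim c then phi acc + Phi t [] else Phi t (acc ++ [c])

lemma Phi_left (y : W) : ∀ z : W, Phi y (7 :: z) < Phi y (8 :: z) := by
  induction y with
  | nil => intro z; simp only [Phi]; exact phi_left z
  | cons c t ih =>
    intro z
    simp only [Phi]
    split_ifs
    · have := phi_left z; omega
    · rw [List.cons_append, List.cons_append]; exact ih _

lemma Phi_tape {c d e f : Fin 9} (h : rule c d = some (e, f)) (hc : isDelim c = false)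
    (hd : isDelim d = false) (acc y : W) :
    ∀ z : W, Phi y (acc ++ e :: f :: z) < Phi y (acc ++ c :: d :: z) := by
  induction y with
  | nil => intro z; simp only [Phi]; exact phi_tape h hc hd acc z
  | cons g t ih =>
    intro z
    simp only [Phi]
    split_ifs
    · have := phi_tape h hc hd acc z; omega
    · have := ih (z ++ [g])
      simpa using this

lemma Phi_step_aux {c d e f : Fin 9} (h : rule c d = some (e, f)) (x y : W) :
    ∀ acc : W, Phi (x ++ e :: f :: y) acc < Phi (x ++ c :: d :: y) acc := by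
  induction x with
  | nil =>
    intro acc
    rcases rule_cases h with h' | h' | h' | h' | h' | h' | h' | h' <;>
      obtain ⟨rfl, rfl, rfl, rfl⟩ := h'
    · have := Phi_tape h (by decide) (by decide) acc y []
      simpa [Phi, isDelim] using this
    · have := Phi_tape h (by decide) (by decide) acc y []
      simpa [Phi, isDelim] using this
    · have := Phi_tape h (by decide) (by decide) acc y []
      simpa [Phi, isDelim] using this
    · have := Phi_tape h (by decide) (by decide) acc y []
      simpa [Phi, isDelim] using this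
    · have := Phi_tape h (by decide) (by decide) acc y []
      simpa [Phi, isDelim] using this
    · have := Phi_tape h (by decide) (by decide) acc y []
      simpa [Phi, isDelim] using this
    · have := phi_right acc
      simpa [Phi, isDelim] using this
    · have := Phi_left y []
      simpa [Phi, isDelim] using this
  | cons g t ih =>
    intro acc
    simp only [List.cons_append, Phi]
    split_ifs
    · have := ih []; omega
    · exact ih _

lemma Phi_step {u v : W} (h : Step u v) : Phi v [] < Phi u [] := by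
  obtain ⟨x, y, c, d, e, f, h1, rfl, rfl⟩ := h
  exact Phi_step_aux h1 x y []

lemma exists_red : ∀ (N : ℕ) (u : W), Phi u [] ≤ N → ∃ n z, n ≤ Phi u [] ∧ Red n u z := by
  intro N
  induction N with
  | zero =>
    intro u hu
    refine ⟨0, u, by omega, Red.nf u ?_⟩
    intro v hv
    have := Phi_step hv
    omega
  | succ N ih =>
    intro u hu
    by_cases h : ∃ v, Step u v
    · obtain ⟨v, hv⟩ := h
      have h1 := Phi_step hv
      obtain ⟨n, z, h2, h3⟩ := ih v (by omega)
      exact ⟨n + 1, z, by omega, Red.step hv h3⟩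
    · push Not at h
      exact ⟨0, u, by omega, Red.nf u h⟩

lemma red_unique {n : ℕ} {u z : W} (h : Red n u z) : ∀ {m : ℕ} {w : W}, Red m u w → n = m ∧ z = w := by
  induction h with
  | nf z h =>
    intro m w hw
    cases hw with
    | nf _ _ => exact ⟨rfl, rfl⟩
    | step h1 _ => exact absurd h1 (h _)
  | @step n u v z hv hr ih =>
    intro m w hw
    obtain ⟨m', hm, hr'⟩ := descent hw v hv
    obtain ⟨h1, h2⟩ := ih hr'
    exact ⟨by omega, h2⟩

/-! ### Conversions -/

def E (u v : W) : Prop := Step u v ∨ Step v u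

inductive Cv : ℕ → W → W → Prop
  | refl (u : W) : Cv 0 u u
  | cons {m : ℕ} {u v w : W} (h : E u v) (hr : Cv m v w) : Cv (m + 1) u w

lemma Cv.trans {m n : ℕ} {u v w : W} (h : Cv m u v) (h' : Cv n v w) : Cv (m + n) u w := by
  induction h with
  | refl u => rw [Nat.zero_add]; exact h'
  | @cons m u v _ hE _ ih =>
    have := Cv.cons hE (ih h')
    rw [show m + 1 + n = m + n + 1 by ring]; exact this

lemma Cv.symm {m : ℕ} {u v : W} (h : Cv m u v) : Cv m v u := by
  induction h with
  | refl u => exact Cv.refl u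
  | @cons m u v w hE _ ih => exact ih.trans (Cv.cons (Or.symm hE) (Cv.refl u))

lemma Red.cv {n : ℕ} {u z : W} (h : Red n u z) : Cv n u z := by
  induction h with
  | nf z _ => exact Cv.refl z
  | step hv _ ih => exact Cv.cons (Or.inl hv) ih

lemma red_along {m : ℕ} {u v : W} (h : Cv m u v) : ∀ {n : ℕ} {z : W}, Red n u z →
    ∃ n', Red n' v z ∧ n ≤ n' + m := by
  induction h with
  | refl u => intro n z hr; exact ⟨n, hr, le_refl _⟩
  | @cons m u v w hE _ ih =>
    intro n z hr
    rcases hE with hE | hE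
    · obtain ⟨m', h1, h2⟩ := descent hr v hE
      obtain ⟨n', h3, h4⟩ := ih h2
      exact ⟨n', h3, by omega⟩
    · obtain ⟨n', h3, h4⟩ := ih (Red.step hE hr)
      exact ⟨n', h3, by omega⟩

lemma upper {m : ℕ} {u v : W} (h : Cv m u v) : ∃ m', m' ≤ Phi u [] + Phi v [] ∧ Cv m' u v := by
  obtain ⟨n, z, h1, h2⟩ := exists_red _ u (le_refl _)
  obtain ⟨n', z', h3, h4⟩ := exists_red _ v (le_refl _)
  obtain ⟨n'', h5, _⟩ := red_along h h2
  obtain ⟨_, h6⟩ := red_unique h4 h5
  subst h6
  exact ⟨n + n', by omega, h2.cv.trans h4.cv.symm⟩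

/-! ### Bounding the potential -/

lemma wR_le (s : W) : ∀ b, wR b s ≤ 2 * s.length := by
  induction s with
  | nil => intro b; simp [wR]
  | cons c t ih =>
    intro b
    simp only [wR, List.length_cons]
    have h1 := ih b
    have h2 := ih true
    have h3 := ih false
    split_ifs <;> omega

lemma wL_le (s : W) : wL s ≤ s.length := by
  induction s with
  | nil => simp [wL]
  | cons c t ih =>
    simp only [wL, List.length_cons]
    split_ifs <;> omega

lemma wH_le (s : W) : wH s ≤ s.length := by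
  induction s with
  | nil => simp [wH]
  | cons c t ih =>
    simp only [wH, List.length_cons]
    split_ifs <;> omega

lemma cA_le (s : W) : cA s ≤ s.length := by
  induction s with
  | nil => simp [cA]
  | cons c t ih =>
    simp only [cA, List.length_cons]
    split_ifs <;> omega

lemma kap_le (s : W) : ∀ n, kap n s ≤ 1 + Nat.size (n + s.length) := by
  induction s with
  | nil => intro n; simp [kap]
  | cons c t ih =>
    intro n
    simp only [kap, List.length_cons]
    have hc := cA_le t
    split_ifs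
    · unfold hval
      have h1 : Nat.size (n + cA t) ≤ Nat.size (n + (t.length + 1)) := Nat.size_le_size (by omega)
      have h2 : Nat.size (n + (cA t + 1) / 2) ≤ Nat.size (n + (t.length + 1)) :=
        Nat.size_le_size (by omega)
      have h3 : Nat.size (n + cA t / 2) ≤ Nat.size (n + (t.length + 1)) :=
        Nat.size_le_size (by omega)
      split_ifs <;> omega
    · have h1 := ih (n + 1)
      have h2 : Nat.size (n + 1 + t.length) ≤ Nat.size (n + (t.length + 1)) :=
        Nat.size_le_size (by omega)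
      omega
    · have h1 := ih (n + 0)
      have h2 : Nat.size (n + 0 + t.length) ≤ Nat.size (n + (t.length + 1)) :=
        Nat.size_le_size (by omega)
      omega

lemma phi_le (s : W) (n : ℕ) (h : s.length ≤ n) :
    phi s ≤ 4 * s.length + (1 + Nat.size n) * (2 * s.length + 1) := by
  have h1 := wR_le s false
  have h2 := wL_le s
  have h3 := wH_le s
  have h4 := kap_le s 0
  have h5 : Nat.size (0 + s.length) ≤ Nat.size n := Nat.size_le_size (by omega)
  have h6 : kap 0 s * (2 * s.length + 1) ≤ (1 + Nat.size n) * (2 * s.length + 1) :=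
    Nat.mul_le_mul_right _ (by omega)
  unfold phi
  omega

lemma Phi_le (n : ℕ) (u : W) : ∀ acc : W, u.length + acc.length ≤ n →
    Phi u acc ≤ 4 * (u.length + acc.length) +
      (1 + Nat.size n) * (2 * (u.length + acc.length) + 1) := by
  induction u with
  | nil =>
    intro acc h
    simp only [Phi, List.length_nil, Nat.zero_add] at h ⊢
    exact phi_le acc n h
  | cons c t ih =>
    intro acc h
    simp only [Phi, List.length_cons] at h ⊢
    split_ifs
    · have h1 := phi_le acc n (by omega)
      have h2 := ih [] (by simp; omega)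
      simp only [List.length_nil, Nat.add_zero] at h2
      generalize 1 + Nat.size n = L at *
      nlinarith
    · have h2 := ih (acc ++ [c]) (by simp; omega)
      simp only [List.length_append, List.length_cons, List.length_nil] at h2
      have e : t.length + (acc.length + (0 + 1)) = t.length + 1 + acc.length := by ring
      rw [e] at h2
      exact h2

lemma size_bound (K n : ℕ) : K * Nat.size n ≤ n + 4 * K ^ 2 := by
  rcases Nat.eq_zero_or_pos (Nat.size n) with h | h
  · rw [h]; omega
  · obtain ⟨s, hs⟩ : ∃ s, Nat.size n = s + 1 := ⟨Nat.size n - 1, by omega⟩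
    have h1 : 2 ^ s ≤ n := Nat.lt_size.1 (by omega)
    obtain ⟨t, ht⟩ : ∃ t, s = 2 * t ∨ s = 2 * t + 1 := ⟨s / 2, by omega⟩
    have h2 : (t + 1) ^ 2 ≤ 2 ^ s := by
      have h3 : t + 1 ≤ 2 ^ t := Nat.lt_two_pow_self
      have h4 : (t + 1) ^ 2 ≤ (2 ^ t) ^ 2 := Nat.pow_le_pow_left h3 2
      have h5 : (2 ^ t) ^ 2 ≤ 2 ^ s := by
        rw [← pow_mul]
        exact Nat.pow_le_pow_right (by norm_num) (by omega)
      omega
    rw [hs]
    have h6 : s + 1 ≤ 2 * (t + 1) := by omega
    have h7 : K * (s + 1) ≤ K * (2 * (t + 1)) := Nat.mul_le_mul_left _ h6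
    rcases Nat.lt_or_ge (t + 1) (2 * K) with h8 | h8
    · have : K * (2 * (t + 1)) ≤ K * (2 * (2 * K)) := Nat.mul_le_mul_left _ (by omega)
      nlinarith
    · have : (2 * K) * (t + 1) ≤ (t + 1) * (t + 1) := Nat.mul_le_mul_right _ h8
      nlinarith

/-! ### The lower bound -/

inductive Steps : ℕ → W → W → Prop
  | refl (u : W) : Steps 0 u u
  | cons {m : ℕ} {u v w : W} (h : Step u v) (hr : Steps m v w) : Steps (m + 1) u w

lemma Steps.trans {m n : ℕ} {u v w : W} (h : Steps m u v) (h' : Steps n v w) :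
    Steps (m + n) u w := by
  induction h with
  | refl u => rw [Nat.zero_add]; exact h'
  | @cons m u v _ hE _ ih =>
    have := Steps.cons hE (ih h')
    rw [show m + 1 + n = m + n + 1 by ring]; exact this

lemma steps_le {m : ℕ} {u v : W} (h : Steps m u v) : ∀ {n : ℕ} {z : W}, Red n u z → m ≤ n := by
  induction h with
  | refl u => intro n z _; omega
  | cons hE _ ih =>
    intro n z hr
    obtain ⟨m', h1, h2⟩ := descent hr _ hE
    have := ih h2
    omega

def tp (w : List Bool) : W := w.map (fun b => if b then 2 else 3)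
def tp' (w : List Bool) : W := w.map (fun b => if b then 4 else 5)
def hd (b : Bool) : Fin 9 := if b then 7 else 6

def out : Bool → List Bool → List Bool
  | _, [] => []
  | b, c :: t => (c && !b) :: out (b ^^ c) t

def fin : Bool → List Bool → Bool
  | b, [] => b
  | b, c :: t => fin (b ^^ c) t

lemma right_pass (w : List Bool) : ∀ (b : Bool) (x y : W),
    Steps w.length (x ++ hd b :: (tp w ++ y)) (x ++ (tp' (out b w) ++ hd (fin b w) :: y)) := by
  induction w with
  | nil => intro b x y; exact Steps.refl _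
  | cons c t ih =>
    intro b x y
    have h1 : Step (x ++ hd b :: (tp (c :: t) ++ y))
        (x ++ (if (c && !b) then 4 else 5) :: hd (b ^^ c) :: (tp t ++ y)) := by
      refine ⟨x, tp t ++ y, hd b, if c then 2 else 3, if (c && !b) then 4 else 5, hd (b ^^ c),
        ?_, ?_, rfl⟩
      · cases b <;> cases c <;> decide
      · simp [tp]
    have h2 := ih (b ^^ c) (x ++ [if (c && !b) then 4 else 5]) y
    have h3 := Steps.cons h1 (by simpa using h2)
    simpa [out, fin, tp'] using h3

lemma left_pass (w : List Bool) : ∀ (x y : W),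
    Steps w.length (x ++ (tp' w ++ 8 :: y)) (x ++ 8 :: (tp w ++ y)) := by
  induction w with
  | nil => intro x y; exact Steps.refl _
  | cons c t ih =>
    intro x y
    have h2 := ih (x ++ [if c then 4 else 5]) y
    have h1 : Step (x ++ (if c then 4 else 5) :: 8 :: (tp t ++ y)) (x ++ 8 :: (tp (c :: t) ++ y)) := by
      refine ⟨x, tp t ++ y, if c then 4 else 5, 8, 8, if c then 2 else 3, ?_, rfl, ?_⟩
      · cases c <;> decide
      · simp [tp]
    have h3 := Steps.trans (by simpa [tp'] using h2 : Steps t.length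
      (x ++ (tp' (c :: t) ++ 8 :: y)) (x ++ (if c then 4 else 5) :: 8 :: (tp t ++ y)))
      (Steps.cons h1 (Steps.refl _))
    simpa using h3

lemma out_length (w : List Bool) : ∀ b, (out b w).length = w.length := by
  induction w with
  | nil => intro b; rfl
  | cons c t ih => intro b; simp [out, ih]

lemma out_count (w : List Bool) : ∀ b,
    2 * (out b w).count true + (if b then 1 else 0) = w.count true + (if fin b w then 1 else 0) := by
  induction w with
  | nil => intro b; cases b <;> simp [out, fin]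
  | cons c t ih =>
    intro b
    have := ih (b ^^ c)
    cases b <;> cases c <;> simp [out, fin] at this ⊢ <;> omega

lemma cycle (w : List Bool) (c : ℕ) (hc : w.count true = 2 * c + 1) :
    ∃ w' : List Bool, w'.length = w.length ∧ w'.count true = c ∧
      Steps (2 * w.length + 2) (0 :: 8 :: (tp w ++ [1])) (0 :: 8 :: (tp w' ++ [1])) := by
  have h0 := out_count w true
  have hf : fin true w = false := by
    by_contra hne
    simp only [Bool.not_eq_false] at hne
    rw [hne, hc] at h0
    simp at h0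
    omega
  rw [hf, hc] at h0
  simp at h0
  refine ⟨out true w, out_length w true, by omega, ?_⟩
  have h1 : Step (0 :: 8 :: (tp w ++ [1])) (0 :: 7 :: (tp w ++ [1])) :=
    ⟨[], tp w ++ [1], 0, 8, 0, 7, by decide, rfl, rfl⟩
  have h2 := right_pass w true [0] [1]
  have h3 : Step ([0] ++ (tp' (out true w) ++ hd (fin true w) :: [1]))
      ([0] ++ (tp' (out true w) ++ 8 :: [1])) := by
    refine ⟨[0] ++ tp' (out true w), [], 6, 1, 8, 1, by decide, ?_, ?_⟩
    · rw [hf]; simp [hd]
    · simp
  have h4 := left_pass (out true w) [0] [1]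
  have h5 := (Steps.cons h1 h2).trans (Steps.cons h3 h4)
  rw [out_length] at h5
  rw [show 2 * w.length + 2 = w.length + 1 + (w.length + 1) by ring]
  exact h5

lemma cycles (k : ℕ) : ∀ (w : List Bool), w.count true + 1 = 2 ^ k →
    ∃ v, Steps (k * (2 * w.length + 2)) (0 :: 8 :: (tp w ++ [1])) v := by
  induction k with
  | zero => intro w _; rw [Nat.zero_mul]; exact ⟨_, Steps.refl _⟩
  | succ k ih =>
    intro w hw
    have hp : 1 ≤ 2 ^ k := Nat.one_le_two_pow
    obtain ⟨w', h1, h2, h3⟩ := cycle w (2 ^ k - 1) (by rw [pow_succ] at hw; omega)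
    obtain ⟨v, hv⟩ := ih w' (by omega)
    refine ⟨v, ?_⟩
    rw [h1] at hv
    have := h3.trans hv
    rw [show (k + 1) * (2 * w.length + 2) = 2 * w.length + 2 + k * (2 * w.length + 2) by ring]
    exact this

lemma red_length {n : ℕ} {u z : W} (h : Red n u z) : z.length = u.length := by
  induction h with
  | nf z _ => rfl
  | step hv _ ih =>
    obtain ⟨x, y, c, d, e, f, _, rfl, rfl⟩ := hv
    rw [ih]; simp

lemma red_zero {n : ℕ} {u z : W} (h : Red n u z) : Red 0 z z := by
  induction h with
  | nf z h => exact Red.nf z h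
  | step _ _ ih => exact ih

/-- the presentation -/
def R : Finset (W × W) :=
  {([6, 2], [4, 7]), ([7, 2], [5, 6]), ([6, 3], [5, 6]), ([7, 3], [5, 7]), ([6, 1], [8, 1]),
    ([4, 8], [8, 2]), ([5, 8], [8, 3]), ([0, 8], [0, 7])}

lemma mem_R (l r : W) : (l, r) ∈ R ↔ ∃ c d e f : Fin 9, rule c d = some (e, f) ∧ l = [c, d] ∧
    r = [e, f] := by
  constructor
  · intro h
    simp only [R, Finset.mem_insert, Finset.mem_singleton, Prod.mk.injEq] at h
    rcases h with h | h | h | h | h | h | h | h <;> obtain ⟨rfl, rfl⟩ := h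
    · exact ⟨6, 2, 4, 7, by decide, rfl, rfl⟩
    · exact ⟨7, 2, 5, 6, by decide, rfl, rfl⟩
    · exact ⟨6, 3, 5, 6, by decide, rfl, rfl⟩
    · exact ⟨7, 3, 5, 7, by decide, rfl, rfl⟩
    · exact ⟨6, 1, 8, 1, by decide, rfl, rfl⟩
    · exact ⟨4, 8, 8, 2, by decide, rfl, rfl⟩
    · exact ⟨5, 8, 8, 3, by decide, rfl, rfl⟩
    · exact ⟨0, 8, 0, 7, by decide, rfl, rfl⟩
  · rintro ⟨c, d, e, f, h, rfl, rfl⟩
    rcases rule_cases h with h' | h' | h' | h' | h' | h' | h' | h' <;>
      obtain ⟨rfl, rfl, rfl, rfl⟩ := h' <;> simp [R]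

lemma E_iff (u v : W) : E u v ↔ ∃ x y l r : W, ((l, r) ∈ R ∨ (r, l) ∈ R) ∧
    u = x ++ l ++ y ∧ v = x ++ r ++ y := by
  constructor
  · rintro (⟨x, y, c, d, e, f, h, rfl, rfl⟩ | ⟨x, y, c, d, e, f, h, rfl, rfl⟩)
    · exact ⟨x, y, [c, d], [e, f], Or.inl ((mem_R _ _).2 ⟨c, d, e, f, h, rfl, rfl⟩), by simp,
        by simp⟩
    · exact ⟨x, y, [e, f], [c, d], Or.inr ((mem_R _ _).2 ⟨c, d, e, f, h, rfl, rfl⟩), by simp,
        by simp⟩
  · rintro ⟨x, y, l, r, h | h, rfl, rfl⟩
    · obtain ⟨c, d, e, f, h', rfl, rfl⟩ := (mem_R _ _).1 h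
      exact Or.inl ⟨x, y, c, d, e, f, h', by simp, by simp⟩
    · obtain ⟨c, d, e, f, h', rfl, rfl⟩ := (mem_R _ _).1 h
      exact Or.inr ⟨x, y, c, d, e, f, h', by simp, by simp⟩

lemma chain_to (m : ℕ) : ∀ c : ℕ → W, (∀ i < m, E (c i) (c (i + 1))) → Cv m (c 0) (c m) := by
  induction m with
  | zero => intro c _; exact Cv.refl _
  | succ m ih =>
    intro c h
    exact Cv.cons (h 0 (by omega)) (ih (fun i => c (i + 1)) (fun i hi => h (i + 1) (by omega)))

lemma to_chain {m : ℕ} {u v : W} (h : Cv m u v) :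
    ∃ c : ℕ → W, c 0 = u ∧ c m = v ∧ ∀ i < m, E (c i) (c (i + 1)) := by
  induction h with
  | refl u => exact ⟨fun _ => u, rfl, rfl, fun i hi => absurd hi (by omega)⟩
  | @cons m u v w hE _ ih =>
    obtain ⟨c, h1, h2, h3⟩ := ih
    refine ⟨fun i => Nat.casesOn i u c, rfl, h2, ?_⟩
    intro i hi
    cases i with
    | zero => simp only; rw [h1]; exact hE
    | succ i => exact h3 i (by omega)

/-- Some finite monoid presentation has Dehn function below ε·n² eventually for every ε>0, yet not bounded by any C·(n+1), i.e. it is subquadratic but not linear. -/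
theorem result :
    ∃ (k : ℕ) (R : Finset (List (Fin k) × List (Fin k)))
      (D : List (Fin k) → List (Fin k) → ℕ → Prop),
      (∀ u v m, D u v m ↔ ∃ c : ℕ → List (Fin k), c 0 = u ∧ c m = v ∧
          ∀ i < m, ∃ x y l r : List (Fin k), ((l, r) ∈ R ∨ (r, l) ∈ R) ∧
            c i = x ++ l ++ y ∧ c (i + 1) = x ++ r ++ y) ∧
      (∀ ε : ℝ, 0 < ε → ∃ N : ℕ, ∀ n : ℕ, N ≤ n → ∀ u v : List (Fin k),
          u.length + v.length ≤ n → (∃ m, D u v m) →
            ∃ m : ℕ, (m : ℝ) ≤ ε * (n : ℝ) ^ 2 ∧ D u v m) ∧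
      ¬ ∃ C : ℕ, ∀ u v : List (Fin k), (∃ m, D u v m) →
          ∃ m : ℕ, m ≤ C * (u.length + v.length + 1) ∧ D u v m := by
  refine ⟨9, R, fun u v m => Cv m u v, ?_, ?_, ?_⟩
  · intro u v m
    constructor
    · intro h
      obtain ⟨c, h1, h2, h3⟩ := to_chain h
      exact ⟨c, h1, h2, fun i hi => (E_iff _ _).1 (h3 i hi)⟩
    · rintro ⟨c, rfl, rfl, h3⟩
      exact chain_to m c (fun i hi => (E_iff _ _).2 (h3 i hi))
  · intro ε hε
    obtain ⟨K, hK⟩ := exists_nat_gt (12 / ε)
    have hK0 : (0 : ℝ) < K := lt_trans (by positivity) hK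
    obtain ⟨N, hN⟩ := exists_nat_gt ((28 + 60 * K : ℝ) / ε)
    refine ⟨N + 1, ?_⟩
    rintro n hn u v huv ⟨m, hm⟩
    obtain ⟨m', h1, h2⟩ := upper hm
    refine ⟨m', ?_, h2⟩
    have h3 := Phi_le n u [] (by simp; omega)
    have h4 := Phi_le n v [] (by simp; omega)
    simp only [List.length_nil, Nat.add_zero] at h3 h4
    have h5 := size_bound K n
    have hu : u.length ≤ n := by omega
    have hv : v.length ≤ n := by omega
    have h6 : m' ≤ 8 * n + (1 + Nat.size n) * (4 * n + 2) := by
      have a1 : (1 + Nat.size n) * (2 * u.length + 1) ≤ (1 + Nat.size n) * (2 * n + 1) :=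
        Nat.mul_le_mul_left _ (by omega)
      have a2 : (1 + Nat.size n) * (2 * v.length + 1) ≤ (1 + Nat.size n) * (2 * n + 1) :=
        Nat.mul_le_mul_left _ (by omega)
      have a3 : (1 + Nat.size n) * (4 * n + 2) = 2 * ((1 + Nat.size n) * (2 * n + 1)) := by ring
      omega
    have h6' : (m' : ℝ) ≤ 8 * n + (1 + (Nat.size n : ℝ)) * (4 * n + 2) := by exact_mod_cast h6
    have h5' : (K : ℝ) * (Nat.size n : ℝ) ≤ n + 4 * (K : ℝ) ^ 2 := by exact_mod_cast h5
    have hn1 : (1 : ℝ) ≤ n := by
      have : 1 ≤ n := by omega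
      exact_mod_cast this
    have hnN : (N : ℝ) ≤ n := by
      have : N ≤ n := by omega
      exact_mod_cast this
    have h7 : (28 + 60 * K : ℝ) < ε * n := by
      rw [div_lt_iff₀ hε] at hN
      nlinarith
    have h8 : (12 : ℝ) < ε * K := by
      rw [div_lt_iff₀ hε] at hK
      linarith
    have h9 : (K : ℝ) * m' ≤ K * (ε * (n : ℝ) ^ 2) := by
      have b1 : (K : ℝ) * m' ≤ K * (8 * n + (1 + (Nat.size n : ℝ)) * (4 * n + 2)) :=
        mul_le_mul_of_nonneg_left h6' hK0.le
      have b2 : (K : ℝ) * (Nat.size n : ℝ) * (4 * n + 2) ≤ (n + 4 * (K : ℝ) ^ 2) * (4 * n + 2) :=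
        mul_le_mul_of_nonneg_right h5' (by positivity)
      have b3 : (n + 4 * (K : ℝ) ^ 2) * (4 * n + 2) ≤ (n + 4 * (K : ℝ) ^ 2) * (6 * n) :=
        mul_le_mul_of_nonneg_left (by linarith) (by positivity)
      have b4 : (K : ℝ) * m' ≤ K * (14 * n) + 6 * n ^ 2 + 24 * K ^ 2 * n := by nlinarith
      have b5 : (12 : ℝ) * n ^ 2 ≤ ε * K * n ^ 2 := mul_le_mul_of_nonneg_right h8.le (by positivity)
      have b6 : (28 + 60 * K : ℝ) * (K * n) ≤ ε * n * (K * n) :=
        mul_le_mul_of_nonneg_right h7.le (by positivity)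
      nlinarith [mul_pos hK0 hK0]
    exact le_of_mul_le_mul_left h9 hK0
  · rintro ⟨C, hC⟩
    have hp : 1 ≤ 2 ^ (4 * C) := Nat.one_le_two_pow
    have hp2 : 2 ^ (4 * C + 1) = 2 * 2 ^ (4 * C) := by rw [pow_succ]; ring
    set w : List Bool := List.replicate (2 ^ (4 * C + 1) - 1) true with hw
    obtain ⟨v, hv⟩ := cycles (4 * C + 1) w (by rw [hw, List.count_replicate]; simp; omega)
    obtain ⟨n, z, _, hr⟩ := exists_red _ (0 :: 8 :: (tp w ++ [1])) (le_refl _)
    have h1 := steps_le hv hr
    obtain ⟨m, hm, h2⟩ := hC _ z ⟨n, hr.cv⟩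
    obtain ⟨n', h3, h4⟩ := red_along h2 hr
    obtain ⟨h5, _⟩ := red_unique h3 (red_zero hr)
    rw [red_length hr] at hm
    have hl : (0 :: 8 :: (tp w ++ [1])).length = w.length + 3 := by simp [tp]
    rw [hl] at hm
    have hwl : 1 ≤ w.length := by rw [hw, List.length_replicate]; omega
    nlinarith

end Pool.Agent.S0619
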