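import Pool.Statements.S0642
-- import your own Pool.Agent.* helpers here

set_option autoImplicit false
open Pool Pool.MP_783016_al

namespace Pool.Agent.S0642

open Polynomial

/-- coefficients: `F_2[T]` -/
abbrev K := Polynomial (ZMod 2)
/-- `F_2[T][z]` -/
abbrev R := Polynomial K

/-- the vector `y = (1+T, T, 1, 0)` -/
noncomputable def yv : Fin 4 → K := ![1 + X, X, 1, 0]

/-- The ring: tuples `f` of four polynomials in `z` over `F_2[T]` whose constant terms agree and
whose linear coefficients satisfy `c₀ + c₃ = c₁ + c₂`. -/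
noncomputable def A : Subalgebra R (Fin 4 → R) where
  carrier := {f | (∀ i, (f i).coeff 0 = (f 0).coeff 0) ∧
    (f 0).coeff 1 + (f 3).coeff 1 = (f 1).coeff 1 + (f 2).coeff 1}
  mul_mem' := by
    rintro f g ⟨hf0, hf1⟩ ⟨hg0, hg1⟩
    refine ⟨fun i => ?_, ?_⟩
    · simp only [Pi.mul_apply, mul_coeff_zero]
      rw [hf0 i, hg0 i]
    · simp only [Pi.mul_apply, mul_coeff_one]
      rw [hf0 1, hf0 2, hf0 3, hg0 1, hg0 2, hg0 3]
      linear_combination (f 0).coeff 0 * hg1 + (g 0).coeff 0 * hf1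
  add_mem' := by
    rintro f g ⟨hf0, hf1⟩ ⟨hg0, hg1⟩
    refine ⟨fun i => ?_, ?_⟩
    · simp only [Pi.add_apply, coeff_add]
      rw [hf0 i, hg0 i]
    · simp only [Pi.add_apply, coeff_add]
      linear_combination hg1 + hf1
  algebraMap_mem' := by
    intro r
    refine ⟨fun i => ?_, ?_⟩ <;> simp [Pi.algebraMap_apply]

lemma mem_A (f : Fin 4 → R) : f ∈ A ↔ (∀ i, (f i).coeff 0 = (f 0).coeff 0) ∧
    (f 0).coeff 1 + (f 3).coeff 1 = (f 1).coeff 1 + (f 2).coeff 1 := Iff.rfl

instance : IsNoetherianRing A := by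
  have h1 : IsNoetherian R (Fin 4 → R) := inferInstance
  have h2 : IsNoetherian R A := isNoetherian_submodule'  (Subalgebra.toSubmodule A)
  exact isNoetherian_of_tower R h2

/-- the element `z` -/
noncomputable def z : A := ⟨fun _ => X, by
  rw [mem_A]; simp⟩

lemma ypow_mem (m k : ℕ) (hk : 2 ≤ k) : (fun i => C (yv i ^ m) * X ^ k : Fin 4 → R) ∈ A := by
  rw [mem_A]
  have h0 : ¬ (k = 0) := by omega
  have h1 : ¬ (k = 1) := by omega
  simp only [coeff_C_mul, coeff_X_pow, Ne.symm h0, Ne.symm h1, if_false, mul_zero, add_zero,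
    implies_true, and_self]

lemma ypow_mem1 (m : ℕ) : (fun i => C (yv i ^ m) * X ^ 1 : Fin 4 → R) ∈ A ↔
    (1 + X : K) ^ m + 0 ^ m = X ^ m + 1 := by
  rw [mem_A]
  simp only [coeff_C_mul, coeff_X_pow]
  simp [yv]

/-- the element `y z` -/
noncomputable def yz : A := ⟨fun i => C (yv i ^ 1) * X ^ 1, by
  rw [ypow_mem1]; ring⟩

/-- The condition that `(1+T)^m = T^m + 1`. -/
def P (m : ℕ) : Prop := (1 + X : K) ^ m = X ^ m + 1

lemma yz_pow_coe (m : ℕ) : ((yz ^ m : A) : Fin 4 → R) = fun i => C (yv i ^ m) * X ^ m := by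
  rw [SubmonoidClass.coe_pow]
  funext i
  simp [yz, mul_pow]

lemma z_pow_coe (m : ℕ) : ((z ^ m : A) : Fin 4 → R) = fun _ => X ^ m := by
  rw [SubmonoidClass.coe_pow]
  funext i
  simp [z]

lemma mem_iff (m n : ℕ) (hm : 1 ≤ m) :
    (Ideal.span {yz}) ^ m ≤ (Ideal.span {z} : Ideal A) ^ n ↔ (n + 2 ≤ m ∨ (n + 1 = m ∧ P m)) := by
  rw [Ideal.span_singleton_pow, Ideal.span_singleton_pow, Ideal.span_singleton_le_span_singleton]
  constructor
  · rintro ⟨a, ha⟩
    have ha' : ∀ i, C (yv i ^ m) * X ^ m = X ^ n * (a : Fin 4 → R) i := by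
      intro i
      have h := congrArg (fun b : A => (b : Fin 4 → R) i) ha
      simp only [yz_pow_coe, MulMemClass.coe_mul, z_pow_coe, Pi.mul_apply] at h
      exact h
    obtain ⟨ha0, ha1⟩ := (mem_A _).1 a.2
    have hnm : n ≤ m := by
      by_contra hlt
      push Not at hlt
      have h2 := congrArg (fun q : R => q.coeff m) (ha' 2)
      simp only [yv] at h2
      rw [coeff_X_pow_mul'] at h2
      simp [Nat.not_le.mpr hlt] at h2
    have hq : ∀ i, (a : Fin 4 → R) i = C (yv i ^ m) * X ^ (m - n) := by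
      intro i
      have h3 := ha' i
      have h4 : (X : R) ^ n * (a : Fin 4 → R) i = X ^ n * (C (yv i ^ m) * X ^ (m - n)) := by
        rw [← h3]
        have : (X : R) ^ m = X ^ n * X ^ (m - n) := by rw [← pow_add]; congr 1; omega
        rw [this]; ring
      exact mul_left_cancel₀ (pow_ne_zero _ X_ne_zero) h4
    rcases Nat.lt_or_ge (n + 1) m with h | h
    · left; omega
    rcases Nat.eq_or_lt_of_le h with h | h
    · right
      refine ⟨h.symm, ?_⟩
      have hmn : m - n = 1 := by omega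
      have h5 : (fun i => C (yv i ^ m) * X ^ 1 : Fin 4 → R) ∈ A := by
        have : (fun i => C (yv i ^ m) * X ^ 1 : Fin 4 → R) = a := by
          funext i
          rw [hq i, hmn]
        rw [this]; exact a.2
      rw [ypow_mem1] at h5
      rw [P]
      rw [← h5, zero_pow (by omega), add_zero]
    · exfalso
      have hmn : m - n = 0 := by omega
      have h6 := ha0 3
      have h7 := ha0 2
      rw [hq 3, hq 0, hmn] at h6
      rw [hq 2, hq 0, hmn] at h7
      simp [yv, zero_pow (by omega : m ≠ 0)] at h6 h7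
      rw [← h7] at h6
      simp at h6
  · intro h
    rcases h with h | ⟨h, hP⟩
    · refine ⟨⟨_, ypow_mem m (m - n) (by omega)⟩, ?_⟩
      apply Subtype.ext
      rw [yz_pow_coe, MulMemClass.coe_mul, z_pow_coe]
      funext i
      simp only [Pi.mul_apply]
      have : (X : R) ^ m = X ^ n * X ^ (m - n) := by rw [← pow_add]; congr 1; omega
      rw [this]; ring
    · refine ⟨⟨_, (ypow_mem1 m).2 ?_⟩, ?_⟩
      · rw [P] at hP
        rw [hP, zero_pow (by omega), add_zero]
      apply Subtype.ext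
      rw [yz_pow_coe, MulMemClass.coe_mul, z_pow_coe]
      funext i
      simp only [Pi.mul_apply]
      have : (X : R) ^ m = X ^ n * X ^ 1 := by rw [← pow_add, h]
      rw [this]; ring

open Classical in
lemma sSup_eq (m : ℕ) (hm : 2 ≤ m) :
    ((sSup {n : ℕ | (Ideal.span {yz}) ^ m ≤ (Ideal.span {z} : Ideal A) ^ n} : ℕ) : ℤ) =
      (m : ℤ) - 2 + (if P m then 1 else 0) := by
  have hset : {n : ℕ | (Ideal.span {yz}) ^ m ≤ (Ideal.span {z} : Ideal A) ^ n} =
      {n : ℕ | (n + 2 ≤ m ∨ (n + 1 = m ∧ P m))} := by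
    ext n
    exact mem_iff m n (by omega)
  rw [hset]
  by_cases hP : P m
  · have : sSup {n : ℕ | (n + 2 ≤ m ∨ (n + 1 = m ∧ P m))} = m - 1 := by
      apply IsGreatest.csSup_eq
      constructor
      · right; exact ⟨by omega, hP⟩
      · rintro n (h | ⟨h, -⟩) <;> omega
    rw [this, if_pos hP]
    omega
  · have : sSup {n : ℕ | (n + 2 ≤ m ∨ (n + 1 = m ∧ P m))} = m - 2 := by
      apply IsGreatest.csSup_eq
      constructor
      · left; omega
      · rintro n (h | ⟨h, h'⟩)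
        · omega
        · exact absurd h' hP
    rw [this, if_neg hP]
    omega

lemma P_two_pow (j : ℕ) : P (2 ^ j) := by
  rw [P, add_comm, add_pow_char_pow, one_pow]

lemma not_P (j t : ℕ) (ht : 0 < t) (htj : t < 2 ^ j) : ¬ P (2 ^ j + t) := by
  intro h
  rw [P, pow_add, (P_two_pow j : (1 + X : K) ^ (2 ^ j) = X ^ (2 ^ j) + 1)] at h
  have h1 := congrArg (fun q : K => q.coeff t) h
  simp only [add_mul, one_mul, coeff_add, coeff_X_pow_mul', Nat.not_le.mpr htj, if_false,
    coeff_X_pow, coeff_one] at h1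
  rw [coeff_one_add_X_pow] at h1
  have h3 : ¬ (t = 0) := by omega
  simp [h3] at h1

/-- The negation of the preceding statement: Let A be Noetherian, J ⊆ rad I, I not nilpotent, ⋂ Iⁿ = 0, J not nilpotent, and v(m) the largest n with Jᵐ ⊆ Iⁿ. Then some t > 0 satisfies v(m+1+t) − v(m+t) = v(m+1) − v(m) for all large m. -/
theorem result :
    ¬ (∀ (A : Type) [CommRing A] [IsNoetherianRing A] (I J : Ideal A),
      J ≤ I.radical → (∀ n : ℕ, I ^ n ≠ ⊥) → (⨅ n : ℕ, I ^ n) = ⊥ →
      (∀ m : ℕ, J ^ m ≠ ⊥) →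
      ∃ t : ℕ, 0 < t ∧ ∃ M : ℕ, ∀ m : ℕ, M ≤ m →
        ((sSup {n : ℕ | J ^ (m + 1 + t) ≤ I ^ n} : ℕ) : ℤ)
            - ((sSup {n : ℕ | J ^ (m + t) ≤ I ^ n} : ℕ) : ℤ)
          = ((sSup {n : ℕ | J ^ (m + 1) ≤ I ^ n} : ℕ) : ℤ)
            - ((sSup {n : ℕ | J ^ m ≤ I ^ n} : ℕ) : ℤ)) := by
  intro h
  have key := h A (Ideal.span {z}) (Ideal.span {yz}) ?_ ?_ ?_ ?_
  · -- take a large power of two
    obtain ⟨t, ht, M, hM⟩ := key
    obtain ⟨j, hj⟩ : ∃ j : ℕ, M + t + 4 < 2 ^ j := by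
      exact ⟨M + t + 4, Nat.lt_two_pow_self⟩
    have h1 := hM (2 ^ j) (by omega)
    rw [sSup_eq _ (by omega), sSup_eq _ (by omega), sSup_eq _ (by omega), sSup_eq _ (by omega)] at h1
    have p0 : P (2 ^ j) := P_two_pow j
    have p1 : ¬ P (2 ^ j + 1) := not_P j 1 (by omega) (by omega)
    have p2 : ¬ P (2 ^ j + t) := not_P j t (by omega) (by omega)
    rw [if_pos p0, if_neg p1, if_neg p2] at h1
    split_ifs at h1 <;> push_cast at h1 <;> omega
  · -- J ≤ radical I
    rw [Ideal.span_le, Set.singleton_subset_iff]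
    refine ⟨3, ?_⟩
    have h3 := (mem_iff 3 1 (by omega)).2 (Or.inl (by omega))
    have h4 : yz ^ 3 ∈ (Ideal.span {z} : Ideal A) ^ 1 :=
      h3 (Ideal.pow_mem_pow (Ideal.mem_span_singleton_self _) 3)
    exact Ideal.pow_le_self one_ne_zero h4
  · intro n hn
    have h3 : z ^ n ∈ (Ideal.span {z} : Ideal A) ^ n :=
      Ideal.pow_mem_pow (Ideal.mem_span_singleton_self _) n
    rw [hn, Ideal.mem_bot] at h3
    have h4 := congrArg (fun b : A => (b : Fin 4 → R) 0) h3
    simp only [z_pow_coe] at h4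
    exact pow_ne_zero n (X_ne_zero (R := K)) h4
  · rw [eq_bot_iff]
    intro f hf
    rw [Ideal.mem_bot]
    apply Subtype.ext
    funext i
    ext1 k
    rw [Ideal.mem_iInf] at hf
    have h5 := hf (k + 1)
    rw [Ideal.span_singleton_pow, Ideal.mem_span_singleton] at h5
    obtain ⟨a, rfl⟩ := h5
    rw [MulMemClass.coe_mul, z_pow_coe, Pi.mul_apply, coeff_X_pow_mul', if_neg (by omega)]
    simp
  · intro n hn
    have h3 : yz ^ n ∈ (Ideal.span {yz} : Ideal A) ^ n :=
      Ideal.pow_mem_pow (Ideal.mem_span_singleton_self _) n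
    rw [hn, Ideal.mem_bot] at h3
    have h4 := congrArg (fun b : A => (b : Fin 4 → R) 2) h3
    simp only [yz_pow_coe] at h4
    simp [yv] at h4

end Pool.Agent.S0642
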