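import Pool.Statements.S0649
import Pool.Agent.Helpers.H19eGam

set_option autoImplicit false
open Pool Pool.MP_79c14d_al

namespace Pool.Agent.S0649

/-- There exist a free group F of finite rank, a residually soluble non-free group Γ, and a homomorphism ψ from F to Γ inducing a bijection F/D^j(F) → Γ/D^j(Γ) for every j ≥ 1, where D^j is the j-th derived subgroup. -/
theorem result :
    ∃ (n : ℕ) (Γ : Type) (_ : Group Γ) (ψ : FreeGroup (Fin n) →* Γ),
      (∀ g : Γ, g ≠ 1 →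
        ∃ (S : Type) (_ : Group S) (_ : IsSolvable S) (f : Γ →* S), f g ≠ 1) ∧
      ¬ IsFreeGroup Γ ∧
      ∀ j : ℕ, 1 ≤ j →
        (derivedSeries Γ j).comap ψ = derivedSeries (FreeGroup (Fin n)) j ∧
        ∀ γ : Γ, ∃ x : FreeGroup (Fin n), (ψ x)⁻¹ * γ ∈ derivedSeries Γ j := by
  exact ⟨2, Pool.Agent.Helpers.H19e.Gam, inferInstance, Pool.Agent.Helpers.H19e.psi,
    Pool.Agent.Helpers.H19e.res_sol, Pool.Agent.Helpers.H19e.not_free, fun j _ =>
    ⟨Pool.Agent.Helpers.H19e.comap_eq j, Pool.Agent.Helpers.H19e.surj j⟩⟩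

end Pool.Agent.S0649
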