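-- Proof of the frozen statement S0710 (the negation): a counterexample with n = 4.
-- G = (2-adic integers) x B, where B is a (discrete) free product with amalgamation.
import Pool.Statements.S0710

set_option autoImplicit false
open Pool Pool.MP_8999af_al

namespace Pool.Agent.S0710

section Algebra

variable {A : Type} [CommGroup A]

/-- `A` permutes the free generators of the free group on the set `A` by translation. -/
def act (A : Type) [CommGroup A] : A →* MulAut (FreeGroup A) where
  toFun a := FreeGroup.freeGroupCongr (Equiv.mulLeft a)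
  map_one' := by
    apply MulEquiv.ext
    intro x
    have : (FreeGroup.freeGroupCongr (Equiv.mulLeft (1 : A))).toMonoidHom = MonoidHom.id _ := by
      ext y
      simp
    exact DFunLike.congr_fun this x
  map_mul' a b := by
    apply MulEquiv.ext
    intro x
    have : (FreeGroup.freeGroupCongr (Equiv.mulLeft (a * b))).toMonoidHom =
        ((FreeGroup.freeGroupCongr (Equiv.mulLeft a)).toMonoidHom).comp
          (FreeGroup.freeGroupCongr (Equiv.mulLeft b)).toMonoidHom := by
      ext y
      simp [mul_assoc]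
    exact DFunLike.congr_fun this x

/-- The group `A * ℤ`, written as the semidirect product of the free group on `A` by `A`. -/
abbrev P (A : Type) [CommGroup A] : Type := FreeGroup A ⋊[act A] A

/-- the free letter -/
def t (A : Type) [CommGroup A] : P A := SemidirectProduct.inl (FreeGroup.of 1)

/-- `a ↦ a` -/
def α₁ (A : Type) [CommGroup A] : A →* P A := SemidirectProduct.inr

/-- `a ↦ t a⁻¹ t⁻¹` -/
def α₂ (A : Type) [CommGroup A] : A →* P A where
  toFun a := t A * (α₁ A a)⁻¹ * (t A)⁻¹
  map_one' := by simp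
  map_mul' a b := by
    have : α₁ A a * α₁ A b = α₁ A b * α₁ A a := by rw [← map_mul, mul_comm, map_mul]
    rw [map_mul, this, mul_inv_rev]
    group

/-- `a ↦ t a t⁻¹` -/
def α₃ (A : Type) [CommGroup A] : A →* P A where
  toFun a := t A * (α₁ A a) * (t A)⁻¹
  map_one' := by simp
  map_mul' a b := by
    rw [map_mul]
    group

/-- `a ↦ a⁻¹` -/
def α₄ (A : Type) [CommGroup A] : A →* P A where
  toFun a := (α₁ A a)⁻¹
  map_one' := by simp
  map_mul' a b := by
    rw [mul_comm, map_mul, mul_inv_rev]

/-- `x a = a t a⁻¹ t⁻¹` -/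
def x (a : A) : P A := SemidirectProduct.inl (FreeGroup.of a * (FreeGroup.of 1)⁻¹)

theorem α₁_mul_α₂ (a : A) : α₁ A a * α₂ A a = x a := by
  have h : α₁ A a * t A * (α₁ A a)⁻¹ = SemidirectProduct.inl (FreeGroup.of a) := by
    have := SemidirectProduct.inl_aut (φ := act A) a (FreeGroup.of 1)
    simp only [α₁, t]
    rw [← map_inv, ← this]
    have h3 : (act A a) (FreeGroup.of 1) = FreeGroup.of a := by
      simp [act]
    rw [h3]
  have h2 : α₁ A a * α₂ A a = (α₁ A a * t A * (α₁ A a)⁻¹) * (t A)⁻¹ := by
    simp only [α₂, MonoidHom.coe_mk, OneHom.coe_mk]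
    group
  rw [h2, h, x, map_mul, map_inv]
  rfl

theorem α₃_mul_α₄ (a : A) : α₃ A a * α₄ A a = (x a)⁻¹ := by
  rw [← α₁_mul_α₂]
  simp only [α₂, α₃, α₄, MonoidHom.coe_mk, OneHom.coe_mk]
  group

variable (a₀ : A)

/-- The free group on the elements of `A` different from `1` and `a₀`. -/
abbrev F (a₀ : A) : Type := FreeGroup {a : A // a ≠ 1 ∧ a ≠ a₀}

/-- `e_a ↦ a · 1⁻¹` -/
def g : F a₀ →* FreeGroup A :=
  FreeGroup.lift (fun a => FreeGroup.of a.1 * (FreeGroup.of 1)⁻¹)

open Classical in
/-- a retraction -/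
noncomputable def χ : FreeGroup A →* F a₀ :=
  FreeGroup.lift (fun a => if h : a ≠ 1 ∧ a ≠ a₀ then FreeGroup.of ⟨a, h⟩ else 1)

theorem χ_g : (χ a₀).comp (g a₀) = MonoidHom.id _ := by
  ext a
  simp [χ, g, a.2.1, a.2.2]

theorem g_injective : Function.Injective (g a₀) := by
  have h : Function.LeftInverse (χ a₀) (g a₀) := fun y => DFunLike.congr_fun (χ_g a₀) y
  exact h.injective

open Classical in
/-- counts the letter `a₀` -/
noncomputable def ψ : FreeGroup A →* Multiplicative ℤ :=
  FreeGroup.lift (fun a => if a = a₀ then Multiplicative.ofAdd 1 else 1)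

theorem ψ_g (h : a₀ ≠ 1) : (ψ a₀).comp (g a₀) = 1 := by
  ext a
  have h2 := a.2.2
  simp [ψ, g, h2, h.symm]

/-- the embedding of `F` in `P` -/
def φ : F a₀ →* P A := (SemidirectProduct.inl).comp (g a₀)

theorem φ_injective : Function.Injective (φ a₀) :=
  SemidirectProduct.inl_injective.comp (g_injective a₀)

theorem φ_of (a : {a : A // a ≠ 1 ∧ a ≠ a₀}) : φ a₀ (FreeGroup.of a) = x a.1 := by
  simp [φ, g, x]

theorem x_not_mem (h : a₀ ≠ 1) (f : F a₀) : φ a₀ f ≠ x a₀ := by
  intro hf
  have h1 : g a₀ f = FreeGroup.of a₀ * (FreeGroup.of 1)⁻¹ :=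
    SemidirectProduct.inl_injective hf
  have h2 := congrArg (ψ a₀) h1
  have h3 : ψ a₀ (g a₀ f) = 1 := DFunLike.congr_fun (ψ_g a₀ h) f
  rw [h3] at h2
  simp [ψ, h.symm] at h2
  exact absurd h2 (by decide)

/-- the amalgamated product -/
abbrev B : Type := Monoid.PushoutI (ι := Bool) (G := fun _ => P A) (H := F a₀) (fun _ => φ a₀)

/-- the four homomorphisms -/
def hom (i : Fin 4) : A →* B a₀ :=
  match i with
  | 0 => (Monoid.PushoutI.of (φ := fun _ : Bool => φ a₀) false).comp (α₁ A)
  | 1 => (Monoid.PushoutI.of (φ := fun _ : Bool => φ a₀) false).comp (α₂ A)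
  | 2 => (Monoid.PushoutI.of (φ := fun _ : Bool => φ a₀) true).comp (α₃ A)
  | 3 => (Monoid.PushoutI.of (φ := fun _ : Bool => φ a₀) true).comp (α₄ A)

theorem hom_prod (a : A) : hom a₀ 0 a * hom a₀ 1 a * hom a₀ 2 a * hom a₀ 3 a =
    Monoid.PushoutI.of (φ := fun _ : Bool => φ a₀) false (x a) *
      (Monoid.PushoutI.of (φ := fun _ : Bool => φ a₀) true (x a))⁻¹ := by
  rw [← map_inv, ← α₃_mul_α₄, ← α₁_mul_α₂, map_mul, map_mul]
  simp [hom, mul_assoc]

theorem hom_prod_eq_one (a : A) (ha : a ≠ a₀) :
    hom a₀ 0 a * hom a₀ 1 a * hom a₀ 2 a * hom a₀ 3 a = 1 := by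
  rw [hom_prod]
  by_cases h1 : a = 1
  · subst h1
    simp [x]
  · have := φ_of a₀ ⟨a, h1, ha⟩
    simp only at this
    rw [← this]
    have e1 := Monoid.PushoutI.of_apply_eq_base (fun _ : Bool => φ a₀) false
      (FreeGroup.of ⟨a, h1, ha⟩)
    have e2 := Monoid.PushoutI.of_apply_eq_base (fun _ : Bool => φ a₀) true
      (FreeGroup.of ⟨a, h1, ha⟩)
    rw [e1, e2]
    simp

theorem hom_prod_ne_one (h : a₀ ≠ 1) :
    hom a₀ 0 a₀ * hom a₀ 1 a₀ * hom a₀ 2 a₀ * hom a₀ 3 a₀ ≠ 1 := by
  rw [hom_prod]
  intro hx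
  rw [mul_inv_eq_one] at hx
  have hinj : ∀ _ : Bool, Function.Injective (φ a₀) := fun _ => φ_injective a₀
  have hr := Monoid.PushoutI.inf_of_range_eq_base_range (φ := fun _ : Bool => φ a₀) hinj
    (i := false) (j := true) (by simp)
  have hmem : Monoid.PushoutI.of (φ := fun _ : Bool => φ a₀) false (x a₀) ∈
      (Monoid.PushoutI.base (fun _ : Bool => φ a₀)).range := by
    rw [← hr]
    exact ⟨⟨_, rfl⟩, ⟨x a₀, hx.symm⟩⟩
  obtain ⟨f, hf⟩ := hmem
  rw [← Monoid.PushoutI.of_apply_eq_base (fun _ : Bool => φ a₀) false f] at hf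
  exact x_not_mem a₀ h f (Monoid.PushoutI.of_injective hinj false hf)

end Algebra

open Classical in
/-- The discrete metric on a type. -/
@[reducible] noncomputable def discMetric (X : Type) : MetricSpace X where
  dist := fun x y => if x = y then 0 else 1
  dist_self := fun x => by simp
  dist_comm := fun x y => by simp only [eq_comm]
  dist_triangle := fun x y z => by
    by_cases h1 : x = y <;> by_cases h2 : y = z <;> by_cases h3 : x = z <;>
      simp_all
  eq_of_dist_eq_zero := fun {x y} h => by
    by_contra hne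
    simp [hne] at h

open Classical in
theorem discMetric_dist (X : Type) (x y : X) (h : x ≠ y) : (discMetric X).dist x y = 1 := by
  change (if x = y then (0 : ℝ) else 1) = 1
  rw [if_neg h]

theorem discMetric_discrete (X : Type) :
    @DiscreteTopology X (discMetric X).toPseudoMetricSpace.toUniformSpace.toTopologicalSpace := by
  let _ := discMetric X
  rw [discreteTopology_iff_isOpen_singleton]
  intro a
  rw [Metric.isOpen_iff]
  intro y hy
  refine ⟨1 / 2, by norm_num, ?_⟩
  intro z hz
  rw [Set.mem_singleton_iff] at hy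
  subst hy
  rw [Metric.mem_ball] at hz
  by_contra hne
  have h1 : dist z y = 1 := discMetric_dist X z y (by simpa using hne)
  rw [h1] at hz
  norm_num at hz

theorem discMetric_complete (X : Type) :
    @CompleteSpace X (discMetric X).toPseudoMetricSpace.toUniformSpace := by
  let _ := discMetric X
  apply Metric.complete_of_cauchySeq_tendsto
  intro u hu
  rw [Metric.cauchySeq_iff'] at hu
  obtain ⟨N, hN⟩ := hu (1 / 2) (by norm_num)
  refine ⟨u N, ?_⟩
  have : ∀ n ≥ N, u n = u N := by
    intro n hn
    have h := hN n hn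
    by_contra hne
    have h1 : dist (u n) (u N) = 1 := discMetric_dist X _ _ hne
    rw [h1] at h
    norm_num at h
  exact tendsto_atTop_of_eventually_const (i₀ := N) this

/-- The group `ℤ_2`, written multiplicatively. -/
abbrev A₂ : Type := Multiplicative ℤ_[2]

/-- the point `1 ∈ ℤ_2` -/
noncomputable def pt : A₂ := Multiplicative.ofAdd 1

theorem pt_ne_one : pt ≠ 1 := by
  intro h
  have : (1 : ℤ_[2]) = 0 := h
  exact one_ne_zero this

/-- the sequence `1 + 2 ^ k` in `ℤ_2` tends to `1` -/
theorem exists_seq : ∃ u : ℕ → A₂, (∀ k, u k ≠ pt) ∧ Filter.Tendsto u Filter.atTop (nhds pt) := by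
  refine ⟨fun k => Multiplicative.ofAdd (1 + (2 : ℤ_[2]) ^ k), ?_, ?_⟩
  · intro k h
    have h1 : (1 + (2 : ℤ_[2]) ^ k) = 1 := h
    have h2 : (2 : ℤ_[2]) ^ k = 0 := by
      have := add_eq_left.1 h1
      exact this
    exact two_ne_zero (eq_zero_of_pow_eq_zero h2)
  · have h1 : Filter.Tendsto (fun k : ℕ => (2 : ℤ_[2]) ^ k) Filter.atTop (nhds 0) := by
      apply tendsto_pow_atTop_nhds_zero_of_norm_lt_one
      have := PadicInt.norm_p (p := 2)
      push_cast at this
      rw [this]
      norm_num
    have h2 : Filter.Tendsto (fun k : ℕ => 1 + (2 : ℤ_[2]) ^ k) Filter.atTop (nhds (1 + 0)) :=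
      h1.const_add 1
    rw [add_zero] at h2
    exact h2

instance : CompleteSpace A₂ := inferInstanceAs (CompleteSpace ℤ_[2])

instance : IsUltrametricDist A₂ := inferInstanceAs (IsUltrametricDist ℤ_[2])

/-- The negation of the preceding statement: In a complete metric non-commutative topological group G, if U1,...,Un are homomorphisms G→G and x ↦ U1(x)⋯Un(x) is of some Baire class (iterated pointwise sequential limits of continuous maps), then that map is continuous. -/
theorem result :
    ¬ (∀ (G : Type) [Group G] [MetricSpace G] [IsTopologicalGroup G] [CompleteSpace G],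
      (∃ a b : G, a * b ≠ b * a) →
      ∀ (n : ℕ) (U : Fin n → G →* G),
        (∀ S : Set (G → G),
          (∀ f : G → G, Continuous f → f ∈ S) →
          (∀ (f : ℕ → G → G) (g : G → G), (∀ k, f k ∈ S) →
            (∀ x, Filter.Tendsto (fun k => f k x) Filter.atTop (nhds (g x))) → g ∈ S) →
          (fun x => (List.ofFn (fun i => U i x)).prod) ∈ S) →
        Continuous (fun x => (List.ofFn (fun i => U i x)).prod)) := by
  classical
  intro H
  let m : MetricSpace (B pt) := discMetric (B pt)
  have d : DiscreteTopology (B pt) := discMetric_discrete (B pt)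
  have c : CompleteSpace (B pt) := discMetric_complete (B pt)
  have tg : IsTopologicalGroup (B pt) := inferInstance
  -- the value at the exceptional point
  set R : B pt := hom pt 0 pt * hom pt 1 pt * hom pt 2 pt * hom pt 3 pt with hR
  have hR1 : R ≠ 1 := hom_prod_ne_one pt pt_ne_one
  let U : Fin 4 → (A₂ × B pt →* A₂ × B pt) := fun i =>
    (MonoidHom.inr A₂ (B pt)).comp ((hom pt i).comp (MonoidHom.fst A₂ (B pt)))
  have hU : ∀ y : A₂ × B pt, (List.ofFn (fun i => U i y)).prod =
      if y.1 = pt then ((1 : A₂), R) else 1 := by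
    intro y
    have h1 : (List.ofFn (fun i => U i y)).prod =
        (1, hom pt 0 y.1 * hom pt 1 y.1 * hom pt 2 y.1 * hom pt 3 y.1) := by
      simp [U, List.ofFn_succ, mul_assoc]
    rw [h1]
    split_ifs with hy
    · rw [hy]
    · rw [hom_prod_eq_one pt y.1 hy]
      rfl
  have hnc : ∃ a b : A₂ × B pt, a * b ≠ b * a := by
    refine ⟨(1, Monoid.PushoutI.of (φ := fun _ : Bool => φ pt) false (α₁ A₂ pt)),
      (1, Monoid.PushoutI.of (φ := fun _ : Bool => φ pt) false (t A₂)), ?_⟩
    intro hcomm
    have h2 := congrArg Prod.snd hcomm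
    simp only [Prod.mk_mul_mk] at h2
    rw [← map_mul, ← map_mul] at h2
    have hinj : ∀ _ : Bool, Function.Injective (φ pt) := fun _ => φ_injective pt
    have h3 := Monoid.PushoutI.of_injective hinj false h2
    have h4 : x pt = 1 := by
      rw [← α₁_mul_α₂]
      simp only [α₂, MonoidHom.coe_mk, OneHom.coe_mk]
      rw [← mul_assoc, ← mul_assoc, h3]
      group
    apply hR1
    rw [hR, hom_prod, h4]
    simp
  have hcont := H (A₂ × B pt) hnc 4 U (by
    intro S hS1 hS2
    -- approximations
    let f : ℕ → (A₂ × B pt) → (A₂ × B pt) := fun k y =>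
      if y.1 ∈ Metric.ball pt (1 / ((k : ℝ) + 1)) then ((1 : A₂), R) else 1
    apply hS2 f
    · intro k
      apply hS1
      have hclopen : IsClopen {y : A₂ × B pt | y.1 ∈ Metric.ball pt (1 / ((k : ℝ) + 1))} :=
        (IsUltrametricDist.isClopen_ball pt _).preimage continuous_fst
      apply Continuous.if
      · intro a ha
        rw [hclopen.frontier_eq] at ha
        exact absurd ha (Set.notMem_empty a)
      · exact continuous_const
      · exact continuous_const
    · intro y
      rw [hU y]
      by_cases hy : y.1 = pt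
      · rw [if_pos hy]
        apply tendsto_const_nhds.congr
        intro k
        simp only [f]
        rw [if_pos]
        rw [hy]
        apply Metric.mem_ball_self
        positivity
      · rw [if_neg hy]
        have hpos : 0 < dist y.1 pt := dist_pos.2 hy
        obtain ⟨N, hN⟩ := exists_nat_one_div_lt hpos
        apply tendsto_atTop_of_eventually_const (i₀ := N)
        intro k hk
        simp only [f]
        rw [if_neg]
        rw [Metric.mem_ball, not_lt]
        refine le_trans ?_ hN.le
        apply one_div_le_one_div_of_le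
        · positivity
        · have : (N : ℝ) ≤ k := by exact_mod_cast hk
          linarith)
  obtain ⟨u, hu1, hu2⟩ := exists_seq
  have h1 : Filter.Tendsto (fun k => (u k, (1 : B pt))) Filter.atTop (nhds (pt, (1 : B pt))) :=
    hu2.prodMk_nhds tendsto_const_nhds
  have h2 := (hcont.tendsto (pt, (1 : B pt))).comp h1
  have h3 : (fun k => (u k, (1 : B pt))) = (fun k => (u k, (1 : B pt))) := rfl
  have h4 : ((fun y : A₂ × B pt => (List.ofFn (fun i => U i y)).prod) ∘
      (fun k => (u k, (1 : B pt)))) = fun _ => (1 : A₂ × B pt) := by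
    funext k
    simp only [Function.comp]
    rw [hU]
    rw [if_neg (hu1 k)]
  rw [h4] at h2
  have h5 : (List.ofFn (fun i => U i (pt, (1 : B pt)))).prod = ((1 : A₂), R) := by
    rw [hU]
    rw [if_pos rfl]
  rw [h5] at h2
  have h6 := tendsto_nhds_unique h2 tendsto_const_nhds
  exact hR1 (congrArg Prod.snd h6)

end Pool.Agent.S0710
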