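import Pool.Statements.S0713
import Pool.Agent.Helpers.H19dPal
-- import your own Pool.Agent.* helpers here

set_option autoImplicit false
open Pool Pool.MP_8bc403_al

namespace Pool.Agent.S0713

/-- There is a group with finite generating sets X and Y such that every element is a product of boundedly many palindromes over X, but no such bound exists for palindromes over Y. -/
theorem result :
    ∃ (G : Type) (_ : Group G) (X Y : Finset G),
      Subgroup.closure (X : Set G) = ⊤ ∧ Subgroup.closure (Y : Set G) = ⊤ ∧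
      (∃ N : ℕ, ∀ g : G, ∃ ps : List G, ps.length ≤ N ∧ ps.prod = g ∧
        ∀ p ∈ ps, ∃ w : List G, (∀ x ∈ w, x ∈ X ∨ x⁻¹ ∈ X) ∧ w.reverse = w ∧ w.prod = p) ∧
      ¬ (∃ N : ℕ, ∀ g : G, ∃ ps : List G, ps.length ≤ N ∧ ps.prod = g ∧
        ∀ p ∈ ps, ∃ w : List G, (∀ x ∈ w, x ∈ Y ∨ x⁻¹ ∈ Y) ∧ w.reverse = w ∧ w.prod = p) := by
  classical
  refine ⟨FreeGroup (Fin 2), inferInstance,
    {FreeGroup.of 0, FreeGroup.of 1, FreeGroup.of 0 * FreeGroup.of 1},
    {FreeGroup.of 0, FreeGroup.of 1}, ?_, ?_, ?_, Pool.Agent.Helpers.H19d.infinite_width⟩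
  · rw [eq_top_iff, ← FreeGroup.closure_range_of, Subgroup.closure_le]
    rintro _ ⟨i, rfl⟩
    apply Subgroup.subset_closure
    fin_cases i <;> simp
  · rw [eq_top_iff, ← FreeGroup.closure_range_of, Subgroup.closure_le]
    rintro _ ⟨i, rfl⟩
    apply Subgroup.subset_closure
    fin_cases i <;> simp
  · refine ⟨3, fun g => ?_⟩
    obtain ⟨m, n, k, hk, hg⟩ := Pool.Agent.Helpers.H19d.finite_width g
    have hX : ∀ x : FreeGroup (Fin 2), x ∈ Pool.Agent.Helpers.H19d.X3 ↔
        x ∈ ({FreeGroup.of 0, FreeGroup.of 1, FreeGroup.of 0 * FreeGroup.of 1} :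
          Finset (FreeGroup (Fin 2))) := by
      intro x
      simp [Pool.Agent.Helpers.H19d.X3]
    refine ⟨[FreeGroup.of 0 ^ m, FreeGroup.of 1 ^ n, k], by simp, ?_, ?_⟩
    · rw [hg]; simp [mul_assoc]
    · intro p hp
      have h3 : ∃ w : List (FreeGroup (Fin 2)), (∀ x ∈ w, x ∈ Pool.Agent.Helpers.H19d.X3 ∨
          x⁻¹ ∈ Pool.Agent.Helpers.H19d.X3) ∧ w.reverse = w ∧ w.prod = p := by
        simp only [List.mem_cons, List.not_mem_nil, or_false] at hp
        rcases hp with h | h | h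
        · rw [h]; exact Pool.Agent.Helpers.H19d.pal_zpow (Or.inl rfl) m
        · rw [h]; exact Pool.Agent.Helpers.H19d.pal_zpow (Or.inr (Or.inl rfl)) n
        · rw [h]; exact Pool.Agent.Helpers.H19d.pal_of_mem hk
      obtain ⟨w, hw, h1, h2⟩ := h3
      exact ⟨w, fun x hx => by rw [← hX, ← hX]; exact hw x hx, h1, h2⟩


end Pool.Agent.S0713
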