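import Pool.Statements.S0727
import Pool.Agent.Helpers.CrysEnd

set_option autoImplicit false
open Pool Pool.MP_908eba_al

namespace Pool.Agent.S0727

/-- For every crystallographic group Γ of motions of ℝ^{p,q}, only finitely many subgroups of Γ arise as the translation lattice under some faithful realisation of Γ as a crystallographic group of motions of ℝ^{p,q}. -/
theorem result :
  ∀ (p q : ℕ) (Γ : Subgroup ((Fin p ⊕ Fin q → ℝ) ≃ᵃ[ℝ] (Fin p ⊕ Fin q → ℝ))),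
    (∀ f ∈ Γ, ∀ v : Fin p ⊕ Fin q → ℝ,
      (∑ i : Fin p, (f.linear v (Sum.inl i)) ^ 2) - (∑ j : Fin q, (f.linear v (Sum.inr j)) ^ 2)
        = (∑ i : Fin p, (v (Sum.inl i)) ^ 2) - (∑ j : Fin q, (v (Sum.inr j)) ^ 2)) →
    (∃ b : Module.Basis (Fin p ⊕ Fin q) ℝ (Fin p ⊕ Fin q → ℝ),
      {w : Fin p ⊕ Fin q → ℝ | ∃ f ∈ Γ, f.linear = LinearEquiv.refl ℝ (Fin p ⊕ Fin q → ℝ) ∧ f 0 = w}
        = (Submodule.span ℤ (Set.range b) : Set (Fin p ⊕ Fin q → ℝ))) →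
    {L : Subgroup Γ | ∃ φ : Γ →* ((Fin p ⊕ Fin q → ℝ) ≃ᵃ[ℝ] (Fin p ⊕ Fin q → ℝ)),
        Function.Injective φ ∧
        (∀ g : Γ, ∀ v : Fin p ⊕ Fin q → ℝ,
          (∑ i : Fin p, ((φ g).linear v (Sum.inl i)) ^ 2) - (∑ j : Fin q, ((φ g).linear v (Sum.inr j)) ^ 2)
            = (∑ i : Fin p, (v (Sum.inl i)) ^ 2) - (∑ j : Fin q, (v (Sum.inr j)) ^ 2)) ∧
        (∃ b : Module.Basis (Fin p ⊕ Fin q) ℝ (Fin p ⊕ Fin q → ℝ),
          {w : Fin p ⊕ Fin q → ℝ | ∃ g : Γ, (φ g).linear = LinearEquiv.refl ℝ (Fin p ⊕ Fin q → ℝ) ∧ φ g 0 = w}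
            = (Submodule.span ℤ (Set.range b) : Set (Fin p ⊕ Fin q → ℝ))) ∧
        ∀ g : Γ, g ∈ L ↔ (φ g).linear = LinearEquiv.refl ℝ (Fin p ⊕ Fin q → ℝ)}.Finite := by
  intro p q Γ _ _
  have hmain := Pool.Agent.H12.Crys.main (G := Γ) (ι := Fin p ⊕ Fin q)
    (B := Pool.Agent.H12.Crys.pq p q) (Pool.Agent.H12.Crys.pq_symm p q)
    (fun u h => Pool.Agent.H12.Crys.pq_nondeg p q u h)
  refine hmain.subset ?_
  rintro L ⟨φ, hinj, hiso, ⟨b, hb⟩, hL⟩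
  refine ⟨⟨φ, hinj, fun g v w => Pool.Agent.H12.Crys.pq_polar p q (φ g).linear (hiso g) v w,
    b, hb⟩, ?_⟩
  intro g
  rw [Pool.Agent.H12.Crys.A_zero_iff]
  exact hL g

end Pool.Agent.S0727
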