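import Pool.Statements.S0752
import Pool.Agent.H24.GSd

set_option autoImplicit false
open Pool Pool.MP_954a1f_al

namespace Pool.Agent.S0752

open Pool.Agent.H24.GS in
/-- the relators of `G(a,b)` -/
def rels (a b : ℕ) : Set (FreeGroup (Fin 2)) :=
  {(cmt (FreeGroup.of (1 : Fin 2)))^[a] (FreeGroup.of (0 : Fin 2)) * (FreeGroup.of (0 : Fin 2))⁻¹,
   (cmt (FreeGroup.of (0 : Fin 2)))^[b] (FreeGroup.of (1 : Fin 2)) * (FreeGroup.of (1 : Fin 2))⁻¹}

open Pool.Agent.H24.GS in
lemma lift_rels {Γ : Type} [Group Γ] (a b : ℕ) (x y : Γ) (hx : (cmt y)^[a] x = x)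
    (hy : (cmt x)^[b] y = y) : ∀ r ∈ rels a b, FreeGroup.lift ![x, y] r = 1 := by
  intro r hr
  rcases hr with hr | hr
  · rw [hr, map_mul, map_inv, cmt_iter_map]
    simp only [FreeGroup.lift_apply_of, Matrix.cons_val_zero, Matrix.cons_val_one]
    rw [hx, mul_inv_cancel]
  · rw [Set.mem_singleton_iff] at hr
    rw [hr, map_mul, map_inv, cmt_iter_map]
    simp only [FreeGroup.lift_apply_of, Matrix.cons_val_zero, Matrix.cons_val_one]
    rw [hy, mul_inv_cancel]

open Pool.Agent.H24.GS in
lemma rel_x (a b : ℕ) : (cmt (PresentedGroup.of 1 : PresentedGroup (rels a b)))^[a]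
    (PresentedGroup.of 0) = PresentedGroup.of 0 := by
  have h1 : PresentedGroup.mk (rels a b)
      ((cmt (FreeGroup.of (1 : Fin 2)))^[a] (FreeGroup.of (0 : Fin 2)) *
      (FreeGroup.of (0 : Fin 2))⁻¹) = 1 := PresentedGroup.one_of_mem (Or.inl rfl)
  rw [map_mul, map_inv, cmt_iter_map, mul_inv_eq_one] at h1
  exact h1

open Pool.Agent.H24.GS in
lemma rel_y (a b : ℕ) : (cmt (PresentedGroup.of 0 : PresentedGroup (rels a b)))^[b]
    (PresentedGroup.of 1) = PresentedGroup.of 1 := by
  have h1 : PresentedGroup.mk (rels a b)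
      ((cmt (FreeGroup.of (0 : Fin 2)))^[b] (FreeGroup.of (1 : Fin 2)) *
      (FreeGroup.of (1 : Fin 2))⁻¹) = 1 := PresentedGroup.one_of_mem (Or.inr rfl)
  rw [map_mul, map_inv, cmt_iter_map, mul_inv_eq_one] at h1
  exact h1

open Pool.Agent.H24.GS in
lemma infinite_rels (a b : ℕ) (ha : a = 60) (hb : b = 60)
    (hfin : Finite (PresentedGroup (rels a b))) : False := by
  have := Fintype.ofFinite (PresentedGroup (rels a b))
  have hXr := rel_x a b
  have hYr := rel_y a b
  have hpx : (cmt py)^[a] px = px := by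
    subst ha
    have h1 := iter_mod px py per1 60
    have h2 : 60 % 5 = 0 := by norm_num
    rw [h2] at h1
    exact h1
  have hpy : (cmt px)^[b] py = py := by
    subst hb
    have h1 := iter_mod py px per2 60
    have h2 : 60 % 5 = 0 := by norm_num
    rw [h2] at h1
    exact h1
  refine not_finite (G := PresentedGroup (rels a b))
    (PresentedGroup.toGroup (lift_rels a b px py hpx hpy))
    (PresentedGroup.of 0) (PresentedGroup.of 1) ?_ ?_ ?_ ?_ ?_ ?_
  · exact PresentedGroup.toGroup.of _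
  · exact PresentedGroup.toGroup.of _
  · have h1 := PresentedGroup.closure_range_of (rels a b)
    rw [← h1]
    congr 1
    ext g
    constructor
    · rintro (rfl | rfl)
      · exact ⟨0, rfl⟩
      · exact ⟨1, rfl⟩
    · rintro ⟨i, rfl⟩
      fin_cases i
      · exact Or.inl rfl
      · exact Or.inr rfl
  · rw [← ha]; exact hXr
  · rw [← hb]; exact hYr
  · intro X' Y' h1 h2
    rw [← ha] at h1
    rw [← hb] at h2
    refine ⟨PresentedGroup.toGroup (lift_rels a b X' Y' h1 h2), ?_, ?_⟩
    · exact PresentedGroup.toGroup.of _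
    · exact PresentedGroup.toGroup.of _

/-- The negation of the preceding statement: For all a, b ≥ 1, the group with generators x, y and relations x = [x,y,...,y] (a copies of y) and y = [y,x,...,x] (b copies of x) is finite, using left-normed commutators [u,v]=u⁻¹v⁻¹uv. -/
theorem result :
    ¬ (∀ a b : ℕ, 1 ≤ a → 1 ≤ b →
      Finite (PresentedGroup
        ({(fun z : FreeGroup (Fin 2) =>
              z⁻¹ * (FreeGroup.of (1 : Fin 2))⁻¹ * z * FreeGroup.of (1 : Fin 2))^[a]
              (FreeGroup.of (0 : Fin 2)) * (FreeGroup.of (0 : Fin 2))⁻¹,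
          (fun z : FreeGroup (Fin 2) =>
              z⁻¹ * (FreeGroup.of (0 : Fin 2))⁻¹ * z * FreeGroup.of (0 : Fin 2))^[b]
              (FreeGroup.of (1 : Fin 2)) * (FreeGroup.of (1 : Fin 2))⁻¹} :
          Set (FreeGroup (Fin 2))))) := by
  intro h
  obtain ⟨a, ha⟩ : ∃ a : ℕ, a = 60 := ⟨60, rfl⟩
  exact infinite_rels a a ha ha (h a a (by omega) (by omega))

end Pool.Agent.S0752
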