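import Pool.Statements.S0806
import Pool.Agent.H2.GMPair

set_option autoImplicit false
open Pool Pool.MP_9eee4d_al

namespace Pool.Agent.S0806

open Pool.Agent.H2.GM in
theorem x_mem : x ∈ G := by
  have e : x = m * a * m * b := by
    apply Equiv.ext
    decide +kernel
  rw [e]
  exact G.mul_mem (G.mul_mem (G.mul_mem m_mem a_mem) m_mem) b_mem

open Pool.Agent.H2.GM in
theorem x_pow : x ^ 3 = 1 := by
  apply Equiv.ext
  decide +kernel

open Pool.Agent.H2.GM in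
theorem xd_pow : (x * (b * x * b⁻¹)) ^ 7 = 1 := by
  apply Equiv.ext
  decide +kernel

open Pool.Agent.H2.GM in
theorem xd_ne : x * (b * x * b⁻¹) ≠ 1 := by
  intro h
  have h1 := congrArg (fun σ : Equiv.Perm (Fin 9) => σ 0) h
  revert h1
  decide +kernel

/-- The negation of the preceding statement: For a prime p ≠ 5 and a finite group G, suppose x is a p-element and every commutator of two conjugates of x is a p-element. Then x, and hence its whole conjugacy class, lies in a normal p-subgroup of G, that is, in O_p(G). -/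
theorem result :
    ¬ (∀ (p : ℕ), p.Prime → p ≠ 5 →
      ∀ (G : Type) [Group G] [Finite G] (x : G),
        (∃ n : ℕ, x ^ (p ^ n) = 1) →
        (∀ c d : G, IsConj x c → IsConj x d →
          ∃ n : ℕ, (c * d * c⁻¹ * d⁻¹) ^ (p ^ n) = 1) →
        ∃ N : Subgroup G, N.Normal ∧ IsPGroup p N ∧ x ∈ N) := by
  intro hall
  obtain ⟨N, hN, hp, hx⟩ := hall 3 Nat.prime_three (by norm_num) Pool.Agent.H2.GM.G
    ⟨Pool.Agent.H2.GM.x, x_mem⟩ ⟨1, by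
      apply Subtype.ext
      show Pool.Agent.H2.GM.x ^ (3 ^ 1) = 1
      rw [pow_one]
      exact x_pow⟩ (by
      intro c d hc hd
      obtain ⟨g, hg⟩ := isConj_iff.mp hc
      obtain ⟨h, hh⟩ := isConj_iff.mp hd
      refine ⟨2, ?_⟩
      have hS : Pool.Agent.H2.GM.S (((g⁻¹ * h : Pool.Agent.H2.GM.G) : Equiv.Perm (Fin 9)) *
          Pool.Agent.H2.GM.x * ((g⁻¹ * h : Pool.Agent.H2.GM.G) : Equiv.Perm (Fin 9))⁻¹) :=
        (Pool.Agent.H2.GM.conj_iff (g⁻¹ * h).2 _).mp Pool.Agent.H2.GM.x_S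
      have h9 := Pool.Agent.H2.GM.comm_pow hS
      have h9' : ((⟨Pool.Agent.H2.GM.x, x_mem⟩ : Pool.Agent.H2.GM.G) *
          ((g⁻¹ * h) * ⟨Pool.Agent.H2.GM.x, x_mem⟩ * (g⁻¹ * h)⁻¹) *
          (⟨Pool.Agent.H2.GM.x, x_mem⟩ : Pool.Agent.H2.GM.G)⁻¹ *
          ((g⁻¹ * h) * ⟨Pool.Agent.H2.GM.x, x_mem⟩ * (g⁻¹ * h)⁻¹)⁻¹) ^ 9 = 1 := by
        apply Subtype.ext
        exact h9
      generalize (⟨Pool.Agent.H2.GM.x, x_mem⟩ : Pool.Agent.H2.GM.G) = y at hg hh h9'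
      have e : c * d * c⁻¹ * d⁻¹ = g * (y * ((g⁻¹ * h) * y * (g⁻¹ * h)⁻¹) * y⁻¹ *
          ((g⁻¹ * h) * y * (g⁻¹ * h)⁻¹)⁻¹) * g⁻¹ := by
        rw [← hg, ← hh]
        group
      rw [e, conj_pow, show (3 ^ 2 : ℕ) = 9 by norm_num, h9', mul_one, mul_inv_cancel])
  have hd : (⟨Pool.Agent.H2.GM.b, Pool.Agent.H2.GM.b_mem⟩ : Pool.Agent.H2.GM.G) *
      ⟨Pool.Agent.H2.GM.x, x_mem⟩ * (⟨Pool.Agent.H2.GM.b, Pool.Agent.H2.GM.b_mem⟩ : Pool.Agent.H2.GM.G)⁻¹ ∈ N :=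
    hN.conj_mem _ hx _
  have hxd := N.mul_mem hx hd
  obtain ⟨k, hk⟩ := hp ⟨_, hxd⟩
  have hk' : (Pool.Agent.H2.GM.x * (Pool.Agent.H2.GM.b * Pool.Agent.H2.GM.x *
      Pool.Agent.H2.GM.b⁻¹)) ^ 3 ^ k = 1 := by
    have h1 := congrArg (fun w : N => ((w : Pool.Agent.H2.GM.G) : Equiv.Perm (Fin 9))) hk
    exact h1
  have h1 : orderOf (Pool.Agent.H2.GM.x * (Pool.Agent.H2.GM.b * Pool.Agent.H2.GM.x *
      Pool.Agent.H2.GM.b⁻¹)) ∣ 3 ^ k := orderOf_dvd_of_pow_eq_one hk'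
  have h2 : orderOf (Pool.Agent.H2.GM.x * (Pool.Agent.H2.GM.b * Pool.Agent.H2.GM.x *
      Pool.Agent.H2.GM.b⁻¹)) ∣ 7 := orderOf_dvd_of_pow_eq_one xd_pow
  have hc : Nat.Coprime (3 ^ k) 7 := Nat.Coprime.pow_left k (by norm_num)
  have h3 := Nat.eq_one_of_dvd_coprimes hc h1 h2
  exact xd_ne (orderOf_eq_one_iff.mp h3)

end Pool.Agent.S0806
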