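import Pool.Statements.S0831
import Pool.Agent.H26.Out4
-- import your own Pool.Agent.* helpers here

set_option autoImplicit false
open Pool Pool.MP_a5f8b0_al

namespace Pool.Agent.S0831

/-- For the group G of integer permutations generated by all class transpositions and ν(n)=−n−1: conjugation by ν preserves G, every automorphism of G is conjugation by some h in G or by h∘ν, and ν-conjugation is not inner. -/
theorem result :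
    ∀ ν : Equiv.Perm ℤ, (∀ n : ℤ, ν n = -n - 1) →
    ∀ G : Subgroup (Equiv.Perm ℤ),
      G = Subgroup.closure
        {σ : Equiv.Perm ℤ | ∃ r₁ m₁ r₂ m₂ : ℤ,
          0 ≤ r₁ ∧ r₁ < m₁ ∧ 0 ≤ r₂ ∧ r₂ < m₂ ∧
          (¬ ∃ n : ℤ, n % m₁ = r₁ ∧ n % m₂ = r₂) ∧
          (∀ k : ℤ, σ (r₁ + k * m₁) = r₂ + k * m₂ ∧ σ (r₂ + k * m₂) = r₁ + k * m₁) ∧
          (∀ n : ℤ, n % m₁ ≠ r₁ → n % m₂ ≠ r₂ → σ n = n)} →
      (∀ g ∈ G, ν * g * ν⁻¹ ∈ G) ∧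
      (∀ φ : G ≃* G, ∃ h ∈ G,
          (∀ g : G, ((φ g : G) : Equiv.Perm ℤ) = h * (g : Equiv.Perm ℤ) * h⁻¹) ∨
          (∀ g : G, ((φ g : G) : Equiv.Perm ℤ) = h * ν * (g : Equiv.Perm ℤ) * ν⁻¹ * h⁻¹)) ∧
      (¬ ∃ h ∈ G, ∀ g ∈ G, ν * g * ν⁻¹ = h * g * h⁻¹) := by
  
  exact Pool.Agent.H26.Out.main

end Pool.Agent.S0831
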