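import Pool.Statements.S0837
import Pool.Agent.H3.CLF3
-- import your own Pool.Agent.* helpers here

set_option autoImplicit false
open Pool Pool.MP_a8364e_al

namespace Pool.Agent.S0837

section aux
open Pool.Agent.H3.CLF Pool.Agent.H3.CLF.G Polynomial

lemma N_deg (e : E) (p : M) (n : ℕ) (h : p ∈ degreeLT K n) : N e p ∈ degreeLT K (n + 1) := by
  rw [mem_degreeLT] at h ⊢
  unfold N
  have hn : p.degree < ((n + 1 : ℕ) : WithBot ℕ) := lt_trans h (by exact_mod_cast Nat.lt_succ_self n)
  refine lt_of_le_of_lt (degree_add_le _ _) (max_lt (lt_of_le_of_lt (degree_add_le _ _) (max_lt ?_ ?_)) ?_)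
  · exact lt_of_le_of_lt (degree_smul_le _ _) hn
  · refine lt_of_le_of_lt (degree_smul_le _ _) ?_
    rw [mul_comm, degree_mul_X]
    have : ((n + 1 : ℕ) : WithBot ℕ) = (n : WithBot ℕ) + 1 := by push_cast; rfl
    rw [this]
    exact WithBot.add_lt_add_right (by decide) h
  · refine lt_of_le_of_lt degree_C_le ?_
    exact_mod_cast Nat.succ_pos n

/-- the finite subgroups -/
noncomputable def H (n : ℕ) : Subgroup G where
  carrier := {x | x.v ∈ degreeLT K n ∧ x.w ∈ degreeLT K (n + 1)}
  one_mem' := ⟨(degreeLT K n).zero_mem, (degreeLT K (n+1)).zero_mem⟩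
  mul_mem' := by
    rintro x y ⟨h1, h2⟩ ⟨h3, h4⟩
    refine ⟨?_, ?_⟩
    · rw [mul_v]
      exact (degreeLT K n).add_mem h1 ((degreeLT K n).smul_mem _ h3)
    · rw [mul_w]
      refine (degreeLT K (n+1)).add_mem ((degreeLT K (n+1)).add_mem h2 ((degreeLT K (n+1)).smul_mem _ h4)) ?_
      exact N_deg _ _ _ ((degreeLT K n).smul_mem _ h3)
  inv_mem' := by
    rintro x ⟨h1, h2⟩
    refine ⟨?_, ?_⟩
    · rw [inv_v]; exact (degreeLT K n).smul_mem _ h1
    · rw [inv_w]
      exact (degreeLT K (n+1)).smul_mem _ ((degreeLT K (n+1)).sub_mem (N_deg _ _ _ h1) h2)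

instance (n : ℕ) : Finite (degreeLT K n) :=
  Finite.of_injective _ (degreeLTEquiv K n).injective

lemma H_finite (n : ℕ) : (H n : Set G).Finite := by
  have : Finite (H n) := by
    apply Finite.of_injective (β := degreeLT K n × degreeLT K (n+1) × E × Kˣ × Kˣ)
      (fun x => (⟨x.1.v, x.2.1⟩, ⟨x.1.w, x.2.2⟩, x.1.e, x.1.s, x.1.t))
    rintro ⟨x, hx⟩ ⟨y, hy⟩ hxy
    simp only [Prod.mk.injEq, Subtype.mk.injEq] at hxy
    obtain ⟨a1, a2, a3, a4, a5⟩ := hxy
    apply Subtype.ext
    ext1
    · exact a1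
    · exact a2
    · exact a3
    · exact a4
    · exact a5
  exact Set.toFinite _

lemma H_mono {m n : ℕ} (h : m ≤ n) : H m ≤ H n := by
  rintro x ⟨h1, h2⟩
  exact ⟨degreeLT_mono h h1, degreeLT_mono (Nat.succ_le_succ h) h2⟩

lemma exists_H (x : G) : ∃ n, x ∈ H n := by
  refine ⟨max (x.v.natDegree + 1) (x.w.natDegree + 1), ?_, ?_⟩
  · rw [mem_degreeLT]
    refine lt_of_le_of_lt degree_le_natDegree ?_
    exact_mod_cast lt_of_lt_of_le (Nat.lt_succ_self _) (le_max_left _ _)
  · rw [mem_degreeLT]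
    refine lt_of_le_of_lt degree_le_natDegree ?_
    exact_mod_cast lt_of_lt_of_le (Nat.lt_succ_self _) ((le_max_right _ _).trans (Nat.le_succ _))

lemma loc_fin (s : Finset G) : ((Subgroup.closure (s : Set G) : Subgroup G) : Set G).Finite := by
  have : ∃ n, ∀ x ∈ s, x ∈ H n := by
    classical
    induction s using Finset.induction_on with
    | empty => exact ⟨0, by simp⟩
    | insert a s ha ih =>
      obtain ⟨n, hn⟩ := ih
      obtain ⟨m, hm⟩ := exists_H a
      refine ⟨max m n, fun x hx => ?_⟩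
      rcases Finset.mem_insert.1 hx with rfl | hx
      · exact H_mono (le_max_left _ _) hm
      · exact H_mono (le_max_right _ _) (hn x hx)
  obtain ⟨n, hn⟩ := this
  exact (H_finite n).subset ((Subgroup.closure_le (K := H n)).2 hn)

end aux

/-- There is a countable infinite group in which every finitely generated subgroup is finite, the centre is trivial, and every automorphism is conjugation by some group element. -/
theorem result :
    ∃ (G : Type) (_ : Group G), Countable G ∧ Infinite G ∧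
      (∀ s : Finset G, ((Subgroup.closure (s : Set G) : Subgroup G) : Set G).Finite) ∧
      Subgroup.center G = ⊥ ∧
      ∀ φ : MulAut G, ∃ g : G, φ = MulAut.conj g := by
  refine ⟨Pool.Agent.H3.CLF.G, inferInstance, ?_, ?_, loc_fin, Pool.Agent.H3.CLF.G.center_triv,
    fun φ => Pool.Agent.H3.CLF.G.inner φ⟩
  · have hc : Countable Pool.Agent.H3.CLF.M := by
      rw [← Cardinal.mk_le_aleph0_iff]
      refine (Polynomial.cardinalMk_le_max (R := Pool.Agent.H3.CLF.K)).trans ?_
      simp
    apply Function.Injective.countable (β := Pool.Agent.H3.CLF.M × Pool.Agent.H3.CLF.M × Pool.Agent.H3.CLF.E × Pool.Agent.H3.CLF.Kˣ × Pool.Agent.H3.CLF.Kˣ)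
      (f := fun x => (x.v, x.w, x.e, x.s, x.t))
    intro x y hxy
    simp only [Prod.mk.injEq] at hxy
    obtain ⟨a1, a2, a3, a4, a5⟩ := hxy
    exact Pool.Agent.H3.CLF.G.ext a1 a2 a3 a4 a5
  · exact Infinite.of_injective Pool.Agent.H3.CLF.G.iv (fun _ _ => Pool.Agent.H3.CLF.G.iv_inj)

end Pool.Agent.S0837
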