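import Pool.Statements.S0844
import Pool.Agent.H2.AAInv2

set_option autoImplicit false
open Pool Pool.MP_aa6e24_al

namespace Pool.Agent.S0844

open Pool.Agent.H2

/-- the involution -/
def t : AA.G := ⟨AA.t, AA.t_mem⟩
/-- the conjugating element -/
def y : AA.G := ⟨AA.a * AA.a, AA.G.mul_mem AA.a_mem AA.a_mem⟩

theorem tt : AA.t * AA.t = 1 := by
  apply Equiv.ext
  decide +kernel

theorem order_t : orderOf t = 2 := by
  apply orderOf_eq_prime
  · apply Subtype.ext
    show AA.t ^ 2 = 1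
    rw [pow_two, tt]
  · intro h
    have h1 := congrArg (fun w : AA.G => (w : Equiv.Perm (Fin 9)) 0) h
    revert h1
    show (AA.t 0 = (1 : Equiv.Perm (Fin 9)) 0) → False
    decide

theorem good_of (d : AA.G) (hd : (∃ x : AA.G, d = x * t * x⁻¹) ∨
    (∃ x y : AA.G, d = x * t * x⁻¹ * (y * t * y⁻¹) ∧ orderOf d = 2)) :
    AA.Good (d : Equiv.Perm (Fin 9)) := by
  rcases hd with ⟨x, rfl⟩ | ⟨x, y, h, ho⟩
  · refine ⟨?_, (AA.L1 x.2).2.2⟩
    show ((x : Equiv.Perm (Fin 9)) * AA.t * (x : Equiv.Perm (Fin 9))⁻¹) *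
      ((x : Equiv.Perm (Fin 9)) * AA.t * (x : Equiv.Perm (Fin 9))⁻¹) = 1
    have e : ((x : Equiv.Perm (Fin 9)) * AA.t * (x : Equiv.Perm (Fin 9))⁻¹) *
      ((x : Equiv.Perm (Fin 9)) * AA.t * (x : Equiv.Perm (Fin 9))⁻¹) =
      (x : Equiv.Perm (Fin 9)) * (AA.t * AA.t) * (x : Equiv.Perm (Fin 9))⁻¹ := by group
    rw [e, tt]
    group
  · have h1 := AA.L1 x.2
    have h2 := AA.L1 y.2
    have h5 : (d : Equiv.Perm (Fin 9)) 5 = 5 := by
      rw [h]
      show ((x : Equiv.Perm (Fin 9)) * AA.t * (x : Equiv.Perm (Fin 9))⁻¹)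
        (((y : Equiv.Perm (Fin 9)) * AA.t * (y : Equiv.Perm (Fin 9))⁻¹) 5) = 5
      rw [h2.1, h1.2.1]
    have hne : (d : Equiv.Perm (Fin 9)) ≠ 1 := by
      intro he
      have : d = 1 := Subtype.ext he
      rw [this, orderOf_one] at ho
      norm_num at ho
    refine ⟨?_, AA.L2 d.2 h5 hne⟩
    have h3 := pow_orderOf_eq_one d
    rw [ho, pow_two] at h3
    exact congrArg Subtype.val h3

/-- The negation of the preceding statement: For all finite groups G and t of order 2: if every element of D (conjugates of t, or order-2 products of two conjugates) misses some Sylow 2-subgroup, and for each d∈D commuting with t, t lies in every Sylow 2-subgroup of C_G(d), then every order-2 product of two conjugates of t is a conjugate of t. -/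
theorem result :
    ¬ (∀ (G : Type) [Group G] [Finite G] (t : G), orderOf t = 2 →
      (∀ d : G, ((∃ x : G, d = x * t * x⁻¹) ∨
          (∃ x y : G, d = x * t * x⁻¹ * (y * t * y⁻¹) ∧ orderOf d = 2)) →
        ∃ P : Sylow 2 G, d ∉ (P : Subgroup G)) →
      (∀ d : G, ((∃ x : G, d = x * t * x⁻¹) ∨
          (∃ x y : G, d = x * t * x⁻¹ * (y * t * y⁻¹) ∧ orderOf d = 2)) →
        d * t = t * d →
        ∀ P : Sylow 2 (Subgroup.centralizer ({d} : Set G)),
          t ∈ (P : Subgroup (Subgroup.centralizer ({d} : Set G))).map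
                (Subgroup.centralizer ({d} : Set G)).subtype) →
      ∀ x y : G, orderOf (x * t * x⁻¹ * (y * t * y⁻¹)) = 2 →
        ∃ z : G, x * t * x⁻¹ * (y * t * y⁻¹) = z * t * z⁻¹) := by
  intro hall
  obtain ⟨z, hz⟩ := hall AA.G t order_t
    (by
      intro d hd
      have hg := good_of d hd
      by_contra hno
      push Not at hno
      obtain ⟨γ, hγ, h3, hne⟩ := AA.L4 d.2 hg
      let g : AA.G := ⟨γ, hγ⟩
      obtain ⟨P0⟩ : Nonempty (Sylow 2 AA.G) := inferInstance
      have hmem : ∀ w : AA.G, w ∈ ((g⁻¹ • P0 : Sylow 2 AA.G) : Subgroup AA.G) ↔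
          g * w * g⁻¹ ∈ (P0 : Subgroup AA.G) := by
        intro w
        rw [Sylow.coe_subgroup_smul, Subgroup.mem_pointwise_smul_iff_inv_smul_mem]
        simp [MulAut.smul_def, mul_assoc]
      have h4 : g * d * g⁻¹ ∈ (P0 : Subgroup AA.G) := (hmem d).mp (hno _)
      have h5 := (P0 : Subgroup AA.G).mul_mem (hno P0) h4
      obtain ⟨k, hk⟩ := P0.isPGroup' ⟨_, h5⟩
      have hk' : (d * (g * d * g⁻¹)) ^ 2 ^ k = 1 := congrArg Subtype.val hk
      have h3' : (d * (g * d * g⁻¹)) ^ 3 = 1 := Subtype.ext h3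
      have h6 : orderOf (d * (g * d * g⁻¹)) ∣ 2 ^ k := orderOf_dvd_of_pow_eq_one hk'
      have h7 : orderOf (d * (g * d * g⁻¹)) ∣ 3 := orderOf_dvd_of_pow_eq_one h3'
      have hc : Nat.Coprime (2 ^ k) 3 := Nat.Coprime.pow_left k (by norm_num)
      have h8 := orderOf_eq_one_iff.mp (Nat.eq_one_of_dvd_coprimes hc h6 h7)
      exact hne (congrArg Subtype.val h8))
    (by
      intro d hd hcomm P
      have hg := good_of d hd
      have hp : IsPGroup 2 (⊤ : Subgroup (Subgroup.centralizer ({d} : Set AA.G))) := by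
        rintro ⟨⟨σ, hσ⟩, _⟩
        refine ⟨1, ?_⟩
        apply Subtype.ext
        apply Subtype.ext
        apply Subtype.ext
        show ((σ : AA.G) : Equiv.Perm (Fin 9)) ^ (2 ^ 1) = 1
        rw [pow_one, pow_two]
        apply AA.L3 d.2 hg σ.2
        have h1 := Subgroup.mem_centralizer_iff.mp hσ d rfl
        exact congrArg Subtype.val h1
      have hP := P.is_maximal' hp le_top
      refine ⟨⟨t, ?_⟩, ?_, rfl⟩
      · rw [Subgroup.mem_centralizer_iff]
        intro w hw
        rw [Set.mem_singleton_iff] at hw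
        rw [hw]
        exact hcomm
      · show _ ∈ (P : Subgroup (Subgroup.centralizer ({d} : Set AA.G)))
        rw [← hP]
        trivial)
    1 y
    (by
      apply orderOf_eq_prime
      · apply Subtype.ext
        show (1 * AA.t * 1⁻¹ * ((AA.a * AA.a) * AA.t * (AA.a * AA.a)⁻¹)) ^ 2 = 1
        apply Equiv.ext
        decide +kernel
      · intro h
        have h1 := congrArg (fun w : AA.G => (w : Equiv.Perm (Fin 9)) 0) h
        revert h1
        show ((1 * AA.t * 1⁻¹ * ((AA.a * AA.a) * AA.t * (AA.a * AA.a)⁻¹)) 0 =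
          (1 : Equiv.Perm (Fin 9)) 0) → False
        decide +kernel)
  have h1 := (AA.L1 z.2).1
  have h2 := congrArg (fun w : AA.G => (w : Equiv.Perm (Fin 9)) 5) hz
  have h3 : (1 * AA.t * 1⁻¹ * ((AA.a * AA.a) * AA.t * (AA.a * AA.a)⁻¹)) 5 =
      ((z : Equiv.Perm (Fin 9)) * AA.t * (z : Equiv.Perm (Fin 9))⁻¹) 5 := h2
  rw [h1] at h3
  revert h3
  decide +kernel

end Pool.Agent.S0844
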