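import Pool.Statements.S0852
-- import your own Pool.Agent.* helpers here

set_option autoImplicit false
open Pool Pool.MP_abd870_al

namespace Pool.Agent.S0852

open Filter Topology

/-- The order automorphism `g` of the real line commutes with `x ↦ x + 1`. -/
def Per (g : ℝ ≃o ℝ) : Prop := ∀ x, g (x + 1) = g x + 1

lemma Per.int {g : ℝ ≃o ℝ} (hg : Per g) (n : ℤ) : ∀ x, g (x + n) = g x + n := by
  induction n using Int.induction_on with
  | zero => simp
  | succ i ih =>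
    intro x
    have h1 := hg (x + i)
    have h2 := ih x
    push_cast at *
    rw [← add_assoc, h1, h2]
    ring
  | pred i ih =>
    intro x
    have h1 := hg (x + (-i - 1))
    have h2 := ih x
    push_cast at *
    have h3 : x + (-(i : ℝ) - 1) + 1 = x + -i := by ring
    rw [h3, h2] at h1
    linarith

lemma Per.inv {g : ℝ ≃o ℝ} (hg : Per g) : Per g⁻¹ := by
  intro x
  apply g.injective
  have h1 : g (g⁻¹ (x + 1)) = x + 1 := g.apply_symm_apply _
  have h2 : g (g⁻¹ x) = x := g.apply_symm_apply _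
  rw [h1, hg, h2]

lemma Per.mul {g k : ℝ ≃o ℝ} (hg : Per g) (hk : Per k) : Per (g * k) := by
  intro x
  show g (k (x + 1)) = g (k x) + 1
  rw [hk, hg]

lemma Per.uniformContinuous {g : ℝ ≃o ℝ} (hg : Per g) : UniformContinuous g := by
  rw [Metric.uniformContinuous_iff]
  intro ε hε
  have hc : UniformContinuousOn g (Set.Icc (-1) 2) :=
    isCompact_Icc.uniformContinuousOn_of_continuous g.continuous.continuousOn
  rw [Metric.uniformContinuousOn_iff] at hc
  obtain ⟨δ, hδ, h⟩ := hc ε hε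
  refine ⟨min δ 1, lt_min hδ one_pos, ?_⟩
  intro x y hxy
  have h1 : dist x y < δ := lt_of_lt_of_le hxy (min_le_left _ _)
  have h2 : dist x y < 1 := lt_of_lt_of_le hxy (min_le_right _ _)
  have hx : g x = g (x - ⌊x⌋) + ⌊x⌋ := by rw [← hg.int, sub_add_cancel]
  have hy : g y = g (y - ⌊x⌋) + ⌊x⌋ := by rw [← hg.int, sub_add_cancel]
  have hf1 := Int.floor_le x
  have hf2 := Int.lt_floor_add_one x
  rw [Real.dist_eq, abs_lt] at h2
  have h3 := h (x - ⌊x⌋) (by constructor <;> linarith) (y - ⌊x⌋)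
    (by constructor <;> linarith) (by simpa [Real.dist_eq] using h1)
  rw [hx, hy]
  simpa [Real.dist_eq] using h3

/-- Build an order automorphism commuting with `x ↦ x + 1` from maps of `[0, 1)`. -/
noncomputable def lift (φ ψ : ℝ → ℝ)
    (hφ : ∀ u, 0 ≤ u → u < 1 → 0 ≤ φ u ∧ φ u < 1)
    (hmono : ∀ u v, 0 ≤ u → u < v → v < 1 → φ u < φ v)
    (hψ : ∀ u, 0 ≤ u → u < 1 → 0 ≤ ψ u ∧ ψ u < 1)
    (hinv : ∀ u, 0 ≤ u → u < 1 → φ (ψ u) = u) : ℝ ≃o ℝ :=
  StrictMono.orderIsoOfRightInverse (fun x => ⌊x⌋ + φ (Int.fract x))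
    (by
      intro x y hxy
      show (⌊x⌋ : ℝ) + φ (Int.fract x) < ⌊y⌋ + φ (Int.fract y)
      rcases (Int.floor_mono hxy.le).lt_or_eq with h | h
      · have h1 := (hφ _ (Int.fract_nonneg x) (Int.fract_lt_one x)).2
        have h2 := (hφ _ (Int.fract_nonneg y) (Int.fract_lt_one y)).1
        have h3 : (⌊x⌋ : ℝ) + 1 ≤ ⌊y⌋ := by exact_mod_cast h
        linarith
      · rw [h]
        have : Int.fract x < Int.fract y := by
          unfold Int.fract
          rw [h]
          linarith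
        have := hmono _ _ (Int.fract_nonneg x) this (Int.fract_lt_one y)
        linarith)
    (fun x => ⌊x⌋ + ψ (Int.fract x))
    (by
      intro x
      have h1 := hψ _ (Int.fract_nonneg x) (Int.fract_lt_one x)
      have h2 := hinv _ (Int.fract_nonneg x) (Int.fract_lt_one x)
      have h3 : ⌊(⌊x⌋ : ℝ) + ψ (Int.fract x)⌋ = ⌊x⌋ := by
        rw [Int.floor_eq_iff]
        constructor <;> linarith
      have h4 : Int.fract ((⌊x⌋ : ℝ) + ψ (Int.fract x)) = ψ (Int.fract x) := by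
        unfold Int.fract
        unfold Int.fract at h3
        rw [h3]
        ring
      show ((⌊(⌊x⌋ : ℝ) + ψ (Int.fract x)⌋ : ℤ) : ℝ) + φ (Int.fract ((⌊x⌋ : ℝ) + ψ (Int.fract x))) = x
      rw [h4, h2, h3]
      exact Int.floor_add_fract x)

lemma lift_apply (φ ψ : ℝ → ℝ)
    (hφ : ∀ u, 0 ≤ u → u < 1 → 0 ≤ φ u ∧ φ u < 1)
    (hmono : ∀ u v, 0 ≤ u → u < v → v < 1 → φ u < φ v)
    (hψ : ∀ u, 0 ≤ u → u < 1 → 0 ≤ ψ u ∧ ψ u < 1)
    (hinv : ∀ u, 0 ≤ u → u < 1 → φ (ψ u) = u) (x : ℝ) :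
    lift φ ψ hφ hmono hψ hinv x = ⌊x⌋ + φ (Int.fract x) := rfl

lemma lift_per (φ ψ : ℝ → ℝ)
    (hφ : ∀ u, 0 ≤ u → u < 1 → 0 ≤ φ u ∧ φ u < 1)
    (hmono : ∀ u v, 0 ≤ u → u < v → v < 1 → φ u < φ v)
    (hψ : ∀ u, 0 ≤ u → u < 1 → 0 ≤ ψ u ∧ ψ u < 1)
    (hinv : ∀ u, 0 ≤ u → u < 1 → φ (ψ u) = u) :
    Per (lift φ ψ hφ hmono hψ hinv) := by
  intro x
  rw [lift_apply, lift_apply, Int.floor_add_one, Int.fract_add_one]
  push_cast
  ring

/-- Existence of the squeezing map: it fixes the integers, commutes with `x ↦ x + 1` and maps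
`[0, 7/8]` into `[0, δ]`. -/
lemma exists_squeeze (δ : ℝ) (h0 : 0 < δ) (h1 : δ < 1) :
    ∃ h : ℝ ≃o ℝ, Per h ∧ h 0 = 0 ∧ h (7 / 8) = δ := by
  have hd : 0 < 1 - δ := by linarith
  refine ⟨lift (fun u => if u ≤ 7 / 8 then 8 / 7 * δ * u else δ + (1 - δ) * 8 * (u - 7 / 8))
    (fun v => if v ≤ δ then 7 / 8 * (v / δ) else 7 / 8 + (v - δ) / (8 * (1 - δ)))
    ?_ ?_ ?_ ?_, lift_per _ _ _ _ _ _, ?_, ?_⟩
  · intro u hu0 hu1
    split_ifs with h
    · constructor
      · positivity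
      · nlinarith
    · push Not at h
      constructor <;> nlinarith
  · intro u v hu0 huv hv1
    split_ifs with h h' h'
    · have : 0 < 8 / 7 * δ := by positivity
      nlinarith
    · push Not at h'
      nlinarith
    · linarith
    · nlinarith
  · intro v hv0 hv1
    split_ifs with h
    · constructor
      · positivity
      · have : v / δ ≤ 1 := by rw [div_le_one h0]; exact h
        linarith
    · push Not at h
      constructor
      · have : 0 ≤ (v - δ) / (8 * (1 - δ)) := by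
          apply div_nonneg <;> linarith
        linarith
      · have : (v - δ) / (8 * (1 - δ)) < 1 / 8 := by
          rw [div_lt_div_iff₀ (by linarith) (by norm_num)]
          linarith
        linarith
  · intro v hv0 hv1
    by_cases h : v ≤ δ
    · have h2 : v / δ ≤ 1 := by rw [div_le_one h0]; exact h
      simp only [if_pos h]
      rw [if_pos (by linarith)]
      field_simp
    · simp only [if_neg h]
      push Not at h
      have h2 : 0 < (v - δ) / (8 * (1 - δ)) := by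
        apply div_pos <;> linarith
      rw [if_neg (by linarith)]
      field_simp
      ring
  · rw [lift_apply]
    norm_num
  · rw [lift_apply]
    have : ⌊(7 / 8 : ℝ)⌋ = 0 := by
      rw [Int.floor_eq_iff]; norm_num
    have h2 : Int.fract (7 / 8 : ℝ) = 7 / 8 := by
      unfold Int.fract
      rw [this]; simp
    rw [this, h2]
    simp only [le_refl, if_true]
    push_cast
    ring

/-- The basic map `a`: it fixes the integers and `[7/8, 1]`, and is `u ↦ u + 1/2` on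
`[1/8, 1/4]`. -/
lemma exists_push :
    ∃ a : ℝ ≃o ℝ, Per a ∧ a 0 = 0 ∧ (∀ x, 7 / 8 ≤ x → x ≤ 1 → a x = x) ∧
      (∀ x, 1 / 8 ≤ x → x ≤ 1 / 4 → a x = x + 1 / 2) := by
  have hper : Per (lift (fun u => if u ≤ 1 / 8 then 5 * u else if u ≤ 1 / 4 then u + 1 / 2 else
        if u ≤ 7 / 8 then (u + 7 / 2) / 5 else u)
      (fun v => if v ≤ 5 / 8 then v / 5 else if v ≤ 3 / 4 then v - 1 / 2 else
        if v ≤ 7 / 8 then 5 * v - 7 / 2 else v)
      (by
        intro u h0 h1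
        split_ifs <;> constructor <;> linarith)
      (by
        intro u v h0 h1 h2
        split_ifs <;> linarith)
      (by
        intro u h0 h1
        split_ifs <;> constructor <;> linarith)
      (by
        intro u h0 h1
        split_ifs <;> linarith)) := lift_per _ _ _ _ _ _
  refine ⟨_, hper, ?_, ?_, ?_⟩
  · rw [lift_apply]
    simp
  · intro x h1 h2
    rcases h2.lt_or_eq with h2 | h2
    · have hf : ⌊x⌋ = 0 := by
        rw [Int.floor_eq_iff]
        constructor <;> push_cast <;> linarith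
      have hx : Int.fract x = x := by
        unfold Int.fract
        rw [hf]; simp
      rw [lift_apply, hf, hx]
      push_cast
      split_ifs <;> linarith
    · have := hper 0
      rw [zero_add] at this
      rw [h2, this, lift_apply]
      simp
  · intro x h1 h2
    have hf : ⌊x⌋ = 0 := by
      rw [Int.floor_eq_iff]
      constructor <;> push_cast <;> linarith
    have hx : Int.fract x = x := by
      unfold Int.fract
      rw [hf]; simp
    rw [lift_apply, hf, hx]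
    push_cast
    split_ifs <;> linarith

/-- The translation `x ↦ x + q`. -/
noncomputable def tr (q : ℝ) : ℝ ≃o ℝ := OrderIso.addRight q

lemma tr_apply (q x : ℝ) : tr q x = x + q := rfl

lemma tr_inv_apply (q x : ℝ) : (tr q)⁻¹ x = x - q := by
  apply (tr q).injective
  have h : tr q ((tr q)⁻¹ x) = x := (tr q).apply_symm_apply _
  rw [h, tr_apply]
  ring

lemma tr_per (q : ℝ) : Per (tr q) := by
  intro x
  rw [tr_apply, tr_apply]
  ring

lemma inv_apply_self' (g : ℝ ≃o ℝ) (x : ℝ) : g⁻¹ (g x) = x := g.symm_apply_apply x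
lemma apply_inv_self' (g : ℝ ≃o ℝ) (x : ℝ) : g (g⁻¹ x) = x := g.apply_symm_apply x
lemma mul_apply' (g k : ℝ ≃o ℝ) (x : ℝ) : (g * k) x = g (k x) := rfl

/-- A periodic map with a fixed point moves points by at most one. -/
lemma Per.disp {g : ℝ ≃o ℝ} (hg : Per g) (q : ℝ) (hq : g q = q) (x : ℝ) :
    |g x - x| ≤ 1 := by
  have hn : ∀ n : ℤ, g (q + n) = q + n := by
    intro n
    rw [hg.int, hq]
  have h1 := Int.floor_le (x - q)
  have h2 := (Int.lt_floor_add_one (x - q)).le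
  have h3 : g (q + ⌊x - q⌋) ≤ g x := g.monotone (by linarith)
  have h4 : g x ≤ g (q + ((⌊x - q⌋ + 1 : ℤ) : ℝ)) := g.monotone (by push_cast; linarith)
  rw [hn] at h3 h4
  push_cast at h4
  rw [abs_le]
  constructor <;> linarith

/-- The contraction lemma. -/
lemma contract_zero {g : ℝ ≃o ℝ} (hg : Per g) (hfix : ∀ x, -(1 / 8) ≤ x → x ≤ 0 → g x = x)
    (δ : ℝ) (h0 : 0 < δ) :
    ∃ h : ℝ ≃o ℝ, Per h ∧ (∀ x, |h x - x| ≤ 1) ∧ (∀ x, |(h * g * h⁻¹) x - x| ≤ δ) := by
  obtain ⟨h, hh, hh0, hh1⟩ := exists_squeeze (min δ (1 / 2)) (lt_min h0 (by norm_num))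
    (lt_of_le_of_lt (min_le_right _ _) (by norm_num))
  refine ⟨h, hh, fun x => hh.disp 0 hh0 x, ?_⟩
  have hδ : min δ (1 / 2) ≤ δ := min_le_left _ _
  have key : ∀ x, |h (g x) - h x| ≤ δ := by
    intro x
    have hn : ∀ n : ℤ, g n = n := by
      intro n
      have := hg.int n 0
      rw [hfix 0 (by norm_num) le_rfl] at this
      simpa using this
    have hn' : ∀ n : ℤ, g (7 / 8 + n) = 7 / 8 + n := by
      intro n
      have := hg.int (n + 1) (-(1 / 8))
      rw [hfix _ le_rfl (by norm_num)] at this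
      push_cast at this
      have h2 : (-(1 / 8) + ((n : ℝ) + 1)) = 7 / 8 + n := by ring
      rw [h2] at this
      exact this
    have h1 := Int.floor_le x
    have h2 := (Int.lt_floor_add_one x)
    by_cases hx : x ≤ 7 / 8 + ⌊x⌋
    · have e1 : (⌊x⌋ : ℝ) ≤ g x := by
        rw [← hn ⌊x⌋]; exact g.monotone h1
      have e2 : g x ≤ 7 / 8 + ⌊x⌋ := by
        rw [← hn' ⌊x⌋]; exact g.monotone hx
      have hhn : h (⌊x⌋ : ℝ) = ⌊x⌋ := by
        have := hh.int ⌊x⌋ 0
        rw [hh0] at this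
        simpa using this
      have hhn' : h (7 / 8 + (⌊x⌋ : ℝ)) = min δ (1 / 2) + ⌊x⌋ := by
        rw [hh.int, hh1]
      have f1 := h.monotone e1
      have f2 := h.monotone e2
      have f3 := h.monotone h1
      have f4 := h.monotone hx
      rw [hhn] at f1 f3
      rw [hhn'] at f2 f4
      rw [abs_le]
      constructor <;> linarith
    · push Not at hx
      have : g x = x := by
        have h3 := hg.int (⌊x⌋ + 1) (x - (⌊x⌋ + 1))
        push_cast at h3
        have h4 := hfix (x - (⌊x⌋ + 1)) (by linarith) (by linarith)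
        rw [sub_add_cancel, h4, sub_add_cancel] at h3
        exact h3
      rw [this]
      simpa using h0.le
  intro x
  have := key (h⁻¹ x)
  rwa [apply_inv_self'] at this

lemma contract {g : ℝ ≃o ℝ} (hg : Per g) (q : ℝ) (hfix : ∀ x, q - 1 / 8 ≤ x → x ≤ q → g x = x)
    (δ : ℝ) (h0 : 0 < δ) :
    ∃ h : ℝ ≃o ℝ, Per h ∧ (∀ x, |h x - x| ≤ 1) ∧ (∀ x, |(h * g * h⁻¹) x - x| ≤ δ) := by
  have hg' : Per ((tr q)⁻¹ * g * tr q) := ((tr_per q).inv.mul hg).mul (tr_per q)
  obtain ⟨h, hh, hh1, hh2⟩ := contract_zero hg' (by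
    intro x hx1 hx2
    rw [mul_apply', mul_apply', tr_apply, tr_inv_apply, hfix _ (by linarith) (by linarith)]
    ring) δ h0
  refine ⟨tr q * h * (tr q)⁻¹, ((tr_per q).mul hh).mul (tr_per q).inv, ?_, ?_⟩
  · intro x
    have := hh1 (x - q)
    rw [mul_apply', mul_apply', tr_apply, tr_inv_apply]
    have e : h (x - q) + q - x = h (x - q) - (x - q) := by ring
    rw [e]
    exact this
  · intro x
    have := hh2 (x - q)
    have e1 : (tr q * h * (tr q)⁻¹ * g * (tr q * h * (tr q)⁻¹)⁻¹) =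
        tr q * (h * ((tr q)⁻¹ * g * tr q) * h⁻¹) * (tr q)⁻¹ := by group
    rw [e1, mul_apply', mul_apply', tr_apply, tr_inv_apply]
    have e : ∀ y : ℝ, y + q - x = y - (x - q) := by intro y; ring
    rw [e]
    exact this

/-- The scale-one configuration: the unit translation is a product of three maps which commute
with it, move points by at most three, and can be contracted. -/
def Good (g : ℝ ≃o ℝ) : Prop :=
  Per g ∧ (∀ x, |g x - x| ≤ 3) ∧ ∀ δ : ℝ, 0 < δ → ∃ h : ℝ ≃o ℝ, Per h ∧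
    (∀ x, |h x - x| ≤ 1) ∧ (∀ x, |(h * g * h⁻¹) x - x| ≤ δ)

lemma exists_config : ∃ a b c : ℝ ≃o ℝ, Good a ∧ Good b ∧ Good c ∧ b * a * c = tr 1 := by
  obtain ⟨a, ha, ha0, ha1, ha2⟩ := exists_push
  have hah : Per (tr (1 / 2) * a * (tr (1 / 2))⁻¹) := ((tr_per _).mul ha).mul (tr_per _).inv
  set b := tr (1 / 2) * a * (tr (1 / 2))⁻¹ with hb
  have hbx : ∀ x, b x = a (x - 1 / 2) + 1 / 2 := by
    intro x
    rw [hb, mul_apply', mul_apply', tr_apply, tr_inv_apply]
  have hc : Per (a⁻¹ * b⁻¹ * tr 1) := (ha.inv.mul hah.inv).mul (tr_per 1)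
  set c := a⁻¹ * b⁻¹ * tr 1 with hcdef
  have hcfix : ∀ x, 1 / 4 - 1 / 8 ≤ x → x ≤ 1 / 4 → c x = x := by
    intro x h1 h2
    rw [hcdef, mul_apply', mul_apply', tr_apply]
    have e1 : b⁻¹ (x + 1) = x + 1 / 2 := by
      apply b.injective
      rw [apply_inv_self', hbx]
      have : x + 1 / 2 - 1 / 2 = x := by ring
      rw [this, ha2 x (by linarith) h2]
      ring
    rw [e1]
    apply a.injective
    rw [apply_inv_self', ha2 x (by linarith) h2]
  refine ⟨a, b, c, ⟨ha, ?_, ?_⟩, ⟨hah, ?_, ?_⟩, ⟨hc, ?_, ?_⟩, ?_⟩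
  · intro x
    exact (ha.disp 0 ha0 x).trans (by norm_num)
  · intro δ hδ
    refine contract ha 1 ?_ δ hδ
    intro x h1 h2
    exact ha1 x (by linarith) h2
  · intro x
    refine (hah.disp (1 / 2) ?_ x).trans (by norm_num)
    rw [hbx]
    norm_num [ha0]
  · intro δ hδ
    refine contract hah (3 / 2) ?_ δ hδ
    intro x h1 h2
    rw [hbx, ha1 _ (by linarith) (by linarith)]
    ring
  · intro x
    exact (hc.disp (1 / 4) (hcfix _ (by norm_num) le_rfl) x).trans (by norm_num)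
  · intro δ hδ
    exact contract hc (1 / 4) hcfix δ hδ
  · rw [hcdef]
    group

/-! ### The topological group -/

/-- The group of all order automorphisms of the real line that are uniformly continuous together
with their inverses. -/
def UG : Subgroup (ℝ ≃o ℝ) where
  carrier := {g | UniformContinuous g ∧ UniformContinuous (g⁻¹ : ℝ ≃o ℝ)}
  one_mem' := ⟨uniformContinuous_id, uniformContinuous_id⟩
  mul_mem' := by
    rintro a b ⟨ha, ha'⟩ ⟨hb, hb'⟩
    refine ⟨ha.comp hb, ?_⟩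
    rw [mul_inv_rev]
    exact hb'.comp ha'
  inv_mem' := by
    rintro a ⟨ha, ha'⟩
    refine ⟨ha', ?_⟩
    rw [inv_inv]
    exact ha

/-- The ball of radius `ε`. -/
def ball (ε : ℝ) : Set UG := {g | ∀ x, |(g : ℝ ≃o ℝ) x - x| < ε}

/-- The filter basis of balls, for the topology of uniform convergence. -/
@[reducible] def basis : GroupFilterBasis UG where
  sets := {U | ∃ ε : ℝ, 0 < ε ∧ U = ball ε}
  nonempty := ⟨ball 1, 1, one_pos, rfl⟩
  inter_sets := by
    rintro _ _ ⟨ε, hε, rfl⟩ ⟨ε', hε', rfl⟩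
    refine ⟨ball (min ε ε'), ⟨_, lt_min hε hε', rfl⟩, ?_⟩
    intro g hg
    exact ⟨fun x => (hg x).trans_le (min_le_left _ _), fun x => (hg x).trans_le (min_le_right _ _)⟩
  one' := by
    rintro _ ⟨ε, hε, rfl⟩
    intro x
    show |x - x| < ε
    simpa using hε
  mul' := by
    rintro _ ⟨ε, hε, rfl⟩
    refine ⟨ball (ε / 2), ⟨_, half_pos hε, rfl⟩, ?_⟩
    rintro _ ⟨g, hg, k, hk, rfl⟩
    intro x
    show |(g : ℝ ≃o ℝ) ((k : ℝ ≃o ℝ) x) - x| < ε
    have h1 := hg ((k : ℝ ≃o ℝ) x)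
    have h2 := hk x
    rw [abs_lt] at *
    constructor <;> linarith
  inv' := by
    rintro _ ⟨ε, hε, rfl⟩
    refine ⟨ball ε, ⟨_, hε, rfl⟩, ?_⟩
    intro g hg x
    have h1 := hg ((g : ℝ ≃o ℝ)⁻¹ x)
    rw [apply_inv_self'] at h1
    rw [abs_sub_comm]
    exact h1
  conj' := by
    rintro a _ ⟨ε, hε, rfl⟩
    obtain ⟨δ, hδ, h⟩ := Metric.uniformContinuous_iff.1 a.2.1 ε hε
    refine ⟨ball δ, ⟨_, hδ, rfl⟩, ?_⟩
    intro g hg x
    have h1 := hg ((a : ℝ ≃o ℝ)⁻¹ x)
    have h2 := h (a := (g : ℝ ≃o ℝ) ((a : ℝ ≃o ℝ)⁻¹ x)) (b := (a : ℝ ≃o ℝ)⁻¹ x)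
      (by rw [Real.dist_eq]; exact h1)
    rw [Real.dist_eq, apply_inv_self'] at h2
    exact h2

/-- The dilation `x ↦ s x`. -/
noncomputable def dil (s : ℝ) (hs : 0 < s) : ℝ ≃o ℝ := OrderIso.mulLeft₀ s hs

lemma dil_apply (s : ℝ) (hs : 0 < s) (x : ℝ) : dil s hs x = s * x := rfl

lemma dil_inv_apply (s : ℝ) (hs : 0 < s) (x : ℝ) : (dil s hs)⁻¹ x = x / s := by
  apply (dil s hs).injective
  rw [apply_inv_self', dil_apply]
  field_simp

lemma dil_mem (s : ℝ) (hs : 0 < s) : dil s hs ∈ UG := by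
  constructor
  · have : (⇑(dil s hs) : ℝ → ℝ) = fun x => s * x := funext (dil_apply s hs)
    rw [this]
    exact uniformContinuous_const_smul s
  · have : (⇑((dil s hs)⁻¹) : ℝ → ℝ) = fun x => s⁻¹ * x := by
      funext x
      rw [dil_inv_apply]
      ring
    rw [this]
    exact uniformContinuous_const_smul s⁻¹

lemma Per.mem {g : ℝ ≃o ℝ} (hg : Per g) : g ∈ UG := ⟨hg.uniformContinuous, hg.inv.uniformContinuous⟩

/-- Rescaling by conjugation with a dilation. -/
lemma dil_conj_apply (s : ℝ) (hs : 0 < s) (g : ℝ ≃o ℝ) (x : ℝ) :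
    (dil s hs * g * (dil s hs)⁻¹) x = s * g (x / s) := by
  rw [mul_apply', mul_apply', dil_apply, dil_inv_apply]

lemma dil_conj_disp (s : ℝ) (hs : 0 < s) (g : ℝ ≃o ℝ) (C : ℝ) (hg : ∀ x, |g x - x| ≤ C) (x : ℝ) :
    |(dil s hs * g * (dil s hs)⁻¹) x - x| ≤ s * C := by
  rw [dil_conj_apply]
  have h1 : s * g (x / s) - x = s * (g (x / s) - x / s) := by field_simp
  rw [h1, abs_mul, abs_of_pos hs]
  exact mul_le_mul_of_nonneg_left (hg _) hs.le

/-- The configuration at scale `s`, inside the topological group. -/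
lemma exists_config_scale (s : ℝ) (hs : 0 < s) :
    ∃ T : UG, (∀ m : ℕ, ((T ^ m : UG) : ℝ ≃o ℝ) 0 = m * s) ∧
    ∃ a b c : UG, b * a * c = T ∧
      ∀ g ∈ ({a, b, c} : Set UG), Commute T g ∧ (∀ x, |(g : ℝ ≃o ℝ) x - x| ≤ 3 * s) ∧
        ∀ δ : ℝ, 0 < δ → ∃ h : UG, Commute T h ∧ (∀ x, |(h : ℝ ≃o ℝ) x - x| ≤ s) ∧
          h * g * h⁻¹ ∈ ball δ := by
  obtain ⟨a, b, c, ha, hb, hc, habc⟩ := exists_config
  let D : UG := ⟨dil s hs, dil_mem s hs⟩
  let E : ∀ g : ℝ ≃o ℝ, Per g → UG := fun g hg => D * ⟨g, hg.mem⟩ * D⁻¹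
  have hEcoe : ∀ (g : ℝ ≃o ℝ) (hg : Per g), ((E g hg : UG) : ℝ ≃o ℝ) =
      dil s hs * g * (dil s hs)⁻¹ := fun g hg => rfl
  have hcomm : ∀ (g : ℝ ≃o ℝ) (hg : Per g), Commute (E (tr 1) (tr_per 1)) (E g hg) := by
    intro g hg
    have h1 : (tr 1) * g = g * tr 1 := by
      ext x
      rw [mul_apply', mul_apply', tr_apply, tr_apply, hg]
    have h2 : (⟨tr 1, (tr_per 1).mem⟩ : UG) * ⟨g, hg.mem⟩ = ⟨g, hg.mem⟩ * ⟨tr 1, (tr_per 1).mem⟩ :=
      Subtype.ext h1
    show D * _ * D⁻¹ * (D * _ * D⁻¹) = D * _ * D⁻¹ * (D * _ * D⁻¹)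
    calc D * ⟨tr 1, (tr_per 1).mem⟩ * D⁻¹ * (D * ⟨g, hg.mem⟩ * D⁻¹)
        = D * ((⟨tr 1, (tr_per 1).mem⟩ : UG) * ⟨g, hg.mem⟩) * D⁻¹ := by group
      _ = D * ((⟨g, hg.mem⟩ : UG) * ⟨tr 1, (tr_per 1).mem⟩) * D⁻¹ := by rw [h2]
      _ = _ := by group
  have hgood : ∀ (g : ℝ ≃o ℝ) (hg : Good g), Commute (E (tr 1) (tr_per 1)) (E g hg.1) ∧
      (∀ x, |((E g hg.1 : UG) : ℝ ≃o ℝ) x - x| ≤ 3 * s) ∧
        ∀ δ : ℝ, 0 < δ → ∃ h : UG, Commute (E (tr 1) (tr_per 1)) h ∧
          (∀ x, |(h : ℝ ≃o ℝ) x - x| ≤ s) ∧ h * (E g hg.1) * h⁻¹ ∈ ball δ := by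
    intro g hg
    refine ⟨hcomm g hg.1, ?_, ?_⟩
    · intro x
      rw [hEcoe g hg.1, mul_comm 3 s]
      exact dil_conj_disp s hs g 3 hg.2.1 x
    · intro δ hδ
      obtain ⟨h, hh, hh1, hh2⟩ := hg.2.2 (δ / (2 * s)) (by positivity)
      refine ⟨E h hh, hcomm h hh, ?_, ?_⟩
      · intro x
        have := dil_conj_disp s hs h 1 hh1 x
        rw [mul_one] at this
        exact this
      · intro x
        have h1 : (((E h hh) * (E g hg.1) * (E h hh)⁻¹ : UG) : ℝ ≃o ℝ) =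
            dil s hs * (h * g * h⁻¹) * (dil s hs)⁻¹ := by
          show (dil s hs * h * (dil s hs)⁻¹) * (dil s hs * g * (dil s hs)⁻¹) *
            (dil s hs * h * (dil s hs)⁻¹)⁻¹ = _
          group
        rw [h1]
        have := dil_conj_disp s hs (h * g * h⁻¹) _ hh2 x
        refine this.trans_lt ?_
        have e : s * (δ / (2 * s)) = δ / 2 := by field_simp
        rw [e]
        linarith
  refine ⟨E (tr 1) (tr_per 1), ?_, E a ha.1, E b hb.1, E c hc.1, ?_, ?_⟩
  · intro m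
    induction m with
    | zero => simp
    | succ m ih =>
      have e : ∀ x, ((E (tr 1) (tr_per 1) : UG) : ℝ ≃o ℝ) x = x + s := by
        intro x
        rw [hEcoe (tr 1) (tr_per 1), dil_conj_apply, tr_apply]
        field_simp
      rw [pow_succ']
      show ((E (tr 1) (tr_per 1) : UG) : ℝ ≃o ℝ) (((E (tr 1) (tr_per 1) ^ m : UG) : ℝ ≃o ℝ) 0) = _
      rw [ih, e]
      push_cast
      ring
  · apply Subtype.ext
    show (dil s hs * b * (dil s hs)⁻¹) * (dil s hs * a * (dil s hs)⁻¹) *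
      (dil s hs * c * (dil s hs)⁻¹) = dil s hs * tr 1 * (dil s hs)⁻¹
    rw [← habc]
    group
  · intro g hg
    simp only [Set.mem_insert_iff, Set.mem_singleton_iff] at hg
    rcases hg with rfl | rfl | rfl
    · exact hgood a ha
    · exact hgood b hb
    · exact hgood c hc

/-- The negation of the preceding statement: Every topological group G admits a topological ring R and a multiplicative map from G into R that is a topological embedding (injective and a homeomorphism onto its image). -/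
theorem result :
    ¬ (∀ (G : Type) [Group G] [TopologicalSpace G] [IsTopologicalGroup G],
      ∃ (R : Type) (_ : Ring R) (_ : TopologicalSpace R),
        IsTopologicalRing R ∧ ∃ f : G →ₙ* R, Topology.IsEmbedding f) := by
  intro H
  let _ : TopologicalSpace UG := basis.topology
  have _ : IsTopologicalGroup UG := basis.isTopologicalGroup
  obtain ⟨R, _, _, _, f, hf⟩ := H UG
  have hbasis := basis.nhds_one_hasBasis
  have hball : ∀ ε : ℝ, 0 < ε → ball ε ∈ 𝓝 (1 : UG) := fun ε hε =>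
    hbasis.mem_of_mem (i := ball ε) ⟨ε, hε, rfl⟩
  have hcont : Continuous f := hf.continuous
  set e : R := f 1 with he
  -- the neighbourhood `O`
  obtain ⟨O, hO, hO'⟩ : ∃ O ∈ 𝓝 e, f ⁻¹' O ⊆ ball 1 := by
    have := hball 1 one_pos
    rw [hf.isInducing.nhds_eq_comap] at this
    exact Filter.mem_comap.1 this
  -- continuity at the first level
  have c1 : Tendsto (fun z : R × R × R => e + z.1 + z.2.1 + z.2.2) (𝓝 (0, 0, 0)) (𝓝 e) := by
    have : Continuous (fun z : R × R × R => e + z.1 + z.2.1 + z.2.2) := by fun_prop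
    have h2 := this.tendsto (0, 0, 0)
    simpa using h2
  obtain ⟨N1, hN1, hN1'⟩ : ∃ N ∈ 𝓝 (0 : R), ∀ x ∈ N, ∀ y ∈ N, ∀ z ∈ N, e + x + y + z ∈ O := by
    have h1 := c1 hO
    rw [Filter.mem_map, nhds_prod_eq, nhds_prod_eq] at h1
    obtain ⟨A, hA, B, hB, hAB⟩ := Filter.mem_prod_iff.1 h1
    obtain ⟨B1, hB1, B2, hB2, hBB⟩ := Filter.mem_prod_iff.1 hB
    refine ⟨A ∩ (B1 ∩ B2), Filter.inter_mem hA (Filter.inter_mem hB1 hB2), ?_⟩
    intro x hx y hy z hz
    exact hAB (show (x, y, z) ∈ A ×ˢ B from ⟨hx.1, hBB ⟨hy.2.1, hz.2.2⟩⟩)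
  -- second level
  have c2 : Tendsto (fun z : R × R => z.1 * z.2) (𝓝 (e, 0)) (𝓝 0) := by
    have : Continuous (fun z : R × R => z.1 * z.2) := by fun_prop
    have h2 := this.tendsto (e, 0)
    simpa using h2
  obtain ⟨E2, hE2, N2, hN2, h2⟩ : ∃ E ∈ 𝓝 e, ∃ N ∈ 𝓝 (0 : R), ∀ p ∈ E, ∀ z ∈ N, p * z ∈ N1 := by
    have h1 := c2 hN1
    rw [Filter.mem_map, nhds_prod_eq] at h1
    obtain ⟨A, hA, B, hB, hAB⟩ := Filter.mem_prod_iff.1 h1
    exact ⟨A, hA, B, hB, fun p hp z hz => hAB (show (p, z) ∈ A ×ˢ B from ⟨hp, hz⟩)⟩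
  -- third level
  have c3 : Tendsto (fun z : R × R × R => z.1 * z.2.1 * z.2.2) (𝓝 (e, 0, e)) (𝓝 0) := by
    have : Continuous (fun z : R × R × R => z.1 * z.2.1 * z.2.2) := by fun_prop
    have h2 := this.tendsto (e, 0, e)
    simpa using h2
  obtain ⟨E3, hE3, N3, hN3, h3⟩ : ∃ E ∈ 𝓝 e, ∃ N ∈ 𝓝 (0 : R), ∀ u ∈ E, ∀ x ∈ N, ∀ v ∈ E,
      u * x * v ∈ N1 ∩ N2 := by
    have h1 := c3 (Filter.inter_mem hN1 hN2)
    rw [Filter.mem_map, nhds_prod_eq, nhds_prod_eq] at h1
    obtain ⟨A, hA, B, hB, hAB⟩ := Filter.mem_prod_iff.1 h1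
    obtain ⟨B1, hB1, B2, hB2, hBB⟩ := Filter.mem_prod_iff.1 hB
    refine ⟨A ∩ B2, Filter.inter_mem hA hB2, B1, hB1, ?_⟩
    intro x hx y hy z hz
    exact hAB (show (x, y, z) ∈ A ×ˢ B from ⟨hx.1, hBB ⟨hy, hz.2⟩⟩)
  -- the radius `ε`
  obtain ⟨ε, hε, hεE⟩ : ∃ ε : ℝ, 0 < ε ∧ ∀ g ∈ ball ε, f g ∈ E2 ∩ E3 := by
    have h1 : f ⁻¹' (E2 ∩ E3) ∈ 𝓝 (1 : UG) :=
      hcont.continuousAt.preimage_mem_nhds (Filter.inter_mem hE2 hE3)
    obtain ⟨_, ⟨ε, hε, rfl⟩, h⟩ := hbasis.mem_iff.1 h1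
    exact ⟨ε, hε, fun g hg => h hg⟩
  -- the scale
  let s : ℝ := ε / 8
  have hs : 0 < s := by positivity
  obtain ⟨T, hT, a, b, c, habc, hg⟩ := exists_config_scale s hs
  obtain ⟨m, hm⟩ := exists_nat_ge (1 / s)
  have hTm : T ^ m ∉ ball 1 := by
    intro h
    have h1 := h 0
    rw [hT, sub_zero, abs_of_nonneg (by positivity)] at h1
    rw [div_le_iff₀ hs] at hm
    linarith
  apply hTm
  apply hO'
  -- the sum
  let S : R := ∑ i ∈ Finset.range m, f (T ^ i)
  have hSe : S * e = S := by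
    simp only [S, Finset.sum_mul, he]
    apply Finset.sum_congr rfl
    intro i _
    rw [← map_mul, mul_one]
  have hST : f (T ^ m) = e + (S * f T - S) := by
    have h1 : S * f T = ∑ i ∈ Finset.range m, f (T ^ (i + 1)) := by
      simp only [S, Finset.sum_mul]
      apply Finset.sum_congr rfl
      intro i _
      rw [← map_mul, pow_succ]
    have h2 : ∑ i ∈ Finset.range m, f (T ^ (i + 1)) + f (T ^ 0) = S + f (T ^ m) := by
      rw [← Finset.sum_range_succ' (fun i => f (T ^ i)) m, Finset.sum_range_succ]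
    rw [pow_zero] at h2
    rw [h1]
    have : f (T ^ m) = (∑ i ∈ Finset.range m, f (T ^ (i + 1)) + f 1) - S := by
      rw [h2]
      abel
    rw [this, he]
    abel
  have hScomm : ∀ g : UG, Commute T g → S * f g = f g * S := by
    intro g hTg
    simp only [S, Finset.sum_mul, Finset.mul_sum]
    apply Finset.sum_congr rfl
    intro i _
    rw [← map_mul, ← map_mul, (hTg.pow_left i).eq]
  -- every `S * f g - S` is small
  have hsmall : ∀ g ∈ ({a, b, c} : Set UG), S * f g - S ∈ N1 ∩ N2 := by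
    intro g hgm
    obtain ⟨hTg, hgd, hgc⟩ := hg g hgm
    have hcX : Continuous (fun g : UG => S * f g - S) := by fun_prop
    have hX1 : (fun g : UG => S * f g - S) ⁻¹' N3 ∈ 𝓝 (1 : UG) := by
      apply hcX.continuousAt.preimage_mem_nhds
      have : S * f 1 - S = 0 := by
        rw [← he, hSe, sub_self]
      rw [this]
      exact hN3
    obtain ⟨_, ⟨δ, hδ, rfl⟩, hδN⟩ := hbasis.mem_iff.1 hX1
    obtain ⟨h, hTh, hhd, hhc⟩ := hgc δ hδ
    have hx : S * f (h * g * h⁻¹) - S ∈ N3 := hδN hhc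
    have hhE : f h ∈ E3 := by
      refine (hεE h ?_).2
      intro x
      have := hhd x
      refine this.trans_lt ?_
      simp only [s]
      linarith
    have hhE' : f h⁻¹ ∈ E3 := by
      refine (hεE h⁻¹ ?_).2
      intro x
      have h4 := hhd ((h : ℝ ≃o ℝ)⁻¹ x)
      rw [apply_inv_self', abs_sub_comm] at h4
      refine lt_of_le_of_lt (show |((h⁻¹ : UG) : ℝ ≃o ℝ) x - x| ≤ s from h4) ?_
      simp only [s]
      linarith
    have h5 := h3 _ hhE' _ hx _ hhE
    have h6 : f h⁻¹ * (S * f (h * g * h⁻¹) - S) * f h = S * f g - S := by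
      rw [mul_sub, sub_mul, ← mul_assoc, ← hScomm h⁻¹ hTh.inv_right, mul_assoc S,
        ← map_mul, mul_assoc S, ← map_mul, mul_assoc S, ← map_mul]
      have e1 : h⁻¹ * (h * g * h⁻¹) * h = g := by group
      have e2 : h⁻¹ * h = 1 := by group
      rw [e1, e2, ← he, hSe]
    rw [h6] at h5
    exact h5
  -- conclusion
  have hfinal : f (T ^ m) = e + (f (b * a) * (S * f c - S)) + (f b * (S * f a - S)) +
      (S * f b - S) := by
    rw [hST, ← habc, map_mul, map_mul]
    have ha := hScomm a (hg a (by simp)).1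
    have hb := hScomm b (hg b (by simp)).1
    have e1 : f b * f a * (S * f c - S) = S * (f b * f a * f c) - f b * (S * f a) := by
      rw [mul_sub, ha]
      have : f b * f a * (S * f c) = S * (f b * f a * f c) := by
        calc f b * f a * (S * f c) = f b * (f a * S) * f c := by noncomm_ring
          _ = f b * (S * f a) * f c := by rw [ha]
          _ = (f b * S) * f a * f c := by noncomm_ring
          _ = (S * f b) * f a * f c := by rw [hb]
          _ = S * (f b * f a * f c) := by noncomm_ring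
      rw [this]
      noncomm_ring
    rw [e1, mul_sub, ← hb]
    abel
  show f (T ^ m) ∈ O
  rw [hfinal]
  apply hN1'
  · apply h2 _ _ _ (hsmall c (by simp)).2
    refine (hεE (b * a) ?_).1
    intro x
    have h1 := (hg a (by simp)).2.1 x
    have h2 := (hg b (by simp)).2.1 ((a : ℝ ≃o ℝ) x)
    show |(b : ℝ ≃o ℝ) ((a : ℝ ≃o ℝ) x) - x| < ε
    rw [abs_le] at h1 h2
    have h3 : 8 * s = ε := by simp only [s]; ring
    rw [abs_lt]
    constructor <;> linarith
  · apply h2 _ _ _ (hsmall a (by simp)).2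
    refine (hεE b ?_).1
    intro x
    refine ((hg b (by simp)).2.1 x).trans_lt ?_
    simp only [s]
    linarith
  · exact (hsmall b (by simp)).1

end Pool.Agent.S0852
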