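import Pool.Statements.S0853
import Pool.Agent.H15.StringC

set_option autoImplicit false
open Pool Pool.MP_ace734_al

namespace Pool.Agent.S0853

/-- Some finite group generated by involutions with non-adjacent ones commuting and the intersection property has an irreducible complex matrix representation with real character that is not conjugate to a real representation. -/
theorem result :
    ∃ (Γ : Type) (_ : Group Γ), Finite Γ ∧
      ∃ (r : ℕ) (ρ : Fin r → Γ),
        (∀ i, ρ i ≠ 1 ∧ ρ i * ρ i = 1) ∧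
        Subgroup.closure (Set.range ρ) = ⊤ ∧
        (∀ i j : Fin r, (i : ℕ) + 2 ≤ (j : ℕ) → (ρ i * ρ j) ^ 2 = 1) ∧
        (∀ I J : Set (Fin r),
          Subgroup.closure (ρ '' I) ⊓ Subgroup.closure (ρ '' J) =
            Subgroup.closure (ρ '' (I ∩ J))) ∧
        ∃ (n : ℕ) (T : Γ →* GL (Fin n) ℂ),
          0 < n ∧
          (∀ W : Submodule ℂ (Fin n → ℂ),
            (∀ g : Γ, ∀ v ∈ W,
              Matrix.mulVec ((T g : GL (Fin n) ℂ) : Matrix (Fin n) (Fin n) ℂ) v ∈ W) →
            W = ⊥ ∨ W = ⊤) ∧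
          (∀ g : Γ,
            (Matrix.trace ((T g : GL (Fin n) ℂ) : Matrix (Fin n) (Fin n) ℂ)).im = 0) ∧
          ¬ ∃ P : GL (Fin n) ℂ, ∀ g : Γ, ∀ i j : Fin n,
            (((P * T g * P⁻¹ : GL (Fin n) ℂ) : Matrix (Fin n) (Fin n) ℂ) i j).im = 0 := by
  refine ⟨Pool.Agent.H15.StringC.Gam, inferInstance, inferInstance, 3,
    Pool.Agent.H15.StringC.rho, fun i => ⟨Pool.Agent.H15.StringC.rho_ne i,
    Pool.Agent.H15.StringC.rho_sq i⟩, Pool.Agent.H15.StringC.rho_top, ?_,
    fun I J => Pool.Agent.H15.StringC.inter I J, 16,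
    Pool.Agent.H15.StringC.TM.toHomUnits, by norm_num,
    fun W hW => Pool.Agent.H15.StringC.TM_irred W hW,
    fun g => Pool.Agent.H15.StringC.trace_real g, ?_⟩
  · intro i j hij
    have h1 : i = 0 ∧ j = 2 := by
      have hi := i.2
      have hj := j.2
      constructor
      · apply Fin.ext; simp; omega
      · apply Fin.ext; simp; omega
    obtain ⟨rfl, rfl⟩ := h1
    rw [pow_two]
    calc Pool.Agent.H15.StringC.rho 0 * Pool.Agent.H15.StringC.rho 2 *
        (Pool.Agent.H15.StringC.rho 0 * Pool.Agent.H15.StringC.rho 2)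
        = (Pool.Agent.H15.StringC.rho 2 * Pool.Agent.H15.StringC.rho 0) *
        (Pool.Agent.H15.StringC.rho 0 * Pool.Agent.H15.StringC.rho 2) := by
          rw [Pool.Agent.H15.StringC.rho_02]
      _ = Pool.Agent.H15.StringC.rho 2 * (Pool.Agent.H15.StringC.rho 0 *
          Pool.Agent.H15.StringC.rho 0) * Pool.Agent.H15.StringC.rho 2 := by
          simp only [mul_assoc]
      _ = 1 := by
          rw [Pool.Agent.H15.StringC.rho_sq, mul_one, Pool.Agent.H15.StringC.rho_sq]
  · rintro ⟨P, hP⟩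
    refine Pool.Agent.H15.StringC.not_real (P : Matrix (Fin 16) (Fin 16) ℂ)
      ((P⁻¹ : GL (Fin 16) ℂ) : Matrix (Fin 16) (Fin 16) ℂ) (Units.mul_inv P) (fun g => ?_)
    ext i j
    rw [Matrix.map_apply]
    exact Complex.conj_eq_iff_im.2 (hP g i j)

end Pool.Agent.S0853
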