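import Pool.Statements.S0870
import Pool.Agent.Helpers.H19bMain
import Pool.Agent.Helpers25.GuptaSidki

set_option autoImplicit false
open Filter
open Pool Pool.MP_b1d060_al

namespace Pool.Agent.S0870

/-- The negation of the preceding statement: For n>3 and G finitely generated with asymptotic dimension at least n, if a coarsely embedded copy of Z^(n-2) coarsely separates the Cayley graph, then G acts on a tree without inversions or fixed vertex with all edge stabilizers virtually Z^(n-2). -/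
theorem result :
    ¬ (∀ (n : ℕ), 3 < n → ∀ (G : Type) [Group G] (S : Finset G),
      Subgroup.closure (S : Set G) = ⊤ →
      ∀ Γ : SimpleGraph G, Γ = SimpleGraph.fromRel (fun g h : G => g⁻¹ * h ∈ S) →
      (¬ ∀ r : ℕ, ∃ (ι : Type) (U : ι → Set G) (D : ℕ),
          (∀ x : G, ∃ i, x ∈ U i) ∧
          (∀ i, ∀ x ∈ U i, ∀ y ∈ U i, Γ.dist x y ≤ D) ∧
          ∀ x : G, {i : ι | ∃ y ∈ U i, Γ.dist x y ≤ r}.encard ≤ (n : ℕ∞)) →
      (∃ f : (Fin (n - 2) → ℤ) → G,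
          (∃ ρ : ℕ → ℕ, ∀ a b, Γ.dist (f a) (f b) ≤ ρ (∑ i, |a i - b i|).toNat) ∧
          (∃ ρ : ℕ → ℕ, Tendsto ρ atTop atTop ∧
              ∀ a b, ρ (∑ i, |a i - b i|).toNat ≤ Γ.dist (f a) (f b)) ∧
          (∃ L : ℕ, ∀ D : ℕ, ∃ x y : G,
              (∀ z, L + D < Γ.dist x (f z)) ∧ (∀ z, L + D < Γ.dist y (f z)) ∧
              ¬ ∃ p : Γ.Walk x y, ∀ v ∈ p.support, ∀ z, L < Γ.dist v (f z))) →
      ∃ (T : Type) (Γt : SimpleGraph T) (ρ : G →* Equiv.Perm T),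
        Γt.IsTree ∧
        (∀ g u v, Γt.Adj u v → Γt.Adj (ρ g u) (ρ g v)) ∧
        (∀ g u v, Γt.Adj u v → ¬ (ρ g u = v ∧ ρ g v = u)) ∧
        (∀ v, ∃ g, ρ g v ≠ v) ∧
        ∀ u v, Γt.Adj u v → ∀ H : Subgroup G, (∀ g, g ∈ H ↔ (ρ g u = u ∧ ρ g v = v)) →
          ∃ K : Subgroup G, K ≤ H ∧ (K.subgroupOf H).index ≠ 0 ∧
            Nonempty (K ≃* Multiplicative (Fin (n - 2) → ℤ))) := by
  intro hall
  classical
  obtain ⟨H, _, S₀, hS₀, hinf, htor⟩ := Pool.Agent.Helpers25.GS.exists_fg_infinite_torsion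
  obtain ⟨S, hSdef⟩ : ∃ S : Set H, S = (S₀ : Set H) := ⟨_, rfl⟩
  rw [← hSdef] at hS₀
  have hfin : S.Finite := hSdef ▸ S₀.finite_toSet
  obtain ⟨r, hr0, hr⟩ := Pool.Agent.Helpers.H19Asd.exists_ray hfin hS₀
  have hgfin : (Pool.Agent.Helpers.H19Asd.gensG
      (Pool.Agent.Helpers.H19Asd.gensP S)).Finite :=
    (Set.finite_singleton _).union
      ((Pool.Agent.Helpers.H19Asd.gensP_finite hfin).image _)
  have hcoe : ((hgfin.toFinset : Finset _) : Set _) = Pool.Agent.Helpers.H19Asd.gensG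
      (Pool.Agent.Helpers.H19Asd.gensP S) := hgfin.coe_toFinset
  have hΓ : Pool.Agent.Helpers.H19Asd.cayley (Pool.Agent.Helpers.H19Asd.gensG
      (Pool.Agent.Helpers.H19Asd.gensP S)) = SimpleGraph.fromRel (fun g h :
      Pool.Agent.Helpers.H19Asd.GG (Fin 5 → H) => g⁻¹ * h ∈ hgfin.toFinset) := by
    ext g h
    rw [SimpleGraph.fromRel_adj, Set.Finite.mem_toFinset, Set.Finite.mem_toFinset]
    rfl
  obtain ⟨T, Γt, ρ, htree, -, -, hmove, hedge⟩ := hall 4 (by norm_num)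
    (Pool.Agent.Helpers.H19Asd.GG (Fin 5 → H)) hgfin.toFinset
    (by rw [hcoe]; exact Pool.Agent.Helpers.H19Asd.gensG_closure
          (Pool.Agent.Helpers.H19Asd.gensP_closure hS₀))
    (Pool.Agent.Helpers.H19Asd.cayley (Pool.Agent.Helpers.H19Asd.gensG
      (Pool.Agent.Helpers.H19Asd.gensP S))) hΓ
    (Pool.Agent.Helpers.H19Asd.not_asdim_three hS₀ hr)
    ⟨fun z => SemidirectProduct.inr (Pool.Agent.Helpers.H19Asd.plane r z),
      ⟨fun t => 2 * t, fun a b => Pool.Agent.Helpers.H19Asd.plane_upper hS₀ hr a b⟩,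
      ⟨fun t => t / 4, by
        rw [tendsto_atTop]
        intro b
        filter_upwards [eventually_ge_atTop (4 * b)] with t ht
        omega, fun a b => Pool.Agent.Helpers.H19Asd.plane_lower hS₀ hr a b⟩,
      ⟨0, fun D => Pool.Agent.Helpers.H19Asd.plane_separates hfin hS₀ hr0 D⟩⟩
  obtain ⟨v⟩ := htree.connected.nonempty
  obtain ⟨g, hg⟩ := hmove v
  obtain ⟨p⟩ := htree.connected.preconnected v (ρ g v)
  obtain ⟨w, hw⟩ : ∃ w, Γt.Adj v w := by
    have hadj : ∀ (a b : T) (_ : Γt.Walk a b), a ≠ b → ∃ w, Γt.Adj a w := by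
      intro a b q hab
      cases q with
      | nil => exact absurd rfl hab
      | cons h _ => exact ⟨_, h⟩
    exact hadj v _ p (Ne.symm hg)
  obtain ⟨St, hSt⟩ : ∃ St : Subgroup (Pool.Agent.Helpers.H19Asd.GG (Fin 5 → H)),
      ∀ g, g ∈ St ↔ (ρ g v = v ∧ ρ g w = w) := by
    refine ⟨{ carrier := {g | ρ g v = v ∧ ρ g w = w}, mul_mem' := ?_, one_mem' := ?_,
              inv_mem' := ?_ }, fun g => Iff.rfl⟩
    · rintro a b ⟨ha1, ha2⟩ ⟨hb1, hb2⟩
      refine ⟨?_, ?_⟩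
      · rw [map_mul, Equiv.Perm.mul_apply, hb1, ha1]
      · rw [map_mul, Equiv.Perm.mul_apply, hb2, ha2]
    · simp
    · rintro a ⟨ha1, ha2⟩
      refine ⟨?_, ?_⟩
      · rw [map_inv, Equiv.Perm.inv_eq_iff_eq, ha1]
      · rw [map_inv, Equiv.Perm.inv_eq_iff_eq, ha2]
  obtain ⟨K, -, -, hK⟩ := hedge v w hw St hSt
  refine Pool.Agent.Helpers.H19Asd.no_Z2 ?_ K hK
  intro x y hxy
  refine Pool.Agent.Helpers.H19Asd.no_rank_two ?_ _ x y hxy
  intro a
  choose n hn0 hn using fun i => htor (a i)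
  refine ⟨∏ i, n i, Finset.prod_pos fun i _ => hn0 i, ?_⟩
  funext i
  have hdvd : n i ∣ ∏ i, n i := Finset.dvd_prod_of_mem n (Finset.mem_univ i)
  obtain ⟨k, hk⟩ := hdvd
  rw [Pi.pow_apply, hk, pow_mul, hn i, one_pow]
  rfl


end Pool.Agent.S0870
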