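import Pool.Statements.S0878
-- import your own Pool.Agent.* helpers here

set_option autoImplicit false
open Pool Pool.MP_b39e30_al

namespace Pool.Agent.S0878

abbrev Mat (C : Type) := Matrix (Fin 3) (Fin 3) C

section gen
variable {C : Type} [CommRing C]

abbrev E (i j : Fin 3) : Mat C := Matrix.single i j (1:C)

lemma E_sq (i j : Fin 3) (h : i ≠ j) : (E i j : Mat C) * E i j = 0 := by
  rw [Matrix.single_mul_single_of_ne]
  exact fun h' => h h'.symm

lemma smulE_sq (b : C) (i j : Fin 3) (h : i ≠ j) : (b • (E i j : Mat C)) * (b • E i j) = 0 := by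
  rw [Matrix.smul_mul, Matrix.mul_smul, E_sq i j h]; simp

/-- the unit `1 + X` for `X * X = 0` -/
def uof (X : Mat C) (h : X * X = 0) : (Mat C)ˣ where
  val := 1 + X
  inv := 1 - X
  val_inv := by
    have : (1 + X) * (1 - X) = 1 - X * X := by noncomm_ring
    rw [this, h, sub_zero]
  inv_val := by
    have : (1 - X) * (1 + X) = 1 - X * X := by noncomm_ring
    rw [this, h, sub_zero]

lemma uof_val (X : Mat C) (h : X * X = 0) : (uof X h).val = 1 + X := rfl
lemma uof_inv (X : Mat C) (h : X * X = 0) : ((uof X h)⁻¹).val = 1 - X := rfl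

def gU : (Mat C)ˣ := uof (E 0 1) (E_sq 0 1 (by decide))

lemma gU_sq (h2 : (2:C) = 0) : (gU : (Mat C)ˣ) * gU = 1 := by
  apply Units.ext
  rw [Units.val_mul]
  have : (gU : (Mat C)ˣ).val = 1 + E 0 1 := rfl
  rw [this]
  have e : (1 + (E 0 1 : Mat C)) * (1 + E 0 1) = 1 + (E 0 1 : Mat C) * E 0 1 + (2:C) • E 0 1 := by
    rw [two_smul]; noncomm_ring
  rw [e, E_sq 0 1 (by decide), h2]; simp

lemma gU_inv (h2 : (2:C) = 0) : (gU : (Mat C)ˣ)⁻¹ = gU := by
  rw [inv_eq_iff_mul_eq_one]; exact gU_sq h2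

variable (J : Ideal C)

def pi : (Mat C)ˣ →* (Mat (C ⧸ J))ˣ := Units.map ((Ideal.Quotient.mk J).mapMatrix : Mat C →+* Mat (C ⧸ J)).toMonoidHom

def InJ (X : Mat C) : Prop := ∀ i j, X i j ∈ J

lemma pi_eq (x y : (Mat C)ˣ) : pi J x = pi J y ↔ InJ J (x.val - y.val) := by
  constructor
  · intro h i j
    have h1 := congrArg (fun u : (Mat (C ⧸ J))ˣ => u.val i j) h
    simp only [pi, Units.coe_map, RingHom.toMonoidHom_eq_coe, MonoidHom.coe_coe, RingHom.mapMatrix_apply, Matrix.map_apply] at h1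
    rw [Ideal.Quotient.eq] at h1
    exact h1
  · intro h
    apply Units.ext
    ext i j
    simp only [pi, Units.coe_map, RingHom.toMonoidHom_eq_coe, MonoidHom.coe_coe, RingHom.mapMatrix_apply, Matrix.map_apply]
    rw [Ideal.Quotient.eq]
    exact h i j

def GG : Subgroup (Mat C)ˣ := Subgroup.comap (pi J) (Subgroup.zpowers (pi J gU))

lemma g_mem : (gU : (Mat C)ˣ) ∈ GG J := by
  show pi J gU ∈ Subgroup.zpowers (pi J gU)
  exact Subgroup.mem_zpowers _

lemma GG_cases (h2 : (2:C) = 0) (y : (Mat C)ˣ) (hy : y ∈ GG J) : pi J y = 1 ∨ pi J y = pi J gU := by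
  have hy' : pi J y ∈ Subgroup.zpowers (pi J gU) := hy
  rw [Subgroup.mem_zpowers_iff] at hy'
  obtain ⟨k, hk⟩ := hy'
  have hs : (pi J (gU : (Mat C)ˣ))^(2:ℤ) = 1 := by
    rw [zpow_two, ← map_mul, gU_sq h2, map_one]
  rcases Int.even_or_odd' k with ⟨m, hm | hm⟩
  · left
    rw [← hk, hm, zpow_mul, hs, one_zpow]
  · right
    rw [← hk, hm, zpow_add, zpow_mul, hs, one_zpow, one_mul, zpow_one]

lemma ker_mem (y : (Mat C)ˣ) (hy : pi J y = 1) : y ∈ GG J := by
  show pi J y ∈ Subgroup.zpowers (pi J gU)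
  rw [hy]; exact Subgroup.one_mem _

variable (hsq : ∀ b ∈ J, b * b = 0)

include hsq in
lemma nilS (S : Finset C) (hS : ∀ s ∈ S, s ∈ J) : (Ideal.span (S : Set C)) ^ (2 * S.card + 1) = ⊥ := by
  classical
  induction S using Finset.induction_on with
  | empty => simp
  | insert s S hs ih =>
    rw [Finset.coe_insert, Set.insert_eq, Ideal.span_union, Finset.card_insert_of_notMem hs]
    have e : 2 * (S.card + 1) + 1 = 2 + (2 * S.card + 1) := by ring
    rw [e, eq_bot_iff]
    refine (Ideal.sup_pow_add_le_pow_sup_pow (I := Ideal.span {s}) (J := Ideal.span (S : Set C)) (n := 2) (m := 2 * S.card + 1)).trans ?_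
    rw [ih (fun t ht => hS t (Finset.mem_insert_of_mem ht)), Ideal.span_singleton_pow]
    have : s^2 = 0 := by rw [sq]; exact hsq s (hS s (Finset.mem_insert_self _ _))
    rw [this]; simp

lemma pow_entries (I : Ideal C) (X : Mat C) (hX : ∀ i j, X i j ∈ I) (n : ℕ) : ∀ i j, (X^n) i j ∈ I^n := by
  induction n with
  | zero => intro i j; simp
  | succ n ih =>
    intro i j
    have e : X^(n+1) = X^n * X := pow_succ X n
    rw [e, Matrix.mul_apply, pow_succ I n]
    exact Ideal.sum_mem _ fun k _ => Ideal.mul_mem_mul (ih i k) (hX k j)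

include hsq in
lemma pow32 (h2 : (2:C) = 0) (x : (Mat C)ˣ) (hx : pi J x = 1) : x^32 = 1 := by
  classical
  have h0 : InJ J (x.val - 1) := by
    have := (pi_eq J x 1).mp (by rw [hx, map_one])
    simpa using this
  set X : Mat C := x.val - 1 with hX
  have hx1 : x.val = 1 + X := by rw [hX]; abel
  obtain ⟨S, hSd⟩ : ∃ S : Finset C, S = Finset.univ.image (fun p : Fin 3 × Fin 3 => X p.1 p.2) := ⟨_, rfl⟩
  have hS : ∀ s ∈ S, s ∈ J := by
    intro s hs
    rw [hSd] at hs
    obtain ⟨p, _, rfl⟩ := Finset.mem_image.mp hs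
    exact h0 p.1 p.2
  have hn := nilS J hsq S hS
  have hcard : 2 * S.card + 1 ≤ 32 := by
    have : S.card ≤ 9 := by
      rw [hSd]
      refine Finset.card_image_le.trans ?_
      simp
    omega
  have hX32 : X^32 = 0 := by
    obtain ⟨t, ht⟩ : ∃ t : ℕ, t = 32 := ⟨_, rfl⟩
    rw [← ht] at hcard ⊢
    ext i j
    have hm : ∀ i j, X i j ∈ Ideal.span (S : Set C) := by
      intro i j
      apply Ideal.subset_span
      have h := Finset.mem_image_of_mem (fun p : Fin 3 × Fin 3 => X p.1 p.2) (Finset.mem_univ (i,j))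
      rw [← hSd] at h
      exact Finset.mem_coe.mpr h
    have h1 := pow_entries (Ideal.span (S : Set C)) X hm t i j
    have h3 : (Ideal.span (S : Set C))^t ≤ (Ideal.span (S : Set C))^(2 * S.card + 1) := Ideal.pow_le_pow_right hcard
    have h4 := h3 h1
    rw [hn] at h4
    simpa using h4
  have two0 : (2 : Mat C) = 0 := by
    have : (2 : Mat C) = (2:C) • (1 : Mat C) := by
      rw [two_smul]; norm_num
    rw [this, h2, zero_smul]
  have sq1 : ∀ Z : Mat C, (1 + Z)^2 = 1 + Z^2 := by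
    intro Z
    have : (1 + Z)^2 = 1 + Z^2 + 2 * Z := by noncomm_ring
    rw [this, two0]; simp
  apply Units.ext
  rw [Units.val_pow_eq_pow_val, hx1]
  have p32 : ∀ Z : Mat C, Z^32 = (((((Z^2)^2)^2)^2)^2) := by
    intro Z
    calc Z^32 = Z^(2*2*2*2*2) := by norm_num
      _ = _ := by rw [pow_mul, pow_mul, pow_mul, pow_mul]
  rw [p32, sq1, sq1, sq1, sq1, sq1, ← p32, hX32]; simp

include hsq in
lemma engel (h2 : (2:C) = 0) (y : (Mat C)ˣ) (hy : y ∈ GG J) :
    (fun z : (Mat C)ˣ => z⁻¹ * gU⁻¹ * z * gU)^[6] y = 1 := by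
  set f : (Mat C)ˣ → (Mat C)ˣ := fun z => z⁻¹ * gU⁻¹ * z * gU with hf
  obtain ⟨c, hc⟩ : ∃ c : (Mat C)ˣ, c = y⁻¹ * gU⁻¹ * y * gU := ⟨_, rfl⟩
  have hg2 := gU_sq h2
  have hgi := gU_inv h2
  have hinv : gU⁻¹ * c * gU = c⁻¹ := by
    have e1 : gU⁻¹ * c * gU = gU⁻¹ * y⁻¹ * gU⁻¹ * y * (gU * gU) := by rw [hc]; group
    have e2 : c⁻¹ = gU⁻¹ * y⁻¹ * gU * y := by rw [hc]; group
    rw [e1, e2, hg2, mul_one, hgi]
  have hpi : pi J c = 1 := by
    rw [hc]
    simp only [map_mul, map_inv]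
    rcases GG_cases J h2 y hy with h | h
    · rw [h]; simp
    · rw [h]; group
  have h32 := pow32 J hsq h2 c hpi
  have hconj : ∀ k : ℕ, gU⁻¹ * c^k * gU = (c^k)⁻¹ := by
    intro k
    induction k with
    | zero => simp
    | succ k ih =>
      have : gU⁻¹ * c^(k+1) * gU = (gU⁻¹ * c^k * gU) * (gU⁻¹ * c * gU) := by rw [pow_succ]; group
      rw [this, ih, hinv, pow_succ', mul_inv_rev]
  have key : ∀ m : ℕ, f^[m] c = c^(2^m) ∨ f^[m] c = (c^(2^m))⁻¹ := by
    intro m
    induction m with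
    | zero => left; simp
    | succ m ih =>
      rw [Function.iterate_succ_apply']
      have hp : (2:ℕ)^(m+1) = 2^m + 2^m := by ring
      rcases ih with h | h
      · right
        rw [h, hf]
        simp only
        have : (c^(2^m))⁻¹ * gU⁻¹ * c^(2^m) * gU = (c^(2^m))⁻¹ * (gU⁻¹ * c^(2^m) * gU) := by group
        rw [this, hconj, hp, pow_add, mul_inv_rev]
      · left
        rw [h, hf]
        simp only
        have : ((c^(2^m))⁻¹)⁻¹ * gU⁻¹ * (c^(2^m))⁻¹ * gU = (c^(2^m)) * (gU⁻¹ * c^(2^m) * gU)⁻¹ := by group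
        rw [this, hconj, hp, pow_add, inv_inv]
  have : f^[6] y = f^[5] c := by
    rw [show (6:ℕ) = 5 + 1 from rfl, Function.iterate_succ_apply, hc]
  rw [this]
  rcases key 5 with h | h
  · rw [h]; norm_num; exact h32
  · rw [h]; norm_num; exact h32

/-! ### filtration -/

def cw : Fin 3 → ℕ := ![0,1,0]

def aexp (k : ℕ) (i j : Fin 3) : ℕ := (k + 1 + cw i - cw j) / 2

lemma cw_le (i : Fin 3) : cw i ≤ 1 := by fin_cases i <;> simp [cw]

lemma aexp_add (k l : ℕ) (i j m : Fin 3) : aexp (k + l) i j ≤ aexp k i m + aexp l m j := by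
  unfold aexp
  have h1 := cw_le i
  have h2 := cw_le j
  have h3 := cw_le m
  omega

lemma aexp_mono (k l : ℕ) (h : k ≤ l) (i j : Fin 3) : aexp k i j ≤ aexp l i j := by
  unfold aexp
  have h1 := cw_le i
  have h2 := cw_le j
  omega

def R (I : Ideal C) (k : ℕ) (X : Mat C) : Prop := ∀ i j, X i j ∈ I^(aexp k i j)

lemma R_mul (I : Ideal C) {k l : ℕ} {X Y : Mat C} (hX : R I k X) (hY : R I l Y) : R I (k + l) (X * Y) := by
  intro i j
  rw [Matrix.mul_apply]
  refine Ideal.sum_mem _ fun m _ => ?_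
  refine Ideal.pow_le_pow_right (aexp_add k l i j m) ?_
  rw [pow_add]
  exact Ideal.mul_mem_mul (hX i m) (hY m j)

lemma R_add (I : Ideal C) {k : ℕ} {X Y : Mat C} (hX : R I k X) (hY : R I k Y) : R I k (X + Y) :=
  fun i j => Ideal.add_mem _ (hX i j) (hY i j)

lemma R_sub (I : Ideal C) {k : ℕ} {X Y : Mat C} (hX : R I k X) (hY : R I k Y) : R I k (X - Y) :=
  fun i j => Ideal.sub_mem _ (hX i j) (hY i j)

lemma R_mono (I : Ideal C) {k l : ℕ} (h : k ≤ l) {X : Mat C} (hX : R I l X) : R I k X :=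
  fun i j => Ideal.pow_le_pow_right (aexp_mono k l h i j) (hX i j)

def GI (I : Ideal C) : Subgroup (Mat C)ˣ where
  carrier := {x | R I 1 (x.val - 1) ∧ R I 1 (x⁻¹.val - 1)}
  one_mem' := by
    constructor <;> · intro i j; simp
  mul_mem' := by
    rintro x y ⟨hx, hx'⟩ ⟨hy, hy'⟩
    refine ⟨?_, ?_⟩
    · have e : (x * y).val - 1 = (x.val - 1) * (y.val - 1) + ((x.val - 1) + (y.val - 1)) := by
        rw [Units.val_mul]; noncomm_ring
      rw [e]
      exact R_add I (R_mono I (by norm_num) (R_mul I hx hy)) (R_add I hx hy)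
    · have e : (x * y)⁻¹.val - 1 = (y⁻¹.val - 1) * (x⁻¹.val - 1) + ((y⁻¹.val - 1) + (x⁻¹.val - 1)) := by
        rw [mul_inv_rev, Units.val_mul]; noncomm_ring
      rw [e]
      exact R_add I (R_mono I (by norm_num) (R_mul I hy' hx')) (R_add I hy' hx')
  inv_mem' := by
    rintro x ⟨hx, hx'⟩
    exact ⟨hx', by rw [inv_inv]; exact hx⟩

lemma comm_R (I : Ideal C) (k : ℕ) (h b : (Mat C)ˣ) (hh : h ∈ GI I) (hb : b ∈ GI I) (hk : R I k (h.val - 1)) :
    R I (k+1) ((h⁻¹ * b⁻¹ * h * b).val - 1) := by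
  have e : (h⁻¹ * b⁻¹ * h * b).val - 1 = (h⁻¹ * b⁻¹).val * (h.val * b.val - b.val * h.val) := by
    rw [Units.val_mul, Units.val_mul, mul_sub]
    have : (h⁻¹ * b⁻¹).val * (b.val * h.val) = 1 := by
      rw [← Units.val_mul b h, ← Units.val_mul]
      simp
    rw [this, mul_assoc]
  have e2 : h.val * b.val - b.val * h.val = (h.val - 1) * (b.val - 1) - (b.val - 1) * (h.val - 1) := by noncomm_ring
  have h3 : R I (k+1) (h.val * b.val - b.val * h.val) := by
    rw [e2]
    apply R_sub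
    · exact R_mul I hk hb.1
    · rw [add_comm]; exact R_mul I hb.1 hk
  have h4 : (h⁻¹ * b⁻¹) ∈ GI I := (GI I).mul_mem ((GI I).inv_mem hh) ((GI I).inv_mem hb)
  have e3 : (h⁻¹ * b⁻¹).val * (h.val * b.val - b.val * h.val) = ((h⁻¹ * b⁻¹).val - 1) * (h.val * b.val - b.val * h.val) + (h.val * b.val - b.val * h.val) := by noncomm_ring
  rw [e, e3]
  apply R_add _ _ h3
  exact R_mono I (by omega) (R_mul I h4.1 h3)

lemma fold_R (I : Ideal C) (hs : List (Mat C)ˣ) : ∀ (k : ℕ) (h : (Mat C)ˣ), h ∈ GI I → (∀ b ∈ hs, b ∈ GI I) → R I k (h.val - 1) →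
    R I (k + hs.length) ((hs.foldl (fun a b : (Mat C)ˣ => a⁻¹ * b⁻¹ * a * b) h).val - 1) := by
  induction hs with
  | nil => intro k h _ _ hk; simpa using hk
  | cons b hs ih =>
    intro k h hh hb hk
    rw [List.foldl_cons, List.length_cons]
    have hb1 := hb b (by simp)
    have := ih (k+1) (h⁻¹ * b⁻¹ * h * b) ((GI I).mul_mem ((GI I).mul_mem ((GI I).mul_mem ((GI I).inv_mem hh) ((GI I).inv_mem hb1)) hh) hb1)
      (fun c hc => hb c (List.mem_cons_of_mem _ hc)) (comm_R I k h b hh hb1 hk)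
    rw [show k + (hs.length + 1) = k + 1 + hs.length from by ring]
    exact this

include hsq in
lemma locnil (h2 : (2:C) = 0) (F : Set (Mat C)ˣ) (hF : F.Finite) (hFG : F ⊆ GG J) :
    ∃ n : ℕ, ∀ h0 : (Mat C)ˣ, h0 ∈ Subgroup.closure F → ∀ hs : List (Mat C)ˣ, hs.length = n →
      (∀ b ∈ hs, b ∈ Subgroup.closure F) → hs.foldl (fun a b : (Mat C)ˣ => a⁻¹ * b⁻¹ * a * b) h0 = 1 := by
  classical
  -- the finite set of entries
  let T : Set C := ⋃ x ∈ F, ((fun p : Fin 3 × Fin 3 => if p = (0,1) then (0:C) else (x.val - 1) p.1 p.2) '' Set.univ) ∪ ((fun p : Fin 3 × Fin 3 => if p = (0,1) then (0:C) else (x⁻¹.val - 1) p.1 p.2) '' Set.univ)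
  have hTf : T.Finite := by
    apply hF.biUnion
    intro x _
    exact (Set.finite_univ.image _).union (Set.finite_univ.image _)
  have hentry : ∀ x ∈ GG J, ∀ p : Fin 3 × Fin 3, p ≠ (0,1) → (x.val - 1) p.1 p.2 ∈ J := by
    intro x hx p hp
    rcases GG_cases J h2 x hx with h | h
    · have := (pi_eq J x 1).mp (by rw [h, map_one])
      simpa using this p.1 p.2
    · have := (pi_eq J x gU).mp h
      have h3 := this p.1 p.2
      have e : (x.val - 1) p.1 p.2 = (x.val - (gU : (Mat C)ˣ).val) p.1 p.2 := by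
        have e1 : (gU : (Mat C)ˣ).val = 1 + E 0 1 := rfl
        rw [e1, Matrix.sub_apply, Matrix.sub_apply, Matrix.add_apply]
        have : (E 0 1 : Mat C) p.1 p.2 = 0 := by
          apply Matrix.single_apply_of_ne
          rintro ⟨h4, h5⟩
          exact hp (Prod.ext h4.symm h5.symm)
        rw [this, add_zero]
      rw [e]; exact h3
  have hTJ : ∀ t ∈ T, t ∈ J := by
    intro t ht
    simp only [T, Set.mem_iUnion, Set.mem_union, Set.mem_image, Set.mem_univ, true_and] at ht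
    obtain ⟨x, hx, ⟨p, hp⟩ | ⟨p, hp⟩⟩ := ht
    · rw [← hp]
      split_ifs with h
      · exact J.zero_mem
      · exact hentry x (hFG hx) p h
    · rw [← hp]
      split_ifs with h
      · exact J.zero_mem
      · exact hentry x⁻¹ ((GG J).inv_mem (hFG hx)) p h
  set I : Ideal C := Ideal.span T with hI
  have hN := nilS J hsq hTf.toFinset (fun t ht => hTJ t (hTf.mem_toFinset.mp ht))
  rw [hTf.coe_toFinset] at hN
  set N := 2 * hTf.toFinset.card + 1 with hNdef
  have hFI : F ⊆ GI I := by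
    intro x hx
    have hx1 : ∀ p : Fin 3 × Fin 3, p ≠ (0,1) → (x.val - 1) p.1 p.2 ∈ I := by
      intro p hp
      apply Ideal.subset_span
      simp only [T, Set.mem_iUnion, Set.mem_union, Set.mem_image, Set.mem_univ, true_and]
      exact ⟨x, hx, Or.inl ⟨p, by rw [if_neg hp]⟩⟩
    have hx2 : ∀ p : Fin 3 × Fin 3, p ≠ (0,1) → (x⁻¹.val - 1) p.1 p.2 ∈ I := by
      intro p hp
      apply Ideal.subset_span
      simp only [T, Set.mem_iUnion, Set.mem_union, Set.mem_image, Set.mem_univ, true_and]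
      exact ⟨x, hx, Or.inr ⟨p, by rw [if_neg hp]⟩⟩
    have ha : ∀ Z : Mat C, (∀ p : Fin 3 × Fin 3, p ≠ (0,1) → Z p.1 p.2 ∈ I) → R I 1 Z := by
      intro Z hZ i j
      by_cases h : (i,j) = ((0,1) : Fin 3 × Fin 3)
      · have h1 : i = 0 := congrArg Prod.fst h
        have h2 : j = 1 := congrArg Prod.snd h
        subst h1; subst h2
        have : aexp 1 0 1 = 0 := by decide
        rw [this]; simp
      · have h1 := hZ (i,j) h
        have h3 : aexp 1 i j ≤ 1 := by
          unfold aexp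
          have := cw_le i
          omega
        have h4 : I^1 ≤ I^(aexp 1 i j) := Ideal.pow_le_pow_right h3
        rw [pow_one] at h4
        exact h4 h1
    exact ⟨ha _ hx1, ha _ hx2⟩
  have hcl : Subgroup.closure F ≤ GI I := (Subgroup.closure_le _).mpr hFI
  refine ⟨2 * N + 2, ?_⟩
  intro h0 hh0 hs hlen hb
  have h0I := hcl hh0
  have := fold_R I hs 1 h0 h0I (fun b hbm => hcl (hb b hbm)) h0I.1
  rw [hlen] at this
  apply Units.ext
  rw [Units.val_one]
  have hz : (hs.foldl (fun a b : (Mat C)ˣ => a⁻¹ * b⁻¹ * a * b) h0).val - 1 = 0 := by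
    ext i j
    have h1 := this i j
    have h3 : N ≤ aexp (1 + (2 * N + 2)) i j := by
      unfold aexp
      have := cw_le i
      have := cw_le j
      omega
    have h4 := Ideal.pow_le_pow_right (I := I) h3 h1
    rw [hN] at h4
    simpa using h4
  exact sub_eq_zero.mp hz

/-! ### the subnormal part -/

section sub
variable (Ki Kj : Subgroup (Mat C)ˣ) (hnorm : ∀ a ∈ Kj, ∀ b ∈ Ki, a * b * a⁻¹ ∈ Ki)

include hnorm in
lemma comm2 (a b : C) (X F : Mat C) (ha : a * a = 0) (hb : b * b = 0)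
   (hu : ∃ u ∈ Ki, u.val = 1 + a • X) (he : ∃ e ∈ Kj, e.val = 1 + b • F) :
   ∃ w ∈ Ki, w.val = 1 + (b * a) • (F * X - X * F) := by
  obtain ⟨u, hu, hu'⟩ := hu
  obtain ⟨e, he, he'⟩ := he
  refine ⟨e * u * e⁻¹ * u⁻¹, Ki.mul_mem (hnorm e he u hu) (Ki.inv_mem hu), ?_⟩
  have hui : u⁻¹.val = 1 - a • X := by
    have h1 : u.val * (1 - a • X) = 1 := by
      rw [hu']
      have : (1 + a • X) * (1 - a • X) = 1 - (a * a) • (X * X) := by
        rw [← smul_mul_smul_comm]
        generalize a • X = P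
        noncomm_ring
      rw [this, ha, zero_smul, sub_zero]
    exact (Units.inv_eq_of_mul_eq_one_right h1)
  have hei : e⁻¹.val = 1 - b • F := by
    have h1 : e.val * (1 - b • F) = 1 := by
      rw [he']
      have : (1 + b • F) * (1 - b • F) = 1 - (b * b) • (F * F) := by
        rw [← smul_mul_smul_comm]
        generalize b • F = P
        noncomm_ring
      rw [this, hb, zero_smul, sub_zero]
    exact (Units.inv_eq_of_mul_eq_one_right h1)
  rw [Units.val_mul, Units.val_mul, Units.val_mul, hui, hei, hu', he']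
  have key : (1 + b • F) * (1 + a • X) * (1 - b • F) * (1 - a • X) = 1 + (b * a) • (F * X - X * F)
      + (b * b) • (-(F * F)) + (a * a) • (-(X * X)) + (b * b) • (a • (-(F * X * F))) + (b * b) • (a • (F * F * X)) 
      + (a * a) • (b • (X * F * X - F * X * X)) + (a * a) • ((b * b) • (F * X * F * X)) := by
    simp only [smul_sub, smul_add, smul_neg, mul_add, add_mul, mul_sub, sub_mul, one_mul, mul_one, smul_mul_assoc, mul_smul_comm, smul_smul, mul_assoc]
    have c1 : a * b = b * a := mul_comm _ _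
    have c2 : b * (a * b) = b * (b * a) := by ring
    have c3 : a * (b * a) = a * (a * b) := by ring
    simp only [mul_comm, mul_left_comm]
    abel_nf
  rw [key, ha, hb]; simp

end sub

/-! elementary matrices in a subgroup -/

/-- `K` contains all `1 + b E_pq` with `b ∈ J ^ D` -/
def Q (K : Subgroup (Mat C)ˣ) (p q : Fin 3) (D : ℕ) : Prop := ∀ b ∈ J^D, ∃ u ∈ K, u.val = 1 + b • E p q

lemma Q_mono (K : Subgroup (Mat C)ˣ) (p q : Fin 3) {D D' : ℕ} (h : D ≤ D') (hQ : Q J K p q D) : Q J K p q D' :=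
  fun b hb => hQ b (Ideal.pow_le_pow_right h hb)

lemma J_of_pow {d : ℕ} (hd : 1 ≤ d) {b : C} (hb : b ∈ J^d) : b ∈ J := by
  have := Ideal.pow_le_pow_right hd hb
  simpa using this

lemma el_add (K : Subgroup (Mat C)ˣ) (p q : Fin 3) (hpq : p ≠ q) (b c : C)
   (hb : ∃ u ∈ K, u.val = 1 + b • E p q) (hc : ∃ u ∈ K, u.val = 1 + c • E p q) : ∃ u ∈ K, u.val = 1 + (b + c) • E p q := by
  obtain ⟨u, hu, hu'⟩ := hb
  obtain ⟨v, hv, hv'⟩ := hc
  refine ⟨u * v, K.mul_mem hu hv, ?_⟩
  rw [Units.val_mul, hu', hv']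
  have e : (1 + b • (E p q : Mat C)) * (1 + c • E p q) = 1 + (b • (E p q : Mat C) + c • (E p q : Mat C)) + (b • (E p q : Mat C)) * (c • (E p q : Mat C)) := by
    generalize b • (E p q : Mat C) = P
    generalize c • (E p q : Mat C) = P'
    noncomm_ring
  rw [e, smul_mul_smul_comm, E_sq p q hpq, smul_zero, add_zero, add_smul]

include hsq in
lemma left_op (Ki Kj : Subgroup (Mat C)ˣ) (hnorm : ∀ a ∈ Kj, ∀ b ∈ Ki, a * b * a⁻¹ ∈ Ki) (d D : ℕ) (hd : 1 ≤ d) (hD : 1 ≤ D)
    (hj : ∀ p q : Fin 3, p ≠ q → Q J Kj p q d) (p q r : Fin 3) (hrq : r ≠ q) (hrp : r ≠ p)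
    (hQ : Q J Ki p q D) : Q J Ki r q (D + d) := by
  intro b hb
  rw [add_comm D d, pow_add] at hb
  refine Submodule.mul_induction_on hb ?_ ?_
  · intro c hc a ha
    have h1 := comm2 Ki Kj hnorm a c (E p q) (E r p) (hsq a (J_of_pow J hD ha)) (hsq c (J_of_pow J hd hc)) (hQ a ha) (hj r p hrp c hc)
    have e1 : (E r p : Mat C) * E p q = E r q := by rw [Matrix.single_mul_single_same, mul_one]
    have e2 : (E p q : Mat C) * E r p = 0 := by rw [Matrix.single_mul_single_of_ne]; exact fun h => hrq h.symm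
    rw [e1, e2, sub_zero] at h1
    exact h1
  · intro x y hx hy
    exact el_add Ki r q hrq x y hx hy

include hsq in
lemma right_op (Ki Kj : Subgroup (Mat C)ˣ) (hnorm : ∀ a ∈ Kj, ∀ b ∈ Ki, a * b * a⁻¹ ∈ Ki) (d D : ℕ) (hd : 1 ≤ d) (hD : 1 ≤ D)
    (hj : ∀ p q : Fin 3, p ≠ q → Q J Kj p q d) (p q s : Fin 3) (hsp : s ≠ p) (hsq' : s ≠ q)
    (hQ : Q J Ki p q D) : Q J Ki p s (D + d) := by
  intro b hb
  rw [add_comm D d, pow_add] at hb
  refine Submodule.mul_induction_on hb ?_ ?_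
  · intro c hc a ha
    have hc' : -c ∈ J^d := (J^d).neg_mem hc
    have h1 := comm2 Ki Kj hnorm a (-c) (E p q) (E q s) (hsq a (J_of_pow J hD ha)) (hsq (-c) (J_of_pow J hd hc')) (hQ a ha) (hj q s hsq'.symm (-c) hc')
    have e1 : (E q s : Mat C) * E p q = 0 := by rw [Matrix.single_mul_single_of_ne]; exact hsp
    have e2 : (E p q : Mat C) * E q s = E p s := by rw [Matrix.single_mul_single_same, mul_one]
    rw [e1, e2, zero_sub] at h1
    have e3 : (-c * a) • -(E p s : Mat C) = (c * a) • E p s := by rw [smul_neg, neg_mul, neg_smul, neg_neg]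
    rw [e3] at h1
    exact h1
  · intro x y hx hy
    exact el_add Ki p s hsp.symm x y hx hy

lemma extract (X : Mat C) : E 2 0 * (E 1 2 * (E 1 0 * X - X * E 1 0) - (E 1 0 * X - X * E 1 0) * E 1 2)
     - (E 1 2 * (E 1 0 * X - X * E 1 0) - (E 1 0 * X - X * E 1 0) * E 1 2) * E 2 0 = (X 0 1) • (E 1 0 : Mat C) := by
  ext i j
  fin_cases i <;> fin_cases j <;> simp [Matrix.mul_apply, Fin.sum_univ_three, Matrix.single_apply]

include hsq in
lemma step (h2 : (2:C) = 0) (Ki Kj : Subgroup (Mat C)ˣ) (hnorm : ∀ a ∈ Kj, ∀ b ∈ Ki, a * b * a⁻¹ ∈ Ki)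
    (y : (Mat C)ˣ) (hy : y ∈ Ki) (hyg : pi J y = pi J gU) (d : ℕ) (hd : 1 ≤ d) (hj : ∀ p q : Fin 3, p ≠ q → Q J Kj p q d) :
    ∃ d', 1 ≤ d' ∧ ∀ p q : Fin 3, p ≠ q → Q J Ki p q d' := by
  -- the matrix X
  set X : Mat C := E 1 0 - y.val * E 1 0 * y⁻¹.val with hX
  have hX01 : X 0 1 = - (y.val 0 1 * y⁻¹.val 0 1) := by
    rw [hX]
    simp [Matrix.sub_apply, Matrix.mul_apply, Fin.sum_univ_three, Matrix.single_apply]
  have hy01 : y.val 0 1 - 1 ∈ J := by
    have h := (pi_eq J y gU).mp hyg 0 1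
    have e1 : (gU : (Mat C)ˣ).val = 1 + E 0 1 := rfl
    rw [e1] at h
    simpa [Matrix.sub_apply, Matrix.add_apply, Matrix.single_apply] using h
  have hyi01 : y⁻¹.val 0 1 + 1 ∈ J := by
    have hh : pi J y⁻¹ = pi J gU⁻¹ := by rw [map_inv, map_inv, hyg]
    have h := (pi_eq J y⁻¹ gU⁻¹).mp hh 0 1
    have e1 : (gU : (Mat C)ˣ)⁻¹.val = 1 - E 0 1 := rfl
    rw [e1] at h
    simpa [Matrix.sub_apply, Matrix.add_apply, Matrix.single_apply] using h
  set c0 : C := X 0 1 with hc0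
  have hc0J : c0 - 1 ∈ J := by
    have : c0 - 1 = - (y.val 0 1 - 1) * y⁻¹.val 0 1 - (y⁻¹.val 0 1 + 1) := by rw [hX01]; ring
    rw [this]
    exact J.sub_mem (J.mul_mem_right _ (J.neg_mem hy01)) hyi01
  have hc0sq : c0 * c0 = 1 := by
    have h1 := hsq _ hc0J
    have : c0 * c0 = (c0 - 1) * (c0 - 1) + 2 * (c0 - 1) + 1 := by ring
    rw [this, h1, h2]; ring
  -- first commutator
  have w1 : ∀ a ∈ J^d, ∃ w ∈ Ki, w.val = 1 + a • X := by
    intro a ha
    obtain ⟨z, hz, hz'⟩ := hj 1 0 (by decide) a ha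
    refine ⟨z * y * z⁻¹ * y⁻¹, Ki.mul_mem (hnorm z hz y hy) (Ki.inv_mem hy), ?_⟩
    have haa := hsq a (J_of_pow J hd ha)
    have hzi : z⁻¹.val = 1 - a • E 1 0 := by
      have h1 : z.val * (1 - a • E 1 0) = 1 := by
        rw [hz']
        have : (1 + a • (E 1 0 : Mat C)) * (1 - a • E 1 0) = 1 - (a • (E 1 0 : Mat C)) * (a • E 1 0) := by
          generalize a • (E 1 0 : Mat C) = P
          noncomm_ring
        rw [this, smulE_sq a 1 0 (by decide), sub_zero]
      exact (Units.inv_eq_of_mul_eq_one_right h1)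
    rw [Units.val_mul, Units.val_mul, Units.val_mul, hzi, hz']
    have hyy : y.val * y⁻¹.val = 1 := by rw [← Units.val_mul]; simp
    have e1 : (1 + a • (E 1 0 : Mat C)) * y.val * (1 - a • E 1 0) * y⁻¹.val = (1 + a • (E 1 0 : Mat C)) * (y.val * y⁻¹.val) - (1 + a • (E 1 0 : Mat C)) * (a • (y.val * E 1 0 * y⁻¹.val)) := by
      simp only [mul_add, add_mul, mul_sub, sub_mul, one_mul, mul_one, smul_mul_assoc, mul_smul_comm, smul_smul, mul_assoc, smul_add, smul_sub]
    rw [e1, hyy, hX]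
    generalize y.val * E 1 0 * y⁻¹.val = P
    have e2 : (1 + a • (E 1 0 : Mat C)) * (a • P) = a • P + (a * a) • (E 1 0 * P) := by
      rw [add_mul, one_mul, smul_mul_smul_comm]
    rw [e2, haa, zero_smul, add_zero, mul_one, smul_sub]
    abel
  have w4 : ∀ b3 ∈ J^d, ∀ b2 ∈ J^d, ∀ b1 ∈ J^d, ∀ a ∈ J^d, ∃ w ∈ Ki, w.val = 1 + ((b3 * (b2 * (b1 * a))) * c0) • E 1 0 := by
    intro b3 hb3 b2 hb2 b1 hb1 a ha
    have sqz : ∀ t ∈ J^d, t * t = 0 := fun t ht => hsq t (J_of_pow J hd ht)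
    have h1 := comm2 Ki Kj hnorm a b1 X (E 1 0) (sqz a ha) (sqz b1 hb1) (w1 a ha) (hj 1 0 (by decide) b1 hb1)
    have hb1a : b1 * a ∈ J := J.mul_mem_left _ (J_of_pow J hd ha)
    have h2' := comm2 Ki Kj hnorm (b1 * a) b2 _ (E 1 2) (hsq _ hb1a) (sqz b2 hb2) h1 (hj 1 2 (by decide) b2 hb2)
    have hb2a : b2 * (b1 * a) ∈ J := J.mul_mem_left _ hb1a
    have h3 := comm2 Ki Kj hnorm (b2 * (b1 * a)) b3 _ (E 2 0) (hsq _ hb2a) (sqz b3 hb3) h2' (hj 2 0 (by decide) b3 hb3)
    rw [extract X, smul_smul] at h3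
    exact h3
  have hQ10 : Q J Ki 1 0 (d + (d + (d + d))) := by
    have main : ∀ b ∈ J^(d + (d + (d + d))), ∃ w ∈ Ki, w.val = 1 + (b * c0) • E 1 0 := by
      intro b hb
      rw [pow_add, pow_add, pow_add] at hb
      refine Submodule.mul_induction_on hb ?_ ?_
      · intro b3 hb3 x hx
        refine Submodule.mul_induction_on hx ?_ ?_
        · intro b2 hb2 x' hx'
          refine Submodule.mul_induction_on hx' ?_ ?_
          · intro b1 hb1 a ha
            exact w4 b3 hb3 b2 hb2 b1 hb1 a ha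
          · intro s t hs ht
            have := el_add Ki 1 0 (by decide) _ _ hs ht
            have e : b3 * (b2 * s) * c0 + b3 * (b2 * t) * c0 = b3 * (b2 * (s + t)) * c0 := by ring
            rw [e] at this; exact this
        · intro s t hs ht
          have := el_add Ki 1 0 (by decide) _ _ hs ht
          have e : b3 * s * c0 + b3 * t * c0 = b3 * (s + t) * c0 := by ring
          rw [e] at this; exact this
      · intro s t hs ht
        have := el_add Ki 1 0 (by decide) _ _ hs ht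
        have e : s * c0 + t * c0 = (s + t) * c0 := by ring
        rw [e] at this; exact this
    intro b hb
    have := main (b * c0) (Ideal.mul_mem_right _ _ hb)
    rw [mul_assoc, hc0sq, mul_one] at this
    exact this
  set D := d + (d + (d + d)) with hD
  have hD1 : 1 ≤ D := by omega
  have h12 := right_op J hsq Ki Kj hnorm d D hd hD1 hj 1 0 2 (by decide) (by decide) hQ10
  have h20 := left_op J hsq Ki Kj hnorm d D hd hD1 hj 1 0 2 (by decide) (by decide) hQ10
  have h02 := left_op J hsq Ki Kj hnorm d (D+d) hd (by omega) hj 1 2 0 (by decide) (by decide) h12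
  have h21 := right_op J hsq Ki Kj hnorm d (D+d) hd (by omega) hj 2 0 1 (by decide) (by decide) h20
  have h01 := right_op J hsq Ki Kj hnorm d (D+d+d) hd (by omega) hj 0 2 1 (by decide) (by decide) h02
  refine ⟨D + d + d + d, by omega, ?_⟩
  intro p q hpq
  have hb : ∀ p q : Fin 3, p ≠ q → (p = 1 ∧ q = 0) ∨ (p = 1 ∧ q = 2) ∨ (p = 2 ∧ q = 0) ∨ (p = 0 ∧ q = 2) ∨ (p = 2 ∧ q = 1) ∨ (p = 0 ∧ q = 1) := by decide
  rcases hb p q hpq with ⟨rfl, rfl⟩ | ⟨rfl, rfl⟩ | ⟨rfl, rfl⟩ | ⟨rfl, rfl⟩ | ⟨rfl, rfl⟩ | ⟨rfl, rfl⟩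
  · exact Q_mono J Ki _ _ (by omega) hQ10
  · exact Q_mono J Ki _ _ (by omega) h12
  · exact Q_mono J Ki _ _ (by omega) h20
  · exact Q_mono J Ki _ _ (by omega) h02
  · exact Q_mono J Ki _ _ (by omega) h21
  · exact Q_mono J Ki _ _ (by omega) h01

include hsq in
lemma nonsub (h2 : (2:C) = 0) (hne : ∀ n, J^n ≠ ⊥) (y : (Mat C)ˣ) (hyg : pi J y = pi J gU) (n : ℕ) (K : ℕ → Subgroup (Mat C)ˣ)
    (h0 : K 0 = Subgroup.zpowers y) (hn : ∀ p q : Fin 3, p ≠ q → Q J (K n) p q 1)
    (hch : ∀ i < n, K i ≤ K (i+1) ∧ ∀ a ∈ K (i+1), ∀ b ∈ K i, a * b * a⁻¹ ∈ K i) : False := by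
  have hyK : ∀ i ≤ n, y ∈ K i := by
    intro i
    induction i with
    | zero => intro _; rw [h0]; exact Subgroup.mem_zpowers y
    | succ i ih => intro hi; exact (hch i (by omega)).1 (ih (by omega))
  have main : ∀ j ≤ n, ∃ d, 1 ≤ d ∧ ∀ p q : Fin 3, p ≠ q → Q J (K (n - j)) p q d := by
    intro j
    induction j with
    | zero => intro _; exact ⟨1, le_rfl, by simpa using hn⟩
    | succ j ih =>
      intro hj
      obtain ⟨d, hd, hQ⟩ := ih (by omega)
      have e : n - j = (n - (j+1)) + 1 := by omega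
      have hc := hch (n - (j+1)) (by omega)
      rw [← e] at hc
      exact step J hsq h2 (K (n - (j+1))) (K (n - j)) hc.2 y (hyK _ (by omega)) hyg d hd hQ
  obtain ⟨d, hd, hQ⟩ := main n le_rfl
  rw [Nat.sub_self, h0] at hQ
  apply hne (d + d)
  rw [pow_add, eq_bot_iff]
  intro x hx
  refine Submodule.mul_induction_on hx ?_ ?_
  · intro a ha b hb
    obtain ⟨u, hu, hu'⟩ := hQ 0 1 (by decide) a ha
    obtain ⟨v, hv, hv'⟩ := hQ 1 2 (by decide) b hb
    have hcomm : u * v = v * u := by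
      obtain ⟨m, rfl⟩ := Subgroup.mem_zpowers_iff.mp hu
      obtain ⟨k, rfl⟩ := Subgroup.mem_zpowers_iff.mp hv
      exact (Commute.refl y).zpow_zpow m k
    have h3 := congrArg (fun w : (Mat C)ˣ => w.val 0 2) hcomm
    simp only [Units.val_mul, hu', hv'] at h3
    simp [Matrix.mul_apply, Fin.sum_univ_three, Matrix.single_apply, Matrix.one_apply] at h3
    simpa using h3
  · intro x y hx hy
    exact Submodule.add_mem _ hx hy

lemma prod_mem_pow (x : ℕ → C) (hx : ∀ i, x i ∈ J) (n : ℕ) : ∏ i ∈ Finset.range n, x i ∈ J^n := by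
  induction n with
  | zero => simp
  | succ n ih =>
    rw [Finset.prod_range_succ, pow_succ]
    exact Ideal.mul_mem_mul ih (hx n)

end gen

/-! ### the concrete ring -/
open MvPolynomial in
def SS : Set (ℕ →₀ ℕ) := {s | ∃ i, s = Finsupp.single i 2}

noncomputable def sqI : Ideal (MvPolynomial ℕ (ZMod 2)) := Ideal.span ((fun s => MvPolynomial.monomial s (1:ZMod 2)) '' SS)

abbrev C0 := MvPolynomial ℕ (ZMod 2) ⧸ sqI

noncomputable def xx (i : ℕ) : C0 := Ideal.Quotient.mk sqI (MvPolynomial.X i)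

noncomputable def J0 : Ideal C0 := Ideal.span (Set.range xx)

lemma two0 : (2 : C0) = 0 := by
  have h : (2 : MvPolynomial ℕ (ZMod 2)) = 0 := by
    have : (2 : MvPolynomial ℕ (ZMod 2)) = MvPolynomial.C (2 : ZMod 2) := (map_ofNat MvPolynomial.C 2).symm
    rw [this]
    have : (2 : ZMod 2) = 0 := by decide
    rw [this]; simp
  have : (2 : C0) = Ideal.Quotient.mk sqI 2 := (map_ofNat (Ideal.Quotient.mk sqI) 2).symm
  rw [this, h]; simp

lemma xx_sq (i : ℕ) : xx i * xx i = 0 := by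
  unfold xx
  rw [← map_mul, Ideal.Quotient.eq_zero_iff_mem]
  apply Ideal.subset_span
  refine ⟨Finsupp.single i 2, ⟨i, rfl⟩, ?_⟩
  simp only
  have : (MvPolynomial.X i : MvPolynomial ℕ (ZMod 2)) = MvPolynomial.monomial (Finsupp.single i 1) 1 := rfl
  rw [this, MvPolynomial.monomial_mul, ← Finsupp.single_add]
  norm_num

lemma J0_sq : ∀ b ∈ J0, b * b = 0 := by
  intro b hb
  refine Submodule.span_induction ?_ ?_ ?_ ?_ hb
  · rintro _ ⟨i, rfl⟩; exact xx_sq i
  · simp
  · intro x y _ _ hx hy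
    have : (x + y) * (x + y) = x * x + y * y + 2 * (x * y) := by ring
    rw [this, hx, hy, two0]; ring
  · intro a x _ hx
    simp only [smul_eq_mul]
    have : a * x * (a * x) = a * a * (x * x) := by ring
    rw [this, hx, mul_zero]

noncomputable def ee (n : ℕ) : ℕ →₀ ℕ := ∑ i ∈ Finset.range n, Finsupp.single i 1

lemma prod_X (n : ℕ) : ∏ i ∈ Finset.range n, (MvPolynomial.X i : MvPolynomial ℕ (ZMod 2)) = MvPolynomial.monomial (ee n) 1 := by
  induction n with
  | zero => simp [ee]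
  | succ n ih =>
    rw [Finset.prod_range_succ, ih]
    have : (MvPolynomial.X n : MvPolynomial ℕ (ZMod 2)) = MvPolynomial.monomial (Finsupp.single n 1) 1 := rfl
    rw [this, MvPolynomial.monomial_mul, mul_one, ee, ee, Finset.sum_range_succ]

lemma ee_le (n j : ℕ) : ee n j ≤ 1 := by
  unfold ee
  rw [Finsupp.finsetSum_apply]
  simp only [Finsupp.single_apply]
  rw [Finset.sum_ite_eq' ]
  split_ifs <;> omega

lemma J0_ne (n : ℕ) : J0^n ≠ ⊥ := by
  intro h
  have h1 : ∏ i ∈ Finset.range n, xx i ∈ J0^n := prod_mem_pow J0 xx (fun i => Ideal.subset_span ⟨i, rfl⟩) n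
  rw [h] at h1
  have h2 : ∏ i ∈ Finset.range n, xx i = 0 := by simpa using h1
  unfold xx at h2
  rw [← map_prod, prod_X, Ideal.Quotient.eq_zero_iff_mem] at h2
  unfold sqI at h2
  rw [MvPolynomial.mem_ideal_span_monomial_image] at h2
  have h3 := h2 (ee n) (by
    rw [MvPolynomial.mem_support_iff, MvPolynomial.coeff_monomial]; simp)
  obtain ⟨s, ⟨i, rfl⟩, hs⟩ := h3
  have h4 := hs i
  rw [Finsupp.single_eq_same] at h4
  have := ee_le n i
  omega

/-- The negation of the preceding statement: In every radical group (ascending series with locally nilpotent factors), an element is a bounded left Engel element exactly when it lies in the subgroup generated by all elements generating subnormal cyclic subgroups, i.e. the Baer radical. -/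
theorem result :
    ¬ (∀ (G : Type) [Group G],
      (∃ S : Ordinal.{0} → Subgroup G,
        Monotone S ∧
        (∀ α : Ordinal.{0}, ∀ g : G, g ∈ S α →
          g = 1 ∨ ∃ β : Ordinal.{0}, β < α ∧ g ∈ S (Order.succ β)) ∧
        (∀ α : Ordinal.{0}, ∀ a : G, a ∈ S (Order.succ α) →
          ∀ b : G, b ∈ S α → a * b * a⁻¹ ∈ S α) ∧
        (∀ α : Ordinal.{0}, ∀ F : Set G, F.Finite →
          F ⊆ (S (Order.succ α) : Set G) →
          ∃ n : ℕ, ∀ h0 : G, h0 ∈ Subgroup.closure F →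
            ∀ hs : List G, hs.length = n →
              (∀ b : G, b ∈ hs → b ∈ Subgroup.closure F) →
                hs.foldl (fun a b : G => a⁻¹ * b⁻¹ * a * b) h0 ∈ S α) ∧
        (∃ β : Ordinal.{0}, S β = ⊤)) →
      ∀ x : G,
        (∃ n : ℕ, ∀ g : G, (fun y : G => y⁻¹ * x⁻¹ * y * x)^[n] g = 1) ↔
          x ∈ Subgroup.closure
            {y : G | ∃ n : ℕ, ∃ K : ℕ → Subgroup G,
              K 0 = Subgroup.zpowers y ∧ K n = ⊤ ∧
              ∀ i : ℕ, i < n → (K i ≤ K (i + 1) ∧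
                ∀ a : G, a ∈ K (i + 1) → ∀ b : G, b ∈ K i → a * b * a⁻¹ ∈ K i)}) := by
  intro H
  let A : Subgroup (Mat C0)ˣ := GG J0
  have hfold : ∀ (hs : List A) (h : A), ((hs.foldl (fun a b : A => a⁻¹ * b⁻¹ * a * b) h : A) : (Mat C0)ˣ) =
      (hs.map (fun a : A => (a : (Mat C0)ˣ))).foldl (fun a b : (Mat C0)ˣ => a⁻¹ * b⁻¹ * a * b) (h : (Mat C0)ˣ) := by
    intro hs
    induction hs with
    | nil => intro h; rfl
    | cons b hs ih => intro h; simp only [List.foldl_cons, List.map_cons]; rw [ih]; rfl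
  have hlocnil : ∀ F : Set A, F.Finite → ∃ n : ℕ, ∀ h0 : A, h0 ∈ Subgroup.closure F →
            ∀ hs : List A, hs.length = n →
              (∀ b : A, b ∈ hs → b ∈ Subgroup.closure F) →
                hs.foldl (fun a b : A => a⁻¹ * b⁻¹ * a * b) h0 = 1 := by
    intro F hF
    have hF' : ((fun a : A => (a : (Mat C0)ˣ)) '' F).Finite := hF.image _
    obtain ⟨n, hn⟩ := locnil J0 J0_sq two0 ((fun a : A => (a : (Mat C0)ˣ)) '' F) hF' (by
      rintro _ ⟨a, _, rfl⟩; exact a.2)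
    have hcl : ∀ a : A, a ∈ Subgroup.closure F → (a : (Mat C0)ˣ) ∈ Subgroup.closure ((fun a : A => (a : (Mat C0)ˣ)) '' F) := by
      intro a ha
      have h1 : Subgroup.map A.subtype (Subgroup.closure F) = Subgroup.closure (A.subtype '' F) := MonoidHom.map_closure _ _
      have h2 : A.subtype a ∈ Subgroup.map A.subtype (Subgroup.closure F) := Subgroup.mem_map_of_mem _ ha
      rw [h1] at h2
      exact h2
    refine ⟨n, fun h0 hh0 hs hlen hb => ?_⟩
    apply Subtype.ext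
    rw [hfold]
    have := hn h0 (hcl h0 hh0) (hs.map (fun a : A => (a : (Mat C0)ˣ))) (by rw [List.length_map, hlen]) (by
      intro b hbm
      obtain ⟨a, ha, rfl⟩ := List.mem_map.mp hbm
      exact hcl a (hb a ha))
    rw [this]; rfl
  have hH := H A (by
    classical
    refine ⟨fun α => if α = 0 then ⊥ else ⊤, ?_, ?_, ?_, ?_, ?_⟩
    · intro a b hab
      simp only
      by_cases hb : b = 0
      · subst hb
        have : a = 0 := nonpos_iff_eq_zero.mp hab
        simp [this]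
      · simp [hb]
    · intro α g hg
      by_cases h : α = 0
      · left; simpa [h] using hg
      · right
        refine ⟨0, pos_iff_ne_zero.mpr h, ?_⟩
        simp
    · intro α a _ b hb
      by_cases h : α = 0
      · simp only [h, if_true] at hb ⊢
        rw [Subgroup.mem_bot] at hb ⊢
        rw [hb]; group
      · simp [h]
    · intro α F hF _
      obtain ⟨n, hn⟩ := hlocnil F hF
      refine ⟨n, fun h0 hh0 hs hlen hb => ?_⟩
      rw [hn h0 hh0 hs hlen hb]
      exact Subgroup.one_mem _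
    · exact ⟨1, by simp⟩) ⟨gU, g_mem J0⟩
  have h1 := hH.mp (by
    refine ⟨6, fun y => ?_⟩
    have e := engel J0 J0_sq two0 (y : (Mat C0)ˣ) y.2
    have hit : ∀ (n : ℕ) (z : A), (((fun y : A => y⁻¹ * (⟨gU, g_mem J0⟩ : A)⁻¹ * y * (⟨gU, g_mem J0⟩ : A))^[n] z : A) : (Mat C0)ˣ) =
        (fun z : (Mat C0)ˣ => z⁻¹ * gU⁻¹ * z * gU)^[n] (z : (Mat C0)ˣ) := by
      intro n
      induction n with
      | zero => intro z; rfl
      | succ n ih => intro z; rw [Function.iterate_succ_apply, Function.iterate_succ_apply, ih]; rfl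
    apply Subtype.ext
    rw [hit, e]; rfl)
  have hU : Subgroup.closure
            {y : A | ∃ n : ℕ, ∃ K : ℕ → Subgroup A,
              K 0 = Subgroup.zpowers y ∧ K n = ⊤ ∧
              ∀ i : ℕ, i < n → (K i ≤ K (i + 1) ∧
                ∀ a : A, a ∈ K (i + 1) → ∀ b : A, b ∈ K i → a * b * a⁻¹ ∈ K i)} ≤ Subgroup.comap A.subtype (pi J0).ker := by
    rw [Subgroup.closure_le]
    rintro y ⟨n, K, h0, hn, hch⟩
    show (y : (Mat C0)ˣ) ∈ (pi J0).ker
    rw [MonoidHom.mem_ker]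
    rcases GG_cases J0 two0 y y.2 with h | h
    · exact h
    · exfalso
      refine nonsub J0 J0_sq two0 J0_ne (y : (Mat C0)ˣ) h n (fun i => Subgroup.map A.subtype (K i)) ?_ ?_ ?_
      · rw [h0]
        exact MonoidHom.map_zpowers _ _
      · intro p q hpq b hb
        rw [pow_one] at hb
        have hX := smulE_sq b p q hpq
        refine ⟨uof (b • E p q) hX, ?_, rfl⟩
        rw [hn]
        refine ⟨⟨uof (b • E p q) hX, ?_⟩, trivial, rfl⟩
        apply ker_mem
        have : pi J0 (uof (b • E p q) hX) = pi J0 1 := by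
          rw [pi_eq]
          intro i j
          have e1 : (uof (b • (E p q : Mat C0)) hX).val - (1 : (Mat C0)ˣ).val = b • E p q := by
            rw [uof_val, Units.val_one]; abel
          rw [e1, Matrix.smul_apply, smul_eq_mul]
          exact J0.mul_mem_right _ hb
        rw [this, map_one]
      · intro i hi
        obtain ⟨h3, h4⟩ := hch i hi
        refine ⟨Subgroup.map_mono h3, ?_⟩
        rintro _ ⟨a, ha, rfl⟩ _ ⟨b, hb, rfl⟩
        exact ⟨a * b * a⁻¹, h4 a ha b hb, by simp⟩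
  have h2 := hU h1
  have h3 : pi J0 gU = 1 := h2
  have h4 := (pi_eq J0 gU 1).mp (by rw [h3, map_one]) 0 1
  have e1 : (gU : (Mat C0)ˣ).val - (1 : (Mat C0)ˣ).val = E 0 1 := by
    have : (gU : (Mat C0)ˣ).val = 1 + E 0 1 := rfl
    rw [this, Units.val_one]; abel
  rw [e1] at h4
  have e2 : (E 0 1 : Mat C0) 0 1 = 1 := by simp
  rw [e2] at h4
  have h5 := J0_sq 1 h4
  rw [one_mul] at h5
  apply J0_ne 1
  rw [eq_bot_iff]
  intro x _
  have : x = x * 1 := (mul_one x).symm
  rw [this, h5, mul_zero]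
  exact Submodule.zero_mem _

end Pool.Agent.S0878
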