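import Pool.Statements.S0926

set_option autoImplicit false
open Pool Pool.MP_bd517a_al

namespace Pool.Agent.S0926

/-- the additive group of the field with eight elements, basis `1, α, α²`, `α³ = α + 1` -/
abbrev V := ZMod 2 × ZMod 2 × ZMod 2

/-- multiplication by `α` -/
def ml (x : V) : V := (x.2.2, x.1 + x.2.2, x.2.1)

/-- multiplication by `α ^ a` -/
def act (a : ZMod 7) (x : V) : V := ml^[a.val] x

lemma act_add : ∀ (a b : ZMod 7) (x : V), act (a + b) x = act a (act b x) := by decide +kernel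

lemma act_zero' : ∀ (x : V), act 0 x = x := by decide +kernel

lemma act_map_add : ∀ (a : ZMod 7) (x y : V), act a (x + y) = act a x + act a y := by
  decide +kernel

/-- the affine group of the field with eight elements (order 56) -/
@[ext] structure GR where
  a : ZMod 7
  x : V
deriving DecidableEq

instance : Mul GR := ⟨fun g h => ⟨g.a + h.a, g.x + act g.a h.x⟩⟩
instance : One GR := ⟨⟨0, 0⟩⟩
instance : Inv GR := ⟨fun g => ⟨-g.a, act (-g.a) (-g.x)⟩⟩

lemma mul_def (g h : GR) : g * h = ⟨g.a + h.a, g.x + act g.a h.x⟩ := rfl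

instance : Group GR := Group.ofLeftAxioms
  (by
    intro g h k
    refine GR.ext ?_ ?_
    · simp only [mul_def]; ring
    · simp only [mul_def, act_map_add, act_add]; abel)
  (by
    intro g
    refine GR.ext ?_ ?_
    · show 0 + g.a = g.a; ring
    · show 0 + act 0 g.x = g.x
      rw [act_zero', zero_add])
  (by
    intro g
    refine GR.ext ?_ ?_
    · show -g.a + g.a = 0; ring
    · show act (-g.a) (-g.x) + act (-g.a) g.x = 0
      rw [← act_map_add, neg_add_cancel]
      have : ∀ a : ZMod 7, act a 0 = 0 := by decide +kernel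
      exact this _)

instance : Finite GR := by
  have : Function.Injective (fun g : GR => (g.a, g.x)) := by
    intro g h e
    simp only [Prod.mk.injEq] at e
    exact GR.ext e.1 e.2
  exact Finite.of_injective _ this

def s1 : GR := ⟨1, (0, 0, 0)⟩
def s2 : GR := ⟨1, (1, 0, 0)⟩
def t1 : GR := ⟨-1, (0, 0, 0)⟩
def t2 : GR := ⟨-1, (1, 0, 0)⟩
def tt : GR := ⟨0, (1, 0, 0)⟩

/-- the linear map at level zero -/
def f0 (x : V) : V := (x.1 + x.2.2, x.2.2, x.2.1)

/-- the digraph isomorphism -/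
def ff (g : GR) : GR := ⟨-g.a, act (-g.a) (f0 (act (-g.a) g.x))⟩

lemma ff_inj : Function.Injective ff := by
  intro g h e
  have e1 : g.a = h.a := by
    have := congrArg GR.a e
    exact neg_injective this
  have e2 : ∀ (a : ZMod 7) (x y : V),
      act (-a) (f0 (act (-a) x)) = act (-a) (f0 (act (-a) y)) → x = y := by decide +kernel
  have e3 := congrArg GR.x e
  simp only [ff, e1] at e3
  exact GR.ext e1 (e2 _ _ _ e3)

lemma ff_arc : ∀ (a : ZMod 7) (x : V),
    (ff (⟨a, x⟩ * s1) = ff ⟨a, x⟩ * t1 ∧ ff (⟨a, x⟩ * s2) = ff ⟨a, x⟩ * t2) ∨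
    (ff (⟨a, x⟩ * s1) = ff ⟨a, x⟩ * t2 ∧ ff (⟨a, x⟩ * s2) = ff ⟨a, x⟩ * t1) := by
  decide +kernel

lemma gen : ∀ (a : ZMod 7) (x : V), (⟨a, x⟩ : GR) =
    (s2 * s1⁻¹) ^ x.1.val * (s1 * (s2 * s1⁻¹) * s1⁻¹) ^ x.2.1.val *
      (s1 * (s1 * (s2 * s1⁻¹) * s1⁻¹) * s1⁻¹) ^ x.2.2.val * s1 ^ a.val := by
  decide +kernel

/-- The negation of the preceding statement: In every finite group, every inclusion-minimal generating set S is a CI-subset: if Cay(G,S) and Cay(G,T) are isomorphic digraphs, some group automorphism maps S onto T. -/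
theorem result :
    ¬ (∀ (G : Type) [Group G] [Finite G] (S : Set G),
      (Subgroup.closure S = ⊤ ∧ ∀ S' : Set G, S' ⊂ S → Subgroup.closure S' ≠ ⊤) →
      ∀ T : Set G,
        (∃ f : G ≃ G, ∀ x y : G, x⁻¹ * y ∈ S ↔ (f x)⁻¹ * f y ∈ T) →
        ∃ σ : MulAut G, ⇑σ '' S = T) := by
  intro hall
  have hgen : Subgroup.closure ({s1, s2} : Set GR) = ⊤ := by
    rw [Subgroup.eq_top_iff']
    intro g
    have m1 : s1 ∈ Subgroup.closure ({s1, s2} : Set GR) := Subgroup.subset_closure (Or.inl rfl)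
    have m2 : s2 ∈ Subgroup.closure ({s1, s2} : Set GR) := Subgroup.subset_closure (Or.inr rfl)
    have m3 := Subgroup.mul_mem _ m2 (Subgroup.inv_mem _ m1)
    have m4 := Subgroup.mul_mem _ (Subgroup.mul_mem _ m1 m3) (Subgroup.inv_mem _ m1)
    have m5 := Subgroup.mul_mem _ (Subgroup.mul_mem _ m1 m4) (Subgroup.inv_mem _ m1)
    have hg := gen g.a g.x
    rw [show g = ⟨g.a, g.x⟩ from rfl, hg]
    exact Subgroup.mul_mem _ (Subgroup.mul_mem _ (Subgroup.mul_mem _ (Subgroup.pow_mem _ m3 _)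
      (Subgroup.pow_mem _ m4 _)) (Subgroup.pow_mem _ m5 _)) (Subgroup.pow_mem _ m1 _)
  have hmin : ∀ S' : Set GR, S' ⊂ {s1, s2} → Subgroup.closure S' ≠ ⊤ := by
    intro S' hS' htop
    have key : ∀ s : GR, S' ⊆ {s} → False := by
      intro s hs
      have h1 : Subgroup.closure S' ≤ Subgroup.zpowers s := by
        rw [Subgroup.closure_le]
        intro y hy
        rw [hs hy]
        exact Subgroup.mem_zpowers s
      rw [htop] at h1
      obtain ⟨m, hm⟩ := Subgroup.mem_zpowers_iff.1 (h1 (Subgroup.mem_top s1))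
      obtain ⟨n, hn⟩ := Subgroup.mem_zpowers_iff.1 (h1 (Subgroup.mem_top s2))
      have hc : s1 * s2 = s2 * s1 := by
        rw [← hm, ← hn, ← zpow_add, ← zpow_add, add_comm]
      revert hc
      decide +kernel
    obtain ⟨hsub, hnot⟩ := hS'
    by_cases hs1 : s1 ∈ S'
    · have hs2 : s2 ∉ S' := by
        intro hs2
        apply hnot
        rintro y (rfl | rfl)
        · exact hs1
        · exact hs2
      refine key s1 fun y hy => ?_
      rcases hsub hy with h | h
      · exact h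
      · exact absurd (h ▸ hy) hs2
    · refine key s2 fun y hy => ?_
      rcases hsub hy with h | h
      · exact absurd (h ▸ hy) hs1
      · exact h
  have hiso : ∃ f : GR ≃ GR, ∀ x y : GR, x⁻¹ * y ∈ ({s1, s2} : Set GR) ↔
      (f x)⁻¹ * f y ∈ ({t1, t2} : Set GR) := by
    refine ⟨Equiv.ofBijective ff (Finite.injective_iff_bijective.1 ff_inj), ?_⟩
    intro g h
    have e1 : ∀ (p q : GR) (g h : GR), g⁻¹ * h ∈ ({p, q} : Set GR) ↔ h = g * p ∨ h = g * q := by
      intro p q g h
      simp only [Set.mem_insert_iff, Set.mem_singleton_iff, inv_mul_eq_iff_eq_mul]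
    rw [e1, e1]
    simp only [Equiv.ofBijective_apply]
    have e2 : ∀ y, h = y ↔ ff h = ff y := fun y => ff_inj.eq_iff.symm
    rw [e2, e2]
    rcases ff_arc g.a g.x with ⟨h1, h2⟩ | ⟨h1, h2⟩
    · have h1' : ff (g * s1) = ff g * t1 := h1
      have h2' : ff (g * s2) = ff g * t2 := h2
      rw [h1', h2']
    · have h1' : ff (g * s1) = ff g * t2 := h1
      have h2' : ff (g * s2) = ff g * t1 := h2
      rw [h1', h2']
      exact or_comm
  obtain ⟨σ, hσ⟩ := hall GR {s1, s2} ⟨hgen, hmin⟩ {t1, t2} hiso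
  have h1 : σ s1 ∈ ({t1, t2} : Set GR) := hσ ▸ Set.mem_image_of_mem σ (Or.inl rfl)
  have h2 : σ s2 ∈ ({t1, t2} : Set GR) := hσ ▸ Set.mem_image_of_mem σ (Or.inr rfl)
  have h12 : σ s1 ≠ σ s2 := fun h => absurd (σ.injective h) (by decide +kernel)
  have hrel : (s2 * s1⁻¹) * (s1 * (s2 * s1⁻¹) * s1⁻¹) *
      (s1 * s1 * s1 * (s2 * s1⁻¹) * s1⁻¹ * s1⁻¹ * s1⁻¹) = 1 := by decide +kernel
  have hrel' := congrArg σ hrel
  simp only [map_mul, map_inv, map_one] at hrel'
  rcases h1 with h1 | h1 <;> rcases h2 with h2 | h2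
  · exact h12 (h1.trans h2.symm)
  · rw [h1, h2] at hrel'
    revert hrel'
    decide +kernel
  · rw [h1, h2] at hrel'
    revert hrel'
    decide +kernel
  · exact h12 (h1.trans h2.symm)

end Pool.Agent.S0926
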