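import Pool.Statements.S0942
-- import your own Pool.Agent.* helpers here

set_option autoImplicit false
open Pool Pool.MP_c12e41_al

namespace Pool.Agent.S0942

/-- Signed shifts: `(d, e)` acts on the `n`-th module by `δ_k ↦ e n k δ_{k+d}`. -/
@[ext] structure G where
  d : ℤ
  e : ℕ → ℤ → ℤˣ

namespace G

instance : Mul G := ⟨fun g h => ⟨g.d + h.d, fun n k => h.e n k * g.e n (k + h.d)⟩⟩
instance : One G := ⟨⟨0, fun _ _ => 1⟩⟩
instance : Inv G := ⟨fun g => ⟨-g.d, fun n k => (g.e n (k - g.d))⁻¹⟩⟩

@[simp] lemma mul_d (g h : G) : (g * h).d = g.d + h.d := rfl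
@[simp] lemma mul_e (g h : G) (n : ℕ) (k : ℤ) : (g * h).e n k = h.e n k * g.e n (k + h.d) := rfl
@[simp] lemma one_d : (1 : G).d = 0 := rfl
@[simp] lemma one_e (n : ℕ) (k : ℤ) : (1 : G).e n k = 1 := rfl
@[simp] lemma inv_d (g : G) : (g⁻¹).d = -g.d := rfl
@[simp] lemma inv_e (g : G) (n : ℕ) (k : ℤ) : (g⁻¹).e n k = (g.e n (k - g.d))⁻¹ := rfl

lemma ext' {g h : G} (hd : g.d = h.d) (he : ∀ n k, g.e n k = h.e n k) : g = h := by
  ext1
  · exact hd
  · funext n k; exact he n k

instance : Group G := Group.ofLeftAxioms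
  (by
    intro x y z
    apply ext'
    · simp [add_assoc]
    · intro n k
      simp only [mul_e, mul_d]
      rw [mul_assoc, add_assoc, add_comm z.d y.d])
  (by
    intro x
    apply ext'
    · simp
    · intro n k; simp)
  (by
    intro x
    apply ext'
    · simp
    · intro n k
      simp)

end G

open MonoidAlgebra

/-- the module `V` of finitely supported functions on `ℤ` -/
abbrev V := ℤ →₀ ℚ

/-- action of a group element -/
noncomputable def act (n : ℕ) (g : G) : Module.End ℚ V :=
  Finsupp.linearCombination ℚ (fun k : ℤ => Finsupp.single (k + g.d) (((g.e n k : ℤˣ) : ℤ) : ℚ))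

lemma act_single (n : ℕ) (g : G) (k : ℤ) (c : ℚ) :
    act n g (Finsupp.single k c) = Finsupp.single (k + g.d) (c * (((g.e n k : ℤˣ) : ℤ) : ℚ)) := by
  simp [act]

noncomputable def rep (n : ℕ) : G →* Module.End ℚ V where
  toFun := act n
  map_one' := by
    apply Finsupp.lhom_ext
    intro k c
    rw [act_single]
    simp
  map_mul' := by
    intro g h
    apply Finsupp.lhom_ext
    intro k c
    rw [Module.End.mul_apply, act_single, act_single, act_single]
    congr 1
    · simp only [G.mul_d]; ring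
    · simp only [G.mul_e]
      push_cast
      ring

noncomputable def R (n : ℕ) : MonoidAlgebra ℚ G →ₐ[ℚ] Module.End ℚ V :=
  MonoidAlgebra.lift ℚ (Module.End ℚ V) G (rep n)

lemma R_of (n : ℕ) (g : G) (k : ℤ) :
    R n (MonoidAlgebra.of ℚ G g) (Finsupp.single k 1)
      = Finsupp.single (k + g.d) (((g.e n k : ℤˣ) : ℤ) : ℚ) := by
  rw [R, MonoidAlgebra.lift_of]
  change act n g _ = _
  rw [act_single, one_mul]

/-- the support of `β δ_j` -/
lemma R_zero (n : ℕ) (β : MonoidAlgebra ℚ G) (M : ℤ) (hM : ∀ g ∈ β.coeff.support, |g.d| ≤ M)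
    (i j : ℤ) (hij : M < |i - j|) : (R n β (Finsupp.single j 1)) i = 0 := by
  rw [R, MonoidAlgebra.lift_apply, Finsupp.sum, LinearMap.sum_apply, Finsupp.finsetSum_apply]
  apply Finset.sum_eq_zero
  intro g hg
  have h1 := hM g hg
  rw [LinearMap.smul_apply, Finsupp.smul_apply]
  have h2 : (rep n g) (Finsupp.single j 1) = Finsupp.single (j + g.d) (((g.e n j : ℤˣ) : ℤ) : ℚ) := by
    change act n g _ = _
    rw [act_single, one_mul]
  rw [h2, Finsupp.single_apply, if_neg, smul_zero]
  rintro rfl
  have : j + g.d - j = g.d := by ring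
  rw [this] at hij
  omega

/-- the shift -/
def t : G := ⟨1, fun _ _ => 1⟩

/-- the involution -/
def a : G := ⟨0, fun n k => if k = -1 ∨ k = n then -1 else 1⟩

/-- a diagonal element -/
def diag (k : ℤ) : G := ⟨0, fun n j => a.e n (j - k)⟩

lemma t_pow (k : ℕ) : t ^ k = ⟨k, fun _ _ => 1⟩ := by
  induction k with
  | zero => rfl
  | succ k ih =>
    rw [pow_succ, ih]
    apply G.ext'
    · simp [t]
    · intro n j; simp [t]

lemma a_mul_a : a * a = 1 := by
  apply G.ext'
  · simp [a]
  · intro n k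
    simp only [a, G.mul_e, G.one_e, add_zero]
    split_ifs <;> simp

lemma a_comm (k : ℤ) : a * diag k = diag k * a := by
  apply G.ext'
  · simp [a, diag]
  · intro n j
    simp only [G.mul_e]
    simp only [a, diag, add_zero]
    exact mul_comm _ _

lemma diag_t (k : ℕ) : diag k * t ^ k = t ^ k * a := by
  rw [t_pow]
  apply G.ext'
  · simp [a, diag]
  · intro n j
    simp only [G.mul_e]
    simp [a, diag]

/-- the element `α` -/
noncomputable def α : MonoidAlgebra ℚ G :=
  (1 - MonoidAlgebra.of ℚ G t) * (1 + MonoidAlgebra.of ℚ G a)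

noncomputable def β (k : ℕ) : MonoidAlgebra ℚ G :=
  (1 - MonoidAlgebra.of ℚ G a) * (1 - MonoidAlgebra.of ℚ G (diag k)) *
    ∑ i ∈ Finset.range k, (MonoidAlgebra.of ℚ G t) ^ i

lemma β_α (k : ℕ) : β k * α = 0 := by
  have h1 : MonoidAlgebra.of ℚ G a * MonoidAlgebra.of ℚ G a = 1 := by
    rw [← map_mul, a_mul_a, map_one]
  have h2 : MonoidAlgebra.of ℚ G a * MonoidAlgebra.of ℚ G (diag k)
      = MonoidAlgebra.of ℚ G (diag k) * MonoidAlgebra.of ℚ G a := by
    rw [← map_mul, a_comm, map_mul]
  have h3 : MonoidAlgebra.of ℚ G (diag k) * MonoidAlgebra.of ℚ G t ^ k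
      = MonoidAlgebra.of ℚ G t ^ k * MonoidAlgebra.of ℚ G a := by
    rw [← map_pow, ← map_mul, diag_t, map_mul]
  rw [β, α, mul_assoc, ← mul_assoc (∑ i ∈ Finset.range k, _), geom_sum_mul_neg]
  set A := MonoidAlgebra.of ℚ G a
  set D := MonoidAlgebra.of ℚ G (diag k)
  set T := MonoidAlgebra.of ℚ G t ^ k
  have h4 : (1 - A) * (1 + A) = 0 := by
    rw [sub_mul, mul_add, mul_add, h1]
    simp
    abel
  have h6 : (1 - A) * (1 - D) = (1 - D) * (1 - A) := by
    have : (1 - A) * (1 - D) = 1 - A - D + A * D := by noncomm_ring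
    rw [this, h2]
    noncomm_ring
  have h7 : (1 - D) * T = T * (1 - A) := by
    rw [sub_mul, mul_sub, h3]
    simp
  calc (1 - A) * (1 - D) * ((1 - T) * (1 + A))
      = (1 - A) * (1 - D) * (1 + A) - (1 - A) * ((1 - D) * T) * (1 + A) := by noncomm_ring
    _ = (1 - D) * ((1 - A) * (1 + A)) - (1 - A) * T * ((1 - A) * (1 + A)) := by
        rw [h6, h7]; noncomm_ring
    _ = 0 := by rw [h4]; simp

lemma R_α (n : ℕ) (k : ℤ) (h0 : 0 ≤ k) (hk : k < n) :
    R n α (Finsupp.single k 1) = (2 : ℚ) • (Finsupp.single k 1 - Finsupp.single (k + 1) 1) := by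
  have e1 : R n (1 + MonoidAlgebra.of ℚ G a) (Finsupp.single k 1) = (2 : ℚ) • Finsupp.single k 1 := by
    rw [map_add, map_one, LinearMap.add_apply, R_of, Module.End.one_apply]
    have : a.e n k = 1 := by
      simp only [a]
      rw [if_neg (by omega)]
    rw [this]
    simp [a]
    rw [← Finsupp.single_add]
    norm_num
  rw [α, map_mul, Module.End.mul_apply, e1, map_smul, map_sub, map_one, LinearMap.sub_apply, R_of,
    Module.End.one_apply]
  simp [t]

lemma R_sum (n k : ℕ) : ∀ j : ℤ, R n (∑ i ∈ Finset.range k, (MonoidAlgebra.of ℚ G t) ^ i)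
    (Finsupp.single j 1) = ∑ i ∈ Finset.range k, Finsupp.single (j + i) 1 := by
  intro j
  rw [map_sum, LinearMap.sum_apply]
  apply Finset.sum_congr rfl
  intro i _
  rw [← map_pow, R_of, t_pow]
  simp

lemma R_β (n : ℕ) : R n (β (n + 1)) (Finsupp.single 0 1) n = 4 := by
  rw [β, map_mul, Module.End.mul_apply, R_sum, map_mul, Module.End.mul_apply, map_sum, map_sum,
    Finsupp.finsetSum_apply]
  have key : ∀ i ∈ Finset.range (n + 1),
      (R n (1 - MonoidAlgebra.of ℚ G a) (R n (1 - MonoidAlgebra.of ℚ G (diag ((n + 1 : ℕ) : ℤ)))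
        (Finsupp.single (0 + (i : ℤ)) 1))) n = if i = n then 4 else 0 := by
    intro i hi
    have hi' : i < n + 1 := Finset.mem_range.mp hi
    have e1 : R n (1 - MonoidAlgebra.of ℚ G (diag ((n + 1 : ℕ) : ℤ))) (Finsupp.single (0 + (i : ℤ)) 1)
        = (1 - ((a.e n ((i : ℤ) - (n + 1)) : ℤˣ) : ℤ) : ℚ) • Finsupp.single (i : ℤ) 1 := by
      rw [map_sub, map_one, LinearMap.sub_apply, R_of, Module.End.one_apply]
      simp [diag, sub_smul]
    have e2 : R n (1 - MonoidAlgebra.of ℚ G a) (Finsupp.single (i : ℤ) 1)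
        = (1 - ((a.e n i : ℤˣ) : ℤ) : ℚ) • Finsupp.single (i : ℤ) 1 := by
      rw [map_sub, map_one, LinearMap.sub_apply, R_of, Module.End.one_apply]
      have : a.d = 0 := rfl
      rw [this, add_zero]
      simp [sub_smul]
    rw [e1, map_smul, e2]
    by_cases h : i = n
    · subst h
      rw [if_pos rfl]
      simp [a]
      norm_num
    · rw [if_neg h]
      simp [h]
  rw [Finset.sum_congr rfl key]
  simp

/-- The negation of the preceding statement: For every field K, every group G and every element a of the group algebra K[G], the set of x with x·a = 0 equals the left ideal generated by some finite set of elements of K[G]. -/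
theorem result :
    ¬ (∀ (K : Type) [Field K] (G : Type) [Group G] (a : MonoidAlgebra K G),
      ∃ s : Finset (MonoidAlgebra K G),
        ((Submodule.span (MonoidAlgebra K G) (s : Set (MonoidAlgebra K G)) :
            Set (MonoidAlgebra K G)) = {x : MonoidAlgebra K G | x * a = 0})) := by
  intro h
  obtain ⟨s, hs⟩ := h ℚ G α
  -- bound on the degrees
  obtain ⟨M, hM⟩ : ∃ M : ℕ, ∀ b ∈ s, ∀ g ∈ b.coeff.support, |g.d| ≤ M := by
    classical
    let T : Finset ℕ := s.biUnion fun b => b.coeff.support.image fun g => g.d.natAbs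
    refine ⟨T.sup id, ?_⟩
    intro b hb g hg
    have h1 : g.d.natAbs ∈ T := Finset.mem_biUnion.mpr ⟨b, hb, Finset.mem_image_of_mem _ hg⟩
    have h2 : g.d.natAbs ≤ T.sup id := Finset.le_sup (f := id) h1
    rw [Int.abs_eq_natAbs]
    exact_mod_cast h2
  set n : ℕ := 2 * M + 1 with hn
  have hmem : ∀ x : MonoidAlgebra ℚ G, x ∈ Submodule.span (MonoidAlgebra ℚ G)
      (s : Set (MonoidAlgebra ℚ G)) ↔ x * α = 0 := by
    intro x
    have : x ∈ (Submodule.span (MonoidAlgebra ℚ G) (s : Set (MonoidAlgebra ℚ G)) :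
            Set (MonoidAlgebra ℚ G)) ↔ x ∈ {x : MonoidAlgebra ℚ G | x * α = 0} := by rw [hs]
    exact this
  have hkill : ∀ b ∈ s, R n b (Finsupp.single 0 1) = 0 := by
    intro b hb
    have hb0 : b * α = 0 := (hmem b).mp (Submodule.subset_span hb)
    have hstep : ∀ k : ℤ, 0 ≤ k → k < n → R n b (Finsupp.single (k + 1) 1)
        = R n b (Finsupp.single k 1) := by
      intro k h0 hk
      have h1 : R n (b * α) (Finsupp.single k 1) = 0 := by rw [hb0, map_zero]; rfl
      rw [map_mul, Module.End.mul_apply, R_α n k h0 hk, map_smul, map_sub] at h1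
      have h2 := (smul_eq_zero.mp h1).resolve_left (by norm_num)
      exact (sub_eq_zero.mp h2).symm
    have hall : ∀ k : ℕ, k ≤ n → R n b (Finsupp.single (k : ℤ) 1) = R n b (Finsupp.single 0 1) := by
      intro k
      induction k with
      | zero => intro _; simp
      | succ k ih =>
        intro hk
        rw [← ih (by omega), ← hstep k (by omega) (by omega)]
        push_cast
        rfl
    have hn' := hall n le_rfl
    ext i
    by_cases hi : |i| ≤ M
    · rw [← hn']
      rw [R_zero n b M (hM b hb) i n]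
      · simp
      · have := abs_le.mp hi
        rw [lt_abs]
        right
        omega
    · rw [R_zero n b M (hM b hb) i 0]
      · simp
      · rw [sub_zero]; omega
  have hall : ∀ x ∈ Submodule.span (MonoidAlgebra ℚ G) (s : Set (MonoidAlgebra ℚ G)),
      R n x (Finsupp.single 0 1) = 0 := by
    intro x hx
    induction hx using Submodule.span_induction with
    | mem x hx => exact hkill x hx
    | zero => rw [map_zero]; rfl
    | add x y _ _ hx hy => rw [map_add, LinearMap.add_apply, hx, hy, add_zero]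
    | smul c x _ hx => rw [smul_eq_mul, map_mul, Module.End.mul_apply, hx, map_zero]
  have hβ := hall (β (n + 1)) ((hmem _).mpr (β_α _))
  have h4 := R_β n
  rw [hβ] at h4
  simp at h4

end Pool.Agent.S0942
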