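import Pool.Statements.S0976
import Pool.Agent.H16.EA.E
import Pool.Agent.H16.EA.A
import Pool.Agent.H16.EA.B

set_option autoImplicit false
open Pool Pool.MP_cb8b78_al

namespace Pool.Agent.S0976

/-- The negation of the preceding statement: Every finitely generated elementary amenable group that is not virtually nilpotent has a subgroup H and a normal subgroup N of H with H/N finitely generated, metabelian, and not virtually nilpotent. -/
theorem result :
    ¬ (∀ (G : Type) [Group G] [Group.FG G],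
    (∀ P : ∀ (H : Type) [Group H], Prop,
      (∀ (H : Type) [Group H] [Finite H], P H) →
      (∀ (H : Type) [CommGroup H], P H) →
      (∀ (H K : Type) [Group H] [Group K], Nonempty (H ≃* K) → P H → P K) →
      (∀ (H : Type) [Group H] (K : Subgroup H), P H → P K) →
      (∀ (H : Type) [Group H] (N : Subgroup H) [N.Normal], P H → P (H ⧸ N)) →
      (∀ (H : Type) [Group H] (N : Subgroup H) [N.Normal], P N → P (H ⧸ N) → P H) →
      (∀ (H : Type) [Group H] (S : Set (Subgroup H)),
        DirectedOn (fun A B => A ≤ B) S → sSup S = ⊤ → (∀ K ∈ S, P K) → P H) →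
      P G) →
    (¬ ∃ K : Subgroup G, K.FiniteIndex ∧ Group.IsNilpotent K) →
    ∃ (H : Subgroup G) (N : Subgroup H) (_ : N.Normal),
      Group.FG (H ⧸ N) ∧ derivedSeries (H ⧸ N) 2 = ⊥ ∧
      ¬ ∃ K : Subgroup (H ⧸ N), K.FiniteIndex ∧ Group.IsNilpotent K) := by
  intro h
  obtain ⟨H, N, hN, hfg, hmet, hnv⟩ := h H16.EA.GG
    (fun P h1 h2 _ _ _ h6 h7 => H16.EA.elem P h1 h2 h6 h7)
    (H16.EA.not_vnil H16.EA.gx H16.EA.gt H16.EA.xs_not_mem)
  exact hnv (H16.EA.sections H16.EA.LL H16.EA.LL_tors H16.EA.comm_le H16.EA.NN_exists H N hfg hmet)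

end Pool.Agent.S0976
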