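import Pool.Statements.S1019
-- import your own Pool.Agent.* helpers here

set_option autoImplicit false
open Pool Pool.MP_d4adc1_al

namespace Pool.Agent.S1019

/-- The group `⟨x, y, t | [x,y] = 1, t x t⁻¹ = y, t y t⁻¹ = x⟩`; `(a,b,n)` is `x^a y^b t^n`. -/
@[ext] structure Gam where
  a : ℤ
  b : ℤ
  n : ℤ

namespace Gam

instance : One Gam := ⟨⟨0, 0, 0⟩⟩
instance : Mul Gam := ⟨fun g h => ⟨g.a + (if g.n % 2 = 0 then h.a else h.b),
  g.b + (if g.n % 2 = 0 then h.b else h.a), g.n + h.n⟩⟩
instance : Inv Gam := ⟨fun g => ⟨-(if g.n % 2 = 0 then g.a else g.b),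
  -(if g.n % 2 = 0 then g.b else g.a), -g.n⟩⟩

@[simp] theorem one_a : (1 : Gam).a = 0 := rfl
@[simp] theorem one_b : (1 : Gam).b = 0 := rfl
@[simp] theorem one_n : (1 : Gam).n = 0 := rfl
@[simp] theorem mul_a (g h : Gam) : (g * h).a = g.a + (if g.n % 2 = 0 then h.a else h.b) := rfl
@[simp] theorem mul_b (g h : Gam) : (g * h).b = g.b + (if g.n % 2 = 0 then h.b else h.a) := rfl
@[simp] theorem mul_n (g h : Gam) : (g * h).n = g.n + h.n := rfl
@[simp] theorem inv_a (g : Gam) : (g⁻¹).a = -(if g.n % 2 = 0 then g.a else g.b) := rfl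
@[simp] theorem inv_b (g : Gam) : (g⁻¹).b = -(if g.n % 2 = 0 then g.b else g.a) := rfl
@[simp] theorem inv_n (g : Gam) : (g⁻¹).n = -g.n := rfl

instance : Group Gam := Group.ofLeftAxioms
  (by
    intro g h k
    ext
    · simp only [mul_a, mul_b, mul_n]; split_ifs <;> omega
    · simp only [mul_a, mul_b, mul_n]; split_ifs <;> omega
    · simp only [mul_n]; omega)
  (by intro g; ext <;> simp)
  (by
    intro g
    ext
    · simp only [mul_a, inv_a, inv_n, one_a]; split_ifs <;> omega
    · simp only [mul_b, inv_b, inv_n, one_b]; split_ifs <;> omega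
    · simp)

/-- the lattice order -/
def le (g h : Gam) : Prop := g.n < h.n ∨ (g.n = h.n ∧ g.a ≤ h.a ∧ g.b ≤ h.b)

theorem le_refl (g : Gam) : le g g := by unfold le; omega
theorem le_trans (g h k : Gam) : le g h → le h k → le g k := by unfold le; omega
theorem le_antisymm (g h : Gam) : le g h → le h g → g = h := by
  unfold le; intro h1 h2; ext <;> omega

def sup (g h : Gam) : Gam :=
  ⟨if g.n < h.n then h.a else if h.n < g.n then g.a else max g.a h.a,
   if g.n < h.n then h.b else if h.n < g.n then g.b else max g.b h.b, max g.n h.n⟩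
def inf (g h : Gam) : Gam :=
  ⟨if g.n < h.n then g.a else if h.n < g.n then h.a else min g.a h.a,
   if g.n < h.n then g.b else if h.n < g.n then h.b else min g.b h.b, min g.n h.n⟩

theorem le_sup_left (g h : Gam) : le g (sup g h) := by
  simp only [le, sup]; split_ifs <;> omega
theorem le_sup_right (g h : Gam) : le h (sup g h) := by
  simp only [le, sup]; split_ifs <;> omega
theorem sup_le (g h k : Gam) : le g k → le h k → le (sup g h) k := by
  simp only [le, sup]; split_ifs <;> omega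
theorem inf_le_left (g h : Gam) : le (inf g h) g := by
  simp only [le, inf]; split_ifs <;> omega
theorem inf_le_right (g h : Gam) : le (inf g h) h := by
  simp only [le, inf]; split_ifs <;> omega
theorem le_inf (g h k : Gam) : le g h → le g k → le g (inf h k) := by
  simp only [le, inf]; split_ifs <;> omega

theorem le_mul (g h k : Gam) (hle : le g h) : le (k * g) (k * h) ∧ le (g * k) (h * k) := by
  unfold le at hle ⊢
  simp only [mul_a, mul_b, mul_n]
  constructor
  · split_ifs <;> omega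
  · rcases hle with h1 | ⟨h1, h2, h3⟩
    · omega
    · rw [h1]; split_ifs <;> omega

end Gam

abbrev GG : Fin 2 → Type := fun _ => Multiplicative (ℤ ×ₗ ℤ)

/-- element `(m,i)`, i.e. `t^m c^i` (resp. `u^m c^i`) -/
def el (m i : ℤ) : Multiplicative (ℤ ×ₗ ℤ) := Multiplicative.ofAdd (toLex (m, i))

theorem el_mul (m i m' i' : ℤ) : el m i * el m' i' = el (m + m') (i + i') := rfl
theorem el_one : el 0 0 = 1 := rfl
theorem el_surj (g : Multiplicative (ℤ ×ₗ ℤ)) :
    g = el (ofLex (Multiplicative.toAdd g)).1 (ofLex (Multiplicative.toAdd g)).2 := rfl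
theorem el_le (m i m' i' : ℤ) : el m i ≤ el m' i' ↔ m < m' ∨ (m = m' ∧ i ≤ i') := by
  show toLex (m, i) ≤ toLex (m', i') ↔ _
  exact Prod.Lex.toLex_le_toLex

/-- homs out of `ℤ²` from an explicit formula -/
def mkH {K : Type} [Monoid K] (F : ℤ → ℤ → K) (h1 : F 0 0 = 1)
    (h : ∀ m i m' i', F (m + m') (i + i') = F m i * F m' i') : Multiplicative (ℤ ×ₗ ℤ) →* K where
  toFun g := F (ofLex (Multiplicative.toAdd g)).1 (ofLex (Multiplicative.toAdd g)).2
  map_one' := h1
  map_mul' _ _ := h _ _ _ _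

theorem mkH_el {K : Type} [Monoid K] (F : ℤ → ℤ → K) (h1 : F 0 0 = 1)
    (h : ∀ m i m' i', F (m + m') (i + i') = F m i * F m' i') (m i : ℤ) :
    mkH F h1 h (el m i) = F m i := rfl

/-- the two embeddings of the amalgamated subgroup `A = ℤ²` with basis `t² = u² c⁻¹` and `c` -/
def φ : ∀ i : Fin 2, Multiplicative (ℤ ×ₗ ℤ) →* GG i
  | 0 => mkH (fun j i => el (2 * j) i) rfl (by
      intro m i m' i'; rw [el_mul]; congr 1; ring)
  | 1 => mkH (fun j i => el (2 * j) (i - j)) rfl (by
      intro m i m' i'; rw [el_mul]; congr 1 <;> ring)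

theorem φ0 (j i : ℤ) : φ 0 (el j i) = el (2 * j) i := rfl
theorem φ1 (j i : ℤ) : φ 1 (el j i) = el (2 * j) (i - j) := rfl

abbrev P := Monoid.PushoutI φ

/-- the maps to `Gam` -/
def f : ∀ i : Fin 2, GG i →* Gam
  | 0 => mkH (fun m i => ⟨i, i, m⟩) rfl (by
      intro m i m' i'
      ext
      · simp only [Gam.mul_a]; split_ifs <;> omega
      · simp only [Gam.mul_b]; split_ifs <;> omega
      · simp only [Gam.mul_n])
  | 1 => mkH (fun m i => ⟨i + m / 2, i + (m + 1) / 2, m⟩) rfl (by
      intro m i m' i'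
      ext
      · simp only [Gam.mul_a]; split_ifs <;> omega
      · simp only [Gam.mul_b]; split_ifs <;> omega
      · simp only [Gam.mul_n])

theorem f0 (m i : ℤ) : f 0 (el m i) = ⟨i, i, m⟩ := rfl
theorem f1 (m i : ℤ) : f 1 (el m i) = ⟨i + m / 2, i + (m + 1) / 2, m⟩ := rfl

def kk : Multiplicative (ℤ ×ₗ ℤ) →* Gam := (f 0).comp (φ 0)

theorem hk (i : Fin 2) : (f i).comp (φ i) = kk := by
  fin_cases i
  · rfl
  · apply MonoidHom.ext
    intro g
    rw [el_surj g]
    generalize (ofLex (Multiplicative.toAdd g)).1 = j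
    generalize (ofLex (Multiplicative.toAdd g)).2 = i
    show f 1 (φ 1 (el j i)) = f 0 (φ 0 (el j i))
    rw [φ0, φ1, f0, f1]
    ext
    · show i - j + 2 * j / 2 = i
      omega
    · show i - j + (2 * j + 1) / 2 = i
      omega
    · rfl

/-- the map from the amalgam to `Gam` -/
def e : P →* Gam := Monoid.PushoutI.lift f kk hk

theorem e_of (i : Fin 2) (g : GG i) : e (Monoid.PushoutI.of i g) = f i g :=
  Monoid.PushoutI.lift_of f kk hk g

def c : P := Monoid.PushoutI.of (φ := φ) 0 (el 0 1)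
def t : P := Monoid.PushoutI.of (φ := φ) 0 (el 1 0)
def u : P := Monoid.PushoutI.of (φ := φ) 1 (el 1 0)

theorem c_eq : c = Monoid.PushoutI.of (φ := φ) 1 (el 0 1) := by
  have h0 : Monoid.PushoutI.of (φ := φ) 0 (φ 0 (el 0 1)) = Monoid.PushoutI.base φ (el 0 1) :=
    Monoid.PushoutI.of_apply_eq_base φ 0 _
  have h1 : Monoid.PushoutI.of (φ := φ) 1 (φ 1 (el 0 1)) = Monoid.PushoutI.base φ (el 0 1) :=
    Monoid.PushoutI.of_apply_eq_base φ 1 _
  exact h0.trans h1.symm

theorem c_t : c * t = t * c := by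
  unfold c t
  rw [← map_mul, ← map_mul, mul_comm]

theorem c_u : c * u = u * c := by
  rw [c_eq]
  unfold u
  rw [← map_mul, ← map_mul, mul_comm]

theorem u_sq : u * u = t * t * c := by
  have h0 : Monoid.PushoutI.of (φ := φ) 0 (φ 0 (el 1 0)) = Monoid.PushoutI.base φ (el 1 0) :=
    Monoid.PushoutI.of_apply_eq_base φ 0 _
  have h1 : Monoid.PushoutI.of (φ := φ) 1 (φ 1 (el 1 0)) = Monoid.PushoutI.base φ (el 1 0) :=
    Monoid.PushoutI.of_apply_eq_base φ 1 _
  have h2 : t * t = Monoid.PushoutI.of (φ := φ) 0 (φ 0 (el 1 0)) := by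
    unfold t; rw [← map_mul]; rfl
  have h3 : u * u = Monoid.PushoutI.of (φ := φ) 1 (φ 1 (el 1 0)) * c := by
    rw [c_eq]
    unfold u; rw [← map_mul, ← map_mul]; rfl
  rw [h3, h2, h0, h1]

def x : P := t⁻¹ * u
def y : P := u * t⁻¹

theorem tt_u : Commute (t * t) u := by
  have h : t * t = u * u * c⁻¹ := by rw [u_sq, mul_inv_cancel_right]
  rw [h]
  have h1 : Commute (u * u) u := (Commute.refl u).mul_left (Commute.refl u)
  exact h1.mul_left (Commute.inv_left c_u)

theorem xy : x * y = c := by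
  unfold x y
  have h : t⁻¹ * u * (u * t⁻¹) = t⁻¹ * (u * u) * t⁻¹ := by group
  have h2 : t⁻¹ * (t * t * c) * t⁻¹ = t * c * t⁻¹ := by group
  rw [h, u_sq, h2, ← c_t, mul_inv_cancel_right]

theorem yx : y * x = c := by
  unfold x y
  have h : u * t⁻¹ * (t⁻¹ * u) = u * (t * t)⁻¹ * u := by group
  rw [h]
  have h2 : u * (t * t)⁻¹ = (t * t)⁻¹ * u := (tt_u.inv_left).symm.eq
  rw [h2, mul_assoc, u_sq]; group

theorem comm_xy : Commute x y := by
  show x * y = y * x
  rw [xy, yx]

theorem tx : SemiconjBy t x y := by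
  show t * x = y * t
  unfold x y; group

theorem ty : SemiconjBy t y x := by
  show t * y = x * t
  unfold x y
  have h : t * (u * t⁻¹) = t⁻¹ * ((t * t) * u) * t⁻¹ := by group
  rw [h, tt_u.eq]; group

theorem semi (n a b : ℤ) : SemiconjBy (t ^ n) (x ^ a * y ^ b)
    (x ^ (if n % 2 = 0 then a else b) * y ^ (if n % 2 = 0 then b else a)) := by
  have h2x : Commute (t ^ (2 : ℤ)) x := by
    have : t ^ (2 : ℤ) = t * t := by rw [zpow_ofNat, pow_two]
    rw [this]
    exact SemiconjBy.mul_left ty tx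
  have h2y : Commute (t ^ (2 : ℤ)) y := by
    have : t ^ (2 : ℤ) = t * t := by rw [zpow_ofNat, pow_two]
    rw [this]
    exact SemiconjBy.mul_left tx ty
  have hk : ∀ k : ℤ, Commute (t ^ (2 * k)) (x ^ a * y ^ b) := by
    intro k
    rw [zpow_mul]
    exact ((h2x.zpow_zpow k a)).mul_right (h2y.zpow_zpow k b)
  split_ifs with h
  · obtain ⟨k, rfl⟩ : ∃ k, n = 2 * k := ⟨n / 2, by omega⟩
    exact hk k
  · obtain ⟨k, rfl⟩ : ∃ k, n = 1 + 2 * k := ⟨n / 2, by omega⟩
    rw [zpow_add, zpow_one]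
    have h1 : SemiconjBy t (x ^ a * y ^ b) (x ^ b * y ^ a) := by
      have h3 := (tx.zpow_right a).mul_right (ty.zpow_right b)
      have h4 : y ^ a * x ^ b = x ^ b * y ^ a := (comm_xy.symm.zpow_zpow a b).eq
      rw [h4] at h3
      exact h3
    exact SemiconjBy.mul_left h1 (hk k)

/-- the inverse map -/
def F : Gam →* P := MonoidHom.mk' (fun g => x ^ g.a * y ^ g.b * t ^ g.n) (by
  intro g h
  show x ^ (g * h).a * y ^ (g * h).b * t ^ (g * h).n =
    (x ^ g.a * y ^ g.b * t ^ g.n) * (x ^ h.a * y ^ h.b * t ^ h.n)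
  have h1 := (semi g.n h.a h.b).eq
  have h2 : (x ^ g.a * y ^ g.b * t ^ g.n) * (x ^ h.a * y ^ h.b * t ^ h.n) =
      x ^ g.a * y ^ g.b * (t ^ g.n * (x ^ h.a * y ^ h.b)) * t ^ h.n := by group
  rw [h2, h1, Gam.mul_a, Gam.mul_b, Gam.mul_n]
  generalize (if g.n % 2 = 0 then h.a else h.b) = p
  generalize (if g.n % 2 = 0 then h.b else h.a) = q
  have h3 : x ^ g.a * y ^ g.b * (x ^ p * y ^ q * t ^ g.n) * t ^ h.n =
    x ^ g.a * (y ^ g.b * x ^ p) * y ^ q * t ^ g.n * t ^ h.n := by group
  have h4 : y ^ g.b * x ^ p = x ^ p * y ^ g.b := (comm_xy.symm.zpow_zpow g.b p).eq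
  rw [h3, h4, zpow_add, zpow_add, zpow_add]
  group)

theorem F_apply (g : Gam) : F g = x ^ g.a * y ^ g.b * t ^ g.n := rfl

theorem el_pow (m i : ℤ) : el m i = el 1 0 ^ m * el 0 1 ^ i := by
  apply Multiplicative.toAdd.injective
  rw [toAdd_mul, toAdd_zpow, toAdd_zpow]
  apply ofLex.injective
  ext
  · show m = m • (1 : ℤ) + i • (0 : ℤ)
    simp
  · show i = m • (0 : ℤ) + i • (1 : ℤ)
    simp

theorem Fe (p : P) : F (e p) = p := by
  have hh : F.comp e = MonoidHom.id P := by
    apply Monoid.PushoutI.hom_ext_nonempty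
    intro i
    have ext2 : ∀ {K : Type} [Group K] (α β : Multiplicative (ℤ ×ₗ ℤ) →* K),
        α (el 1 0) = β (el 1 0) → α (el 0 1) = β (el 0 1) → α = β := by
      intro K _ α β h1 h2
      apply MonoidHom.ext
      intro g
      rw [el_surj g, el_pow, map_mul, map_mul, map_zpow, map_zpow, map_zpow, map_zpow, h1, h2]
    apply ext2
    · fin_cases i
      · show F (e (Monoid.PushoutI.of (φ := φ) 0 (el 1 0))) = t
        rw [e_of, f0, F_apply]
        simp
      · show F (e (Monoid.PushoutI.of (φ := φ) 1 (el 1 0))) = u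
        rw [e_of, f1, F_apply]
        show x ^ ((0 : ℤ) + 1 / 2) * y ^ ((0 : ℤ) + (1 + 1) / 2) * t ^ (1 : ℤ) = u
        norm_num
        unfold y; group
    · fin_cases i
      · show F (e (Monoid.PushoutI.of (φ := φ) 0 (el 0 1))) = c
        rw [e_of, f0, F_apply]
        show x ^ (1 : ℤ) * y ^ (1 : ℤ) * t ^ (0 : ℤ) = c
        rw [zpow_one, zpow_one, zpow_zero, mul_one, xy]
      · show F (e (Monoid.PushoutI.of (φ := φ) 1 (el 0 1))) =
          Monoid.PushoutI.of (φ := φ) 1 (el 0 1)
        rw [e_of, f1, F_apply, ← c_eq]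
        show x ^ ((1 : ℤ) + 0 / 2) * y ^ ((1 : ℤ) + (0 + 1) / 2) * t ^ (0 : ℤ) = c
        norm_num
        exact xy
  exact DFunLike.congr_fun hh p

theorem e_x : e x = ⟨1, 0, 0⟩ := by
  unfold x t u
  rw [map_mul, map_inv, e_of, e_of, f0, f1]
  rfl

theorem e_y : e y = ⟨0, 1, 0⟩ := by
  unfold y t u
  rw [map_mul, map_inv, e_of, e_of, f0, f1]
  rfl

theorem eF (g : Gam) : e (F g) = g := by
  have hx : ∀ a : ℤ, (⟨1, 0, 0⟩ : Gam) ^ a = ⟨a, 0, 0⟩ := by
    intro a
    let X : Multiplicative ℤ →* Gam :=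
      { toFun := fun a => ⟨Multiplicative.toAdd a, 0, 0⟩
        map_one' := rfl
        map_mul' := fun a b => by ext <;> simp }
    have := map_zpow X (Multiplicative.ofAdd 1) a
    rw [← Int.ofAdd_mul] at this
    have h2 : X (Multiplicative.ofAdd (1 * a)) = ⟨1 * a, 0, 0⟩ := rfl
    rw [h2, one_mul] at this
    exact this.symm
  have hy : ∀ a : ℤ, (⟨0, 1, 0⟩ : Gam) ^ a = ⟨0, a, 0⟩ := by
    intro a
    let X : Multiplicative ℤ →* Gam :=
      { toFun := fun a => ⟨0, Multiplicative.toAdd a, 0⟩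
        map_one' := rfl
        map_mul' := fun a b => by ext <;> simp }
    have := map_zpow X (Multiplicative.ofAdd 1) a
    rw [← Int.ofAdd_mul] at this
    have h2 : X (Multiplicative.ofAdd (1 * a)) = ⟨0, 1 * a, 0⟩ := rfl
    rw [h2, one_mul] at this
    exact this.symm
  have ht : ∀ a : ℤ, (⟨0, 0, 1⟩ : Gam) ^ a = ⟨0, 0, a⟩ := by
    intro a
    let X : Multiplicative ℤ →* Gam :=
      { toFun := fun a => ⟨0, 0, Multiplicative.toAdd a⟩
        map_one' := rfl
        map_mul' := fun a b => by ext <;> simp }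
    have := map_zpow X (Multiplicative.ofAdd 1) a
    rw [← Int.ofAdd_mul] at this
    have h2 : X (Multiplicative.ofAdd (1 * a)) = ⟨0, 0, 1 * a⟩ := rfl
    rw [h2, one_mul] at this
    exact this.symm
  have et : e t = ⟨0, 0, 1⟩ := by
    unfold t; rw [e_of, f0]
  rw [F_apply, map_mul, map_mul, map_zpow, map_zpow, map_zpow, e_x, e_y, et, hx, hy, ht]
  ext <;> simp

theorem e_inj {p q : P} (h : e p = e q) : p = q := by
  rw [← Fe p, ← Fe q, h]

/-- There exist two bi-ordered groups and a common subgroup embedded in both with the same induced order, whose amalgamated free product admits a bi-invariant lattice order but no bi-invariant total order. -/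
theorem result :
    ∃ (G : Fin 2 → Type) (_ : ∀ i, Group (G i)) (_ : ∀ i, LinearOrder (G i))
      (A : Type) (_ : Group A) (φ : ∀ i, A →* G i),
      (∀ (i : Fin 2) (a b c : G i), a ≤ b → c * a ≤ c * b ∧ a * c ≤ b * c) ∧
      (∀ i, Function.Injective (φ i)) ∧
      (∀ a b : A, φ 0 a ≤ φ 0 b ↔ φ 1 a ≤ φ 1 b) ∧
      (∃ L : Lattice (Monoid.PushoutI φ), ∀ a b c : Monoid.PushoutI φ,
          L.le a b → L.le (c * a) (c * b) ∧ L.le (a * c) (b * c)) ∧
      ¬ ∃ O : LinearOrder (Monoid.PushoutI φ), ∀ a b c : Monoid.PushoutI φ,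
          O.le a b → O.le (c * a) (c * b) ∧ O.le (a * c) (b * c) := by
  refine ⟨GG, inferInstance, inferInstance, Multiplicative (ℤ ×ₗ ℤ), inferInstance, φ,
    ?_, ?_, ?_, ?_, ?_⟩
  · intro i a b c h
    exact ⟨mul_le_mul_right h c, mul_le_mul_left h c⟩
  · intro i a b h
    fin_cases i
    · rw [el_surj a, el_surj b] at h ⊢
      generalize (ofLex (Multiplicative.toAdd a)).1 = j at h ⊢
      generalize (ofLex (Multiplicative.toAdd a)).2 = i at h ⊢
      generalize (ofLex (Multiplicative.toAdd b)).1 = j' at h ⊢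
      generalize (ofLex (Multiplicative.toAdd b)).2 = i' at h ⊢
      change el (2 * j) i = el (2 * j') i' at h
      have h1 : (2 * j, i) = (2 * j', i') := h
      rw [Prod.mk.injEq] at h1
      obtain ⟨h1, h2⟩ := h1
      have : j = j' := by omega
      rw [this, h2]
    · rw [el_surj a, el_surj b] at h ⊢
      generalize (ofLex (Multiplicative.toAdd a)).1 = j at h ⊢
      generalize (ofLex (Multiplicative.toAdd a)).2 = i at h ⊢
      generalize (ofLex (Multiplicative.toAdd b)).1 = j' at h ⊢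
      generalize (ofLex (Multiplicative.toAdd b)).2 = i' at h ⊢
      change el (2 * j) (i - j) = el (2 * j') (i' - j') at h
      have h1 : (2 * j, i - j) = (2 * j', i' - j') := h
      rw [Prod.mk.injEq] at h1
      obtain ⟨h1, h2⟩ := h1
      have h3 : j = j' := by omega
      have h4 : i = i' := by omega
      rw [h3, h4]
  · intro a b
    rw [el_surj a, el_surj b]
    generalize (ofLex (Multiplicative.toAdd a)).1 = j
    generalize (ofLex (Multiplicative.toAdd a)).2 = i
    generalize (ofLex (Multiplicative.toAdd b)).1 = j'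
    generalize (ofLex (Multiplicative.toAdd b)).2 = i'
    rw [φ0, φ0, φ1, φ1, el_le, el_le]
    omega
  · refine ⟨
      { le := fun p q => Gam.le (e p) (e q)
        lt := fun p q => Gam.le (e p) (e q) ∧ ¬ Gam.le (e q) (e p)
        le_refl := fun p => Gam.le_refl _
        le_trans := fun p q r => Gam.le_trans _ _ _
        lt_iff_le_not_ge := fun p q => Iff.rfl
        le_antisymm := fun p q h1 h2 => e_inj (Gam.le_antisymm _ _ h1 h2)
        sup := fun p q => F (Gam.sup (e p) (e q))
        inf := fun p q => F (Gam.inf (e p) (e q))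
        le_sup_left := fun p q => by
          show Gam.le (e p) (e (F (Gam.sup (e p) (e q))))
          rw [eF]; exact Gam.le_sup_left _ _
        le_sup_right := fun p q => by
          show Gam.le (e q) (e (F (Gam.sup (e p) (e q))))
          rw [eF]; exact Gam.le_sup_right _ _
        sup_le := fun p q r h1 h2 => by
          show Gam.le (e (F (Gam.sup (e p) (e q)))) (e r)
          rw [eF]; exact Gam.sup_le _ _ _ h1 h2
        inf_le_left := fun p q => by
          show Gam.le (e (F (Gam.inf (e p) (e q)))) (e p)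
          rw [eF]; exact Gam.inf_le_left _ _
        inf_le_right := fun p q => by
          show Gam.le (e (F (Gam.inf (e p) (e q)))) (e q)
          rw [eF]; exact Gam.inf_le_right _ _
        le_inf := fun p q r h1 h2 => by
          show Gam.le (e p) (e (F (Gam.inf (e q) (e r))))
          rw [eF]; exact Gam.le_inf _ _ _ h1 h2 }, ?_⟩
    intro a b k h
    have h1 : Gam.le (e a) (e b) := h
    show Gam.le (e (k * a)) (e (k * b)) ∧ Gam.le (e (a * k)) (e (b * k))
    rw [map_mul, map_mul, map_mul, map_mul]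
    exact Gam.le_mul _ _ _ h1
  · rintro ⟨O, hO⟩
    have key : ∀ a b : P, t * a = b * t → t * b = a * t → O.le a b → O.le b a := by
      intro a b h1 h2 h
      have h3 := (hO _ _ t h).1
      rw [h1, h2] at h3
      have h4 := (hO _ _ t⁻¹ h3).2
      rwa [mul_inv_cancel_right, mul_inv_cancel_right] at h4
    have hne : x ≠ y := by
      intro h
      have := congrArg e h
      rw [e_x, e_y] at this
      have h2 := congrArg Gam.a this
      simp at h2
    rcases O.le_total x y with h | h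
    · exact hne (O.le_antisymm _ _ h (key x y tx.eq ty.eq h))
    · exact hne (O.le_antisymm _ _ (key y x ty.eq tx.eq h) h)

end Pool.Agent.S1019
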