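import Pool.Statements.S1056

set_option autoImplicit false
open Pool Pool.MP_df51bf_al

namespace Pool.Agent.S1056

/-- the homomorphism from the free group on `true, false` onto the cyclic group of order two
that sends the generator `true` to the generator and the generator `false` to the identity -/
def phi : FreeGroup Bool →* Multiplicative (ZMod 2) :=
  FreeGroup.lift (fun b => if b then Multiplicative.ofAdd 1 else 1)

/-- the homomorphism to the infinite cyclic group killing `true` -/
def psi : FreeGroup Bool →* Multiplicative ℤ :=
  FreeGroup.lift (fun b => if b then 1 else Multiplicative.ofAdd 1)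

/-- the first free generator -/
def x : FreeGroup Bool := FreeGroup.of true
/-- the second free generator -/
def y : FreeGroup Bool := FreeGroup.of false

/-- normal closure of the square of the first generator -/
def N : Subgroup (FreeGroup Bool) := Subgroup.normalClosure {x ^ 2}

instance : N.Normal := by unfold N; infer_instance

/-- kernel of `phi` -/
def T : Subgroup (FreeGroup Bool) := phi.ker

instance : T.Normal := by unfold T; infer_instance

lemma phi_x : phi x = Multiplicative.ofAdd 1 := by simp [phi, x]
lemma phi_y : phi y = 1 := by simp [phi, y]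
lemma psi_x : psi x = 1 := by simp [psi, x]
lemma psi_y : psi y = Multiplicative.ofAdd 1 := by simp [psi, y]

lemma x2_mem_N : x ^ 2 ∈ N := Subgroup.subset_normalClosure (by simp)

lemma N_le_T : N ≤ T := by
  apply Subgroup.normalClosure_le_normal
  intro g hg
  simp only [Set.mem_singleton_iff] at hg
  subst hg
  show phi (x ^ 2) = 1
  rw [map_pow, phi_x]
  decide

lemma N_le_psi : N ≤ psi.ker := by
  apply Subgroup.normalClosure_le_normal
  intro g hg
  simp only [Set.mem_singleton_iff] at hg
  subst hg
  show psi (x ^ 2) = 1
  rw [map_pow, psi_x, one_pow]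

lemma x_notMem_T : x ∉ T := by
  intro h
  have h2 : phi x = 1 := h
  rw [phi_x] at h2
  revert h2
  decide

lemma y_mem_T : y ∈ T := phi_y

lemma y_notMem_N : y ∉ N := by
  intro h
  have h2 : psi y = 1 := N_le_psi h
  rw [psi_y] at h2
  exact absurd h2 (by decide)

lemma x2_ne_one : x ^ 2 ≠ 1 := by
  intro h
  have : (FreeGroup.lift (fun _ : Bool => Multiplicative.ofAdd (1 : ℤ))) (x ^ 2) = 1 := by
    rw [h, map_one]
  rw [map_pow] at this
  simp only [x, FreeGroup.lift_apply_of] at this
  exact absurd this (by decide)

lemma coset (g : FreeGroup Bool) : g ∈ T ∨ x⁻¹ * g ∈ T := by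
  have key : ∀ z : Multiplicative (ZMod 2), z = 1 ∨ (Multiplicative.ofAdd 1)⁻¹ * z = 1 := by
    decide
  rcases key (phi g) with h | h
  · left; exact h
  · right
    show phi (x⁻¹ * g) = 1
    rw [map_mul, map_inv, phi_x]
    exact h

section Main
open scoped commutatorElement

lemma main_le : ⁅(⊤ : Subgroup (FreeGroup Bool)), N⁆ ≤ ⁅T, N⁆ := by
  set M : Subgroup (FreeGroup Bool) := ⁅T, N⁆ with hM
  have hMn : M.Normal := by rw [hM]; infer_instance
  have hT : ∀ t ∈ T, ∀ n ∈ N, Commute (QuotientGroup.mk' M t) (QuotientGroup.mk' M n) := by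
    intro t ht n hn
    have h1 : ⁅t, n⁆ ∈ M := Subgroup.commutator_mem_commutator ht hn
    rw [← commutatorElement_eq_one_iff_commute, ← map_commutatorElement]
    exact (QuotientGroup.eq_one_iff _).2 h1
  have hx2 : ∀ g : FreeGroup Bool, Commute (QuotientGroup.mk' M g) (QuotientGroup.mk' M (x ^ 2)) := by
    intro g
    rcases coset g with h | h
    · exact hT g h _ x2_mem_N
    · have h1 := hT _ h _ x2_mem_N
      have h2 : Commute (QuotientGroup.mk' M x) (QuotientGroup.mk' M (x ^ 2)) := by
        rw [map_pow]
        exact Commute.self_pow _ _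
      have h3 : g = x * (x⁻¹ * g) := by group
      rw [h3, map_mul]
      exact Commute.mul_left h2 h1
  have hle : N ≤ (Subgroup.center (FreeGroup Bool ⧸ M)).comap (QuotientGroup.mk' M) := by
    apply Subgroup.normalClosure_le_normal
    intro g hg
    simp only [Set.mem_singleton_iff] at hg
    subst hg
    show QuotientGroup.mk' M (x ^ 2) ∈ Subgroup.center (FreeGroup Bool ⧸ M)
    rw [Subgroup.mem_center_iff]
    intro q
    obtain ⟨g, rfl⟩ := QuotientGroup.mk'_surjective M q
    exact hx2 g
  rw [Subgroup.commutator_le]
  intro g _ n hn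
  have h1 := hle hn
  have h2 : QuotientGroup.mk' M n ∈ Subgroup.center (FreeGroup Bool ⧸ M) := h1
  rw [Subgroup.mem_center_iff] at h2
  have h3 : Commute (QuotientGroup.mk' M g) (QuotientGroup.mk' M n) := h2 _
  rw [← commutatorElement_eq_one_iff_commute, ← map_commutatorElement] at h3
  exact (QuotientGroup.eq_one_iff _).1 h3

end Main

/-- The negation of the preceding statement: Take a free group X of rank at least 2, a nontrivial normal subgroup N that is not a maximal subgroup, and a proper subgroup T containing N. Then [T,N] is a proper subgroup of [X,N]. -/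
theorem result :
    ¬ (∀ (α : Type) (a b : α), a ≠ b →
      ∀ (N T : Subgroup (FreeGroup α)), N.Normal → N ≠ ⊥ → ¬ IsCoatom N →
        N ≤ T → T ≠ ⊤ →
          ⁅T, N⁆ < ⁅(⊤ : Subgroup (FreeGroup α)), N⁆) := by
  intro h
  have hTtop : T ≠ ⊤ := by
    intro h1
    apply x_notMem_T
    rw [h1]
    trivial
  have h0 := h Bool true false (by decide) N T inferInstance
    (by
      intro h1
      have h2 := x2_mem_N
      rw [h1, Subgroup.mem_bot] at h2
      exact x2_ne_one h2)
    (by
      intro hc
      have h1 : N < T := lt_of_le_of_ne N_le_T (by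
        intro h2
        apply y_notMem_N
        rw [h2]
        exact y_mem_T)
      exact hTtop (hc.2 T h1))
    N_le_T hTtop
  exact absurd main_le (not_le_of_gt h0)

end Pool.Agent.S1056
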