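import Pool.Statements.S1058
-- import your own Pool.Agent.* helpers here

set_option autoImplicit false
open Pool Pool.MP_df592a_al

namespace Pool.Agent.S1058

open Polynomial MulOpposite

noncomputable section

/-- the backward shift on polynomials -/
def D : ℚ[X] →ₗ[ℚ] ℚ[X] where
  toFun := Polynomial.divX
  map_add' p q := Polynomial.divX_add
  map_smul' c p := by
    ext n
    simp [Polynomial.coeff_divX]

theorem D_coeff (b : ℚ[X]) (n : ℕ) : (D b).coeff n = b.coeff (n + 1) :=
  Polynomial.coeff_divX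

theorem D_pow_coeff (i : ℕ) : ∀ (b : ℚ[X]) (n : ℕ), ((D ^ i) b).coeff n = b.coeff (i + n) := by
  induction i with
  | zero => intro b n; simp
  | succ i ih =>
    intro b n
    rw [pow_succ, Module.End.mul_apply, ih, D_coeff]
    congr 1; omega

theorem aeval_coeff (q b : ℚ[X]) (j : ℕ) :
    ((aeval D q) b).coeff j =
      ∑ i ∈ Finset.range (q.natDegree + 1), q.coeff i * b.coeff (i + j) := by
  rw [Polynomial.aeval_eq_sum_range, LinearMap.sum_apply, Polynomial.finsetSum_coeff]
  refine Finset.sum_congr rfl fun i _ => ?_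
  rw [LinearMap.smul_apply, Polynomial.coeff_smul, D_pow_coeff, smul_eq_mul]

/-- any polynomial of degree at most that of `b` is in the cyclic module generated by `b` -/
theorem reach (b : ℚ[X]) (hb : b ≠ 0) : ∀ (m : ℕ), m ≤ b.natDegree + 1 → ∀ c : ℚ[X],
    (∀ j, m ≤ j → c.coeff j = 0) → ∃ p : ℚ[X], (aeval D p) b = c := by
  intro m
  induction m with
  | zero =>
    intro _ c hc
    refine ⟨0, ?_⟩
    have : c = 0 := by ext j; simpa using hc j (Nat.zero_le _)
    simp [this]
  | succ m ih =>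
    intro hm c hc
    have hlc : b.coeff b.natDegree ≠ 0 := by
      rw [Polynomial.coeff_natDegree]; exact Polynomial.leadingCoeff_ne_zero.2 hb
    obtain ⟨p, hp⟩ := ih (by omega)
      (c - (c.coeff m / b.coeff b.natDegree) • (D ^ (b.natDegree - m)) b) (by
      intro j hj
      rw [Polynomial.coeff_sub, Polynomial.coeff_smul, D_pow_coeff]
      rcases Nat.eq_or_lt_of_le hj with h | h
      · subst h
        have : b.natDegree - m + m = b.natDegree := by omega
        rw [this, smul_eq_mul, div_mul_cancel₀ _ hlc, sub_self]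
      · have h0 : b.coeff (b.natDegree - m + j) = 0 :=
          Polynomial.coeff_eq_zero_of_natDegree_lt (by omega)
        rw [hc j h, h0]
        simp)
    refine ⟨p + C (c.coeff m / b.coeff b.natDegree) * X ^ (b.natDegree - m), ?_⟩
    rw [map_add, LinearMap.add_apply, hp, map_mul, map_pow, aeval_X, aeval_C,
      Module.End.mul_apply, Module.algebraMap_end_apply]
    simp

theorem surj (q : ℚ[X]) (hq : q ≠ 0) (c : ℚ[X]) : ∃ b, (aeval D q) b = c := by
  set N := c.natDegree + q.natDegree with hN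
  have h1 : ((aeval D q) (X ^ N)).coeff c.natDegree ≠ 0 := by
    rw [aeval_coeff, Finset.sum_eq_single q.natDegree]
    · rw [Polynomial.coeff_X_pow, if_pos (by omega), mul_one, Polynomial.coeff_natDegree]
      exact Polynomial.leadingCoeff_ne_zero.2 hq
    · intro i _ hi
      rw [Polynomial.coeff_X_pow, if_neg (by omega), mul_zero]
    · intro h; exact absurd (Finset.self_mem_range_succ _) h
  have h2 : (aeval D q) (X ^ N) ≠ 0 := by
    intro h; rw [h] at h1; simp at h1
  have h3 : c.natDegree ≤ ((aeval D q) (X ^ N)).natDegree :=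
    Polynomial.le_natDegree_of_ne_zero h1
  obtain ⟨p, hp⟩ := reach _ h2 (c.natDegree + 1) (by omega) c
    (fun j hj => Polynomial.coeff_eq_zero_of_natDegree_lt (by omega))
  refine ⟨(aeval D p) (X ^ N), ?_⟩
  rw [← hp, ← Module.End.mul_apply, ← Module.End.mul_apply, ← map_mul, ← map_mul, mul_comm]

theorem surj' (q : ℚ[X]) (hq : q ≠ 0) (c : ℚ[X]) : ∃ b, (aeval (1 - D) q) b = c := by
  have h : aeval (1 - D) q = aeval D (q.comp (1 - X)) := by
    rw [Polynomial.aeval_comp]; simp
  rw [h]
  apply surj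
  intro h0
  apply hq
  have : (q.comp (1 - X)).comp (1 - X) = q := by
    rw [Polynomial.comp_assoc]; simp
  rw [← this, h0, Polynomial.zero_comp]

/-- the bimodule -/
def B : Type := ℚ[X]

instance : AddCommGroup B := inferInstanceAs (AddCommGroup ℚ[X])

noncomputable def lhom : ℚ[X] →+* AddMonoid.End B :=
  (Module.toAddMonoidEnd (Module.End ℚ ℚ[X]) ℚ[X]).comp (aeval (1 - D)).toRingHom

noncomputable def rhom : (ℚ[X])ᵐᵒᵖ →+* AddMonoid.End B :=
  ((Module.toAddMonoidEnd (Module.End ℚ ℚ[X]) ℚ[X]).comp (aeval D).toRingHom).comp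
    (RingEquiv.toOpposite ℚ[X]).symm.toRingHom

noncomputable instance : Module ℚ[X] B := Module.compHom B lhom
noncomputable instance : Module (ℚ[X])ᵐᵒᵖ B := Module.compHom B rhom

def toP (b : B) : ℚ[X] := b
def ofP (p : ℚ[X]) : B := p

theorem l_def (r : ℚ[X]) (b : B) : r • b = ofP ((aeval (1 - D) r) (toP b)) := rfl
theorem r_def (r : ℚ[X]) (b : B) : (op r) • b = ofP ((aeval D r) (toP b)) := rfl

instance : SMulCommClass ℚ[X] (ℚ[X])ᵐᵒᵖ B := ⟨by
  intro r s b
  induction s using MulOpposite.rec' with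
  | h s =>
    show ofP ((aeval (1 - D) r) ((aeval D s) (toP b))) =
      ofP ((aeval D s) ((aeval (1 - D) r) (toP b)))
    have h : aeval (1 - D) r = aeval D (r.comp (1 - X)) := by
      rw [Polynomial.aeval_comp]; simp
    rw [h]
    rw [← Module.End.mul_apply, ← Module.End.mul_apply, ← map_mul, ← map_mul, mul_comm]⟩

abbrev A : Type := TrivSqZeroExt ℚ[X] B

theorem mul_op (x y : A) : (op y) • x = x * y := rfl

/-- the element `(0, b)` -/
def inB (b : ℚ[X]) : A := TrivSqZeroExt.inr (ofP b)

theorem mul_inB (z : A) (b : ℚ[X]) : z * inB b = inB ((aeval (1 - D) z.fst) b) := by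
  apply TrivSqZeroExt.ext
  · show z.fst * 0 = 0
    simp
  · show z.fst • (ofP b) + (op (0 : ℚ[X])) • z.snd = _
    rw [MulOpposite.op_zero, zero_smul, add_zero]
    rfl

theorem inB_mul (b r : ℚ[X]) : inB b * TrivSqZeroExt.inl r = inB ((aeval D r) b) := by
  apply TrivSqZeroExt.ext
  · show 0 * r = 0
    simp
  · show (0 : ℚ[X]) • (0 : B) + (op r) • (ofP b) = _
    rw [zero_smul, zero_add]
    rfl

theorem eq_inB (z : A) (h : z.fst = 0) : z = inB (toP z.snd) := by
  apply TrivSqZeroExt.ext
  · exact h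
  · rfl

theorem inB_add (a b : ℚ[X]) : inB (a + b) = inB a + inB b := by
  apply TrivSqZeroExt.ext
  · show (0 : ℚ[X]) = 0 + 0
    simp
  · rfl

variable (I J K : Submodule Aᵐᵒᵖ A)

theorem mul_mem {I : Submodule Aᵐᵒᵖ A} {x : A} (hx : x ∈ I) (y : A) : x * y ∈ I :=
  I.smul_mem (op y) hx

/-- either all of `B` is inside, or we are inside `B` -/
theorem dich : (∀ z ∈ I, z.fst = 0) ∨ (∀ b, inB b ∈ I) := by
  by_cases h : ∀ z ∈ I, z.fst = 0
  · exact Or.inl h
  · right
    push Not at h
    obtain ⟨z, hz, hz0⟩ := h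
    intro b
    obtain ⟨b', hb'⟩ := surj' z.fst hz0 b
    rw [← hb', ← mul_inB]
    exact mul_mem hz _

theorem comp' (hI : ∀ z ∈ I, z.fst = 0) : I ≤ J ∨ J ≤ I := by
  rcases dich J with hJ | hJ
  · by_cases hIJ : I ≤ J
    · exact Or.inl hIJ
    · right
      rw [SetLike.not_le_iff_exists] at hIJ
      obtain ⟨z, hzI, hzJ⟩ := hIJ
      intro w hw
      have hz := eq_inB z (hI z hzI)
      have hw' := eq_inB w (hJ w hw)
      have hz0 : (toP z.snd) ≠ 0 := by
        intro h0
        apply hzJ
        rw [hz, h0]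
        exact J.zero_mem
      by_cases hdeg : (toP w.snd).natDegree ≤ (toP z.snd).natDegree
      · obtain ⟨p, hp⟩ := reach (toP z.snd) hz0 ((toP w.snd).natDegree + 1) (by omega)
          (toP w.snd) (fun j hj => Polynomial.coeff_eq_zero_of_natDegree_lt (by omega))
        rw [hw', ← hp, ← inB_mul, ← hz]
        exact mul_mem hzI _
      · exfalso
        apply hzJ
        have hw0 : (toP w.snd) ≠ 0 := by
          intro h0
          rw [h0] at hdeg
          simp at hdeg
        obtain ⟨p, hp⟩ := reach (toP w.snd) hw0 ((toP z.snd).natDegree + 1) (by omega)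
          (toP z.snd) (fun j hj => Polynomial.coeff_eq_zero_of_natDegree_lt (by omega))
        rw [hz, ← hp, ← inB_mul, ← hw']
        exact mul_mem hw _
  · left
    intro z hz
    rw [eq_inB z (hI z hz)]
    exact hJ _

/-- the ideal of first components, for a right ideal containing `B` -/
def fstIdeal (I : Submodule Aᵐᵒᵖ A) : Ideal ℚ[X] where
  carrier := {r | TrivSqZeroExt.inl r ∈ I}
  add_mem' := by
    intro a b ha hb
    simp only [Set.mem_ofPred_eq, TrivSqZeroExt.inl_add] at *
    exact I.add_mem ha hb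
  zero_mem' := by
    simp only [Set.mem_ofPred_eq, TrivSqZeroExt.inl_zero]
    exact I.zero_mem
  smul_mem' := by
    intro c a ha
    simp only [Set.mem_ofPred_eq, smul_eq_mul] at *
    rw [mul_comm, TrivSqZeroExt.inl_mul]
    exact mul_mem ha _

theorem decomp (z : A) : z = TrivSqZeroExt.inl z.fst + inB (toP z.snd) := by
  apply TrivSqZeroExt.ext
  · show z.fst = z.fst + 0
    simp
  · show z.snd = 0 + z.snd
    simp

theorem mem_iff {I : Submodule Aᵐᵒᵖ A} (hI : ∀ b, inB b ∈ I) (z : A) :
    z ∈ I ↔ z.fst ∈ fstIdeal I := by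
  constructor
  · intro h
    show TrivSqZeroExt.inl z.fst ∈ I
    have : TrivSqZeroExt.inl z.fst = z - inB (toP z.snd) := by
      rw [eq_sub_iff_add_eq, ← decomp]
    rw [this]
    exact I.sub_mem h (hI _)
  · intro h
    rw [decomp z]
    exact I.add_mem h (hI _)

/-- ideals of `ℚ[X]` distribute -/
theorem ideal_distrib (I J K : Ideal ℚ[X]) (z : ℚ[X]) (hI : z ∈ I) (h : z ∈ J ⊔ K) :
    ∃ x y, x + y = z ∧ x ∈ I ∧ x ∈ J ∧ y ∈ I ∧ y ∈ K := by
  obtain ⟨b, hb⟩ := (IsPrincipalIdealRing.principal J).principal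
  obtain ⟨c, hc⟩ := (IsPrincipalIdealRing.principal K).principal
  obtain ⟨g, hg⟩ := (IsPrincipalIdealRing.principal (J ⊔ K)).principal
  by_cases hg0 : g = 0
  · refine ⟨0, 0, ?_, I.zero_mem, J.zero_mem, I.zero_mem, K.zero_mem⟩
    rw [hg, hg0, Submodule.mem_span_singleton] at h
    obtain ⟨a, ha⟩ := h
    rw [← ha]; simp
  · have hbg : b ∈ J ⊔ K := Ideal.mem_sup_left (by rw [hb]; exact Submodule.mem_span_singleton_self b)
    have hcg : c ∈ J ⊔ K := Ideal.mem_sup_right (by rw [hc]; exact Submodule.mem_span_singleton_self c)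
    have hgg : g ∈ J ⊔ K := by rw [hg]; exact Submodule.mem_span_singleton_self g
    rw [hg, Submodule.mem_span_singleton] at hbg hcg h
    obtain ⟨b', hb'⟩ := hbg
    obtain ⟨c', hc'⟩ := hcg
    obtain ⟨z', hz'⟩ := h
    obtain ⟨u, hu, v, hv, huv⟩ := Submodule.mem_sup.1 hgg
    rw [hb, Submodule.mem_span_singleton] at hu
    rw [hc, Submodule.mem_span_singleton] at hv
    obtain ⟨u', hu'⟩ := hu
    obtain ⟨v', hv'⟩ := hv
    simp only [smul_eq_mul] at *
    have h1 : u' * b' + v' * c' = 1 := by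
      apply mul_right_cancel₀ hg0
      linear_combination u' * hb' + v' * hc' + hu' + hv' + huv
    refine ⟨u' * b' * z, v' * c' * z, ?_, I.mul_mem_left _ hI, ?_, I.mul_mem_left _ hI, ?_⟩
    · linear_combination z * h1
    · rw [hb, Submodule.mem_span_singleton]
      refine ⟨u' * z', ?_⟩
      simp only [smul_eq_mul]
      linear_combination (-u' * z') * hb' + u' * b' * hz'
    · rw [hc, Submodule.mem_span_singleton]
      refine ⟨v' * z', ?_⟩
      simp only [smul_eq_mul]
      linear_combination (-v' * z') * hc' + v' * c' * hz'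

theorem distrib_A : I ⊓ (J ⊔ K) = I ⊓ J ⊔ I ⊓ K := by
  refine le_antisymm ?_ le_inf_sup
  rcases dich I with hI | hI
  · rcases comp' I J hI with h | h
    · exact le_trans inf_le_left (le_trans (le_inf le_rfl h) le_sup_left)
    · rcases comp' I K hI with h' | h'
      · exact le_trans inf_le_left (le_trans (le_inf le_rfl h') le_sup_right)
      · rw [inf_eq_right.2 h, inf_eq_right.2 h']
        exact inf_le_right
  rcases dich J with hJ | hJ
  · rcases comp' J K hJ with h | h
    · rw [sup_eq_right.2 h]; exact le_sup_right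
    · rw [sup_eq_left.2 h]; exact le_sup_left
  rcases dich K with hK | hK
  · rcases comp' K J hK with h | h
    · rw [sup_eq_left.2 h]; exact le_sup_left
    · rw [sup_eq_right.2 h]; exact le_sup_right
  intro z hz
  obtain ⟨hzI, hzJK⟩ := Submodule.mem_inf.1 hz
  obtain ⟨x, hx, y, hy, hxy⟩ := Submodule.mem_sup.1 hzJK
  obtain ⟨p, q, hpq, hpI, hpJ, hqI, hqK⟩ :=
    ideal_distrib (fstIdeal I) (fstIdeal J) (fstIdeal K) z.fst ((mem_iff hI z).1 hzI) (by
      rw [← hxy]
      exact Submodule.add_mem_sup ((mem_iff hJ x).1 hx) ((mem_iff hK y).1 hy))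
  have hz' : z = (TrivSqZeroExt.inl p + inB (toP z.snd)) + TrivSqZeroExt.inl q := by
    rw [add_right_comm, ← TrivSqZeroExt.inl_add, hpq]
    exact decomp z
  rw [hz']
  refine Submodule.add_mem_sup (Submodule.mem_inf.2 ⟨I.add_mem hpI (hI _), J.add_mem hpJ (hJ _)⟩)
    (Submodule.mem_inf.2 ⟨hqI, hqK⟩)

/-- the maximal right ideal -/
def M : Submodule Aᵐᵒᵖ A where
  carrier := {z | z.fst.coeff 0 = 0}
  add_mem' := by
    intro a b ha hb
    simp only [Set.mem_ofPred_eq, TrivSqZeroExt.fst_add, Polynomial.coeff_add] at *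
    rw [ha, hb, add_zero]
  zero_mem' := by simp
  smul_mem' := by
    intro c x hx
    induction c using MulOpposite.rec' with
    | h c =>
      rw [mul_op]
      simp only [Set.mem_ofPred_eq, TrivSqZeroExt.fst_mul, Polynomial.mul_coeff_zero] at *
      rw [hx, zero_mul]

theorem mem_M (z : A) : z ∈ M ↔ z.fst.coeff 0 = 0 := Iff.rfl

theorem M_coatom : IsCoatom M := by
  refine ⟨?_, ?_⟩
  · intro h
    have : (1 : A) ∈ M := by rw [h]; trivial
    rw [mem_M] at this
    simp at this
  · intro N hN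
    obtain ⟨hle, hne⟩ := SetLike.lt_iff_le_and_exists.1 hN
    obtain ⟨z, hzN, hzM⟩ := hne
    rw [mem_M] at hzM
    rw [Submodule.eq_top_iff']
    have h1 : (1 : A) ∈ N := by
      have h2 : z * TrivSqZeroExt.inl (C (z.fst.coeff 0)⁻¹) ∈ N := mul_mem hzN _
      have h3 : (1 : A) - z * TrivSqZeroExt.inl (C (z.fst.coeff 0)⁻¹) ∈ M := by
        rw [mem_M]
        simp [hzM]
      have := N.add_mem h2 (hle h3)
      simpa using this
    intro x
    have := mul_mem h1 x
    rwa [one_mul] at this

/-- The negation of the preceding statement: Take any ring A whose right ideals form a distributive lattice and any maximal right ideal M. Then some ring hom f : A → Q sends every t outside M to a unit, gives every q in Q as f(a)f(t)⁻¹ with t outside M, and has kernel the a with a·t = 0 for some t outside M. -/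
theorem result :
    ¬ (∀ (A : Type) [Ring A],
      (∀ I J K : Submodule Aᵐᵒᵖ A, I ⊓ (J ⊔ K) = I ⊓ J ⊔ I ⊓ K) →
      ∀ M : Submodule Aᵐᵒᵖ A, IsCoatom M →
        ∃ (Q : Type) (_ : Ring Q) (f : A →+* Q),
          (∀ t : A, t ∉ M → IsUnit (f t)) ∧
          (∀ q : Q, ∃ a t : A, t ∉ M ∧ q * f t = f a) ∧
          (∀ a : A, f a = 0 ↔ ∃ t : A, t ∉ M ∧ a * t = 0)) := by
  intro H
  obtain ⟨Q, _, f, hT, -, hker⟩ := H A distrib_A M M_coatom
  let t : A := TrivSqZeroExt.inl (1 - X)
  let a : A := inB 1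
  have htM : t ∉ M := by
    rw [mem_M]
    simp [t]
  have hta : t * a = 0 := by
    show t * inB 1 = 0
    rw [mul_inB]
    have h1 : (aeval (1 - D) t.fst) (1 : ℚ[X]) = 0 := by
      show (aeval (1 - D) (1 - X : ℚ[X])) (1 : ℚ[X]) = 0
      have h0 : aeval (1 - D) (1 - X : ℚ[X]) = D := by
        rw [map_sub, map_one, aeval_X, sub_sub_cancel]
      rw [h0]
      ext n
      rw [D_coeff, Polynomial.coeff_one, if_neg (by omega), Polynomial.coeff_zero]
    rw [h1]
    rfl
  have hfa : f a = 0 := by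
    have h1 : f t * f a = 0 := by rw [← map_mul, hta, map_zero]
    exact (hT t htM).mul_right_eq_zero.1 h1
  obtain ⟨s, hsM, has⟩ := (hker a).1 hfa
  rw [mem_M] at hsM
  apply hsM
  have h2 : a * s = inB ((aeval D s.fst) 1) := by
    apply TrivSqZeroExt.ext
    · show 0 * s.fst = 0
      simp
    · show (0 : ℚ[X]) • s.snd + (op s.fst) • (ofP (1 : ℚ[X])) = _
      rw [zero_smul, zero_add]
      rfl
  rw [h2] at has
  have h3 : (aeval D s.fst) (1 : ℚ[X]) = 0 := congrArg TrivSqZeroExt.snd has
  have h4 := congrArg (fun p => Polynomial.coeff p 0) h3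
  simp only [aeval_coeff, Polynomial.coeff_zero] at h4
  rw [Finset.sum_eq_single 0] at h4
  · simpa using h4
  · intro i _ hi
    rw [Polynomial.coeff_one, if_neg (by omega), mul_zero]
  · intro h; exact absurd (Finset.mem_range.2 (Nat.succ_pos _)) h

end

end Pool.Agent.S1058
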