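import Pool.Statements.S1066
-- import your own Pool.Agent.* helpers here

set_option autoImplicit false
open Pool Pool.MP_e05a1e_al

namespace Pool.Agent.S1066

/-! ### The word and its value on matrices -/

/-- the word `u u v u v v u v`. -/
def wd {G : Type*} [Mul G] (u v : G) : G := u * u * v * u * v * v * u * v

section Alg

variable {K : Type} [Field K] {u v : Matrix (Fin 2) (Fin 2) K} {s z : K}

/-- normal form of an element of the algebra generated by `u`, `v`. -/
def E (u v : Matrix (Fin 2) (Fin 2) K) (c1 cu cv cw : K) : Matrix (Fin 2) (Fin 2) K :=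
  c1 • (1 : Matrix (Fin 2) (Fin 2) K) + cu • u + cv • v + cw • (u * v)

theorem E_u (hu : u * u = s • u - (1 : Matrix (Fin 2) (Fin 2) K))
    (hvu : v * u = -(u * v) + (z - s ^ 2) • (1 : Matrix (Fin 2) (Fin 2) K) + s • u + s • v)
    (c1 cu cv cw : K) :
    E u v c1 cu cv cw * u
      = E u v (-cu + cv * (z - s ^ 2) - cw * s) (c1 + s * cu + s * cv + z * cw)
          (s * cv + cw) (-cv) := by
  have huvu : (u * v) * u = v + z • u - s • (1 : Matrix (Fin 2) (Fin 2) K) := by
    have h1 : (u * v) * u = u * (v * u) := by rw [mul_assoc]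
    rw [h1, hvu]
    have h2 : u * (-(u * v) + (z - s ^ 2) • (1 : Matrix (Fin 2) (Fin 2) K) + s • u + s • v)
        = -((u * u) * v) + (z - s ^ 2) • u + s • (u * u) + s • (u * v) := by
      simp only [mul_add, mul_neg, mul_smul_comm, mul_one, mul_assoc]
    rw [h2, hu]
    have h3 : (s • u - (1 : Matrix (Fin 2) (Fin 2) K)) * v = s • (u * v) - v := by
      simp only [sub_mul, smul_mul_assoc, one_mul]
    rw [h3]
    module
  unfold E
  simp only [add_mul, smul_mul_assoc, one_mul, hu, hvu, huvu]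
  module

theorem E_v (hv : v * v = s • v - (1 : Matrix (Fin 2) (Fin 2) K)) (c1 cu cv cw : K) :
    E u v c1 cu cv cw * v = E u v (-cv) (-cw) (c1 + s * cv) (cu + s * cw) := by
  have huvv : (u * v) * v = s • (u * v) - u := by
    rw [mul_assoc, hv]
    simp only [mul_sub, mul_smul_comm, mul_one]
  unfold E
  simp only [add_mul, smul_mul_assoc, one_mul, hv, huvv]
  module

theorem word_eq (hu : u * u = s • u - (1 : Matrix (Fin 2) (Fin 2) K))
    (hv : v * v = s • v - (1 : Matrix (Fin 2) (Fin 2) K))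
    (hvu : v * u = -(u * v) + (z - s ^ 2) • (1 : Matrix (Fin 2) (Fin 2) K) + s • u + s • v) :
    wd u v = E u v 1 (-(s * z)) (-(s * z ^ 2) + s * z) (s ^ 2 * z ^ 2 - s ^ 2 * z) := by
  have e2 : u * u = E u v (-1) s 0 0 := by rw [hu]; unfold E; module
  have e3 : u * u * v = E u v 0 0 (-1) s := by
    rw [e2, E_v hv]; congr 1 <;> ring
  have e4 : u * u * v * u = E u v (-z) (s * z - s) 0 1 := by
    rw [e3, E_u hu hvu]; congr 1 <;> ring
  have e5 : u * u * v * u * v = E u v 0 (-1) (-z) (s * z) := by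
    rw [e4, E_v hv]; congr 1 <;> ring
  have e6 : u * u * v * u * v * v = E u v z (-(s * z)) (-(s * z)) (s ^ 2 * z - 1) := by
    rw [e5, E_v hv]; congr 1 <;> ring
  have e7 : u * u * v * u * v * v * u
      = E u v (-(s * z ^ 2) + s * z + s) (s ^ 2 * z ^ 2 - 2 * s ^ 2 * z) (-1) (s * z) := by
    rw [e6, E_u hu hvu]; congr 1 <;> ring
  unfold wd
  rw [e7, E_v hv]; congr 1 <;> ring

end Alg

section Mat

variable {K : Type} [Field K]

theorem cayley (A : Matrix (Fin 2) (Fin 2) K) (hA : A.det = 1) :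
    A * A = A.trace • A - (1 : Matrix (Fin 2) (Fin 2) K) := by
  rw [Matrix.det_fin_two] at hA
  ext i j
  fin_cases i <;> fin_cases j <;>
    simp [Matrix.mul_apply, Fin.sum_univ_two, Matrix.trace_fin_two]
  · linear_combination (-1 : K) * hA
  · ring
  · ring
  · linear_combination (-1 : K) * hA

theorem vu_eq (u v : Matrix (Fin 2) (Fin 2) K) (htr : v.trace = u.trace) :
    v * u = -(u * v) + ((u * v).trace - u.trace ^ 2) • (1 : Matrix (Fin 2) (Fin 2) K)
      + u.trace • u + u.trace • v := by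
  rw [Matrix.trace_fin_two, Matrix.trace_fin_two] at htr
  have h1 : v 1 1 = u 0 0 + u 1 1 - v 0 0 := by linear_combination htr
  ext i j
  fin_cases i <;> fin_cases j <;>
    simp [Matrix.mul_apply, Fin.sum_univ_two, Matrix.trace_fin_two, h1] <;> ring

theorem trace_wd (u v : Matrix (Fin 2) (Fin 2) K) (hu : u.det = 1) (hv : v.det = 1)
    (htr : v.trace = u.trace) :
    (wd u v).trace = u.trace ^ 2 * (u * v).trace ^ 3 - 2 * u.trace ^ 2 * (u * v).trace ^ 2 + 2 := by
  have hu' := cayley u hu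
  have hv' := cayley v hv
  rw [htr] at hv'
  rw [word_eq hu' hv' (vu_eq u v htr)]
  unfold E
  simp only [Matrix.trace_add, Matrix.trace_smul, htr, Matrix.trace_one,
    Fintype.card_fin, smul_eq_mul]
  push_cast
  ring

/-- In characteristic two a value of the word has either nonzero trace or is the identity. -/
theorem wd_eq_one [CharP K 2] (u v : Matrix (Fin 2) (Fin 2) K) (hu : u.det = 1) (hv : v.det = 1)
    (htr : v.trace = u.trace) (h0 : (wd u v).trace = 0) : wd u v = 1 := by
  have h2 : (2 : K) = 0 := CharTwo.two_eq_zero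
  have hneg : -(1 : Matrix (Fin 2) (Fin 2) K) = 1 := by
    ext i j
    fin_cases i <;> fin_cases j <;> simp [CharTwo.neg_eq]
  rw [trace_wd u v hu hv htr] at h0
  have h1 : u.trace ^ 2 * (u * v).trace ^ 3 = 0 := by
    linear_combination h0 + (u.trace ^ 2 * (u * v).trace ^ 2 - 1) * h2
  have hu' := cayley u hu
  have hv' := cayley v hv
  rcases mul_eq_zero.1 h1 with h | h
  · have hs : u.trace = 0 := by simpa using h
    rw [htr] at hv'
    rw [hs, zero_smul, zero_sub, hneg] at hu' hv'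
    calc wd u v = (u * u) * v * u * (v * v) * u * v := by simp only [wd, mul_assoc]
      _ = v * (u * u) * v := by rw [hu', hv', one_mul, mul_one, mul_assoc v u u, hu', mul_one]
      _ = 1 := by rw [hu', mul_one, hv']
  · have hz : (u * v).trace = 0 := by simpa using h
    have hp := cayley (u * v) (by rw [Matrix.det_mul, hu, hv, one_mul])
    rw [hz, zero_smul, zero_sub, hneg] at hp
    calc wd u v = u * ((u * v) * (u * v)) * v * (u * v) := by simp only [wd, mul_assoc]
      _ = 1 := by rw [hp, mul_one, hp]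

end Mat

/-! ### The group -/

abbrev K := AlgebraicClosure (ZMod 2)

instance : Fact (Nat.Prime 2) := ⟨Nat.prime_two⟩

noncomputable def H : Subgroup (GL (Fin 2) K) :=
  (Matrix.SpecialLinearGroup.toGL : Matrix.SpecialLinearGroup (Fin 2) K →* GL (Fin 2) K).range

theorem mem_H (g : GL (Fin 2) K) : g ∈ H ↔ Matrix.det (g : Matrix (Fin 2) (Fin 2) K) = 1 := by
  constructor
  · rintro ⟨x, rfl⟩
    exact x.2
  · intro h
    exact ⟨⟨g, h⟩, Units.ext rfl⟩

instance : CharP K 2 := inferInstance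

theorem sq_eq_one_iff_of_ne_zero_or {a : K} (h : a ^ 2 = 1) : a = 1 ∨ a = -1 := by
  have : (a - 1) * (a + 1) = 0 := by linear_combination h
  rcases mul_eq_zero.1 this with h | h
  · left; linear_combination h
  · right; linear_combination h

theorem H_simple : IsSimpleGroup H := by
  have h1 : IsSimpleGroup (Matrix.ProjectiveSpecialLinearGroup (Fin 2) K) := by
    apply Matrix.ProjectiveSpecialLinearGroup.rank_two_simple'
    classical
    obtain ⟨a, ha⟩ := Infinite.exists_notMem_finset ({0, 1, -1} : Finset K)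
    simp only [Finset.mem_insert, Finset.mem_singleton, not_or] at ha
    refine ⟨a, ha.1, ?_⟩
    intro h
    rcases sq_eq_one_iff_of_ne_zero_or h with h | h
    · exact ha.2.1 h
    · exact ha.2.2 h
  have h2 : IsSimpleGroup (Matrix.SpecialLinearGroup (Fin 2) K) := by
    let e : Matrix.SpecialLinearGroup (Fin 2) K ≃*
        Matrix.ProjectiveSpecialLinearGroup (Fin 2) K :=
      MulEquiv.ofBijective (QuotientGroup.mk' (Subgroup.center _)) ⟨by
        rw [injective_iff_map_eq_one]
        intro A hA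
        rw [QuotientGroup.mk'_apply, QuotientGroup.eq_one_iff,
          Matrix.SpecialLinearGroup.mem_center_iff] at hA
        obtain ⟨r, hr, hA⟩ := hA
        have hr1 : r = 1 := by
          simp only [Fintype.card_fin] at hr
          have : (r - 1) ^ 2 = 0 := by
            have h2 : (2 : K) = 0 := CharTwo.two_eq_zero
            linear_combination hr + (1 - r) * h2
          have := pow_eq_zero_iff (two_ne_zero) |>.1 this
          linear_combination this
        apply Subtype.ext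
        rw [← hA, hr1]
        simp, QuotientGroup.mk'_surjective _⟩
    exact e.isSimpleGroup
  exact (MonoidHom.ofInjective Matrix.SpecialLinearGroup.toGL_injective).symm.isSimpleGroup

/-! ### Zariski closed and irreducible -/

open MvPolynomial

theorem H_closed : ∃ S : Set (MvPolynomial (Fin 2 × Fin 2) K), ∀ g : GL (Fin 2) K,
        g ∈ H ↔ ∀ p ∈ S,
          MvPolynomial.eval (fun ij : Fin 2 × Fin 2 =>
            (↑g : Matrix (Fin 2) (Fin 2) K) ij.1 ij.2) p = 0 := by
  refine ⟨{X (0, 0) * X (1, 1) - X (0, 1) * X (1, 0) - 1}, fun g => ?_⟩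
  rw [mem_H, Matrix.det_fin_two]
  simp only [Set.mem_singleton_iff, forall_eq, map_sub, map_mul, eval_X, map_one]
  constructor
  · intro h; rw [h, sub_self]
  · intro h; exact sub_eq_zero.1 h

/-- the product of four transvections, over any commutative ring. -/
def Phi {R : Type*} [CommRing R] (x : Fin 4 → R) : Matrix (Fin 2) (Fin 2) R :=
  !![1, x 0; 0, 1] * !![1, 0; x 1, 1] * !![1, x 2; 0, 1] * !![1, 0; x 3, 1]

theorem Phi_det {R : Type*} [CommRing R] (x : Fin 4 → R) : (Phi x).det = 1 := by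
  unfold Phi
  simp [Matrix.det_fin_two]
  ring

theorem Phi_map {R S : Type*} [CommRing R] [CommRing S] (f : R →+* S) (x : Fin 4 → R)
    (i j : Fin 2) : f (Phi x i j) = Phi (fun k => f (x k)) i j := by
  unfold Phi
  fin_cases i <;> fin_cases j <;> simp [Matrix.mul_apply, Fin.sum_univ_two]

theorem Phi_surj_aux (a b c d : K) (h : a * d - b * c = 1) (hc : c ≠ 0) :
    ∃ x0 x1 x2 : K, (!![1, x0; 0, 1] * !![1, 0; x1, 1] * !![1, x2; 0, 1]
      : Matrix (Fin 2) (Fin 2) K) = !![a, b; c, d] := by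
  refine ⟨(a - 1) / c, c, (d - 1) / c, ?_⟩
  ext i j
  fin_cases i <;> fin_cases j <;> simp [Matrix.mul_apply, Fin.sum_univ_two]
  · field_simp; ring
  · field_simp; linear_combination h
  · field_simp; ring

theorem Phi_surj (g : Matrix (Fin 2) (Fin 2) K) (hg : g.det = 1) :
    ∃ x : Fin 4 → K, Phi x = g := by
  have hdet := hg
  rw [Matrix.det_fin_two] at hdet
  have hge : g = !![g 0 0, g 0 1; g 1 0, g 1 1] := Matrix.eta_fin_two g
  by_cases hc : g 1 0 = 0
  · have hd : g 1 1 ≠ 0 := by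
      intro h0
      rw [hc, h0] at hdet
      simp at hdet
    obtain ⟨x0, x1, x2, h⟩ := Phi_surj_aux (g 0 0 - g 0 1) (g 0 1) (- g 1 1) (g 1 1)
      (by rw [hc] at hdet; linear_combination hdet) (by simpa using hd)
    refine ⟨![x0, x1, x2, 1], ?_⟩
    unfold Phi
    simp only [Matrix.cons_val_zero, Matrix.cons_val_one, Matrix.cons_val]
    rw [h, hge]
    ext i j
    fin_cases i <;> fin_cases j <;> simp [Matrix.mul_apply, Fin.sum_univ_two, hc]
  · obtain ⟨x0, x1, x2, h⟩ := Phi_surj_aux (g 0 0) (g 0 1) (g 1 0) (g 1 1) hdet hc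
    refine ⟨![x0, x1, x2, 0], ?_⟩
    unfold Phi
    simp only [Matrix.cons_val_zero, Matrix.cons_val_one, Matrix.cons_val]
    rw [h]
    have : (!![1, 0; 0, 1] : Matrix (Fin 2) (Fin 2) K) = 1 := by
      ext i j; fin_cases i <;> fin_cases j <;> simp
    rw [this, mul_one, ← hge]

/-- pull back of a polynomial along the parametrisation. -/
noncomputable def pull (p : MvPolynomial (Fin 2 × Fin 2) K) : MvPolynomial (Fin 4) K :=
  aeval (fun ij : Fin 2 × Fin 2 => Phi (fun k : Fin 4 => (X k : MvPolynomial (Fin 4) K)) ij.1 ij.2) p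

theorem eval_pull (p : MvPolynomial (Fin 2 × Fin 2) K) (x : Fin 4 → K) :
    eval x (pull p) = eval (fun ij : Fin 2 × Fin 2 => Phi x ij.1 ij.2) p := by
  unfold pull
  induction p using MvPolynomial.induction_on with
  | C a => simp
  | add p q hp hq => simp only [map_add, hp, hq]
  | mul_X p i hp =>
    rw [map_mul, map_mul, map_mul, hp, aeval_X, eval_X]
    congr 1
    rw [Phi_map]
    simp

theorem H_irred (p q : MvPolynomial (Fin 2 × Fin 2) K)
    (h : ∀ g ∈ H, MvPolynomial.eval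
            (fun ij : Fin 2 × Fin 2 => (↑g : Matrix (Fin 2) (Fin 2) K) ij.1 ij.2) (p * q) = 0) :
        (∀ g ∈ H, MvPolynomial.eval
            (fun ij : Fin 2 × Fin 2 => (↑g : Matrix (Fin 2) (Fin 2) K) ij.1 ij.2) p = 0) ∨
        (∀ g ∈ H, MvPolynomial.eval
            (fun ij : Fin 2 × Fin 2 => (↑g : Matrix (Fin 2) (Fin 2) K) ij.1 ij.2) q = 0) := by
  have h0 : pull p * pull q = 0 := by
    apply MvPolynomial.funext
    intro x
    rw [map_mul, eval_pull, eval_pull, ← map_mul, map_zero]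
    obtain ⟨g, hg⟩ : ∃ g : GL (Fin 2) K, (g : Matrix (Fin 2) (Fin 2) K) = Phi x :=
      ⟨Matrix.SpecialLinearGroup.toGL ⟨Phi x, Phi_det x⟩, rfl⟩
    have := h g ((mem_H g).2 (by rw [hg, Phi_det]))
    rw [hg] at this
    exact this
  have key : ∀ r : MvPolynomial (Fin 2 × Fin 2) K, pull r = 0 → ∀ g ∈ H, MvPolynomial.eval
      (fun ij : Fin 2 × Fin 2 => (↑g : Matrix (Fin 2) (Fin 2) K) ij.1 ij.2) r = 0 := by
    intro r hr g hg
    obtain ⟨x, hx⟩ := Phi_surj (g : Matrix (Fin 2) (Fin 2) K) ((mem_H g).1 hg)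
    rw [← hx, ← eval_pull, hr, map_zero]
  rcases mul_eq_zero.1 h0 with h | h
  · exact Or.inl (key p h)
  · exact Or.inr (key q h)

/-! ### The word in the free group -/

/-- our word: `a a (b a b⁻¹) a (b a b⁻¹) (b a b⁻¹) a (b a b⁻¹)`. -/
def W : FreeGroup (Fin 2) :=
  wd (FreeGroup.of 0) (FreeGroup.of 1 * FreeGroup.of 0 * (FreeGroup.of 1)⁻¹)

theorem lift_W {G : Type*} [Group G] (x : Fin 2 → G) :
    FreeGroup.lift x W = wd (x 0) (x 1 * x 0 * (x 1)⁻¹) := by
  unfold W wd
  simp only [map_mul, map_inv, FreeGroup.lift_apply_of]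

theorem W_ne_one : W ≠ 1 := by
  intro h
  have h1 := congrArg (FreeGroup.lift (fun i : Fin 2 => Multiplicative.ofAdd (if i = 0 then (1 : ℤ)
    else 0))) h
  rw [lift_W, map_one] at h1
  revert h1
  unfold wd
  simp only [← ofAdd_add, ← ofAdd_neg, ← ofAdd_zero]
  decide

theorem W_not_sq (v : FreeGroup (Fin 2)) : W ≠ v * v := by
  intro h
  let A : GL (Fin 2) (ZMod 3) := ⟨!![0, 1; 2, 1], !![1, 2; 1, 0], by decide, by decide⟩
  let B : GL (Fin 2) (ZMod 3) := ⟨!![0, 1; 2, 0], !![0, 2; 1, 0], by decide, by decide⟩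
  have h1 := congrArg (FreeGroup.lift ![A, B]) h
  rw [lift_W, map_mul] at h1
  have h2 : ((wd (![A, B] 0) (![A, B] 1 * ![A, B] 0 * (![A, B] 1)⁻¹) : GL (Fin 2) (ZMod 3)) :
      Matrix (Fin 2) (Fin 2) (ZMod 3)) = !![1, 2; 1, 0] := by
    decide
  have h3 : ∀ X : Matrix (Fin 2) (Fin 2) (ZMod 3), X * X ≠ !![1, 2; 1, 0] := by decide
  apply h3 ((FreeGroup.lift ![A, B] v : GL (Fin 2) (ZMod 3)) : Matrix (Fin 2) (Fin 2) (ZMod 3))
  rw [← h2, h1]
  rfl

theorem W_not_pow (v : FreeGroup (Fin 2)) (k : ℕ) (hk : 2 ≤ k) : W ≠ v ^ k := by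
  intro h
  -- k divides 8
  have h1 := congrArg (FreeGroup.lift (fun i : Fin 2 => Multiplicative.ofAdd (if i = 0 then (1 : ℤ)
    else 0))) h
  rw [lift_W, map_pow] at h1
  obtain ⟨m, hm⟩ : ∃ m : ℤ, FreeGroup.lift (fun i : Fin 2 => Multiplicative.ofAdd
      (if i = 0 then (1 : ℤ) else 0)) v = Multiplicative.ofAdd m := ⟨_, rfl⟩
  rw [hm, ← ofAdd_nsmul] at h1
  have h2 : (8 : ℤ) = k * m := by
    have := congrArg Multiplicative.toAdd h1
    simp [wd] at this
    linarith
  have h3 : (k : ℤ) ∣ 8 := ⟨m, h2⟩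
  have h4 : k ∣ 8 := by exact_mod_cast h3
  have h5 : k ≤ 8 := Nat.le_of_dvd (by norm_num) h4
  have h6 : ∃ j, k = 2 * j := by
    interval_cases k <;> first | exact ⟨1, rfl⟩ | exact ⟨2, rfl⟩ | exact ⟨4, rfl⟩ | (exfalso; revert h4; decide) | exact ⟨3, rfl⟩
  obtain ⟨j, rfl⟩ := h6
  apply W_not_sq (v ^ j)
  rw [h, two_mul, pow_add]

/-! ### The main argument -/

theorem no_unipotent (x : Fin 2 → H) (g : H)
    (hg : (g : GL (Fin 2) K) = Matrix.SpecialLinearGroup.toGL
      (⟨!![1, 1; 0, 1], by simp [Matrix.det_fin_two]⟩ : Matrix.SpecialLinearGroup (Fin 2) K)) :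
    FreeGroup.lift x W ≠ g := by
  rw [lift_W]
  intro h
  set u := x 0 with hu
  obtain ⟨v, hv⟩ : ∃ v, v = x 1 * u * (x 1)⁻¹ := ⟨_, rfl⟩
  rw [← hv] at h
  have hdu : Matrix.det ((u : GL (Fin 2) K) : Matrix (Fin 2) (Fin 2) K) = 1 := (mem_H _).1 u.2
  have hdv : Matrix.det ((v : GL (Fin 2) K) : Matrix (Fin 2) (Fin 2) K) = 1 := (mem_H _).1 v.2
  have htr : Matrix.trace ((v : GL (Fin 2) K) : Matrix (Fin 2) (Fin 2) K)
      = Matrix.trace ((u : GL (Fin 2) K) : Matrix (Fin 2) (Fin 2) K) := by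
    rw [hv]
    exact Matrix.trace_units_conj ((x 1 : H) : GL (Fin 2) K)
      ((u : GL (Fin 2) K) : Matrix (Fin 2) (Fin 2) K)
  have hm : wd ((u : GL (Fin 2) K) : Matrix (Fin 2) (Fin 2) K)
      ((v : GL (Fin 2) K) : Matrix (Fin 2) (Fin 2) K) = !![1, 1; 0, 1] := by
    have h1 : ((g : GL (Fin 2) K) : Matrix (Fin 2) (Fin 2) K) = !![1, 1; 0, 1] := by
      rw [hg]; rfl
    rw [← h1, ← h]
    rfl
  have h2 : (2 : K) = 0 := CharTwo.two_eq_zero
  have h3 := wd_eq_one _ _ hdu hdv htr (by
    rw [hm, Matrix.trace_fin_two]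
    simp
    linear_combination h2)
  rw [hm] at h3
  have := congrFun (congrFun h3 0) 1
  simp at this

/-- The negation of the preceding statement: For every algebraically closed K and every Zariski-closed irreducible subgroup of GL_n(K) that is simple as an abstract group, every word map from a word that is nontrivial and not a proper power is surjective. -/
theorem result :
    ¬ (∀ (K : Type) [Field K] [IsAlgClosed K] (n : ℕ) (H : Subgroup (GL (Fin n) K)),
      (∃ S : Set (MvPolynomial (Fin n × Fin n) K), ∀ g : GL (Fin n) K,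
        g ∈ H ↔ ∀ p ∈ S,
          MvPolynomial.eval (fun ij : Fin n × Fin n => (↑g : Matrix (Fin n) (Fin n) K) ij.1 ij.2) p = 0) →
      (∀ p q : MvPolynomial (Fin n × Fin n) K,
        (∀ g ∈ H, MvPolynomial.eval
            (fun ij : Fin n × Fin n => (↑g : Matrix (Fin n) (Fin n) K) ij.1 ij.2) (p * q) = 0) →
        (∀ g ∈ H, MvPolynomial.eval
            (fun ij : Fin n × Fin n => (↑g : Matrix (Fin n) (Fin n) K) ij.1 ij.2) p = 0) ∨
        (∀ g ∈ H, MvPolynomial.eval
            (fun ij : Fin n × Fin n => (↑g : Matrix (Fin n) (Fin n) K) ij.1 ij.2) q = 0)) →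
      IsSimpleGroup H →
      ∀ (d : ℕ) (w : FreeGroup (Fin d)), w ≠ 1 →
        (∀ (v : FreeGroup (Fin d)) (k : ℕ), 2 ≤ k → w ≠ v ^ k) →
        ∀ h : H, ∃ x : Fin d → H, FreeGroup.lift x w = h) := by
  intro hall
  have h1 := hall (AlgebraicClosure (ZMod 2)) 2 H H_closed H_irred H_simple 2 W W_ne_one W_not_pow
  obtain ⟨x, hx⟩ := h1 ⟨Matrix.SpecialLinearGroup.toGL
      (⟨!![1, 1; 0, 1], by simp [Matrix.det_fin_two]⟩ : Matrix.SpecialLinearGroup (Fin 2) K),
      ⟨_, rfl⟩⟩
  exact no_unipotent x _ rfl hx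

end Pool.Agent.S1066
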