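import Pool.Statements.S1112
import Pool.Agent.Helpers29.Lv4

set_option autoImplicit false
open Pool Pool.MP_eace53_al

namespace Pool.Agent.S1112

open Pool.Agent.Helpers29.Lv

/-- The negation of the preceding statement: For every finite group H there are finitely many group quasi-identities whose models are exactly the groups in which every normal closure of one element embeds in a direct power of H. -/
theorem result :
    ¬ (∀ (H : Type) [Group H] [Finite H],
      ∃ (k : ℕ) (n : Fin k → ℕ) (prem : (i : Fin k) → List (FreeGroup (Fin (n i))))
        (concl : (i : Fin k) → FreeGroup (Fin (n i))),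
        ∀ (G : Type) [Group G],
          (∀ a : G, ∃ (I : Type) (φ : (Subgroup.normalClosure ({a} : Set G)) →* (I → H)),
              Function.Injective φ) ↔
          (∀ i : Fin k, ∀ f : Fin (n i) → G,
              (∀ p ∈ prem i, FreeGroup.lift f p = 1) → FreeGroup.lift f (concl i) = 1)) := by
  intro hall
  obtain ⟨k, n, prem, concl, hiff⟩ := hall HH
  have : Fact (Nat.Prime 3) := ⟨Nat.prime_three⟩
  let M : ℕ := Finset.univ.sup n
  have hM : ∀ i, n i ≤ M := fun i => Finset.le_sup (Finset.mem_univ i)
  let L := GaloisField 3 (M + 5)
  have hfr : Module.finrank F3 L = M + 5 := GaloisField.finrank 3 (by omega)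
  have hfin : Finite L := inferInstance
  have hG : ∀ a : GG L, ∃ (I : Type) (φ : (Subgroup.normalClosure ({a} : Set (GG L))) →* (I → HH)),
      Function.Injective φ := by
    rw [hiff (GG L)]
    intro i f hp
    let U : AddSubgroup (Module.Dual F3 L) :=
      (Submodule.span F3 (Set.range fun j => (f j).v)).toAddSubgroup
    have hK := embed_of_resid (K := sub (bL L) U) (H := HH)
      (fun x hx => resid (k := n i) (by have := hM i; omega) (fun j => (f j).v) U
        (fun u hu => hu) x hx)
    have hq := (hiff (sub (bL L) U)).1 (fun a => hK _)
    let f' : Fin (n i) → sub (bL L) U := fun j => ⟨f j, Submodule.subset_span ⟨j, rfl⟩⟩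
    have hl : ∀ w, ((FreeGroup.lift f' w : sub (bL L) U) : GG L) = FreeGroup.lift f w := by
      intro w
      have h : (sub (bL L) U).subtype.comp (FreeGroup.lift f') = FreeGroup.lift f := by
        refine FreeGroup.ext_hom _ _ fun j => ?_
        simp [f']
      exact DFunLike.congr_fun h w
    have h1 := hq i f' (fun p hpp => Subtype.ext ((hl p).trans (hp p hpp)))
    rw [← hl, h1]
    rfl
  obtain ⟨I, φ, hφ⟩ := hG (tau L)
  exact not_embed (L := L) (by omega) I φ hφ

end Pool.Agent.S1112
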