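import Pool.Statements.S1127
-- import your own Pool.Agent.* helpers here

set_option autoImplicit false
open Pool Pool.MP_ef54ea_al

namespace Pool.Agent.S1127

/-- the value group -/
abbrev Γ := ℤ ×ₗ ℤ

/-- the big valued field -/
abbrev Z := HahnSeries Γ ℚ

/-- the first uniformizer -/
noncomputable def s : Z := HahnSeries.single (toLex (1, 0)) 1
/-- the second uniformizer -/
noncomputable def t : Z := HahnSeries.single (toLex (0, 1)) 1

theorem orderTop_s : s.orderTop = ((toLex (1, 0) : Γ) : WithTop Γ) := 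
  HahnSeries.orderTop_single one_ne_zero
theorem orderTop_t : t.orderTop = ((toLex (0, 1) : Γ) : WithTop Γ) := 
  HahnSeries.orderTop_single one_ne_zero
theorem s_ne : s ≠ 0 := by
  rw [← HahnSeries.orderTop_ne_top, orderTop_s]; exact WithTop.coe_ne_top
theorem t_ne : t ≠ 0 := by
  rw [← HahnSeries.orderTop_ne_top, orderTop_t]; exact WithTop.coe_ne_top

/-- the quadratic form -/
noncomputable def Q (a : Fin 3 → Z) : Z := s * a 0 ^ 2 + t * a 1 ^ 2 + s * t * a 2 ^ 2

theorem term_order (c x : Z) (g : Γ) (hc : c.orderTop = g) :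
    (c * x ^ 2).orderTop = ⊤ ∨ ∃ h : Γ, (c * x ^ 2).orderTop = ((g + (h + h) : Γ) : WithTop Γ) := by
  by_cases hx : x = 0
  · left; simp [hx]
  · right
    obtain ⟨h, hh⟩ := WithTop.ne_top_iff_exists.1 (HahnSeries.orderTop_ne_top.2 hx)
    refine ⟨h, ?_⟩
    rw [pow_two, HahnSeries.orderTop_mul, HahnSeries.orderTop_mul, hc, ← hh]
    rfl

theorem add_order (x y : Z) (h : x.orderTop ≠ y.orderTop ∨ (x.orderTop = ⊤ ∧ y.orderTop = ⊤)) :
    (x + y).orderTop = min x.orderTop y.orderTop := by
  rcases h with h | ⟨h1, h2⟩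
  · rcases lt_or_gt_of_ne h with h | h
    · rw [HahnSeries.orderTop_add_eq_left h, min_eq_left h.le]
    · rw [HahnSeries.orderTop_add_eq_right h, min_eq_right h.le]
  · rw [HahnSeries.orderTop_eq_top] at h1 h2
    simp [h1, h2]

/-- classes modulo two -/
def cls (g : Γ) : Prop := ¬ (2 ∣ (ofLex g).1 ∧ 2 ∣ (ofLex g).2)

/-- the order of the form is odd -/
theorem Q_order (a : Fin 3 → Z) (ha : a ≠ 0) :
    ∃ g : Γ, (Q a).orderTop = g ∧ g ≠ 0 := by
  have hst : (s * t).orderTop = ((toLex (1, 1) : Γ) : WithTop Γ) := by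
    rw [HahnSeries.orderTop_mul, orderTop_s, orderTop_t]; rfl
  have hA := term_order s (a 0) _ orderTop_s
  have hB := term_order t (a 1) _ orderTop_t
  have hC := term_order (s * t) (a 2) _ hst
  set A := s * a 0 ^ 2 with hAdef
  set B := t * a 1 ^ 2 with hBdef
  set C := s * t * a 2 ^ 2 with hCdef
  have hne : ∀ (g g' h h' : Γ), (((g + (h + h) : Γ) : WithTop Γ)) = ((g' + (h' + h') : Γ) : WithTop Γ) →
      (2 ∣ (ofLex g).1 - (ofLex g').1) ∧ (2 ∣ (ofLex g).2 - (ofLex g').2) := by
    intro g g' h h' heq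
    have h1 : g + (h + h) = g' + (h' + h') := WithTop.coe_injective heq
    have h2 := congrArg (fun x : Γ => (ofLex x).1) h1
    have h3 := congrArg (fun x : Γ => (ofLex x).2) h1
    change (ofLex g).1 + ((ofLex h).1 + (ofLex h).1) = (ofLex g').1 + ((ofLex h').1 + (ofLex h').1) at h2
    change (ofLex g).2 + ((ofLex h).2 + (ofLex h).2) = (ofLex g').2 + ((ofLex h').2 + (ofLex h').2) at h3
    omega
  have e1 : (ofLex (toLex ((1 : ℤ), (0 : ℤ)))) = (1, 0) := rfl
  have e2 : (ofLex (toLex ((0 : ℤ), (1 : ℤ)))) = (0, 1) := rfl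
  have e3 : (ofLex (toLex ((1 : ℤ), (1 : ℤ)))) = (1, 1) := rfl
  have hAB : A.orderTop ≠ B.orderTop ∨ (A.orderTop = ⊤ ∧ B.orderTop = ⊤) := by
    rcases hA with hA | ⟨h, hA⟩ <;> rcases hB with hB | ⟨h', hB⟩
    · right; exact ⟨hA, hB⟩
    · left; rw [hA, hB]; exact WithTop.top_ne_coe
    · left; rw [hA, hB]; exact WithTop.coe_ne_top
    · left; rw [hA, hB]; intro h0
      have := hne _ _ _ _ h0
      rw [e1, e2] at this
      simp at this
  have hABo := add_order A B hAB
  have hABC : (A + B).orderTop ≠ C.orderTop ∨ ((A + B).orderTop = ⊤ ∧ C.orderTop = ⊤) := by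
    rw [hABo]
    rcases hA with hA | ⟨h, hA⟩ <;> rcases hB with hB | ⟨h', hB⟩ <;> rcases hC with hC | ⟨h'', hC⟩
    · right; rw [hA, hB, hC]; simp
    · left; rw [hA, hB, hC, min_self]; exact WithTop.top_ne_coe
    · left; rw [hA, hB, hC]; simp
    · left; rw [hA, hB, hC]; rw [min_eq_right le_top]; intro h0
      have := hne _ _ _ _ h0
      rw [e3, e2] at this
      simp at this
    · left; rw [hA, hB, hC]; simp
    · left; rw [hA, hB, hC]; rw [min_eq_left le_top]; intro h0
      have := hne _ _ _ _ h0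
      rw [e3, e1] at this
      simp at this
    · left; rw [hA, hB, hC]; simp
    · left; rw [hA, hB, hC]; intro h0
      rcases min_choice (((toLex (1, 0) : Γ) + (h + h) : Γ) : WithTop Γ) (((toLex (0, 1) : Γ) + (h' + h') : Γ) : WithTop Γ) with h1 | h1
      · rw [h1] at h0
        have := hne _ _ _ _ h0
        rw [e3, e1] at this
        simp at this
      · rw [h1] at h0
        have := hne _ _ _ _ h0
        rw [e3, e2] at this
        simp at this
  have hfin := add_order (A + B) C hABC
  rw [hABo] at hfin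
  have hQ : Q a = A + B + C := rfl
  rw [hQ, hfin]
  have hzero : ∀ (g h : Γ), (¬ (2 ∣ (ofLex g).1) ∨ ¬ (2 ∣ (ofLex g).2)) → g + (h + h) ≠ 0 := by
    intro g h hg h0
    have h2 := congrArg (fun x : Γ => (ofLex x).1) h0
    have h3 := congrArg (fun x : Γ => (ofLex x).2) h0
    change (ofLex g).1 + ((ofLex h).1 + (ofLex h).1) = 0 at h2
    change (ofLex g).2 + ((ofLex h).2 + (ofLex h).2) = 0 at h3
    omega
  have key : ∀ o : WithTop Γ, (o = A.orderTop ∨ o = B.orderTop ∨ o = C.orderTop) → o ≠ ⊤ →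
      ∃ g : Γ, o = g ∧ g ≠ 0 := by
    rintro o (rfl | rfl | rfl) ho
    · rcases hA with hA | ⟨h, hA⟩
      · exact absurd hA ho
      · exact ⟨_, hA, hzero _ _ (by rw [e1]; simp)⟩
    · rcases hB with hB | ⟨h, hB⟩
      · exact absurd hB ho
      · exact ⟨_, hB, hzero _ _ (by rw [e2]; simp)⟩
    · rcases hC with hC | ⟨h, hC⟩
      · exact absurd hC ho
      · exact ⟨_, hC, hzero _ _ (by rw [e3]; simp)⟩
  apply key
  · rcases min_choice (min A.orderTop B.orderTop) C.orderTop with h | h
    · rw [h]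
      rcases min_choice A.orderTop B.orderTop with h | h
      · rw [h]; left; rfl
      · rw [h]; right; left; rfl
    · rw [h]; right; right; rfl
  · intro h0
    rw [min_eq_top, min_eq_top] at h0
    obtain ⟨⟨h1, h2⟩, h3⟩ := h0
    rw [HahnSeries.orderTop_eq_top] at h1 h2 h3
    apply ha
    have k0 : a 0 = 0 := by
      have := (mul_eq_zero.1 h1).resolve_left s_ne
      exact pow_eq_zero_iff (two_ne_zero) |>.1 this
    have k1 : a 1 = 0 := by
      have := (mul_eq_zero.1 h2).resolve_left t_ne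
      exact pow_eq_zero_iff (two_ne_zero) |>.1 this
    have k2 : a 2 = 0 := by
      have := (mul_eq_zero.1 h3).resolve_left (mul_ne_zero s_ne t_ne)
      exact pow_eq_zero_iff (two_ne_zero) |>.1 this
    funext i
    fin_cases i
    · exact k0
    · exact k1
    · exact k2

/-- elements of nonzero order are transcendental over the rationals -/
theorem transc_pos (q : Z) (hq : 0 < q.orderTop) (hq0 : q ≠ 0) (f : Polynomial ℚ) (hf : f ≠ 0) :
    Polynomial.aeval q f ≠ 0 := by
  intro h0
  obtain ⟨g, hg, hnd⟩ := Polynomial.exists_eq_pow_rootMultiplicity_mul_and_not_dvd f hf 0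
  rw [hg, map_mul, map_pow] at h0
  have hX : Polynomial.aeval q (Polynomial.X - Polynomial.C (0 : ℚ)) = q := by simp
  rw [hX] at h0
  have hg0 : Polynomial.aeval q g = 0 := (mul_eq_zero.1 h0).resolve_left (pow_ne_zero _ hq0)
  have hc : g.coeff 0 ≠ 0 := by
    intro hc
    apply hnd
    rw [map_zero, sub_zero, Polynomial.X_dvd_iff]
    exact hc
  have hnn : ∀ h : Polynomial ℚ, 0 ≤ (Polynomial.aeval q h).orderTop := by
    intro h
    induction h using Polynomial.induction_on' with
    | add p r hp hr =>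
      rw [map_add]
      exact le_trans (le_min hp hr) HahnSeries.min_orderTop_le_orderTop_add
    | monomial n c =>
      rw [Polynomial.aeval_monomial, HahnSeries.orderTop_mul]
      refine add_nonneg ?_ ?_
      · rw [HahnSeries.algebraMap_apply]
        by_cases hc : c = 0
        · simp [hc]
        · change 0 ≤ (HahnSeries.C c : Z).orderTop
          rw [HahnSeries.C_apply, HahnSeries.orderTop_single hc]
          rfl
      · induction n with
        | zero => simp
        | succ n ih =>
          rw [pow_succ, HahnSeries.orderTop_mul]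
          exact add_nonneg ih hq.le
  have h1 : g = g.divX * Polynomial.X + Polynomial.C (g.coeff 0) := (Polynomial.divX_mul_X_add g).symm
  rw [h1, map_add, map_mul, Polynomial.aeval_X, Polynomial.aeval_C] at hg0
  have h2 : (algebraMap ℚ Z (g.coeff 0)) = -(Polynomial.aeval q g.divX * q) := by
    linear_combination hg0
  have h3 := congrArg HahnSeries.orderTop h2
  rw [HahnSeries.orderTop_neg, HahnSeries.orderTop_mul] at h3
  have h4 : (algebraMap ℚ Z (g.coeff 0)).orderTop = 0 := by
    rw [HahnSeries.algebraMap_apply]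
    change (HahnSeries.C (g.coeff 0) : Z).orderTop = 0
    rw [HahnSeries.C_apply, HahnSeries.orderTop_single hc]
    rfl
  rw [h4] at h3
  have h5 : 0 < (Polynomial.aeval q g.divX).orderTop + q.orderTop := 
    lt_of_lt_of_le hq (le_add_of_nonneg_left (hnn _))
  rw [← h3] at h5
  exact lt_irrefl _ h5

theorem transc (q : Z) (g : Γ) (hq : q.orderTop = g) (hg : g ≠ 0) (f : Polynomial ℚ) (hf : f ≠ 0) :
    Polynomial.aeval q f ≠ 0 := by
  have hq0 : q ≠ 0 := by
    rw [← HahnSeries.orderTop_ne_top, hq]; exact WithTop.coe_ne_top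
  rcases lt_or_gt_of_ne hg with h | h
  · intro h0
    have hinv : (q⁻¹).orderTop = ((-g : Γ) : WithTop Γ) := by
      have h1 : (q * q⁻¹).orderTop = 0 := by rw [mul_inv_cancel₀ hq0]; simp
      rw [HahnSeries.orderTop_mul, hq] at h1
      have h2 : (q⁻¹).orderTop ≠ ⊤ := HahnSeries.orderTop_ne_top.2 (inv_ne_zero hq0)
      obtain ⟨h3, hh⟩ := WithTop.ne_top_iff_exists.1 h2
      rw [← hh] at h1 ⊢
      have h4 : g + h3 = 0 := WithTop.coe_injective h1
      rw [eq_neg_of_add_eq_zero_right h4]
    have h5 : 0 < (q⁻¹).orderTop := by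
      rw [hinv]
      have : (0 : Γ) < -g := neg_pos.2 h
      exact WithTop.coe_lt_coe.2 this
    refine transc_pos q⁻¹ h5 (inv_ne_zero hq0) f.reverse (by simpa using hf) ?_
    let _ := invertibleOfNonzero hq0
    have h6 := (Polynomial.eval₂_reverse_eq_zero_iff (algebraMap ℚ Z) q f).2 h0
    rw [invOf_eq_inv] at h6
    exact h6
  · refine transc_pos q ?_ hq0 f hf
    rw [hq]
    exact WithTop.coe_lt_coe.2 h

/-! ### The Lie algebra -/

/-- the underlying space -/
def L : Type := Fin 3 → Z

noncomputable instance : AddCommGroup L := inferInstanceAs (AddCommGroup (Fin 3 → Z))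
noncomputable instance : Module Z L := inferInstanceAs (Module Z (Fin 3 → Z))
noncomputable instance : Module ℚ L := inferInstanceAs (Module ℚ (Fin 3 → Z))
instance : IsScalarTower ℚ Z L := inferInstanceAs (IsScalarTower ℚ Z (Fin 3 → Z))

@[ext] theorem L.ext {x y : L} (h0 : x 0 = y 0) (h1 : x 1 = y 1) (h2 : x 2 = y 2) : x = y := by
  funext i
  fin_cases i
  · exact h0
  · exact h1
  · exact h2

@[simp] theorem L.add_apply (x y : L) (i : Fin 3) : (x + y) i = x i + y i := rfl
@[simp] theorem L.smulQ_apply (c : ℚ) (y : L) (i : Fin 3) : (c • y) i = c • y i := rfl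
@[simp] theorem L.smulZ_apply (c : Z) (y : L) (i : Fin 3) : (c • y) i = c * y i := rfl
@[simp] theorem L.zero_apply (i : Fin 3) : (0 : L) i = 0 := rfl

noncomputable instance : Bracket L L where
  bracket x y := ![t * (x 1 * y 2 - x 2 * y 1), s * (x 2 * y 0 - x 0 * y 2), x 0 * y 1 - x 1 * y 0]

@[simp] theorem L.br0 (x y : L) : ⁅x, y⁆ 0 = t * (x 1 * y 2 - x 2 * y 1) := rfl
@[simp] theorem L.br1 (x y : L) : ⁅x, y⁆ 1 = s * (x 2 * y 0 - x 0 * y 2) := rfl
@[simp] theorem L.br2 (x y : L) : ⁅x, y⁆ 2 = x 0 * y 1 - x 1 * y 0 := rfl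

noncomputable instance : LieRing L where
  add_lie x y z := by ext1 <;> simp <;> ring
  lie_add x y z := by ext1 <;> simp <;> ring
  lie_self x := by ext1 <;> simp only [L.br0, L.br1, L.br2, L.zero_apply] <;> ring
  leibniz_lie x y z := by ext1 <;> simp <;> ring

noncomputable instance : LieAlgebra ℚ L where
  lie_smul c x y := by
    ext1 <;> simp only [L.br0, L.br1, L.br2, L.smulQ_apply, Algebra.smul_def] <;> ring

/-- the square of the adjoint action on its image -/
theorem ad_sq (a v : L) : ⁅a, ⁅a, ⁅a, v⁆⁆⁆ = (-(Q a)) • ⁅a, v⁆ := by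
  ext1 <;> simp only [L.br0, L.br1, L.br2, L.smulZ_apply, Q] <;> ring

/-- vectors from coordinates -/
def mk (a b c : Z) : L := ![a, b, c]
@[simp] theorem mk_0 (a b c : Z) : mk a b c 0 = a := rfl
@[simp] theorem mk_1 (a b c : Z) : mk a b c 1 = b := rfl
@[simp] theorem mk_2 (a b c : Z) : mk a b c 2 = c := rfl

/-- simplicity -/
theorem L_simple : LieAlgebra.IsSimple ℚ L := by
  refine ⟨?_, ?_⟩
  · intro I
    by_cases hI : I = ⊥
    · left; exact hI
    right
    obtain ⟨a, haI, ha0⟩ : ∃ a ∈ I, a ≠ 0 := by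
      by_contra hcon
      push Not at hcon
      apply hI
      rw [LieSubmodule.eq_bot_iff]
      exact hcon
    have hbr : ∀ x ∈ I, ∀ y : L, ⁅x, y⁆ ∈ I := fun x hx y => lie_mem_left ℚ L I x y hx
    -- the three coordinate lines
    let e0 : Z → L := fun z => mk z 0 0
    let e1 : Z → L := fun z => mk 0 z 0
    let e2 : Z → L := fun z => mk 0 0 z
    have hs := s_ne
    have ht := t_ne
    have r0 : (∀ z, e0 z ∈ I) → (∀ z, e1 z ∈ I) ∧ (∀ z, e2 z ∈ I) := by
      intro h
      constructor
      · intro z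
        have := hbr _ (h (-(s⁻¹ * z))) (e2 1)
        convert this using 1
        ext1 <;> simp [e0, e1, e2]
        field_simp
      · intro z
        have := hbr _ (h z) (e1 1)
        convert this using 1
        ext1 <;> simp [e0, e1, e2]
    have r1 : (∀ z, e1 z ∈ I) → (∀ z, e0 z ∈ I) := by
      intro h z
      have := hbr _ (h (t⁻¹ * z)) (e2 1)
      convert this using 1
      ext1 <;> simp [e0, e1, e2]
      field_simp
    have hall : (∀ z, e0 z ∈ I) → I = ⊤ := by
      intro h
      obtain ⟨h1, h2⟩ := r0 h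
      rw [eq_top_iff]
      intro x _
      have : x = e0 (x 0) + e1 (x 1) + e2 (x 2) := by
        ext1 <;> simp [e0, e1, e2]
      rw [this]
      exact add_mem (add_mem (h _) (h1 _)) (h2 _)
    have hcase : a 0 ≠ 0 ∨ a 1 ≠ 0 ∨ a 2 ≠ 0 := by
      by_contra hcon
      push Not at hcon
      apply ha0
      ext1
      · exact hcon.1
      · exact hcon.2.1
      · exact hcon.2.2
    rcases hcase with h | h | h
    · -- get e1
      apply hall
      apply r1
      intro z
      have := hbr _ (hbr _ haI (e1 ((s * a 0)⁻¹ * z))) (e0 1)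
      convert this using 1
      ext1 <;> simp [e0, e1, e2]
      field_simp
    · apply hall
      intro z
      have := hbr _ (hbr _ haI (e0 ((t * a 1)⁻¹ * z))) (e1 1)
      convert this using 1
      ext1 <;> simp [e0, e1, e2]
      field_simp
    · apply hall
      intro z
      have := hbr _ (hbr _ haI (e0 ((s * t * a 2)⁻¹ * z))) (e2 1)
      convert this using 1
      ext1 <;> simp [e0, e1, e2]
      field_simp
  · intro hab
    have h1 := hab.trivial (mk 1 0 0) (mk 0 1 0)
    have h2 : ⁅mk 1 0 0, mk 0 1 0⁆ 2 = (0 : L) 2 := by rw [h1]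
    simp at h2

theorem adpure (a : L) (V : Submodule ℚ L) (hfin : FiniteDimensional ℚ V)
    (hV : ∀ v ∈ V, ⁅a, v⁆ ∈ V) (v : L) (hv : v ∈ V) : ⁅a, v⁆ = 0 := by
  by_contra hne
  have ha : a ≠ 0 := by
    rintro rfl
    exact hne (zero_lie v)
  obtain ⟨g, hg, hg0⟩ := Q_order a ha
  -- the square of `ad a` as an endomorphism of `V`
  let D : V →ₗ[ℚ] V := ((LieAlgebra.ad ℚ L a).restrict hV)
  let E : Module.End ℚ V := D * D
  have hE : Polynomial.aeval E E.charpoly = 0 := LinearMap.aeval_self_charpoly E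
  have hcp : E.charpoly ≠ 0 := (LinearMap.charpoly_monic E).ne_zero
  let w : V := ⟨⁅a, v⁆, hV v hv⟩
  have hE1 : ∀ f : Polynomial ℚ, ((Polynomial.aeval E f w : V) : L) = 
      (Polynomial.aeval (-(Q a)) f : Z) • (w : L) := by
    intro f
    have hsm : ∀ (z : Z) (u : V), (u : L) = z • (w : L) → ((E u : V) : L) = (-(Q a) * z) • (w : L) := by
      intro z u hu
      change ⁅a, ⁅a, (u : L)⁆⁆ = _
      rw [hu]
      change ⁅a, ⁅a, z • ⁅a, v⁆⁆⁆ = (-(Q a) * z) • ⁅a, v⁆
      ext1 <;> simp only [L.br0, L.br1, L.br2, L.smulZ_apply, Q] <;> ring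
    have hpow : ∀ n : ℕ, (((E ^ n) w : V) : L) = ((-(Q a)) ^ n) • (w : L) := by
      intro n
      induction n with
      | zero => simp
      | succ n ih =>
        rw [pow_succ', Module.End.mul_apply, hsm _ _ ih, pow_succ']
    induction f using Polynomial.induction_on' with
    | add p r hp hr =>
      rw [map_add, LinearMap.add_apply, map_add, add_smul, ← hp, ← hr]
      rfl
    | monomial n c =>
      rw [Polynomial.aeval_monomial, Polynomial.aeval_monomial, Module.End.mul_apply, mul_smul, ← hpow]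
      rw [Module.algebraMap_end_apply, algebraMap_smul]
      rfl
  have h1 := hE1 E.charpoly
  rw [hE] at h1
  have h2 : (Polynomial.aeval (-(Q a)) E.charpoly : Z) • (⁅a, v⁆ : L) = 0 := h1.symm
  have h3 : (-(Q a)).orderTop = g := by rw [HahnSeries.orderTop_neg, hg]
  have h4 := transc _ g h3 hg0 _ hcp
  exact hne ((smul_eq_zero.1 h2).resolve_left h4)

/-- There is a field K and a simple Lie algebra L over K such that for every a in L, every finite-dimensional subspace of L invariant under ad a is killed by ad a. -/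
theorem result :
    ∃ (K : Type) (_ : Field K) (L : Type) (_ : LieRing L) (_ : LieAlgebra K L),
      LieAlgebra.IsSimple K L ∧
      ∀ a : L, ∀ V : Submodule K L, FiniteDimensional K V →
        (∀ v ∈ V, ⁅a, v⁆ ∈ V) → ∀ v ∈ V, ⁅a, v⁆ = 0 := by
  exact ⟨ℚ, inferInstance, L, inferInstance, inferInstance, L_simple, adpure⟩

end Pool.Agent.S1127
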