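import Pool.Statements.S1131
import Pool.Agent.H1.RadoAlg

set_option autoImplicit false
open Pool Pool.MP_f0391a_al

namespace Pool.Agent.S1131

open Pool.Agent.H1.Rado

/-- indicator exponent -/
noncomputable def ind (X : Finset ℕ) : ℕ →₀ ℕ := Finsupp.indicator X (fun _ _ => 1)

lemma ind_apply (X : Finset ℕ) (i : ℕ) : ind X i = if i ∈ X then 1 else 0 := by
  simp [ind, Finsupp.indicator_apply]

lemma ind_support (X : Finset ℕ) : (ind X).support = X := by
  ext i
  rw [Finsupp.mem_support_iff, ind_apply]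
  split_ifs with h <;> simp [h]

lemma eq_ind {s : ℕ →₀ ℕ} (hs : ∀ i, s i ≤ 1) : s = ind s.support := by
  ext i
  rw [ind_apply]
  have := hs i
  split_ifs with h
  · rw [Finsupp.mem_support_iff] at h; omega
  · rw [Finsupp.notMem_support_iff] at h; exact h

lemma ind_le (X : Finset ℕ) (i : ℕ) : ind X i ≤ 1 := by
  rw [ind_apply]; split_ifs <;> omega

lemma ind_sum (X : Finset ℕ) : (ind X).sum (fun _ e => e) = X.card := by
  rw [Finsupp.sum, ind_support, Finset.sum_congr rfl (g := fun _ => 1)]
  · simp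
  · intro i hi; rw [ind_apply, if_pos hi]

lemma coeff_mul_ind (f g : MvPowerSeries ℕ ℚ) (X : Finset ℕ) :
    MvPowerSeries.coeff (ind X) (f * g)
      = conv (fun Y => MvPowerSeries.coeff (ind Y) f) (fun Y => MvPowerSeries.coeff (ind Y) g) X := by
  classical
  rw [MvPowerSeries.coeff_mul]
  unfold conv
  have key : ∀ p ∈ Finset.HasAntidiagonal.antidiagonal (ind X), ind p.1.support = p.1 ∧
      ind (X \ p.1.support) = p.2 ∧ p.1.support ⊆ X := by
    rintro ⟨a, b⟩ hp
    rw [Finset.HasAntidiagonal.mem_antidiagonal] at hp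
    dsimp only at hp ⊢
    have hab : ∀ i, a i + b i = if i ∈ X then 1 else 0 := by
      intro i
      rw [← ind_apply, ← hp]; rfl
    refine ⟨?_, ?_, ?_⟩
    · apply (eq_ind _).symm
      intro i
      have := hab i
      split_ifs at this <;> omega
    · ext i
      rw [ind_apply]
      have := hab i
      have hm : i ∈ X \ a.support ↔ i ∈ X ∧ a i = 0 := by
        rw [Finset.mem_sdiff, Finsupp.notMem_support_iff]
      by_cases h1 : i ∈ X
      · rw [if_pos h1] at this
        by_cases h2 : a i = 0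
        · rw [if_pos (hm.2 ⟨h1, h2⟩)]; omega
        · rw [if_neg (fun h => h2 (hm.1 h).2)]; omega
      · rw [if_neg h1] at this
        rw [if_neg (fun h => h1 (hm.1 h).1)]; omega
    · intro i hi
      rw [Finsupp.mem_support_iff] at hi
      have := hab i
      by_contra hcon
      rw [if_neg hcon] at this
      omega
  refine Finset.sum_bij' (fun p _ => p.1.support) (fun L _ => (ind L, ind (X \ L))) ?_ ?_ ?_ ?_ ?_
  · intro p hp
    rw [Finset.mem_powerset]
    exact (key p hp).2.2
  · intro L hL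
    rw [Finset.mem_powerset] at hL
    rw [Finset.HasAntidiagonal.mem_antidiagonal]
    ext i
    rw [Finsupp.add_apply, ind_apply, ind_apply, ind_apply]
    by_cases h1 : i ∈ L
    · simp [h1, hL h1]
    · by_cases h2 : i ∈ X <;> simp [h1, h2]
  · intro p hp
    obtain ⟨h1, h2, h3⟩ := key p hp
    exact Prod.ext h1 h2
  · intro L hL
    exact ind_support L
  · intro p hp
    obtain ⟨h1, h2, h3⟩ := key p hp
    dsimp only
    rw [h1, h2]

section

variable {K : Ideal (MvPowerSeries ℕ ℚ)}

noncomputable def valFun (K : Ideal (MvPowerSeries ℕ ℚ)) (a : MvPowerSeries ℕ ℚ ⧸ K)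
    (X : Finset ℕ) : ℚ :=
  MvPowerSeries.coeff (ind X) (Quotient.out a)

lemma valFun_mk (hK : ∀ f, f ∈ K ↔ ∀ X, MvPowerSeries.coeff (ind X) f = 0)
    (f : MvPowerSeries ℕ ℚ) : valFun K (Ideal.Quotient.mk K f)
      = fun X => MvPowerSeries.coeff (ind X) f := by
  ext X
  unfold valFun
  have h := Ideal.Quotient.mk_out (Ideal.Quotient.mk K f)
  rw [Ideal.Quotient.eq, hK] at h
  have := h X
  rw [map_sub] at this
  linarith

/-- the linear equivalence -/
noncomputable def val (hK : ∀ f, f ∈ K ↔ ∀ X, MvPowerSeries.coeff (ind X) f = 0) :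
    (MvPowerSeries ℕ ℚ ⧸ K) ≃ₗ[ℚ] (Finset ℕ → ℚ) :=
  LinearEquiv.ofBijective
    { toFun := valFun K
      map_add' := by
        intro a b
        obtain ⟨f, rfl⟩ := Ideal.Quotient.mk_surjective a
        obtain ⟨g, rfl⟩ := Ideal.Quotient.mk_surjective b
        rw [← map_add, valFun_mk hK, valFun_mk hK, valFun_mk hK]
        ext X; simp
      map_smul' := by
        intro c a
        obtain ⟨f, rfl⟩ := Ideal.Quotient.mk_surjective a
        have : c • Ideal.Quotient.mk K f = Ideal.Quotient.mk K (c • f) := rfl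
        rw [this, valFun_mk hK, valFun_mk hK]
        ext X; simp }
    (by
      constructor
      · intro a b hab
        obtain ⟨f, rfl⟩ := Ideal.Quotient.mk_surjective a
        obtain ⟨g, rfl⟩ := Ideal.Quotient.mk_surjective b
        change valFun K _ = valFun K _ at hab
        rw [valFun_mk hK, valFun_mk hK] at hab
        rw [Ideal.Quotient.eq, hK]
        intro X
        have := congrFun hab X
        rw [map_sub]
        linarith
      · intro φ
        let g : MvPowerSeries ℕ ℚ := fun s => φ s.support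
        refine ⟨Ideal.Quotient.mk K g, ?_⟩
        change valFun K _ = _
        rw [valFun_mk hK]
        ext X
        change φ (ind X).support = _
        rw [ind_support])

lemma val_mk (hK : ∀ f, f ∈ K ↔ ∀ X, MvPowerSeries.coeff (ind X) f = 0)
    (f : MvPowerSeries ℕ ℚ) (X : Finset ℕ) : val hK (Ideal.Quotient.mk K f) X
      = MvPowerSeries.coeff (ind X) f := by
  change valFun K _ X = _
  rw [valFun_mk hK]

lemma val_mul (hK : ∀ f, f ∈ K ↔ ∀ X, MvPowerSeries.coeff (ind X) f = 0)
    (a b : MvPowerSeries ℕ ℚ ⧸ K) (X : Finset ℕ) :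
    val hK (a * b) X = conv (val hK a) (val hK b) X := by
  obtain ⟨f, rfl⟩ := Ideal.Quotient.mk_surjective a
  obtain ⟨g, rfl⟩ := Ideal.Quotient.mk_surjective b
  rw [← map_mul, val_mk, coeff_mul_ind]
  unfold conv
  simp only [val_mk]

lemma val_one (hK : ∀ f, f ∈ K ↔ ∀ X, MvPowerSeries.coeff (ind X) f = 0) (X : Finset ℕ) :
    val hK 1 X = if X = ∅ then 1 else 0 := by
  classical
  rw [← map_one (Ideal.Quotient.mk K), val_mk, MvPowerSeries.coeff_one]
  have : ind X = 0 ↔ X = ∅ := by
    rw [← Finsupp.support_eq_empty, ind_support]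
  simp [this]

end

lemma good_of {X : Finset ℕ} {j : ℕ → ℕ} (h : SwE X E j) :
    ∃ f : Finset (ℕ × ℕ × Bool), Good f ∧ ∀ a ∈ X, ∃ s, (a, j a, s) ∈ f := by
  classical
  obtain ⟨h1, S, h2⟩ := h
  refine ⟨X.image (fun a => (a, j a, decide (a ∈ S))), ?_, ?_⟩
  · intro p hp q hq
    rw [Finset.mem_image] at hp hq
    obtain ⟨a, ha, rfl⟩ := hp
    obtain ⟨b, hb, rfl⟩ := hq
    dsimp only
    refine ⟨⟨fun e => by rw [e], fun e => h1 ha hb e⟩, fun e => by rw [e], fun e => ?_⟩
    rw [h2 a ha b hb e]
    simp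
  · intro a ha
    exact ⟨_, Finset.mem_image_of_mem _ ha⟩

lemma equivMapDomain_ind (σ : Equiv.Perm ℕ) (X : Finset ℕ) :
    Finsupp.equivMapDomain σ (ind X) = ind (X.image σ) := by
  ext i
  rw [Finsupp.equivMapDomain_apply, ind_apply, ind_apply]
  congr 1
  rw [Finset.mem_image, eq_iff_iff]
  constructor
  · intro h; exact ⟨_, h, by simp⟩
  · rintro ⟨a, ha, rfl⟩; simpa using ha

/-- The orbit algebra over ℚ of the switching-automorphism group of the random graph is generated by an algebraically independent family of homogeneous elements, i.e. it is a polynomial ring. -/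
theorem result :
  ∀ K : Ideal (MvPowerSeries ℕ ℚ),
    K = Ideal.span {f : MvPowerSeries ℕ ℚ |
      ∀ s : ℕ →₀ ℕ, (∀ i, s i ≤ 1) → MvPowerSeries.coeff s f = 0} →
  ∀ T : Set (MvPowerSeries ℕ ℚ),
    T = {f : MvPowerSeries ℕ ℚ |
      (∀ σ : Equiv.Perm ℕ,
        (∃ S : Set ℕ, ∀ i j : ℕ, i ≠ j →
          ((Nat.testBit (σ j) (σ i) = true ∨ Nat.testBit (σ i) (σ j) = true) ↔
            ((Nat.testBit j i = true ∨ Nat.testBit i j = true) ↔ (i ∈ S ↔ j ∈ S)))) →
        ∀ s : ℕ →₀ ℕ,
          MvPowerSeries.coeff (Finsupp.equivMapDomain σ s) f = MvPowerSeries.coeff s f) ∧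
      ∃ N : ℕ, ∀ s : ℕ →₀ ℕ, N ≤ s.sum (fun _ e => e) → MvPowerSeries.coeff s f = 0} →
  ∃ (ι : Type) (x : ι → MvPowerSeries ℕ ℚ ⧸ K),
    (∀ i, ∃ d : ℕ, ∃ f ∈ T, Ideal.Quotient.mk K f = x i ∧
        ∀ s : ℕ →₀ ℕ, MvPowerSeries.coeff s f ≠ 0 → s.sum (fun _ e => e) = d) ∧
    AlgebraicIndependent ℚ x ∧
    Algebra.adjoin ℚ (Set.range x) = Algebra.adjoin ℚ (Ideal.Quotient.mk K '' T) := by
  intro K hKdef T hT
  have hK : ∀ f, f ∈ K ↔ ∀ X, MvPowerSeries.coeff (ind X) f = 0 := by
    intro f
    constructor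
    · intro hf X
      rw [hKdef] at hf
      induction hf using Submodule.span_induction generalizing X with
      | mem g hg => exact hg _ (ind_le X)
      | zero => simp
      | add g h _ _ hg hh => rw [map_add, hg, hh, add_zero]
      | smul r g _ hg =>
        rw [smul_eq_mul, coeff_mul_ind]
        unfold conv
        apply Finset.sum_eq_zero
        intro L _
        simp only [hg, mul_zero]
    · intro h
      rw [hKdef]
      apply Ideal.subset_span
      intro s hs
      rw [eq_ind hs]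
      exact h _
  -- invariants
  have hTinv : ∀ f ∈ T, Inv (val hK (Ideal.Quotient.mk K f)) := by
    intro f hf X j hj
    rw [hT] at hf
    obtain ⟨g, hg, hgj⟩ := good_of hj
    obtain ⟨σ, hσ, hσg⟩ := extend hg
    have h1 := hf.1 σ hσ (ind X)
    rw [equivMapDomain_ind] at h1
    rw [val_mk, val_mk, ← h1]
    congr 3
    apply Finset.image_congr
    intro a ha
    obtain ⟨s, hs⟩ := hgj a ha
    exact (hσg _ hs).symm
  have hmemT : ∀ φ : Finset ℕ → ℚ, Inv φ → (∃ N, ∀ X : Finset ℕ, N ≤ X.card → φ X = 0) →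
      ∃ f ∈ T, (∀ X, MvPowerSeries.coeff (ind X) f = φ X) ∧
        ∀ s : ℕ →₀ ℕ, MvPowerSeries.coeff s f ≠ 0 → (∀ i, s i ≤ 1) := by
    classical
    rintro φ hφ ⟨N, hN⟩
    refine ⟨fun s => if ∀ i, s i ≤ 1 then φ s.support else 0, ?_, ?_, ?_⟩
    · rw [hT]
      constructor
      · rintro σ ⟨S, hS⟩ s
        change (if ∀ i, Finsupp.equivMapDomain σ s i ≤ 1 then φ (Finsupp.equivMapDomain σ s).support else 0)
          = if ∀ i, s i ≤ 1 then φ s.support else 0
        have e1 : (∀ i, Finsupp.equivMapDomain σ s i ≤ 1) ↔ ∀ i, s i ≤ 1 := by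
          constructor
          · intro h i
            have := h (σ i)
            rwa [Finsupp.equivMapDomain_apply, Equiv.symm_apply_apply] at this
          · intro h i
            rw [Finsupp.equivMapDomain_apply]
            exact h _
        by_cases h : ∀ i, s i ≤ 1
        · rw [if_pos h, if_pos (e1.2 h)]
          have e2 : (Finsupp.equivMapDomain σ s).support = s.support.image σ := by
            ext i
            rw [Finsupp.mem_support_iff, Finsupp.equivMapDomain_apply, Finset.mem_image]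
            constructor
            · intro h; exact ⟨_, Finsupp.mem_support_iff.2 h, by simp⟩
            · rintro ⟨a, ha, rfl⟩
              rw [Equiv.symm_apply_apply]
              exact Finsupp.mem_support_iff.1 ha
          rw [e2]
          apply hφ
          exact ⟨σ.injective.injOn, S, fun a _ b _ hab => hS a b hab⟩
        · rw [if_neg h, if_neg (fun h' => h (e1.1 h'))]
      · refine ⟨N, fun s hs => ?_⟩
        change (if ∀ i, s i ≤ 1 then φ s.support else 0) = 0
        split_ifs with h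
        · apply hN
          rw [eq_ind h, ind_sum] at hs
          exact hs
        · rfl
    · intro X
      change (if ∀ i, ind X i ≤ 1 then φ (ind X).support else 0) = φ X
      rw [if_pos (ind_le X), ind_support]
    · intro s hs
      change (if ∀ i, s i ≤ 1 then φ s.support else 0) ≠ 0 at hs
      by_contra hcon
      exact hs (if_neg hcon)
  obtain ⟨ι, x, d, hx, hind, hgen⟩ := main (val hK) (val_mul hK) (val_one hK)
  have hxT : ∀ i, ∃ f ∈ T, Ideal.Quotient.mk K f = x i ∧
        ∀ s : ℕ →₀ ℕ, MvPowerSeries.coeff s f ≠ 0 → s.sum (fun _ e => e) = d i := by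
    intro i
    obtain ⟨h1, h2⟩ := hx i
    obtain ⟨f, hf, hfφ, hfs⟩ := hmemT (val hK (x i)) h1
      ⟨d i + 1, fun X hX => h2 X (by omega)⟩
    refine ⟨f, hf, ?_, ?_⟩
    · apply (val hK).injective
      ext X
      rw [val_mk, hfφ]
    · intro s hs
      have hs1 := hfs s hs
      rw [eq_ind hs1] at hs ⊢
      rw [ind_sum]
      rw [hfφ] at hs
      by_contra hcon
      exact hs (h2 _ hcon)
  refine ⟨ι, x, fun i => ⟨d i, hxT i⟩, hind, ?_⟩
  apply le_antisymm
  · apply Algebra.adjoin_mono
    rintro _ ⟨i, rfl⟩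
    obtain ⟨f, hf, hfx, -⟩ := hxT i
    exact ⟨f, hf, hfx⟩
  · apply Algebra.adjoin_le
    rintro _ ⟨f, hf, rfl⟩
    apply hgen _ (hTinv f hf)
    rw [hT] at hf
    obtain ⟨N, hN⟩ := hf.2
    refine ⟨N, fun X hX => ?_⟩
    rw [val_mk]
    apply hN
    rw [ind_sum]
    exact hX

end Pool.Agent.S1131
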