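import Pool.Statements.S1147
-- import your own Pool.Agent.* helpers here
import Pool.Agent.LieInf.Main

set_option autoImplicit false
open Pool Pool.MP_f38670_al

namespace Pool.Agent.S1147

/-- There is a field K and a Lie algebra L over K such that L is infinite-dimensional over K, but every Lie subalgebra of L other than L itself is finite-dimensional over K. -/
theorem result :
    ∃ (K : Type) (_ : Field K) (L : Type) (_ : LieRing L) (_ : LieAlgebra K L),
      ¬ FiniteDimensional K L ∧
        ∀ H : LieSubalgebra K L, H ≠ ⊤ → FiniteDimensional K H := by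
  obtain ⟨k, ik, L, iL, iA, h1, h2⟩ := Pool.Agent.LieInf.main
  refine ⟨k, ik, L, iL, iA, ?_, h2⟩
  intro hfd
  apply h1
  obtain ⟨S, hS⟩ := (Module.finite_def.mp hfd)
  refine ⟨S, ?_⟩
  rw [eq_top_iff]
  intro y _
  have hy : y ∈ Submodule.span k (S : Set L) := by rw [hS]; trivial
  exact LieSubalgebra.submodule_span_le_lieSpan hy

end Pool.Agent.S1147
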