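import Pool.Statements.S1151
import Pool.Agent.H21.PrefMain

set_option autoImplicit false
open Pool Pool.MP_f431e1_al

namespace Pool.Agent.S1151

/-- Every group with an automatic structure (regular language of words mapping onto G, with synchronous finite automata for equality and right multiplication by each generator) also has one whose language is prefix-closed with exactly one word per element. -/
theorem result :
  ∀ (G : Type) [Group G],
    (∃ (A : Type) (_ : Finite A) (f : A → G) (L : Language A),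
      (∃ (σ : Type) (_ : Finite σ) (M : DFA A σ), M.accepts = L) ∧
      (∀ g : G, ∃ w ∈ L, (w.map f).prod = g) ∧
      (∃ (σ : Type) (_ : Finite σ) (M : DFA (Option A × Option A) σ),
        ∀ p : List (Option A × Option A), p ∈ M.accepts ↔
          ∃ u ∈ L, ∃ v ∈ L, (u.map f).prod = (v.map f).prod ∧
            p = List.ofFn (fun i : Fin (max u.length v.length) => (u[(i : ℕ)]?, v[(i : ℕ)]?))) ∧
      (∀ a : A, ∃ (σ : Type) (_ : Finite σ) (M : DFA (Option A × Option A) σ),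
        ∀ p : List (Option A × Option A), p ∈ M.accepts ↔
          ∃ u ∈ L, ∃ v ∈ L, (u.map f).prod * f a = (v.map f).prod ∧
            p = List.ofFn (fun i : Fin (max u.length v.length) => (u[(i : ℕ)]?, v[(i : ℕ)]?)))) →
    (∃ (A : Type) (_ : Finite A) (f : A → G) (L : Language A),
      (∃ (σ : Type) (_ : Finite σ) (M : DFA A σ), M.accepts = L) ∧
      (∀ g : G, ∃ w ∈ L, (w.map f).prod = g) ∧
      (∃ (σ : Type) (_ : Finite σ) (M : DFA (Option A × Option A) σ),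
        ∀ p : List (Option A × Option A), p ∈ M.accepts ↔
          ∃ u ∈ L, ∃ v ∈ L, (u.map f).prod = (v.map f).prod ∧
            p = List.ofFn (fun i : Fin (max u.length v.length) => (u[(i : ℕ)]?, v[(i : ℕ)]?))) ∧
      (∀ a : A, ∃ (σ : Type) (_ : Finite σ) (M : DFA (Option A × Option A) σ),
        ∀ p : List (Option A × Option A), p ∈ M.accepts ↔
          ∃ u ∈ L, ∃ v ∈ L, (u.map f).prod * f a = (v.map f).prod ∧
            p = List.ofFn (fun i : Fin (max u.length v.length) => (u[(i : ℕ)]?, v[(i : ℕ)]?))) ∧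
      (∀ u v : List A, u ++ v ∈ L → u ∈ L) ∧
      (∀ u ∈ L, ∀ v ∈ L, (u.map f).prod = (v.map f).prod → u = v)) := by
  intro G _ ⟨A, hA, f, L, ⟨σ, hσ, M, hM⟩, h2, h3, h4⟩
  have := Fintype.ofFinite σ
  have hL : L.IsRegular := ⟨σ, inferInstance, M, hM⟩
  have hE : Pool.Agent.H21.Tree.IsAut f L := by
    refine ⟨hL, h2, ?_, fun b => ?_⟩
    · refine (Pool.Agent.H21.Tree.can_iff _).1 ?_
      obtain ⟨τ, hτ, M', h⟩ := h3
      refine ⟨τ, hτ, M', fun p => (h p).trans ?_⟩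
      constructor
      · rintro ⟨u, hu, v, hv, he, hp⟩; exact ⟨u, v, ⟨hu, hv, he⟩, hp⟩
      · rintro ⟨u, v, ⟨hu, hv, he⟩, hp⟩; exact ⟨u, hu, v, hv, he, hp⟩
    · refine (Pool.Agent.H21.Tree.can_iff _).1 ?_
      obtain ⟨τ, hτ, M', h⟩ := h4 b
      refine ⟨τ, hτ, M', fun p => (h p).trans ?_⟩
      constructor
      · rintro ⟨u, hu, v, hv, he, hp⟩; exact ⟨u, v, ⟨hu, hv, he⟩, hp⟩
      · rintro ⟨u, v, ⟨hu, hv, he⟩, hp⟩; exact ⟨u, hu, v, hv, he, hp⟩
  obtain ⟨B, hB, g, L', ⟨⟨τ, _, T, hT⟩, k2, k3, k4⟩, k5, k6⟩ :=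
    Pool.Agent.H21.Tree.main f L hE
  refine ⟨B, hB, g, L', ⟨τ, inferInstance, T, hT⟩, k2, ?_, fun b => ?_, k5, k6⟩
  · obtain ⟨τ, hτ, M', h⟩ := (Pool.Agent.H21.Tree.can_iff _).2 k3
    refine ⟨τ, hτ, M', fun p => (h p).trans ?_⟩
    constructor
    · rintro ⟨u, v, ⟨hu, hv, he⟩, hp⟩; exact ⟨u, hu, v, hv, he, hp⟩
    · rintro ⟨u, hu, v, hv, he, hp⟩; exact ⟨u, v, ⟨hu, hv, he⟩, hp⟩
  · obtain ⟨τ, hτ, M', h⟩ := (Pool.Agent.H21.Tree.can_iff _).2 (k4 b)
    refine ⟨τ, hτ, M', fun p => (h p).trans ?_⟩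
    constructor
    · rintro ⟨u, v, ⟨hu, hv, he⟩, hp⟩; exact ⟨u, hu, v, hv, he, hp⟩
    · rintro ⟨u, hu, v, hv, he, hp⟩; exact ⟨u, v, ⟨hu, hv, he⟩, hp⟩

end Pool.Agent.S1151
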