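import Pool.Statements.S1156
-- import your own Pool.Agent.* helpers here

set_option autoImplicit false
open Pool Pool.MP_f52e03_al

namespace Pool.Agent.S1156

/-- letters -/
abbrev L := ℕ × Bool

def inv (l : L) : L := (l.1, !l.2)

lemma inv_inv (l : L) : inv (inv l) = l := by simp [inv]

lemma inv_ne (l : L) : inv l ≠ l := by
  intro h
  have := congrArg Prod.snd h
  simp [inv] at this

abbrev Rel := L → ℕ → ℕ → Prop

def Edge (R : Rel) (l : L) (A B : Finset ℕ) : Prop :=
  (∀ x ∈ A, ∃ y ∈ B, R l x y) ∧ (∀ y ∈ B, ∃ x ∈ A, R l x y)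

def Path (R : Rel) : List L → Finset ℕ → Finset ℕ → Prop
  | [], A, B => A = B
  | l :: w, A, B => ∃ C, Path R w A C ∧ Edge R l C B

def Red (w : List L) : Prop := w.IsChain fun a b => a.1 = b.1 → a.2 = b.2

lemma red_nil : Red [] := List.IsChain.nil

lemma Red.tail {a : L} {w : List L} (h : Red (a :: w)) : Red w := by
  have : Red ([a] ++ w) := h
  exact List.IsChain.right_of_append this

lemma Red.left {u v : List L} (h : Red (u ++ v)) : Red u := List.IsChain.left_of_append h
lemma Red.right {u v : List L} (h : Red (u ++ v)) : Red v := List.IsChain.right_of_append h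

lemma not_red (l : L) (w : List L) : ¬ Red (inv l :: l :: w) := by
  intro h
  have h' : Red ([inv l, l] ++ w) := h
  have h2 := h'.left
  have h3 := (List.isChain_pair.1 h2) rfl
  simp [inv] at h3

lemma not_red' (l : L) (w : List L) : ¬ Red (l :: inv l :: w) := by
  have := not_red (inv l) w
  rwa [inv_inv] at this

structure PS (R : Rel) : Prop where
  symm : ∀ l x y, R l x y → R (inv l) y x
  det : ∀ l x y z, R l x y → R l x z → y = z
  bd : ∃ N, ∀ l x y, R l x y → l.1 < N ∧ x < N ∧ y < N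
  forest : ∀ w, w ≠ [] → Red w → ∀ A : Finset ℕ, A.card = 3 → ¬ Path R w A A

section basic
variable {R : Rel}

lemma edge_symm (hs : ∀ l x y, R l x y → R (inv l) y x) {l : L} {A B : Finset ℕ}
    (h : Edge R l A B) : Edge R (inv l) B A := by
  refine ⟨fun y hy => ?_, fun x hx => ?_⟩
  · obtain ⟨x, hx, hxy⟩ := h.2 y hy
    exact ⟨x, hx, hs _ _ _ hxy⟩
  · obtain ⟨y, hy, hxy⟩ := h.1 x hx
    exact ⟨y, hy, hs _ _ _ hxy⟩

lemma edge_det (hd : ∀ l x y z, R l x y → R l x z → y = z) {l : L} {A B C : Finset ℕ}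
    (h : Edge R l A B) (h' : Edge R l A C) : B = C := by
  ext y
  constructor
  · intro hy
    obtain ⟨x, hx, hxy⟩ := h.2 y hy
    obtain ⟨z, hz, hxz⟩ := h'.1 x hx
    rw [hd _ _ _ _ hxy hxz]; exact hz
  · intro hy
    obtain ⟨x, hx, hxy⟩ := h'.2 y hy
    obtain ⟨z, hz, hxz⟩ := h.1 x hx
    rw [hd _ _ _ _ hxy hxz]; exact hz

lemma edge_card_le (hs : ∀ l x y, R l x y → R (inv l) y x)
    (hd : ∀ l x y z, R l x y → R l x z → y = z) {l : L} {A B : Finset ℕ}
    (h : Edge R l A B) : A.card ≤ B.card := by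
  refine Finset.card_le_card_of_forall_subsingleton (fun x y => R l x y)
    (fun x hx => ?_) (fun y hy => ?_)
  · obtain ⟨y, hy, hxy⟩ := h.1 x hx
    exact ⟨y, hy, hxy⟩
  · intro a ha b hb
    exact hd _ _ _ _ (hs _ _ _ ha.2) (hs _ _ _ hb.2)

lemma edge_card (hs : ∀ l x y, R l x y → R (inv l) y x)
    (hd : ∀ l x y z, R l x y → R l x z → y = z) {l : L} {A B : Finset ℕ}
    (h : Edge R l A B) : A.card = B.card :=
  le_antisymm (edge_card_le hs hd h) (edge_card_le hs hd (edge_symm hs h))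

lemma path_card (hs : ∀ l x y, R l x y → R (inv l) y x)
    (hd : ∀ l x y z, R l x y → R l x z → y = z) : ∀ (w : List L) {A B : Finset ℕ}
    (_ : Path R w A B), A.card = B.card
  | [], A, B, h => by rw [show A = B from h]
  | l :: w, A, B, ⟨C, h1, h2⟩ => (path_card hs hd w h1).trans (edge_card hs hd h2)

lemma path_append : ∀ (u v : List L) (A B : Finset ℕ),
    Path R (u ++ v) A B ↔ ∃ C, Path R v A C ∧ Path R u C B
  | [], v, A, B => by
      constructor
      · intro h; exact ⟨B, h, rfl⟩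
      · rintro ⟨C, h, h'⟩
        have : C = B := h'
        subst this; exact h
  | l :: u, v, A, B => by
      constructor
      · rintro ⟨C, h, h'⟩
        obtain ⟨D, hD, hD'⟩ := (path_append u v A C).1 h
        exact ⟨D, hD, C, hD', h'⟩
      · rintro ⟨D, hD, C, hD', h'⟩
        exact ⟨C, (path_append u v A C).2 ⟨D, hD, hD'⟩, h'⟩

lemma path_single {l : L} {A B : Finset ℕ} : Path R [l] A B ↔ Edge R l A B := by
  constructor
  · rintro ⟨C, h, h'⟩
    have : A = C := h
    subst this; exact h'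
  · intro h; exact ⟨A, rfl, h⟩

lemma path_rev (hs : ∀ l x y, R l x y → R (inv l) y x) : ∀ (w : List L) {A B : Finset ℕ},
    Path R w A B → Path R (w.reverse.map inv) B A
  | [], A, B, h => by
      have : A = B := h
      subst this; rfl
  | l :: w, A, B, ⟨C, h, h'⟩ => by
      rw [List.reverse_cons, List.map_append, List.map_cons, List.map_nil, path_append]
      exact ⟨C, path_single.2 (edge_symm hs h'), path_rev hs w h⟩

lemma edge_mono {R' : Rel} (hm : ∀ l x y, R l x y → R' l x y) {l : L} {A B : Finset ℕ}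
    (h : Edge R l A B) : Edge R' l A B := by
  refine ⟨fun x hx => ?_, fun y hy => ?_⟩
  · obtain ⟨y, hy, hxy⟩ := h.1 x hx
    exact ⟨y, hy, hm _ _ _ hxy⟩
  · obtain ⟨x, hx, hxy⟩ := h.2 y hy
    exact ⟨x, hx, hm _ _ _ hxy⟩

lemma path_mono {R' : Rel} (hm : ∀ l x y, R l x y → R' l x y) : ∀ (w : List L) {A B : Finset ℕ},
    Path R w A B → Path R' w A B
  | [], A, B, h => h
  | l :: w, A, B, ⟨C, h, h'⟩ => ⟨C, path_mono hm w h, edge_mono hm h'⟩

end basic

/-! ### Extension step -/

def ext (R : Rel) (l : L) (x y : ℕ) : Rel := fun m a b =>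
  R m a b ∨ (m = l ∧ a = x ∧ b = y) ∨ (m = inv l ∧ a = y ∧ b = x)

section extstep
variable {R : Rel} {l : L} {x y : ℕ} (hR : PS R) (hfree : ∀ z, ¬ R l x z)
  (hy : ∀ m a b, R m a b → a ≠ y ∧ b ≠ y) (hxy : x ≠ y)
include hR hfree hy hxy

omit hR hfree in
lemma e_in {m : L} {A B : Finset ℕ} (h : Edge (ext R l x y) m A B) (hB : y ∈ B) : m = l := by
  obtain ⟨a, ha, h1 | h1 | h1⟩ := h.2 y hB
  · exact absurd rfl (hy _ _ _ h1).2
  · exact h1.1
  · exact absurd h1.2.2.symm hxy

omit hR hfree in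
lemma e_out {m : L} {A B : Finset ℕ} (h : Edge (ext R l x y) m A B) (hA : y ∈ A) : m = inv l := by
  obtain ⟨a, ha, h1 | h1 | h1⟩ := h.1 y hA
  · exact absurd rfl (hy _ _ _ h1).1
  · exact absurd h1.2.1.symm hxy
  · exact h1.1

omit hR hfree hy hxy in
lemma e_old {m : L} {A B : Finset ℕ} (h : Edge (ext R l x y) m A B) (hA : y ∉ A) (hB : y ∉ B) :
    Edge R m A B := by
  refine ⟨fun a ha => ?_, fun b hb => ?_⟩
  · obtain ⟨b, hb, h1 | h1 | h1⟩ := h.1 a ha
    · exact ⟨b, hb, h1⟩
    · exact absurd (h1.2.2 ▸ hb) hB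
    · exact absurd (h1.2.1 ▸ ha) hA
  · obtain ⟨a, ha, h1 | h1 | h1⟩ := h.2 b hb
    · exact ⟨a, ha, h1⟩
    · exact absurd (h1.2.2 ▸ hb) hB
    · exact absurd (h1.2.1 ▸ ha) hA

omit hfree in
lemma ext_symm : ∀ m a b, ext R l x y m a b → ext R l x y (inv m) b a := by
  rintro m a b (h | ⟨h1, h2, h3⟩ | ⟨h1, h2, h3⟩)
  · exact Or.inl (hR.symm _ _ _ h)
  · exact Or.inr (Or.inr ⟨by rw [h1], h3, h2⟩)
  · exact Or.inr (Or.inl ⟨by rw [h1, inv_inv], h3, h2⟩)

lemma ext_det : ∀ m a b c, ext R l x y m a b → ext R l x y m a c → b = c := by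
  have hfree' : ∀ z, ¬ R (inv l) z x := by
    intro z hz
    have := hR.symm _ _ _ hz
    rw [inv_inv] at this
    exact hfree _ this
  rintro m a b c (h | ⟨h1, h2, h3⟩ | ⟨h1, h2, h3⟩) (h' | ⟨h1', h2', h3'⟩ | ⟨h1', h2', h3'⟩)
  · exact hR.det _ _ _ _ h h'
  · subst h1' h2'; exact absurd h (hfree _)
  · subst h1' h2'; exact absurd rfl (hy _ _ _ h).1
  · subst h1 h2; exact absurd h' (hfree _)
  · rw [h3, h3']
  · exact absurd (h2.symm.trans h2') hxy
  · subst h1 h2; exact absurd rfl (hy _ _ _ h').1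
  · exact absurd (h2'.symm.trans h2) hxy
  · rw [h3, h3']

omit hR hfree in
lemma ext_path : ∀ (w : List L) {A B : Finset ℕ}, Red w → Path (ext R l x y) w A B →
    y ∉ A → y ∉ B → Path R w A B
  | [], A, B, _, h, _, _ => h
  | m :: w, A, B, hr, ⟨C, h, h'⟩, hA, hB => by
      by_cases hC : y ∈ C
      · exfalso
        have hm : m = inv l := e_out hy hxy h' hC
        match w, h, hr with
        | [], h, hr =>
          have : A = C := h
          subst this; exact hA hC
        | m' :: w', ⟨D, h1, h2⟩, hr =>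
          have hm' : m' = l := e_in hy hxy h2 hC
          subst hm hm'
          exact not_red _ _ hr
      · exact ⟨C, ext_path w hr.tail h hA hC, e_old h' hC hB⟩

lemma ext_forest : ∀ w, w ≠ [] → Red w → ∀ A : Finset ℕ, A.card = 3 →
    ¬ Path (ext R l x y) w A A := by
  intro w hw hr A hA hp
  by_cases hyA : y ∈ A
  · match w, hw, hr, hp with
    | m :: w, _, hr, ⟨C, h, h'⟩ =>
      have hm : m = l := e_in hy hxy h' hyA
      subst hm
      rcases List.eq_nil_or_concat w with hw' | ⟨u, m', hw'⟩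
      · subst hw'
        have : A = C := h
        subst this
        exact inv_ne _ (e_out hy hxy h' hyA).symm
      · rw [List.concat_eq_append] at hw'
        subst hw'
        obtain ⟨D, hD, hD'⟩ := (path_append u [m'] A C).1 h
        have hD2 := path_single.1 hD
        have hm' : m' = inv m := e_out hy hxy hD2 hyA
        subst hm'
        have hDC : D = C := edge_det (ext_det hR hfree hy hxy) hD2
          (edge_symm (ext_symm hR hy hxy) h')
        subst hDC
        have hyD : y ∉ D := by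
          intro hyD
          exact inv_ne _ (e_out hy hxy h' hyD).symm
        have hu : u ≠ [] := by
          rintro rfl
          exact not_red' _ _ hr
        have hru : Red u := by
          have : Red (m :: (u ++ [inv m])) := hr
          exact this.tail.left
        have hp2 := ext_path hy hxy u hru hD' hyD hyD
        refine hR.forest u hu hru D ?_ hp2
        rw [edge_card (ext_symm hR hy hxy) (ext_det hR hfree hy hxy) h', hA]
  · exact hR.forest w hw hr A hA (ext_path hy hxy w hr hp hyA hyA)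

lemma ext_PS : PS (ext R l x y) where
  symm := ext_symm hR hy hxy
  det := ext_det hR hfree hy hxy
  bd := by
    obtain ⟨N, hN⟩ := hR.bd
    refine ⟨N + l.1 + x + y + 1, ?_⟩
    rintro m a b (h | ⟨h1, h2, h3⟩ | ⟨h1, h2, h3⟩)
    · have := hN _ _ _ h
      omega
    · subst h1 h2 h3; omega
    · subst h1 h2 h3
      have : (inv l).1 = l.1 := rfl
      omega
  forest := ext_forest hR hfree hy hxy

end extstep

/-! ### Bridge step -/

def bridge (R : Rel) (i : ℕ) {A B : Finset ℕ} (e : A ≃ B) : Rel := fun m a b =>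
  R m a b ∨ (m = (i, true) ∧ ∃ h : a ∈ A, (e ⟨a, h⟩ : ℕ) = b)
    ∨ (m = (i, false) ∧ ∃ h : b ∈ A, (e ⟨b, h⟩ : ℕ) = a)

section bridgestep
variable {R : Rel} {i : ℕ} {A B : Finset ℕ} {e : A ≃ B} (hR : PS R)
  (hi : ∀ m a b, R m a b → m.1 ≠ i) (hA : A.card = 3) (hB : B.card = 3)
  (hAB : ∀ w, ¬ Path R w A B)
include hR hi hA hB hAB

omit hi hA hB hAB in
lemma br_symm : ∀ m a b, bridge R i e m a b → bridge R i e (inv m) b a := by
  rintro m a b (h | ⟨h1, h2⟩ | ⟨h1, h2⟩)
  · exact Or.inl (hR.symm _ _ _ h)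
  · exact Or.inr (Or.inr ⟨by rw [h1]; rfl, h2⟩)
  · exact Or.inr (Or.inl ⟨by rw [h1]; rfl, h2⟩)

omit hA hB hAB in
lemma br_det : ∀ m a b c, bridge R i e m a b → bridge R i e m a c → b = c := by
  rintro m a b c (h | ⟨h1, h2, h3⟩ | ⟨h1, h2, h3⟩) (h' | ⟨h1', h2', h3'⟩ | ⟨h1', h2', h3'⟩)
  · exact hR.det _ _ _ _ h h'
  · exact absurd (by rw [h1']) (hi _ _ _ h)
  · exact absurd (by rw [h1']) (hi _ _ _ h)
  · exact absurd (by rw [h1]) (hi _ _ _ h')
  · exact h3.symm.trans h3'
  · rw [h1] at h1'; simp at h1'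
  · exact absurd (by rw [h1]) (hi _ _ _ h')
  · rw [h1] at h1'; simp at h1'
  · have h4 : e ⟨b, h2⟩ = e ⟨c, h2'⟩ := Subtype.ext (h3.trans h3'.symm)
    have h5 := e.injective h4
    exact congrArg Subtype.val h5

omit hR hi hA hB hAB in
lemma br_old {m : L} (hm : m.1 ≠ i) {C D : Finset ℕ} (h : Edge (bridge R i e) m C D) :
    Edge R m C D := by
  refine ⟨fun a ha => ?_, fun b hb => ?_⟩
  · obtain ⟨b, hb, h1 | h1 | h1⟩ := h.1 a ha
    · exact ⟨b, hb, h1⟩
    · exact absurd (by rw [h1.1]) hm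
    · exact absurd (by rw [h1.1]) hm
  · obtain ⟨a, ha, h1 | h1 | h1⟩ := h.2 b hb
    · exact ⟨a, ha, h1⟩
    · exact absurd (by rw [h1.1]) hm
    · exact absurd (by rw [h1.1]) hm

/-- source of crossing letter -/
def PP (A B : Finset ℕ) : Bool → Finset ℕ
  | true => A
  | false => B

omit hR hA hB hAB in
lemma br_new_sub {b : Bool} {C D : Finset ℕ} (h : Edge (bridge R i e) (i, b) C D) :
    C ⊆ PP A B b ∧ D ⊆ PP A B (!b) := by
  refine ⟨fun c hc => ?_, fun d hd => ?_⟩
  · obtain ⟨d, hd, h1 | ⟨h1, h2, h3⟩ | ⟨h1, h2, h3⟩⟩ := h.1 c hc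
    · exact absurd rfl (hi _ _ _ h1)
    · have : b = true := by simpa using h1
      subst this
      exact h2
    · have : b = false := by simpa using h1
      subst this
      show c ∈ B
      rw [← h3]; exact (e _).2
  · obtain ⟨c, hc, h1 | ⟨h1, h2, h3⟩ | ⟨h1, h2, h3⟩⟩ := h.2 d hd
    · exact absurd rfl (hi _ _ _ h1)
    · have : b = true := by simpa using h1
      subst this
      show d ∈ B
      rw [← h3]; exact (e _).2
    · have : b = false := by simpa using h1
      subst this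
      exact h2

omit hAB in
lemma br_new {b : Bool} {C D : Finset ℕ} (hC : C.card = 3) (h : Edge (bridge R i e) (i, b) C D) :
    C = PP A B b ∧ D = PP A B (!b) := by
  have hD : D.card = 3 := by rw [← edge_card (br_symm hR) (br_det hR hi) h, hC]
  have hP : ∀ b, (PP A B b).card = 3 := by
    intro b; cases b
    · exact hB
    · exact hA
  obtain ⟨h1, h2⟩ := br_new_sub hi h
  exact ⟨Finset.eq_of_subset_of_card_le h1 (by rw [hP, hC]),
    Finset.eq_of_subset_of_card_le h2 (by rw [hP, hD])⟩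

omit hi hA hB in
lemma no_conn (b : Bool) (w : List L) : ¬ Path R w (PP A B b) (PP A B (!b)) := by
  intro h
  cases b
  · exact hAB _ (path_rev hR.symm w h)
  · exact hAB _ h

lemma br_path : ∀ (w : List L) {C D : Finset ℕ}, Red w → C.card = 3 →
    Path (bridge R i e) w C D →
    Path R w C D ∨ ∃ u b v, w = u ++ (i, b) :: v ∧ Path R v C (PP A B b) ∧
      Path R u (PP A B (!b)) D
  | [], C, D, _, _, h => Or.inl h
  | m :: w, C, D, hr, hC, ⟨E, h, h'⟩ => by
      have hE : E.card = 3 := by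
        rw [← path_card (br_symm hR) (br_det hR hi) w h, hC]
      rcases br_path w hr.tail hC h with h1 | ⟨u, b, v, h1, h2, h3⟩
      · by_cases hm : m.1 = i
        · right
          obtain ⟨m1, b⟩ := m
          have hm' : m1 = i := hm
          subst hm'
          obtain ⟨h4, h5⟩ := br_new hR hi hA hB hE h'
          subst h4 h5
          exact ⟨[], b, w, rfl, h1, rfl⟩
        · left
          exact ⟨E, h1, br_old hm h'⟩
      · by_cases hm : m.1 = i
        · exfalso
          obtain ⟨m1, b'⟩ := m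
          have hm' : m1 = i := hm
          subst hm'
          obtain ⟨h4, h5⟩ := br_new hR hi hA hB hE h'
          subst h4 h5
          rcases eq_or_ne b' b with hb | hb
          · subst hb
            have h6 := path_rev hR.symm u h3
            exact no_conn hR hAB b' _ h6
          · have hb' : b' = !b := by
              cases b <;> cases b' <;> simp_all
            subst hb'
            rcases eq_or_ne u [] with hu | hu
            · subst hu h1
              exact not_red (m1, b) v hr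
            · have hru : Red u := by
                rw [h1] at hr
                exact hr.tail.left
              exact hR.forest u hu hru _ hE h3
        · right
          exact ⟨m :: u, b, v, by rw [h1]; rfl, h2, E, h3, br_old hm h'⟩

lemma br_forest : ∀ w, w ≠ [] → Red w → ∀ C : Finset ℕ, C.card = 3 →
    ¬ Path (bridge R i e) w C C := by
  intro w hw hr C hC hp
  rcases br_path hR hi hA hB hAB w hr hC hp with h | ⟨u, b, v, h1, h2, h3⟩
  · exact hR.forest w hw hr C hC h
  · have h4 : Path R (v ++ u) (PP A B (!b)) (PP A B b) := (path_append _ _ _ _).2 ⟨C, h3, h2⟩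
    have h5 := path_rev hR.symm _ h4
    exact no_conn hR hAB b _ h5

lemma br_PS : PS (bridge R i e) where
  symm := br_symm hR
  det := br_det hR hi
  bd := by
    obtain ⟨N, hN⟩ := hR.bd
    obtain ⟨N1, hN1⟩ : ∃ N1, ∀ a ∈ A, a < N1 :=
      ⟨A.sup id + 1, fun a ha => Nat.lt_succ_of_le (Finset.le_sup (f := id) ha)⟩
    obtain ⟨N2, hN2⟩ : ∃ N2, ∀ a ∈ B, a < N2 :=
      ⟨B.sup id + 1, fun a ha => Nat.lt_succ_of_le (Finset.le_sup (f := id) ha)⟩
    refine ⟨N + i + N1 + N2 + 1, ?_⟩
    rintro m a b (h | ⟨h1, h2, h3⟩ | ⟨h1, h2, h3⟩)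
    · have := hN _ _ _ h
      omega
    · have h4 := hN1 _ h2
      have h5 := hN2 _ (e ⟨a, h2⟩).2
      rw [h3] at h5
      subst h1
      simp only
      omega
    · have h4 := hN1 _ h2
      have h5 := hN2 _ (e ⟨b, h2⟩).2
      rw [h3] at h5
      subst h1
      simp only
      omega
  forest := br_forest hR hi hA hB hAB

end bridgestep

/-! ### The sequence -/

abbrev Task := (L × ℕ) ⊕ (Finset ℕ × Finset ℕ)

def Done (R : Rel) : Task → Prop
  | Sum.inl (l, x) => ∃ y, R l x y
  | Sum.inr (A, B) => A.card = 3 → B.card = 3 → ∃ w, Path R w A B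

lemma step (R : Rel) (hR : PS R) (t : Task) :
    ∃ R' : Rel, PS R' ∧ (∀ l x y, R l x y → R' l x y) ∧ Done R' t := by
  rcases t with ⟨l, x⟩ | ⟨A, B⟩
  · by_cases h : ∃ y, R l x y
    · exact ⟨R, hR, fun _ _ _ h => h, h⟩
    · obtain ⟨N, hN⟩ := hR.bd
      push Not at h
      have hy : ∀ m a b, R m a b → a ≠ N + x + 1 ∧ b ≠ N + x + 1 := by
        intro m a b hab
        have := hN _ _ _ hab
        omega
      refine ⟨ext R l x (N + x + 1), ext_PS hR h hy (by omega), fun _ _ _ h => Or.inl h, ?_⟩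
      exact ⟨N + x + 1, Or.inr (Or.inl ⟨rfl, rfl, rfl⟩)⟩
  · by_cases h : Done R (Sum.inr (A, B))
    · exact ⟨R, hR, fun _ _ _ h => h, h⟩
    · simp only [Done] at h
      push Not at h
      obtain ⟨hA, hB, hAB⟩ := h
      obtain ⟨N, hN⟩ := hR.bd
      have hi : ∀ m a b, R m a b → m.1 ≠ N := by
        intro m a b hab
        have := hN _ _ _ hab
        omega
      let e : A ≃ B := Finset.equivOfCardEq (hA.trans hB.symm)
      refine ⟨bridge R N e, br_PS hR hi hA hB hAB, fun _ _ _ h => Or.inl h, ?_⟩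
      intro _ _
      refine ⟨[(N, true)], path_single.2 ⟨fun x hx => ?_, fun y hy => ?_⟩⟩
      · exact ⟨e ⟨x, hx⟩, (e ⟨x, hx⟩).2, Or.inr (Or.inl ⟨rfl, hx, rfl⟩)⟩
      · refine ⟨e.symm ⟨y, hy⟩, (e.symm ⟨y, hy⟩).2, Or.inr (Or.inl ⟨rfl, (e.symm ⟨y, hy⟩).2, ?_⟩)⟩
        simp

lemma empty_PS : PS (fun _ _ _ => False) where
  symm := fun _ _ _ h => h
  det := fun _ _ _ _ h => h.elim
  bd := ⟨0, fun _ _ _ h => h.elim⟩
  forest := by
    intro w hw _ A hA hp
    match w, hw, hp with
    | m :: w, _, ⟨C, _, h'⟩ =>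
      have : A.Nonempty := by rw [← Finset.card_pos]; omega
      obtain ⟨a, ha⟩ := this
      obtain ⟨_, _, h⟩ := h'.2 a ha
      exact h

lemma exists_limit : ∃ R : Rel, (∀ l x y, R l x y → R (inv l) y x) ∧
    (∀ l x y z, R l x y → R l x z → y = z) ∧
    (∀ l x, ∃ y, R l x y) ∧
    (∀ A B : Finset ℕ, A.card = 3 → B.card = 3 → ∃ w, Path R w A B) ∧
    (∀ w, w ≠ [] → Red w → ∀ A : Finset ℕ, A.card = 3 → ¬ Path R w A A) := by
  obtain ⟨task, htask⟩ := exists_surjective_nat Task
  choose nxt h1 h2 h3 using step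
  let S : ℕ → {R : Rel // PS R} := fun n => Nat.rec ⟨fun _ _ _ => False, empty_PS⟩
    (fun n R => ⟨nxt R.1 R.2 (task n), h1 _ _ _⟩) n
  have hS : ∀ n, S (n + 1) = ⟨nxt (S n).1 (S n).2 (task n), h1 _ _ _⟩ := fun n => rfl
  have hstep : ∀ n l x y, (S n).1 l x y → (S (n + 1)).1 l x y := by
    intro n l x y h
    rw [hS]
    exact h2 _ _ _ _ _ _ h
  have hmono : ∀ n m, n ≤ m → ∀ l x y, (S n).1 l x y → (S m).1 l x y := by
    intro n m hnm l x y h
    induction m, hnm using Nat.le_induction with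
    | base => exact h
    | succ m _ ih => exact hstep _ _ _ _ ih
  have hdone : ∀ n, Done (S (n + 1)).1 (task n) := by
    intro n
    rw [hS]
    exact h3 _ _ _
  let R : Rel := fun l x y => ∃ n, (S n).1 l x y
  have hSR : ∀ n l x y, (S n).1 l x y → R l x y := fun n l x y h => ⟨n, h⟩
  have hedge : ∀ l A B, Edge R l A B → ∃ n, Edge (S n).1 l A B := by
    intro l A B ⟨hAB1, hAB2⟩
    have e1 : ∃ n, ∀ x ∈ A, ∃ y ∈ B, (S n).1 l x y := by
      have : ∀ x, ∃ n, x ∈ A → ∃ y ∈ B, (S n).1 l x y := by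
        intro x
        by_cases hx : x ∈ A
        · obtain ⟨y, hy, n, hn⟩ := hAB1 x hx
          exact ⟨n, fun _ => ⟨y, hy, hn⟩⟩
        · exact ⟨0, fun h => absurd h hx⟩
      choose f hf using this
      refine ⟨A.sup f, fun x hx => ?_⟩
      obtain ⟨y, hy, hxy⟩ := hf x hx
      exact ⟨y, hy, hmono _ _ (Finset.le_sup hx) _ _ _ hxy⟩
    have e2 : ∃ n, ∀ y ∈ B, ∃ x ∈ A, (S n).1 l x y := by
      have : ∀ y, ∃ n, y ∈ B → ∃ x ∈ A, (S n).1 l x y := by
        intro x
        by_cases hx : x ∈ B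
        · obtain ⟨y, hy, n, hn⟩ := hAB2 x hx
          exact ⟨n, fun _ => ⟨y, hy, hn⟩⟩
        · exact ⟨0, fun h => absurd h hx⟩
      choose f hf using this
      refine ⟨B.sup f, fun x hx => ?_⟩
      obtain ⟨y, hy, hxy⟩ := hf x hx
      exact ⟨y, hy, hmono _ _ (Finset.le_sup hx) _ _ _ hxy⟩
    obtain ⟨n1, hn1⟩ := e1
    obtain ⟨n2, hn2⟩ := e2
    refine ⟨max n1 n2, fun x hx => ?_, fun y hy => ?_⟩
    · obtain ⟨y, hy, hxy⟩ := hn1 x hx
      exact ⟨y, hy, hmono _ _ (le_max_left _ _) _ _ _ hxy⟩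
    · obtain ⟨x, hx, hxy⟩ := hn2 y hy
      exact ⟨x, hx, hmono _ _ (le_max_right _ _) _ _ _ hxy⟩
  have hpath : ∀ w A B, Path R w A B → ∃ n, Path (S n).1 w A B := by
    intro w
    induction w with
    | nil => intro A B h; exact ⟨0, h⟩
    | cons l w ih =>
      rintro A B ⟨C, h, h'⟩
      obtain ⟨n1, hn1⟩ := ih A C h
      obtain ⟨n2, hn2⟩ := hedge _ _ _ h'
      exact ⟨max n1 n2, C, path_mono (hmono _ _ (le_max_left _ _)) _ hn1,
        edge_mono (hmono _ _ (le_max_right _ _)) hn2⟩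
  refine ⟨R, ?_, ?_, ?_, ?_, ?_⟩
  · rintro l x y ⟨n, hn⟩
    exact ⟨n, (S n).2.symm _ _ _ hn⟩
  · rintro l x y z ⟨n, hn⟩ ⟨m, hm⟩
    exact (S (max n m)).2.det _ _ _ _ (hmono _ _ (le_max_left _ _) _ _ _ hn)
      (hmono _ _ (le_max_right _ _) _ _ _ hm)
  · intro l x
    obtain ⟨n, hn⟩ := htask (Sum.inl (l, x))
    have h := hdone n
    rw [hn] at h
    obtain ⟨y, hy⟩ := h
    exact ⟨y, n + 1, hy⟩
  · intro A B hA hB
    obtain ⟨n, hn⟩ := htask (Sum.inr (A, B))
    have h := hdone n
    rw [hn] at h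
    obtain ⟨w, hw⟩ := h hA hB
    exact ⟨w, path_mono (hSR (n + 1)) w hw⟩
  · intro w hw hr A hA hp
    obtain ⟨n, hn⟩ := hpath _ _ _ hp
    exact (S n).2.forest w hw hr A hA hn

/-- The negation of the preceding statement: For every infinite set X, every t at least 3 and every group G of permutations of X, it is not the case that for all t-element subsets A, B of X exactly one element of G maps A onto B. -/
theorem result :
    ¬ (∀ (X : Type) [Infinite X] (t : ℕ), 3 ≤ t →
      ∀ G : Subgroup (Equiv.Perm X),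
        ¬ (∀ A B : Finset X, A.card = t → B.card = t →
            ∃! g : G, A.map (Equiv.toEmbedding (g : Equiv.Perm X)) = B)) := by
  intro H
  obtain ⟨R, hsymm, hdet, htot, hconn, hforest⟩ := exists_limit
  choose F hF using htot
  have hFF : ∀ l x, F (inv l) (F l x) = x := fun l x =>
    hdet _ _ _ _ (hF _ _) (hsymm _ _ _ (hF l x))
  let s : ℕ → Equiv.Perm ℕ := fun i =>
    { toFun := F (i, true)
      invFun := F (i, false)
      left_inv := fun x => hFF (i, true) x
      right_inv := fun x => hFF (i, false) x }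
  let f : L → Equiv.Perm ℕ := fun l => cond l.2 (s l.1) (s l.1)⁻¹
  have hfF : ∀ l x, f l x = F l x := by
    rintro ⟨i, b⟩ x
    cases b <;> rfl
  have hRf : ∀ l x, R l x (f l x) := by
    intro l x
    rw [hfF]; exact hF l x
  have hedge : ∀ l (A B : Finset ℕ), Edge R l A B ↔ A.map (Equiv.toEmbedding (f l)) = B := by
    intro l A B
    constructor
    · rintro ⟨h1, h2⟩
      ext y
      rw [Finset.mem_map]
      constructor
      · rintro ⟨x, hx, rfl⟩
        obtain ⟨z, hz, hxz⟩ := h1 x hx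
        have := hdet _ _ _ _ hxz (hRf l x)
        rw [this] at hz
        exact hz
      · intro hy
        obtain ⟨x, hx, hxy⟩ := h2 y hy
        exact ⟨x, hx, (hdet _ _ _ _ hxy (hRf l x)).symm⟩
    · rintro rfl
      refine ⟨fun x hx => ?_, fun y hy => ?_⟩
      · exact ⟨f l x, by rw [Finset.mem_map]; exact ⟨x, hx, rfl⟩, hRf l x⟩
      · rw [Finset.mem_map] at hy
        obtain ⟨x, hx, rfl⟩ := hy
        exact ⟨x, hx, hRf l x⟩
  have hmul : ∀ (g h : Equiv.Perm ℕ) (A : Finset ℕ), A.map (Equiv.toEmbedding (g * h)) =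
      (A.map (Equiv.toEmbedding h)).map (Equiv.toEmbedding g) := by
    intro g h A
    rw [Finset.map_map]
    rfl
  have hone : ∀ (A : Finset ℕ), A.map (Equiv.toEmbedding (1 : Equiv.Perm ℕ)) = A := by
    intro A
    ext x
    rw [Finset.mem_map]
    constructor
    · rintro ⟨y, hy, rfl⟩
      exact hy
    · intro hx
      exact ⟨x, hx, rfl⟩
  have hpath : ∀ (w : List L) (A B : Finset ℕ), Path R w A B ↔
      A.map (Equiv.toEmbedding (w.map f).prod) = B := by
    intro w
    induction w with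
    | nil =>
      intro A B
      rw [List.map_nil, List.prod_nil, hone]
      rfl
    | cons l w ih =>
      intro A B
      rw [List.map_cons, List.prod_cons, hmul]
      constructor
      · rintro ⟨C, h, h'⟩
        rw [(ih A C).1 h, (hedge _ _ _).1 h']
      · intro h
        exact ⟨_, (ih A _).2 rfl, (hedge _ _ _).2 h⟩
  have hlift : ∀ v : FreeGroup ℕ, FreeGroup.lift s v = (v.toWord.map f).prod := by
    intro v
    conv_lhs => rw [← FreeGroup.mk_toWord (x := v)]
    rw [FreeGroup.lift_mk]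
  refine H ℕ 3 le_rfl (FreeGroup.lift s).range ?_
  intro A B hA hB
  obtain ⟨w, hw⟩ := hconn A B hA hB
  refine ⟨⟨(w.map f).prod, ⟨FreeGroup.mk w, ?_⟩⟩, (hpath _ _ _).1 hw, ?_⟩
  · rw [FreeGroup.lift_mk]
  · rintro ⟨g, v, rfl⟩ hg
    have hg1 : A.map (Equiv.toEmbedding (FreeGroup.lift s v)) = B := hg
    apply Subtype.ext
    show FreeGroup.lift s v = (w.map f).prod
    have hw1 : (w.map f).prod = FreeGroup.lift s (FreeGroup.mk w) := by
      rw [FreeGroup.lift_mk]
    have hg2 : A.map (Equiv.toEmbedding (FreeGroup.lift s (FreeGroup.mk w))) = B := by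
      rw [← hw1]; exact (hpath _ _ _).1 hw
    rw [hw1]
    have key : ((FreeGroup.mk w)⁻¹ * v).toWord = [] := by
      by_contra hne
      refine hforest _ hne FreeGroup.isReduced_toWord A hA ?_
      rw [hpath, ← hlift, map_mul, hmul, hg1, map_inv, ← hg2, ← hmul, inv_mul_cancel, hone]
    rw [FreeGroup.toWord_eq_nil_iff] at key
    rw [inv_mul_eq_one] at key
    rw [key]

end Pool.Agent.S1156
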