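import Pool.Statements.S1247
import Pool.Agent.Helpers.BQ4

set_option autoImplicit false
open MeasureTheory Filter Topology
open Pool Pool.MP_1a9b47_an

namespace Pool.Agent.S1247

/-- There is a complete orthonormal system of measurable functions in L²[0,1] such that, for every function analytic on [0,1] and not identically zero there, its expansion's partial sums fail to converge at almost every point of [0,1]. -/
theorem result :
    ∃ φ : ℕ → ℝ → ℝ,
      (∀ n, Measurable (φ n)) ∧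
      (∀ n, MemLp (φ n) 2 (volume.restrict (Set.Icc (0:ℝ) 1))) ∧
      (∀ i j, ∫ t in Set.Icc (0:ℝ) 1, φ i t * φ j t = if i = j then (1:ℝ) else 0) ∧
      (∀ g : ℝ → ℝ, MemLp g 2 (volume.restrict (Set.Icc (0:ℝ) 1)) →
        (∀ n, ∫ t in Set.Icc (0:ℝ) 1, g t * φ n t = 0) →
        g =ᵐ[volume.restrict (Set.Icc (0:ℝ) 1)] 0) ∧
      (∀ f : ℝ → ℝ, AnalyticOnNhd ℝ f (Set.Icc (0:ℝ) 1) →
        (∃ x ∈ Set.Icc (0:ℝ) 1, f x ≠ 0) →
        ∀ᵐ t ∂(volume.restrict (Set.Icc (0:ℝ) 1)),
          ¬ ∃ L : ℝ, Tendsto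
            (fun N : ℕ => ∑ n ∈ Finset.range N,
              (∫ s in Set.Icc (0:ℝ) 1, f s * φ n s) * φ n t)
            atTop (𝓝 L)) := by
  obtain ⟨φ, h1, h2, h3⟩ := Pool.Agent.BP.main2
  refine ⟨fun n => (φ n : ℝ → ℝ), fun n => (Lp.stronglyMeasurable (φ n)).measurable,
    fun n => Lp.memLp (φ n), ?_, ?_, ?_⟩
  · intro n m
    rw [← h1 n m, Pool.Agent.BP.inner_HH]
  · intro f hf hz
    have h4 : hf.toLp f = 0 := by
      apply h2
      intro n
      rw [Pool.Agent.BP.inner_HH]
      refine Eq.trans ?_ (hz n)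
      refine integral_congr_ae ?_
      filter_upwards [hf.coeFn_toLp] with t ht
      rw [ht]
    have h5 := hf.coeFn_toLp
    rw [h4] at h5
    exact h5.symm.trans (Lp.coeFn_zero ℝ 2 _)
  · intro f hf hne
    have hm := Pool.Agent.BP.analytic_memLp hf.continuousOn
    have hx := hm.coeFn_toLp
    have e1 : ∀ n, ∫ s in Set.Icc (0:ℝ) 1, f s * φ n s = inner ℝ (hm.toLp f) (φ n) := by
      intro n
      rw [Pool.Agent.BP.inner_HH]
      refine integral_congr_ae ?_
      filter_upwards [hx] with t ht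
      rw [ht]
    simp only [e1]
    exact h3 _ (Pool.Agent.BP.analytic_main hf hne hx)


end Pool.Agent.S1247
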