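import Pool.Statements.S1292

set_option autoImplicit false
open Pool Pool.MP_275f89_an

namespace Pool.Agent.S1292

/-- The identity `ε₀`. -/
noncomputable def e0 : ℝ → ℝ := fun x : ℝ => if 0 < x then (1 : ℝ) else 0

/-- Threshold distribution function: `1/2` on `(0,2]`, `1` beyond. -/
noncomputable def u : ℝ → ℝ := fun x : ℝ => if x ≤ 0 then (0 : ℝ) else if x ≤ 2 then 1 / 2 else 1

/-- The value: `1/4` on `(0,∞)`. -/
noncomputable def c : ℝ → ℝ := fun x : ℝ => if x ≤ 0 then (0 : ℝ) else 1 / 4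

/-- The comparison function: `1/2` on `(0,∞)`. -/
noncomputable def v : ℝ → ℝ := fun x : ℝ => if x ≤ 0 then (0 : ℝ) else 1 / 2

open Classical in
/-- The non-causal triangle function. -/
noncomputable def tau (F G : ℝ → ℝ) : ℝ → ℝ :=
  if F = e0 then G else if G = e0 then F else if u ≤ F ∧ u ≤ G then c else fun _ => 0

def DD : Set (ℝ → ℝ) := {F : ℝ → ℝ | Monotone F ∧ (∀ x, 0 ≤ F x ∧ F x ≤ 1) ∧
  (∀ x : ℝ, x ≤ 0 → F x = 0) ∧ ∀ x : ℝ, ContinuousWithinAt F (Set.Iio x) x}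

theorem contWithin_of_eventuallyEq {F : ℝ → ℝ} {x : ℝ}
    (h : ∃ y < x, ∀ z, y < z → z ≤ x → F z = F x) : ContinuousWithinAt F (Set.Iio x) x := by
  obtain ⟨y, hy, hz⟩ := h
  have : (fun _ : ℝ => F x) =ᶠ[nhdsWithin x (Set.Iio x)] F := by
    have h1 : Set.Ioo y x ∈ nhdsWithin x (Set.Iio x) := Ioo_mem_nhdsLT hy
    filter_upwards [h1] with z hzz
    exact (hz z hzz.1 hzz.2.le).symm
  exact Filter.Tendsto.congr' this tendsto_const_nhds

theorem u_mem : u ∈ DD := by
  refine ⟨?_, ?_, ?_, ?_⟩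
  · intro x y hxy
    unfold u
    split_ifs <;> linarith
  · intro x
    unfold u
    split_ifs <;> constructor <;> norm_num
  · intro x hx
    unfold u
    simp [hx]
  · intro x
    apply contWithin_of_eventuallyEq
    by_cases h0 : x ≤ 0
    · refine ⟨x - 1, by linarith, fun z _ hz => ?_⟩
      have : z ≤ 0 := by linarith
      simp [u, this, h0]
    · push Not at h0
      by_cases h2 : x ≤ 2
      · refine ⟨0, h0, fun z hz1 hz => ?_⟩
        have h3 : ¬ z ≤ 0 := by linarith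
        have h4 : ¬ x ≤ 0 := by linarith
        have h5 : z ≤ 2 := by linarith
        simp [u, h3, h4, h5, h2]
      · push Not at h2
        refine ⟨2, h2, fun z hz1 hz => ?_⟩
        have h3 : ¬ z ≤ 0 := by linarith
        have h4 : ¬ x ≤ 0 := by linarith
        have h5 : ¬ z ≤ 2 := by linarith
        have h6 : ¬ x ≤ 2 := by linarith
        simp [u, h3, h4, h5, h6]

theorem const_mem (r : ℝ) (h0 : 0 ≤ r) (h1 : r ≤ 1) :
    (fun x : ℝ => if x ≤ 0 then (0 : ℝ) else r) ∈ DD := by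
  refine ⟨?_, ?_, ?_, ?_⟩
  · intro x y hxy
    show (if x ≤ 0 then (0 : ℝ) else r) ≤ (if y ≤ 0 then (0 : ℝ) else r)
    split_ifs <;> linarith
  · intro x
    show 0 ≤ (if x ≤ 0 then (0 : ℝ) else r) ∧ (if x ≤ 0 then (0 : ℝ) else r) ≤ 1
    split_ifs <;> constructor <;> linarith
  · intro x hx
    simp [hx]
  · intro x
    apply contWithin_of_eventuallyEq
    by_cases h0 : x ≤ 0
    · refine ⟨x - 1, by linarith, fun z _ hz => ?_⟩
      have : z ≤ 0 := by linarith
      simp [this, h0]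
    · push Not at h0
      refine ⟨0, h0, fun z hz1 hz => ?_⟩
      have h3 : ¬ z ≤ 0 := by linarith
      have h4 : ¬ x ≤ 0 := by linarith
      simp [h3, h4]

theorem c_mem : c ∈ DD := const_mem (1 / 4) (by norm_num) (by norm_num)
theorem v_mem : v ∈ DD := const_mem (1 / 2) (by norm_num) (by norm_num)

theorem zero_mem : (fun _ : ℝ => (0 : ℝ)) ∈ DD := by
  refine ⟨fun _ _ _ => le_refl _, fun x => ⟨le_refl _, zero_le_one⟩, fun _ _ => rfl, fun x => ?_⟩
  exact continuousWithinAt_const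

theorem le_e0 {F : ℝ → ℝ} (hF : F ∈ DD) : F ≤ e0 := by
  intro x
  unfold e0
  by_cases h : 0 < x
  · simp only [h, if_true]; exact (hF.2.1 x).2
  · simp only [h, if_false]; exact (hF.2.2.1 x (not_lt.mp h)).le

theorem c_ne_e0 : c ≠ e0 := by
  intro h
  have := congrFun h 1
  simp [c, e0] at this
  norm_num at this

theorem zero_ne_e0 : (fun _ : ℝ => (0 : ℝ)) ≠ e0 := by
  intro h
  have := congrFun h 1
  simp [e0] at this

theorem not_u_le_c : ¬ u ≤ c := by
  intro h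
  have := h 1
  simp [u, c] at this
  norm_num at this

theorem not_u_le_zero : ¬ u ≤ (fun _ : ℝ => (0 : ℝ)) := by
  intro h
  have := h 1
  simp [u] at this
  norm_num at this

theorem c_le_u : c ≤ u := by
  intro x
  unfold c u
  split_ifs <;> norm_num

theorem tau_e0_left (G : ℝ → ℝ) : tau e0 G = G := by
  simp [tau]

theorem tau_e0_right (F : ℝ → ℝ) : tau F e0 = F := by
  by_cases h : F = e0
  · subst h; simp [tau]
  · simp [tau, h]

theorem tau_cases (F G : ℝ → ℝ) (hF : F ≠ e0) (hG : G ≠ e0) :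
    tau F G = c ∨ tau F G = fun _ => 0 := by
  by_cases h : u ≤ F ∧ u ≤ G
  · left; simp [tau, hF, hG, h]
  · right; simp only [tau, hF, hG, h, if_false]

theorem tau_low_left (F G : ℝ → ℝ) (hF : F ≠ e0) (hG : G ≠ e0) (h : ¬ u ≤ F) :
    tau F G = fun _ => 0 := by
  have : ¬ (u ≤ F ∧ u ≤ G) := fun h' => h h'.1
  simp only [tau, hF, hG, this, if_false]

theorem tau_low_right (F G : ℝ → ℝ) (hF : F ≠ e0) (hG : G ≠ e0) (h : ¬ u ≤ G) :
    tau F G = fun _ => 0 := by
  have : ¬ (u ≤ F ∧ u ≤ G) := fun h' => h h'.2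
  simp only [tau, hF, hG, this, if_false]

theorem tau_comm (F G : ℝ → ℝ) : tau F G = tau G F := by
  by_cases hF : F = e0
  · subst hF; rw [tau_e0_left, tau_e0_right]
  · by_cases hG : G = e0
    · subst hG; rw [tau_e0_left, tau_e0_right]
    · by_cases h : u ≤ F ∧ u ≤ G
      · have h' : u ≤ G ∧ u ≤ F := ⟨h.2, h.1⟩
        simp only [tau, hF, hG, h, h', if_true, if_false]
      · have h' : ¬ (u ≤ G ∧ u ≤ F) := fun h' => h ⟨h'.2, h'.1⟩
        simp only [tau, hF, hG, h, h', if_false]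

theorem tau_assoc (F G H : ℝ → ℝ) : tau (tau F G) H = tau F (tau G H) := by
  by_cases hF : F = e0
  · subst hF; rw [tau_e0_left, tau_e0_left]
  by_cases hG : G = e0
  · subst hG; rw [tau_e0_left, tau_e0_right]
  by_cases hH : H = e0
  · subst hH; rw [tau_e0_right, tau_e0_right]
  have h1 : tau (tau F G) H = fun _ => 0 := by
    rcases tau_cases F G hF hG with h | h <;> rw [h]
    · exact tau_low_left _ _ c_ne_e0 hH not_u_le_c
    · exact tau_low_left _ _ zero_ne_e0 hH not_u_le_zero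
  have h2 : tau F (tau G H) = fun _ => 0 := by
    rcases tau_cases G H hG hH with h | h <;> rw [h]
    · exact tau_low_right _ _ hF c_ne_e0 not_u_le_c
    · exact tau_low_right _ _ hF zero_ne_e0 not_u_le_zero
  rw [h1, h2]

theorem tau_mem {F G : ℝ → ℝ} (hF : F ∈ DD) (hG : G ∈ DD) : tau F G ∈ DD := by
  by_cases h1 : F = e0
  · subst h1; rw [tau_e0_left]; exact hG
  by_cases h2 : G = e0
  · subst h2; rw [tau_e0_right]; exact hF
  rcases tau_cases F G h1 h2 with h | h <;> rw [h]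
  · exact c_mem
  · exact zero_mem

theorem tau_mono {F₁ F₂ G : ℝ → ℝ} (hF₂ : F₂ ∈ DD) (hG : G ∈ DD)
    (h : F₁ ≤ F₂) : tau F₁ G ≤ tau F₂ G := by
  by_cases h1 : F₁ = e0
  · subst h1
    have : F₂ = e0 := le_antisymm (le_e0 hF₂) h
    rw [this]
  by_cases h3 : G = e0
  · subst h3; rw [tau_e0_right, tau_e0_right]; exact h
  by_cases h2 : F₂ = e0
  · subst h2
    rw [tau_e0_left]
    by_cases hu : u ≤ F₁ ∧ u ≤ G
    · have : tau F₁ G = c := by simp only [tau, h1, h3, hu, if_true, if_false, and_self]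
      rw [this]
      exact le_trans c_le_u hu.2
    · have : tau F₁ G = fun _ => 0 := by simp only [tau, h1, h3, hu, if_false]
      rw [this]
      intro x
      exact (hG.2.1 x).1
  · by_cases hu : u ≤ F₁ ∧ u ≤ G
    · have hu' : u ≤ F₂ ∧ u ≤ G := ⟨le_trans hu.1 h, hu.2⟩
      simp only [tau, h1, h2, h3, hu, hu', if_true, if_false, and_self]
      exact le_refl _
    · have h4 : tau F₁ G = fun _ => 0 := by simp only [tau, h1, h3, hu, if_false]
      rw [h4]
      intro x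
      rcases tau_cases F₂ G h2 h3 with h5 | h5 <;> rw [h5]
      · exact (c_mem.2.1 x).1

theorem result :
    ¬ (∀ D : Set (ℝ → ℝ),
      D = {F : ℝ → ℝ | Monotone F ∧ (∀ x, 0 ≤ F x ∧ F x ≤ 1) ∧ (∀ x : ℝ, x ≤ 0 → F x = 0) ∧
            ∀ x : ℝ, ContinuousWithinAt F (Set.Iio x) x} →
      ∀ τ : (ℝ → ℝ) → (ℝ → ℝ) → (ℝ → ℝ),
        (∀ F ∈ D, ∀ G ∈ D, τ F G ∈ D) →
        (∀ F ∈ D, ∀ G ∈ D, τ F G = τ G F) →
        (∀ F ∈ D, ∀ G ∈ D, ∀ H ∈ D, τ (τ F G) H = τ F (τ G H)) →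
        (∀ F ∈ D, τ F (fun x : ℝ => if 0 < x then (1 : ℝ) else 0) = F) →
        (∀ F₁ ∈ D, ∀ F₂ ∈ D, ∀ G ∈ D, F₁ ≤ F₂ → τ F₁ G ≤ τ F₂ G) →
        ∀ a : ℝ, 0 < a →
          ∀ F₁ ∈ D, ∀ F₂ ∈ D, ∀ G₁ ∈ D, ∀ G₂ ∈ D,
            (∀ x : ℝ, x ≤ a → F₁ x ≤ F₂ x) →
            (∀ x : ℝ, x ≤ a → G₁ x ≤ G₂ x) →
            ∀ x : ℝ, x ≤ a → τ F₁ G₁ x ≤ τ F₂ G₂ x) := by
  intro hall
  have h := hall DD rfl tau (fun F hF G hG => tau_mem hF hG) (fun F _ G _ => tau_comm F G)
    (fun F _ G _ H _ => tau_assoc F G H) (fun F _ => tau_e0_right F)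
    (fun F₁ _ F₂ hF₂ G hG h => tau_mono hF₂ hG h) 1 one_pos u u_mem v v_mem u u_mem v v_mem
  have huv : ∀ x : ℝ, x ≤ 1 → u x ≤ v x := by
    intro x hx
    unfold u v
    split_ifs <;> linarith
  have h1 := h huv huv 1 (le_refl _)
  have hue : u ≠ e0 := by
    intro h; have := congrFun h 1; simp [u, e0] at this
    norm_num at this
  have hve : v ≠ e0 := by
    intro h; have := congrFun h 1; simp [v, e0] at this
    norm_num at this
  have hnv : ¬ u ≤ v := by
    intro h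
    have := h 3
    simp [u, v] at this
    norm_num at this
  have e1 : tau u u = c := by
    simp [tau, hue]
  have e2 : tau v v = fun _ => 0 := tau_low_left _ _ hve hve hnv
  rw [e1, e2] at h1
  simp [c] at h1
  norm_num at h1

end Pool.Agent.S1292
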