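import Pool.Statements.S1325
import Pool.Agent.H3.PolyGen2

set_option autoImplicit false
open Pool Pool.MP_2eb5f4_an

namespace Pool.Agent.S1325

/-- There is a radical submultiplicative weight ω with ω(0)=1 and an f in ℓ¹(ω) with zero constant term and nonzero X-coefficient such that polynomials in f without constant term are not dense in the maximal ideal of ℓ¹(ω). -/
theorem result :
    ∃ ω : ℕ → ℝ, (∀ n, 0 < ω n) ∧ ω 0 = 1 ∧ (∀ m n, ω (m + n) ≤ ω m * ω n) ∧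
      Filter.Tendsto (fun n : ℕ => (ω n) ^ (1 / (n : ℝ))) Filter.atTop (nhds 0) ∧
      ∃ f : PowerSeries ℂ,
        Summable (fun n : ℕ => ‖PowerSeries.coeff n f‖ * ω n) ∧
        PowerSeries.coeff 0 f = 0 ∧ PowerSeries.coeff 1 f ≠ 0 ∧
        ∃ g : PowerSeries ℂ,
          Summable (fun n : ℕ => ‖PowerSeries.coeff n g‖ * ω n) ∧
          PowerSeries.coeff 0 g = 0 ∧
          ∃ ε : ℝ, 0 < ε ∧ ∀ p : Polynomial ℂ, p.coeff 0 = 0 →
            ε ≤ ∑' n : ℕ, ‖PowerSeries.coeff n (g - Polynomial.aeval f p)‖ * ω n := by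
  refine ⟨Pool.Agent.H3.PolyGen.om, Pool.Agent.H3.PolyGen.om_pos, Pool.Agent.H3.PolyGen.om_zero,
    Pool.Agent.H3.PolyGen.om_sub, Pool.Agent.H3.PolyGen.om_radical, Pool.Agent.H3.PolyGen.f,
    Pool.Agent.H3.PolyGen.L_f, ?_, ?_, PowerSeries.X, Pool.Agent.H3.PolyGen.L_X, ?_, 1/9, by norm_num,
    Pool.Agent.H3.PolyGen.dist_ge⟩
  · rw [Pool.Agent.H3.PolyGen.coeff_f, Pool.Agent.H3.PolyGen.c_zero]; simp
  · rw [Pool.Agent.H3.PolyGen.coeff_f, Pool.Agent.H3.PolyGen.c_one]; simp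
  · simp

end Pool.Agent.S1325
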