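import Pool.Statements.S1328
import Pool.Agent.Helpers29.LO5

set_option autoImplicit false
open MeasureTheory
open Pool Pool.MP_2ef13d_an

namespace Pool.Agent.S1328

/-- The negation of the preceding statement: If F is entire of minimal exponential type and f, Ff are in L² with Fourier transforms φ, ψ, then on every measurable set where φ vanishes a.e., ψ vanishes a.e. as well. -/
theorem result :
    ¬ (∀ F : ℂ → ℂ, Differentiable ℂ F →
      (∀ ε : ℝ, 0 < ε → ∃ C : ℝ, ∀ z : ℂ, ‖F z‖ ≤ C * Real.exp (ε * ‖z‖)) →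
      ∀ f φ ψ : ℝ → ℂ,
        MemLp f 2 →
        MemLp (fun x : ℝ => F (x : ℂ) * f x) 2 →
        MemLp φ 2 →
        MemLp ψ 2 →
        (∀ h : SchwartzMap ℝ ℂ,
          ∫ ξ : ℝ, φ ξ * h ξ =
            ∫ x : ℝ, f x *
              ∫ ξ : ℝ, Complex.exp (((-2 * Real.pi * x * ξ : ℝ) : ℂ) * Complex.I) * h ξ) →
        (∀ h : SchwartzMap ℝ ℂ,
          ∫ ξ : ℝ, ψ ξ * h ξ =
            ∫ x : ℝ, (F (x : ℂ) * f x) *
              ∫ ξ : ℝ, Complex.exp (((-2 * Real.pi * x * ξ : ℝ) : ℂ) * Complex.I) * h ξ) →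
        ∀ E : Set ℝ, MeasurableSet E →
          (∀ᵐ ξ : ℝ, ξ ∈ E → φ ξ = 0) →
          (∀ᵐ ξ : ℝ, ξ ∈ E → ψ ξ = 0)) := by
  intro H
  obtain ⟨k, c, G, N, η, hk, hgrow, hη, hG0, hGs, hGη, hcG, hkc, hN, hev⟩ :=
    Pool.Agent.Helpers29.LO.construction
  have hcs : Summable (fun n => ‖c n‖) := Summable.of_nonneg_of_le (fun _ => norm_nonneg _) hcG hGs
  -- the function f
  have hfm : Measurable (fun x : ℝ => c ⌊x⌋) := (measurable_of_countable c).comp Int.measurable_floor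
  obtain ⟨hf1, hf2⟩ := Pool.Agent.Helpers29.LO.dom hG0 hGs hfm (fun x => hcG _)
  -- the product
  have hkm : Measurable (fun x : ℝ => k x * c ⌊x⌋) :=
    (hk.continuous.measurable.comp Complex.measurable_ofReal).mul hfm
  have hdm : Measurable (fun x : ℝ => ((if ⌊x⌋ = 0 then 1 else 0 : ℂ))) :=
    (measurable_of_countable (fun n : ℤ => ((if n = 0 then 1 else 0 : ℂ)))).comp
      Int.measurable_floor
  have hdiff : ∀ x : ℝ, ‖k x * c ⌊x⌋ - (if ⌊x⌋ = 0 then 1 else 0)‖ ≤ η * G ⌊x⌋ := fun x =>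
    hkc ⌊x⌋ x (Int.floor_le x) (Int.lt_floor_add_one x).le
  have hd0 : Summable (fun ν : ℤ => if ν = 0 then (1 : ℝ) else 0) := by
    apply summable_of_ne_finset_zero (s := {0})
    intro n hn
    simp only [Finset.mem_singleton] at hn
    simp [hn]
  have hb0 : ∀ n : ℤ, 0 ≤ η * G n + (if n = 0 then (1 : ℝ) else 0) := fun n => by
    have := mul_nonneg hη (hG0 n)
    split_ifs <;> linarith
  have hbs : Summable (fun n : ℤ => η * G n + (if n = 0 then (1 : ℝ) else 0)) :=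
    (hGs.mul_left η).add hd0
  obtain ⟨hkf1, hkf2⟩ := Pool.Agent.Helpers29.LO.dom hb0 hbs hkm (fun x => by
    have h1 : k x * c ⌊x⌋ = (k x * c ⌊x⌋ - (if ⌊x⌋ = 0 then 1 else 0)) +
      (if ⌊x⌋ = 0 then 1 else 0) := by ring
    rw [h1]
    refine (norm_add_le _ _).trans (add_le_add (hdiff x) ?_)
    split_ifs <;> simp)
  obtain ⟨φ, hφ2, hφw, hφp⟩ := Pool.Agent.Helpers29.LO.exists_fourier _ hf1 hf2
  obtain ⟨ψ, hψ2, hψw, hψp⟩ := Pool.Agent.Helpers29.LO.exists_fourier _ hkf1 hkf2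
  have key := H k hk (fun ε hε => by
    refine ⟨Real.exp (1 / ε), fun z => (hgrow z).trans ?_⟩
    rw [← Real.exp_add]
    apply Real.exp_le_exp.2
    have h1 : Real.sqrt ‖z‖ ^ 2 = ‖z‖ := Real.sq_sqrt (norm_nonneg z)
    have h2 : 0 ≤ (ε * Real.sqrt ‖z‖ - 1) ^ 2 / ε := by positivity
    have h3 : (ε * Real.sqrt ‖z‖ - 1) ^ 2 / ε = ε * Real.sqrt ‖z‖ ^ 2 - 2 * Real.sqrt ‖z‖ + 1 / ε := by
      field_simp
      ring
    rw [h3, h1] at h2
    linarith) (fun x => c ⌊x⌋) φ ψ hf2 hkf2 hφ2 hψ2 hφw hψw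
    (Pool.Agent.Helpers29.LO.Good N) (Pool.Agent.Helpers29.LO.good_closed N).measurableSet (by
      filter_upwards [hφp] with ξ hξ hgood
      rw [hξ]
      have := Pool.Agent.Helpers29.LO.ft_floor hcs ξ
      unfold Pool.Agent.Helpers29.LO.ex at this
      rw [this, hev ξ hgood.2, zero_mul])
  apply Pool.Agent.Helpers29.LO.good_pos hN
  rw [measure_eq_zero_iff_ae_notMem]
  filter_upwards [key, hψp] with ξ h1 h2 hgood
  have h3 := h1 hgood
  rw [h2] at h3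
  have hint1 : Integrable (fun x : ℝ => Pool.Agent.Helpers29.LO.ex x ξ * (k x * c ⌊x⌋)) := by
    refine hkf1.norm.mono' (((Pool.Agent.Helpers29.LO.ex_cont ξ).measurable).mul
      hkm).aestronglyMeasurable (Filter.Eventually.of_forall fun x => ?_)
    rw [norm_mul, Pool.Agent.Helpers29.LO.ex_norm, one_mul]
  have hd1 := (Pool.Agent.Helpers29.LO.dom (G := fun n : ℤ => if n = 0 then (1 : ℝ) else 0)
    (fun n => by split_ifs <;> norm_num) hd0 hdm (fun x => by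
      split_ifs <;> simp)).1
  have hint2 : Integrable (fun x : ℝ => Pool.Agent.Helpers29.LO.ex x ξ *
      (if ⌊x⌋ = 0 then 1 else 0 : ℂ)) := by
    refine hd1.norm.mono' (((Pool.Agent.Helpers29.LO.ex_cont ξ).measurable).mul
      hdm).aestronglyMeasurable (Filter.Eventually.of_forall fun x => ?_)
    rw [norm_mul, Pool.Agent.Helpers29.LO.ex_norm, one_mul]
  have h4 : ∫ x : ℝ, Pool.Agent.Helpers29.LO.ex x ξ * (if ⌊x⌋ = 0 then 1 else 0 : ℂ) =
      ∫ x in (0 : ℝ)..1, Pool.Agent.Helpers29.LO.ex x ξ := by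
    have hs : Summable (fun n : ℤ => ‖(if n = 0 then 1 else 0 : ℂ)‖) := by
      apply summable_of_ne_finset_zero (s := {0})
      intro n hn
      simp only [Finset.mem_singleton] at hn
      simp [hn]
    rw [Pool.Agent.Helpers29.LO.ft_floor (c := fun n : ℤ => (if n = 0 then 1 else 0 : ℂ)) hs ξ]
    have : Pool.Agent.Helpers29.LO.ev (fun n : ℤ => (if n = 0 then 1 else 0 : ℂ)) ξ = 1 := by
      unfold Pool.Agent.Helpers29.LO.ev
      rw [tsum_eq_single 0]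
      · simp [Pool.Agent.Helpers29.LO.ch_zero]
      · intro m hm
        simp [hm]
    rw [this, one_mul]
  have h5 : ‖(∫ x : ℝ, Pool.Agent.Helpers29.LO.ex x ξ * (k x * c ⌊x⌋)) -
      ∫ x : ℝ, Pool.Agent.Helpers29.LO.ex x ξ * (if ⌊x⌋ = 0 then 1 else 0 : ℂ)‖ ≤ 1 / 4 := by
    rw [← integral_sub hint1 hint2]
    obtain ⟨g1, g2⟩ := Pool.Agent.Helpers29.LO.floor_int (G := fun n => η * G n)
      (fun n => mul_nonneg hη (hG0 n)) (hGs.mul_left η)
    refine (norm_integral_le_of_norm_le g1 (Filter.Eventually.of_forall fun x => ?_)).trans ?_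
    · rw [← mul_sub, norm_mul, Pool.Agent.Helpers29.LO.ex_norm, one_mul]
      exact hdiff x
    · rw [g2, tsum_mul_left]
      exact hGη
  have h6 := Pool.Agent.Helpers29.LO.ex_near hgood.1.1 hgood.1.2
  rw [h4] at h5
  have h7 : ∫ x : ℝ, Pool.Agent.Helpers29.LO.ex x ξ * (k x * c ⌊x⌋) = 0 := h3
  rw [h7, zero_sub, norm_neg] at h5
  have h8 : ‖(1 : ℂ)‖ ≤ ‖∫ x in (0 : ℝ)..1, Pool.Agent.Helpers29.LO.ex x ξ‖ +
      ‖(∫ x in (0 : ℝ)..1, Pool.Agent.Helpers29.LO.ex x ξ) - 1‖ := by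
    have : (1 : ℂ) = (∫ x in (0 : ℝ)..1, Pool.Agent.Helpers29.LO.ex x ξ) -
      ((∫ x in (0 : ℝ)..1, Pool.Agent.Helpers29.LO.ex x ξ) - 1) := by ring
    calc ‖(1 : ℂ)‖ = ‖(∫ x in (0 : ℝ)..1, Pool.Agent.Helpers29.LO.ex x ξ) -
      ((∫ x in (0 : ℝ)..1, Pool.Agent.Helpers29.LO.ex x ξ) - 1)‖ := by rw [← this]
      _ ≤ _ := norm_sub_le _ _
  rw [norm_one] at h8
  linarith

end Pool.Agent.S1328
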