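import Pool.Statements.S1332
-- import your own Pool.Agent.* helpers here

set_option autoImplicit false
open Pool Pool.MP_3153bb_an

namespace Pool.Agent.S1332

/-- The negation of the preceding statement: For μ continuous, convex, even, nonnegative on [-1,1], every degree-≤n polynomial bounded by μ there and alternating ±μ at n+1 points (ending at +μ) is a nonnegative combination of Chebyshev polynomials T_0..T_n. -/
theorem result :
    ¬ (∀ (μ : ℝ → ℝ), ContinuousOn μ (Set.Icc (-1) 1) →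
      ConvexOn ℝ (Set.Icc (-1) 1) μ →
      (∀ x ∈ Set.Icc (-1 : ℝ) 1, μ (-x) = μ x) →
      (∀ x ∈ Set.Icc (-1 : ℝ) 1, 0 ≤ μ x) →
      ∀ (n : ℕ) (p : Polynomial ℝ), p.natDegree ≤ n →
        (∀ x ∈ Set.Icc (-1 : ℝ) 1, |p.eval x| ≤ μ x) →
        (∃ τ : Fin (n + 1) → ℝ, StrictMono τ ∧ (∀ i, τ i ∈ Set.Icc (-1 : ℝ) 1) ∧
          ∀ i, p.eval (τ i) = (-1 : ℝ) ^ (n - (i : ℕ)) * μ (τ i)) →
        ∃ c : ℕ → ℝ, (∀ j, 0 ≤ c j) ∧
          p = ∑ j ∈ Finset.range (n + 1),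
            Polynomial.C (c j) * Polynomial.Chebyshev.T ℝ (j : ℤ)) := by
  intro H
  have heval : ∀ x : ℝ, (1 - Polynomial.C (531 / 50 : ℝ) * Polynomial.X ^ 2
      + Polynomial.C (567 / 50 : ℝ) * Polynomial.X ^ 4 : Polynomial ℝ).eval x
      = 1 - 531 / 50 * x ^ 2 + 567 / 50 * x ^ 4 := by
    intro x; simp
  have P1 : ConvexOn ℝ (Set.Icc (-1) 1) (fun x : ℝ => 1 + 18 / 25 * |x|) := by
    refine ⟨convex_Icc _ _, ?_⟩
    intro x _ y _ a b ha hb hab
    simp only [smul_eq_mul]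
    have h1 := abs_add_le (a * x) (b * y)
    rw [abs_mul, abs_mul, abs_of_nonneg ha, abs_of_nonneg hb] at h1
    nlinarith
  have P2 : (1 - Polynomial.C (531 / 50 : ℝ) * Polynomial.X ^ 2
      + Polynomial.C (567 / 50 : ℝ) * Polynomial.X ^ 4 : Polynomial ℝ).natDegree ≤ 4 := by
    compute_degree
  have P3 : ∀ x ∈ Set.Icc (-1 : ℝ) 1, |(1 - Polynomial.C (531 / 50 : ℝ) * Polynomial.X ^ 2
      + Polynomial.C (567 / 50 : ℝ) * Polynomial.X ^ 4 : Polynomial ℝ).eval x|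
      ≤ 1 + 18 / 25 * |x| := by
    intro x hx
    rw [heval]
    have hx1 : |x| ≤ 1 := abs_le.mpr hx
    have hy0 : 0 ≤ |x| := abs_nonneg x
    have e2 : x ^ 2 = |x| ^ 2 := (sq_abs x).symm
    have e4 : x ^ 4 = |x| ^ 4 := by
      have : x ^ 4 = (x ^ 2) ^ 2 := by ring
      rw [this, e2]; ring
    rw [e2, e4]
    generalize |x| = y at hx1 hy0
    rw [abs_le]
    constructor
    · have h1 : 0 ≤ 567 / 50 * (y - 2 / 3) ^ 2 * (y ^ 2 + 4 / 3 * y + 25 / 63) := by positivity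
      have h2 : 567 / 50 * (y - 2 / 3) ^ 2 * (y ^ 2 + 4 / 3 * y + 25 / 63)
        = (1 - 531 / 50 * y ^ 2 + 567 / 50 * y ^ 4) + (1 + 18 / 25 * y) := by ring
      linarith
    · have h1 : 0 ≤ (1 - y) * (y * (567 / 50 * y ^ 2 + 567 / 50 * y + 18 / 25)) :=
        mul_nonneg (by linarith) (by positivity)
      have h2 : (1 - y) * (y * (567 / 50 * y ^ 2 + 567 / 50 * y + 18 / 25))
        = (1 + 18 / 25 * y) - (1 - 531 / 50 * y ^ 2 + 567 / 50 * y ^ 4) := by ring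
      linarith
  have P4 : ∃ τ : Fin (4 + 1) → ℝ, StrictMono τ ∧ (∀ i, τ i ∈ Set.Icc (-1 : ℝ) 1) ∧
      ∀ i, (1 - Polynomial.C (531 / 50 : ℝ) * Polynomial.X ^ 2
      + Polynomial.C (567 / 50 : ℝ) * Polynomial.X ^ 4 : Polynomial ℝ).eval (τ i)
        = (-1 : ℝ) ^ (4 - (i : ℕ)) * (1 + 18 / 25 * |τ i|) := by
    refine ⟨![-1, -2 / 3, 0, 2 / 3, 1], ?_, ?_, ?_⟩
    · rw [Fin.strictMono_iff_lt_succ]
      intro i
      fin_cases i
      · show (-1 : ℝ) < -2 / 3; norm_num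
      · show (-2 / 3 : ℝ) < 0; norm_num
      · show (0 : ℝ) < 2 / 3; norm_num
      · show (2 / 3 : ℝ) < 1; norm_num
    · intro i
      fin_cases i <;> norm_num
    · intro i
      rw [heval]
      fin_cases i <;> norm_num [abs_of_pos, abs_of_neg]
  obtain ⟨c, hc, hp⟩ := H (fun x => 1 + 18 / 25 * |x|) (by fun_prop) P1
    (fun x _ => by simp) (fun x _ => by positivity) 4 _ P2 P3 P4
  -- contradiction from the coefficient of T_0
  have hT2 : ∀ x : ℝ, (Polynomial.Chebyshev.T ℝ 2).eval x = 2 * x ^ 2 - 1 := by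
    intro x; rw [Polynomial.Chebyshev.T_two]; simp
  have hT3 : ∀ x : ℝ, (Polynomial.Chebyshev.T ℝ 3).eval x = 4 * x ^ 3 - 3 * x := by
    intro x
    have := Polynomial.Chebyshev.T_add_two ℝ 1
    rw [show (1 : ℤ) + 2 = 3 by norm_num, show (1 : ℤ) + 1 = 2 by norm_num] at this
    rw [this]
    simp only [Polynomial.eval_sub, Polynomial.eval_mul, hT2, Polynomial.Chebyshev.T_one]
    simp
    ring
  have hT4 : ∀ x : ℝ, (Polynomial.Chebyshev.T ℝ 4).eval x = 8 * x ^ 4 - 8 * x ^ 2 + 1 := by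
    intro x
    have := Polynomial.Chebyshev.T_add_two ℝ 2
    rw [show (2 : ℤ) + 2 = 4 by norm_num, show (2 : ℤ) + 1 = 3 by norm_num] at this
    rw [this]
    simp only [Polynomial.eval_sub, Polynomial.eval_mul, hT2, hT3]
    simp
    ring
  have key : ∀ x : ℝ, 1 - 531 / 50 * x ^ 2 + 567 / 50 * x ^ 4
      = c 0 + c 1 * x + c 2 * (2 * x ^ 2 - 1) + c 3 * (4 * x ^ 3 - 3 * x)
        + c 4 * (8 * x ^ 4 - 8 * x ^ 2 + 1) := by
    intro x
    have h := congrArg (Polynomial.eval x) hp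
    rw [heval] at h
    rw [h]
    simp only [Finset.sum_range_succ, Finset.sum_range_zero, Polynomial.eval_add,
      Polynomial.eval_mul, Polynomial.eval_C, Polynomial.eval_zero]
    have e0 : ((0 : ℕ) : ℤ) = 0 := rfl
    have e1 : ((1 : ℕ) : ℤ) = 1 := rfl
    have e2 : ((2 : ℕ) : ℤ) = 2 := rfl
    have e3 : ((3 : ℕ) : ℤ) = 3 := rfl
    have e4 : ((4 : ℕ) : ℤ) = 4 := rfl
    rw [e0, e1, e2, e3, e4, hT2, hT3, hT4, Polynomial.Chebyshev.T_zero,
      Polynomial.Chebyshev.T_one]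
    simp
  have k0 := key 0
  have k1 := key 1
  have k2 := key (-1)
  have k3 := key (1 / 2)
  have k4 := key (-1 / 2)
  have h0 := hc 0
  norm_num at k0 k1 k2 k3 k4
  linarith

end Pool.Agent.S1332
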