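import Pool.Statements.S1372
import Pool.Agent.H6.NoFin3

set_option autoImplicit false
open Filter Topology
open Pool Pool.MP_3fbb5c_an

namespace Pool.Agent.S1372

/-- The negation of the preceding statement: For n ≥ 2, if a biholomorphic germ f of ℂⁿ fixing 0 is conjugate to its inverse by some such germ h (f∘h∘f = h near 0), then it is so conjugated by a germ h with some iterate h^k equal to the identity near 0. -/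
theorem result :
    ¬ (∀ n : ℕ, 2 ≤ n → ∀ f : (Fin n → ℂ) → (Fin n → ℂ),
      (AnalyticAt ℂ f 0 ∧ f 0 = 0 ∧
        ∃ g : (Fin n → ℂ) → (Fin n → ℂ), AnalyticAt ℂ g 0 ∧ g 0 = 0 ∧
          g ∘ f =ᶠ[𝓝 (0 : Fin n → ℂ)] id ∧ f ∘ g =ᶠ[𝓝 (0 : Fin n → ℂ)] id) →
      (∃ h : (Fin n → ℂ) → (Fin n → ℂ),
        (AnalyticAt ℂ h 0 ∧ h 0 = 0 ∧
          ∃ g : (Fin n → ℂ) → (Fin n → ℂ), AnalyticAt ℂ g 0 ∧ g 0 = 0 ∧
            g ∘ h =ᶠ[𝓝 (0 : Fin n → ℂ)] id ∧ h ∘ g =ᶠ[𝓝 (0 : Fin n → ℂ)] id) ∧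
        f ∘ h ∘ f =ᶠ[𝓝 (0 : Fin n → ℂ)] h) →
      ∃ h : (Fin n → ℂ) → (Fin n → ℂ),
        (AnalyticAt ℂ h 0 ∧ h 0 = 0 ∧
          ∃ g : (Fin n → ℂ) → (Fin n → ℂ), AnalyticAt ℂ g 0 ∧ g 0 = 0 ∧
            g ∘ h =ᶠ[𝓝 (0 : Fin n → ℂ)] id ∧ h ∘ g =ᶠ[𝓝 (0 : Fin n → ℂ)] id) ∧
        f ∘ h ∘ f =ᶠ[𝓝 (0 : Fin n → ℂ)] h ∧
        ∃ k : ℕ, 0 < k ∧ h^[k] =ᶠ[𝓝 (0 : Fin n → ℂ)] id) := by
  intro H
  obtain ⟨g, ⟨hga, hg0, gi, hgia, hgi0, hgi1, hgi2⟩, hrel, k, hk, hit⟩ :=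
    H 3 (by norm_num) Pool.Agent.H6.Flow.f
      ⟨Pool.Agent.H6.Flow.f_analytic, Pool.Agent.H6.Flow.f_zero, Pool.Agent.H6.Flow.fi,
        Pool.Agent.H6.Flow.fi_analytic, Pool.Agent.H6.Flow.fi_zero, Pool.Agent.H6.Flow.fi_f,
        Pool.Agent.H6.Flow.f_fi⟩
      ⟨Pool.Agent.H6.Flow.h, ⟨Pool.Agent.H6.Flow.h_analytic, Pool.Agent.H6.Flow.h_zero,
        Pool.Agent.H6.Flow.hi, Pool.Agent.H6.Flow.hi_analytic, Pool.Agent.H6.Flow.hi_zero,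
        Pool.Agent.H6.Flow.hi_h, Pool.Agent.H6.Flow.h_hi⟩, Pool.Agent.H6.Flow.fhf⟩
  have S : Pool.Agent.H6.NoFin.Sym g := by
    refine ⟨hga, hg0, ?_, hrel⟩
    intro v hv
    have h1 : HasFDerivAt g (fderiv ℂ g 0) 0 := hga.differentiableAt.hasFDerivAt
    have h2 : HasFDerivAt gi (fderiv ℂ gi 0) (g 0) := by
      rw [hg0]
      exact hgia.differentiableAt.hasFDerivAt
    have h3 : HasFDerivAt (gi ∘ g) ((fderiv ℂ gi 0).comp (fderiv ℂ g 0)) 0 := h2.comp 0 h1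
    have h4 : HasFDerivAt (gi ∘ g) (ContinuousLinearMap.id ℂ (Fin 3 → ℂ)) 0 :=
      (hasFDerivAt_id (𝕜 := ℂ) (0 : Fin 3 → ℂ)).congr_of_eventuallyEq hgi1
    have h5 := congrArg (fun L : (Fin 3 → ℂ) →L[ℂ] (Fin 3 → ℂ) => L v) (h3.unique h4)
    simp only [ContinuousLinearMap.comp_apply, ContinuousLinearMap.id_apply] at h5
    rw [hv, map_zero] at h5
    exact h5.symm
  exact Pool.Agent.H6.NoFin.no_finite S k hk hit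

end Pool.Agent.S1372
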