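import Pool.Statements.S1375
import Pool.Agent.H21.TilfQ

set_option autoImplicit false
open MeasureTheory
open Pool Pool.MP_413515_an

namespace Pool.Agent.S1375

/-- There is an infinite Hausdorff compact abelian totally disconnected group with a finitely generated dense subgroup such that every translation-invariant complex linear functional on L² of its Haar measure is continuous. -/
theorem result :
    ∃ (G : Type) (_ : TopologicalSpace G) (_ : AddCommGroup G)
      (_ : IsTopologicalAddGroup G) (_ : CompactSpace G) (_ : T2Space G)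
      (_ : TotallyDisconnectedSpace G) (_ : Infinite G)
      (_ : MeasurableSpace G) (_ : BorelSpace G) (μ : Measure G),
      μ.IsAddHaarMeasure ∧
      (∃ s : Finset G,
        Dense (((AddSubgroup.closure (s : Set G)) : AddSubgroup G) : Set G)) ∧
      ∀ φ : Lp ℂ 2 μ →ₗ[ℂ] ℂ,
        (∀ (a : G) (f g : Lp ℂ 2 μ),
          ((g : G → ℂ) =ᵐ[μ] fun x => (f : G → ℂ) (x + a)) → φ g = φ f) →
        Continuous φ := by
  haveI : Fact (Nat.Prime 2) := ⟨Nat.prime_two⟩
  letI : MeasurableSpace ℤ_[2] := borel ℤ_[2]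
  haveI : BorelSpace ℤ_[2] := ⟨rfl⟩
  let K : TopologicalSpace.PositiveCompacts ℤ_[2] := ⊤
  let μ : Measure ℤ_[2] := Measure.addHaarMeasure K
  haveI hprob : IsProbabilityMeasure μ := ⟨by
    have h := Measure.addHaarMeasure_self (K₀ := K)
    simpa [K] using h⟩
  refine ⟨ℤ_[2], inferInstance, inferInstance, inferInstance, inferInstance, inferInstance,
    inferInstance, ?_, inferInstance, inferInstance, μ, inferInstance, ⟨{1}, ?_⟩, ?_⟩
  · exact Infinite.of_injective (fun n : ℕ => (n : ℤ_[2])) Nat.cast_injective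
  · have h1 : DenseRange (fun n : ℕ => (n : ℤ_[2])) := PadicInt.denseRange_natCast
    refine h1.mono ?_
    rintro _ ⟨n, rfl⟩
    have h2 : ((n : ℕ) : ℤ_[2]) = n • (1 : ℤ_[2]) := by simp
    have h3 : n • (1 : ℤ_[2]) ∈ AddSubgroup.closure ((({1} : Finset ℤ_[2])) : Set ℤ_[2]) :=
      AddSubgroup.nsmul_mem _ (AddSubgroup.subset_closure (by simp)) n
    rw [← h2] at h3
    exact h3
  · intro φ hφ
    exact H21.Tilf.tilf μ φ hφ

end Pool.Agent.S1375
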