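import Pool.Statements.S1389
import Pool.Agent.H28.RD

set_option autoImplicit false
open Pointwise
open Pool Pool.MP_449b18_an

namespace Pool.Agent.S1389

/-- For every finitely generated group, rapid decay (a polynomial P(r) bounds the trilinear convolution form for f supported in the r-ball) holds iff some polynomial P(r) bounds the number of abc=1 triples in A×B×C by P(r)√(∣A∣∣B∣∣C∣) when A lies in the r-ball. -/
theorem result :
    ∀ (Γ : Type) [Group Γ] [DecidableEq Γ] (S : Finset Γ),
      Subgroup.closure (S : Set Γ) = ⊤ →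
      ((∃ P : Polynomial ℝ, ∀ (r : ℕ) (F G H : Finset Γ) (f g h : Γ → ℂ),
          F ⊆ (insert 1 (S ∪ S⁻¹)) ^ r →
          ‖∑ x ∈ F, ∑ y ∈ G, ∑ z ∈ H, (if x * y * z = 1 then f x * g y * h z else 0)‖
            ≤ P.eval (r : ℝ) *
              (Real.sqrt (∑ x ∈ F, ‖f x‖ ^ 2) * Real.sqrt (∑ y ∈ G, ‖g y‖ ^ 2) *
                Real.sqrt (∑ z ∈ H, ‖h z‖ ^ 2)))
        ↔
       (∃ P : Polynomial ℝ, ∀ (r : ℕ) (A B C : Finset Γ),
          A ⊆ (insert 1 (S ∪ S⁻¹)) ^ r →
          (((A ×ˢ B ×ˢ C).filter (fun t => t.1 * t.2.1 * t.2.2 = 1)).card : ℝ)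
            ≤ P.eval (r : ℝ) * Real.sqrt ((A.card : ℝ) * B.card * C.card))) := by
  intro Γ _ _ S _
  constructor
  · rintro ⟨P, hP⟩
    refine ⟨P, fun r A B C hA => ?_⟩
    have h := hP r A B C (fun _ => 1) (fun _ => 1) (fun _ => 1) hA
    have e1 : (∑ x ∈ A, ∑ y ∈ B, ∑ z ∈ C, (if x * y * z = 1 then (1 : ℂ) * 1 * 1 else 0)) =
        ((((A ×ˢ B ×ˢ C).filter (fun t => t.1 * t.2.1 * t.2.2 = 1)).card : ℕ) : ℂ) := by
      rw [Finset.card_filter]
      push_cast
      rw [Finset.sum_product]
      apply Finset.sum_congr rfl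
      intro x _
      rw [Finset.sum_product]
      simp
    rw [e1, Complex.norm_natCast] at h
    refine h.trans (le_of_eq ?_)
    simp only [norm_one, one_pow, Finset.sum_const, nsmul_eq_mul, mul_one]
    rw [Real.sqrt_mul (by positivity), Real.sqrt_mul (by positivity)]
  · rintro ⟨P, hP⟩
    classical
    set E : Finset Γ := insert 1 (S ∪ S⁻¹) with hE
    -- `P r ≥ 1`
    have hP1 : ∀ r : ℕ, 1 ≤ P.eval (r : ℝ) := by
      intro r
      have h1 : ({1} : Finset Γ) ⊆ E ^ r := by
        rw [Finset.singleton_subset_iff]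
        exact Finset.one_mem_pow (Finset.mem_insert_self _ _)
      have h := hP r {1} {1} {1} h1
      have e : ((({1} : Finset Γ) ×ˢ ({1} : Finset Γ) ×ˢ ({1} : Finset Γ)).filter
          (fun t => t.1 * t.2.1 * t.2.2 = 1)).card = 1 := by
        simp [Finset.singleton_product_singleton, Finset.filter_singleton]
      rw [e] at h
      simpa using h
    set k0 := E.card with hk0
    refine ⟨1 + (Polynomial.C (k0 : ℝ) * Polynomial.X + 1) *
      (2 * (2 + 4 * P * (2 * (Polynomial.C (k0 : ℝ) * Polynomial.X) + 1))), ?_⟩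
    intro r F G H f g h hF
    set J := k0 * r with hJ
    have heval : (1 + (Polynomial.C (k0 : ℝ) * Polynomial.X + 1) *
      (2 * (2 + 4 * P * (2 * (Polynomial.C (k0 : ℝ) * Polynomial.X) + 1)))).eval (r : ℝ) =
      1 + ((J : ℝ) + 1) * (2 * (2 + 4 * P.eval (r : ℝ) * (2 * J + 1))) := by
      have hJ' : (J : ℝ) = k0 * r := by rw [hJ]; push_cast; ring
      rw [hJ']
      simp [Polynomial.eval_add, Polynomial.eval_mul]
    rw [heval]
    have hPr := hP1 r
    set Q : ℝ := 1 + ((J : ℝ) + 1) * (2 * (2 + 4 * P.eval (r : ℝ) * (2 * J + 1))) with hQ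
    have hcardE : ((E ^ r).card : ℝ) ≤ 2 ^ J := by
      have h1 : (E ^ r).card ≤ E.card ^ r := Finset.card_pow_le
      have h2 : E.card ≤ 2 ^ k0 := Nat.lt_two_pow_self.le
      have h3 : (E ^ r).card ≤ 2 ^ J := by
        calc (E ^ r).card ≤ E.card ^ r := h1
          _ ≤ (2 ^ k0) ^ r := Nat.pow_le_pow_left h2 r
          _ = 2 ^ J := by rw [← pow_mul]
      exact_mod_cast h3
    -- norms
    set nf := Real.sqrt (∑ x ∈ F, ‖f x‖ ^ 2) with hnf
    set ng := Real.sqrt (∑ y ∈ G, ‖g y‖ ^ 2) with hng
    set nh := Real.sqrt (∑ z ∈ H, ‖h z‖ ^ 2) with hnh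
    have hnf0 : 0 ≤ nf := Real.sqrt_nonneg _
    have hng0 : 0 ≤ ng := Real.sqrt_nonneg _
    have hnh0 : 0 ≤ nh := Real.sqrt_nonneg _
    have hnf2 : nf ^ 2 = ∑ x ∈ F, ‖f x‖ ^ 2 := Real.sq_sqrt (Finset.sum_nonneg fun _ _ => by positivity)
    have hng2 : ng ^ 2 = ∑ x ∈ G, ‖g x‖ ^ 2 := Real.sq_sqrt (Finset.sum_nonneg fun _ _ => by positivity)
    have hnh2 : nh ^ 2 = ∑ x ∈ H, ‖h x‖ ^ 2 := Real.sq_sqrt (Finset.sum_nonneg fun _ _ => by positivity)
    have hQ0 : 0 ≤ Q := by rw [hQ]; positivity
    have hnorm : ‖∑ x ∈ F, ∑ y ∈ G, ∑ z ∈ H, (if x * y * z = 1 then f x * g y * h z else 0)‖ ≤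
        ∑ x ∈ F, ∑ y ∈ G, ∑ z ∈ H, (if x * y * z = 1 then ‖f x‖ * ‖g y‖ * ‖h z‖ else 0) := by
      refine (norm_sum_le _ _).trans (Finset.sum_le_sum fun x _ => ?_)
      refine (norm_sum_le _ _).trans (Finset.sum_le_sum fun y _ => ?_)
      refine (norm_sum_le _ _).trans (Finset.sum_le_sum fun z _ => ?_)
      split_ifs <;> simp
    refine hnorm.trans ?_
    -- zero cases
    by_cases hzero : nf * ng * nh = 0
    · have hall : ∑ x ∈ F, ∑ y ∈ G, ∑ z ∈ H, (if x * y * z = 1 then ‖f x‖ * ‖g y‖ * ‖h z‖ else 0) = 0 := by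
        apply Finset.sum_eq_zero
        intro x hx
        apply Finset.sum_eq_zero
        intro y hy
        apply Finset.sum_eq_zero
        intro z hz
        have hxle : ‖f x‖ ≤ nf := by
          apply Real.le_sqrt_of_sq_le
          exact Finset.single_le_sum (f := fun x => ‖f x‖ ^ 2) (fun _ _ => by positivity) hx
        have hyle : ‖g y‖ ≤ ng := by
          apply Real.le_sqrt_of_sq_le
          exact Finset.single_le_sum (f := fun x => ‖g x‖ ^ 2) (fun _ _ => by positivity) hy
        have hzle : ‖h z‖ ≤ nh := by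
          apply Real.le_sqrt_of_sq_le
          exact Finset.single_le_sum (f := fun x => ‖h x‖ ^ 2) (fun _ _ => by positivity) hz
        split_ifs
        · have h1 : ‖f x‖ * ‖g y‖ * ‖h z‖ ≤ nf * ng * nh := by gcongr
          have h2 : 0 ≤ ‖f x‖ * ‖g y‖ * ‖h z‖ := by positivity
          linarith
        · rfl
      rw [hall, hzero, mul_zero]
    · have hnf1 : 0 < nf := lt_of_le_of_ne hnf0 (fun hh => hzero (by rw [← hh]; ring))
      have hng1 : 0 < ng := lt_of_le_of_ne hng0 (fun hh => hzero (by rw [← hh]; ring))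
      have hnh1 : 0 < nh := lt_of_le_of_ne hnh0 (fun hh => hzero (by rw [← hh]; ring))
      -- normalized positive functions on the supports
      set F' := F.filter (fun x => 0 < ‖f x‖) with hF'
      set G' := G.filter (fun x => 0 < ‖g x‖) with hG'
      set H' := H.filter (fun x => 0 < ‖h x‖) with hH'
      have hF'F : F' ⊆ E ^ r := (Finset.filter_subset _ _).trans hF
      have key := Pool.Agent.H28.RD.main_bound (P.eval (r : ℝ)) (by linarith) J F'
        (le_trans (by exact_mod_cast Finset.card_le_card hF'F) hcardE)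
        (fun A B C hA => hP r A B C (hA.trans hF'F)) G' H'
        (fun x => ‖f x‖ / nf) (fun x => ‖g x‖ / ng) (fun x => ‖h x‖ / nh)
        (fun x hx => div_pos (Finset.mem_filter.1 hx).2 hnf1)
        (fun x hx => div_pos (Finset.mem_filter.1 hx).2 hng1)
        (fun x hx => div_pos (Finset.mem_filter.1 hx).2 hnh1)
        (by
          simp only [div_pow]
          rw [← Finset.sum_div, div_le_one (by positivity), hnf2]
          exact Finset.sum_le_sum_of_subset_of_nonneg (Finset.filter_subset _ _)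
            (fun _ _ _ => by positivity))
        (by
          simp only [div_pow]
          rw [← Finset.sum_div, div_le_one (by positivity), hng2]
          exact Finset.sum_le_sum_of_subset_of_nonneg (Finset.filter_subset _ _)
            (fun _ _ _ => by positivity))
        (by
          simp only [div_pow]
          rw [← Finset.sum_div, div_le_one (by positivity), hnh2]
          exact Finset.sum_le_sum_of_subset_of_nonneg (Finset.filter_subset _ _)
            (fun _ _ _ => by positivity))
      have e1 : ∑ x ∈ F, ∑ y ∈ G, ∑ z ∈ H, (if x * y * z = 1 then ‖f x‖ * ‖g y‖ * ‖h z‖ else 0) =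
          (nf * ng * nh) * ∑ x ∈ F', ‖f x‖ / nf * (∑ y ∈ G', ∑ z ∈ H',
            (if x * y * z = 1 then ‖g y‖ / ng * (‖h z‖ / nh) else 0)) := by
        rw [hF', Finset.sum_filter, Finset.mul_sum]
        apply Finset.sum_congr rfl
        intro x _
        by_cases hx : 0 < ‖f x‖
        · rw [if_pos hx, hG', Finset.sum_filter, Finset.mul_sum, Finset.mul_sum]
          apply Finset.sum_congr rfl
          intro y _
          by_cases hy : 0 < ‖g y‖
          · rw [if_pos hy, hH', Finset.sum_filter, Finset.mul_sum, Finset.mul_sum]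
            apply Finset.sum_congr rfl
            intro z _
            by_cases hz : 0 < ‖h z‖
            · rw [if_pos hz]
              split_ifs
              · field_simp
              · simp
            · rw [if_neg hz]
              have : ‖h z‖ = 0 := le_antisymm (not_lt.1 hz) (norm_nonneg _)
              simp [this]
          · rw [if_neg hy]
            have : ‖g y‖ = 0 := le_antisymm (not_lt.1 hy) (norm_nonneg _)
            simp [this]
        · rw [if_neg hx]
          have : ‖f x‖ = 0 := le_antisymm (not_lt.1 hx) (norm_nonneg _)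
          simp [this]
      rw [e1, mul_comm Q]
      exact mul_le_mul_of_nonneg_left key (by positivity)

end Pool.Agent.S1389
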