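import Pool.Statements.S1392
import Pool.Agent.H18.C45c09f

set_option autoImplicit false
open scoped InnerProductSpace
open Pool Pool.MP_45c09f_an

namespace Pool.Agent.S1392

/-- The negation of the preceding statement: If a bounded operator T on a complex Hilbert space is quasi-similar to a normal operator, then every operator leaving all closed T-invariant subspaces invariant lies in the weak-operator closure of the polynomials in T, i.e. T is reflexive. -/
theorem result :
    ¬ (∀ (H : Type) [NormedAddCommGroup H] [InnerProductSpace ℂ H] [CompleteSpace H]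
      (K : Type) [NormedAddCommGroup K] [InnerProductSpace ℂ K] [CompleteSpace K]
      (T : H →L[ℂ] H) (N : K →L[ℂ] K),
      IsStarNormal N →
      (∃ (X : H →L[ℂ] K) (Y : K →L[ℂ] H),
          Function.Injective X ∧ DenseRange X ∧
          Function.Injective Y ∧ DenseRange Y ∧
          X.comp T = N.comp X ∧ T.comp Y = Y.comp N) →
      ∀ A : H →L[ℂ] H,
        (∀ M : Submodule ℂ H, IsClosed (M : Set H) →
            (∀ x ∈ M, T x ∈ M) → ∀ x ∈ M, A x ∈ M) →
        ∀ (n : ℕ) (x y : Fin n → H) (ε : ℝ), 0 < ε →
          ∃ p : Polynomial ℂ, ∀ i : Fin n,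
            ‖⟪y i, (A - Polynomial.aeval T p) (x i)⟫_ℂ‖ < ε) := by
  exact Pool.Agent.H18.C45c09f.main

end Pool.Agent.S1392
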