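import Pool.Statements.S1396

set_option autoImplicit false
open Pool Pool.MP_462cdc_an

namespace Pool.Agent.S1396

/-- The plane with the norm `max |z| (2 |im z|)`, as a subspace of `ℂ × ℝ`. -/
def E : Submodule ℝ (ℂ × ℝ) where
  carrier := {p | p.2 = 2 * p.1.im}
  add_mem' := by
    intro p q hp hq
    simp only [Set.mem_ofPred_eq] at hp hq ⊢
    rw [Prod.snd_add, Prod.fst_add, Complex.add_im, hp, hq]; ring
  zero_mem' := by simp
  smul_mem' := by
    intro c p hp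
    simp only [Set.mem_ofPred_eq] at hp ⊢
    rw [Prod.smul_snd, Prod.smul_fst, hp]
    simp; ring

theorem norm_E (p : E) : ‖p‖ = max ‖p.1.1‖ |2 * p.1.1.im| := by
  have h : ‖p‖ = max ‖p.1.1‖ |p.1.2| := rfl
  rw [h, show p.1.2 = 2 * p.1.1.im from p.2]

/-- the point of `E` with given coordinate -/
def pt (z : ℂ) : E := ⟨(z, 2 * z.im), rfl⟩

theorem norm_pt (z : ℂ) : ‖pt z‖ = max ‖z‖ |2 * z.im| := norm_E _

theorem fst_inj {p q : E} (h : p.1.1 = q.1.1) : p = q := by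
  apply Subtype.ext
  have hp : p.1.2 = 2 * p.1.1.im := p.2
  have hq : q.1.2 = 2 * q.1.1.im := q.2
  exact Prod.ext h (by rw [hp, hq, h])

theorem norm_eq_of_far (p : E) (h : 2 * |p.1.1.im| ≤ p.1.1.re) : ‖p‖ = ‖p.1.1‖ := by
  rw [norm_E, max_eq_left]
  rw [abs_mul, abs_two]
  exact h.trans (Complex.re_le_norm _)

/-- Moving toward a nearest point makes it the only nearest point. -/
theorem eucl (x g h : ℂ) (t : ℝ) (ht : 0 < t) (ht1 : t < 1)
    (h1 : ‖x - g‖ ≤ ‖x - h‖)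
    (h2 : ‖(x + (t : ℂ) * (g - x)) - h‖ ≤ ‖(x + (t : ℂ) * (g - x)) - g‖) : h = g := by
  set a := x - g with ha
  set u := (x + (t : ℂ) * (g - x)) - h with hu
  have e1 : x - h = u + (t : ℂ) * a := by rw [hu, ha]; ring
  have e2 : (x + (t : ℂ) * (g - x)) - g = ((1 - t : ℝ) : ℂ) * a := by
    rw [ha]; push_cast; ring
  rw [e1] at h1
  rw [e2] at h2
  have k1 : ‖a‖ ^ 2 ≤ ‖u + (t : ℂ) * a‖ ^ 2 := pow_le_pow_left₀ (norm_nonneg _) h1 2
  have k2 : ‖u‖ ^ 2 ≤ ‖((1 - t : ℝ) : ℂ) * a‖ ^ 2 := pow_le_pow_left₀ (norm_nonneg _) h2 2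
  rw [← Complex.normSq_eq_norm_sq, ← Complex.normSq_eq_norm_sq, Complex.normSq_apply,
    Complex.normSq_apply] at k1 k2
  simp only [Complex.add_re, Complex.add_im, Complex.mul_re, Complex.mul_im, Complex.ofReal_re,
    Complex.ofReal_im] at k1 k2
  -- inner product bound
  have k3 : (1 - t) * (a.re * a.re + a.im * a.im) ≤ u.re * a.re + u.im * a.im := by
    have : t * ((1 - t) * (a.re * a.re + a.im * a.im)) ≤ t * (u.re * a.re + u.im * a.im) := by
      nlinarith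
    exact le_of_mul_le_mul_left this ht
  have k4 : (u.re - (1 - t) * a.re) ^ 2 + (u.im - (1 - t) * a.im) ^ 2 ≤ 0 := by
    have := mul_le_mul_of_nonneg_left k3 (by linarith : (0 : ℝ) ≤ 2 * (1 - t))
    nlinarith
  have s1 := sq_nonneg (u.re - (1 - t) * a.re)
  have s2 := sq_nonneg (u.im - (1 - t) * a.im)
  have k5 : u.re = (1 - t) * a.re := by
    have : (u.re - (1 - t) * a.re) ^ 2 = 0 := by linarith
    have := pow_eq_zero_iff (two_ne_zero) |>.1 this
    linarith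
  have k6 : u.im = (1 - t) * a.im := by
    have : (u.im - (1 - t) * a.im) ^ 2 = 0 := by linarith
    have := pow_eq_zero_iff (two_ne_zero) |>.1 this
    linarith
  have k7 : u = ((1 - t : ℝ) : ℂ) * a := by
    apply Complex.ext
    · simp [k5]
    · simp [k6]
  rw [← e2, hu] at k7
  exact sub_right_injective k7

/-- `g` is a nearest point of `x` in `G`. -/
def Near (G : Set E) (x g : E) : Prop := g ∈ G ∧ ∀ y ∈ G, ‖x - g‖ ≤ ‖x - y‖

theorem main (G : Set E) (hG : IsCompact G) (hne : G.Nonempty) :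
    ¬ IsMeagre {x : E | ∀ g₁ ∈ G, ∀ g₂ ∈ G,
            (∀ y ∈ G, ‖x - g₁‖ ≤ ‖x - y‖) →
            (∀ y ∈ G, ‖x - g₂‖ ≤ ‖x - y‖) → g₁ = g₂} := by
  obtain ⟨R, hR⟩ := hG.isBounded.exists_norm_le
  have hR0 : 0 ≤ R := by
    obtain ⟨g, hg⟩ := hne
    exact (norm_nonneg g).trans (hR g hg)
  set c : E := pt ((4 + 3 * R : ℝ) : ℂ) with hc
  set K : Set E := Metric.closedBall c 1 with hK
  have hfar : ∀ x ∈ K, ∀ g ∈ G, ‖x - g‖ = ‖x.1.1 - g.1.1‖ := by
    intro x hx g hg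
    have hx' : ‖x - c‖ ≤ 1 := by rwa [hK, mem_closedBall_iff_norm] at hx
    have hg' : ‖g‖ ≤ R := hR g hg
    rw [norm_E] at hx' hg'
    have a1 := (le_max_left _ _).trans hx'
    have a2 := (le_max_left _ _).trans hg'
    have b1 : |(x.1.1 - c.1.1).re| ≤ 1 := (Complex.abs_re_le_norm _).trans a1
    have b2 : |(x.1.1 - c.1.1).im| ≤ 1 := (Complex.abs_im_le_norm _).trans a1
    have b3 : |g.1.1.re| ≤ R := (Complex.abs_re_le_norm _).trans a2
    have b4 : |g.1.1.im| ≤ R := (Complex.abs_im_le_norm _).trans a2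
    have c1 : c.1.1 = ((4 + 3 * R : ℝ) : ℂ) := rfl
    rw [c1, Complex.sub_re, Complex.ofReal_re] at b1
    rw [c1, Complex.sub_im, Complex.ofReal_im, sub_zero] at b2
    rw [abs_le] at b1 b3
    apply norm_eq_of_far
    change 2 * |(x.1.1 - g.1.1).im| ≤ (x.1.1 - g.1.1).re
    rw [Complex.sub_im, Complex.sub_re]
    have := abs_sub x.1.1.im g.1.1.im
    linarith [b1.1, b3.2]
  intro hmeagre
  -- the bad sets
  let C : ℕ → Set E := fun n => {x : E | x ∈ K ∧ ∃ g h, Near G x g ∧ Near G x h ∧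
    1 / ((n : ℝ) + 1) ≤ dist g h}
  have hclosed : ∀ n, IsClosed (C n) := by
    intro n
    let S : Set (E × (E × E)) := (K ×ˢ (G ×ˢ G)) ∩ ({p | ∀ y ∈ G, ‖p.1 - p.2.1‖ ≤ ‖p.1 - y‖} ∩
      {p | ∀ y ∈ G, ‖p.1 - p.2.2‖ ≤ ‖p.1 - y‖} ∩ {p | 1 / ((n : ℝ) + 1) ≤ dist p.2.1 p.2.2})
    have hS : IsCompact S := by
      apply IsCompact.inter_right
      · exact (isCompact_closedBall c 1).prod (hG.prod hG)
      · apply IsClosed.inter
        · apply IsClosed.inter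
          · have : {p : E × (E × E) | ∀ y ∈ G, ‖p.1 - p.2.1‖ ≤ ‖p.1 - y‖} =
                ⋂ y ∈ G, {p : E × (E × E) | ‖p.1 - p.2.1‖ ≤ ‖p.1 - y‖} := by
              ext p; simp
            rw [this]
            exact isClosed_biInter (fun y _ => isClosed_le (by fun_prop) (by fun_prop))
          · have : {p : E × (E × E) | ∀ y ∈ G, ‖p.1 - p.2.2‖ ≤ ‖p.1 - y‖} =
                ⋂ y ∈ G, {p : E × (E × E) | ‖p.1 - p.2.2‖ ≤ ‖p.1 - y‖} := by
              ext p; simp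
            rw [this]
            exact isClosed_biInter (fun y _ => isClosed_le (by fun_prop) (by fun_prop))
        · exact isClosed_le (by fun_prop) (by fun_prop)
    have : C n = Prod.fst '' S := by
      ext x
      constructor
      · rintro ⟨hx, g, h, hg, hh, hd⟩
        exact ⟨(x, (g, h)), ⟨⟨hx, hg.1, hh.1⟩, ⟨hg.2, hh.2⟩, hd⟩, rfl⟩
      · rintro ⟨⟨x', g, h⟩, ⟨⟨hx, hg, hh⟩, ⟨hg', hh'⟩, hd⟩, rfl⟩
        exact ⟨hx, g, h, ⟨hg, hg'⟩, ⟨hh, hh'⟩, hd⟩
    rw [this]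
    exact (hS.image continuous_fst).isClosed
  have hint : ∀ n, interior (C n) = ∅ := by
    intro n
    rw [Set.eq_empty_iff_forall_notMem]
    intro x hx
    obtain ⟨hxK, g, -, hg, -, -⟩ := interior_subset hx
    -- move toward `g`
    have hcont : Filter.Tendsto (fun t : ℝ => x + t • (g - x)) (nhdsWithin 0 (Set.Ioi 0))
        (nhds x) := by
      have h1 : Continuous (fun t : ℝ => x + t • (g - x)) := by fun_prop
      have h2 := h1.tendsto 0
      simp only [zero_smul, add_zero] at h2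
      exact h2.mono_left nhdsWithin_le_nhds
    have hev1 : ∀ᶠ t in nhdsWithin (0 : ℝ) (Set.Ioi 0), x + t • (g - x) ∈ interior (C n) :=
      hcont (isOpen_interior.mem_nhds hx)
    have hev2 : ∀ᶠ t in nhdsWithin (0 : ℝ) (Set.Ioi 0), t < 1 :=
      nhdsWithin_le_nhds (gt_mem_nhds one_pos)
    have hev3 : ∀ᶠ t in nhdsWithin (0 : ℝ) (Set.Ioi 0), (0 : ℝ) < t := self_mem_nhdsWithin
    obtain ⟨t, ⟨ht, ht1⟩, ht0⟩ := ((hev1.and hev2).and hev3).exists
    obtain ⟨hyK, g', h', hg', hh', hd⟩ := interior_subset ht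
    have key : ∀ h, Near G (x + t • (g - x)) h → h = g := by
      intro h hh
      apply fst_inj
      apply eucl x.1.1 g.1.1 h.1.1 t ht0 ht1
      · rw [← hfar x hxK g hg.1, ← hfar x hxK h hh.1]
        exact hg.2 h hh.1
      · have := hh.2 g hg.1
        rw [hfar _ hyK _ hh.1, hfar _ hyK _ hg.1] at this
        have e : (x + t • (g - x)).1.1 = x.1.1 + (t : ℂ) * (g.1.1 - x.1.1) := by
          change x.1.1 + t • (g.1.1 - x.1.1) = _
          rw [Complex.real_smul]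
        rwa [e] at this
    rw [key g' hg', key h' hh', dist_self] at hd
    have : (0 : ℝ) < 1 / ((n : ℝ) + 1) := by positivity
    linarith
  have hCm : IsMeagre (⋃ n, C n) := by
    apply isMeagre_iUnion
    intro n
    apply IsNowhereDense.isMeagre
    rw [(hclosed n).isNowhereDense_iff]
    exact hint n
  have hsub : Metric.ball c 1 ⊆ {x : E | ∀ g₁ ∈ G, ∀ g₂ ∈ G,
            (∀ y ∈ G, ‖x - g₁‖ ≤ ‖x - y‖) →
            (∀ y ∈ G, ‖x - g₂‖ ≤ ‖x - y‖) → g₁ = g₂} ∪ ⋃ n, C n := by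
    intro x hx
    by_cases hu : x ∈ {x : E | ∀ g₁ ∈ G, ∀ g₂ ∈ G,
            (∀ y ∈ G, ‖x - g₁‖ ≤ ‖x - y‖) →
            (∀ y ∈ G, ‖x - g₂‖ ≤ ‖x - y‖) → g₁ = g₂}
    · exact Or.inl hu
    · right
      simp only [Set.mem_ofPred_eq, not_forall] at hu
      obtain ⟨g, hg, h, hh, hg', hh', hne⟩ := hu
      obtain ⟨n, hn⟩ := exists_nat_one_div_lt (dist_pos.2 hne)
      exact Set.mem_iUnion.2 ⟨n, Metric.ball_subset_closedBall hx, g, h, ⟨hg, hg'⟩, ⟨hh, hh'⟩,
        hn.le⟩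
  exact not_isMeagre_of_isOpen Metric.isOpen_ball ⟨c, Metric.mem_ball_self one_pos⟩
    ((hmeagre.union hCm).mono hsub)

theorem not_strict : ¬ StrictConvexSpace ℝ E := by
  intro hs
  have hp : ‖pt (⟨1 / 2, 1 / 2⟩ : ℂ)‖ ≤ 1 := by
    rw [norm_pt]
    apply max_le
    · rw [← sq_le_one_iff₀ (norm_nonneg _), ← Complex.normSq_eq_norm_sq, Complex.normSq_apply]
      norm_num
    · norm_num
  have hq : ‖pt (⟨-1 / 2, 1 / 2⟩ : ℂ)‖ ≤ 1 := by
    rw [norm_pt]
    apply max_le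
    · rw [← sq_le_one_iff₀ (norm_nonneg _), ← Complex.normSq_eq_norm_sq, Complex.normSq_apply]
      norm_num
    · norm_num
  have hne : pt (⟨1 / 2, 1 / 2⟩ : ℂ) ≠ pt (⟨-1 / 2, 1 / 2⟩ : ℂ) := by
    intro h
    have h1 := congrArg (fun p : E => p.1.1.re) h
    simp only [pt] at h1
    norm_num at h1
  have := norm_combo_lt_of_ne hp hq hne (a := (1 / 2 : ℝ)) (b := 1 / 2) (by norm_num)
    (by norm_num) (by norm_num)
  have e : (1 / 2 : ℝ) • pt (⟨1 / 2, 1 / 2⟩ : ℂ) + (1 / 2 : ℝ) • pt (⟨-1 / 2, 1 / 2⟩ : ℂ) =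
      pt (⟨0, 1 / 2⟩ : ℂ) := by
    apply fst_inj
    change (1 / 2 : ℝ) • (⟨1 / 2, 1 / 2⟩ : ℂ) + (1 / 2 : ℝ) • (⟨-1 / 2, 1 / 2⟩ : ℂ) = ⟨0, 1 / 2⟩
    apply Complex.ext
    · simp; norm_num
    · simp; norm_num
  rw [e, norm_pt] at this
  have h2 := (le_max_right _ _).trans_lt this
  norm_num at h2

/-- The negation of the preceding statement: For every real Banach space E: if for each compact G the set of points with at most one nearest point in G is dense or non-meagre, then E is strictly convex. -/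
theorem result :
    ¬ (∀ (E : Type) [NormedAddCommGroup E] [NormedSpace ℝ E] [CompleteSpace E],
      (∀ G : Set E, IsCompact G →
        (Dense {x : E | ∀ g₁ ∈ G, ∀ g₂ ∈ G,
            (∀ y ∈ G, ‖x - g₁‖ ≤ ‖x - y‖) →
            (∀ y ∈ G, ‖x - g₂‖ ≤ ‖x - y‖) → g₁ = g₂} ∨
         ¬ IsMeagre {x : E | ∀ g₁ ∈ G, ∀ g₂ ∈ G,
            (∀ y ∈ G, ‖x - g₁‖ ≤ ‖x - y‖) →
            (∀ y ∈ G, ‖x - g₂‖ ≤ ‖x - y‖) → g₁ = g₂})) →
      StrictConvexSpace ℝ E) := by
  intro H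
  apply not_strict
  apply H
  intro G hG
  rcases G.eq_empty_or_nonempty with rfl | hne
  · left
    simp
  · right
    exact main G hG hne

end Pool.Agent.S1396
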