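import Pool.Statements.S1422
import Pool.Agent.H7Suff

set_option autoImplicit false
open Pool Pool.MP_529e31_an

namespace Pool.Agent.S1422

/-- The negation of the preceding statement: For every ρ>0 and S in ℂ: if each entire f of order ρ finite type is bounded on S iff bounded on ℂ, then for each weight k in K_ρ there are k' in K_ρ and C>0 with ∣f∣≤k' on S implying ∣f∣≤Ck on ℂ (S sufficient). -/
theorem result :
    ¬ (∀ ρ : ℝ, 0 < ρ → ∀ S : Set ℂ,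
      (∀ f : ℂ → ℂ, Differentiable ℂ f →
        (∃ A B : ℝ, 0 < A ∧ 0 < B ∧ ∀ z : ℂ, ‖f z‖ ≤ B * Real.exp (A * ‖z‖ ^ ρ)) →
        (Bornology.IsBounded (f '' S) ↔ Bornology.IsBounded (Set.range f))) →
      ∀ k : ℂ → ℝ, Continuous k → (∀ z : ℂ, 0 < k z) →
        (∀ A : ℝ, 0 < A →
          Asymptotics.IsLittleO (Filter.cocompact ℂ) (fun z : ℂ => Real.exp (A * ‖z‖ ^ ρ)) k) →
        ∃ k' : ℂ → ℝ, Continuous k' ∧ (∀ z : ℂ, 0 < k' z) ∧
          (∀ A : ℝ, 0 < A →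
            Asymptotics.IsLittleO (Filter.cocompact ℂ) (fun z : ℂ => Real.exp (A * ‖z‖ ^ ρ)) k') ∧
          ∃ C : ℝ, 0 < C ∧
            ∀ f : ℂ → ℂ, Differentiable ℂ f →
              (∃ A B : ℝ, 0 < A ∧ 0 < B ∧ ∀ z : ℂ, ‖f z‖ ≤ B * Real.exp (A * ‖z‖ ^ ρ)) →
              (∀ z ∈ S, ‖f z‖ ≤ k' z) → ∀ z : ℂ, ‖f z‖ ≤ C * k z) := by
  exact Pool.Agent.H7Suff.main

end Pool.Agent.S1422
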