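import Pool.Statements.S1432
import Pool.Agent.H3.HillSol
-- import your own Pool.Agent.* helpers here

set_option autoImplicit false
open Pool Pool.MP_5876d3_an

namespace Pool.Agent.S1432

section aux
open Complex Pool.Agent.H3.Volt Pool.Agent.H3.Hill Pool.Agent.H3.HillSol Filter Topology

lemma J2_ne : J2 ≠ 0 := I2

lemma y1_ne (x : ℝ) : y1 x ≠ 0 := by
  intro h; have := norm_y1 x; rw [h] at this; simp at this

lemma order_one {f R : ℂ → ℂ} {k : ℂ} (hk : k ≠ 0) (hR : AnalyticAt ℂ R 0) (hf : ∀ w, f w = w * (k + w * R w)) :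
    analyticOrderAt f 0 = 1 := by
  have hfe : f = fun w => w * (k + w * R w) := funext hf
  have hfa : AnalyticAt ℂ f 0 := by
    rw [hfe]; exact analyticAt_id.mul (analyticAt_const.add (analyticAt_id.mul hR))
  have := (hfa.analyticOrderAt_eq_natCast (n := 1)).2
    ⟨fun w => k + w * R w, analyticAt_const.add (analyticAt_id.mul hR), by simpa using hk,
      Eventually.of_forall fun w => by rw [hf]; simp⟩
  simpa using this

lemma order_ge_one {f R : ℂ → ℂ} {k : ℂ} (hR : AnalyticAt ℂ R 0) (hf : ∀ w, f w = w * (k + w * R w)) :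
    1 ≤ analyticOrderAt f 0 := by
  have hfe : f = fun w => w * (k + w * R w) := funext hf
  have hfa : AnalyticAt ℂ f 0 := by
    rw [hfe]; exact analyticAt_id.mul (analyticAt_const.add (analyticAt_id.mul hR))
  rw [ENat.one_le_iff_ne_zero, hfa.analyticOrderAt_ne_zero, hf]
  simp

end aux

/-- The negation of the preceding statement: For any locally integrable complex a-periodic q, if the zero order of (tr M)^2-4 at z exceeds the sum of the minimal (over base points in [0,a]) Dirichlet and Neumann zero orders at z, then that sum is 0. -/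
theorem result :
    ¬ (∀ (a : ℝ), 0 < a → ∀ q : ℝ → ℂ, Function.Periodic q a →
    MeasureTheory.LocallyIntegrable q MeasureTheory.volume →
    ∀ c dc s ds : ℝ → ℂ → ℝ → ℂ,
    (∀ (x₀ : ℝ) (z : ℂ), Continuous (c x₀ z) ∧ Continuous (dc x₀ z) ∧
      Continuous (s x₀ z) ∧ Continuous (ds x₀ z) ∧
      ∀ x : ℝ,
        (c x₀ z x = 1 + ∫ t in x₀..x, dc x₀ z t) ∧
        (dc x₀ z x = ∫ t in x₀..x, (q t - z) * c x₀ z t) ∧
        (s x₀ z x = ∫ t in x₀..x, ds x₀ z t) ∧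
        (ds x₀ z x = 1 + ∫ t in x₀..x, (q t - z) * s x₀ z t)) →
    ∀ z : ℂ,
      (⨅ x₀ ∈ Set.Icc (0 : ℝ) a, analyticOrderAt (fun w : ℂ => s x₀ w (x₀ + a)) z) +
        (⨅ x₀ ∈ Set.Icc (0 : ℝ) a, analyticOrderAt (fun w : ℂ => dc x₀ w (x₀ + a)) z)
        < analyticOrderAt (fun w : ℂ => (c 0 w a + ds 0 w a) ^ 2 - 4) z →
      (⨅ x₀ ∈ Set.Icc (0 : ℝ) a, analyticOrderAt (fun w : ℂ => s x₀ w (x₀ + a)) z) +
        (⨅ x₀ ∈ Set.Icc (0 : ℝ) a, analyticOrderAt (fun w : ℂ => dc x₀ w (x₀ + a)) z) = 0) := by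
  intro H
  have hloc : MeasureTheory.LocallyIntegrable Pool.Agent.H3.Hill.q MeasureTheory.volume :=
    Pool.Agent.H3.Hill.cont_q.locallyIntegrable
  have h := H (2 * Real.pi) (by positivity) Pool.Agent.H3.Hill.q Pool.Agent.H3.Hill.per_q hloc
    (fun x₀ w x => Pool.Agent.H3.HillSol.Y x₀ (Pool.Agent.H3.HillSol.vc x₀) w x)
    (fun x₀ w x => Pool.Agent.H3.HillSol.dY x₀ (Pool.Agent.H3.HillSol.vc x₀) w x)
    (fun x₀ w x => Pool.Agent.H3.HillSol.Y x₀ (Pool.Agent.H3.HillSol.vs x₀) w x)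
    (fun x₀ w x => Pool.Agent.H3.HillSol.dY x₀ (Pool.Agent.H3.HillSol.vs x₀) w x)
    (fun x₀ z => ⟨Pool.Agent.H3.HillSol.cont_Y _ _ _, Pool.Agent.H3.HillSol.cont_dY _ _ _,
      Pool.Agent.H3.HillSol.cont_Y _ _ _, Pool.Agent.H3.HillSol.cont_dY _ _ _, fun x => by
      refine ⟨?_, ?_, ?_, ?_⟩
      · have := Pool.Agent.H3.HillSol.Y_eq x₀ (Pool.Agent.H3.HillSol.vc x₀) z x
        rw [(Pool.Agent.H3.HillSol.init_c x₀ z).1] at this
        exact this
      · have := Pool.Agent.H3.HillSol.dY_eq x₀ (Pool.Agent.H3.HillSol.vc x₀) z x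
        rw [(Pool.Agent.H3.HillSol.init_c x₀ z).2, zero_add] at this
        exact this
      · have := Pool.Agent.H3.HillSol.Y_eq x₀ (Pool.Agent.H3.HillSol.vs x₀) z x
        rw [(Pool.Agent.H3.HillSol.init_s x₀ z).1, zero_add] at this
        exact this
      · have := Pool.Agent.H3.HillSol.dY_eq x₀ (Pool.Agent.H3.HillSol.vs x₀) z x
        rw [(Pool.Agent.H3.HillSol.init_s x₀ z).2] at this
        exact this⟩) 0
  have hs1 : ∀ x₀ : ℝ, 1 ≤ analyticOrderAt (fun w : ℂ => Pool.Agent.H3.HillSol.Y x₀ (Pool.Agent.H3.HillSol.vs x₀) w (x₀ + 2 * Real.pi)) 0 := by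
    intro x₀
    obtain ⟨R, hR, hf⟩ := Pool.Agent.H3.HillSol.s_form x₀
    exact order_ge_one (hR 0) hf
  have hs0 : analyticOrderAt (fun w : ℂ => Pool.Agent.H3.HillSol.Y 0 (Pool.Agent.H3.HillSol.vs 0) w (0 + 2 * Real.pi)) 0 = 1 := by
    obtain ⟨R, hR, hf⟩ := Pool.Agent.H3.HillSol.s_form 0
    exact order_one (mul_ne_zero (pow_ne_zero _ (y1_ne 0)) J2_ne) (hR 0) hf
  have hc0 : analyticOrderAt (fun w : ℂ => Pool.Agent.H3.HillSol.dY (Real.pi / 2) (Pool.Agent.H3.HillSol.vc (Real.pi / 2)) w (Real.pi / 2 + 2 * Real.pi)) 0 = 1 := by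
    obtain ⟨R, hR, hf⟩ := Pool.Agent.H3.HillSol.dc_form (Real.pi / 2)
    refine order_one (neg_ne_zero.2 (mul_ne_zero (pow_ne_zero _ ?_) J2_ne)) (hR 0) hf
    unfold Pool.Agent.H3.Hill.dy1 Pool.Agent.H3.Hill.ψ1
    refine mul_ne_zero (mul_ne_zero Complex.I_ne_zero ?_) (y1_ne _)
    rw [Real.sin_pi_div_two]
    have h1 := Pool.Agent.H3.Hill.r_pos.ne'
    have h2 := (Pool.Agent.H3.Hill.D_pos (Real.pi / 2)).ne'
    norm_cast
    exact div_ne_zero (neg_ne_zero.2 (by simpa using h1)) h2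
  have hd3 : 3 ≤ analyticOrderAt (fun w : ℂ => (Pool.Agent.H3.HillSol.Y 0 (Pool.Agent.H3.HillSol.vc 0) w (2 * Real.pi) + Pool.Agent.H3.HillSol.dY 0 (Pool.Agent.H3.HillSol.vs 0) w (2 * Real.pi)) ^ 2 - 4) 0 := by
    obtain ⟨R1, hR1, hf1⟩ := Pool.Agent.H3.HillSol.c_form
    obtain ⟨R2, hR2, hf2⟩ := Pool.Agent.H3.HillSol.ds_form
    obtain ⟨R3, hR3, hf3⟩ := Pool.Agent.H3.HillSol.s_form 0
    obtain ⟨R4, hR4, hf4⟩ := Pool.Agent.H3.HillSol.dc_form 0
    rw [zero_add] at hf3 hf4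
    have hform : ∀ w : ℂ, (Pool.Agent.H3.HillSol.Y 0 (Pool.Agent.H3.HillSol.vc 0) w (2 * Real.pi) + Pool.Agent.H3.HillSol.dY 0 (Pool.Agent.H3.HillSol.vs 0) w (2 * Real.pi)) ^ 2 - 4
        = w ^ 3 * (w * (R1 w - R2 w) ^ 2 + 4 * R4 w * (Pool.Agent.H3.Hill.y1 0 ^ 2 * Pool.Agent.H3.HillSol.J2 + w * R3 w)) := by
      intro w
      have hw := Pool.Agent.H3.HillSol.wronY 0 w (2 * Real.pi)
      rw [hf1, hf2, hf3, hf4, Pool.Agent.H3.HillSol.dy1_zero] at hw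
      rw [hf1, hf2]
      linear_combination 4 * hw
    have hfa : AnalyticAt ℂ (fun w : ℂ => (Pool.Agent.H3.HillSol.Y 0 (Pool.Agent.H3.HillSol.vc 0) w (2 * Real.pi) + Pool.Agent.H3.HillSol.dY 0 (Pool.Agent.H3.HillSol.vs 0) w (2 * Real.pi)) ^ 2 - 4) 0 := by
      simp only [hform]
      have := hR1 0
      have := hR2 0
      have := hR3 0
      have := hR4 0
      fun_prop
    have := (natCast_le_analyticOrderAt hfa (n := 3)).2
      ⟨fun w => (w * (R1 w - R2 w) ^ 2 + 4 * R4 w * (Pool.Agent.H3.Hill.y1 0 ^ 2 * Pool.Agent.H3.HillSol.J2 + w * R3 w)), by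
        have := hR1 0
        have := hR2 0
        have := hR3 0
        have := hR4 0
        fun_prop, Filter.Eventually.of_forall fun w => by simp only [sub_zero, smul_eq_mul]; exact hform w⟩
    simpa using this
  have hinf1 : (⨅ x₀ ∈ Set.Icc (0 : ℝ) (2 * Real.pi), analyticOrderAt (fun w : ℂ => Pool.Agent.H3.HillSol.Y x₀ (Pool.Agent.H3.HillSol.vs x₀) w (x₀ + 2 * Real.pi)) 0) = 1 := by
    apply le_antisymm
    · rw [← hs0]
      exact iInf₂_le (0 : ℝ) ⟨le_rfl, by positivity⟩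
    · exact le_iInf₂ fun x₀ _ => hs1 x₀
  have hinf2 : (⨅ x₀ ∈ Set.Icc (0 : ℝ) (2 * Real.pi), analyticOrderAt (fun w : ℂ => Pool.Agent.H3.HillSol.dY x₀ (Pool.Agent.H3.HillSol.vc x₀) w (x₀ + 2 * Real.pi)) 0) ≤ 1 := by
    rw [← hc0]
    exact iInf₂_le (Real.pi / 2 : ℝ) ⟨by positivity, by linarith [Real.pi_pos]⟩
  simp only at h
  rw [hinf1] at h
  have hlt : (1 : ℕ∞) + (⨅ x₀ ∈ Set.Icc (0 : ℝ) (2 * Real.pi), analyticOrderAt (fun w : ℂ => Pool.Agent.H3.HillSol.dY x₀ (Pool.Agent.H3.HillSol.vc x₀) w (x₀ + 2 * Real.pi)) 0)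
      < analyticOrderAt (fun w : ℂ => (Pool.Agent.H3.HillSol.Y 0 (Pool.Agent.H3.HillSol.vc 0) w (2 * Real.pi) + Pool.Agent.H3.HillSol.dY 0 (Pool.Agent.H3.HillSol.vs 0) w (2 * Real.pi)) ^ 2 - 4) 0 := by
    refine lt_of_le_of_lt (add_le_add_right hinf2 1) (lt_of_lt_of_le ?_ hd3)
    norm_num
  have := h hlt
  simp at this

end Pool.Agent.S1432
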