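import Pool.Statements.S1438

set_option autoImplicit false
open Pool Pool.MP_5bcbac_an

namespace Pool.Agent.S1438

open Matrix

/-- operators on `ℂ²` -/
abbrev Op := EuclideanSpace ℂ (Fin 2) →L[ℂ] EuclideanSpace ℂ (Fin 2)

lemma cfc_pow4 (Z : Op) (hZ : 0 ≤ Z) : cfc (fun x : ℝ => x ^ (4 : ℝ)) Z = Z ^ 4 := by
  have h1 : (fun x : ℝ => x ^ (4 : ℝ)) = (fun x : ℝ => x ^ 4) := by
    funext x
    exact_mod_cast Real.rpow_natCast x 4
  rw [h1]
  exact cfc_pow_id Z 4 (IsSelfAdjoint.of_nonneg hZ)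

lemma cfc_root4 (Z : Op) (hZ : 0 ≤ Z) : cfc (fun x : ℝ => x ^ (1 / (4 : ℝ))) (Z ^ 4) = Z := by
  have hsa : IsSelfAdjoint Z := IsSelfAdjoint.of_nonneg hZ
  have hcont : Continuous (fun x : ℝ => x ^ (1 / (4 : ℝ))) :=
    Real.continuous_rpow_const (by norm_num)
  rw [← cfc_comp_pow (fun x : ℝ => x ^ (1 / (4 : ℝ))) 4 Z hcont.continuousOn hsa]
  have h2 : cfc (fun x : ℝ => (x ^ 4) ^ (1 / (4 : ℝ))) Z = cfc (fun x : ℝ => x) Z := by
    apply cfc_congr
    intro x hx
    have hx0 : 0 ≤ x := spectrum_nonneg_of_nonneg hZ hx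
    show (x ^ 4) ^ (1 / (4 : ℝ)) = x
    have := Real.pow_rpow_inv_natCast hx0 (n := 4) (by norm_num)
    rw [one_div]
    exact_mod_cast this
  rw [h2]
  exact cfc_id' ℝ Z hsa

/-- the trace of a matrix operator -/
lemma trace_clm (M : Matrix (Fin 2) (Fin 2) ℂ) :
    LinearMap.trace ℂ (EuclideanSpace ℂ (Fin 2))
      ((toEuclideanCLM (n := Fin 2) (𝕜 := ℂ) M : Op) : EuclideanSpace ℂ (Fin 2) →ₗ[ℂ] EuclideanSpace ℂ (Fin 2)) =
      M 0 0 + M 1 1 := by
  rw [LinearMap.trace_eq_matrix_trace ℂ (EuclideanSpace.basisFun (Fin 2) ℂ).toBasis,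
    coe_toEuclideanCLM_eq_toEuclideanLin, toEuclideanLin_eq_toLin_orthonormal,
    LinearMap.toMatrix_toLin, Matrix.trace_fin_two]

lemma nonneg_of_sq (M : Matrix (Fin 2) (Fin 2) ℂ) (R : Matrix (Fin 2) (Fin 2) ℂ)
    (h : star R * R = M) : 0 ≤ (toEuclideanCLM (n := Fin 2) (𝕜 := ℂ) M : Op) := by
  rw [← h, map_mul, map_star]
  exact star_mul_self_nonneg _


/-- the matrices of the example -/
noncomputable def MX (c s _a _b : ℝ) : Matrix (Fin 2) (Fin 2) ℂ :=
  !![((c ^ 2 : ℝ) : ℂ), ((c * s : ℝ) : ℂ); ((c * s : ℝ) : ℂ), ((s ^ 2 : ℝ) : ℂ)]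
/-- the matrices of the example -/
noncomputable def MY (c s _a _b : ℝ) : Matrix (Fin 2) (Fin 2) ℂ :=
  !![((c ^ 2 : ℝ) : ℂ), ((-(c * s) : ℝ) : ℂ); ((-(c * s) : ℝ) : ℂ), ((s ^ 2 : ℝ) : ℂ)]
/-- the matrices of the example -/
noncomputable def MN (_c _s a b : ℝ) : Matrix (Fin 2) (Fin 2) ℂ := !![(a : ℂ), 0; 0, (b : ℂ)]
/-- the matrices of the example -/
noncomputable def MR (_c _s a b : ℝ) : Matrix (Fin 2) (Fin 2) ℂ :=
  !![((Real.sqrt a : ℝ) : ℂ), 0; 0, ((Real.sqrt b : ℝ) : ℂ)]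

/-- The negation of the preceding statement: For all positive semidefinite operators X, Y on C^n and all p ≥ 2, the map t ↦ Tr[(Y − (tX^p + (1−t)Y^p)^(1/p))^2] is non-decreasing on [0,1]. -/
theorem result :
    ¬ (∀ (n : ℕ) (X Y : EuclideanSpace ℂ (Fin n) →L[ℂ] EuclideanSpace ℂ (Fin n)) (p : ℝ),
      0 ≤ X → 0 ≤ Y → 2 ≤ p →
      MonotoneOn
        (fun t : ℝ =>
          (LinearMap.trace ℂ (EuclideanSpace ℂ (Fin n))
            (((Y - cfc (fun x : ℝ => x ^ (1 / p))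
                ((t : ℂ) • cfc (fun x : ℝ => x ^ p) X
                  + ((1 - t : ℝ) : ℂ) • cfc (fun x : ℝ => x ^ p) Y)) ^ 2 :
                EuclideanSpace ℂ (Fin n) →L[ℂ] EuclideanSpace ℂ (Fin n)) :
              EuclideanSpace ℂ (Fin n) →ₗ[ℂ] EuclideanSpace ℂ (Fin n))).re)
        (Set.Icc (0 : ℝ) 1)) := by
  intro hall
  -- the data
  set c : ℝ := 399 / 401 with hc
  set s : ℝ := 40 / 401 with hs
  have hcs : c ^ 2 + s ^ 2 = 1 := by rw [hc, hs]; norm_num
  have hc0 : 0 ≤ c := by rw [hc]; norm_num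
  have hs0 : 0 ≤ s := by rw [hs]; norm_num
  set a : ℝ := Real.sqrt c with ha
  set b : ℝ := Real.sqrt s with hb
  have ha0 : 0 ≤ a := Real.sqrt_nonneg _
  have hb0 : 0 ≤ b := Real.sqrt_nonneg _
  have ha2 : a * a = c := Real.mul_self_sqrt hc0
  have hb2 : b * b = s := Real.mul_self_sqrt hs0
  have ha4 : a ^ 4 = c ^ 2 := by rw [← ha2]; ring
  have hb4 : b ^ 4 = s ^ 2 := by rw [← hb2]; ring
  obtain ⟨AX, hAX⟩ : ∃ M : Matrix (Fin 2) (Fin 2) ℂ, M = MX c s a b := ⟨_, rfl⟩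
  obtain ⟨AY, hAY⟩ : ∃ M : Matrix (Fin 2) (Fin 2) ℂ, M = MY c s a b := ⟨_, rfl⟩
  obtain ⟨AN, hAN⟩ : ∃ M : Matrix (Fin 2) (Fin 2) ℂ, M = MN c s a b := ⟨_, rfl⟩
  obtain ⟨AR, hAR⟩ : ∃ M : Matrix (Fin 2) (Fin 2) ℂ, M = MR c s a b := ⟨_, rfl⟩
  have hXX : AX * AX = AX := by
    ext i j
    fin_cases i <;> fin_cases j <;>
      simp only [hAX, MX, Matrix.mul_apply, Fin.sum_univ_two, Fin.zero_eta, Fin.mk_one, Matrix.of_apply,
        Matrix.cons_val', Matrix.cons_val_zero, Matrix.cons_val_one, Matrix.cons_val_fin_one] <;>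
      rw [← Complex.ofReal_mul, ← Complex.ofReal_mul, ← Complex.ofReal_add, Complex.ofReal_inj]
    · linear_combination (c ^ 2) * hcs
    · linear_combination (c * s) * hcs
    · linear_combination (c * s) * hcs
    · linear_combination (s ^ 2) * hcs
  have hYY : AY * AY = AY := by
    ext i j
    fin_cases i <;> fin_cases j <;>
      simp only [hAY, MY, Matrix.mul_apply, Fin.sum_univ_two, Fin.zero_eta, Fin.mk_one, Matrix.of_apply,
        Matrix.cons_val', Matrix.cons_val_zero, Matrix.cons_val_one, Matrix.cons_val_fin_one] <;>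
      rw [← Complex.ofReal_mul, ← Complex.ofReal_mul, ← Complex.ofReal_add, Complex.ofReal_inj]
    · linear_combination (c ^ 2) * hcs
    · linear_combination (-(c * s)) * hcs
    · linear_combination (-(c * s)) * hcs
    · linear_combination (s ^ 2) * hcs
  have hXs : star AX = AX := by
    ext i j
    fin_cases i <;> fin_cases j <;> simp [hAX, MX, Matrix.star_apply]
  have hYs : star AY = AY := by
    ext i j
    fin_cases i <;> fin_cases j <;> simp [hAY, MY, Matrix.star_apply]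
  have hRR : star AR * AR = AN := by
    ext i j
    fin_cases i <;> fin_cases j <;>
      simp [hAR, hAN, MR, MN, Matrix.mul_apply, Fin.sum_univ_two, Matrix.star_apply, ← Complex.ofReal_mul,
        Real.mul_self_sqrt, ha0, hb0]
  set X : Op := toEuclideanCLM (n := Fin 2) (𝕜 := ℂ) AX with hX
  set Y : Op := toEuclideanCLM (n := Fin 2) (𝕜 := ℂ) AY with hY
  set N : Op := toEuclideanCLM (n := Fin 2) (𝕜 := ℂ) AN with hN
  have hX0 : 0 ≤ X := nonneg_of_sq AX AX (by rw [hXs, hXX])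
  have hY0 : 0 ≤ Y := nonneg_of_sq AY AY (by rw [hYs, hYY])
  have hN0 : 0 ≤ N := nonneg_of_sq AN AR hRR
  have hX4 : X ^ 4 = X := by
    have h1 : X * X = X := by rw [hX, ← map_mul, hXX]
    rw [pow_succ, pow_succ, pow_succ, pow_one, h1, h1, h1]
  have hY4 : Y ^ 4 = Y := by
    have h1 : Y * Y = Y := by rw [hY, ← map_mul, hYY]
    rw [pow_succ, pow_succ, pow_succ, pow_one, h1, h1, h1]
  -- the two values
  have hmid : ((1 / 2 : ℝ) : ℂ) • X + ((1 - 1 / 2 : ℝ) : ℂ) • Y = N ^ 4 := by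
    rw [hX, hY, hN, ← map_smul (toEuclideanCLM (n := Fin 2) (𝕜 := ℂ)),
      ← map_smul (toEuclideanCLM (n := Fin 2) (𝕜 := ℂ)),
      ← map_add (toEuclideanCLM (n := Fin 2) (𝕜 := ℂ)), ← map_pow (toEuclideanCLM (n := Fin 2) (𝕜 := ℂ))]
    congr 1
    ext i j
    fin_cases i <;> fin_cases j
    · simp only [hAX, hAY, hAN, MX, MY, MN, Matrix.add_apply, Matrix.smul_apply, pow_succ, pow_zero, one_mul,
        Matrix.mul_apply, Fin.sum_univ_two, Fin.zero_eta, Fin.mk_one, Matrix.of_apply,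
        Matrix.cons_val', Matrix.cons_val_zero, Matrix.cons_val_one, Matrix.cons_val_fin_one,
        smul_eq_mul, mul_zero, zero_mul, add_zero, zero_add]
      norm_cast
      linear_combination -ha4
    · simp only [hAX, hAY, hAN, MX, MY, MN, Matrix.add_apply, Matrix.smul_apply, pow_succ, pow_zero, one_mul,
        Matrix.mul_apply, Fin.sum_univ_two, Fin.zero_eta, Fin.mk_one, Matrix.of_apply,
        Matrix.cons_val', Matrix.cons_val_zero, Matrix.cons_val_one, Matrix.cons_val_fin_one,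
        smul_eq_mul, mul_zero, zero_mul, add_zero, zero_add]
      norm_cast
      ring
    · simp only [hAX, hAY, hAN, MX, MY, MN, Matrix.add_apply, Matrix.smul_apply, pow_succ, pow_zero, one_mul,
        Matrix.mul_apply, Fin.sum_univ_two, Fin.zero_eta, Fin.mk_one, Matrix.of_apply,
        Matrix.cons_val', Matrix.cons_val_zero, Matrix.cons_val_one, Matrix.cons_val_fin_one,
        smul_eq_mul, mul_zero, zero_mul, add_zero, zero_add]
      norm_cast
      ring
    · simp only [hAX, hAY, hAN, MX, MY, MN, Matrix.add_apply, Matrix.smul_apply, pow_succ, pow_zero, one_mul,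
        Matrix.mul_apply, Fin.sum_univ_two, Fin.zero_eta, Fin.mk_one, Matrix.of_apply,
        Matrix.cons_val', Matrix.cons_val_zero, Matrix.cons_val_one, Matrix.cons_val_fin_one,
        smul_eq_mul, mul_zero, zero_mul, add_zero, zero_add]
      norm_cast
      linear_combination -hb4
  have hmono := hall 2 X Y 4 hX0 hY0 (by norm_num) (a := 1 / 2) (by constructor <;> norm_num)
    (b := 1) (by constructor <;> norm_num) (by norm_num)
  simp only [cfc_pow4 X hX0, cfc_pow4 Y hY0, hX4, hY4] at hmono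
  rw [hmid, cfc_root4 N hN0] at hmono
  have hend : ((1 : ℝ) : ℂ) • X + ((1 - 1 : ℝ) : ℂ) • Y = X ^ 4 := by
    rw [hX4, sub_self, Complex.ofReal_zero, Complex.ofReal_one, one_smul]
    ext v i; simp
  rw [hend, cfc_root4 X hX0, hX, hY, hN, ← map_sub (toEuclideanCLM (n := Fin 2) (𝕜 := ℂ)),
    ← map_sub (toEuclideanCLM (n := Fin 2) (𝕜 := ℂ)), ← map_pow (toEuclideanCLM (n := Fin 2) (𝕜 := ℂ)),
    ← map_pow (toEuclideanCLM (n := Fin 2) (𝕜 := ℂ)), trace_clm, trace_clm] at hmono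
  simp only [hAX, hAY, hAN, MX, MY, MN, sq, Matrix.sub_apply, Matrix.mul_apply, Fin.sum_univ_two, Matrix.of_apply,
    Matrix.cons_val', Matrix.cons_val_zero, Matrix.cons_val_one, Matrix.cons_val_fin_one,
    sub_zero] at hmono
  norm_cast at hmono
  have hbl : (0.315 : ℝ) ≤ b := by
    rw [hb]
    apply Real.le_sqrt_of_sq_le
    rw [hs]; norm_num
  have hkey : (0.09 : ℝ) ≤ (s * s - b) * (s * s - b) := by
    have h1 : s * s ≤ 0.01 := by rw [hs]; norm_num
    nlinarith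
  have h2 : c * s * (c * s) ≤ 0.0099 := by rw [hc, hs]; norm_num
  have e1 : (c * c - a) * (c * c - a) + -(c * s) * -(c * s) +
      (-(c * s) * -(c * s) + (s * s - b) * (s * s - b)) =
      (c * c - a) * (c * c - a) + 2 * (c * s * (c * s)) + (s * s - b) * (s * s - b) := by ring
  have e2 : (c * c - c * c) * (c * c - c * c) + (-(c * s) - c * s) * (-(c * s) - c * s) +
      ((-(c * s) - c * s) * (-(c * s) - c * s) + (s * s - s * s) * (s * s - s * s)) =
      8 * (c * s * (c * s)) := by ring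
  rw [e1, e2] at hmono
  have h4 := mul_self_nonneg (c * c - a)
  generalize c * s * (c * s) = P at *
  generalize (s * s - b) * (s * s - b) = Q at *
  generalize (c * c - a) * (c * c - a) = R at *
  norm_num at *
  linarith

end Pool.Agent.S1438
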