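import Pool.Statements.S1469
import Pool.Agent.H18.Tau6
import Pool.Agent.Helpers25.TauRiesz

set_option autoImplicit false
open Pool Pool.MP_64ccd3_an

namespace Pool.Agent.S1469

/-- Suppose a power series has radius 1, its partial sums are uniformly bounded on its singular set E, and E has positive measure on the circle. Then at every circle point outside E the series converges to the value of the local analytic continuation. -/
theorem result :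
  ∀ (a : ℕ → ℂ) (E : Set ℂ),
    (FormalMultilinearSeries.ofScalars ℂ a).radius = 1 →
    E = {ξ : ℂ | ‖ξ‖ = 1 ∧ ¬ ∃ r : ℝ, 0 < r ∧ ∃ g : ℂ → ℂ,
          DifferentiableOn ℂ g (Metric.ball ξ r) ∧
          ∀ w ∈ Metric.ball ξ r, ‖w‖ < 1 → g w = ∑' n, a n * w ^ n} →
    (∃ M : ℝ, ∀ ξ ∈ E, ∀ N : ℕ, ‖∑ n ∈ Finset.range (N + 1), a n * ξ ^ n‖ ≤ M) →
    0 < MeasureTheory.volume
          {θ : ℝ | θ ∈ Set.Ioc 0 (2 * Real.pi) ∧ Complex.exp ((θ : ℂ) * Complex.I) ∈ E} →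
    ∀ z : ℂ, ‖z‖ = 1 → z ∉ E →
      ∃ L : ℂ, Filter.Tendsto (fun N : ℕ => ∑ n ∈ Finset.range N, a n * z ^ n)
            Filter.atTop (nhds L) ∧
        ∃ r : ℝ, 0 < r ∧ ∃ g : ℂ → ℂ, DifferentiableOn ℂ g (Metric.ball z r) ∧
          (∀ w ∈ Metric.ball z r, ‖w‖ < 1 → g w = ∑' n, a n * w ^ n) ∧ g z = L := by
  intro a E _ hE hbd hpos z hz hzE
  obtain ⟨M, hM⟩ := hbd
  have hE' : E = {ξ : ℂ | ‖ξ‖ = 1 ∧ ¬ Pool.Agent.H18.Tau.Reg a ξ} := hE
  have hne : {θ : ℝ | θ ∈ Set.Ioc 0 (2 * Real.pi) ∧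
      Complex.exp ((θ : ℂ) * Complex.I) ∈ E}.Nonempty :=
    MeasureTheory.nonempty_of_measure_ne_zero hpos.ne'
  obtain ⟨θ, _, hθ⟩ := hne
  have ha := Pool.Agent.H18.Tau.coeff_zero_of a E hE' M hM θ hθ
  have hreg : Pool.Agent.H18.Tau.Reg a z := by
    by_contra hcon
    apply hzE
    rw [hE']
    exact ⟨hz, hcon⟩
  obtain ⟨r, hr, g, hg, hgF⟩ := hreg
  exact ⟨g z, Pool.Agent.H18.Tau.fatou_riesz a ha z hz r hr g hg hgF, r, hr, g, hg, hgF, rfl⟩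

end Pool.Agent.S1469
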