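import Pool.Statements.S1495

set_option autoImplicit false
open Pool Pool.MP_6f6574_an

namespace Pool.Agent.S1495

open Metric Set Filter Topology

section inverse

variable {f : ℂ → ℂ} (hf : DifferentiableOn ℂ f (ball 0 1)) (hinj : InjOn f (ball 0 1))

include hf hinj

theorem open_image (s : Set ℂ) (hs : s ⊆ ball 0 1) (ho : IsOpen s) : IsOpen (f '' s) := by
  have han : AnalyticOnNhd ℂ f (ball 0 1) := hf.analyticOnNhd isOpen_ball
  rcases han.is_constant_or_isOpen (convex_ball (0 : ℂ) 1).isPreconnected with ⟨w, hw⟩ | h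
  · exfalso
    have h0 : (0 : ℂ) ∈ ball (0 : ℂ) 1 := by simp
    have h1 : (1 / 2 : ℂ) ∈ ball (0 : ℂ) 1 := by
      rw [mem_ball_zero_iff]; norm_num
    have := hinj h0 h1 ((hw _ h0).trans (hw _ h1).symm)
    norm_num at this
  · exact h s hs ho

omit hf in
theorem g_left {z : ℂ} (hz : z ∈ ball (0 : ℂ) 1) : Function.invFunOn f (ball 0 1) (f z) = z :=
  hinj.leftInvOn_invFunOn hz

theorem g_cont {z : ℂ} (hz : z ∈ ball (0 : ℂ) 1) :
    ContinuousAt (Function.invFunOn f (ball 0 1)) (f z) := by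
  rw [ContinuousAt, g_left hinj hz, tendsto_def]
  intro V hV
  obtain ⟨W, hWV, hWo, hzW⟩ := _root_.mem_nhds_iff.1 hV
  have ho : IsOpen (f '' (W ∩ ball 0 1)) :=
    open_image hf hinj _ inter_subset_right (hWo.inter isOpen_ball)
  refine mem_of_superset (ho.mem_nhds ⟨z, ⟨hzW, hz⟩, rfl⟩) ?_
  rintro _ ⟨w, ⟨hw, hw'⟩, rfl⟩
  change Function.invFunOn f (ball 0 1) (f w) ∈ V
  rw [g_left hinj hw']
  exact hWV hw

theorem g_right {z : ℂ} (hz : z ∈ ball (0 : ℂ) 1) :
    ∀ᶠ y in 𝓝 (f z), y ∈ f '' ball 0 1 ∧ f (Function.invFunOn f (ball 0 1) y) = y := by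
  have ho : IsOpen (f '' (ball 0 1)) := open_image hf hinj _ subset_rfl isOpen_ball
  filter_upwards [ho.mem_nhds ⟨z, hz, rfl⟩] with y hy
  exact ⟨hy, Function.invFunOn_eq hy⟩

theorem g_deriv' {z : ℂ} (hz : z ∈ ball (0 : ℂ) 1) (hd : deriv f z ≠ 0) :
    HasDerivAt (Function.invFunOn f (ball 0 1)) (deriv f z)⁻¹ (f z) := by
  apply HasDerivAt.of_local_left_inverse (g_cont hf hinj hz) _ hd
    ((g_right hf hinj hz).mono fun y hy => hy.2)
  rw [g_left hinj hz]
  exact (hf.differentiableAt (isOpen_ball.mem_nhds hz)).hasDerivAt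

theorem deriv_ne {z : ℂ} (hz : z ∈ ball (0 : ℂ) 1) : deriv f z ≠ 0 := by
  intro hd
  have han : AnalyticOnNhd ℂ f (ball 0 1) := hf.analyticOnNhd isOpen_ball
  have hand : AnalyticAt ℂ (deriv f) z := (han z hz).deriv
  rcases hand.eventually_eq_zero_or_eventually_ne_zero with h | h
  · -- locally constant
    have h2 : ∀ᶠ w in 𝓝 z, w ∈ ball (0 : ℂ) 1 := isOpen_ball.mem_nhds hz
    obtain ⟨ε, hε, hball⟩ := Metric.eventually_nhds_iff_ball.1 (h.and h2)
    have hconst : ∀ w ∈ ball z ε, f w = f z := by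
      intro w hw
      refine (isOpen_ball (x := z) (ε := ε)).is_const_of_deriv_eq_zero
        (convex_ball z ε).isPreconnected
        (fun y hy => ((hf.differentiableAt
          (isOpen_ball.mem_nhds (hball y hy).2))).differentiableWithinAt)
        (fun y hy => (hball y hy).1) hw (mem_ball_self hε)
    have hw : z + (ε / 2 : ℝ) ∈ ball z ε := by
      rw [mem_ball_iff_norm, add_sub_cancel_left, Complex.norm_real, Real.norm_eq_abs,
        abs_of_pos (by positivity)]
      linarith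
    have h3 := hinj (hball _ hw).2 hz (hconst _ hw)
    have h4 : ((ε / 2 : ℝ) : ℂ) = 0 := by linear_combination h3
    rw [Complex.ofReal_eq_zero] at h4
    linarith
  · set g := Function.invFunOn f (ball 0 1) with hg
    have hcont := g_cont hf hinj hz
    have hgan : AnalyticAt ℂ g (f z) := by
      apply Complex.analyticAt_of_differentiable_on_punctured_nhds_of_continuousAt _ hcont
      have h1 : ∀ᶠ w in 𝓝 z, w ≠ z → deriv f w ≠ 0 := eventually_nhdsWithin_iff.1 h
      have h2 : Tendsto g (𝓝 (f z)) (𝓝 z) := by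
        have := hcont
        rw [ContinuousAt, g_left hinj hz] at this
        exact this
      rw [eventually_nhdsWithin_iff]
      filter_upwards [h2.eventually h1, g_right hf hinj hz] with y hy1 hy2 hy3
      obtain ⟨⟨w, hw, hwy⟩, hy4⟩ := hy2
      subst hwy
      rw [hg, g_left hinj hw] at hy1
      have hwz : w ≠ z := by
        rintro rfl
        exact hy3 rfl
      exact (g_deriv' hf hinj hw (hy1 hwz)).differentiableAt
    have h1 : HasDerivAt (g ∘ f) (deriv g (f z) * deriv f z) z :=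
      (hgan.differentiableAt.hasDerivAt).comp z
        (hf.differentiableAt (isOpen_ball.mem_nhds hz)).hasDerivAt
    have h2 : HasDerivAt (g ∘ f) 1 z := by
      refine (hasDerivAt_id z).congr_of_eventuallyEq ?_
      filter_upwards [isOpen_ball.mem_nhds hz] with w hw
      exact g_left hinj hw
    have h3 := h1.unique h2
    rw [hd, mul_zero] at h3
    exact zero_ne_one h3

theorem g_deriv {z : ℂ} (hz : z ∈ ball (0 : ℂ) 1) :
    HasDerivAt (Function.invFunOn f (ball 0 1)) (deriv f z)⁻¹ (f z) :=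
  g_deriv' hf hinj hz (deriv_ne hf hinj hz)

/-- The support function inequality. -/
theorem support_ineq (h0 : f 0 = 0) (hconv : Convex ℝ (f '' ball 0 1)) (z₀ ζ : ℂ)
    (hz₀ : z₀ ∈ ball (0 : ℂ) 1) (hz0 : z₀ ≠ 0) (hζ : ‖ζ‖ ≤ ‖z₀‖) :
    ((f ζ - f z₀) / (z₀ * deriv f z₀)).re ≤ 0 := by
  set g := Function.invFunOn f (ball 0 1) with hg
  set c : ℂ := ζ / z₀ with hc
  have hcn : ‖c‖ ≤ 1 := by
    rw [hc, norm_div]
    exact div_le_one_of_le₀ hζ (norm_nonneg _)
  have hcz : c * z₀ = ζ := div_mul_cancel₀ _ hz0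
  have hmaps : ∀ z ∈ ball (0 : ℂ) 1, c * z ∈ ball (0 : ℂ) 1 := by
    intro z hz
    rw [mem_ball_zero_iff] at hz ⊢
    rw [norm_mul]
    exact (mul_le_of_le_one_left (norm_nonneg _) hcn).trans_lt hz
  -- convex combinations
  have hcomb : ∀ t : ℝ, 0 ≤ t → t ≤ 1 → ∀ z ∈ ball (0 : ℂ) 1,
      f z + (t : ℂ) * (f (c * z) - f z) ∈ f '' ball 0 1 := by
    intro t ht ht1 z hz
    have := hconv ⟨z, hz, rfl⟩ ⟨c * z, hmaps z hz, rfl⟩ (sub_nonneg.2 ht1) ht (by ring)
    convert this using 1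
    rw [Complex.real_smul, Complex.real_smul]
    push_cast
    ring
  have hgmem : ∀ y ∈ f '' ball 0 1, g y ∈ ball (0 : ℂ) 1 := fun y hy => Function.invFunOn_mem hy
  have hschwarz : ∀ t : ℝ, 0 ≤ t → t ≤ 1 →
      ‖g (f z₀ + (t : ℂ) * (f ζ - f z₀))‖ ≤ ‖z₀‖ := by
    intro t ht ht1
    have hd : DifferentiableOn ℂ (fun z => g (f z + (t : ℂ) * (f (c * z) - f z))) (ball 0 1) := by
      intro z hz
      apply DifferentiableAt.differentiableWithinAt
      obtain ⟨w, hw, hwe⟩ := hcomb t ht ht1 z hz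
      have h1 : DifferentiableAt ℂ g (f z + (t : ℂ) * (f (c * z) - f z)) := by
        rw [← hwe]
        exact (g_deriv hf hinj hw).differentiableAt
      have h2 : DifferentiableAt ℂ f z := hf.differentiableAt (isOpen_ball.mem_nhds hz)
      have h3 : DifferentiableAt ℂ (fun z => f (c * z)) z := by
        have h4 : DifferentiableAt ℂ f (c * z) :=
          hf.differentiableAt (isOpen_ball.mem_nhds (hmaps z hz))
        exact h4.comp z (by fun_prop)
      exact h1.comp z (h2.add ((h3.sub h2).const_mul _))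
    have := Complex.norm_le_norm_of_mapsTo_ball (z := z₀) hd (by
      intro z hz
      exact ball_subset_closedBall (hgmem _ (hcomb t ht ht1 z hz))) (by
      rw [mul_zero, h0]
      simp only [sub_self, mul_zero, add_zero]
      have h5 : g (f 0) = 0 := g_left hinj (by simp)
      rwa [h0] at h5) (by rwa [mem_ball_zero_iff] at hz₀)
    rwa [hcz] at this
  -- derivative at zero
  have hder : HasDerivAt (fun t : ℂ => starRingEnd ℂ z₀ * g (f z₀ + t * (f ζ - f z₀)))
      (starRingEnd ℂ z₀ * ((deriv f z₀)⁻¹ * (f ζ - f z₀))) ((0 : ℝ) : ℂ) := by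
    apply HasDerivAt.const_mul
    have h1 : HasDerivAt g (deriv f z₀)⁻¹ (f z₀ + ((0 : ℝ) : ℂ) * (f ζ - f z₀)) := by
      rw [Complex.ofReal_zero, zero_mul, add_zero]
      exact g_deriv hf hinj hz₀
    have h2 : HasDerivAt (fun t : ℂ => f z₀ + t * (f ζ - f z₀)) (f ζ - f z₀) ((0 : ℝ) : ℂ) := by
      have := ((hasDerivAt_id (((0 : ℝ) : ℂ))).mul_const (f ζ - f z₀)).const_add (f z₀)
      simpa using this
    exact HasDerivAt.comp (h := fun t : ℂ => f z₀ + t * (f ζ - f z₀)) ((0 : ℝ) : ℂ) h1 h2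
  have hder2 := hder.real_of_complex
  have hder3 := hder2.hasDerivWithinAt (s := Ioi 0)
  rw [hasDerivWithinAt_iff_tendsto_slope' (by simp)] at hder3
  have hle : (starRingEnd ℂ z₀ * ((deriv f z₀)⁻¹ * (f ζ - f z₀))).re ≤ 0 := by
    apply le_of_tendsto hder3
    have h1 : ∀ᶠ t in 𝓝[>] (0 : ℝ), t < 1 := nhdsWithin_le_nhds (gt_mem_nhds one_pos)
    have h2 : ∀ᶠ t in 𝓝[>] (0 : ℝ), (0 : ℝ) < t := self_mem_nhdsWithin
    filter_upwards [h1, h2] with t ht1 ht0
    rw [slope_def_field]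
    apply div_nonpos_of_nonpos_of_nonneg _ (by linarith)
    rw [sub_nonpos]
    have h3 : (starRingEnd ℂ z₀ * g (f z₀ + ((0 : ℝ) : ℂ) * (f ζ - f z₀))).re = ‖z₀‖ ^ 2 := by
      rw [Complex.ofReal_zero, zero_mul, add_zero, hg, g_left hinj hz₀, mul_comm,
        Complex.mul_conj, Complex.ofReal_re, Complex.normSq_eq_norm_sq]
    rw [h3]
    refine (Complex.re_le_norm _).trans ?_
    rw [norm_mul, RCLike.norm_conj, pow_two]
    exact mul_le_mul_of_nonneg_left (hschwarz t ht0.le ht1.le) (norm_nonneg _)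
  have hd0 := deriv_ne hf hinj hz₀
  have e1 : starRingEnd ℂ z₀ * ((deriv f z₀)⁻¹ * (f ζ - f z₀)) =
      ((‖z₀‖ ^ 2 : ℝ) : ℂ) * ((f ζ - f z₀) / (z₀ * deriv f z₀)) := by
    have h5 : ((‖z₀‖ ^ 2 : ℝ) : ℂ) = z₀ * starRingEnd ℂ z₀ := by
      rw [Complex.mul_conj, Complex.normSq_eq_norm_sq]
    rw [h5]
    field_simp
  rw [e1, Complex.re_ofReal_mul] at hle
  have hpos : 0 < ‖z₀‖ ^ 2 := by positivity
  by_contra hcon
  push Not at hcon
  have := mul_pos hpos hcon
  linarith

/-- The image of a disc contains a disc. -/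
theorem disc_image (h0 : f 0 = 0) (M : ℝ) (hMpos : 0 < M)
    (hM : ∀ z ∈ ball (0 : ℂ) 1, z ≠ 0 → ‖z / f z‖ ≤ M) (r : ℝ) (hr : 0 < r) (hr1 : r < 1) :
    ball (0 : ℂ) (r / M) ⊆ f '' ball 0 r := by
  have hsub : ball (0 : ℂ) r ⊆ ball 0 1 := ball_subset_ball hr1.le
  have hsub' : closedBall (0 : ℂ) r ⊆ ball 0 1 := closedBall_subset_ball hr1
  apply (convex_ball (0 : ℂ) (r / M)).isPreconnected.subset_of_closure_inter_subset
    (open_image hf hinj _ hsub isOpen_ball)
  · exact ⟨0, mem_ball_self (by positivity), ⟨0, mem_ball_self hr, h0⟩⟩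
  · rintro w ⟨hw1, hw2⟩
    have hcl : IsClosed (f '' closedBall 0 r) := by
      apply IsCompact.isClosed
      exact (isCompact_closedBall (0 : ℂ) r).image_of_continuousOn
        (hf.continuousOn.mono hsub')
    have h1 : w ∈ f '' closedBall 0 r :=
      (closure_minimal (image_mono ball_subset_closedBall) hcl) hw1
    obtain ⟨z, hz, rfl⟩ := h1
    refine ⟨z, ?_, rfl⟩
    rw [mem_ball_zero_iff]
    rw [mem_closedBall_zero_iff] at hz
    refine lt_of_le_of_ne hz ?_
    intro hzr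
    have hzne : z ≠ 0 := by
      rw [← norm_pos_iff, hzr]; exact hr
    have hzmem : z ∈ ball (0 : ℂ) 1 := by
      rw [mem_ball_zero_iff]; linarith
    have h2 := hM z hzmem hzne
    have hfne : f z ≠ 0 := by
      intro h
      rw [← h0] at h
      exact hzne (hinj hzmem (by simp) h)
    rw [norm_div, div_le_iff₀ (norm_pos_iff.2 hfne), hzr] at h2
    rw [mem_ball_zero_iff, lt_div_iff₀ hMpos] at hw2
    linarith

/-- The pointwise bound. -/
theorem pointwise (h0 : f 0 = 0) (hconv : Convex ℝ (f '' ball 0 1)) (M : ℝ) (hMpos : 0 < M)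
    (hM : ∀ z ∈ ball (0 : ℂ) 1, z ≠ 0 → ‖z / f z‖ ≤ M) (r : ℝ) (hr : 0 < r) (hr1 : r < 1)
    (z₀ : ℂ) (hz₀ : ‖z₀‖ = r) :
    ‖(deriv f z₀)⁻¹‖ ≤ M * (f z₀ / (z₀ * deriv f z₀)).re := by
  have hmem : z₀ ∈ ball (0 : ℂ) 1 := by rw [mem_ball_zero_iff, hz₀]; exact hr1
  have hne : z₀ ≠ 0 := by rw [← norm_pos_iff, hz₀]; exact hr
  have hd := deriv_ne hf hinj hmem
  set n : ℂ := z₀ * deriv f z₀ with hn
  have hnne : n ≠ 0 := mul_ne_zero hne hd
  have hnpos : 0 < ‖n‖ := norm_pos_iff.2 hnne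
  have key : ∀ s : ℝ, 0 ≤ s → s < r / M → s / ‖n‖ ≤ (f z₀ / n).re := by
    intro s hs hs1
    have hw : ((s / ‖n‖ : ℝ) : ℂ) * n ∈ ball (0 : ℂ) (r / M) := by
      rw [mem_ball_zero_iff, norm_mul, Complex.norm_real, Real.norm_eq_abs,
        abs_of_nonneg (by positivity), div_mul_cancel₀ _ hnpos.ne']
      exact hs1
    obtain ⟨ζ, hζ, hζe⟩ := disc_image hf hinj h0 M hMpos hM r hr hr1 hw
    rw [mem_ball_zero_iff] at hζ
    have h1 := support_ineq hf hinj h0 hconv z₀ ζ hmem hne (by rw [hz₀]; exact hζ.le)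
    rw [← hn, hζe, sub_div, mul_div_cancel_right₀ _ hnne, Complex.sub_re, Complex.ofReal_re] at h1
    linarith
  have hlim : (r / M) / ‖n‖ ≤ (f z₀ / n).re := by
    by_contra hcon
    push Not at hcon
    obtain ⟨s, hs1, hs2⟩ := exists_between (max_lt (div_pos hr hMpos)
      ((lt_div_iff₀ hnpos).1 hcon))
    have hs0 : 0 ≤ s := ((le_max_left _ _).trans hs1.le)
    have h2 := key s hs0 hs2
    have h3 := (le_max_right _ _).trans_lt hs1
    rw [div_le_iff₀ hnpos] at h2
    linarith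
  have hnn : ‖n‖ = r * ‖deriv f z₀‖ := by rw [hn, norm_mul, hz₀]
  have hdpos : 0 < ‖deriv f z₀‖ := norm_pos_iff.2 hd
  rw [hnn] at hlim
  rw [norm_inv]
  have e : ‖deriv f z₀‖⁻¹ = M * ((r / M) / (r * ‖deriv f z₀‖)) := by
    field_simp
  rw [e]
  exact mul_le_mul_of_nonneg_left hlim hMpos.le

end inverse

/-- For every normalized univalent map f of the unit disc onto a convex domain, and every 0<r<1, the mean over the circle of radius r of ∣1/f'∣ is at most any upper bound M of ∣z/f(z)∣ on the punctured disc. -/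
theorem result :
    ∀ f : ℂ → ℂ, DifferentiableOn ℂ f (Metric.ball 0 1) →
      Set.InjOn f (Metric.ball 0 1) → f 0 = 0 → deriv f 0 = 1 →
      Convex ℝ (f '' Metric.ball 0 1) →
      ∀ M : ℝ, (∀ z ∈ Metric.ball (0:ℂ) 1, z ≠ 0 → ‖z / f z‖ ≤ M) →
      ∀ r : ℝ, 0 < r → r < 1 →
        (1 / (2 * Real.pi)) * ∫ θ in (0:ℝ)..(2 * Real.pi), ‖(deriv f (circleMap 0 r θ))⁻¹‖ ≤ M := by
  intro f hf hinj h0 h1 hconv M hM r hr hr1
  have hMpos : 0 < M := by
    have hmem : (1 / 2 : ℂ) ∈ ball (0 : ℂ) 1 := by rw [mem_ball_zero_iff]; norm_num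
    have hne : (1 / 2 : ℂ) ≠ 0 := by norm_num
    refine lt_of_lt_of_le ?_ (hM _ hmem hne)
    rw [norm_pos_iff]
    apply div_ne_zero hne
    intro h
    rw [← h0] at h
    exact hne (hinj hmem (by simp) h)
  -- the holomorphic function
  let φ : ℂ → ℂ := fun z => dslope f 0 z / deriv f z
  have hφd : DifferentiableOn ℂ φ (ball 0 1) := by
    apply DifferentiableOn.div
    · exact (Complex.differentiableOn_dslope (isOpen_ball.mem_nhds (by simp))).2 hf
    · exact (hf.analyticOnNhd isOpen_ball).deriv.differentiableOn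
    · intro z hz
      exact deriv_ne hf hinj hz
  have hcl : closedBall (0 : ℂ) r ⊆ ball 0 1 := closedBall_subset_ball hr1
  have hmean : (2 * Real.pi)⁻¹ • ∫ θ in (0:ℝ)..(2 * Real.pi), φ (circleMap 0 r θ) = 1 := by
    have h2 : DiffContOnCl ℂ φ (ball 0 |r|) := by
      rw [abs_of_pos hr]
      apply DifferentiableOn.diffContOnCl
      rw [closure_ball _ hr.ne']
      exact hφd.mono hcl
    have h3 := h2.circleAverage
    rw [Real.circleAverage_def] at h3
    rw [h3]
    simp [φ, h1]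
  have hcirc : ∀ θ : ℝ, circleMap 0 r θ ∈ ball (0 : ℂ) 1 := by
    intro θ
    rw [mem_ball_zero_iff, norm_circleMap_zero, abs_of_pos hr]
    exact hr1
  have hcont1 : Continuous (fun θ : ℝ => φ (circleMap 0 r θ)) :=
    hφd.continuousOn.comp_continuous (continuous_circleMap 0 r) hcirc
  have hcont2 : Continuous (fun θ : ℝ => ‖(deriv f (circleMap 0 r θ))⁻¹‖) := by
    have h2 : ContinuousOn (deriv f) (ball 0 1) :=
      (hf.analyticOnNhd isOpen_ball).deriv.continuousOn
    have h3 : Continuous (fun θ : ℝ => deriv f (circleMap 0 r θ)) :=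
      h2.comp_continuous (continuous_circleMap 0 r) hcirc
    exact (h3.inv₀ (fun θ => deriv_ne hf hinj (hcirc θ))).norm
  have hmeanre : (2 * Real.pi)⁻¹ * ∫ θ in (0:ℝ)..(2 * Real.pi), (φ (circleMap 0 r θ)).re = 1 := by
    have h2 := congrArg Complex.re hmean
    rw [Complex.smul_re, smul_eq_mul, Complex.one_re] at h2
    rw [← h2]
    congr 1
    have h3 := Complex.reCLM.intervalIntegral_comp_comm
      (μ := MeasureTheory.volume) (hcont1.intervalIntegrable 0 (2 * Real.pi))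
    simpa using h3
  have hpt : ∀ θ : ℝ, ‖(deriv f (circleMap 0 r θ))⁻¹‖ ≤ M * (φ (circleMap 0 r θ)).re := by
    intro θ
    have hn : ‖circleMap 0 r θ‖ = r := by
      rw [norm_circleMap_zero, abs_of_pos hr]
    have hne : circleMap 0 r θ ≠ 0 := by
      rw [← norm_pos_iff, hn]; exact hr
    have h2 := pointwise hf hinj h0 hconv M hMpos hM r hr hr1 (circleMap 0 r θ) hn
    refine h2.trans (le_of_eq ?_)
    congr 2
    change _ = dslope f 0 (circleMap 0 r θ) / deriv f (circleMap 0 r θ)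
    rw [dslope_of_ne _ hne, slope_def_field, h0, sub_zero, sub_zero, div_div]
  have hle : ∫ θ in (0:ℝ)..(2 * Real.pi), ‖(deriv f (circleMap 0 r θ))⁻¹‖ ≤
      ∫ θ in (0:ℝ)..(2 * Real.pi), M * (φ (circleMap 0 r θ)).re := by
    apply intervalIntegral.integral_mono_on (by positivity) (hcont2.intervalIntegrable _ _)
    · exact ((Complex.continuous_re.comp hcont1).const_mul M).intervalIntegrable _ _
    · intro θ _
      exact hpt θ
  have h2π : (0 : ℝ) < 2 * Real.pi := by positivity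
  calc (1 / (2 * Real.pi)) * ∫ θ in (0:ℝ)..(2 * Real.pi), ‖(deriv f (circleMap 0 r θ))⁻¹‖
      ≤ (1 / (2 * Real.pi)) * ∫ θ in (0:ℝ)..(2 * Real.pi), M * (φ (circleMap 0 r θ)).re :=
        mul_le_mul_of_nonneg_left hle (by positivity)
    _ = M * ((2 * Real.pi)⁻¹ * ∫ θ in (0:ℝ)..(2 * Real.pi), (φ (circleMap 0 r θ)).re) := by
        rw [intervalIntegral.integral_const_mul]
        ring
    _ = M := by rw [hmeanre, mul_one]

end Pool.Agent.S1495
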