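import Pool.Statements.S1524

set_option autoImplicit false
open Matrix
open Pool Pool.MP_79babf_an

namespace Pool.Agent.S1524

/-- a positive semidefinite real matrix is a Gram matrix -/
theorem exists_gram {V : Type} [Fintype V] [DecidableEq V] (A : Matrix V V ℝ) (hA : A.PosSemidef) :
    ∃ B : Matrix V V ℝ, Bᵀ * B = A := by
  have hH := hA.1
  set U : Matrix V V ℝ := (hH.eigenvectorUnitary : Matrix V V ℝ) with hU
  set D : Matrix V V ℝ := diagonal hH.eigenvalues with hD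
  have hspec : A = U * D * star U := by
    conv_lhs => rw [hH.spectral_theorem, Unitary.conjStarAlgAut_apply]
    rfl
  refine ⟨diagonal (fun i => Real.sqrt (hH.eigenvalues i)) * star U, ?_⟩
  rw [Matrix.transpose_mul, diagonal_transpose]
  have h1 : (star U)ᵀ = U := by
    rw [star_eq_conjTranspose, conjTranspose_eq_transpose_of_trivial, transpose_transpose]
  rw [h1]
  have h2 : diagonal (fun i => Real.sqrt (hH.eigenvalues i)) *
      diagonal (fun i => Real.sqrt (hH.eigenvalues i)) = D := by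
    rw [diagonal_mul_diagonal, hD]
    congr 1
    ext i
    exact Real.mul_self_sqrt (hA.eigenvalues_nonneg i)
  calc U * diagonal (fun i => Real.sqrt (hH.eigenvalues i)) *
        (diagonal (fun i => Real.sqrt (hH.eigenvalues i)) * star U)
      = U * (diagonal (fun i => Real.sqrt (hH.eigenvalues i)) *
        diagonal (fun i => Real.sqrt (hH.eigenvalues i))) * star U := by
        simp only [Matrix.mul_assoc]
    _ = A := by rw [h2, ← hspec]

/-- The Kahan-type row number `j`. -/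
noncomputable def qv (k : ℕ) (c s de : ℝ) (j i : Fin k) : ℝ :=
  if i = j then de * s ^ (i : ℕ) else if i < j then -(de * c * s ^ (i : ℕ)) else 0

variable {k : ℕ} {c s de : ℝ}

/-- tail sums of squares -/
theorem tail (hcs : c ^ 2 + s ^ 2 = 1) (r : Fin k) (j : ℕ) (hj : j ≤ (r : ℕ)) :
    ∑ i : Fin k, (if j ≤ (i : ℕ) then (qv k c s de r i) ^ 2 else 0) = de ^ 2 * s ^ (2 * j) := by
  set G : ℕ → ℝ := fun i => if i ≤ (r : ℕ) then de ^ 2 * s ^ (2 * max i j) else 0 with hG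
  have h1 : ∀ i : Fin k, (if j ≤ (i : ℕ) then (qv k c s de r i) ^ 2 else 0) =
      G (i : ℕ) - G ((i : ℕ) + 1) := by
    intro i
    simp only [hG]
    unfold qv
    rcases lt_trichotomy i r with h | h | h
    · have h' : (i : ℕ) < (r : ℕ) := h
      have e1 : (i : ℕ) + 1 ≤ (r : ℕ) := by omega
      have e2 : (i : ℕ) ≤ (r : ℕ) := by omega
      rw [if_neg h.ne, if_pos h, if_pos e1, if_pos e2]
      by_cases h2 : j ≤ (i : ℕ)
      · have e3 : j ≤ (i : ℕ) + 1 := by omega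
        rw [if_pos h2, max_eq_left h2, max_eq_left e3, mul_add, pow_add]
        have : c ^ 2 = 1 - s ^ 2 := by linarith
        have e4 : (-(de * c * s ^ (i : ℕ))) ^ 2 = de ^ 2 * c ^ 2 * s ^ (2 * (i : ℕ)) := by
          rw [pow_mul' s]; ring
        rw [e4, this]
        ring
      · have e3 : (i : ℕ) + 1 ≤ j := by omega
        have e5 : (i : ℕ) ≤ j := by omega
        rw [if_neg h2, max_eq_right e5, max_eq_right e3]
        ring
    · subst h
      have e1 : ¬ ((i : ℕ) + 1 ≤ (i : ℕ)) := by omega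
      rw [if_pos rfl, if_pos le_rfl, if_neg e1, if_pos hj, max_eq_left hj]
      ring
    · have h' : (r : ℕ) < (i : ℕ) := h
      have e1 : ¬ ((i : ℕ) ≤ (r : ℕ)) := by omega
      have e2 : ¬ ((i : ℕ) + 1 ≤ (r : ℕ)) := by omega
      have e3 : ¬ (i < r) := not_lt.2 h.le
      rw [if_neg h.ne', if_neg e3, if_neg e1, if_neg e2]
      split_ifs <;> ring
  rw [Finset.sum_congr rfl (fun i _ => h1 i)]
  rw [Fin.sum_univ_eq_sum_range (fun i => G i - G (i + 1)) k, Finset.sum_range_sub']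
  have h2 : G 0 = de ^ 2 * s ^ (2 * j) := by
    simp only [hG]
    rw [if_pos (Nat.zero_le _), max_eq_right (Nat.zero_le _)]
  have h3 : G k = 0 := by
    simp only [hG]
    rw [if_neg (by have := r.2; omega)]
  rw [h2, h3, sub_zero]

theorem normsq (hcs : c ^ 2 + s ^ 2 = 1) (r : Fin k) :
    ∑ i : Fin k, (qv k c s de r i) ^ 2 = de ^ 2 := by
  have := tail (de := de) hcs r 0 (Nat.zero_le _)
  simpa using this

/-- the complement matrix -/
noncomputable def Cm (k : ℕ) (c s de : ℝ) : Matrix (Fin k) (Fin k) ℝ :=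
  1 - (Matrix.of (qv k c s de))ᵀ * (Matrix.of (qv k c s de))

theorem Cm_psd (hcs : c ^ 2 + s ^ 2 = 1) (hk : (k : ℝ) * de ^ 2 ≤ 1) : (Cm k c s de).PosSemidef := by
  apply PosSemidef.of_dotProduct_mulVec_nonneg
  · unfold Cm
    rw [IsHermitian, conjTranspose_eq_transpose_of_trivial, transpose_sub, transpose_one,
      transpose_mul, transpose_transpose]
  · intro x
    unfold Cm
    rw [star_trivial, sub_mulVec, one_mulVec, dotProduct_sub, ← mulVec_mulVec,
      dotProduct_mulVec, vecMul_transpose]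
    have h1 : ∀ j, ((Matrix.of (qv k c s de)) *ᵥ x) j ^ 2 ≤ de ^ 2 * ∑ i, x i ^ 2 := by
      intro j
      rw [← normsq (de := de) hcs j]
      exact Finset.sum_mul_sq_le_sq_mul_sq Finset.univ (fun i => qv k c s de j i) x
    have h2 : ((Matrix.of (qv k c s de)) *ᵥ x) ⬝ᵥ ((Matrix.of (qv k c s de)) *ᵥ x) ≤
        (k : ℝ) * (de ^ 2 * ∑ i, x i ^ 2) := by
      rw [dotProduct]
      calc ∑ i, ((Matrix.of (qv k c s de)) *ᵥ x) i * ((Matrix.of (qv k c s de)) *ᵥ x) i
          ≤ ∑ i : Fin k, de ^ 2 * ∑ i, x i ^ 2 := by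
            apply Finset.sum_le_sum
            intro i _
            have := h1 i
            nlinarith
        _ = _ := by rw [Finset.sum_const, Finset.card_univ, Fintype.card_fin, nsmul_eq_mul]
    have h3 : x ⬝ᵥ x = ∑ i, x i ^ 2 := by
      rw [dotProduct]; exact Finset.sum_congr rfl (fun i _ => by ring)
    have h4 : 0 ≤ ∑ i, x i ^ 2 := Finset.sum_nonneg (fun i _ => sq_nonneg _)
    rw [h3]
    nlinarith

/-- rows of the Gram factor -/
theorem row_bound (B : Matrix (Fin k) (Fin k) ℝ) (hB : Bᵀ * B = Cm k c s de) (i : Fin k) :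
    ∑ j, B i j ^ 2 ≤ k := by
  have h1 : ∀ j, ∑ i, B i j ^ 2 ≤ 1 := by
    intro j
    have h2 := congrFun (congrFun hB j) j
    unfold Cm at h2
    rw [Matrix.mul_apply, Matrix.sub_apply, Matrix.one_apply_eq, Matrix.mul_apply] at h2
    have h3 : 0 ≤ ∑ x, (Matrix.of (qv k c s de))ᵀ j x * (Matrix.of (qv k c s de)) x j := by
      apply Finset.sum_nonneg
      intro x _
      rw [transpose_apply]
      exact mul_self_nonneg _
    have h4 : ∑ i, B i j ^ 2 = ∑ i, Bᵀ j i * B i j := by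
      apply Finset.sum_congr rfl
      intro i _
      rw [transpose_apply]; ring
    rw [h4, h2]; linarith
  calc ∑ j, B i j ^ 2 ≤ ∑ j, ∑ i, B i j ^ 2 := by
        apply Finset.sum_le_sum
        intro j _
        exact Finset.single_le_sum (f := fun i => B i j ^ 2) (fun i _ => sq_nonneg _)
          (Finset.mem_univ i)
    _ ≤ ∑ j : Fin k, (1 : ℝ) := Finset.sum_le_sum (fun j _ => h1 j)
    _ = k := by simp

/-- the full matrix -/
noncomputable def Qm (k N : ℕ) (c s de : ℝ) (B : Matrix (Fin k) (Fin k) ℝ) :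
    Matrix (Fin (k + N * k)) (Fin k) ℝ := fun r =>
  Sum.elim (fun j => qv k c s de j)
    (fun t => fun i => (Real.sqrt N)⁻¹ * B ((finProdFinEquiv : Fin N × Fin k ≃ _).symm t).2 i)
    ((finSumFinEquiv : Fin k ⊕ Fin (N * k) ≃ _).symm r)

theorem Qm_left (N : ℕ) (B : Matrix (Fin k) (Fin k) ℝ) (j : Fin k) :
    Qm k N c s de B (Fin.castAdd (N * k) j) = qv k c s de j := by
  unfold Qm
  rw [finSumFinEquiv_symm_apply_castAdd]
  rfl

theorem Qm_right (N : ℕ) (B : Matrix (Fin k) (Fin k) ℝ) (t : Fin (N * k)) :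
    Qm k N c s de B (Fin.natAdd k t) =
      fun i => (Real.sqrt N)⁻¹ * B ((finProdFinEquiv : Fin N × Fin k ≃ _).symm t).2 i := by
  unfold Qm
  rw [finSumFinEquiv_symm_apply_natAdd]
  rfl

theorem Qm_orth (N : ℕ) (hN : 0 < N) (B : Matrix (Fin k) (Fin k) ℝ) (hB : Bᵀ * B = Cm k c s de) :
    (Qm k N c s de B)ᵀ * (Qm k N c s de B) = 1 := by
  ext a b
  rw [Matrix.mul_apply, Fin.sum_univ_add]
  simp only [transpose_apply, Qm_left, Qm_right]
  have h1 : ∑ t : Fin (N * k), ((Real.sqrt N)⁻¹ * B ((finProdFinEquiv : Fin N × Fin k ≃ _).symm t).2 a) *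
      ((Real.sqrt N)⁻¹ * B ((finProdFinEquiv : Fin N × Fin k ≃ _).symm t).2 b) =
      ∑ i, B i a * B i b := by
    rw [Equiv.sum_comp (finProdFinEquiv : Fin N × Fin k ≃ _).symm
      (fun p : Fin N × Fin k => ((Real.sqrt N)⁻¹ * B p.2 a) * ((Real.sqrt N)⁻¹ * B p.2 b)),
      Fintype.sum_prod_type]
    simp only [Finset.sum_const, Finset.card_univ, Fintype.card_fin, nsmul_eq_mul]
    rw [Finset.mul_sum]
    apply Finset.sum_congr rfl
    intro i _
    have h0 : (0 : ℝ) < N := by exact_mod_cast hN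
    have h5 : (Real.sqrt N)⁻¹ * (Real.sqrt N)⁻¹ = (N : ℝ)⁻¹ := by
      rw [← mul_inv, Real.mul_self_sqrt h0.le]
    calc (N : ℝ) * ((Real.sqrt N)⁻¹ * B i a * ((Real.sqrt N)⁻¹ * B i b))
        = (N : ℝ) * ((Real.sqrt N)⁻¹ * (Real.sqrt N)⁻¹) * (B i a * B i b) := by ring
      _ = _ := by rw [h5, mul_inv_cancel₀ h0.ne', one_mul]
  rw [h1]
  have h2 := congrFun (congrFun hB a) b
  unfold Cm at h2
  rw [Matrix.mul_apply, Matrix.sub_apply, Matrix.mul_apply] at h2
  simp only [transpose_apply, Matrix.of_apply] at h2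
  rw [h2]
  ring

/-- span of the first rows -/
noncomputable def sp (k : ℕ) (c s de : ℝ) (j : Fin k) : Submodule ℝ (EuclideanSpace ℝ (Fin k)) :=
  Submodule.span ℝ ((fun i : Fin k => (WithLp.toLp 2 (qv k c s de i) : EuclideanSpace ℝ (Fin k))) ''
    {i | i < j})

theorem single_mem (hs : 0 < s) (hde : 0 < de) (j : Fin k) : ∀ i : Fin k, i < j →
    (WithLp.toLp 2 (Pi.single i (1:ℝ)) : EuclideanSpace ℝ (Fin k)) ∈ sp k c s de j := by
  intro i
  induction i using WellFoundedLT.induction with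
  | ind i ih =>
    intro hij
    have h1 : (WithLp.toLp 2 (Pi.single i (1:ℝ)) : EuclideanSpace ℝ (Fin k)) =
        (de * s ^ (i : ℕ))⁻¹ • ((WithLp.toLp 2 (qv k c s de i) : EuclideanSpace ℝ (Fin k)) +
        ∑ l ∈ Finset.univ.filter (fun l => l < i), (de * c * s ^ (l : ℕ)) •
          (WithLp.toLp 2 (Pi.single l (1:ℝ)) : EuclideanSpace ℝ (Fin k))) := by
      ext t
      have h0 : de * s ^ (i : ℕ) ≠ 0 := by positivity
      simp only [PiLp.smul_apply, PiLp.add_apply, WithLp.ofLp_sum, Finset.sum_apply, smul_eq_mul,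
        WithLp.ofLp_smul, Pi.smul_apply]
      have h2 : ∑ l ∈ Finset.univ.filter (fun l => l < i), (de * c * s ^ (l : ℕ)) *
          (Pi.single l (1:ℝ) : Fin k → ℝ) t = if t < i then de * c * s ^ (t : ℕ) else 0 := by
        rw [Finset.sum_filter]
        rw [Finset.sum_eq_single t]
        · simp
        · intro b _ hb
          simp [Pi.single_apply, Ne.symm hb]
        · intro h; exact absurd (Finset.mem_univ _) h
      rw [h2]
      unfold qv
      rcases lt_trichotomy t i with h | h | h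
      · rw [if_neg h.ne, if_pos h, if_pos h, Pi.single_apply, if_neg h.ne]
        ring
      · subst h
        rw [if_pos rfl, if_neg (lt_irrefl _), add_zero, inv_mul_cancel₀ h0]
        simp
      · rw [if_neg h.ne', if_neg (not_lt.2 h.le), if_neg (not_lt.2 h.le), Pi.single_apply,
          if_neg h.ne']
        ring
    rw [h1]
    apply Submodule.smul_mem
    apply Submodule.add_mem
    · exact Submodule.subset_span ⟨i, hij, rfl⟩
    · apply Submodule.sum_mem
      intro l hl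
      rw [Finset.mem_filter] at hl
      exact Submodule.smul_mem _ _ (ih l hl.2 (hl.2.trans hij))

theorem mem_sp (hs : 0 < s) (hde : 0 < de) (j : Fin k) (v : Fin k → ℝ)
    (hv : ∀ t, j ≤ t → v t = 0) :
    (WithLp.toLp 2 v : EuclideanSpace ℝ (Fin k)) ∈ sp k c s de j := by
  have h1 : (WithLp.toLp 2 v : EuclideanSpace ℝ (Fin k)) =
      ∑ t, v t • (WithLp.toLp 2 (Pi.single t (1:ℝ)) : EuclideanSpace ℝ (Fin k)) := by
    ext l
    simp only [WithLp.ofLp_sum, Finset.sum_apply, WithLp.ofLp_smul, Pi.smul_apply, smul_eq_mul]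
    rw [Finset.sum_eq_single l]
    · simp
    · intro b _ hb
      simp [Pi.single_apply, Ne.symm hb]
    · intro h; exact absurd (Finset.mem_univ _) h
  rw [h1]
  apply Submodule.sum_mem
  intro t _
  rcases lt_or_ge t j with h | h
  · exact Submodule.smul_mem _ _ (single_mem hs hde j t h)
  · rw [hv t h, zero_smul]; exact Submodule.zero_mem _

theorem sp_zero (j : Fin k) (w : EuclideanSpace ℝ (Fin k)) (hw : w ∈ sp k c s de j) :
    ∀ t, j ≤ t → w t = 0 := by
  intro t ht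
  unfold sp at hw
  induction hw using Submodule.span_induction with
  | mem x hx =>
    obtain ⟨i, hi, rfl⟩ := hx
    have hi' : i < j := hi
    change qv k c s de i t = 0
    unfold qv
    have h1 : i < t := lt_of_lt_of_le hi' ht
    rw [if_neg h1.ne', if_neg (not_lt.2 h1.le)]
  | zero => rfl
  | add x y _ _ hx hy => rw [PiLp.add_apply, hx, hy, add_zero]
  | smul a x _ hx => rw [PiLp.smul_apply, hx, smul_zero]

theorem lower (hs : 0 < s) (hde : 0 < de) (j : Fin k) :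
    de * s ^ (j : ℕ) ≤ Metric.infDist (WithLp.toLp 2 (qv k c s de j) : EuclideanSpace ℝ (Fin k))
      (sp k c s de j : Set (EuclideanSpace ℝ (Fin k))) := by
  rw [Metric.le_infDist ⟨0, Submodule.zero_mem _⟩]
  intro w hw
  rw [dist_eq_norm]
  have h1 := PiLp.norm_apply_le ((WithLp.toLp 2 (qv k c s de j) : EuclideanSpace ℝ (Fin k)) - w) j
  rw [PiLp.sub_apply, sp_zero j w hw j le_rfl, sub_zero] at h1
  refine le_trans ?_ h1
  have h2 : (WithLp.toLp 2 (qv k c s de j) : EuclideanSpace ℝ (Fin k)) j = de * s ^ (j : ℕ) := by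
    change qv k c s de j j = _
    unfold qv
    rw [if_pos rfl]
  rw [h2]
  exact le_abs_self _

theorem upper (hcs : c ^ 2 + s ^ 2 = 1) (hs : 0 < s) (hde : 0 < de) (j r : Fin k) (hr : j ≤ r) :
    Metric.infDist (WithLp.toLp 2 (qv k c s de r) : EuclideanSpace ℝ (Fin k))
      (sp k c s de j : Set (EuclideanSpace ℝ (Fin k))) ≤ de * s ^ (j : ℕ) := by
  have h1 : (WithLp.toLp 2 (fun t => if j ≤ t then 0 else qv k c s de r t) :
      EuclideanSpace ℝ (Fin k)) ∈ sp k c s de j :=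
    mem_sp hs hde j _ (fun t ht => if_pos ht)
  refine le_trans (Metric.infDist_le_dist_of_mem h1) ?_
  rw [dist_eq_norm]
  apply le_of_sq_le_sq _ (by positivity)
  rw [EuclideanSpace.norm_sq_eq]
  have h2 := tail (de := de) hcs r (j : ℕ) hr
  rw [show (de * s ^ (j : ℕ)) ^ 2 = de ^ 2 * s ^ (2 * (j : ℕ)) by rw [pow_mul' s]; ring, ← h2]
  apply le_of_eq
  apply Finset.sum_congr rfl
  intro t _
  rw [PiLp.sub_apply, Real.norm_eq_abs, sq_abs]
  by_cases h : j ≤ t
  · have h' : (j : ℕ) ≤ (t : ℕ) := h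
    rw [if_pos h']
    simp only [if_pos h, sub_zero]
  · have h' : ¬ (j : ℕ) ≤ (t : ℕ) := h
    rw [if_neg h']
    simp only [if_neg h, sub_self]
    norm_num

theorem zero_dist (j r : Fin k) (hr : r < j) :
    Metric.infDist (WithLp.toLp 2 (qv k c s de r) : EuclideanSpace ℝ (Fin k))
      (sp k c s de j : Set (EuclideanSpace ℝ (Fin k))) = 0 :=
  Metric.infDist_zero_of_mem (Submodule.subset_span ⟨r, hr, rfl⟩)

theorem extra_dist (N : ℕ) (hN : 0 < N) (B : Matrix (Fin k) (Fin k) ℝ)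
    (hB : Bᵀ * B = Cm k c s de) (j : Fin k) (t : Fin (N * k)) (L : ℝ) (hL : 0 ≤ L)
    (hL2 : (k : ℝ) / N ≤ L ^ 2) :
    Metric.infDist (WithLp.toLp 2 (Qm k N c s de B (Fin.natAdd k t)) : EuclideanSpace ℝ (Fin k))
      (sp k c s de j : Set (EuclideanSpace ℝ (Fin k))) ≤ L := by
  refine le_trans (Metric.infDist_le_dist_of_mem (Submodule.zero_mem _)) ?_
  rw [dist_zero_right]
  apply le_of_sq_le_sq _ hL
  refine le_trans ?_ hL2
  rw [EuclideanSpace.norm_sq_eq, Qm_right]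
  have h0 : (0 : ℝ) < N := by exact_mod_cast hN
  set i := ((finProdFinEquiv : Fin N × Fin k ≃ _).symm t).2 with hi
  have h1 : ∀ l : Fin k, ‖(WithLp.toLp 2 (fun l => (Real.sqrt N)⁻¹ * B i l) :
      EuclideanSpace ℝ (Fin k)) l‖ ^ 2 = (N : ℝ)⁻¹ * (B i l) ^ 2 := by
    intro l
    change ‖(Real.sqrt N)⁻¹ * B i l‖ ^ 2 = _
    rw [Real.norm_eq_abs, sq_abs, mul_pow, inv_pow, Real.sq_sqrt h0.le]
  rw [Finset.sum_congr rfl (fun l _ => h1 l), ← Finset.mul_sum, div_eq_inv_mul]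
  exact mul_le_mul_of_nonneg_left (row_bound B hB i) (by positivity)

/-- the bad vector -/
noncomputable def yv (c : ℝ) : ℕ → ℝ
  | 0 => 1
  | (i + 1) => c * (1 + c) ^ i

noncomputable def Sv (c : ℝ) : ℕ → ℝ
  | 0 => 0
  | (i + 1) => (1 + c) ^ i

theorem yS (i : ℕ) : yv c i = Sv c (i + 1) - Sv c i := by
  rcases i with _ | i
  · simp [yv, Sv]
  · simp only [yv, Sv]; rw [pow_succ]; ring

theorem apply_bad (hs : 0 < s) (j : Fin k) :
    ∑ i : Fin k, qv k c s de j i * (yv c i / s ^ (i : ℕ)) = if (j : ℕ) = 0 then de else 0 := by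
  set T : ℕ → ℝ := fun i => if i ≤ (j : ℕ) then de * c * Sv c i + de * (yv c j - c * Sv c j)
    else 0 with hT
  have h1 : ∀ i : Fin k, qv k c s de j i * (yv c i / s ^ (i : ℕ)) = T (i : ℕ) - T ((i : ℕ) + 1) := by
    intro i
    have h0 : s ^ (i : ℕ) ≠ 0 := by positivity
    simp only [hT]
    unfold qv
    rcases lt_trichotomy i j with h | h | h
    · have h' : (i : ℕ) < (j : ℕ) := h
      have e1 : (i : ℕ) + 1 ≤ (j : ℕ) := by omega
      have e2 : (i : ℕ) ≤ (j : ℕ) := by omega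
      rw [if_neg h.ne, if_pos h, if_pos e1, if_pos e2, yS i]
      field_simp
      ring
    · subst h
      have e1 : ¬ ((i : ℕ) + 1 ≤ (i : ℕ)) := by omega
      rw [if_pos rfl, if_pos le_rfl, if_neg e1]
      field_simp
      ring
    · have h' : (j : ℕ) < (i : ℕ) := h
      have e1 : ¬ ((i : ℕ) ≤ (j : ℕ)) := by omega
      have e2 : ¬ ((i : ℕ) + 1 ≤ (j : ℕ)) := by omega
      rw [if_neg h.ne', if_neg (not_lt.2 h.le), if_neg e1, if_neg e2]
      ring
  rw [Finset.sum_congr rfl (fun i _ => h1 i)]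
  rw [Fin.sum_univ_eq_sum_range (fun i => T i - T (i + 1)) k, Finset.sum_range_sub']
  have h3 : T k = 0 := by
    simp only [hT]
    rw [if_neg (by have := j.2; omega)]
  rw [h3, sub_zero]
  simp only [hT]
  rw [if_pos (Nat.zero_le _)]
  rcases Nat.eq_zero_or_pos (j : ℕ) with h | h
  · rw [h, if_pos rfl]; simp [yv, Sv]
  · rw [if_neg (by omega)]
    obtain ⟨i, hi⟩ : ∃ i, (j : ℕ) = i + 1 := ⟨(j : ℕ) - 1, by omega⟩
    rw [hi]; simp [yv, Sv]

/-- growth -/
theorem growth (C : ℝ) (d : ℕ) : ∃ m : ℕ, 2 ≤ m ∧ C * (((m ^ 2 + m ^ 6 * m ^ 2 : ℕ) : ℝ)) ^ d <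
    (2 : ℝ) ^ (m - 1) := by
  have h1 := tendsto_pow_const_div_const_pow_of_one_lt (8 * d) (r := (2 : ℝ)) (by norm_num)
  have hpos : (0 : ℝ) < 1 / (2 * (|C| + 1) * 2 ^ d) := by positivity
  have h2 := (h1.eventually (gt_mem_nhds hpos)).and (Filter.eventually_ge_atTop 2)
  obtain ⟨m, hm, hm2⟩ := h2.exists
  refine ⟨m, hm2, ?_⟩
  have hmr : (1 : ℝ) ≤ m := by exact_mod_cast (by omega : 1 ≤ m)
  have h3 : (((m ^ 2 + m ^ 6 * m ^ 2 : ℕ) : ℝ)) ≤ 2 * (m : ℝ) ^ 8 := by
    push_cast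
    have : (m : ℝ) ^ 2 ≤ (m : ℝ) ^ 8 := pow_le_pow_right₀ hmr (by norm_num)
    nlinarith
  have h4 : C * (((m ^ 2 + m ^ 6 * m ^ 2 : ℕ) : ℝ)) ^ d ≤ (|C| + 1) * (2 ^ d * (m : ℝ) ^ (8 * d)) := by
    have e1 : (((m ^ 2 + m ^ 6 * m ^ 2 : ℕ) : ℝ)) ^ d ≤ (2 * (m : ℝ) ^ 8) ^ d := by
      gcongr
    have e2 : (2 * (m : ℝ) ^ 8) ^ d = 2 ^ d * (m : ℝ) ^ (8 * d) := by rw [mul_pow, ← pow_mul]
    rw [← e2]
    calc C * (((m ^ 2 + m ^ 6 * m ^ 2 : ℕ) : ℝ)) ^ d
        ≤ (|C| + 1) * (((m ^ 2 + m ^ 6 * m ^ 2 : ℕ) : ℝ)) ^ d := by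
          gcongr
          linarith [le_abs_self C]
      _ ≤ _ := by gcongr
  have h5 : (m : ℝ) ^ (8 * d) / 2 ^ m < 1 / (2 * (|C| + 1) * 2 ^ d) := hm
  rw [div_lt_div_iff₀ (by positivity) (by positivity)] at h5
  have h6 : (2 : ℝ) ^ m = 2 * 2 ^ (m - 1) := by
    rw [← pow_succ']
    congr 1
    omega
  rw [h6] at h5
  nlinarith

theorem pow_lower (m : ℕ) (hm : 2 ≤ m) : (2 : ℝ) ^ (m - 1) ≤ (1 + 1 / (m : ℝ)) ^ (m ^ 2 - 2) := by
  have hmr : (0 : ℝ) < m := by exact_mod_cast (by omega : 0 < m)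
  have h1 : (2 : ℝ) ≤ (1 + 1 / (m : ℝ)) ^ m := by
    have := one_add_mul_le_pow (a := 1 / (m : ℝ)) (by have : (0:ℝ) < 1 / m := by positivity
                                                      linarith) m
    have e : (m : ℝ) * (1 / m) = 1 := by field_simp
    rw [e] at this
    linarith
  have h2 : (1 : ℝ) ≤ 1 + 1 / (m : ℝ) := by
    have : (0:ℝ) < 1 / m := by positivity
    linarith
  calc (2 : ℝ) ^ (m - 1) ≤ ((1 + 1 / (m : ℝ)) ^ m) ^ (m - 1) := by gcongr
    _ = (1 + 1 / (m : ℝ)) ^ (m * (m - 1)) := by rw [← pow_mul]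
    _ ≤ _ := by
      apply pow_le_pow_right₀ h2
      obtain ⟨l, rfl⟩ : ∃ l, m = l + 2 := ⟨m - 2, by omega⟩
      have e1 : (l + 2) ^ 2 = l ^ 2 + 4 * l + 4 := by ring
      have e2 : (l + 2) * (l + 2 - 1) = l ^ 2 + 3 * l + 2 := by
        rw [show l + 2 - 1 = l + 1 by omega]; ring
      rw [e1, e2]
      omega

/-- The negation of the preceding statement: There are constants C, d such that for every n×k real Q with orthonormal columns (k<n), the k rows picked by greedy column-pivoted QR on Qᵀ (first index on ties) give a k×k block whose inverse has 2-norm at most C·n^d. -/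
theorem result :
    ¬ (∃ C : ℝ, ∃ d : ℕ, ∀ n k : ℕ, k < n →
      ∀ Q : Matrix (Fin n) (Fin k) ℝ, Qᵀ * Q = 1 →
      ∀ σ : Fin k → Fin n,
        (∀ j : Fin k, ∀ r : Fin n,
          Metric.infDist (WithLp.toLp 2 (Q r) : EuclideanSpace ℝ (Fin k))
              (Submodule.span ℝ
                ((fun i : Fin k => (WithLp.toLp 2 (Q (σ i)) : EuclideanSpace ℝ (Fin k))) ''
                  {i | i < j}) : Set (EuclideanSpace ℝ (Fin k)))
            ≤ Metric.infDist (WithLp.toLp 2 (Q (σ j)) : EuclideanSpace ℝ (Fin k))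
              (Submodule.span ℝ
                ((fun i : Fin k => (WithLp.toLp 2 (Q (σ i)) : EuclideanSpace ℝ (Fin k))) ''
                  {i | i < j}) : Set (EuclideanSpace ℝ (Fin k)))) →
        (∀ j : Fin k, ∀ r : Fin n, r < σ j →
          Metric.infDist (WithLp.toLp 2 (Q r) : EuclideanSpace ℝ (Fin k))
              (Submodule.span ℝ
                ((fun i : Fin k => (WithLp.toLp 2 (Q (σ i)) : EuclideanSpace ℝ (Fin k))) ''
                  {i | i < j}) : Set (EuclideanSpace ℝ (Fin k)))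
            < Metric.infDist (WithLp.toLp 2 (Q (σ j)) : EuclideanSpace ℝ (Fin k))
              (Submodule.span ℝ
                ((fun i : Fin k => (WithLp.toLp 2 (Q (σ i)) : EuclideanSpace ℝ (Fin k))) ''
                  {i | i < j}) : Set (EuclideanSpace ℝ (Fin k)))) →
        ∀ x : Fin k → ℝ,
          ‖(WithLp.toLp 2 x : EuclideanSpace ℝ (Fin k))‖ ≤
            C * (n : ℝ) ^ d *
              ‖(WithLp.toLp 2 ((Q.submatrix σ id) *ᵥ x) : EuclideanSpace ℝ (Fin k))‖) := by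
  rintro ⟨C, d, H⟩
  obtain ⟨m, hm2, hm⟩ := growth C d
  have hmr : (2 : ℝ) ≤ m := by exact_mod_cast hm2
  have hm0 : (0 : ℝ) < m := by linarith
  set c : ℝ := 1 / (m : ℝ) with hcdef
  have hc0 : 0 < c := by positivity
  have hc1 : c ≤ 1 / 2 := by
    rw [hcdef]; exact one_div_le_one_div_of_le (by norm_num) hmr
  have hcc : c ^ 2 ≤ 1 / 4 := by nlinarith
  set s : ℝ := Real.sqrt (1 - c ^ 2) with hsdef
  have hs2 : s ^ 2 = 1 - c ^ 2 := Real.sq_sqrt (by linarith)
  have hs : 0 < s := Real.sqrt_pos.2 (by linarith)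
  have hs1 : s ≤ 1 := by nlinarith
  have hcs : c ^ 2 + s ^ 2 = 1 := by linarith
  have hkc : ((m ^ 2 : ℕ) : ℝ) * c ^ 2 = 1 := by
    rw [hcdef]; push_cast; field_simp
  have hk4 : 4 ≤ m ^ 2 := by nlinarith
  obtain ⟨B, hB⟩ := exists_gram (Cm (m ^ 2) c s c) (Cm_psd hcs hkc.le)
  have hN : 0 < m ^ 6 := by positivity
  have hQ := Qm_orth (m ^ 6) hN B hB
  have hkn : m ^ 2 < m ^ 2 + m ^ 6 * m ^ 2 := by
    have : 0 < m ^ 6 * m ^ 2 := by positivity
    omega
  have hsp : ∀ j : Fin (m ^ 2), Submodule.span ℝ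
      ((fun i : Fin (m ^ 2) => (WithLp.toLp 2 (Qm (m ^ 2) (m ^ 6) c s c B
        (Fin.castAdd (m ^ 6 * m ^ 2) i)) : EuclideanSpace ℝ (Fin (m ^ 2)))) '' {i | i < j}) =
      sp (m ^ 2) c s c j := by
    intro j
    unfold sp
    simp only [Qm_left]
  have hL : ∀ j : Fin (m ^ 2), ((m ^ 2 : ℕ) : ℝ) / ((m ^ 6 : ℕ) : ℝ) ≤ (c * s ^ (j : ℕ)) ^ 2 := by
    intro j
    have e1 : (c * s ^ (j : ℕ)) ^ 2 = c ^ 2 * (s ^ 2) ^ (j : ℕ) := by rw [mul_pow, ← pow_mul, ← pow_mul, mul_comm (j : ℕ) 2]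
    have e2 : (s ^ 2) ^ (m ^ 2 - 1) ≤ (s ^ 2) ^ (j : ℕ) := by
      apply pow_le_pow_of_le_one (by positivity) (by nlinarith)
      have := j.2
      omega
    have e3 : c ^ 2 ≤ (s ^ 2) ^ (m ^ 2 - 1) := by
      have := one_add_mul_le_pow (a := -c ^ 2) (by linarith) (m ^ 2 - 1)
      have e4 : ((m ^ 2 - 1 : ℕ) : ℝ) = ((m ^ 2 : ℕ) : ℝ) - 1 := by
        rw [Nat.cast_sub (by omega)]; simp
      rw [e4] at this
      rw [hs2]
      have e5 : 1 + (((m ^ 2 : ℕ) : ℝ) - 1) * -c ^ 2 = c ^ 2 := by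
        linear_combination (-1) * hkc
      rw [e5] at this
      rw [sub_eq_add_neg]
      exact this
    have e6 : ((m ^ 2 : ℕ) : ℝ) / ((m ^ 6 : ℕ) : ℝ) = c ^ 2 * c ^ 2 := by
      rw [hcdef]; push_cast; field_simp
    rw [e1, e6]
    exact mul_le_mul_of_nonneg_left (e3.trans e2) (by positivity)
  have hx := H (m ^ 2 + m ^ 6 * m ^ 2) (m ^ 2) hkn (Qm (m ^ 2) (m ^ 6) c s c B) hQ
    (Fin.castAdd (m ^ 6 * m ^ 2)) (by
      intro j r
      rw [hsp j, Qm_left]
      refine le_trans ?_ (lower hs hc0 j)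
      induction r using Fin.addCases with
      | left r =>
        rw [Qm_left]
        rcases lt_or_ge r j with h | h
        · rw [zero_dist j r h]; positivity
        · exact upper hcs hs hc0 j r h
      | right t =>
        exact extra_dist (m ^ 6) hN B hB j t _ (by positivity) (hL j)) (by
      intro j r hr
      rw [hsp j, Qm_left]
      refine lt_of_lt_of_le ?_ (lower hs hc0 j)
      induction r using Fin.addCases with
      | left r =>
        rw [Qm_left]
        have h : r < j := by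
          rw [Fin.lt_def] at hr ⊢
          simpa using hr
        rw [zero_dist j r h]; positivity
      | right t =>
        exfalso
        rw [Fin.lt_def] at hr
        simp only [Fin.val_natAdd, Fin.val_castAdd] at hr
        have := j.2
        omega) (fun i => yv c i / s ^ (i : ℕ))
  have hMx : ((Qm (m ^ 2) (m ^ 6) c s c B).submatrix (Fin.castAdd (m ^ 6 * m ^ 2)) id) *ᵥ
      (fun i : Fin (m ^ 2) => yv c i / s ^ (i : ℕ)) = fun j : Fin (m ^ 2) => if (j : ℕ) = 0 then c else 0 := by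
    ext j
    rw [← apply_bad (c := c) (de := c) hs j]
    rw [mulVec, dotProduct]
    apply Finset.sum_congr rfl
    intro i _
    rw [submatrix_apply, Qm_left, id]
  have hnorm : ‖(WithLp.toLp 2 (fun j : Fin (m ^ 2) => if (j : ℕ) = 0 then c else 0) :
      EuclideanSpace ℝ (Fin (m ^ 2)))‖ = c := by
    have h1 : ‖(WithLp.toLp 2 (fun j : Fin (m ^ 2) => if (j : ℕ) = 0 then c else 0) :
      EuclideanSpace ℝ (Fin (m ^ 2)))‖ ^ 2 = c ^ 2 := by
      rw [EuclideanSpace.norm_sq_eq, Finset.sum_eq_single (⟨0, by omega⟩ : Fin (m ^ 2))]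
      · simp
      · intro b _ hb
        have : (b : ℕ) ≠ 0 := fun h => hb (Fin.ext h)
        simp [this]
      · intro h; exact absurd (Finset.mem_univ _) h
    exact (sq_eq_sq₀ (norm_nonneg _) hc0.le).1 h1
  rw [hMx, hnorm] at hx
  have h2 := PiLp.norm_apply_le (WithLp.toLp 2 (fun i : Fin (m ^ 2) => yv c i / s ^ (i : ℕ)) :
      EuclideanSpace ℝ (Fin (m ^ 2))) (⟨m ^ 2 - 1, by omega⟩ : Fin (m ^ 2))
  have h3 : c * (1 + c) ^ (m ^ 2 - 2) ≤ ‖(WithLp.toLp 2 (fun i : Fin (m ^ 2) =>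
      yv c i / s ^ (i : ℕ)) : EuclideanSpace ℝ (Fin (m ^ 2)))‖ := by
    refine le_trans ?_ h2
    change c * (1 + c) ^ (m ^ 2 - 2) ≤ ‖yv c (m ^ 2 - 1) / s ^ (m ^ 2 - 1)‖
    have e1 : yv c (m ^ 2 - 1) = c * (1 + c) ^ (m ^ 2 - 2) := by
      obtain ⟨l, hl⟩ : ∃ l, m ^ 2 = l + 2 := ⟨m ^ 2 - 2, by omega⟩
      rw [hl]
      rfl
    rw [e1, Real.norm_eq_abs, abs_of_nonneg (by positivity), le_div_iff₀ (by positivity)]
    have e2 : s ^ (m ^ 2 - 1) ≤ 1 := pow_le_one₀ hs.le hs1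
    have e3 : 0 ≤ c * (1 + c) ^ (m ^ 2 - 2) := by positivity
    nlinarith
  have h4 := pow_lower m hm2
  rw [← hcdef] at h4
  have h5 : c * (1 + c) ^ (m ^ 2 - 2) ≤ c * (C * (((m ^ 2 + m ^ 6 * m ^ 2 : ℕ)) : ℝ) ^ d) := by
    refine (h3.trans hx).trans (le_of_eq ?_)
    ring
  have h6 := le_of_mul_le_mul_left h5 hc0
  linarith

end Pool.Agent.S1524
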