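import Pool.Statements.S1536
import Pool.Agent.H9.Friedrichs

set_option autoImplicit false
open MeasureTheory
open Pool Pool.MP_7c5c90_an

namespace Pool.Agent.S1536

open Pool.Agent.H9.Friedrichs

noncomputable def F1 : List (ℝ × ℕ × ℕ) := [(2, 1, 1), (-3/5, 5, 1), (2, 3, 3), (-3/5, 1, 5)]
noncomputable def FL : List (ℝ × ℕ × ℕ) := [(4, 2, 2), (-12/5, 2, 6), (9/25, 2, 10), (8, 4, 4), (-12/5, 4, 8), (-12/5, 6, 2), (118/25, 6, 6), (-12/5, 8, 4), (9/25, 10, 2)]
noncomputable def LG : List (ℝ × ℕ × ℕ) := [(1, 0, 4), (-1/5, 0, 8), (1/100, 0, 12), (-2, 2, 2), (16/5, 2, 6), (-3/10, 2, 10), (1, 4, 0), (-6, 4, 4), (51/20, 4, 8), (16/5, 6, 2), (-113/25, 6, 6), (-1/5, 8, 0), (51/20, 8, 4), (-3/10, 10, 2), (1/100, 12, 0)]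

/-- The negation of the preceding statement: On the open square (−1,1)², every holomorphic w with square-integrable real part f and imaginary part g and ∫f=0 satisfies ∫f² ≤ (5/2)∫g², and f=2xy, g=y²−x² attain equality, so the best Friedrichs constant is 5/2. -/
theorem result :
    ¬ ((∀ w : ℂ → ℂ,
      DifferentiableOn ℂ w {z : ℂ | |z.re| < 1 ∧ |z.im| < 1} →
      IntegrableOn (fun z => (w z).re ^ 2) {z : ℂ | |z.re| < 1 ∧ |z.im| < 1} →
      IntegrableOn (fun z => (w z).im ^ 2) {z : ℂ | |z.re| < 1 ∧ |z.im| < 1} →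
      ∫ z in {z : ℂ | |z.re| < 1 ∧ |z.im| < 1}, (w z).re = 0 →
      ∫ z in {z : ℂ | |z.re| < 1 ∧ |z.im| < 1}, (w z).re ^ 2
        ≤ (5 / 2 : ℝ) * ∫ z in {z : ℂ | |z.re| < 1 ∧ |z.im| < 1}, (w z).im ^ 2) ∧
    (∫ z in {z : ℂ | |z.re| < 1 ∧ |z.im| < 1}, (2 * z.re * z.im) = 0 ∧
      ∫ z in {z : ℂ | |z.re| < 1 ∧ |z.im| < 1}, (2 * z.re * z.im) ^ 2
        = (5 / 2 : ℝ) * ∫ z in {z : ℂ | |z.re| < 1 ∧ |z.im| < 1}, (z.im ^ 2 - z.re ^ 2) ^ 2 ∧
      0 < ∫ z in {z : ℂ | |z.re| < 1 ∧ |z.im| < 1}, (z.im ^ 2 - z.re ^ 2) ^ 2)) := by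
  rintro ⟨h, _⟩
  set w : ℂ → ℂ := fun z => -Complex.I * (z^2 - (1/10) * z^6) with hw
  have hre : ∀ z : ℂ, (w z).re = 2 * z.re * z.im - (1/10) * (6 * z.re^5 * z.im -
      20 * z.re^3 * z.im^3 + 6 * z.re * z.im^5) := by
    intro z
    obtain ⟨x, y⟩ := z
    have e : w ⟨x, y⟩ = -Complex.I * (((x:ℂ) + y * Complex.I)^2 - (1/10) * ((x:ℂ) + y * Complex.I)^6) := by
      rw [hw]
      have : (⟨x, y⟩ : ℂ) = (x:ℂ) + y * Complex.I := Complex.mk_eq_add_mul_I x y
      rw [this]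
    have e2 : w ⟨x, y⟩ = (((2 * x * y - (1/10) * (6 * x^5 * y - 20 * x^3 * y^3 + 6 * x * y^5) : ℝ)) : ℂ) +
        ((-(x^2 - y^2) + (1/10) * (x^6 - 15 * x^4 * y^2 + 15 * x^2 * y^4 - y^6) : ℝ) : ℂ) * Complex.I := by
      rw [e]
      push_cast
      have hI2 : Complex.I^2 = -1 := Complex.I_sq
      have hI3 : Complex.I^3 = -Complex.I := by rw [pow_succ, hI2]; ring
      have hI4 : Complex.I^4 = 1 := by rw [show 4 = 2 * 2 by norm_num, pow_mul, hI2]; ring
      have hI5 : Complex.I^5 = Complex.I := by rw [pow_succ, hI4]; ring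
      have hI6 : Complex.I^6 = -1 := by rw [show 6 = 2 * 3 by norm_num, pow_mul, hI2]; ring
      have hI7 : Complex.I^7 = -Complex.I := by rw [pow_succ, hI6]; ring
      ring_nf
      simp only [hI2, hI3, hI4, hI5, hI6, hI7]
      ring
    rw [e2]
    simp only [Complex.add_re, Complex.ofReal_re, Complex.mul_re, Complex.ofReal_im, Complex.I_re,
      Complex.I_im]
    ring
  have him : ∀ z : ℂ, (w z).im = -(z.re^2 - z.im^2) + (1/10) * (z.re^6 - 15 * z.re^4 * z.im^2 +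
      15 * z.re^2 * z.im^4 - z.im^6) := by
    intro z
    obtain ⟨x, y⟩ := z
    have e : w ⟨x, y⟩ = -Complex.I * (((x:ℂ) + y * Complex.I)^2 - (1/10) * ((x:ℂ) + y * Complex.I)^6) := by
      rw [hw]
      have : (⟨x, y⟩ : ℂ) = (x:ℂ) + y * Complex.I := Complex.mk_eq_add_mul_I x y
      rw [this]
    have e2 : w ⟨x, y⟩ = (((2 * x * y - (1/10) * (6 * x^5 * y - 20 * x^3 * y^3 + 6 * x * y^5) : ℝ)) : ℂ) +
        ((-(x^2 - y^2) + (1/10) * (x^6 - 15 * x^4 * y^2 + 15 * x^2 * y^4 - y^6) : ℝ) : ℂ) * Complex.I := by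
      rw [e]
      push_cast
      have hI2 : Complex.I^2 = -1 := Complex.I_sq
      have hI3 : Complex.I^3 = -Complex.I := by rw [pow_succ, hI2]; ring
      have hI4 : Complex.I^4 = 1 := by rw [show 4 = 2 * 2 by norm_num, pow_mul, hI2]; ring
      have hI5 : Complex.I^5 = Complex.I := by rw [pow_succ, hI4]; ring
      have hI6 : Complex.I^6 = -1 := by rw [show 6 = 2 * 3 by norm_num, pow_mul, hI2]; ring
      have hI7 : Complex.I^7 = -Complex.I := by rw [pow_succ, hI6]; ring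
      ring_nf
      simp only [hI2, hI3, hI4, hI5, hI6, hI7]
      ring
    rw [e2]
    simp only [Complex.add_im, Complex.ofReal_im, Complex.mul_im, Complex.ofReal_re, Complex.I_re,
      Complex.I_im]
    ring
  have e0 : (fun z : ℂ => (w z).re) = fun z => ev F1 z.re z.im := by
    ext z; rw [hre]; simp only [ev, F1, List.map_cons, List.map_nil, List.sum_cons, List.sum_nil]; ring
  have e1 : (fun z : ℂ => (w z).re^2) = fun z => ev FL z.re z.im := by
    ext z; rw [hre]; simp only [ev, FL, List.map_cons, List.map_nil, List.sum_cons, List.sum_nil]; ring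
  have e2 : (fun z : ℂ => (w z).im^2) = fun z => ev LG z.re z.im := by
    ext z; rw [him]; simp only [ev, LG, List.map_cons, List.map_nil, List.sum_cons, List.sum_nil]; ring
  have hd : DifferentiableOn ℂ w {z : ℂ | |z.re| < 1 ∧ |z.im| < 1} := by
    apply Differentiable.differentiableOn
    rw [hw]; fun_prop
  have i1 : IntegrableOn (fun z => (w z).re ^ 2) {z : ℂ | |z.re| < 1 ∧ |z.im| < 1} := by
    rw [e1]; exact integrable_Sq _ (ev_cont _)
  have i2 : IntegrableOn (fun z => (w z).im ^ 2) {z : ℂ | |z.re| < 1 ∧ |z.im| < 1} := by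
    rw [e2]; exact integrable_Sq _ (ev_cont _)
  have v0 : ∫ z in {z : ℂ | |z.re| < 1 ∧ |z.im| < 1}, (w z).re = 0 := by
    rw [e0]
    refine (integ_ev _).trans ?_
    simp only [iv, F1, m, List.map_cons, List.map_nil, List.sum_cons, List.sum_nil]; norm_num
  have v1 : ∫ z in {z : ℂ | |z.re| < 1 ∧ |z.im| < 1}, (w z).re^2 = 53104/24255 := by
    rw [e1]
    refine (integ_ev _).trans ?_
    simp only [iv, FL, m, List.map_cons, List.map_nil, List.sum_cons, List.sum_nil]; norm_num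
  have v2 : ∫ z in {z : ℂ | |z.re| < 1 ∧ |z.im| < 1}, (w z).im^2 = 28384/35035 := by
    rw [e2]
    refine (integ_ev _).trans ?_
    simp only [iv, LG, m, List.map_cons, List.map_nil, List.sum_cons, List.sum_nil]; norm_num
  have := h w hd i1 i2 v0
  rw [v1, v2] at this
  norm_num at this

end Pool.Agent.S1536
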