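import Pool.Statements.S1578
import Pool.Agent.H27.WT2
-- import your own Pool.Agent.* helpers here

set_option autoImplicit false
open Pool Pool.MP_8a8b2f_an

namespace Pool.Agent.S1578

open MeasureTheory Filter Topology Set
open scoped ENNReal NNReal
open Pool.Agent.H27.WT

theorem S_norm (t : ℝ) (ht : 0 ≤ t) (f : H) : ‖S t f‖ ≤ (2 + t) * ‖f‖ := by
  have h1 : ‖mulOp χ 1 χ_meas χ_bd f‖ ≤ 1 * ‖f‖ := by
    apply Lp.norm_le_mul_norm_of_ae_le_mul
    filter_upwards [mulOp_coe χ 1 χ_meas χ_bd f] with s hs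
    rw [hs, norm_mul, Complex.norm_real, Real.norm_eq_abs]
    exact mul_le_mul_of_nonneg_right (χ_bd s) (norm_nonneg _)
  have h2 : ‖mulOp (n t) (1 + |t|) (n_meas t) (n_bd t) (τ (-t) f)‖ ≤ (1 + t) * ‖f‖ := by
    rw [← τ_norm (-t) f]
    apply Lp.norm_le_mul_norm_of_ae_le_mul
    filter_upwards [mulOp_coe (n t) (1 + |t|) (n_meas t) (n_bd t) (τ (-t) f)] with s hs
    rw [hs, norm_mul, Complex.norm_real, Real.norm_eq_abs]
    have := n_bd t s
    rw [abs_of_nonneg ht] at this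
    exact mul_le_mul_of_nonneg_right this (norm_nonneg _)
  calc ‖S t f‖ ≤ ‖mulOp χ 1 χ_meas χ_bd f‖ + ‖mulOp (n t) (1 + |t|) (n_meas t) (n_bd t) (τ (-t) f)‖ := norm_add_le _ _
    _ ≤ 1 * ‖f‖ + (1 + t) * ‖f‖ := add_le_add h1 h2
    _ = _ := by ring

theorem sq_real_le (a : ℝ) (ha : 0 < a) (R : ℝ) (hR : 0 ≤ R) (g : H) :
    ∫ r in (0 : ℝ)..R, Real.exp (-a * r) * ‖S r g‖ ^ 2 ≤ (2 / a) * ‖g‖ ^ 2 := by
  have hc : Continuous fun r => Real.exp (-a * r) * ‖S r g‖ ^ 2 := by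
    have := (S_cont (x := fun _ => g) continuous_const).norm
    fun_prop
  rw [intervalIntegral.integral_of_le hR]
  have hint : IntegrableOn (fun r => Real.exp (-a * r) * ‖S r g‖ ^ 2) (Ioc 0 R) :=
    hc.integrableOn_Ioc
  have h1 := ofReal_integral_eq_lintegral_ofReal hint (Eventually.of_forall fun r => by positivity)
  have h2 : ∫⁻ r in Ioc 0 R, ENNReal.ofReal (Real.exp (-a * r) * ‖S r g‖ ^ 2) ≤ ENNReal.ofReal (2 / a) * ‖g‖ₑ ^ 2 := by
    refine le_trans ?_ (sq_int_le a ha g)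
    refine le_trans ?_ (lintegral_mono_set (s := Ioc 0 R) (t := Ioi 0) (fun r hr => hr.1))
    apply lintegral_mono
    intro r
    simp only
    rw [ENNReal.ofReal_mul (Real.exp_pos _).le, ENNReal.ofReal_pow (norm_nonneg _), ofReal_norm]
  rw [← h1, ← ofReal_norm, ← ENNReal.ofReal_pow (norm_nonneg _), ← ENNReal.ofReal_mul (by positivity)] at h2
  exact (ENNReal.ofReal_le_ofReal_iff (by positivity)).1 h2

theorem exp_int_le (a : ℝ) (ha : 0 < a) (R : ℝ) : ∫ r in (0 : ℝ)..R, Real.exp (-a * r) ≤ 1 / a := by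
  have h1 : ∀ r ∈ uIcc 0 R, HasDerivAt (fun r : ℝ => -(Real.exp (-a * r)) / a) (Real.exp (-a * r)) r := by
    intro r _
    have := (((hasDerivAt_id r).const_mul (-a)).exp.neg).div_const a
    simp only [id] at this
    refine this.congr_deriv ?_
    field_simp
  rw [intervalIntegral.integral_eq_sub_of_hasDerivAt h1 (by apply Continuous.intervalIntegrable; fun_prop)]
  simp only [mul_zero, Real.exp_zero]
  have : 0 < Real.exp (-a * R) / a := by positivity
  have e : -(Real.exp (-a * R)) / a - -1 / a = 1 / a - Real.exp (-a * R) / a := by ring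
  rw [e]
  linarith

theorem lin_le (a : ℝ) (ha : 0 < a) (R : ℝ) (hR : 0 ≤ R) (g : H) :
    ∫ r in (0 : ℝ)..R, Real.exp (-a * r) * ‖S r g‖ ≤ (3 / (2 * a)) * ‖g‖ := by
  by_cases hg : g = 0
  · simp [hg]
  have hg' : 0 < ‖g‖ := norm_pos_iff.2 hg
  have hS := (S_cont (x := fun _ => g) continuous_const).norm
  have h1 : ∫ r in (0 : ℝ)..R, Real.exp (-a * r) * ‖S r g‖ ≤ 
      ∫ r in (0 : ℝ)..R, ((1 / (2 * ‖g‖)) * (Real.exp (-a * r) * ‖S r g‖ ^ 2) + (‖g‖ / 2) * Real.exp (-a * r)) := by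
    apply intervalIntegral.integral_mono_on hR
    · apply Continuous.intervalIntegrable; fun_prop
    · apply Continuous.intervalIntegrable; fun_prop
    · intro r _
      have h2 : ‖S r g‖ ≤ (1 / (2 * ‖g‖)) * ‖S r g‖ ^ 2 + ‖g‖ / 2 := by
        have h3 : 0 ≤ (‖S r g‖ - ‖g‖) ^ 2 / (2 * ‖g‖) := by positivity
        have h4 : (‖S r g‖ - ‖g‖) ^ 2 / (2 * ‖g‖) = (1 / (2 * ‖g‖)) * ‖S r g‖ ^ 2 + ‖g‖ / 2 - ‖S r g‖ := by
          field_simp
          ring
        linarith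
      calc Real.exp (-a * r) * ‖S r g‖ ≤ Real.exp (-a * r) * ((1 / (2 * ‖g‖)) * ‖S r g‖ ^ 2 + ‖g‖ / 2) := by gcongr
        _ = _ := by ring
  rw [intervalIntegral.integral_add, intervalIntegral.integral_const_mul, intervalIntegral.integral_const_mul] at h1
  · have h2 := sq_real_le a ha R hR g
    have h3 := exp_int_le a ha R
    calc _ ≤ _ := h1
      _ ≤ (1 / (2 * ‖g‖)) * ((2 / a) * ‖g‖ ^ 2) + (‖g‖ / 2) * (1 / a) := by gcongr
      _ = _ := by field_simp; ring
  · apply Continuous.intervalIntegrable; fun_prop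
  · apply Continuous.intervalIntegrable; fun_prop

/-- right derivative of the left inverse semigroup -/
theorem S_deriv (x y : H) 
    (h : Tendsto (fun h : ℝ => ((h : ℂ)⁻¹) • (T h x - x)) (nhdsWithin 0 (Set.Ioi 0)) (nhds y)) :
    HasDerivWithinAt (fun t : ℝ => S t x) (-y) (Ioi 0) 0 := by
  rw [hasDerivWithinAt_iff_tendsto_slope' (notMem_Ioi.2 le_rfl)]
  have h1 : Tendsto (fun t : ℝ => -(S t (((t : ℂ)⁻¹) • (T t x - x)))) (𝓝[>] 0) (𝓝 (-y)) := by
    apply Tendsto.neg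
    have h2 : Tendsto (fun t : ℝ => S t (((t : ℂ)⁻¹) • (T t x - x) - y)) (𝓝[>] 0) (𝓝 0) := by
      rw [tendsto_zero_iff_norm_tendsto_zero]
      have h3 : Tendsto (fun t : ℝ => (2 + t) * ‖((t : ℂ)⁻¹) • (T t x - x) - y‖) (𝓝[>] 0) (𝓝 0) := by
        have h4 : Tendsto (fun t : ℝ => 2 + t) (𝓝[>] 0) (𝓝 (2 + 0)) := 
          (tendsto_const_nhds.add tendsto_id).mono_left nhdsWithin_le_nhds
        have h5 : Tendsto (fun t : ℝ => ‖((t : ℂ)⁻¹) • (T t x - x) - y‖) (𝓝[>] 0) (𝓝 0) := 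
          tendsto_iff_norm_sub_tendsto_zero.1 h
        simpa using h4.mul h5
      refine squeeze_zero' (Eventually.of_forall fun t => norm_nonneg _) ?_ h3
      filter_upwards [self_mem_nhdsWithin] with t ht
      exact S_norm t (le_of_lt ht) _
    have h3 : Tendsto (fun t : ℝ => S t y) (𝓝[>] 0) (𝓝 y) := by
      have := (S_cont (x := fun _ => y) continuous_const).tendsto 0
      rw [S_zero] at this
      exact this.mono_left nhdsWithin_le_nhds
    have h4 := h2.add h3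
    rw [zero_add] at h4
    refine h4.congr fun t => ?_
    rw [← map_add, sub_add_cancel]
  refine h1.congr' ?_
  filter_upwards [self_mem_nhdsWithin] with t ht
  have ht' : (0 : ℝ) ≤ t := le_of_lt ht
  rw [slope_def_module, sub_zero, map_smul, map_sub, S_T t ht', S_zero]
  change -((t : ℂ)⁻¹ • (x - S t x)) = t⁻¹ • (S t x - x)
  rw [← smul_neg, neg_sub, ← Complex.ofReal_inv, Complex.coe_smul]
  rfl

theorem main_bound (x y : H) (μ : ℂ) (hμ : μ.re < 0)
    (h : Tendsto (fun h : ℝ => ((h : ℂ)⁻¹) • (T h x - x)) (nhdsWithin 0 (Set.Ioi 0)) (nhds y)) :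
    ‖x‖ ≤ (3 / (2 * (-μ.re))) * ‖μ • x - y‖ := by
  set a := -μ.re with ha
  have ha0 : 0 < a := by linarith
  set g := μ • x - y with hg
  let φ : ℝ → H := fun t => Complex.exp (μ * t) • S t x
  let φ' : ℝ → H := fun t => Complex.exp (μ * t) • S t g
  have hS0 := S_deriv x y h
  have hφ0 : HasDerivWithinAt φ g (Ioi 0) 0 := by
    have h1 : HasDerivAt (fun t : ℝ => Complex.exp (μ * t)) (Complex.exp (μ * (0 : ℝ)) * (μ * 1)) 0 := by
      have h2 : HasDerivAt (fun t : ℝ => (t : ℂ)) 1 0 := Complex.ofRealCLM.hasDerivAt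
      exact (h2.const_mul μ).cexp
    have h3 := h1.hasDerivWithinAt (s := Ioi 0) |>.smul hS0
    refine h3.congr_deriv ?_
    rw [S_zero]
    simp [hg]
    abel
  have hφ : ∀ t : ℝ, 0 ≤ t → HasDerivWithinAt φ (φ' t) (Ioi t) t := by
    intro t ht
    have h1 : HasDerivWithinAt (fun s => φ (s - t)) g (Ioi t) t := by
      have h2 : HasDerivWithinAt (fun s : ℝ => s - t) 1 (Ioi t) t := 
        ((hasDerivAt_id t).sub_const t).hasDerivWithinAt
      have h3 : HasDerivWithinAt φ g (Ioi 0) (t - t) := by rw [sub_self]; exact hφ0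
      have h4 := HasDerivWithinAt.scomp (h := fun s : ℝ => s - t) t h3 h2 (by
        intro s hs
        have : t < s := hs
        exact sub_pos.2 this)
      simpa [Function.comp_def] using h4
    have h2 : HasDerivWithinAt (fun s => Complex.exp (μ * t) • S t (φ (s - t))) (φ' t) (Ioi t) t := by
      have := ((Complex.exp (μ * t) • S t).restrictScalars ℝ).hasFDerivAt (x := φ (t - t)) |>.comp_hasDerivWithinAt t h1
      exact this
    refine h2.congr ?_ ?_
    · intro s hs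
      have hs' : t < s := hs
      change Complex.exp (μ * s) • S s x = Complex.exp (μ * t) • S t (Complex.exp (μ * (s - t : ℝ)) • S (s - t) x)
      rw [map_smul, smul_smul, ← Complex.exp_add]
      have e1 : S s x = S t (S (s - t) x) := by
        rw [← ContinuousLinearMap.comp_apply, ← S_add t (s - t) ht (by linarith)]
        congr 2
        ring
      rw [e1]
      congr 2
      push_cast
      ring
    · change Complex.exp (μ * t) • S t x = Complex.exp (μ * t) • S t (Complex.exp (μ * (t - t : ℝ)) • S (t - t) x)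
      rw [sub_self, S_zero]
      simp
  have hSx := S_cont (x := fun _ => x) continuous_const
  have hSg := S_cont (x := fun _ => g) continuous_const
  have hcexp : Continuous fun t : ℝ => Complex.exp (μ * t) := by fun_prop
  have hc : Continuous φ := hcexp.smul hSx
  have hc' : Continuous φ' := hcexp.smul hSg
  have hnorm : ∀ t : ℝ, ‖Complex.exp (μ * t)‖ = Real.exp (-a * t) := by
    intro t
    rw [Complex.norm_exp]
    congr 1
    simp [ha]
  have hbound : ∀ R : ℝ, 0 ≤ R → ‖x‖ ≤ Real.exp (-a * R) * ((2 + R) * ‖x‖) + (3 / (2 * a)) * ‖g‖ := by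
    intro R hR
    have h1 := intervalIntegral.integral_eq_sub_of_hasDeriv_right_of_le hR hc.continuousOn 
      (fun t ht => hφ t ht.1.le) (hc'.intervalIntegrable 0 R)
    have e0 : φ 0 = x := by
      change Complex.exp (μ * (0 : ℝ)) • S 0 x = x
      rw [S_zero]; simp
    have h2 : x = φ R - ∫ t in (0 : ℝ)..R, φ' t := by rw [h1, e0]; abel
    calc ‖x‖ = ‖φ R - ∫ t in (0 : ℝ)..R, φ' t‖ := by rw [← h2]
      _ ≤ ‖φ R‖ + ‖∫ t in (0 : ℝ)..R, φ' t‖ := norm_sub_le _ _
      _ ≤ Real.exp (-a * R) * ((2 + R) * ‖x‖) + ∫ t in (0 : ℝ)..R, Real.exp (-a * t) * ‖S t g‖ := by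
        apply add_le_add
        · change ‖Complex.exp (μ * R) • S R x‖ ≤ _
          rw [norm_smul, hnorm]
          have := S_norm R hR x
          gcongr
        · refine (intervalIntegral.norm_integral_le_integral_norm hR).trans (le_of_eq ?_)
          congr 1
          ext t
          change ‖Complex.exp (μ * t) • S t g‖ = _
          rw [norm_smul, hnorm]
      _ ≤ _ := by
        have := lin_le a ha0 R hR g
        linarith
  have hlim : Tendsto (fun R : ℝ => Real.exp (-a * R) * ((2 + R) * ‖x‖) + (3 / (2 * a)) * ‖g‖) atTop 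
      (𝓝 (0 + (3 / (2 * a)) * ‖g‖)) := by
    apply Tendsto.add_const
    have h1 := (Real.tendsto_pow_mul_exp_neg_atTop_nhds_zero 1).comp (tendsto_id.const_mul_atTop ha0)
    have h0 := (Real.tendsto_pow_mul_exp_neg_atTop_nhds_zero 0).comp (tendsto_id.const_mul_atTop ha0)
    have h2 := (h0.const_mul (2 * ‖x‖)).add (h1.const_mul (‖x‖ / a))
    rw [mul_zero, mul_zero, add_zero] at h2
    refine h2.congr fun R => ?_
    simp only [Function.comp_apply, id, pow_zero, pow_one, one_mul, neg_mul]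
    field_simp
  rw [zero_add] at hlim
  exact ge_of_tendsto hlim (by
    filter_upwards [eventually_ge_atTop 0] with R hR using hbound R hR)

/-- a test vector -/
noncomputable def x₀ : H := indicatorConstLp 2 (measurableSet_Ioo (a := (0 : ℝ)) (b := 1)) (by simp) (1 : ℂ)

theorem x₀_norm : ‖x₀‖ = 1 := by
  unfold x₀
  rw [norm_indicatorConstLp (by norm_num) (by norm_num)]
  simp

theorem T_x₀ (t : ℝ) (ht : 0 ≤ t) : ‖T t x₀‖ ≤ (q (t / 2))⁻¹ := by
  have hx : (x₀ : ℝ → ℂ) =ᵐ[volume] (Ioo (0 : ℝ) 1).indicator fun _ => 1 := indicatorConstLp_coeFn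
  have h1 : ‖mulOp χ 1 χ_meas χ_bd x₀‖ ≤ 0 * ‖x₀‖ := by
    apply Lp.norm_le_mul_norm_of_ae_le_mul
    filter_upwards [mulOp_coe χ 1 χ_meas χ_bd x₀, hx] with s hs h2
    rw [hs, h2]
    by_cases h3 : s ∈ Ioo (0 : ℝ) 1
    · have e : χ s = 0 := if_pos h3.1
      simp [e]
    · simp [indicator_of_notMem h3]
  have h2 : ‖mulOp (k t) 1 (k_meas t) (k_bd t) x₀‖ ≤ (q (t / 2))⁻¹ * ‖x₀‖ := by
    apply Lp.norm_le_mul_norm_of_ae_le_mul
    filter_upwards [mulOp_coe (k t) 1 (k_meas t) (k_bd t) x₀, hx] with s hs h2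
    rw [hs, h2]
    by_cases h3 : s ∈ Ioo (0 : ℝ) 1
    · have e : k t s = (q (|t| / (1 + s)))⁻¹ := if_pos h3.1
      rw [indicator_of_mem h3, e, norm_mul, Complex.norm_real, Real.norm_eq_abs, abs_of_nonneg ht]
      have h4 : 0 ≤ t / (1 + s) := div_nonneg ht (by linarith [h3.1])
      rw [abs_of_nonneg (inv_nonneg.2 (q_pos h4).le)]
      apply mul_le_mul_of_nonneg_right _ (norm_nonneg _)
      apply inv_anti₀ (q_pos (by positivity))
      apply q_mono
      apply div_le_div_of_nonneg_left ht (by linarith [h3.1]) (by linarith [h3.2])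
    · simp [indicator_of_notMem h3]
  calc ‖T t x₀‖ ≤ ‖mulOp χ 1 χ_meas χ_bd x₀‖ + ‖τ t (mulOp (k t) 1 (k_meas t) (k_bd t) x₀)‖ := norm_add_le _ _
    _ ≤ 0 * ‖x₀‖ + (q (t / 2))⁻¹ * ‖x₀‖ := by
      apply add_le_add h1
      rw [τ_norm]; exact h2
    _ = _ := by rw [x₀_norm]; ring

/-- The negation of the preceding statement: Take a strongly continuous contraction semigroup on a complex Hilbert space with generator A, and some m>0 with ‖(μ−A)x‖ ≥ m∣Re μ∣‖x‖ for all x in D(A) and Re μ<0. Then some m₁>0 gives ‖T(t)x‖ ≥ m₁‖x‖ for all t≥0 and all x. -/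
theorem result :
    ¬ (∀ (H : Type) [NormedAddCommGroup H] [InnerProductSpace ℂ H] [CompleteSpace H]
      (T : ℝ → H →L[ℂ] H),
      T 0 = ContinuousLinearMap.id ℂ H →
      (∀ s t : ℝ, 0 ≤ s → 0 ≤ t → T (s + t) = (T s).comp (T t)) →
      (∀ x : H, ContinuousOn (fun t : ℝ => T t x) (Set.Ici 0)) →
      (∀ t : ℝ, 0 ≤ t → ‖T t‖ ≤ 1) →
      ∀ m : ℝ, 0 < m →
      (∀ x y : H,
        Filter.Tendsto (fun h : ℝ => ((h : ℂ)⁻¹) • (T h x - x))
          (nhdsWithin 0 (Set.Ioi 0)) (nhds y) →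
        ∀ μ : ℂ, μ.re < 0 → m * |μ.re| * ‖x‖ ≤ ‖μ • x - y‖) →
      ∃ m₁ : ℝ, 0 < m₁ ∧ ∀ t : ℝ, 0 ≤ t → ∀ x : H, m₁ * ‖x‖ ≤ ‖T t x‖) := by
  intro hall
  obtain ⟨m₁, hm₁, hm⟩ := hall H T T_zero T_add (fun x => (T_cont x).continuousOn) T_norm (2 / 3) (by norm_num) (by
    intro x y h μ hμ
    have h1 := main_bound x y μ hμ h
    rw [abs_of_neg hμ]
    have h2 : 0 < -μ.re := by linarith
    have h3 : μ.re ≠ 0 := hμ.ne
    calc 2 / 3 * (-μ.re) * ‖x‖ ≤ 2 / 3 * (-μ.re) * ((3 / (2 * (-μ.re))) * ‖μ • x - y‖) := by gcongr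
      _ = ‖μ • x - y‖ := by field_simp)
  set M := m₁⁻¹ + 1 with hM
  have hMpos : 1 < M := by
    have : 0 < m₁⁻¹ := inv_pos.2 hm₁
    linarith
  have h1 := hm (2 * M ^ 4) (by positivity) x₀
  have h2 := T_x₀ (2 * M ^ 4) (by positivity)
  rw [x₀_norm, mul_one] at h1
  have h3 : M ≤ q (2 * M ^ 4 / 2) := by
    unfold q
    apply Real.le_sqrt_of_sq_le
    apply Real.le_sqrt_of_sq_le
    have : (M ^ 2) ^ 2 = M ^ 4 := by ring
    rw [this]
    linarith
  have h4 : (q (2 * M ^ 4 / 2))⁻¹ ≤ M⁻¹ := inv_anti₀ (by linarith) h3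
  have h5 : m₁ ≤ M⁻¹ := h1.trans (h2.trans h4)
  have h6 : M ≤ m₁⁻¹ := by
    rw [le_inv_comm₀ (by linarith) hm₁]
    exact h5
  linarith

end Pool.Agent.S1578
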