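import Pool.Statements.S1584
-- import your own Pool.Agent.* helpers here

set_option autoImplicit false
open Filter Topology
open Pool Pool.MP_8ba4a6_an

namespace Pool.Agent.S1584

/-- The counterexample. -/
noncomputable def F (x y : ℝ) : ℝ :=
  Real.exp ((Real.sin (Real.log y) - Real.sin (Real.log x)) / 2) / (x * y)

theorem F_eq {x y : ℝ} (hx : 0 < x) (hy : 0 < y) :
    F x y = Real.exp ((Real.sin (Real.log y) - Real.sin (Real.log x)) / 2
      - Real.log x - Real.log y) := by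
  unfold F
  rw [Real.exp_sub, Real.exp_sub, Real.exp_log hx, Real.exp_log hy]
  field_simp

theorem sin_factor (t : ℝ) (ht : |t| ≤ 1 / 2) :
    ∃ c : ℝ, 15 / 16 ≤ c ∧ c ≤ 1 ∧ Real.sin t = c * t := by
  have key : ∀ s : ℝ, 0 < s → s ≤ 1 / 2 → 15 / 16 * s ≤ Real.sin s ∧ Real.sin s ≤ 1 * s := by
    intro s hs hs2
    constructor
    · have := Real.sin_gt_sub_cube hs
      nlinarith [mul_pos hs hs, mul_pos hs (mul_pos hs hs)]
    · have := Real.sin_lt hs
      linarith
  rcases lt_trichotomy t 0 with h | h | h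
  · obtain ⟨h1, h2⟩ := key (-t) (by linarith) (by rw [abs_of_neg h] at ht; exact ht)
    rw [Real.sin_neg] at h1 h2
    refine ⟨Real.sin t / t, ?_, ?_, (div_mul_cancel₀ _ h.ne).symm⟩
    · rw [le_div_iff_of_neg h]; linarith
    · rw [div_le_iff_of_neg h]; linarith
  · subst h
    exact ⟨1, by norm_num, le_refl _, by simp⟩
  · obtain ⟨h1, h2⟩ := key t h (by rw [abs_of_pos h] at ht; exact ht)
    refine ⟨Real.sin t / t, ?_, ?_, (div_mul_cancel₀ _ h.ne').symm⟩
    · rw [le_div_iff₀ h]; linarith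
    · rw [div_le_iff₀ h]; linarith

/-- quadratic Lyapunov function -/
noncomputable def Q (v u : ℝ) : ℝ := u ^ 2 + u * v / 2 + v ^ 2 / 2

theorem Q_lower1 (v u : ℝ) : 7 / 8 * u ^ 2 ≤ Q v u := by
  unfold Q; nlinarith [sq_nonneg (v + u / 2)]

theorem Q_lower2 (v u : ℝ) : 7 / 16 * v ^ 2 ≤ Q v u := by
  unfold Q; nlinarith [sq_nonneg (u + v / 4)]

theorem Q_lower3 (v u : ℝ) : 39 / 100 * (u ^ 2 + v ^ 2) ≤ Q v u := by
  unfold Q; nlinarith [sq_nonneg (61 / 100 * u + v / 4), sq_nonneg v]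

theorem Q_step (v u a b : ℝ) (ha : 15 / 16 ≤ a) (ha1 : a ≤ 1) (hb : 15 / 16 ≤ b) (hb1 : b ≤ 1) :
    Q u ((b * v - a * u) / 2 - v) ≤ 3 / 4 * Q v u := by
  have e1 : (b * v - a * u) / 2 - v = -(u + v) / 2 + ((1 - a) * u - (1 - b) * v) / 2 := by ring
  set e := ((1 - a) * u - (1 - b) * v) / 2 with he
  have h1 : Q u (-(u + v) / 2 + e) = 1 / 2 * Q v u + (e * (-u / 2 - v) + e ^ 2) := by
    unfold Q; ring
  have he1 : |e| ≤ 1 / 32 * (|u| + |v|) := by
    rw [he, abs_div, abs_of_pos (show (0:ℝ) < 2 by norm_num)]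
    have : |(1 - a) * u - (1 - b) * v| ≤ 1 / 16 * |u| + 1 / 16 * |v| := by
      refine (abs_sub _ _).trans ?_
      rw [abs_mul, abs_mul, abs_of_nonneg (show 0 ≤ 1 - a by linarith),
        abs_of_nonneg (show 0 ≤ 1 - b by linarith)]
      have := abs_nonneg u
      have := abs_nonneg v
      nlinarith
    linarith
  have he2 : e ^ 2 ≤ 1 / 1024 * (|u| + |v|) ^ 2 := by
    have := abs_nonneg e
    have h3 : |e| ^ 2 ≤ (1 / 32 * (|u| + |v|)) ^ 2 := by gcongr
    rw [sq_abs] at h3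
    nlinarith
  have he3 : e * (-u / 2 - v) ≤ 1 / 32 * (|u| + |v|) * (|u| / 2 + |v|) := by
    refine (le_abs_self _).trans ?_
    rw [abs_mul]
    have : |-u / 2 - v| ≤ |u| / 2 + |v| := by
      refine (abs_sub _ _).trans ?_
      rw [abs_div, abs_neg, abs_of_pos (show (0:ℝ) < 2 by norm_num)]
    gcongr
  have hu : |u| ^ 2 = u ^ 2 := sq_abs u
  have hv : |v| ^ 2 = v ^ 2 := sq_abs v
  have h3 := Q_lower3 v u
  rw [e1, h1]
  nlinarith [sq_nonneg (|u| - |v|)]

section Dyn

variable {x : ℕ → ℝ} (h0 : 0 < x 0) (h1 : 0 < x 1)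
  (hr : ∀ n : ℕ, x (n + 2) = x (n + 1) * F (x (n + 1)) (x n))

include h0 h1 hr

theorem pos_all : ∀ n, 0 < x n ∧ 0 < x (n + 1) := by
  intro n
  induction n with
  | zero => exact ⟨h0, h1⟩
  | succ n ih =>
    refine ⟨ih.2, ?_⟩
    rw [hr n, F_eq ih.2 ih.1]
    exact mul_pos ih.2 (Real.exp_pos _)

theorem log_rec (n : ℕ) : Real.log (x (n + 2)) =
    (Real.sin (Real.log (x n)) - Real.sin (Real.log (x (n + 1)))) / 2 - Real.log (x n) := by
  obtain ⟨hp1, hp2⟩ := pos_all h0 h1 hr n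
  rw [hr n, F_eq hp2 hp1, Real.log_mul hp2.ne' (Real.exp_pos _).ne', Real.log_exp]
  ring

theorem decay (hq : Q (Real.log (x 0)) (Real.log (x 1)) ≤ 1 / 16) (n : ℕ) :
    Q (Real.log (x n)) (Real.log (x (n + 1))) ≤
      (3 / 4) ^ n * Q (Real.log (x 0)) (Real.log (x 1)) := by
  induction n with
  | zero => simp
  | succ n ih =>
    have hQ0 : 0 ≤ Q (Real.log (x 0)) (Real.log (x 1)) := by
      have := Q_lower1 (Real.log (x 0)) (Real.log (x 1)); nlinarith [sq_nonneg (Real.log (x 1))]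
    have hp : ((3:ℝ) / 4) ^ n ≤ 1 := pow_le_one₀ (by norm_num) (by norm_num)
    have hpos : 0 ≤ ((3:ℝ) / 4) ^ n := by positivity
    have hsmall : Q (Real.log (x n)) (Real.log (x (n + 1))) ≤ 1 / 16 := by nlinarith
    have hv := Q_lower2 (Real.log (x n)) (Real.log (x (n + 1)))
    have hu := Q_lower1 (Real.log (x n)) (Real.log (x (n + 1)))
    have hv2 : |Real.log (x n)| ≤ 1 / 2 := by
      apply abs_le_of_sq_le_sq _ (by norm_num)
      nlinarith
    have hu2 : |Real.log (x (n + 1))| ≤ 1 / 2 := by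
      apply abs_le_of_sq_le_sq _ (by norm_num)
      nlinarith
    obtain ⟨b, hb1, hb2, hb3⟩ := sin_factor _ hv2
    obtain ⟨a, ha1, ha2, ha3⟩ := sin_factor _ hu2
    have hs := Q_step (Real.log (x n)) (Real.log (x (n + 1))) a b ha1 ha2 hb1 hb2
    rw [show n + 1 + 1 = n + 2 by rfl, log_rec h0 h1 hr n, hb3, ha3]
    calc _ ≤ 3 / 4 * Q (Real.log (x n)) (Real.log (x (n + 1))) := hs
      _ ≤ 3 / 4 * ((3 / 4) ^ n * Q (Real.log (x 0)) (Real.log (x 1))) := by
          apply mul_le_mul_of_nonneg_left ih (by norm_num)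
      _ = _ := by ring

theorem sq_bound (hq : Q (Real.log (x 0)) (Real.log (x 1)) ≤ 1 / 16) (n : ℕ) :
    (Real.log (x n)) ^ 2 ≤ 16 / 7 * ((3 / 4) ^ n * Q (Real.log (x 0)) (Real.log (x 1))) := by
  have h := decay h0 h1 hr hq n
  have h2 := Q_lower2 (Real.log (x n)) (Real.log (x (n + 1)))
  linarith

end Dyn

/-- closeness of logs -/
theorem exists_delta (η : ℝ) (hη : 0 < η) : ∃ δ : ℝ, 0 < δ ∧
    ∀ a b : ℝ, 0 < a → 0 < b → |a - 1| + |b - 1| < δ →
      Q (Real.log a) (Real.log b) ≤ η := by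
  have hc : ContinuousAt (fun p : ℝ × ℝ => Q (Real.log p.1) (Real.log p.2)) (1, 1) := by
    have h1 : ContinuousAt (fun p : ℝ × ℝ => Real.log p.1) (1, 1) :=
      ContinuousAt.log continuousAt_fst (by norm_num)
    have h2 : ContinuousAt (fun p : ℝ × ℝ => Real.log p.2) (1, 1) :=
      ContinuousAt.log continuousAt_snd (by norm_num)
    unfold Q
    exact ((h2.pow 2).add ((h2.mul h1).div_const 2)).add ((h1.pow 2).div_const 2)
  rw [Metric.continuousAt_iff] at hc
  obtain ⟨δ, hδ, h⟩ := hc η hη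
  refine ⟨δ, hδ, ?_⟩
  intro a b ha hb hab
  have h3 := @h (a, b) (by
    rw [Prod.dist_eq, Real.dist_eq, Real.dist_eq]
    exact max_lt (lt_of_le_of_lt (le_add_of_nonneg_right (abs_nonneg _)) hab)
      (lt_of_le_of_lt (le_add_of_nonneg_left (abs_nonneg _)) hab))
  simp only [Real.log_one] at h3
  rw [Real.dist_eq] at h3
  have h4 := (abs_lt.mp h3).2
  have : Q 0 0 = 0 := by unfold Q; norm_num
  rw [this] at h4
  linarith

/-- the period-four orbit -/
noncomputable def orb : ℕ → ℝ := fun n => if n % 4 < 2 then Real.exp Real.pi else Real.exp (-Real.pi)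

theorem orb_pos (n : ℕ) : 0 < orb n := by
  unfold orb; split_ifs <;> exact Real.exp_pos _

theorem orb_rec (n : ℕ) : orb (n + 2) = orb (n + 1) * F (orb (n + 1)) (orb n) := by
  have hs : ∀ m, Real.sin (Real.log (orb m)) = 0 := by
    intro m
    unfold orb; split_ifs <;> simp
  rw [F_eq (orb_pos _) (orb_pos _), hs, hs]
  have : orb (n + 1) = Real.exp (Real.log (orb (n + 1))) := (Real.exp_log (orb_pos _)).symm
  conv_rhs => rw [show orb (n + 1) * Real.exp ((0 - 0) / 2 - Real.log (orb (n + 1)) - Real.log (orb n))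
    = Real.exp (Real.log (orb (n + 1))) * Real.exp ((0 - 0) / 2 - Real.log (orb (n + 1)) - Real.log (orb n)) by rw [← this]]
  rw [← Real.exp_add]
  have h2 : Real.log (orb (n + 1)) + ((0 - 0) / 2 - Real.log (orb (n + 1)) - Real.log (orb n))
      = - Real.log (orb n) := by ring
  rw [h2]
  unfold orb
  have : n % 4 < 4 := Nat.mod_lt _ (by norm_num)
  by_cases h : n % 4 < 2
  · have h3 : ¬ ((n + 2) % 4 < 2) := by omega
    simp [h, h3]
  · have h3 : ((n + 2) % 4 < 2) := by omega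
    simp [h, h3]


/-- The negation of the preceding statement: If f>0 is continuous on the positive quadrant, nonincreasing in x, strictly decreasing in y, x·f(x,x) strictly decreasing, and the unique positive equilibrium of x_{n+1}=x_n f(x_n,x_{n-1}) is locally asymptotically stable, then every positive solution converges to it. -/
theorem result :
    ¬ (∀ (f : ℝ → ℝ → ℝ) (xbar : ℝ),
      ContinuousOn (fun p : ℝ × ℝ => f p.1 p.2) (Set.Ioi (0:ℝ) ×ˢ Set.Ioi (0:ℝ)) →
      (∀ x y : ℝ, 0 < x → 0 < y → 0 < f x y) →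
      (∀ x₁ x₂ y : ℝ, 0 < x₁ → x₁ ≤ x₂ → 0 < y → f x₂ y ≤ f x₁ y) →
      (∀ x y₁ y₂ : ℝ, 0 < x → 0 < y₁ → y₁ < y₂ → f x y₂ < f x y₁) →
      (∀ x₁ x₂ : ℝ, 0 < x₁ → x₁ < x₂ → x₂ * f x₂ x₂ < x₁ * f x₁ x₁) →
      0 < xbar →
      f xbar xbar = 1 →
      (∀ y : ℝ, 0 < y → f y y = 1 → y = xbar) →
      (∀ ε : ℝ, 0 < ε → ∃ δ : ℝ, 0 < δ ∧
        ∀ x : ℕ → ℝ, 0 < x 0 → 0 < x 1 →
          (∀ n : ℕ, x (n + 2) = x (n + 1) * f (x (n + 1)) (x n)) →
          |x 0 - xbar| + |x 1 - xbar| < δ →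
          ∀ n : ℕ, |x n - xbar| < ε) →
      (∃ γ : ℝ, 0 < γ ∧
        ∀ x : ℕ → ℝ, 0 < x 0 → 0 < x 1 →
          (∀ n : ℕ, x (n + 2) = x (n + 1) * f (x (n + 1)) (x n)) →
          |x 0 - xbar| + |x 1 - xbar| < γ →
          Tendsto x atTop (𝓝 xbar)) →
      ∀ x : ℕ → ℝ, 0 < x 0 → 0 < x 1 →
        (∀ n : ℕ, x (n + 2) = x (n + 1) * f (x (n + 1)) (x n)) →
        Tendsto x atTop (𝓝 xbar)) := by
  intro H
  have hconv := H F 1 ?_ ?_ ?_ ?_ ?_ one_pos ?_ ?_ ?_ ?_ orb (orb_pos 0) (orb_pos 1) orb_rec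
  · -- the periodic orbit does not converge to 1
    have h4 : Tendsto (fun k : ℕ => orb (4 * k)) atTop (𝓝 1) := by
      refine hconv.comp ?_
      exact tendsto_id.const_mul_atTop' (by norm_num)
    have h5 : (fun k : ℕ => orb (4 * k)) = fun _ => Real.exp Real.pi := by
      funext k
      unfold orb
      simp
    rw [h5] at h4
    have h6 := tendsto_nhds_unique h4 tendsto_const_nhds
    have h7 : Real.exp Real.pi > 1 := Real.one_lt_exp_iff.mpr Real.pi_pos
    linarith
  · -- continuity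
    unfold F
    apply ContinuousOn.div
    · apply Real.continuous_exp.comp_continuousOn
      apply ContinuousOn.div_const
      apply ContinuousOn.sub
      · apply Real.continuous_sin.comp_continuousOn
        apply ContinuousOn.log continuousOn_snd
        rintro ⟨a, b⟩ ⟨_, hb⟩
        exact (ne_of_gt hb)
      · apply Real.continuous_sin.comp_continuousOn
        apply ContinuousOn.log continuousOn_fst
        rintro ⟨a, b⟩ ⟨ha, _⟩
        exact (ne_of_gt ha)
    · exact continuousOn_fst.mul continuousOn_snd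
    · rintro ⟨a, b⟩ ⟨ha, hb⟩
      exact mul_ne_zero (ne_of_gt ha) (ne_of_gt hb)
  · intro x y hx hy
    rw [F_eq hx hy]; exact Real.exp_pos _
  · intro x₁ x₂ y hx₁ hx hy
    rw [F_eq hx₁ hy, F_eq (lt_of_lt_of_le hx₁ hx) hy]
    apply Real.exp_le_exp.mpr
    have hl := Real.log_le_log hx₁ hx
    have hs := Real.abs_sin_sub_sin_le (Real.log x₁) (Real.log x₂)
    have hs2 := (le_abs_self _).trans hs
    rw [abs_of_nonpos (by linarith)] at hs2
    linarith
  · intro x y₁ y₂ hx hy₁ hy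
    rw [F_eq hx hy₁, F_eq hx (hy₁.trans hy)]
    apply Real.exp_lt_exp.mpr
    have hl := Real.log_lt_log hy₁ hy
    have hs := Real.abs_sin_sub_sin_le (Real.log y₂) (Real.log y₁)
    have hs2 := (le_abs_self _).trans hs
    rw [abs_of_nonneg (by linarith)] at hs2
    linarith
  · intro x₁ x₂ hx₁ hx
    have h : ∀ x : ℝ, 0 < x → x * F x x = 1 / x := by
      intro x hx
      unfold F
      rw [sub_self, zero_div, Real.exp_zero]
      field_simp
    rw [h x₁ hx₁, h x₂ (hx₁.trans hx)]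
    exact one_div_lt_one_div_of_lt hx₁ hx
  · unfold F; simp
  · intro y hy h
    unfold F at h
    rw [sub_self, zero_div, Real.exp_zero] at h
    have h2 : y * y = 1 := by
      field_simp at h
      nlinarith
    nlinarith
  · -- stability
    intro ε hε
    have hc : ContinuousAt Real.exp 0 := Real.continuous_exp.continuousAt
    rw [Metric.continuousAt_iff] at hc
    obtain ⟨ρ, hρ, hρ2⟩ := hc ε hε
    obtain ⟨δ, hδ, hδ2⟩ := exists_delta (min (1 / 16) (7 / 16 * (ρ / 2) ^ 2)) (by positivity)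
    refine ⟨δ, hδ, ?_⟩
    intro x h0 h1 hr hx n
    have hq := hδ2 _ _ h0 h1 hx
    have hb := sq_bound h0 h1 hr (hq.trans (min_le_left _ _)) n
    have hq2 := hq.trans (min_le_right _ _)
    have hQ0 : 0 ≤ Q (Real.log (x 0)) (Real.log (x 1)) := by
      have := Q_lower1 (Real.log (x 0)) (Real.log (x 1)); nlinarith [sq_nonneg (Real.log (x 1))]
    have hp : ((3:ℝ) / 4) ^ n ≤ 1 := pow_le_one₀ (by norm_num) (by norm_num)
    have hpos : 0 ≤ ((3:ℝ) / 4) ^ n := by positivity
    have h5 : |Real.log (x n)| ≤ ρ / 2 := by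
      apply abs_le_of_sq_le_sq _ (by positivity)
      nlinarith
    have h6 := @hρ2 (Real.log (x n)) (by rw [Real.dist_eq, sub_zero]; linarith)
    rw [Real.exp_log (pos_all h0 h1 hr n).1, Real.exp_zero, Real.dist_eq] at h6
    exact h6
  · -- attraction
    obtain ⟨γ, hγ, hγ2⟩ := exists_delta (1 / 16) (by norm_num)
    refine ⟨γ, hγ, ?_⟩
    intro x h0 h1 hr hx
    have hq := hγ2 _ _ h0 h1 hx
    have hb := sq_bound h0 h1 hr hq
    have hlim : Tendsto (fun n : ℕ => 16 / 7 * ((3 / 4 : ℝ) ^ n * Q (Real.log (x 0)) (Real.log (x 1))))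
        atTop (𝓝 0) := by
      have := tendsto_pow_atTop_nhds_zero_of_lt_one (r := (3 / 4 : ℝ)) (by norm_num) (by norm_num)
      have := (this.mul_const (Q (Real.log (x 0)) (Real.log (x 1)))).const_mul (16 / 7 : ℝ)
      simpa using this
    have hsq : Tendsto (fun n => (Real.log (x n)) ^ 2) atTop (𝓝 0) :=
      squeeze_zero (fun n => sq_nonneg _) hb hlim
    have habs : Tendsto (fun n => |Real.log (x n)|) atTop (𝓝 0) := by
      have := (Real.continuous_sqrt.tendsto 0).comp hsq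
      simp only [Real.sqrt_zero] at this
      refine this.congr ?_
      intro n
      simp [Function.comp, Real.sqrt_sq_eq_abs]
    have hl : Tendsto (fun n => Real.log (x n)) atTop (𝓝 0) :=
      (tendsto_zero_iff_abs_tendsto_zero _).mpr habs
    have he := (Real.continuous_exp.tendsto 0).comp hl
    rw [Real.exp_zero] at he
    refine he.congr ?_
    intro n
    simp [Function.comp, Real.exp_log (pos_all h0 h1 hr n).1]

end Pool.Agent.S1584
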