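import Mathlib
import Pool.Statements.S1590

set_option autoImplicit false
open Pool Pool.MP_8cad90_an
open Filter Topology
open scoped ENNReal RealInnerProductSpace

namespace Pool.Agent.S1590

noncomputable section


/-- cubic expansion bound in an inner product space -/
theorem cube_bound {V : Type*} [NormedAddCommGroup V] [InnerProductSpace ℝ V] (p q : V) (a : ℝ)
    (ha : |a| ≤ 1) :
    ‖p + a • q‖ ^ 3 ≤ ‖p‖ ^ 3 + 3 * a * (‖p‖ * ⟪p, q⟫) + a ^ 2 * (‖q‖ ^ 2 * (3 * ‖p‖ + ‖q‖)) := by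
  set s := ‖p + a • q‖ with hs
  set r := ‖p‖ with hr
  have h2 : s ^ 2 = r ^ 2 + 2 * (a * ⟪p, q⟫) + a ^ 2 * ‖q‖ ^ 2 := by
    rw [hs, norm_add_sq_real, inner_smul_right, norm_smul]
    simp only [Real.norm_eq_abs, mul_pow, sq_abs]
    ring
  have h3 : |s - r| ≤ |a| * ‖q‖ := by
    have := abs_norm_sub_norm_le (p + a • q) p
    simpa [norm_smul] using this
  have hs0 : 0 ≤ s := norm_nonneg _
  have hr0 : 0 ≤ r := norm_nonneg _
  have hq0 : 0 ≤ ‖q‖ := norm_nonneg _
  have h4 : s ≤ r + ‖q‖ := by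
    have := (abs_le.1 h3).2
    nlinarith
  have h5 : (s - r) ^ 2 ≤ a ^ 2 * ‖q‖ ^ 2 := by
    have := abs_nonneg (s - r)
    calc (s - r) ^ 2 = |s - r| ^ 2 := (sq_abs _).symm
      _ ≤ (|a| * ‖q‖) ^ 2 := by gcongr
      _ = a ^ 2 * ‖q‖ ^ 2 := by rw [mul_pow, sq_abs]
  have h6 : s ^ 3 = r ^ 3 + (3/2) * r * (s ^ 2 - r ^ 2) + (s - r) ^ 2 * (s + r / 2) := by ring
  have h7 : (s - r) ^ 2 * (s + r / 2) ≤ a ^ 2 * ‖q‖ ^ 2 * (r + ‖q‖ + r / 2) := by
    have : 0 ≤ a ^ 2 * ‖q‖ ^ 2 := by positivity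
    gcongr
  rw [h6, h2]
  nlinarith

/-- from a two-sided linear condition with quadratic error to a vanishing coefficient -/
theorem lin_zero (H M : ℝ) (hM : 0 ≤ M)
    (h : ∀ a : ℝ, |a| ≤ 1 → 0 ≤ 3 * a * H + a ^ 2 * M) : H = 0 := by
  by_contra hne
  have hK : 0 < M + |H| + 1 := by positivity
  have hH : 0 < |H| := abs_pos.2 hne
  have h1 := h (-H / (M + |H| + 1)) (by
    rw [abs_div, abs_neg, abs_of_pos hK, div_le_one hK]
    linarith)
  have h2 : 3 * (-H / (M + |H| + 1)) * H + (-H / (M + |H| + 1)) ^ 2 * M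
      = H ^ 2 * (M - 3 * (M + |H| + 1)) / (M + |H| + 1) ^ 2 := by
    field_simp
    ring
  rw [h2] at h1
  have h3 : 0 < H ^ 2 := by positivity
  have h4 : H ^ 2 * (M - 3 * (M + |H| + 1)) < 0 := by
    apply mul_neg_of_pos_of_neg h3
    linarith
  have h5 : H ^ 2 * (M - 3 * (M + |H| + 1)) / (M + |H| + 1) ^ 2 < 0 :=
    div_neg_of_neg_of_pos h4 (by positivity)
  linarith

instance fact3 : Fact ((1 : ℝ≥0∞) ≤ 3) := ⟨by norm_num⟩

abbrev H2 : Type := lp (fun _ : ℕ => ℝ) 2
abbrev L3 : Type := lp (fun _ : ℕ => ℝ) 3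
abbrev X : Type := WithLp 3 (H2 × L3)

theorem snd_apply (y x : X) (a : ℝ) (k : ℕ) :
    (y + a • x).snd k = y.snd k + a * x.snd k := by
  have : (y + a • x).snd = y.snd + a • x.snd := by simp
  rw [this]
  rfl

theorem norm_cube (y : X) : ‖y‖ ^ 3 = ‖y.fst‖ ^ 3 + ∑' k, |y.snd k| ^ 3 := by
  have h3 : (3 : ℝ≥0∞).toReal = 3 := by simp
  have h := WithLp.prod_norm_eq_of_nat (p := 3) 3 (by norm_num) y
  have h' := lp.norm_rpow_eq_tsum (p := 3) (by rw [h3]; norm_num) y.snd
  rw [h3] at h'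
  rw [h, ← Real.rpow_natCast, ← Real.rpow_mul (by positivity)]
  simp only [Nat.cast_ofNat]
  norm_num
  norm_cast at h'

theorem summable3 (y : L3) : Summable fun k => |y k| ^ 3 := by
  have h3 : (3 : ℝ≥0∞).toReal = 3 := by simp
  have h := (lp.memℓp y).summable (by rw [h3]; norm_num)
  rw [h3] at h
  norm_cast at h


theorem sum_mul1 (y x : L3) : Summable fun k => |y k| * y k * x k := by
  refine Summable.of_norm_bounded ((summable3 y).add (summable3 x)) fun k => ?_
  rw [Real.norm_eq_abs, abs_mul, abs_mul, abs_abs]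
  rcases le_total (|y k|) (|x k|) with h | h
  · have h1 : |y k| * |y k| * |x k| ≤ |x k| * |x k| * |x k| := by gcongr
    have := pow_nonneg (abs_nonneg (y k)) 3
    nlinarith
  · have h1 : |y k| * |y k| * |x k| ≤ |y k| * |y k| * |y k| := by gcongr
    have := pow_nonneg (abs_nonneg (x k)) 3
    nlinarith

theorem sum_mul2 (y x : L3) : Summable fun k => |x k| ^ 2 * (3 * |y k| + |x k|) := by
  refine Summable.of_nonneg_of_le (fun k => by positivity) (fun k => ?_)
    (((summable3 y).mul_left 3).add ((summable3 x).mul_left 4))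
  rcases le_total (|y k|) (|x k|) with h | h
  · have h1 : |x k| ^ 2 * |y k| ≤ |x k| ^ 2 * |x k| := by gcongr
    have := pow_nonneg (abs_nonneg (y k)) 3
    nlinarith
  · have h1 : |x k| ^ 2 * |y k| ≤ |y k| ^ 2 * |y k| := by gcongr
    have := pow_nonneg (abs_nonneg (x k)) 3
    nlinarith

/-- the derivative form -/
def HH (y x : X) : ℝ := ‖y.fst‖ * ⟪y.fst, x.fst⟫ + ∑' k, |y.snd k| * y.snd k * x.snd k

theorem HH_zero (y x : X) (h : ∀ a : ℝ, ‖y‖ ≤ ‖y + a • x‖) : HH y x = 0 := by
  apply lin_zero (HH y x) (‖x.fst‖ ^ 2 * (3 * ‖y.fst‖ + ‖x.fst‖) +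
    ∑' k, |x.snd k| ^ 2 * (3 * |y.snd k| + |x.snd k|))
  · have : 0 ≤ ∑' k, |x.snd k| ^ 2 * (3 * |y.snd k| + |x.snd k|) :=
      tsum_nonneg fun k => by positivity
    positivity
  · intro a ha
    have h1 : ‖y‖ ^ 3 ≤ ‖y + a • x‖ ^ 3 := by
      have := h a
      gcongr
    rw [norm_cube, norm_cube] at h1
    have h2 := cube_bound y.fst x.fst a ha
    have h3 : ∀ k, |(y + a • x).snd k| ^ 3 ≤ |y.snd k| ^ 3 + 3 * a * (|y.snd k| * y.snd k * x.snd k)
        + a ^ 2 * (|x.snd k| ^ 2 * (3 * |y.snd k| + |x.snd k|)) := by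
      intro k
      have := cube_bound (y.snd k) (x.snd k) a ha
      simp only [Real.norm_eq_abs, smul_eq_mul] at this
      have e := snd_apply y x a k
      have e2 : ⟪y.snd k, x.snd k⟫ = y.snd k * x.snd k := by
        simp [mul_comm]
      rw [e2] at this
      rw [e]
      linarith [this]
    have s1 := summable3 y.snd
    have s2 := (sum_mul1 y.snd x.snd).mul_left (3 * a)
    have s3 := (sum_mul2 y.snd x.snd).mul_left (a ^ 2)
    have h4 := Summable.tsum_le_tsum h3 (summable3 (y + a • x).snd) ((s1.add s2).add s3)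
    rw [(s1.add s2).tsum_add s3, s1.tsum_add s2, tsum_mul_left, tsum_mul_left] at h4
    have e : (y + a • x).fst = y.fst + a • x.fst := by simp
    rw [e] at h1
    unfold HH
    linarith

/-- the local analysis at the kernel line of one functional -/
theorem local_zero (u h x : X) (k : ℕ) (hk : u.snd k = 0) (horth : ⟪u.fst, h.fst⟫ = 0)
    (hu : u.fst ≠ 0) (δ : ℝ) (hδ : 0 < δ) (hiso : ∀ j, j ≠ k → δ * |h.snd j| ≤ |u.snd j|)
    (hz : ∀ t : ℝ, HH (u + t • h) x = 0) : |h.snd k| * h.snd k * x.snd k = 0 := by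
  set C := |h.snd k| * h.snd k * x.snd k with hC
  set b1 := ⟪h.fst, x.fst⟫ with hb1
  set D := ∑' j, |u.snd j| * h.snd j * x.snd j with hD
  set μ := ‖u.fst‖ with hμ
  have hμ0 : 0 < μ := norm_pos_iff.2 hu
  set s : ℝ → ℝ := fun t => ‖(u + t • h).fst‖ with hs
  have hs2 : ∀ t, s t ^ 2 = μ ^ 2 + t ^ 2 * ‖h.fst‖ ^ 2 := by
    intro t
    have e : (u + t • h).fst = u.fst + t • h.fst := by simp
    simp only [hs]
    rw [e, norm_add_sq_real, inner_smul_right, horth, norm_smul]
    simp only [Real.norm_eq_abs, mul_pow, sq_abs]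
    ring
  have hs0 : ∀ t, 0 ≤ s t := fun t => norm_nonneg _
  have hsneg : ∀ t, s (-t) = s t := by
    intro t
    have h1 := hs2 t
    have h2 := hs2 (-t)
    rw [neg_sq, ← h1] at h2
    exact (sq_eq_sq₀ (hs0 _) (hs0 _)).1 h2
  have hsμ : ∀ t, μ ≤ s t := by
    intro t
    have h1 := hs2 t
    have : 0 ≤ t ^ 2 * ‖h.fst‖ ^ 2 := by positivity
    nlinarith [hs0 t]
  -- termwise identity
  have hterm : ∀ t : ℝ, 0 < t → t ≤ δ → ∀ j,
      |(u + t • h).snd j| * (u + t • h).snd j * x.snd j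
        - |(u + (-t) • h).snd j| * (u + (-t) • h).snd j * x.snd j
        = 4 * t * (|u.snd j| * h.snd j * x.snd j) + (if j = k then 2 * t ^ 2 * C else 0) := by
    intro t ht htδ j
    have e1 := snd_apply u h t j
    have e2 : (u + (-t) • h).snd j = u.snd j - t * h.snd j := by
      rw [snd_apply]
      ring
    rw [e1, e2]
    by_cases hj : j = k
    · subst hj
      rw [hk, if_pos rfl, hC]
      simp only [zero_add, zero_sub, abs_neg, abs_mul, abs_of_pos ht, abs_zero]
      ring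
    · rw [if_neg hj]
      have h1 := hiso j hj
      have h2 : t * |h.snd j| ≤ |u.snd j| := by
        have := abs_nonneg (h.snd j)
        nlinarith
      have h3 := neg_abs_le (h.snd j)
      have h4 := le_abs_self (h.snd j)
      rcases le_total 0 (u.snd j) with hu0 | hu0
      · rw [abs_of_nonneg hu0] at h2 ⊢
        rw [abs_of_nonneg (show 0 ≤ u.snd j + t * h.snd j by nlinarith),
          abs_of_nonneg (show 0 ≤ u.snd j - t * h.snd j by nlinarith)]
        ring
      · rw [abs_of_nonpos hu0] at h2 ⊢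
        rw [abs_of_nonpos (show u.snd j + t * h.snd j ≤ 0 by nlinarith),
          abs_of_nonpos (show u.snd j - t * h.snd j ≤ 0 by nlinarith)]
        ring
  -- main equation
  have heq : ∀ t : ℝ, 0 < t → t ≤ δ → s t * b1 + 2 * D + t * C = 0 := by
    intro t ht htδ
    have z1 := hz t
    have z2 := hz (-t)
    unfold HH at z1 z2
    have sm1 := sum_mul1 (u + t • h).snd x.snd
    have sm2 := sum_mul1 (u + (-t) • h).snd x.snd
    have sm3 := sum_mul1 u.snd h.snd
    have hsumD : Summable fun j => |u.snd j| * h.snd j * x.snd j := by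
      have h1 : ∀ j, |u.snd j| * h.snd j * x.snd j =
        (4 * t)⁻¹ * ((|(u + t • h).snd j| * (u + t • h).snd j * x.snd j
        - |(u + (-t) • h).snd j| * (u + (-t) • h).snd j * x.snd j)
          - (if j = k then 2 * t ^ 2 * C else 0)) := by
        intro j
        rw [hterm t ht htδ j]
        field_simp
        ring
      rw [show (fun j => |u.snd j| * h.snd j * x.snd j) = _ from funext h1]
      apply Summable.mul_left
      apply Summable.sub (sm1.sub sm2)
      exact summable_of_ne_finset_zero (s := {k}) (fun j hj => by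
        rw [if_neg]; simpa using hj)
    have hdiff : (∑' j, |(u + t • h).snd j| * (u + t • h).snd j * x.snd j)
        - (∑' j, |(u + (-t) • h).snd j| * (u + (-t) • h).snd j * x.snd j)
        = 4 * t * D + 2 * t ^ 2 * C := by
      rw [← sm1.tsum_sub sm2]
      rw [tsum_congr (hterm t ht htδ)]
      rw [(hsumD.mul_left (4 * t)).tsum_add, tsum_mul_left, tsum_ite_eq]
      exact summable_of_ne_finset_zero (s := {k}) (fun j hj => by
        rw [if_neg]; simpa using hj)
    have e1 : ⟪(u + t • h).fst, x.fst⟫ = ⟪u.fst, x.fst⟫ + t * b1 := by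
      have e : (u + t • h).fst = u.fst + t • h.fst := by simp
      rw [e, inner_add_left, inner_smul_left]
      simp [hb1]
    have e2 : ⟪(u + (-t) • h).fst, x.fst⟫ = ⟪u.fst, x.fst⟫ - t * b1 := by
      have e : (u + (-t) • h).fst = u.fst + (-t) • h.fst := by simp
      rw [e, inner_add_left, inner_smul_left]
      simp [hb1]
      ring
    have e3 : ‖(u + t • h).fst‖ = s t := rfl
    have e4 : ‖(u + (-t) • h).fst‖ = s t := hsneg t
    rw [e1, e3] at z1
    rw [e2, e4] at z2
    have : 2 * t * (s t * b1 + 2 * D + t * C) = 0 := by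
      linear_combination z1 - z2 - hdiff
    have ht2 : 2 * t ≠ 0 := by positivity
    exact (mul_eq_zero.1 this).resolve_left ht2
  -- conclusion
  have hbound : ∀ t : ℝ, 0 < t → 2 * t ≤ δ → |C| ≤ t * (|b1| * (3 * ‖h.fst‖ ^ 2 / (2 * μ))) := by
    intro t ht htδ
    have q1 := heq t ht (by linarith)
    have q2 := heq (2 * t) (by linarith) htδ
    have q3 : (s (2 * t) - s t) * b1 + t * C = 0 := by linear_combination q2 - q1
    have q4 : (s (2 * t) - s t) * (s (2 * t) + s t) = 3 * t ^ 2 * ‖h.fst‖ ^ 2 := by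
      have r1 := hs2 t
      have r2 := hs2 (2 * t)
      linear_combination r2 - r1
    have q5 : 0 < s (2 * t) + s t := by linarith [hsμ t, hs0 (2 * t)]
    have q6 : 0 ≤ s (2 * t) - s t := by
      by_contra hneg
      push Not at hneg
      have : (s (2 * t) - s t) * (s (2 * t) + s t) < 0 := mul_neg_of_neg_of_pos hneg q5
      have : 0 ≤ 3 * t ^ 2 * ‖h.fst‖ ^ 2 := by positivity
      linarith
    have q7 : s (2 * t) - s t ≤ 3 * t ^ 2 * ‖h.fst‖ ^ 2 / (2 * μ) := by
      rw [le_div_iff₀ (by positivity), ← q4]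
      apply mul_le_mul_of_nonneg_left _ q6
      linarith [hsμ t, hsμ (2 * t)]
    have q8 : t * |C| = (s (2 * t) - s t) * |b1| := by
      have : t * C = -((s (2 * t) - s t) * b1) := by linarith
      have h9 := congrArg abs this
      rw [abs_neg, abs_mul t C, abs_mul _ b1, abs_of_pos ht, abs_of_nonneg q6] at h9
      exact h9
    have q9 : t * |C| ≤ t * (t * (|b1| * (3 * ‖h.fst‖ ^ 2 / (2 * μ)))) := by
      rw [q8]
      calc (s (2 * t) - s t) * |b1| ≤ 3 * t ^ 2 * ‖h.fst‖ ^ 2 / (2 * μ) * |b1| := by gcongr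
        _ = _ := by ring
    exact le_of_mul_le_mul_left q9 ht
  by_contra hCne
  have hCpos : 0 < |C| := abs_pos.2 hCne
  set K := |b1| * (3 * ‖h.fst‖ ^ 2 / (2 * μ)) with hK
  have hK0 : 0 ≤ K := by positivity
  have ht0 : 0 < min (δ / 2) (|C| / (2 * (K + 1))) := by positivity
  have hb := hbound _ ht0 (by
    have := min_le_left (δ / 2) (|C| / (2 * (K + 1)))
    linarith)
  have h1 : min (δ / 2) (|C| / (2 * (K + 1))) * K ≤ |C| / (2 * (K + 1)) * K := by
    gcongr
    exact min_le_right _ _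
  have h2 : |C| / (2 * (K + 1)) * K ≤ |C| / 2 := by
    rw [div_mul_eq_mul_div, div_le_div_iff₀ (by positivity) (by positivity)]
    nlinarith
  linarith


/-- the nodes -/
def lam (k : ℕ) : ℝ := (1 / 2) ^ (k + 1)

theorem lam_pos (k : ℕ) : 0 < lam k := by unfold lam; positivity

theorem lam_le (k : ℕ) : lam k ≤ 1 / 2 := by
  unfold lam
  calc (1 / 2 : ℝ) ^ (k + 1) ≤ (1 / 2) ^ 1 :=
        pow_le_pow_of_le_one (by norm_num) (by norm_num) (by omega)
    _ = 1 / 2 := by norm_num

theorem lam_succ (k : ℕ) : lam (k + 1) = lam k / 2 := by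
  unfold lam
  ring

theorem lam_tendsto : Tendsto lam atTop (𝓝 0) := by
  unfold lam
  have := tendsto_pow_atTop_nhds_zero_of_lt_one (r := (1 / 2 : ℝ)) (by norm_num) (by norm_num)
  exact (tendsto_add_atTop_iff_nat 1).2 this

theorem geo_mem (k : ℕ) : Memℓp (fun n : ℕ => lam k ^ n) 2 := by
  apply memℓp_gen
  have h2 : (2 : ℝ≥0∞).toReal = 2 := by simp
  rw [h2]
  norm_cast
  have hk := lam_pos k
  have hk' := lam_le k
  have : (fun n : ℕ => ‖lam k ^ n‖ ^ 2) = fun n : ℕ => (lam k ^ 2) ^ n := by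
    funext n
    rw [Real.norm_eq_abs, sq_abs, ← pow_mul, ← pow_mul, mul_comm]
  rw [this]
  apply summable_geometric_of_lt_one (by positivity)
  nlinarith

/-- the vector representing the evaluation at `lam k` -/
def vv (k : ℕ) : H2 := ⟨fun n : ℕ => lam k ^ n, geo_mem k⟩

theorem vv_apply (k n : ℕ) : vv k n = lam k ^ n := rfl

theorem inner_vv (k : ℕ) (g : H2) : HasSum (fun n => lam k ^ n * g n) ⟪vv k, g⟫ := by
  have := lp.hasSum_inner (𝕜 := ℝ) (G := fun _ : ℕ => ℝ) (vv k) g
  simpa [vv_apply, mul_comm] using this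

theorem asym (g : H2) (m : ℕ) (hm : ∀ n < m, g n = 0) :
    Tendsto (fun k => ⟪vv k, g⟫ / lam k ^ m) atTop (𝓝 (g m)) := by
  have hb : ∀ k, |⟪vv k, g⟫ / lam k ^ m - g m| ≤ 2 * ‖g‖ * lam k := by
    intro k
    have hl := lam_pos k
    have hl2 := lam_le k
    have h1 := inner_vv k g
    have h2 : HasSum (fun n => lam k ^ (n + (m + 1)) * g (n + (m + 1)))
        (⟪vv k, g⟫ - lam k ^ m * g m) := by
      have h3 := (hasSum_nat_add_iff' (f := fun n => lam k ^ n * g n) (m + 1)).2 h1
      rw [Finset.sum_range_succ, Finset.sum_eq_zero, zero_add] at h3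
      · exact h3
      · intro i hi
        rw [hm i (Finset.mem_range.1 hi), mul_zero]
    have h4 : |⟪vv k, g⟫ - lam k ^ m * g m| ≤ ‖g‖ * lam k ^ (m + 1) * 2 := by
      have h5 : ∀ n, ‖lam k ^ (n + (m + 1)) * g (n + (m + 1))‖ ≤
          ‖g‖ * lam k ^ (m + 1) * (1 / 2) ^ n := by
        intro n
        rw [norm_mul, Real.norm_eq_abs, abs_of_pos (by positivity), pow_add]
        have h6 : ‖g (n + (m + 1))‖ ≤ ‖g‖ := lp.norm_apply_le_norm (by norm_num) g _
        have h7 : lam k ^ n ≤ (1 / 2) ^ n := pow_le_pow_left₀ hl.le hl2 n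
        calc lam k ^ n * lam k ^ (m + 1) * ‖g (n + (m + 1))‖
            ≤ (1 / 2) ^ n * lam k ^ (m + 1) * ‖g‖ := by gcongr
          _ = _ := by ring
      have h8 : HasSum (fun n : ℕ => ‖g‖ * lam k ^ (m + 1) * (1 / 2 : ℝ) ^ n)
          (‖g‖ * lam k ^ (m + 1) * 2) := by
        have := hasSum_geometric_two
        exact this.mul_left _
      have h9 := h2.norm_le_of_bounded h8 h5
      simpa using h9
    have h10 : ⟪vv k, g⟫ / lam k ^ m - g m = (⟪vv k, g⟫ - lam k ^ m * g m) / lam k ^ m := by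
      field_simp
    rw [h10, abs_div, abs_of_pos (show 0 < lam k ^ m by positivity), div_le_iff₀ (by positivity)]
    calc |⟪vv k, g⟫ - lam k ^ m * g m| ≤ ‖g‖ * lam k ^ (m + 1) * 2 := h4
      _ = _ := by ring
  rw [tendsto_iff_norm_sub_tendsto_zero]
  refine squeeze_zero (fun k => norm_nonneg _) hb ?_
  have := lam_tendsto.const_mul (2 * ‖g‖)
  simpa using this

/-- isolation of the kernel lines -/
theorem isolation (a b : ℕ → ℝ) (ha : ∀ᶠ j in atTop, a j ≠ 0) (hb : ∀ᶠ j in atTop, b j ≠ 0)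
    (hmono : ∀ᶠ j in atTop, |b (j + 1) / a (j + 1)| < |b j / a j|)
    (hr : Tendsto (fun j => b j / a j) atTop (𝓝 0)) :
    ∀ᶠ k in atTop, ∃ δ : ℝ, 0 < δ ∧ ∀ j, j ≠ k → δ * (|a j| + |b j|) ≤ |b k * a j - a k * b j| := by
  obtain ⟨K, hK⟩ := eventually_atTop.1 (ha.and (hb.and hmono))
  have hanti : ∀ i ≥ K, ∀ j > i, |b j / a j| < |b i / a i| := by
    intro i hi j hj
    induction j, hj using Nat.le_induction with
    | base => exact (hK i hi).2.2
    | succ j hj ih => exact ((hK j (by omega)).2.2).trans ih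
  have hr' : Tendsto (fun j => |b j / a j|) atTop (𝓝 0) := by
    have := hr.abs
    simpa using this
  have hfin : ∀ᶠ k in atTop, ∀ j ∈ Finset.range K, a j ≠ 0 → b j ≠ 0 →
      |b k / a k| < |b j / a j| := by
    rw [Finset.eventually_all]
    intro j _
    by_cases h1 : a j ≠ 0 ∧ b j ≠ 0
    · have : 0 < |b j / a j| := by
        have := div_ne_zero h1.2 h1.1
        positivity
      filter_upwards [hr'.eventually (gt_mem_nhds this)] with k hk _ _ using hk
    · filter_upwards with k h2 h3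
      exact absurd ⟨h2, h3⟩ h1
  filter_upwards [hfin, eventually_ge_atTop K] with k hk1 hk2
  have hak := (hK k hk2).1
  have hbk := (hK k hk2).2.1
  -- pointwise nonvanishing
  have hpt : ∀ j, j ≠ k → (a j = 0 ∧ b j = 0) ∨ 0 < |b k * a j - a k * b j| := by
    intro j hj
    by_cases haj : a j = 0
    · by_cases hbj : b j = 0
      · exact Or.inl ⟨haj, hbj⟩
      · right
        rw [haj, mul_zero, zero_sub, abs_neg]
        have := mul_ne_zero hak hbj
        positivity
    · right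
      rw [abs_pos]
      intro h0
      have hrr : b k / a k = b j / a j := by
        rw [div_eq_div_iff hak haj]
        linarith
      by_cases hbj : b j = 0
      · rw [hbj, zero_div] at hrr
        exact (div_ne_zero hbk hak) hrr
      · by_cases hjK : j < K
        · have := hk1 j (Finset.mem_range.2 hjK) haj hbj
          rw [hrr] at this
          exact lt_irrefl _ this
        · push Not at hjK
          rcases lt_or_gt_of_ne hj with h | h
          · have := hanti j hjK k h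
            rw [hrr] at this
            exact lt_irrefl _ this
          · have := hanti k hk2 j h
            rw [hrr] at this
            exact lt_irrefl _ this
  -- tail
  have htail : ∀ᶠ j in atTop, |b k| / 4 * (|a j| + |b j|) ≤ |b k * a j - a k * b j| := by
    have h1 : ∀ᶠ j in atTop, |b j / a j| < 1 :=
      hr'.eventually (gt_mem_nhds one_pos)
    have h2 : ∀ᶠ j in atTop, |b j / a j| < |b k| / (2 * |a k|) :=
      hr'.eventually (gt_mem_nhds (by positivity))
    filter_upwards [h1, h2, ha] with j h1 h2 h3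
    have h3' : 0 < |a j| := abs_pos.2 h3
    rw [abs_div, div_lt_iff₀ h3'] at h1 h2
    have h4 : |b k * a j| - |a k * b j| ≤ |b k * a j - a k * b j| := abs_sub_abs_le_abs_sub _ _
    rw [abs_mul, abs_mul] at h4
    have h5 : |a k| * |b j| ≤ |b k| / 2 * |a j| := by
      have h6 : |a k| * |b j| ≤ |a k| * (|b k| / (2 * |a k|) * |a j|) := by gcongr
      have h7 : |a k| * (|b k| / (2 * |a k|) * |a j|) = |b k| / 2 * |a j| := by
        have : |a k| ≠ 0 := by positivity
        field_simp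
      linarith
    have h8 : |b k| * |b j| ≤ |b k| * |a j| :=
      mul_le_mul_of_nonneg_left (by linarith) (abs_nonneg _)
    nlinarith
  obtain ⟨J, hJ⟩ := eventually_atTop.1 htail
  -- finite part
  have hfinpart : ∃ δ : ℝ, 0 < δ ∧ ∀ j ∈ Finset.range J, j ≠ k →
      δ * (|a j| + |b j|) ≤ |b k * a j - a k * b j| := by
    clear hJ htail
    induction J with
    | zero => exact ⟨1, one_pos, by simp⟩
    | succ J ih =>
      obtain ⟨δ, hδ, hδ2⟩ := ih
      by_cases hJk : J = k
      · refine ⟨δ, hδ, fun j hj hjk => hδ2 j ?_ hjk⟩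
        rw [Finset.mem_range] at hj ⊢
        omega
      · rcases hpt J hJk with h0 | h0
        · refine ⟨δ, hδ, fun j hj hjk => ?_⟩
          rcases eq_or_ne j J with rfl | hne
          · rw [h0.1, h0.2]
            simp
          · apply hδ2 j _ hjk
            rw [Finset.mem_range] at hj ⊢
            omega
        · refine ⟨min δ (|b k * a J - a k * b J| / (|a J| + |b J| + 1)), by positivity,
            fun j hj hjk => ?_⟩
          rcases eq_or_ne j J with rfl | hne
          · calc min δ (|b k * a j - a k * b j| / (|a j| + |b j| + 1)) * (|a j| + |b j|)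
                ≤ |b k * a j - a k * b j| / (|a j| + |b j| + 1) * (|a j| + |b j|) := by
                  gcongr
                  exact min_le_right _ _
              _ ≤ |b k * a j - a k * b j| := by
                  rw [div_mul_eq_mul_div, div_le_iff₀ (by positivity)]
                  nlinarith
          · have h1 := hδ2 j (by rw [Finset.mem_range] at hj ⊢; omega) hjk
            refine le_trans ?_ h1
            gcongr
            exact min_le_left _ _
  obtain ⟨δ, hδ, hδ2⟩ := hfinpart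
  have hbk' : 0 < |b k| := abs_pos.2 hbk
  refine ⟨min δ (|b k| / 4), by positivity, fun j hj => ?_⟩
  by_cases hjJ : j < J
  · refine le_trans ?_ (hδ2 j (Finset.mem_range.2 hjJ) hj)
    gcongr
    exact min_le_left _ _
  · refine le_trans ?_ (hJ j (by omega))
    gcongr
    exact min_le_right _ _


/-- the weights -/
def ww (k : ℕ) : ℝ := (1 / 2) ^ k

theorem ww_pos (k : ℕ) : 0 < ww k := by unfold ww; positivity

/-- The space. -/
def EE : Submodule ℝ X where
  carrier := {y | ∀ k, y.snd k = ww k * ⟪vv k, y.fst⟫}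
  zero_mem' := by
    intro k
    have h1 : (0 : X).fst = 0 := by simp
    rw [h1, inner_zero_right, mul_zero]
    rfl
  add_mem' := by
    intro y z hy hz k
    have h1 : (y + z).fst = y.fst + z.fst := by simp
    have h2 : (y + z).snd k = y.snd k + z.snd k := by
      have := snd_apply y z 1 k
      simpa using this
    rw [h2, h1, inner_add_right, hy k, hz k]
    ring
  smul_mem' := by
    intro c y hy k
    have h1 : (c • y).fst = c • y.fst := by simp
    have h2 : (c • y).snd k = c * y.snd k := by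
      have := snd_apply 0 y c k
      simpa using this
    rw [h2, h1, inner_smul_right, hy k]
    ring

theorem EE_closed : IsClosed (EE : Set X) := by
  have : (EE : Set X) = ⋂ k, {y : X | y.snd k = ww k * ⟪vv k, y.fst⟫} := by
    ext y
    simp only [Set.mem_iInter, Set.mem_ofPred_eq]
    rfl
  rw [this]
  apply isClosed_iInter
  intro k
  apply isClosed_eq
  · have h1 : Continuous fun y : X => y.snd := WithLp.continuous_snd 3 H2 L3
    exact (lp.evalCLM ℝ (fun _ : ℕ => ℝ) 3 k).continuous.comp h1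
  · have h1 : Continuous fun y : X => y.fst := WithLp.continuous_fst 3 H2 L3
    exact continuous_const.mul (continuous_const.inner h1)

instance : CompleteSpace EE := EE_closed.completeSpace_coe

theorem mem3 (n : ℕ) : Memℓp (fun k => ww k * ⟪vv k, (lp.single 2 n (1 : ℝ) : H2)⟫) 3 := by
  have h3 : (3 : ℝ≥0∞).toReal = 3 := by simp
  apply memℓp_gen
  rw [h3]
  norm_cast
  have h1 : ∀ k, ‖ww k * ⟪vv k, (lp.single 2 n (1 : ℝ) : H2)⟫‖ ^ 3 ≤ (1 / 2 : ℝ) ^ k := by
    intro k
    have h2 : ⟪vv k, (lp.single 2 n (1 : ℝ) : H2)⟫ = lam k ^ n := by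
      rw [lp.inner_single_right]
      simp [vv_apply]
    have h4 : 0 ≤ lam k ^ n := pow_nonneg (lam_pos k).le n
    have h5 : lam k ^ n ≤ 1 := pow_le_one₀ (lam_pos k).le (by linarith [lam_le k])
    have h6 := ww_pos k
    have h7 : ww k ≤ 1 := by
      unfold ww
      exact pow_le_one₀ (by norm_num) (by norm_num)
    rw [h2, Real.norm_eq_abs, abs_of_nonneg (by positivity)]
    have h8 : ww k * lam k ^ n ≤ ww k := mul_le_of_le_one_right h6.le h5
    calc (ww k * lam k ^ n) ^ 3 ≤ ww k ^ 3 := by gcongr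
      _ ≤ ww k ^ 1 := pow_le_pow_of_le_one h6.le h7 (by norm_num)
      _ = (1 / 2) ^ k := by rw [pow_one]; rfl
  exact Summable.of_nonneg_of_le (fun k => by positivity) h1
    (summable_geometric_of_lt_one (by norm_num) (by norm_num))

/-- the standard vectors in the space -/
def bb (n : ℕ) : EE :=
  ⟨WithLp.toLp 3 ((lp.single 2 n (1 : ℝ) : H2), (⟨_, mem3 n⟩ : L3)), fun _ => rfl⟩

theorem bb_fst (n i : ℕ) : (bb n).1.fst i = if i = n then 1 else 0 := by
  show (lp.single 2 n (1 : ℝ) : H2) i = _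
  rw [lp.single_apply]
  by_cases h : i = n
  · subst h; simp
  · simp [h]

/-- coordinate functional -/
def coord (i : ℕ) : X →ₗ[ℝ] ℝ where
  toFun y := y.fst i
  map_add' y z := by
    have h1 : (y + z).fst = y.fst + z.fst := by simp
    rw [h1]
    rfl
  map_smul' c y := by
    have h1 : (c • y).fst = c • y.fst := by simp
    rw [h1]
    rfl

theorem bb_li : LinearIndependent ℝ bb := by
  rw [linearIndependent_iff']
  intro s c hc i hi
  have h1 := congrArg (fun z : EE => coord i z.1) hc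
  simp only [AddSubmonoidClass.coe_finsetSum, Submodule.coe_smul, map_sum, map_smul,
    ZeroMemClass.coe_zero, map_zero] at h1
  have h2 : ∀ j, coord i (bb j).1 = if i = j then 1 else 0 := fun j => bb_fst j i
  simp only [h2, smul_eq_mul, mul_ite, mul_one, mul_zero, Finset.sum_ite_eq, hi, if_true] at h1
  exact h1

theorem EE_inf : ¬ FiniteDimensional ℝ EE := by
  intro h
  have := bb_li.finite_of_isNoetherian
  exact not_finite ℕ


theorem order_tendsto (g : H2) (m : ℕ) (hm : ∀ n < m, g n = 0) (hm' : g m ≠ 0) :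
    ∀ᶠ k in atTop, ⟪vv k, g⟫ ≠ 0 := by
  have h := (asym g m hm).eventually_ne hm'
  filter_upwards [h] with k hk h0
  rw [h0, zero_div] at hk
  exact hk rfl

theorem ratio_mono (g1 g2 : H2) (m1 m2 : ℕ) (h12 : m1 < m2) (h1 : ∀ n < m1, g1 n = 0)
    (h2 : ∀ n < m2, g2 n = 0) (h1' : g1 m1 ≠ 0) (h2' : g2 m2 ≠ 0) :
    (∀ᶠ k in atTop, |⟪vv (k+1), g2⟫ / ⟪vv (k+1), g1⟫| < |⟪vv k, g2⟫ / ⟪vv k, g1⟫|) ∧
    Tendsto (fun k => ⟪vv k, g2⟫ / ⟪vv k, g1⟫) atTop (𝓝 0) := by
  obtain ⟨d, rfl⟩ : ∃ d, m2 = m1 + (d + 1) := ⟨m2 - m1 - 1, by omega⟩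
  set q : ℕ → ℝ := fun k => (⟪vv k, g2⟫ / lam k ^ (m1 + (d + 1))) / (⟪vv k, g1⟫ / lam k ^ m1)
    with hq
  have hqt : Tendsto q atTop (𝓝 (g2 (m1 + (d + 1)) / g1 m1)) :=
    (asym g2 _ h2).div (asym g1 _ h1) h1'
  have hL : g2 (m1 + (d + 1)) / g1 m1 ≠ 0 := div_ne_zero h2' h1'
  have hqr : ∀ k, ⟪vv k, g2⟫ / ⟪vv k, g1⟫ = q k * lam k ^ (d + 1) := by
    intro k
    have hl := (lam_pos k).ne'
    simp only [hq]
    rw [pow_add]
    by_cases h0 : ⟪vv k, g1⟫ = 0
    · rw [h0]; simp
    · field_simp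
  constructor
  · have h3 : Tendsto (fun k => |q (k + 1)| / |q k|) atTop (𝓝 1) := by
      have h4 : Tendsto (fun k => q (k + 1)) atTop (𝓝 (g2 (m1 + (d + 1)) / g1 m1)) :=
        (tendsto_add_atTop_iff_nat 1).2 hqt
      have h5 := h4.abs.div hqt.abs (abs_ne_zero.2 hL)
      rwa [div_self (abs_ne_zero.2 hL)] at h5
    filter_upwards [h3.eventually (gt_mem_nhds (show (1 : ℝ) < 2 by norm_num)),
      hqt.eventually_ne hL] with k hk1 hk2
    rw [hqr, hqr, abs_mul, abs_mul]
    have hk3 : 0 < |q k| := abs_pos.2 hk2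
    rw [div_lt_iff₀ hk3] at hk1
    have hl := lam_pos k
    have hl' := lam_pos (k + 1)
    rw [abs_of_pos (pow_pos hl _), abs_of_pos (pow_pos hl' _), lam_succ]
    have h6 : (lam k / 2) ^ (d + 1) ≤ lam k ^ (d + 1) / 2 := by
      rw [div_pow]
      have : (2 : ℝ) ≤ 2 ^ (d + 1) := by
        calc (2 : ℝ) = 2 ^ 1 := by norm_num
          _ ≤ 2 ^ (d + 1) := pow_le_pow_right₀ (by norm_num) (by omega)
      gcongr
    have h7 : 0 < lam k ^ (d + 1) := pow_pos hl _
    calc |q (k + 1)| * (lam k / 2) ^ (d + 1) ≤ |q (k + 1)| * (lam k ^ (d + 1) / 2) := by gcongr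
      _ < (2 * |q k|) * (lam k ^ (d + 1) / 2) := by
          apply mul_lt_mul_of_pos_right hk1
          positivity
      _ = _ := by ring
  · have h8 : Tendsto (fun k => q k * lam k ^ (d + 1)) atTop
        (𝓝 (g2 (m1 + (d + 1)) / g1 m1 * 0 ^ (d + 1))) := hqt.mul (lam_tendsto.pow _)
    rw [zero_pow (by omega), mul_zero] at h8
    exact h8.congr fun k => (hqr k).symm

theorem EE_fst_ne (z : EE) (hz : z ≠ 0) : z.1.fst ≠ 0 := by
  intro h0
  apply hz
  have h1 : ∀ k, z.1.snd k = 0 := by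
    intro k
    rw [z.2 k, h0, inner_zero_right, mul_zero]
  have h2 : z.1.snd = 0 := by
    apply lp.ext
    funext k
    exact h1 k
  apply Subtype.ext
  have h3 : (WithLp.ofLp z.1) = 0 := Prod.ext h0 h2
  exact (WithLp.ofLp_injective 3) (by rw [h3]; rfl)

theorem H2_ne (g : H2) (hg : g ≠ 0) : ∃ m, g m ≠ 0 := by
  by_contra hcon
  push Not at hcon
  apply hg
  apply lp.ext
  funext k
  exact hcon k

theorem coord_eq (i : ℕ) (y : X) : coord i y = y.fst i := rfl

theorem main_thm (G : Submodule ℝ EE) (hG : 2 ≤ Module.rank ℝ G) (x : EE) (hx : x ≠ 0)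
    (h : ∀ g ∈ G, ∀ α : ℝ, ‖g‖ ≤ ‖g + α • x‖) : False := by
  classical
  have hHH : ∀ g ∈ G, HH g.1 x.1 = 0 := by
    intro g hg
    apply HH_zero
    intro a
    exact h g hg a
  have hrank : ∀ g1 ∈ G, ∃ g ∈ G, g ∉ Submodule.span ℝ {g1} := by
    intro g1 hg1
    by_contra hcon
    push Not at hcon
    have : Module.rank ℝ G ≤ 1 := (rank_submodule_le_one_iff G).2 ⟨g1, hg1, hcon⟩
    have h2 : (2 : Cardinal) ≤ 1 := hG.trans this
    norm_num at h2
  -- first vector
  have hex : ∃ m, ∃ g ∈ G, g.1.fst m ≠ 0 := by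
    obtain ⟨g, hg, hg'⟩ := hrank 0 (Submodule.zero_mem _)
    have hgne : g ≠ 0 := by
      rintro rfl
      exact hg' (Submodule.zero_mem _)
    obtain ⟨m, hm⟩ := H2_ne _ (EE_fst_ne g hgne)
    exact ⟨m, g, hg, hm⟩
  set m1 := Nat.find hex with hm1
  obtain ⟨g1, hg1, hg1m⟩ := Nat.find_spec hex
  rw [← hm1] at hg1m
  have hlow : ∀ g ∈ G, ∀ n < m1, g.1.fst n = 0 := by
    intro g hg n hn
    by_contra hne
    exact Nat.find_min hex hn ⟨g, hg, hne⟩
  obtain ⟨g, hg, hgs⟩ := hrank g1 hg1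
  set c : ℝ := g.1.fst m1 / g1.1.fst m1 with hc
  set g2 : EE := g - c • g1 with hg2def
  have hg2 : g2 ∈ G := G.sub_mem hg (G.smul_mem _ hg1)
  have hg2ne : g2 ≠ 0 := by
    intro h0
    apply hgs
    have : g = c • g1 := by
      rw [hg2def] at h0
      exact sub_eq_zero.1 h0
    rw [this]
    exact Submodule.smul_mem _ _ (Submodule.mem_span_singleton_self _)
  have hg2m1 : g2.1.fst m1 = 0 := by
    have h1 : coord m1 g2.1 = coord m1 g.1 - c * coord m1 g1.1 := by
      rw [hg2def]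
      simp
    simp only [coord_eq] at h1
    rw [h1, hc]
    field_simp
    ring
  have hex2 : ∃ m, g2.1.fst m ≠ 0 := H2_ne _ (EE_fst_ne g2 hg2ne)
  set m2 := Nat.find hex2 with hm2
  have hg2m2 : g2.1.fst m2 ≠ 0 := Nat.find_spec hex2
  have hlow2 : ∀ n < m2, g2.1.fst n = 0 := by
    intro n hn
    by_contra hne
    exact Nat.find_min hex2 hn hne
  have h12 : m1 < m2 := by
    by_contra hle
    push Not at hle
    rcases Nat.lt_or_eq_of_le hle with h3 | h3
    · exact hg2m2 (hlow g2 hg2 m2 h3)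
    · rw [h3] at hg2m2
      exact hg2m2 hg2m1
  obtain ⟨hmono, hlim⟩ := ratio_mono g1.1.fst g2.1.fst m1 m2 h12 (hlow g1 hg1) hlow2 hg1m hg2m2
  have hra : ∀ k, g2.1.snd k / g1.1.snd k = ⟪vv k, g2.1.fst⟫ / ⟪vv k, g1.1.fst⟫ := by
    intro k
    rw [g1.2 k, g2.2 k]
    exact mul_div_mul_left _ _ (ww_pos k).ne'
  have hiso := isolation (fun k => g1.1.snd k) (fun k => g2.1.snd k)
    (by
      filter_upwards [order_tendsto _ m1 (hlow g1 hg1) hg1m] with k hk
      rw [g1.2 k]
      exact mul_ne_zero (ww_pos k).ne' hk)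
    (by
      filter_upwards [order_tendsto _ m2 hlow2 hg2m2] with k hk
      rw [g2.2 k]
      exact mul_ne_zero (ww_pos k).ne' hk)
    (by
      filter_upwards [hmono] with k hk
      rw [hra, hra]
      exact hk)
    (by
      refine hlim.congr fun k => ?_
      rw [hra])
  have hx0 : ∀ᶠ k in atTop, x.1.snd k = 0 := by
    filter_upwards [hiso, order_tendsto _ m1 (hlow g1 hg1) hg1m, order_tendsto _ m2 hlow2 hg2m2]
      with k hk ha hb
    obtain ⟨δ, hδ, hiso⟩ := hk
    have hak : g1.1.snd k ≠ 0 := by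
      rw [g1.2 k]
      exact mul_ne_zero (ww_pos k).ne' ha
    have hbk : g2.1.snd k ≠ 0 := by
      rw [g2.2 k]
      exact mul_ne_zero (ww_pos k).ne' hb
    set u : EE := (g2.1.snd k) • g1 + (-(g1.1.snd k)) • g2 with hu
    have hu1 : u.1.fst = (g2.1.snd k) • g1.1.fst + (-(g1.1.snd k)) • g2.1.fst := by
      rw [hu]
      simp
    have husnd : ∀ j, u.1.snd j = g2.1.snd k * g1.1.snd j - g1.1.snd k * g2.1.snd j := by
      intro j
      have e1 := snd_apply ((g2.1.snd k) • g1.1) g2.1 (-(g1.1.snd k)) j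
      have e2 := snd_apply 0 g1.1 (g2.1.snd k) j
      rw [zero_add] at e2
      have e3 : ((0 : X).snd) j = 0 := rfl
      rw [e3, zero_add] at e2
      rw [e2] at e1
      have e4 : u.1 = (g2.1.snd k) • g1.1 + (-(g1.1.snd k)) • g2.1 := rfl
      rw [e4, e1]
      ring
    have hune : u.1.fst ≠ 0 := by
      intro h0
      have e1 : coord m1 u.1 = g2.1.snd k * coord m1 g1.1 + (-(g1.1.snd k)) * coord m1 g2.1 := by
        have e4 : u.1 = (g2.1.snd k) • g1.1 + (-(g1.1.snd k)) • g2.1 := rfl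
        rw [e4, map_add, map_smul, map_smul]
        rfl
      simp only [coord_eq] at e1
      rw [hg2m1, mul_zero, add_zero, h0] at e1
      exact mul_ne_zero hbk hg1m e1.symm
    set μ := ‖u.1.fst‖ with hμ
    set ν := ⟪u.1.fst, g1.1.fst⟫ with hν
    have hμ0 : 0 < μ := norm_pos_iff.2 hune
    set w : EE := (μ ^ 2) • g1 + (-ν) • u with hw
    have hwsnd : ∀ j, w.1.snd j = μ ^ 2 * g1.1.snd j - ν * u.1.snd j := by
      intro j
      have e1 := snd_apply ((μ ^ 2) • g1.1) u.1 (-ν) j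
      have e2 := snd_apply 0 g1.1 (μ ^ 2) j
      rw [zero_add] at e2
      have e3 : ((0 : X).snd) j = 0 := rfl
      rw [e3, zero_add] at e2
      rw [e2] at e1
      have e4 : w.1 = (μ ^ 2) • g1.1 + (-ν) • u.1 := rfl
      rw [e4, e1]
      ring
    have huk : u.1.snd k = 0 := by
      rw [husnd]
      ring
    have horth : ⟪u.1.fst, w.1.fst⟫ = 0 := by
      have e1 : w.1.fst = (μ ^ 2) • g1.1.fst + (-ν) • u.1.fst := by
        have e4 : w.1 = (μ ^ 2) • g1.1 + (-ν) • u.1 := rfl
        rw [e4]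
        simp
      rw [e1, inner_add_right, inner_smul_right, inner_smul_right, real_inner_self_eq_norm_sq]
      rw [← hν, ← hμ]
      ring
    have hK : 0 < μ ^ 2 + |ν| * (|g2.1.snd k| + |g1.1.snd k|) := by positivity
    have hloc := local_zero u.1 w.1 x.1 k huk horth hune
      (δ / (μ ^ 2 + |ν| * (|g2.1.snd k| + |g1.1.snd k|))) (by positivity)
      (by
        intro j hj
        have h1 := hiso j hj
        rw [husnd j]
        refine le_trans ?_ h1
        rw [div_mul_eq_mul_div, div_le_iff₀ hK, mul_assoc]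
        apply mul_le_mul_of_nonneg_left _ hδ.le
        rw [hwsnd j, husnd j]
        have h3 : |μ ^ 2 * g1.1.snd j - ν * (g2.1.snd k * g1.1.snd j - g1.1.snd k * g2.1.snd j)|
            ≤ μ ^ 2 * |g1.1.snd j| + |ν| * (|g2.1.snd k| * |g1.1.snd j| +
              |g1.1.snd k| * |g2.1.snd j|) := by
          refine (abs_sub _ _).trans ?_
          rw [abs_mul, abs_mul, abs_of_nonneg (show 0 ≤ μ ^ 2 by positivity)]
          gcongr
          refine (abs_sub _ _).trans ?_
          rw [abs_mul, abs_mul]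
        have p1 := abs_nonneg (g1.1.snd j)
        have p2 := abs_nonneg (g2.1.snd j)
        have p3 := abs_nonneg (g1.1.snd k)
        have p4 := abs_nonneg (g2.1.snd k)
        have p5 := abs_nonneg ν
        have p6 : 0 ≤ μ ^ 2 * |g2.1.snd j| := by positivity
        have p7 : 0 ≤ |ν| * (|g2.1.snd k| * |g2.1.snd j|) := by positivity
        have p8 : 0 ≤ |ν| * (|g1.1.snd k| * |g1.1.snd j|) := by positivity
        nlinarith)
      (by
        intro t
        have h1 := hHH (u + t • w) (G.add_mem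
          (G.add_mem (G.smul_mem _ hg1) (G.smul_mem _ hg2))
          (G.smul_mem _ (G.add_mem (G.smul_mem _ hg1) (G.smul_mem _
            (G.add_mem (G.smul_mem _ hg1) (G.smul_mem _ hg2))))))
        exact h1)
    have hwk : w.1.snd k ≠ 0 := by
      rw [hwsnd, huk, mul_zero, sub_zero]
      exact mul_ne_zero (by positivity) hak
    rcases mul_eq_zero.1 hloc with h5 | h5
    · exact absurd h5 (mul_ne_zero (abs_ne_zero.2 hwk) hwk)
    · exact h5
  obtain ⟨m0, hm0⟩ := H2_ne _ (EE_fst_ne x hx)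
  have hex3 : ∃ m, x.1.fst m ≠ 0 := ⟨m0, hm0⟩
  have hev := order_tendsto x.1.fst (Nat.find hex3) (fun n hn => by
    by_contra hne
    exact Nat.find_min hex3 hn hne) (Nat.find_spec hex3)
  obtain ⟨k, hk1, hk2⟩ := (hx0.and hev).exists
  rw [x.2 k] at hk1
  exact mul_ne_zero (ww_pos k).ne' hk2 hk1

end

/-- The negation of the preceding statement: Every infinite-dimensional real or complex Banach space E has a subspace G of dimension at least 2 and a nonzero x in E with ‖g + αx‖ ≥ ‖g‖ for all g in G and all scalars α. -/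
theorem result :
    ¬ (∀ (𝕜 : Type) [RCLike 𝕜] (E : Type) [NormedAddCommGroup E] [NormedSpace 𝕜 E]
      [CompleteSpace E], ¬ FiniteDimensional 𝕜 E →
      ∃ G : Submodule 𝕜 E, 2 ≤ Module.rank 𝕜 G ∧
        ∃ x : E, x ≠ 0 ∧ ∀ g ∈ G, ∀ α : 𝕜, ‖g‖ ≤ ‖g + α • x‖) := by
  intro hall
  obtain ⟨G, hG, x, hx, h⟩ := hall ℝ EE EE_inf
  exact main_thm G hG x hx h

end Pool.Agent.S1590
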