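import Pool.Statements.S1654
-- import your own Pool.Agent.* helpers here
import Pool.Agent.H3.OneRadius

set_option autoImplicit false
open MeasureTheory
open Pool Pool.MP_a19bc9_an

namespace Pool.Agent.S1654

open Pool.Agent.H3.OneRadius

/-- the unit ball of `ℂⁿ` for the Euclidean norm -/
lemma vol_ball (n : ℕ) :
    (volume {x : Fin n → ℂ | ∑ j, Complex.normSq (x j) < 1} ≠ 0) ∧
    (volume {x : Fin n → ℂ | ∑ j, Complex.normSq (x j) < 1} ≠ ⊤) := by
  constructor
  · have hopen : IsOpen {x : Fin n → ℂ | ∑ j, Complex.normSq (x j) < 1} := by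
      apply isOpen_lt _ continuous_const
      apply continuous_finset_sum
      intro j _
      exact Complex.continuous_normSq.comp (continuous_apply j)
    exact (hopen.measure_pos volume ⟨0, by simp⟩).ne'
  · have hsub : {x : Fin n → ℂ | ∑ j, Complex.normSq (x j) < 1} ⊆ Metric.closedBall 0 1 := by
      intro x hx
      rw [mem_closedBall_zero_iff, pi_norm_le_iff_of_nonneg zero_le_one]
      intro j
      have h1 : Complex.normSq (x j) ≤ ∑ j, Complex.normSq (x j) :=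
        Finset.single_le_sum (fun i _ => Complex.normSq_nonneg (x i)) (Finset.mem_univ j)
      have h2 : Complex.normSq (x j) ≤ 1 := h1.trans (le_of_lt hx)
      rw [Complex.normSq_eq_norm_sq] at h2
      nlinarith [norm_nonneg (x j)]
    exact ((measure_mono hsub).trans_lt measure_closedBall_lt_top).ne

/-- The negation of the preceding statement: In the unit ball of C^n, a bounded continuous real u that at every point equals its invariant sphere mean for one radius in (0,1) equals it for every radius in (0,1), i.e. u is M-harmonic. -/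
theorem result :
    ¬ (∀ n : ℕ, 1 ≤ n →
  ∀ φ : (Fin n → ℂ) → (Fin n → ℂ) → (Fin n → ℂ),
  (∀ z w : Fin n → ℂ, φ z w =
      (1 - ∑ j, w j * starRingEnd ℂ (z j))⁻¹ •
        (z - ((∑ j, w j * starRingEnd ℂ (z j)) / (∑ j, z j * starRingEnd ℂ (z j))) • z
          - ((Real.sqrt (1 - ∑ j, Complex.normSq (z j)) : ℝ) : ℂ) •
            (w - ((∑ j, w j * starRingEnd ℂ (z j)) / (∑ j, z j * starRingEnd ℂ (z j))) • z))) →
  ∀ u : (Fin n → ℂ) → ℝ,
  ContinuousOn u {z : Fin n → ℂ | ∑ j, Complex.normSq (z j) < 1} →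
  (∃ C : ℝ, ∀ z ∈ {z : Fin n → ℂ | ∑ j, Complex.normSq (z j) < 1}, |u z| ≤ C) →
  (∀ z ∈ {z : Fin n → ℂ | ∑ j, Complex.normSq (z j) < 1}, ∃ r : ℝ, 0 < r ∧ r < 1 ∧
     u z = ⨍ x in {x : Fin n → ℂ | ∑ j, Complex.normSq (x j) < 1},
        u (φ z (((r : ℂ) * ((Real.sqrt (∑ j, Complex.normSq (x j)) : ℝ) : ℂ)⁻¹) • x))) →
  ∀ z ∈ {z : Fin n → ℂ | ∑ j, Complex.normSq (z j) < 1}, ∀ r : ℝ, 0 < r → r < 1 →
     u z = ⨍ x in {x : Fin n → ℂ | ∑ j, Complex.normSq (x j) < 1},
        u (φ z (((r : ℂ) * ((Real.sqrt (∑ j, Complex.normSq (x j)) : ℝ) : ℂ)⁻¹) • x))) := by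
  intro H
  set Bl : Set (Fin 1 → ℂ) := {x : Fin 1 → ℂ | ∑ j, Complex.normSq (x j) < 1} with hBl
  set μ : Measure (Fin 1 → ℂ) := (volume Bl)⁻¹ • (volume : Measure (Fin 1 → ℂ)).restrict Bl with hμ
  have hv := vol_ball 1
  have hprob : IsProbabilityMeasure μ := by
    constructor
    rw [hμ, Measure.smul_apply, Measure.restrict_apply_univ, smul_eq_mul]
    exact ENNReal.inv_mul_cancel hv.1 hv.2
  -- the projection on the sphere
  set ζ : (Fin 1 → ℂ) → (Fin 1 → ℂ) := fun x => (((Real.sqrt (nsq x) : ℝ) : ℂ)⁻¹) • x with hζ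
  have hζm : Measurable ζ := by
    have h1 := measurable_nsq (n := 1)
    have h2 : Measurable (fun x : Fin 1 → ℂ => (((Real.sqrt (nsq x) : ℝ) : ℂ)⁻¹)) :=
      (Complex.measurable_ofReal.comp (h1.sqrt)).inv
    exact h2.smul measurable_id
  have hne : ∀ᵐ x ∂μ, x ≠ 0 := by
    have h1 : ∀ᵐ x ∂(volume : Measure (Fin 1 → ℂ)), x ≠ 0 := by
      haveI : NoAtoms (volume : Measure (Fin 1 → ℂ)) := by
        rw [volume_pi]; exact Measure.pi_noAtoms (0 : Fin 1)
      rw [ae_iff]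
      simp
    have h2 : ∀ᵐ x ∂((volume : Measure (Fin 1 → ℂ)).restrict Bl), x ≠ 0 := ae_restrict_of_ae h1
    exact Measure.ae_smul_measure h2 _
  have hζ1 : ∀ᵐ x ∂μ, nsq (ζ x) = 1 := by
    filter_upwards [hne] with x hx
    have hpos : 0 < nsq x := by
      rcases (nsq_nonneg x).eq_or_lt with h0 | h0
      · exact absurd (nsq_zero_iff x h0.symm) hx
      · exact h0
    rw [hζ]
    show nsq ((((Real.sqrt (nsq x) : ℝ) : ℂ)⁻¹) • x) = 1
    rw [nsq_smul, ← Complex.ofReal_inv, Complex.normSq_ofReal, ← mul_inv,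
      Real.mul_self_sqrt hpos.le, inv_mul_cancel₀ hpos.ne']
  have havg : ∀ (z : Fin 1 → ℂ) (r : ℝ),
      (⨍ x in Bl, u (phi z (((r : ℂ) * ((Real.sqrt (∑ j, Complex.normSq (x j)) : ℝ) : ℂ)⁻¹) • x))) =
        ∫ x, u (phi z ((r : ℂ) • ζ x)) ∂μ := by
    intro z r
    rw [setAverage_eq']
    congr 1
    funext x
    rw [hζ]
    simp only [smul_smul, nsq]
  obtain ⟨r, hr0, hr1, hr⟩ := not_mean μ ζ hζ1
  apply hr
  rw [← havg]
  refine H 1 le_rfl phi (fun z w => rfl) u ?_ ⟨1, ?_⟩ ?_ 0 (by simp) r hr0 hr1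
  · intro z hz
    exact (analyticAt_u z hz).continuousAt.continuousWithinAt
  · intro z hz
    exact (abs_u_lt z hz).le
  · intro z hz
    obtain ⟨r, hr0, hr1, hr⟩ := one_radius μ ζ hζm hζ1 z hz
    exact ⟨r, hr0, hr1, by rw [havg]; exact hr⟩

end Pool.Agent.S1654
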