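import Pool.Statements.S1664
import Pool.Agent.H14.Pap2
-- import your own Pool.Agent.* helpers here

set_option autoImplicit false
open Pool Pool.MP_a56edf_an

namespace Pool.Agent.S1664

/-- The negation of the preceding statement: Let E be a separable real or complex Banach space and λ ≥ 1. Suppose for every δ > 0, compact Q and ε > 0, some finite-rank projection of norm ≤ λ+δ is within ε of the identity on Q. Then the same holds with norm ≤ λ. -/
theorem result :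
    ¬ (∀ (𝕜 : Type) [RCLike 𝕜] (E : Type) [NormedAddCommGroup E] [NormedSpace 𝕜 E]
      [CompleteSpace E] [TopologicalSpace.SeparableSpace E] (lam : ℝ), 1 ≤ lam →
      (∀ δ : ℝ, 0 < δ → ∀ Q : Set E, IsCompact Q → ∀ ε : ℝ, 0 < ε →
        ∃ u : E →L[𝕜] E, FiniteDimensional 𝕜 (LinearMap.range (u : E →ₗ[𝕜] E)) ∧
          u.comp u = u ∧ ‖u‖ ≤ lam + δ ∧ ∀ x ∈ Q, ‖u x - x‖ ≤ ε) →
      (∀ Q : Set E, IsCompact Q → ∀ ε : ℝ, 0 < ε →
        ∃ u : E →L[𝕜] E, FiniteDimensional 𝕜 (LinearMap.range (u : E →ₗ[𝕜] E)) ∧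
          u.comp u = u ∧ ‖u‖ ≤ lam ∧ ∀ x ∈ Q, ‖u x - x‖ ≤ ε)) := by
  intro h
  have h1 := h ℝ Pool.Agent.H14.PAP.E 1 le_rfl (fun δ hδ Q hQ ε hε => Pool.Agent.H14.PAP.partA δ hδ Q hQ ε hε)
  exact Pool.Agent.H14.PAP.partB (h1 _ (Set.Finite.isCompact (by simp)) (1 / 10) (by norm_num))

end Pool.Agent.S1664
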