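-- Proof of the frozen statement S1678 (the negation): commuting diagonal 3 x 3 matrices, p = 3/2.
import Pool.Statements.S1678

set_option autoImplicit false
open scoped ComplexOrder
open Pool Pool.MP_a946bc_an

namespace Pool.Agent.S1678

open Matrix

/-- For a real diagonal matrix, sums over the eigenvalues are sums over the diagonal. -/
theorem sum_eigenvalues {n : ℕ} (d : Fin n → ℝ) (M : Matrix (Fin n) (Fin n) ℂ)
    (hM : M.IsHermitian) (h : M = Matrix.diagonal (fun i => (d i : ℂ))) (f : ℝ → ℝ) :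
    ∑ i, f (hM.eigenvalues i) = ∑ i, f (d i) := by
  have h1 := hM.roots_charpoly_eq_eigenvalues
  have h2 : M.charpoly.roots = Multiset.map (fun i => (d i : ℂ)) Finset.univ.val := by
    rw [h, Matrix.charpoly_diagonal]
    have h3 := Polynomial.roots_multiset_prod_X_sub_C
      (Multiset.map (fun i => (d i : ℂ)) Finset.univ.val)
    rw [Multiset.map_map] at h3
    exact h3
  rw [h1] at h2
  have h3 := congrArg (fun s : Multiset ℂ => (s.map (fun z => f z.re)).sum) h2
  simpa [Multiset.map_map, Function.comp_def, Finset.sum] using h3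

/-- the diagonal matrices -/
def D (a b c : ℝ) : Matrix (Fin 3) (Fin 3) ℂ := Matrix.diagonal (fun i => ((![a, b, c] i : ℝ) : ℂ))

theorem D_posSemidef (a b c : ℝ) (ha : 0 ≤ a) (hb : 0 ≤ b) (hc : 0 ≤ c) :
    (D a b c).PosSemidef := by
  unfold D
  rw [Matrix.posSemidef_diagonal_iff]
  intro i
  fin_cases i <;> simp [ha, hb, hc]

theorem D_charpoly (a b c : ℝ) :
    (D a b c).charpoly = (Polynomial.X - Polynomial.C (a : ℂ)) *
      (Polynomial.X - Polynomial.C (b : ℂ)) * (Polynomial.X - Polynomial.C (c : ℂ)) := by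
  unfold D
  rw [Matrix.charpoly_diagonal, Fin.prod_univ_three]
  rfl

theorem D_mul (a b c a' b' c' : ℝ) : D a b c * D a' b' c' = D (a * a') (b * b') (c * c') := by
  unfold D
  rw [Matrix.diagonal_mul_diagonal]
  congr 1
  funext i
  fin_cases i <;> simp

theorem D_add (a b c a' b' c' : ℝ) : D a b c + D a' b' c' = D (a + a') (b + b') (c + c') := by
  unfold D
  rw [Matrix.diagonal_add]
  congr 1
  funext i
  fin_cases i <;> simp

theorem D_one : D 1 1 1 = 1 := by
  unfold D
  rw [← Matrix.diagonal_one]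
  congr 1
  funext i
  fin_cases i <;> simp

theorem D_trace (a b c : ℝ) : (D a b c).trace = ((a + b + c : ℝ) : ℂ) := by
  unfold D
  rw [Matrix.trace_diagonal, Fin.sum_univ_three]
  simp

theorem word_prod (a b c a' b' c' : ℝ) (s : List Bool) :
    (s.map (fun t => cond t (D a' b' c') (D a b c))).prod =
      D (a ^ s.count false * a' ^ s.count true) (b ^ s.count false * b' ^ s.count true)
        (c ^ s.count false * c' ^ s.count true) := by
  induction s with
  | nil => simp [D_one]
  | cons t s ih =>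
    rw [List.map_cons, List.prod_cons, ih]
    cases t
    · simp only [cond_false, D_mul, List.count_cons]
      congr 1 <;> simp [pow_succ] <;> ring
    · simp only [cond_true, D_mul, List.count_cons]
      congr 1 <;> simp [pow_succ] <;> ring

/-- the inequality between word traces -/
theorem key (i j : ℕ) :
    (2 : ℝ) ^ i * 1 ^ j + 1 ^ i * 2 ^ j + 0 ^ i * 0 ^ j ≤
      (2 : ℝ) ^ i * 2 ^ j + 1 ^ i * 0 ^ j + 0 ^ i * 1 ^ j := by
  rcases Nat.eq_zero_or_pos i with hi | hi
  · subst hi
    rcases Nat.eq_zero_or_pos j with hj | hj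
    · subst hj
      norm_num
    · rw [zero_pow hj.ne']
      norm_num
      linarith
  · rcases Nat.eq_zero_or_pos j with hj | hj
    · subst hj
      rw [zero_pow hi.ne']
      norm_num
    · rw [zero_pow hj.ne', zero_pow hi.ne']
      have h1 : (2 : ℝ) ≤ 2 ^ i := by
        calc (2 : ℝ) = 2 ^ 1 := by norm_num
          _ ≤ 2 ^ i := pow_le_pow_right₀ (by norm_num) hi
      have h2 : (2 : ℝ) ≤ 2 ^ j := by
        calc (2 : ℝ) = 2 ^ 1 := by norm_num
          _ ≤ 2 ^ j := pow_le_pow_right₀ (by norm_num) hj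
      simp only [one_pow, mul_one, one_mul, mul_zero, add_zero]
      nlinarith

/-- The negation of the preceding statement: For PSD complex n×n matrices with A₀,B₀ isospectral and A₁,B₁ isospectral, if every word trace in A is real and at least the modulus of the matching word trace in B, then for all p≥1 the sum of p-th powers of eigenvalues of A₀+A₁ is at least that of B₀+B₁. -/
theorem result :
    ¬ (∀ (n : ℕ) (A₀ A₁ B₀ B₁ : Matrix (Fin n) (Fin n) ℂ)
      (hA₀ : A₀.PosSemidef) (hA₁ : A₁.PosSemidef)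
      (hB₀ : B₀.PosSemidef) (hB₁ : B₁.PosSemidef),
      A₀.charpoly = B₀.charpoly →
      A₁.charpoly = B₁.charpoly →
      (∀ s : List Bool,
        ((‖((s.map (fun b => cond b B₁ B₀)).prod).trace‖ : ℝ) : ℂ) ≤
          ((s.map (fun b => cond b A₁ A₀)).prod).trace) →
      ∀ p : ℝ, 1 ≤ p →
        ∑ i, ((hB₀.add hB₁).isHermitian.eigenvalues i) ^ p ≤
          ∑ i, ((hA₀.add hA₁).isHermitian.eigenvalues i) ^ p) := by
  intro H
  have hA₀ : (D 2 1 0).PosSemidef := D_posSemidef _ _ _ (by norm_num) (by norm_num) (by norm_num)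
  have hA₁ : (D 2 0 1).PosSemidef := D_posSemidef _ _ _ (by norm_num) (by norm_num) (by norm_num)
  have hB₁ : (D 1 2 0).PosSemidef := D_posSemidef _ _ _ (by norm_num) (by norm_num) (by norm_num)
  have h := H 3 (D 2 1 0) (D 2 0 1) (D 2 1 0) (D 1 2 0) hA₀ hA₁ hA₀ hB₁ rfl
    (by rw [D_charpoly, D_charpoly]; ring)
    (by
      intro s
      rw [word_prod, word_prod, D_trace, D_trace]
      rw [Complex.norm_real, Complex.real_le_real, Real.norm_eq_abs, abs_of_nonneg]
      · exact key _ _
      · positivity)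
    (3 / 2) (by norm_num)
  rw [sum_eigenvalues ![3, 3, 0] _ (hA₀.add hB₁).isHermitian
      (by rw [D_add]; unfold D; norm_num) (fun x => x ^ (3 / 2 : ℝ)),
    sum_eigenvalues ![4, 1, 1] _ (hA₀.add hA₁).isHermitian
      (by rw [D_add]; unfold D; norm_num) (fun x => x ^ (3 / 2 : ℝ))] at h
  rw [Fin.sum_univ_three, Fin.sum_univ_three] at h
  simp only [Matrix.cons_val_zero, Matrix.cons_val_one, Matrix.cons_val] at h
  have h4 : (4 : ℝ) ^ (3 / 2 : ℝ) = 8 := by
    have : (4 : ℝ) = 2 ^ (2 : ℝ) := by norm_num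
    rw [this, ← Real.rpow_mul (by norm_num)]
    norm_num
  have h0 : (0 : ℝ) ^ (3 / 2 : ℝ) = 0 := Real.zero_rpow (by norm_num)
  rw [h4, h0, Real.one_rpow] at h
  have h3 : ((3 : ℝ) ^ (3 / 2 : ℝ)) ^ 2 = 27 := by
    rw [← Real.rpow_natCast, ← Real.rpow_mul (by norm_num)]
    norm_num
  have h3' : (0 : ℝ) ≤ (3 : ℝ) ^ (3 / 2 : ℝ) := by positivity
  nlinarith

end Pool.Agent.S1678
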