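import Pool.Statements.S1713
import Pool.Agent.Helpers.BP10

set_option autoImplicit false
open MeasureTheory
open Pool Pool.MP_bbfc99_an

namespace Pool.Agent.S1713

/-- There is a complete orthonormal sequence of measurable L² functions on [0,1] such that, for every nonzero polynomial, the partial sums of its expansion in that sequence fail to converge at almost every point of [0,1]. -/
theorem result :
  ∃ φ : ℕ → ℝ → ℝ,
    (∀ n, Measurable (φ n)) ∧
    (∀ n, MemLp (φ n) 2 (volume.restrict (Set.Icc (0:ℝ) 1))) ∧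
    (∀ n m, ∫ t in Set.Icc (0:ℝ) 1, φ n t * φ m t = if n = m then (1:ℝ) else 0) ∧
    (∀ f : ℝ → ℝ, MemLp f 2 (volume.restrict (Set.Icc (0:ℝ) 1)) →
      (∀ n, ∫ t in Set.Icc (0:ℝ) 1, f t * φ n t = 0) →
      f =ᵐ[volume.restrict (Set.Icc (0:ℝ) 1)] 0) ∧
    ∀ p : Polynomial ℝ, p ≠ 0 →
      ∀ᵐ t ∂(volume.restrict (Set.Icc (0:ℝ) 1)),
        ¬ ∃ L : ℝ, Filter.Tendsto
          (fun N : ℕ => ∑ n ∈ Finset.range N,
            (∫ s in Set.Icc (0:ℝ) 1, p.eval s * φ n s) * φ n t)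
          Filter.atTop (nhds L) := by
  obtain ⟨φ, h1, h2, h3⟩ := Pool.Agent.BP.main
  refine ⟨fun n => (φ n : ℝ → ℝ), fun n => (Lp.stronglyMeasurable (φ n)).measurable,
    fun n => Lp.memLp (φ n), ?_, ?_, ?_⟩
  · intro n m
    rw [← h1 n m, Pool.Agent.BP.inner_HH]
  · intro f hf hz
    have h4 : hf.toLp f = 0 := by
      apply h2
      intro n
      rw [Pool.Agent.BP.inner_HH]
      refine Eq.trans ?_ (hz n)
      refine integral_congr_ae ?_
      filter_upwards [hf.coeFn_toLp] with t ht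
      rw [ht]
    have h5 := hf.coeFn_toLp
    rw [h4] at h5
    exact h5.symm.trans (Lp.coeFn_zero ℝ 2 _)
  · intro p hp
    have e1 : ∀ n, ∫ s in Set.Icc (0:ℝ) 1, p.eval s * φ n s = inner ℝ (Pool.Agent.BP.PL 0 p) (φ n) := by
      intro n
      rw [Pool.Agent.BP.inner_HH]
      refine integral_congr_ae ?_
      have a1 : ∀ᵐ t ∂(volume.restrict (Set.Icc (0:ℝ) 1)), t ∈ Set.Icc (0 : ℝ) 1 :=
        ae_restrict_mem measurableSet_Icc
      have a2 : ∀ᵐ t ∂(volume.restrict (Set.Icc (0:ℝ) 1)), t ≠ 0 := by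
        apply ae_restrict_of_ae
        exact Measure.ae_ne volume 0
      filter_upwards [Pool.Agent.BP.PL_coe 0 p, a1, a2] with t b1 b2 b3
      rw [b1, Set.indicator_of_mem]
      exact ⟨lt_of_le_of_ne b2.1 (Ne.symm b3), b2.2⟩
    simp only [e1]
    exact h3 p hp

end Pool.Agent.S1713
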