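import Pool.Statements.S1726
-- import your own Pool.Agent.* helpers here

set_option autoImplicit false
open MeasureTheory
open Pool Pool.MP_c09e54_an

namespace Pool.Agent.S1726

/-- The negation of the preceding statement: Any two bounded Lebesgue measurable subsets of the reals of equal measure become, after deleting null sets, equidecomposable: finitely many disjoint measurable pieces of one, moved by isometries of the line, exactly tile the other. -/
theorem result :
    ¬ (∀ A B : Set ℝ, NullMeasurableSet A volume → NullMeasurableSet B volume →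
      Bornology.IsBounded A → Bornology.IsBounded B → volume A = volume B →
      ∃ E₁ E₂ : Set ℝ, volume E₁ = 0 ∧ volume E₂ = 0 ∧
        ∃ (n : ℕ) (P : Fin n → Set ℝ) (f : Fin n → ℝ → ℝ),
          (∀ i, NullMeasurableSet (P i) volume) ∧
          (∀ i, Isometry (f i)) ∧
          Pairwise (fun i j => Disjoint (P i) (P j)) ∧
          Pairwise (fun i j => Disjoint (f i '' P i) (f j '' P j)) ∧
          (⋃ i, P i) = A \ E₁ ∧
          (⋃ i, f i '' P i) = B \ E₂) := by


  intro H
  -- an open set containing the rationals, of measure less than one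
  obtain ⟨U, hQU, hUo, hUm⟩ : ∃ U ⊇ Set.range ((↑) : ℚ → ℝ), IsOpen U ∧ volume U < 1 := by
    have h0 : volume (Set.range ((↑) : ℚ → ℝ)) = 0 := (Set.countable_range _).measure_zero _
    exact (Set.range ((↑) : ℚ → ℝ)).exists_isOpen_lt_of_lt 1 (by rw [h0]; norm_num)
  set A : Set ℝ := Set.Icc 0 1 \ U with hA
  have hAcomp : IsCompact A := isCompact_Icc.diff hUo
  have hAint : interior A = ∅ := by
    by_contra hne
    have hne' : (interior A).Nonempty := Set.nonempty_iff_ne_empty.mpr hne
    obtain ⟨x, hx⟩ := (Rat.denseRange_cast (𝕜 := ℝ)).exists_mem_open isOpen_interior hne'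
    exact (interior_subset hx).2 (hQU ⟨x, rfl⟩)
  have hApos : 0 < volume A := by
    have h1 : volume (Set.Icc (0:ℝ) 1) ≤ volume A + volume U := by
      calc volume (Set.Icc (0:ℝ) 1) ≤ volume (A ∪ U) := by
            apply measure_mono
            intro x hx
            by_cases hxU : x ∈ U
            · exact Or.inr hxU
            · exact Or.inl ⟨hx, hxU⟩
        _ ≤ _ := measure_union_le _ _
    rw [Real.volume_Icc] at h1
    norm_num at h1
    by_contra h
    have h0 : volume A = 0 := by simpa using h
    rw [h0, zero_add] at h1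
    exact absurd hUm (not_lt.mpr h1)
  have hAfin : volume A ≠ ⊤ := hAcomp.measure_lt_top.ne
  set m : ℝ := (volume A).toReal with hm
  have hmpos : 0 < m := ENNReal.toReal_pos hApos.ne' hAfin
  have hvol : volume A = volume (Set.Icc 0 m) := by
    rw [Real.volume_Icc, sub_zero, hm, ENNReal.ofReal_toReal hAfin]
  obtain ⟨E₁, E₂, hE₁, hE₂, n, P, f, hP, hf, -, -, hPA, hPB⟩ := H A (Set.Icc 0 m)
    hAcomp.measurableSet.nullMeasurableSet measurableSet_Icc.nullMeasurableSet
    hAcomp.isBounded (Metric.isBounded_Icc _ _) hvol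
  have hclosed : ∀ i, IsClosed (f i '' A) := fun i => (hAcomp.image (hf i).continuous).isClosed
  have hdense : ∀ i, Dense (f i '' A)ᶜ := by
    intro i
    rw [← interior_eq_empty_iff_dense_compl]
    by_contra hne
    obtain ⟨y, hy⟩ := Set.nonempty_iff_ne_empty.mpr hne
    have hopen : IsOpen (f i ⁻¹' interior (f i '' A)) := isOpen_interior.preimage (hf i).continuous
    have hsub : f i ⁻¹' interior (f i '' A) ⊆ A := by
      intro x hx
      obtain ⟨a, ha, hax⟩ := interior_subset hx
      rwa [← (hf i).injective hax]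
    obtain ⟨a, ha, hay⟩ := interior_subset hy
    have : a ∈ interior A := interior_maximal hsub hopen (by rw [Set.mem_preimage, hay]; exact hy)
    rw [hAint] at this
    exact this
  have hD : Dense (⋂ i, (f i '' A)ᶜ) := dense_iInter_of_isOpen (fun i => (hclosed i).isOpen_compl) hdense
  have hDo : IsOpen (⋂ i, (f i '' A)ᶜ) := isOpen_iInter_of_finite (fun i => (hclosed i).isOpen_compl)
  have hne : (Set.Ioo 0 m ∩ ⋂ i, (f i '' A)ᶜ).Nonempty := by
    exact hD.inter_open_nonempty _ isOpen_Ioo (Set.nonempty_Ioo.mpr hmpos)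
  have hsub : (Set.Ioo 0 m ∩ ⋂ i, (f i '' A)ᶜ) ⊆ E₂ := by
    rintro x ⟨hx, hx2⟩
    by_contra hxE
    have : x ∈ ⋃ i, f i '' P i := by
      rw [hPB]; exact ⟨⟨hx.1.le, hx.2.le⟩, hxE⟩
    obtain ⟨i, a, haP, hax⟩ := Set.mem_iUnion.mp this
    have haA : a ∈ A := by
      have : a ∈ ⋃ i, P i := Set.mem_iUnion.mpr ⟨i, haP⟩
      rw [hPA] at this
      exact this.1
    exact (Set.mem_iInter.mp hx2 i) ⟨a, haA, hax⟩
  have hzero : volume (Set.Ioo 0 m ∩ ⋂ i, (f i '' A)ᶜ) = 0 := measure_mono_null hsub hE₂
  have hpos := (isOpen_Ioo.inter hDo).measure_pos volume hne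
  exact hpos.ne' hzero

end Pool.Agent.S1726
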