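import Pool.Statements.S1789

set_option autoImplicit false
open Pool Pool.MP_d393fc_an

namespace Pool.Agent.S1789

open MeasureTheory Set Filter Topology

section A

variable {ω : ℝ → ℝ}

lemma cont_scaled (hc : ContinuousOn ω (Ici 0)) {r : ℝ} (hr : 0 < r) :
    ContinuousOn (fun s => ω (r * s)) (Ici 0) := by
  apply hc.comp (by fun_prop)
  intro s hs
  exact mul_nonneg hr.le hs

lemma int_pow (hint : ∀ j : ℕ, IntegrableOn (fun x : ℝ => ω x * x ^ j) (Ioi 0)) (j : ℕ)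
    {r : ℝ} (hr : 0 ≤ r) : IntegrableOn (fun x : ℝ => ω x * x ^ j) (Ioi r) :=
  (hint j).mono_set (Ioi_subset_Ioi hr)

lemma int_inv (hc : ContinuousOn ω (Ici 0)) (hpos : ∀ x : ℝ, 0 ≤ x → 0 < ω x)
    (hint : ∀ j : ℕ, IntegrableOn (fun x : ℝ => ω x * x ^ j) (Ioi 0))
    {r : ℝ} (hr : 0 < r) : IntegrableOn (fun x : ℝ => ω x / x) (Ioi r) := by
  have h0 := (int_pow hint 0 hr.le).mul_const (r⁻¹)
  refine Integrable.mono' h0 ?_ ?_
  · apply ContinuousOn.aestronglyMeasurable _ measurableSet_Ioi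
    apply ContinuousOn.div (hc.mono fun x hx => (hr.trans hx).le) continuousOn_id
    intro x hx
    exact (hr.trans hx).ne'
  · filter_upwards [ae_restrict_mem measurableSet_Ioi] with x hx
    have hx' : r < x := hx
    have hx0 : 0 < x := hr.trans hx'
    rw [Real.norm_eq_abs, abs_of_pos (div_pos (hpos x hx0.le) hx0), pow_zero, mul_one,
      div_eq_mul_inv]
    have := (hpos x hx0.le).le
    gcongr

lemma int_invpow (hc : ContinuousOn ω (Ici 0)) (hpos : ∀ x : ℝ, 0 ≤ x → 0 < ω x)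
    (hint : ∀ j : ℕ, IntegrableOn (fun x : ℝ => ω x * x ^ j) (Ioi 0)) (j : ℕ)
    {r : ℝ} (hr : 0 < r) : IntegrableOn (fun x : ℝ => ω x * (x ^ (j + 2))⁻¹) (Ioi r) := by
  have h0 := (int_inv hc hpos hint hr).mul_const ((r ^ (j + 1))⁻¹)
  refine Integrable.mono' h0 ?_ ?_
  · apply ContinuousOn.aestronglyMeasurable _ measurableSet_Ioi
    apply ContinuousOn.mul (hc.mono fun x hx => (hr.trans hx).le)
    apply ContinuousOn.inv₀ (by fun_prop)
    intro x hx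
    exact pow_ne_zero _ (hr.trans hx).ne'
  · filter_upwards [ae_restrict_mem measurableSet_Ioi] with x hx
    have hx' : r < x := hx
    have hx0 : 0 < x := hr.trans hx'
    have h1 := hpos x hx0.le
    rw [Real.norm_eq_abs, abs_of_pos (by positivity)]
    have e : ω x * (x ^ (j + 2))⁻¹ = ω x / x * (x ^ (j + 1))⁻¹ := by
      field_simp
      ring
    rw [e]
    gcongr

lemma J_le (hc : ContinuousOn ω (Ici 0)) (hpos : ∀ x : ℝ, 0 ≤ x → 0 < ω x)
    (hint : ∀ j : ℕ, IntegrableOn (fun x : ℝ => ω x * x ^ j) (Ioi 0)) (j : ℕ)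
    {r : ℝ} (hr : 0 < r) :
    ∫ x in Ioi r, ω x * (x ^ (j + 2))⁻¹ ≤ (∫ x in Ioi r, ω x / x) * (r ^ (j + 1))⁻¹ := by
  rw [← integral_mul_const]
  apply setIntegral_mono_on (int_invpow hc hpos hint j hr) ((int_inv hc hpos hint hr).mul_const _)
    measurableSet_Ioi
  intro x hx
  have hx' : r < x := hx
  have hx0 : 0 < x := hr.trans hx'
  have h1 := hpos x hx0.le
  have e : ω x * (x ^ (j + 2))⁻¹ = ω x / x * (x ^ (j + 1))⁻¹ := by
    field_simp
    ring
  rw [e]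
  gcongr

lemma J_nonneg (hpos : ∀ x : ℝ, 0 ≤ x → 0 < ω x) (j : ℕ) {r : ℝ} (hr : 0 < r) :
    0 ≤ ∫ x in Ioi r, ω x * (x ^ (j + 2))⁻¹ := by
  apply setIntegral_nonneg measurableSet_Ioi
  intro x hx
  have hx0 : 0 < x := hr.trans hx
  have h1 := hpos x hx0.le
  positivity

lemma T_nonneg (hpos : ∀ x : ℝ, 0 ≤ x → 0 < ω x) (j : ℕ) {r : ℝ} (hr : 0 ≤ r) :
    0 ≤ ∫ x in Ioi r, ω x * x ^ j := by
  apply setIntegral_nonneg measurableSet_Ioi
  intro x hx
  have hx0 : 0 < x := hr.trans_lt hx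
  have h1 := hpos x hx0.le
  positivity

lemma I_nonneg (hpos : ∀ x : ℝ, 0 ≤ x → 0 < ω x) (j : ℕ) (r : ℝ) :
    0 ≤ ∫ x in Ioc 0 r, ω x * x ^ j := by
  apply setIntegral_nonneg measurableSet_Ioc
  intro x hx
  have hx0 : 0 < x := hx.1
  have h1 := hpos x hx0.le
  positivity

lemma L_pos (hc : ContinuousOn ω (Ici 0)) (hpos : ∀ x : ℝ, 0 ≤ x → 0 < ω x)
    (hint : ∀ j : ℕ, IntegrableOn (fun x : ℝ => ω x * x ^ j) (Ioi 0))
    {r : ℝ} (hr : 0 < r) : 0 < ∫ x in Ioi r, ω x / x := by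
  rw [setIntegral_pos_iff_support_of_nonneg_ae _ (int_inv hc hpos hint hr)]
  · have : Function.support (fun x => ω x / x) ∩ Ioi r = Ioi r := by
      apply inter_eq_right.2
      intro x hx
      have hx0 : 0 < x := hr.trans hx
      exact (div_pos (hpos x hx0.le) hx0).ne'
    rw [this]
    simp
  · filter_upwards [ae_restrict_mem measurableSet_Ioi] with x hx
    have hx0 : 0 < x := hr.trans hx
    exact (div_pos (hpos x hx0.le) hx0).le

lemma L_anti (hc : ContinuousOn ω (Ici 0)) (hpos : ∀ x : ℝ, 0 ≤ x → 0 < ω x)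
    (hint : ∀ j : ℕ, IntegrableOn (fun x : ℝ => ω x * x ^ j) (Ioi 0))
    {r s : ℝ} (hr : 0 < r) (h : r ≤ s) : ∫ x in Ioi s, ω x / x ≤ ∫ x in Ioi r, ω x / x := by
  apply setIntegral_mono_set (int_inv hc hpos hint hr)
  · filter_upwards [ae_restrict_mem measurableSet_Ioi] with x hx
    have hx0 : 0 < x := hr.trans hx
    exact (div_pos (hpos x hx0.le) hx0).le
  · exact (Ioi_subset_Ioi h).eventuallyLE

lemma M_ge (hpos : ∀ x : ℝ, 0 ≤ x → 0 < ω x) (hanti : AntitoneOn ω (Ici 0))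
    (hint : ∀ j : ℕ, IntegrableOn (fun x : ℝ => ω x * x ^ j) (Ioi 0)) (j : ℕ)
    {m : ℝ} (hm : 0 < m) : ω (2 * m) * m ^ (j + 1) ≤ ∫ x in Ioi 0, ω x * x ^ j := by
  have h1 : ∫ x in Ioc m (2 * m), ω x * x ^ j ≤ ∫ x in Ioi 0, ω x * x ^ j := by
    apply setIntegral_mono_set (hint j)
    · filter_upwards [ae_restrict_mem measurableSet_Ioi] with x hx
      have hx0 : (0 : ℝ) < x := hx
      have := hpos x hx0.le
      simp only [Pi.zero_apply]
      positivity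
    · apply LE.le.eventuallyLE
      intro x hx
      exact hm.trans hx.1
  refine le_trans ?_ h1
  have h2 : ∫ x in Ioc m (2 * m), (ω (2 * m) * m ^ j) = ω (2 * m) * m ^ (j + 1) := by
    rw [setIntegral_const]
    simp only [Measure.real, Real.volume_Ioc, smul_eq_mul]
    rw [ENNReal.toReal_ofReal (by linarith)]
    ring
  rw [← h2]
  apply setIntegral_mono_on
  · apply integrableOn_const (by simp)
  · exact (hint j).mono_set fun x hx => hm.trans hx.1
  · exact measurableSet_Ioc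
  · intro x hx
    have hx0 : 0 < x := hm.trans hx.1
    have e1 : ω (2 * m) ≤ ω x := hanti hx0.le (by simp; linarith) hx.2
    have e2 := (hpos (2 * m) (by linarith)).le
    have e3 := hx.1.le
    have e5 := (hpos x hx0.le).le
    gcongr

lemma I_le (hpos : ∀ x : ℝ, 0 ≤ x → 0 < ω x) (hanti : AntitoneOn ω (Ici 0))
    (hint : ∀ j : ℕ, IntegrableOn (fun x : ℝ => ω x * x ^ j) (Ioi 0)) (j : ℕ)
    {r : ℝ} (hr : 0 < r) : ∫ x in Ioc 0 r, ω x * x ^ j ≤ ω 0 * r ^ (j + 1) := by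
  have h2 : ∫ x in Ioc 0 r, (ω 0 * r ^ j) = ω 0 * r ^ (j + 1) := by
    rw [setIntegral_const]
    simp only [Measure.real, Real.volume_Ioc, smul_eq_mul]
    rw [ENNReal.toReal_ofReal (by linarith)]
    ring
  rw [← h2]
  apply setIntegral_mono_on
  · exact (hint j).mono_set fun x hx => hx.1
  · apply integrableOn_const (by simp)
  · exact measurableSet_Ioc
  · intro x hx
    have hx0 : 0 < x := hx.1
    have e1 : ω x ≤ ω 0 := hanti (by simp) hx0.le hx0.le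
    have e2 := (hpos x hx0.le).le
    have e4 := (hpos 0 le_rfl).le
    have e3 := hx.2
    gcongr

lemma I_add_T (hint : ∀ j : ℕ, IntegrableOn (fun x : ℝ => ω x * x ^ j) (Ioi 0)) (j : ℕ)
    {r : ℝ} (hr : 0 < r) : (∫ x in Ioc 0 r, ω x * x ^ j) + ∫ x in Ioi r, ω x * x ^ j
      = ∫ x in Ioi 0, ω x * x ^ j := by
  rw [← setIntegral_union]
  · rw [Ioc_union_Ioi_eq_Ioi hr.le]
  · rw [Set.disjoint_left]
    intro x hx hx'
    exact absurd hx.2 (not_le.2 hx')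
  · exact measurableSet_Ioi
  · exact (hint j).mono_set fun x hx => hx.1
  · exact (hint j).mono_set (Ioi_subset_Ioi hr.le)

/-- `r^{-(j+1)} T_j(r)` as a scaled integral -/
lemma T_scaled (j : ℕ) {r : ℝ} (hr : 0 < r) :
    ∫ s in Ioi 1, ω (r * s) * s ^ j = (∫ x in Ioi r, ω x * x ^ j) / r ^ (j + 1) := by
  have h := integral_comp_mul_left_Ioi (fun x => ω x * x ^ j) 1 hr
  rw [mul_one] at h
  rw [eq_div_iff (by positivity), ← integral_mul_const]
  have e : ∀ s : ℝ, ω (r * s) * s ^ j * r ^ (j + 1) = r * (ω (r * s) * (r * s) ^ j) := by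
    intro s; ring
  simp only [e]
  rw [integral_const_mul, h]
  rw [smul_eq_mul, ← mul_assoc, mul_inv_cancel₀ hr.ne', one_mul]

lemma L_scaled {r : ℝ} (hr : 0 < r) :
    ∫ s in Ioi 1, ω (r * s) / s = ∫ x in Ioi r, ω x / x := by
  have h := integral_comp_mul_left_Ioi (fun x => ω x / x) 1 hr
  rw [mul_one] at h
  have e : ∀ s : ℝ, ω (r * s) / s = r * (ω (r * s) / (r * s)) := by
    intro s
    rcases eq_or_ne s 0 with rfl | hs
    · simp
    · field_simp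
  simp only [e]
  rw [integral_const_mul, h]
  rw [smul_eq_mul, ← mul_assoc, mul_inv_cancel₀ hr.ne', one_mul]

lemma int_T_scaled (hint : ∀ j : ℕ, IntegrableOn (fun x : ℝ => ω x * x ^ j) (Ioi 0)) (j : ℕ)
    {r : ℝ} (hr : 0 < r) : IntegrableOn (fun s => ω (r * s) * s ^ j) (Ioi 1) := by
  have h := (integrableOn_Ioi_comp_mul_left_iff (fun x => ω x * x ^ j) 1 hr).2
    (by rw [mul_one]; exact int_pow hint j hr.le)
  have h2 := h.mul_const ((r ^ j)⁻¹)
  refine h2.congr ?_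
  filter_upwards with s
  rw [mul_pow]
  field_simp

lemma int_L_scaled (hc : ContinuousOn ω (Ici 0)) (hpos : ∀ x : ℝ, 0 ≤ x → 0 < ω x)
    (hint : ∀ j : ℕ, IntegrableOn (fun x : ℝ => ω x * x ^ j) (Ioi 0))
    {r : ℝ} (hr : 0 < r) : IntegrableOn (fun s => ω (r * s) / s) (Ioi 1) := by
  have h := (integrableOn_Ioi_comp_mul_left_iff (fun x => ω x / x) 1 hr).2
    (by rw [mul_one]; exact int_inv hc hpos hint hr)
  have h2 := h.const_mul r
  refine h2.congr ?_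
  filter_upwards with s
  rcases eq_or_ne s 0 with rfl | hs
  · simp
  · field_simp

lemma ratio_anti (hpos : ∀ x : ℝ, 0 ≤ x → 0 < ω x)
    {R0 : ℝ} (hR0 : 0 < R0) (hd : ∀ x : ℝ, R0 < x → DifferentiableAt ℝ ω x)
    (hη : AntitoneOn (fun x : ℝ => x * deriv ω x / ω x) (Ioi R0))
    {r1 r : ℝ} (h1 : R0 < r1) (h : r1 ≤ r) :
    AntitoneOn (fun s => ω (r * s) / ω (r1 * s)) (Ici 1) := by
  have hr1 : 0 < r1 := hR0.trans h1
  have hr : 0 < r := hr1.trans_le h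
  have hder : ∀ ρ : ℝ, R0 < ρ → ∀ s : ℝ, 1 ≤ s → HasDerivAt (fun s => Real.log (ω (ρ * s)))
      ((ρ * s * deriv ω (ρ * s) / ω (ρ * s)) / s) s := by
    intro ρ hρ s hs
    have hρ0 : 0 < ρ := hR0.trans hρ
    have hs0 : 0 < s := by linarith
    have hgt : R0 < ρ * s := by nlinarith
    have e1 : HasDerivAt (fun s : ℝ => ρ * s) ρ s := by
      simpa using (hasDerivAt_id s).const_mul ρ
    have e2 : HasDerivAt (fun s : ℝ => ω (ρ * s)) (deriv ω (ρ * s) * ρ) s :=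
      (hd _ hgt).hasDerivAt.comp s e1
    have hp : 0 < ω (ρ * s) := hpos _ (by positivity)
    have e3 := e2.log hp.ne'
    convert e3 using 1
    field_simp
  have hφ : AntitoneOn (fun s => Real.log (ω (r * s)) - Real.log (ω (r1 * s))) (Ici 1) := by
    have hD : ∀ s : ℝ, 1 ≤ s → HasDerivAt
        (fun s => Real.log (ω (r * s)) - Real.log (ω (r1 * s)))
        ((r * s * deriv ω (r * s) / ω (r * s)) / s
          - (r1 * s * deriv ω (r1 * s) / ω (r1 * s)) / s) s := fun s hs =>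
      (hder r (h1.trans_le h) s hs).sub (hder r1 h1 s hs)
    apply antitoneOn_of_deriv_nonpos (convex_Ici 1)
    · intro s hs
      exact (hD s hs).continuousAt.continuousWithinAt
    · intro s hs
      rw [interior_Ici] at hs
      exact (hD s (le_of_lt hs)).differentiableAt.differentiableWithinAt
    · intro s hs
      rw [interior_Ici] at hs
      have hs1 : (1 : ℝ) < s := hs
      rw [(hD s hs1.le).deriv]
      have hs0 : 0 < s := by linarith
      rw [← sub_div]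
      apply div_nonpos_of_nonpos_of_nonneg _ hs0.le
      rw [sub_nonpos]
      apply hη
      · show R0 < r1 * s
        nlinarith
      · show R0 < r * s
        nlinarith
      · gcongr
  intro s hs t ht hst
  have hs0 : (0 : ℝ) < s := lt_of_lt_of_le one_pos hs
  have ht0 : (0 : ℝ) < t := lt_of_lt_of_le one_pos ht
  have e : ∀ s : ℝ, 0 < s → ω (r * s) / ω (r1 * s)
      = Real.exp (Real.log (ω (r * s)) - Real.log (ω (r1 * s))) := by
    intro s hs
    have p1 : 0 < ω (r * s) := hpos _ (by positivity)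
    have p2 : 0 < ω (r1 * s) := hpos _ (by positivity)
    rw [Real.exp_sub, Real.exp_log p1, Real.exp_log p2]
  simp only
  rw [e s hs0, e t ht0]
  exact Real.exp_le_exp.2 (hφ hs ht hst)

lemma ratio (hc : ContinuousOn ω (Ici 0)) (hpos : ∀ x : ℝ, 0 ≤ x → 0 < ω x)
    (hint : ∀ j : ℕ, IntegrableOn (fun x : ℝ => ω x * x ^ j) (Ioi 0))
    {R0 : ℝ} (hR0 : 0 < R0) (hd : ∀ x : ℝ, R0 < x → DifferentiableAt ℝ ω x)
    (hη : AntitoneOn (fun x : ℝ => x * deriv ω x / ω x) (Ioi R0))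
    {r1 r : ℝ} (h1 : R0 < r1) (h : r1 ≤ r) (j : ℕ) :
    (∫ x in Ioi r, ω x * x ^ j) / r ^ (j + 1) ≤
      ((∫ x in Ioi r1, ω x * x ^ j) / r1 ^ (j + 1)) / (∫ x in Ioi r1, ω x / x)
        * (∫ x in Ioi r, ω x / x) := by
  have hr1 : 0 < r1 := hR0.trans h1
  have hr : 0 < r := hr1.trans_le h
  have hL1 := L_pos hc hpos hint hr1
  rw [← T_scaled j hr, ← T_scaled j hr1]
  rw [← L_scaled hr1] at hL1 ⊢
  rw [← L_scaled hr]
  have iA1 := int_T_scaled hint j hr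
  have iA0 := int_L_scaled hc hpos hint hr
  have iB1 := int_T_scaled hint j hr1
  have iB0 := int_L_scaled hc hpos hint hr1
  set m : ℝ := (∫ s in Ioi 1, ω (r1 * s) * s ^ j) / (∫ s in Ioi 1, ω (r1 * s) / s) with hm
  have hm1 : 1 ≤ m := by
    rw [hm, one_le_div hL1]
    apply setIntegral_mono_on iB0 iB1 measurableSet_Ioi
    intro s hs
    have hs1 : (1 : ℝ) < s := hs
    have hs0 : (0 : ℝ) < s := by linarith
    have p := (hpos (r1 * s) (by positivity)).le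
    calc ω (r1 * s) / s ≤ ω (r1 * s) / 1 := by gcongr
      _ = ω (r1 * s) * 1 := by ring
      _ ≤ ω (r1 * s) * s ^ j := by
        gcongr
        exact one_le_pow₀ hs1.le
  obtain ⟨t, ht1, htm⟩ : ∃ t : ℝ, 1 ≤ t ∧ t ^ (j + 1) = m := by
    refine ⟨m ^ ((1 : ℝ) / (j + 1)), Real.one_le_rpow hm1 (by positivity), ?_⟩
    rw [← Real.rpow_natCast, ← Real.rpow_mul (by linarith)]
    push_cast
    rw [one_div_mul_cancel (by positivity), Real.rpow_one]
  have hanti := ratio_anti hpos hR0 hd hη h1 h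
  have key : ∀ s ∈ Ioi (1 : ℝ), ω (r * s) * s ^ j - m * (ω (r * s) / s) ≤
      (ω (r * t) / ω (r1 * t)) * (ω (r1 * s) * s ^ j - m * (ω (r1 * s) / s)) := by
    intro s hs
    have hs1 : (1 : ℝ) < s := hs
    have hs0 : (0 : ℝ) < s := by linarith
    have p := hpos (r1 * s) (by positivity)
    have e1 : ω (r * s) * s ^ j - m * (ω (r * s) / s)
        = (s ^ (j + 1) - m) * (ω (r * s) / ω (r1 * s)) * (ω (r1 * s) / s) := by
      have p' := p.ne'
      generalize ω (r1 * s) = X at p' ⊢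
      generalize ω (r * s) = Y
      field_simp
      ring
    have e2 : (ω (r * t) / ω (r1 * t)) * (ω (r1 * s) * s ^ j - m * (ω (r1 * s) / s))
        = (s ^ (j + 1) - m) * (ω (r * t) / ω (r1 * t)) * (ω (r1 * s) / s) := by
      generalize ω (r * t) / ω (r1 * t) = Z
      generalize ω (r1 * s) = X
      field_simp
      ring
    rw [e1, e2]
    apply mul_le_mul_of_nonneg_right _ (by positivity)
    rcases le_total s t with hst | hst
    · have a1 := hanti (show s ∈ Ici 1 from hs1.le) (show t ∈ Ici 1 from ht1) hst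
      simp only at a1
      have a2 : s ^ (j + 1) ≤ m := by rw [← htm]; gcongr
      exact mul_le_mul_of_nonpos_left a1 (by linarith)
    · have a1 := hanti (show t ∈ Ici 1 from ht1) (show s ∈ Ici 1 from hs1.le) hst
      simp only at a1
      have a2 : m ≤ s ^ (j + 1) := by rw [← htm]; gcongr
      exact mul_le_mul_of_nonneg_left a1 (by linarith)
  have hI : ∫ s in Ioi (1 : ℝ), (ω (r * s) * s ^ j - m * (ω (r * s) / s)) ≤
      ∫ s in Ioi (1 : ℝ), (ω (r * t) / ω (r1 * t)) * (ω (r1 * s) * s ^ j - m * (ω (r1 * s) / s)) :=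
    setIntegral_mono_on (iA1.sub (iA0.const_mul m))
    ((iB1.sub (iB0.const_mul m)).const_mul (ω (r * t) / ω (r1 * t))) measurableSet_Ioi key
  rw [integral_sub iA1 (iA0.const_mul m), integral_const_mul, integral_const_mul,
    integral_sub iB1 (iB0.const_mul m), integral_const_mul] at hI
  have e0 : (∫ s in Ioi 1, ω (r1 * s) * s ^ j) - m * ∫ s in Ioi 1, ω (r1 * s) / s = 0 := by
    rw [hm, div_mul_cancel₀ _ hL1.ne', sub_self]
  rw [e0, mul_zero] at hI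
  linarith

/-- the terms of the series in `W` -/
noncomputable def wt (ω : ℝ → ℝ) (a w : ℂ) (j : ℕ) : ℂ :=
  ((a)⁻¹ ^ (j + 1) * (((∫ x in Set.Ioc 0 ‖a‖, ω x * x ^ j : ℝ)) : ℂ) -
    ((starRingEnd ℂ) a)⁻¹ ^ (j + 1) *
      (((∫ x in Set.Ioi ‖a‖, ω x * (x ^ (j + 2))⁻¹ : ℝ)) : ℂ)) *
  w ^ (j + 1) / (((j : ℂ) + 1) * (((∫ x in Set.Ioi 0, ω x * x ^ j : ℝ)) : ℂ))

/-- the terms of the series for the logarithm of the factor -/
noncomputable def vt (ω : ℝ → ℝ) (a w : ℂ) (j : ℕ) : ℂ :=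
  ((a)⁻¹ ^ (j + 1) * (((∫ x in Set.Ioi ‖a‖, ω x * x ^ j : ℝ)) : ℂ) +
    ((starRingEnd ℂ) a)⁻¹ ^ (j + 1) *
      (((∫ x in Set.Ioi ‖a‖, ω x * (x ^ (j + 2))⁻¹ : ℝ)) : ℂ)) *
  w ^ (j + 1) / (((j : ℂ) + 1) * (((∫ x in Set.Ioi 0, ω x * x ^ j : ℝ)) : ℂ))

noncomputable def E (ω : ℝ → ℝ) (a w : ℂ) : ℂ :=
  Complex.log (1 - w / a) - ((((∫ x in Set.Ioi ‖a‖, ω x / x : ℝ)) : ℂ) - ∑' j, wt ω a w j)

lemma M_pos (hpos : ∀ x : ℝ, 0 ≤ x → 0 < ω x) (hanti : AntitoneOn ω (Ici 0))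
    (hint : ∀ j : ℕ, IntegrableOn (fun x : ℝ => ω x * x ^ j) (Ioi 0)) (j : ℕ) :
    0 < ∫ x in Ioi 0, ω x * x ^ j := by
  have h := M_ge hpos hanti hint j one_pos
  have := hpos (2 * 1) (by norm_num)
  rw [one_pow, mul_one] at h
  linarith

lemma wt_add_vt (hpos : ∀ x : ℝ, 0 ≤ x → 0 < ω x) (hanti : AntitoneOn ω (Ici 0))
    (hint : ∀ j : ℕ, IntegrableOn (fun x : ℝ => ω x * x ^ j) (Ioi 0)) {a : ℂ} (ha : 0 < ‖a‖)
    (w : ℂ) (j : ℕ) : wt ω a w j + vt ω a w j = (w / a) ^ (j + 1) / (j + 1) := by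
  have h1 := I_add_T hint j ha
  have hM := M_pos hpos hanti hint j
  have hM' : ((∫ x in Ioi 0, ω x * x ^ j : ℝ) : ℂ) ≠ 0 := by exact_mod_cast hM.ne'
  have hj : ((j : ℂ) + 1) ≠ 0 := by exact_mod_cast Nat.succ_ne_zero j
  have h2 : (((∫ x in Set.Ioc 0 ‖a‖, ω x * x ^ j : ℝ)) : ℂ)
      + (((∫ x in Set.Ioi ‖a‖, ω x * x ^ j : ℝ)) : ℂ) = ((∫ x in Ioi 0, ω x * x ^ j : ℝ) : ℂ) := by
    rw [← Complex.ofReal_add, h1]
  unfold wt vt
  rw [← h2] at hM' ⊢
  generalize (((∫ x in Set.Ioc 0 ‖a‖, ω x * x ^ j : ℝ)) : ℂ) = X at hM' ⊢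
  generalize (((∫ x in Set.Ioi ‖a‖, ω x * x ^ j : ℝ)) : ℂ) = Y at hM' ⊢
  rw [← add_div, div_eq_div_iff (mul_ne_zero hj hM') hj, div_pow, inv_pow]
  ring

lemma norm_den (hpos : ∀ x : ℝ, 0 ≤ x → 0 < ω x) (hanti : AntitoneOn ω (Ici 0))
    (hint : ∀ j : ℕ, IntegrableOn (fun x : ℝ => ω x * x ^ j) (Ioi 0)) (j : ℕ) :
    ‖((j : ℂ) + 1) * (((∫ x in Set.Ioi 0, ω x * x ^ j : ℝ)) : ℂ)‖
      = ((j : ℝ) + 1) * ∫ x in Ioi 0, ω x * x ^ j := by
  have hM := M_pos hpos hanti hint j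
  rw [norm_mul, Complex.norm_real, Real.norm_eq_abs, abs_of_pos hM]
  congr 1
  have : ((j : ℂ) + 1) = (((j : ℝ) + 1 : ℝ) : ℂ) := by push_cast; rfl
  rw [this, Complex.norm_real, Real.norm_eq_abs, abs_of_pos (by positivity)]

lemma inv_bound {R m : ℝ} (hR : 0 < R) (hm : 0 < m)
    (hpos : ∀ x : ℝ, 0 ≤ x → 0 < ω x) (hanti : AntitoneOn ω (Ici 0))
    (hint : ∀ j : ℕ, IntegrableOn (fun x : ℝ => ω x * x ^ j) (Ioi 0)) (j : ℕ) :
    R ^ (j + 1) / (((j : ℝ) + 1) * ∫ x in Ioi 0, ω x * x ^ j)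
      ≤ (R / m) ^ (j + 1) / ω (2 * m) := by
  have hM := M_ge hpos hanti hint j hm
  have hM0 := M_pos hpos hanti hint j
  have hω := hpos (2 * m) (by linarith)
  have h1 : ω (2 * m) * m ^ (j + 1) ≤ ((j : ℝ) + 1) * ∫ x in Ioi 0, ω x * x ^ j := by
    have : (0 : ℝ) ≤ j := by positivity
    nlinarith
  calc R ^ (j + 1) / (((j : ℝ) + 1) * ∫ x in Ioi 0, ω x * x ^ j)
      ≤ R ^ (j + 1) / (ω (2 * m) * m ^ (j + 1)) := by gcongr
    _ = (R / m) ^ (j + 1) / ω (2 * m) := by rw [div_pow]; field_simp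

lemma wt_bound (hc : ContinuousOn ω (Ici 0)) (hpos : ∀ x : ℝ, 0 ≤ x → 0 < ω x)
    (hanti : AntitoneOn ω (Ici 0))
    (hint : ∀ j : ℕ, IntegrableOn (fun x : ℝ => ω x * x ^ j) (Ioi 0)) {a : ℂ} (ha : 0 < ‖a‖)
    {R : ℝ} (hR : 0 < R) :
    ∃ C : ℝ, 0 ≤ C ∧ ∀ w : ℂ, ‖w‖ ≤ R → ∀ j, ‖wt ω a w j‖ ≤ C * (1 / 2) ^ j := by
  set r := ‖a‖ with hr
  set m := 2 * R + 2 * R / r ^ 2 with hm
  have hm0 : 0 < m := by positivity
  have hL := L_pos hc hpos hint ha
  have hω0 := hpos 0 le_rfl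
  have hωm := hpos (2 * m) (by linarith)
  refine ⟨(ω 0 + ∫ x in Ioi r, ω x / x) / ω (2 * m), by positivity, fun w hw j => ?_⟩
  have hI := I_le hpos hanti hint j ha
  have hI0 := I_nonneg hpos j r
  have hJ := J_le hc hpos hint j ha
  have hJ0 := J_nonneg hpos j ha
  have hD := norm_den hpos hanti hint j
  have hM0 := M_pos hpos hanti hint j
  unfold wt
  rw [norm_div, hD, norm_mul, norm_pow]
  have e1 : ‖(a)⁻¹ ^ (j + 1) * (((∫ x in Set.Ioc 0 ‖a‖, ω x * x ^ j : ℝ)) : ℂ) -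
    ((starRingEnd ℂ) a)⁻¹ ^ (j + 1) *
      (((∫ x in Set.Ioi ‖a‖, ω x * (x ^ (j + 2))⁻¹ : ℝ)) : ℂ)‖ ≤
      ω 0 + (∫ x in Ioi r, ω x / x) * ((r ^ 2)⁻¹) ^ (j + 1) := by
    refine (norm_sub_le _ _).trans ?_
    rw [norm_mul, norm_mul, norm_pow, norm_pow, norm_inv, norm_inv, RCLike.norm_conj,
      Complex.norm_real, Complex.norm_real, Real.norm_eq_abs, Real.norm_eq_abs, ← hr,
      abs_of_nonneg hI0, abs_of_nonneg hJ0]
    refine add_le_add ?_ ?_
    · calc r⁻¹ ^ (j + 1) * (∫ x in Ioc 0 r, ω x * x ^ j)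
          ≤ r⁻¹ ^ (j + 1) * (ω 0 * r ^ (j + 1)) := by gcongr
        _ = ω 0 := by rw [inv_pow]; field_simp
    · calc r⁻¹ ^ (j + 1) * (∫ x in Ioi r, ω x * (x ^ (j + 2))⁻¹)
          ≤ r⁻¹ ^ (j + 1) * ((∫ x in Ioi r, ω x / x) * (r ^ (j + 1))⁻¹) := by gcongr
        _ = (∫ x in Ioi r, ω x / x) * ((r ^ 2)⁻¹) ^ (j + 1) := by
          rw [inv_pow, inv_pow, ← pow_mul, mul_comm 2, pow_mul]; field_simp
  have e2 : ‖w‖ ^ (j + 1) ≤ R ^ (j + 1) := by gcongr
  have e3 := inv_bound (ω := ω) hR hm0 hpos hanti hint j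
  have hRm : R / m ≤ 1 / 2 := by
    rw [div_le_iff₀ hm0, hm]
    have : 0 ≤ 2 * R / r ^ 2 := by positivity
    linarith
  have hRm2 : (r ^ 2)⁻¹ * (R / m) ≤ 1 / 2 := by
    rw [← div_eq_inv_mul, div_div, div_le_iff₀ (by positivity), hm]
    have : (2 * R + 2 * R / r ^ 2) * r ^ 2 = 2 * R * r ^ 2 + 2 * R := by field_simp
    rw [this]
    have : 0 < R * r ^ 2 := by positivity
    linarith
  calc _ ≤ (ω 0 + (∫ x in Ioi r, ω x / x) * ((r ^ 2)⁻¹) ^ (j + 1)) * R ^ (j + 1)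
        / (((j : ℝ) + 1) * ∫ x in Ioi 0, ω x * x ^ j) := by gcongr
    _ = (ω 0 + (∫ x in Ioi r, ω x / x) * ((r ^ 2)⁻¹) ^ (j + 1)) * (R ^ (j + 1)
        / (((j : ℝ) + 1) * ∫ x in Ioi 0, ω x * x ^ j)) := by ring
    _ ≤ (ω 0 + (∫ x in Ioi r, ω x / x) * ((r ^ 2)⁻¹) ^ (j + 1)) *
        ((R / m) ^ (j + 1) / ω (2 * m)) := by gcongr
    _ = (ω 0 * (R / m) ^ (j + 1) + (∫ x in Ioi r, ω x / x) * ((r ^ 2)⁻¹ * (R / m)) ^ (j + 1))
        / ω (2 * m) := by rw [mul_pow]; ring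
    _ ≤ (ω 0 * (1 / 2) ^ j + (∫ x in Ioi r, ω x / x) * (1 / 2) ^ j)
        / ω (2 * m) := by
        have h5 : (1 / 2 : ℝ) ^ (j + 1) ≤ (1 / 2) ^ j :=
          pow_le_pow_of_le_one (by norm_num) (by norm_num) (Nat.le_succ j)
        have h3 : (R / m) ^ (j + 1) ≤ (1 / 2) ^ j := by
          refine le_trans ?_ h5
          gcongr
        have h4 : ((r ^ 2)⁻¹ * (R / m)) ^ (j + 1) ≤ (1 / 2) ^ j := by
          refine le_trans ?_ h5
          gcongr
        gcongr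
    _ = _ := by ring

lemma wt_summable (hc : ContinuousOn ω (Ici 0)) (hpos : ∀ x : ℝ, 0 ≤ x → 0 < ω x)
    (hanti : AntitoneOn ω (Ici 0))
    (hint : ∀ j : ℕ, IntegrableOn (fun x : ℝ => ω x * x ^ j) (Ioi 0)) {a : ℂ} (ha : 0 < ‖a‖)
    (w : ℂ) : Summable (wt ω a w) := by
  obtain ⟨C, -, hC⟩ := wt_bound hc hpos hanti hint ha (R := ‖w‖ + 1) (by positivity)
  apply Summable.of_norm_bounded (g := fun j => C * (1 / 2 : ℝ) ^ j)
  · exact summable_geometric_two.mul_left C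
  · exact hC w (by linarith)

lemma E_bound (hc : ContinuousOn ω (Ici 0)) (hpos : ∀ x : ℝ, 0 ≤ x → 0 < ω x)
    (hanti : AntitoneOn ω (Ici 0))
    (hint : ∀ j : ℕ, IntegrableOn (fun x : ℝ => ω x * x ^ j) (Ioi 0))
    {R0 : ℝ} (hR0 : 0 < R0) (hd : ∀ x : ℝ, R0 < x → DifferentiableAt ℝ ω x)
    (hη : AntitoneOn (fun x : ℝ => x * deriv ω x / ω x) (Ioi R0))
    {r1 R : ℝ} (h1 : R0 < r1) (hR : 0 < R) (hr1R : 2 * R ≤ r1) (hr11 : 1 ≤ r1)
    {a : ℂ} (ha : r1 ≤ ‖a‖) {w : ℂ} (hw : ‖w‖ ≤ R) :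
    ‖E ω a w‖ ≤ (1 + 2 * (1 / (∫ x in Ioi r1, ω x / x) + 1 / ω (2 * (2 * R)))) *
      ∫ x in Ioi ‖a‖, ω x / x := by
  have hr1 : 0 < r1 := hR0.trans h1
  have ha0 : 0 < ‖a‖ := hr1.trans_le ha
  have hane : a ≠ 0 := norm_pos_iff.1 ha0
  have hL1 := L_pos hc hpos hint hr1
  have hL := L_pos hc hpos hint ha0
  have hω := hpos (2 * (2 * R)) (by positivity)
  set r := ‖a‖ with hr
  set L := ∫ x in Ioi r, ω x / x with hLdef
  set L1 := ∫ x in Ioi r1, ω x / x with hL1def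
  have hvt : ∀ j, ‖vt ω a w j‖ ≤ (1 / L1 + 1 / ω (2 * (2 * R))) * L * (1 / 2) ^ j := by
    intro j
    have hT := ratio hc hpos hint hR0 hd hη h1 ha j
    have hT0 := T_nonneg hpos j (r := r) ha0.le
    have hT1 : (∫ x in Ioi r1, ω x * x ^ j) ≤ ∫ x in Ioi 0, ω x * x ^ j := by
      have e := I_add_T hint j hr1
      have e2 := I_nonneg hpos j r1
      linarith
    have hJ := J_le hc hpos hint j ha0
    have hJ0 := J_nonneg hpos j ha0
    have hD := norm_den hpos hanti hint j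
    have hM0 := M_pos hpos hanti hint j
    set M := ∫ x in Ioi 0, ω x * x ^ j with hM
    have hT2 : (∫ x in Ioi r, ω x * x ^ j) / r ^ (j + 1) ≤ M / r1 ^ (j + 1) / L1 * L := by
      refine hT.trans ?_
      gcongr
    have hw' : ‖w‖ ^ (j + 1) ≤ R ^ (j + 1) := by gcongr
    have e3 := inv_bound (ω := ω) hR (m := 2 * R) (by positivity) hpos hanti hint j
    unfold vt
    rw [norm_div, hD, norm_mul, norm_pow]
    have e1 : ‖(a)⁻¹ ^ (j + 1) * (((∫ x in Set.Ioi ‖a‖, ω x * x ^ j : ℝ)) : ℂ) +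
      ((starRingEnd ℂ) a)⁻¹ ^ (j + 1) *
        (((∫ x in Set.Ioi ‖a‖, ω x * (x ^ (j + 2))⁻¹ : ℝ)) : ℂ)‖ ≤
        M / r1 ^ (j + 1) / L1 * L + L := by
      refine (norm_add_le _ _).trans ?_
      rw [norm_mul, norm_mul, norm_pow, norm_pow, norm_inv, norm_inv, RCLike.norm_conj,
        Complex.norm_real, Complex.norm_real, Real.norm_eq_abs, Real.norm_eq_abs, ← hr,
        abs_of_nonneg hT0, abs_of_nonneg hJ0]
      refine add_le_add ?_ ?_
      · refine le_trans (le_of_eq ?_) hT2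
        rw [inv_pow, div_eq_inv_mul]
      · have hrr : (1 : ℝ) ≤ r ^ (j + 1) := one_le_pow₀ (hr11.trans ha)
        calc r⁻¹ ^ (j + 1) * (∫ x in Ioi r, ω x * (x ^ (j + 2))⁻¹)
            ≤ r⁻¹ ^ (j + 1) * (L * (r ^ (j + 1))⁻¹) := by gcongr
          _ = (r ^ (j + 1))⁻¹ * (r ^ (j + 1))⁻¹ * L := by rw [inv_pow]; ring
          _ ≤ 1 * 1 * L := by
            have : (r ^ (j + 1))⁻¹ ≤ 1 := inv_le_one_of_one_le₀ hrr
            gcongr
          _ = L := by ring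
    have h5 : (1 / 2 : ℝ) ^ (j + 1) ≤ (1 / 2) ^ j :=
      pow_le_pow_of_le_one (by norm_num) (by norm_num) (Nat.le_succ j)
    have hRr1 : R / r1 ≤ 1 / 2 := by
      rw [div_le_iff₀ hr1]; linarith
    have hj1 : (1 : ℝ) ≤ (j : ℝ) + 1 := by
      have : (0 : ℝ) ≤ j := by positivity
      linarith
    calc _ ≤ (M / r1 ^ (j + 1) / L1 * L + L) * R ^ (j + 1) / (((j : ℝ) + 1) * M) := by gcongr
      _ = (R / r1) ^ (j + 1) / ((j : ℝ) + 1) * (L / L1) + L * (R ^ (j + 1) / (((j : ℝ) + 1) * M)) := by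
          rw [div_pow]; field_simp
      _ ≤ (1 / 2) ^ (j + 1) / 1 * (L / L1) + L * ((R / (2 * R)) ^ (j + 1) / ω (2 * (2 * R))) := by
          gcongr
      _ = (1 / L1 + 1 / ω (2 * (2 * R))) * L * (1 / 2) ^ (j + 1) := by
          have : R / (2 * R) = 1 / 2 := by field_simp
          rw [this]; ring
      _ ≤ (1 / L1 + 1 / ω (2 * (2 * R))) * L * (1 / 2) ^ j := by gcongr
  have hsumv : Summable (vt ω a w) :=
    Summable.of_norm_bounded (summable_geometric_two.mul_left _) hvt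
  have hsumw := wt_summable hc hpos hanti hint ha0 w
  have hwa : ‖w / a‖ < 1 := by
    rw [norm_div, div_lt_one ha0]
    have : R < r1 := by linarith
    calc ‖w‖ ≤ R := hw
      _ < r1 := this
      _ ≤ _ := ha
  have hlog := (Complex.hasSum_taylorSeries_neg_log' hwa).tsum_eq
  have hE : E ω a w = -(L : ℂ) - ∑' j, vt ω a w j := by
    unfold E
    have e : ∑' j, wt ω a w j + ∑' j, vt ω a w j = - Complex.log (1 - w / a) := by
      rw [← hsumw.tsum_add hsumv, ← hlog]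
      congr 1
      ext j
      exact wt_add_vt hpos hanti hint ha0 w j
    rw [← hr, ← hLdef]
    linear_combination e
  rw [hE]
  have hn : ‖∑' j, vt ω a w j‖ ≤ (1 / L1 + 1 / ω (2 * (2 * R))) * L * 2 := by
    apply tsum_of_norm_bounded _ hvt
    exact hasSum_geometric_two.mul_left _
  calc ‖-(L : ℂ) - ∑' j, vt ω a w j‖ ≤ ‖-(L : ℂ)‖ + ‖∑' j, vt ω a w j‖ := norm_sub_le _ _
    _ ≤ L + (1 / L1 + 1 / ω (2 * (2 * R))) * L * 2 := by
        rw [norm_neg, Complex.norm_real, Real.norm_eq_abs, abs_of_pos hL]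
        linarith
    _ = _ := by ring

lemma E_re (hc : ContinuousOn ω (Ici 0)) (hpos : ∀ x : ℝ, 0 ≤ x → 0 < ω x)
    (hanti : AntitoneOn ω (Ici 0))
    (hint : ∀ j : ℕ, IntegrableOn (fun x : ℝ => ω x * x ^ j) (Ioi 0)) {a : ℂ} (ha : 0 < ‖a‖)
    {R : ℝ} (hR : 0 < R) : ∃ C : ℝ, ∀ w : ℂ, ‖w‖ ≤ R → w ≠ a → (E ω a w).re ≤ C := by
  obtain ⟨C, hC0, hC⟩ := wt_bound hc hpos hanti hint ha hR
  refine ⟨Real.log (1 + R / ‖a‖) + (C * 2 + |∫ x in Ioi ‖a‖, ω x / x|), fun w hw hne => ?_⟩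
  unfold E
  rw [Complex.sub_re, Complex.log_re]
  have hane : a ≠ 0 := norm_pos_iff.1 ha
  have h1 : 0 < ‖1 - w / a‖ := by
    rw [norm_pos_iff, sub_ne_zero]
    intro h
    apply hne
    field_simp at h
    exact h.symm
  have h2 : ‖1 - w / a‖ ≤ 1 + R / ‖a‖ := by
    refine (norm_sub_le _ _).trans ?_
    rw [norm_one, norm_div]
    gcongr
  have h3 := Real.log_le_log h1 h2
  have hn : ‖∑' j, wt ω a w j‖ ≤ C * 2 := by
    apply tsum_of_norm_bounded _ (hC w hw)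
    exact hasSum_geometric_two.mul_left _
  have h4 := Complex.abs_re_le_norm (∑' j, wt ω a w j)
  rw [Complex.sub_re, Complex.ofReal_re]
  have h5 := abs_le.1 (h4.trans hn)
  have h6 := neg_abs_le (∫ x in Ioi ‖a‖, ω x / x)
  linarith [h5.2]

end A

/-- For ω continuous, positive, nonincreasing, with all moments finite and x·ω′/ω eventually decreasing to −∞, and zeros with summable ∫_{∣a_k∣}^∞ω/x: the products ∏A(z;a_k) converge uniformly to a nonvanishing limit on compacts avoiding the a_k. -/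
theorem result :
    ∀ ω : ℝ → ℝ, ContinuousOn ω (Set.Ici 0) → (∀ x : ℝ, 0 ≤ x → 0 < ω x) →
      AntitoneOn ω (Set.Ici 0) →
      (∀ j : ℕ, MeasureTheory.IntegrableOn (fun x : ℝ => ω x * x ^ j) (Set.Ioi 0)) →
      (∃ R : ℝ, 0 < R ∧ (∀ x : ℝ, R < x → DifferentiableAt ℝ ω x) ∧
        AntitoneOn (fun x : ℝ => x * deriv ω x / ω x) (Set.Ioi R) ∧
        Filter.Tendsto (fun x : ℝ => x * deriv ω x / ω x) Filter.atTop Filter.atBot) →
      ∀ a : ℕ → ℂ, (∀ k, 0 < ‖a k‖) → (∀ k, ‖a k‖ ≤ ‖a (k + 1)‖) →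
        Summable (fun k : ℕ => ∫ x in Set.Ioi ‖a k‖, ω x / x) →
        ∀ K : Set ℂ, IsCompact K → (∀ k, a k ∉ K) →
          ∃ g : ℂ → ℂ,
            TendstoUniformlyOn
              (fun (n : ℕ) (w : ℂ) => ∏ k ∈ Finset.range n,
                (1 - w / a k) * Complex.exp (-(
                  (((∫ x in Set.Ioi ‖a k‖, ω x / x : ℝ)) : ℂ) -
                  ∑' j : ℕ,
                    ((a k)⁻¹ ^ (j + 1) *
                        (((∫ x in Set.Ioc 0 ‖a k‖, ω x * x ^ j : ℝ)) : ℂ) -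
                      ((starRingEnd ℂ) (a k))⁻¹ ^ (j + 1) *
                        (((∫ x in Set.Ioi ‖a k‖, ω x * (x ^ (j + 2))⁻¹ : ℝ)) : ℂ)) *
                    w ^ (j + 1) /
                    (((j : ℂ) + 1) * (((∫ x in Set.Ioi 0, ω x * x ^ j : ℝ)) : ℂ)))))
              g Filter.atTop K ∧
            ∀ w ∈ K, g w ≠ 0 := by
  rintro ω hc hpos hanti hint ⟨R0, hR0, hd, hη, -⟩ a ha hmono hsum K hK haK
  obtain ⟨R', hR'⟩ := hK.isBounded.subset_closedBall 0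
  set R := max R' 1 with hRdef
  have hR : 0 < R := lt_of_lt_of_le one_pos (le_max_right _ _)
  have hKR : ∀ w ∈ K, ‖w‖ ≤ R := by
    intro w hw
    have := hR' hw
    rw [mem_closedBall_zero_iff] at this
    exact this.trans (le_max_left _ _)
  set r1 := R0 + 2 * R + 1 with hr1def
  have h1 : R0 < r1 := by linarith
  have h2 : 2 * R ≤ r1 := by linarith
  have h3 : 1 ≤ r1 := by linarith
  have hr1 : 0 < r1 := by linarith
  -- norms of the zeros tend to infinity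
  have hmono' : Monotone (fun k => ‖a k‖) := monotone_nat_of_le_succ hmono
  obtain ⟨N, hN⟩ : ∃ N, r1 ≤ ‖a N‖ := by
    by_contra hcon
    push Not at hcon
    have h0 := hsum.tendsto_atTop_zero
    have hL1 := L_pos hc hpos hint hr1
    have := h0.eventually (gt_mem_nhds hL1)
    obtain ⟨k, hk⟩ := this.exists
    have := L_anti hc hpos hint (ha k) (hcon k).le
    linarith
  have hlarge : ∀ k ≥ N, r1 ≤ ‖a k‖ := fun k hk => hN.trans (hmono' hk)
  set C := (1 + 2 * (1 / (∫ x in Ioi r1, ω x / x) + 1 / ω (2 * (2 * R)))) with hC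
  have hE : ∀ k ≥ N, ∀ w ∈ K, ‖E ω (a k) w‖ ≤ C * ∫ x in Set.Ioi ‖a k‖, ω x / x := by
    intro k hk w hw
    exact E_bound hc hpos hanti hint hR0 hd hη h1 hR h2 h3 (hlarge k hk) (hKR w hw)
  have hunif : TendstoUniformlyOn (fun n w => ∑ k ∈ Finset.range n, E ω (a k) w)
      (fun w => ∑' k, E ω (a k) w) atTop K := by
    apply tendstoUniformlyOn_tsum_nat_eventually (hsum.mul_left C)
    filter_upwards [eventually_ge_atTop N] with k hk w hw
    exact hE k hk w hw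
  have hbdd : BddAbove ((fun w => (∑' k, E ω (a k) w).re) '' K) := by
    choose D hD using fun k => E_re hc hpos hanti hint (ha k) hR
    refine ⟨(∑ k ∈ Finset.range N, D k)
      + C * ∑' k, ∫ x in Set.Ioi ‖a (k + N)‖, ω x / x, ?_⟩
    rintro _ ⟨w, hw, rfl⟩
    simp only
    have hs : Summable (fun k => E ω (a k) w) := by
      rw [← summable_nat_add_iff N]
      apply Summable.of_norm_bounded (((summable_nat_add_iff N).2 hsum).mul_left C)
      intro k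
      exact hE (k + N) (by omega) w hw
    rw [← hs.sum_add_tsum_nat_add N, Complex.add_re, Complex.re_sum]
    refine add_le_add ?_ ?_
    · apply Finset.sum_le_sum
      intro k _
      exact hD k w (hKR w hw) (fun h => haK k (h ▸ hw))
    · refine (Complex.re_le_norm _).trans ?_
      rw [← tsum_mul_left]
      apply tsum_of_norm_bounded
        ((((summable_nat_add_iff N).2 hsum).mul_left C).hasSum)
      intro k
      exact hE (k + N) (by omega) w hw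
  refine ⟨fun w => Complex.exp (∑' k, E ω (a k) w), ?_, fun w _ => Complex.exp_ne_zero _⟩
  refine (hunif.comp_cexp hbdd).congr ?_
  filter_upwards with n w hw
  simp only [Function.comp]
  rw [Complex.exp_sum]
  apply Finset.prod_congr rfl
  intro k _
  have hne : 1 - w / a k ≠ 0 := by
    rw [sub_ne_zero]
    intro h
    have hane : a k ≠ 0 := norm_pos_iff.1 (ha k)
    field_simp at h
    exact haK k (h ▸ hw)
  unfold E
  rw [sub_eq_add_neg, Complex.exp_add, Complex.exp_log hne]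
  rfl

end Pool.Agent.S1789
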