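import Pool.Statements.S1796
import Pool.Agent.Helpers29.MB3
import Pool.Agent.Helpers29.MB4

set_option autoImplicit false
open Filter Topology
open Pool Pool.MP_d512aa_an

namespace Pool.Agent.S1796

/-- The negation of the preceding statement: If a real infinite-dimensional Banach space has a monotone Schauder basis and F is an infinite-dimensional closed subspace that is the range of a projection of norm at most 1, then F has a monotone Schauder basis. -/
theorem result :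
    ¬ (∀ (B : Type) [NormedAddCommGroup B] [NormedSpace ℝ B] [CompleteSpace B],
    ¬ FiniteDimensional ℝ B →
    (∃ e : ℕ → B,
      (∀ x : B, ∃! a : ℕ → ℝ,
        Tendsto (fun n : ℕ => ∑ i ∈ Finset.range n, a i • e i) atTop (𝓝 x)) ∧
      (∀ (a : ℕ → ℝ) (n m : ℕ), n ≤ m →
        ‖∑ i ∈ Finset.range n, a i • e i‖ ≤ ‖∑ i ∈ Finset.range m, a i • e i‖)) →
    ∀ F : Submodule ℝ B, IsClosed (F : Set B) → ¬ FiniteDimensional ℝ F →
      (∃ P : B →L[ℝ] B, (∀ x : B, P x ∈ F) ∧ (∀ x ∈ F, P x = x) ∧ ‖P‖ ≤ 1) →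
      ∃ f : ℕ → B, (∀ i : ℕ, f i ∈ F) ∧
        (∀ x ∈ F, ∃! a : ℕ → ℝ,
          Tendsto (fun n : ℕ => ∑ i ∈ Finset.range n, a i • f i) atTop (𝓝 x)) ∧
        (∀ (a : ℕ → ℝ) (n m : ℕ), n ≤ m →
          ‖∑ i ∈ Finset.range n, a i • f i‖ ≤ ‖∑ i ∈ Finset.range m, a i • f i‖)) := by
  intro H
  have hc : CompleteSpace Pool.Agent.Helpers29.MB.FF :=
    Pool.Agent.Helpers29.MB.FF_closed.completeSpace_coe
  apply Pool.Agent.Helpers29.MB.no_basis
  refine Pool.Agent.Helpers29.MB.embed Pool.Agent.Helpers29.MB.FF_inf H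
    Pool.Agent.Helpers29.MB.bv Pool.Agent.Helpers29.MB.bv_ne Pool.Agent.Helpers29.MB.ph ?_ ?_
  · intro x
    rw [Topology.IsInducing.subtypeVal.tendsto_nhds_iff]
    exact Pool.Agent.Helpers29.MB.psum_tendsto x
  · intro x n
    exact Pool.Agent.Helpers29.MB.contr x n

end Pool.Agent.S1796
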