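import Pool.Statements.S1843
import Pool.Agent.H18.E68b70

set_option autoImplicit false
open Pool Pool.MP_e68b70_an

namespace Pool.Agent.S1843

/-- There is a norm on c_0, equivalent to the sup norm and twice continuously differentiable away from 0, whose closed unit ball is dentable: for every ε>0 some point of the ball lies outside the closed convex hull of the ball minus the ε-ball around it. -/
theorem result :
    ∃ (N : Seminorm ℝ (ZeroAtInftyContinuousMap ℕ ℝ)) (a b : ℝ),
      0 < a ∧ 0 < b ∧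
      (∀ x : ZeroAtInftyContinuousMap ℕ ℝ, a * ‖x‖ ≤ N x ∧ N x ≤ b * ‖x‖) ∧
      ContDiffOn ℝ 2 (fun x : ZeroAtInftyContinuousMap ℕ ℝ => N x)
        ({0}ᶜ : Set (ZeroAtInftyContinuousMap ℕ ℝ)) ∧
      ∀ ε : ℝ, 0 < ε →
        ∃ x : ZeroAtInftyContinuousMap ℕ ℝ, N x ≤ 1 ∧
          x ∉ closure (convexHull ℝ
            ({y : ZeroAtInftyContinuousMap ℕ ℝ | N y ≤ 1} \ Metric.ball x ε)) :=
  Pool.Agent.H18.E68b70.main

end Pool.Agent.S1843
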