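import Pool.Statements.S1851
import Pool.Agent.H1.NormF

set_option autoImplicit false
open Pool Pool.MP_e968d9_an

namespace Pool.Agent.S1851

/-- Every analytic selfmap of the right half-plane that induces a bounded composition operator on the Hardy space H² of the half-plane which is normal (tested on reproducing-kernel combinations) is a linear fractional map. -/
theorem result :
    ∀ φ : ℂ → ℂ,
      DifferentiableOn ℂ φ {z : ℂ | 0 < z.re} →
      Set.MapsTo φ {z : ℂ | 0 < z.re} {z : ℂ | 0 < z.re} →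
      (∃ C : NNReal, ∀ f : ℂ → ℂ, DifferentiableOn ℂ f {z : ℂ | 0 < z.re} →
        (⨆ (x : ℝ) (_ : 0 < x), ∫⁻ y : ℝ,
            (‖f ((x : ℂ) + (y : ℂ) * Complex.I)‖₊ : ENNReal) ^ 2) < ⊤ →
        (⨆ (x : ℝ) (_ : 0 < x), ∫⁻ y : ℝ,
            (‖f (φ ((x : ℂ) + (y : ℂ) * Complex.I))‖₊ : ENNReal) ^ 2)
          ≤ (C : ENNReal) * ⨆ (x : ℝ) (_ : 0 < x), ∫⁻ y : ℝ,
            (‖f ((x : ℂ) + (y : ℂ) * Complex.I)‖₊ : ENNReal) ^ 2) →
      (∀ (n : ℕ) (c a : Fin n → ℂ), (∀ i, 0 < (a i).re) →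
        (⨆ (x : ℝ) (_ : 0 < x), ∫⁻ y : ℝ,
            (‖∑ i, c i / (φ ((x : ℂ) + (y : ℂ) * Complex.I) + (starRingEnd ℂ) (a i))‖₊
              : ENNReal) ^ 2)
          = ⨆ (x : ℝ) (_ : 0 < x), ∫⁻ y : ℝ,
            (‖∑ i, c i / ((x : ℂ) + (y : ℂ) * Complex.I + (starRingEnd ℂ) (φ (a i)))‖₊
              : ENNReal) ^ 2) →
      ∃ a b c d : ℂ, a * d - b * c ≠ 0 ∧
        ∀ z : ℂ, 0 < z.re → c * z + d ≠ 0 ∧ φ z = (a * z + b) / (c * z + d) := by
  intro φ hd hm hC hn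
  obtain ⟨C, hb⟩ := hC
  refine Pool.Agent.H1.NormComp.final (φ := φ) hd hm ?_ (C := C) ?_
  · intro a b c ha hb'
    have h := hn 2 ![1, c] ![a, b] (by
      intro i
      fin_cases i
      · exact ha
      · exact hb')
    simp only [Fin.sum_univ_two, Matrix.cons_val_zero, Matrix.cons_val_one] at h
    unfold Pool.Agent.H1.NormComp.q Pool.Agent.H1.NormComp.KF Pool.Agent.H1.NormComp.ker
    simp only [id, one_div, div_eq_mul_inv, one_mul] at h ⊢
    exact h
  · intro f hf hfin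
    exact hb f hf hfin

end Pool.Agent.S1851
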