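import Pool.Statements.S1854
-- import your own Pool.Agent.* helpers here
import Pool.Agent.H10.RtvB

set_option autoImplicit false
open Pool Pool.MP_e9d911_an

namespace Pool.Agent.S1854

/-- The negation of the preceding statement: For 0<d<1, k≥0 and the n with ∑_{j≤k}C(n,j)/2^n ≤ d < ∑_{j≤k}C(n-1,j)/2^{n-1}, the infimum of J(f) over nonzero f with ∑_{j≤k}∣a_j∣ ≥ d∑∣a_j∣ equals log(ρ/((ρ+1)2^{n-1})), with ρ as defined. -/
theorem result :
    ¬ (∀ (d : ℝ) (k n : ℕ), 0 < d → d < 1 → 0 < n →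
    (∑ j ∈ Finset.range (k+1), (n.choose j : ℝ)) / 2 ^ n ≤ d →
    d < (∑ j ∈ Finset.range (k+1), ((n-1).choose j : ℝ)) / 2 ^ (n-1) →
    IsGLB {x : ℝ | ∃ a : ℕ → ℂ, Summable (fun j => ‖a j‖) ∧ a ≠ 0 ∧
        d * (∑' j, ‖a j‖) ≤ ∑ j ∈ Finset.range (k+1), ‖a j‖ ∧
        x = (1 / (2 * Real.pi)) *
              (∫ θ in (0:ℝ)..(2 * Real.pi),
                Real.log ‖∑' j, a j * Complex.exp ((θ : ℂ) * Complex.I) ^ j‖)
            - Real.log (∑' j, ‖a j‖)}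
      (Real.log
        ((((n-1).choose k : ℝ) /
            ((∑ j ∈ Finset.range (k+1), ((n-1).choose j : ℝ)) - d * 2 ^ (n-1)) - 1) /
          (((((n-1).choose k : ℝ) /
            ((∑ j ∈ Finset.range (k+1), ((n-1).choose j : ℝ)) - d * 2 ^ (n-1)) - 1) + 1)
            * 2 ^ (n-1))))) := by
  intro H
  obtain ⟨N, h1, h2, h3⟩ := H10.Rtv.main
  have hS := H10.Rtv.S_gt
  have hd0 : 0 < H10.Rtv.d := by unfold H10.Rtv.d; exact div_pos (by norm_num) (by linarith)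
  have hd1 : H10.Rtv.d < 1 := by
    unfold H10.Rtv.d; rw [div_lt_one (by linarith)]; exact hS
  have h4 := (H H10.Rtv.d 1 (N + 1) hd0 hd1 (Nat.succ_pos N) h1 h2).1
  have h5 : (-Real.log H10.Rtv.S) ∈ {x : ℝ | ∃ a : ℕ → ℂ, Summable (fun j => ‖a j‖) ∧ a ≠ 0 ∧
        H10.Rtv.d * (∑' j, ‖a j‖) ≤ ∑ j ∈ Finset.range (1+1), ‖a j‖ ∧
        x = (1 / (2 * Real.pi)) *
              (∫ θ in (0:ℝ)..(2 * Real.pi),
                Real.log ‖∑' j, a j * Complex.exp ((θ : ℂ) * Complex.I) ^ j‖)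
            - Real.log (∑' j, ‖a j‖)} := by
    refine ⟨H10.Rtv.a, H10.Rtv.a_sum, ?_, ?_, ?_⟩
    · intro h
      have := congrFun h 0
      rw [H10.Rtv.a_zero] at this
      simp at this
    · rw [H10.Rtv.T_eq]
      have : H10.Rtv.d * H10.Rtv.S = 31 := by
        unfold H10.Rtv.d
        have : H10.Rtv.S ≠ 0 := by linarith
        field_simp
      exact this.le
    · rw [H10.Rtv.int_zero, mul_zero, zero_sub]
      rfl
  exact absurd (h4 h5) (not_le.2 h3)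
end Pool.Agent.S1854
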