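import Pool.Statements.S1860
-- import your own Pool.Agent.* helpers here

set_option autoImplicit false
open Filter Topology MeasureTheory
open Pool Pool.MP_ec63c8_an

namespace Pool.Agent.S1860

/-! Counterexample: the diagonal semigroup `e^{(-1 + i k) t}` on `ℓ⁴` and a vector of `ℓ⁴ \ ℓ²`. -/

noncomputable section

open scoped ENNReal

instance fact4 : Fact ((1 : ℝ≥0∞) ≤ 4) := ⟨by norm_num⟩

/-- `ℓ⁴`. -/
abbrev X4 : Type := lp (fun _ : ℕ => ℂ) 4

/-- the multiplier -/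
def mul (t : ℝ) (k : ℕ) : ℂ := Complex.exp ((-1 + (k : ℂ) * Complex.I) * (t : ℂ))

theorem norm_mul' (t : ℝ) (k : ℕ) : ‖mul t k‖ = Real.exp (-t) := by
  rw [mul, Complex.norm_exp]
  congr 1
  simp

theorem memlp_mul (t : ℝ) (x : X4) : Memℓp (fun k => mul t k * x k) 4 := by
  have h := (lp.memℓp x).const_smul (Real.exp (-t) : ℂ)
  refine Memℓp.mono' h fun k => ?_
  rw [norm_mul, norm_mul', Pi.smul_apply, norm_smul, Complex.norm_real, Real.norm_of_nonneg
    (Real.exp_pos _).le]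

/-- The semigroup. -/
def T (t : ℝ) : X4 →L[ℂ] X4 :=
  LinearMap.mkContinuous
    { toFun := fun x => ⟨fun k => mul t k * x k, memlp_mul t x⟩
      map_add' := fun x y => by
        apply lp.ext
        funext k
        simp only [lp.coeFn_add, Pi.add_apply, mul_add]
      map_smul' := fun c x => by
        apply lp.ext
        funext k
        simp only [lp.coeFn_smul, Pi.smul_apply, smul_eq_mul, RingHom.id_apply]
        ring } (Real.exp (-t)) (by
      intro x
      have h : ‖(⟨fun k => mul t k * x k, memlp_mul t x⟩ : X4)‖ ≤ ‖(Real.exp (-t) : ℂ) • x‖ := by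
        apply lp.norm_mono (by norm_num)
        intro k
        rw [lp.coeFn_smul, Pi.smul_apply, norm_smul, Complex.norm_real, Real.norm_of_nonneg
          (Real.exp_pos _).le]
        show ‖mul t k * x k‖ ≤ _
        rw [norm_mul, norm_mul']
      refine h.trans (le_of_eq ?_)
      rw [norm_smul, Complex.norm_real, Real.norm_of_nonneg (Real.exp_pos _).le])

theorem T_apply (t : ℝ) (x : X4) (k : ℕ) : T t x k = mul t k * x k := rfl

theorem norm_T_le (t : ℝ) (x : X4) : ‖T t x‖ ≤ Real.exp (-t) * ‖x‖ := by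
  refine ((T t).le_opNorm x).trans (mul_le_mul_of_nonneg_right ?_ (norm_nonneg _))
  exact LinearMap.mkContinuous_norm_le _ (Real.exp_pos _).le _

theorem T_zero : T 0 = 1 := by
  ext x : 1
  apply lp.ext
  funext k
  rw [T_apply]
  simp [mul]

theorem T_add (s t : ℝ) : T (s + t) = T s * T t := by
  ext x : 1
  apply lp.ext
  funext k
  have : (T s * T t) x = T s (T t x) := rfl
  rw [this, T_apply, T_apply, T_apply, ← mul_assoc]
  congr 1
  rw [mul, mul, mul, ← Complex.exp_add]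
  congr 1
  push_cast
  ring

theorem continuous_mul (k : ℕ) : Continuous fun t : ℝ => mul t k := by
  unfold mul
  fun_prop

theorem T_continuous (x : X4) : ContinuousOn (fun t : ℝ => T t x) (Set.Ici (0 : ℝ)) := by
  intro t₀ ht₀
  have hp : (4 : ℝ≥0∞).toReal = 4 := by norm_num
  have key : Tendsto (fun t : ℝ => ∑' k, ‖(T t x - T t₀ x : X4) k‖ ^ (4 : ℝ≥0∞).toReal)
      (𝓝[Set.Ici 0] t₀) (𝓝 (∑' _ : ℕ, (0 : ℝ))) := by
    have hs : Summable fun k => ‖x k‖ ^ (4 : ℝ≥0∞).toReal := (lp.memℓp x).summable (by norm_num)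
    refine tendsto_tsum_of_dominated_convergence (bound := fun k => (2 : ℝ) ^ (4 : ℝ) *
      ‖x k‖ ^ (4 : ℝ≥0∞).toReal) (hs.mul_left _) ?_ ?_
    · intro k
      have h1 : Tendsto (fun t : ℝ => ‖(mul t k - mul t₀ k) * x k‖ ^ (4 : ℝ≥0∞).toReal)
          (𝓝 t₀) (𝓝 (‖(mul t₀ k - mul t₀ k) * x k‖ ^ (4 : ℝ≥0∞).toReal)) := by
        apply Tendsto.rpow_const
        · exact (((continuous_mul k).sub continuous_const).mul continuous_const).norm.tendsto t₀
        · right; norm_num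
      rw [sub_self, zero_mul, norm_zero, hp, Real.zero_rpow (by norm_num)] at h1
      refine (h1.mono_left nhdsWithin_le_nhds).congr fun t => ?_
      rw [lp.coeFn_sub, Pi.sub_apply, T_apply, T_apply, sub_mul, hp]
    · filter_upwards [self_mem_nhdsWithin] with t ht k
      have ht' : 0 ≤ t := ht
      have ht₀' : 0 ≤ t₀ := ht₀
      rw [Real.norm_of_nonneg (by positivity), hp, ← Real.mul_rpow (by norm_num) (norm_nonneg _)]
      apply Real.rpow_le_rpow (norm_nonneg _) _ (by norm_num)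
      rw [lp.coeFn_sub, Pi.sub_apply, T_apply, T_apply, ← sub_mul, norm_mul]
      apply mul_le_mul_of_nonneg_right _ (norm_nonneg _)
      refine (norm_sub_le _ _).trans ?_
      rw [norm_mul', norm_mul']
      have h1 : Real.exp (-t) ≤ 1 := Real.exp_le_one_iff.2 (by linarith)
      have h2 : Real.exp (-t₀) ≤ 1 := Real.exp_le_one_iff.2 (by linarith)
      linarith
  rw [tsum_zero] at key
  rw [ContinuousWithinAt, tendsto_iff_norm_sub_tendsto_zero]
  have h2 : Tendsto (fun t : ℝ => (∑' k, ‖(T t x - T t₀ x : X4) k‖ ^ (4 : ℝ≥0∞).toReal) ^ (1 / 4 : ℝ))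
      (𝓝[Set.Ici 0] t₀) (𝓝 ((0 : ℝ) ^ (1 / 4 : ℝ))) :=
    key.rpow_const (Or.inr (by norm_num))
  rw [Real.zero_rpow (by norm_num)] at h2
  refine h2.congr fun t => ?_
  rw [lp.norm_eq_tsum_rpow (by norm_num), hp]

theorem x0_mem : Memℓp (fun k : ℕ => ((((k : ℝ) + 1) ^ (-(1 / 2) : ℝ) : ℝ) : ℂ)) 4 := by
  apply memℓp_gen
  have hp : (4 : ℝ≥0∞).toReal = 4 := by norm_num
  rw [hp]
  have h1 : Summable fun k : ℕ => 1 / ((k : ℝ) + 1) ^ 2 := by
    have := (summable_nat_add_iff 1).2 (Real.summable_one_div_nat_pow.2 (one_lt_two))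
    simpa using this
  refine h1.congr fun k => ?_
  have hk : (0 : ℝ) < (k : ℝ) + 1 := by positivity
  rw [Complex.norm_real, Real.norm_of_nonneg (by positivity), ← Real.rpow_mul hk.le]
  norm_num

/-- The vector. -/
def x0 : X4 := ⟨fun k => ((((k : ℝ) + 1) ^ (-(1 / 2) : ℝ) : ℝ) : ℂ), x0_mem⟩

theorem x0_apply (k : ℕ) : x0 k = ((((k : ℝ) + 1) ^ (-(1 / 2) : ℝ) : ℝ) : ℂ) := rfl

/-- evaluation -/
def ev (k : ℕ) : X4 →L[ℂ] ℂ :=
  LinearMap.mkContinuous
    { toFun := fun x => x k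
      map_add' := fun x y => by simp
      map_smul' := fun c x => by simp } 1 (by
      intro x
      rw [one_mul]
      exact lp.norm_apply_le_norm (by norm_num) x k)

theorem ev_apply (k : ℕ) (x : X4) : ev k x = x k := rfl

theorem integrable_res (a s : ℝ) (ha : 0 < a) (x : X4) :
    IntegrableOn (fun t : ℝ => Complex.exp (-(((a : ℂ) + (s : ℂ) * Complex.I) * (t : ℂ))) • T t x)
      (Set.Ioi 0) volume := by
  have hint : IntegrableOn (fun t : ℝ => Real.exp (-a * t) * ‖x‖) (Set.Ioi 0) volume :=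
    (integrableOn_exp_mul_Ioi (by linarith) 0).mul_const _
  refine Integrable.mono' hint ?_ ?_
  · apply ContinuousOn.aestronglyMeasurable _ measurableSet_Ioi
    exact ContinuousOn.smul
      (f := fun t : ℝ => Complex.exp (-(((a : ℂ) + (s : ℂ) * Complex.I) * (t : ℂ))))
      (Continuous.continuousOn (by fun_prop)) ((T_continuous x).mono Set.Ioi_subset_Ici_self)
  · rw [ae_restrict_iff' measurableSet_Ioi]
    refine Eventually.of_forall fun t ht => ?_
    have ht' : (0 : ℝ) < t := ht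
    rw [norm_smul, Complex.norm_exp]
    have h1 : (-(((a : ℂ) + (s : ℂ) * Complex.I) * (t : ℂ))).re = -a * t := by simp
    rw [h1]
    apply mul_le_mul_of_nonneg_left _ (Real.exp_pos _).le
    refine (norm_T_le t x).trans ?_
    have h2 : Real.exp (-t) ≤ 1 := Real.exp_le_one_iff.2 (by linarith)
    nlinarith [norm_nonneg x]

theorem res_apply (a s : ℝ) (ha : 0 < a) (x : X4) (k : ℕ) :
    (∫ t in Set.Ioi (0 : ℝ),
      Complex.exp (-(((a : ℂ) + (s : ℂ) * Complex.I) * (t : ℂ))) • T t x : X4) k =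
      x k / ((1 + a : ℝ) + ((s - k : ℝ) : ℂ) * Complex.I) := by
  rw [← ev_apply, ← ContinuousLinearMap.integral_comp_comm _ (integrable_res a s ha x)]
  have h1 : ∀ t : ℝ, ev k (Complex.exp (-(((a : ℂ) + (s : ℂ) * Complex.I) * (t : ℂ))) • T t x) =
      Complex.exp ((-((1 + a : ℝ) + ((s - k : ℝ) : ℂ) * Complex.I)) * (t : ℂ)) * x k := by
    intro t
    rw [map_smul, ev_apply, T_apply, smul_eq_mul, ← mul_assoc, mul, ← Complex.exp_add]
    congr 2
    push_cast
    ring
  simp_rw [h1]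
  rw [integral_mul_const, integral_exp_mul_complex_Ioi (by simp; linarith) 0]
  simp only [Complex.ofReal_zero, mul_zero, Complex.exp_zero]
  rw [neg_div_neg_eq]
  ring

theorem lower (a s : ℝ) (ha : 0 < a) (hs : 1 < s) :
    (1 / (2 * (2 + a) ^ 2)) * s⁻¹ ≤ ‖(∫ t in Set.Ioi (0 : ℝ),
      Complex.exp (-(((a : ℂ) + (s : ℂ) * Complex.I) * (t : ℂ))) • T t x0 : X4)‖ ^ 2 := by
  set k : ℕ := ⌊s⌋₊ with hk
  have hs0 : 0 ≤ s := by linarith
  have h1 : (k : ℝ) ≤ s := Nat.floor_le hs0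
  have h2 : s < k + 1 := Nat.lt_floor_add_one s
  have h3 := lp.norm_apply_le_norm (p := 4) (by norm_num) (∫ t in Set.Ioi (0 : ℝ),
      Complex.exp (-(((a : ℂ) + (s : ℂ) * Complex.I) * (t : ℂ))) • T t x0 : X4) k
  rw [res_apply a s ha, norm_div, x0_apply, Complex.norm_real,
    Real.norm_of_nonneg (by positivity)] at h3
  have hk1 : (0 : ℝ) < (k : ℝ) + 1 := by positivity
  have h4 : ‖((1 + a : ℝ) : ℂ) + ((s - k : ℝ) : ℂ) * Complex.I‖ ≤ 2 + a := by
    refine (norm_add_le _ _).trans ?_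
    rw [norm_mul, Complex.norm_I, mul_one, Complex.norm_real, Complex.norm_real,
      Real.norm_of_nonneg (by linarith), Real.norm_of_nonneg (by linarith)]
    linarith
  have h5 : 0 < ‖((1 + a : ℝ) : ℂ) + ((s - k : ℝ) : ℂ) * Complex.I‖ := by
    rw [norm_pos_iff]
    intro h
    have := congrArg Complex.re h
    simp at this
    linarith
  have h6 : ((k : ℝ) + 1) ^ (-(1 / 2) : ℝ) / (2 + a) ≤ ‖(∫ t in Set.Ioi (0 : ℝ),
      Complex.exp (-(((a : ℂ) + (s : ℂ) * Complex.I) * (t : ℂ))) • T t x0 : X4)‖ :=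
    (div_le_div_of_nonneg_left (by positivity) h5 h4).trans h3
  have h7 : (((k : ℝ) + 1) ^ (-(1 / 2) : ℝ) / (2 + a)) ^ 2 ≤ ‖(∫ t in Set.Ioi (0 : ℝ),
      Complex.exp (-(((a : ℂ) + (s : ℂ) * Complex.I) * (t : ℂ))) • T t x0 : X4)‖ ^ 2 :=
    pow_le_pow_left₀ (by positivity) h6 2
  refine le_trans ?_ h7
  rw [div_pow]
  have h8 : (((k : ℝ) + 1) ^ (-(1 / 2) : ℝ)) ^ 2 = ((k : ℝ) + 1)⁻¹ := by
    rw [← Real.rpow_natCast, ← Real.rpow_mul hk1.le]
    norm_num
    rw [Real.rpow_neg_one]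
  rw [h8]
  have h9 : (2 * s)⁻¹ ≤ ((k : ℝ) + 1)⁻¹ := inv_anti₀ hk1 (by linarith)
  have h10 : (1 / (2 * (2 + a) ^ 2)) * s⁻¹ = (2 * s)⁻¹ / (2 + a) ^ 2 := by
    field_simp
  rw [h10]
  gcongr

theorem lintegral_top (a : ℝ) (ha : 0 < a) :
    ∫⁻ s : ℝ, ((‖∫ t in Set.Ioi (0 : ℝ),
      Complex.exp (-(((a : ℂ) + (s : ℂ) * Complex.I) * (t : ℂ))) • T t x0‖₊ : ENNReal)) ^ 2 = ⊤ := by
  have h1 : ∫⁻ s in Set.Ioi (1 : ℝ), ENNReal.ofReal ((1 / (2 * (2 + a) ^ 2)) * s⁻¹) = ⊤ := by
    by_contra hne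
    have h2 : ¬ IntegrableOn (fun s : ℝ => (1 / (2 * (2 + a) ^ 2)) * s⁻¹) (Set.Ioi 1) volume := by
      intro h
      have h3 := h.const_mul (2 * (2 + a) ^ 2)
      have h4 : (fun s : ℝ => 2 * (2 + a) ^ 2 * ((1 / (2 * (2 + a) ^ 2)) * s⁻¹)) = fun s => s⁻¹ := by
        funext s
        field_simp
      rw [h4] at h3
      exact not_integrableOn_Ioi_inv h3
    apply h2
    refine ⟨by fun_prop, ?_⟩
    rw [hasFiniteIntegral_iff_ofReal]
    · exact lt_top_iff_ne_top.2 hne
    · rw [EventuallyLE, ae_restrict_iff' measurableSet_Ioi]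
      refine Eventually.of_forall fun s hs => ?_
      have : (1 : ℝ) < s := hs
      have : 0 < s := by linarith
      simp only [Pi.zero_apply]
      positivity
  rw [eq_top_iff, ← h1]
  refine le_trans ?_ (setLIntegral_le_lintegral (Set.Ioi (1 : ℝ)) _)
  refine setLIntegral_mono' measurableSet_Ioi fun s hs => ?_
  have h2 := lower a s ha hs
  have h3 := ENNReal.ofReal_le_ofReal h2
  refine h3.trans (le_of_eq ?_)
  rw [ENNReal.ofReal_pow (norm_nonneg _), ofReal_norm, enorm_eq_nnnorm]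

end

/-- The negation of the preceding statement: For every bounded strongly continuous semigroup T on a complex Banach space and every x, T(t)x tends to 0 iff a times the integral over s of the squared norm of the Laplace-transform resolvent at a+is applied to x tends to 0 as a tends to 0 from above. -/
theorem result :
    ¬ (∀ (X : Type) [NormedAddCommGroup X] [NormedSpace ℂ X] [CompleteSpace X]
      (T : ℝ → (X →L[ℂ] X)),
      T 0 = 1 →
      (∀ s t : ℝ, 0 ≤ s → 0 ≤ t → T (s + t) = T s * T t) →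
      (∀ x : X, ContinuousOn (fun t : ℝ => T t x) (Set.Ici (0 : ℝ))) →
      (∃ M : ℝ, ∀ t : ℝ, 0 ≤ t → ‖T t‖ ≤ M) →
      ∀ x : X,
        (Tendsto (fun t : ℝ => T t x) atTop (𝓝 0) ↔
          Tendsto
            (fun a : ℝ => ENNReal.ofReal a *
              ∫⁻ s : ℝ,
                ((‖∫ t in Set.Ioi (0 : ℝ),
                    Complex.exp (-(((a : ℂ) + (s : ℂ) * Complex.I) * (t : ℂ))) • T t x‖₊ : ENNReal)) ^ 2)
            (𝓝[>] (0 : ℝ)) (𝓝 0))) := by
  intro h
  have h1 := h X4 T T_zero (fun s t _ _ => T_add s t) T_continuous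
    ⟨1, fun t ht => by
      refine ContinuousLinearMap.opNorm_le_bound _ zero_le_one fun x => ?_
      refine (norm_T_le t x).trans ?_
      exact mul_le_mul_of_nonneg_right (Real.exp_le_one_iff.2 (by linarith)) (norm_nonneg _)⟩ x0
  have h2 : Tendsto (fun t : ℝ => T t x0) atTop (𝓝 0) := by
    rw [tendsto_zero_iff_norm_tendsto_zero]
    have h3 : Tendsto (fun t : ℝ => Real.exp (-t) * ‖x0‖) atTop (𝓝 (0 * ‖x0‖)) :=
      (Real.tendsto_exp_neg_atTop_nhds_zero).mul_const _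
    rw [zero_mul] at h3
    exact squeeze_zero (fun t => norm_nonneg _) (fun t => norm_T_le t x0) h3
  have h4 := h1.1 h2
  have h5 := (ENNReal.tendsto_nhds_zero.1 h4) 1 one_pos
  have h6 := (h5.and self_mem_nhdsWithin).exists
  obtain ⟨a, ha1, ha2⟩ := h6
  have ha : (0 : ℝ) < a := ha2
  have h7 : ENNReal.ofReal a * (⊤ : ENNReal) ≤ 1 := by
    rw [← lintegral_top a ha]
    exact ha1
  rw [ENNReal.mul_top (by simpa using ha)] at h7
  exact absurd h7 (by simp)

end Pool.Agent.S1860
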