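import Pool.Statements.S1993
import Pool.Agent.H8.PSTmain

set_option autoImplicit false
open Pool Pool.MP_12e063_co

namespace Pool.Agent.S1993

open Pool.H8.PST in
/-- layer index -/
def lay (N : ℕ) : Vx N → ℕ
  | .inl _ => 0
  | .inr p => p.1.val + 1

open Pool.H8.PST in
lemma lay_adj {N : ℕ} [NeZero N] {x y : Vx N} (h : (gr N).Adj x y) : lay N y ≤ lay N x + 1 := by
  rcases x with i | p <;> rcases y with j | q
  · exact absurd h (fun h : False => h)
  · have h' : q.1.val = 0 := h
    simp only [lay]; omega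
  · simp only [lay]; omega
  · rcases h with ⟨h, -⟩ | ⟨h, -⟩ | ⟨h, -⟩ <;> simp only [lay] <;> omega

lemma lay_walk {W : Type} {G : SimpleGraph W} (f : W → ℕ) (hf : ∀ x y, G.Adj x y → f y ≤ f x + 1)
    {x y : W} (w : G.Walk x y) : f y ≤ f x + w.length := by
  induction w with
  | nil => simp
  | cons h w ih =>
    have := hf _ _ h
    simp only [SimpleGraph.Walk.length_cons]
    omega

open Pool.H8.PST in
lemma reach_inl {N : ℕ} [NeZero N] (l : ℕ) : ∀ (hl : l < N) (s : ZMod (S N)),
    (gr N).Reachable (Sum.inl 0) (Sum.inr (⟨l, hl⟩, s)) := by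
  induction l with
  | zero =>
    intro hl s
    exact SimpleGraph.Adj.reachable (show (gr N).Adj (Sum.inl 0) (Sum.inr (⟨0, hl⟩, s)) from rfl)
  | succ l ih =>
    intro hl s
    refine (ih (by omega) s).trans (SimpleGraph.Adj.reachable ?_)
    refine Or.inl ⟨rfl, ?_⟩
    simp only [sub_self, ZMod.val_zero]
    unfold bb
    have : 0 < N - (l + 1) := by omega
    positivity

open Pool.H8.PST in
lemma conn {N : ℕ} [NeZero N] : (gr N).Connected := by
  have hN := NeZero.pos N
  have h : ∀ x : Vx N, (gr N).Reachable (Sum.inl 0) x := by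
    rintro (i | ⟨⟨l, hl⟩, s⟩)
    · have h1 : (gr N).Adj (Sum.inl i) (Sum.inr (⟨0, hN⟩, (0 : ZMod (S N)))) := rfl
      exact (reach_inl 0 hN 0).trans h1.symm.reachable
    · exact reach_inl l hl s
  have : Nonempty (Vx N) := ⟨Sum.inl 0⟩
  exact SimpleGraph.Connected.mk (fun x y => (h x).symm.trans (h y))

open Pool.H8.PST in
/-- There are constants C,k such that arbitrarily large connected simple graphs exist with at most C·diam^k vertices, each having perfect state transfer: for some distinct u,v and time t, the (u,v) entry of exp(-itA) has modulus 1. -/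
theorem result :
    ∃ C k : ℕ, ∀ N : ℕ, ∃ (n : ℕ) (G : SimpleGraph (Fin n)) (_ : DecidableRel G.Adj),
      N < n ∧ G.Connected ∧ n ≤ C * G.diam ^ k ∧
      ∃ (u v : Fin n) (t : ℝ), u ≠ v ∧
        ‖∑' m : ℕ, ((-(t : ℂ) * Complex.I) ^ m / (m.factorial : ℂ)) *
            ((G.adjMatrix ℂ) ^ m) u v‖ = 1 := by
  classical
  refine ⟨4, 3, fun N₀ => ?_⟩
  set N := 2 * N₀ + 1 with hNdef
  have : NeZero N := ⟨by omega⟩
  have hodd : Odd N := ⟨N₀, rfl⟩
  have hcard : Fintype.card (Vx N) = 2 + N * (2 * N * N) := by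
    rw [Fintype.card_sum, Fintype.card_prod, ZMod.card, Fintype.card_fin, Fintype.card_fin]
    rfl
  set n := Fintype.card (Vx N) with hn
  let e : Vx N ≃ Fin n := Fintype.equivFin (Vx N)
  let G : SimpleGraph (Fin n) := (gr N).comap e.symm
  have iso : G ≃g gr N := SimpleGraph.Iso.comap e.symm (gr N)
  have hconn : G.Connected := by
    rw [SimpleGraph.Iso.connected_iff iso]
    exact conn
  have hdiam : N ≤ G.diam := by
    have hne : Nonempty (Fin n) := ⟨e (Sum.inl 0)⟩
    have htop := SimpleGraph.connected_iff_ediam_ne_top.mp hconn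
    refine le_trans ?_ (SimpleGraph.dist_le_diam htop (u := e (Sum.inl 0))
      (v := e (Sum.inr (⟨N - 1, by omega⟩, 0))))
    obtain ⟨w, hw⟩ := hconn.exists_walk_length_eq_dist (e (Sum.inl 0))
      (e (Sum.inr (⟨N - 1, by omega⟩, 0)))
    have h1 := lay_walk (fun x => lay N (e.symm x)) (fun x y h => lay_adj h) w
    rw [hw] at h1
    simp only [Equiv.symm_apply_apply, lay] at h1
    omega
  refine ⟨n, G, inferInstance, ?_, hconn, ?_, e (Sum.inl 0), e (Sum.inl 1), Real.pi / 2, ?_, ?_⟩
  · rw [hcard]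
    nlinarith [Nat.zero_le N₀, mul_pos (show 0 < N by omega) (show 0 < N by omega)]
  · calc n = 2 + N * (2 * N * N) := hcard
      _ ≤ 4 * N ^ 3 := by
        have : 1 ≤ N ^ 3 := Nat.one_le_pow _ _ (by omega)
        nlinarith
      _ ≤ 4 * G.diam ^ 3 := Nat.mul_le_mul_left _ (Nat.pow_le_pow_left hdiam 3)
  · intro h
    have := e.injective h
    simp at this
  · have hmat : (G.adjMatrix ℂ) = Matrix.reindexAlgEquiv ℂ ℂ e ((gr N).adjMatrix ℂ) := by
      ext i j
      simp only [SimpleGraph.adjMatrix_apply, Matrix.coe_reindexAlgEquiv, Matrix.reindex_apply,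
        Matrix.submatrix_apply]
      rfl
    have hent : ∀ m : ℕ, ((G.adjMatrix ℂ) ^ m) (e (Sum.inl 0)) (e (Sum.inl 1)) =
        (((gr N).adjMatrix ℂ) ^ m) (Sum.inl 0) (Sum.inl 1) := by
      intro m
      rw [hmat, ← map_pow]
      simp
    have h := pst_gr (N := N) hodd
    rw [← h]
    congr 1
    refine tsum_congr fun m => ?_
    exact congrArg (fun z => (-((Real.pi / 2 : ℝ) : ℂ) * Complex.I) ^ m / (m.factorial : ℂ) * z)
      (hent m)

end Pool.Agent.S1993
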