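import Pool.Statements.S2021
import Pool.Agent.H15.UDec

set_option autoImplicit false
open Pool Pool.MP_1bb742_co

namespace Pool.Agent.S2021

/-- For every ε,δ>0 and all large n, any two n-vertex graphs with equal edge counts above εn² can have their edge sets split into at most δn parts each, the i-th parts being isomorphic via a vertex permutation. -/
theorem result :
    ∀ ε : ℝ, 0 < ε → ∀ δ : ℝ, 0 < δ → ∃ N : ℕ, ∀ n : ℕ, N ≤ n →
      ∀ G G' : SimpleGraph (Fin n),
        G.edgeSet.ncard = G'.edgeSet.ncard →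
        ε * (n : ℝ) ^ 2 < (G.edgeSet.ncard : ℝ) →
        ∃ r : ℕ, (r : ℝ) ≤ δ * (n : ℝ) ∧
          ∃ c c' : Sym2 (Fin n) → Fin r,
            ∀ i : Fin r, ∃ σ : Equiv.Perm (Fin n),
              Sym2.map σ '' {e | e ∈ G.edgeSet ∧ c e = i} =
                {e | e ∈ G'.edgeSet ∧ c' e = i} := by
  classical
  intro ε hε δ hδ
  obtain ⟨N, hN⟩ := Pool.Agent.H15.UDec.main ε hε δ hδ
  refine ⟨N, fun n hn G G' hcard hdense => ?_⟩
  let E : Finset (Sym2 (Fin n)) := (Set.toFinite G.edgeSet).toFinset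
  let E' : Finset (Sym2 (Fin n)) := (Set.toFinite G'.edgeSet).toFinset
  have hE : E.card = G.edgeSet.ncard := (Set.ncard_eq_toFinset_card _ _).symm
  have hE' : E'.card = G'.edgeSet.ncard := (Set.ncard_eq_toFinset_card _ _).symm
  have mE : ∀ e, e ∈ E ↔ e ∈ G.edgeSet := fun e => Set.Finite.mem_toFinset _
  have mE' : ∀ e, e ∈ E' ↔ e ∈ G'.edgeSet := fun e => Set.Finite.mem_toFinset _
  obtain ⟨r, hr, hst⟩ := hN n hn E E'
    (fun e he => G.not_isDiag_of_mem_edgeSet ((mE e).1 he))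
    (fun e he => G'.not_isDiag_of_mem_edgeSet ((mE' e).1 he))
    (by rw [hE, hE', hcard]) (by rw [hE]; exact hdense.le)
  obtain ⟨c, c', hc⟩ := hst.color rfl rfl
  refine ⟨r + 1, hr, c, c', fun i => ?_⟩
  obtain ⟨σ, hσ⟩ := hc i
  refine ⟨σ, ?_⟩
  simp only [mE, mE'] at hσ
  exact hσ

end Pool.Agent.S2021
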