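import Pool.Statements.S2055
import Pool.Agent.H20.Retr

set_option autoImplicit false
open Pool Pool.MP_238aad_co

namespace Pool.Agent.S2055


/-- For every nonprincipal ultrafilter U on ℕ (ordered by inclusion) and monotone f:U→U whose images of coatoms have no common lower bound in f(U), U is a retract of f(U) via monotone maps g, h with g∘h = id. -/
theorem result :
    ∀ U : Ultrafilter ℕ, (∀ n : ℕ, U ≠ pure n) →
      ∀ f : {s : Set ℕ // s ∈ U} → {s : Set ℕ // s ∈ U}, Monotone f →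
        (¬ ∃ y : {s : Set ℕ // s ∈ U}, y ∈ Set.range f ∧
            ∀ c : {s : Set ℕ // s ∈ U},
              (c.1 ≠ Set.univ ∧ ∀ t : {s : Set ℕ // s ∈ U}, c.1 ⊆ t.1 → t.1 = c.1 ∨ t.1 = Set.univ) →
              y ≤ f c) →
        ∃ g : ↥(Set.range f) → {s : Set ℕ // s ∈ U},
          ∃ h : {s : Set ℕ // s ∈ U} → ↥(Set.range f),
            Monotone g ∧ Monotone h ∧ ∀ x, g (h x) = x := by
  classical
  intro U hne f hf hlow
  have hfin : ∀ s : Set ℕ, s.Finite → s ∉ U := by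
    intro s hs hsU
    obtain ⟨x, _, hx⟩ := Ultrafilter.eq_pure_of_finite_mem hs hsU
    exact hne x hx
  have hsing : ∀ n : ℕ, ({n}ᶜ : Set ℕ) ∈ U := fun n =>
    Ultrafilter.compl_mem_iff_notMem.mpr (hfin _ (Set.finite_singleton n))
  let c : ℕ → Set ℕ := fun n => (f ⟨{n}ᶜ, hsing n⟩).1
  -- the function phi
  let φ : Set ℕ → Set ℕ := fun A => {n | ∃ h : A ∈ U, ¬ (f ⟨A, h⟩).1 ⊆ c n}
  have hmono : ∀ A B : Set ℕ, A ∈ U → A ⊆ B → φ A ⊆ φ B := by
    intro A B hA hAB n hn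
    obtain ⟨h, hn⟩ := hn
    have hB : B ∈ U := Filter.mem_of_superset hA hAB
    refine ⟨hB, fun hc => hn ?_⟩
    have h1 : f ⟨A, h⟩ ≤ f ⟨B, hB⟩ := hf hAB
    exact Set.Subset.trans h1 hc
  have hU : ∀ A ∈ U, φ A ∈ U := by
    intro A hA
    by_contra hcon
    have h1 : A \ φ A ∈ U := Pool.Agent.H20.Retr.diff_mem U hA hcon
    refine hlow ⟨f ⟨A \ φ A, h1⟩, ⟨_, rfl⟩, ?_⟩
    rintro d ⟨hd1, hd2⟩
    obtain ⟨n, hn⟩ := (Set.ne_univ_iff_exists_notMem _).mp hd1
    have h2 : d.1 ⊆ {n}ᶜ := by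
      intro x hx hxn
      have hxn' : x = n := hxn
      subst hxn'
      exact hn hx
    have h3 : d = ⟨{n}ᶜ, hsing n⟩ := by
      rcases hd2 ⟨{n}ᶜ, hsing n⟩ h2 with h | h
      · exact Subtype.ext h.symm
      · exfalso
        have h' : ({n}ᶜ : Set ℕ) = Set.univ := h
        have : n ∈ ({n}ᶜ : Set ℕ) := by rw [h']; exact Set.mem_univ _
        exact this rfl
    rw [h3]
    show (f ⟨A \ φ A, h1⟩).1 ⊆ c n
    by_cases hnA : n ∈ A \ φ A
    · by_contra hcc
      apply hnA.2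
      exact hmono _ _ h1 Set.sdiff_subset ⟨h1, hcc⟩
    · have h4 : (⟨A \ φ A, h1⟩ : {s : Set ℕ // s ∈ U}) ≤ ⟨{n}ᶜ, hsing n⟩ := by
        intro x hx hxn
        have hxn' : x = n := hxn
        subst hxn'
        exact hnA hx
      exact hf h4
  obtain ⟨A, hA, W, hWinf, hWA, hfree⟩ := Pool.Agent.H20.Retr.core U hfin φ hmono hU
  -- split A
  have hAinf : A.Infinite := fun h => hfin A h hA
  obtain ⟨E, hEA, hEinf, hEU⟩ : ∃ E : Set ℕ, E ⊆ A ∧ E.Infinite ∧ E ∉ U := by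
    let e : ℕ → ℕ := fun n => (hAinf.natEmbedding A n : ℕ)
    have he : Function.Injective e := fun a b h =>
      (hAinf.natEmbedding A).injective (Subtype.ext h)
    have heA : ∀ n, e n ∈ A := fun n => (hAinf.natEmbedding A n).2
    have h0 : (Set.range (fun n => e (2 * n))).Infinite :=
      Set.infinite_range_of_injective (fun a b h => by have := he h; omega)
    have h1 : (Set.range (fun n => e (2 * n + 1))).Infinite :=
      Set.infinite_range_of_injective (fun a b h => by have := he h; omega)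
    by_cases h : Set.range (fun n => e (2 * n)) ∈ U
    · refine ⟨_, ?_, h1, ?_⟩
      · rintro x ⟨n, rfl⟩
        exact heA _
      · intro h'
        refine Pool.Agent.H20.Retr.not_both U h h' ?_
        rintro x ⟨a, rfl⟩ ⟨b, hb⟩
        have := he hb
        omega
    · refine ⟨_, ?_, h0, h⟩
      rintro x ⟨n, rfl⟩
      exact heA _
  have hA1 : A \ E ∈ U := Pool.Agent.H20.Retr.diff_mem U hA hEU
  let ι : ℕ → ℕ := fun n => (hEinf.natEmbedding E n : ℕ)
  have hι : Function.Injective ι := fun a b h =>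
    (hEinf.natEmbedding E).injective (Subtype.ext h)
  have hιE : ∀ n, ι n ∈ E := fun n => (hEinf.natEmbedding E n).2
  let ρ : ℕ → ℕ := fun n => (hWinf.natEmbedding W n : ℕ)
  have hρ : Function.Injective ρ := fun a b h =>
    (hWinf.natEmbedding W).injective (Subtype.ext h)
  have hρW : ∀ n, ρ n ∈ W := fun n => (hWinf.natEmbedding W n).2
  let β : ℕ → ℕ := fun n => if n ∈ A \ E then n else ι n
  have hβA : ∀ n, β n ∈ A := by
    intro n
    by_cases h : n ∈ A \ E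
    · have : β n = n := if_pos h
      rw [this]; exact h.1
    · have : β n = ι n := if_neg h
      rw [this]; exact hEA (hιE n)
  have hW : W ∉ U := fun h => Pool.Agent.H20.Retr.not_both U h hA hWA
  let H : Set ℕ → Set ℕ := fun B => β '' B ∪ ρ '' B
  have hH : ∀ B : Set ℕ, B ∉ U → H B ∉ U := by
    intro B hB h
    have h1 : B ∪ E ∪ W ∉ U := Pool.Agent.H20.Retr.union_notMem U
      (Pool.Agent.H20.Retr.union_notMem U hB hEU) hW
    apply h1
    refine Filter.mem_of_superset h ?_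
    rintro x (⟨n, hn, rfl⟩ | ⟨n, hn, rfl⟩)
    · left
      by_cases h' : n ∈ A \ E
      · have : β n = n := if_pos h'
        rw [this]; exact Or.inl hn
      · have : β n = ι n := if_neg h'
        rw [this]; exact Or.inr (hιE n)
    · right; exact hρW n
  have hHc : ∀ S ∈ U, (H Sᶜ)ᶜ ∈ U := fun S hS =>
    Ultrafilter.compl_mem_iff_notMem.mpr (hH _ (Ultrafilter.compl_notMem_iff.mpr hS))
  -- the retraction
  let g0 : Set ℕ → Set ℕ := fun X => {n | ¬ (X ⊆ c (β n) ∧ X ⊆ c (ρ n))}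
  have hg0 : ∀ X : ↥(Set.range f), g0 X.1.1 ∈ U := by
    rintro ⟨X, D, rfl⟩
    refine Filter.mem_of_superset (Filter.inter_mem hA1 (hU D.1 D.2)) ?_
    rintro n ⟨hn1, hn2⟩ ⟨h1, h2⟩
    have hb : β n = n := if_pos hn1
    rw [hb] at h1
    obtain ⟨h3, h4⟩ := hn2
    exact h4 h1
  refine ⟨fun X => ⟨g0 X.1.1, hg0 X⟩, fun S => ⟨f ⟨(H S.1ᶜ)ᶜ, hHc S.1 S.2⟩, ⟨_, rfl⟩⟩,
    ?_, ?_, ?_⟩
  · intro X Y hXY n hn hcon
    have hXY' : X.1.1 ⊆ Y.1.1 := hXY
    exact hn ⟨hXY'.trans hcon.1, hXY'.trans hcon.2⟩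
  · intro S T hST
    have hST' : S.1 ⊆ T.1 := hST
    have h1 : (⟨(H S.1ᶜ)ᶜ, hHc S.1 S.2⟩ : {s : Set ℕ // s ∈ U}) ≤ ⟨(H T.1ᶜ)ᶜ, hHc T.1 T.2⟩ := by
      intro x hx hxT
      apply hx
      rcases hxT with ⟨n, hn, rfl⟩ | ⟨n, hn, rfl⟩
      · exact Or.inl ⟨n, fun h => hn (hST' h), rfl⟩
      · exact Or.inr ⟨n, fun h => hn (hST' h), rfl⟩
    exact hf h1
  · rintro ⟨S, hS⟩
    apply Subtype.ext
    show g0 (f ⟨(H Sᶜ)ᶜ, hHc S hS⟩).1 = S
    ext n
    constructor
    · intro hn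
      by_contra hnS
      apply hn
      constructor
      · have h1 : (⟨(H Sᶜ)ᶜ, hHc S hS⟩ : {s : Set ℕ // s ∈ U}) ≤ ⟨{β n}ᶜ, hsing _⟩ := by
          intro x hx hxn
          have hxn' : x = β n := hxn
          subst hxn'
          exact hx (Or.inl ⟨n, hnS, rfl⟩)
        exact hf h1
      · have h1 : (⟨(H Sᶜ)ᶜ, hHc S hS⟩ : {s : Set ℕ // s ∈ U}) ≤ ⟨{ρ n}ᶜ, hsing _⟩ := by
          intro x hx hxn
          have hxn' : x = ρ n := hxn
          subst hxn'
          exact hx (Or.inr ⟨n, hnS, rfl⟩)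
        exact hf h1
    · intro hn hcon
      have h1 := hfree (ρ n) (hρW n) (H Sᶜ) (hH _ (Ultrafilter.compl_notMem_iff.mpr hS)) (by
        rintro x (⟨m, hm, rfl⟩ | ⟨m, hm, rfl⟩)
        · exact Or.inl (hβA m)
        · refine Or.inr ⟨hρW m, ?_⟩
          intro h
          have h' : ρ m = ρ n := h
          have := hρ h'
          subst this
          exact hm hn)
      obtain ⟨h2, h3⟩ := h1
      exact h3 hcon.2

end Pool.Agent.S2055
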