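import Pool.Statements.S2059
import Pool.Agent.H23.Geo7

set_option autoImplicit false
open Pool Pool.MP_246c79_co

namespace Pool.Agent.S2059

/-- Every infinite geometric lattice of finite rank r has a family of pairwise disjoint maximal chains of L minus its bottom and top such that every atom lies in one of these chains. -/
theorem result :
    ∀ (L : Type) [CompleteLattice L] [IsAtomistic L] [IsUpperModularLattice L] [Infinite L]
      (r : ℕ), Order.height (⊤ : L) = (r : ℕ∞) →
      ∃ M : Set (Set L),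
        (∀ m ∈ M,
          (∀ x ∈ m, x ≠ ⊥ ∧ x ≠ ⊤) ∧ IsChain (· ≤ ·) m ∧
          ∀ m' : Set L, (∀ x ∈ m', x ≠ ⊥ ∧ x ≠ ⊤) → IsChain (· ≤ ·) m' → m ⊆ m' → m' = m) ∧
        M.PairwiseDisjoint id ∧
        ∀ x : L, IsAtom x → ∃ m ∈ M, x ∈ m := by
  intro L _ _ _ _ r hr
  classical
  have hfin : ∀ x : L, Order.height x ≤ (r : ℕ∞) := fun x => by
    rw [← hr]; exact Order.height_mono le_top
  have hlt : ∀ x : L, Order.height x < ⊤ := fun x => (hfin x).trans_lt (ENat.coe_lt_top r)
  have hsm : StrictMono (fun x : L => (Order.height x).toNat) := by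
    intro x y hxy
    have h1 := Order.height_strictMono hxy (hlt x)
    have h2 := ENat.coe_toNat (hlt x).ne
    have h3 := ENat.coe_toNat (hlt y).ne
    rw [← h2, ← h3] at h1
    exact_mod_cast h1
  haveI : WellFoundedLT L := hsm.wellFoundedLT
  have hbd : ∀ x : L, (Order.height x).toNat ≤ r := fun x => ENat.toNat_le_of_le_coe (hfin x)
  haveI : WellFoundedGT L := by
    have : StrictAnti (fun x : L => r - (Order.height x).toNat) := by
      intro x y hxy
      have h1 := hsm hxy
      have h2 := hbd y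
      have h1' : (Order.height x).toNat < (Order.height y).toNat := h1
      show r - (Order.height y).toNat < r - (Order.height x).toNat
      omega
    exact this.wellFoundedGT
  obtain ⟨ρ, hρ, hbot⟩ := H23.Geo.exists_rk (L := L)
  have hat : ∀ x : L, IsAtom x ↔ x ∈ H23.Geo.At ρ ⊥ ⊤ := by
    intro x
    constructor
    · intro hx
      refine ⟨bot_le, le_top, ?_⟩
      obtain ⟨p, _, p2, p3, p4⟩ := hρ.rel ⊥ ⊥ x le_rfl hx.bot_lt
      rcases hx.le_iff.mp p2 with h1 | h1
      · exact absurd h1.le p3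
      · rw [← h1]; exact p4
    · rintro ⟨_, _, h3⟩
      refine ⟨fun e => by rw [e] at h3; omega, fun b hb => ?_⟩
      by_contra hne
      have h4 := hρ.mono hb
      have h5 := hρ.mono (bot_lt_iff_ne_bot.mpr hne)
      omega
  have hinf : (H23.Geo.At ρ (⊥ : L) ⊤).Infinite := by
    intro hf
    have h1 : (Set.univ : Set L).Finite := by
      refine Set.Finite.of_injOn (f := fun x => {a | a ∈ H23.Geo.At ρ (⊥ : L) ⊤ ∧ a ≤ x})
        (t := {s | s ⊆ H23.Geo.At ρ (⊥ : L) ⊤}) ?_ ?_ hf.finite_subsets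
      · intro x _ a ha; exact ha.1
      · intro x _ y _ hxy
        have key : ∀ x y : L, {a | a ∈ H23.Geo.At ρ (⊥ : L) ⊤ ∧ a ≤ x} =
            {a | a ∈ H23.Geo.At ρ (⊥ : L) ⊤ ∧ a ≤ y} → x ≤ y := by
          intro x y hxy
          rw [le_iff_atom_le_imp]
          intro c hc hcx
          have : c ∈ {a | a ∈ H23.Geo.At ρ (⊥ : L) ⊤ ∧ a ≤ x} := ⟨(hat c).mp hc, hcx⟩
          rw [hxy] at this
          exact this.2
        exact le_antisymm (key x y hxy) (key y x hxy.symm)
    exact Set.infinite_univ h1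
  have htop : 1 < ρ (⊤ : L) := by
    by_contra hcon
    apply hinf
    refine (Set.finite_singleton (⊤ : L)).subset ?_
    rintro x ⟨_, h2, h3⟩
    exact hρ.eq h2 (by omega)
  obtain ⟨c, hc1, hc2⟩ := hρ.main (ρ ⊤) ⊥ ⊤ bot_le (by omega) hinf
  have hrk : ∀ x, IsAtom x → ∀ i, i + 1 < ρ (⊤ : L) → ρ (c x i) = 1 + i := by
    intro x hx i hi
    have := ((hc1 x ((hat x).mp hx)).2.1 i (by omega)).1
    omega
  have hmono : ∀ x, IsAtom x → ∀ i j, i ≤ j → j + 1 < ρ (⊤ : L) → c x i ≤ c x j := by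
    intro x hx i j hij
    induction j, hij using Nat.le_induction with
    | base => intro _; exact le_rfl
    | succ j hj ih =>
      intro hj'
      exact (ih (by omega)).trans ((hc1 x ((hat x).mp hx)).2.2 j (by omega))
  refine ⟨{m | ∃ x, IsAtom x ∧ m = {y | ∃ i, i + 1 < ρ (⊤ : L) ∧ c x i = y}}, ?_, ?_, ?_⟩
  · rintro m ⟨x, hx, rfl⟩
    refine ⟨?_, ?_, ?_⟩
    · rintro y ⟨i, hi, rfl⟩
      have h1 := hrk x hx i hi
      constructor
      · intro e; rw [e] at h1; omega
      · intro e; rw [e] at h1; omega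
    · rintro y ⟨i, hi, rfl⟩ z ⟨j, hj, rfl⟩ _
      rcases le_total i j with h | h
      · exact Or.inl (hmono x hx i j h hj)
      · exact Or.inr (hmono x hx j i h hi)
    · intro m' hm' hch hsub
      apply Set.Subset.antisymm _ hsub
      intro y hy
      obtain ⟨h1, h2⟩ := hm' y hy
      have h3 := hρ.mono (bot_lt_iff_ne_bot.mpr h1)
      have h4 := hρ.mono (lt_top_iff_ne_top.mpr h2)
      have h5 : (ρ y - 1) + 1 < ρ (⊤ : L) := by omega
      refine ⟨ρ y - 1, h5, ?_⟩
      have h6 := hrk x hx _ h5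
      have h7 : c x (ρ y - 1) ∈ m' := hsub ⟨_, h5, rfl⟩
      rcases hch.total h7 hy with h | h
      · exact hρ.eq h (by omega)
      · exact (hρ.eq h (by omega)).symm
  · rintro m ⟨x, hx, rfl⟩ m' ⟨x', hx', rfl⟩ hne
    rw [Function.onFun, Set.disjoint_left]
    rintro y ⟨i, hi, h1⟩ ⟨j, hj, h2⟩
    apply hne
    have h3 := hrk x hx i hi
    have h4 := hrk x' hx' j hj
    rw [h1] at h3
    rw [h2] at h4
    have h5 : i = j := by omega
    subst h5
    have h6 := hc2 x ((hat x).mp hx) x' ((hat x').mp hx') i (by omega) (h1.trans h2.symm)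
    rw [h6]
  · intro x hx
    refine ⟨_, ⟨x, hx, rfl⟩, 0, by omega, ?_⟩
    exact (hc1 x ((hat x).mp hx)).1

end Pool.Agent.S2059
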