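import Pool.Statements.S2107
import Pool.Agent.H8.CovMain
import Pool.Agent.H8.CovNTA

set_option autoImplicit false
open Pool Pool.MP_3411af_co

namespace Pool.Agent.S2107

/-- There are graphs G_n with crossing-free circular-arc drawings covered by a_n circles or lines, no crossing-free straight-line drawing covered by fewer than b_n lines, b_n at least 1, and a_n/b_n tending to 0. -/
theorem result :
  ∃ (m : ℕ → ℕ) (G : ∀ n, SimpleGraph (Fin (m n))) (a b : ℕ → ℕ),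
    (∀ n, 0 < b n) ∧
    Filter.Tendsto (fun n => (a n : ℝ) / (b n : ℝ)) Filter.atTop (nhds 0) ∧
    (∀ n, ∃ C : Fin (a n) → Set (EuclideanSpace ℝ (Fin 2)),
      (∀ i, (∃ (c : EuclideanSpace ℝ (Fin 2)) (r : ℝ), 0 < r ∧ C i = Metric.sphere c r) ∨
            (∃ x y : EuclideanSpace ℝ (Fin 2), x ≠ y ∧
              C i = ((line[ℝ, x, y] : AffineSubspace ℝ (EuclideanSpace ℝ (Fin 2))) :
                Set (EuclideanSpace ℝ (Fin 2))))) ∧
      ∃ p : Fin (m n) → EuclideanSpace ℝ (Fin 2), Function.Injective p ∧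
        (∀ v, ∃ i, p v ∈ C i) ∧
        ∃ γ : ∀ u v : Fin (m n), Path (p u) (p v),
          (∀ u v, (G n).Adj u v →
            Function.Injective ⇑(γ u v) ∧ ∃ i, Set.range ⇑(γ u v) ⊆ C i) ∧
          (∀ u v w, (G n).Adj u v → w ≠ u → w ≠ v → p w ∉ Set.range ⇑(γ u v)) ∧
          (∀ u v x y, (G n).Adj u v → (G n).Adj x y → s(u, v) ≠ s(x, y) →
            Set.range ⇑(γ u v) ∩ Set.range ⇑(γ x y) ⊆
              p '' (({u, v} : Set (Fin (m n))) ∩ ({x, y} : Set (Fin (m n)))))) ∧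
    (∀ n, ∀ k < b n, ¬ ∃ L : Fin k → Set (EuclideanSpace ℝ (Fin 2)),
      (∀ i, ∃ x y : EuclideanSpace ℝ (Fin 2), x ≠ y ∧
        L i = ((line[ℝ, x, y] : AffineSubspace ℝ (EuclideanSpace ℝ (Fin 2))) :
          Set (EuclideanSpace ℝ (Fin 2)))) ∧
      ∃ p : Fin (m n) → EuclideanSpace ℝ (Fin 2), Function.Injective p ∧
        (∀ v, ∃ i, p v ∈ L i) ∧
        (∀ u v, (G n).Adj u v → ∃ i, segment ℝ (p u) (p v) ⊆ L i) ∧
        (∀ u v w, (G n).Adj u v → w ≠ u → w ≠ v → p w ∉ segment ℝ (p u) (p v)) ∧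
        (∀ u v x y, (G n).Adj u v → (G n).Adj x y → s(u, v) ≠ s(x, y) →
          segment ℝ (p u) (p v) ∩ segment ℝ (p x) (p y) ⊆
            p '' (({u, v} : Set (Fin (m n))) ∩ ({x, y} : Set (Fin (m n)))))) := by
  
  exact Pool.Agent.H8.Cov.main Pool.Agent.H8.Cov.sum_inv_three

end Pool.Agent.S2107
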