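import Pool.Statements.S2162
-- import your own Pool.Agent.* helpers here

set_option autoImplicit false
open Pool Pool.MP_3fd808_co

namespace Pool.Agent.S2162

/-- out-neighbourhood masks of the tournament on six vertices -/
def am : List ℕ := [14, 24, 10, 48, 37, 7]

/-- colours -/
def cm : List (List ℕ) := [[0, 0, 3, 3, 0, 0], [0, 0, 0, 2, 1, 0], [0, 1, 0, 0, 0, 0],
  [0, 0, 0, 0, 3, 2], [0, 0, 3, 0, 0, 1], [2, 3, 0, 0, 0, 0]]

/-- sets reached by nonempty monochromatic walks, by colour and start -/
def rm : List (List ℕ) := [[2, 0, 8, 0, 3, 12], [0, 48, 50, 0, 32, 0], [0, 41, 0, 33, 0, 1],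
  [28, 0, 0, 20, 4, 2]]

def ad (x y : Fin 6) : Bool := (am.getD x 0).testBit y

def co (x y : Fin 6) : ℕ := (cm.getD x []).getD y 0

def re (a : ℕ) (x y : Fin 6) : Bool := ((rm.getD a []).getD x 0).testBit y

/-- a vertex not reached from `v` -/
def wt (v : Fin 6) : Fin 6 := ![5, 2, 0, 1, 3, 4] v

lemma co_lt : ∀ x y, co x y < 4 := by decide +kernel

lemma re_base : ∀ a : Fin 4, ∀ x y, ad x y = true → co x y = a.val → re a x y = true := by
  decide +kernel

lemma re_step : ∀ a : Fin 4, ∀ v x y, re a v x = true → ad x y = true → co x y = a.val →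
    re a v y = true := by
  decide +kernel

lemma re_wt : ∀ a : Fin 4, ∀ v, re a v (wt v) = false ∧ wt v ≠ v := by decide +kernel

lemma no3 : ∀ x y z, ad x y = true → ad y z = true → ad z x = true →
    ¬ (co x y ≠ co y z ∧ co x y ≠ co z x ∧ co y z ≠ co z x) := by decide +kernel

lemma no4 : ∀ x y z w, ad x y = true → ad y z = true → ad z w = true → ad w x = true →
    ¬ (co x y ≠ co y z ∧ co x y ≠ co z w ∧ co x y ≠ co w x ∧ co y z ≠ co z w ∧
      co y z ≠ co w x ∧ co z w ≠ co w x) := by decide +kernel

/-- The negation of the preceding statement: Every nonempty finite tournament with arcs coloured by naturals has a directed cycle whose arcs all have distinct colours, or a vertex from which every other vertex is reachable by a one-colour directed path. -/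
theorem result :
    ¬ (∀ (V : Type) [Fintype V] [Nonempty V] (adj : V → V → Prop) (c : V → V → ℕ),
      (∀ x y : V, adj x y → ¬ adj y x) →
      (∀ x y : V, x ≠ y → adj x y ∨ adj y x) →
      (∃ (k : ℕ) (f : ℕ → V), 3 ≤ k ∧
          (∀ i j : ℕ, i < k → j < k → f i = f j → i = j) ∧
          (∀ i : ℕ, i < k → adj (f i) (f ((i + 1) % k))) ∧
          (∀ i j : ℕ, i < k → j < k →
            c (f i) (f ((i + 1) % k)) = c (f j) (f ((j + 1) % k)) → i = j)) ∨
      (∃ v : V, ∀ w : V, w ≠ v →
          ∃ a : ℕ, Relation.TransGen (fun x y : V => adj x y ∧ c x y = a) v w)) := by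
  intro H
  have h := H (Fin 6) (fun x y => ad x y = true) co (by decide +kernel) (by decide +kernel)
  rcases h with ⟨k, f, hk, -, hadj, hcol⟩ | ⟨v, hv⟩
  · -- at most four colours
    have hk4 : k ≤ 4 := by
      by_contra hlt
      push Not at hlt
      have hinj : Function.Injective
          (fun i : Fin k => (⟨co (f i) (f ((i + 1) % k)), co_lt _ _⟩ : Fin 4)) := by
        intro i j hij
        apply Fin.ext
        exact hcol i j i.2 j.2 (congrArg Fin.val hij)
      have := Fintype.card_le_of_injective _ hinj
      simp only [Fintype.card_fin] at this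
      omega
    interval_cases k
    · have h0 := hadj 0 (by norm_num)
      have h1 := hadj 1 (by norm_num)
      have h2 := hadj 2 (by norm_num)
      norm_num at h0 h1 h2
      apply no3 _ _ _ h0 h1 h2
      refine ⟨fun h => ?_, fun h => ?_, fun h => ?_⟩
      · have := hcol 0 1 (by norm_num) (by norm_num) (by norm_num; exact h)
        omega
      · have := hcol 0 2 (by norm_num) (by norm_num) (by norm_num; exact h)
        omega
      · have := hcol 1 2 (by norm_num) (by norm_num) (by norm_num; exact h)
        omega
    · have h0 := hadj 0 (by norm_num)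
      have h1 := hadj 1 (by norm_num)
      have h2 := hadj 2 (by norm_num)
      have h3 := hadj 3 (by norm_num)
      norm_num at h0 h1 h2 h3
      apply no4 _ _ _ _ h0 h1 h2 h3
      refine ⟨fun h => ?_, fun h => ?_, fun h => ?_, fun h => ?_, fun h => ?_, fun h => ?_⟩
      · have := hcol 0 1 (by norm_num) (by norm_num) (by norm_num; exact h)
        omega
      · have := hcol 0 2 (by norm_num) (by norm_num) (by norm_num; exact h)
        omega
      · have := hcol 0 3 (by norm_num) (by norm_num) (by norm_num; exact h)
        omega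
      · have := hcol 1 2 (by norm_num) (by norm_num) (by norm_num; exact h)
        omega
      · have := hcol 1 3 (by norm_num) (by norm_num) (by norm_num; exact h)
        omega
      · have := hcol 2 3 (by norm_num) (by norm_num) (by norm_num; exact h)
        omega
  · obtain ⟨a, ha⟩ := hv (wt v) (re_wt 0 v).2
    have key : ∀ x : Fin 6, Relation.TransGen
        (fun x y : Fin 6 => ad x y = true ∧ co x y = a) v x → a < 4 ∧ re a v x = true := by
      intro x hx
      induction hx with
      | single h =>
        have hlt : a < 4 := by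
          rw [← h.2]
          exact co_lt _ _
        exact ⟨hlt, re_base ⟨a, hlt⟩ _ _ h.1 h.2⟩
      | tail _ h ih => exact ⟨ih.1, re_step ⟨a, ih.1⟩ _ _ _ ih.2 h.1 h.2⟩
    obtain ⟨hlt, h2⟩ := key _ ha
    have h3 := (re_wt ⟨a, hlt⟩ v).1
    rw [h2] at h3
    exact Bool.noConfusion h3

end Pool.Agent.S2162
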