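import Pool.Statements.S2180
-- import your own Pool.Agent.* helpers here

set_option autoImplicit false
open Pool Pool.MP_455b0c_co

namespace Pool.Agent.S2180

section aux

/-- left endpoints (in sixteenths) of the representation with lengths 16 and 28 -/
def pA : Fin 22 → ℤ := ![40, 69, 98, 127, 83, 57, 111, 43, 72, 94, 86, 103, 132, 149, 93, 121, 28, 56, 27, 77, 55, 71]
/-- lengths (in sixteenths) of the representation with lengths 16 and 28 -/
def lA : Fin 22 → ℤ := ![28, 28, 28, 28, 28, 28, 16, 28, 16, 16, 16, 16, 16, 28, 28, 28, 28, 16, 28, 16, 28, 28]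
/-- left endpoints (in sixteenths) of the representation with lengths 16 and 40 -/
def pB : Fin 22 → ℤ := ![10, 51, 92, 139, 61, 50, 101, 19, 60, 84, 76, 100, 142, 159, 79, 119, 9, 44, 10, 63, 26, 59]
/-- lengths (in sixteenths) of the representation with lengths 16 and 40 -/
def lB : Fin 22 → ℤ := ![40, 40, 40, 40, 40, 16, 40, 40, 16, 16, 16, 16, 16, 40, 40, 40, 40, 16, 16, 16, 40, 40]

/-- the interval order -/
def Q (i j : Fin 22) : Prop := pA i + lA i < pA j

instance : DecidableRel Q := fun i j => by unfold Q; infer_instance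

lemma lA_cases : ∀ i, lA i = 16 ∨ lA i = 28 := by decide

lemma lB_cases : ∀ i, lB i = 16 ∨ lB i = 40 := by decide

lemma Q_iff_B : ∀ i j, Q i j ↔ pB i + lB i < pB j := by decide

lemma memA : ∃ a L : Fin 22 → ℝ, (∀ i, L i = 1 ∨ L i = (7 / 4 : ℝ)) ∧
    ∀ i j, Q i j ↔ a i + L i < a j := by
  refine ⟨fun i => (pA i : ℝ) / 16, fun i => (lA i : ℝ) / 16, ?_, ?_⟩
  · intro i
    rcases lA_cases i with h | h
    · left; simp only [h]; norm_num
    · right; simp only [h]; norm_num
  · intro i j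
    have h : Q i j ↔ ((pA i : ℝ) + (lA i : ℝ) < (pA j : ℝ)) := by
      unfold Q
      exact_mod_cast Iff.rfl
    rw [h]
    constructor
    · intro h; linarith
    · intro h; linarith

lemma memB : ∃ a L : Fin 22 → ℝ, (∀ i, L i = 1 ∨ L i = (5 / 2 : ℝ)) ∧
    ∀ i j, Q i j ↔ a i + L i < a j := by
  refine ⟨fun i => (pB i : ℝ) / 16, fun i => (lB i : ℝ) / 16, ?_, ?_⟩
  · intro i
    rcases lB_cases i with h | h
    · left; simp only [h]; norm_num
    · right; simp only [h]; norm_num
  · intro i j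
    have h : Q i j ↔ ((pB i : ℝ) + (lB i : ℝ) < (pB j : ℝ)) := by
      rw [Q_iff_B]
      exact_mod_cast Iff.rfl
    rw [h]
    constructor
    · intro h; linarith
    · intro h; linarith

/-- an interval meeting both the predecessor and the successor of another interval is longer -/
lemma nest (a L : Fin 22 → ℝ) (h : ∀ i j, Q i j ↔ a i + L i < a j) (z p b q : Fin 22)
    (h1 : Q p b) (h2 : Q b q) (h3 : ¬ Q p z) (h4 : ¬ Q z q) : L b < L z := by
  rw [h] at h1 h2 h3 h4
  push Not at h3 h4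
  linarith

lemma nestLong (a L : Fin 22 → ℝ) (hL : ∀ i, L i = 1 ∨ L i = 2)
    (h : ∀ i j, Q i j ↔ a i + L i < a j) (z p b q : Fin 22)
    (h1 : Q p b) (h2 : Q b q) (h3 : ¬ Q p z) (h4 : ¬ Q z q) : L z = 2 := by
  have := nest a L h z p b q h1 h2 h3 h4
  rcases hL z with hz | hz
  · rcases hL b with hb | hb <;> linarith
  · exact hz

lemma nestShort (a L : Fin 22 → ℝ) (hL : ∀ i, L i = 1 ∨ L i = 2)
    (h : ∀ i j, Q i j ↔ a i + L i < a j) (z p b q : Fin 22)
    (h1 : Q p b) (h2 : Q b q) (h3 : ¬ Q p z) (h4 : ¬ Q z q) : L b = 1 := by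
  have := nest a L h z p b q h1 h2 h3 h4
  rcases hL b with hb | hb
  · exact hb
  · rcases hL z with hz | hz <;> linarith

lemma notOne : ¬ ∃ a : Fin 22 → ℝ, ∀ i j, Q i j ↔ a i + 1 < a j := by
  rintro ⟨a, h⟩
  have := nest a (fun _ => 1) h 1 7 8 9 (by decide) (by decide) (by decide) (by decide)
  simp at this

lemma notTwo : ¬ ∃ a L : Fin 22 → ℝ, (∀ i, L i = 1 ∨ L i = (2 : ℝ)) ∧
    ∀ i j, Q i j ↔ a i + L i < a j := by
  rintro ⟨a, L, hL, h⟩
  have e0 := nestLong a L hL h 1 7 8 9 (by decide) (by decide) (by decide) (by decide)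
  have e1 := nestLong a L hL h 15 2 12 13 (by decide) (by decide) (by decide) (by decide)
  have e2 := nestLong a L hL h 4 5 9 6 (by decide) (by decide) (by decide) (by decide)
  have e3 := nestLong a L hL h 2 10 11 15 (by decide) (by decide) (by decide) (by decide)
  have e4 := nestLong a L hL h 14 19 9 6 (by decide) (by decide) (by decide) (by decide)
  have e5 := nestShort a L hL h 3 6 12 13 (by decide) (by decide) (by decide) (by decide)
  have e6 := nestShort a L hL h 1 7 8 9 (by decide) (by decide) (by decide) (by decide)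
  have e7 := nestShort a L hL h 4 5 9 6 (by decide) (by decide) (by decide) (by decide)
  have e8 := nestShort a L hL h 20 18 17 4 (by decide) (by decide) (by decide) (by decide)
  have f1 : a 19 + L 19 < a 9 := (h 19 9).mp (by decide)
  have f2 : a 9 + L 9 < a 6 := (h 9 6).mp (by decide)
  have f3 : a 6 + L 6 < a 12 := (h 6 12).mp (by decide)
  have f4 : a 12 + L 12 < a 13 := (h 12 13).mp (by decide)
  have f5 : a 14 ≤ a 19 + L 19 := not_lt.mp (fun hh => absurd ((h 19 14).mpr hh) (by decide))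
  have f6 : a 15 ≤ a 14 + L 14 := not_lt.mp (fun hh => absurd ((h 14 15).mpr hh) (by decide))
  have f7 : a 13 ≤ a 15 + L 15 := not_lt.mp (fun hh => absurd ((h 15 13).mpr hh) (by decide))
  have hy : L 6 = 1 := by
    rcases hL 6 with hh | hh
    · exact hh
    · linarith
  have g1 : a 16 + L 16 < a 5 := (h 16 5).mp (by decide)
  have g2 : a 5 + L 5 < a 10 := (h 5 10).mp (by decide)
  have g3 : a 17 ≤ a 16 + L 16 := not_lt.mp (fun hh => absurd ((h 16 17).mpr hh) (by decide))
  have g4 : a 8 ≤ a 17 + L 17 := not_lt.mp (fun hh => absurd ((h 17 8).mpr hh) (by decide))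
  have g5 : a 10 ≤ a 8 + L 8 := not_lt.mp (fun hh => absurd ((h 8 10).mpr hh) (by decide))
  have hx : L 5 = 1 := by
    rcases hL 5 with hh | hh
    · exact hh
    · linarith
  have k1 : a 0 + L 0 < a 1 := (h 0 1).mp (by decide)
  have k2 : a 1 + L 1 < a 2 := (h 1 2).mp (by decide)
  have k3 : a 2 + L 2 < a 3 := (h 2 3).mp (by decide)
  have k4 : a 5 ≤ a 0 + L 0 := not_lt.mp (fun hh => absurd ((h 0 5).mpr hh) (by decide))
  have k5 : a 4 ≤ a 5 + L 5 := not_lt.mp (fun hh => absurd ((h 5 4).mpr hh) (by decide))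
  have k6 : a 6 ≤ a 4 + L 4 := not_lt.mp (fun hh => absurd ((h 4 6).mpr hh) (by decide))
  have k7 : a 3 ≤ a 6 + L 6 := not_lt.mp (fun hh => absurd ((h 6 3).mpr hh) (by decide))
  linarith

end aux

/-- The negation of the preceding statement: For every finite order representable by closed real intervals of two positive lengths but not by intervals of one length, the set of r > 1 for which it is representable with lengths 1 and r is an interval. -/
theorem result :
    ¬ (∀ (n : ℕ) (P : Fin n → Fin n → Prop),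
      (¬ ∃ a : Fin n → ℝ, ∀ i j, P i j ↔ a i + 1 < a j) →
      (∃ s t : ℝ, 0 < s ∧ 0 < t ∧ ∃ a L : Fin n → ℝ,
          (∀ i, L i = s ∨ L i = t) ∧ ∀ i j, P i j ↔ a i + L i < a j) →
      Set.OrdConnected
        {r : ℝ | 1 < r ∧ ∃ a L : Fin n → ℝ,
          (∀ i, L i = 1 ∨ L i = r) ∧ ∀ i j, P i j ↔ a i + L i < a j}) := by
  intro H
  have h := H 22 Q notOne ⟨1, 7 / 4, by norm_num, by norm_num, memA⟩
  have h2 := h.out (x := 7 / 4) ⟨by norm_num, memA⟩ (y := 5 / 2) ⟨by norm_num, memB⟩
  have h3 : (2 : ℝ) ∈ Set.Icc (7 / 4 : ℝ) (5 / 2) := ⟨by norm_num, by norm_num⟩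
  exact notTwo (h2 h3).2

end Pool.Agent.S2180
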