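import Pool.Statements.S2186
-- import your own Pool.Agent.* helpers here

set_option autoImplicit false
open Pool Pool.MP_476d97_co

namespace Pool.Agent.S2186

abbrev I := Fin 4 × Fin 7

def TT : List Nat := [67984486, 35032653, 17516315, 9798582, 4907500, 3502297, 135968819, 176180408, 89135388, 44577294, 155460743, 77728195, 172036961, 86025840, 15105845, 141336538, 205074349, 236091350, 117767083, 59358677, 30621418, 54400416, 105851536, 210220296, 153344644, 41020674, 81319553, 161246016]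

def row (p : I) : Nat := TT.getD (7 * p.1.1 + p.2.1) 0

def sg (b : Bool) : ℤ := if b then -1 else 1

def a0 : Fin 7 → ℤ := ![1, -1, -1, 1, 1, -1, -1]
def b0 : Fin 7 → ℤ := ![1, 1, 1, 1, -1, -1, -1]
def c0 : Fin 7 → ℤ := ![1, -1, 1, -1, 1, -1, -1]
def d0 : Fin 7 → ℤ := ![1, 1, 1, 1, 1, 1, -1]

def R0 : Matrix (Fin 7) (Fin 7) ℤ :=
  Matrix.of (fun i j : Fin 7 => if (i : ℕ) + (j : ℕ) + 1 = 7 then (1 : ℤ) else 0)

def H0 : Matrix I I ℤ := Matrix.of (fun p q : Fin 4 × Fin 7 =>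
      (![![Matrix.circulant a0, Matrix.circulant b0 * R0, Matrix.circulant c0 * R0, Matrix.circulant d0 * R0],
         ![Matrix.circulant b0 * R0, -Matrix.circulant a0, R0 * Matrix.circulant d0, -(R0 * Matrix.circulant c0)],
         ![Matrix.circulant c0 * R0, -(R0 * Matrix.circulant d0), -Matrix.circulant a0, R0 * Matrix.circulant b0],
         ![Matrix.circulant d0 * R0, R0 * Matrix.circulant c0, -(R0 * Matrix.circulant b0), -Matrix.circulant a0]]
        : Fin 4 → Fin 4 → Matrix (Fin 7) (Fin 7) ℤ) p.1 q.1 p.2 q.2)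

lemma gram : Matrix.circulant a0 * (Matrix.circulant a0).transpose
      + Matrix.circulant b0 * (Matrix.circulant b0).transpose
      + Matrix.circulant c0 * (Matrix.circulant c0).transpose
      + Matrix.circulant d0 * (Matrix.circulant d0).transpose
      = ((4 * 7 : ℕ) : ℤ) • (1 : Matrix (Fin 7) (Fin 7) ℤ) := by
  decide +kernel

lemma H0_eq' : ∀ x : I × I, H0 x.1 x.2 = sg ((row x.1).testBit (7 * x.2.1.1 + x.2.2.1)) := by
  decide +kernel

lemma H0_eq (p q : I) : H0 p q = sg ((row p).testBit (7 * q.1.1 + q.2.1)) := H0_eq' (p, q)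

/-- number of ones of a 7-bit number, via a table -/
def tb (y : Nat) : Nat := (6200905725313299744266893093789502126063071545881165772838446113976729779337224604478033454164508541879741555464632174598044869083865094223170395258822928 >>> (4 * y)) &&& 15

def ones (x : Nat) : Nat :=
  tb (x % 128) + tb ((x >>> 7) % 128) + tb ((x >>> 14) % 128) + tb ((x >>> 21) % 128)

lemma tb_spec : ∀ y : Fin 128, (∑ i : Fin 7, sg (Nat.testBit y.1 i.1)) = 7 - 2 * (tb y.1 : ℤ) := by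
  decide +kernel

lemma ones_spec (x : Nat) : (∑ j : I, sg (x.testBit (7 * j.1.1 + j.2.1))) = 28 - 2 * (ones x : ℤ) := by
  rw [Fintype.sum_prod_type]
  have h : ∀ u : Fin 4, (∑ i : Fin 7, sg (x.testBit (7 * u.1 + i.1)))
      = 7 - 2 * (tb ((x >>> (7 * u.1)) % 128) : ℤ) := by
    intro u
    have h1 := tb_spec ⟨(x >>> (7 * u.1)) % 128, Nat.mod_lt _ (by norm_num)⟩
    rw [← h1]
    apply Finset.sum_congr rfl
    intro i _
    congr 1
    show x.testBit (7 * u.1 + i.1) = ((x >>> (7 * u.1)) % 2 ^ 7).testBit i.1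
    rw [Nat.testBit_mod_two_pow, Nat.testBit_shiftRight]
    simp [i.2]
  rw [Fin.sum_univ_four, h 0, h 1, h 2, h 3]
  unfold ones
  simp only [Fin.val_zero, Fin.val_one, Fin.val_two]
  have : ((3 : Fin 4) : ℕ) = 3 := rfl
  rw [this]
  simp only [Nat.mul_zero, Nat.shiftRight_zero]
  push_cast
  norm_num
  ring

def r6 : Nat := 135968819
def t12 : Nat := 172036961
def t16 : Nat := 205074349
def t27 : Nat := 161246016

def chk : Bool := TT.all fun ra => TT.all fun rb => TT.all fun rc =>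
  let n := ones (r6 ^^^ ra ^^^ rb ^^^ rc)
  ((n != 4) && (n != 24)) ||
   ((ra == t12 && rb == t16 && rc == t27) || (ra == t12 && rb == t27 && rc == t16) ||
    (ra == t16 && rb == t12 && rc == t27) || (ra == t16 && rb == t27 && rc == t12) ||
    (ra == t27 && rb == t12 && rc == t16) || (ra == t27 && rb == t16 && rc == t12))

lemma chk_true : chk = true := by decide +kernel

/-- the four-row sums -/
def SS (H : Matrix I I ℤ) (i a b c : I) : ℤ := ∑ j, H i j * H a j * H b j * H c j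

lemma sg_xor (a b : Bool) : sg (a ^^ b) = sg a * sg b := by
  cases a <;> cases b <;> simp [sg]

lemma SS_eq (i a b c : I) : SS H0 i a b c = 28 - 2 * (ones (row i ^^^ row a ^^^ row b ^^^ row c) : ℤ) := by
  rw [← ones_spec]
  unfold SS
  apply Finset.sum_congr rfl
  intro j _
  rw [H0_eq, H0_eq, H0_eq, H0_eq, Nat.testBit_xor, Nat.testBit_xor, Nat.testBit_xor,
    sg_xor, sg_xor, sg_xor]

lemma row_mem (p : I) : row p ∈ TT := by
  revert p; decide +kernel

lemma row_inj : ∀ x : I × I, row x.1 = row x.2 → x.1 = x.2 := by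
  decide +kernel

def P (H : Matrix I I ℤ) (i : I) : Prop := ∃ a b c a' b' c' : I,
  |SS H i a b c| = 20 ∧ |SS H i a' b' c'| = 20 ∧ a ≠ a' ∧ a ≠ b' ∧ a ≠ c'

def i0 : I := (0, 0)
def i6 : I := (0, 6)

lemma P0 : P H0 i0 := by
  refine ⟨(0, 3), (2, 4), (3, 3), (0, 1), (1, 2), (2, 1), ?_, ?_, ?_, ?_, ?_⟩
  · rw [SS_eq]; decide +kernel
  · rw [SS_eq]; decide +kernel
  · decide
  · decide
  · decide

lemma six (a b c : I) (h : |SS H0 i6 a b c| = 20) :
    (row a = t12 ∧ row b = t16 ∧ row c = t27) ∨ (row a = t12 ∧ row b = t27 ∧ row c = t16) ∨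
    (row a = t16 ∧ row b = t12 ∧ row c = t27) ∨ (row a = t16 ∧ row b = t27 ∧ row c = t12) ∨
    (row a = t27 ∧ row b = t12 ∧ row c = t16) ∨ (row a = t27 ∧ row b = t16 ∧ row c = t12) := by
  have h1 := chk_true
  unfold chk at h1
  rw [List.all_eq_true] at h1
  have h2 := h1 _ (row_mem a)
  rw [List.all_eq_true] at h2
  have h3 := h2 _ (row_mem b)
  rw [List.all_eq_true] at h3
  have h4 := h3 _ (row_mem c)
  rw [SS_eq] at h
  have hr : row i6 = r6 := by decide +kernel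
  rw [hr] at h
  have h5 : ones (r6 ^^^ row a ^^^ row b ^^^ row c) = 4 ∨ ones (r6 ^^^ row a ^^^ row b ^^^ row c) = 24 := by
    rcases abs_eq (by norm_num : (0 : ℤ) ≤ 20) |>.1 h with h | h <;> omega
  generalize ones (r6 ^^^ row a ^^^ row b ^^^ row c) = n at h4 h5
  generalize row a = ra at *
  generalize row b = rb at *
  generalize row c = rc at *
  generalize t12 = x at *
  generalize t16 = y at *
  generalize t27 = z at *
  clear h3 h2 h1 hr h
  have hn : ((n != 4) && (n != 24)) = false := by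
    rcases h5 with rfl | rfl <;> rfl
  simp only [hn, Bool.false_or, Bool.or_eq_true, Bool.and_eq_true, beq_iff_eq, and_assoc,
    or_assoc] at h4
  exact h4

lemma P6 : ¬ P H0 i6 := by
  rintro ⟨a, b, c, a', b', c', h, h', n1, n2, n3⟩
  have e := six a b c h
  have e' := six a' b' c' h'
  have k1 : row a ≠ row a' := fun h => n1 (row_inj (a, a') h)
  have k2 : row a ≠ row b' := fun h => n2 (row_inj (a, b') h)
  have k3 : row a ≠ row c' := fun h => n3 (row_inj (a, c') h)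
  rcases e with ⟨e, -, -⟩ | ⟨e, -, -⟩ | ⟨e, -, -⟩ | ⟨e, -, -⟩ | ⟨e, -, -⟩ | ⟨e, -, -⟩ <;>
  rcases e' with ⟨f1, f2, f3⟩ | ⟨f1, f2, f3⟩ | ⟨f1, f2, f3⟩ | ⟨f1, f2, f3⟩ | ⟨f1, f2, f3⟩ |
    ⟨f1, f2, f3⟩ <;>
  rw [e, f1] at k1 <;> rw [e, f2] at k2 <;> rw [e, f3] at k3 <;>
  first
    | exact k1 rfl
    | exact k2 rfl
    | exact k3 rfl

lemma P_trans (H : Matrix I I ℤ) (G : Type) [Group G] (ψ : G → G → ℤ) (σ τ : I ≃ G)
    (r s : I → ℤ) (h1 : ∀ g h : G, ψ g h = 1 ∨ ψ g h = -1)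
    (h2 : ∀ g h k : G, ψ g h * ψ (g * h) k = ψ g (h * k) * ψ h k)
    (hr : ∀ i, r i = 1 ∨ r i = -1) (hs : ∀ j, s j = 1 ∨ s j = -1)
    (hH : ∀ i j, H i j = r i * s j * ψ (σ i) (τ j)) (i i' : I) (hP : P H i) : P H i' := by
  let h := (σ i)⁻¹ * σ i'
  let μ : I ≃ I := (σ.trans (Equiv.mulRight h)).trans σ.symm
  have hμ : ∀ a, σ (μ a) = σ a * h := by intro a; simp [μ]
  have hμi : μ i = i' := by
    apply σ.injective; rw [hμ]; simp [h]
  let ν : I ≃ I := (τ.trans (Equiv.mulLeft h)).trans τ.symm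
  have hν : ∀ j, τ (ν j) = h * τ j := by intro j; simp [ν]
  have sq : ∀ g k, ψ g k * ψ g k = 1 := by
    intro g k; rcases h1 g k with h | h <;> rw [h] <;> norm_num
  have key : ∀ g k, ψ (g * h) k = ψ g h * ψ g (h * k) * ψ h k := by
    intro g k
    have := h2 g h k
    calc ψ (g * h) k = (ψ g h * ψ g h) * ψ (g * h) k := by rw [sq]; ring
      _ = ψ g h * (ψ g h * ψ (g * h) k) := by ring
      _ = _ := by rw [this]; ring
  have s4 : ∀ j, s j * s j * s j * s j = 1 := by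
    intro j; rcases hs j with h | h <;> rw [h] <;> norm_num
  have p4 : ∀ g k, ψ g k * ψ g k * ψ g k * ψ g k = 1 := by
    intro g k; rcases h1 g k with h | h <;> rw [h] <;> norm_num
  -- unsigned sums
  have abs_eq1 : ∀ x : ℤ, (x = 1 ∨ x = -1) → |x| = 1 := by
    rintro x (h | h) <;> rw [h] <;> norm_num
  have mul1 : ∀ x y : ℤ, (x = 1 ∨ x = -1) → (y = 1 ∨ y = -1) → (x * y = 1 ∨ x * y = -1) := by
    rintro x y (h | h) (h' | h') <;> rw [h, h'] <;> norm_num
  have base : ∀ a b c d, |SS H a b c d| =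
      |∑ j, ψ (σ a) (τ j) * ψ (σ b) (τ j) * ψ (σ c) (τ j) * ψ (σ d) (τ j)| := by
    intro a b c d
    have : SS H a b c d = (r a * r b * r c * r d) *
        ∑ j, ψ (σ a) (τ j) * ψ (σ b) (τ j) * ψ (σ c) (τ j) * ψ (σ d) (τ j) := by
      unfold SS
      rw [Finset.mul_sum]
      apply Finset.sum_congr rfl
      intro j _
      rw [hH, hH, hH, hH]
      have := s4 j
      calc _ = (s j * s j * s j * s j) * (r a * r b * r c * r d *
          (ψ (σ a) (τ j) * ψ (σ b) (τ j) * ψ (σ c) (τ j) * ψ (σ d) (τ j))) := by ring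
        _ = _ := by rw [this]; ring
    rw [this, abs_mul, abs_eq1 _ (mul1 _ _ (mul1 _ _ (mul1 _ _ (hr a) (hr b)) (hr c)) (hr d)),
      one_mul]
  have inv : ∀ a b c d, |SS H (μ a) (μ b) (μ c) (μ d)| = |SS H a b c d| := by
    intro a b c d
    rw [base, base]
    have : (∑ j, ψ (σ (μ a)) (τ j) * ψ (σ (μ b)) (τ j) * ψ (σ (μ c)) (τ j) * ψ (σ (μ d)) (τ j))
      = (ψ (σ a) h * ψ (σ b) h * ψ (σ c) h * ψ (σ d) h) *
        ∑ j, ψ (σ a) (τ j) * ψ (σ b) (τ j) * ψ (σ c) (τ j) * ψ (σ d) (τ j) := by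
      rw [Finset.mul_sum, ← Equiv.sum_comp ν (fun j => ψ (σ a) h * ψ (σ b) h * ψ (σ c) h * ψ (σ d) h *
        (ψ (σ a) (τ j) * ψ (σ b) (τ j) * ψ (σ c) (τ j) * ψ (σ d) (τ j)))]
      apply Finset.sum_congr rfl
      intro j _
      rw [hμ, hμ, hμ, hμ, key, key, key, key, hν]
      have := p4 h (τ j)
      calc _ = (ψ h (τ j) * ψ h (τ j) * ψ h (τ j) * ψ h (τ j)) *
          (ψ (σ a) h * ψ (σ b) h * ψ (σ c) h * ψ (σ d) h *
        (ψ (σ a) (h * τ j) * ψ (σ b) (h * τ j) * ψ (σ c) (h * τ j) * ψ (σ d) (h * τ j))) := by ring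
        _ = _ := by rw [this]; ring
    rw [this, abs_mul, abs_eq1 _ (mul1 _ _ (mul1 _ _ (mul1 _ _ (h1 _ _) (h1 _ _)) (h1 _ _)) (h1 _ _)),
      one_mul]
  obtain ⟨a, b, c, a', b', c', e1, e2, n1, n2, n3⟩ := hP
  refine ⟨μ a, μ b, μ c, μ a', μ b', μ c', ?_, ?_, fun h => n1 (μ.injective h),
    fun h => n2 (μ.injective h), fun h => n3 (μ.injective h)⟩
  · rw [← hμi, inv, e1]
  · rw [← hμi, inv, e2]

/-- The negation of the preceding statement: For odd w ≥ 7 and ±1 circulants A,B,C,D with AAᵀ+BBᵀ+CCᵀ+DDᵀ=4wI, the displayed Goethals–Seidel Hadamard matrix is, up to row/column permutation and negation, the matrix of a ±1 2-cocycle on some group of order 4w. -/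
theorem result :
    ¬ (∀ (w : ℕ), 7 ≤ w → Odd w →
  ∀ (a b c d : Fin w → ℤ),
    (∀ i, (a i = 1 ∨ a i = -1) ∧ (b i = 1 ∨ b i = -1) ∧
          (c i = 1 ∨ c i = -1) ∧ (d i = 1 ∨ d i = -1)) →
    Matrix.circulant a * (Matrix.circulant a).transpose
      + Matrix.circulant b * (Matrix.circulant b).transpose
      + Matrix.circulant c * (Matrix.circulant c).transpose
      + Matrix.circulant d * (Matrix.circulant d).transpose
      = ((4 * w : ℕ) : ℤ) • (1 : Matrix (Fin w) (Fin w) ℤ) →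
  ∀ (R : Matrix (Fin w) (Fin w) ℤ),
    R = Matrix.of (fun i j : Fin w => if (i : ℕ) + (j : ℕ) + 1 = w then (1 : ℤ) else 0) →
  ∀ (H : Matrix (Fin 4 × Fin w) (Fin 4 × Fin w) ℤ),
    H = Matrix.of (fun p q : Fin 4 × Fin w =>
      (![![Matrix.circulant a, Matrix.circulant b * R, Matrix.circulant c * R, Matrix.circulant d * R],
         ![Matrix.circulant b * R, -Matrix.circulant a, R * Matrix.circulant d, -(R * Matrix.circulant c)],
         ![Matrix.circulant c * R, -(R * Matrix.circulant d), -Matrix.circulant a, R * Matrix.circulant b],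
         ![Matrix.circulant d * R, R * Matrix.circulant c, -(R * Matrix.circulant b), -Matrix.circulant a]]
        : Fin 4 → Fin 4 → Matrix (Fin w) (Fin w) ℤ) p.1 q.1 p.2 q.2) →
  ∃ (G : Type) (_ : Group G) (ψ : G → G → ℤ) (σ τ : (Fin 4 × Fin w) ≃ G)
    (r s : Fin 4 × Fin w → ℤ),
    (∀ g h : G, ψ g h = 1 ∨ ψ g h = -1) ∧
    (∀ g h k : G, ψ g h * ψ (g * h) k = ψ g (h * k) * ψ h k) ∧
    (∀ i, r i = 1 ∨ r i = -1) ∧
    (∀ j, s j = 1 ∨ s j = -1) ∧
    (∀ i j, H i j = r i * s j * ψ (σ i) (τ j))) := by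
  intro hall
  obtain ⟨G, _, ψ, σ, τ, r, s, h1, h2, hr, hs, hH⟩ := hall 7 le_rfl (by decide) a0 b0 c0 d0
    (by decide +kernel) gram R0 rfl H0 rfl
  exact P6 (P_trans H0 G ψ σ τ r s h1 h2 hr hs hH i0 i6 P0)

end Pool.Agent.S2186
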