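import Pool.Statements.S2208
import Pool.Agent.H23.KerF
import Pool.Agent.Helper7Ker.KerConv
import Pool.Agent.Helper7Ker.KerSeq

set_option autoImplicit false
open Pool Pool.MP_516c40_co

namespace Pool.Agent.S2208

open MeasureTheory Filter Topology Pool.Agent.H23.Ker

lemma restr (k : ℕ) (f : (Fin k → ℝ) → ENNReal) :
    ∫⁻ x in Set.univ.pi (fun _ : Fin k => Set.Icc (0 : ℝ) 1), f x =
      ∫⁻ x, f x ∂(Measure.pi fun _ : Fin k => (volume.restrict (Set.Icc (0 : ℝ) 1))) := by
  rw [volume_pi, Measure.restrict_pi_pi]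

instance : IsProbabilityMeasure (volume.restrict (Set.Icc (0 : ℝ) 1)) := by
  constructor
  rw [Measure.restrict_apply_univ, Real.volume_Icc]
  norm_num

/-- The negation of the preceding statement: If p(n) ≥ n^(-ε) eventually for every ε>0 and every normalized injective-copy count of a fixed graph F in G_n converges to a finite limit, then some nonnegative symmetric measurable kernel on [0,1]² has F-density equal to that limit for every F. -/
theorem result :
    ¬ (∀ (p : ℕ → ℝ) (G : ∀ n : ℕ, SimpleGraph (Fin n)),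
    (∀ n, 0 < p n ∧ p n ≤ 1) →
    (∀ ε : ℝ, 0 < ε → ∀ᶠ n : ℕ in Filter.atTop, (n : ℝ) ^ (-ε) ≤ p n) →
    (∀ (k : ℕ) (F : SimpleGraph (Fin k)) [DecidableRel F.Adj], ∃ c : ℝ, 0 ≤ c ∧
      Filter.Tendsto
        (fun n : ℕ => (Nat.card {f : F →g G n // Function.Injective f} : ℝ) /
          (p n ^ F.edgeFinset.card * (n : ℝ) ^ k))
        Filter.atTop (nhds c)) →
    ∃ κ : ℝ → ℝ → ℝ, Measurable (Function.uncurry κ) ∧ (∀ x y, κ x y = κ y x) ∧
      (∀ x y, 0 ≤ κ x y) ∧
      ∀ (k : ℕ) (F : SimpleGraph (Fin k)) [DecidableRel F.Adj] (c : ℝ),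
        Filter.Tendsto
          (fun n : ℕ => (Nat.card {f : F →g G n // Function.Injective f} : ℝ) /
            (p n ^ F.edgeFinset.card * (n : ℝ) ^ k))
          Filter.atTop (nhds c) →
        (∫⁻ x in Set.univ.pi (fun _ : Fin k => Set.Icc (0 : ℝ) 1),
          ∏ i : Fin k, ∏ j : Fin k,
            (if i < j ∧ F.Adj i j then ENNReal.ofReal (κ (x i) (x j)) else 1))
          = ENNReal.ofReal c) := by
  classical
  intro HALL
  choose c hc0 hc using fun (m : ℕ) (F : SimpleGraph (Fin m)) => conv m F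
  have hc' : ∀ (m : ℕ) (F : SimpleGraph (Fin m)), Filter.Tendsto
      (fun k : ℕ => (2:ℝ)^(k * F.edgeSet.ncard) * (hom F (VV k) (RR k) : ℝ) /
        (Fintype.card (VV k) : ℝ)^m) Filter.atTop (nhds (c m F)) := by
    intro m F
    simp only [level_val]
    exact hc m F
  obtain ⟨p, G, hp, hε, hlim⟩ := seq_exists VV RR RR_symm c hc'
  obtain ⟨κ, hκ, _, _, hκF⟩ := HALL p G hp hε (fun m F _ => ⟨c m F, hc0 m F, hlim m F⟩)
  let K : ℝ → ℝ → ENNReal := fun x y => ENNReal.ofReal (κ x y)
  have hK : Measurable (Function.uncurry K) := hκ.ennreal_ofReal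
  let μ : Measure ℝ := volume.restrict (Set.Icc (0 : ℝ) 1)
  have hdens : ∀ (β : Bool) (m : ℕ), ∫⁻ y, ∫⁻ x, (if β then K x y else 1) * H3 μ K x y ^ m ∂μ ∂μ =
      ENNReal.ofReal (c (sz m) (TG β m)) := by
    intro β m
    have h1 := hκF (sz m) (TG β m) (c (sz m) (TG β m)) (hlim _ _)
    rw [restr] at h1
    rw [← h1, ← theta_density (μ := μ) β K hK m]
  obtain ⟨c0, v, hc00, hv, l1, l2, hle⟩ := lim_vals
  have hfac : ∀ (β : Bool) (m i : ℕ), (2:ℝ)^(TG β m).edgeSet.ncard *
      (hom (TG β m) (Fin (i+1) → Fin 4) (Rd (i+1)) : ℝ) / (4:ℝ)^((i+1)*(sz m)) =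
      if β then (1 + rho (i + 1)) * av (i + 1) ^ m else
        (1 + rho (i + 1)) / 2 * av (i + 1) ^ m + (1 - rho (i + 1)) / 2 * bv (i + 1) ^ m := by
    intro β m i
    rw [pow_mul, fin_density]
  have htrue : ∀ m, c (sz m) (TG true m) = c0 * v ^ m := by
    intro m
    have h1 := hc (sz m) (TG true m)
    simp only [hfac, if_true] at h1
    have h2 : Tendsto (fun k => (∏ i ∈ Finset.range k, (1 + rho (i + 1))) *
        (∏ i ∈ Finset.range k, av (i + 1)) ^ m) atTop (𝓝 (c0 * v ^ m)) := l1.mul (l2.pow m)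
    refine tendsto_nhds_unique h1 ?_
    refine h2.congr (fun k => ?_)
    rw [Finset.prod_mul_distrib, Finset.prod_pow]
  have hfalse : Tendsto (fun m => c (sz m) (TG false m) / v ^ m) atTop (𝓝 0) := by
    refine tau_tendsto v hv hle (fun m => c (sz m) (TG false m)) (fun m => hc0 _ _) (fun m => ?_)
    have h1 := hc (sz m) (TG false m)
    simpa only [hfac, Bool.false_eq_true, if_false] using h1
  refine no_kernel μ K hK c0 v hc00 hv (fun m => c (sz m) (TG false m) / v ^ m) hfalse ?_ ?_ ?_ ?_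
  · have h := hdens true 0
    simp only [if_true, pow_zero, mul_one] at h
    rw [h, htrue, pow_zero, mul_one]
  · have h := hdens true 1
    simp only [if_true, pow_one] at h
    rw [h, htrue, pow_one]
  · have h := hdens true 2
    simp only [if_true] at h
    rw [h, htrue]
  · intro m
    have h := hdens false m
    simp only [Bool.false_eq_true, if_false, one_mul] at h
    rw [h, mul_div_cancel₀ _ (pow_pos hv m).ne']

end Pool.Agent.S2208
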