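import Pool.Statements.S2214
import Pool.Agent.H17.Endp

set_option autoImplicit false
open Pool Pool.MP_528c50_co

namespace Pool.Agent.S2214

/-- The negation of the preceding statement: There is a k such that if a finite graph G has at least k degree-1 vertices, then any graph H whose degree-1 vertices match G's one-to-one with isomorphic vertex-deleted subgraphs is isomorphic to G. -/
theorem result :
    ¬ (∃ k : ℕ, ∀ (n m : ℕ) (G : SimpleGraph (Fin n)) (H : SimpleGraph (Fin m)),
      k ≤ {v : Fin n | ∃! w, G.Adj v w}.ncard →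
      (∃ σ : {v : Fin n // ∃! w, G.Adj v w} ≃ {v : Fin m // ∃! w, H.Adj v w},
        ∀ v : {v : Fin n // ∃! w, G.Adj v w},
          Nonempty (G.induce ({v.1}ᶜ : Set (Fin n)) ≃g H.induce ({(σ v).1}ᶜ : Set (Fin m)))) →
      Nonempty (G ≃g H)) := by
  exact Pool.Agent.H17.Endp.main

end Pool.Agent.S2214
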