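import Pool.Statements.S2242

set_option autoImplicit false
open Pool Pool.MP_5833ce_co

namespace Pool.Agent.S2242

/-- The rows of `A + I` (as bit masks) of a graph on 13 vertices. -/
def rows : Fin 13 → ℕ :=
  ![5593, 6630, 6558, 2909, 1277, 882, 5243, 1943, 2479, 7848, 3793, 3854, 4679]

/-- A graph on 13 vertices. -/
def gr : SimpleGraph (Fin 13) where
  Adj i j := i ≠ j ∧ (rows i).testBit j = true
  symm := ⟨by decide⟩
  loopless := ⟨by decide⟩

instance : DecidableRel gr.Adj := fun i j =>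
  inferInstanceAs (Decidable (i ≠ j ∧ (rows i).testBit j = true))

/-- entries of `A + I` modulo 3 -/
def ent (i j : Fin 13) : ZMod 3 := if (rows i).testBit j = true then 1 else 0

theorem closed_sum (f : Fin 13 → ZMod 3) (v : Fin 13) :
    f v + ∑ w ∈ gr.neighborFinset v, f w = ∑ w, ent v w * f w := by
  rw [SimpleGraph.neighborFinset_eq_filter, Finset.sum_filter]
  have h1 : f v = ∑ w, (if v = w then f w else 0) := by simp
  rw [h1, ← Finset.sum_add_distrib]
  refine Finset.sum_congr rfl fun w _ => ?_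
  by_cases hvw : v = w
  · subst hvw
    have h2 : ∀ v : Fin 13, (rows v).testBit v = true := by decide
    simp [ent, h2 v]
  · by_cases h : (rows v).testBit w = true
    · have h3 : gr.Adj v w := ⟨hvw, h⟩
      simp [ent, h, h3, hvw]
    · have h3 : ¬ gr.Adj v w := fun h' => h h'.2
      simp [ent, h, h3, hvw]

/-- coefficients expressing rows 7..12 through rows 0..6 -/
theorem key : ∀ y0 y1 y2 y3 y4 y5 y6 : ZMod 3,
    y0 ≠ 0 → y1 ≠ 0 → y2 ≠ 0 → y3 ≠ 0 → y4 ≠ 0 → y5 ≠ 0 → y6 ≠ 0 →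
    y1 + 2 * y2 + y4 + y5 ≠ 0 →
    y0 + y3 + 2 * y5 + 2 * y6 ≠ 0 →
    y1 + y2 + 2 * y3 + 2 * y4 + 2 * y5 + 2 * y6 ≠ 0 →
    y0 + 2 * y1 + 2 * y2 + 2 * y4 + y5 + y6 ≠ 0 →
    y0 + y1 + y2 + 2 * y3 + 2 * y5 ≠ 0 →
    2 * y2 + y3 + y4 + 2 * y6 ≠ 0 → False := by
  decide +kernel

/-- The negation of the preceding statement: For every k ≥ 2 and every finite simple graph, some labeling of the vertices by integers mod k makes the sum of labels over each vertex's closed neighbourhood nonzero mod k. -/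
theorem result :
    ¬ (∀ k : ℕ, 2 ≤ k →
      ∀ (V : Type) [Fintype V] (G : SimpleGraph V) [DecidableRel G.Adj],
        ∃ f : V → ZMod k, ∀ v : V, f v + ∑ w ∈ G.neighborFinset v, f w ≠ 0) := by
  intro h
  obtain ⟨f, hf⟩ := h 3 (by norm_num) (Fin 13) gr
  have hf' : ∀ v : Fin 13, ∑ w, ent v w * f w ≠ 0 := fun v => by
    rw [← closed_sum]; exact hf v
  have comb : ∀ (v : Fin 13) (c0 c1 c2 c3 c4 c5 c6 : ZMod 3),
      (∀ w : Fin 13, ent v w = c0 * ent 0 w + c1 * ent 1 w + c2 * ent 2 w + c3 * ent 3 w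
        + c4 * ent 4 w + c5 * ent 5 w + c6 * ent 6 w) →
      ∑ w, ent v w * f w = c0 * (∑ w, ent 0 w * f w) + c1 * (∑ w, ent 1 w * f w)
        + c2 * (∑ w, ent 2 w * f w) + c3 * (∑ w, ent 3 w * f w)
        + c4 * (∑ w, ent 4 w * f w) + c5 * (∑ w, ent 5 w * f w)
        + c6 * (∑ w, ent 6 w * f w) := by
    intro v c0 c1 c2 c3 c4 c5 c6 hc
    simp only [Finset.mul_sum, ← Finset.sum_add_distrib]
    refine Finset.sum_congr rfl fun w _ => ?_
    rw [hc w]; ring
  have h7 := comb 7 0 1 2 0 1 1 0 (by decide +kernel)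
  have h8 := comb 8 1 0 0 1 0 2 2 (by decide +kernel)
  have h9 := comb 9 0 1 1 2 2 2 2 (by decide +kernel)
  have h10 := comb 10 1 2 2 0 2 1 1 (by decide +kernel)
  have h11 := comb 11 1 1 1 2 0 2 0 (by decide +kernel)
  have h12 := comb 12 0 0 2 1 1 0 2 (by decide +kernel)
  have k7 := hf' 7
  have k8 := hf' 8
  have k9 := hf' 9
  have k10 := hf' 10
  have k11 := hf' 11
  have k12 := hf' 12
  rw [h7] at k7
  rw [h8] at k8
  rw [h9] at k9
  rw [h10] at k10
  rw [h11] at k11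
  rw [h12] at k12
  simp only [zero_mul, one_mul, zero_add, add_zero] at k7 k8 k9 k10 k11 k12
  exact key _ _ _ _ _ _ _ (hf' 0) (hf' 1) (hf' 2) (hf' 3) (hf' 4) (hf' 5) (hf' 6)
    k7 k8 k9 k10 k11 k12

end Pool.Agent.S2242
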