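import Pool.Statements.S2244
import Pool.Agent.H14.Dod
-- import your own Pool.Agent.* helpers here

set_option autoImplicit false
open Pool Pool.MP_5836d8_co

namespace Pool.Agent.S2244

/-- The negation of the preceding statement: In every finite connected vertex-transitive graph, one can pick a shortest path from each vertex x to each other vertex y so that every vertex lies on the same number of the chosen paths. -/
theorem result :
    ¬ (∀ (V : Type) [Fintype V] [DecidableEq V] (G : SimpleGraph V),
      G.Connected →
      (∀ x y : V, ∃ φ : G ≃g G, φ x = y) →
      ∃ P : (x : V) → (y : V) → G.Walk x y,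
        (∀ x y : V, x ≠ y → (P x y).length = G.dist x y) ∧
        ∃ c : ℕ, ∀ v : V,
          (Finset.univ.filter
            (fun p : V × V => p.1 ≠ p.2 ∧ v ∈ (P p.1 p.2).support)).card = c) := by
  intro h
  obtain ⟨P, hP, c, hc⟩ := h (Fin 20) Pool.Agent.H14.Dod.G Pool.Agent.H14.Dod.connected
    Pool.Agent.H14.Dod.transitive
  exact Pool.Agent.H14.Dod.no_routing P hP c (fun v => by convert hc v)

end Pool.Agent.S2244
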