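import Pool.Statements.S2292
-- import your own Pool.Agent.* helpers here

set_option autoImplicit false
open Pool Pool.MP_5fe06c_co

namespace Pool.Agent.S2292

section aux

open Polynomial

/-- powers of a root of X^9 + X^4 + 1 in characteristic two -/
lemma pows {R : Type*} [CommRing R] (h2 : (2 : R) = 0) (x : R) (h : x ^ 9 = x ^ 4 + 1) :
    x ^ 64 = x ^ 1 + x ^ 4 + x ^ 6 ∧ x ^ 512 = x := by
  have h3 : x ^ 8 = x ^ 8 := rfl
  have h4 : x ^ 16 = x^2 + x^6 + x^7 := by
    have e : x ^ 16 = (x ^ 8) ^ 2 := by rw [← pow_mul]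
    rw [e]
    linear_combination ((1)*x^2 + (1)*x^7) * h + (0) * h2
  have h5 : x ^ 32 = 1 + x^3 + x^5 + x^7 := by
    have e : x ^ 32 = (x ^ 16) ^ 2 := by rw [← pow_mul]
    rw [e, h4]
    linear_combination ((3) + (1)*x^3 + (2)*x^4 + (1)*x^5) * h + ((1) + (3)*x^4 + (2)*x^8) * h2
  have h6 : x ^ 64 = x^1 + x^4 + x^6 := by
    have e : x ^ 64 = (x ^ 32) ^ 2 := by rw [← pow_mul]
    rw [e, h5]
    linear_combination ((1) + (3)*x^1 + (2)*x^3 + (1)*x^5) * h + ((1) + (1)*x^1 + (2)*x^3 + (3)*x^5 + (2)*x^7 + (1)*x^8) * h2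
  have h7 : x ^ 128 = x^2 + x^3 + x^7 + x^8 := by
    have e : x ^ 128 = (x ^ 64) ^ 2 := by rw [← pow_mul]
    rw [e, h6]
    linear_combination ((2)*x^1 + (1)*x^3) * h + ((1)*x^1 + (2)*x^5 + (1)*x^7) * h2
  have h8 : x ^ 256 = 1 + x^2 + x^5 + x^7 := by
    have e : x ^ 256 = (x ^ 128) ^ 2 := by rw [← pow_mul]
    rw [e, h7]
    linear_combination ((3) + (6)*x^1 + (3)*x^2 + (1)*x^5 + (2)*x^6 + (1)*x^7) * h + ((1) + (3)*x^1 + (1)*x^2 + (2)*x^4 + (4)*x^5 + (3)*x^6) * h2
  have h9 : x ^ 512 = x^1 := by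
    have e : x ^ 512 = (x ^ 256) ^ 2 := by rw [← pow_mul]
    rw [e, h8]
    linear_combination ((3) + (1)*x^1 + (2)*x^3 + (1)*x^5) * h + ((2) + (1)*x^2 + (1)*x^3 + (2)*x^4 + (2)*x^5 + (3)*x^7) * h2
  exact ⟨h6, by rw [h9, pow_one]⟩

lemma dvd512 : (X ^ 9 + X ^ 4 + 1 : (ZMod 2)[X]) ∣ X ^ (2 ^ 9) - X := by
  have key : ∀ P : (ZMod 2)[X], P = X ^ 9 + X ^ 4 + 1 → P ∣ X ^ (2 ^ 9) - X := by
    intro P hP
    rw [← AdjoinRoot.mk_eq_zero]
    have h2' : (2 : ZMod 2) = 0 := by decide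
    have h2 : (2 : AdjoinRoot P) = 0 := by
      have h := congrArg (AdjoinRoot.of P) h2'
      rw [map_ofNat, map_zero] at h
      exact h
    have hx : (AdjoinRoot.root P) ^ 9 = (AdjoinRoot.root P) ^ 4 + 1 := by
      have h1 : AdjoinRoot.mk P P = 0 := AdjoinRoot.mk_self
      have h3 : AdjoinRoot.mk P P = AdjoinRoot.mk P (X ^ 9 + X ^ 4 + 1) :=
        congrArg (AdjoinRoot.mk P) hP
      rw [h3] at h1
      simp only [map_add, map_pow, AdjoinRoot.mk_X, map_one] at h1
      linear_combination h1 - ((AdjoinRoot.root P) ^ 4 + 1) * h2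
    have := (pows h2 _ hx).2
    simp only [map_sub, map_pow, AdjoinRoot.mk_X]
    norm_num
    rw [this, sub_self]
  exact key _ rfl

abbrev K := GaloisField 2 9

lemma two_zero : (2 : K) = 0 := by
  have := CharP.cast_eq_zero K 2
  simpa using this

lemma exists_root : ∃ x : K, x ^ 9 = x ^ 4 + 1 := by
  have hs : (map (algebraMap (ZMod 2) K) (X ^ (2 ^ 9) - X : (ZMod 2)[X])).Splits :=
    SplittingField.splits (X ^ (2 ^ 9) - X : (ZMod 2)[X])
  have hne : map (algebraMap (ZMod 2) K) (X ^ (2 ^ 9) - X : (ZMod 2)[X]) ≠ 0 := by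
    rw [Polynomial.map_ne_zero_iff (algebraMap (ZMod 2) K).injective]
    exact FiniteField.X_pow_card_pow_sub_X_ne_zero (ZMod 2) (by norm_num) (by norm_num)
  have hd := Polynomial.map_dvd (algebraMap (ZMod 2) K) dvd512
  have hs2 := hs.of_dvd hne hd
  have hdeg : (map (algebraMap (ZMod 2) K) (X ^ 9 + X ^ 4 + 1 : (ZMod 2)[X])).degree ≠ 0 := by
    rw [Polynomial.degree_map]
    have : (X ^ 9 + X ^ 4 + 1 : (ZMod 2)[X]).degree = 9 := by
      compute_degree!
    rw [this]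
    norm_num
  obtain ⟨a, ha⟩ := hs2.exists_eval_eq_zero hdeg
  refine ⟨a, ?_⟩
  simp only [Polynomial.map_add, Polynomial.map_pow, Polynomial.map_X, Polynomial.map_one,
    eval_add, eval_pow, eval_X, eval_one] at ha
  have h2 := two_zero
  linear_combination ha - (a ^ 4 + 1) * h2

lemma prim (x : K) (h : x ^ 9 = x ^ 4 + 1) : IsPrimitiveRoot x (2 ^ 9 - 1) := by
  have h2 := two_zero
  have hx0 : x ≠ 0 := by
    rintro rfl
    norm_num at h
  have h512 := (pows h2 x h).2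
  have h64 := (pows h2 x h).1
  have h511 : x ^ 511 = 1 := by
    have : x * x ^ 511 = x * 1 := by
      rw [mul_one, ← pow_succ']
      exact h512
    exact mul_left_cancel₀ hx0 this
  have h73 : x ^ 73 ≠ 1 := by
    intro h1
    have e : x ^ 73 = x ^ 64 * x ^ 9 := by rw [← pow_add]
    have e2 : x ^ 73 = x^4 + x^6 + x^8 := by
      rw [e, h64]
      linear_combination (x^1 + x^4 + x^6) * h + ((1)*x^1) * h + ((1)*x^1 + (1)*x^5) * h2
    rw [e2] at h1
    have : (1 : K) = 0 := by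
      linear_combination ((1)*x^2 + (1)*x^3 + (1)*x^4) * h1 + ((1) + (1)*x^2 + (1)*x^3) * h - ((-1) + (-1)*x^2 + (-1)*x^3 + (-1)*x^4 + (1)*x^8 + (1)*x^9 + (1)*x^10 + (1)*x^11 + (1)*x^12) * h2
    exact one_ne_zero this
  have h7 : x ^ 7 ≠ 1 := by
    intro h1
    have : (1 : K) = 0 := by
      linear_combination ((1)*x^3 + (1)*x^5 + (1)*x^6 + (1)*x^7 + (1)*x^8) * h1 + ((1) + (1)*x^3 + (1)*x^4 + (1)*x^5 + (1)*x^6) * h - ((-1) + (-1)*x^3 + (-1)*x^4 + (-1)*x^5 + (-1)*x^6 + (-1)*x^7 + (-1)*x^8 + (1)*x^12 + (1)*x^13 + (1)*x^14 + (1)*x^15) * h2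
    exact one_ne_zero this
  have hord : orderOf x = 511 := by
    apply orderOf_eq_of_pow_and_pow_div_prime (by norm_num) h511
    intro p hp hd
    have hmem : p ∈ Nat.primeFactors 511 := by
      rw [Nat.mem_primeFactors]; exact ⟨hp, hd, by norm_num⟩
    have hpf : Nat.primeFactors 511 = {7, 73} := by
      have : (511 : ℕ) = 7 * 73 := by norm_num
      rw [this, Nat.primeFactors_mul (by norm_num) (by norm_num),
        Nat.Prime.primeFactors (by norm_num), Nat.Prime.primeFactors (by norm_num)]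
      rfl
    rw [hpf] at hmem
    simp only [Finset.mem_insert, Finset.mem_singleton] at hmem
    rcases hmem with rfl | rfl
    · norm_num; exact h73
    · norm_num; exact h7
  have := IsPrimitiveRoot.orderOf x
  rw [hord] at this
  simpa using this

/-- conjugate power sums -/
noncomputable def ps (x : K) (k : ℕ) : K := ∑ s ∈ Finset.range 9, (x ^ (2 ^ s)) ^ k

lemma ps_rec (x : K) (h : x ^ 9 = x ^ 4 + 1) (k : ℕ) :
    ps x (k + 9) = ps x (k + 4) + ps x k := by
  unfold ps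
  rw [← Finset.sum_add_distrib]
  apply Finset.sum_congr rfl
  intro s _
  have h1 : (x ^ (2 ^ s)) ^ 9 = (x ^ (2 ^ s)) ^ 4 + 1 := by
    rw [← pow_mul, mul_comm, pow_mul, h, add_pow_char_pow, one_pow, ← pow_mul, ← pow_mul,
      mul_comm 4]
  rw [pow_add, h1, pow_add]
  ring

lemma ps_two (x : K) (h : x ^ 9 = x ^ 4 + 1) (k : ℕ) : ps x (2 * k) = ps x k := by
  have h512 := (pows two_zero x h).2
  unfold ps
  have e : ∀ s, (x ^ (2 ^ s)) ^ (2 * k) = (x ^ (2 ^ (s + 1))) ^ k := by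
    intro s
    rw [pow_mul (x ^ (2 ^ s)) 2 k, ← pow_mul x, ← pow_succ]
  have e9 : (x ^ (2 ^ (8 + 1))) = x ^ (2 ^ 0) := by
    rw [pow_zero, pow_one]; exact h512
  simp only [e]
  rw [Finset.sum_range_succ, Finset.sum_range_succ' (fun s => (x ^ (2 ^ s)) ^ k), e9]

lemma ps_zero (x : K) : ps x 0 = 1 := by
  unfold ps
  simp only [pow_zero, Finset.sum_const, Finset.card_range]
  have := two_zero
  norm_num
  linear_combination 4 * this

def mask : ℕ := 13992193413405257156128966693974023892466315556652215890842446329444281716486722768730231234175080484204354046336331252701046483497526983992879892694561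

def bt (k : ℕ) : ZMod 2 := if mask.testBit k then 1 else 0

lemma bt_rec : ∀ k : Fin 502, bt (k + 9) = bt (k + 4) + bt k := by
  decide +kernel

lemma bt_init : bt 0 = 1 ∧ bt 1 = 0 ∧ bt 2 = 0 ∧ bt 3 = 0 ∧ bt 4 = 0 ∧ bt 5 = 1 ∧ bt 6 = 0 ∧
    bt 7 = 0 ∧ bt 8 = 0 := by
  decide +kernel

lemma bt_ps (x : K) (h : x ^ 9 = x ^ 4 + 1) (k : ℕ) (hk : k < 511) :
    algebraMap (ZMod 2) K (bt k) = ps x k := by
  obtain ⟨i0, i1, i2, i3, i4, i5, i6, i7, i8⟩ := bt_init
  have hz := two_zero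
  have p0 : ps x 0 = 1 := ps_zero x
  have t1 : ps x 2 = ps x 1 := ps_two x h 1
  have t2 : ps x 4 = ps x 2 := ps_two x h 2
  have t3 : ps x 6 = ps x 3 := ps_two x h 3
  have t4 : ps x 8 = ps x 4 := ps_two x h 4
  have t5 : ps x 10 = ps x 5 := ps_two x h 5
  have t6 : ps x 12 = ps x 6 := ps_two x h 6
  have t7 : ps x 14 = ps x 7 := ps_two x h 7
  have t8 : ps x 16 = ps x 8 := ps_two x h 8
  have r9 : ps x 9 = ps x 4 + ps x 0 := ps_rec x h 0
  have r10 : ps x 10 = ps x 5 + ps x 1 := ps_rec x h 1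
  have r11 : ps x 11 = ps x 6 + ps x 2 := ps_rec x h 2
  have r12 : ps x 12 = ps x 7 + ps x 3 := ps_rec x h 3
  have r14 : ps x 14 = ps x 9 + ps x 5 := ps_rec x h 5
  have r16 : ps x 16 = ps x 11 + ps x 7 := ps_rec x h 7
  have p1 : ps x 1 = 0 := by linear_combination t5 - r10
  have p2 : ps x 2 = 0 := by rw [t1, p1]
  have p4 : ps x 4 = 0 := by rw [t2, p2]
  have p8 : ps x 8 = 0 := by rw [t4, p4]
  have p7 : ps x 7 = 0 := by linear_combination t6 + t3 - r12
  have p9 : ps x 9 = 1 := by rw [r9, p4, p0, zero_add]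
  have p5 : ps x 5 = 1 := by linear_combination t7 - r14 + p7 - p9 - hz
  have p11 : ps x 11 = 0 := by linear_combination t8 - r16 + p8 - p7
  have p6 : ps x 6 = 0 := by linear_combination p11 - r11 - p2
  have p3 : ps x 3 = 0 := by rw [← t3, p6]
  induction k using Nat.strong_induction_on with
  | _ k ih =>
    by_cases h9 : k < 9
    · interval_cases k
      · rw [i0, p0, map_one]
      · rw [i1, p1, map_zero]
      · rw [i2, p2, map_zero]
      · rw [i3, p3, map_zero]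
      · rw [i4, p4, map_zero]
      · rw [i5, p5, map_one]
      · rw [i6, p6, map_zero]
      · rw [i7, p7, map_zero]
      · rw [i8, p8, map_zero]
    · obtain ⟨j, rfl⟩ : ∃ j, k = j + 9 := ⟨k - 9, by omega⟩
      have hj := bt_rec ⟨j, by omega⟩
      simp only at hj
      rw [hj, map_add, ih (j + 4) (by omega) (by omega), ih j (by omega) (by omega), ps_rec x h]

/-- the codeword -/
def dd (j : Fin (2 ^ 9 - 1)) : ZMod 2 := bt ((7 * (j : ℕ)) % 511)

lemma dd_card : (Finset.univ.filter (fun j => dd j ≠ 0)).card = 196 := by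
  decide +kernel

lemma dd_dual (x : K) (h : x ^ 9 = x ^ 4 + 1) (c : Fin (2 ^ 9 - 1) → ZMod 2)
    (hc : ∑ j : Fin (2 ^ 9 - 1), algebraMap (ZMod 2) K (c j) * x ^ (7 * (j : ℕ)) = 0) :
    ∑ j : Fin (2 ^ 9 - 1), c j * dd j = 0 := by
  apply (algebraMap (ZMod 2) K).injective
  rw [map_zero, map_sum]
  have hp := prim x h
  have h511 : x ^ 511 = 1 := hp.pow_eq_one
  have e1 : ∀ j : Fin (2 ^ 9 - 1), algebraMap (ZMod 2) K (c j * dd j) =
      ∑ s ∈ Finset.range 9, (algebraMap (ZMod 2) K (c j) * x ^ (7 * (j : ℕ))) ^ (2 ^ s) := by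
    intro j
    rw [map_mul, dd, bt_ps x h _ (Nat.mod_lt _ (by norm_num)), ps, Finset.mul_sum]
    apply Finset.sum_congr rfl
    intro s _
    have hA : ∀ z : ZMod 2, z ^ (2 ^ s) = z := by
      have aux : ∀ z : ZMod 2, ∀ n : ℕ, z ^ (n + 1) = z := by
        intro z n
        induction n with
        | zero => rw [zero_add, pow_one]
        | succ n ih =>
          rw [pow_succ, ih]
          have hzz : ∀ y : ZMod 2, y * y = y := by decide
          exact hzz z
      intro z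
      obtain ⟨n, hn⟩ : ∃ n, 2 ^ s = n + 1 := ⟨2 ^ s - 1, by
        have : 0 < 2 ^ s := by positivity
        omega⟩
      rw [hn, aux]
    have hA' : (algebraMap (ZMod 2) K (c j)) ^ (2 ^ s) = algebraMap (ZMod 2) K (c j) := by
      rw [← map_pow, hA]
    have hB : x ^ (7 * (j : ℕ)) = x ^ ((7 * (j : ℕ)) % 511) := by
      conv_lhs => rw [← Nat.mod_add_div (7 * (j : ℕ)) 511, pow_add, pow_mul, h511, one_pow,
        mul_one]
    rw [mul_pow, hA', hB, ← pow_mul, ← pow_mul, mul_comm (2 ^ s)]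
  rw [Finset.sum_congr rfl (fun j _ => e1 j), Finset.sum_comm]
  apply Finset.sum_eq_zero
  intro s _
  rw [← sum_pow_char_pow, hc, zero_pow (by positivity)]

end aux

/-- The negation of the preceding statement: Take a binary BCH code of length 2^m-1 whose codewords vanish at alpha^1 through alpha^(2t), with 2t-1 < 2^ceil(m/2)+1. Then every nonzero word of its dual has weight within (t-1)2^floor(m/2) of 2^(m-1). -/
theorem result :
    ¬ (∀ m t : ℕ, 2 ≤ m → 1 ≤ t → 2 * t - 1 < 2 ^ ((m + 1) / 2) + 1 →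
      ∀ α : GaloisField 2 m, IsPrimitiveRoot α (2 ^ m - 1) →
        ∀ d : Fin (2 ^ m - 1) → ZMod 2, d ≠ 0 →
          (∀ c : Fin (2 ^ m - 1) → ZMod 2,
              (∀ i ∈ Finset.Icc 1 (2 * t),
                  ∑ j : Fin (2 ^ m - 1),
                    algebraMap (ZMod 2) (GaloisField 2 m) (c j) * α ^ (i * (j : ℕ)) = 0) →
              ∑ j : Fin (2 ^ m - 1), c j * d j = 0) →
            (2 : ℤ) ^ (m - 1) - ((t : ℤ) - 1) * 2 ^ (m / 2)
                ≤ ((Finset.univ.filter (fun j => d j ≠ 0)).card : ℤ) ∧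
              ((Finset.univ.filter (fun j => d j ≠ 0)).card : ℤ)
                ≤ (2 : ℤ) ^ (m - 1) + ((t : ℤ) - 1) * 2 ^ (m / 2)) := by
  intro H
  obtain ⟨x, hx⟩ := exists_root
  have h := H 9 4 (by norm_num) (by norm_num) (by norm_num) x (prim x hx) dd (by
    intro h0
    have := dd_card
    rw [h0] at this
    simp at this) (by
    intro c hc
    exact dd_dual x hx c (hc 7 (by decide)))
  have h1 := h.1
  have h2 : ((Finset.univ.filter (fun j => dd j ≠ 0)).card : ℤ) = 196 := by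
    exact_mod_cast dd_card
  rw [h2] at h1
  norm_num at h1

end Pool.Agent.S2292
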