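import Pool.Statements.S2317
import Mathlib

set_option autoImplicit false
open Pool Pool.MP_63a4dd_co

namespace Pool.Agent.S2317

/-- First entry of the request with code `n`. -/
def ra (n : ℕ) : ℕ := (Nat.unpair (Nat.unpair n).1).1
/-- Second entry of the request with code `n`. -/
def rb (n : ℕ) : ℕ := (Nat.unpair (Nat.unpair n).1).2

lemma ra_le (n : ℕ) : ra n ≤ n := (Nat.unpair_left_le _).trans (Nat.unpair_left_le _)
lemma rb_le (n : ℕ) : rb n ≤ n := (Nat.unpair_right_le _).trans (Nat.unpair_left_le _)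

/-- `a` and `b` are at distance one, or have a common neighbour. -/
def Linked (G : SimpleGraph ℕ) (a b : ℕ) : Prop := G.Adj a b ∨ ∃ c, G.Adj a c ∧ G.Adj c b

lemma Linked.symm {G : SimpleGraph ℕ} {a b : ℕ} (h : Linked G a b) : Linked G b a := by
  rcases h with h | ⟨c, h1, h2⟩
  · exact Or.inl h.symm
  · exact Or.inr ⟨c, h2.symm, h1.symm⟩

/-- The vertices that the new vertex of stage `n` is joined to. -/
def NewP (G : SimpleGraph ℕ) (n x : ℕ) : Prop :=
  (x = ra n ∨ x = rb n) ∧ (ra n = rb n ∨ ¬ Linked G (ra n) (rb n))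

/-- The stages of the construction. -/
def stage (N : ℕ) (S : SimpleGraph ℕ) : ℕ → SimpleGraph ℕ
  | 0 => S
  | n + 1 => stage N S n ⊔ SimpleGraph.fromRel (fun x y => x = N + n ∧ NewP (stage N S n) n y)

/-- The limit graph. -/
def lim (N : ℕ) (S : SimpleGraph ℕ) : SimpleGraph ℕ where
  Adj := fun x y => ∃ n, (stage N S n).Adj x y
  symm := ⟨fun x y ⟨n, h⟩ => ⟨n, h.symm⟩⟩
  loopless := ⟨fun x ⟨n, h⟩ => (stage N S n).loopless.irrefl x h⟩

variable {N : ℕ} {S : SimpleGraph ℕ}

lemma stage_succ_adj (n x y : ℕ) : (stage N S (n + 1)).Adj x y ↔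
    (stage N S n).Adj x y ∨ (x ≠ y ∧ ((x = N + n ∧ NewP (stage N S n) n y) ∨
      (y = N + n ∧ NewP (stage N S n) n x))) := by
  simp only [stage, SimpleGraph.sup_adj, SimpleGraph.fromRel_adj]

lemma newP_lt (hN : 1 ≤ N) {G : SimpleGraph ℕ} {n x : ℕ} (h : NewP G n x) : x < N + n := by
  have h1 := ra_le n
  have h2 := rb_le n
  rcases h.1 with h | h <;> omega

lemma stage_lt (hN : 1 ≤ N) (hS : ∀ x y, S.Adj x y → x < N) (n : ℕ) :
    ∀ x y, (stage N S n).Adj x y → x < N + n := by
  induction n with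
  | zero => intro x y h; exact hS x y h
  | succ n ih =>
    intro x y h
    rw [stage_succ_adj] at h
    rcases h with h | ⟨-, ⟨h, -⟩ | ⟨-, h⟩⟩
    · have := ih x y h; omega
    · omega
    · have := newP_lt hN h; omega

lemma stage_mono {m n : ℕ} (h : m ≤ n) {x y : ℕ} (hxy : (stage N S m).Adj x y) :
    (stage N S n).Adj x y := by
  induction n, h using Nat.le_induction with
  | base => exact hxy
  | succ k _ ih => rw [stage_succ_adj]; exact Or.inl ih

lemma stage_of_lt {n : ℕ} (m : ℕ) {x y : ℕ} (hx : x < N + n) (hy : y < N + n)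
    (h : (stage N S m).Adj x y) : (stage N S n).Adj x y := by
  induction m with
  | zero => exact stage_mono (Nat.zero_le n) h
  | succ m ih =>
    rcases Nat.lt_or_ge m n with hmn | hmn
    · exact stage_mono hmn h
    · rw [stage_succ_adj] at h
      rcases h with h | ⟨-, ⟨h, -⟩ | ⟨h, -⟩⟩
      · exact ih h
      · omega
      · omega

/-- An edge appears as soon as both of its ends are there. -/
lemma lim_stage {n x y : ℕ} (hx : x < N + n) (hy : y < N + n) (h : (lim N S).Adj x y) :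
    (stage N S n).Adj x y := by
  obtain ⟨m, hm⟩ := h
  exact stage_of_lt m hx hy hm

/-- The smaller neighbours of a new vertex. -/
lemma lim_newP (hN : 1 ≤ N) (hS : ∀ x y, S.Adj x y → x < N) {n x : ℕ} (hx : x < N + n)
    (h : (lim N S).Adj x (N + n)) : NewP (stage N S n) n x := by
  have h1 : (stage N S (n + 1)).Adj x (N + n) := lim_stage (by omega) (by omega) h
  rw [stage_succ_adj] at h1
  rcases h1 with h1 | ⟨-, ⟨h1, -⟩ | ⟨-, h1⟩⟩
  · have := stage_lt hN hS n _ _ h1.symm
    omega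
  · omega
  · exact h1

/-- The seed is valid. -/
structure Seed (N : ℕ) (S : SimpleGraph ℕ) : Prop where
  pos : 1 ≤ N
  lt : ∀ x y, S.Adj x y → x < N
  tri : ∀ a b c, S.Adj a b → S.Adj b c → S.Adj c a → False
  quad : ∀ a b c d, S.Adj a b → S.Adj b c → S.Adj c d → S.Adj d a → a ≠ c → b ≠ d → False

lemma tri_aux (hs : Seed N S) {a b c : ℕ} (hab : (lim N S).Adj a b) (hbc : (lim N S).Adj b c)
    (hca : (lim N S).Adj c a) (hac : a < c) (hbc' : b < c) : False := by
  rcases Nat.lt_or_ge c N with hc | hc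
  · exact hs.tri a b c (lim_stage (n := 0) (by omega) (by omega) hab)
      (lim_stage (n := 0) (by omega) (by omega) hbc)
      (lim_stage (n := 0) (by omega) (by omega) hca)
  · obtain ⟨n, rfl⟩ := Nat.exists_eq_add_of_le hc
    have h1 := lim_newP hs.pos hs.lt hac hca.symm
    have h2 := lim_newP hs.pos hs.lt hbc' hbc
    have hne : a ≠ b := hab.ne
    have hl : (stage N S n).Adj a b := lim_stage hac hbc' hab
    rcases h1 with ⟨h1 | h1, h3⟩ <;> rcases h2 with ⟨h2 | h2, h4⟩
    · omega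
    · rcases h3 with h3 | h3
      · omega
      · exact h3 (Or.inl (by rw [← h1, ← h2]; exact hl))
    · rcases h3 with h3 | h3
      · omega
      · exact h3 (Or.inl (by rw [← h1, ← h2]; exact hl.symm))
    · omega

lemma tri (hs : Seed N S) {a b c : ℕ} (hab : (lim N S).Adj a b) (hbc : (lim N S).Adj b c)
    (hca : (lim N S).Adj c a) : False := by
  have h1 := hab.ne
  have h2 := hbc.ne
  have h3 := hca.ne
  rcases lt_or_gt_of_ne h1 with h1 | h1 <;> rcases lt_or_gt_of_ne h2 with h2 | h2 <;>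
    rcases lt_or_gt_of_ne h3 with h3 | h3
  all_goals first
    | exact tri_aux hs hab hbc hca (by omega) (by omega)
    | exact tri_aux hs hbc hca hab (by omega) (by omega)
    | exact tri_aux hs hca hab hbc (by omega) (by omega)
    | omega

lemma quad_aux (hs : Seed N S) {a b c d : ℕ} (hab : (lim N S).Adj a b) (hbc : (lim N S).Adj b c)
    (hcd : (lim N S).Adj c d) (hda : (lim N S).Adj d a) (hac : a ≠ c)
    (ha : a < d) (hb : b < d) (hc : c < d) : False := by
  rcases Nat.lt_or_ge d N with hd | hd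
  · exact hs.quad a b c d (lim_stage (n := 0) (by omega) (by omega) hab)
      (lim_stage (n := 0) (by omega) (by omega) hbc)
      (lim_stage (n := 0) (by omega) (by omega) hcd)
      (lim_stage (n := 0) (by omega) (by omega) hda) hac (by omega)
  · obtain ⟨n, rfl⟩ := Nat.exists_eq_add_of_le hd
    have h1 := lim_newP hs.pos hs.lt ha hda.symm
    have h2 := lim_newP hs.pos hs.lt hc hcd
    have hl : Linked (stage N S n) a c :=
      Or.inr ⟨b, lim_stage ha hb hab, lim_stage hb hc hbc⟩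
    rcases h1 with ⟨h1 | h1, h3⟩ <;> rcases h2 with ⟨h2 | h2, h4⟩
    · omega
    · rcases h3 with h3 | h3
      · omega
      · exact h3 (by rw [← h1, ← h2]; exact hl)
    · rcases h3 with h3 | h3
      · omega
      · exact h3 (by rw [← h1, ← h2]; exact hl.symm)
    · omega

lemma quad (hs : Seed N S) {a b c d : ℕ} (hab : (lim N S).Adj a b) (hbc : (lim N S).Adj b c)
    (hcd : (lim N S).Adj c d) (hda : (lim N S).Adj d a) (hac : a ≠ c) (hbd : b ≠ d) : False := by
  have h1 := hab.ne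
  have h2 := hbc.ne
  have h3 := hcd.ne
  have h4 := hda.ne
  by_cases m1 : a < d ∧ b < d ∧ c < d
  · exact quad_aux hs hab hbc hcd hda hac m1.1 m1.2.1 m1.2.2
  by_cases m2 : b < a ∧ c < a ∧ d < a
  · exact quad_aux hs hbc hcd hda hab hbd m2.1 m2.2.1 m2.2.2
  by_cases m3 : c < b ∧ d < b ∧ a < b
  · exact quad_aux hs hcd hda hab hbc (Ne.symm hac) m3.1 m3.2.1 m3.2.2
  by_cases m4 : d < c ∧ a < c ∧ b < c
  · exact quad_aux hs hda hab hbc hcd (Ne.symm hbd) m4.1 m4.2.1 m4.2.2
  omega

lemma linked (hs : Seed N S) (a b : ℕ) (hab : a ≠ b) : Linked (lim N S) a b := by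
  set n := Nat.pair (Nat.pair a b) 0 with hn
  have h1 : ra n = a := by simp [ra, hn]
  have h2 : rb n = b := by simp [rb, hn]
  by_cases h : Linked (stage N S n) a b
  · rcases h with h | ⟨c, h3, h4⟩
    · exact Or.inl ⟨n, h⟩
    · exact Or.inr ⟨c, ⟨n, h3⟩, ⟨n, h4⟩⟩
  · have hp : ∀ x, (x = a ∨ x = b) → (lim N S).Adj x (N + n) := by
      intro x hx
      have h5 : NewP (stage N S n) n x := by
        refine ⟨by rw [h1, h2]; exact hx, Or.inr (by rw [h1, h2]; exact h)⟩
      have h6 := newP_lt hs.pos h5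
      exact ⟨n + 1, by
        rw [stage_succ_adj]
        exact Or.inr ⟨by omega, Or.inr ⟨rfl, h5⟩⟩⟩
    exact Or.inr ⟨N + n, hp a (Or.inl rfl), (hp b (Or.inr rfl)).symm⟩

lemma deg (hs : Seed N S) (a : ℕ) : Cardinal.mk ((lim N S).neighborSet a) = Cardinal.aleph0 := by
  have hinf : Infinite ((lim N S).neighborSet a) := by
    rw [Set.infinite_coe_iff, Set.infinite_iff_exists_gt]
    intro m
    set n := Nat.pair (Nat.pair a a) (m + 1) with hn
    have h1 : ra n = a := by simp [ra, hn]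
    have h2 : rb n = a := by simp [rb, hn]
    have h5 : NewP (stage N S n) n a := ⟨Or.inl h1.symm, Or.inl (by rw [h1, h2])⟩
    have h6 := newP_lt hs.pos h5
    refine ⟨N + n, ⟨n + 1, by
        rw [stage_succ_adj]
        exact Or.inr ⟨by omega, Or.inr ⟨rfl, h5⟩⟩⟩, ?_⟩
    have : m + 1 ≤ n := Nat.right_le_pair _ _
    omega
  exact Cardinal.mk_eq_aleph0 _

lemma girth (hs : Seed N S) : ((2 * 2 : ℕ) : ℕ∞) < (lim N S).egirth := by
  have h5 : ((5 : ℕ) : ℕ∞) ≤ (lim N S).egirth := by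
    rw [SimpleGraph.le_egirth]
    intro a w hw
    have h3 := hw.three_le_length
    by_contra hlt
    have hlt' : w.length < 5 := by
      rw [not_le] at hlt
      exact_mod_cast hlt
    have hnd := hw.support_nodup
    match w, hnd, h3, hlt' with
    | .cons e1 (.cons e2 (.cons e3 .nil)), _, _, _ =>
      exact tri hs e1 e2 e3
    | .cons e1 (.cons e2 (.cons e3 (.cons e4 .nil))), hnd, _, _ =>
      simp only [SimpleGraph.Walk.support_cons, SimpleGraph.Walk.support_nil, List.tail_cons,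
        List.nodup_cons, List.mem_cons, List.not_mem_nil, not_or, or_false] at hnd
      exact quad hs e1 e2 e3 e4 (fun h => hnd.2.1.2 h.symm) hnd.1.2.1
    | .cons e1 (.cons e2 (.cons e3 (.cons e4 (.cons e5 w)))), _, _, h =>
      simp only [SimpleGraph.Walk.length_cons] at h
      omega
  refine lt_of_lt_of_le ?_ h5
  exact_mod_cast (by norm_num : 2 * 2 < 5)

lemma diam (hs : Seed N S) : (lim N S).ediam = ((2 : ℕ) : ℕ∞) := by
  apply le_antisymm
  · apply SimpleGraph.ediam_le_of_edist_le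
    intro u v
    by_cases huv : u = v
    · subst huv
      simp
    · rcases linked hs u v huv with h | ⟨c, h1, h2⟩
      · refine le_trans (SimpleGraph.Walk.edist_le (.cons h .nil)) ?_
        simp
      · exact SimpleGraph.Walk.edist_le (.cons h1 (.cons h2 .nil))
  · by_contra hlt
    rw [not_le] at hlt
    have h0 : (lim N S).ediam ≤ 1 := by
      have : ((2 : ℕ) : ℕ∞) = 1 + 1 := by norm_num
      rw [this] at hlt
      exact Order.le_of_lt_add_one hlt
    have h1 : ∀ a b : ℕ, a ≠ b → (lim N S).Adj a b := by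
      intro a b hab
      have h2 : (lim N S).edist a b ≤ 1 := le_trans SimpleGraph.edist_le_ediam h0
      have h3 : (lim N S).edist a b ≠ 0 := by
        intro h; exact hab (SimpleGraph.edist_eq_zero_iff.1 h)
      have h4 : (lim N S).edist a b = 1 := by
        apply le_antisymm h2
        exact Order.one_le_iff_pos.2 (pos_iff_ne_zero.2 h3)
      exact SimpleGraph.edist_eq_one_iff_adj.1 h4
    exact tri hs (h1 0 1 (by norm_num)) (h1 1 2 (by norm_num)) (h1 2 0 (by norm_num))

/-- The edges of the Petersen graph (each in both directions). -/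
def pet : List (ℕ × ℕ) :=
  [(0,1),(1,2),(2,3),(3,4),(4,0),(0,5),(1,6),(2,7),(3,8),(4,9),(5,7),(7,9),(9,6),(6,8),(8,5),
   (1,0),(2,1),(3,2),(4,3),(0,4),(5,0),(6,1),(7,2),(8,3),(9,4),(7,5),(9,7),(6,9),(8,6),(5,8)]

/-- The Petersen graph on `0, ..., 9`, as a graph on `ℕ`. -/
def petG : SimpleGraph ℕ where
  Adj := fun x y => (x, y) ∈ pet
  symm := ⟨by
    intro x y h
    have : ∀ e ∈ pet, (e.2, e.1) ∈ pet := by decide
    exact this _ h⟩
  loopless := ⟨by
    intro x h
    have : ∀ e ∈ pet, e.1 ≠ e.2 := by decide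
    exact this _ h rfl⟩

lemma petSeed : Seed 10 petG where
  pos := by norm_num
  lt := by
    intro x y h
    have : ∀ e ∈ pet, e.1 < 10 := by decide
    exact this _ h
  tri := by
    intro a b c h1 h2 h3
    have : ∀ e1 ∈ pet, ∀ e2 ∈ pet, e1.2 = e2.1 → (e2.2, e1.1) ∉ pet := by decide +kernel
    exact this _ h1 _ h2 rfl h3
  quad := by
    intro a b c d h1 h2 h3 h4 h5 h6
    have : ∀ e1 ∈ pet, ∀ e2 ∈ pet, e1.2 = e2.1 → e1.1 ≠ e2.2 → ∀ e3 ∈ pet, e2.2 = e3.1 →
      e1.2 ≠ e3.2 → (e3.2, e1.1) ∉ pet := by decide +kernel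
    exact this _ h1 _ h2 rfl h5 _ h3 rfl h6 h4

lemma botSeed : Seed 1 ⊥ where
  pos := le_rfl
  lt := by intro x y h; exact absurd h (by simp)
  tri := by intro a b c h; exact absurd h (by simp)
  quad := by intro a b c d h; exact absurd h (by simp)

lemma pet_deg (i : ℕ) (hi : i < 10) : ∃ x y z, x < 10 ∧ y < 10 ∧ z < 10 ∧
    x ≠ y ∧ x ≠ z ∧ y ≠ z ∧ petG.Adj i x ∧ petG.Adj i y ∧ petG.Adj i z := by
  have : ∀ i ∈ List.range 10, ∃ x ∈ List.range 10, ∃ y ∈ List.range 10, ∃ z ∈ List.range 10,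
    x ≠ y ∧ x ≠ z ∧ y ≠ z ∧ (i, x) ∈ pet ∧ (i, y) ∈ pet ∧ (i, z) ∈ pet := by decide +kernel
  obtain ⟨x, hx, y, hy, z, hz, h⟩ := this i (List.mem_range.2 hi)
  exact ⟨x, y, z, List.mem_range.1 hx, List.mem_range.1 hy, List.mem_range.1 hz, h⟩

lemma no_iso : IsEmpty (lim 10 petG ≃g lim 1 ⊥) := by
  constructor
  intro f
  obtain ⟨i, hi, hmax⟩ := Finset.exists_max_image (Finset.range 10) (fun i => f i) ⟨0, by simp⟩
  rw [Finset.mem_range] at hi
  obtain ⟨x, y, z, hx, hy, hz, hxy, hxz, hyz, ax, ay, az⟩ := pet_deg i hi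
  have key : ∀ u, u < 10 → petG.Adj i u → (lim 1 ⊥).Adj (f u) (f i) ∧ f u < f i := by
    intro u hu hadj
    have h1 : (lim 10 petG).Adj i u := ⟨0, hadj⟩
    have h2 : (lim 1 ⊥).Adj (f i) (f u) := f.map_adj_iff.2 h1
    refine ⟨h2.symm, lt_of_le_of_ne (hmax u (Finset.mem_range.2 hu)) (h2.symm).ne⟩
  have k1 := key x hx ax
  have k2 := key y hy ay
  have k3 := key z hz az
  have hpos : 1 ≤ f i := by omega
  obtain ⟨n, hn⟩ := Nat.exists_eq_add_of_le hpos
  rw [hn] at k1 k2 k3
  have n1 := lim_newP botSeed.pos botSeed.lt k1.2 k1.1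
  have n2 := lim_newP botSeed.pos botSeed.lt k2.2 k2.1
  have n3 := lim_newP botSeed.pos botSeed.lt k3.2 k3.1
  have e1 : f x ≠ f y := fun h => hxy (f.injective h)
  have e2 : f x ≠ f z := fun h => hxz (f.injective h)
  have e3 : f y ≠ f z := fun h => hyz (f.injective h)
  have m1 := n1.1
  have m2 := n2.1
  have m3 := n3.1
  omega

/-- There exist a cardinal d and an integer k>1 and two non-isomorphic graphs, each d-regular with diameter exactly k and with no cycle of length at most 2k. -/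
theorem result :
    ∃ d : Cardinal.{0}, ∃ k : ℕ, 1 < k ∧
      ∃ (V W : Type) (G : SimpleGraph V) (H : SimpleGraph W),
        (∀ v : V, Cardinal.mk (G.neighborSet v) = d) ∧
        G.ediam = (k : ℕ∞) ∧
        ((2 * k : ℕ) : ℕ∞) < G.egirth ∧
        (∀ w : W, Cardinal.mk (H.neighborSet w) = d) ∧
        H.ediam = (k : ℕ∞) ∧
        ((2 * k : ℕ) : ℕ∞) < H.egirth ∧
        IsEmpty (G ≃g H) := by
  exact ⟨Cardinal.aleph0, 2, by norm_num, ℕ, ℕ, lim 10 petG, lim 1 ⊥, deg petSeed, diam petSeed,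
    girth petSeed, deg botSeed, diam botSeed, girth botSeed, no_iso⟩

end Pool.Agent.S2317
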