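import Pool.Statements.S2320
import Pool.Agent.Lead.JumpEx

set_option autoImplicit false
open Classical
open Pool Pool.MP_63da8f_co

namespace Pool.Agent.S2320

open Pool.Agent.Lead.JumpEx

lemma cnt_eq (l : List A) :
    (l.zip l.tail).countP (fun p => decide (¬ p.1 < p.2)) = cnt l := by
  unfold cnt
  apply List.countP_congr
  intro p _
  have : (p.1 < p.2) ↔ lt' p.1 p.2 = true := Iff.rfl
  rw [decide_eq_true_eq, this]
  cases lt' p.1 p.2 <;> simp

/-- The negation of the preceding statement: For every finite poset P with jump number r (minimum over linear extensions of the number of consecutive incomparable pairs), if deleting any single element lowers the jump number, then P has at most 2r elements. -/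
theorem result :
    ¬ (∀ (α : Type) [PartialOrder α] (σ : Finset α → ℕ),
      (∀ S : Finset α, σ S = sInf {k : ℕ | ∃ l : List α, l.Nodup ∧ l.toFinset = S ∧
          l.Pairwise (fun a b => ¬ b < a) ∧
          (l.zip l.tail).countP (fun p => decide (¬ p.1 < p.2)) = k}) →
      ∀ (P : Finset α) (r : ℕ), σ P = r → (∀ x ∈ P, σ (P.erase x) < r) →
        P.card ≤ 2 * r) := by
  intro H
  have h := H A (fun S => sInf {k : ℕ | ∃ l : List A, l.Nodup ∧ l.toFinset = S ∧
          l.Pairwise (fun a b => ¬ b < a) ∧
          (l.zip l.tail).countP (fun p => decide (¬ p.1 < p.2)) = k}) (fun S => rfl) Finset.univ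
          _ rfl
  simp only [cnt_eq] at h
  have hpw : ∀ l : List A, l.Pairwise (fun a b => ¬ b < a) ↔
      List.Pairwise (α := A) (fun a b => lt' b a = false) l := by
    intro l
    have : ∀ a b : A, (¬ b < a) ↔ lt' b a = false := by
      intro a b
      rw [← Bool.not_eq_true]
      exact Iff.rfl
    simp only [this]
  -- upper bound for the whole poset
  have hub : sInf {k : ℕ | ∃ l : List A, l.Nodup ∧ l.toFinset = Finset.univ ∧
          l.Pairwise (fun a b => ¬ b < a) ∧ cnt l = k} ≤ 3 := by
    apply Nat.sInf_le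
    refine ⟨wall, wall_spec.1, ?_, (hpw _).2 wall_spec.2.2.1, wall_spec.2.2.2⟩
    ext y
    simp only [Finset.mem_univ, iff_true]
    exact List.mem_toFinset.2 (wall_spec.2.1 y)
  -- lower bound
  have hlb : 3 ≤ sInf {k : ℕ | ∃ l : List A, l.Nodup ∧ l.toFinset = Finset.univ ∧
          l.Pairwise (fun a b => ¬ b < a) ∧ cnt l = k} := by
    have hne : {k : ℕ | ∃ l : List A, l.Nodup ∧ l.toFinset = Finset.univ ∧
          l.Pairwise (fun a b => ¬ b < a) ∧ cnt l = k}.Nonempty := by
      refine ⟨3, wall, wall_spec.1, ?_, (hpw _).2 wall_spec.2.2.1, wall_spec.2.2.2⟩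
      ext y
      simp only [Finset.mem_univ, iff_true]
      exact List.mem_toFinset.2 (wall_spec.2.1 y)
    obtain ⟨l, hn, hl, hp, hc⟩ := Nat.sInf_mem hne
    rw [← hc]
    rw [hpw] at hp
    have hlen : l.length = 7 := by
      rw [← List.toFinset_card_of_nodup hn, hl]
      rw [Finset.card_univ]
      exact Fintype.card_fin 7
    match l, hlen, hn, hp with
    | [a, b, c, d, e, f, g], _, hn, hp =>
      rw [List.nodup_cons, List.nodup_cons, List.nodup_cons, List.nodup_cons, List.nodup_cons,
        List.nodup_cons] at hn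
      rw [List.pairwise_cons, List.pairwise_cons, List.pairwise_cons, List.pairwise_cons,
        List.pairwise_cons, List.pairwise_cons] at hp
      obtain ⟨na, nb, nc, nd, ne, nf, -⟩ := hn
      obtain ⟨pa, pb, pc, pd, pe, pf, -⟩ := hp
      exact lb7 a b c d e f g (okb_of _ _ nf pf) (okb_of _ _ ne pe) (okb_of _ _ nd pd)
        (okb_of _ _ nc pc) (okb_of _ _ nb pb) (okb_of _ _ na pa)
  have h2 := h (by
    intro x _
    refine lt_of_le_of_lt ?_ (lt_of_lt_of_le (by norm_num : 2 < 3) hlb)
    apply Nat.sInf_le
    obtain ⟨h1, h2, h3, h4⟩ := wit_spec x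
    refine ⟨wit x, h1, ?_, (hpw _).2 h3, h4⟩
    ext y
    refine Iff.trans List.mem_toFinset (Iff.trans (h2 y) ?_)
    rw [Finset.mem_erase]
    simp only [Finset.mem_univ, and_true]
    exact Iff.rfl)
  have hcard : (Finset.univ : Finset A).card = 7 := Fintype.card_fin 7
  rw [hcard] at h2
  omega

end Pool.Agent.S2320
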