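import Pool.Statements.S2342
-- import your own Pool.Agent.* helpers here

set_option autoImplicit false
open Pool Pool.MP_6b8a7b_co

namespace Pool.Agent.S2342

/-- The negation of the preceding statement: Take any hypergraph whose edges are all finite and in which every vertex lies in some edge. Then some edge cover C exists such that, for every edge cover C', the cardinality of C minus C' is at most the cardinality of C' minus C. -/
theorem result :
    ¬ (∀ (V : Type) (E : Set (Set V)),
      (∀ e ∈ E, e.Finite) →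
      (∀ v : V, ∃ e ∈ E, v ∈ e) →
      ∃ C ⊆ E, ⋃₀ C = Set.univ ∧
        ∀ C' ⊆ E, ⋃₀ C' = Set.univ →
          Cardinal.mk ↥(C \ C') ≤ Cardinal.mk ↥(C' \ C)) := by
  intro h
  obtain ⟨C, hCE, hCcov, hmin⟩ := h ℕ {e : Set ℕ | e.Finite} (fun e he => he)
    (fun v => ⟨{v}, Set.finite_singleton v, rfl⟩)
  -- every cover by finite sets is infinite, so it has two distinct members
  have hinf : C.Infinite := by
    intro hfin
    have : (⋃₀ C).Finite := Set.Finite.sUnion hfin (fun e he => hCE he)
    rw [hCcov] at this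
    exact Set.infinite_univ this
  obtain ⟨e₁, he₁, e₂, he₂, hne⟩ := hinf.nontrivial
  have hU : e₁ ∪ e₂ ∈ {e : Set ℕ | e.Finite} :=
    Set.Finite.union (hCE he₁) (hCE he₂)
  set U : Set ℕ := e₁ ∪ e₂ with hUdef
  -- the modified cover
  have key := hmin ((C \ {e₁, e₂}) ∪ {U}) (by
    intro x hx
    rcases hx with hx | hx
    · exact hCE hx.1
    · rw [Set.mem_singleton_iff.1 hx]; exact hU) (by
    rw [Set.eq_univ_iff_forall] at hCcov ⊢
    intro v
    obtain ⟨e, heC, hve⟩ := hCcov v
    by_cases h1 : e = e₁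
    · exact ⟨U, Or.inr rfl, Or.inl (h1 ▸ hve)⟩
    · by_cases h2 : e = e₂
      · exact ⟨U, Or.inr rfl, Or.inr (h2 ▸ hve)⟩
      · exact ⟨e, Or.inl ⟨heC, by simp [h1, h2]⟩, hve⟩)
  by_cases hUC : U ∈ C
  · -- nothing new is added, something is removed
    have hempty : ((C \ {e₁, e₂}) ∪ {U}) \ C = ∅ := by
      ext x
      simp only [Set.mem_sdiff, Set.mem_union, Set.mem_singleton_iff, Set.mem_empty_iff_false,
        iff_false, not_and, not_not]
      rintro (hx | hx)
      · exact hx.1
      · rw [hx]; exact hUC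
    rw [hempty] at key
    have h0 : Cardinal.mk ↥(C \ ((C \ {e₁, e₂}) ∪ {U})) = 0 := by
      have : Cardinal.mk ↥(∅ : Set (Set ℕ)) = 0 := by simp
      rw [this] at key
      exact le_antisymm key zero_le
    rw [Cardinal.mk_eq_zero_iff] at h0
    by_cases h1 : e₁ = U
    · have h2 : e₂ ≠ U := fun h => hne (h1.trans h.symm)
      exact h0.false ⟨e₂, he₂, by simp [h2]⟩
    · exact h0.false ⟨e₁, he₁, by simp [h1]⟩
  · -- one set is added, two are removed
    have h1 : e₁ ≠ U := fun h => hUC (h ▸ he₁)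
    have h2 : e₂ ≠ U := fun h => hUC (h ▸ he₂)
    have hone : ((C \ {e₁, e₂}) ∪ {U}) \ C ⊆ {U} := by
      rintro x ⟨hx | hx, hxC⟩
      · exact absurd hx.1 hxC
      · exact hx
    have htwo : ({e₁, e₂} : Set (Set ℕ)) ⊆ C \ ((C \ {e₁, e₂}) ∪ {U}) := by
      rintro x (hx | hx)
      · rw [hx]; exact ⟨he₁, by simp [h1]⟩
      · rw [Set.mem_singleton_iff.1 hx]; exact ⟨he₂, by simp [h2]⟩
    have hle : Cardinal.mk ↥({e₁, e₂} : Set (Set ℕ)) ≤ Cardinal.mk ↥({U} : Set (Set ℕ)) :=
      (Cardinal.mk_le_mk_of_subset htwo).trans (key.trans (Cardinal.mk_le_mk_of_subset hone))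
    rw [Cardinal.mk_singleton, Cardinal.mk_insert (by simpa using hne), Cardinal.mk_singleton] at hle
    have : (2 : Cardinal) ≤ 1 := by
      have h11 : (1 : Cardinal) + 1 = 2 := one_add_one_eq_two
      rwa [h11] at hle
    exact absurd this (by norm_num)

end Pool.Agent.S2342
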