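import Pool.Statements.S2356

set_option autoImplicit false
open Pool Pool.MP_6f5d90_co

namespace Pool.Agent.S2356

/-- The hyperplanes of the counterexample on `Fin 12`, each coded by the number whose binary digits mark its
elements: the 45 four-element sets `p ∪ q` where `p`, `q` run over the edges of corresponding one-factors of
the complete graphs on `{0,…,5}` and `{6,…,11}`; the six-set `{6,…,11}`; and the 20 triples of `{0,…,5}`.
Every triple lies in exactly one of them. -/
def blocks : List ℕ :=
  [2145, 1185, 801, 2130, 1170, 786, 2124, 1164, 780, 2210, 354, 1570, 2181, 325, 1541, 2200, 344,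
   1560, 2340, 676, 1124, 2314, 650, 1098, 2321, 657, 1105, 2600, 1320, 232, 2580, 1300, 212,
   2563, 1283, 195, 3120, 624, 432, 3081, 585, 393, 3078, 582, 390, 4032, 7, 11, 19, 35, 13, 21,
   37, 25, 41, 49, 14, 22, 38, 26, 42, 50, 28, 44, 52, 56]

/-- the set coded by a number -/
def bset (m : ℕ) : Set (Fin 12) := {i | m.testBit i.val = true}

/-- every triple of distinct points lies in exactly one block -/
theorem steiner : ∀ i j k : Fin 12, i ≠ j → i ≠ k → j ≠ k →
    (blocks.filter (fun m => m.testBit i.val && m.testBit j.val && m.testBit k.val)).length = 1 := by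
  decide +kernel

/-- the triples inside `{0,…,5}` are blocks -/
theorem triples : ∀ i j k : Fin 12, i.val < 6 → j.val < 6 → k.val < 6 → i ≠ j → i ≠ k → j ≠ k →
    ∃ m ∈ blocks, ∀ e : Fin 12, m.testBit e.val = true ↔ (e = i ∨ e = j ∨ e = k) := by
  decide +kernel

theorem exists_block {I : Set (Fin 12)} (hI : I.ncard = 3) : ∃ b ∈ blocks, I ⊆ bset b := by
  obtain ⟨i, j, k, hij, hik, hjk, rfl⟩ := Set.ncard_eq_three.1 hI
  have h := steiner i j k hij hik hjk
  obtain ⟨m, hm⟩ := List.length_eq_one_iff.1 h
  have hmem : m ∈ blocks.filter (fun m => m.testBit i.val && m.testBit j.val && m.testBit k.val) := by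
    rw [hm]; simp
  rw [List.mem_filter] at hmem
  obtain ⟨h1, h2⟩ := hmem
  simp only [Bool.and_eq_true] at h2
  refine ⟨m, h1, ?_⟩
  rintro x (rfl | rfl | rfl)
  · exact h2.1.1
  · exact h2.1.2
  · exact h2.2

theorem unique_block {I : Set (Fin 12)} (hI : 3 ≤ I.ncard) {b c : ℕ} (hb : b ∈ blocks)
    (hc : c ∈ blocks) (hTb : I ⊆ bset b) (hTc : I ⊆ bset c) : b = c := by
  obtain ⟨J, hJI, hJ⟩ := Set.exists_subset_card_eq hI
  obtain ⟨i, j, k, hij, hik, hjk, rfl⟩ := Set.ncard_eq_three.1 hJ
  have h := steiner i j k hij hik hjk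
  obtain ⟨m, hm⟩ := List.length_eq_one_iff.1 h
  have hi : i ∈ I := hJI (by simp)
  have hj : j ∈ I := hJI (by simp)
  have hk : k ∈ I := hJI (by simp)
  have key : ∀ d ∈ blocks, I ⊆ bset d → d = m := by
    intro d hd hId
    have : d ∈ blocks.filter (fun m => m.testBit i.val && m.testBit j.val && m.testBit k.val) := by
      rw [List.mem_filter]
      refine ⟨hd, ?_⟩
      simp only [Bool.and_eq_true]
      exact ⟨⟨hId hi, hId hj⟩, hId hk⟩
    rw [hm] at this
    simpa using this
  rw [key b hb hTb, key c hc hTc]

/-- independent sets: at most three elements, or four elements not inside a block -/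
def Ind (I : Set (Fin 12)) : Prop :=
  I.ncard ≤ 3 ∨ (I.ncard = 4 ∧ ∀ b ∈ blocks, ¬ I ⊆ bset b)

/-- adding a point outside the block through a triple gives an independent set -/
theorem ind_insert {I : Set (Fin 12)} (hI : I.ncard = 3) {b : ℕ} (hb : b ∈ blocks)
    (hIb : I ⊆ bset b) {e : Fin 12} (he : e ∉ bset b) : Ind (insert e I) := by
  right
  have heI : e ∉ I := fun h => he (hIb h)
  refine ⟨by rw [Set.ncard_insert_of_notMem heI]; omega, fun c hc hsub => he ?_⟩
  have : b = c := unique_block (by omega) hb hc hIb ((Set.subset_insert e I).trans hsub)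
  rw [this]; exact hsub (Set.mem_insert e I)

/-- the matroid -/
def M : Matroid (Fin 12) :=
  (IndepMatroid.ofFinite (E := Set.univ) Set.finite_univ Ind
    (by left; simp)
    (by
      intro I J hJ hIJ
      have hle : I.ncard ≤ J.ncard := Set.ncard_le_ncard hIJ
      rcases hJ with h | ⟨h, h'⟩
      · left; omega
      · rcases Nat.lt_or_ge I.ncard 4 with h4 | h4
        · left; omega
        · have : I = J := Set.eq_of_subset_of_ncard_le hIJ (by omega)
          right; rw [this]; exact ⟨h, h'⟩)
    (by
      intro I J hI hJ hlt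
      rcases Nat.lt_or_ge I.ncard 3 with h3 | h3
      · obtain ⟨e, heJ, heI⟩ := Set.exists_mem_notMem_of_ncard_lt_ncard hlt
        exact ⟨e, heJ, heI, Or.inl (by rw [Set.ncard_insert_of_notMem heI]; omega)⟩
      · have hJ4 : J.ncard ≤ 4 := by rcases hJ with h | h <;> omega
        have hI3 : I.ncard = 3 := by omega
        obtain ⟨b, hb, hIb⟩ := exists_block hI3
        have hnot : ¬ J ⊆ bset b := by
          rcases hJ with h | h
          · omega
          · exact h.2 b hb
        obtain ⟨e, heJ, heb⟩ := Set.not_subset.1 hnot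
        exact ⟨e, heJ, fun h => heb (hIb h), ind_insert hI3 hb hIb heb⟩)
    (by intro I _; exact Set.subset_univ I)).matroid

theorem M_E : M.E = Set.univ := rfl

theorem M_indep (I : Set (Fin 12)) : M.Indep I ↔ Ind I := Iff.rfl

theorem ind_ncard {I : Set (Fin 12)} (h : Ind I) : I.ncard ≤ 4 := by
  rcases h with h | h <;> omega

theorem encard_eq (I : Set (Fin 12)) : I.encard = (I.ncard : ℕ∞) :=
  (Set.Finite.cast_ncard_eq (Set.toFinite I)).symm

theorem rk_le_four (X : Set (Fin 12)) : M.eRk X ≤ 4 := by
  rw [Matroid.eRk_le_iff]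
  intro I _ hI
  rw [encard_eq]
  exact_mod_cast ind_ncard ((M_indep I).1 hI)

/-- classification of the flats -/
theorem flat_cases {F : Set (Fin 12)} (hF : M.IsFlat F) (h3 : 3 ≤ F.ncard) :
    (∃ b ∈ blocks, F = bset b) ∨ F = Set.univ := by
  obtain ⟨T, hTF, hT⟩ := Set.exists_subset_card_eq h3
  obtain ⟨b, hb, hTb⟩ := exists_block hT
  have hTi : M.Indep T := (M_indep T).2 (Or.inl (by omega))
  have hbF : bset b ⊆ F := by
    intro e he
    by_contra heF
    have heT : e ∉ T := fun h => heF (hTF h)
    have : e ∉ M.closure T := fun h => heF (by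
      have := M.closure_subset_closure hTF h
      rwa [hF.closure] at this)
    rw [hTi.notMem_closure_iff_of_notMem heT (by simp [M_E])] at this
    rcases (M_indep _).1 this with h | h
    · rw [Set.ncard_insert_of_notMem heT] at h; omega
    · exact h.2 b hb (Set.insert_subset he hTb)
  by_cases hFb : F ⊆ bset b
  · exact Or.inl ⟨b, hb, hFb.antisymm hbF⟩
  · right
    obtain ⟨e, heF, heb⟩ := Set.not_subset.1 hFb
    have hi : Ind (insert e T) := ind_insert hT hb hTb heb
    have heT : e ∉ T := fun h => heb (hTb h)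
    have hcard : (insert e T).ncard = 4 := by rw [Set.ncard_insert_of_notMem heT]; omega
    have hsub : insert e T ⊆ F := Set.insert_subset heF hTF
    apply Set.eq_univ_of_forall
    intro x
    by_contra hx
    have hxT : x ∉ insert e T := fun h => hx (hsub h)
    have : x ∉ M.closure (insert e T) := fun h => hx (by
      have := M.closure_subset_closure hsub h
      rwa [hF.closure] at this)
    rw [((M_indep _).2 hi).notMem_closure_iff_of_notMem hxT (by simp [M_E])] at this
    have := ind_ncard ((M_indep _).1 this)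
    rw [Set.ncard_insert_of_notMem hxT] at this
    omega

theorem small_rank {F : Set (Fin 12)} (h : F.ncard ≤ 3) : M.eRk F = (F.ncard : ℕ∞) := by
  rw [((M_indep F).2 (Or.inl h)).eRk_eq_encard, encard_eq]

theorem rk_ge_three {F : Set (Fin 12)} (h : 3 ≤ F.ncard) : 3 ≤ M.eRk F := by
  obtain ⟨T, hTF, hT⟩ := Set.exists_subset_card_eq h
  have := ((M_indep T).2 (Or.inl (by omega))).encard_le_eRk_of_subset hTF
  rw [encard_eq, hT] at this
  exact_mod_cast this

theorem rk_block {b : ℕ} (hb : b ∈ blocks) : M.eRk (bset b) ≤ 3 := by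
  rw [Matroid.eRk_le_iff]
  intro I hIb hI
  rw [encard_eq]
  rcases (M_indep I).1 hI with h | h
  · exact_mod_cast h
  · exact absurd hIb (h.2 b hb)

theorem no_block : ∀ m ∈ blocks, ¬ (m.testBit 0 = true ∧ m.testBit 1 = true ∧ m.testBit 2 = true ∧
    m.testBit 6 = true) := by decide +kernel

theorem card_four : ({0, 1, 2, 6} : Set (Fin 12)).ncard = 4 := by
  have : ({0, 1, 2, 6} : Set (Fin 12)) = ((({0, 1, 2, 6} : Finset (Fin 12))) : Set (Fin 12)) := by
    simp
  rw [this, Set.ncard_coe_finset]; rfl

theorem rk_univ : M.eRk (Set.univ : Set (Fin 12)) = 4 := by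
  refine le_antisymm (rk_le_four _) ?_
  have hi : Ind ({0, 1, 2, 6} : Set (Fin 12)) := by
    right
    refine ⟨card_four, fun b hb hsub => no_block b hb ⟨?_, ?_, ?_, ?_⟩⟩
    · exact hsub (show (0 : Fin 12) ∈ _ by simp)
    · exact hsub (show (1 : Fin 12) ∈ _ by simp)
    · exact hsub (show (2 : Fin 12) ∈ _ by simp)
    · exact hsub (show (6 : Fin 12) ∈ _ by simp)
  have := ((M_indep _).2 hi).encard_le_eRk_of_subset (Set.subset_univ _)
  rw [encard_eq, card_four] at this
  exact_mod_cast this

/-- every rank level has at most 66 flats -/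
theorem level_le (k : ℕ) : {F : Set (Fin 12) | M.IsFlat F ∧ M.eRk F = (k : ℕ∞)}.ncard ≤ 66 := by
  classical
  rcases Nat.lt_or_ge k 3 with hk | hk
  · have hsub : {F : Set (Fin 12) | M.IsFlat F ∧ M.eRk F = (k : ℕ∞)} ⊆
        (fun s : Finset (Fin 12) => (s : Set (Fin 12))) ''
          ((Finset.powersetCard k (Finset.univ : Finset (Fin 12)) : Finset (Finset (Fin 12))) :
            Set (Finset (Fin 12))) := by
      rintro F ⟨-, hr⟩
      have h2 : F.ncard ≤ 2 := by
        by_contra h
        have := rk_ge_three (F := F) (by omega)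
        rw [hr] at this
        have : 3 ≤ k := by exact_mod_cast this
        omega
      rw [small_rank (by omega)] at hr
      have hr' : F.ncard = k := by exact_mod_cast hr
      refine ⟨F.toFinset, ?_, by simp⟩
      rw [Finset.mem_coe, Finset.mem_powersetCard]
      exact ⟨Finset.subset_univ _, by rw [← Set.ncard_eq_toFinset_card' F]; exact hr'⟩
    refine (Set.ncard_le_ncard hsub (Set.toFinite _)).trans ((Set.ncard_image_le (Set.toFinite _)).trans ?_)
    rw [Set.ncard_coe_finset, Finset.card_powersetCard, Finset.card_univ, Fintype.card_fin]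
    interval_cases k <;> decide
  · rcases Nat.lt_or_ge k 4 with hk' | hk'
    · have hk3 : k = 3 := by omega
      subst hk3
      have hsub : {F : Set (Fin 12) | M.IsFlat F ∧ M.eRk F = ((3 : ℕ) : ℕ∞)} ⊆
          bset '' ((blocks.toFinset : Finset ℕ) : Set ℕ) := by
        rintro F ⟨hF, hr⟩
        have h3 : 3 ≤ F.ncard := by
          by_contra h
          rw [small_rank (by omega)] at hr
          have : F.ncard = 3 := by exact_mod_cast hr
          omega
        rcases flat_cases hF h3 with ⟨b, hb, rfl⟩ | rfl
        · exact ⟨b, by simpa using hb, rfl⟩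
        · rw [rk_univ] at hr
          have : (4 : ℕ) = 3 := by exact_mod_cast hr
          omega
      refine (Set.ncard_le_ncard hsub (Set.toFinite _)).trans
        ((Set.ncard_image_le (Set.toFinite _)).trans ?_)
      rw [Set.ncard_coe_finset]
      exact (List.toFinset_card_le _).trans (by decide)
    · have hsub : {F : Set (Fin 12) | M.IsFlat F ∧ M.eRk F = (k : ℕ∞)} ⊆ {Set.univ} := by
        rintro F ⟨hF, hr⟩
        have h4 : (4 : ℕ∞) ≤ M.eRk F := by rw [hr]; exact_mod_cast hk'
        have h3 : 3 ≤ F.ncard := by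
          by_contra h
          rw [small_rank (by omega)] at h4
          have : 4 ≤ F.ncard := by exact_mod_cast h4
          omega
        rcases flat_cases hF h3 with ⟨b, hb, rfl⟩ | rfl
        · have : (4 : ℕ) ≤ 3 := by exact_mod_cast h4.trans (rk_block hb)
          omega
        · rfl
      refine (Set.ncard_le_ncard hsub (Set.toFinite _)).trans ?_
      simp

/-- the first half of the ground set -/
def half : Finset (Fin 12) := {0, 1, 2, 3, 4, 5}

theorem mem_half (e : Fin 12) : e ∈ half ↔ e.val < 6 := by revert e; decide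

/-- the antichain: the 51 pairs not inside `{0,…,5}` and the 20 triples of `{0,…,5}` -/
def anti : Finset (Finset (Fin 12)) :=
  (Finset.powersetCard 2 (Finset.univ : Finset (Fin 12)) \ Finset.powersetCard 2 half) ∪
    Finset.powersetCard 3 half

theorem half_card : half.card = 6 := rfl

theorem anti_card : anti.card = 71 := by
  rw [anti, Finset.card_union_of_disjoint, Finset.card_sdiff_of_subset, Finset.card_powersetCard,
    Finset.card_powersetCard, Finset.card_powersetCard, half_card, Finset.card_univ, Fintype.card_fin]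
  · decide
  · exact Finset.powersetCard_mono (Finset.subset_univ _)
  · rw [Finset.disjoint_left]
    intro s hs hs'
    rw [Finset.mem_sdiff, Finset.mem_powersetCard] at hs
    rw [Finset.mem_powersetCard] at hs'
    omega

theorem anti_kind {s : Finset (Fin 12)} (hs : s ∈ anti) :
    (s.card = 2 ∧ ¬ s ⊆ half) ∨ (s.card = 3 ∧ s ⊆ half) := by
  rw [anti, Finset.mem_union, Finset.mem_sdiff, Finset.mem_powersetCard, Finset.mem_powersetCard,
    Finset.mem_powersetCard] at hs
  rcases hs with ⟨⟨_, h2⟩, h⟩ | ⟨h, h3⟩
  · exact Or.inl ⟨h2, fun hsub => h ⟨hsub, h2⟩⟩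
  · exact Or.inr ⟨h3, h⟩

theorem anti_antichain {s t : Finset (Fin 12)} (hs : s ∈ anti) (ht : t ∈ anti) (hst : s ⊆ t) : s = t := by
  have hc := Finset.card_le_card hst
  rcases anti_kind hs with ⟨h1, h2⟩ | ⟨h1, h2⟩ <;> rcases anti_kind ht with ⟨h3, h4⟩ | ⟨h3, h4⟩
  · exact Finset.eq_of_subset_of_card_le hst (by omega)
  · exact absurd (hst.trans h4) h2
  · omega
  · exact Finset.eq_of_subset_of_card_le hst (by omega)

theorem anti_flat {s : Finset (Fin 12)} (hs : s ∈ anti) : M.IsFlat (s : Set (Fin 12)) := by
  have hcard : (s : Set (Fin 12)).ncard ≤ 3 := by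
    rw [Set.ncard_coe_finset]
    rcases anti_kind hs with h | h <;> omega
  have hi : M.Indep (s : Set (Fin 12)) := (M_indep _).2 (Or.inl hcard)
  rw [Matroid.isFlat_iff_closure_eq]
  refine Set.Subset.antisymm ?_ (M.subset_closure _ (by simp [M_E]))
  intro e he
  by_contra hes
  revert he
  change e ∉ M.closure (s : Set (Fin 12))
  rw [hi.notMem_closure_iff_of_notMem hes (by simp [M_E]), M_indep]
  rcases anti_kind hs with ⟨h, -⟩ | ⟨h, h'⟩
  · left
    rw [Set.ncard_insert_of_notMem hes, Set.ncard_coe_finset]; omega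
  · obtain ⟨i, j, k, hij, hik, hjk, rfl⟩ := Finset.card_eq_three.1 h
    obtain ⟨m, hm, hmem⟩ := triples i j k ((mem_half i).1 (h' (by simp))) ((mem_half j).1 (h' (by simp)))
      ((mem_half k).1 (h' (by simp))) hij hik hjk
    have hset : bset m = ((({i, j, k} : Finset (Fin 12))) : Set (Fin 12)) := by
      ext e
      simp only [bset, Set.mem_ofPred_eq, hmem e, Finset.coe_insert, Finset.coe_singleton,
        Set.mem_insert_iff, Set.mem_singleton_iff]
    refine ind_insert (b := m) (by rw [Set.ncard_coe_finset]; exact h) hm (by rw [hset]) ?_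
    rw [hset]; exact hes

/-- The negation of the preceding statement: For every matroid on a finite set whose circuits all have size at least its rank (paving), some rank level of its flats is at least as large as every antichain of flats under inclusion, i.e. the lattice of flats is Sperner. -/
theorem result :
    ¬ (∀ (α : Type) [Finite α] (M : Matroid α),
      (∀ C : Set α, M.IsCircuit C → M.eRk M.E ≤ C.encard) →
      ∃ k : ℕ, ∀ A : Set (Set α), (∀ F ∈ A, M.IsFlat F) →
        IsAntichain (· ⊆ ·) A →
        A.ncard ≤ {F : Set α | M.IsFlat F ∧ M.eRk F = (k : ℕ∞)}.ncard) := by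
  intro H
  obtain ⟨k, hk⟩ := H (Fin 12) M (by
    intro C hC
    refine (rk_le_four _).trans ?_
    rw [encard_eq]
    have : 4 ≤ C.ncard := by
      by_contra h
      exact hC.not_indep ((M_indep C).2 (Or.inl (by omega)))
    exact_mod_cast this)
  have h := hk ((fun s : Finset (Fin 12) => (s : Set (Fin 12))) '' (anti : Set (Finset (Fin 12))))
    (by
      rintro F ⟨s, hs, rfl⟩
      exact anti_flat (by exact_mod_cast hs))
    (by
      rintro F ⟨s, hs, rfl⟩ G ⟨t, ht, rfl⟩ hne hsub
      refine hne ?_
      have : s ⊆ t := by exact_mod_cast hsub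
      have := anti_antichain (by exact_mod_cast hs) (by exact_mod_cast ht) this
      simp [this])
  rw [Set.ncard_image_of_injective _ Finset.coe_injective, Set.ncard_coe_finset, anti_card] at h
  have := h.trans (level_le k)
  omega

end Pool.Agent.S2356
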