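import Pool.Statements.S2368
import Pool.Agent.Lead.InvPlane

set_option autoImplicit false
open Pool Pool.MP_71ab31_co

namespace Pool.Agent.S2368

open Pool.Agent.Lead.InvPlane

/-- the value of a nonempty intersection -/
def val {n : ℕ} (A : Finset (Fin n)) : ℤ :=
  if 3 ≤ A.card then 3 * (A.card : ℤ) - 6 else if A.card = 2 then 1 else 0

lemma inf'_pairs {n : ℕ} (S : Finset (Finset (Fin n))) (h : S.Nonempty) :
    S.inf' h (fun A => A.powersetCard 2) = (S.inf id).powersetCard 2 := by
  apply le_antisymm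
  · intro p hp
    have h1 : ∀ A ∈ S, p ∈ A.powersetCard 2 := by
      intro A hA
      exact (Finset.inf'_le (fun A => A.powersetCard 2) hA) hp
    rw [Finset.mem_powersetCard]
    constructor
    · have : p ≤ S.inf id := Finset.le_inf (fun A hA => (Finset.mem_powersetCard.1 (h1 A hA)).1)
      exact this
    · obtain ⟨A, hA⟩ := h
      exact (Finset.mem_powersetCard.1 (h1 A hA)).2
  · apply Finset.le_inf'
    intro A hA
    exact Finset.powersetCard_mono (Finset.inf_le hA)

lemma chi_eq {n : ℕ} (Z : Finset (Finset (Fin n))) (h6 : ∀ A ∈ Z, A.card = 6)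
    (ht : ∀ A ∈ Z, ∀ B ∈ Z, A ≠ B → (A ∩ B).card ≤ 2) :
    ∑ S ∈ Z.powerset.filter (fun S => S.Nonempty), (-1 : ℤ) ^ (S.card + 1) * val (S.inf id)
      = ((Z.biUnion (fun A => A.powersetCard 2)).card : ℤ) - 3 * Z.card := by
  have hval : ∀ S ∈ Z.powerset.filter (fun S => S.Nonempty),
      (-1 : ℤ) ^ (S.card + 1) * val (S.inf id)
        = (-1 : ℤ) ^ (S.card + 1) * (((S.inf id).powersetCard 2).card : ℤ)
          + (if S.card = 1 then -3 else 0) := by
    intro S hS
    rw [Finset.mem_filter, Finset.mem_powerset] at hS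
    by_cases h1 : S.card = 1
    · obtain ⟨A, rfl⟩ := Finset.card_eq_one.1 h1
      have hA : A.card = 6 := h6 A (hS.1 (Finset.mem_singleton_self A))
      simp only [Finset.inf_singleton, id, Finset.card_powersetCard, hA, val, Finset.card_singleton]
      norm_num [Nat.choose]
    · rw [if_neg h1, add_zero]
      congr 1
      have h2 : 1 < S.card := by
        have := Finset.card_pos.2 hS.2
        omega
      obtain ⟨A, hA, B, hB, hne⟩ := Finset.one_lt_card.1 h2
      have h3 : (S.inf id).card ≤ 2 := by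
        refine le_trans (Finset.card_le_card ?_) (ht A (hS.1 hA) B (hS.1 hB) hne)
        exact Finset.subset_inter (Finset.inf_le (f := id) hA) (Finset.inf_le (f := id) hB)
      rw [Finset.card_powersetCard]
      unfold val
      interval_cases (S.inf id).card <;> simp
  rw [Finset.sum_congr rfl hval, Finset.sum_add_distrib]
  have hA : ∑ S ∈ Z.powerset.filter (fun S => S.Nonempty),
      (-1 : ℤ) ^ (S.card + 1) * (((S.inf id).powersetCard 2).card : ℤ)
      = ((Z.biUnion (fun A => A.powersetCard 2)).card : ℤ) := by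
    rw [Finset.inclusion_exclusion_card_biUnion]
    rw [← Finset.sum_coe_sort]
    apply Finset.sum_congr rfl
    intro t _
    rw [inf'_pairs]
  have hB : ∑ S ∈ Z.powerset.filter (fun S => S.Nonempty), (if S.card = 1 then (-3 : ℤ) else 0)
      = -3 * Z.card := by
    rw [← Finset.sum_filter, Finset.sum_const]
    have : (Z.powerset.filter (fun S => S.Nonempty)).filter (fun S => S.card = 1)
        = Z.powersetCard 1 := by
      ext S
      simp only [Finset.mem_filter, Finset.mem_powerset, Finset.mem_powersetCard]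
      constructor
      · rintro ⟨⟨h1, -⟩, h3⟩; exact ⟨h1, h3⟩
      · rintro ⟨h1, h3⟩; exact ⟨⟨h1, Finset.card_pos.1 (by omega)⟩, h3⟩
    rw [this, Finset.card_powersetCard, Nat.choose_one_right]
    simp [mul_comm]
  rw [hA, hB]
  ring

set_option maxRecDepth 100000 in
lemma chi_neg : ∑ S ∈ Z.powerset.filter (fun S => S.Nonempty),
    (-1 : ℤ) ^ (S.card + 1) * val (S.inf id) < 0 := by
  rw [chi_eq Z Z_six Z_thin, Z_card]
  have h1 : (Z.biUnion (fun A => A.powersetCard 2)).card ≤ 325 := by
    have h2 : Z.biUnion (fun A => A.powersetCard 2)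
        ⊆ (Finset.univ : Finset (Fin 26)).powersetCard 2 := by
      intro p hp
      rw [Finset.mem_biUnion] at hp
      obtain ⟨A, -, hp⟩ := hp
      rw [Finset.mem_powersetCard] at hp ⊢
      exact ⟨Finset.subset_univ _, hp.2⟩
    refine (Finset.card_le_card h2).trans ?_
    rw [Finset.card_powersetCard, Finset.card_univ, Fintype.card_fin, Nat.choose_two_right]
  have h3 : ((Z.biUnion (fun A => A.powersetCard 2)).card : ℤ) ≤ 325 := by exact_mod_cast h1
  push_cast
  linarith

/-- the set of characteristics of the thin antichains covering `B` -/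
def chars (B : Finset (Finset (Fin 26))) : Set ℤ :=
  {x : ℤ | ∃ Z : Finset (Finset (Fin 26)),
          IsAntichain (· ⊆ ·) (Z : Set (Finset (Fin 26))) ∧
          (∀ A ∈ Z, ∀ A' ∈ Z, A ≠ A' → (A ∩ A').card ≤ 2) ∧
          (∀ b ∈ B, ∃ A ∈ Z, b ⊆ A) ∧
          x = ∑ S ∈ Z.powerset.filter (fun S => S.Nonempty),
                (-1 : ℤ) ^ (S.card + 1) *
                  (if 3 ≤ (S.inf id).card then 3 * ((S.inf id).card : ℤ) - 6
                   else if (S.inf id).card = 2 then 1 else 0)}

lemma chars_finite (B : Finset (Finset (Fin 26))) : (chars B).Finite := by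
  apply Set.Finite.subset (Set.finite_range (fun Z : Finset (Finset (Fin 26)) =>
    ∑ S ∈ Z.powerset.filter (fun S => S.Nonempty),
                (-1 : ℤ) ^ (S.card + 1) *
                  (if 3 ≤ (S.inf id).card then 3 * ((S.inf id).card : ℤ) - 6
                   else if (S.inf id).card = 2 then 1 else 0)))
  rintro x ⟨Z, -, -, -, rfl⟩
  exact ⟨Z, rfl⟩

lemma chars_nonempty (B : Finset (Finset (Fin 26)))
    (hB : B ⊆ (Finset.univ : Finset (Fin 26)).powersetCard 2) : (chars B).Nonempty := by
  refine ⟨_, B, ?_, ?_, fun b hb => ⟨b, hb, subset_rfl⟩, rfl⟩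
  · intro a ha b hb hne hab
    have h1 := (Finset.mem_powersetCard.1 (hB ha)).2
    have h2 := (Finset.mem_powersetCard.1 (hB hb)).2
    exact hne (Finset.eq_of_subset_of_card_le hab (by omega))
  · intro a ha b _ _
    have h1 := (Finset.mem_powersetCard.1 (hB ha)).2
    exact h1 ▸ Finset.card_le_card Finset.inter_subset_left

lemma neg_mem : (∑ S ∈ Z.powerset.filter (fun S => S.Nonempty),
    (-1 : ℤ) ^ (S.card + 1) * val (S.inf id)) ∈ chars ∅ := by
  refine ⟨Z, ?_, Z_thin, by simp, rfl⟩
  intro a ha b hb hne hab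
  have h1 := Z_six a ha
  have h2 := Z_six b hb
  exact hne (Finset.eq_of_subset_of_card_le hab (by omega))

/-- The negation of the preceding statement: For every finite set P, let r(B) be the least characteristic over thin antichains covering a bar set B. Then r satisfies the matroid rank axioms on pairs: 0 ≤ r(B) ≤ ∣B∣, r is monotone, and r is submodular. -/
theorem result :
    ¬ (∀ (n : ℕ) (r : Finset (Finset (Fin n)) → ℤ),
    (∀ B : Finset (Finset (Fin n)),
      B ⊆ (Finset.univ : Finset (Fin n)).powersetCard 2 →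
      IsLeast {x : ℤ | ∃ Z : Finset (Finset (Fin n)),
          IsAntichain (· ⊆ ·) (Z : Set (Finset (Fin n))) ∧
          (∀ A ∈ Z, ∀ A' ∈ Z, A ≠ A' → (A ∩ A').card ≤ 2) ∧
          (∀ b ∈ B, ∃ A ∈ Z, b ⊆ A) ∧
          x = ∑ S ∈ Z.powerset.filter (fun S => S.Nonempty),
                (-1 : ℤ) ^ (S.card + 1) *
                  (if 3 ≤ (S.inf id).card then 3 * ((S.inf id).card : ℤ) - 6
                   else if (S.inf id).card = 2 then 1 else 0)} (r B)) →
    (∀ B : Finset (Finset (Fin n)),
        B ⊆ (Finset.univ : Finset (Fin n)).powersetCard 2 →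
        0 ≤ r B ∧ r B ≤ (B.card : ℤ)) ∧
    (∀ B C : Finset (Finset (Fin n)), B ⊆ C →
        C ⊆ (Finset.univ : Finset (Fin n)).powersetCard 2 → r B ≤ r C) ∧
    (∀ B C : Finset (Finset (Fin n)),
        B ⊆ (Finset.univ : Finset (Fin n)).powersetCard 2 →
        C ⊆ (Finset.univ : Finset (Fin n)).powersetCard 2 →
        r (B ∪ C) + r (B ∩ C) ≤ r B + r C)) := by
  classical
  intro h
  have hex : ∀ B : Finset (Finset (Fin 26)), ∃ x : ℤ,
      B ⊆ (Finset.univ : Finset (Fin 26)).powersetCard 2 → IsLeast (chars B) x := by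
    intro B
    by_cases hB : B ⊆ (Finset.univ : Finset (Fin 26)).powersetCard 2
    · obtain ⟨x, hx1, hx2⟩ := Set.exists_min_image (chars B) id (chars_finite B)
        (chars_nonempty B hB)
      exact ⟨x, fun _ => ⟨hx1, hx2⟩⟩
    · exact ⟨0, fun h => absurd h hB⟩
  choose r hr using hex
  obtain ⟨h1, -, -⟩ := h 26 r hr
  have h2 := (h1 ∅ (Finset.empty_subset _)).1
  have h3 := (hr ∅ (Finset.empty_subset _)).2 neg_mem
  have h4 := chi_neg
  linarith

end Pool.Agent.S2368
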