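import Pool.Statements.S2371
import Pool.Agent.Helpers.H4_Sk
import Pool.Agent.Helpers.H4_Cyc

set_option autoImplicit false
open Pool Pool.MP_72c5f4_co

namespace Pool.Agent.S2371

open Finset Pool.Agent.H4Sk Pool.Agent.H4Cyc

/-- Skolem and hooked Skolem sequences. -/
theorem skolem (t : ℕ) (ht : 20 ≤ t) : ∃ a : ℕ → ℕ,
    (∀ i, 1 ≤ i → i ≤ t → 1 ≤ a i ∧ a i + i ≤ 2*t+2) ∧
    ∀ x, 1 ≤ x → x ≤ 2*t → ∃ i, 1 ≤ i ∧ i ≤ t ∧
      ((x = a i ∨ x = a i + i) ∨ (x = 2*t ∧ (2*t+1 = a i ∨ 2*t+1 = a i + i))) := by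
  have hmod : t % 4 = 0 ∨ t % 4 = 1 ∨ t % 4 = 2 ∨ t % 4 = 3 := by omega
  rcases hmod with h | h | h | h
  · obtain ⟨s, rfl⟩ : ∃ s, t = 4*s := ⟨t/4, by omega⟩
    obtain ⟨a, h1, h2⟩ := sk0 s (by omega)
    exact ⟨a, h1, fun x hx hx' => by
      obtain ⟨i, hi⟩ := h2 x hx hx'
      exact ⟨i, hi.1, hi.2.1, Or.inl hi.2.2⟩⟩
  · obtain ⟨s, rfl⟩ : ∃ s, t = 4*s+1 := ⟨t/4, by omega⟩
    obtain ⟨a, h1, h2⟩ := sk1 s (by omega)
    exact ⟨a, h1, fun x hx hx' => by
      obtain ⟨i, hi⟩ := h2 x hx hx'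
      exact ⟨i, hi.1, hi.2.1, Or.inl hi.2.2⟩⟩
  · obtain ⟨s, rfl⟩ : ∃ s, t = 4*s+2 := ⟨t/4, by omega⟩
    obtain ⟨a, h1, h2⟩ := sk2 s (by omega)
    refine ⟨a, h1, fun x hx hx' => ?_⟩
    by_cases hh : x = 2*(4*s+2)
    · obtain ⟨i, hi⟩ := h2 (2*(4*s+2)+1) (by omega) (by omega) (by omega)
      exact ⟨i, hi.1, hi.2.1, Or.inr ⟨hh, hi.2.2⟩⟩
    · obtain ⟨i, hi⟩ := h2 x hx (by omega) hh
      exact ⟨i, hi.1, hi.2.1, Or.inl hi.2.2⟩
  · obtain ⟨s, hs⟩ : ∃ s, t = 4*s-1 := ⟨(t+1)/4, by omega⟩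
    obtain ⟨a, h1, h2⟩ := sk3 s (by omega)
    rw [← hs] at h1 h2
    refine ⟨a, h1, fun x hx hx' => ?_⟩
    by_cases hh : x = 2*t
    · obtain ⟨i, hi⟩ := h2 (2*t+1) (by omega) (by omega) (by omega)
      exact ⟨i, hi.1, hi.2.1, Or.inr ⟨hh, hi.2.2⟩⟩
    · obtain ⟨i, hi⟩ := h2 x hx (by omega) hh
      exact ⟨i, hi.1, hi.2.1, Or.inl hi.2.2⟩

/-- Rosa and hooked Rosa sequences. -/
theorem rosa (t : ℕ) (ht : 20 ≤ t) : ∃ a : ℕ → ℕ,
    (∀ i, 1 ≤ i → i ≤ t → 1 ≤ a i ∧ a i + i ≤ 2*t+2) ∧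
    ∀ x, 1 ≤ x → x ≤ 2*t+1 → x ≠ t+1 → ∃ i, 1 ≤ i ∧ i ≤ t ∧
      ((x = a i ∨ x = a i + i) ∨ (x = 2*t+1 ∧ (2*t+2 = a i ∨ 2*t+2 = a i + i))) := by
  have hmod : t % 4 = 0 ∨ t % 4 = 1 ∨ t % 4 = 2 ∨ t % 4 = 3 := by omega
  rcases hmod with h | h | h | h
  · obtain ⟨s, rfl⟩ : ∃ s, t = 4*s := ⟨t/4, by omega⟩
    obtain ⟨a, h1, h2⟩ := ro0 s (by omega)
    exact ⟨a, h1, fun x hx hx' hx2 => by
      obtain ⟨i, hi⟩ := h2 x hx hx' hx2
      exact ⟨i, hi.1, hi.2.1, Or.inl hi.2.2⟩⟩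
  · obtain ⟨s, rfl⟩ : ∃ s, t = 4*s+1 := ⟨t/4, by omega⟩
    obtain ⟨a, h1, h2⟩ := ro1 s (by omega)
    refine ⟨a, h1, fun x hx hx' hx2 => ?_⟩
    by_cases hh : x = 2*(4*s+1)+1
    · obtain ⟨i, hi⟩ := h2 (2*(4*s+1)+2) (by omega) (by omega) (by omega) (by omega)
      exact ⟨i, hi.1, hi.2.1, Or.inr ⟨hh, hi.2.2⟩⟩
    · obtain ⟨i, hi⟩ := h2 x hx (by omega) hx2 hh
      exact ⟨i, hi.1, hi.2.1, Or.inl hi.2.2⟩
  · obtain ⟨s, rfl⟩ : ∃ s, t = 4*s+2 := ⟨t/4, by omega⟩
    obtain ⟨a, h1, h2⟩ := ro2 s (by omega)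
    refine ⟨a, h1, fun x hx hx' hx2 => ?_⟩
    by_cases hh : x = 2*(4*s+2)+1
    · obtain ⟨i, hi⟩ := h2 (2*(4*s+2)+2) (by omega) (by omega) (by omega) (by omega)
      exact ⟨i, hi.1, hi.2.1, Or.inr ⟨hh, hi.2.2⟩⟩
    · obtain ⟨i, hi⟩ := h2 x hx (by omega) hx2 hh
      exact ⟨i, hi.1, hi.2.1, Or.inl hi.2.2⟩
  · obtain ⟨s, hs⟩ : ∃ s, t = 4*s-1 := ⟨(t+1)/4, by omega⟩
    obtain ⟨a, h1, h2⟩ := ro3 s (by omega)
    rw [← hs] at h1 h2
    exact ⟨a, h1, fun x hx hx' hx2 => by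
      obtain ⟨i, hi⟩ := h2 x hx hx' hx2
      exact ⟨i, hi.1, hi.2.1, Or.inl hi.2.2⟩⟩

/-- difference triples `i, b i, b i + i` covering everything up to sign (Heffter). -/
theorem heffter (n t : ℕ) (ht : 20 ≤ t) (hn : n = 6*t+1 ∨ n = 6*t+3) : ∃ b : ℕ → ℕ,
    (∀ i, 1 ≤ i → i ≤ t → t < b i ∧ b i + i < n) ∧
    ∀ v, 1 ≤ v → v < n → (n = 6*t+3 → v ≠ 2*t+1 ∧ v ≠ 4*t+2) → ∃ i, 1 ≤ i ∧ i ≤ t ∧
      (v = i ∨ v = b i ∨ v = b i + i ∨ n - v = i ∨ n - v = b i ∨ n - v = b i + i) := by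
  rcases hn with hn | hn
  · obtain ⟨a, h1, h2⟩ := skolem t ht
    refine ⟨fun i => a i + t, fun i hi hi' => ?_, fun v hv hv' _ => ?_⟩
    · have := h1 i hi hi'
      constructor <;> dsimp only <;> omega
    · have key : ∀ w, 1 ≤ w → w ≤ 3*t → ∃ i, 1 ≤ i ∧ i ≤ t ∧
          (w = i ∨ w = a i + t ∨ w = a i + t + i ∨ n - w = a i + t ∨ n - w = a i + t + i) := by
        intro w hw hw'
        by_cases hwt : w ≤ t
        · exact ⟨w, hw, hwt, Or.inl rfl⟩
        · obtain ⟨i, hi, hi', hi2⟩ := h2 (w - t) (by omega) (by omega)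
          refine ⟨i, hi, hi', ?_⟩
          omega
      by_cases hv3 : v ≤ 3*t
      · obtain ⟨i, hi, hi', hi2⟩ := key v hv hv3
        refine ⟨i, hi, hi', ?_⟩
        dsimp only
        omega
      · obtain ⟨i, hi, hi', hi2⟩ := key (n - v) (by omega) (by omega)
        refine ⟨i, hi, hi', ?_⟩
        dsimp only
        omega
  · obtain ⟨a, h1, h2⟩ := rosa t ht
    refine ⟨fun i => a i + t, fun i hi hi' => ?_, fun v hv hv' hvn => ?_⟩
    · have := h1 i hi hi'
      constructor <;> dsimp only <;> omega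
    · have key : ∀ w, 1 ≤ w → w ≤ 3*t+1 → w ≠ 2*t+1 → ∃ i, 1 ≤ i ∧ i ≤ t ∧
          (w = i ∨ w = a i + t ∨ w = a i + t + i ∨ n - w = a i + t ∨ n - w = a i + t + i) := by
        intro w hw hw' hw2
        by_cases hwt : w ≤ t
        · exact ⟨w, hw, hwt, Or.inl rfl⟩
        · obtain ⟨i, hi, hi', hi2⟩ := h2 (w - t) (by omega) (by omega) (by omega)
          refine ⟨i, hi, hi', ?_⟩
          omega
      by_cases hv3 : v ≤ 3*t+1
      · obtain ⟨i, hi, hi', hi2⟩ := key v hv hv3 (by have := hvn hn; omega)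
        refine ⟨i, hi, hi', ?_⟩
        dsimp only
        omega
      · obtain ⟨i, hi, hi', hi2⟩ := key (n - v) (by omega) (by omega) (by have := hvn hn; omega)
        refine ⟨i, hi, hi', ?_⟩
        dsimp only
        omega

section fam
variable (n t : ℕ) [NeZero n] (b : ℕ → ℕ)

/-- base block: `{0, i, b i + i}` or `{0, b i, b i + i}` -/
def blk (i : ℕ) (e : Bool) : Finset (ZMod n) :=
  {0, (if e then ((i : ℕ) : ZMod n) else ((b i : ℕ) : ZMod n)), ((b i + i : ℕ) : ZMod n)}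

/-- short orbit -/
def short : Finset (Finset (ZMod n)) :=
  if n = 6*t+3 then (Finset.range (2*t+1)).image (fun c : ℕ =>
    ({(c : ZMod n), ((c + (2*t+1) : ℕ) : ZMod n), ((c + (4*t+2) : ℕ) : ZMod n)} : Finset (ZMod n)))
  else ∅

/-- full orbits -/
def full (ε : Fin t → Bool) : Finset (Finset (ZMod n)) :=
  ((univ : Finset (Fin t)) ×ˢ (univ : Finset (ZMod n))).image
    (fun p => (blk n b (p.1 + 1) (ε p.1)).image (fun x => x + p.2))

def fam (ε : Fin t → Bool) : Finset (Finset (ZMod n)) := full n t b ε ∪ short n t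

variable {n t b}

omit [NeZero n] in
theorem cast_inj {x y : ℕ} (hx : x < n) (hy : y < n) (h : (x : ZMod n) = (y : ZMod n)) : x = y := by
  rw [ZMod.natCast_eq_natCast_iff', Nat.mod_eq_of_lt hx, Nat.mod_eq_of_lt hy] at h
  exact h

omit [NeZero n] in
theorem card3 {x y z : ZMod n} (h1 : x ≠ y) (h2 : x ≠ z) (h3 : y ≠ z) :
    ({x, y, z} : Finset (ZMod n)).card = 3 := by
  rw [Finset.card_insert_of_notMem, Finset.card_pair h3]
  simp [h1, h2]

omit [NeZero n] in
theorem blk_card {i : ℕ} (hi : 1 ≤ i) (hb : 1 ≤ b i) (hn : b i + i < n) (e : Bool) :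
    (blk n b i e).card = 3 := by
  unfold blk
  have h0 : ((0 : ℕ) : ZMod n) = 0 := Nat.cast_zero
  cases e
  · simp only [Bool.false_eq_true, if_false]
    apply card3
    · rw [← h0]; intro h; have := cast_inj (by omega) (by omega) h; omega
    · rw [← h0]; intro h; have := cast_inj (by omega) (by omega) h; omega
    · intro h; have := cast_inj (by omega) (by omega) h; omega
  · simp only [if_true]
    apply card3
    · rw [← h0]; intro h; have := cast_inj (by omega) (by omega) h; omega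
    · rw [← h0]; intro h; have := cast_inj (by omega) (by omega) h; omega
    · intro h; have := cast_inj (by omega) (by omega) h; omega

omit [NeZero n] in
theorem tr_card (c : Finset (ZMod n)) (a : ZMod n) : (c.image (fun x => x + a)).card = c.card :=
  Finset.card_image_of_injective _ (add_left_injective a)

theorem fam_card3 (hb : ∀ i, 1 ≤ i → i ≤ t → t < b i ∧ b i + i < n) (ε : Fin t → Bool) :
    ∀ c ∈ fam n t b ε, c.card = 3 := by
  intro c hc
  rw [fam, mem_union] at hc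
  rcases hc with hc | hc
  · obtain ⟨p, -, rfl⟩ := mem_image.1 hc
    rw [tr_card]
    have := hb (p.1 + 1) (by omega) (by omega)
    exact blk_card (by omega) (by omega) this.2 _
  · unfold short at hc
    split_ifs at hc with h
    · obtain ⟨r, hr, rfl⟩ := mem_image.1 hc
      have hr' := mem_range.1 hr
      apply card3
      · intro h; have := cast_inj (by omega) (by omega) h; omega
      · intro h; have := cast_inj (by omega) (by omega) h; omega
      · intro h; have := cast_inj (by omega) (by omega) h; omega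
    · simp at hc

theorem fam_card_le (hn : n = 6*t+1 ∨ n = 6*t+3) (ε : Fin t → Bool) :
    6 * (fam n t b ε).card ≤ Fintype.card (ZMod n) * Fintype.card (ZMod n) - Fintype.card (ZMod n) := by
  have h1 : (full n t b ε).card ≤ t * n := by
    unfold full
    refine card_image_le.trans ?_
    rw [card_product]; simp [ZMod.card]
  have h2 : (short n t).card ≤ if n = 6*t+3 then 2*t+1 else 0 := by
    unfold short
    split_ifs
    · exact card_image_le.trans (by simp)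
    · simp
  have h3 := card_union_le (full n t b ε) (short n t)
  rw [ZMod.card]
  unfold fam
  rcases hn with hn | hn
  · have : ¬ (n = 6*t+3) := by omega
    rw [if_neg this] at h2
    have e : n * n - n = 6 * (t * n) := by
      have : n * n = 6 * (t * n) + n := by
        conv_lhs => rw [show n * n = (6*t+1) * n by rw [← hn]]
        ring
      omega
    rw [e]
    omega
  · rw [if_pos hn] at h2
    have e : n * n - n = 6 * (t * n) + 6 * (2*t+1) := by
      have : n * n = 6 * (t * n) + 6 * (2*t+1) + n := by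
        have e1 : n * n = (6*t+3) * n := by rw [← hn]
        have e2 : 6 * (2*t+1) = 2 * n := by rw [hn]; ring
        rw [e1, e2]
        ring
      omega
    rw [e]
    omega

theorem fam_inv (hn : n = 6*t+1 ∨ n = 6*t+3) (ε : Fin t → Bool) :
    ∀ c ∈ fam n t b ε, c.image (fun x => x + 1) ∈ fam n t b ε := by
  intro c hc
  rw [fam, mem_union] at hc ⊢
  rcases hc with hc | hc
  · left
    obtain ⟨p, -, rfl⟩ := mem_image.1 hc
    refine mem_image.2 ⟨(p.1, p.2 + 1), by simp, ?_⟩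
    rw [image_image]
    congr 1
    ext x
    simp only [Function.comp_apply]
    ring
  · right
    unfold short at hc ⊢
    split_ifs at hc ⊢ with h
    · obtain ⟨r, hr, rfl⟩ := mem_image.1 hc
      have hr' := mem_range.1 hr
      by_cases hlast : r = 2*t
      · refine mem_image.2 ⟨0, by simp, ?_⟩
        subst hlast
        have e0 : ((6*t+3 : ℕ) : ZMod n) = 0 := by rw [← h]; simp
        simp only [image_insert, image_singleton]
        have e1 : ((2*t : ℕ) : ZMod n) + 1 = ((0 + (2*t+1) : ℕ) : ZMod n) := by push_cast; ring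
        have e2 : ((2*t + (2*t+1) : ℕ) : ZMod n) + 1 = ((0 + (4*t+2) : ℕ) : ZMod n) := by
          push_cast; ring
        have e3 : ((2*t + (4*t+2) : ℕ) : ZMod n) + 1 = ((0 : ℕ) : ZMod n) := by
          rw [Nat.cast_zero, ← e0]; push_cast; ring
        rw [e1, e2, e3]
        ext x
        simp only [mem_insert, mem_singleton]
        tauto
      · refine mem_image.2 ⟨r+1, mem_range.2 (by omega), ?_⟩
        simp only [image_insert, image_singleton]
        congr 1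
        · push_cast; ring
        · congr 1
          · push_cast; ring
          · congr 1; push_cast; ring
    · simp at hc

theorem fam_cov (ht : 1 ≤ t) (hn : n = 6*t+1 ∨ n = 6*t+3)
    (hb : ∀ v, 1 ≤ v → v < n → (n = 6*t+3 → v ≠ 2*t+1 ∧ v ≠ 4*t+2) → ∃ i, 1 ≤ i ∧ i ≤ t ∧
      (v = i ∨ v = b i ∨ v = b i + i ∨ n - v = i ∨ n - v = b i ∨ n - v = b i + i))
    (ε : Fin t → Bool) :
    ∀ x y : ZMod n, x ≠ y → ∃ c ∈ fam n t b ε, x ∈ c ∧ y ∈ c := by
  -- pairs at distance i, b i, b i + i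
  have key : ∀ (x : ZMod n) (i w : ℕ), 1 ≤ i → i ≤ t → (w = i ∨ w = b i ∨ w = b i + i) →
      ∃ c ∈ fam n t b ε, x ∈ c ∧ x + (w : ZMod n) ∈ c := by
    intro x i w hi hi' hw
    have hmem : ∀ c0 : ZMod n, (blk n b i (ε ⟨i-1, by omega⟩)).image (fun z => z + c0) ∈ fam n t b ε := by
      intro c0
      rw [fam, mem_union]
      left
      refine mem_image.2 ⟨(⟨i-1, by omega⟩, c0), by simp, ?_⟩
      simp only [Nat.sub_add_cancel hi]
    rcases hw with rfl | rfl | rfl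
    · cases hε : ε ⟨w-1, by omega⟩
      · refine ⟨_, hmem (x - (b w : ZMod n)), ?_, ?_⟩
        · rw [hε]
          refine mem_image.2 ⟨(b w : ZMod n), by simp [blk], by ring⟩
        · rw [hε]
          refine mem_image.2 ⟨((b w + w : ℕ) : ZMod n), by simp [blk], by push_cast; ring⟩
      · refine ⟨_, hmem x, ?_, ?_⟩
        · refine mem_image.2 ⟨0, by simp [blk], by ring⟩
        · rw [hε]
          refine mem_image.2 ⟨(w : ZMod n), by simp [blk], by ring⟩
    · cases hε : ε ⟨i-1, by omega⟩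
      · refine ⟨_, hmem x, ?_, ?_⟩
        · refine mem_image.2 ⟨0, by simp [blk], by ring⟩
        · rw [hε]
          refine mem_image.2 ⟨(b i : ZMod n), by simp [blk], by ring⟩
      · refine ⟨_, hmem (x - (i : ZMod n)), ?_, ?_⟩
        · rw [hε]
          refine mem_image.2 ⟨(i : ZMod n), by simp [blk], by ring⟩
        · rw [hε]
          refine mem_image.2 ⟨((b i + i : ℕ) : ZMod n), by simp [blk], by push_cast; ring⟩
    · refine ⟨_, hmem x, ?_, ?_⟩
      · refine mem_image.2 ⟨0, by simp [blk], by ring⟩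
      · refine mem_image.2 ⟨((b i + i : ℕ) : ZMod n), by simp [blk], by ring⟩
  -- pairs at distance n/3
  have key2 : n = 6*t+3 → ∀ x : ZMod n, ∃ c ∈ fam n t b ε, x ∈ c ∧ x + ((2*t+1 : ℕ) : ZMod n) ∈ c := by
    intro h x
    have hx : x = (x.val : ZMod n) := (ZMod.natCast_zmod_val x).symm
    have hlt : x.val < n := ZMod.val_lt x
    set v := x.val with hv
    have hdm := Nat.mod_add_div v (2*t+1)
    set r := v % (2*t+1) with hr
    set q := v / (2*t+1) with hq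
    have hr' : r < 2*t+1 := Nat.mod_lt _ (by omega)
    have hq' : q < 3 := by
      rw [hq]; apply Nat.div_lt_of_lt_mul; omega
    have e0 : ((6*t+3 : ℕ) : ZMod n) = 0 := by rw [← h]; simp
    refine ⟨({(r : ZMod n), ((r + (2*t+1) : ℕ) : ZMod n), ((r + (4*t+2) : ℕ) : ZMod n)} : Finset (ZMod n)), ?_, ?_⟩
    · rw [fam, mem_union]
      right
      unfold short
      rw [if_pos h]
      exact mem_image.2 ⟨r, mem_range.2 hr', rfl⟩
    · have hx2 : x = ((r + (2*t+1) * q : ℕ) : ZMod n) := by rw [hdm]; exact hx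
      rw [hx2]
      simp only [mem_insert, mem_singleton]
      interval_cases q
      · refine ⟨Or.inl (by simp), Or.inr (Or.inl (by push_cast; ring))⟩
      · refine ⟨Or.inr (Or.inl (by push_cast; ring)), Or.inr (Or.inr (by push_cast; ring))⟩
      · refine ⟨Or.inr (Or.inr (by push_cast; ring)), Or.inl ?_⟩
        have : ((r + (2*t+1) * 2 : ℕ) : ZMod n) + ((2*t+1 : ℕ) : ZMod n) = (r : ZMod n) + ((6*t+3 : ℕ) : ZMod n) := by
          push_cast; ring
        rw [this, e0, add_zero]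
  intro x y hxy
  have hvpos : 1 ≤ (y - x).val := by
    rcases Nat.eq_zero_or_pos (y - x).val with h | h
    · exact absurd (sub_eq_zero.1 ((ZMod.val_eq_zero _).1 h)).symm hxy
    · exact h
  have hvlt : (y - x).val < n := ZMod.val_lt _
  have hy : y = x + (((y - x).val : ℕ) : ZMod n) := by
    rw [ZMod.natCast_zmod_val]; ring
  have hx : x = y + ((n - (y - x).val : ℕ) : ZMod n) := by
    rw [Nat.cast_sub hvlt.le, ZMod.natCast_zmod_val]; simp
  set v := (y - x).val with hv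
  by_cases hsp : n = 6*t+3 ∧ (v = 2*t+1 ∨ v = 4*t+2)
  · rcases hsp with ⟨h, h2 | h2⟩
    · obtain ⟨c, hc, hc1, hc2⟩ := key2 h x
      refine ⟨c, hc, hc1, ?_⟩
      rw [hy, h2]; exact hc2
    · obtain ⟨c, hc, hc1, hc2⟩ := key2 h y
      refine ⟨c, hc, ?_, hc1⟩
      have h3 : n - v = 2*t+1 := by omega
      rw [hx, h3]; exact hc2
  · obtain ⟨i, hi, hi', hi2⟩ := hb v hvpos hvlt (by
      intro h
      constructor
      · intro h2; exact hsp ⟨h, Or.inl h2⟩
      · intro h2; exact hsp ⟨h, Or.inr h2⟩)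
    have hi3 : (v = i ∨ v = b i ∨ v = b i + i) ∨ (n - v = i ∨ n - v = b i ∨ n - v = b i + i) := by
      tauto
    rcases hi3 with h | h
    · obtain ⟨c, hc, hc1, hc2⟩ := key x i v hi hi' h
      refine ⟨c, hc, hc1, ?_⟩
      rw [hy]; exact hc2
    · obtain ⟨c, hc, hc1, hc2⟩ := key y i (n - v) hi hi' h
      refine ⟨c, hc, ?_, hc1⟩
      rw [hx]; exact hc2

theorem fam_injective (hb : ∀ i, 1 ≤ i → i ≤ t → t < b i ∧ b i + i < n)
    (hu : ∀ ε : Fin t → Bool, ∀ x y : ZMod n, x ≠ y → ∃! c : Finset (ZMod n), c ∈ fam n t b ε ∧ x ∈ c ∧ y ∈ c) :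
    Function.Injective (fam n t b) := by
  intro ε ε' h
  by_contra hne
  obtain ⟨i, hi⟩ := Function.ne_iff.1 hne
  have hmem : ∀ ε0 : Fin t → Bool, blk n b (i+1) (ε0 i) ∈ fam n t b ε0 := by
    intro ε0
    rw [fam, mem_union]
    left
    refine mem_image.2 ⟨(i, 0), by simp, ?_⟩
    simp
  have hbi := hb (i+1) (by omega) (by omega)
  have h0 : ((0 : ℕ) : ZMod n) = 0 := Nat.cast_zero
  have hz : (0 : ZMod n) ≠ ((b (i+1) + (i+1) : ℕ) : ZMod n) := by
    rw [← h0]; intro h; have := cast_inj (by omega) (by omega) h; omega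
  have e := (hu ε 0 _ hz).unique
    ⟨hmem ε, by simp [blk], by simp [blk]⟩
    ⟨by rw [h]; exact hmem ε', by simp [blk], by simp [blk]⟩
  have hne2 : blk n b (i+1) true ≠ blk n b (i+1) false := by
    intro h
    have h1 : (((i : ℕ) + 1 : ℕ) : ZMod n) ∈ blk n b (i+1) false := by
      rw [← h]; simp [blk]
    simp only [blk, Bool.false_eq_true, if_false, mem_insert, mem_singleton] at h1
    rcases h1 with h1 | h1 | h1
    · rw [← h0] at h1; have := cast_inj (by omega) (by omega) h1; omega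
    · have := cast_inj (by omega) (by omega) h1; omega
    · have := cast_inj (by omega) (by omega) h1; omega
  cases h1 : ε i <;> cases h2 : ε' i
  · exact hi (h1.trans h2.symm)
  · rw [h1, h2] at e; exact hne2 e.symm
  · rw [h1, h2] at e; exact hne2 e
  · exact hi (h1.trans h2.symm)

end fam

theorem growth (M t : ℕ) (ht : 24 * M + 2 ≤ t) : (6*t+3) * M ≤ 2^t := by
  obtain ⟨u, hu, hu'⟩ : ∃ u, 2*u ≤ t ∧ t ≤ 2*u+1 := ⟨t/2, by omega, by omega⟩
  have h1 : u < 2^u := Nat.lt_two_pow_self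
  have h2 : 2^t ≥ 2^u * 2^u := by
    rw [← pow_add]; exact Nat.pow_le_pow_right (by norm_num) (by omega)
  have h3 : 12 * M ≤ 2^u := by omega
  calc (6*t+3) * M ≤ (12*(u+1)) * M := Nat.mul_le_mul_right _ (by omega)
    _ = (12 * M) * (u+1) := by ring
    _ ≤ 2^u * 2^u := Nat.mul_le_mul h3 h1
    _ ≤ 2^t := h2

/-- For every M, all sufficiently large n with n ≡ 1 or 3 mod 6 admit at least M pairwise non-isomorphic cyclic Steiner triple systems on Z/nZ, i.e. the number of cyclic STS(n) up to isomorphism tends to infinity. -/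
theorem result :
    ∀ M : ℕ, ∃ N : ℕ, ∀ n : ℕ, N ≤ n → (n % 6 = 1 ∨ n % 6 = 3) →
      ∃ B : Fin M → Finset (Finset (ZMod n)),
        (∀ i, (∀ b ∈ B i, b.card = 3) ∧
          (∀ x y : ZMod n, x ≠ y → ∃! b : Finset (ZMod n), b ∈ B i ∧ x ∈ b ∧ y ∈ b) ∧
          (∀ b ∈ B i, b.image (fun x => x + 1) ∈ B i)) ∧
        (∀ i j, i ≠ j → ¬ ∃ σ : Equiv.Perm (ZMod n),
          ∀ b : Finset (ZMod n), b ∈ B i ↔ b.map σ.toEmbedding ∈ B j) := by
  classical
  intro M
  refine ⟨6*(24*M+22)+3, fun n hN hmod => ?_⟩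
  obtain ⟨t, hn⟩ : ∃ t, n = 6*t+1 ∨ n = 6*t+3 := ⟨n/6, by omega⟩
  haveI : NeZero n := ⟨by omega⟩
  obtain ⟨b, hb1, hb2⟩ := heffter n t (by omega) hn
  have hcov := fun ε => fam_cov (b := b) (by omega) hn hb2 ε
  have hu : ∀ ε : Fin t → Bool, ∀ x y : ZMod n, x ≠ y →
      ∃! c : Finset (ZMod n), c ∈ fam n t b ε ∧ x ∈ c ∧ y ∈ c := fun ε =>
    unique_of_count _ (fam_card3 hb1 ε) (hcov ε) (fam_card_le hn ε)
  have hinj := fam_injective hb1 hu
  let L : Finset (Finset (Finset (ZMod n))) := univ.image (fam n t b)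
  have hLcard : L.card = 2^t := by
    rw [Finset.card_image_of_injective _ hinj]
    simp
  have hLinv : ∀ Y ∈ L, act (tau n) Y = Y := by
    intro Y hY
    obtain ⟨ε, -, rfl⟩ := mem_image.1 hY
    apply Finset.eq_of_subset_of_card_le
    · intro c hc
      unfold act at hc
      obtain ⟨d, hd, rfl⟩ := mem_map.1 hc
      have h1 := fam_inv hn ε d hd
      have h2 : (Finset.mapEmbedding (tau n).toEmbedding).toEmbedding d = d.image (fun x => x + 1) := by
        ext x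
        simp [Finset.mapEmbedding, tau]
      rw [h2]; exact h1
    · unfold act; rw [card_map]
  obtain ⟨B, hB1, hB2⟩ := many_classes M L hLinv (by
    rw [hLcard]
    refine le_trans ?_ (growth M t (by omega))
    exact Nat.mul_le_mul_right _ (by omega))
  refine ⟨B, fun i => ?_, fun i j hij ⟨σ, hσ⟩ => hB2 i j hij σ ((act_eq_iff σ _ _).1 hσ)⟩
  obtain ⟨ε, -, hε⟩ := mem_image.1 (hB1 i)
  rw [← hε]
  exact ⟨fam_card3 hb1 ε, hu ε, fam_inv hn ε⟩

end Pool.Agent.S2371
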