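import Pool.Statements.S2379
import Pool.Agent.H16.Sqs
import Pool.Agent.H16.Sqs2

set_option autoImplicit false
open Pool Pool.MP_741a63_co

namespace Pool.Agent.S2379

/-- The limsup, as v grows, of the largest number of colours in a colouring of a Steiner quadruple system on v points where every block has two same-coloured points, divided by log₂ v, equals 1. -/
theorem result :
    (∀ ε : ℝ, 0 < ε → ∃ N : ℕ, ∀ v : ℕ, N ≤ v → ∀ B : Finset (Finset (Fin v)),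
      (∀ b ∈ B, b.card = 4) →
      (∀ T : Finset (Fin v), T.card = 3 → ∃! b, b ∈ B ∧ T ⊆ b) →
      ∀ c : Fin v → ℕ, (∀ b ∈ B, ∃ x ∈ b, ∃ y ∈ b, x ≠ y ∧ c x = c y) →
      ((Finset.univ.image c).card : ℝ) ≤ (1 + ε) * Real.logb 2 (v : ℝ)) ∧
    (∀ ε : ℝ, 0 < ε → ∀ N : ℕ, ∃ v : ℕ, N ≤ v ∧ ∃ B : Finset (Finset (Fin v)),
      (∀ b ∈ B, b.card = 4) ∧
      (∀ T : Finset (Fin v), T.card = 3 → ∃! b, b ∈ B ∧ T ⊆ b) ∧
      ∃ c : Fin v → ℕ, (∀ b ∈ B, ∃ x ∈ b, ∃ y ∈ b, x ≠ y ∧ c x = c y) ∧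
      (1 - ε) * Real.logb 2 (v : ℝ) ≤ ((Finset.univ.image c).card : ℝ)) := by
  exact ⟨Pool.Agent.H16.Sqs.upper_final, Pool.Agent.H16.Sqs.lower_final⟩

end Pool.Agent.S2379
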