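import Pool.Statements.S2517
import Pool.Agent.Helpers.H4_STS5

set_option autoImplicit false
open Pool Pool.MP_9c4767_co

namespace Pool.Agent.S2517

/-- There is a constant c such that every finite group of order n is isomorphic to the full automorphism group of some Steiner triple system on at most n^c points. -/
theorem result :
    ∃ c : ℕ, ∀ (G : Type) [Group G] [Fintype G],
      ∃ (m : ℕ) (B : Finset (Finset (Fin m))),
        m ≤ (Fintype.card G) ^ c ∧
        (∀ b ∈ B, b.card = 3) ∧
        (∀ x y : Fin m, x ≠ y → ∃! b, b ∈ B ∧ x ∈ b ∧ y ∈ b) ∧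
        ∃ φ : G →* Equiv.Perm (Fin m), Function.Injective φ ∧
          ∀ σ : Equiv.Perm (Fin m),
            (σ ∈ φ.range ↔ ∀ b : Finset (Fin m), (b ∈ B ↔ b.map σ.toEmbedding ∈ B)) := by
  exact H4STS.poly_exact'

end Pool.Agent.S2517
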