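import Pool.Statements.S2519

set_option autoImplicit false
open Pool Pool.MP_9d9bd3_co

namespace Pool.Agent.S2519

/-- index type: 8 `point` classes and 8 `line` classes, seven copies of each. -/
abbrev I := (Fin 8 ⊕ Fin 8) × Fin 7

/-- point `i` lies on line `j` of the Moebius-Kantor configuration. -/
def inc (i j : Fin 8) : Bool := (i == j) || (i == j + 1) || (i == j + 3)

def adjB : (Fin 8 ⊕ Fin 8) → (Fin 8 ⊕ Fin 8) → Bool
  | .inl i, .inr j => !inc i j
  | .inr j, .inl i => !inc i j
  | _, _ => false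

lemma adjB_symm (x y : Fin 8 ⊕ Fin 8) : adjB x y = adjB y x := by
  rcases x with i | i <;> rcases y with j | j <;> rfl

/-- the real part of the argument, in terms of an `8 × 8` matrix all of whose relevant `4 × 4` minors
vanish. -/
lemma real_contra (M : Matrix (Fin 8) (Fin 8) ℝ)
    (hpat : ∀ i j, M i j ≠ 0 ↔ inc i j = false)
    (hrel : ∀ i j : Fin 8, M 0 1 * M 1 7 * M 2 0 * M i j =
      M 0 j * M i 1 * M 1 7 * M 2 0 + M 1 j * M i 7 * M 0 1 * M 2 0 +
        M 2 j * M i 0 * M 0 1 * M 1 7) : False := by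
  have hz : ∀ i j, inc i j = true → M i j = 0 := by
    intro i j h
    by_contra h'
    rw [(hpat i j).1 h'] at h
    cases h
  have hn : ∀ i j, inc i j = false → M i j ≠ 0 := fun i j h => (hpat i j).2 h
  have n01 := hn 0 1 (by decide)
  have n17 := hn 1 7 (by decide)
  have n20 := hn 2 0 (by decide)
  -- zero entries
  have z22 := hz 2 2 (by decide)
  have z05 := hz 0 5 (by decide)
  have z16 := hz 1 6 (by decide)
  have z30 := hz 3 0 (by decide)
  have z32 := hz 3 2 (by decide)
  have z33 := hz 3 3 (by decide)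
  have z41 := hz 4 1 (by decide)
  have z43 := hz 4 3 (by decide)
  have z44 := hz 4 4 (by decide)
  have z77 := hz 7 7 (by decide)
  have z74 := hz 7 4 (by decide)
  have z76 := hz 7 6 (by decide)
  have z55 := hz 5 5 (by decide)
  have z54 := hz 5 4 (by decide)
  have z52 := hz 5 2 (by decide)
  have z66 := hz 6 6 (by decide)
  have z65 := hz 6 5 (by decide)
  have z63 := hz 6 3 (by decide)
  -- nonzero entries
  have x2 := hn 0 2 (by decide)
  have y2 := hn 1 2 (by decide)
  have x3 := hn 0 3 (by decide)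
  have y3 := hn 1 3 (by decide)
  have w3 := hn 2 3 (by decide)
  have x4 := hn 0 4 (by decide)
  have y4 := hn 1 4 (by decide)
  have w4 := hn 2 4 (by decide)
  have y5 := hn 1 5 (by decide)
  have w5 := hn 2 5 (by decide)
  have x6 := hn 0 6 (by decide)
  have w6 := hn 2 6 (by decide)
  -- coefficients
  obtain ⟨a, ha⟩ : ∃ a : Fin 8 → ℝ, ∀ i, a i = M i 1 / M 0 1 := ⟨_, fun i => rfl⟩
  obtain ⟨b, hb⟩ : ∃ b : Fin 8 → ℝ, ∀ i, b i = M i 7 / M 1 7 := ⟨_, fun i => rfl⟩
  obtain ⟨c, hc⟩ : ∃ c : Fin 8 → ℝ, ∀ i, c i = M i 0 / M 2 0 := ⟨_, fun i => rfl⟩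
  have hlin : ∀ i j, M i j = a i * M 0 j + b i * M 1 j + c i * M 2 j := by
    intro i j
    have h := hrel i j
    rw [ha, hb, hc]
    field_simp
    linear_combination h
  have c3 : c 3 = 0 := by rw [hc, z30, zero_div]
  have a4 : a 4 = 0 := by rw [ha, z41, zero_div]
  have b7 : b 7 = 0 := by rw [hb, z77, zero_div]
  have b3 : b 3 ≠ 0 := by rw [hb]; exact div_ne_zero (hn 3 7 (by decide)) n17
  have b4 : b 4 ≠ 0 := by rw [hb]; exact div_ne_zero (hn 4 7 (by decide)) n17
  have a7 : a 7 ≠ 0 := by rw [ha]; exact div_ne_zero (hn 7 1 (by decide)) n01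
  have b5 : b 5 ≠ 0 := by rw [hb]; exact div_ne_zero (hn 5 7 (by decide)) n17
  have c6 : c 6 ≠ 0 := by rw [hc]; exact div_ne_zero (hn 6 0 (by decide)) n20
  have e32 := hlin 3 2
  have e33 := hlin 3 3
  have e43 := hlin 4 3
  have e44 := hlin 4 4
  have e74 := hlin 7 4
  have e76 := hlin 7 6
  have e55 := hlin 5 5
  have e54 := hlin 5 4
  have e52 := hlin 5 2
  have e66 := hlin 6 6
  have e65 := hlin 6 5
  have e63 := hlin 6 3
  rw [z32, c3] at e32
  rw [z33, c3] at e33
  rw [z43, a4] at e43
  rw [z44, a4] at e44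
  rw [z74, b7] at e74
  rw [z76, b7] at e76
  rw [z55, z05] at e55
  rw [z54] at e54
  rw [z52, z22] at e52
  rw [z66, z16] at e66
  rw [z65, z05] at e65
  rw [z63] at e63
  -- proportionality
  have p1 : M 0 2 * M 1 3 = M 0 3 * M 1 2 := by
    have : b 3 * (M 0 2 * M 1 3 - M 0 3 * M 1 2) = 0 := by
      linear_combination (-M 0 2) * e33 + M 0 3 * e32
    rcases mul_eq_zero.1 this with h | h
    · exact absurd h b3
    · linear_combination h
  have p2 : M 1 3 * M 2 4 = M 1 4 * M 2 3 := by
    have : b 4 * (M 1 3 * M 2 4 - M 1 4 * M 2 3) = 0 := by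
      linear_combination (-M 2 4) * e43 + M 2 3 * e44
    rcases mul_eq_zero.1 this with h | h
    · exact absurd h b4
    · linear_combination h
  have p3 : M 0 6 * M 2 4 = M 0 4 * M 2 6 := by
    have : a 7 * (M 0 6 * M 2 4 - M 0 4 * M 2 6) = 0 := by
      linear_combination (-M 2 4) * e76 + M 2 6 * e74
    rcases mul_eq_zero.1 this with h | h
    · exact absurd h a7
    · linear_combination h
  -- row 5 : a5 = -b5 y3/x3 , c5 = -b5 y5/w5
  have q1 : a 5 * M 0 3 = - (b 5 * M 1 3) := by
    have : M 0 2 * (a 5 * M 0 3 + b 5 * M 1 3) = 0 := by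
      linear_combination (-M 0 3) * e52 + b 5 * p1
    rcases mul_eq_zero.1 this with h | h
    · exact absurd h x2
    · linear_combination h
  have q2 : c 5 * M 2 5 = - (b 5 * M 1 5) := by linear_combination -e55
  have E5 : - (M 1 3 * M 0 4 * M 2 5) + M 1 4 * M 0 3 * M 2 5 - M 1 5 * M 2 4 * M 0 3 = 0 := by
    have : b 5 * (- (M 1 3 * M 0 4 * M 2 5) + M 1 4 * M 0 3 * M 2 5
        - M 1 5 * M 2 4 * M 0 3) = 0 := by
      linear_combination (-(M 0 3 * M 2 5)) * e54 - (M 0 4 * M 2 5) * q1 - (M 2 4 * M 0 3) * q2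
    rcases mul_eq_zero.1 this with h | h
    · exact absurd h b5
    · exact h
  -- row 6
  have r1 : a 6 * M 0 4 = - (c 6 * M 2 4) := by
    have : M 0 6 * (a 6 * M 0 4 + c 6 * M 2 4) = 0 := by
      linear_combination (-M 0 4) * e66 + c 6 * p3
    rcases mul_eq_zero.1 this with h | h
    · exact absurd h x6
    · linear_combination h
  have r2 : b 6 * M 1 5 = - (c 6 * M 2 5) := by linear_combination -e65
  have E6 : - (M 2 4 * M 0 3 * M 1 5) - M 2 5 * M 1 3 * M 0 4 + M 2 3 * M 0 4 * M 1 5 = 0 := by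
    have : c 6 * (- (M 2 4 * M 0 3 * M 1 5) - M 2 5 * M 1 3 * M 0 4
        + M 2 3 * M 0 4 * M 1 5) = 0 := by
      linear_combination (-(M 0 4 * M 1 5)) * e63 - (M 0 3 * M 1 5) * r1 - (M 1 3 * M 0 4) * r2
    rcases mul_eq_zero.1 this with h | h
    · exact absurd h c6
    · exact h
  -- normalised unknowns
  obtain ⟨T, hT⟩ : ∃ T : ℝ, T = (M 0 4 * M 1 3) / (M 0 3 * M 1 4) := ⟨_, rfl⟩
  obtain ⟨U, hU⟩ : ∃ U : ℝ, U = (M 1 5 * M 2 4) / (M 2 5 * M 1 4) := ⟨_, rfl⟩
  have hT0 : T ≠ 0 := by
    rw [hT]; exact div_ne_zero (mul_ne_zero x4 y3) (mul_ne_zero x3 y4)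
  have hU0 : U ≠ 0 := by
    rw [hU]; exact div_ne_zero (mul_ne_zero y5 w4) (mul_ne_zero w5 y4)
  have F5 : - T + 1 - U = 0 := by
    rw [hT, hU]
    field_simp
    linear_combination E5
  have F6 : - U - T + T * U = 0 := by
    have key : - U - T + T * U = (M 1 5 * M 1 3 * M 0 4 * M 2 4 - M 1 5 * M 2 4 * M 0 3 * M 1 4
        - M 0 4 * M 1 3 * M 2 5 * M 1 4) / (M 0 3 * M 1 4 * M 2 5 * M 1 4) := by
      rw [hT, hU]
      field_simp
      ring
    rw [key]
    have : M 1 5 * M 1 3 * M 0 4 * M 2 4 - M 1 5 * M 2 4 * M 0 3 * M 1 4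
        - M 0 4 * M 1 3 * M 2 5 * M 1 4 = 0 := by
      linear_combination M 1 4 * E6 + M 0 4 * M 1 5 * p2
    rw [this, zero_div]
  have hUT : U = 1 - T := by linear_combination -F5
  rw [hUT] at F6
  clear * - F6
  nlinarith [sq_nonneg (T - 1 / 2)]


lemma inj4 (a b c d : Fin 8) (h1 : a ≠ b) (h2 : a ≠ c) (h3 : a ≠ d) (h4 : b ≠ c) (h5 : b ≠ d)
    (h6 : c ≠ d) : Function.Injective ![a, b, c, d] := by
  intro x y h
  fin_cases x <;> fin_cases y <;>
    first
      | rfl
      | exact absurd h h1
      | exact absurd h h2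
      | exact absurd h h3
      | exact absurd h h4
      | exact absurd h h5
      | exact absurd h h6
      | exact absurd h.symm h1
      | exact absurd h.symm h2
      | exact absurd h.symm h3
      | exact absurd h.symm h4
      | exact absurd h.symm h5
      | exact absurd h.symm h6

/-- the real statement for the index type `I`. -/
lemma real_rank (A : Matrix I I ℝ) (hs : A.IsSymm)
    (hpat : ∀ x y : I, x ≠ y → (A x y ≠ 0 ↔ adjB x.1 y.1 = true)) : 6 < A.rank := by
  by_contra hle
  have hle : A.rank ≤ 6 := not_lt.1 hle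
  -- every class has a copy with zero diagonal entry
  have hzero : ∀ s : Fin 8 ⊕ Fin 8, ∃ a : Fin 7, A (s, a) (s, a) = 0 := by
    intro s
    by_contra hcon
    push Not at hcon
    have hsub : A.submatrix (fun a : Fin 7 => (s, a)) (fun a : Fin 7 => (s, a)) =
        Matrix.diagonal (fun a : Fin 7 => A (s, a) (s, a)) := by
      ext a b
      by_cases hab : a = b
      · subst hab; simp
      · rw [Matrix.diagonal_apply_ne _ hab, Matrix.submatrix_apply]
        by_contra hne
        have h1 : adjB s s = true := (hpat (s, a) (s, b) (by simpa using hab)).1 hne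
        have h2 : adjB s s = false := by rcases s with i | i <;> rfl
        rw [h2] at h1
        cases h1
    have h7 : (A.submatrix (fun a : Fin 7 => (s, a)) (fun a : Fin 7 => (s, a))).rank = 7 := by
      rw [hsub, Matrix.rank_diagonal]
      have : Fintype.card {i : Fin 7 // A (s, i) (s, i) ≠ 0} = Fintype.card (Fin 7) := by
        apply Fintype.card_congr
        exact Equiv.subtypeUnivEquiv (fun i => hcon i)
      simpa using this
    have := Matrix.rank_submatrix_le A (fun a : Fin 7 => (s, a)) (fun a : Fin 7 => (s, a))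
    omega
  choose κ hκ using hzero
  -- the reduced 8 x 8 matrix
  set M : Matrix (Fin 8) (Fin 8) ℝ :=
    fun i j => A (Sum.inl i, κ (Sum.inl i)) (Sum.inr j, κ (Sum.inr j)) with hM
  have hMpat : ∀ i j, M i j ≠ 0 ↔ inc i j = false := by
    intro i j
    have h := hpat (Sum.inl i, κ (Sum.inl i)) (Sum.inr j, κ (Sum.inr j)) (by simp)
    rw [hM]
    refine h.trans ?_
    show (!inc i j) = true ↔ _
    simp
  -- all 4 x 4 minors with injective rows and columns vanish
  have hminor : ∀ r c : Fin 4 → Fin 8, Function.Injective r → Function.Injective c →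
      (M.submatrix r c).det = 0 := by
    intro r c hr hc
    by_contra hdet
    let f : Fin 4 ⊕ Fin 4 → I := Sum.elim (fun k => (Sum.inl (r k), κ (Sum.inl (r k))))
      (fun k => (Sum.inr (c k), κ (Sum.inr (c k))))
    let g : Fin 4 ⊕ Fin 4 → I := Sum.elim (fun k => (Sum.inr (c k), κ (Sum.inr (c k))))
      (fun k => (Sum.inl (r k), κ (Sum.inl (r k))))
    have hblock : A.submatrix f g =
        Matrix.fromBlocks (M.submatrix r c) 0 0 (M.submatrix r c).transpose := by
      ext x y
      rcases x with x | x <;> rcases y with y | y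
      · rfl
      · show A (Sum.inl (r x), κ (Sum.inl (r x))) (Sum.inl (r y), κ (Sum.inl (r y))) = 0
        by_cases hxy : x = y
        · subst hxy; exact hκ _
        · by_contra hne
          have h1 := (hpat _ _ (by
            intro h
            exact hxy (hr (Sum.inl_injective (congrArg Prod.fst h))))).1 hne
          cases h1
      · show A (Sum.inr (c x), κ (Sum.inr (c x))) (Sum.inr (c y), κ (Sum.inr (c y))) = 0
        by_cases hxy : x = y
        · subst hxy; exact hκ _
        · by_contra hne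
          have h1 := (hpat _ _ (by
            intro h
            exact hxy (hc (Sum.inr_injective (congrArg Prod.fst h))))).1 hne
          cases h1
      · show A (Sum.inr (c x), κ (Sum.inr (c x))) (Sum.inl (r y), κ (Sum.inl (r y))) = _
        exact (hs.apply _ _)
    have hd : (A.submatrix f g).det ≠ 0 := by
      rw [hblock, Matrix.det_fromBlocks_zero₂₁, Matrix.det_transpose]
      exact mul_ne_zero hdet hdet
    have h8 : (A.submatrix f g).rank = 8 := by
      rw [Matrix.rank_of_isUnit _ ((Matrix.isUnit_iff_isUnit_det _).2 (isUnit_iff_ne_zero.2 hd))]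
      simp
    have := Matrix.rank_submatrix_le A f g
    omega
  refine real_contra M hMpat ?_
  intro i j
  have z00 : M 0 0 = 0 := by
    by_contra h; exact absurd ((hMpat 0 0).1 h) (by decide)
  have z07 : M 0 7 = 0 := by
    by_contra h; exact absurd ((hMpat 0 7).1 h) (by decide)
  have z11 : M 1 1 = 0 := by
    by_contra h; exact absurd ((hMpat 1 1).1 h) (by decide)
  have z10 : M 1 0 = 0 := by
    by_contra h; exact absurd ((hMpat 1 0).1 h) (by decide)
  have z21 : M 2 1 = 0 := by
    by_contra h; exact absurd ((hMpat 2 1).1 h) (by decide)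
  have z27 : M 2 7 = 0 := by
    by_contra h; exact absurd ((hMpat 2 7).1 h) (by decide)
  by_cases hi : i = 0
  · subst hi; rw [z07, z00]; ring
  by_cases hi1 : i = 1
  · subst hi1; rw [z11, z10]; ring
  by_cases hi2 : i = 2
  · subst hi2; rw [z21, z27]; ring
  by_cases hj : j = 1
  · subst hj; rw [z11, z21]; ring
  by_cases hj1 : j = 7
  · subst hj1; rw [z07, z27]; ring
  by_cases hj2 : j = 0
  · subst hj2; rw [z00, z10]; ring
  have hdet := hminor ![0, 1, 2, i] ![1, 7, 0, j]
    (inj4 0 1 2 i (by decide) (by decide) (Ne.symm hi) (by decide) (Ne.symm hi1) (Ne.symm hi2))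
    (inj4 1 7 0 j (by decide) (by decide) (Ne.symm hj) (by decide) (Ne.symm hj1) (Ne.symm hj2))
  rw [Matrix.det_succ_row_zero] at hdet
  simp [Fin.sum_univ_succ, Matrix.det_fin_three, Fin.succAbove, z00, z07, z11, z10, z21, z27] at hdet
  linear_combination hdet


/-! ### The complex matrix -/

noncomputable def om : ℂ := ⟨1 / 2, Real.sqrt 3 / 2⟩

lemma om_sq : om * om = om - 1 := by
  have h3 : Real.sqrt 3 * Real.sqrt 3 = 3 := Real.mul_self_sqrt (by norm_num)
  apply Complex.ext
  · simp [om]
    nlinarith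
  · simp [om]
    ring

lemma lin_om_ne (a b : ℝ) (h : a ≠ 0 ∨ b ≠ 0) : (a : ℂ) + b * om ≠ 0 := by
  intro h0
  have him := congrArg Complex.im h0
  have hre := congrArg Complex.re h0
  have h3 : (0 : ℝ) < Real.sqrt 3 := Real.sqrt_pos.2 (by norm_num)
  simp only [om, Complex.add_im, Complex.ofReal_im, Complex.mul_im, Complex.ofReal_re, zero_mul,
    add_zero, zero_add, Complex.zero_im] at him
  simp only [om, Complex.add_re, Complex.ofReal_im, Complex.mul_re, Complex.ofReal_re, zero_mul,
    sub_zero, Complex.zero_re] at hre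
  have hb : b = 0 := by
    rcases mul_eq_zero.1 him with h' | h'
    · exact h'
    · linarith
  have ha : a = 0 := by
    rw [hb] at hre
    linarith
  rcases h with h | h
  · exact h ha
  · exact h hb

noncomputable def Umat : Matrix (Fin 8) (Fin 3) ℂ :=
  !![1, 0, 0; 0, 1, 0; 0, 0, 1; 1, -1, 0; 0, 1, -1; -1, 1, om - 1; 1, om - 1, -om; 1, 0, -om]

noncomputable def Vmat : Matrix (Fin 8) (Fin 3) ℂ :=
  !![0, 0, 1; 1, 0, 0; 1, 1, 0; 1, 1, 1; om, 1, 1; 0, 1 - om, 1; om, 0, 1; 0, 1, 0]

noncomputable def Mc : Matrix (Fin 8) (Fin 8) ℂ := Umat * Vmat.transpose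


lemma om_ne : om ≠ 0 := by
  have := lin_om_ne 0 1 (Or.inr one_ne_zero)
  simpa using this

lemma om_sub_ne : om - 1 ≠ 0 := by
  have := lin_om_ne (-1) 1 (Or.inr one_ne_zero)
  intro h
  apply this
  push_cast
  linear_combination h

lemma Mc_pat (i j : Fin 8) : Mc i j ≠ 0 ↔ inc i j = false := by
  have e : ∀ (i j : Fin 8), Mc i j = Umat i 0 * Vmat j 0 + Umat i 1 * Vmat j 1
      + Umat i 2 * Vmat j 2 := by
    intro i j
    simp [Mc, Matrix.mul_apply, Fin.sum_univ_three]
  rw [e]
  fin_cases i <;> fin_cases j <;>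
    simp [inc, Umat, Vmat] <;>
    first
      | exact om_ne
      | exact om_sub_ne
      | (intro h0; exact om_ne (by linear_combination -h0))
      | (intro h0; exact om_sub_ne (by linear_combination -h0))
      | (intro h0; exact one_ne_zero (α := ℂ) (by linear_combination -h0))
      | linear_combination -om_sq

/-- the complex matrix on the index type `I`. -/
noncomputable def Bc : Matrix I I ℂ := fun x y =>
  match x.1, y.1 with
  | .inl i, .inr j => Mc i j
  | .inr j, .inl i => Mc i j
  | _, _ => 0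

lemma Bc_symm : Bc.IsSymm := by
  ext x y
  obtain ⟨x, a⟩ := x
  obtain ⟨y, b⟩ := y
  rcases x with i | i <;> rcases y with j | j <;> rfl

lemma Bc_pat (x y : I) : Bc x y ≠ 0 ↔ adjB x.1 y.1 = true := by
  obtain ⟨x, a⟩ := x
  obtain ⟨y, b⟩ := y
  rcases x with i | i <;> rcases y with j | j
  · simp [Bc, adjB]
  · show Mc i j ≠ 0 ↔ (!inc i j) = true
    rw [Mc_pat]; simp
  · show Mc j i ≠ 0 ↔ (!inc j i) = true
    rw [Mc_pat]; simp
  · simp [Bc, adjB]

lemma Bc_rank : Bc.rank ≤ 6 := by
  let P : Matrix I (Fin 3 ⊕ Fin 3) ℂ := fun x k =>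
    match x.1, k with
    | .inl i, .inl k => Umat i k
    | .inr j, .inr k => Vmat j k
    | _, _ => 0
  let Q : Matrix (Fin 3 ⊕ Fin 3) I ℂ := fun k y =>
    match k, y.1 with
    | .inl k, .inr j => Vmat j k
    | .inr k, .inl i => Umat i k
    | _, _ => 0
  have hPQ : Bc = P * Q := by
    ext x y
    obtain ⟨x, a⟩ := x
    obtain ⟨y, b⟩ := y
    rw [Matrix.mul_apply, Fintype.sum_sum_type]
    rcases x with i | i <;> rcases y with j | j
    · simp [Bc, P, Q]
    · simp [Bc, P, Q, Mc, Matrix.mul_apply]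
    · simp [Bc, P, Q, Mc, Matrix.mul_apply, mul_comm]
    · simp [Bc, P, Q]
  rw [hPQ]
  calc (P * Q).rank ≤ P.rank := Matrix.rank_mul_le_left P Q
    _ ≤ Fintype.card (Fin 3 ⊕ Fin 3) := Matrix.rank_le_card_width P
    _ = 6 := by simp

/-- There is a finite simple graph G and a complex symmetric matrix with G's off-diagonal nonzero pattern whose rank is below the rank of every real symmetric matrix with that pattern, i.e. real minimum rank exceeds complex minimum rank. -/
theorem result :
    ∃ n : ℕ, ∃ G : SimpleGraph (Fin n), ∃ B : Matrix (Fin n) (Fin n) ℂ,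
      B.IsSymm ∧ (∀ i j : Fin n, i ≠ j → (B i j ≠ 0 ↔ G.Adj i j)) ∧
      ∀ A : Matrix (Fin n) (Fin n) ℝ, A.IsSymm →
        (∀ i j : Fin n, i ≠ j → (A i j ≠ 0 ↔ G.Adj i j)) →
        B.rank < A.rank := by
  let e : I ≃ Fin (Fintype.card I) := Fintype.equivFin I
  let G : SimpleGraph (Fin (Fintype.card I)) :=
    { Adj := fun x y => adjB (e.symm x).1 (e.symm y).1 = true
      symm := ⟨by
        intro x y h
        rw [adjB_symm]
        exact h⟩
      loopless := ⟨by
        intro x h
        have h2 : ∀ s : Fin 8 ⊕ Fin 8, adjB s s = false := by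
          intro s
          rcases s with i | i <;> rfl
        rw [h2] at h
        cases h⟩ }
  refine ⟨Fintype.card I, G, Bc.submatrix e.symm e.symm, ?_, ?_, ?_⟩
  · exact Bc_symm.submatrix _
  · intro i j _
    exact Bc_pat _ _
  · intro A hA hpat
    have h1 : (A.submatrix e e).rank = A.rank := Matrix.rank_submatrix A e e
    have h2 : (Bc.submatrix e.symm e.symm).rank = Bc.rank := Matrix.rank_submatrix Bc _ _
    have h3 : 6 < (A.submatrix e e).rank := by
      apply real_rank (A.submatrix e e) (hA.submatrix _)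
      intro x y hxy
      have := hpat (e x) (e y) (fun h => hxy (e.injective h))
      refine this.trans ?_
      show adjB (e.symm (e x)).1 (e.symm (e y)).1 = true ↔ _
      rw [e.symm_apply_apply, e.symm_apply_apply]
    rw [h2, ← h1]
    exact lt_of_le_of_lt Bc_rank h3

end Pool.Agent.S2519
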