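import Pool.Statements.S2560

set_option autoImplicit false
open Pool Pool.MP_a94970_co

namespace Pool.Agent.S2560

/-! ### Arithmetic -/

theorem bern (x d : ℕ) (s : ℕ) : x ^ (s + 1) + (s + 1) * d * x ^ s ≤ (x + d) ^ (s + 1) := by
  induction s with
  | zero => simp
  | succ s ih =>
    calc x ^ (s + 1 + 1) + (s + 1 + 1) * d * x ^ (s + 1)
        ≤ (x ^ (s + 1) + (s + 1) * d * x ^ s) * (x + d) := by
          have : (x ^ (s + 1) + (s + 1) * d * x ^ s) * (x + d)
              = x ^ (s + 1 + 1) + (s + 1 + 1) * d * x ^ (s + 1) + (s + 1) * d * d * x ^ s := by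
            ring
          rw [this]; exact Nat.le_add_right _ _
      _ ≤ (x + d) ^ (s + 1) * (x + d) := Nat.mul_le_mul_right _ ih
      _ = (x + d) ^ (s + 1 + 1) := by ring

/-- Telescoping bound for the expected number of uniquely covered vertices. -/
theorem telescope (N s k : ℕ) (hk : 2 ^ k ≤ N) :
    ∑ j ∈ Finset.range k, (s + 1) * 2 ^ (j + 1) * (N - 2 ^ (j + 1)) ^ s
      + 2 * (N - 2 ^ k) ^ (s + 1) ≤ 2 * N ^ (s + 1) := by
  have main : ∀ k : ℕ, 2 ^ k ≤ N →
      ∑ j ∈ Finset.range k, (s + 1) * 2 ^ (j + 1) * (N - 2 ^ (j + 1)) ^ s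
        + 2 * (N - 2 ^ k) ^ (s + 1) ≤ 2 * (N - 1) ^ (s + 1) := by
    intro k
    induction k with
    | zero => intro _; simp
    | succ k ih =>
      intro h
      have h' : 2 ^ k ≤ N := le_trans (Nat.pow_le_pow_right (by norm_num) (Nat.le_succ k)) h
      have ih := ih h'
      rw [Finset.sum_range_succ]
      have hx : (N - 2 ^ (k + 1)) + 2 ^ k = N - 2 ^ k := by
        rw [pow_succ] at h ⊢; omega
      have hb := bern (N - 2 ^ (k + 1)) (2 ^ k) s
      rw [hx] at hb
      have e : (s + 1) * 2 ^ (k + 1) * (N - 2 ^ (k + 1)) ^ s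
          = 2 * ((s + 1) * 2 ^ k * (N - 2 ^ (k + 1)) ^ s) := by ring
      rw [e]
      omega
  refine le_trans (main k hk) ?_
  exact Nat.mul_le_mul_left _ (Nat.pow_le_pow_left (Nat.sub_le _ _) _)

/-! ### Counting functions with exactly one small coordinate in `S` -/

section count

variable {L : Type} [Fintype L] [DecidableEq L]

theorem card_small (N t : ℕ) (h : t ≤ N) :
    (Finset.univ.filter (fun x : Fin N => x.val < t)).card = t := by
  have : (Finset.univ.filter (fun x : Fin N => x.val < t)).card = (Finset.range t).card := by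
    refine Finset.card_bij (fun x _ => x.val) ?_ ?_ ?_
    · intro x hx
      simpa using hx
    · intro a _ b _ hab
      exact Fin.ext hab
    · intro b hb
      have hb' : b < t := by simpa using hb
      exact ⟨⟨b, lt_of_lt_of_le hb' h⟩, by simpa using hb', rfl⟩
  rw [this, Finset.card_range]

theorem card_large (N t : ℕ) (h : t ≤ N) :
    (Finset.univ.filter (fun x : Fin N => ¬ x.val < t)).card = N - t := by
  have h1 := Finset.card_filter_add_card_filter_not (s := (Finset.univ : Finset (Fin N)))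
    (fun x : Fin N => x.val < t)
  rw [card_small N t h, Finset.card_univ, Fintype.card_fin] at h1
  omega

theorem count_one (N t : ℕ) (h : t ≤ N) (S : Finset L) (l : L) (hl : l ∈ S) :
    (Finset.univ.filter (fun g : L → Fin N =>
      (g l).val < t ∧ ∀ l' ∈ S, l' ≠ l → ¬ (g l').val < t)).card
      ≤ t * (N - t) ^ (S.card - 1) * N ^ (Fintype.card L - S.card) := by
  let c : L → Finset (Fin N) := fun l' =>
    if l' = l then Finset.univ.filter (fun x : Fin N => x.val < t)
    else if l' ∈ S then Finset.univ.filter (fun x : Fin N => ¬ x.val < t)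
    else Finset.univ
  have hsub : (Finset.univ.filter (fun g : L → Fin N =>
      (g l).val < t ∧ ∀ l' ∈ S, l' ≠ l → ¬ (g l').val < t)) ⊆ Fintype.piFinset c := by
    intro g hg
    rw [Finset.mem_filter] at hg
    rw [Fintype.mem_piFinset]
    intro l'
    simp only [c]
    by_cases h1 : l' = l
    · rw [if_pos h1, Finset.mem_filter]
      refine ⟨Finset.mem_univ _, ?_⟩
      rw [h1]; exact hg.2.1
    · rw [if_neg h1]
      by_cases h2 : l' ∈ S
      · rw [if_pos h2, Finset.mem_filter]
        exact ⟨Finset.mem_univ _, hg.2.2 l' h2 h1⟩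
      · rw [if_neg h2]
        exact Finset.mem_univ _
  refine le_trans (Finset.card_le_card hsub) ?_
  rw [Fintype.card_piFinset, ← Finset.prod_mul_prod_compl S, ← Finset.mul_prod_erase S _ hl]
  have e1 : (c l).card = t := by
    simp only [c, if_true]
    exact card_small N t h
  have e2 : ∏ x ∈ S.erase l, (c x).card = (N - t) ^ (S.card - 1) := by
    rw [← Finset.card_erase_of_mem hl]
    apply Finset.prod_eq_pow_card
    intro x hx
    rw [Finset.mem_erase] at hx
    simp only [c, if_neg hx.1, if_pos hx.2]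
    exact card_large N t h
  have e3 : ∏ x ∈ Sᶜ, (c x).card = N ^ (Fintype.card L - S.card) := by
    rw [← Finset.card_compl]
    apply Finset.prod_eq_pow_card
    intro x hx
    rw [Finset.mem_compl] at hx
    have hxl : x ≠ l := fun h => hx (h ▸ hl)
    simp only [c, if_neg hxl, if_neg hx, Finset.card_univ, Fintype.card_fin]
  rw [e1, e2, e3]

theorem count_unique (N t : ℕ) (h : t ≤ N) (S : Finset L) :
    (Finset.univ.filter (fun g : L → Fin N =>
      ∃ l ∈ S, (g l).val < t ∧ ∀ l' ∈ S, l' ≠ l → ¬ (g l').val < t)).card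
      ≤ S.card * (t * (N - t) ^ (S.card - 1) * N ^ (Fintype.card L - S.card)) := by
  have hsub : (Finset.univ.filter (fun g : L → Fin N =>
      ∃ l ∈ S, (g l).val < t ∧ ∀ l' ∈ S, l' ≠ l → ¬ (g l').val < t)) ⊆
      S.biUnion (fun l => Finset.univ.filter (fun g : L → Fin N =>
        (g l).val < t ∧ ∀ l' ∈ S, l' ≠ l → ¬ (g l').val < t)) := by
    intro g hg
    rw [Finset.mem_filter] at hg
    obtain ⟨_, l, hl, h1⟩ := hg
    rw [Finset.mem_biUnion]
    exact ⟨l, hl, by rw [Finset.mem_filter]; exact ⟨Finset.mem_univ _, h1⟩⟩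
  refine le_trans (Finset.card_le_card hsub) ?_
  exact Finset.card_biUnion_le_card_mul _ _ _ (fun l hl => count_one N t h S l hl)

theorem count_none (N t : ℕ) (h : t ≤ N) :
    (Finset.univ.filter (fun g : L → Fin N => ∀ l, ¬ (g l).val < t)).card
      = (N - t) ^ Fintype.card L := by
  have : (Finset.univ.filter (fun g : L → Fin N => ∀ l, ¬ (g l).val < t))
      = Fintype.piFinset (fun _ : L => Finset.univ.filter (fun x : Fin N => ¬ x.val < t)) := by
    ext g
    simp [Fintype.mem_piFinset]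
  rw [this, Fintype.card_piFinset]
  simp only [card_large N t h, Finset.prod_const, Finset.card_univ]

/-- Total number of uniquely covered pairs `(j, g)`. -/
theorem total (N k : ℕ) (hk : 2 ^ k ≤ N) (S : Finset L) :
    ∑ j ∈ Finset.range k, (Finset.univ.filter (fun g : L → Fin N =>
      ∃ l ∈ S, (g l).val < 2 ^ (j + 1) ∧
        ∀ l' ∈ S, l' ≠ l → ¬ (g l').val < 2 ^ (j + 1))).card
      ≤ 2 * N ^ Fintype.card L := by
  have hS : S.card ≤ Fintype.card L := Finset.card_le_univ S
  have h1 : ∑ j ∈ Finset.range k, (Finset.univ.filter (fun g : L → Fin N =>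
      ∃ l ∈ S, (g l).val < 2 ^ (j + 1) ∧
        ∀ l' ∈ S, l' ≠ l → ¬ (g l').val < 2 ^ (j + 1))).card
      ≤ ∑ j ∈ Finset.range k, S.card * (2 ^ (j + 1) * (N - 2 ^ (j + 1)) ^ (S.card - 1)
        * N ^ (Fintype.card L - S.card)) := by
    apply Finset.sum_le_sum
    intro j hj
    have hj' : j < k := by simpa using hj
    exact count_unique N _ (le_trans (Nat.pow_le_pow_right (by norm_num) hj') hk) S
  refine le_trans h1 ?_
  rcases Nat.eq_zero_or_pos S.card with h0 | hpos
  · simp [h0]
  · obtain ⟨s, hs⟩ : ∃ s, S.card = s + 1 := ⟨S.card - 1, by omega⟩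
    rw [hs] at hS ⊢
    have e : ∀ j, (s + 1) * (2 ^ (j + 1) * (N - 2 ^ (j + 1)) ^ (s + 1 - 1)
        * N ^ (Fintype.card L - (s + 1)))
        = ((s + 1) * 2 ^ (j + 1) * (N - 2 ^ (j + 1)) ^ s) * N ^ (Fintype.card L - (s + 1)) := by
      intro j
      rw [Nat.add_sub_cancel]
      ring
    simp only [e]
    rw [← Finset.sum_mul]
    have ht := telescope N s k hk
    have ht' : ∑ j ∈ Finset.range k, (s + 1) * 2 ^ (j + 1) * (N - 2 ^ (j + 1)) ^ s
        ≤ 2 * N ^ (s + 1) := by omega
    refine le_trans (Nat.mul_le_mul_right _ ht') ?_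
    rw [mul_assoc, ← pow_add]
    have : s + 1 + (Fintype.card L - (s + 1)) = Fintype.card L := by omega
    rw [this]

end count

/-! ### The graph -/

section graph

variable (L : Type) (l0 : L) (N k : ℕ)

/-- Incidence between left and right vertices. -/
def A (l : L) (r : Fin k × (L → Fin N)) : Prop :=
  (r.2 l).val < 2 ^ (r.1.val + 1) ∨ (l = l0 ∧ ∀ l', ¬ (r.2 l').val < 2 ^ (r.1.val + 1))

/-- The graph. -/
def G : SimpleGraph (L ⊕ (Fin k × (L → Fin N))) where
  Adj
    | .inl l, .inr r => A L l0 N k l r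
    | .inr r, .inl l => A L l0 N k l r
    | _, _ => False
  symm := by
    constructor
    rintro (l | r) (l' | r') h
    · exact h
    · exact h
    · exact h
    · exact h
  loopless := by
    constructor
    rintro (l | r) h
    · exact h
    · exact h

theorem adj_lr (l : L) (r : Fin k × (L → Fin N)) :
    (G L l0 N k).Adj (.inl l) (.inr r) ↔ A L l0 N k l r := Iff.rfl

theorem adj_rl (l : L) (r : Fin k × (L → Fin N)) :
    (G L l0 N k).Adj (.inr r) (.inl l) ↔ A L l0 N k l r := Iff.rfl

theorem exists_nbr (r : Fin k × (L → Fin N)) : ∃ l, A L l0 N k l r := by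
  by_cases h : ∀ l', ¬ (r.2 l').val < 2 ^ (r.1.val + 1)
  · exact ⟨l0, Or.inr ⟨rfl, h⟩⟩
  · push Not at h
    obtain ⟨l, hl⟩ := h
    exact ⟨l, Or.inl hl⟩

theorem connected (hN : 0 < N) (hk : 0 < k) : (G L l0 N k).Connected := by
  let r0 : Fin k × (L → Fin N) := (⟨0, hk⟩, fun _ => ⟨0, hN⟩)
  have h0 : ∀ l, A L l0 N k l r0 := by
    intro l
    left
    simp [r0]
  have hl : ∀ l, (G L l0 N k).Reachable (.inl l) (.inr r0) := fun l =>
    SimpleGraph.Adj.reachable ((adj_lr L l0 N k l r0).2 (h0 l))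
  have hr : ∀ v, (G L l0 N k).Reachable v (.inr r0) := by
    rintro (l | r)
    · exact hl l
    · obtain ⟨l, h⟩ := exists_nbr L l0 N k r
      exact (SimpleGraph.Adj.reachable ((adj_rl L l0 N k l r).2 h)).trans (hl l)
  have : Nonempty (L ⊕ (Fin k × (L → Fin N))) := ⟨.inl l0⟩
  exact SimpleGraph.Connected.mk fun u v => (hr u).trans (hr v).symm

end graph

/-- The lower bound for the weight. -/
theorem weight {L : Type} [Fintype L] [DecidableEq L] (l0 : L) (N k : ℕ) (hk : 2 ^ k ≤ N)
    (f : L ⊕ (Fin k × (L → Fin N)) → ℕ)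
    (hf : ∀ v, f v = 0 → ∃! u, (G L l0 N k).Adj v u ∧ f u = 2) :
    Fintype.card L + k * N ^ Fintype.card L ≤
      (∑ v, f v) + (Fintype.card L + 2 * N ^ Fintype.card L + k * (N - 2) ^ Fintype.card L) := by
  classical
  set S : Finset L := Finset.univ.filter (fun l => f (.inl l) = 2) with hS
  -- right vertices with label zero
  have hzero : ∀ j : Fin k, (Finset.univ.filter (fun g : L → Fin N => f (.inr (j, g)) = 0)).card
      ≤ (Finset.univ.filter (fun g : L → Fin N => ∃ l ∈ S, (g l).val < 2 ^ (j.val + 1) ∧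
        ∀ l' ∈ S, l' ≠ l → ¬ (g l').val < 2 ^ (j.val + 1))).card
        + (N - 2) ^ Fintype.card L := by
    intro j
    have hj : 2 ^ (j.val + 1) ≤ N :=
      le_trans (Nat.pow_le_pow_right (by norm_num) j.isLt) hk
    have hsub : (Finset.univ.filter (fun g : L → Fin N => f (.inr (j, g)) = 0)) ⊆
        (Finset.univ.filter (fun g : L → Fin N => ∃ l ∈ S, (g l).val < 2 ^ (j.val + 1) ∧
          ∀ l' ∈ S, l' ≠ l → ¬ (g l').val < 2 ^ (j.val + 1))) ∪
        (Finset.univ.filter (fun g : L → Fin N => ∀ l, ¬ (g l).val < 2 ^ (j.val + 1))) := by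
      intro g hg
      rw [Finset.mem_filter] at hg
      rw [Finset.mem_union, Finset.mem_filter, Finset.mem_filter]
      by_cases hnone : ∀ l, ¬ (g l).val < 2 ^ (j.val + 1)
      · exact Or.inr ⟨Finset.mem_univ _, hnone⟩
      · left
        refine ⟨Finset.mem_univ _, ?_⟩
        obtain ⟨u, ⟨hu1, hu2⟩, huniq⟩ := hf _ hg.2
        have hAiff : ∀ l, A L l0 N k l (j, g) ↔ (g l).val < 2 ^ (j.val + 1) := by
          intro l
          constructor
          · rintro (h | h)
            · exact h
            · exact absurd h.2 hnone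
          · intro h
            exact Or.inl h
        rcases u with l | r
        · refine ⟨l, ?_, ?_, ?_⟩
          · rw [hS, Finset.mem_filter]
            exact ⟨Finset.mem_univ _, hu2⟩
          · exact (hAiff l).1 hu1
          · intro l' hl' hne hlt
            rw [hS, Finset.mem_filter] at hl'
            have := huniq (.inl l') ⟨(hAiff l').2 hlt, hl'.2⟩
            exact hne (Sum.inl.inj this)
        · exact absurd hu1 (fun h => h)
    refine le_trans (Finset.card_le_card hsub) (le_trans (Finset.card_union_le _ _) ?_)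
    rw [count_none N _ hj]
    have h2 : N - 2 ^ (j.val + 1) ≤ N - 2 := by
      have : 2 ^ 1 ≤ 2 ^ (j.val + 1) := Nat.pow_le_pow_right (by norm_num) (by omega)
      omega
    exact Nat.add_le_add_left (Nat.pow_le_pow_left h2 _) _
  -- lower bound for the sum over the right part
  have hsumR : ∀ j : Fin k, N ^ Fintype.card L ≤ (∑ g : L → Fin N, f (.inr (j, g)))
      + (Finset.univ.filter (fun g : L → Fin N => f (.inr (j, g)) = 0)).card := by
    intro j
    have h1 : (Finset.univ.filter (fun g : L → Fin N => ¬ f (.inr (j, g)) = 0)).card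
        ≤ ∑ g : L → Fin N, f (.inr (j, g)) := by
      rw [Finset.card_eq_sum_ones, Finset.sum_filter]
      apply Finset.sum_le_sum
      intro g _
      split_ifs with h <;> omega
    have h2 := Finset.card_filter_add_card_filter_not
      (s := (Finset.univ : Finset (L → Fin N))) (fun g => f (.inr (j, g)) = 0)
    have h3 : (Finset.univ : Finset (L → Fin N)).card = N ^ Fintype.card L := by
      simp
    omega
  have htot := total (L := L) N k hk S
  rw [Fintype.sum_sum_type, Fintype.sum_prod_type]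
  have hR : k * N ^ Fintype.card L ≤ (∑ j : Fin k, ∑ g : L → Fin N, f (.inr (j, g)))
      + (2 * N ^ Fintype.card L + k * (N - 2) ^ Fintype.card L) := by
    have h1 : ∑ _j : Fin k, N ^ Fintype.card L ≤ ∑ j : Fin k,
        ((∑ g : L → Fin N, f (.inr (j, g))) +
          ((Finset.univ.filter (fun g : L → Fin N => ∃ l ∈ S, (g l).val < 2 ^ (j.val + 1) ∧
        ∀ l' ∈ S, l' ≠ l → ¬ (g l').val < 2 ^ (j.val + 1))).card
        + (N - 2) ^ Fintype.card L)) := by
      apply Finset.sum_le_sum
      intro j _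
      exact le_trans (hsumR j) (Nat.add_le_add_left (hzero j) _)
    rw [Finset.sum_add_distrib, Finset.sum_add_distrib] at h1
    simp only [Finset.sum_const, Finset.card_univ, Fintype.card_fin, smul_eq_mul] at h1
    have h2 : ∑ j : Fin k, (Finset.univ.filter (fun g : L → Fin N =>
        ∃ l ∈ S, (g l).val < 2 ^ (j.val + 1) ∧
        ∀ l' ∈ S, l' ≠ l → ¬ (g l').val < 2 ^ (j.val + 1))).card
        = ∑ j ∈ Finset.range k, (Finset.univ.filter (fun g : L → Fin N =>
      ∃ l ∈ S, (g l).val < 2 ^ (j + 1) ∧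
        ∀ l' ∈ S, l' ≠ l → ¬ (g l').val < 2 ^ (j + 1))).card :=
      Fin.sum_univ_eq_sum_range (fun j => (Finset.univ.filter (fun g : L → Fin N =>
      ∃ l ∈ S, (g l).val < 2 ^ (j + 1) ∧
        ∀ l' ∈ S, l' ≠ l → ¬ (g l').val < 2 ^ (j + 1))).card) k
    rw [h2] at h1
    omega
  omega

theorem final_arith (m : ℕ) (M M' : ℕ) (h1 : 100 * M' ≤ M) (h2 : 4 * m < M)
    (w : ℕ) (hw : m + 12 * M ≤ w + (m + 2 * M + 12 * M')) : 4 * (m + 12 * M) < 5 * w := by
  omega

/-- The negation of the preceding statement: Every connected finite simple graph on n ≥ 3 vertices has a 0/1/2 labelling where each 0-vertex has exactly one neighbour labelled 2, with total label sum at most 4n/5. -/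
theorem result :
    ¬ (∀ (V : Type) [Fintype V] (G : SimpleGraph V),
      G.Connected → 3 ≤ Fintype.card V →
      ∃ f : V → ℕ, (∀ v, f v ≤ 2) ∧
        (∀ v, f v = 0 → ∃! u, G.Adj v u ∧ f u = 2) ∧
        5 * (∑ v, f v) ≤ 4 * Fintype.card V) := by
  intro H
  obtain ⟨m, hm⟩ : ∃ m : ℕ, m = 2 ^ 20 := ⟨_, rfl⟩
  have hm3 : 3 ≤ m := by rw [hm]; norm_num
  obtain ⟨f, -, hf, hw⟩ := H (Fin m ⊕ (Fin 12 × (Fin m → Fin 8192)))
    (G (Fin m) ⟨0, by omega⟩ 8192 12) (connected _ _ _ _ (by norm_num) (by norm_num))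
    (by
      rw [Fintype.card_sum, Fintype.card_fin]
      omega)
  have hwt := weight (L := Fin m) ⟨0, by omega⟩ 8192 12 (by norm_num) f hf
  rw [Fintype.card_fin] at hwt
  have hcard : Fintype.card (Fin m ⊕ (Fin 12 × (Fin m → Fin 8192))) = m + 12 * 8192 ^ m := by
    simp
  rw [hcard] at hw
  have h1 : 100 * (8192 - 2) ^ m ≤ 8192 ^ m := by
    obtain ⟨m', hm'⟩ : ∃ m', m = m' + 1 := ⟨m - 1, by omega⟩
    rw [hm']
    have hb := bern (8192 - 2) 2 m'
    have e : 8192 - 2 + 2 = 8192 := by norm_num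
    rw [e] at hb
    refine le_trans ?_ hb
    rw [pow_succ]
    have hm'' : m' + 1 = 2 ^ 20 := by omega
    rw [hm'']
    generalize (8192 - 2) ^ m' = x
    norm_num
    omega
  have h2 : 4 * m < 8192 ^ m := by
    have ha : m < 2 ^ m := Nat.lt_two_pow_self
    have hb : (2 : ℕ) ^ m * 2 ^ m ≤ 8192 ^ m := by
      rw [← mul_pow]
      exact Nat.pow_le_pow_left (by norm_num) m
    have hc : 4 ≤ 2 ^ m := by
      calc 4 = 2 ^ 2 := by norm_num
        _ ≤ 2 ^ m := Nat.pow_le_pow_right (by norm_num) (by omega)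
    nlinarith
  have := final_arith m (8192 ^ m) ((8192 - 2) ^ m) h1 h2 (∑ v, f v) hwt
  omega

end Pool.Agent.S2560
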