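-- Proof of the frozen statement S2572.
import Pool.Statements.S2572

set_option autoImplicit false
open Pool Pool.MP_abcac9_co

namespace Pool.Agent.S2572

open Relation

/-- A set `C` of vertices such that every vertex has at most one neighbour in `C`. -/
def Valid {V : Type} (nb : V → Fin 3 → V) (C : Finset V) : Prop :=
  ∀ u k k', nb u k ∈ C → nb u k' ∈ C → k = k'

/-- adjacency without the distinguished edge. -/
def Rel {V : Type} (nb : V → Fin 3 → V) (p l : V) (u v : V) : Prop :=
  (∃ k, nb u k = v) ∧ ¬ (u = p ∧ v = l) ∧ ¬ (u = l ∧ v = p)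

/-- A cubic graph given by its neighbour function, with a distinguished non-bridge edge. -/
structure Dat where
  V : Type
  fin : Fintype V
  dec : DecidableEq V
  nb : V → Fin 3 → V
  inj : ∀ u, Function.Injective (nb u)
  sym : ∀ u k, ∃ k', nb (nb u k) k' = u
  irr : ∀ u k, nb u k ≠ u
  p : V
  l : V
  hp : ∃ k, nb p k = l
  conn : ∀ v, ReflTransGen (Rel nb p l) p v
  bound : ∀ C : Finset V, Valid nb C → 5 * C.card + 4 ≤ Fintype.card V

/-! ### The Heawood graph -/

def hea (u : Fin 14) (k : Fin 3) : Fin 14 :=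
  if k = 0 then u + 1 else if k = 1 then u - 1 else
    if u.val % 2 = 0 then u + 5 else u - 5

theorem hea_common : ∀ a b : Fin 14, a ≠ b → a.val % 2 = b.val % 2 →
    ∃ v k k', hea v k = a ∧ hea v k' = b := by
  decide +kernel

theorem hea_bound (C : Finset (Fin 14)) (hC : Valid hea C) :
    5 * C.card + 4 ≤ Fintype.card (Fin 14) := by
  have h2 : C.card ≤ 2 := by
    by_contra hc
    have hmaps : ∀ a ∈ C, a.val % 2 ∈ Finset.range 2 := by
      intro a _
      exact Finset.mem_range.2 (Nat.mod_lt _ (by norm_num))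
    obtain ⟨a, ha, b, hb, hab, heq⟩ :=
      Finset.exists_ne_map_eq_of_card_lt_of_maps_to (by rw [Finset.card_range]; omega) hmaps
    obtain ⟨v, k, k', h1, h2⟩ := hea_common a b hab heq
    have := hC v k k' (h1 ▸ ha) (h2 ▸ hb)
    subst this
    exact hab (h1.symm.trans h2)
  rw [Fintype.card_fin]
  omega

theorem hea_step : ∀ a : Fin 12, Rel hea 1 0 ((⟨a.val, by omega⟩ : Fin 14) + 1)
    ((⟨a.val + 1, by omega⟩ : Fin 14) + 1) := by
  unfold Rel
  decide

theorem hea_succ : ∀ j : Fin 13, j.succ = (⟨j.val, by omega⟩ : Fin 14) + 1 := by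
  decide

theorem hea_conn (v : Fin 14) : ReflTransGen (Rel hea 1 0) 1 v := by
  have step : ∀ n : ℕ, ∀ hn : n < 13, ReflTransGen (Rel hea 1 0) 1 (⟨n, by omega⟩ + 1) := by
    intro n
    induction n with
    | zero => intro _; exact ReflTransGen.refl
    | succ n ih =>
      intro hn
      refine (ih (by omega)).tail ?_
      exact hea_step ⟨n, by omega⟩
  have hlast : ReflTransGen (Rel hea 1 0) 1 0 := by
    refine (step 12 (by norm_num)).tail ?_
    unfold Rel
    decide
  rcases Fin.eq_zero_or_eq_succ v with h | ⟨j, rfl⟩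
  · rw [h]; exact hlast
  · rw [hea_succ]
    exact step j.val j.2

def heaD : Dat where
  V := Fin 14
  fin := inferInstance
  dec := inferInstance
  nb := hea
  inj := by unfold Function.Injective; decide
  sym := by decide
  irr := by decide
  p := 1
  l := 0
  hp := by decide
  conn := hea_conn
  bound := hea_bound

/-! ### The tripling construction -/

section Triple

variable {V : Type} [Fintype V] [DecidableEq V] (nb : V → Fin 3 → V) (p l : V)

/-- neighbours in the new graph: three copies of the graph without the edge `p l`, a new vertex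
`inr true` joined to the three copies of `l` and a new vertex `inr false` joined to the three
copies of `p`. -/
def nb' : (Fin 3 × V) ⊕ Bool → Fin 3 → (Fin 3 × V) ⊕ Bool
  | Sum.inl (i, u), k =>
      if u = p ∧ nb u k = l then Sum.inr false
      else if u = l ∧ nb u k = p then Sum.inr true
      else Sum.inl (i, nb u k)
  | Sum.inr true, k => Sum.inl (k, l)
  | Sum.inr false, k => Sum.inl (k, p)

variable {nb p l}

theorem nb'_eq {i : Fin 3} {u : V} {k : Fin 3} (h1 : ¬ (u = p ∧ nb u k = l))
    (h2 : ¬ (u = l ∧ nb u k = p)) : nb' nb p l (Sum.inl (i, u)) k = Sum.inl (i, nb u k) := by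
  simp only [nb', if_neg h1, if_neg h2]

theorem nb'_p {i : Fin 3} {k : Fin 3} (h : nb p k = l) :
    nb' nb p l (Sum.inl (i, p)) k = Sum.inr false := by
  simp only [nb', h, and_self, if_true]

theorem nb'_l {i : Fin 3} {k : Fin 3} (hpl : l ≠ p) (h : nb l k = p) :
    nb' nb p l (Sum.inl (i, l)) k = Sum.inr true := by
  have : ¬ (l = p ∧ nb l k = l) := fun h' => hpl h'.1
  show (if l = p ∧ nb l k = l then (Sum.inr false : (Fin 3 × V) ⊕ Bool)
      else if l = l ∧ nb l k = p then Sum.inr true else Sum.inl (i, nb l k)) = Sum.inr true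
  rw [if_neg this, if_pos ⟨rfl, h⟩]

theorem inj' (inj : ∀ u, Function.Injective (nb u)) (u : (Fin 3 × V) ⊕ Bool) :
    Function.Injective (nb' nb p l u) := by
  intro k k' h
  rcases u with ⟨i, u⟩ | b
  · by_cases h1 : u = p ∧ nb u k = l
    · by_cases h2 : u = p ∧ nb u k' = l
      · exact inj u (h1.2.trans h2.2.symm)
      · exfalso
        simp only [nb', if_pos h1, if_neg h2] at h
        split_ifs at h <;> simp at h
    · by_cases h2 : u = p ∧ nb u k' = l
      · exfalso
        simp only [nb', if_neg h1, if_pos h2] at h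
        split_ifs at h <;> simp at h
      · by_cases h3 : u = l ∧ nb u k = p
        · by_cases h4 : u = l ∧ nb u k' = p
          · exact inj u (h3.2.trans h4.2.symm)
          · exfalso
            simp only [nb', if_neg h1, if_neg h2, if_pos h3, if_neg h4] at h
            simp at h
        · by_cases h4 : u = l ∧ nb u k' = p
          · exfalso
            simp only [nb', if_neg h1, if_neg h2, if_neg h3, if_pos h4] at h
            simp at h
          · simp only [nb', if_neg h1, if_neg h2, if_neg h3, if_neg h4] at h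
            exact inj u (Prod.ext_iff.1 (Sum.inl_injective h)).2
  · cases b <;> simpa [nb'] using h

theorem sym' (sym : ∀ u k, ∃ k', nb (nb u k) k' = u) (irr : ∀ u k, nb u k ≠ u)
    (hp : ∃ k, nb p k = l) (u : (Fin 3 × V) ⊕ Bool) (k : Fin 3) :
    ∃ k', nb' nb p l (nb' nb p l u k) k' = u := by
  have hl : ∃ k, nb l k = p := by
    obtain ⟨k, rfl⟩ := hp
    exact sym p k
  have hpl : l ≠ p := by
    obtain ⟨k, rfl⟩ := hp
    exact irr p k
  rcases u with ⟨i, u⟩ | b
  · by_cases h1 : u = p ∧ nb u k = l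
    · obtain ⟨rfl, h1⟩ := h1
      exact ⟨i, by rw [nb'_p h1]; rfl⟩
    · by_cases h2 : u = l ∧ nb u k = p
      · obtain ⟨rfl, h2⟩ := h2
        exact ⟨i, by rw [nb'_l hpl h2]; rfl⟩
      · rw [nb'_eq h1 h2]
        obtain ⟨k', hk'⟩ := sym u k
        refine ⟨k', ?_⟩
        rw [nb'_eq, hk']
        · rw [hk']; exact fun h => h2 ⟨h.2, h.1⟩
        · rw [hk']; exact fun h => h1 ⟨h.2, h.1⟩
  · cases b
    · obtain ⟨k', hk'⟩ := hp
      exact ⟨k', nb'_p hk'⟩
    · obtain ⟨k', hk'⟩ := hl
      exact ⟨k', nb'_l hpl hk'⟩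

theorem irr' (irr : ∀ u k, nb u k ≠ u) (u : (Fin 3 × V) ⊕ Bool) (k : Fin 3) :
    nb' nb p l u k ≠ u := by
  rcases u with ⟨i, u⟩ | b
  · simp only [nb']
    split_ifs
    · simp
    · simp
    · intro h
      exact irr u k (by simpa using h)
  · cases b <;> simp [nb']

theorem rel_symm {W : Type} {nb : W → Fin 3 → W} {p l : W}
    (sym : ∀ u k, ∃ k', nb (nb u k) k' = u) (u v : W) (h : Rel nb p l u v) : Rel nb p l v u := by
  obtain ⟨⟨k, rfl⟩, h1, h2⟩ := h
  exact ⟨sym u k, fun h => h2 ⟨h.2, h.1⟩, fun h => h1 ⟨h.2, h.1⟩⟩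

theorem rtg_symm {W : Type} {r : W → W → Prop} (hr : ∀ u v, r u v → r v u) {a b : W}
    (h : ReflTransGen r a b) : ReflTransGen r b a := by
  induction h with
  | refl => exact ReflTransGen.refl
  | tail _ h2 ih => exact ReflTransGen.head (hr _ _ h2) ih

theorem rtg_lift {W W' : Type} {r : W → W → Prop} {r' : W' → W' → Prop} (f : W → W')
    (hr : ∀ u v, r u v → r' (f u) (f v)) {a b : W}
    (h : ReflTransGen r a b) : ReflTransGen r' (f a) (f b) := by
  induction h with
  | refl => exact ReflTransGen.refl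
  | tail _ h2 ih => exact ReflTransGen.tail ih (hr _ _ h2)

theorem conn' (sym : ∀ u k, ∃ k', nb (nb u k) k' = u) (irr : ∀ u k, nb u k ≠ u)
    (hp : ∃ k, nb p k = l) (conn : ∀ v, ReflTransGen (Rel nb p l) p v)
    (x : (Fin 3 × V) ⊕ Bool) :
    ReflTransGen (Rel (nb' nb p l) (Sum.inr true) (Sum.inl (0, l))) (Sum.inr true) x := by
  have hpl : l ≠ p := by
    obtain ⟨k, rfl⟩ := hp
    exact irr p k
  have lift : ∀ i u v, ReflTransGen (Rel nb p l) u v →
      ReflTransGen (Rel (nb' nb p l) (Sum.inr true) (Sum.inl (0, l))) (Sum.inl (i, u))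
        (Sum.inl (i, v)) := by
    intro i u v h
    refine rtg_lift (fun w => (Sum.inl (i, w) : (Fin 3 × V) ⊕ Bool)) ?_ h
    rintro a b ⟨⟨k, rfl⟩, h1, h2⟩
    refine ⟨⟨k, nb'_eq h1 h2⟩, ?_, ?_⟩ <;> simp
  have s1 : ReflTransGen (Rel (nb' nb p l) (Sum.inr true) (Sum.inl (0, l))) (Sum.inr true)
      (Sum.inl (1, p)) := by
    refine (ReflTransGen.single ?_).trans (lift 1 l p (rtg_symm (rel_symm sym) (conn l)))
    refine ⟨⟨1, rfl⟩, ?_, ?_⟩ <;> simp
  have s2 : ReflTransGen (Rel (nb' nb p l) (Sum.inr true) (Sum.inl (0, l))) (Sum.inr true)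
      (Sum.inr false) := by
    refine s1.tail ?_
    obtain ⟨k, hk⟩ := hp
    refine ⟨⟨k, nb'_p hk⟩, ?_, ?_⟩ <;> simp
  rcases x with ⟨i, u⟩ | b
  · refine (s2.tail ?_).trans (lift i p u (conn u))
    refine ⟨⟨i, rfl⟩, ?_, ?_⟩
    · simp
    · simp
  · cases b
    · exact s2
    · exact ReflTransGen.refl

theorem bound' (inj : ∀ u, Function.Injective (nb u)) (sym : ∀ u k, ∃ k', nb (nb u k) k' = u)
    (irr : ∀ u k, nb u k ≠ u) (hp : ∃ k, nb p k = l)
    (bound : ∀ C : Finset V, Valid nb C → 5 * C.card + 4 ≤ Fintype.card V)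
    (C : Finset ((Fin 3 × V) ⊕ Bool)) (hC : Valid (nb' nb p l) C) :
    5 * C.card + 4 ≤ Fintype.card ((Fin 3 × V) ⊕ Bool) := by
  classical
  have hl : ∃ k, nb l k = p := by
    obtain ⟨k, rfl⟩ := hp
    exact sym p k
  have hpl : l ≠ p := by
    obtain ⟨k, rfl⟩ := hp
    exact irr p k
  obtain ⟨kp, hkp⟩ := hp
  obtain ⟨kl, hkl⟩ := hl
  let D : Fin 3 → Finset V := fun i => Finset.univ.filter (fun v => Sum.inl (i, v) ∈ C)
  let A : Fin 3 → Prop := fun i => Sum.inl (i, p) ∈ C ∧ ∃ k, nb l k ≠ p ∧ Sum.inl (i, nb l k) ∈ C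
  let B : Fin 3 → Prop := fun i => Sum.inl (i, l) ∈ C ∧ ∃ k, nb p k ≠ l ∧ Sum.inl (i, nb p k) ∈ C
  have memD : ∀ i v, v ∈ D i ↔ Sum.inl (i, v) ∈ C := by
    intro i v; simp [D]
  -- the total count
  have hcard : C.card = (∑ i : Fin 3, (D i).card) + ((if Sum.inr true ∈ C then 1 else 0)
      + (if Sum.inr false ∈ C then 1 else 0)) := by
    have h1 : C.card = ∑ x : (Fin 3 × V) ⊕ Bool, if x ∈ C then 1 else 0 := by
      rw [← Finset.card_filter]
      congr 1
      ext x; simp
    rw [h1, Fintype.sum_sum_type, Fintype.sum_prod_type, Fintype.sum_bool]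
    congr 1
    apply Finset.sum_congr rfl
    intro i _
    rw [Finset.card_filter]
  -- the reduced sets
  let E : Fin 3 → Finset V := fun i =>
    (D i).filter (fun v => ¬ (v = p ∧ A i) ∧ ¬ (v = l ∧ B i))
  have memE : ∀ i v, v ∈ E i ↔ Sum.inl (i, v) ∈ C ∧ ¬ (v = p ∧ A i) ∧ ¬ (v = l ∧ B i) := by
    intro i v; simp [E, memD]
  have hE : ∀ i, (D i).card ≤ (E i).card + ((if A i then 1 else 0) + (if B i then 1 else 0)) := by
    intro i
    have hsub : D i ⊆ E i ∪ ((if A i then {p} else ∅) ∪ (if B i then {l} else ∅)) := by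
      intro v hv
      rw [Finset.mem_union, Finset.mem_union]
      by_cases h1 : v = p ∧ A i
      · right; left; rw [if_pos h1.2]; exact Finset.mem_singleton.2 h1.1
      · by_cases h2 : v = l ∧ B i
        · right; right; rw [if_pos h2.2]; exact Finset.mem_singleton.2 h2.1
        · left; rw [memE]; exact ⟨(memD i v).1 hv, h1, h2⟩
    refine (Finset.card_le_card hsub).trans ((Finset.card_union_le _ _).trans ?_)
    refine Nat.add_le_add_left ((Finset.card_union_le _ _).trans ?_) _
    apply Nat.add_le_add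
    · split_ifs <;> simp
    · split_ifs <;> simp
  have hvalid : ∀ i, Valid nb (E i) := by
    intro i u k k' hk hk'
    have hk2 := (memE i _).1 hk
    have hk2' := (memE i _).1 hk'
    by_cases hup : u = p
    · subst hup
      by_cases h1 : nb u k = l
      · by_cases h2 : nb u k' = l
        · exact inj u (h1.trans h2.symm)
        · exfalso
          exact hk2.2.2 ⟨h1, h1 ▸ hk2.1, k', h2, hk2'.1⟩
      · by_cases h2 : nb u k' = l
        · exfalso
          exact hk2'.2.2 ⟨h2, h2 ▸ hk2'.1, k, h1, hk2.1⟩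
        · refine hC (Sum.inl (i, u)) k k' ?_ ?_
          · rw [nb'_eq (fun h => h1 h.2) (fun h => hpl h.1.symm)]; exact hk2.1
          · rw [nb'_eq (fun h => h2 h.2) (fun h => hpl h.1.symm)]; exact hk2'.1
    · by_cases hul : u = l
      · subst hul
        by_cases h1 : nb u k = p
        · by_cases h2 : nb u k' = p
          · exact inj u (h1.trans h2.symm)
          · exfalso
            exact hk2.2.1 ⟨h1, h1 ▸ hk2.1, k', h2, hk2'.1⟩
        · by_cases h2 : nb u k' = p
          · exfalso
            exact hk2'.2.1 ⟨h2, h2 ▸ hk2'.1, k, h1, hk2.1⟩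
          · refine hC (Sum.inl (i, u)) k k' ?_ ?_
            · rw [nb'_eq (fun h => hpl h.1) (fun h => h1 h.2)]; exact hk2.1
            · rw [nb'_eq (fun h => hpl h.1) (fun h => h2 h.2)]; exact hk2'.1
      · refine hC (Sum.inl (i, u)) k k' ?_ ?_
        · rw [nb'_eq (fun h => hup h.1) (fun h => hul h.1)]; exact hk2.1
        · rw [nb'_eq (fun h => hup h.1) (fun h => hul h.1)]; exact hk2'.1
  -- at most one of the events
  have hAA : ∀ i j, A i → A j → i = j := by
    intro i j hi hj
    exact hC (Sum.inr false) i j hi.1 hj.1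
  have hBB : ∀ i j, B i → B j → i = j := by
    intro i j hi hj
    exact hC (Sum.inr true) i j hi.1 hj.1
  have hAc : ∀ i, A i → Sum.inr true ∉ C := by
    rintro i ⟨_, k, hk, hk2⟩ hc
    have := hC (Sum.inl (i, l)) k kl
      (by rw [nb'_eq (fun h => hpl h.1) (fun h => hk h.2)]; exact hk2)
      (by rw [nb'_l hpl hkl]; exact hc)
    subst this
    exact hk hkl
  have hBm : ∀ i, B i → Sum.inr false ∉ C := by
    rintro i ⟨_, k, hk, hk2⟩ hc
    have := hC (Sum.inl (i, p)) k kp
      (by rw [nb'_eq (fun h => hk h.2) (fun h => hpl h.1.symm)]; exact hk2)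
      (by rw [nb'_p hkp]; exact hc)
    subst this
    exact hk hkp
  have key : ∀ (a b c d : Prop) [Decidable a] [Decidable b] [Decidable c] [Decidable d], (a → b → False) → (a → c → False) → (b → c → False) →
      (a → ¬ d) → (b → ¬ d) → (c → ¬ d) →
      (if a then 1 else 0) + (if b then 1 else 0) + (if c then 1 else 0) + (if d then 1 else 0)
        ≤ 1 := by
    intro a b c d _ _ _ _ h1 h2 h3 h4 h5 h6
    split_ifs <;> first | omega | (exfalso; tauto)
  have hA : (if A 0 then 1 else 0) + (if A 1 then 1 else 0) + (if A 2 then 1 else 0)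
      + (if Sum.inr true ∈ C then 1 else 0) ≤ 1 :=
    key _ _ _ _ (fun h h' => absurd (hAA 0 1 h h') (by decide))
      (fun h h' => absurd (hAA 0 2 h h') (by decide))
      (fun h h' => absurd (hAA 1 2 h h') (by decide)) (hAc 0) (hAc 1) (hAc 2)
  have hB : (if B 0 then 1 else 0) + (if B 1 then 1 else 0) + (if B 2 then 1 else 0)
      + (if Sum.inr false ∈ C then 1 else 0) ≤ 1 :=
    key _ _ _ _ (fun h h' => absurd (hBB 0 1 h h') (by decide))
      (fun h h' => absurd (hBB 0 2 h h') (by decide))
      (fun h h' => absurd (hBB 1 2 h h') (by decide)) (hBm 0) (hBm 1) (hBm 2)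
  have b0 := bound _ (hvalid 0)
  have b1 := bound _ (hvalid 1)
  have b2 := bound _ (hvalid 2)
  have e0 := hE 0
  have e1 := hE 1
  have e2 := hE 2
  rw [Fin.sum_univ_three] at hcard
  have hcV : Fintype.card ((Fin 3 × V) ⊕ Bool) = 3 * Fintype.card V + 2 := by
    rw [Fintype.card_sum, Fintype.card_prod, Fintype.card_fin, Fintype.card_bool]
  rw [hcV]
  omega

end Triple

def triple (D : Dat) : Dat :=
  letI := D.fin
  letI := D.dec
  { V := (Fin 3 × D.V) ⊕ Bool
    fin := inferInstance
    dec := inferInstance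
    nb := nb' D.nb D.p D.l
    inj := inj' D.inj
    sym := sym' D.sym D.irr D.hp
    irr := irr' D.irr
    p := Sum.inr true
    l := Sum.inl (0, D.l)
    hp := ⟨0, rfl⟩
    conn := conn' D.sym D.irr D.hp D.conn
    bound := bound' D.inj D.sym D.irr D.hp D.bound }

theorem exists_large (N : ℕ) : ∃ D : Dat, N ≤ @Fintype.card D.V D.fin := by
  induction N with
  | zero => exact ⟨heaD, Nat.zero_le _⟩
  | succ N ih =>
    obtain ⟨D, hD⟩ := ih
    refine ⟨triple D, ?_⟩
    letI := D.fin
    have : @Fintype.card (triple D).V (triple D).fin = 3 * Fintype.card D.V + 2 := by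
      show Fintype.card ((Fin 3 × D.V) ⊕ Bool) = _
      rw [Fintype.card_sum, Fintype.card_prod, Fintype.card_fin, Fintype.card_bool]
    rw [this]
    omega

/-- The negation of the preceding statement: For some N, every connected finite graph on n ≥ N vertices with minimum degree at least 3 has a vertex set S of size at most 4n/5 such that every vertex has at least two neighbours in S. -/
theorem result :
    ¬ (∃ N : ℕ, ∀ (V : Type) [Fintype V] [DecidableEq V] (G : SimpleGraph V) [DecidableRel G.Adj],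
      N ≤ Fintype.card V → G.Connected → (∀ v : V, 3 ≤ G.degree v) →
        ∃ S : Finset V, (∀ v : V, 2 ≤ (S.filter (fun u => G.Adj v u)).card) ∧
          5 * S.card ≤ 4 * Fintype.card V) := by
  rintro ⟨N, hN⟩
  obtain ⟨D, hD⟩ := exists_large N
  letI := D.fin
  letI := D.dec
  let G : SimpleGraph D.V :=
    { Adj := fun u v => ∃ k, D.nb u k = v
      symm := ⟨by
        rintro u v ⟨k, rfl⟩
        exact D.sym u k⟩
      loopless := ⟨fun u ⟨k, hk⟩ => D.irr u k hk⟩ }
  letI : DecidableRel G.Adj := fun u v => inferInstanceAs (Decidable (∃ k, D.nb u k = v))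
  have hconn : G.Connected := by
    have h1 : ∀ v, G.Reachable D.p v := by
      intro v
      rw [SimpleGraph.reachable_iff_reflTransGen]
      exact rtg_lift id (fun a b h => h.1) (D.conn v)
    haveI : Nonempty D.V := ⟨D.p⟩
    exact ⟨fun u v => (h1 u).symm.trans (h1 v)⟩
  have hdeg : ∀ v : D.V, 3 ≤ G.degree v := by
    intro v
    have h1 : (Finset.univ.image (D.nb v)).card = 3 := by
      rw [Finset.card_image_of_injective _ (D.inj v)]; rfl
    rw [← h1, ← SimpleGraph.card_neighborFinset_eq_degree]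
    apply Finset.card_le_card
    intro w hw
    rw [SimpleGraph.mem_neighborFinset]
    obtain ⟨k, _, hk⟩ := Finset.mem_image.1 hw
    exact ⟨k, hk⟩
  obtain ⟨S, hS, hcard⟩ := hN D.V G hD hconn hdeg
  have hval : Valid D.nb Sᶜ := by
    intro u k k' hk hk'
    by_contra hne
    have h2 := hS u
    have hsub : S.filter (fun w => G.Adj u w) ⊆
        ((Finset.univ.erase k).erase k').image (D.nb u) := by
      intro w hw
      obtain ⟨hwS, j, hj⟩ := Finset.mem_filter.1 hw
      rw [Finset.mem_image]
      refine ⟨j, ?_, hj⟩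
      rw [Finset.mem_erase, Finset.mem_erase]
      refine ⟨?_, ?_, Finset.mem_univ _⟩
      · rintro rfl
        exact (Finset.mem_compl.1 hk') (hj ▸ hwS)
      · rintro rfl
        exact (Finset.mem_compl.1 hk) (hj ▸ hwS)
    have h3 := Finset.card_le_card hsub
    have h4 : (((Finset.univ.erase k).erase k').image (D.nb u)).card ≤ 1 := by
      refine Finset.card_image_le.trans ?_
      rw [Finset.card_erase_of_mem (Finset.mem_erase.2 ⟨fun h => hne h.symm, Finset.mem_univ _⟩),
        Finset.card_erase_of_mem (Finset.mem_univ _)]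
      simp
    omega
  have hb := D.bound _ hval
  rw [Finset.card_compl] at hb
  have := Finset.card_le_univ S
  omega

end Pool.Agent.S2572
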