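import Pool.Statements.S2586

set_option autoImplicit false
open Pool Pool.MP_ad5ca6_co

namespace Pool.Agent.S2586

/-- The arcs of the lexicographic product of the directed 4-cycle with the transitive tournament on
5 vertices: the vertex `i : Fin 20` lies in the class `i / 5` and has position `i % 5` in it. -/
def arc (i j : Fin 20) : Bool :=
  (decide (i.val / 5 = j.val / 5) && decide (i.val % 5 < j.val % 5)) ||
    decide ((i.val / 5 + 1) % 4 = j.val / 5)

theorem no2 : ∀ a b : Fin 20, ¬ (arc a b = true ∧ arc b a = true) := by decide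

set_option maxRecDepth 100000 in
theorem no3 : ∀ a b : Fin 20, arc a b = true → ∀ c : Fin 20,
    ¬ (arc b c = true ∧ arc c a = true) := by
  decide +kernel

theorem irrefl : ∀ a : Fin 20, arc a a = false := by decide

/-- The adjacency matrix. -/
def adj : Matrix (Fin 20) (Fin 20) ℂ := fun i j => if arc i j then 1 else 0

theorem adj_eq_one {i j : Fin 20} (h : adj i j = 1) : arc i j = true := by
  unfold adj at h
  split_ifs at h with h'
  · exact h'
  · exact absurd h (by norm_num)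

theorem exists_root : ∃ t : ℝ, 1 < t ∧ t ≤ 23 / 20 ∧ t ^ 5 = 2 := by
  have hc : ContinuousOn (fun t : ℝ => t ^ 5) (Set.Icc 1 (23 / 20)) := by fun_prop
  have h := intermediate_value_Icc (by norm_num : (1 : ℝ) ≤ 23 / 20) hc
  have hm : (2 : ℝ) ∈ Set.Icc ((1 : ℝ) ^ 5) ((23 / 20 : ℝ) ^ 5) := by
    constructor <;> norm_num
  obtain ⟨t, ht, hte⟩ := h hm
  refine ⟨t, ?_, ht.2, hte⟩
  rcases lt_or_eq_of_le ht.1 with h1 | h1
  · exact h1
  · exfalso
    rw [← h1] at hte
    norm_num at hte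

/-- The Perron vector. -/
def vec (t : ℂ) : Fin 20 → ℂ := fun i => t ^ (4 - i.val % 5)

theorem mulVec_vec (t : ℂ) (ht : t ^ 5 = 2) :
    (t - 1) • (adj.mulVec (vec t)) = vec t := by
  funext i
  have h1 : adj.mulVec (vec t) i = ∑ j : Fin 20, adj i j * vec t j := rfl
  rw [Pi.smul_apply, h1, smul_eq_mul]
  fin_cases i <;>
    simp [Fin.sum_univ_succ, adj, arc, vec, Fin.ext_iff] <;>
    linear_combination ht

theorem result :
    ¬ (∀ (n k : ℕ), 0 < k →
      ∀ (A : Matrix (Fin n) (Fin n) ℂ),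
        (∀ i j, A i j = 0 ∨ A i j = 1) →
        (∀ i, A i i = 0) →
        (∃ μ ∈ spectrum ℂ A, (n : ℝ) / (k : ℝ) ≤ ‖μ‖) →
        ∃ m : ℕ, 2 ≤ m ∧ m ≤ k ∧
          ∃ v : Fin m → Fin n, Function.Injective v ∧
            ∀ i : Fin m, A (v i) (v (finRotate m i)) = 1) := by
  intro H
  obtain ⟨t, ht1, ht2, ht5⟩ := exists_root
  have hne : (t : ℂ) - 1 ≠ 0 := by
    intro h
    have : (t : ℂ) = ((1 : ℝ) : ℂ) := by
      rw [sub_eq_zero] at h; simpa using h
    have := Complex.ofReal_injective this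
    linarith
  have hspec : ((t : ℂ) - 1)⁻¹ ∈ spectrum ℂ adj := by
    rw [spectrum.mem_iff]
    intro hu
    have hz : (algebraMap ℂ (Matrix (Fin 20) (Fin 20) ℂ) ((t : ℂ) - 1)⁻¹ - adj).mulVec (vec t) = 0 := by
      rw [Matrix.sub_mulVec, Algebra.algebraMap_eq_smul_one, Matrix.smul_mulVec, Matrix.one_mulVec]
      have h5 : (t : ℂ) ^ 5 = 2 := by exact_mod_cast ht5
      have := mulVec_vec (t : ℂ) h5
      rw [sub_eq_zero]
      conv_lhs => rw [← this]
      rw [smul_smul, inv_mul_cancel₀ hne, one_smul]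
    have hinj := Matrix.mulVec_injective_of_isUnit hu
    have h0 : vec t = 0 := by
      apply hinj
      simp only [hz, Matrix.mulVec_zero]
    have h4 : vec (t : ℂ) 4 = 1 := by simp [vec]
    rw [h0] at h4
    simp at h4
  have hnorm : ((20 : ℕ) : ℝ) / ((3 : ℕ) : ℝ) ≤ ‖((t : ℂ) - 1)⁻¹‖ := by
    have h1 : ((t : ℂ) - 1) = ((t - 1 : ℝ) : ℂ) := by push_cast; ring
    rw [norm_inv, h1, Complex.norm_real, Real.norm_eq_abs, abs_of_pos (by linarith)]
    rw [div_le_iff₀ (by norm_num), inv_mul_eq_div, le_div_iff₀ (by linarith)]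
    push_cast
    linarith
  obtain ⟨m, hm2, hm3, v, hinj, hv⟩ := H 20 3 (by norm_num) adj
    (by intro i j; unfold adj; split_ifs <;> simp)
    (by intro i; unfold adj; rw [irrefl i]; simp)
    ⟨_, hspec, hnorm⟩
  interval_cases m
  · have h0 := adj_eq_one (hv 0)
    have h1 := adj_eq_one (hv 1)
    have e0 : finRotate 2 0 = 1 := by decide
    have e1 : finRotate 2 1 = 0 := by decide
    rw [e0] at h0
    rw [e1] at h1
    exact no2 _ _ ⟨h0, h1⟩
  · have h0 := adj_eq_one (hv 0)
    have h1 := adj_eq_one (hv 1)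
    have h2 := adj_eq_one (hv 2)
    have e0 : finRotate 3 0 = 1 := by decide
    have e1 : finRotate 3 1 = 2 := by decide
    have e2 : finRotate 3 2 = 0 := by decide
    rw [e0] at h0
    rw [e1] at h1
    rw [e2] at h2
    exact no3 _ _ h0 _ ⟨h1, h2⟩

end Pool.Agent.S2586
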