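import Pool.Statements.S2595
import Pool.Agent.H24.BFa

set_option autoImplicit false
open Pool Pool.MP_b0e7a9_co

namespace Pool.Agent.S2595

lemma exists_weights {E ι : Type*} [NormedAddCommGroup E] [InnerProductSpace ℝ E] [Fintype ι]
    (p : ι → E) (x : E) (hx : x ∈ convexHull ℝ (Set.range p)) :
    ∃ w : ι → ℝ, (∀ i, 0 ≤ w i) ∧ ∑ i, w i = 1 ∧ ∑ i, w i • p i = x := by
  classical
  let C : Set E := {x | ∃ w : ι → ℝ, (∀ i, 0 ≤ w i) ∧ ∑ i, w i = 1 ∧ ∑ i, w i • p i = x}
  have hC : Convex ℝ C := by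
    rintro a ⟨w, hw0, hw1, rfl⟩ b ⟨w', hw0', hw1', rfl⟩ s t hs ht hst
    refine ⟨fun i => s * w i + t * w' i, fun i => ?_, ?_, ?_⟩
    · have := hw0 i; have := hw0' i; positivity
    · rw [Finset.sum_add_distrib, ← Finset.mul_sum, ← Finset.mul_sum, hw1, hw1', mul_one, mul_one, hst]
    · simp only [add_smul, mul_smul, Finset.sum_add_distrib, ← Finset.smul_sum]
  have hsub : Set.range p ⊆ C := by
    rintro _ ⟨i, rfl⟩
    refine ⟨fun j => if j = i then 1 else 0, fun j => ?_, ?_, ?_⟩
    · change (0:ℝ) ≤ if j = i then 1 else 0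
      split_ifs <;> norm_num
    · simp
    · simp
  exact convexHull_min hsub hC hx

/-- For a nondegenerate d-simplex with vertices in the closed unit ball, 0 ≤ k < d, and x in the simplex: if the open ball of radius ρ at x misses every k-face, then ρ ≤ sqrt((d-k)/(d(k+1))). -/
theorem result :
    ∀ (d k : ℕ), 0 < d → k < d →
    ∀ (p : Fin (d + 1) → EuclideanSpace ℝ (Fin d)), AffineIndependent ℝ p →
    (∀ i, ‖p i‖ ≤ 1) →
    ∀ (x : EuclideanSpace ℝ (Fin d)), x ∈ convexHull ℝ (Set.range p) →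
    ∀ ρ : ℝ,
      Disjoint (Metric.ball x ρ)
        (⋃ (s : Finset (Fin (d + 1))) (_ : s.card = k + 1), convexHull ℝ (p '' (s : Set (Fin (d + 1))))) →
      ρ ≤ Real.sqrt (((d : ℝ) - (k : ℝ)) / ((d : ℝ) * ((k : ℝ) + 1))) := by
  intro d k hd hkd p _ hp x hx ρ hdisj
  obtain ⟨w, hw0, hw1, hwx⟩ := exists_weights p x hx
  set s : Finset (Fin (d+1)) := Finset.univ.filter (fun i => 0 < w i) with hs
  have hzero : ∀ i, i ∉ s → w i = 0 := by
    intro i hi
    simp only [hs, Finset.mem_filter, Finset.mem_univ, true_and, not_lt] at hi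
    exact le_antisymm hi (hw0 i)
  have hpos : ∀ i ∈ s, 0 < w i := by
    intro i hi
    simpa [hs] using hi
  have hsum : ∑ i ∈ s, w i = 1 := by
    rw [← hw1]
    apply Finset.sum_subset (Finset.subset_univ _)
    intro i _ hi
    exact hzero i hi
  have hsx : ∑ i ∈ s, w i • p i = x := by
    rw [← hwx]
    apply Finset.sum_subset (Finset.subset_univ _)
    intro i _ hi
    rw [hzero i hi, zero_smul]
  by_contra hρ
  push Not at hρ
  have hkey : ∃ t : Finset (Fin (d+1)), t.card = k + 1 ∧ ∃ z ∈ convexHull ℝ (p '' (t : Set (Fin (d+1)))),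
      ‖z - x‖ ^ 2 ≤ ((d : ℝ) - (k : ℝ)) / ((d : ℝ) * ((k : ℝ) + 1)) := by
    have hd' : (0:ℝ) < d := by exact_mod_cast hd
    have hk0 : (0:ℝ) ≤ k := Nat.cast_nonneg k
    have hkd' : (k:ℝ) < d := by exact_mod_cast hkd
    by_cases hc : k + 1 ≤ s.card
    · obtain ⟨t, _, htc, z, hz, hle⟩ := Pool.Agent.H24.BF.main k p s.card hc s rfl w hpos hsum x
      refine ⟨t, htc, z, hz, ?_⟩
      rw [hsx, sub_self, norm_zero] at hle
      have hV : ∑ i ∈ s, w i * ‖p i - x‖ ^ 2 ≤ 1 := by
        have h1 : ∑ i ∈ s, w i * ‖p i - x‖ ^ 2 = ∑ i ∈ s, w i * ‖p i‖ ^ 2 - ‖x‖ ^ 2 := by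
          have h2 : ∀ i ∈ s, w i * ‖p i - x‖ ^ 2 = w i * ‖p i‖ ^ 2 - 2 * inner ℝ (w i • p i) x + w i * ‖x‖ ^ 2 := by
            intro i _
            rw [norm_sub_sq_real, inner_smul_left]
            simp only [conj_trivial]
            ring
          rw [Finset.sum_congr rfl h2, Finset.sum_add_distrib, Finset.sum_sub_distrib, ← Finset.mul_sum,
            ← sum_inner, hsx, ← Finset.sum_mul, hsum, real_inner_self_eq_norm_sq]
          ring
        have h3 : ∑ i ∈ s, w i * ‖p i‖ ^ 2 ≤ ∑ i ∈ s, w i := by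
          apply Finset.sum_le_sum
          intro i hi
          have h4 : ‖p i‖ ^ 2 ≤ 1 := pow_le_one₀ (norm_nonneg _) (hp i)
          have := (hpos i hi).le
          nlinarith
        rw [h1]
        rw [hsum] at h3
        nlinarith [sq_nonneg ‖x‖]
      have hV0 : 0 ≤ ∑ i ∈ s, w i * ‖p i - x‖ ^ 2 := by
        apply Finset.sum_nonneg
        intro i hi
        have := (hpos i hi).le
        positivity
      have hcard : s.card ≤ d + 1 := by
        have := Finset.card_le_univ s
        simpa using this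
      have hc' : (k:ℝ) + 1 ≤ s.card := by exact_mod_cast hc
      have hcard' : (s.card : ℝ) ≤ d + 1 := by exact_mod_cast hcard
      set n : ℝ := (s.card : ℝ) with hn
      have hg : (n - 1 - k) / ((n - 1) * (k + 1)) ≤ ((d : ℝ) - (k : ℝ)) / ((d : ℝ) * ((k : ℝ) + 1)) := by
        rcases eq_or_lt_of_le (show (0:ℝ) ≤ n - 1 by linarith) with h0 | h0
        · rw [← h0, zero_mul, div_zero]
          apply div_nonneg
          · linarith
          · positivity
        · rw [div_le_div_iff₀ (by positivity) (by positivity)]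
          have h5 : 0 ≤ (k:ℝ) * (d - (n - 1)) * (k + 1) := by
            apply mul_nonneg (mul_nonneg hk0 (by linarith)) (by linarith)
          nlinarith
      have hg0 : 0 ≤ (n - 1 - k) / ((n - 1) * (k + 1)) := by
        apply div_nonneg
        · linarith
        · apply mul_nonneg <;> linarith
      calc ‖z - x‖ ^ 2 ≤ _ := hle
        _ ≤ ((n - 1 - k) / ((n - 1) * (k + 1))) * 1 := by
          have := mul_le_mul_of_nonneg_left hV hg0
          simpa using this
        _ ≤ _ := by rw [mul_one]; exact hg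
    · push Not at hc
      obtain ⟨t, hst, _, htc⟩ := Finset.exists_subsuperset_card_eq (Finset.subset_univ s)
        (show s.card ≤ k + 1 by omega) (show k + 1 ≤ (Finset.univ : Finset (Fin (d+1))).card by simp; omega)
      refine ⟨t, htc, x, ?_, ?_⟩
      · rw [← hsx]
        apply (convex_convexHull ℝ _).sum_mem (fun i hi => (hpos i hi).le) hsum
        intro i hi
        exact subset_convexHull ℝ _ ⟨i, hst hi, rfl⟩
      · rw [sub_self, norm_zero]
        have : 0 ≤ ((d : ℝ) - (k : ℝ)) / ((d : ℝ) * ((k : ℝ) + 1)) := by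
          apply div_nonneg
          · linarith
          · positivity
        simpa using this
  obtain ⟨t, htc, z, hz, hle⟩ := hkey
  have h1 : ‖z - x‖ < ρ := lt_of_le_of_lt (Real.le_sqrt_of_sq_le hle) hρ
  rw [Set.disjoint_left] at hdisj
  apply hdisj (show z ∈ Metric.ball x ρ by rw [mem_ball_iff_norm]; exact h1)
  simp only [Set.mem_iUnion]
  exact ⟨t, htc, hz⟩

end Pool.Agent.S2595
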