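import Pool.Statements.S2628
-- import your own Pool.Agent.* helpers here

set_option autoImplicit false
open Pool Pool.MP_b98776_co

namespace Pool.Agent.S2628

private abbrev E := EuclideanSpace ℝ (Fin 3)

private noncomputable def U (u : Fin 3) : E :=
  if u = 0 then !₂[1, 0, 0] else if u = 1 then !₂[0, 1, 0] else !₂[1, 1, 0]

private noncomputable def q (m : ℕ) : Fin (m + 1) ⊕ Fin 3 → E
  | Sum.inl i => !₂[0, 0, (i.val : ℝ)]
  | Sum.inr u => U u

private theorem U0 : U 0 = !₂[1, 0, 0] := by simp [U]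
private theorem U1 : U 1 = !₂[0, 1, 0] := by simp [U]
private theorem U2 : U 2 = !₂[1, 1, 0] := by simp [U]

private theorem mem_line {a b c : E} : c ∈ affineSpan ℝ ({a, b} : Set E) ↔
    ∃ r : ℝ, c 0 = a 0 + r * (b 0 - a 0) ∧ c 1 = a 1 + r * (b 1 - a 1) ∧
      c 2 = a 2 + r * (b 2 - a 2) := by
  rw [mem_affineSpan_pair_iff_exists_lineMap_eq]
  constructor
  · rintro ⟨r, rfl⟩
    refine ⟨r, ?_, ?_, ?_⟩ <;>
    · simp [AffineMap.lineMap_apply]
      ring
  · rintro ⟨r, h0, h1, h2⟩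
    refine ⟨r, ?_⟩
    ext i
    fin_cases i
    · simp [AffineMap.lineMap_apply]
      linarith
    · simp [AffineMap.lineMap_apply]
      linarith
    · simp [AffineMap.lineMap_apply]
      linarith

/-- The plane `α p₀ + β p₁ + γ p₂ = δ`. -/
private def HH (α β γ δ : ℝ) : AffineSubspace ℝ E where
  carrier := {p | α * p 0 + β * p 1 + γ * p 2 = δ}
  smul_vsub_vadd_mem' := by
    intro c p1 p2 p3 h1 h2 h3
    simp only [Set.mem_ofPred_eq] at *
    simp only [vsub_eq_sub, vadd_eq_add, PiLp.add_apply, PiLp.smul_apply, PiLp.sub_apply,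
      smul_eq_mul]
    linear_combination c * h1 - c * h2 + h3

private theorem mem_HH {α β γ δ : ℝ} {p : E} :
    p ∈ HH α β γ δ ↔ α * p 0 + β * p 1 + γ * p 2 = δ := Iff.rfl

private theorem span_eq_HH {α β γ δ : ℝ} (hne : ∃ p, p ∉ HH α β γ δ) {a b c : E}
    (ha : a ∈ HH α β γ δ) (hb : b ∈ HH α β γ δ) (hc : c ∈ HH α β γ δ)
    (hcol : ¬ Collinear ℝ ({a, b, c} : Set E)) :
    affineSpan ℝ ({a, b, c} : Set E) = HH α β γ δ := by
  have hle : affineSpan ℝ ({a, b, c} : Set E) ≤ HH α β γ δ := by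
    apply affineSpan_le.mpr
    rintro x (rfl | rfl | rfl)
    · exact ha
    · exact hb
    · exact hc
  apply AffineSubspace.eq_of_direction_eq_of_nonempty_of_le
  · apply Submodule.eq_of_le_of_finrank_le (AffineSubspace.direction_le hle)
    have h1 : Module.finrank ℝ (affineSpan ℝ ({a, b, c} : Set E)).direction = 2 := by
      rw [direction_affineSpan]
      have hind : AffineIndependent ℝ ![a, b, c] := affineIndependent_iff_not_collinear_set.mpr hcol
      have h2 := hind.finrank_vectorSpan (n := 2) (by simp)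
      have h3 : Set.range ![a, b, c] = ({a, b, c} : Set E) := by
        simp only [Matrix.range_cons, Matrix.range_empty, Set.union_empty]
        rfl
      rw [h3] at h2
      exact h2
    rw [h1]
    have hlt : Module.finrank ℝ (HH α β γ δ).direction < Module.finrank ℝ E := by
      apply Submodule.finrank_lt
      intro htop
      have : (HH α β γ δ) = ⊤ :=
        (AffineSubspace.direction_eq_top_iff_of_nonempty ⟨a, ha⟩).mp htop
      obtain ⟨p, hp⟩ := hne
      apply hp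
      rw [this]
      exact AffineSubspace.mem_top _ _ _
    have : Module.finrank ℝ E = 3 := by simp
    omega
  · exact ⟨a, subset_affineSpan ℝ _ (by simp)⟩
  · exact hle

/-- Index set and map for the planes. -/
private noncomputable def pl (m : ℕ) : Fin 4 ⊕ (Fin m × Fin 3) → AffineSubspace ℝ E
  | Sum.inl 0 => HH 0 0 1 0
  | Sum.inl 1 => HH 0 1 0 0
  | Sum.inl 2 => HH 1 0 0 0
  | Sum.inl 3 => HH 1 (-1) 0 0
  | Sum.inr (i, 0) => HH (i.val + 1) (i.val + 1) 1 (i.val + 1)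
  | Sum.inr (i, 1) => HH (i.val + 1) 0 1 (i.val + 1)
  | Sum.inr (i, 2) => HH 0 (i.val + 1) 1 (i.val + 1)

private theorem pl_ne_top (m : ℕ) (k : Fin 4 ⊕ (Fin m × Fin 3)) :
    ∃ α β γ δ : ℝ, pl m k = HH α β γ δ ∧ ∃ p, p ∉ HH α β γ δ := by
  rcases k with k | ⟨i, u⟩
  · fin_cases k
    · exact ⟨0, 0, 1, 0, rfl, !₂[0, 0, 1], by rw [mem_HH]; simp⟩
    · exact ⟨0, 1, 0, 0, rfl, !₂[0, 1, 0], by rw [mem_HH]; simp⟩
    · exact ⟨1, 0, 0, 0, rfl, !₂[1, 0, 0], by rw [mem_HH]; simp⟩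
    · exact ⟨1, -1, 0, 0, rfl, !₂[1, 0, 0], by rw [mem_HH]; simp⟩
  · fin_cases u
    · exact ⟨_, _, _, _, rfl, !₂[0, 0, (i.val : ℝ) + 2], by rw [mem_HH]; simp⟩
    · exact ⟨_, _, _, _, rfl, !₂[0, 0, (i.val : ℝ) + 2], by rw [mem_HH]; simp⟩
    · exact ⟨_, _, _, _, rfl, !₂[0, 0, (i.val : ℝ) + 2], by rw [mem_HH]; simp⟩

private theorem span_eq_pl {m : ℕ} {k : Fin 4 ⊕ (Fin m × Fin 3)} {a b c : E}
    (ha : a ∈ pl m k) (hb : b ∈ pl m k) (hc : c ∈ pl m k)
    (hcol : ¬ Collinear ℝ ({a, b, c} : Set E)) :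
    affineSpan ℝ ({a, b, c} : Set E) = pl m k := by
  obtain ⟨α, β, γ, δ, h, hne⟩ := pl_ne_top m k
  rw [h] at ha hb hc ⊢
  exact span_eq_HH hne ha hb hc hcol

private theorem axis_mem (m : ℕ) (i : Fin (m + 1)) :
    q m (Sum.inl i) ∈ pl m (Sum.inl 1) ∧ q m (Sum.inl i) ∈ pl m (Sum.inl 2) ∧
      q m (Sum.inl i) ∈ pl m (Sum.inl 3) := by
  refine ⟨?_, ?_, ?_⟩
  · show _ ∈ HH 0 1 0 0
    rw [mem_HH]; simp [q]
  · show _ ∈ HH 1 0 0 0
    rw [mem_HH]; simp [q]
  · show _ ∈ HH 1 (-1) 0 0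
    rw [mem_HH]; simp [q]

private theorem U_mem (m : ℕ) (u : Fin 3) :
    U u ∈ pl m (Sum.inl 0) := by
  show _ ∈ HH 0 0 1 0
  fin_cases u
  · show U 0 ∈ _
    rw [mem_HH, U0]; simp
  · show U 1 ∈ _
    rw [mem_HH, U1]; simp
  · show U 2 ∈ _
    rw [mem_HH, U2]; simp

/-- the plane of the axis and `U u` -/
private theorem axis_U (m : ℕ) (u : Fin 3) : ∃ k : Fin 4 ⊕ (Fin m × Fin 3),
    U u ∈ pl m k ∧ ∀ i, q m (Sum.inl i) ∈ pl m k := by
  fin_cases u
  · refine ⟨Sum.inl 1, ?_, fun i => (axis_mem m i).1⟩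
    show U 0 ∈ HH 0 1 0 0
    rw [mem_HH, U0]; simp
  · refine ⟨Sum.inl 2, ?_, fun i => (axis_mem m i).2.1⟩
    show U 1 ∈ HH 1 0 0 0
    rw [mem_HH, U1]; simp
  · refine ⟨Sum.inl 3, ?_, fun i => (axis_mem m i).2.2⟩
    show U 2 ∈ HH 1 (-1) 0 0
    rw [mem_HH, U2]; simp

/-- a plane through an axis point and two of the `U`s -/
private theorem one_axis (m : ℕ) (i : Fin (m + 1)) (u v : Fin 3) :
    ∃ k : Fin 4 ⊕ (Fin m × Fin 3), q m (Sum.inl i) ∈ pl m k ∧ U u ∈ pl m k ∧ U v ∈ pl m k := by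
  by_cases huv : u = v
  · subst huv
    obtain ⟨k, h1, h2⟩ := axis_U m u
    exact ⟨k, h2 i, h1, h1⟩
  refine Fin.cases ?_ (fun j => ?_) i
  · refine ⟨Sum.inl 0, ?_, U_mem m u, U_mem m v⟩
    show _ ∈ HH 0 0 1 0
    rw [mem_HH]; simp [q]
  · have h01 : ∀ w : Fin 3, w = 0 ∨ w = 1 → U w ∈ pl m (Sum.inr (j, 0)) := by
      intro w hw
      show _ ∈ HH (j.val + 1) (j.val + 1) 1 (j.val + 1)
      rcases hw with rfl | rfl
      · rw [mem_HH, U0]; simp
      · rw [mem_HH, U1]; simp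
    have h02 : ∀ w : Fin 3, w = 0 ∨ w = 2 → U w ∈ pl m (Sum.inr (j, 1)) := by
      intro w hw
      show _ ∈ HH (j.val + 1) 0 1 (j.val + 1)
      rcases hw with rfl | rfl
      · rw [mem_HH, U0]; simp
      · rw [mem_HH, U2]; simp
    have h12 : ∀ w : Fin 3, w = 1 ∨ w = 2 → U w ∈ pl m (Sum.inr (j, 2)) := by
      intro w hw
      show _ ∈ HH 0 (j.val + 1) 1 (j.val + 1)
      rcases hw with rfl | rfl
      · rw [mem_HH, U1]; simp
      · rw [mem_HH, U2]; simp
    have hq : ∀ t : Fin 3, q m (Sum.inl j.succ) ∈ pl m (Sum.inr (j, t)) := by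
      intro t
      fin_cases t
      · show _ ∈ HH (j.val + 1) (j.val + 1) 1 (j.val + 1)
        rw [mem_HH]; simp [q]
      · show _ ∈ HH (j.val + 1) 0 1 (j.val + 1)
        rw [mem_HH]; simp [q]
      · show _ ∈ HH 0 (j.val + 1) 1 (j.val + 1)
        rw [mem_HH]; simp [q]
    have hc : ((u = 0 ∨ u = 1) ∧ (v = 0 ∨ v = 1)) ∨ ((u = 0 ∨ u = 2) ∧ (v = 0 ∨ v = 2)) ∨
        ((u = 1 ∨ u = 2) ∧ (v = 1 ∨ v = 2)) := by
      revert u v
      decide
    rcases hc with h | h | h
    · exact ⟨_, hq 0, h01 u h.1, h01 v h.2⟩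
    · exact ⟨_, hq 1, h02 u h.1, h02 v h.2⟩
    · exact ⟨_, hq 2, h12 u h.1, h12 v h.2⟩

private theorem triple_plane (m : ℕ) (a b c : Fin (m + 1) ⊕ Fin 3) :
    ∃ k : Fin 4 ⊕ (Fin m × Fin 3), q m a ∈ pl m k ∧ q m b ∈ pl m k ∧ q m c ∈ pl m k := by
  rcases a with i | u <;> rcases b with j | v <;> rcases c with l | w
  · exact ⟨Sum.inl 1, (axis_mem m i).1, (axis_mem m j).1, (axis_mem m l).1⟩
  · obtain ⟨k, h1, h2⟩ := axis_U m w
    exact ⟨k, h2 i, h2 j, h1⟩
  · obtain ⟨k, h1, h2⟩ := axis_U m v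
    exact ⟨k, h2 i, h1, h2 l⟩
  · obtain ⟨k, h1, h2, h3⟩ := one_axis m i v w
    exact ⟨k, h1, h2, h3⟩
  · obtain ⟨k, h1, h2⟩ := axis_U m u
    exact ⟨k, h1, h2 j, h2 l⟩
  · obtain ⟨k, h1, h2, h3⟩ := one_axis m j u w
    exact ⟨k, h2, h1, h3⟩
  · obtain ⟨k, h1, h2, h3⟩ := one_axis m l u v
    exact ⟨k, h2, h3, h1⟩
  · exact ⟨Sum.inl 0, U_mem m u, U_mem m v, U_mem m w⟩

/-! ### lines -/

private abbrev K (m : ℕ) : Type := Unit ⊕ (Fin (m + 1) × Fin 3) ⊕ Fin 3

private def nx (u : Fin 3) : Fin 3 := u + 1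

private noncomputable def ln (m : ℕ) : K m → AffineSubspace ℝ E
  | Sum.inl _ => affineSpan ℝ {!₂[0, 0, 0], !₂[0, 0, 1]}
  | Sum.inr (Sum.inl (i, u)) => affineSpan ℝ {q m (Sum.inl i), U u}
  | Sum.inr (Sum.inr u) => affineSpan ℝ {U (u + 1), U (u + 2)}

private def M (m : ℕ) : K m → (Fin (m + 1) ⊕ Fin 3) → Prop
  | Sum.inl _, Sum.inl _ => True
  | Sum.inl _, Sum.inr _ => False
  | Sum.inr (Sum.inl (i, _)), Sum.inl j => j = i
  | Sum.inr (Sum.inl (_, u)), Sum.inr v => v = u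
  | Sum.inr (Sum.inr _), Sum.inl _ => False
  | Sum.inr (Sum.inr u), Sum.inr v => v ≠ u

private theorem succ_ne3 : ∀ u : Fin 3, u + 1 ≠ u := by decide
private theorem succ2_ne3 : ∀ u : Fin 3, u + 2 ≠ u := by decide
private theorem succ12_ne3 : ∀ u : Fin 3, u + 1 ≠ u + 2 := by decide

private theorem M_inj (m : ℕ) (k k' : K m) (h : ∀ j, M m k j ↔ M m k' j) : k = k' := by
  rcases k with ⟨⟩ | ⟨i, u⟩ | u <;> rcases k' with ⟨⟩ | ⟨i', u'⟩ | u'
  · rfl
  · exact absurd ((h (Sum.inr u')).mpr rfl) id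
  · exact absurd ((h (Sum.inr (u' + 1))).mpr (succ_ne3 u')) id
  · exact absurd ((h (Sum.inr u)).mp rfl) id
  · have h1 : i = i' := (h (Sum.inl i)).mp rfl
    have h2 : u = u' := (h (Sum.inr u)).mp rfl
    rw [h1, h2]
  · exact absurd ((h (Sum.inl i)).mp rfl) id
  · exact absurd ((h (Sum.inr (u + 1))).mp (succ_ne3 u)) id
  · exact absurd ((h (Sum.inl i')).mpr rfl) id
  · have h1 : u = u' := by
      by_contra hne
      exact ((h (Sum.inr u)).mpr hne) rfl
    rw [h1]

private theorem qU (m : ℕ) (u : Fin 3) : q m (Sum.inr u) = U u := rfl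

private theorem ql0 (m : ℕ) (i : Fin (m + 1)) : q m (Sum.inl i) 0 = 0 := by simp [q]
private theorem ql1 (m : ℕ) (i : Fin (m + 1)) : q m (Sum.inl i) 1 = 0 := by simp [q]
private theorem ql2 (m : ℕ) (i : Fin (m + 1)) : q m (Sum.inl i) 2 = (i.val : ℝ) := by simp [q]

private theorem U_2 (u : Fin 3) : U u 2 = 0 := by
  fin_cases u
  · show U 0 2 = 0
    rw [U0]; simp
  · show U 1 2 = 0
    rw [U1]; simp
  · show U 2 2 = 0
    rw [U2]; simp

private theorem u00 : U 0 0 = 1 := by rw [U0]; simp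
private theorem u01 : U 0 1 = 0 := by rw [U0]; simp
private theorem u10 : U 1 0 = 0 := by rw [U1]; simp
private theorem u11 : U 1 1 = 1 := by rw [U1]; simp
private theorem u20 : U 2 0 = 1 := by rw [U2]; simp
private theorem u21 : U 2 1 = 1 := by rw [U2]; simp

private theorem mem_ln (m : ℕ) (k : K m) (j : Fin (m + 1) ⊕ Fin 3) :
    q m j ∈ ln m k ↔ M m k j := by
  rcases k with ⟨⟩ | ⟨i, u⟩ | u
  · rcases j with j | v
    · show _ ∈ affineSpan ℝ _ ↔ True
      rw [mem_line, ql0, ql1, ql2]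
      refine ⟨fun _ => trivial, fun _ => ⟨(j.val : ℝ), ?_, ?_, ?_⟩⟩ <;> simp
    · show _ ∈ affineSpan ℝ _ ↔ False
      rw [mem_line, qU]
      simp only [iff_false]
      rintro ⟨r, h0, h1, h2⟩
      revert h0 h1
      fin_cases v
      · show U 0 0 = _ → U 0 1 = _ → False
        rw [u00, u01]; simp
      · show U 1 0 = _ → U 1 1 = _ → False
        rw [u10, u11]; simp
      · show U 2 0 = _ → U 2 1 = _ → False
        rw [u20, u21]; simp
  · rcases j with j | v
    · show _ ∈ affineSpan ℝ _ ↔ j = i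
      rw [mem_line]
      constructor
      · rintro ⟨r, h0, h1, h2⟩
        rw [ql0, ql0] at h0
        rw [ql1, ql1] at h1
        rw [ql2, ql2, U_2] at h2
        have hr : r = 0 := by
          revert h0 h1
          fin_cases u
          · show 0 = 0 + r * (U 0 0 - 0) → 0 = 0 + r * (U 0 1 - 0) → r = 0
            rw [u00, u01]
            intro h0 _; linarith
          · show 0 = 0 + r * (U 1 0 - 0) → 0 = 0 + r * (U 1 1 - 0) → r = 0
            rw [u10, u11]
            intro _ h1; linarith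
          · show 0 = 0 + r * (U 2 0 - 0) → 0 = 0 + r * (U 2 1 - 0) → r = 0
            rw [u20, u21]
            intro h0 _; linarith
        rw [hr] at h2
        have : (j.val : ℝ) = i.val := by linarith
        exact Fin.ext (by exact_mod_cast this)
      · rintro rfl
        exact ⟨0, by ring, by ring, by ring⟩
    · show _ ∈ affineSpan ℝ _ ↔ v = u
      rw [mem_line]
      constructor
      · rintro ⟨r, h0, h1, h2⟩
        rw [ql0, qU] at h0
        rw [ql1, qU] at h1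
        revert h0 h1
        fin_cases u <;> fin_cases v
        · intro _ _; rfl
        · show U 1 0 = 0 + r * (U 0 0 - 0) → U 1 1 = 0 + r * (U 0 1 - 0) → _
          rw [u10, u11, u00, u01]; intro a b; exfalso; linarith
        · show U 2 0 = 0 + r * (U 0 0 - 0) → U 2 1 = 0 + r * (U 0 1 - 0) → _
          rw [u20, u21, u00, u01]; intro a b; exfalso; linarith
        · show U 0 0 = 0 + r * (U 1 0 - 0) → U 0 1 = 0 + r * (U 1 1 - 0) → _
          rw [u10, u11, u00, u01]; intro a b; exfalso; linarith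
        · intro _ _; rfl
        · show U 2 0 = 0 + r * (U 1 0 - 0) → U 2 1 = 0 + r * (U 1 1 - 0) → _
          rw [u20, u21, u10, u11]; intro a b; exfalso; linarith
        · show U 0 0 = 0 + r * (U 2 0 - 0) → U 0 1 = 0 + r * (U 2 1 - 0) → _
          rw [u20, u21, u00, u01]; intro a b; exfalso; linarith
        · show U 1 0 = 0 + r * (U 2 0 - 0) → U 1 1 = 0 + r * (U 2 1 - 0) → _
          rw [u20, u21, u10, u11]; intro a b; exfalso; linarith
        · intro _ _; rfl
      · rintro rfl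
        exact ⟨1, by rw [qU]; ring, by rw [qU]; ring, by rw [qU]; ring⟩
  · rcases j with j | v
    · show _ ∈ affineSpan ℝ _ ↔ False
      rw [mem_line, ql0, ql1, ql2]
      simp only [iff_false]
      rintro ⟨r, h0, h1, h2⟩
      revert h0 h1
      fin_cases u
      · show 0 = U 1 0 + r * (U 2 0 - U 1 0) → 0 = U 1 1 + r * (U 2 1 - U 1 1) → _
        rw [u10, u11, u20, u21]; intro a b; linarith
      · show 0 = U 2 0 + r * (U 0 0 - U 2 0) → 0 = U 2 1 + r * (U 0 1 - U 2 1) → _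
        rw [u00, u01, u20, u21]; intro a b; linarith
      · show 0 = U 0 0 + r * (U 1 0 - U 0 0) → 0 = U 0 1 + r * (U 1 1 - U 0 1) → _
        rw [u00, u01, u10, u11]; intro a b; linarith
    · show _ ∈ affineSpan ℝ _ ↔ v ≠ u
      rw [mem_line, qU]
      constructor
      · rintro ⟨r, h0, h1, h2⟩ rfl
        revert h0 h1
        fin_cases v
        · show U 0 0 = U 1 0 + r * (U 2 0 - U 1 0) → U 0 1 = U 1 1 + r * (U 2 1 - U 1 1) → _
          rw [u00, u01, u10, u11, u20, u21]; intro a b; linarith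
        · show U 1 0 = U 2 0 + r * (U 0 0 - U 2 0) → U 1 1 = U 2 1 + r * (U 0 1 - U 2 1) → _
          rw [u00, u01, u10, u11, u20, u21]; intro a b; linarith
        · show U 2 0 = U 0 0 + r * (U 1 0 - U 0 0) → U 2 1 = U 0 1 + r * (U 1 1 - U 0 1) → _
          rw [u00, u01, u10, u11, u20, u21]; intro a b; linarith
      · intro hv
        have hc : v = u + 1 ∨ v = u + 2 := by
          revert u v; decide
        rcases hc with rfl | rfl
        · exact ⟨0, by ring, by ring, by ring⟩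
        · exact ⟨1, by ring, by ring, by ring⟩

private theorem ln_inj (m : ℕ) : Function.Injective (ln m) := by
  intro k k' h
  apply M_inj
  intro j
  rw [← mem_ln, ← mem_ln, h]

private theorem q_inj (m : ℕ) : Function.Injective (q m) := by
  intro a b h
  rcases a with i | u <;> rcases b with j | v
  · have : q m (Sum.inl i) 2 = q m (Sum.inl j) 2 := by rw [h]
    rw [ql2, ql2] at this
    have h3 : (i.val : ℝ) = (j.val : ℝ) := this
    have h4 : i.val = j.val := Nat.cast_injective h3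
    rw [Fin.ext h4]
  · exfalso
    have h1 : q m (Sum.inr v) ∈ ln m (Sum.inl ()) := by
      rw [← h]; exact (mem_ln m _ _).mpr trivial
    exact (mem_ln m _ _).mp h1
  · exfalso
    have h1 : q m (Sum.inr u) ∈ ln m (Sum.inl ()) := by
      rw [h]; exact (mem_ln m _ _).mpr trivial
    exact (mem_ln m _ _).mp h1
  · have h1 : q m (Sum.inr v) ∈ ln m (Sum.inr (Sum.inl (0, u))) := by
      rw [← h]; exact (mem_ln m _ _).mpr rfl
    have h2 : v = u := (mem_ln m _ _).mp h1
    rw [h2]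

private theorem vec_top (W : Submodule ℝ E) (h0 : (!₂[1, 0, 0] : E) ∈ W)
    (h1 : (!₂[0, 1, 0] : E) ∈ W) (h2 : (!₂[0, 0, 1] : E) ∈ W) : W = ⊤ := by
  rw [eq_top_iff]
  intro v _
  have : v = v 0 • (!₂[1, 0, 0] : E) + v 1 • (!₂[0, 1, 0] : E) + v 2 • (!₂[0, 0, 1] : E) := by
    ext i
    fin_cases i <;> simp
  rw [this]
  exact W.add_mem (W.add_mem (W.smul_mem _ h0) (W.smul_mem _ h1)) (W.smul_mem _ h2)

private theorem not_coplanar (m : ℕ) (T : Set E) (i j : Fin (m + 1)) (hij : i ≠ j) (u v : Fin 3)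
    (huv : u ≠ v) (hi : q m (Sum.inl i) ∈ T) (hj : q m (Sum.inl j) ∈ T) (hu : U u ∈ T)
    (hv : U v ∈ T) : ¬ Coplanar ℝ T := by
  intro hcop
  have hne : (j.val : ℝ) - i.val ≠ 0 := by
    intro h
    apply hij
    have : (i.val : ℝ) = j.val := by linarith
    exact Fin.ext (by exact_mod_cast this)
  have d1 : q m (Sum.inl j) - q m (Sum.inl i) ∈ vectorSpan ℝ T :=
    vsub_mem_vectorSpan ℝ hj hi
  have d2 : U u - q m (Sum.inl i) ∈ vectorSpan ℝ T := vsub_mem_vectorSpan ℝ hu hi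
  have d3 : U v - q m (Sum.inl i) ∈ vectorSpan ℝ T := vsub_mem_vectorSpan ℝ hv hi
  set W := vectorSpan ℝ T
  have e3 : (!₂[0, 0, 1] : E) ∈ W := by
    have : (!₂[0, 0, 1] : E) = ((j.val : ℝ) - i.val)⁻¹ • (q m (Sum.inl j) - q m (Sum.inl i)) := by
      ext t
      fin_cases t
      · simp [q]
      · simp [q]
      · simp [q]
        field_simp
    rw [this]
    exact W.smul_mem _ d1
  have f : ∀ w : Fin 3, U w - q m (Sum.inl i) ∈ W → U w ∈ W := by
    intro w hw
    have h1 : U w = (U w - q m (Sum.inl i)) + (i.val : ℝ) • (!₂[0, 0, 1] : E) := by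
      ext t
      fin_cases t <;> simp [q]
    rw [h1]
    exact W.add_mem hw (W.smul_mem _ e3)
  have gu := f u d2
  have gv := f v d3
  have base : (!₂[1, 0, 0] : E) ∈ W ∧ (!₂[0, 1, 0] : E) ∈ W := by
    have a01 : U 0 ∈ W → U 1 ∈ W → (!₂[1, 0, 0] : E) ∈ W ∧ (!₂[0, 1, 0] : E) ∈ W := by
      rw [U0, U1]; exact fun a b => ⟨a, b⟩
    have a02 : U 0 ∈ W → U 2 ∈ W → (!₂[1, 0, 0] : E) ∈ W ∧ (!₂[0, 1, 0] : E) ∈ W := by
      intro a b
      refine ⟨by rw [← U0]; exact a, ?_⟩
      have : (!₂[0, 1, 0] : E) = U 2 - U 0 := by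
        rw [U0, U2]; ext t; fin_cases t <;> simp
      rw [this]; exact W.sub_mem b a
    have a12 : U 1 ∈ W → U 2 ∈ W → (!₂[1, 0, 0] : E) ∈ W ∧ (!₂[0, 1, 0] : E) ∈ W := by
      intro a b
      refine ⟨?_, by rw [← U1]; exact a⟩
      have : (!₂[1, 0, 0] : E) = U 2 - U 1 := by
        rw [U1, U2]; ext t; fin_cases t <;> simp
      rw [this]; exact W.sub_mem b a
    have hc : (u = 0 ∧ v = 1) ∨ (u = 1 ∧ v = 0) ∨ (u = 0 ∧ v = 2) ∨ (u = 2 ∧ v = 0) ∨
        (u = 1 ∧ v = 2) ∨ (u = 2 ∧ v = 1) := by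
      clear gu gv d2 d3 hu hv
      revert u v; decide
    rcases hc with ⟨rfl, rfl⟩ | ⟨rfl, rfl⟩ | ⟨rfl, rfl⟩ | ⟨rfl, rfl⟩ | ⟨rfl, rfl⟩ | ⟨rfl, rfl⟩
    · exact a01 gu gv
    · exact a01 gv gu
    · exact a02 gu gv
    · exact a02 gv gu
    · exact a12 gu gv
    · exact a12 gv gu
  have htop := vec_top W base.1 base.2 e3
  have h2 : Module.finrank ℝ W ≤ 2 := hcop.finrank_le_two
  rw [htop, finrank_top] at h2
  have : Module.finrank ℝ E = 3 := by simp
  omega

private theorem two_axis (m : ℕ) {a b : E} {i j : Fin (m + 1)} (hij : i ≠ j)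
    (hi : q m (Sum.inl i) ∈ affineSpan ℝ ({a, b} : Set E))
    (hj : q m (Sum.inl j) ∈ affineSpan ℝ ({a, b} : Set E)) (u : Fin 3) :
    U u ∉ affineSpan ℝ ({a, b} : Set E) := by
  intro hu
  rw [mem_line] at hi hj hu
  obtain ⟨r, r0, r1, r2⟩ := hi
  obtain ⟨s, s0, s1, s2⟩ := hj
  obtain ⟨t, t0, t1, t2⟩ := hu
  rw [ql0] at r0 s0
  rw [ql1] at r1 s1
  rw [ql2] at r2 s2
  have hne : r ≠ s := by
    rintro rfl
    apply hij
    have : (i.val : ℝ) = j.val := by linarith
    exact Fin.ext (Nat.cast_injective this)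
  have hrs : r - s ≠ 0 := sub_ne_zero.mpr hne
  have k0 : b 0 - a 0 = 0 := by
    have : (r - s) * (b 0 - a 0) = 0 := by linarith
    rcases mul_eq_zero.mp this with h | h
    · exact absurd h hrs
    · exact h
  have k1 : b 1 - a 1 = 0 := by
    have : (r - s) * (b 1 - a 1) = 0 := by linarith
    rcases mul_eq_zero.mp this with h | h
    · exact absurd h hrs
    · exact h
  rw [k0] at r0 t0
  rw [k1] at r1 t1
  have z0 : U u 0 = 0 := by linarith
  have z1 : U u 1 = 0 := by linarith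
  revert z0 z1
  fin_cases u
  · show U 0 0 = 0 → U 0 1 = 0 → False
    rw [u00]; simp
  · show U 1 0 = 0 → U 1 1 = 0 → False
    rw [u11]; simp
  · show U 2 0 = 0 → U 2 1 = 0 → False
    rw [u20]; simp

private theorem three_U {a b : E} (h0 : U 0 ∈ affineSpan ℝ ({a, b} : Set E))
    (h1 : U 1 ∈ affineSpan ℝ ({a, b} : Set E)) (h2 : U 2 ∈ affineSpan ℝ ({a, b} : Set E)) :
    False := by
  rw [mem_line] at h0 h1 h2
  obtain ⟨r, r0, r1, _⟩ := h0
  obtain ⟨s, s0, s1, _⟩ := h1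
  obtain ⟨t, t0, t1, _⟩ := h2
  rw [u00] at r0
  rw [u01] at r1
  rw [u10] at s0
  rw [u11] at s1
  rw [u20] at t0
  rw [u21] at t1
  -- U2 - U0 = (0,1), U2 - U1 = (1,0)
  have e1 : (t - r) * (b 0 - a 0) = 0 := by linarith
  have e2 : (t - r) * (b 1 - a 1) = 1 := by linarith
  have e3 : (t - s) * (b 0 - a 0) = 1 := by linarith
  rcases mul_eq_zero.mp e1 with h | h
  · rw [h, zero_mul] at e2
    exact zero_ne_one e2
  · rw [h, mul_zero] at e3
    exact zero_ne_one e3

/-- The negation of the preceding statement: There is N such that for every set of at least N points in 3-space that is not coplanar, does not lie on two lines, and does not become coplanar after removing one point, the number of planes it spans is at least the number of lines it spans. -/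
theorem result :
    ¬ (∃ N : ℕ, ∀ S : Finset (EuclideanSpace ℝ (Fin 3)),
      N ≤ S.card →
      ¬ Coplanar ℝ (S : Set (EuclideanSpace ℝ (Fin 3))) →
      ¬ (∃ a b c d : EuclideanSpace ℝ (Fin 3),
          (S : Set (EuclideanSpace ℝ (Fin 3))) ⊆
            (affineSpan ℝ ({a, b} : Set (EuclideanSpace ℝ (Fin 3))) : Set (EuclideanSpace ℝ (Fin 3))) ∪
            (affineSpan ℝ ({c, d} : Set (EuclideanSpace ℝ (Fin 3))) : Set (EuclideanSpace ℝ (Fin 3)))) →
      ¬ (∃ x ∈ S, Coplanar ℝ ((S.erase x : Finset (EuclideanSpace ℝ (Fin 3))) : Set (EuclideanSpace ℝ (Fin 3)))) →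
      {L : AffineSubspace ℝ (EuclideanSpace ℝ (Fin 3)) |
          ∃ a ∈ S, ∃ b ∈ S, a ≠ b ∧
            L = affineSpan ℝ ({a, b} : Set (EuclideanSpace ℝ (Fin 3)))}.ncard ≤
      {P : AffineSubspace ℝ (EuclideanSpace ℝ (Fin 3)) |
          ∃ a ∈ S, ∃ b ∈ S, ∃ c ∈ S,
            ¬ Collinear ℝ ({a, b, c} : Set (EuclideanSpace ℝ (Fin 3))) ∧
            P = affineSpan ℝ ({a, b, c} : Set (EuclideanSpace ℝ (Fin 3)))}.ncard) := by
  classical
  rintro ⟨N, hN⟩
  set m := N + 3 with hm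
  set S : Finset E := Finset.univ.image (q m) with hS
  have memS : ∀ j, q m j ∈ S := fun j => Finset.mem_image_of_mem _ (Finset.mem_univ j)
  have hcard : S.card = m + 1 + 3 := by
    rw [hS, Finset.card_image_of_injective _ (q_inj m)]
    simp
  let f0 : Fin (m + 1) := ⟨0, by omega⟩
  let f1 : Fin (m + 1) := ⟨1, by omega⟩
  let f2 : Fin (m + 1) := ⟨2, by omega⟩
  have h01 : f0 ≠ f1 := by intro h; exact absurd (congrArg Fin.val h) (by norm_num)
  have h02 : f0 ≠ f2 := by intro h; exact absurd (congrArg Fin.val h) (by norm_num)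
  have h12 : f1 ≠ f2 := by intro h; exact absurd (congrArg Fin.val h) (by norm_num)
  have key := hN S (by omega) ?_ ?_ ?_
  · -- counting
    have hlines : (Fintype.card (K m)) ≤ {L : AffineSubspace ℝ E |
          ∃ a ∈ S, ∃ b ∈ S, a ≠ b ∧ L = affineSpan ℝ ({a, b} : Set E)}.ncard := by
      have h1 : (Set.range (ln m)).ncard = Fintype.card (K m) := by
        rw [Set.ncard_range_of_injective (ln_inj m), Nat.card_eq_fintype_card]
      rw [← h1]
      apply Set.ncard_le_ncard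
      · rintro L ⟨k, rfl⟩
        rcases k with ⟨⟩ | ⟨i, u⟩ | u
        · refine ⟨q m (Sum.inl f0), memS _, q m (Sum.inl f1), memS _, ?_, ?_⟩
          · intro h
            exact h01 (Sum.inl_injective (q_inj m h))
          · have e0 : q m (Sum.inl f0) = !₂[0, 0, 0] := by simp [q, f0]
            have e1 : q m (Sum.inl f1) = !₂[0, 0, 1] := by simp [q, f1]
            rw [e0, e1]
            rfl
        · refine ⟨q m (Sum.inl i), memS _, q m (Sum.inr u), memS _, ?_, rfl⟩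
          intro h
          exact absurd (q_inj m h) (by simp)
        · refine ⟨q m (Sum.inr (u + 1)), memS _, q m (Sum.inr (u + 2)), memS _, ?_, rfl⟩
          intro h
          have h3 := Sum.inr_injective (q_inj m h)
          revert h3
          clear h
          revert u
          decide
      · apply Set.Finite.subset ((S ×ˢ S).finite_toSet.image
          (fun p : E × E => affineSpan ℝ ({p.1, p.2} : Set E)))
        rintro L ⟨a, ha, b, hb, _, rfl⟩
        exact ⟨(a, b), by simpa using ⟨ha, hb⟩, rfl⟩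
    have hplanes : {P : AffineSubspace ℝ E |
          ∃ a ∈ S, ∃ b ∈ S, ∃ c ∈ S,
            ¬ Collinear ℝ ({a, b, c} : Set E) ∧
            P = affineSpan ℝ ({a, b, c} : Set E)}.ncard ≤
            Fintype.card (Fin 4 ⊕ (Fin m × Fin 3)) := by
      have h1 : (Set.range (pl m)).ncard ≤ Fintype.card (Fin 4 ⊕ (Fin m × Fin 3)) := by
        have : Set.range (pl m) = ((Finset.univ.image (pl m) : Finset _) : Set _) := by simp
        rw [this, Set.ncard_coe_finset]
        exact Finset.card_image_le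
      refine le_trans (Set.ncard_le_ncard ?_ (Set.finite_range _)) h1
      rintro P ⟨a, ha, b, hb, c, hc, hcol, rfl⟩
      obtain ⟨ja, _, rfl⟩ := Finset.mem_image.mp ha
      obtain ⟨jb, _, rfl⟩ := Finset.mem_image.mp hb
      obtain ⟨jc, _, rfl⟩ := Finset.mem_image.mp hc
      obtain ⟨k, k1, k2, k3⟩ := triple_plane m ja jb jc
      exact ⟨k, (span_eq_pl k1 k2 k3 hcol).symm⟩
    have c1 : Fintype.card (K m) = 3 * m + 7 := by simp [K]; ring
    have c2 : Fintype.card (Fin 4 ⊕ (Fin m × Fin 3)) = 3 * m + 4 := by simp; ring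
    rw [c1] at hlines
    rw [c2] at hplanes
    have := hlines.trans (key.trans hplanes)
    omega
  · exact not_coplanar m _ f0 f1 h01 0 1 (by decide) (memS _) (memS _) (memS (Sum.inr 0))
      (memS (Sum.inr 1))
  · rintro ⟨a, b, c, d, hsub⟩
    have hsub' : ∀ j, q m j ∈ affineSpan ℝ ({a, b} : Set E) ∨ q m j ∈ affineSpan ℝ ({c, d} : Set E) :=
      fun j => hsub (memS j)
    -- two of the three axis points lie on one of the lines
    have fin : ∀ (a b c d : E), (∀ j, q m j ∈ affineSpan ℝ ({a, b} : Set E) ∨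
        q m j ∈ affineSpan ℝ ({c, d} : Set E)) → ∀ i j : Fin (m + 1), i ≠ j →
        q m (Sum.inl i) ∈ affineSpan ℝ ({a, b} : Set E) →
        q m (Sum.inl j) ∈ affineSpan ℝ ({a, b} : Set E) → False := by
      intro a b c d h i j hij hi hj
      have hu : ∀ u : Fin 3, U u ∈ affineSpan ℝ ({c, d} : Set E) := by
        intro u
        rcases h (Sum.inr u) with h' | h'
        · exact absurd h' (two_axis m hij hi hj u)
        · exact h'
      exact three_U (hu 0) (hu 1) (hu 2)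
    have hsub'' : ∀ j, q m j ∈ affineSpan ℝ ({c, d} : Set E) ∨ q m j ∈ affineSpan ℝ ({a, b} : Set E) :=
      fun j => (hsub' j).symm
    rcases hsub' (Sum.inl f0) with g0 | g0 <;> rcases hsub' (Sum.inl f1) with g1 | g1
    · exact fin a b c d hsub' f0 f1 h01 g0 g1
    · rcases hsub' (Sum.inl f2) with g2 | g2
      · exact fin a b c d hsub' f0 f2 h02 g0 g2
      · exact fin c d a b hsub'' f1 f2 h12 g1 g2
    · rcases hsub' (Sum.inl f2) with g2 | g2
      · exact fin a b c d hsub' f1 f2 h12 g1 g2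
      · exact fin c d a b hsub'' f0 f2 h02 g0 g2
    · exact fin c d a b hsub'' f0 f1 h01 g0 g1
  · rintro ⟨x, hx, hcop⟩
    obtain ⟨jx, _, rfl⟩ := Finset.mem_image.mp hx
    have mem' : ∀ j, j ≠ jx → q m j ∈ ((S.erase (q m jx) : Finset E) : Set E) := by
      intro j hj
      rw [Finset.mem_coe, Finset.mem_erase]
      exact ⟨fun h => hj (q_inj m h), memS j⟩
    rcases jx with i | u
    · -- two axis points different from `i`
      have h2 : ∃ j l : Fin (m + 1), j ≠ l ∧ j ≠ i ∧ l ≠ i := by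
        by_cases hi0 : f0 = i
        · exact ⟨f1, f2, h12, by rw [← hi0]; exact h01.symm, by rw [← hi0]; exact h02.symm⟩
        · by_cases hi1 : f1 = i
          · exact ⟨f0, f2, h02, by rw [← hi1]; exact h01, by rw [← hi1]; exact h12.symm⟩
          · exact ⟨f0, f1, h01, hi0, hi1⟩
      obtain ⟨j, l, hjl, hji, hli⟩ := h2
      exact not_coplanar m _ j l hjl 0 1 (by decide)
        (mem' _ (fun h => hji (Sum.inl_injective h)))
        (mem' _ (fun h => hli (Sum.inl_injective h)))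
        (mem' (Sum.inr 0) (by simp)) (mem' (Sum.inr 1) (by simp)) hcop
    · have a1 : u + 1 ≠ u := succ_ne3 u
      have a2 : u + 2 ≠ u := succ2_ne3 u
      have a3 : u + 1 ≠ u + 2 := succ12_ne3 u
      exact not_coplanar m _ f0 f1 h01 (u + 1) (u + 2) a3
        (mem' _ (by simp)) (mem' _ (by simp))
        (mem' (Sum.inr (u + 1)) (fun h => a1 (Sum.inr_injective h)))
        (mem' (Sum.inr (u + 2)) (fun h => a2 (Sum.inr_injective h))) hcop

end Pool.Agent.S2628
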