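import Pool.Statements.S2636
import Pool.Agent.H28.CycleCoverGraph
import Pool.Agent.H28.CycleCoverUpper
import Pool.Agent.H28.CycleCoverLower

set_option autoImplicit false
open Classical
open Pool Pool.MP_ba3dea_co

namespace Pool.Agent.S2636

/-- The negation of the preceding statement: Every finite 3-vertex-connected simple graph has a cycle cover of minimum total length in which each edge lies in at most two of the cycles. -/
theorem result :
    ¬ (∀ (V : Type) [Fintype V] (G : SimpleGraph V),
      (3 < Fintype.card V ∧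
        ∀ S : Finset V, S.card < 3 → (G.induce ((↑S : Set V)ᶜ)).Connected) →
      ∃ F : List (Σ u : V, G.Walk u u),
        ((∀ c ∈ F, c.2.IsCycle) ∧
          ∀ e ∈ G.edgeSet, ∃ c ∈ F, e ∈ c.2.edges) ∧
        (∀ F' : List (Σ u : V, G.Walk u u),
          ((∀ c ∈ F', c.2.IsCycle) ∧
            ∀ e ∈ G.edgeSet, ∃ c ∈ F', e ∈ c.2.edges) →
          (F.map (fun c => c.2.length)).sum ≤ (F'.map (fun c => c.2.length)).sum) ∧
        ∀ e ∈ G.edgeSet, F.countP (fun c => decide (e ∈ c.2.edges)) ≤ 2) := by
  intro H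
  obtain ⟨F, ⟨hcyc, hcov⟩, hmin, ht⟩ := H (Fin 30) H28.CC.G
    ⟨by simp, fun S hS => H28.CC.three_connected S hS⟩
  have hlen := hmin H28.CC.F0 ⟨H28.CC.F0_cycle, H28.CC.F0_cover⟩
  rw [H28.CC.F0_length] at hlen
  refine H28.CC.lower F hcyc (fun e => ∑ k : Fin F.length, H28.CC.ind (e ∈ (F.get k).2.edges))
    (fun _ => rfl) ?_ ?_ hlen
  · intro e he
    obtain ⟨c, hc, hec⟩ := hcov e he
    have h1 : 0 < F.countP (fun c => decide (e ∈ c.2.edges)) :=
      List.countP_pos_iff.mpr ⟨c, hc, by simpa using hec⟩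
    rw [H28.CC.countP_eq_sum] at h1
    simp only [decide_eq_true_eq] at h1
    exact h1
  · intro e he
    have h1 := ht e he
    rw [H28.CC.countP_eq_sum] at h1
    simp only [decide_eq_true_eq] at h1
    exact h1

end Pool.Agent.S2636
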