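import Pool.Statements.S2660
import Pool.Agent.H8.MIF

set_option autoImplicit false
open Pool Pool.MP_c0f93d_co

namespace Pool.Agent.S2660

/-- The negation of the preceding statement: For every n and every finite family of n-subsets of ℕ that is pairwise intersecting and maximal (any n-set meeting all members is a member), the union of the family has at most as many elements as the family has members. -/
theorem result :
    ¬ (∀ (n : ℕ) (F : Finset (Finset ℕ)),
      (∀ A ∈ F, A.card = n) →
      (∀ A ∈ F, ∀ B ∈ F, (A ∩ B).Nonempty) →
      (∀ B : Finset ℕ, B.card = n → (∀ A ∈ F, (A ∩ B).Nonempty) → B ∈ F) →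
      (F.biUnion id).card ≤ F.card) := by
  intro h
  have h1 := h 6 Pool.Agent.H8.MIF.F Pool.Agent.H8.MIF.card_mem
    (fun A hA B hB => Pool.Agent.H8.MIF.inter A hA B hB)
    (fun B hB hh => Pool.Agent.H8.MIF.maximal B hB hh)
  have h2 := Pool.Agent.H8.MIF.card_F
  have h3 := Pool.Agent.H8.MIF.card_union
  omega

end Pool.Agent.S2660
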