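import Pool.Statements.S2699
-- import your own Pool.Agent.* helpers here

set_option autoImplicit false
open Pool Pool.MP_ca0c4d_co

namespace Pool.Agent.S2699

open Finset ComplexConjugate

/-! ### Half-plane argument for all words -/

section words

variable {K : ℕ}

/-- Number of descents of a word. -/
def des {m : ℕ} (w : Fin (m + 1) → Fin K) : ℕ :=
  ∑ i : Fin m, if w i.succ < w i.castSucc then 1 else 0

/-- The sums over the words with given first letter, by recursion. -/
noncomputable def B (z : ℂ) : ℕ → Fin K → ℂ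
  | 0, _ => 1
  | m + 1, i => ∑ j : Fin K, (if j < i then z else 1) * B z m j

theorem des_cons {m : ℕ} (x : Fin K) (w : Fin (m + 1) → Fin K) :
    des (Fin.cons x w : Fin (m + 2) → Fin K) = (if w 0 < x then 1 else 0) + des w := by
  unfold des
  rw [Fin.sum_univ_succ]
  simp [Fin.castSucc_zero, Fin.cons_zero, Fin.cons_succ, ← Fin.succ_castSucc]

theorem B_eq (z : ℂ) (m : ℕ) (i : Fin K) :
    (∑ w : Fin (m + 1) → Fin K, if w 0 = i then z ^ des w else 0) = B z m i := by
  induction m generalizing i with
  | zero =>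
    rw [B, Finset.sum_eq_single (fun _ => i)]
    · simp [des]
    · intro w _ hw
      rw [if_neg]
      intro h
      apply hw
      funext j
      have hj : j = 0 := Fin.eq_zero j
      rw [hj, h]
    · simp
  | succ m ih =>
    rw [B]
    have h1 : (∑ w : Fin (m + 2) → Fin K, if w 0 = i then z ^ des w else 0) =
        ∑ p : Fin K × (Fin (m + 1) → Fin K),
          if p.1 = i then z ^ des (Fin.cons p.1 p.2 : Fin (m + 2) → Fin K) else 0 := by
      symm
      apply Fintype.sum_equiv (Fin.consEquiv (fun _ : Fin (m + 2) => Fin K))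
      intro p
      simp [Fin.consEquiv]
    rw [h1, Fintype.sum_prod_type]
    rw [Finset.sum_eq_single i]
    · simp only [if_true, des_cons, pow_add]
      have h2 : ∀ w : Fin (m + 1) → Fin K,
          z ^ (if w 0 < i then 1 else 0) * z ^ des w =
          ∑ j : Fin K, (if j < i then z else 1) * (if w 0 = j then z ^ des w else 0) := by
        intro w
        rw [Finset.sum_eq_single (w 0)]
        · rw [if_pos rfl]
          split_ifs <;> simp
        · intro j _ hj
          rw [if_neg hj.symm, mul_zero]
        · simp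
      rw [Finset.sum_congr rfl (fun w _ => h2 w), Finset.sum_comm]
      apply Finset.sum_congr rfl
      intro j _
      rw [← Finset.mul_sum, ih]
    · intro j _ hj
      simp [hj]
    · simp

theorem total_eq (z : ℂ) (m : ℕ) (h0 : 0 < K) :
    (∑ w : Fin (m + 1) → Fin K, z ^ des w) = B z (m + 1) (⟨0, h0⟩ : Fin K) := by
  rw [B]
  have h2 : ∀ w : Fin (m + 1) → Fin K, z ^ des w =
      ∑ j : Fin K, (if w 0 = j then z ^ des w else 0) := by
    intro w
    simp
  rw [Finset.sum_congr rfl (fun w _ => h2 w), Finset.sum_comm]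
  apply Finset.sum_congr rfl
  intro j _
  rw [B_eq, if_neg, one_mul]
  intro h
  exact absurd h (by simp [Fin.lt_def])

/-- The invariant. -/
def Inv (z : ℂ) (a : Fin K → ℂ) : Prop :=
  (∀ i, a i ≠ 0) ∧ ∀ i j, i < j → 0 ≤ (a j * conj (a i)).im ∧ 0 ≤ (z * a i * conj (a j)).im

theorem im_sum_nonneg (c : ℂ) (a : Fin K → ℂ) (s t : Finset (Fin K))
    (h : ∀ i ∈ s, ∀ j ∈ t, 0 ≤ (c * a i * conj (a j)).im) :
    0 ≤ (c * (∑ i ∈ s, a i) * conj (∑ j ∈ t, a j)).im := by
  rw [map_sum, Finset.mul_sum, Finset.mul_sum, Complex.im_sum]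
  apply Finset.sum_nonneg
  intro j hj
  rw [Finset.sum_mul, Complex.im_sum]
  apply Finset.sum_nonneg
  intro i hi
  exact h i hi j hj

theorem key1 (z S1 S2 S3 : ℂ) : ((z * S1 + z * S2 + S3) * conj (z * S1 + S2 + S3)).im =
    (z * S1 * conj S2).im + (1 * S3 * conj S2).im + Complex.normSq z * (1 * S2 * conj S1).im +
      (z * S2 * conj S3).im + z.im * Complex.normSq S2 := by
  simp only [Complex.mul_im, Complex.add_im, Complex.mul_re, Complex.add_re, Complex.conj_re,
    Complex.conj_im, map_add, map_mul, Complex.normSq_apply, Complex.one_re, Complex.one_im]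
  ring

theorem key2 (z S1 S2 S3 : ℂ) : (z * (z * S1 + S2 + S3) * conj (z * S1 + z * S2 + S3)).im =
    Complex.normSq z * ((z * S1 * conj S2).im + (1 * S3 * conj S2).im) +
      Complex.normSq z * (1 * S2 * conj S1).im +
      (z * S2 * conj S3).im + z.im * Complex.normSq (z * S1 + S3) := by
  simp only [Complex.mul_im, Complex.add_im, Complex.mul_re, Complex.add_re, Complex.conj_re,
    Complex.conj_im, map_add, map_mul, Complex.normSq_apply, Complex.one_re, Complex.one_im]
  ring

theorem split3 (z : ℂ) (a : Fin K → ℂ) (k l : Fin K) (hkl : k ≤ l) :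
    (∑ j : Fin K, (if j < k then z else 1) * a j) =
      z * (∑ j ∈ univ.filter (fun j => j < k), a j) +
      (∑ j ∈ univ.filter (fun j => k ≤ j ∧ j < l), a j) +
      (∑ j ∈ univ.filter (fun j => l ≤ j), a j) ∧
    (∑ j : Fin K, (if j < l then z else 1) * a j) =
      z * (∑ j ∈ univ.filter (fun j => j < k), a j) +
      z * (∑ j ∈ univ.filter (fun j => k ≤ j ∧ j < l), a j) +
      (∑ j ∈ univ.filter (fun j => l ≤ j), a j) := by
  simp only [Finset.sum_filter, Finset.mul_sum, ← Finset.sum_add_distrib]
  constructor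
  · apply Finset.sum_congr rfl
    intro j _
    by_cases h1 : j < k
    · have h2 : ¬ (k ≤ j ∧ j < l) := fun h => absurd h.1 (not_le.2 h1)
      have h3 : ¬ (l ≤ j) := fun h => absurd (hkl.trans h) (not_le.2 h1)
      simp [h1, h2, h3]
    · by_cases h2 : j < l
      · have h3 : ¬ (l ≤ j) := not_le.2 h2
        simp [h1, h2, h3, not_lt.1 h1]
      · simp [h1, h2, not_lt.1 h2]
  · apply Finset.sum_congr rfl
    intro j _
    by_cases h1 : j < k
    · have h2 : ¬ (k ≤ j ∧ j < l) := fun h => absurd h.1 (not_le.2 h1)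
      have h3 : ¬ (l ≤ j) := fun h => absurd (hkl.trans h) (not_le.2 h1)
      have h4 : j < l := lt_of_lt_of_le h1 hkl
      simp [h1, h2, h3, h4]
    · by_cases h2 : j < l
      · have h3 : ¬ (l ≤ j) := not_le.2 h2
        simp [h1, h2, h3, not_lt.1 h1]
      · simp [h1, h2, not_lt.1 h2]

theorem inv_step (z : ℂ) (hz : 0 < z.im) (a : Fin K → ℂ) (h : Inv z a) (hK : 2 ≤ K) :
    Inv z (fun i => ∑ j : Fin K, (if j < i then z else 1) * a j) := by
  obtain ⟨h0, hp⟩ := h
  have main : ∀ k l : Fin K, k < l →
      z.im * Complex.normSq (∑ j ∈ univ.filter (fun j => k ≤ j ∧ j < l), a j) ≤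
      ((∑ j : Fin K, (if j < l then z else 1) * a j) *
        conj (∑ j : Fin K, (if j < k then z else 1) * a j)).im ∧
      z.im * Complex.normSq (z * (∑ j ∈ univ.filter (fun j => j < k), a j) +
        (∑ j ∈ univ.filter (fun j => l ≤ j), a j)) ≤
      (z * (∑ j : Fin K, (if j < k then z else 1) * a j) *
        conj (∑ j : Fin K, (if j < l then z else 1) * a j)).im := by
    intro k l hkl
    obtain ⟨e1, e2⟩ := split3 z a k l hkl.le
    rw [e1, e2, key1, key2]
    have n1 := im_sum_nonneg z a (univ.filter (fun j => j < k))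
      (univ.filter (fun j => k ≤ j ∧ j < l)) (by
        intro i hi j hj
        rw [Finset.mem_filter] at hi hj
        exact (hp i j (lt_of_lt_of_le hi.2 hj.2.1)).2)
    have n2 := im_sum_nonneg 1 a (univ.filter (fun j => l ≤ j))
      (univ.filter (fun j => k ≤ j ∧ j < l)) (by
        intro i hi j hj
        rw [Finset.mem_filter] at hi hj
        rw [one_mul]
        exact (hp j i (lt_of_lt_of_le hj.2.2 hi.2)).1)
    have n3 := im_sum_nonneg 1 a (univ.filter (fun j => k ≤ j ∧ j < l))
      (univ.filter (fun j => j < k)) (by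
        intro i hi j hj
        rw [Finset.mem_filter] at hi hj
        rw [one_mul]
        exact (hp j i (lt_of_lt_of_le hj.2 hi.2.1)).1)
    have n4 := im_sum_nonneg z a (univ.filter (fun j => k ≤ j ∧ j < l))
      (univ.filter (fun j => l ≤ j)) (by
        intro i hi j hj
        rw [Finset.mem_filter] at hi hj
        exact (hp i j (lt_of_lt_of_le hi.2.2 hj.2)).2)
    have nz := Complex.normSq_nonneg z
    have m1 := mul_nonneg nz n3
    have m2 := mul_nonneg nz (add_nonneg n1 n2)
    constructor <;> linarith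
  refine ⟨?_, ?_⟩
  · intro i hi
    beta_reduce at hi
    by_cases hlast : (i : ℕ) + 1 < K
    · have h1 := (main i ⟨i + 1, hlast⟩ (by simp [Fin.lt_def])).1
      rw [hi, map_zero, mul_zero, Complex.zero_im] at h1
      have h2 : (univ.filter (fun j : Fin K => i ≤ j ∧ j < ⟨i + 1, hlast⟩)) = {i} := by
        ext j
        simp only [Finset.mem_filter, Finset.mem_univ, true_and, Finset.mem_singleton,
          Fin.le_def, Fin.lt_def, Fin.ext_iff]
        omega
      rw [h2, Finset.sum_singleton] at h1
      have h3 : 0 < z.im * Complex.normSq (a i) := mul_pos hz (Complex.normSq_pos.2 (h0 i))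
      linarith
    · have hi0 : (⟨0, by omega⟩ : Fin K) < i := by
        rw [Fin.lt_def]
        simp only
        omega
      have h1 := (main ⟨0, by omega⟩ i hi0).2
      rw [hi, map_zero, mul_zero, Complex.zero_im] at h1
      have h2 : (univ.filter (fun j : Fin K => j < ⟨0, by omega⟩)) = ∅ := by
        ext j
        simp [Fin.lt_def]
      have h3 : (univ.filter (fun j : Fin K => i ≤ j)) = {i} := by
        ext j
        simp only [Finset.mem_filter, Finset.mem_univ, true_and, Finset.mem_singleton,
          Fin.le_def, Fin.ext_iff]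
        have := j.2
        omega
      rw [h2, h3, Finset.sum_singleton, Finset.sum_empty, mul_zero, zero_add] at h1
      have h4 : 0 < z.im * Complex.normSq (a i) := mul_pos hz (Complex.normSq_pos.2 (h0 i))
      linarith
  · intro k l hkl
    obtain ⟨h1, h2⟩ := main k l hkl
    exact ⟨le_trans (mul_nonneg hz.le (Complex.normSq_nonneg _)) h1,
      le_trans (mul_nonneg hz.le (Complex.normSq_nonneg _)) h2⟩

theorem inv_B (z : ℂ) (hz : 0 < z.im) (hK : 2 ≤ K) (m : ℕ) : Inv z (B z m : Fin K → ℂ) := by
  induction m with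
  | zero =>
    refine ⟨fun i => by simp [B], fun i j _ => ?_⟩
    simp [B, hz.le]
  | succ m ih => exact inv_step z hz _ ih hK

theorem total_ne_zero (z : ℂ) (hz : 0 < z.im) (m : ℕ) (hK : 2 ≤ K) :
    (∑ w : Fin (m + 1) → Fin K, z ^ des w) ≠ 0 := by
  rw [total_eq z m (by omega)]
  exact (inv_B z hz hK (m + 1)).1 _

end words

/-! ### Cyclic descents -/

section cyclic

variable {m K : ℕ}

/-- Cyclic descents. -/
def cdes (w : Fin (m + 1) → Fin K) : ℕ :=
  ∑ i : Fin (m + 1), if w (i + 1) < w i then 1 else 0

theorem cdes_eq (w : Fin (m + 1) → Fin K) :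
    cdes w = des w + if w 0 < w (Fin.last m) then 1 else 0 := by
  unfold cdes des
  rw [Fin.sum_univ_castSucc]
  simp [Fin.coeSucc_eq_succ, Fin.last_add_one]

theorem cdes_rot (w : Fin (m + 1) → Fin K) (r : Fin (m + 1)) :
    cdes (fun i => w (i + r)) = cdes w := by
  unfold cdes
  rw [← Equiv.sum_comp (Equiv.addRight r) (fun i => if w (i + 1) < w i then 1 else 0)]
  apply Finset.sum_congr rfl
  intro i _
  have h : i + r + 1 = i + 1 + r := add_right_comm i r 1
  simp only [Equiv.coe_addRight, h]

theorem cdes_shift (w : Fin (m + 1) → Fin (K + 1)) :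
    cdes (fun i => w i + 1) = cdes w := by
  have key : ∀ a b : Fin (K + 1), (if b + 1 < a + 1 then (1 : ℤ) else 0) =
      (if b < a then 1 else 0) - (if a = Fin.last K then 1 else 0) +
      (if b = Fin.last K then 1 else 0) := by
    intro a b
    by_cases ha : a = Fin.last K
    · subst ha
      by_cases hb : b = Fin.last K
      · subst hb; simp
      · have h1 : b < Fin.last K := lt_of_le_of_ne (Fin.le_last b) hb
        rw [Fin.last_add_one]
        simp [hb, h1]
    · by_cases hb : b = Fin.last K
      · subst hb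
        have h1 : ¬ (Fin.last K < a) := not_lt.2 (Fin.le_last a)
        have h2 : (0 : Fin (K + 1)) < a + 1 := by
          rw [Fin.lt_def, Fin.val_add_one, if_neg ha]
          simp
        rw [Fin.last_add_one]
        simp [ha, h1, h2]
      · have h1 : (b + 1 < a + 1) ↔ b < a := by
          rw [Fin.lt_def, Fin.lt_def, Fin.val_add_one, Fin.val_add_one, if_neg ha, if_neg hb]
          omega
        simp [ha, hb, h1]
  have h : ((cdes (fun i => w i + 1) : ℕ) : ℤ) = ((cdes w : ℕ) : ℤ) := by
    unfold cdes
    push_cast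
    rw [Finset.sum_congr rfl (fun i _ => key (w i) (w (i + 1))), Finset.sum_add_distrib,
      Finset.sum_sub_distrib]
    have h2 : ∑ i : Fin (m + 1), (if w (i + 1) = Fin.last K then (1 : ℤ) else 0) =
        ∑ i : Fin (m + 1), (if w i = Fin.last K then (1 : ℤ) else 0) :=
      Equiv.sum_comp (Equiv.addRight (1 : Fin (m + 1)))
        (fun i => if w i = Fin.last K then (1 : ℤ) else 0)
    rw [h2]
    ring
  exact_mod_cast h

theorem cdes_shift' (w : Fin (m + 1) → Fin (K + 1)) (c : Fin (K + 1)) :
    cdes (fun i => w i + c) = cdes w := by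
  have h : ∀ k : ℕ, ∀ c : Fin (K + 1), (c : ℕ) = k → cdes (fun i => w i + c) = cdes w := by
    intro k
    induction k with
    | zero =>
      intro c hc
      have : c = 0 := Fin.ext hc
      subst this
      simp
    | succ k ih =>
      intro c hc
      have hk : k < K + 1 := by have := c.2; omega
      have hc' : c = (⟨k, hk⟩ : Fin (K + 1)) + 1 := by
        apply Fin.ext
        rw [Fin.val_add_one, if_neg]
        · simpa using hc
        · intro h
          have h1 := congrArg Fin.val h
          simp only [Fin.val_last] at h1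
          have := c.2
          omega
      have h1 := ih ⟨k, hk⟩ rfl
      have h2 : (fun i => w i + c) =
          (fun i => (fun i => w i + (⟨k, hk⟩ : Fin (K + 1))) i + 1) := by
        funext i
        rw [hc', add_assoc]
      rw [h2, cdes_shift, h1]
  exact h c c rfl

/-- Sum of `z ^ des` over all rotations of a word. -/
theorem sum_rot (z : ℂ) (w : Fin (m + 1) → Fin K) :
    ∑ r : Fin (m + 1), z ^ des (fun i => w (i + r)) =
      (cdes w : ℂ) * z ^ (cdes w - 1) + ((m + 1 : ℂ) - cdes w) * z ^ cdes w := by
  have h1 : ∀ r : Fin (m + 1), z ^ des (fun i => w (i + r)) =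
      (if w r < w (Fin.last m + r) then 1 else 0) * z ^ (cdes w - 1) +
      (1 - (if w r < w (Fin.last m + r) then 1 else 0)) * z ^ cdes w := by
    intro r
    have h2 := cdes_eq (fun i => w (i + r))
    rw [cdes_rot] at h2
    simp only [zero_add] at h2
    split_ifs with h
    · rw [if_pos h] at h2
      rw [h2]
      simp
    · rw [if_neg h] at h2
      rw [h2]
      simp
  have h3 : (∑ r : Fin (m + 1), (if w r < w (Fin.last m + r) then (1 : ℂ) else 0)) = cdes w := by
    unfold cdes
    push_cast
    rw [← Equiv.sum_comp (Equiv.addRight (1 : Fin (m + 1)))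
      (fun r => if w r < w (Fin.last m + r) then (1 : ℂ) else 0)]
    apply Finset.sum_congr rfl
    intro r _
    have h : Fin.last m + (r + 1) = r := by
      rw [add_comm r 1, ← add_assoc, Fin.last_add_one, zero_add]
    simp only [Equiv.coe_addRight, h]
  rw [Finset.sum_congr rfl (fun r _ => h1 r), Finset.sum_add_distrib, ← Finset.sum_mul,
    ← Finset.sum_mul, Finset.sum_sub_distrib, h3]
  simp

/-- For a rotation-invariant property, the descent sum does not change under a shift. -/
theorem sum_shift (z : ℂ) (Q : (Fin (m + 1) → Fin (K + 1)) → Prop) [DecidablePred Q]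
    (hQ : ∀ w r, Q (fun i => w (i + r)) ↔ Q w) (c : Fin (K + 1)) :
    (∑ w, if Q w then z ^ des (fun i => w i + c) else 0) =
      ∑ w, if Q w then z ^ des w else 0 := by
  have key : ∀ c : Fin (K + 1), ((m + 1 : ℕ) : ℂ) *
      (∑ w, if Q w then z ^ des (fun i => w i + c) else 0) =
      ∑ w, if Q w then
        ((cdes w : ℂ) * z ^ (cdes w - 1) + ((m + 1 : ℂ) - cdes w) * z ^ cdes w) else 0 := by
    intro c
    have h1 : ∀ r : Fin (m + 1), (∑ w, if Q w then z ^ des (fun i => w i + c) else 0) =
        ∑ w, if Q w then z ^ des (fun i => w (i + r) + c) else 0 := by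
      intro r
      let e : (Fin (m + 1) → Fin (K + 1)) ≃ (Fin (m + 1) → Fin (K + 1)) :=
        Equiv.arrowCongr (Equiv.addRight r).symm (Equiv.refl _)
      rw [← Equiv.sum_comp e (fun w => if Q w then z ^ des (fun i => w i + c) else 0)]
      apply Finset.sum_congr rfl
      intro w _
      have he : e w = fun i => w (i + r) := by
        funext i
        simp [e, Equiv.arrowCongr]
      rw [he]
      simp only [hQ]
    have h2 : ((m + 1 : ℕ) : ℂ) *
      (∑ w, if Q w then z ^ des (fun i => w i + c) else 0) =
      ∑ r : Fin (m + 1), (∑ w, if Q w then z ^ des (fun i => w (i + r) + c) else 0) := by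
      rw [← Finset.sum_congr rfl (fun r _ => h1 r)]
      simp
    rw [h2, Finset.sum_comm]
    apply Finset.sum_congr rfl
    intro w _
    by_cases hw : Q w
    · simp only [if_pos hw]
      have h3 := sum_rot z (fun i => w i + c)
      rw [h3, cdes_shift']
    · simp only [if_neg hw, Finset.sum_const_zero]
  have h0 := key 0
  have hc := key c
  have hne : ((m + 1 : ℕ) : ℂ) ≠ 0 := by exact_mod_cast Nat.succ_ne_zero m
  have h := hc.trans h0.symm
  have h' := mul_left_cancel₀ hne h
  rw [h']
  simp

end cyclic

/-! ### Pollak's cycle lemma -/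

section pollak

variable {m : ℕ}

/-- Parking functions, as words in `{0, …, m + 1}`. -/
def PF (w : Fin (m + 1) → Fin (m + 2)) : Prop :=
  ∀ k : ℕ, k ≤ m + 1 → k ≤ (univ.filter (fun i : Fin (m + 1) => (w i : ℕ) < k)).card

theorem PF_rot (w : Fin (m + 1) → Fin (m + 2)) (r : Fin (m + 1)) :
    PF (fun i => w (i + r)) ↔ PF w := by
  unfold PF
  have h : ∀ k : ℕ, (univ.filter (fun i : Fin (m + 1) => (w (i + r) : ℕ) < k)).card =
      (univ.filter (fun i : Fin (m + 1) => (w i : ℕ) < k)).card := by
    intro k
    rw [Finset.card_filter, Finset.card_filter]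
    exact Equiv.sum_comp (Equiv.addRight r) (fun i => if (w i : ℕ) < k then 1 else 0)
  simp only [h]

/-- Steps of the walk. -/
def xs (w : Fin (m + 1) → Fin (m + 2)) (v : ℕ) : ℤ :=
  ((univ.filter (fun i : Fin (m + 1) => (w i : ℕ) = v % (m + 2))).card : ℤ) - 1

/-- The walk. -/
def SS (w : Fin (m + 1) → Fin (m + 2)) (k : ℕ) : ℤ := ∑ v ∈ range k, xs w v

theorem SS_succ (w : Fin (m + 1) → Fin (m + 2)) (k : ℕ) : SS w (k + 1) = SS w k + xs w k := by
  unfold SS
  rw [Finset.sum_range_succ]

theorem count (w : Fin (m + 1) → Fin (m + 2)) (c : Fin (m + 2)) (k : ℕ) (hk : k ≤ m + 2) :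
    ((univ.filter (fun i : Fin (m + 1) => ((w i - c : Fin (m + 2)) : ℕ) < k)).card : ℤ) =
      SS w (c + k) - SS w c + k := by
  induction k with
  | zero => simp
  | succ k ih =>
    have ih' := ih (by omega)
    have h1 : (univ.filter (fun i : Fin (m + 1) => ((w i - c : Fin (m + 2)) : ℕ) < k + 1)) =
        (univ.filter (fun i : Fin (m + 1) => ((w i - c : Fin (m + 2)) : ℕ) < k)) ∪
        (univ.filter (fun i : Fin (m + 1) => ((w i : Fin (m + 2)) : ℕ) = (c + k) % (m + 2))) := by
      ext i
      simp only [Finset.mem_filter, Finset.mem_univ, true_and, Finset.mem_union]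
      have h2 : ((w i - c : Fin (m + 2)) : ℕ) = k ↔ ((w i : Fin (m + 2)) : ℕ) =
          (c + k) % (m + 2) := by
        have hk' : k < m + 2 := by omega
        have h3 : (((⟨k, hk'⟩ : Fin (m + 2)) + c : Fin (m + 2)) : ℕ) = (c + k) % (m + 2) := by
          rw [Fin.val_add, add_comm]
        rw [← h3, ← Fin.ext_iff, ← sub_eq_iff_eq_add, Fin.ext_iff]
      rw [← h2]
      omega
    rw [h1, Finset.card_union_of_disjoint]
    · push_cast
      rw [ih', show (c : ℕ) + (k + 1) = (c : ℕ) + k + 1 from rfl, SS_succ, xs]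
      ring
    · rw [Finset.disjoint_filter]
      intro i _ h2 h3
      have hk' : k < m + 2 := by omega
      have h4 : (((⟨k, hk'⟩ : Fin (m + 2)) + c : Fin (m + 2)) : ℕ) = (c + k) % (m + 2) := by
        rw [Fin.val_add, add_comm]
      rw [← h4, ← Fin.ext_iff, ← sub_eq_iff_eq_add, Fin.ext_iff] at h3
      simp only at h3
      omega

theorem SS_period (w : Fin (m + 1) → Fin (m + 2)) (j : ℕ) : SS w (j + (m + 2)) = SS w j - 1 := by
  induction j with
  | zero =>
    have h := count w 0 (m + 2) le_rfl
    have h1 : (univ.filter (fun i : Fin (m + 1) => ((w i - 0 : Fin (m + 2)) : ℕ) < m + 2)) =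
        univ := by
      apply Finset.filter_true_of_mem
      intro i _
      exact (w i - 0).2
    rw [h1, Finset.card_univ, Fintype.card_fin] at h
    simp only [Fin.val_zero, zero_add] at h ⊢
    have h0 : SS w 0 = 0 := rfl
    rw [h0] at h ⊢
    push_cast at h
    linarith
  | succ j ih =>
    rw [show j + 1 + (m + 2) = j + (m + 2) + 1 by ring, SS_succ, ih, SS_succ]
    have : xs w (j + (m + 2)) = xs w j := by
      unfold xs
      rw [Nat.add_mod_right]
    rw [this]
    ring

theorem PF_iff (w : Fin (m + 1) → Fin (m + 2)) (c : Fin (m + 2)) :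
    PF (fun i => w i - c) ↔ ∀ k : ℕ, k ≤ m + 1 → SS w c ≤ SS w (c + k) := by
  unfold PF
  constructor
  · intro h k hk
    have h1 := h k hk
    have h2 := count w c k (by omega)
    have h3 : (k : ℤ) ≤ ((univ.filter
      (fun i : Fin (m + 1) => ((w i - c : Fin (m + 2)) : ℕ) < k)).card : ℤ) := by
      exact_mod_cast h1
    rw [h2] at h3
    linarith
  · intro h k hk
    have h1 := h k hk
    have h2 := count w c k (by omega)
    have h3 : (k : ℤ) ≤ ((univ.filter
      (fun i : Fin (m + 1) => ((w i - c : Fin (m + 2)) : ℕ) < k)).card : ℤ) := by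
      rw [h2]
      linarith
    exact_mod_cast h3

theorem pollak (w : Fin (m + 1) → Fin (m + 2)) : ∃! c : Fin (m + 2), PF (fun i => w i - c) := by
  obtain ⟨s, hs, hmin⟩ := Finset.exists_min_image (range (m + 2))
    (fun s => SS w s * ((m : ℤ) + 2) + s) ⟨0, by simp⟩
  rw [Finset.mem_range] at hs
  have hm : (0 : ℤ) ≤ (m : ℤ) := Int.natCast_nonneg m
  have f1 : ∀ j : ℕ, j < m + 2 → SS w s ≤ SS w j := by
    intro j hj
    have h1 := hmin j (Finset.mem_range.2 hj)
    by_contra hlt
    push Not at hlt
    have h2 : SS w j + 1 ≤ SS w s := hlt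
    have h3 : (SS w j + 1) * ((m : ℤ) + 2) ≤ SS w s * ((m : ℤ) + 2) :=
      mul_le_mul_of_nonneg_right h2 (by linarith)
    have h4 : (j : ℤ) < m + 2 := by exact_mod_cast hj
    have h5 : (0 : ℤ) ≤ s := Int.natCast_nonneg s
    nlinarith
  have f2 : ∀ j : ℕ, j < s → SS w s + 1 ≤ SS w j := by
    intro j hj
    have h1 := hmin j (Finset.mem_range.2 (by omega))
    have h2 := f1 j (by omega)
    by_contra hlt
    push Not at hlt
    have h3 : SS w j = SS w s := by omega
    rw [h3] at h1
    have h4 : (j : ℤ) < s := by exact_mod_cast hj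
    linarith
  refine ⟨⟨s, hs⟩, ?_, ?_⟩
  · show PF (fun i => w i - (⟨s, hs⟩ : Fin (m + 2)))
    rw [PF_iff]
    intro k hk
    simp only
    by_cases h : s + k < m + 2
    · exact f1 _ h
    · have h1 : s + k = (s + k - (m + 2)) + (m + 2) := by omega
      rw [h1, SS_period]
      have := f2 (s + k - (m + 2)) (by omega)
      linarith
  · intro c hc
    rw [PF_iff] at hc
    have hgood : ∀ k : ℕ, k ≤ m + 1 → SS w s ≤ SS w (s + k) := by
      intro k hk
      by_cases h : s + k < m + 2
      · exact f1 _ h
      · have h1 : s + k = (s + k - (m + 2)) + (m + 2) := by omega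
        rw [h1, SS_period]
        have := f2 (s + k - (m + 2)) (by omega)
        linarith
    apply Fin.ext
    simp only
    have uniq : ∀ a b : ℕ, a < b → b < m + 2 → (∀ k : ℕ, k ≤ m + 1 → SS w a ≤ SS w (a + k)) →
        (∀ k : ℕ, k ≤ m + 1 → SS w b ≤ SS w (b + k)) → False := by
      intro a b hab hb ha' hb'
      have h1 := ha' (b - a) (by omega)
      have h2 := hb' (a + (m + 2) - b) (by omega)
      rw [show a + (b - a) = b by omega] at h1
      rw [show b + (a + (m + 2) - b) = a + (m + 2) by omega, SS_period] at h2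
      linarith
    rcases lt_trichotomy (c : ℕ) s with h | h | h
    · exact (uniq _ _ h hs hc hgood).elim
    · exact h
    · exact (uniq _ _ h c.2 hgood hc).elim

open Classical in
theorem total_eq_mul (z : ℂ) :
    (∑ w : Fin (m + 1) → Fin (m + 2), z ^ des w) =
      ((m + 2 : ℕ) : ℂ) * ∑ w : Fin (m + 1) → Fin (m + 2), if PF w then z ^ des w else 0 := by
  have h1 : ∀ w : Fin (m + 1) → Fin (m + 2), z ^ des w =
      ∑ c : Fin (m + 2), if PF (fun i => w i - c) then z ^ des w else 0 := by
    intro w
    obtain ⟨c, hc, huniq⟩ := pollak w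
    rw [Finset.sum_eq_single c]
    · rw [if_pos hc]
    · intro b _ hb
      rw [if_neg]
      intro h
      exact hb (huniq b h)
    · simp
  rw [Finset.sum_congr rfl (fun w _ => h1 w), Finset.sum_comm]
  have h2 : ∀ c : Fin (m + 2), (∑ w : Fin (m + 1) → Fin (m + 2),
      if PF (fun i => w i - c) then z ^ des w else 0) =
      ∑ w : Fin (m + 1) → Fin (m + 2), if PF w then z ^ des w else 0 := by
    intro c
    rw [← sum_shift z PF PF_rot c]
    rw [← Equiv.sum_comp (Equiv.addRight (fun _ : Fin (m + 1) => c))
      (fun w => if PF (fun i => w i - c) then z ^ des w else 0)]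
    apply Finset.sum_congr rfl
    intro w _
    have h3 : (fun i => (Equiv.addRight (fun _ : Fin (m + 1) => c)) w i - c) = w := by
      funext i
      simp
    have h4 : (Equiv.addRight (fun _ : Fin (m + 1) => c)) w = fun i => w i + c := by
      funext i
      simp
    rw [h3, h4]
  rw [Finset.sum_congr rfl (fun c _ => h2 c)]
  simp

open Classical in
theorem PF_sum_ne_zero (z : ℂ) (hz : 0 < z.im) :
    (∑ w : Fin (m + 1) → Fin (m + 2), if PF w then z ^ des w else 0) ≠ 0 := by
  intro h
  have h1 := total_ne_zero (K := m + 2) z hz m (by omega)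
  rw [total_eq_mul, h, mul_zero] at h1
  exact h1 rfl

end pollak

/-! ### Descents as pairs, real roots -/

theorem pairs_card {m K : ℕ} (f : Fin (m + 1) → Fin K) :
    ((univ : Finset (Fin (m + 1) × Fin (m + 1))).filter
      (fun q => q.2.val = q.1.val + 1 ∧ f q.2 < f q.1)).card = des f := by
  unfold des
  rw [← Finset.card_filter]
  symm
  apply Finset.card_bij (fun i _ => (i.castSucc, i.succ))
  · intro i hi
    rw [Finset.mem_filter] at hi ⊢
    exact ⟨Finset.mem_univ _, by simp, hi.2⟩
  · intro i _ j _ h
    have h1 := congrArg Prod.fst h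
    exact Fin.castSucc_injective _ h1
  · rintro ⟨a, b⟩ hq
    rw [Finset.mem_filter] at hq
    obtain ⟨_, h1, h2⟩ := hq
    simp only at h1 h2
    have ha : (a : ℕ) < m := by have := b.2; omega
    have e1 : (⟨a, ha⟩ : Fin m).castSucc = a := Fin.ext rfl
    have e2 : (⟨a, ha⟩ : Fin m).succ = b := Fin.ext h1.symm
    refine ⟨⟨a, ha⟩, ?_, ?_⟩
    · rw [Finset.mem_filter]
      rw [e1, e2]
      exact ⟨Finset.mem_univ _, h2⟩
    · rw [e1, e2]

theorem real_rooted_aux (d : ℕ) : ∀ p : Polynomial ℝ, p ≠ 0 → p.natDegree = d →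
    (∀ z : ℂ, Polynomial.aeval z p = 0 → z.im = 0) → Multiset.card p.roots = p.natDegree := by
  induction d with
  | zero =>
    intro p _ hd _
    rw [Polynomial.eq_C_of_natDegree_eq_zero hd]
    simp
  | succ d ih =>
    intro p hp hd hz
    have hdeg : p.degree ≠ 0 := by
      intro h
      rw [Polynomial.degree_eq_natDegree hp, hd] at h
      exact absurd h (by exact_mod_cast Nat.succ_ne_zero d)
    obtain ⟨z, hz0⟩ := IsAlgClosed.exists_aeval_eq_zero ℂ p hdeg
    have him := hz z hz0
    have hzr : z = ((z.re : ℝ) : ℂ) := Complex.ext rfl (by simpa using him)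
    have hroot : p.IsRoot z.re := by
      have h1 : Polynomial.aeval (algebraMap ℝ ℂ z.re) p = 0 := by
        have : algebraMap ℝ ℂ z.re = z := hzr.symm
        rw [this, hz0]
      rw [Polynomial.aeval_algebraMap_apply] at h1
      have h2 := (map_eq_zero (algebraMap ℝ ℂ)).1 h1
      simpa using h2
    obtain ⟨q, hq⟩ := Polynomial.dvd_iff_isRoot.2 hroot
    have hq0 : q ≠ 0 := by
      rintro rfl
      exact hp (by rw [hq, mul_zero])
    have hX : (Polynomial.X - Polynomial.C z.re : Polynomial ℝ) ≠ 0 :=
      Polynomial.X_sub_C_ne_zero _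
    have hdq : q.natDegree = d := by
      rw [hq, Polynomial.natDegree_mul hX hq0, Polynomial.natDegree_X_sub_C] at hd
      omega
    have ihq := ih q hq0 hdq (by
      intro y hy
      apply hz y
      rw [hq, map_mul, hy, mul_zero])
    rw [hq, Polynomial.roots_mul (mul_ne_zero hX hq0), Multiset.card_add, ihq,
      Polynomial.roots_X_sub_C, Multiset.card_singleton, Polynomial.natDegree_mul hX hq0,
      Polynomial.natDegree_X_sub_C]

theorem real_rooted (p : Polynomial ℝ) (h : ∀ z : ℂ, 0 < z.im → Polynomial.aeval z p ≠ 0) :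
    Multiset.card p.roots = p.natDegree := by
  have hp : p ≠ 0 := by
    rintro rfl
    exact h Complex.I (by simp) (by simp)
  apply real_rooted_aux p.natDegree p hp rfl
  intro z hz
  by_contra hne
  rcases lt_or_gt_of_ne hne with hlt | hgt
  · apply h (conj z) (by simpa using hlt)
    have h1 := congrArg conj hz
    rw [map_zero] at h1
    rw [← h1]
    rw [Polynomial.aeval_def, Polynomial.aeval_def, Polynomial.hom_eval₂]
    congr 1
    ext x
    simp
  · exact h z hgt hz

/-- For every n, the polynomial summing z^(number of descents) over all parking functions of length n has only real roots, i.e. its number of real roots with multiplicity equals its degree. -/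
theorem result :
    ∀ n : ℕ, ∀ p : Polynomial ℝ,
      p = ∑ f ∈ (Finset.univ : Finset (Fin n → Fin n)).filter
              (fun f => ∀ k : ℕ, k ≤ n →
                k ≤ (Finset.univ.filter (fun i : Fin n => (f i : ℕ) < k)).card),
            (Polynomial.X : Polynomial ℝ) ^
              ((Finset.univ : Finset (Fin n × Fin n)).filter
                (fun q => q.2.val = q.1.val + 1 ∧ f q.2 < f q.1)).card →
      Multiset.card p.roots = p.natDegree := by
  intro n p hp
  rcases n with _ | m
  · subst hp
    simp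
  classical
  apply real_rooted
  intro z hz h0
  apply PF_sum_ne_zero (m := m) z hz
  refine Eq.trans ?_ h0
  rw [hp, map_sum]
  simp only [map_pow, Polynomial.aeval_X, pairs_card]
  rw [← Finset.sum_filter]
  symm
  apply Finset.sum_bij (fun (f : Fin (m + 1) → Fin (m + 1)) _ =>
    (fun i => (f i).castSucc : Fin (m + 1) → Fin (m + 2)))
  · intro f hf
    rw [Finset.mem_filter] at hf ⊢
    refine ⟨Finset.mem_univ _, ?_⟩
    intro k hk
    have := hf.2 k hk
    simpa using this
  · intro f _ g _ h
    funext i
    exact Fin.castSucc_injective _ (congrFun h i)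
  · intro w hw
    rw [Finset.mem_filter] at hw
    have hlt : ∀ i, (w i : ℕ) < m + 1 := by
      have h1 := hw.2 (m + 1) le_rfl
      have h2 : (univ.filter (fun i : Fin (m + 1) => (w i : ℕ) < m + 1)) = univ := by
        apply Finset.eq_univ_of_card
        apply le_antisymm (Finset.card_le_univ _)
        rw [Fintype.card_fin]
        exact h1
      intro i
      have h3 := Finset.mem_univ i
      rw [← h2, Finset.mem_filter] at h3
      exact h3.2
    refine ⟨fun i => ⟨w i, hlt i⟩, ?_, ?_⟩
    · rw [Finset.mem_filter]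
      exact ⟨Finset.mem_univ _, hw.2⟩
    · funext i
      rfl
  · intro f _
    rfl

end Pool.Agent.S2699
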