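import Pool.Statements.S2718
import Pool.Agent.Helpers.PickerChooser

set_option autoImplicit false
open Filter
open Pool Pool.MP_cd7f8f_co

namespace Pool.Agent.S2718

/-- The negation of the preceding statement: In the n×n Picker–Chooser row discrepancy game, the largest row lead (Picker marks minus Chooser marks) Picker can guarantee at game end is (1+o(1))·sqrt(2 n log n) as n grows. -/
theorem result :
    ¬ (∀ ε : ℝ, ε > 0 → ∀ᶠ n : ℕ in atTop,
      (∃ k : ℤ, (1 - ε) * Real.sqrt (2 * (n : ℝ) * Real.log n) ≤ (k : ℝ) ∧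
        ∃ W : Set (Finset (Fin n × Fin n) × Finset (Fin n × Fin n)),
          ((∅ : Finset (Fin n × Fin n)), (∅ : Finset (Fin n × Fin n))) ∈ W ∧
          ∀ p ∈ W,
            ((p.1 ∪ p.2).card + 2 > n * n ∧
              ∃ i : Fin n, k ≤ ((Finset.filter (fun x : Fin n × Fin n => x.1 = i) p.1).card : ℤ)
                  - ((Finset.filter (fun x : Fin n × Fin n => x.1 = i) p.2).card : ℤ)) ∨
            ∃ a b : Fin n × Fin n, a ≠ b ∧ a ∉ p.1 ∪ p.2 ∧ b ∉ p.1 ∪ p.2 ∧
              (insert a p.1, insert b p.2) ∈ W ∧ (insert b p.1, insert a p.2) ∈ W) ∧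
      (∀ k : ℤ,
        (∃ W : Set (Finset (Fin n × Fin n) × Finset (Fin n × Fin n)),
          ((∅ : Finset (Fin n × Fin n)), (∅ : Finset (Fin n × Fin n))) ∈ W ∧
          ∀ p ∈ W,
            ((p.1 ∪ p.2).card + 2 > n * n ∧
              ∃ i : Fin n, k ≤ ((Finset.filter (fun x : Fin n × Fin n => x.1 = i) p.1).card : ℤ)
                  - ((Finset.filter (fun x : Fin n × Fin n => x.1 = i) p.2).card : ℤ)) ∨
            ∃ a b : Fin n × Fin n, a ≠ b ∧ a ∉ p.1 ∪ p.2 ∧ b ∉ p.1 ∪ p.2 ∧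
              (insert a p.1, insert b p.2) ∈ W ∧ (insert b p.1, insert a p.2) ∈ W) →
        (k : ℝ) ≤ (1 + ε) * Real.sqrt (2 * (n : ℝ) * Real.log n))) := by
  intro hmain
  have h1 := hmain 0.1 (by norm_num)
  have h2 : ∀ᶠ n : ℕ in atTop, 400 ≤ Real.log n := by
    have := Real.tendsto_log_atTop.comp (tendsto_natCast_atTop_atTop (R := ℝ))
    exact (tendsto_atTop.1 this) 400
  obtain ⟨n, ⟨⟨k, hk1, hk2⟩, _⟩, hn⟩ := (h1.and h2).exists
  have h3 := Pool.Agent.PickerChooser.bound n hn k hk2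
  have hnpos : 1 ≤ (n : ℝ) := by
    rcases Nat.eq_zero_or_pos n with h | h
    · subst h; simp at hn; norm_num at hn
    · exact_mod_cast h
  have h4 : Real.sqrt (2 * (n : ℝ) * Real.log n) = Real.sqrt 2 * Real.sqrt (n * Real.log n) := by
    rw [mul_assoc, Real.sqrt_mul (by norm_num)]
  have h5 : 1.4 ≤ Real.sqrt 2 := by
    apply Real.le_sqrt_of_sq_le
    norm_num
  have h6 : 20 ≤ Real.sqrt (n * Real.log n) := by
    apply Real.le_sqrt_of_sq_le
    nlinarith
  rw [h4] at hk1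
  nlinarith

end Pool.Agent.S2718
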