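import Pool.Statements.S2736
-- import your own Pool.Agent.* helpers here

set_option autoImplicit false
open Pool Pool.MP_d1f9c8_co

namespace Pool.Agent.S2736

open Function

/-- graph embeddings as not necessarily induced subgraphs -/
def E {V W : Type} (G : SimpleGraph V) (M : SimpleGraph W) : Prop :=
  ∃ f : G →g M, Injective f

theorem E.comp {U V W : Type} {G : SimpleGraph U} {H : SimpleGraph V} {M : SimpleGraph W}
    (h₁ : E G H) (h₂ : E H M) : E G M := by
  obtain ⟨f, hf⟩ := h₁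
  obtain ⟨g, hg⟩ := h₂
  exact ⟨g.comp f, hg.comp hf⟩

/-- the join of two graphs -/
def jn {V W : Type} (G : SimpleGraph V) (H : SimpleGraph W) : SimpleGraph (V ⊕ W) where
  Adj x y := match x, y with
    | Sum.inl a, Sum.inl b => G.Adj a b
    | Sum.inr a, Sum.inr b => H.Adj a b
    | Sum.inl _, Sum.inr _ => True
    | Sum.inr _, Sum.inl _ => True
  symm := ⟨by
    rintro (a | a) (b | b) h
    · exact SimpleGraph.Adj.symm h
    · trivial
    · trivial
    · exact SimpleGraph.Adj.symm h⟩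
  loopless := ⟨by
    rintro (a | a) h
    · exact G.loopless.irrefl a h
    · exact H.loopless.irrefl a h⟩

def A4 : SimpleGraph (Fin 4) := ⊥
def B3 : SimpleGraph (Fin 3) where
  Adj a b := (a = 0 ∧ b = 1) ∨ (a = 1 ∧ b = 0)
  symm := ⟨by rintro a b (⟨h, h'⟩ | ⟨h, h'⟩) <;> simp [h, h']⟩
  loopless := ⟨by rintro a (⟨h, h'⟩ | ⟨h, h'⟩) <;> simp_all⟩

abbrev AA : SimpleGraph (Fin 4 ⊕ Fin 4) := jn A4 A4
abbrev BB : SimpleGraph (Fin 3 ⊕ Fin 3) := jn B3 B3

/-- the first irreducible class -/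
def Q1 (n : ℕ) (G : SimpleGraph (Fin n)) : Prop := E G A4 ∨ E G B3
/-- the second irreducible class -/
def Q2 (n : ℕ) (G : SimpleGraph (Fin n)) : Prop := E G AA ∨ E G BB

/-- hereditary classes -/
def Her (P : (n : ℕ) → SimpleGraph (Fin n) → Prop) : Prop :=
  ∀ (a b : ℕ) (G : SimpleGraph (Fin a)) (H : SimpleGraph (Fin b)) (f : H →g G),
    Injective f → P a G → P b H

/-- membership of a graph on an arbitrary vertex type -/
def Has (P : (n : ℕ) → SimpleGraph (Fin n) → Prop) {V : Type} (G : SimpleGraph V) : Prop :=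
  ∃ (r : ℕ) (K : SimpleGraph (Fin r)), P r K ∧ Nonempty (G ≃g K)

theorem exists_fin_copy {V : Type} [Finite V] (G : SimpleGraph V) :
    ∃ (r : ℕ) (K : SimpleGraph (Fin r)), Nonempty (G ≃g K) := by
  obtain ⟨n, ⟨e⟩⟩ := Finite.exists_equiv_fin V
  exact ⟨n, G.map e.toEmbedding, ⟨SimpleGraph.Iso.map e G⟩⟩

theorem E_of_iso {V W : Type} {G : SimpleGraph V} {H : SimpleGraph W} (e : G ≃g H) : E G H :=
  ⟨e.toHom, e.injective⟩

theorem Has.mono {P : (n : ℕ) → SimpleGraph (Fin n) → Prop} (hP : Her P) {V W : Type}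
    [Finite V] {G : SimpleGraph V} {H : SimpleGraph W} (h : Has P H) (hE : E G H) : Has P G := by
  obtain ⟨r, K, hK, ⟨e⟩⟩ := h
  obtain ⟨s, L, ⟨e'⟩⟩ := exists_fin_copy G
  obtain ⟨f, hf⟩ := (E_of_iso e'.symm).comp (hE.comp (E_of_iso e))
  exact ⟨s, L, hP r s K L f hf hK, ⟨e'⟩⟩

theorem her_Q1 : Her Q1 := by
  intro a b G H f hf h
  have hE : E H G := ⟨f, hf⟩
  exact h.imp hE.comp hE.comp

theorem her_Q2 : Her Q2 := by
  intro a b G H f hf h
  have hE : E H G := ⟨f, hf⟩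
  exact h.imp hE.comp hE.comp

theorem has_Q1 {V : Type} [Finite V] (G : SimpleGraph V) : Has Q1 G ↔ E G A4 ∨ E G B3 := by
  constructor
  · rintro ⟨r, K, hK, ⟨e⟩⟩
    exact hK.imp (E_of_iso e).comp (E_of_iso e).comp
  · intro h
    obtain ⟨r, K, ⟨e⟩⟩ := exists_fin_copy G
    exact ⟨r, K, h.imp (E_of_iso e.symm).comp (E_of_iso e.symm).comp, ⟨e⟩⟩

theorem has_Q2 {V : Type} [Finite V] (G : SimpleGraph V) : Has Q2 G ↔ E G AA ∨ E G BB := by
  constructor
  · rintro ⟨r, K, hK, ⟨e⟩⟩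
    exact hK.imp (E_of_iso e).comp (E_of_iso e).comp
  · intro h
    obtain ⟨r, K, ⟨e⟩⟩ := exists_fin_copy G
    exact ⟨r, K, h.imp (E_of_iso e.symm).comp (E_of_iso e.symm).comp, ⟨e⟩⟩

/-- the statement that `P` is the product of `A` and `B` -/
def IsProd (P A B : (n : ℕ) → SimpleGraph (Fin n) → Prop) : Prop :=
  ∀ (n : ℕ) (G : SimpleGraph (Fin n)),
    (P n G ↔ ∃ S : Set (Fin n),
      (∃ (r : ℕ) (K : SimpleGraph (Fin r)), A r K ∧ Nonempty (G.induce S ≃g K)) ∧
      (∃ (r : ℕ) (K : SimpleGraph (Fin r)), B r K ∧ Nonempty (G.induce Sᶜ ≃g K)))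

theorem E_induce_preimage {V W : Type} {G : SimpleGraph V} {H : SimpleGraph W} (e : G ≃g H)
    (S : Set W) : E (G.induce (e ⁻¹' S)) (H.induce S) :=
  ⟨⟨fun x => ⟨e x.1, x.2⟩, fun {a b} h => (e.map_adj_iff (v := a.1) (w := b.1)).2 h⟩, by
    intro x y h
    apply Subtype.ext
    apply e.injective
    exact congrArg Subtype.val h⟩

section
variable {P A B : (n : ℕ) → SimpleGraph (Fin n) → Prop} (hP : Her P) (hA : Her A) (hB : Her B)
  (h : IsProd P A B)
include hP hA hB h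

theorem split {V : Type} [Finite V] (G : SimpleGraph V) (hG : Has P G) :
    ∃ S : Set V, Has A (G.induce S) ∧ Has B (G.induce Sᶜ) := by
  obtain ⟨r, K, hK, ⟨e⟩⟩ := hG
  obtain ⟨S, h1, h2⟩ := (h r K).1 hK
  refine ⟨e ⁻¹' S, Has.mono hA h1 (E_induce_preimage e S), Has.mono hB h2 ?_⟩
  rw [← Set.preimage_compl]
  exact E_induce_preimage e Sᶜ

theorem join_mem {V W : Type} [Finite V] [Finite W] (G : SimpleGraph V) (H : SimpleGraph W)
    (hG : Has A G) (hH : Has B H) : Has P (jn G H) := by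
  obtain ⟨r, K, ⟨e⟩⟩ := exists_fin_copy (jn G H)
  refine ⟨r, K, ?_, ⟨e⟩⟩
  rw [h r K]
  refine ⟨e.symm ⁻¹' (Set.range Sum.inl), Has.mono hA hG ?_, Has.mono hB hH ?_⟩
  · have h1 := E_induce_preimage e.symm (Set.range Sum.inl)
    refine h1.comp ?_
    have hsel : ∀ x : Set.range (Sum.inl : V → V ⊕ W), ∃ v : V, Sum.inl v = x.1 := fun x => x.2
    choose f hf using hsel
    refine ⟨⟨f, ?_⟩, ?_⟩
    · intro a b hab
      have h3 : (jn G H).Adj a.1 b.1 := hab
      rw [← hf a, ← hf b] at h3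
      exact h3
    · intro a b hab
      apply Subtype.ext
      rw [← hf a, ← hf b]
      exact congrArg Sum.inl hab
  · rw [← Set.preimage_compl]
    have h1 := E_induce_preimage e.symm (Set.range Sum.inl)ᶜ
    refine h1.comp ?_
    have hsel : ∀ x : ((Set.range (Sum.inl : V → V ⊕ W))ᶜ : Set (V ⊕ W)),
        ∃ v : W, Sum.inr v = x.1 := by
      rintro ⟨x | x, hx⟩
      · exact absurd ⟨x, rfl⟩ hx
      · exact ⟨x, rfl⟩
    choose f hf using hsel
    refine ⟨⟨f, ?_⟩, ?_⟩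
    · intro a b hab
      have h3 : (jn G H).Adj a.1 b.1 := hab
      rw [← hf a, ← hf b] at h3
      exact h3
    · intro a b hab
      apply Subtype.ext
      rw [← hf a, ← hf b]
      exact congrArg Sum.inr hab
end

theorem E_card {V W : Type} [Fintype V] [Fintype W] {G : SimpleGraph V} {H : SimpleGraph W}
    (h : E G H) : Fintype.card V ≤ Fintype.card W := by
  obtain ⟨f, hf⟩ := h
  exact Fintype.card_le_of_injective f hf

theorem has_one {A : (n : ℕ) → SimpleGraph (Fin n) → Prop} (h : A 1 ⊥) :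
    Has A (⊥ : SimpleGraph (Fin 1)) := ⟨1, ⊥, h, ⟨SimpleGraph.Iso.refl⟩⟩

theorem E_induce_univ {V : Type} (G : SimpleGraph V) (S : Set V) (hS : ∀ x, x ∈ S) :
    E G (G.induce S) :=
  ⟨⟨fun x => ⟨x, hS x⟩, fun {a b} h => h⟩, fun x y h => congrArg Subtype.val h⟩

theorem irr_Q1 (A B : (n : ℕ) → SimpleGraph (Fin n) → Prop) (hA : Her A) (hB : Her B)
    (a1 : A 1 ⊥) (b1 : B 1 ⊥) : ¬ IsProd Q1 A B := by
  classical
  intro h
  obtain ⟨S, h1, h2⟩ := split her_Q1 hA hB h A4 ((has_Q1 A4).2 (Or.inl ⟨SimpleGraph.Hom.id, injective_id⟩))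
  by_cases hS : ∃ x, x ∈ S
  · by_cases hS' : ∃ x, x ∉ S
    · have h3 := join_mem her_Q1 hA hB h _ _ h1 h2
      rw [has_Q1] at h3
      obtain ⟨x, hx⟩ := hS
      obtain ⟨y, hy⟩ := hS'
      rcases h3 with ⟨f, hf⟩ | h3
      · have h4 : (jn (A4.induce S) (A4.induce Sᶜ)).Adj (Sum.inl ⟨x, hx⟩) (Sum.inr ⟨y, hy⟩) :=
          trivial
        exact f.map_adj h4
      · have h4 := E_card h3
        have h5 : Fintype.card (S ⊕ (Sᶜ : Set (Fin 4))) = Fintype.card (Fin 4) :=
          Fintype.card_congr (Equiv.Set.sumCompl S)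
        rw [h5] at h4
        simp at h4
    · push Not at hS'
      have h3 : Has A A4 := Has.mono hA h1 (E_induce_univ A4 S hS')
      have h4 := join_mem her_Q1 hA hB h _ _ h3 (has_one b1)
      rw [has_Q1] at h4
      rcases h4 with h4 | h4
      · have := E_card h4; simp at this
      · have := E_card h4; simp at this
  · push Not at hS
    have h3 : Has B A4 := Has.mono hB h2 (E_induce_univ A4 Sᶜ hS)
    have h4 := join_mem her_Q1 hA hB h _ _ (has_one a1) h3
    rw [has_Q1] at h4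
    rcases h4 with h4 | h4
    · have := E_card h4; simp at this
    · have := E_card h4; simp at this

theorem AA_col (x y : Fin 4 ⊕ Fin 4) (h : AA.Adj x y) : x.isLeft ≠ y.isLeft := by
  rcases x with x | x <;> rcases y with y | y
  · exact absurd h (by intro h; exact h)
  · simp
  · simp
  · exact absurd h (by intro h; exact h)

theorem no_triangle_AA {V : Type} {G : SimpleGraph V} (h : E G AA) (x y z : V)
    (hxy : G.Adj x y) (hyz : G.Adj y z) (hxz : G.Adj x z) : False := by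
  obtain ⟨f, -⟩ := h
  have h1 := AA_col _ _ (f.map_adj hxy)
  have h2 := AA_col _ _ (f.map_adj hyz)
  have h3 := AA_col _ _ (f.map_adj hxz)
  revert h1 h2 h3
  generalize (f x).isLeft = a
  generalize (f y).isLeft = b
  generalize (f z).isLeft = c
  revert a b c
  decide

theorem BB_nonadj : ∀ y : Fin 3 ⊕ Fin 3, ∃ z, z ≠ y ∧ ¬ BB.Adj y z := by
  rintro (y | y)
  · fin_cases y
    · exact ⟨Sum.inl 2, by simp, by show ¬ B3.Adj 0 2; simp [B3]⟩
    · exact ⟨Sum.inl 2, by simp, by show ¬ B3.Adj 1 2; simp [B3]⟩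
    · exact ⟨Sum.inl 0, by simp, by show ¬ B3.Adj 2 0; simp [B3]⟩
  · fin_cases y
    · exact ⟨Sum.inr 2, by simp, by show ¬ B3.Adj 0 2; simp [B3]⟩
    · exact ⟨Sum.inr 2, by simp, by show ¬ B3.Adj 1 2; simp [B3]⟩
    · exact ⟨Sum.inr 0, by simp, by show ¬ B3.Adj 2 0; simp [B3]⟩

/-- the join of `A4` with an edge is not in `Q2` -/
theorem not_Q2 : ¬ Has Q2 (jn A4 (⊤ : SimpleGraph (Fin 2))) := by
  intro h
  rw [has_Q2] at h
  rcases h with h | h
  · exact no_triangle_AA h (Sum.inl 0) (Sum.inr 0) (Sum.inr 1) trivial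
      (by show (⊤ : SimpleGraph (Fin 2)).Adj 0 1; simp) trivial
  · obtain ⟨f, hf⟩ := h
    have hbij : Bijective f := (Fintype.bijective_iff_injective_and_card f).2 ⟨hf, by simp⟩
    obtain ⟨z, hz, hnz⟩ := BB_nonadj (f (Sum.inr 0))
    obtain ⟨w, rfl⟩ := hbij.2 z
    apply hnz
    apply f.map_adj
    rcases w with w | w
    · trivial
    · show (⊤ : SimpleGraph (Fin 2)).Adj 0 w
      rw [SimpleGraph.top_adj]
      rintro rfl
      exact hz rfl

/-- and symmetrically -/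
theorem not_Q2' : ¬ Has Q2 (jn (⊤ : SimpleGraph (Fin 2)) A4) := by
  intro h
  apply not_Q2
  refine Has.mono her_Q2 h ⟨⟨Sum.swap, ?_⟩, Sum.swap_leftInverse.injective⟩
  rintro (a | a) (b | b) hab
  · exact hab
  · trivial
  · trivial
  · exact hab

theorem E_edge {V : Type} {G : SimpleGraph V} {a b : V} (h : G.Adj a b) :
    E (⊤ : SimpleGraph (Fin 2)) G := by
  refine ⟨⟨![a, b], ?_⟩, ?_⟩
  · intro x y hxy
    rw [SimpleGraph.top_adj] at hxy
    fin_cases x <;> fin_cases y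
    · exact absurd rfl hxy
    · exact h
    · exact h.symm
    · exact absurd rfl hxy
  · intro x y hxy
    have hne := h.ne
    fin_cases x <;> fin_cases y
    · rfl
    · exact absurd hxy hne
    · exact absurd hxy hne.symm
    · rfl

theorem final_contra (A B : (n : ℕ) → SimpleGraph (Fin n) → Prop) (hA : Her A) (hB : Her B)
    (h : IsProd Q2 A B) (h1 : Has A A4) (h2 : Has B A4) : False := by
  obtain ⟨T, hT1, hT2⟩ := split her_Q2 hA hB h BB ((has_Q2 BB).2 (Or.inr ⟨SimpleGraph.Hom.id, injective_id⟩))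
  have k1 : ∀ a b : Fin 3 ⊕ Fin 3, a ∈ T → b ∈ T → ¬ BB.Adj a b := by
    intro a b ha hb hab
    have h3 : (BB.induce T).Adj ⟨a, ha⟩ ⟨b, hb⟩ := hab
    exact not_Q2' (join_mem her_Q2 hA hB h _ _ (Has.mono hA hT1 (E_edge h3)) h2)
  have k2 : ∀ a b : Fin 3 ⊕ Fin 3, a ∉ T → b ∉ T → ¬ BB.Adj a b := by
    intro a b ha hb hab
    have h3 : (BB.induce Tᶜ).Adj ⟨a, ha⟩ ⟨b, hb⟩ := hab
    exact not_Q2 (join_mem her_Q2 hA hB h _ _ h1 (Has.mono hB hT2 (E_edge h3)))
  have e1 : BB.Adj (Sum.inl 0) (Sum.inl 1) := Or.inl ⟨rfl, rfl⟩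
  have e2 : BB.Adj (Sum.inl 0) (Sum.inr 0) := trivial
  have e3 : BB.Adj (Sum.inl 1) (Sum.inr 0) := trivial
  by_cases p : (Sum.inl 0 : Fin 3 ⊕ Fin 3) ∈ T <;> by_cases q : (Sum.inl 1 : Fin 3 ⊕ Fin 3) ∈ T <;>
    by_cases r : (Sum.inr 0 : Fin 3 ⊕ Fin 3) ∈ T
  · exact k1 _ _ p q e1
  · exact k1 _ _ p q e1
  · exact k1 _ _ p r e2
  · exact k2 _ _ q r e3
  · exact k1 _ _ q r e3
  · exact k2 _ _ p r e2
  · exact k2 _ _ p q e1
  · exact k2 _ _ p q e1

theorem irr_Q2 (A B : (n : ℕ) → SimpleGraph (Fin n) → Prop) (hA : Her A) (hB : Her B)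
    (a1 : A 1 ⊥) (b1 : B 1 ⊥) : ¬ IsProd Q2 A B := by
  classical
  intro h
  obtain ⟨S, h1, h2⟩ := split her_Q2 hA hB h AA ((has_Q2 AA).2 (Or.inl ⟨SimpleGraph.Hom.id, injective_id⟩))
  by_cases hS : ∃ x, x ∈ S
  swap
  · push Not at hS
    have h3 : Has B AA := Has.mono hB h2 (E_induce_univ AA Sᶜ hS)
    have h4 := join_mem her_Q2 hA hB h _ _ (has_one a1) h3
    rw [has_Q2] at h4
    rcases h4 with h4 | h4
    · have := E_card h4; simp at this
    · have := E_card h4; simp at this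
  by_cases hS' : ∃ x, x ∉ S
  swap
  · push Not at hS'
    have h3 : Has A AA := Has.mono hA h1 (E_induce_univ AA S hS')
    have h4 := join_mem her_Q2 hA hB h _ _ h3 (has_one b1)
    rw [has_Q2] at h4
    rcases h4 with h4 | h4
    · have := E_card h4; simp at this
    · have := E_card h4; simp at this
  obtain ⟨x₀, hx₀⟩ := hS
  obtain ⟨y₀, hy₀⟩ := hS'
  have h3 := join_mem her_Q2 hA hB h _ _ h1 h2
  rw [has_Q2] at h3
  rcases h3 with h3 | h3
  swap
  · have h4 := E_card h3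
    have h5 : Fintype.card (S ⊕ (Sᶜ : Set (Fin 4 ⊕ Fin 4))) = Fintype.card (Fin 4 ⊕ Fin 4) :=
      Fintype.card_congr (Equiv.Set.sumCompl S)
    rw [h5] at h4
    simp at h4
  have k1 : ∀ a b : Fin 4, (Sum.inl a : Fin 4 ⊕ Fin 4) ∈ S → (Sum.inr b : Fin 4 ⊕ Fin 4) ∉ S := by
    intro a b ha hb
    exact no_triangle_AA h3 (Sum.inl ⟨Sum.inl a, ha⟩) (Sum.inl ⟨Sum.inr b, hb⟩)
      (Sum.inr ⟨y₀, hy₀⟩) trivial trivial trivial
  have k2 : ∀ a b : Fin 4, (Sum.inl a : Fin 4 ⊕ Fin 4) ∉ S → (Sum.inr b : Fin 4 ⊕ Fin 4) ∈ S := by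
    intro a b ha
    by_contra hb
    exact no_triangle_AA h3 (Sum.inr ⟨Sum.inl a, ha⟩) (Sum.inr ⟨Sum.inr b, hb⟩)
      (Sum.inl ⟨x₀, hx₀⟩) trivial trivial trivial
  by_cases hl : (Sum.inl 0 : Fin 4 ⊕ Fin 4) ∈ S
  · -- left side in `S`, right side outside
    have r1 : ∀ b : Fin 4, (Sum.inr b : Fin 4 ⊕ Fin 4) ∉ S := fun b => k1 0 b hl
    have l1 : ∀ a : Fin 4, (Sum.inl a : Fin 4 ⊕ Fin 4) ∈ S := by
      intro a
      by_contra ha
      exact r1 0 (k2 a 0 ha)
    apply final_contra A B hA hB h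
    · exact Has.mono hA h1 ⟨⟨fun a => ⟨Sum.inl a, l1 a⟩, fun {a b} hab => hab.elim⟩,
        fun a b hab => Sum.inl_injective (congrArg Subtype.val hab)⟩
    · exact Has.mono hB h2 ⟨⟨fun a => ⟨Sum.inr a, r1 a⟩, fun {a b} hab => hab.elim⟩,
        fun a b hab => Sum.inr_injective (congrArg Subtype.val hab)⟩
  · have r1 : ∀ b : Fin 4, (Sum.inr b : Fin 4 ⊕ Fin 4) ∈ S := fun b => k2 0 b hl
    have l1 : ∀ a : Fin 4, (Sum.inl a : Fin 4 ⊕ Fin 4) ∉ S := fun a ha => k1 a 0 ha (r1 0)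
    apply final_contra A B hA hB h
    · exact Has.mono hA h1 ⟨⟨fun a => ⟨Sum.inr a, r1 a⟩, fun {a b} hab => hab.elim⟩,
        fun a b hab => Sum.inr_injective (congrArg Subtype.val hab)⟩
    · exact Has.mono hB h2 ⟨⟨fun a => ⟨Sum.inl a, l1 a⟩, fun {a b} hab => hab.elim⟩,
        fun a b hab => Sum.inl_injective (congrArg Subtype.val hab)⟩

/-! ### The two products agree -/

/-- embedding of an induced subgraph, as a function on all vertices -/
def EO {V W : Type} (G : SimpleGraph V) (S : Set V) (M : SimpleGraph W) : Prop :=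
  ∃ f : V → W, Set.InjOn f S ∧ ∀ a ∈ S, ∀ b ∈ S, G.Adj a b → M.Adj (f a) (f b)

theorem EO_iff {V W : Type} [Nonempty W] (G : SimpleGraph V) (S : Set V) (M : SimpleGraph W) :
    E (G.induce S) M ↔ EO G S M := by
  classical
  constructor
  · rintro ⟨f, hf⟩
    refine ⟨fun v => if hv : v ∈ S then f ⟨v, hv⟩ else Classical.arbitrary W, ?_, ?_⟩
    · intro a ha b hb hab
      simp only [dif_pos ha, dif_pos hb] at hab
      exact congrArg Subtype.val (hf hab)
    · intro a ha b hb hab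
      simp only [dif_pos ha, dif_pos hb]
      exact f.map_adj (v := ⟨a, ha⟩) (w := ⟨b, hb⟩) hab
  · rintro ⟨f, hf, hf'⟩
    exact ⟨⟨fun v => f v.1, fun {a b} h => hf' _ a.2 _ b.2 h⟩, fun a b hab =>
      Subtype.ext (hf a.2 b.2 hab)⟩

theorem EO_join {V W W' : Type} {G : SimpleGraph V} {S T : Set V}
    {M : SimpleGraph W} {N : SimpleGraph W'} (h₁ : EO G S M) (h₂ : EO G T N) :
    EO G (S ∪ T) (jn M N) := by
  classical
  obtain ⟨f, hf, hf'⟩ := h₁
  obtain ⟨g, hg, hg'⟩ := h₂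
  have memT : ∀ a, a ∈ S ∪ T → a ∉ S → a ∈ T := fun a ha h => ha.resolve_left h
  refine ⟨fun v => if v ∈ S then Sum.inl (f v) else Sum.inr (g v), ?_, ?_⟩
  · intro a ha b hb hab
    by_cases p : a ∈ S <;> by_cases q : b ∈ S <;> simp only [p, q, if_true, if_false] at hab
    · exact hf p q (Sum.inl_injective hab)
    · cases hab
    · cases hab
    · exact hg (memT a ha p) (memT b hb q) (Sum.inr_injective hab)
  · intro a ha b hb hab
    by_cases p : a ∈ S <;> by_cases q : b ∈ S <;> simp only [p, q, if_true, if_false]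
    · exact hf' a p b q hab
    · trivial
    · trivial
    · exact hg' a (memT a ha p) b (memT b hb q) hab

theorem EO_split {V W W' : Type} [Nonempty W] [Nonempty W'] {G : SimpleGraph V} {U : Set V}
    {M : SimpleGraph W} {N : SimpleGraph W'} (h : EO G U (jn M N)) :
    ∃ S : Set V, EO G (U ∩ S) M ∧ EO G (U ∩ Sᶜ) N := by
  classical
  obtain ⟨f, hf, hf'⟩ := h
  refine ⟨{v | (f v).isLeft = true}, ?_, ?_⟩
  · have hsel : ∀ v, ∃ w : W, (f v).isLeft = true → f v = Sum.inl w := by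
      intro v
      rcases hv : f v with w | w
      · exact ⟨w, fun _ => rfl⟩
      · exact ⟨Classical.arbitrary W, by simp⟩
    choose g hg using hsel
    refine ⟨g, ?_, ?_⟩
    · rintro a ⟨ha, ha'⟩ b ⟨hb, hb'⟩ hab
      apply hf ha hb
      rw [hg a ha', hg b hb', hab]
    · rintro a ⟨ha, ha'⟩ b ⟨hb, hb'⟩ hab
      have := hf' a ha b hb hab
      rw [hg a ha', hg b hb'] at this
      exact this
  · have hsel : ∀ v, ∃ w : W', ¬ (f v).isLeft = true → f v = Sum.inr w := by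
      intro v
      rcases hv : f v with w | w
      · exact ⟨Classical.arbitrary W', by simp⟩
      · exact ⟨w, fun _ => rfl⟩
    choose g hg using hsel
    refine ⟨g, ?_, ?_⟩
    · rintro a ⟨ha, ha'⟩ b ⟨hb, hb'⟩ hab
      apply hf ha hb
      rw [hg a ha', hg b hb', hab]
    · rintro a ⟨ha, ha'⟩ b ⟨hb, hb'⟩ hab
      have := hf' a ha b hb hab
      rw [hg a ha', hg b hb'] at this
      exact this

theorem has_induce_Q1 {n : ℕ} (G : SimpleGraph (Fin n)) (S : Set (Fin n)) :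
    Has Q1 (G.induce S) ↔ EO G S A4 ∨ EO G S B3 := by
  rw [has_Q1, EO_iff, EO_iff]

theorem has_induce_Q2 {n : ℕ} (G : SimpleGraph (Fin n)) (S : Set (Fin n)) :
    Has Q2 (G.induce S) ↔ EO G S AA ∨ EO G S BB := by
  rw [has_Q2, EO_iff, EO_iff]

theorem combine {n : ℕ} (G : SimpleGraph (Fin n)) (c : Fin n → Fin 3) (l i j : Fin 3)
    (hall : ∀ x, x = l ∨ x = i ∨ x = j) (hli : l ≠ i) (hlj : l ≠ j)
    (h₁ : Has Q1 (G.induce {v | c v = l}))
    (h₂ : (EO G {v | c v = i} A4 ∧ EO G {v | c v = j} A4) ∨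
      (EO G {v | c v = i} B3 ∧ EO G {v | c v = j} B3)) :
    ∃ c' : Fin n → Fin 2, Has Q1 (G.induce {v | c' v = 0}) ∧ Has Q2 (G.induce {v | c' v = 1}) := by
  classical
  refine ⟨fun v => if c v = l then 0 else 1, ?_, ?_⟩
  · have : {v | (if c v = l then (0 : Fin 2) else 1) = 0} = {v | c v = l} := by
      ext v
      by_cases hv : c v = l <;> simp [hv]
    rw [this]
    exact h₁
  · have : {v | (if c v = l then (0 : Fin 2) else 1) = 1} = {v | c v = i} ∪ {v | c v = j} := by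
      ext v
      by_cases hv : c v = l
      · simp [hv, hli, hlj]
      · rcases hall (c v) with h | h | h
        · exact absurd h hv
        · simp [h, hli.symm]
        · simp [h, hlj.symm]
    rw [this, has_induce_Q2]
    rcases h₂ with ⟨a, b⟩ | ⟨a, b⟩
    · exact Or.inl (EO_join a b)
    · exact Or.inr (EO_join a b)

theorem prods_eq (n : ℕ) (G : SimpleGraph (Fin n)) :
    (∃ c : Fin n → Fin 3, ∀ i : Fin 3, Has Q1 (G.induce {v | c v = i})) ↔
    (∃ c : Fin n → Fin 2, ∀ j : Fin 2, Has ((![Q1, Q2] : Fin 2 → _) j)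
      (G.induce {v | c v = j})) := by
  classical
  constructor
  · rintro ⟨c, hc⟩
    have key : ∃ c' : Fin n → Fin 2, Has Q1 (G.induce {v | c' v = 0}) ∧
        Has Q2 (G.induce {v | c' v = 1}) := by
      have c0 := (has_induce_Q1 G _).1 (hc 0)
      have c1 := (has_induce_Q1 G _).1 (hc 1)
      have c2 := (has_induce_Q1 G _).1 (hc 2)
      rcases c0 with c0 | c0 <;> rcases c1 with c1 | c1
      · exact combine G c 2 0 1 (by decide) (by decide) (by decide) (hc 2) (Or.inl ⟨c0, c1⟩)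
      · rcases c2 with c2 | c2
        · exact combine G c 1 0 2 (by decide) (by decide) (by decide) (hc 1) (Or.inl ⟨c0, c2⟩)
        · exact combine G c 0 1 2 (by decide) (by decide) (by decide) (hc 0) (Or.inr ⟨c1, c2⟩)
      · rcases c2 with c2 | c2
        · exact combine G c 0 1 2 (by decide) (by decide) (by decide) (hc 0) (Or.inl ⟨c1, c2⟩)
        · exact combine G c 1 0 2 (by decide) (by decide) (by decide) (hc 1) (Or.inr ⟨c0, c2⟩)
      · exact combine G c 2 0 1 (by decide) (by decide) (by decide) (hc 2) (Or.inr ⟨c0, c1⟩)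
    obtain ⟨c', h0, h1⟩ := key
    refine ⟨c', fun j => ?_⟩
    fin_cases j
    · exact h0
    · exact h1
  · rintro ⟨c, hc⟩
    have h0 : Has Q1 (G.induce {v | c v = 0}) := hc 0
    have h1 : Has Q2 (G.induce {v | c v = 1}) := hc 1
    rw [has_induce_Q2] at h1
    have key : ∃ S : Set (Fin n), Has Q1 (G.induce ({v | c v = 1} ∩ S)) ∧
        Has Q1 (G.induce ({v | c v = 1} ∩ Sᶜ)) := by
      rcases h1 with h1 | h1
      · obtain ⟨S, a, b⟩ := EO_split h1
        exact ⟨S, (has_induce_Q1 G _).2 (Or.inl a), (has_induce_Q1 G _).2 (Or.inl b)⟩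
      · obtain ⟨S, a, b⟩ := EO_split h1
        exact ⟨S, (has_induce_Q1 G _).2 (Or.inr a), (has_induce_Q1 G _).2 (Or.inr b)⟩
    obtain ⟨S, h2, h3⟩ := key
    have c01 : ∀ v, c v = 0 ∨ c v = 1 := by
      intro v
      have : ∀ x : Fin 2, x = 0 ∨ x = 1 := by decide
      exact this _
    refine ⟨fun v => if c v = 0 then 0 else if v ∈ S then 1 else 2, fun i => ?_⟩
    fin_cases i
    · have : {v | (if c v = 0 then (0 : Fin 3) else if v ∈ S then 1 else 2) = 0} =
          {v | c v = 0} := by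
        ext v
        rcases c01 v with hv | hv <;> by_cases hs : v ∈ S <;> simp [hv, hs]
      show Has Q1 (G.induce {v | (if c v = 0 then (0 : Fin 3) else if v ∈ S then 1 else 2) = 0})
      rw [this]; exact h0
    · have : {v | (if c v = 0 then (0 : Fin 3) else if v ∈ S then 1 else 2) = 1} =
          {v | c v = 1} ∩ S := by
        ext v
        rcases c01 v with hv | hv <;> by_cases hs : v ∈ S <;> simp [hv, hs]
      show Has Q1 (G.induce {v | (if c v = 0 then (0 : Fin 3) else if v ∈ S then 1 else 2) = 1})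
      rw [this]; exact h2
    · have : {v | (if c v = 0 then (0 : Fin 3) else if v ∈ S then 1 else 2) = 2} =
          {v | c v = 1} ∩ Sᶜ := by
        ext v
        rcases c01 v with hv | hv <;> by_cases hs : v ∈ S <;> simp [hv, hs]
      show Has Q1 (G.induce {v | (if c v = 0 then (0 : Fin 3) else if v ∈ S then 1 else 2) = 2})
      rw [this]; exact h3

theorem Q1_one : Q1 1 ⊥ :=
  Or.inl ⟨⟨fun _ => 0, fun {a b} h => h.elim⟩, injective_of_subsingleton _⟩
theorem Q2_one : Q2 1 ⊥ :=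
  Or.inl ⟨⟨fun _ => Sum.inl 0, fun {a b} h => h.elim⟩, injective_of_subsingleton _⟩

/-- The negation of the preceding statement: Among subgraph-closed classes of finite graphs, with product = vertex partition into parts in the factors, any two factorizations of a class into irreducible factors (contain K1, not a product of two such classes) agree up to reordering. -/
theorem result :
    ¬ (∀ (m k : ℕ) (Ps : Fin m → (n : ℕ) → SimpleGraph (Fin n) → Prop)
      (Qs : Fin k → (n : ℕ) → SimpleGraph (Fin n) → Prop),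
      (∀ i : Fin m,
        (∀ (a b : ℕ) (G : SimpleGraph (Fin a)) (H : SimpleGraph (Fin b)) (f : H →g G),
          Function.Injective f → Ps i a G → Ps i b H) ∧
        Ps i 1 ⊥ ∧
        ∀ A B : (n : ℕ) → SimpleGraph (Fin n) → Prop,
          (∀ (a b : ℕ) (G : SimpleGraph (Fin a)) (H : SimpleGraph (Fin b)) (f : H →g G),
            Function.Injective f → A a G → A b H) →
          (∀ (a b : ℕ) (G : SimpleGraph (Fin a)) (H : SimpleGraph (Fin b)) (f : H →g G),
            Function.Injective f → B a G → B b H) →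
          A 1 ⊥ → B 1 ⊥ →
          ¬ ∀ (n : ℕ) (G : SimpleGraph (Fin n)),
            (Ps i n G ↔ ∃ S : Set (Fin n),
              (∃ (r : ℕ) (K : SimpleGraph (Fin r)), A r K ∧ Nonempty (G.induce S ≃g K)) ∧
              (∃ (r : ℕ) (K : SimpleGraph (Fin r)), B r K ∧ Nonempty (G.induce Sᶜ ≃g K)))) →
      (∀ j : Fin k,
        (∀ (a b : ℕ) (G : SimpleGraph (Fin a)) (H : SimpleGraph (Fin b)) (f : H →g G),
          Function.Injective f → Qs j a G → Qs j b H) ∧
        Qs j 1 ⊥ ∧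
        ∀ A B : (n : ℕ) → SimpleGraph (Fin n) → Prop,
          (∀ (a b : ℕ) (G : SimpleGraph (Fin a)) (H : SimpleGraph (Fin b)) (f : H →g G),
            Function.Injective f → A a G → A b H) →
          (∀ (a b : ℕ) (G : SimpleGraph (Fin a)) (H : SimpleGraph (Fin b)) (f : H →g G),
            Function.Injective f → B a G → B b H) →
          A 1 ⊥ → B 1 ⊥ →
          ¬ ∀ (n : ℕ) (G : SimpleGraph (Fin n)),
            (Qs j n G ↔ ∃ S : Set (Fin n),
              (∃ (r : ℕ) (K : SimpleGraph (Fin r)), A r K ∧ Nonempty (G.induce S ≃g K)) ∧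
              (∃ (r : ℕ) (K : SimpleGraph (Fin r)), B r K ∧ Nonempty (G.induce Sᶜ ≃g K)))) →
      (∀ (n : ℕ) (G : SimpleGraph (Fin n)),
        (∃ c : Fin n → Fin m, ∀ i : Fin m, ∃ (r : ℕ) (K : SimpleGraph (Fin r)),
            Ps i r K ∧ Nonempty (G.induce {v | c v = i} ≃g K)) ↔
        (∃ c : Fin n → Fin k, ∀ j : Fin k, ∃ (r : ℕ) (K : SimpleGraph (Fin r)),
            Qs j r K ∧ Nonempty (G.induce {v | c v = j} ≃g K))) →
      ∃ σ : Fin m ≃ Fin k, ∀ (i : Fin m) (n : ℕ) (G : SimpleGraph (Fin n)),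
        (Ps i n G ↔ Qs (σ i) n G)) := by
  intro H
  obtain ⟨σ, -⟩ := H 3 2 (fun _ => Q1) ![Q1, Q2]
    (fun i => ⟨her_Q1, Q1_one, fun A B hA hB a1 b1 => irr_Q1 A B hA hB a1 b1⟩)
    (fun j => by
      fin_cases j
      · exact ⟨her_Q1, Q1_one, fun A B hA hB a1 b1 => irr_Q1 A B hA hB a1 b1⟩
      · exact ⟨her_Q2, Q2_one, fun A B hA hB a1 b1 => irr_Q2 A B hA hB a1 b1⟩)
    (fun n G => prods_eq n G)
  have := Fintype.card_congr σ
  simp at this

end Pool.Agent.S2736
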