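import Pool.Statements.S2738

set_option autoImplicit false
open Pool Pool.MP_d26300_co

namespace Pool.Agent.S2738

open Matrix Finset

section energy

variable {V : Type} [Fintype V] [DecidableEq V]

theorem sum_roots (A : Matrix V V ℝ) (hA : A.IsHermitian) :
    (A.charpoly.roots.map (fun x : ℝ => |x|)).sum = ∑ i, |hA.eigenvalues i| := by
  rw [hA.roots_charpoly_eq_eigenvalues, Multiset.map_map]
  rfl

theorem prod_roots (A : Matrix V V ℝ) (hA : A.IsHermitian) :
    (A.charpoly.roots.map (fun x : ℝ => |x|)).prod = |A.det| := by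
  rw [hA.roots_charpoly_eq_eigenvalues, Multiset.map_map, hA.det_eq_prod_eigenvalues,
    Finset.abs_prod]
  rfl

theorem energy_ge (A W : Matrix V V ℝ) (hA : A.IsHermitian) (hW : W ∈ unitaryGroup V ℝ) :
    trace (A * W) ≤ (A.charpoly.roots.map (fun x : ℝ => |x|)).sum := by
  rw [sum_roots A hA]
  set U : Matrix V V ℝ := (hA.eigenvectorUnitary : Matrix V V ℝ) with hU
  have hUm : U ∈ unitaryGroup V ℝ := hA.eigenvectorUnitary.2
  set D : Matrix V V ℝ := diagonal hA.eigenvalues with hD
  have hspec : A = U * D * star U := by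
    conv_lhs => rw [hA.spectral_theorem, Unitary.conjStarAlgAut_apply]
    rfl
  have h1 : trace (A * W) = trace (D * (star U * W * U)) := by
    conv_lhs => rw [hspec]
    rw [show U * D * star U * W = U * (D * (star U * W)) by simp only [Matrix.mul_assoc],
      trace_mul_comm]
    simp only [Matrix.mul_assoc]
  rw [h1]
  have h2 : trace (D * (star U * W * U)) = ∑ i, hA.eigenvalues i * (star U * W * U) i i := by
    simp only [trace, D, diag_apply, diagonal_mul]
  rw [h2]
  apply Finset.sum_le_sum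
  intro i _
  have hQ : star U * W * U ∈ unitaryGroup V ℝ :=
    mul_mem (mul_mem (Unitary.star_mem hUm) hW) hUm
  have h3 := entry_norm_bound_of_unitary hQ i i
  rw [Real.norm_eq_abs] at h3
  calc hA.eigenvalues i * (star U * W * U) i i
      ≤ |hA.eigenvalues i * (star U * W * U) i i| := le_abs_self _
    _ = |hA.eigenvalues i| * |(star U * W * U) i i| := abs_mul _ _
    _ ≤ |hA.eigenvalues i| * 1 := by gcongr
    _ = _ := mul_one _

theorem energy_eq (A : Matrix V V ℝ) (hA : A.IsHermitian) :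
    ∃ W ∈ unitaryGroup V ℝ, (A.charpoly.roots.map (fun x : ℝ => |x|)).sum = trace (A * W) := by
  set U : Matrix V V ℝ := (hA.eigenvectorUnitary : Matrix V V ℝ) with hU
  have hUm : U ∈ unitaryGroup V ℝ := hA.eigenvectorUnitary.2
  set D : Matrix V V ℝ := diagonal hA.eigenvalues with hD
  have hspec : A = U * D * star U := by
    conv_lhs => rw [hA.spectral_theorem, Unitary.conjStarAlgAut_apply]
    rfl
  set S : Matrix V V ℝ := diagonal (fun i => if 0 ≤ hA.eigenvalues i then (1:ℝ) else -1) with hS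
  have hSm : S ∈ unitaryGroup V ℝ := by
    rw [mem_unitaryGroup_iff, star_eq_conjTranspose, hS, diagonal_conjTranspose,
      diagonal_mul_diagonal, ← diagonal_one]
    congr 1
    ext i
    simp only [Pi.star_apply, star_trivial]
    split_ifs <;> norm_num
  have hUU : star U * U = 1 := (mem_unitaryGroup_iff').1 hUm
  refine ⟨U * S * star U, mul_mem (mul_mem hUm hSm) (Unitary.star_mem hUm), ?_⟩
  rw [sum_roots A hA]
  have h1 : A * (U * S * star U) = U * ((D * S) * star U) := by
    conv_lhs => rw [hspec]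
    calc U * D * star U * (U * S * star U) = U * D * (star U * U) * (S * star U) := by
          simp only [Matrix.mul_assoc]
      _ = _ := by rw [hUU]; simp only [Matrix.mul_assoc, Matrix.one_mul]
  rw [h1, trace_mul_comm, Matrix.mul_assoc, hUU, Matrix.mul_one, hD, hS, diagonal_mul_diagonal,
    trace_diagonal]
  apply Finset.sum_congr rfl
  intro i _
  split_ifs with h
  · rw [abs_of_nonneg h, mul_one]
  · rw [abs_of_neg (not_le.1 h)]; ring

end energy

section tree

variable {n : ℕ}

def rel (p : Fin (n+1) → Fin (n+1)) (i j : Fin (n+1)) : Prop := i ≠ 0 ∧ p i = j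

instance (p : Fin (n+1) → Fin (n+1)) : DecidableRel (rel p) := fun i j => by
  unfold rel; infer_instance

def pg (p : Fin (n+1) → Fin (n+1)) : SimpleGraph (Fin (n+1)) := SimpleGraph.fromRel (rel p)

theorem pg_adj (p : Fin (n+1) → Fin (n+1)) (hp : ∀ i, i ≠ 0 → p i < i) (i j : Fin (n+1)) :
    (pg p).Adj i j ↔ (i ≠ 0 ∧ p i = j) ∨ (j ≠ 0 ∧ p j = i) := by
  unfold pg
  rw [SimpleGraph.fromRel_adj]
  unfold rel
  constructor
  · rintro ⟨-, h⟩; exact h
  · intro h
    refine ⟨?_, h⟩
    rintro rfl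
    rcases h with h | h
    · exact absurd (hp i h.1) (by rw [h.2]; exact lt_irrefl _)
    · exact absurd (hp i h.1) (by rw [h.2]; exact lt_irrefl _)

theorem pg_reach (p : Fin (n+1) → Fin (n+1)) (hp : ∀ i, i ≠ 0 → p i < i) (i : Fin (n+1)) :
    (pg p).Reachable i 0 := by
  induction i using WellFoundedLT.induction with
  | ind i ih =>
    by_cases h : i = 0
    · subst h; exact SimpleGraph.Reachable.refl _
    · have h1 : (pg p).Adj i (p i) := (pg_adj p hp _ _).2 (Or.inl ⟨h, rfl⟩)
      exact h1.reachable.trans (ih _ (hp i h))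

theorem pg_isTree (p : Fin (n+1) → Fin (n+1)) (hp : ∀ i, i ≠ 0 → p i < i) : (pg p).IsTree := by
  rw [SimpleGraph.isTree_iff_connected_and_card]
  constructor
  · rw [SimpleGraph.connected_iff]
    refine ⟨fun i j => (pg_reach p hp i).trans (pg_reach p hp j).symm, ⟨0⟩⟩
  · have e : {i : Fin (n+1) // i ≠ 0} ≃ (pg p).edgeSet := by
      refine Equiv.ofBijective (fun i => ⟨s(i.1, p i.1), ?_⟩) ⟨?_, ?_⟩
      · rw [SimpleGraph.mem_edgeSet]
        exact (pg_adj p hp _ _).2 (Or.inl ⟨i.2, rfl⟩)
      · rintro ⟨i, hi⟩ ⟨j, hj⟩ h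
        simp only [Subtype.mk.injEq, Sym2.eq_iff] at h
        rcases h with h | h
        · exact Subtype.ext h.1
        · exfalso
          have h1 := hp i hi
          have h2 := hp j hj
          rw [h.2] at h1
          rw [← h.1] at h2
          exact lt_asymm h1 h2
      · rintro ⟨e, he⟩
        induction e using Sym2.ind with
        | _ x y =>
          rw [SimpleGraph.mem_edgeSet, pg_adj p hp] at he
          rcases he with ⟨h1, h2⟩ | ⟨h1, h2⟩
          · exact ⟨⟨x, h1⟩, by subst h2; rfl⟩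
          · exact ⟨⟨y, h1⟩, by subst h2; exact Subtype.ext Sym2.eq_swap⟩
    rw [← Nat.card_congr e, Nat.card_eq_fintype_card, Nat.card_eq_fintype_card,
      Fintype.card_subtype_compl, Fintype.card_fin]
    simp

theorem trace_pg (p : Fin (n+1) → Fin (n+1)) (hp : ∀ i, i ≠ 0 → p i < i)
    [DecidableRel (pg p).Adj] (U : Matrix (Fin (n+1)) (Fin (n+1)) ℝ) :
    trace ((pg p).adjMatrix ℝ * U) = ∑ i, (if i ≠ 0 then (U (p i) i + U i (p i)) else 0) := by
  have h0 : ∀ i j, (pg p).adjMatrix ℝ i j =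
      (if i ≠ 0 ∧ p i = j then 1 else 0) + (if j ≠ 0 ∧ p j = i then 1 else 0) := by
    intro i j
    rw [SimpleGraph.adjMatrix_apply]
    by_cases h1 : i ≠ 0 ∧ p i = j
    · have h2 : ¬ (j ≠ 0 ∧ p j = i) := by
        rintro ⟨h3, h4⟩
        have h5 := hp i h1.1
        have h6 := hp j h3
        rw [h1.2] at h5
        rw [h4] at h6
        exact lt_asymm h5 h6
      rw [if_pos ((pg_adj p hp _ _).2 (Or.inl h1)), if_pos h1, if_neg h2, add_zero]
    · by_cases h2 : j ≠ 0 ∧ p j = i
      · rw [if_pos ((pg_adj p hp _ _).2 (Or.inr h2)), if_neg h1, if_pos h2, zero_add]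
      · rw [if_neg h1, if_neg h2, add_zero, if_neg]
        rw [pg_adj p hp]
        tauto
  have h1 : trace ((pg p).adjMatrix ℝ * U) =
      ∑ i, ∑ j, ((if i ≠ 0 ∧ p i = j then 1 else 0) + (if j ≠ 0 ∧ p j = i then 1 else 0)) * U j i := by
    simp only [trace, diag_apply, Matrix.mul_apply, h0]
  rw [h1]
  simp only [add_mul, Finset.sum_add_distrib]
  have h2 : ∑ i, ∑ j, (if i ≠ 0 ∧ p i = j then (1:ℝ) else 0) * U j i =
      ∑ i, (if i ≠ 0 then U (p i) i else 0) := by
    apply Finset.sum_congr rfl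
    intro i _
    by_cases h : i = 0
    · simp [h]
    · simp [h]
  have h3 : ∑ i, ∑ j, (if j ≠ 0 ∧ p j = i then (1:ℝ) else 0) * U j i =
      ∑ i, (if i ≠ 0 then U i (p i) else 0) := by
    rw [Finset.sum_comm]
    apply Finset.sum_congr rfl
    intro i _
    by_cases h : i = 0
    · simp [h]
    · simp [h]
  rw [h2, h3, ← Finset.sum_add_distrib]
  apply Finset.sum_congr rfl
  intro i _
  split_ifs <;> simp

end tree

/-- parents for the tree with a perfect matching: a star on the even vertices, and the odd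
vertex `i` pendant at `i-1` -/
def pT (i : Fin 200) : Fin 200 := if i.val % 2 = 0 then 0 else ⟨i.val - 1, by omega⟩

/-- parents for the singular tree: a path on `0..198` and the vertex `199` attached to `197` -/
def pS (i : Fin 200) : Fin 200 := if i.val = 199 then 197 else ⟨i.val - 1, by omega⟩

theorem hpT : ∀ i, i ≠ 0 → pT i < i := by decide +kernel
theorem hpS : ∀ i, i ≠ 0 → pS i < i := by decide +kernel

def W0 : Matrix (Fin 4) (Fin 4) ℚ :=
  !![0, 15/17, 0, -8/17; 15/17, 0, 8/17, 0; 0, 8/17, 0, 15/17; -8/17, 0, 15/17, 0]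

def W1 : Matrix (Fin 4) (Fin 4) ℚ :=
  !![0, 1, 0, 0; 1, 0, 0, 0; 0, 0, 0, 1; 0, 0, 1, 0]

theorem W0_orth : W0 * W0ᵀ = 1 := by decide +kernel
theorem W1_orth : W1 * W1ᵀ = 1 := by decide +kernel

def e : Fin 200 ≃ Fin 4 × Fin 50 :=
  (finProdFinEquiv : Fin 50 × Fin 4 ≃ Fin (50 * 4)).symm.trans (Equiv.prodComm _ _)

def blk (k : Fin 50) : Matrix (Fin 4) (Fin 4) ℚ := if k = 49 then W1 else W0

def W : Matrix (Fin 200) (Fin 200) ℚ := (blockDiagonal blk).submatrix e e

theorem W_orth : W * Wᵀ = 1 := by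
  unfold W
  rw [transpose_submatrix, submatrix_mul_equiv, blockDiagonal_transpose, ← blockDiagonal_mul]
  have h : (fun k => blk k * (blk k)ᵀ) = 1 := by
    ext1 k
    unfold blk
    split_ifs
    · exact W1_orth
    · exact W0_orth
  rw [h, blockDiagonal_one, submatrix_one_equiv]

def WR : Matrix (Fin 200) (Fin 200) ℝ := W.map (fun q : ℚ => (q : ℝ))

theorem WR_mem : WR ∈ unitaryGroup (Fin 200) ℝ := by
  rw [mem_unitaryGroup_iff, star_eq_conjTranspose]
  have h1 : WRᴴ = Wᵀ.map (fun q : ℚ => (q : ℝ)) := by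
    ext i j
    simp [WR, conjTranspose_apply]
  rw [h1]
  unfold WR
  have h2 : (W.map (fun q : ℚ => (q : ℝ))) * (Wᵀ.map (fun q : ℚ => (q : ℝ))) =
      (W * Wᵀ).map (fun q : ℚ => (q : ℝ)) := by
    ext i j
    simp [Matrix.mul_apply]
  rw [h2, W_orth]
  ext i j
  by_cases h : i = j
  · subst h; simp
  · simp [h]

theorem sumW : (∑ i : Fin 200, (if i ≠ 0 then (W (pS i) i + W i (pS i)) else 0)) = 3758/17 := by
  decide +kernel

theorem S_lower [DecidableRel (pg pS).Adj] :
    (3758/17 : ℝ) ≤ (((pg pS).adjMatrix ℝ).charpoly.roots.map (fun x : ℝ => |x|)).sum := by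
  have hA : ((pg pS).adjMatrix ℝ).IsHermitian := by
    rw [Matrix.IsHermitian, conjTranspose_eq_transpose_of_trivial]
    exact (SimpleGraph.isSymm_adjMatrix _)
  refine le_trans (le_of_eq ?_) (energy_ge _ WR hA WR_mem)
  rw [trace_pg pS hpS]
  have h := sumW
  have h2 : (((∑ i : Fin 200, (if i ≠ 0 then (W (pS i) i + W i (pS i)) else 0) : ℚ)) : ℝ) =
      ((3758/17 : ℚ) : ℝ) := by rw [h]
  push_cast at h2
  rw [← h2]
  apply Finset.sum_congr rfl
  intro i _
  split_ifs <;> simp [WR]

theorem sum_row (U : Matrix (Fin 200) (Fin 200) ℝ) (hU : U ∈ unitaryGroup (Fin 200) ℝ) :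
    ∑ i, (U 0 i)^2 = 1 := by
  have h := mem_unitaryGroup_iff.1 hU
  have h2 := congrFun (congrFun h 0) 0
  rw [Matrix.mul_apply] at h2
  simp only [star_apply, star_trivial, Matrix.one_apply_eq] at h2
  rw [← h2]
  apply Finset.sum_congr rfl
  intro i _
  ring

theorem sum_col (U : Matrix (Fin 200) (Fin 200) ℝ) (hU : U ∈ unitaryGroup (Fin 200) ℝ) :
    ∑ i, (U i 0)^2 = 1 := by
  have h := mem_unitaryGroup_iff'.1 hU
  have h2 := congrFun (congrFun h 0) 0
  rw [Matrix.mul_apply] at h2
  simp only [star_apply, star_trivial, Matrix.one_apply_eq] at h2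
  rw [← h2]
  apply Finset.sum_congr rfl
  intro i _
  ring

theorem T_upper [DecidableRel (pg pT).Adj] :
    (((pg pT).adjMatrix ℝ).charpoly.roots.map (fun x : ℝ => |x|)).sum ≤ 220 := by
  have hA : ((pg pT).adjMatrix ℝ).IsHermitian := by
    rw [Matrix.IsHermitian, conjTranspose_eq_transpose_of_trivial]
    exact (SimpleGraph.isSymm_adjMatrix _)
  obtain ⟨U, hU, heq⟩ := energy_eq _ hA
  rw [heq, trace_pg pT hpT]
  have hb : ∀ i : Fin 200, (if i ≠ 0 then (U (pT i) i + U i (pT i)) else 0) ≤
      (if i.val % 2 = 0 then (1/10 : ℝ) else 2) + 5 * (U 0 i)^2 + 5 * (U i 0)^2 := by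
    intro i
    have h5 : 0 ≤ (U 0 i)^2 := sq_nonneg _
    have h6 : 0 ≤ (U i 0)^2 := sq_nonneg _
    by_cases h : i = 0
    · rw [if_neg (by simpa using h)]
      split_ifs <;> linarith
    · rw [if_pos h]
      by_cases h2 : i.val % 2 = 0
      · rw [if_pos h2]
        have h3 : pT i = 0 := by unfold pT; rw [if_pos h2]
        rw [h3]
        nlinarith [sq_nonneg (U 0 i - 1/10), sq_nonneg (U i 0 - 1/10)]
      · rw [if_neg h2]
        have h3 := entry_norm_bound_of_unitary hU (pT i) i
        have h4 := entry_norm_bound_of_unitary hU i (pT i)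
        rw [Real.norm_eq_abs] at h3 h4
        have h7 := (abs_le.1 h3).2
        have h8 := (abs_le.1 h4).2
        linarith
  refine le_trans (Finset.sum_le_sum (fun i _ => hb i)) ?_
  rw [Finset.sum_add_distrib, Finset.sum_add_distrib, ← Finset.mul_sum, ← Finset.mul_sum,
    sum_row U hU, sum_col U hU, Finset.sum_ite, Finset.sum_const, Finset.sum_const]
  have c1 : (Finset.univ.filter (fun i : Fin 200 => i.val % 2 = 0)).card = 100 := by
    decide +kernel
  have c2 : (Finset.univ.filter (fun i : Fin 200 => ¬ i.val % 2 = 0)).card = 100 := by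
    decide +kernel
  rw [c1, c2]
  norm_num

def tog (i : Fin 200) : Fin 200 := if i.val % 2 = 0 then i + 1 else i - 1

theorem tog_inv : Function.Involutive tog := by
  unfold Function.Involutive
  decide +kernel

def sg : Equiv.Perm (Fin 200) := tog_inv.toPerm

def AT : Matrix (Fin 200) (Fin 200) ℤ :=
  fun i j => if (i ≠ 0 ∧ pT i = j) ∨ (j ≠ 0 ∧ pT j = i) then 1 else 0

theorem AT_even : ∀ i l : Fin 200, l.val % 2 = 0 → AT i (tog l) = if i = l then 1 else 0 := by
  decide +kernel

theorem AT_odd : ∀ i l : Fin 200, l.val % 2 = 1 → AT l (tog i) = if l = i then 1 else 0 := by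
  decide +kernel

theorem AT_unit : IsUnit AT.det := by
  set K : Matrix (Fin 200) (Fin 200) ℤ := AT.submatrix id sg - 1 with hK
  have hKa : ∀ i j, K i j = AT i (tog j) - (if i = j then 1 else 0) := by
    intro i j
    rw [hK, Matrix.sub_apply, Matrix.submatrix_apply, Matrix.one_apply]
    rfl
  have hKK : K * K = 0 := by
    ext i j
    rw [Matrix.mul_apply, Matrix.zero_apply]
    apply Finset.sum_eq_zero
    intro l _
    rcases Nat.mod_two_eq_zero_or_one l.val with h | h
    · rw [hKa i l, AT_even i l h, sub_self, zero_mul]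
    · rw [hKa l j, AT_odd j l h, sub_self, mul_zero]
  have h1 : (AT.submatrix id sg) * (1 - K) = 1 := by
    have : AT.submatrix id sg = 1 + K := by rw [hK]; abel
    rw [this, add_mul, one_mul, mul_sub, mul_one, hKK]
    abel
  have h2 : IsUnit (AT.submatrix id sg).det := by
    apply IsUnit.of_mul_eq_one (1 - K).det
    rw [← det_mul, h1, det_one]
  rw [det_permute'] at h2
  exact isUnit_of_mul_isUnit_right h2

theorem detT [DecidableRel (pg pT).Adj] : |((pg pT).adjMatrix ℝ).det| = 1 := by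
  have h1 : (pg pT).adjMatrix ℝ = (Int.castRingHom ℝ).mapMatrix AT := by
    ext i j
    rw [SimpleGraph.adjMatrix_apply, RingHom.mapMatrix_apply, Matrix.map_apply]
    unfold AT
    by_cases h : (pg pT).Adj i j
    · rw [if_pos h, if_pos ((pg_adj pT hpT _ _).1 h)]; simp
    · rw [if_neg h, if_neg (fun h' => h ((pg_adj pT hpT _ _).2 h'))]; simp
  rw [h1, ← RingHom.map_det]
  rcases Int.isUnit_iff.1 AT_unit with h | h
  · rw [h]; simp
  · rw [h]; simp

theorem row_eq : ∀ j : Fin 200, ((198 : Fin 200) ≠ 0 ∧ pS 198 = j) ∨ (j ≠ 0 ∧ pS j = 198) ↔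
    ((199 : Fin 200) ≠ 0 ∧ pS 199 = j) ∨ (j ≠ 0 ∧ pS j = 199) := by decide +kernel

theorem detS [DecidableRel (pg pS).Adj] : ((pg pS).adjMatrix ℝ).det = 0 := by
  apply det_zero_of_row_eq (i := (198 : Fin 200)) (j := 199) (by decide)
  funext j
  rw [SimpleGraph.adjMatrix_apply, SimpleGraph.adjMatrix_apply]
  have h := row_eq j
  rw [← pg_adj pS hpS, ← pg_adj pS hpS] at h
  by_cases h2 : (pg pS).Adj 198 j
  · rw [if_pos h2, if_pos (h.1 h2)]
  · rw [if_neg h2, if_neg (fun h3 => h2 (h.2 h3))]

/-- The negation of the preceding statement: For trees T, S on the same even number of vertices: if the product of absolute adjacency eigenvalues is 1 for T and 0 for S, then the sum of absolute eigenvalues (energy) of T is strictly larger than that of S. -/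
theorem result :
    ¬ (∀ (n : ℕ) (T S : SimpleGraph (Fin n)) [DecidableRel T.Adj] [DecidableRel S.Adj],
      Even n → T.IsTree → S.IsTree →
      ((T.adjMatrix ℝ).charpoly.roots.map (fun x : ℝ => |x|)).prod = 1 →
      ((S.adjMatrix ℝ).charpoly.roots.map (fun x : ℝ => |x|)).prod = 0 →
      ((S.adjMatrix ℝ).charpoly.roots.map (fun x : ℝ => |x|)).sum <
        ((T.adjMatrix ℝ).charpoly.roots.map (fun x : ℝ => |x|)).sum) := by
  intro H
  classical
  have hA : ∀ G : SimpleGraph (Fin 200), (G.adjMatrix ℝ).IsHermitian := by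
    intro G
    rw [Matrix.IsHermitian, conjTranspose_eq_transpose_of_trivial]
    exact (SimpleGraph.isSymm_adjMatrix _)
  have h := H 200 (pg pT) (pg pS) (by decide) (pg_isTree pT hpT) (pg_isTree pS hpS)
    (by rw [prod_roots _ (hA _)]; exact detT)
    (by rw [prod_roots _ (hA _)]; rw [detS, abs_zero])
  have h1 := S_lower
  have h2 := T_upper
  have h3 : (220 : ℝ) < 3758/17 := by norm_num
  linarith

end Pool.Agent.S2738
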