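import Pool.Statements.S2752
import Pool.Agent.H21.CritGraph
-- import your own Pool.Agent.* helpers here

set_option autoImplicit false
open Pool Pool.MP_d7f445_co

namespace Pool.Agent.S2752

/-- The negation of the preceding statement: Every connected graph of even order that cannot be properly edge-coloured with max-degree many colours, but becomes so colourable after deleting any single edge, has a perfect matching. -/
theorem result :
    ¬ (∀ (n : ℕ) (G : SimpleGraph (Fin n)) [DecidableRel G.Adj],
      G.Connected → Even n →
      (¬ ∃ c : G.edgeSet → Fin G.maxDegree,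
          ∀ e f : G.edgeSet, e ≠ f → (∃ v, v ∈ e.1 ∧ v ∈ f.1) → c e ≠ c f) →
      (∀ e ∈ G.edgeSet,
          ∃ c : (G.deleteEdges {e}).edgeSet → Fin G.maxDegree,
            ∀ a b : (G.deleteEdges {e}).edgeSet, a ≠ b →
              (∃ v, v ∈ a.1 ∧ v ∈ b.1) → c a ≠ c b) →
      ∃ M : G.Subgraph, M.IsPerfectMatching) := by
  intro h
  exact Pool.Agent.H21.Crit.no_pm (h 110 Pool.Agent.H21.Crit.G Pool.Agent.H21.Crit.connected
    (by decide) Pool.Agent.H21.Crit.not_colorable Pool.Agent.H21.Crit.colorable_minus)

end Pool.Agent.S2752
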