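import Pool.Statements.S2836

set_option autoImplicit false
open Pool Pool.MP_ed2cb0_co

namespace Pool.Agent.S2836

/-- Closed neighbourhoods (as bit masks) of a graph on 9 vertices whose IR-graph is a path. -/
def rows : Fin 9 → ℕ := ![427, 347, 500, 363, 406, 237, 238, 245, 287]

def gr : SimpleGraph (Fin 9) where
  Adj i j := i ≠ j ∧ (rows i).testBit j = true
  symm := ⟨by decide⟩
  loopless := ⟨by decide⟩

instance : DecidableRel gr.Adj := fun i j =>
  inferInstanceAs (Decidable (i ≠ j ∧ (rows i).testBit j = true))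

def Irr (D : Finset (Fin 9)) : Prop :=
  ∀ v ∈ D, ∃ w : Fin 9, (w = v ∨ gr.Adj v w) ∧ ∀ u ∈ D, u ≠ v → ¬ (w = u ∨ gr.Adj u w)

instance : DecidablePred Irr := fun D => by unfold Irr; infer_instance

def S : Fin 7 → Finset (Fin 9) :=
  ![{0, 3, 8}, {0, 1, 8}, {0, 1, 4}, {0, 4, 6}, {4, 6, 7}, {2, 6, 7}, {2, 5, 6}]

theorem card_le : ∀ D : Finset (Fin 9), Irr D → D.card ≤ 3 := by
  decide +kernel

theorem eq_S : ∀ D : Finset (Fin 9), Irr D → D.card = 3 → ∃ i, S i = D := by
  decide +kernel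

theorem irr_S : ∀ i, Irr (S i) ∧ (S i).card = 3 := by decide +kernel

theorem inj_S : Function.Injective S := by decide +kernel

theorem adj_S : ∀ i j : Fin 7,
    (S i ≠ S j ∧ ((∃ u v : Fin 9, S i \ S j = {u} ∧ S j \ S i = {v} ∧ gr.Adj u v) ∨
      (∃ u v : Fin 9, S j \ S i = {u} ∧ S i \ S j = {v} ∧ gr.Adj u v)))
    ↔ (i.val + 1 = j.val ∨ j.val + 1 = i.val) := by
  decide +kernel

abbrev IRset : Type := {D : Finset (Fin 9) //
            (∀ v ∈ D, ∃ w : Fin 9, (w = v ∨ gr.Adj v w) ∧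
                ∀ u ∈ D, u ≠ v → ¬ (w = u ∨ gr.Adj u w)) ∧
            ∀ F : Finset (Fin 9),
              (∀ v ∈ F, ∃ w : Fin 9, (w = v ∨ gr.Adj v w) ∧
                  ∀ u ∈ F, u ≠ v → ¬ (w = u ∨ gr.Adj u w)) →
              F.card ≤ D.card}

def toIR (i : Fin 7) : IRset :=
  ⟨S i, (irr_S i).1, fun F hF => by rw [(irr_S i).2]; exact card_le F hF⟩

theorem toIR_bij : Function.Bijective toIR := by
  constructor
  · intro i j h
    exact inj_S (congrArg Subtype.val h)
  · rintro ⟨D, hD, hmax⟩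
    have h3 : D.card = 3 := le_antisymm (card_le D hD) (by
      have := hmax (S 0) (irr_S 0).1
      rwa [(irr_S 0).2] at this)
    obtain ⟨i, hi⟩ := eq_S D hD h3
    exact ⟨i, Subtype.ext hi⟩

/-- The negation of the preceding statement: Every finite connected claw-free graph isomorphic to the slide IR-graph of some finite graph G is isomorphic to a complete graph or to K_m □ K_k with m, k ≥ 2. -/
theorem result :
  ¬ (∀ (n : ℕ) (H : SimpleGraph (Fin n)), H.Connected →
    (∀ a b c d : Fin n, H.Adj a b → H.Adj a c → H.Adj a d → b ≠ c → b ≠ d → c ≠ d →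
        H.Adj b c ∨ H.Adj b d ∨ H.Adj c d) →
    (∃ (p : ℕ) (G : SimpleGraph (Fin p)),
      Nonempty (H ≃g SimpleGraph.fromRel
        (fun (D E : {D : Finset (Fin p) //
            (∀ v ∈ D, ∃ w : Fin p, (w = v ∨ G.Adj v w) ∧
                ∀ u ∈ D, u ≠ v → ¬ (w = u ∨ G.Adj u w)) ∧
            ∀ F : Finset (Fin p),
              (∀ v ∈ F, ∃ w : Fin p, (w = v ∨ G.Adj v w) ∧
                  ∀ u ∈ F, u ≠ v → ¬ (w = u ∨ G.Adj u w)) →
              F.card ≤ D.card}) =>
          ∃ u v : Fin p, D.1 \ E.1 = {u} ∧ E.1 \ D.1 = {v} ∧ G.Adj u v))) →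
    (∃ k : ℕ, Nonempty (H ≃g (⊤ : SimpleGraph (Fin k)))) ∨
    (∃ m k : ℕ, 2 ≤ m ∧ 2 ≤ k ∧
      Nonempty (H ≃g SimpleGraph.boxProd (⊤ : SimpleGraph (Fin m)) (⊤ : SimpleGraph (Fin k))))) := by
  intro h
  have hconn : (SimpleGraph.pathGraph 7).Connected := SimpleGraph.pathGraph_connected 6
  have hclaw : ∀ a b c d : Fin 7, (SimpleGraph.pathGraph 7).Adj a b →
      (SimpleGraph.pathGraph 7).Adj a c → (SimpleGraph.pathGraph 7).Adj a d →
      b ≠ c → b ≠ d → c ≠ d →
        (SimpleGraph.pathGraph 7).Adj b c ∨ (SimpleGraph.pathGraph 7).Adj b d ∨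
          (SimpleGraph.pathGraph 7).Adj c d := by
    intro a b c d
    simp only [SimpleGraph.pathGraph_adj]
    intro h1 h2 h3 h4 h5 h6
    exfalso
    have h4' : b.val ≠ c.val := fun h => h4 (Fin.ext h)
    have h5' : b.val ≠ d.val := fun h => h5 (Fin.ext h)
    have h6' : c.val ≠ d.val := fun h => h6 (Fin.ext h)
    omega
  have hiso := h 7 (SimpleGraph.pathGraph 7) hconn hclaw ⟨9, gr, ⟨{
      toEquiv := Equiv.ofBijective toIR toIR_bij
      map_rel_iff' := by
        intro i j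
        rw [SimpleGraph.fromRel_adj, SimpleGraph.pathGraph_adj]
        refine Iff.trans (and_congr_left' ?_) (adj_S i j)
        constructor
        · intro hne he; exact hne (Subtype.ext he)
        · intro hne he; exact hne (congrArg Subtype.val he) }⟩⟩
  rcases hiso with ⟨k, ⟨f⟩⟩ | ⟨m, k, hm, hk, ⟨f⟩⟩
  · have h02 : ¬ (SimpleGraph.pathGraph 7).Adj 0 2 := by
      rw [SimpleGraph.pathGraph_adj]; decide
    apply h02
    rw [← f.map_adj_iff]
    rw [SimpleGraph.top_adj]
    intro he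
    exact absurd (f.injective he) (by decide)
  · have hcard := Fintype.card_congr f.toEquiv
    rw [Fintype.card_prod, Fintype.card_fin, Fintype.card_fin, Fintype.card_fin] at hcard
    have h7 : Nat.Prime 7 := by norm_num
    have := Nat.Prime.eq_one_or_self_of_dvd h7 m ⟨k, hcard⟩
    rcases this with h1 | h1
    · omega
    · subst h1; omega

end Pool.Agent.S2836
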