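import Pool.Statements.S2842
import Pool.Agent.H14.UniqCol
-- import your own Pool.Agent.* helpers here

set_option autoImplicit false
open Pool Pool.MP_f0e024_co

namespace Pool.Agent.S2842

/-- The negation of the preceding statement: For every finite nonempty perfect graph G that is uniquely χ(G)-colourable, some colour class of the colouring induces a connected subgraph of the graph of pairs whose added edge raises the clique number. -/
theorem result :
    ¬ (∀ (V : Type) [Fintype V] [Nonempty V] (G : SimpleGraph V) (k : ℕ),
    (∀ S : Finset V, ∃ K : Finset V, K ⊆ S ∧ G.IsClique (K : Set V) ∧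
        (G.induce (S : Set V)).Colorable K.card) →
    G.chromaticNumber = k →
    (∀ c c' : G.Coloring (Fin k), ∀ x y : V, c x = c y ↔ c' x = c' y) →
    ∀ c : G.Coloring (Fin k), ∃ i : Fin k,
      ((SimpleGraph.fromRel (fun x y : V => ∃ K : Finset V,
          (G ⊔ SimpleGraph.fromEdgeSet {s(x, y)}).IsClique (K : Set V) ∧
          ∀ T : Finset V, G.IsClique (T : Set V) → T.card < K.card)).induce
            {v : V | c v = i}).Connected) := by
  intro h
  obtain ⟨i, hi⟩ := h (Fin 11) H14.UC.G 3 H14.UC.perfect H14.UC.chrom
    (fun c c' x y => (H14.UC.same c x y).trans (H14.UC.same c' x y).symm) H14.UC.col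
  exact H14.UC.not_conn i hi

end Pool.Agent.S2842
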