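import Pool.Statements.S2918
-- import your own Pool.Agent.* helpers here

set_option autoImplicit false
open Pool Pool.MP_0323d9_gt

namespace Pool.Agent.S2918

/-- three-space -/
abbrev E := EuclideanSpace ℝ (Fin 3)

/-- horizontal part, as a complex number -/
def pz (x : E) : ℂ := ⟨x 0, x 1⟩

/-- the point with horizontal part `p` and height `t` -/
noncomputable def pt (p : ℂ) (t : ℝ) : E := !₂[p.re, p.im, t]

/-- the body: a circular cone with apex `0`, cut off by a paraboloid -/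
def K : Set E := {x | ‖pz x‖ ≤ x 2 ∧ x 2 + ‖pz x‖ ^ 2 ≤ 10}

/-- its interior -/
def O : Set E := {x | ‖pz x‖ < x 2 ∧ x 2 + ‖pz x‖ ^ 2 < 10}

@[simp] lemma pz_pt (p : ℂ) (t : ℝ) : pz (pt p t) = p := by
  apply Complex.ext <;> simp [pz, pt]

@[simp] lemma pt_two (p : ℂ) (t : ℝ) : (pt p t) 2 = t := by
  simp [pt]

lemma pz_add (x y : E) : pz (x + y) = pz x + pz y := by
  apply Complex.ext <;> simp [pz]

lemma pz_sub (x y : E) : pz (x - y) = pz x - pz y := by
  apply Complex.ext <;> simp [pz]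

lemma pz_smul (a : ℝ) (x : E) : pz (a • x) = a * pz x := by
  apply Complex.ext <;> simp [pz]

lemma pz_zero : pz (0 : E) = 0 := by
  apply Complex.ext <;> simp [pz]

lemma norm_sq_eq (x : E) : ‖x‖ ^ 2 = ‖pz x‖ ^ 2 + (x 2) ^ 2 := by
  rw [EuclideanSpace.norm_sq_eq, Fin.sum_univ_three, ← Complex.normSq_eq_norm_sq,
    Complex.normSq_apply]
  simp only [pz, Real.norm_eq_abs, sq_abs]
  ring

lemma norm_pz_le (x : E) : ‖pz x‖ ≤ ‖x‖ := by
  have h := norm_sq_eq x
  have h1 : 0 ≤ (x 2) ^ 2 := sq_nonneg _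
  exact abs_le_of_sq_le_sq' (by linarith) (norm_nonneg _) |>.2

lemma abs_two_le (x : E) : |x 2| ≤ ‖x‖ := by
  have h := norm_sq_eq x
  have h1 : 0 ≤ ‖pz x‖ ^ 2 := sq_nonneg _
  rw [← sq_abs (x 2)] at h
  exact abs_le_of_sq_le_sq' (by linarith) (norm_nonneg _) |>.2

lemma continuous_pz : Continuous pz := by
  have : pz = fun x : E => ((x 0 : ℝ) : ℂ) + ((x 1 : ℝ) : ℂ) * Complex.I := by
    funext x
    apply Complex.ext <;> simp [pz]
  rw [this]
  fun_prop

lemma continuous_two : Continuous (fun x : E => x 2) := by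
  fun_prop

lemma isOpen_O : IsOpen O := by
  have h := continuous_pz
  apply IsOpen.inter
  · exact isOpen_lt h.norm continuous_two
  · exact isOpen_lt (continuous_two.add (h.norm.pow 2)) continuous_const

lemma O_subset : O ⊆ K := fun x hx => ⟨hx.1.le, hx.2.le⟩

lemma isClosed_K : IsClosed K := by
  have h := continuous_pz
  apply IsClosed.inter
  · exact isClosed_le h.norm continuous_two
  · exact isClosed_le (continuous_two.add (h.norm.pow 2)) continuous_const

lemma isCompact_K : IsCompact K := by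
  apply Metric.isCompact_of_isClosed_isBounded isClosed_K
  apply (Metric.isBounded_closedBall (x := (0 : E)) (r := 20)).subset
  intro x hx
  rw [mem_closedBall_zero_iff]
  obtain ⟨h1, h2⟩ := hx
  have h0 := norm_nonneg (pz x)
  have h3 : x 2 ≤ 10 := by nlinarith
  have h4 := norm_sq_eq x
  have h5 : ‖x‖ ^ 2 ≤ 20 ^ 2 := by rw [h4]; nlinarith
  exact abs_le_of_sq_le_sq' h5 (by norm_num) |>.2

lemma convex_K : Convex ℝ K := by
  intro x hx y hy a b ha hb hab
  have e1 : pz (a • x + b • y) = a * pz x + b * pz y := by rw [pz_add, pz_smul, pz_smul]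
  have e2 : (a • x + b • y) 2 = a * x 2 + b * y 2 := by simp
  have h1 : ‖pz (a • x + b • y)‖ ≤ a * ‖pz x‖ + b * ‖pz y‖ := by
    rw [e1]
    refine (norm_add_le _ _).trans (le_of_eq ?_)
    rw [norm_mul, norm_mul, Complex.norm_real, Complex.norm_real, Real.norm_eq_abs,
      Real.norm_eq_abs, abs_of_nonneg ha, abs_of_nonneg hb]
  have n0 := norm_nonneg (pz (a • x + b • y))
  have nx := norm_nonneg (pz x)
  have ny := norm_nonneg (pz y)
  constructor
  · rw [e2]
    nlinarith [mul_le_mul_of_nonneg_left hx.1 ha, mul_le_mul_of_nonneg_left hy.1 hb]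
  · rw [e2]
    have h2 : ‖pz (a • x + b • y)‖ ^ 2 ≤ (a * ‖pz x‖ + b * ‖pz y‖) ^ 2 :=
      pow_le_pow_left₀ n0 h1 2
    have h3 : (a * ‖pz x‖ + b * ‖pz y‖) ^ 2 ≤ a * ‖pz x‖ ^ 2 + b * ‖pz y‖ ^ 2 := by
      have hb' : b = 1 - a := by linarith
      subst hb'
      nlinarith [mul_nonneg ha hb, sq_nonneg (‖pz x‖ - ‖pz y‖)]
    nlinarith [mul_le_mul_of_nonneg_left hx.2 ha, mul_le_mul_of_nonneg_left hy.2 hb]

lemma interior_K : interior K = O := by
  apply Set.Subset.antisymm
  · intro x hx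
    rw [mem_interior_iff_mem_nhds, Metric.mem_nhds_iff] at hx
    obtain ⟨δ, hδ, hsub⟩ := hx
    have key : ∀ η : ℝ, |η| < δ → x + pt 0 η ∈ K := by
      intro η hη
      apply hsub
      rw [Metric.mem_ball, dist_eq_norm, add_sub_cancel_left]
      have h := norm_sq_eq (pt 0 η)
      rw [pz_pt, pt_two, norm_zero] at h
      have h2 : ‖pt 0 η‖ ^ 2 = |η| ^ 2 := by rw [h, sq_abs]; ring
      have h3 : ‖pt 0 η‖ = |η| := by
        rw [← abs_of_nonneg (norm_nonneg (pt 0 η)), ← abs_abs η]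
        exact (sq_eq_sq_iff_abs_eq_abs _ _).1 h2
      rw [h3]; exact hη
    have hp : ∀ η : ℝ, pz (x + pt 0 η) = pz x := by
      intro η; rw [pz_add, pz_pt, add_zero]
    have ht : ∀ η : ℝ, (x + pt 0 η) 2 = x 2 + η := by
      intro η
      simp
    have k1 := key (-(δ / 2)) (by rw [abs_neg, abs_of_pos (by positivity)]; linarith)
    have k2 := key (δ / 2) (by rw [abs_of_pos (by positivity)]; linarith)
    obtain ⟨k1a, -⟩ := k1
    obtain ⟨-, k2b⟩ := k2
    rw [hp, ht] at k1a k2b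
    exact ⟨by linarith, by linarith⟩
  · exact interior_maximal O_subset isOpen_O

/-- `a` lies in the interior of the translate `x + K` -/
lemma mem_translate (a x : E) : a ∈ interior ((fun y => x + y) '' K) ↔ a - x ∈ O := by
  have h : interior ((fun y => x + y) '' K) = (fun y => x + y) '' (interior K) :=
    ((Homeomorph.addLeft x).image_interior K).symm
  rw [h, interior_K]
  constructor
  · rintro ⟨y, hy, rfl⟩
    simpa using hy
  · intro h
    exact ⟨a - x, h, by simp⟩

/-- the fixing property -/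
def Fix (A : Set E) : Prop :=
  ∃ ε : ℝ, 0 < ε ∧ ∀ x : E, x ≠ 0 → ‖x‖ ≤ ε → (A ∩ interior ((fun y => x + y) '' K)).Nonempty

/-- the boundary point on the paraboloid in direction `u` with slope `κ` -/
noncomputable def av (κ : ℝ) (u : ℂ) : E := pt ((κ / 2 : ℝ) * u) (10 - (κ / 2) ^ 2)

/-- the real inner product of complex numbers -/
def ip (u p : ℂ) : ℝ := u.re * p.re + u.im * p.im

lemma norm_sub_sq (s : ℝ) (u p : ℂ) (hu : ‖u‖ = 1) :
    ‖(s : ℂ) * u - p‖ ^ 2 = s ^ 2 - 2 * s * ip u p + ‖p‖ ^ 2 := by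
  have hu2 : u.re * u.re + u.im * u.im = 1 := by
    rw [← Complex.normSq_apply, Complex.normSq_eq_norm_sq, hu]; norm_num
  rw [← Complex.normSq_eq_norm_sq, ← Complex.normSq_eq_norm_sq, Complex.normSq_apply,
    Complex.normSq_apply]
  simp only [Complex.sub_re, Complex.mul_re, Complex.ofReal_re, Complex.ofReal_im, zero_mul,
    sub_zero, Complex.sub_im, Complex.mul_im, add_zero, ip]
  linear_combination s ^ 2 * hu2

/-- which small translations are caught by `av κ u` -/
lemma av_cov (κ : ℝ) (hκ1 : 1 < κ) (hκ2 : κ ≤ 2) (u : ℂ) (hu : ‖u‖ = 1) (x : E) (hx : ‖x‖ ≤ 1) :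
    av κ u - x ∈ O ↔ ‖pz x‖ ^ 2 - κ * ip u (pz x) < x 2 := by
  have e1 : pz (av κ u - x) = ((κ / 2 : ℝ) : ℂ) * u - pz x := by rw [pz_sub, av, pz_pt]
  have e2 : (av κ u - x) 2 = 10 - (κ / 2) ^ 2 - x 2 := by
    rw [av]
    simp
  have e3 := norm_sub_sq (κ / 2) u (pz x) hu
  have h1 := norm_pz_le x
  have h2 := abs_le.1 (abs_two_le x)
  constructor
  · rintro ⟨-, hb⟩
    rw [e1, e2, e3] at hb
    linarith
  · intro h
    refine ⟨?_, ?_⟩
    · rw [e1, e2]
      have h3 : ‖((κ / 2 : ℝ) : ℂ) * u - pz x‖ ≤ κ / 2 + 1 := by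
        refine (norm_sub_le _ _).trans ?_
        rw [norm_mul, hu, mul_one, Complex.norm_real, Real.norm_eq_abs, abs_of_pos (by linarith)]
        linarith
      nlinarith
    · rw [e1, e2, e3]
      linarith

lemma zero_cov (x : E) (hx : ‖x‖ ≤ 1) : (0 : E) - x ∈ O ↔ ‖pz x‖ < -(x 2) := by
  have e1 : pz (0 - x) = - pz x := by rw [pz_sub, pz_zero, zero_sub]
  have e2 : ((0 : E) - x) 2 = - x 2 := by simp
  have h1 := norm_pz_le x
  have h2 := abs_le.1 (abs_two_le x)
  have h0 := norm_nonneg (pz x)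
  constructor
  · rintro ⟨ha, -⟩
    rwa [e1, e2, norm_neg] at ha
  · intro h
    refine ⟨by rwa [e1, e2, norm_neg], ?_⟩
    rw [e1, e2, norm_neg]
    nlinarith

/-- the points considered -/
def Fam (κ : ℝ) : Set E := {a | a = 0 ∨ ∃ u : ℂ, ‖u‖ = 1 ∧ a = av κ u}

lemma fam_frontier (κ : ℝ) (hκ1 : 1 < κ) (hκ2 : κ ≤ 2) : Fam κ ⊆ frontier K := by
  rintro a (rfl | ⟨u, hu, rfl⟩)
  · rw [frontier, isClosed_K.closure_eq, interior_K]
    refine ⟨⟨by simp [pz_zero], by simp [pz_zero]⟩, ?_⟩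
    rintro ⟨h, -⟩
    simp [pz_zero] at h
  · rw [frontier, isClosed_K.closure_eq, interior_K]
    have e1 : ‖pz (av κ u)‖ = κ / 2 := by
      rw [av, pz_pt, norm_mul, hu, mul_one, Complex.norm_real, Real.norm_eq_abs,
        abs_of_pos (by linarith)]
    have e2 : (av κ u) 2 = 10 - (κ / 2) ^ 2 := by rw [av, pt_two]
    refine ⟨⟨?_, ?_⟩, ?_⟩
    · rw [e1, e2]; nlinarith
    · rw [e1, e2]; linarith
    · rintro ⟨-, h⟩
      rw [e1, e2] at h
      linarith

lemma ip_self_unit (u : ℂ) (hu : ‖u‖ = 1) : ip u u = 1 := by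
  rw [ip, ← Complex.normSq_apply, Complex.normSq_eq_norm_sq, hu]; norm_num

lemma exists_fix (κ : ℝ) (hκ1 : 1 < κ) (hκ2 : κ ≤ 2) :
    ∃ A : Finset E, (A : Set E) ⊆ Fam κ ∧ Fix A := by
  classical
  set c : ℝ := (1 / κ + 1) / 2 with hc
  have hκ0 : 0 < κ := by linarith
  have hinv : 1 / κ < 1 := by rw [div_lt_one hκ0]; exact hκ1
  have hc1 : c < 1 := by rw [hc]; linarith
  have hck : 1 < κ * c := by
    have : κ * (1 / κ) = 1 := by field_simp
    rw [hc]; nlinarith
  have hc0 : 0 < c := by rw [hc]; positivity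
  -- finite net
  obtain ⟨U, hU⟩ := (isCompact_sphere (0 : ℂ) 1).elim_finite_subcover
    (fun u : Metric.sphere (0 : ℂ) 1 => {w : ℂ | c < ip u w})
    (fun u => isOpen_lt continuous_const (by
      unfold ip
      exact ((continuous_const.mul Complex.continuous_re).add
        (continuous_const.mul Complex.continuous_im))))
    (by
      intro w hw
      rw [Set.mem_iUnion]
      refine ⟨⟨w, hw⟩, ?_⟩
      have : ‖w‖ = 1 := by simpa using hw
      show c < ip w w
      rw [ip_self_unit w this]; exact hc1)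
  have hnet : ∀ w : ℂ, ‖w‖ = 1 → ∃ u ∈ U, c < ip (u : ℂ) w := by
    intro w hw
    have := hU (show w ∈ Metric.sphere (0 : ℂ) 1 by simpa using hw)
    simpa using this
  have hUn : ∀ u : Metric.sphere (0 : ℂ) 1, ‖(u : ℂ)‖ = 1 := by
    intro u
    simpa using u.2
  refine ⟨insert 0 (U.image (fun u : Metric.sphere (0 : ℂ) 1 => av κ (u : ℂ))), ?_, ?_⟩
  · intro a ha
    rw [Finset.mem_coe, Finset.mem_insert, Finset.mem_image] at ha
    rcases ha with rfl | ⟨u, _, rfl⟩
    · exact Or.inl rfl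
    · exact Or.inr ⟨u, hUn u, rfl⟩
  · refine ⟨min 1 ((κ * c - 1) / 2), lt_min one_pos (by linarith), ?_⟩
    intro x hx0 hx
    have hx1 : ‖x‖ ≤ 1 := hx.trans (min_le_left _ _)
    have hx2 : ‖x‖ ≤ (κ * c - 1) / 2 := hx.trans (min_le_right _ _)
    by_cases hcase : ‖pz x‖ < -(x 2)
    · refine ⟨0, by simp, ?_⟩
      rw [mem_translate, zero_cov x hx1]
      exact hcase
    · push Not at hcase
      by_cases hp : pz x = 0
      · -- straight up
        obtain ⟨u, hu, -⟩ := hnet 1 (by simp)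
        refine ⟨av κ u, ?_, ?_⟩
        · rw [Finset.mem_coe, Finset.mem_insert]
          exact Or.inr (Finset.mem_image_of_mem _ hu)
        · rw [mem_translate, av_cov κ hκ1 hκ2 u (hUn u) x hx1, hp]
          rw [hp, norm_zero] at hcase
          have h3 : x 2 ≠ 0 := by
            intro h
            apply hx0
            have h4 := norm_sq_eq x
            rw [hp, h, norm_zero] at h4
            have h5 : ‖x‖ = 0 := by nlinarith [norm_nonneg x]
            exact norm_eq_zero.1 h5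
          have h4 : 0 ≤ x 2 := by linarith
          have h5 : 0 < x 2 := lt_of_le_of_ne h4 (Ne.symm h3)
          simp only [norm_zero, ip, Complex.zero_re, Complex.zero_im, mul_zero, add_zero]
          linarith
      · have hpos : 0 < ‖pz x‖ := norm_pos_iff.2 hp
        obtain ⟨u, hu, hcu⟩ := hnet (pz x / (‖pz x‖ : ℝ)) (by
          rw [norm_div, Complex.norm_real, Real.norm_eq_abs, abs_of_pos hpos, div_self hpos.ne'])
        have hip : ip (u : ℂ) (pz x / (‖pz x‖ : ℝ)) = ip (u : ℂ) (pz x) / ‖pz x‖ := by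
          simp only [ip, Complex.div_ofReal_re, Complex.div_ofReal_im]
          ring
        rw [hip, lt_div_iff₀ hpos] at hcu
        refine ⟨av κ u, ?_, ?_⟩
        · rw [Finset.mem_coe, Finset.mem_insert]
          exact Or.inr (Finset.mem_image_of_mem _ hu)
        · rw [mem_translate, av_cov κ hκ1 hκ2 u (hUn u) x hx1]
          have h6 : ‖pz x‖ ≤ (κ * c - 1) / 2 := (norm_pz_le x).trans hx2
          have h7 : κ * (c * ‖pz x‖) < κ * ip (u : ℂ) (pz x) := mul_lt_mul_of_pos_left hcu hκ0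
          nlinarith

/-- the number of points needed -/
lemma card_lower (κ : ℝ) (hκ1 : 1 < κ) (hκ2 : κ ≤ 2) (W : Finset ℂ) (hW : ∀ w ∈ W, ‖w‖ = 1)
    (hsep : ∀ w ∈ W, ∀ w' ∈ W, w ≠ w' → 8 * (κ - 1) ≤ ‖w - w'‖ ^ 2)
    (A : Finset E) (hA : (A : Set E) ⊆ Fam κ) (hfix : Fix A) : W.card ≤ A.card := by
  classical
  obtain ⟨ε, hε, hcov⟩ := hfix
  set τ : ℝ := min (1 / 2) (ε / 2) with hτ
  have hτ0 : 0 < τ := lt_min (by norm_num) (by positivity)
  have hτ1 : τ ≤ 1 / 2 := min_le_left _ _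
  have hτ2 : τ ≤ ε / 2 := min_le_right _ _
  have key : ∀ w ∈ W, ∃ u : ℂ, ‖u‖ = 1 ∧ av κ u ∈ A ∧ 1 < κ * ip u w := by
    intro w hw
    have hw1 := hW w hw
    set x : E := pt ((τ : ℂ) * w) (-τ) with hx
    have hpx : pz x = (τ : ℂ) * w := pz_pt _ _
    have htx : x 2 = -τ := pt_two _ _
    have hnp : ‖pz x‖ = τ := by
      rw [hpx, norm_mul, hw1, mul_one, Complex.norm_real, Real.norm_eq_abs, abs_of_pos hτ0]
    have hnx : ‖x‖ ^ 2 = 2 * τ ^ 2 := by
      rw [norm_sq_eq, hnp, htx]; ring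
    have hnx2 : ‖x‖ ≤ 2 * τ := by
      have : ‖x‖ ^ 2 ≤ (2 * τ) ^ 2 := by rw [hnx]; nlinarith
      exact abs_le_of_sq_le_sq' this (by linarith) |>.2
    have hx0 : x ≠ 0 := by
      intro h
      rw [h] at htx
      simp at htx
      linarith
    obtain ⟨a, haA, ha⟩ := hcov x hx0 (by linarith)
    rw [mem_translate] at ha
    have hx1 : ‖x‖ ≤ 1 := by linarith
    rcases hA haA with rfl | ⟨u, hu, rfl⟩
    · rw [zero_cov x hx1, hnp, htx] at ha
      linarith
    · rw [av_cov κ hκ1 hκ2 u hu x hx1, hnp, htx] at ha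
      refine ⟨u, hu, haA, ?_⟩
      have hip : ip u (pz x) = τ * ip u w := by
        rw [hpx]
        simp only [ip, Complex.mul_re, Complex.ofReal_re, Complex.ofReal_im, zero_mul, sub_zero,
          Complex.mul_im, add_zero]
        ring
      rw [hip] at ha
      by_contra hcon
      push Not at hcon
      nlinarith
  choose! f hf1 hf2 hf3 using key
  apply Finset.card_le_card_of_injOn (fun w => av κ (f w)) (fun w hw => hf2 w hw)
  intro w hw w' hw' heq
  by_contra hne
  have hfeq : f w = f w' := by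
    have h1 := congrArg pz heq
    simp only [av, pz_pt] at h1
    have hk : (((κ / 2 : ℝ)) : ℂ) ≠ 0 := by
      rw [Ne, Complex.ofReal_eq_zero]; linarith
    exact mul_left_cancel₀ hk h1
  have g1 := hf3 w hw
  have g2 := hf3 w' hw'
  rw [← hfeq] at g2
  set u := f w with hu
  have hu1 : ‖u‖ = 1 := hf1 w hw
  have d1 := norm_sub_sq 1 u w hu1
  have d2 := norm_sub_sq 1 u w' hu1
  rw [Complex.ofReal_one, one_mul, hW w hw] at d1
  rw [Complex.ofReal_one, one_mul, hW w' hw'] at d2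
  have d3 : ‖w - w'‖ ≤ ‖u - w‖ + ‖u - w'‖ := by
    have : w - w' = (u - w') - (u - w) := by ring
    rw [this]
    have := norm_sub_le (u - w') (u - w)
    linarith
  have d4 := hsep w hw w' hw' hne
  have n1 := norm_nonneg (u - w)
  have n2 := norm_nonneg (u - w')
  have n3 := norm_nonneg (w - w')
  have i1 : ‖u - w‖ ^ 2 < 2 * (κ - 1) := by nlinarith
  have i2 : ‖u - w'‖ ^ 2 < 2 * (κ - 1) := by nlinarith
  have i3 : ‖w - w'‖ ^ 2 ≤ (‖u - w‖ + ‖u - w'‖) ^ 2 := pow_le_pow_left₀ n3 d3 2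
  nlinarith [sq_nonneg (‖u - w‖ - ‖u - w'‖)]

/-- every finite fixing system contains a primitive one -/
lemma exists_primitive (A : Finset E) (hA : Fix A) :
    ∃ B : Finset E, B ⊆ A ∧ Fix B ∧ ∀ C : Set E, C ⊆ B → C ≠ B → ¬ Fix C := by
  classical
  induction A using Finset.strongInduction with
  | H A ih =>
    by_cases h : ∀ C : Set E, C ⊆ A → C ≠ A → ¬ Fix C
    · exact ⟨A, Finset.Subset.refl A, hA, h⟩
    · push Not at h
      obtain ⟨C, hCA, hne, hC⟩ := h
      have hfin : C.Finite := A.finite_toSet.subset hCA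
      obtain ⟨C', rfl⟩ := hfin.exists_finset_coe
      have hsub : C' ⊂ A := by
        refine Finset.ssubset_iff_subset_ne.2 ⟨by exact_mod_cast hCA, fun h => hne (by rw [h])⟩
      obtain ⟨B, hB1, hB2, hB3⟩ := ih C' hsub hC
      exact ⟨B, hB1.trans hsub.1, hB2, hB3⟩

/-- The negation of the preceding statement: For every convex body K in d-space there is a finite N such that every minimal set A on the boundary of K meeting the interior of every small nonzero translate x+K (∣x∣≤ε, some ε>0) has at most N points. -/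
theorem result :
    ¬ (∀ (d : ℕ) (K : Set (EuclideanSpace ℝ (Fin d))),
      IsCompact K → Convex ℝ K → (interior K).Nonempty →
      ∃ N : ℕ, ∀ A ⊆ frontier K,
        (∃ ε : ℝ, 0 < ε ∧ ∀ x : EuclideanSpace ℝ (Fin d), x ≠ 0 → ‖x‖ ≤ ε →
            (A ∩ interior ((fun y => x + y) '' K)).Nonempty) →
        (∀ B ⊆ A, B ≠ A →
            ¬ ∃ ε : ℝ, 0 < ε ∧ ∀ x : EuclideanSpace ℝ (Fin d), x ≠ 0 → ‖x‖ ≤ ε →
              (B ∩ interior ((fun y => x + y) '' K)).Nonempty) →
        A.encard ≤ (N : ENat)) := by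
  classical
  intro H
  obtain ⟨N, hN⟩ := H 3 K isCompact_K convex_K (by
    rw [interior_K]
    refine ⟨pt 0 1, ?_, ?_⟩
    · rw [pz_pt, pt_two, norm_zero]; norm_num
    · rw [pz_pt, pt_two, norm_zero]; norm_num)
  -- `N + 1` unit complex numbers
  have hinf : (Metric.sphere (0 : ℂ) 1).Infinite := by
    have : (Set.range (fun n : ℕ => Complex.exp ((1 / ((n : ℝ) + 1) : ℝ) * Complex.I))).Infinite := by
      apply Set.infinite_range_of_injective
      intro m n hmn
      simp only at hmn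
      have h1 := congrArg Complex.arg hmn
      have hrange : ∀ k : ℕ, (1 / ((k : ℝ) + 1) : ℝ) ∈ Set.Ioc (-Real.pi) Real.pi := by
        intro k
        have hk : (0 : ℝ) < (k : ℝ) + 1 := by positivity
        have h2 : 0 < 1 / ((k : ℝ) + 1) := by positivity
        have h3 : 1 / ((k : ℝ) + 1) ≤ 1 := by
          rw [div_le_one hk]
          have : (0 : ℝ) ≤ (k : ℝ) := Nat.cast_nonneg k
          linarith
        have := Real.pi_gt_three
        exact ⟨by linarith, by linarith⟩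
      rw [Complex.arg_exp_mul_I, Complex.arg_exp_mul_I,
        (toIocMod_eq_self _).2 (by
          have := hrange m
          rw [show -Real.pi + 2 * Real.pi = Real.pi by ring]; exact this),
        (toIocMod_eq_self _).2 (by
          have := hrange n
          rw [show -Real.pi + 2 * Real.pi = Real.pi by ring]; exact this)] at h1
      have h4 : ((m : ℝ) + 1) = (n : ℝ) + 1 := by
        have hm : ((m : ℝ) + 1) ≠ 0 := by positivity
        have hn : ((n : ℝ) + 1) ≠ 0 := by positivity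
        field_simp at h1
        linarith
      have h5 : (m : ℝ) = n := by linarith
      exact_mod_cast h5
    apply this.mono
    rintro _ ⟨n, rfl⟩
    rw [mem_sphere_zero_iff_norm]
    exact Complex.norm_exp_ofReal_mul_I _
  obtain ⟨W, hWs, hWc⟩ := hinf.exists_subset_card_eq (N + 1)
  have hW : ∀ w ∈ W, ‖w‖ = 1 := by
    intro w hw
    have := hWs hw
    simpa using this
  -- separation
  obtain ⟨ρ, hρ0, hρ⟩ : ∃ ρ : ℝ, 0 < ρ ∧ ∀ w ∈ W, ∀ w' ∈ W, w ≠ w' → ρ ≤ ‖w - w'‖ ^ 2 := by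
    by_cases hne : (W.offDiag).Nonempty
    · obtain ⟨q, hq, hmin⟩ := W.offDiag.exists_min_image (fun q => ‖q.1 - q.2‖ ^ 2) hne
      refine ⟨‖q.1 - q.2‖ ^ 2, ?_, ?_⟩
      · rw [Finset.mem_offDiag] at hq
        have : 0 < ‖q.1 - q.2‖ := norm_pos_iff.2 (sub_ne_zero.2 hq.2.2)
        positivity
      · intro w hw w' hw' hww
        exact hmin (w, w') (Finset.mem_offDiag.2 ⟨hw, hw', hww⟩)
    · refine ⟨1, one_pos, ?_⟩
      intro w hw w' hw' hww
      exact absurd ⟨(w, w'), Finset.mem_offDiag.2 ⟨hw, hw', hww⟩⟩ hne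
  set κ : ℝ := 1 + min 1 (ρ / 8) with hκ
  have hκ1 : 1 < κ := by
    have : 0 < min 1 (ρ / 8) := lt_min one_pos (by positivity)
    linarith
  have hκ2 : κ ≤ 2 := by
    have : min 1 (ρ / 8) ≤ 1 := min_le_left _ _
    linarith
  have hκ3 : 8 * (κ - 1) ≤ ρ := by
    have : min 1 (ρ / 8) ≤ ρ / 8 := min_le_right _ _
    linarith
  obtain ⟨A, hAF, hAfix⟩ := exists_fix κ hκ1 hκ2
  obtain ⟨B, hBA, hBfix, hBmin⟩ := exists_primitive A hAfix
  have hBF : (B : Set E) ⊆ Fam κ := fun b hb => hAF (hBA hb)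
  have h1 := hN (B : Set E) (hBF.trans (fam_frontier κ hκ1 hκ2)) hBfix hBmin
  have h2 := card_lower κ hκ1 hκ2 W hW (fun w hw w' hw' hne => hκ3.trans (hρ w hw w' hw' hne)) B
    hBF hBfix
  rw [Set.encard_coe_eq_coe_finsetCard] at h1
  have h3 : B.card ≤ N := by exact_mod_cast h1
  omega

end Pool.Agent.S2918
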