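import Pool.Statements.S2929
-- import your own Pool.Agent.* helpers here

set_option autoImplicit false
open Pool Pool.MP_09a6d0_gt


namespace Pool.Agent.S2929

variable {X : Type}

/-- no infinite antichain of members of `B` with a common point (sequence form) -/
def NoAC (B : Set (Set X)) : Prop :=
  ∀ (x : X) (c : ℕ → Set X), (∀ n, c n ∈ B) → (∀ n, x ∈ c n) →
    (∀ m n, m < n → ¬ c m ⊆ c n ∧ ¬ c n ⊆ c m) → False

/-- members of `G` above `b` -/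
def up (G : Set (Set X)) (b : Set X) : Set (Set X) := {c | c ∈ G ∧ b ⊆ c}

/-- the members of `G` with directed up-set -/
def AA (G : Set (Set X)) : Set (Set X) :=
  {b | b ∈ G ∧ ∀ c ∈ up G b, ∀ d ∈ up G b, ∃ e ∈ G, c ⊆ e ∧ d ⊆ e}

def OO (G : Set (Set X)) : Set (Set X) := {o | ∃ b ∈ AA G, o = ⋃₀ (up G b)}

theorem noAC_of (B : Set (Set X))
    (h : ∀ L : Set (Set X), L ⊆ B → L.Infinite → (⋂₀ L).Nonempty →
        ∃ A ∈ L, ∃ C ∈ L, A ≠ C ∧ A ⊆ C) : NoAC B := by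
  intro x c hcB hxc hinc
  have hinj : Function.Injective c := by
    intro m n hmn
    by_contra hne
    rcases lt_or_gt_of_ne hne with h1 | h1
    · exact (hinc m n h1).1 (by rw [hmn])
    · exact (hinc n m h1).1 (by rw [hmn])
  obtain ⟨A, ⟨m, rfl⟩, C, ⟨n, rfl⟩, hne, hsub⟩ := h (Set.range c)
    (by rintro _ ⟨n, rfl⟩; exact hcB n) (Set.infinite_range_of_injective hinj)
    ⟨x, by rintro _ ⟨n, rfl⟩; exact hxc n⟩
  have hmn : m ≠ n := fun hh => hne (by rw [hh])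
  rcases lt_or_gt_of_ne hmn with h1 | h1
  · exact (hinc m n h1).1 hsub
  · exact (hinc n m h1).2 hsub

theorem cover {B G : Set (Set X)} (hB : NoAC B) (hG : G ⊆ B) {x : X} {g : Set X}
    (hg : g ∈ G) (hx : x ∈ g) : ∃ b ∈ AA G, g ⊆ b := by
  by_contra hcon
  have hstep : ∀ b : {b : Set X // b ∈ G ∧ g ⊆ b}, ∃ cd : Set X × Set X,
      cd.1 ∈ G ∧ cd.2 ∈ G ∧ b.1 ⊆ cd.1 ∧ b.1 ⊆ cd.2 ∧
        ¬ ∃ e ∈ G, cd.1 ⊆ e ∧ cd.2 ⊆ e := by
    rintro ⟨b, hbG, hgb⟩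
    by_contra hno
    apply hcon
    refine ⟨b, ⟨hbG, ?_⟩, hgb⟩
    intro c hc d hd
    by_contra hne
    exact hno ⟨(c, d), hc.1, hd.1, hc.2, hd.2, hne⟩
  choose f h1 h2 h3 h4 h5 using hstep
  let s : ℕ → {b : Set X // b ∈ G ∧ g ⊆ b} := fun n =>
    Nat.rec ⟨g, hg, subset_rfl⟩ (fun _ b => ⟨(f b).2, h2 b, b.2.2.trans (h4 b)⟩) n
  have hs : ∀ n, (s (n + 1)).1 = (f (s n)).2 := fun n => rfl
  have hmono : ∀ n m, n ≤ m → (s n).1 ⊆ (s m).1 := by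
    intro n m hnm
    induction hnm with
    | refl => exact subset_rfl
    | step _ ih => exact ih.trans (by rw [hs]; exact h4 _)
  refine hB x (fun n => (f (s n)).1) (fun n => hG (h1 _)) (fun n => h3 _ ((s n).2.2 hx)) ?_
  intro m n hmn
  have hk : (f (s m)).2 ⊆ (f (s n)).1 := by
    rw [← hs]
    exact (hmono _ _ hmn).trans (h3 _)
  constructor
  · intro hsub
    exact h5 (s m) ⟨_, h1 (s n), hsub, hk⟩
  · intro hsub
    exact h5 (s m) ⟨_, h1 (s m), subset_rfl, hk.trans hsub⟩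

theorem O_eq {G : Set (Set X)} {b c : Set X} (hb : b ∈ AA G) (hc : c ∈ up G b) :
    ⋃₀ (up G c) = ⋃₀ (up G b) := by
  apply Set.Subset.antisymm
  · rintro z ⟨e, he, hz⟩
    exact ⟨e, ⟨he.1, hc.2.trans he.2⟩, hz⟩
  · rintro z ⟨e, he, hz⟩
    obtain ⟨d, hd, hd1, hd2⟩ := hb.2 e he c hc
    exact ⟨d, ⟨hd, hd2⟩, hd1 hz⟩

theorem AA_up {G : Set (Set X)} {b c : Set X} (hb : b ∈ AA G) (hc : c ∈ up G b) : c ∈ AA G := by
  refine ⟨hc.1, ?_⟩
  intro e he e' he'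
  exact hb.2 e ⟨he.1, hc.2.trans he.2⟩ e' ⟨he'.1, hc.2.trans he'.2⟩

theorem pf {B G : Set (Set X)} (hB : NoAC B) (hG : G ⊆ B) (x : X) :
    {o | o ∈ OO G ∧ x ∈ o}.Finite := by
  by_contra hinf
  have hinf' : {o | o ∈ OO G ∧ x ∈ o}.Infinite := hinf
  have key : ∀ n : ℕ, ∃ c : Set X, c ∈ AA G ∧ x ∈ c ∧
      ⋃₀ (up G c) = (hinf'.natEmbedding _ n).1 := by
    intro n
    obtain ⟨⟨b, hb, hob⟩, hxo⟩ := (hinf'.natEmbedding _ n).2
    rw [hob] at hxo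
    obtain ⟨c, hc, hxc⟩ := hxo
    exact ⟨c, AA_up hb hc, hxc, by rw [O_eq hb hc, hob]⟩
  choose c h1 h2 h3 using key
  have hno : ∀ m n, m ≠ n → ¬ c m ⊆ c n := by
    intro m n hmn hsub
    have : ⋃₀ (up G (c n)) = ⋃₀ (up G (c m)) := O_eq (h1 m) ⟨(h1 n).1, hsub⟩
    rw [h3, h3] at this
    exact hmn ((hinf'.natEmbedding _).injective (Subtype.ext this)).symm
  exact hB x c (fun n => hG (h1 n).1) h2
    (fun m n hmn => ⟨hno m n hmn.ne, hno n m hmn.ne'⟩)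

/-- finite subsets of `O` lie in members of `B` contained in `O` and in a member of `U` -/
def DirU (B U : Set (Set X)) (O : Set X) : Prop :=
  ∀ F : Finset X, (∀ z ∈ F, z ∈ O) → ∃ C ∈ B, (∀ z ∈ F, z ∈ C) ∧ C ⊆ O ∧ ∃ u ∈ U, C ⊆ u

theorem dirU_of {B U G : Set (Set X)} (hG : G ⊆ B) (hGU : ∀ C ∈ G, ∃ u ∈ U, C ⊆ u)
    {O : Set X} (hO : O ∈ OO G) : DirU B U O := by
  classical
  obtain ⟨b, hb, rfl⟩ := hO
  have key : ∀ F : Finset X, (∀ z ∈ F, z ∈ ⋃₀ (up G b)) → ∃ C ∈ up G b, ∀ z ∈ F, z ∈ C := by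
    intro F
    induction F using Finset.induction_on with
    | empty => intro _; exact ⟨b, ⟨hb.1, subset_rfl⟩, by simp⟩
    | insert a s ha ih =>
      intro h
      obtain ⟨C, hC, hC2⟩ := ih (fun z hz => h z (Finset.mem_insert_of_mem hz))
      obtain ⟨D, hD, haD⟩ := h a (Finset.mem_insert_self a s)
      obtain ⟨e, he, h1, h2⟩ := hb.2 C hC D hD
      refine ⟨e, ⟨he, hC.2.trans h1⟩, ?_⟩
      intro z hz
      rcases Finset.mem_insert.1 hz with rfl | hz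
      · exact h2 haD
      · exact h1 (hC2 z hz)
  intro F hF
  obtain ⟨C, hC, hC2⟩ := key F hF
  exact ⟨C, hG hC.1, hC2, Set.subset_sUnion_of_mem hC, hGU C hC.1⟩

theorem noPath {B U : Set (Set X)} (hB : NoAC B) (p : Set X → X) (y : X) (O : ℕ → Set X)
    (h1 : ∀ n, DirU B U (O n)) (h2 : ∀ n, ¬ ∃ u ∈ U, O n ⊆ u) (h3 : ∀ n, y ∈ O n)
    (h4 : ∀ n, O (n + 1) ⊆ O n ∧ p (O n) ∉ O (n + 1)) (h5 : ∀ n, p (O n) ∈ O n) : False := by
  classical
  have hmono : ∀ n m, n ≤ m → O m ⊆ O n := by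
    intro n m hnm
    induction hnm with
    | refl => exact subset_rfl
    | step _ ih => exact (h4 _).1.trans ih
  obtain ⟨f, hf1, hf2⟩ := exists_seq_of_forall_finset_exists
    (fun q : ℕ × Set X => q.2 ∈ B ∧ p (O q.1) ∈ q.2 ∧ y ∈ q.2 ∧ q.2 ⊆ O q.1 ∧ ∃ u ∈ U, q.2 ⊆ u)
    (fun q q' => q.1 < q'.1 ∧ ¬ q'.2 ⊆ q.2) (by
      intro s hs
      obtain ⟨k, hk⟩ : ∃ k : ℕ, ∀ q ∈ s, q.1 < k :=
        ⟨s.sup (fun q => q.1) + 1, fun q hq => Nat.lt_succ_of_le (Finset.le_sup (f := fun q => q.1) hq)⟩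
      have hz : ∀ q : s, ∃ z, z ∈ O k ∧ z ∉ q.1.2 := by
        rintro ⟨q, hq⟩
        obtain ⟨u, hu, hqu⟩ := (hs q hq).2.2.2.2
        by_contra hno
        apply h2 k
        refine ⟨u, hu, fun z hz => hqu ?_⟩
        by_contra hzq
        exact hno ⟨z, hz, hzq⟩
      choose z hz1 hz2 using hz
      obtain ⟨C, hCB, hCF, hCO, hCU⟩ := h1 k (insert (p (O k)) (insert y (Finset.univ.image z))) (by
        intro w hw
        rcases Finset.mem_insert.1 hw with rfl | hw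
        · exact h5 k
        rcases Finset.mem_insert.1 hw with rfl | hw
        · exact h3 k
        obtain ⟨q, -, rfl⟩ := Finset.mem_image.1 hw
        exact hz1 q)
      refine ⟨(k, C), ⟨hCB, hCF _ (by simp), hCF _ (by simp), hCO, hCU⟩, ?_⟩
      intro q hq
      refine ⟨hk q hq, fun hsub => hz2 ⟨q, hq⟩ (hsub (hCF _ ?_))⟩
      refine Finset.mem_insert_of_mem (Finset.mem_insert_of_mem ?_)
      exact Finset.mem_image_of_mem z (Finset.mem_univ _))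
  refine hB y (fun n => (f n).2) (fun n => (hf1 n).1) (fun n => (hf1 n).2.2.1) ?_
  intro m n hmn
  refine ⟨fun hsub => ?_, (hf2 m n hmn).2⟩
  have ha : p (O (f m).1) ∈ (f n).2 := hsub (hf1 m).2.1
  have hb : p (O (f m).1) ∈ O ((f m).1 + 1) :=
    hmono _ _ (hf2 m n hmn).1 ((hf1 n).2.2.2.1 ha)
  exact (h4 _).2 hb

theorem main [TopologicalSpace X] [T1Space X] (B : Set (Set X))
    (hBb : TopologicalSpace.IsTopologicalBasis B) (hB : NoAC B)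
    (U : Set (Set X)) (hUo : ∀ u ∈ U, IsOpen u) (hUc : ⋃₀ U = Set.univ) :
    ∃ V : Set (Set X), (∀ v ∈ V, IsOpen v) ∧ ⋃₀ V = Set.univ ∧
          (∀ v ∈ V, ∃ u ∈ U, v ⊆ u) ∧
          ∀ x : X, {v ∈ V | x ∈ v}.Finite := by
  classical
  rcases isEmpty_or_nonempty X with hX | hX
  · refine ⟨∅, by simp, ?_, by simp, fun x => (hX.false x).elim⟩
    exact Set.eq_univ_of_forall (fun x => (hX.false x).elim)
  -- choice of points
  obtain ⟨p, hp⟩ : ∃ p : Set X → X, ∀ O : Set X, O.Nonempty → p O ∈ O := by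
    refine ⟨fun O => if h : O.Nonempty then h.choose else Classical.arbitrary X, ?_⟩
    intro O hO
    simp only [hO, dif_pos]
    exact hO.choose_spec
  set bdd : Set X → Prop := fun O => ∃ u ∈ U, O ⊆ u with hbdd
  set G0 : Set (Set X) := {C | C ∈ B ∧ ∃ u ∈ U, C ⊆ u} with hG0
  set Gn : Set X → Set (Set X) := fun O => {C | C ∈ B ∧ C ⊆ O ∧ p O ∉ C ∧ ∃ u ∈ U, C ⊆ u} with hGn
  have hGnB : ∀ O, Gn O ⊆ B := fun O C hC => hC.1
  have hG0B : G0 ⊆ B := fun C hC => hC.1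
  set child : Set X → Set X → Prop := fun O O' => ¬ bdd O ∧ O' ∈ OO (Gn O) with hchild
  have hchild_sub : ∀ O O', child O O' → O' ⊆ O ∧ p O ∉ O' := by
    rintro O O' ⟨-, b, hb, rfl⟩
    constructor
    · rintro z ⟨c, hc, hz⟩
      exact hc.1.2.1 hz
    · rintro ⟨c, hc, hz⟩
      exact hc.1.2.2.1 hz
  set N : Set (Set X) := {O' | ∃ O ∈ OO G0, Relation.ReflTransGen child O O'} with hN
  have hND : ∀ O ∈ N, DirU B U O := by
    rintro O' ⟨O, hO, hOO'⟩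
    rcases Relation.ReflTransGen.cases_tail hOO' with h | ⟨O'', -, h⟩
    · rw [h]
      exact dirU_of hG0B (fun C hC => hC.2) hO
    · exact dirU_of (hGnB O'') (fun C hC => hC.2.2.2) h.2
  have hNchild : ∀ O ∈ N, ∀ O', child O O' → O' ∈ N := by
    rintro O ⟨O0, hO0, h⟩ O' hO'
    exact ⟨O0, hO0, h.tail hO'⟩
  -- no infinite path inside `N` through a common point
  have hnp : ∀ y : X, ∀ Q : Set X → Prop, (∀ O, Q O → O ∈ N ∧ y ∈ O ∧ ∃ O', Q O' ∧ child O O') →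
      ∀ O, ¬ Q O := by
    intro y Q hQ O hO
    have hstep : ∀ O : {O // Q O}, ∃ O' : {O // Q O}, child O.1 O'.1 := by
      rintro ⟨O, hO⟩
      obtain ⟨-, -, O', h1, h2⟩ := hQ O hO
      exact ⟨⟨O', h1⟩, h2⟩
    choose f hf using hstep
    let s : ℕ → {O // Q O} := fun n => Nat.rec ⟨O, hO⟩ (fun _ b => f b) n
    have hs : ∀ n, child (s n).1 (s (n + 1)).1 := fun n => hf (s n)
    refine noPath (U := U) hB p y (fun n => (s n).1) (fun n => hND _ (hQ _ (s n).2).1)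
      (fun n => (hs n).1) (fun n => (hQ _ (s n).2).2.1) (fun n => hchild_sub _ _ (hs n))
      (fun n => hp _ ⟨y, (hQ _ (s n).2).2.1⟩)
  -- descendants
  have hsub : ∀ O O', Relation.ReflTransGen child O O' → O' ⊆ O := by
    intro O O' h
    induction h with
    | refl => exact subset_rfl
    | tail _ h2 ih => exact (hchild_sub _ _ h2).1.trans ih
  have hfin : ∀ y : X, ∀ O ∈ N, y ∈ O →
      {O' | Relation.ReflTransGen child O O' ∧ y ∈ O'}.Finite := by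
    intro y
    by_contra hcon
    push Not at hcon
    obtain ⟨O, hO, hyO, hinf⟩ := hcon
    refine hnp y (fun O => O ∈ N ∧ y ∈ O ∧
      ¬ {O' | Relation.ReflTransGen child O O' ∧ y ∈ O'}.Finite) ?_ O ⟨hO, hyO, hinf⟩
    rintro O ⟨hO, hyO, hinf⟩
    refine ⟨hO, hyO, ?_⟩
    by_contra hno
    apply hinf
    have hfin1 : {O1 | child O O1 ∧ y ∈ O1}.Finite := by
      refine (pf hB (hGnB O) y).subset ?_
      rintro O1 ⟨h1, h2⟩
      exact ⟨h1.2, h2⟩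
    refine ((Set.finite_singleton O).union (hfin1.biUnion
      (t := fun O1 => {O' | Relation.ReflTransGen child O1 O' ∧ y ∈ O'}) ?_)).subset ?_
    · rintro O1 ⟨h1, h2⟩
      by_contra h3
      exact hno ⟨O1, ⟨hNchild O hO O1 h1, h2, h3⟩, h1⟩
    · rintro O' ⟨h1, h2⟩
      rcases Relation.ReflTransGen.cases_head h1 with h | ⟨O1, h3, h4⟩
      · left; exact h.symm
      · right
        simp only [Set.mem_iUnion]
        exact ⟨O1, ⟨h3, hsub _ _ h4 h2⟩, h4, h2⟩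
  have hNfin : ∀ y : X, {O | O ∈ N ∧ y ∈ O}.Finite := by
    intro y
    refine ((pf hB hG0B y).biUnion
      (t := fun O1 => {O' | Relation.ReflTransGen child O1 O' ∧ y ∈ O'}) ?_).subset ?_
    · rintro O1 ⟨h1, h2⟩
      exact hfin y O1 ⟨O1, h1, Relation.ReflTransGen.refl⟩ h2
    · rintro O' ⟨⟨O, hO, h1⟩, h2⟩
      simp only [Set.mem_iUnion]
      exact ⟨O, ⟨hO, hsub _ _ h1 h2⟩, h1, h2⟩
  -- the extra sets
  have hW : ∀ O : Set X, ∃ W : Set X, O ∈ N → O.Nonempty →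
      W ∈ B ∧ p O ∈ W ∧ W ⊆ O ∧ ∃ u ∈ U, W ⊆ u := by
    intro O
    by_cases h : O ∈ N ∧ O.Nonempty
    · obtain ⟨C, hC, h1, h2, h3⟩ := hND O h.1 {p O} (by simpa using hp O h.2)
      exact ⟨C, fun _ _ => ⟨hC, h1 _ (by simp), h2, h3⟩⟩
    · exact ⟨∅, fun h1 h2 => (h ⟨h1, h2⟩).elim⟩
  choose W hW using hW
  have hopenOO : ∀ G : Set (Set X), G ⊆ B → ∀ O ∈ OO G, IsOpen O := by
    rintro G hG O ⟨b, hb, rfl⟩
    exact isOpen_sUnion (fun t ht => hBb.isOpen (hG ht.1))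
  have hNopen : ∀ O ∈ N, IsOpen O := by
    rintro O' ⟨O, hO, hOO'⟩
    rcases Relation.ReflTransGen.cases_tail hOO' with h | ⟨O'', -, h⟩
    · rw [h]
      exact hopenOO _ hG0B _ hO
    · exact hopenOO _ (hGnB O'') _ h.2
  refine ⟨{v | ∃ O ∈ N, O.Nonempty ∧ ((bdd O ∧ v = O) ∨ (¬ bdd O ∧ v = W O))}, ?_, ?_, ?_, ?_⟩
  · rintro v ⟨O, hO, hne, ⟨-, rfl⟩ | ⟨-, rfl⟩⟩
    · exact hNopen _ hO
    · exact hBb.isOpen (hW O hO hne).1
  · apply Set.eq_univ_of_forall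
    intro y
    by_contra hy
    have hux : ∃ u ∈ U, y ∈ u := by
      have : y ∈ ⋃₀ U := by rw [hUc]; trivial
      exact this
    obtain ⟨u, hu, hyu⟩ := hux
    obtain ⟨C, hCB, hyC, hCu⟩ := hBb.exists_subset_of_mem_open hyu (hUo u hu)
    obtain ⟨b, hb, hCb⟩ := cover hB hG0B (g := C) ⟨hCB, u, hu, hCu⟩ hyC
    refine hnp y (fun O => O ∈ N ∧ y ∈ O) ?_ (⋃₀ (up G0 b))
      ⟨⟨_, ⟨b, hb, rfl⟩, Relation.ReflTransGen.refl⟩, ⟨b, ⟨hb.1, subset_rfl⟩, hCb hyC⟩⟩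
    rintro O ⟨hO, hyO⟩
    refine ⟨hO, hyO, ?_⟩
    have hnb : ¬ bdd O := by
      intro hb'
      exact hy ⟨O, ⟨O, hO, ⟨y, hyO⟩, Or.inl ⟨hb', rfl⟩⟩, hyO⟩
    have hyp : y ≠ p O := by
      intro hyp
      refine hy ⟨W O, ⟨O, hO, ⟨y, hyO⟩, Or.inr ⟨hnb, rfl⟩⟩, ?_⟩
      rw [hyp]
      exact (hW O hO ⟨y, hyO⟩).2.1
    have hopen : IsOpen ((O ∩ {p O}ᶜ) ∩ u) :=
      ((hNopen O hO).inter isOpen_compl_singleton).inter (hUo u hu)
    obtain ⟨C, hCB, hyC, hCs⟩ := hBb.exists_subset_of_mem_open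
      (show y ∈ (O ∩ {p O}ᶜ) ∩ u from ⟨⟨hyO, hyp⟩, hyu⟩) hopen
    have hCG : C ∈ Gn O := ⟨hCB, fun z hz => (hCs hz).1.1, fun h => (hCs h).1.2 rfl,
      u, hu, fun z hz => (hCs hz).2⟩
    obtain ⟨b, hb, hCb⟩ := cover hB (hGnB O) hCG hyC
    have hch : child O (⋃₀ (up (Gn O) b)) := ⟨hnb, b, hb, rfl⟩
    exact ⟨_, ⟨hNchild O hO _ hch, ⟨b, ⟨hb.1, subset_rfl⟩, hCb hyC⟩⟩, hch⟩
  · rintro v ⟨O, hO, hne, ⟨hb, rfl⟩ | ⟨-, rfl⟩⟩
    · exact hb
    · exact (hW O hO hne).2.2.2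
  · intro x
    refine ((hNfin x).image (fun O => if bdd O then O else W O)).subset ?_
    rintro v ⟨⟨O, hO, hne, ⟨hb, rfl⟩ | ⟨hb, rfl⟩⟩, hxv⟩
    · exact ⟨v, ⟨hO, hxv⟩, by simp only [hb, if_true]⟩
    · exact ⟨O, ⟨hO, (hW O hO hne).2.2.1 hxv⟩, by simp only [hb, if_false]⟩

/-- Every T1 space with a base in which each infinite subfamily with nonempty intersection has two distinct members, one contained in the other, is metacompact: every open cover has an open refinement with each point in only finitely many members. -/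
theorem result :
    ∀ (X : Type) [TopologicalSpace X] [T1Space X] (B : Set (Set X)),
      TopologicalSpace.IsTopologicalBasis B →
      (∀ L : Set (Set X), L ⊆ B → L.Infinite → (⋂₀ L).Nonempty →
        ∃ A ∈ L, ∃ C ∈ L, A ≠ C ∧ A ⊆ C) →
      ∀ U : Set (Set X), (∀ u ∈ U, IsOpen u) → ⋃₀ U = Set.univ →
        ∃ V : Set (Set X), (∀ v ∈ V, IsOpen v) ∧ ⋃₀ V = Set.univ ∧
          (∀ v ∈ V, ∃ u ∈ U, v ⊆ u) ∧
          ∀ x : X, {v ∈ V | x ∈ v}.Finite := by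
  intro X _ _ B hBb h U hUo hUc
  exact main B hBb (noAC_of B h) U hUo hUc

end Pool.Agent.S2929
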