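import Pool.Statements.S2961
import Pool.Agent.H3.SqH
-- import your own Pool.Agent.* helpers here

set_option autoImplicit false
open Filter Topology
open Pool Pool.MP_1a07a1_gt

namespace Pool.Agent.S2961

/-- For every n ≥ 2 and every nonempty closed set C in the unit sphere of ℝⁿ, some sequence of self-homeomorphisms of the sphere converges pointwise everywhere to points of C, with every point of C attained as a limit. -/
theorem result :
    ∀ n : ℕ, 2 ≤ n →
      ∀ C : Set ↥(Metric.sphere (0 : EuclideanSpace ℝ (Fin n)) (1 : ℝ)),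
        IsClosed C → C.Nonempty →
        ∃ H : ℕ → (↥(Metric.sphere (0 : EuclideanSpace ℝ (Fin n)) (1 : ℝ)) ≃ₜ
                    ↥(Metric.sphere (0 : EuclideanSpace ℝ (Fin n)) (1 : ℝ))),
          (∀ p : ↥(Metric.sphere (0 : EuclideanSpace ℝ (Fin n)) (1 : ℝ)),
              ∃ q ∈ C, Tendsto (fun k : ℕ => H k p) atTop (𝓝 q)) ∧
          (∀ q ∈ C, ∃ p : ↥(Metric.sphere (0 : EuclideanSpace ℝ (Fin n)) (1 : ℝ)),
              Tendsto (fun k : ℕ => H k p) atTop (𝓝 q)) := by
  intro n hn C hC hne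
  obtain ⟨p0, hp0⟩ := hne
  have hv : ‖(p0 : EuclideanSpace ℝ (Fin n))‖ = 1 := by
    have := p0.2
    rwa [mem_sphere_zero_iff_norm] at this
  have hv0 : (p0 : EuclideanSpace ℝ (Fin n)) ≠ 0 := by
    intro h; rw [h] at hv; simp at hv
  let Ψ0 := onePointHyperplaneHomeoUnitSphere hv
  have hΨ0 : Ψ0 OnePoint.infty = p0 := by
    show OnePoint.equivOfIsEmbeddingOfRangeEq _ _ _ _ OnePoint.infty = p0
    rw [OnePoint.equivOfIsEmbeddingOfRangeEq_apply_infty]
  rcases Nat.lt_or_ge n 3 with h3 | h3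
  · have hn2 : n = 2 := by omega
    subst hn2
    have : Fact (Module.finrank ℝ (EuclideanSpace ℝ (Fin 2)) = 1 + 1) := ⟨by simp⟩
    have hV : Module.finrank ℝ ℝ = Module.finrank ℝ (Submodule.span ℝ {(p0 : EuclideanSpace ℝ (Fin 2))})ᗮ := by
      rw [Submodule.finrank_orthogonal_span_singleton (n := 1) hv0, Module.finrank_self]
    let e : ℝ ≃ₜ (Submodule.span ℝ {(p0 : EuclideanSpace ℝ (Fin 2))})ᗮ :=
      (FiniteDimensional.nonempty_continuousLinearEquiv_of_finrank_eq hV).some.toHomeomorph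
    refine Pool.Agent.H3.SqT.oneDim C hC p0 hp0 (e.onePointCongr.trans Ψ0) ?_
    show Ψ0 (e.onePointCongr OnePoint.infty) = p0
    rw [Homeomorph.onePointCongr_apply, OnePoint.map_infty, hΨ0]
  · obtain ⟨m, rfl⟩ : ∃ m, n = m + 3 := ⟨n - 3, by omega⟩
    have : Fact (Module.finrank ℝ (EuclideanSpace ℝ (Fin (m + 3))) = (m + 2) + 1) := ⟨by simp⟩
    have hV : Module.finrank ℝ (ℝ × ℝ × (Fin m → ℝ)) = Module.finrank ℝ (Submodule.span ℝ {(p0 : EuclideanSpace ℝ (Fin (m + 3)))})ᗮ := by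
      rw [Submodule.finrank_orthogonal_span_singleton (n := m + 2) hv0]
      simp [Module.finrank_prod]
      ring
    let e : (ℝ × ℝ × (Fin m → ℝ)) ≃ₜ (Submodule.span ℝ {(p0 : EuclideanSpace ℝ (Fin (m + 3)))})ᗮ :=
      (FiniteDimensional.nonempty_continuousLinearEquiv_of_finrank_eq hV).some.toHomeomorph
    refine Pool.Agent.H3.SqH.highDim m C hC.isCompact p0 hp0 (e.onePointCongr.trans Ψ0) ?_
    show Ψ0 (e.onePointCongr OnePoint.infty) = p0
    rw [Homeomorph.onePointCongr_apply, OnePoint.map_infty, hΨ0]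

end Pool.Agent.S2961
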