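import Pool.Statements.S2992

set_option autoImplicit false
open Pool Pool.MP_28e94d_gt

namespace Pool.Agent.S2992

/-- the invariant: a compact normal subgroup of countable index -/
def Inv (H : Type) [Group H] [TopologicalSpace H] : Prop :=
  ∃ N : Subgroup H, N.Normal ∧ IsCompact (N : Set H) ∧ ∃ s : ℕ → H, ∀ h, ∃ n, (s n)⁻¹ * h ∈ N

lemma inv_compact (H : Type) [Group H] [TopologicalSpace H] [IsTopologicalGroup H] [T2Space H]
    (hc : CompactSpace H) : Inv H :=
  ⟨⊤, inferInstance, by rw [Subgroup.coe_top]; exact isCompact_univ, fun _ => 1,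
    fun _ => ⟨0, Subgroup.mem_top _⟩⟩

lemma inv_countable (H : Type) [Group H] [TopologicalSpace H] [IsTopologicalGroup H] [T2Space H]
    (hc : Countable H) : Inv H := by
  obtain ⟨s, hs⟩ := exists_surjective_nat H
  refine ⟨⊥, inferInstance, ?_, s, ?_⟩
  · rw [Subgroup.coe_bot]
    exact isCompact_singleton
  · intro h
    obtain ⟨n, hn⟩ := hs h
    exact ⟨n, by rw [hn, inv_mul_cancel]; exact Subgroup.one_mem _⟩

lemma inv_prod (H₁ : Type) [Group H₁] [TopologicalSpace H₁] [IsTopologicalGroup H₁] [T2Space H₁]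
    (H₂ : Type) [Group H₂] [TopologicalSpace H₂] [IsTopologicalGroup H₂] [T2Space H₂]
    (h₁ : Inv H₁) (h₂ : Inv H₂) : Inv (H₁ × H₂) := by
  obtain ⟨N₁, hN₁, hc₁, s₁, hs₁⟩ := h₁
  obtain ⟨N₂, hN₂, hc₂, s₂, hs₂⟩ := h₂
  refine ⟨N₁.prod N₂, inferInstance, ?_,
    fun n => (s₁ (Nat.unpair n).1, s₂ (Nat.unpair n).2), ?_⟩
  · rw [Subgroup.coe_prod]
    exact hc₁.prod hc₂
  · rintro ⟨a, b⟩
    obtain ⟨n, hn⟩ := hs₁ a
    obtain ⟨m, hm⟩ := hs₂ b
    refine ⟨Nat.pair n m, ?_⟩
    simp only [Nat.unpair_pair]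
    exact ⟨hn, hm⟩

lemma inv_closed (H : Type) [Group H] [TopologicalSpace H] [IsTopologicalGroup H] [T2Space H]
    (L : Subgroup H) (hL : IsClosed (L : Set H)) (h : Inv H) : Inv L := by
  classical
  obtain ⟨N, hN, hc, s, hs⟩ := h
  have hex : ∀ n, ∃ l : L, (∃ l' : L, (s n)⁻¹ * l' ∈ N) → (s n)⁻¹ * l ∈ N := by
    intro n
    by_cases hn : ∃ l' : L, (s n)⁻¹ * l' ∈ N
    · obtain ⟨l, hl⟩ := hn
      exact ⟨l, fun _ => hl⟩
    · exact ⟨1, fun h => absurd h hn⟩
  choose s' hs' using hex
  refine ⟨N.subgroupOf L, inferInstance, ?_, s', ?_⟩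
  · exact hL.isClosedEmbedding_subtypeVal.isCompact_preimage hc
  · intro l
    obtain ⟨n, hn⟩ := hs l
    refine ⟨n, ?_⟩
    have h1 := hs' n ⟨l, hn⟩
    rw [Subgroup.mem_subgroupOf]
    have h2 : (((s' n)⁻¹ * l : L) : H) = ((s n)⁻¹ * s' n)⁻¹ * ((s n)⁻¹ * l) := by
      push_cast
      group
    rw [h2]
    exact N.mul_mem (N.inv_mem h1) hn

lemma inv_image (H₁ : Type) [Group H₁] [TopologicalSpace H₁] [IsTopologicalGroup H₁] [T2Space H₁]
    (H₂ : Type) [Group H₂] [TopologicalSpace H₂] [IsTopologicalGroup H₂] [T2Space H₂]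
    (f : H₁ →* H₂) (hf : Continuous f) (hs : Function.Surjective f) (h : Inv H₁) : Inv H₂ := by
  obtain ⟨N, hN, hc, s, hs'⟩ := h
  refine ⟨N.map f, hN.map f hs, ?_, fun n => f (s n), ?_⟩
  · rw [Subgroup.coe_map]
    exact hc.image hf
  · intro h
    obtain ⟨g, rfl⟩ := hs h
    obtain ⟨n, hn⟩ := hs' g
    refine ⟨n, ?_⟩
    rw [← map_inv, ← map_mul]
    exact Subgroup.mem_map_of_mem f hn

/-- the finite group -/
abbrev F : Type := Equiv.Perm (Fin 3)

local instance : TopologicalSpace F := ⊥

local instance : DiscreteTopology F := ⟨rfl⟩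

/-- the stabiliser of 2 -/
def E : Subgroup F := MulAction.stabilizer F (2 : Fin 3)

lemma mem_E (x : F) : x ∈ E ↔ x 2 = 2 := Iff.rfl

lemma core_free : ∀ x : F, (∀ g : F, (g * x * g⁻¹) 2 = 2) → x = 1 := by decide

/-- the group -/
abbrev G : Type := RestrictedProduct (fun _ : ℕ => F) (fun _ : ℕ => (E : Set F)) Filter.cofinite

local instance : Fact (∀ _ : ℕ, IsOpen ((E : Subgroup F) : Set F)) := ⟨fun _ => isOpen_discrete _⟩

local instance : IsTopologicalGroup F := inferInstance

local instance instTG : IsTopologicalGroup G := RestrictedProduct.isTopologicalGroup _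

/-- the compact subgroup -/
def K : Subgroup G where
  carrier := {x | ∀ i, x i ∈ E}
  mul_mem' := fun {a b} ha hb i => E.mul_mem (ha i) (hb i)
  one_mem' := fun i => E.one_mem
  inv_mem' := fun {a} ha i => E.inv_mem (ha i)

lemma mem_K (x : G) : x ∈ K ↔ ∀ i, x i ∈ E := Iff.rfl

/-- the parametrisation of `K` -/
def para (x : ℕ → E) : K := ⟨RestrictedProduct.structureMap _ _ _ x, fun i => (x i).2⟩

lemma para_cont : Continuous para :=
  Continuous.subtype_mk RestrictedProduct.isEmbedding_structureMap.continuous _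

lemma para_surj : Function.Surjective para := by
  intro x
  refine ⟨fun i => ⟨x.1 i, x.2 i⟩, ?_⟩
  apply Subtype.ext
  apply RestrictedProduct.ext
  intro i
  rfl

lemma K_compact : CompactSpace K := by
  rw [← isCompact_univ_iff, ← para_surj.range_eq]
  exact isCompact_range para_cont

lemma K_sep : TopologicalSpace.SeparableSpace K :=
  para_surj.denseRange.separableSpace para_cont

/-- finitely supported elements -/
def fs (p : Σ m : ℕ, (Fin m → F)) : G :=
  ⟨fun i => if h : i < p.1 then p.2 ⟨i, h⟩ else 1, by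
    rw [Filter.eventually_cofinite]
    apply (Set.finite_lt_nat p.1).subset
    intro i hi
    by_contra hn
    apply hi
    rw [Set.mem_ofPred_eq] at hn
    simp only [hn, dif_neg, not_false_eq_true]
    exact E.one_mem⟩

lemma fs_lt (p : Σ m : ℕ, (Fin m → F)) (i : ℕ) (h : i < p.1) : fs p i = p.2 ⟨i, h⟩ := by
  show (if h : i < p.1 then p.2 ⟨i, h⟩ else 1) = _
  rw [dif_pos h]

lemma fs_ge (p : Σ m : ℕ, (Fin m → F)) (i : ℕ) (h : ¬ i < p.1) : fs p i = 1 := by
  show (if h : i < p.1 then p.2 ⟨i, h⟩ else 1) = _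
  rw [dif_neg h]

lemma exists_bound (x : G) : ∃ m : ℕ, ∀ i, m ≤ i → x i ∈ E := by
  have h : ∀ᶠ i in Filter.cofinite, x i ∈ E := x.2
  rw [Filter.eventually_cofinite] at h
  obtain ⟨M, hM⟩ := h.bddAbove
  refine ⟨M + 1, fun i hi => ?_⟩
  by_contra hn
  have := hM hn
  omega

lemma GK_countable : Countable (G ⧸ K) := by
  have hsurj : Function.Surjective
      (fun p : Σ m : ℕ, (Fin m → F) => (QuotientGroup.mk (fs p) : G ⧸ K)) := by
    intro q
    obtain ⟨x, rfl⟩ := QuotientGroup.mk_surjective q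
    obtain ⟨m, hm⟩ := exists_bound x
    refine ⟨⟨m, fun i => x i⟩, ?_⟩
    apply QuotientGroup.eq.mpr
    rw [mem_K]
    intro i
    show (fs ⟨m, fun i => x i⟩ i)⁻¹ * x i ∈ E
    by_cases hi : i < m
    · rw [fs_lt _ i hi, inv_mul_cancel]
      exact E.one_mem
    · rw [fs_ge _ i hi, inv_one, one_mul]
      exact hm i (not_lt.mp hi)
  exact hsurj.countable

lemma G_uncountable : ¬ Countable G := by
  intro h
  let τ : F := Equiv.swap 0 1
  have hτ : τ ∈ E := by
    rw [mem_E]
    decide
  have hτ1 : τ ≠ 1 := by decide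
  let emb : (ℕ → Bool) → G := fun b => ⟨fun i => if b i then τ else 1,
    Filter.Eventually.of_forall (fun i => by
      by_cases hb : b i = true
      · simp only [hb, if_true]
        exact hτ
      · simp only [hb]
        exact E.one_mem)⟩
  have hinj : Function.Injective emb := by
    intro b c hbc
    funext i
    have h1 : emb b i = emb c i := by rw [hbc]
    have h2 : (if b i then τ else 1) = (if c i then τ else (1 : F)) := h1
    rcases hb : b i with _ | _ <;> rcases hc : c i with _ | _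
    · rfl
    · rw [hb, hc] at h2
      simp only [if_true] at h2
      exact absurd h2.symm hτ1
    · rw [hb, hc] at h2
      simp only [if_true] at h2
      exact absurd h2 hτ1
    · rfl
  have h3 : Countable (ℕ → Bool) := hinj.countable
  obtain ⟨g, hg⟩ := exists_surjective_nat (ℕ → Bool)
  obtain ⟨n, hn⟩ := hg (fun n => !(g n n))
  have := congrFun hn n
  simp at this

lemma G_not_inv : ¬ Inv G := by
  rintro ⟨N, hN, hc, s, hs⟩
  -- open sets
  let U : ℕ → Set G := fun m => {x | ∀ i, m ≤ i → x i ∈ E}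
  have hU : ∀ m, IsOpen (U m) := fun m =>
    RestrictedProduct.isOpen_forall_imp_mem (R := fun _ : ℕ => F) (A := fun _ : ℕ => (E : Set F))
      (fun _ => isOpen_discrete _)
  have hcov : (N : Set G) ⊆ ⋃ m, U m := by
    intro x _
    obtain ⟨m, hm⟩ := exists_bound x
    exact Set.mem_iUnion.mpr ⟨m, hm⟩
  have hdir : Directed (· ⊆ ·) U := by
    intro a b
    refine ⟨max a b, ?_, ?_⟩
    · intro x hx i hi
      exact hx i (le_trans (le_max_left a b) hi)
    · intro x hx i hi
      exact hx i (le_trans (le_max_right a b) hi)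
  obtain ⟨m, hm⟩ := hc.elim_directed_cover U hU hcov hdir
  have hone : ∀ x ∈ N, ∀ i, m ≤ i → x i = 1 := by
    intro x hx i hi
    apply core_free
    intro g
    let γ : G := fs ⟨i + 1, fun j => if j.1 = i then g else 1⟩
    have hγ : γ i = g := by
      rw [fs_lt _ i (Nat.lt_succ_self i)]
      simp
    have h1 := hm (hN.conj_mem x hx γ) i hi
    have h2 : (γ * x * γ⁻¹) i = g * x i * g⁻¹ := by
      rw [← hγ]
      rfl
    rw [h2, mem_E] at h1
    exact h1
  have hsub : ∀ x ∈ N, ∃ p, fs p = x := by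
    intro x hx
    refine ⟨⟨m, fun i => x i⟩, ?_⟩
    apply RestrictedProduct.ext
    intro i
    by_cases hi : i < m
    · rw [fs_lt _ i hi]
    · rw [fs_ge _ i hi, hone x hx i (not_lt.mp hi)]
  apply G_uncountable
  have hsurj : Function.Surjective
      (fun q : ℕ × (Σ m : ℕ, (Fin m → F)) => s q.1 * fs q.2) := by
    intro h
    obtain ⟨n, hn⟩ := hs h
    obtain ⟨p, hp⟩ := hsub _ hn
    exact ⟨(n, p), by simp only [hp, mul_inv_cancel_left]⟩
  exact hsurj.countable

/-- The negation of the preceding statement: A Hausdorff topological group lies in the smallest class containing compact separable and countable groups, closed under finite products, closed subgroups and continuous homomorphic images, iff it has a compact separable subgroup with countably many cosets. -/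
theorem result :
    ¬ (∀ (G : Type) [Group G] [TopologicalSpace G] [IsTopologicalGroup G] [T2Space G],
      ((∀ P : (H : Type) → [Group H] → [TopologicalSpace H] → Prop,
          (∀ (H : Type) [Group H] [TopologicalSpace H] [IsTopologicalGroup H] [T2Space H],
              CompactSpace H → TopologicalSpace.SeparableSpace H → P H) →
          (∀ (H : Type) [Group H] [TopologicalSpace H] [IsTopologicalGroup H] [T2Space H],
              Countable H → P H) →
          (∀ (H₁ : Type) [Group H₁] [TopologicalSpace H₁] [IsTopologicalGroup H₁] [T2Space H₁]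
              (H₂ : Type) [Group H₂] [TopologicalSpace H₂] [IsTopologicalGroup H₂] [T2Space H₂],
              P H₁ → P H₂ → P (H₁ × H₂)) →
          (∀ (H : Type) [Group H] [TopologicalSpace H] [IsTopologicalGroup H] [T2Space H]
              (L : Subgroup H), IsClosed (L : Set H) → P H → P L) →
          (∀ (H₁ : Type) [Group H₁] [TopologicalSpace H₁] [IsTopologicalGroup H₁] [T2Space H₁]
              (H₂ : Type) [Group H₂] [TopologicalSpace H₂] [IsTopologicalGroup H₂] [T2Space H₂]
              (f : H₁ →* H₂), Continuous f → Function.Surjective f → P H₁ → P H₂) →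
          P G) ↔
        ∃ K : Subgroup G, CompactSpace K ∧ TopologicalSpace.SeparableSpace K ∧
          Countable (G ⧸ K))) := by
  intro hall
  have h1 := (hall G).mpr ⟨K, K_compact, K_sep, GK_countable⟩ (fun H _ _ => Inv H)
    (fun H _ _ _ _ hc _ => inv_compact H hc) (fun H _ _ _ _ hc => inv_countable H hc)
    (fun H₁ _ _ _ _ H₂ _ _ _ _ a b => inv_prod H₁ H₂ a b)
    (fun H _ _ _ _ L hL h => inv_closed H L hL h)
    (fun H₁ _ _ _ _ H₂ _ _ _ _ f hf hs h => inv_image H₁ H₂ f hf hs h)
  exact G_not_inv h1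

end Pool.Agent.S2992
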