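import Pool.Statements.S3004
import Pool.Agent.Helpers29.Hech1
import Pool.Agent.Helpers29.Hech2

set_option autoImplicit false
open Pool Pool.MP_2e0873_gt

namespace Pool.Agent.S3004

open Set Filter Topology Pool.Agent.Helpers29.Hech

/-- the discrete space on `ω^ω` -/
def Gam : Type := ℕ → ℕ

instance : TopologicalSpace Gam := ⊥
instance : DiscreteTopology Gam := ⟨rfl⟩

/-- the domination relation -/
def Dom (γ : Gam) (x : HX) : Prop := ∀ i, (γ : ℕ → ℕ) i ≤ (x : ℕ → ℕ) i

lemma isOpen_dom (γ : Gam) : IsOpen {x : HX | Dom γ x} := by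
  intro x hx
  exact ⟨0, fun y hy i => (hx i).trans (hy.2 i)⟩

lemma isClosed_dom (γ : Gam) : IsClosed {x : HX | Dom γ x} := by
  rw [← isOpen_compl_iff]
  intro x hx
  have : ¬ ∀ i, (γ : ℕ → ℕ) i ≤ (x : ℕ → ℕ) i := hx
  push Not at this
  obtain ⟨i, hi⟩ := this
  refine ⟨i + 1, fun y hy hy' => ?_⟩
  have h1 := hy.1 i (Nat.lt_succ_self i)
  have h2 := hy' i
  rw [h1] at h2
  exact absurd h2 (not_le.2 hi)

open Classical in
/-- the functions -/
noncomputable def F (a : (ℕ → ℕ) → Bool) : HX × OnePoint Gam → ℝ := fun p =>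
  Option.elim (α := Gam) p.2 0 (fun γ => if a γ = true ∧ Dom γ p.1 then 1 else 0)

lemma F_infty (a : (ℕ → ℕ) → Bool) (x : HX) : F a (x, OnePoint.infty) = 0 := rfl

open Classical in
lemma F_coe (a : (ℕ → ℕ) → Bool) (x : HX) (γ : Gam) :
    F a (x, (γ : OnePoint Gam)) = if a γ = true ∧ Dom γ x then 1 else 0 := rfl

lemma continuous_F {a : (ℕ → ℕ) → Bool} (ha : a ∈ TF) : Continuous (F a) := by
  classical
  rw [continuous_iff_continuousAt]
  rintro ⟨x, z⟩
  induction z using OnePoint.rec with
  | infty =>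
    obtain ⟨n, hn⟩ := TF_inj ha
    have hfin : {γ : Gam | a γ = true ∧ (γ : ℕ → ℕ) n ≤ (x : ℕ → ℕ) n}.Finite := by
      apply Set.Finite.of_finite_image (f := fun γ : Gam => (γ : ℕ → ℕ) n)
      · refine (finite_Iic ((x : ℕ → ℕ) n)).subset ?_
        rintro _ ⟨γ, hγ, rfl⟩
        exact hγ.2
      · intro γ hγ δ hδ h
        exact hn γ δ hγ.1 hδ.1 h
    have hV : IsOpen ((((↑) : Gam → OnePoint Gam) '' {γ : Gam | a γ = true ∧ (γ : ℕ → ℕ) n ≤ (x : ℕ → ℕ) n})ᶜ) :=
      OnePoint.isOpen_compl_image_coe.2 ⟨isClosed_discrete _, hfin.isCompact⟩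
    have hmem : (U (n + 1) x) ×ˢ ((((↑) : Gam → OnePoint Gam) '' {γ : Gam | a γ = true ∧ (γ : ℕ → ℕ) n ≤ (x : ℕ → ℕ) n})ᶜ) ∈
        𝓝 (x, (OnePoint.infty : OnePoint Gam)) := by
      refine prod_mem_nhds ((isOpen_U _ _).mem_nhds (self_mem_U _ _)) (hV.mem_nhds ?_)
      rintro ⟨γ, _, h⟩
      exact OnePoint.coe_ne_infty γ h
    have : F a =ᶠ[𝓝 (x, (OnePoint.infty : OnePoint Gam))] fun _ => 0 := by
      filter_upwards [hmem]
      rintro ⟨y, w⟩ ⟨hy, hw⟩
      induction w using OnePoint.rec with
      | infty => rfl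
      | coe γ =>
        rw [F_coe, if_neg]
        rintro ⟨h1, h2⟩
        apply hw
        refine ⟨γ, ⟨h1, ?_⟩, rfl⟩
        have h3 := h2 n
        have h4 : (y : ℕ → ℕ) n = (x : ℕ → ℕ) n := hy.1 n (Nat.lt_succ_self n)
        rw [h4] at h3
        exact h3
    exact (continuousAt_const).congr this.symm
  | coe γ =>
    have hV : IsOpen ({(γ : OnePoint Gam)} : Set (OnePoint Gam)) := by
      have := OnePoint.isOpen_image_coe (X := Gam) (s := {γ})
      rw [image_singleton] at this
      exact this.2 (isOpen_discrete _)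
    by_cases hx : Dom γ x
    · have hmem : {y : HX | Dom γ y} ×ˢ ({(γ : OnePoint Gam)} : Set (OnePoint Gam)) ∈
          𝓝 (x, (γ : OnePoint Gam)) :=
        prod_mem_nhds ((isOpen_dom γ).mem_nhds hx) (hV.mem_nhds rfl)
      have : F a =ᶠ[𝓝 (x, (γ : OnePoint Gam))] fun _ => F a (x, (γ : OnePoint Gam)) := by
        filter_upwards [hmem]
        rintro ⟨y, w⟩ ⟨hy, hw⟩
        rw [mem_singleton_iff] at hw
        subst hw
        rw [F_coe, F_coe]
        have hy' : Dom γ y := hy
        simp only [hx, hy']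
      exact (continuousAt_const).congr this.symm
    · have hmem : {y : HX | Dom γ y}ᶜ ×ˢ ({(γ : OnePoint Gam)} : Set (OnePoint Gam)) ∈
          𝓝 (x, (γ : OnePoint Gam)) :=
        prod_mem_nhds ((isClosed_dom γ).isOpen_compl.mem_nhds hx) (hV.mem_nhds rfl)
      have : F a =ᶠ[𝓝 (x, (γ : OnePoint Gam))] fun _ => F a (x, (γ : OnePoint Gam)) := by
        filter_upwards [hmem]
        rintro ⟨y, w⟩ ⟨hy, hw⟩
        rw [mem_singleton_iff] at hw
        subst hw
        rw [F_coe, F_coe]
        have hy' : ¬ Dom γ y := hy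
        simp only [hx, hy']
      exact (continuousAt_const).congr this.symm

lemma continuous_eval : Continuous F := by
  classical
  refine continuous_pi ?_
  rintro ⟨x, z⟩
  induction z using OnePoint.rec with
  | infty => exact continuous_const
  | coe γ =>
    have : (fun a => F a (x, (γ : OnePoint Gam))) =
        (fun b : Bool => if b = true ∧ Dom γ x then (1 : ℝ) else 0) ∘ (fun a : (ℕ → ℕ) → Bool => a γ) := rfl
    rw [this]
    exact continuous_of_discreteTopology.comp (continuous_apply _)

lemma F_injective : Function.Injective F := by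
  classical
  intro a b h
  funext γ
  have h1 := congrFun h ((show HX from γ), OnePoint.some (show Gam from γ))
  have hd : Dom (show Gam from γ) (show HX from γ) := fun _ => le_rfl
  rw [F_coe, F_coe] at h1
  simp only [hd, and_true] at h1
  by_cases ha : a γ = true <;> by_cases hb : b γ = true <;> simp_all

/-- The negation of the preceding statement: For a Tychonoff space X: if every pointwise-compact set of continuous real functions on X embeds in a Banach space with its weak topology, then so does every such set on X×K, for every compact Hausdorff K. -/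
theorem result :
    ¬ (∀ (X : Type) [TopologicalSpace X] [T35Space X],
      (∀ A : Set (X → ℝ), (∀ f ∈ A, Continuous f) → IsCompact A →
        ∃ (E : Type) (_ : NormedAddCommGroup E) (_ : NormedSpace ℝ E) (_ : CompleteSpace E)
          (e : A → WeakSpace ℝ E), Topology.IsEmbedding e) →
      ∀ (K : Type) [TopologicalSpace K] [CompactSpace K] [T2Space K],
        ∀ B : Set (X × K → ℝ), (∀ f ∈ B, Continuous f) → IsCompact B →
          ∃ (E : Type) (_ : NormedAddCommGroup E) (_ : NormedSpace ℝ E) (_ : CompleteSpace E)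
            (e : B → WeakSpace ℝ E), Topology.IsEmbedding e) := by
  intro H
  obtain ⟨E, i1, i2, i3, e, he⟩ := H HX (fun A hc hA => eberlein hc hA) (OnePoint Gam) (F '' TF)
    (by
      rintro _ ⟨a, ha, rfl⟩
      exact continuous_F ha)
    (isCompact_TF.image continuous_eval)
  refine not_eberlein (E := E) (fun a : TF => e ⟨F a.1, a.1, a.2, rfl⟩) ?_ ?_
  · exact he.continuous.comp ((continuous_eval.comp continuous_subtype_val).subtype_mk _)
  · intro a b h
    have := he.injective h
    exact Subtype.ext (F_injective (congrArg Subtype.val this))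

end Pool.Agent.S3004
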