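import Pool.Statements.S3070
import Pool.Agent.H5.FanGlob
import Pool.Agent.H5.FanBaire
import Pool.Agent.H5.Absorb

set_option autoImplicit false
open Pool Pool.MP_4d09b6_gt

namespace Pool.Agent.S3070

/-- The negation of the preceding statement: For Tychonoff spaces X, Y: if some homeomorphism of R^X onto R^Y (product topology) maps the continuous functions on X exactly onto those on Y, then C_p(X) and C_p(Y) are uniformly homeomorphic in the pointwise uniformity. -/
theorem result :
    ¬ (∀ (X Y : Type) [TopologicalSpace X] [TopologicalSpace Y] [T35Space X] [T35Space Y],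
      (∃ φ : Homeomorph (X → ℝ) (Y → ℝ),
          φ '' {f : X → ℝ | Continuous f} = {g : Y → ℝ | Continuous g}) →
      Nonempty (UniformEquiv {f : X → ℝ // Continuous f} {g : Y → ℝ // Continuous g})) := by
  intro h
  obtain ⟨Cb, Cf, h1, h2, h3, h4, h5, h6, h7⟩ := Pool.Agent.H5.Absorb.absorb
  let K : Pool.Agent.H5.Fan.Abs := ⟨Cb, Cf, h1, h2, h3, h4, h5, h6, h7⟩
  exact Pool.Agent.H5.Fan.not_unif
    (h Pool.Agent.H5.Fan.FX Pool.Agent.H5.Fan.FY ⟨Pool.Agent.H5.Fan.phi K, Pool.Agent.H5.Fan.phi_image K⟩)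

end Pool.Agent.S3070
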