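import Pool.Statements.S3088
import Pool.Agent.H23.ProjBox

set_option autoImplicit false
open MeasureTheory
open scoped Pointwise
open Pool Pool.MP_598757_gt

namespace Pool.Agent.S3088

/-- The negation of the preceding statement: For every convex body K in 3-space and real c: if every orthogonal plane projection has isoperimetric ratio π·area/V₁² at least c, then 9π·vol(K)²/(2·V₂(K)³) is at least c (V₁, V₂ given via Steiner-formula limits). -/
theorem result :
    ¬ (∀ (K : Set (EuclideanSpace ℝ (Fin 3))) (c : ℝ),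
    IsCompact K → Convex ℝ K → (interior K).Nonempty →
    (∀ u ∈ Metric.sphere (0 : EuclideanSpace ℝ (Fin 3)) 1, ∀ L : ℝ,
      Filter.Tendsto (fun t : ℝ =>
        ((volume ((fun x : EuclideanSpace ℝ (Fin 3) => x - (inner ℝ u x) • u) '' K
              + Metric.closedBall (0 : EuclideanSpace ℝ (Fin 3)) t)).toReal
          - 2 * t * ((volume (K + segment ℝ (0 : EuclideanSpace ℝ (Fin 3)) u)).toReal
              - (volume K).toReal)) / (Real.pi * t ^ 2))
        (nhdsWithin 0 (Set.Ioi 0)) (nhds L) →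
      c ≤ Real.pi * ((volume (K + segment ℝ (0 : EuclideanSpace ℝ (Fin 3)) u)).toReal
              - (volume K).toReal) / L ^ 2) →
    ∀ S : ℝ,
      Filter.Tendsto (fun t : ℝ =>
        ((volume (K + Metric.closedBall (0 : EuclideanSpace ℝ (Fin 3)) t)).toReal
          - (volume K).toReal) / (2 * t))
        (nhdsWithin 0 (Set.Ioi 0)) (nhds S) →
      c ≤ 9 * Real.pi * (volume K).toReal ^ 2 / (2 * S ^ 3)) := by
  intro H
  have hp := H23Proj.hh_pos
  have h1 := H H23Proj.K (H23Proj.hh / 4000) (H23Proj.Bx_compact _ _) (H23Proj.Bx_convex _ _)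
    H23Proj.K_int ?_ (1 + 2 * H23Proj.hh) H23Proj.steiner_limit
  · have h2 : (volume H23Proj.K).toReal = H23Proj.hh := H23Proj.K_vol
    rw [h2, le_div_iff₀ (by positivity)] at h1
    have h3 : (1:ℝ) ≤ (1 + 2 * H23Proj.hh) ^ 3 := one_le_pow₀ (by linarith)
    have h4 := Real.pi_lt_d2
    have h5 : H23Proj.hh / 4000 * (2 * 1) ≤ H23Proj.hh / 4000 * (2 * (1 + 2 * H23Proj.hh) ^ 3) := by
      gcongr
    have h6 : H23Proj.hh / 4000 * (2 * 1) ≤ 9 * Real.pi * H23Proj.hh ^ 2 := h5.trans h1
    have h7 : 9 * Real.pi * H23Proj.hh ^ 2 ≤ 9 * 3.15 * H23Proj.hh ^ 2 := by gcongr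
    have h8 := h6.trans h7
    unfold H23Proj.hh at h8
    norm_num at h8
  · intro u hu L hL
    have hu1 : ‖u‖ = 1 := by simpa using hu
    have hseg : H23Proj.K + segment ℝ (0 : EuclideanSpace ℝ (Fin 3)) u
        = H23Proj.Ext u H23Proj.K 1 := H23Proj.seg_eq u H23Proj.K
    have harea : (volume (H23Proj.Ext u H23Proj.K 1)).toReal - (volume H23Proj.K).toReal
        = volume.real (H23Proj.Cyl u (H23Proj.pr u '' H23Proj.K) (Set.Icc 0 1)) :=
      H23Proj.area_eq hu1 (H23Proj.Bx_convex _ _) (H23Proj.Bx_compact _ _)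
    have hlo : H23Proj.hh / 2 ≤ (volume (H23Proj.Ext u H23Proj.K 1)).toReal
        - (volume H23Proj.K).toReal := H23Proj.area_lower hu1
    have hup : (volume (H23Proj.Ext u H23Proj.K 1)).toReal
        - (volume H23Proj.K).toReal ≤ 4 * (H23Proj.hh + |u 2|) := H23Proj.area_upper hu1
    rw [hseg, harea] at hL
    rw [hseg, harea]
    rw [harea] at hlo hup
    have hr : 0 < (H23Proj.hh + |u 2|) / 4 := by positivity
    have hb := H23Proj.L_bounds hu1 (P := H23Proj.pr u '' H23Proj.K)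
      ((H23Proj.Bx_compact _ _).image (H23Proj.pr_cont u))
      ((H23Proj.Bx_convex _ _).is_linear_image (f := H23Proj.pr u)
        ⟨H23Proj.pr_add u, H23Proj.pr_smul u⟩)
      (by rintro _ ⟨k, _, rfl⟩; exact H23Proj.inner_pr hu1 k)
      (p := H23Proj.pr u H23Proj.cc) ⟨_, H23Proj.cc_mem, rfl⟩
      (r := (H23Proj.hh + |u 2|) / 4) (R := 1) hr (H23Proj.disc hu1) one_pos
      (H23Proj.proj_near hu1) hL
    set a := volume.real (H23Proj.Cyl u (H23Proj.pr u '' H23Proj.K) (Set.Icc 0 1)) with ha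
    have hpi := Real.pi_gt_d2
    have hpi0 := Real.pi_pos
    have ha0 : 0 < a := by linarith
    have hL0 : 0 < L := lt_of_lt_of_le (by positivity) hb.1
    have hL1 : L ≤ 72 := by
      refine hb.2.trans ?_
      rw [div_le_iff₀ (by positivity)]
      have h5 : a ≤ 16 * ((H23Proj.hh + |u 2|) / 4) := by linarith
      have h6 : 72 * (3.14 * ((H23Proj.hh + |u 2|) / 4))
          ≤ 72 * (Real.pi * ((H23Proj.hh + |u 2|) / 4)) := by gcongr
      nlinarith
    rw [le_div_iff₀ (by positivity)]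
    have h7 : L ^ 2 ≤ 72 ^ 2 := pow_le_pow_left₀ hL0.le hL1 2
    have h8 : H23Proj.hh / 4000 * L ^ 2 ≤ H23Proj.hh / 4000 * 72 ^ 2 := by gcongr
    have h9 : 3.14 * a ≤ Real.pi * a := by gcongr
    nlinarith

end Pool.Agent.S3088
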