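import Pool.Statements.S3123

set_option autoImplicit false
open Pool Pool.MP_6c8a84_gt

namespace Pool.Agent.S3123

open Metric Set Filter Topology

def Q : Set ℂ := Set.range (fun p : ℚ × ℚ => (⟨(p.1 : ℝ), (p.2 : ℝ)⟩ : ℂ))

theorem Q_countable : Q.Countable := Set.countable_range _

theorem Q_dense (a : ℂ) (ε : ℝ) (hε : 0 < ε) : ∃ c ∈ Q, dist c a < ε := by
  obtain ⟨p, hp1, hp2⟩ := exists_rat_btwn (show a.re < a.re + ε / 2 by linarith)
  obtain ⟨q, hq1, hq2⟩ := exists_rat_btwn (show a.im < a.im + ε / 2 by linarith)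
  refine ⟨⟨p, q⟩, ⟨(p, q), rfl⟩, ?_⟩
  rw [Complex.dist_eq]
  refine (Complex.norm_le_abs_re_add_abs_im _).trans_lt ?_
  simp only [Complex.sub_re, Complex.sub_im]
  rw [abs_of_pos (by linarith), abs_of_pos (by linarith)]
  linarith

abbrev X := {z : ℂ // z ∉ Q}

theorem no_log (r : ℝ) (hr : 0 < r) (L : Circle → ℂ) (hL : Continuous L)
    (h : ∀ z : Circle, Complex.exp (L z) = r * (z : ℂ)) : False := by
  set g : ℝ → ℝ := fun s => ((L (Circle.exp s)).im - s) / (2 * Real.pi) with hg
  have hgc : Continuous g := by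
    have h1 : Continuous (fun s : ℝ => L (Circle.exp s)) := hL.comp Circle.exp.continuous
    have h2 : Continuous (fun s : ℝ => (L (Circle.exp s)).im) := Complex.continuous_im.comp h1
    exact (h2.sub continuous_id).div_const _
  have hpi : (0 : ℝ) < 2 * Real.pi := by positivity
  have hint : ∀ s, ∃ n : ℤ, g s = n := by
    intro s
    have h1 := h (Circle.exp s)
    have h2 : Complex.exp (L (Circle.exp s)) = Complex.exp ((Real.log r : ℝ) + s * Complex.I) := by
      rw [h1, Complex.exp_add, Circle.coe_exp, ← Complex.ofReal_exp, Real.exp_log hr]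
    rw [Complex.exp_eq_exp_iff_exists_int] at h2
    obtain ⟨n, hn⟩ := h2
    refine ⟨n, ?_⟩
    have h3 := congrArg Complex.im hn
    simp at h3
    rw [hg]
    simp only
    rw [div_eq_iff hpi.ne']
    linarith
  have h0 : g (2 * Real.pi) = g 0 - 1 := by
    simp only [hg]
    rw [Circle.exp_two_pi, Circle.exp_zero, sub_zero]
    field_simp
  obtain ⟨n, hn⟩ := hint 0
  have h1 : (n - 1 / 2 : ℝ) ∈ g '' (Icc 0 (2 * Real.pi)) := by
    apply intermediate_value_Icc' hpi.le hgc.continuousOn
    rw [h0, hn]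
    constructor <;> linarith
  obtain ⟨s, _, hs⟩ := h1
  obtain ⟨k, hk⟩ := hint s
  rw [hk] at hs
  have h2 : (2 * k : ℤ) = 2 * n - 1 := by
    have : (2 * k : ℝ) = 2 * n - 1 := by linarith
    exact_mod_cast this
  omega

theorem log_homotopy (F : Circle × unitInterval → ℂ) (hF : Continuous F) (hne : ∀ p, F p ≠ 0)
    (t : unitInterval) (h1 : ∃ L : Circle → ℂ, Continuous L ∧ ∀ z, Complex.exp (L z) = F (z, t)) :
    ∃ L : Circle → ℂ, Continuous L ∧ ∀ z, Complex.exp (L z) = F (z, 0) := by
  set S : Set unitInterval :=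
    {t | ∃ L : Circle → ℂ, Continuous L ∧ ∀ z, Complex.exp (L z) = F (z, t)} with hS
  have key : ∀ t, ∀ᶠ t' in 𝓝 t, ∀ z ∈ (univ : Set Circle), ‖F (z, t') - F (z, t)‖ < ‖F (z, t)‖ := by
    intro t
    apply isCompact_univ.eventually_forall_of_forall_eventually
    intro z _
    have hc1 : Continuous (fun p : unitInterval × Circle => ‖F (p.2, p.1) - F (p.2, t)‖) := by
      fun_prop
    have hc2 : Continuous (fun p : unitInterval × Circle => ‖F (p.2, t)‖) := by
      fun_prop
    have h3 : ‖F (z, t) - F (z, t)‖ < ‖F (z, t)‖ := by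
      rw [sub_self, norm_zero]
      exact norm_pos_iff.2 (hne _)
    exact hc1.continuousAt.eventually_lt hc2.continuousAt h3
  have hlog : ∀ t t', (∀ z ∈ (univ : Set Circle), ‖F (z, t') - F (z, t)‖ < ‖F (z, t)‖) →
      (t ∈ S ↔ t' ∈ S) := by
    intro t t' hz
    have hslit : ∀ z, F (z, t') / F (z, t) ∈ Complex.slitPlane := by
      intro z
      have h2 := hz z (mem_univ _)
      have h3 : ‖F (z, t') / F (z, t) - 1‖ < 1 := by
        have h4 : F (z, t') / F (z, t) - 1 = (F (z, t') - F (z, t)) / F (z, t) := by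
          field_simp [hne (z, t)]
        rw [h4, norm_div, div_lt_one (norm_pos_iff.2 (hne _))]
        exact h2
      have h5 := Complex.mem_slitPlane_of_norm_lt_one h3
      rwa [add_sub_cancel] at h5
    have hcl : Continuous (fun z : Circle => Complex.log (F (z, t') / F (z, t))) := by
      apply Continuous.clog _ hslit
      exact (hF.comp (by fun_prop)).div (hF.comp (by fun_prop)) (fun z => hne _)
    have hexp : ∀ z, Complex.exp (Complex.log (F (z, t') / F (z, t))) = F (z, t') / F (z, t) :=
      fun z => Complex.exp_log (div_ne_zero (hne _) (hne _))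
    constructor
    · rintro ⟨L, hLc, hL⟩
      refine ⟨fun z => L z + Complex.log (F (z, t') / F (z, t)), hLc.add hcl, fun z => ?_⟩
      rw [Complex.exp_add, hL, hexp]
      field_simp [hne (z, t)]
    · rintro ⟨L, hLc, hL⟩
      refine ⟨fun z => L z - Complex.log (F (z, t') / F (z, t)), hLc.sub hcl, fun z => ?_⟩
      rw [Complex.exp_sub, hL, hexp]
      field_simp [hne (z, t), hne (z, t')]
  have hopen : IsOpen S := by
    rw [isOpen_iff_mem_nhds]
    intro t ht
    filter_upwards [key t] with t' ht'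
    exact (hlog t t' ht').1 ht
  have hclosed : IsClosed S := by
    rw [← isOpen_compl_iff, isOpen_iff_mem_nhds]
    intro t ht
    filter_upwards [key t] with t' ht'
    exact fun h => ht ((hlog t t' ht').2 h)
  have huniv : S = univ := IsClopen.eq_univ ⟨hclosed, hopen⟩ ⟨t, h1⟩
  have : (0 : unitInterval) ∈ S := by rw [huniv]; exact mem_univ _
  exact this

theorem stable (h : X × unitInterval → X) (hc : Continuous h)
    (h0 : ∀ x : X, h (x, (0 : unitInterval)) = x) (a : X) (t : unitInterval) : h (a, t) = a := by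
  by_contra hne
  have hd : 0 < dist (h (a, t)) a := dist_pos.2 hne
  set δ := dist (h (a, t)) a / 4 with hδ
  have hδ0 : 0 < δ := by positivity
  have hcont : Continuous (fun x : X => h (x, t)) := hc.comp (by fun_prop)
  obtain ⟨ε, hε, hball⟩ := Metric.continuous_iff.1 hcont a δ hδ0
  set η := min ε δ with hη
  have hη0 : 0 < η := lt_min hε hδ0
  obtain ⟨c, hcQ, hca⟩ := Q_dense (a : ℂ) (η / 2) (by positivity)
  have hbad : ((fun q : ℂ => dist q c) '' Q).Countable := Q_countable.image _
  obtain ⟨r, hrQ, hr0, hr1⟩ := (hbad.dense_compl ℝ).exists_between (half_pos hη0)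
  have hw : ∀ z : Circle, c + r * (z : ℂ) ∉ Q := by
    intro z hz
    apply hrQ
    refine ⟨_, hz, ?_⟩
    simp only [dist_eq_norm, add_sub_cancel_left, norm_mul, Circle.norm_coe, mul_one,
      Complex.norm_real, Real.norm_eq_abs, abs_of_pos hr0]
  set w : Circle → X := fun z => ⟨c + r * (z : ℂ), hw z⟩ with hwdef
  have hwc : Continuous w := by
    apply Continuous.subtype_mk
    fun_prop
  have hwa : ∀ z, dist (w z) a < η := by
    intro z
    have h1 : dist (w z) a = dist (c + r * (z : ℂ)) (a : ℂ) := rfl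
    rw [h1]
    have h2 : dist (c + r * (z : ℂ)) c = r := by
      simp only [dist_eq_norm, add_sub_cancel_left, norm_mul, Circle.norm_coe, mul_one,
        Complex.norm_real, Real.norm_eq_abs, abs_of_pos hr0]
    have h3 := dist_triangle (c + r * (z : ℂ)) c (a : ℂ)
    linarith
  set F : Circle × unitInterval → ℂ := fun p => (h (w p.1, p.2) : ℂ) - c with hF
  have hFc : Continuous F := by
    have h1 : Continuous (fun p : Circle × unitInterval => h (w p.1, p.2)) :=
      hc.comp ((hwc.comp continuous_fst).prodMk continuous_snd)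
    exact (continuous_subtype_val.comp h1).sub continuous_const
  have hFne : ∀ p, F p ≠ 0 := by
    intro p hp
    have h1 : ((h (w p.1, p.2) : X) : ℂ) = c := sub_eq_zero.1 hp
    exact (h (w p.1, p.2)).2 (h1 ▸ hcQ)
  have hqc : δ < ‖((h (a, t) : X) : ℂ) - c‖ := by
    have h1 : dist (h (a, t)) a = dist ((h (a, t) : X) : ℂ) (a : ℂ) := rfl
    have h2 := dist_triangle ((h (a, t) : X) : ℂ) c (a : ℂ)
    rw [← dist_eq_norm]
    have h3 : η ≤ δ := min_le_right _ _
    have h4 : dist ((h (a, t) : X) : ℂ) (a : ℂ) = 4 * δ := by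
      rw [← h1, hδ]; ring
    linarith
  have hqc0 : ((h (a, t) : X) : ℂ) - c ≠ 0 := by
    rw [← norm_pos_iff]; linarith
  obtain ⟨L, hLc, hL⟩ := log_homotopy F hFc hFne t (by
    have hslit : ∀ z, F (z, t) / (((h (a, t) : X) : ℂ) - c) ∈ Complex.slitPlane := by
      intro z
      have h3 : ‖F (z, t) / (((h (a, t) : X) : ℂ) - c) - 1‖ < 1 := by
        have h4 : F (z, t) / (((h (a, t) : X) : ℂ) - c) - 1
            = (F (z, t) - (((h (a, t) : X) : ℂ) - c)) / (((h (a, t) : X) : ℂ) - c) := by
          field_simp [hqc0]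
        rw [h4, norm_div, div_lt_one (norm_pos_iff.2 hqc0)]
        refine lt_of_lt_of_le ?_ hqc.le
        have h5 := hball (w z) ((hwa z).trans_le (min_le_left _ _))
        have h6 : F (z, t) - (((h (a, t) : X) : ℂ) - c)
            = ((h (w z, t) : X) : ℂ) - ((h (a, t) : X) : ℂ) := by
          simp only [hF]; ring
        rw [h6, ← dist_eq_norm]
        exact h5
      have h5 := Complex.mem_slitPlane_of_norm_lt_one h3
      rwa [add_sub_cancel] at h5
    refine ⟨fun z => Complex.log (F (z, t) / (((h (a, t) : X) : ℂ) - c))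
      + Complex.log (((h (a, t) : X) : ℂ) - c), ?_, ?_⟩
    · apply Continuous.add _ continuous_const
      apply Continuous.clog _ hslit
      exact (hFc.comp (by fun_prop)).div_const _
    · intro z
      rw [Complex.exp_add, Complex.exp_log (div_ne_zero (hFne _) hqc0), Complex.exp_log hqc0]
      field_simp)
  apply no_log r hr0 L hLc
  intro z
  rw [hL]
  simp only [hF]
  rw [h0]
  simp only [hwdef]
  ring

theorem local_path (x0 : X) (ε : ℝ) (hε : 0 < ε) (x : X) (hx : dist x x0 < ε) :
    ∃ p : Path x x0, ∀ s, dist (p s) x0 < ε := by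
  have hj : JoinedIn (ball (x0 : ℂ) ε ∩ Qᶜ) (x : ℂ) (x0 : ℂ) := by
    set Φ := OpenPartialHomeomorph.univBall (x0 : ℂ) ε with hΦ
    have hsrc : Φ.source = univ := OpenPartialHomeomorph.univBall_source _ _
    have htgt : Φ.target = ball (x0 : ℂ) ε := OpenPartialHomeomorph.univBall_target _ hε
    have hinj : Set.InjOn Φ (Φ ⁻¹' Q) := by
      apply Φ.injOn.mono
      rw [hsrc]; exact subset_univ _
    have hcount : (Φ ⁻¹' Q).Countable := Q_countable.preimage_of_injOn hinj
    have hpc := hcount.isPathConnected_compl_of_one_lt_rank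
      (by rw [Complex.rank_real_complex]; exact Nat.one_lt_ofNat)
    have hxt : (x : ℂ) ∈ Φ.target := by rw [htgt]; exact hx
    have hx0t : (x0 : ℂ) ∈ Φ.target := by rw [htgt]; exact mem_ball_self hε
    have h1 : Φ.symm (x : ℂ) ∈ (Φ ⁻¹' Q)ᶜ := by
      simp only [mem_compl_iff, mem_preimage, Φ.right_inv hxt]
      exact x.2
    have h2 : Φ.symm (x0 : ℂ) ∈ (Φ ⁻¹' Q)ᶜ := by
      simp only [mem_compl_iff, mem_preimage, Φ.right_inv hx0t]
      exact x0.2
    have h3 := hpc.joinedIn _ h1 _ h2
    have hΦc : Continuous Φ := OpenPartialHomeomorph.continuous_univBall _ _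
    have h4 := h3.map hΦc
    rw [Φ.right_inv hxt, Φ.right_inv hx0t] at h4
    apply h4.mono
    rintro _ ⟨w, hw, rfl⟩
    refine ⟨?_, hw⟩
    rw [← htgt]
    exact Φ.map_source (by rw [hsrc]; exact mem_univ _)
  refine ⟨⟨⟨fun s => ⟨hj.somePath s, (hj.somePath_mem s).2⟩, ?_⟩, ?_, ?_⟩, ?_⟩
  · exact Continuous.subtype_mk hj.somePath.continuous _
  · apply Subtype.ext
    exact hj.somePath.source
  · apply Subtype.ext
    exact hj.somePath.target
  · intro s
    exact (hj.somePath_mem s).1

theorem ev_open : IsOpenMap (fun γ : C(unitInterval, X) => γ 0) := by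
  rw [isOpenMap_iff_nhds_le]
  intro γ U hU
  obtain ⟨ε, hε, hball⟩ := Metric.mem_nhds_iff.1 (mem_map.1 hU)
  obtain ⟨τ0, hτ0, huc⟩ := Metric.uniformContinuous_iff.1
    (CompactSpace.uniformContinuous_of_continuous γ.continuous) (ε / 2) (half_pos hε)
  rw [Metric.mem_nhds_iff]
  refine ⟨ε / 2, half_pos hε, ?_⟩
  intro x hx
  obtain ⟨p, hp⟩ := local_path (γ 0) (ε / 2) (half_pos hε) x hx
  set τ : ℝ := min (τ0 / 2) (1 / 2) with hτ
  have hτpos : 0 < τ := lt_min (half_pos hτ0) (by norm_num)
  have hτlt : τ < τ0 := (min_le_left _ _).trans_lt (half_lt_self hτ0)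
  set σ : C(unitInterval, X) := ⟨fun t => if (t : ℝ) ≤ τ then p.extend (t / τ)
      else γ (projIcc (0 : ℝ) 1 zero_le_one (t - τ)), by
    apply Continuous.if_le
    · exact p.continuous_extend.comp (continuous_subtype_val.div_const _)
    · exact γ.continuous.comp (continuous_projIcc.comp (continuous_subtype_val.sub continuous_const))
    · exact continuous_subtype_val
    · exact continuous_const
    · intro t ht
      rw [ht, div_self hτpos.ne', sub_self, p.extend_one, projIcc_left]
      rfl⟩ with hσ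
  have hσ0 : σ 0 = x := by
    simp only [hσ, ContinuousMap.coe_mk]
    rw [if_pos (by simpa using hτpos.le)]
    simp
  have hmem : σ ∈ ball γ ε := by
    rw [mem_ball, ContinuousMap.dist_lt_iff hε]
    intro t
    simp only [hσ, ContinuousMap.coe_mk]
    split_ifs with ht
    · have h1 : dist (p.extend ((t : ℝ) / τ)) (γ 0) < ε / 2 := hp _
      have h2 : dist (γ 0) (γ t) < ε / 2 := by
        apply huc
        rw [Subtype.dist_eq, Real.dist_eq]
        have : |((0 : unitInterval) : ℝ) - (t : ℝ)| = t := by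
          simp [abs_of_nonneg t.2.1]
        rw [this]
        linarith
      have := dist_triangle (p.extend ((t : ℝ) / τ)) (γ 0) (γ t)
      linarith
    · have h2 : dist (γ (projIcc (0 : ℝ) 1 zero_le_one (t - τ))) (γ t) < ε / 2 := by
        apply huc
        have hm : (t : ℝ) - τ ∈ Icc (0 : ℝ) 1 := ⟨by linarith [not_le.1 ht], by linarith [t.2.2]⟩
        rw [projIcc_of_mem _ hm, Subtype.dist_eq, Real.dist_eq]
        simp only [sub_sub_cancel_left, abs_neg]
        rw [abs_of_pos hτpos]
        exact hτlt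
      linarith
  have h3 := hball hmem
  simp only [mem_preimage, hσ0] at h3
  exact h3

/-- There is a metric space X on which every homotopy starting at the identity is stationary, yet some continuous open surjection g from a metric space Z onto X admits a homotopy starting at g that moves some point. -/
theorem result :
    ∃ (X : Type) (_ : MetricSpace X),
      (∀ h : X × unitInterval → X, Continuous h →
          (∀ x : X, h (x, (0 : unitInterval)) = x) →
          ∀ (a : X) (t : unitInterval), h (a, t) = a) ∧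
      ∃ (Z : Type) (_ : MetricSpace Z) (g : Z → X),
        Continuous g ∧ IsOpenMap g ∧ Function.Surjective g ∧
        ∃ (a : Z) (h : Z × unitInterval → X), Continuous h ∧
          (∀ z : Z, h (z, (0 : unitInterval)) = g z) ∧
          ∃ t : unitInterval, h (a, t) ≠ g a := by
  refine ⟨X, inferInstance, stable, C(unitInterval, X), inferInstance, fun γ => γ 0, ?_, ev_open,
    ?_, ?_⟩
  · exact ContinuousEvalConst.continuous_eval_const 0
  · intro x
    exact ⟨ContinuousMap.const _ x, rfl⟩
  · have hirr : ∀ s : ℝ, (⟨s, Real.sqrt 2⟩ : ℂ) ∉ Q := by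
      rintro s ⟨p, hp⟩
      have h1 : ((p.2 : ℝ)) = Real.sqrt 2 := congrArg Complex.im hp
      exact irrational_sqrt_two ⟨p.2, h1⟩
    refine ⟨⟨fun s => ⟨⟨(s : ℝ), Real.sqrt 2⟩, hirr s⟩, ?_⟩, fun p => p.1 p.2, ?_, fun z => rfl,
      1, ?_⟩
    · apply Continuous.subtype_mk
      have : (fun s : unitInterval => (⟨(s : ℝ), Real.sqrt 2⟩ : ℂ))
          = fun s : unitInterval => ((s : ℝ) : ℂ) + ((Real.sqrt 2 : ℝ) : ℂ) * Complex.I := by
        funext s
        apply Complex.ext <;> simp
      rw [this]
      fun_prop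
    · exact continuous_eval
    · intro h
      have h1 := congrArg (fun x : X => (x : ℂ).re) h
      simp at h1

end Pool.Agent.S3123
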