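import Pool.Statements.S3132

set_option autoImplicit false
open Pool Pool.MP_6e1b9b_gt

namespace Pool.Agent.S3132

open unitInterval Set Topology

/-- second coordinate of the map: `max z (4 y (1 - y))`. -/
noncomputable def g (y z : unitInterval) : unitInterval :=
  ⟨max (z : ℝ) (4 * (y : ℝ) * (1 - y)), by
    have hy := y.2; have hz := z.2
    refine ⟨le_max_of_le_left hz.1, max_le hz.2 ?_⟩
    nlinarith [sq_nonneg (2 * (y : ℝ) - 1)]⟩

/-- the map `(x, y, z) ↦ (x, max z (4 y (1 - y)))`. -/
noncomputable def F : C(Fin 3 → unitInterval, Fin 2 → unitInterval) where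
  toFun v := ![v 0, g (v 1) (v 2)]
  continuous_toFun := by
    refine continuous_pi fun i => ?_
    fin_cases i
    · exact continuous_apply 0
    · show Continuous fun v : Fin 3 → unitInterval => g (v 1) (v 2)
      unfold g
      refine Continuous.subtype_mk ?_ _
      fun_prop

theorem F_zero (v : Fin 3 → unitInterval) : F v 0 = v 0 := rfl
theorem F_one (v : Fin 3 → unitInterval) : F v 1 = g (v 1) (v 2) := rfl

theorem g_val (y z : unitInterval) : (g y z : ℝ) = max (z : ℝ) (4 * (y : ℝ) * (1 - y)) := rfl

theorem F_surj : Function.Surjective F := by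
  intro w
  refine ⟨![w 0, 0, w 1], ?_⟩
  ext i
  fin_cases i
  · rfl
  · show (g 0 (w 1) : ℝ) = (w 1 : ℝ)
    rw [g_val]
    simpa using (w 1).2.1

theorem interior_empty (K : Set (Fin 3 → unitInterval)) (hK : IsTotallyDisconnected K)
    (c : unitInterval) : interior {t : unitInterval | (![t, c, 0] : Fin 3 → unitInterval) ∈ K} = ∅ := by
  by_contra hne
  obtain ⟨t, ht⟩ := Set.nonempty_iff_ne_empty.mpr hne
  obtain ⟨ε, hε, hball⟩ := Metric.isOpen_iff.mp isOpen_interior t ht
  have hcont : Continuous fun t : unitInterval => (![t, c, 0] : Fin 3 → unitInterval) := by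
    refine continuous_pi fun i => ?_
    fin_cases i
    · exact continuous_id
    · exact continuous_const
    · exact continuous_const
  obtain ⟨s, hst, hs⟩ : ∃ s : unitInterval, s ≠ t ∧ dist s t < ε := by
    have hne' : (𝓝[≠] t).NeBot := inferInstance
    have hmem : Metric.ball t ε ∈ 𝓝[≠] t := mem_nhdsWithin_of_mem_nhds (Metric.ball_mem_nhds t hε)
    obtain ⟨s, hs1, hs2⟩ := (Filter.inter_mem hmem self_mem_nhdsWithin : _ ∈ 𝓝[≠] t) |>
      Filter.nonempty_of_mem
    exact ⟨s, hs2, hs1⟩
  have hsubV : Set.uIcc s t ⊆ {t : unitInterval | (![t, c, 0] : Fin 3 → unitInterval) ∈ K} := by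
    intro r hr
    refine interior_subset (hball ?_)
    rw [Metric.mem_ball]
    refine lt_of_le_of_lt ?_ hs
    rw [Subtype.dist_eq, Subtype.dist_eq, Real.dist_eq, Real.dist_eq]
    rw [Set.mem_uIcc] at hr
    rcases hr with ⟨h1, h2⟩ | ⟨h1, h2⟩
    · have h1' : (s : ℝ) ≤ r := h1
      have h2' : (r : ℝ) ≤ t := h2
      rw [abs_sub_comm (r : ℝ), abs_sub_comm (s : ℝ), abs_of_nonneg (by linarith),
        abs_of_nonneg (by linarith)]
      linarith
    · have h1' : (t : ℝ) ≤ r := h1
      have h2' : (r : ℝ) ≤ s := h2
      rw [abs_of_nonneg (by linarith), abs_of_nonneg (by linarith)]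
      linarith
  have himg : ((fun t : unitInterval => (![t, c, 0] : Fin 3 → unitInterval)) '' Set.uIcc s t) ⊆ K := by
    rintro _ ⟨r, hr, rfl⟩
    exact hsubV hr
  have hsub := hK _ himg (isPreconnected_uIcc.image _ hcont.continuousOn)
  have := hsub (mem_image_of_mem _ (Set.left_mem_uIcc)) (mem_image_of_mem _ (Set.right_mem_uIcc))
  have h0 := congrFun this 0
  exact hst (by simpa using h0)

/-- The negation of the preceding statement: For every continuous surjection f from the cube onto the square, if the set of points whose fiber is just themselves is totally disconnected, then some closed totally disconnected subset of the cube is mapped by f onto the whole square. -/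
theorem result :
    ¬ (∀ f : C(Fin 3 → unitInterval, Fin 2 → unitInterval),
      Function.Surjective f →
      IsTotallyDisconnected {x : Fin 3 → unitInterval | ∀ y, f y = f x → y = x} →
      ∃ K : Set (Fin 3 → unitInterval),
        IsClosed K ∧ IsTotallyDisconnected K ∧ f '' K = Set.univ) := by
  intro h
  have hU : {x : Fin 3 → unitInterval | ∀ y, F y = F x → y = x} = ∅ := by
    ext x
    simp only [Set.mem_ofPred_eq, mem_empty_iff_false, iff_false]
    intro hx
    by_cases hhalf : (x 1 : ℝ) = 1 / 2
    · have := hx ![x 0, 0, 1] (by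
        ext i
        fin_cases i
        · rfl
        · show (g 0 1 : ℝ) = g (x 1) (x 2)
          rw [g_val, g_val, hhalf]
          have := (x 2).2.2
          norm_num
          exact this)
      have h1 := congrFun this 1
      have h2 : (x 1 : ℝ) = 0 := by rw [← h1]; simp
      rw [hhalf] at h2; norm_num at h2
    · have := hx ![x 0, unitInterval.symm (x 1), x 2] (by
        ext i
        fin_cases i
        · rfl
        · show (g (unitInterval.symm (x 1)) (x 2) : ℝ) = g (x 1) (x 2)
          rw [g_val, g_val, unitInterval.coe_symm_eq]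
          congr 1
          ring)
      have h1 := congrFun this 1
      have h2 : (1 : ℝ) - x 1 = x 1 := by
        have := congrArg (Subtype.val) h1
        simpa using this
      apply hhalf
      linarith
  obtain ⟨K, hKc, hKd, hKs⟩ := h F F_surj (by rw [hU]; exact isTotallyDisconnected_empty)
  have hcover : ∀ t : unitInterval, (![t, 0, 0] : Fin 3 → unitInterval) ∈ K ∨
      (![t, 1, 0] : Fin 3 → unitInterval) ∈ K := by
    intro t
    have : (![t, 0] : Fin 2 → unitInterval) ∈ F '' K := by rw [hKs]; trivial
    obtain ⟨k, hk, hFk⟩ := this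
    have h0 : k 0 = t := by rw [← F_zero k, hFk]; rfl
    have h1 : (g (k 1) (k 2) : ℝ) = 0 := by
      rw [← F_one k, hFk]; simp
    rw [g_val] at h1
    have hz : (k 2 : ℝ) = 0 := le_antisymm (by rw [← h1]; exact le_max_left _ _) (k 2).2.1
    have hy : 4 * (k 1 : ℝ) * (1 - k 1) ≤ 0 := by rw [← h1]; exact le_max_right _ _
    have hy0 := (k 1).2.1
    have hy1 := (k 1).2.2
    have hk2 : k 2 = 0 := Subtype.ext hz
    have : (k 1 : ℝ) = 0 ∨ (k 1 : ℝ) = 1 := by
      by_contra hcon
      push Not at hcon
      have h01 : 0 < (k 1 : ℝ) := lt_of_le_of_ne hy0 (Ne.symm hcon.1)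
      have h11 : (k 1 : ℝ) < 1 := lt_of_le_of_ne hy1 hcon.2
      have : 0 < 4 * (k 1 : ℝ) * (1 - k 1) := by
        have : 0 < 1 - (k 1 : ℝ) := by linarith
        positivity
      linarith
    rcases this with h | h
    · left
      have hk1 : k 1 = 0 := Subtype.ext h
      have : k = ![t, 0, 0] := by
        ext i
        fin_cases i
        · simp [h0]
        · simp [hk1]
        · simp [hk2]
      rwa [← this]
    · right
      have hk1 : k 1 = 1 := Subtype.ext h
      have : k = ![t, 1, 0] := by
        ext i
        fin_cases i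
        · simp [h0]
        · simp [hk1]
        · simp [hk2]
      rwa [← this]
  have hA := interior_empty K hKd 0
  have hB := interior_empty K hKd 1
  have hcont : Continuous fun t : unitInterval => (![t, 1, 0] : Fin 3 → unitInterval) := by
    refine continuous_pi fun i => ?_
    fin_cases i
    · exact continuous_id
    · exact continuous_const
    · exact continuous_const
  have hBc : IsClosed {t : unitInterval | (![t, 1, 0] : Fin 3 → unitInterval) ∈ K} :=
    hKc.preimage hcont
  have hd : closure ({t : unitInterval | (![t, 0, 0] : Fin 3 → unitInterval) ∈ K}ᶜ) = univ := by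
    rw [closure_compl, hA, compl_empty]
  have hsub : ({t : unitInterval | (![t, 0, 0] : Fin 3 → unitInterval) ∈ K}ᶜ) ⊆
      {t : unitInterval | (![t, 1, 0] : Fin 3 → unitInterval) ∈ K} := by
    intro t ht
    exact (hcover t).resolve_left ht
  have huniv : {t : unitInterval | (![t, 1, 0] : Fin 3 → unitInterval) ∈ K} = univ := by
    apply Subset.antisymm (subset_univ _)
    rw [← hd]
    exact hBc.closure_subset_iff.mpr hsub
  rw [huniv, interior_univ] at hB
  exact absurd hB (Set.univ_nonempty.ne_empty)

end Pool.Agent.S3132
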