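import Pool.Statements.S3134
-- import your own Pool.Agent.* helpers here

set_option autoImplicit false
open Pool Pool.MP_6f431b_gt

namespace Pool.Agent.S3134

open Set Filter Topology

/-- the space of irrational numbers -/
abbrev Irr : Type := {x : ℝ // Irrational x}

/-- the irrationals as a discrete space -/
@[ext] structure D : Type where
  val : ℝ
  irr : Irrational val

instance : TopologicalSpace D := ⊥
instance : DiscreteTopology D := ⟨rfl⟩

/-- the Michael line: the reals with all irrationals isolated -/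
@[ext] structure ML : Type where
  val : ℝ

instance : TopologicalSpace ML where
  IsOpen s := ∀ x : ℝ, ML.mk x ∈ s → ¬ Irrational x → {t : ℝ | ML.mk t ∈ s} ∈ 𝓝 x
  isOpen_univ := by
    intro x _ _
    exact Filter.univ_mem
  isOpen_inter := by
    intro s t hs ht x hx hq
    exact Filter.inter_mem (hs x hx.1 hq) (ht x hx.2 hq)
  isOpen_sUnion := by
    intro S hS x hx hq
    obtain ⟨s, hsS, hxs⟩ := hx
    exact Filter.mem_of_superset (hS s hsS x hxs hq) (fun t ht => ⟨s, hsS, ht⟩)

theorem ml_open_iff (s : Set ML) :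
    IsOpen s ↔ ∀ x : ℝ, ML.mk x ∈ s → ¬ Irrational x → {t : ℝ | ML.mk t ∈ s} ∈ 𝓝 x := Iff.rfl

theorem ml_isolated (y : ML) (hx : Irrational y.val) : IsOpen ({y} : Set ML) := by
  rw [ml_open_iff]
  intro x hy hq
  have : ML.mk x = y := hy
  subst this
  exact absurd hx hq

theorem ml_compl (z : ML) : IsOpen ({z}ᶜ : Set ML) := by
  rw [ml_open_iff]
  intro y hy _
  have hne : y ≠ z.val := by
    intro h
    exact hy (by rw [mem_singleton_iff]; ext; exact h)
  filter_upwards [isOpen_ne.mem_nhds hne] with t ht h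
  rw [mem_singleton_iff] at h
  apply ht
  rw [← h]

theorem ml_real_open (s : Set ℝ) (hs : IsOpen s) : IsOpen {y : ML | y.val ∈ s} := by
  rw [ml_open_iff]
  intro y hy _
  exact hs.mem_nhds hy

/-- a Michael neighbourhood of a rational is a real neighbourhood -/
theorem ml_nhds (q : ℝ) (hq : ¬ Irrational q) (V : Set ML) (hV : V ∈ 𝓝 (ML.mk q)) :
    {t : ℝ | ML.mk t ∈ V} ∈ 𝓝 q := by
  obtain ⟨s, hsV, hs, hqs⟩ := mem_nhds_iff.1 hV
  exact Filter.mem_of_superset ((ml_open_iff s).1 hs q hqs hq) (fun t ht => hsV ht)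

abbrev XX : Type := Irr × OnePoint D

def A : Set XX := {x | ∀ p : D, x.2 = (p : OnePoint D) → x.1.1 = p.val}

theorem isOpen_coe (p : D) : IsOpen ({(p : OnePoint D)} : Set (OnePoint D)) := by
  have h := (OnePoint.isOpenEmbedding_coe (X := D)).isOpenMap {p} (isOpen_discrete _)
  simpa using h

theorem A_closed : IsClosed A := by
  rw [← isOpen_compl_iff, isOpen_iff_mem_nhds]
  rintro ⟨m, k⟩ hx
  simp only [A, mem_compl_iff, mem_ofPred_eq] at hx
  push Not at hx
  obtain ⟨p, hk, hne⟩ := hx
  have h1 : {z : XX | z.2 ∈ ({(p : OnePoint D)} : Set (OnePoint D))} ∈ 𝓝 ((m, k) : XX) :=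
    ((isOpen_coe p).preimage continuous_snd).mem_nhds (by simpa using hk)
  have h2 : {z : XX | z.1.1 ≠ p.val} ∈ 𝓝 ((m, k) : XX) :=
    (isOpen_ne.preimage (continuous_subtype_val.comp continuous_fst)).mem_nhds hne
  filter_upwards [h1, h2] with z hz1 hz2 hzA
  exact hz2 (hzA p hz1)

/-- the bad function -/
noncomputable def g (z : XX × ML) : ℝ :=
  open Classical in if ∃ p : D, z.1.2 = (p : OnePoint D) ∧ z.2 = ML.mk p.val then 1 else 0

theorem g_cont : ContinuousOn g (A ×ˢ (Set.univ : Set ML)) := by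
  rintro ⟨⟨m, k⟩, y⟩ hz
  have hA : ((m, k) : XX) ∈ A := hz.1
  suffices h : ∀ᶠ w in 𝓝[A ×ˢ (Set.univ : Set ML)] (((m, k), y) : XX × ML),
      g w = g (((m, k), y) : XX × ML) by
    exact (tendsto_const_nhds).congr' (h.mono fun w hw => hw.symm)
  rw [eventually_nhdsWithin_iff]
  induction k using OnePoint.rec with
  | infty =>
    have g0 : g (((m, OnePoint.infty), y) : XX × ML) = 0 := by
      unfold g
      rw [if_neg]
      rintro ⟨p, hp, _⟩
      exact OnePoint.infty_ne_coe p hp
    rw [g0]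
    by_cases hy : Irrational y.val
    · have h1 : {w : XX × ML | w.2 ∈ ({y} : Set ML)} ∈ 𝓝 (((m, OnePoint.infty), y) : XX × ML) :=
        ((ml_isolated y hy).preimage continuous_snd).mem_nhds (by simp)
      have h2 : {w : XX × ML | w.1.2 ∈ ({((D.mk y.val hy : D) : OnePoint D)}ᶜ :
          Set (OnePoint D))} ∈ 𝓝 (((m, OnePoint.infty), y) : XX × ML) := by
        refine ((isClosed_singleton.isOpen_compl).preimage
          (continuous_snd.comp continuous_fst)).mem_nhds ?_
        simp
      filter_upwards [h1, h2] with w hw1 hw2 _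
      unfold g
      rw [if_neg]
      rintro ⟨p, hp, hp2⟩
      apply hw2
      have e1 : w.2 = y := hw1
      have e2 : p = D.mk y.val hy := by
        ext
        show p.val = y.val
        rw [← e1, hp2]
      rw [mem_singleton_iff, hp, e2]
    · have hne : m.1 ≠ y.val := by
        intro h
        exact hy (h ▸ m.2)
      obtain ⟨u, v, hu, hv, hmu, hyv, huv⟩ := t2_separation hne
      have h1 : {w : XX × ML | w.2 ∈ {y : ML | y.val ∈ v}} ∈
          𝓝 (((m, OnePoint.infty), y) : XX × ML) :=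
        ((ml_real_open v hv).preimage continuous_snd).mem_nhds hyv
      have h2 : {w : XX × ML | w.1.1.1 ∈ u} ∈ 𝓝 (((m, OnePoint.infty), y) : XX × ML) :=
        (hu.preimage (continuous_subtype_val.comp
          (continuous_fst.comp continuous_fst))).mem_nhds hmu
      filter_upwards [h1, h2] with w hw1 hw2 hwA
      unfold g
      rw [if_neg]
      rintro ⟨p, hp, hp2⟩
      have e1 : w.1.1.1 = p.val := hwA.1 p hp
      have e2 : w.2 = ML.mk p.val := hp2
      refine Set.disjoint_left.1 huv hw2 ?_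
      rw [e1]
      rw [e2] at hw1
      exact hw1
  | coe p =>
    have h0 : {w : XX × ML | w.1.2 ∈ ({(p : OnePoint D)} : Set (OnePoint D))} ∈
        𝓝 (((m, (p : OnePoint D)), y) : XX × ML) :=
      ((isOpen_coe p).preimage (continuous_snd.comp continuous_fst)).mem_nhds (by simp)
    by_cases hy : y = ML.mk p.val
    · have h1 : {w : XX × ML | w.2 ∈ ({ML.mk p.val} : Set ML)} ∈
          𝓝 (((m, (p : OnePoint D)), y) : XX × ML) :=
        ((ml_isolated (ML.mk p.val) p.irr).preimage continuous_snd).mem_nhds (by simpa using hy)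
      filter_upwards [h0, h1] with w hw0 hw1 _
      unfold g
      rw [if_pos ⟨p, hw0, hw1⟩, if_pos ⟨p, rfl, hy⟩]
    · have h1 : {w : XX × ML | w.2 ∈ ({ML.mk p.val}ᶜ : Set ML)} ∈
          𝓝 (((m, (p : OnePoint D)), y) : XX × ML) :=
        ((ml_compl (ML.mk p.val)).preimage continuous_snd).mem_nhds (by simpa using hy)
      filter_upwards [h0, h1] with w hw0 hw1 _
      unfold g
      rw [if_neg, if_neg]
      · rintro ⟨p', hp', h2⟩
        have e : p = p' := by simpa using hp'
        subst e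
        exact hy h2
      · rintro ⟨p', hp', h2⟩
        have hw0' : w.1.2 = (p : OnePoint D) := hw0
        have e : p = p' := by
          rw [hw0'] at hp'
          simpa using hp'
        subst e
        exact hw1 h2

theorem no_ext (G : XX × ML → ℝ) (hG : Continuous G)
    (hE : Set.EqOn G g (A ×ˢ (Set.univ : Set ML))) : False := by
  -- the radius of control at each irrational
  have hrad : ∀ p : D, ∃ n : ℕ, ∀ m : Irr, |m.1 - p.val| < 1 / ((n : ℝ) + 1) →
      1 / 2 < G ((m, (p : OnePoint D)), ML.mk p.val) := by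
    intro p
    have h1 : G (((⟨p.val, p.irr⟩ : Irr), (p : OnePoint D)), ML.mk p.val) = 1 := by
      rw [hE]
      · unfold g
        rw [if_pos ⟨p, rfl, rfl⟩]
      · refine ⟨?_, mem_univ _⟩
        intro p' hp'
        have e : p = p' := by simpa using hp'
        rw [← e]
    have hc : Continuous fun m : Irr => G ((m, (p : OnePoint D)), ML.mk p.val) := by
      fun_prop
    have h2 : {m : Irr | 1 / 2 < G ((m, (p : OnePoint D)), ML.mk p.val)} ∈
        𝓝 (⟨p.val, p.irr⟩ : Irr) := by
      refine (isOpen_lt continuous_const hc).mem_nhds ?_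
      show 1 / 2 < G (((⟨p.val, p.irr⟩ : Irr), (p : OnePoint D)), ML.mk p.val)
      rw [h1]
      norm_num
    obtain ⟨ε, hε, hball⟩ := Metric.mem_nhds_iff.1 h2
    obtain ⟨n, hn⟩ := exists_nat_one_div_lt hε
    refine ⟨n, fun m hm => ?_⟩
    apply hball
    rw [Metric.mem_ball, Subtype.dist_eq, Real.dist_eq]
    exact hm.trans hn
  -- Baire category
  let P : ℕ → Set ℝ := fun n => {x | ∃ hx : Irrational x, ∀ m : Irr,
    |m.1 - x| < 1 / ((n : ℝ) + 1) → 1 / 2 < G ((m, ((D.mk x hx : D) : OnePoint D)), ML.mk x)}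
  let f : ℕ ⊕ ℚ → Set ℝ := fun i => Sum.elim (fun n => closure (P n)) (fun q => {(q : ℝ)}) i
  have hfc : ∀ i, IsClosed (f i) := by
    rintro (n | q)
    · exact isClosed_closure
    · exact isClosed_singleton
  have hfU : ⋃ i, f i = univ := by
    rw [eq_univ_iff_forall]
    intro x
    rw [mem_iUnion]
    by_cases hx : Irrational x
    · obtain ⟨n, hn⟩ := hrad (D.mk x hx)
      exact ⟨Sum.inl n, subset_closure ⟨hx, hn⟩⟩
    · unfold Irrational at hx
      push Not at hx
      obtain ⟨q, hq⟩ := hx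
      exact ⟨Sum.inr q, hq.symm⟩
  obtain ⟨i, hi⟩ := nonempty_interior_of_iUnion_of_closed hfc hfU
  rcases i with n | q
  swap
  · have : interior ({(q : ℝ)} : Set ℝ) = ∅ := interior_singleton _
    rw [show f (Sum.inr q) = {(q : ℝ)} from rfl, this] at hi
    exact Set.not_nonempty_empty hi
  have hi' : (interior (closure (P n))).Nonempty := hi
  -- a rational point in the interior
  obtain ⟨q, hq⟩ : ∃ q : ℚ, (q : ℝ) ∈ interior (closure (P n)) := by
    obtain ⟨x, hx, q, rfl⟩ := Rat.isDenseEmbedding_coe_real.dense.inter_open_nonempty _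
      isOpen_interior hi'
    exact ⟨q, hx⟩
  have hqir : ¬ Irrational (q : ℝ) := fun h => h ⟨q, rfl⟩
  have hnpos : (0 : ℝ) < 1 / (2 * ((n : ℝ) + 1)) := by positivity
  -- an irrational point near it
  obtain ⟨m0, hm0, hm1, hm2⟩ := exists_irrational_btwn (x := (q : ℝ))
    (y := (q : ℝ) + 1 / (2 * ((n : ℝ) + 1))) (by linarith)
  let mm : Irr := ⟨m0, hm0⟩
  have hz0 : G ((mm, OnePoint.infty), ML.mk (q : ℝ)) = 0 := by
    rw [hE]
    · unfold g
      rw [if_neg]
      rintro ⟨p, hp, _⟩
      exact OnePoint.infty_ne_coe p hp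
    · refine ⟨?_, mem_univ _⟩
      intro p hp
      exact absurd hp (OnePoint.infty_ne_coe p)
  have hc : Continuous fun w : OnePoint D × ML => G ((mm, w.1), w.2) := by
    fun_prop
  have hnb : {w : OnePoint D × ML | G ((mm, w.1), w.2) < 1 / 2} ∈
      𝓝 ((OnePoint.infty, ML.mk (q : ℝ)) : OnePoint D × ML) := by
    refine (isOpen_lt hc continuous_const).mem_nhds ?_
    show G ((mm, OnePoint.infty), ML.mk (q : ℝ)) < 1 / 2
    rw [hz0]
    norm_num
  obtain ⟨U, hU, V, hV, hUV⟩ := mem_nhds_prod_iff.1 hnb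
  have hV' := ml_nhds (q : ℝ) hqir V hV
  have hU' : {p : D | (p : OnePoint D) ∉ U}.Finite := by
    have h := OnePoint.tendsto_coe_infty (X := D) hU
    rw [Filter.coclosedCompact_eq_cocompact, Filter.cocompact_eq_cofinite] at h
    exact h
  let T : Set ℝ := D.val '' {p : D | (p : OnePoint D) ∉ U}
  have hT : T.Finite := hU'.image _
  have hqT : (q : ℝ) ∉ T := by
    rintro ⟨p, _, hp⟩
    exact hqir (hp ▸ p.irr)
  have hW : {t : ℝ | ML.mk t ∈ V} ∩ Tᶜ ∩ Ioo ((q : ℝ) - 1 / (2 * ((n : ℝ) + 1)))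
      ((q : ℝ) + 1 / (2 * ((n : ℝ) + 1))) ∈ 𝓝 (q : ℝ) :=
    Filter.inter_mem (Filter.inter_mem hV' (hT.isClosed.isOpen_compl.mem_nhds hqT))
      (Ioo_mem_nhds (by linarith) (by linarith))
  have hqc : (q : ℝ) ∈ closure (P n) := interior_subset hq
  obtain ⟨x, ⟨⟨hxV, hxT⟩, hx1, hx2⟩, hxir, hxP⟩ := mem_closure_iff_nhds.1 hqc _ hW
  have hxU : ((D.mk x hxir : D) : OnePoint D) ∈ U := by
    by_contra hcon
    exact hxT ⟨D.mk x hxir, hcon, rfl⟩
  have h1 : G ((mm, ((D.mk x hxir : D) : OnePoint D)), ML.mk x) < 1 / 2 :=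
    hUV (show (((D.mk x hxir : D) : OnePoint D), ML.mk x) ∈ U ×ˢ V from ⟨hxU, hxV⟩)
  have h2 : 1 / 2 < G ((mm, ((D.mk x hxir : D) : OnePoint D)), ML.mk x) := by
    apply hxP
    show |m0 - x| < 1 / ((n : ℝ) + 1)
    have e : 1 / ((n : ℝ) + 1) = 1 / (2 * ((n : ℝ) + 1)) + 1 / (2 * ((n : ℝ) + 1)) := by
      field_simp
      norm_num
    rw [abs_lt]
    constructor <;> linarith
  exact lt_irrefl _ (h1.trans h2)

/-- The negation of the preceding statement: For every Hausdorff perfect preimage of a metrizable space X (a paracompact p-space), closed A in X, and space Y, every continuous map from A×Y into a real Banach space extends continuously to X×Y. -/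
theorem result :
    ¬ (∀ (X : Type) [TopologicalSpace X] [T2Space X],
      (∃ (M : Type) (tM : TopologicalSpace M),
          TopologicalSpace.MetrizableSpace M ∧ ∃ f : X → M, IsProperMap f) →
      ∀ A : Set X, IsClosed A →
      ∀ (Y : Type) [TopologicalSpace Y]
        (E : Type) [NormedAddCommGroup E] [NormedSpace ℝ E] [CompleteSpace E]
        (g : X × Y → E),
        ContinuousOn g (A ×ˢ (Set.univ : Set Y)) →
        ∃ G : X × Y → E, Continuous G ∧ Set.EqOn G g (A ×ˢ (Set.univ : Set Y))) := by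
  intro H
  obtain ⟨G, hG, hE⟩ := H XX ⟨Irr, inferInstance, inferInstance, Prod.fst,
    isProperMap_fst_of_compactSpace⟩ A A_closed ML ℝ g g_cont
  exact no_ext G hG hE

end Pool.Agent.S3134
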