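import Pool.Statements.S3141
-- import your own Pool.Agent.* helpers here

set_option autoImplicit false
universe u
open Pool Pool.MP_767487_gt

namespace Pool.Agent.S3141


open Set Function Topology

/-- the well-filteredness condition in the statement, for short. -/
def WF (Y : Type u) [TopologicalSpace Y] : Prop :=
  ∀ 𝒦 : Set (Set Y), 𝒦.Nonempty →
    (∀ K ∈ 𝒦, IsCompact K ∧
      ∀ y : Y, (∀ V : Set Y, IsOpen V → K ⊆ V → y ∈ V) → y ∈ K) →
    (∀ K₁ ∈ 𝒦, ∀ K₂ ∈ 𝒦, ∃ K₃ ∈ 𝒦, K₃ ⊆ K₁ ∩ K₂) →
    ∀ U : Set Y, IsOpen U → ⋂₀ 𝒦 ⊆ U → ∃ K ∈ 𝒦, K ⊆ U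

lemma closure_iUnion_closure' {Y : Type u} [TopologicalSpace Y] {κ : Sort*} (s : κ → Set Y) :
    closure (⋃ i, closure (s i)) = closure (⋃ i, s i) := by
  apply subset_antisymm
  · apply closure_minimal _ isClosed_closure
    apply iUnion_subset
    intro i
    exact closure_mono (subset_iUnion s i)
  · exact closure_mono (iUnion_mono fun i => subset_closure)

/-- In a well-filtered space, the closure of a directed family is a point closure. -/
lemma directed_closure {Y : Type u} [TopologicalSpace Y] (hY : WF Y) {κ : Type u} [Nonempty κ]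
    (d : κ → Y) (hd : ∀ a b, ∃ c, d a ∈ closure {d c} ∧ d b ∈ closure {d c}) :
    ∃ y, closure (range d) = closure {y} := by
  by_contra hcon
  push Not at hcon
  have hcap : ⋂₀ (range fun a => {y : Y | d a ∈ closure {y}}) ⊆ (closure (range d))ᶜ := by
    intro y hy hyC
    apply hcon y
    apply subset_antisymm
    · apply closure_minimal _ isClosed_closure
      rintro _ ⟨a, rfl⟩
      exact hy _ ⟨a, rfl⟩
    · exact closure_minimal (singleton_subset_iff.mpr hyC) isClosed_closure
  obtain ⟨K, ⟨a, rfl⟩, hK⟩ := hY (range fun a => {y : Y | d a ∈ closure {y}}) (range_nonempty _)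
    (by
      rintro _ ⟨a, rfl⟩
      refine ⟨?_, ?_⟩
      · rw [isCompact_iff_finite_subcover]
        intro ι' U hUo hcov
        have ha : d a ∈ {y : Y | d a ∈ closure {y}} := subset_closure rfl
        obtain ⟨i, hi⟩ := mem_iUnion.mp (hcov ha)
        refine ⟨{i}, ?_⟩
        intro y hy
        simp only [Finset.mem_singleton, iUnion_iUnion_eq_left]
        obtain ⟨z, hz, hz2⟩ := mem_closure_iff.mp hy (U i) (hUo i) hi
        rw [mem_singleton_iff] at hz2
        rwa [hz2] at hz
      · intro y hy
        simp only [mem_setOf_eq]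
        by_contra hn
        have := hy (closure {y})ᶜ isClosed_closure.isOpen_compl (by
          intro z hz hz2
          apply hn
          have hzc : closure {z} ⊆ closure {y} :=
            closure_minimal (singleton_subset_iff.mpr hz2) isClosed_closure
          exact hzc hz)
        exact this (subset_closure rfl))
    (by
      rintro _ ⟨a, rfl⟩ _ ⟨b, rfl⟩
      obtain ⟨c, hac, hbc⟩ := hd a b
      refine ⟨_, ⟨c, rfl⟩, ?_⟩
      intro y hy
      have hyc : closure {d c} ⊆ closure {y} :=
        closure_minimal (singleton_subset_iff.mpr hy) isClosed_closure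
      exact ⟨hyc hac, hyc hbc⟩)
    (closure (range d))ᶜ isClosed_closure.isOpen_compl hcap
  exact hK (show d a ∈ closure {d a} from subset_closure rfl) (subset_closure ⟨a, rfl⟩)

section
variable {ι : Type u} {X : ι → Type u} [∀ i, TopologicalSpace (X i)]

/-- points that agree with `x` off `F` and lie in `A i` for `i ∈ F` -/
def Bx (A : ∀ i, Set (X i)) (F : Finset ι) (x : ∀ i, X i) : Set (∀ i, X i) :=
  {z | ∀ i, (i ∈ F → z i ∈ A i) ∧ (i ∉ F → z i = x i)}

lemma exists_fin {Y : Type u} [TopologicalSpace Y]
    (A : ∀ i, Set (X i))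
    (hA : ∀ i, ∀ f : X i → Y, Continuous f → ∃ y, closure (f '' A i) = closure {y})
    (f : (∀ i, X i) → Y) (hf : Continuous f) (F : Finset ι) :
    ∃ g : (∀ i, X i) → Y, Continuous g ∧ ∀ x, closure (f '' Bx A F x) = closure {g x} := by
  classical
  induction F using Finset.induction_on with
  | empty =>
    refine ⟨f, hf, fun x => ?_⟩
    have : Bx A ∅ x = {x} := by
      ext z
      simp [Bx, funext_iff]
    rw [this, image_singleton]
  | insert j F hj ih =>
    obtain ⟨g, hg, hgx⟩ := ih
    have hcont : ∀ x : (∀ i, X i), Continuous (fun t => g (update x j t)) := fun x =>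
      hg.comp (continuous_const.update j continuous_id)
    choose g' hg' using fun x : (∀ i, X i) => hA j (fun t => g (update x j t)) (hcont x)
    refine ⟨g', ?_, ?_⟩
    · rw [continuous_def]
      intro V hV
      have : g' ⁻¹' V = ⋃ t ∈ A j, {x | g (update x j t) ∈ V} := by
        ext x
        simp only [mem_preimage, mem_iUnion, mem_setOf_eq, exists_prop]
        constructor
        · intro hx
          have h1 : g' x ∈ closure ((fun t => g (update x j t)) '' A j) := by
            rw [hg' x]; exact subset_closure rfl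
          obtain ⟨_, hzV, t, ht, rfl⟩ := mem_closure_iff.mp h1 V hV hx
          exact ⟨t, ht, hzV⟩
        · rintro ⟨t, ht, htV⟩
          have h1 : g (update x j t) ∈ closure {g' x} := by
            rw [← hg' x]; exact subset_closure ⟨t, ht, rfl⟩
          obtain ⟨z, hzV, hz⟩ := mem_closure_iff.mp h1 V hV htV
          rw [mem_singleton_iff] at hz
          rwa [hz] at hzV
      rw [this]
      apply isOpen_biUnion
      intro t ht
      exact hV.preimage (hg.comp (continuous_id.update j continuous_const))
    · intro x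
      have hB : Bx A (insert j F) x = ⋃ t : A j, Bx A F (update x j (t : X j)) := by
        ext z
        simp only [mem_iUnion, Bx, mem_setOf_eq, Finset.mem_insert]
        constructor
        · intro h
          refine ⟨⟨z j, (h j).1 (Or.inl rfl)⟩, fun i => ⟨fun hi => (h i).1 (Or.inr hi), fun hi => ?_⟩⟩
          by_cases hij : i = j
          · subst hij; simp
          · rw [update_of_ne hij]
            exact (h i).2 (by tauto)
        · rintro ⟨⟨t, ht⟩, h⟩ i
          refine ⟨?_, ?_⟩
          · rintro (rfl | hi)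
            · have := (h i).2 hj
              rw [this]; simpa using ht
            · exact (h i).1 hi
          · intro hi
            push Not at hi
            rw [(h i).2 hi.2, update_of_ne hi.1]
      rw [hB, image_iUnion, ← closure_iUnion_closure']
      simp only [hgx]
      rw [closure_iUnion_closure', ← hg' x]
      congr 1
      ext y
      simp only [mem_iUnion, mem_singleton_iff, mem_image, Subtype.exists, exists_prop]
      constructor
      · rintro ⟨t, ht, rfl⟩; exact ⟨t, ht, rfl⟩
      · rintro ⟨t, ht, rfl⟩; exact ⟨t, ht, rfl⟩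

lemma main_lemma {Y : Type u} [TopologicalSpace Y] (hY : WF Y)
    (hX : ∀ i, ∀ A : Set (X i), IsIrreducible A → IsClosed A → ∀ f : X i → Y, Continuous f →
      ∃ y, closure (f '' A) = closure {y})
    (A : Set (∀ i, X i)) (hAi : IsIrreducible A) (hAc : IsClosed A)
    (f : (∀ i, X i) → Y) (hf : Continuous f) : ∃ y, closure (f '' A) = closure {y} := by
  classical
  set Ai : ∀ i, Set (X i) := fun i => closure ((fun z : (∀ i, X i) => z i) '' A) with hAidef
  have hAiirr : ∀ i, IsIrreducible (Ai i) := fun i =>
    (hAi.image _ (continuous_apply i).continuousOn).closure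
  have hprod : ∀ z : (∀ i, X i), (∀ i, z i ∈ Ai i) → z ∈ A := by
    intro z hz
    rw [← hAc.closure_eq, mem_closure_iff]
    intro O hO hzO
    rw [isOpen_pi_iff] at hO
    obtain ⟨I, u, hu, hsub⟩ := hO z hzO
    -- finite intersection of open sets each meeting the irreducible set A
    have hfin : ∀ J : Finset ι, J ⊆ I → (A ∩ ⋂ i ∈ J, {w : (∀ i, X i) | w i ∈ u i}).Nonempty := by
      intro J
      induction J using Finset.induction_on with
      | empty => intro _; simpa using hAi.nonempty
      | insert j J hj ih =>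
        intro hJI
        have h1 := ih (fun i hi => hJI (Finset.mem_insert_of_mem hi))
        have hjI := hJI (Finset.mem_insert_self j J)
        have h2 : (A ∩ {w : (∀ i, X i) | w j ∈ u j}).Nonempty := by
          obtain ⟨_, hv, w, hwA, rfl⟩ := mem_closure_iff.mp (hz j) (u j) (hu j hjI).1 (hu j hjI).2
          exact ⟨w, hwA, hv⟩
        have hopen1 : IsOpen (⋂ i ∈ J, {w : (∀ i, X i) | w i ∈ u i}) := by
          apply isOpen_biInter_finset
          intro i hi
          exact (hu i (hJI (Finset.mem_insert_of_mem hi))).1.preimage (continuous_apply i)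
        have hopen2 : IsOpen {w : (∀ i, X i) | w j ∈ u j} :=
          (hu j hjI).1.preimage (continuous_apply j)
        obtain ⟨w, hwA, hw⟩ := hAi.isPreirreducible _ _ hopen2 hopen1 h2 h1
        refine ⟨w, hwA, ?_⟩
        simp only [Finset.mem_insert, iInter_iInter_eq_or_left]
        exact hw
    obtain ⟨w, hwA, hw⟩ := hfin I subset_rfl
    refine ⟨w, hsub ?_, hwA⟩
    simp only [mem_iInter, mem_setOf_eq] at hw
    intro i hi
    exact hw i hi
  obtain ⟨x, hx⟩ := hAi.nonempty
  have hxi : ∀ i, x i ∈ Ai i := fun i => subset_closure ⟨x, hx, rfl⟩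
  choose g hg hgx using fun F : Finset ι => exists_fin Ai
    (fun i f hf => hX i (Ai i) (hAiirr i) isClosed_closure f hf) f hf F
  have hmono : ∀ F G : Finset ι, F ⊆ G → Bx Ai F x ⊆ Bx Ai G x := by
    intro F G hFG z hz i
    refine ⟨fun hi => ?_, fun hi => (hz i).2 (fun h => hi (hFG h))⟩
    by_cases hiF : i ∈ F
    · exact (hz i).1 hiF
    · rw [(hz i).2 hiF]; exact hxi i
  have hBA : ∀ F : Finset ι, Bx Ai F x ⊆ A := by
    intro F z hz
    apply hprod
    intro i
    by_cases hiF : i ∈ F
    · exact (hz i).1 hiF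
    · rw [(hz i).2 hiF]; exact hxi i
  have hdir : ∀ F G : Finset ι, F ⊆ G → g F x ∈ closure {g G x} := by
    intro F G hFG
    rw [← hgx G x]
    have : g F x ∈ closure (f '' Bx Ai F x) := by rw [hgx F x]; exact subset_closure rfl
    exact closure_mono (image_mono (hmono F G hFG)) this
  obtain ⟨y, hy⟩ := directed_closure hY (fun F : Finset ι => g F x)
    (fun F G => ⟨F ∪ G, hdir _ _ Finset.subset_union_left, hdir _ _ Finset.subset_union_right⟩)
  refine ⟨y, ?_⟩
  rw [← hy]
  have hunion : closure (range fun F : Finset ι => g F x) = closure (⋃ F : Finset ι, f '' Bx Ai F x) := by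
    rw [← closure_iUnion_closure' (fun F : Finset ι => f '' Bx Ai F x)]
    simp only [hgx]
    rw [closure_iUnion_closure']
    congr 1
    ext y
    simp [eq_comm]
  rw [hunion]
  apply subset_antisymm
  · apply closure_minimal _ isClosed_closure
    rintro _ ⟨z, hzA, rfl⟩
    rw [mem_closure_iff]
    intro O hO hzO
    have hpre := hO.preimage hf
    rw [isOpen_pi_iff] at hpre
    obtain ⟨I, u, hu, hsub⟩ := hpre z hzO
    let w : ∀ i, X i := fun i => if i ∈ I then z i else x i
    have hw : w ∈ f ⁻¹' O := by
      apply hsub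
      intro i hi
      have hi' : i ∈ I := hi
      simp only [w, if_pos hi']
      exact (hu i hi').2
    refine ⟨f w, hw, ?_⟩
    rw [mem_iUnion]
    refine ⟨I, w, ?_, rfl⟩
    intro i
    refine ⟨fun hi => ?_, fun hi => ?_⟩
    · simp only [w, if_pos hi]
      exact subset_closure ⟨z, hzA, rfl⟩
    · simp only [w, if_neg hi]
  · apply closure_mono
    apply iUnion_subset
    intro F
    exact image_mono (hBA F)

end

/-- For any family of T0 spaces, each well-filtered determined (every irreducible closed set maps into any well-filtered space with closure equal to a unique point closure), the product space is also T0 and well-filtered determined. -/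
theorem result :
    ∀ (ι : Type u) (X : ι → Type u) [∀ i, TopologicalSpace (X i)],
      (∀ i, T0Space (X i) ∧
        ∀ A : Set (X i), IsIrreducible A → IsClosed A →
          ∀ (Y : Type u) [TopologicalSpace Y],
            (T0Space Y ∧
              ∀ 𝒦 : Set (Set Y), 𝒦.Nonempty →
                (∀ K ∈ 𝒦, IsCompact K ∧
                  ∀ y : Y, (∀ V : Set Y, IsOpen V → K ⊆ V → y ∈ V) → y ∈ K) →
                (∀ K₁ ∈ 𝒦, ∀ K₂ ∈ 𝒦, ∃ K₃ ∈ 𝒦, K₃ ⊆ K₁ ∩ K₂) →
                ∀ U : Set Y, IsOpen U → ⋂₀ 𝒦 ⊆ U → ∃ K ∈ 𝒦, K ⊆ U) →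
            ∀ f : X i → Y, Continuous f →
              ∃! y : Y, y ∈ closure (f '' A) ∧ closure (f '' A) = closure {y}) →
      (T0Space ((i : ι) → X i) ∧
        ∀ A : Set ((i : ι) → X i), IsIrreducible A → IsClosed A →
          ∀ (Y : Type u) [TopologicalSpace Y],
            (T0Space Y ∧
              ∀ 𝒦 : Set (Set Y), 𝒦.Nonempty →
                (∀ K ∈ 𝒦, IsCompact K ∧
                  ∀ y : Y, (∀ V : Set Y, IsOpen V → K ⊆ V → y ∈ V) → y ∈ K) →
                (∀ K₁ ∈ 𝒦, ∀ K₂ ∈ 𝒦, ∃ K₃ ∈ 𝒦, K₃ ⊆ K₁ ∩ K₂) →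
                ∀ U : Set Y, IsOpen U → ⋂₀ 𝒦 ⊆ U → ∃ K ∈ 𝒦, K ⊆ U) →
            ∀ f : ((i : ι) → X i) → Y, Continuous f →
              ∃! y : Y, y ∈ closure (f '' A) ∧ closure (f '' A) = closure {y}) := by
  intro ι X _ hX
  refine ⟨?_, ?_⟩
  · haveI : ∀ i, T0Space (X i) := fun i => (hX i).1
    infer_instance
  · intro A hAi hAc Y _ hY f hf
    obtain ⟨y, hy⟩ := main_lemma (Y := Y) hY.2
      (fun i A hA hAc f hf => by
        obtain ⟨y, ⟨_, hy⟩, _⟩ := (hX i).2 A hA hAc Y hY f hf
        exact ⟨y, hy⟩) A hAi hAc f hf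
    haveI := hY.1
    refine ⟨y, ⟨by rw [hy]; exact subset_closure rfl, hy⟩, ?_⟩
    rintro y' ⟨_, hy'⟩
    have : closure {y'} = closure {y} := hy'.symm.trans hy
    exact (inseparable_iff_closure_eq.mpr this).eq

end Pool.Agent.S3141
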