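import Pool.Statements.S3153
import Pool.Agent.Helpers29.Sp5
import Pool.Agent.H23.CorsonImage

set_option autoImplicit false
open Topology
open Pool Pool.MP_7e5847_gt

namespace Pool.Agent.S3153

open Set Pool.Agent.Helpers29.Sp

lemma split_of {X : Type} [TopologicalSpace X]
    (h : ∀ A : Set X, ∃ (Y : Type) (_ : TopologicalSpace Y), CompactSpace Y ∧
        (∃ (κ : Type) (e : Y → (κ → ℝ)), IsEmbedding e ∧
          ∀ y : Y, (Function.support (e y)).Countable) ∧
        ∃ f : X → Y, Continuous f ∧ f ⁻¹' (f '' A) = A) : Split X := by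
  intro A
  obtain ⟨Y, tY, -, ⟨κ, e, he, hs⟩, f, hf, hfA⟩ := h A
  refine ⟨κ, fun x => e (f x), he.continuous.comp hf, fun x => hs (f x), fun x y hxy => ?_⟩
  have hfe : f x = f y := he.injective hxy
  rw [← hfA]
  simp only [mem_preimage, hfe]

/-- If a compact Hausdorff X has, for each subset A, a continuous map f to a Corson compactum with f⁻¹(f(A)) = A, then every Hausdorff continuous image of X has the same property. -/
theorem result :
    ∀ (X : Type) [TopologicalSpace X] [CompactSpace X] [T2Space X],
      (∀ A : Set X, ∃ (Y : Type) (_ : TopologicalSpace Y), CompactSpace Y ∧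
        (∃ (κ : Type) (e : Y → (κ → ℝ)), IsEmbedding e ∧
          ∀ y : Y, (Function.support (e y)).Countable) ∧
        ∃ f : X → Y, Continuous f ∧ f ⁻¹' (f '' A) = A) →
      ∀ (Z : Type) [TopologicalSpace Z] [T2Space Z] (g : X → Z),
        Continuous g → Function.Surjective g →
        ∀ B : Set Z, ∃ (Y : Type) (_ : TopologicalSpace Y), CompactSpace Y ∧
          (∃ (κ : Type) (e : Y → (κ → ℝ)), IsEmbedding e ∧
            ∀ y : Y, (Function.support (e y)).Countable) ∧
          ∃ f : Z → Y, Continuous f ∧ f ⁻¹' (f '' B) = B := by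
  intro X _ _ _ h Z _ _ g hg hs B
  obtain ⟨Γ, φ, hφ, hsup⟩ := corson_of_split (split_of h)
  have hc : CompactSpace Z := ⟨by
    have h := isCompact_univ.image hg
    rwa [image_univ, hs.range_eq] at h⟩
  refine ⟨Z, inferInstance, hc,
    Pool.Agent.H23.corson_image g hg hs ⟨Γ, φ, hφ, hsup⟩, id, continuous_id, by simp⟩

end Pool.Agent.S3153
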