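import Pool.Statements.S3158

set_option autoImplicit false
open Pool Pool.MP_812062_gt

namespace Pool.Agent.S3158

/-- the spiral -/
noncomputable def F (t : ℝ) : ℝ × ℂ := (Real.exp t, Complex.exp (t * Complex.I))

def S : Set (ℝ × ℂ) := Set.range F ∪ {((0 : ℝ), (1 : ℂ))}

lemma F_cont : Continuous F := by
  unfold F; fun_prop

lemma S_conn : IsConnected S := by
  have h1 : IsConnected (Set.range F) := isConnected_range F_cont
  refine h1.subset_closure Set.subset_union_left ?_
  rintro x (hx | hx)
  · exact subset_closure hx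
  · rw [Set.mem_singleton_iff] at hx
    subst hx
    have hlim : Filter.Tendsto (fun n : ℕ => F (-(n * (2 * Real.pi)))) Filter.atTop
        (nhds ((0 : ℝ), (1 : ℂ))) := by
      apply Filter.Tendsto.prodMk_nhds
      · refine Real.tendsto_exp_neg_atTop_nhds_zero.comp ?_
        exact tendsto_natCast_atTop_atTop.atTop_mul_const (by positivity)
      · have : (fun n : ℕ => (F (-(n * (2 * Real.pi)))).2) = fun _ => (1 : ℂ) := by
          funext n
          simp only [F]
          rw [Complex.exp_eq_one_iff]
          refine ⟨-n, ?_⟩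
          push_cast
          ring
        have h2 : Filter.Tendsto (fun n : ℕ => (F (-(n * (2 * Real.pi)))).2) Filter.atTop
          (nhds (1 : ℂ)) := by rw [this]; exact tendsto_const_nhds
        exact h2
    exact mem_closure_of_tendsto hlim (Filter.Eventually.of_forall fun n => ⟨_, rfl⟩)

lemma S_inj (x y : S) (h : x.1.1 = y.1.1) : x = y := by
  obtain ⟨x, hx⟩ := x
  obtain ⟨y, hy⟩ := y
  simp only at h
  apply Subtype.ext
  simp only
  rcases hx with ⟨s, rfl⟩ | hx
  · rcases hy with ⟨t, rfl⟩ | hy
    · simp only [F] at h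
      rw [Real.exp_injective h]
    · rw [Set.mem_singleton_iff] at hy
      subst hy
      simp only [F] at h
      exact absurd h (Real.exp_pos _).ne'
  · rw [Set.mem_singleton_iff] at hx
    subst hx
    rcases hy with ⟨t, rfl⟩ | hy
    · simp only [F] at h
      exact absurd h.symm (Real.exp_pos _).ne'
    · rw [Set.mem_singleton_iff] at hy
      exact hy.symm

lemma S_nonneg (x : S) : 0 ≤ x.1.1 := by
  rcases x.2 with ⟨s, hs⟩ | hx
  · rw [← hs]; exact (Real.exp_pos _).le
  · rw [Set.mem_singleton_iff] at hx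
    rw [hx]

/-- The negation of the preceding statement: For every connected metric space X, the span (sup over connected Z in X×X with equal projections of the min distance between coordinates) is at most twice the surjective span (same, with both projections onto X). -/
theorem result :
    ¬ (∀ (X : Type) [MetricSpace X] [ConnectedSpace X],
      (⨆ (Z : Set (X × X)) (_ : IsConnected Z) (_ : Prod.fst '' Z = Prod.snd '' Z),
          ⨅ p ∈ Z, edist p.1 p.2)
        ≤ 2 * ⨆ (Z : Set (X × X)) (_ : IsConnected Z)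
            (_ : Prod.fst '' Z = Set.univ ∧ Prod.snd '' Z = Set.univ),
            ⨅ p ∈ Z, edist p.1 p.2) := by
  intro H
  haveI : ConnectedSpace S := isConnected_iff_connectedSpace.mp S_conn
  have h := H S
  let G : ℝ → S × S := fun t =>
    (⟨F t, Or.inl ⟨t, rfl⟩⟩, ⟨F (t + Real.pi), Or.inl ⟨_, rfl⟩⟩)
  have hG : Continuous G := by
    apply Continuous.prodMk
    · exact Continuous.subtype_mk F_cont _
    · exact Continuous.subtype_mk (F_cont.comp (continuous_id.add continuous_const)) _
  -- the span is at least 2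
  have h2 : (2 : ENNReal) ≤ ⨆ (Z : Set (S × S)) (_ : IsConnected Z)
      (_ : Prod.fst '' Z = Prod.snd '' Z), ⨅ p ∈ Z, edist p.1 p.2 := by
    refine le_iSup_of_le (Set.range G) ?_
    refine le_iSup_of_le (isConnected_range hG) ?_
    have hproj : Prod.fst '' (Set.range G) = Prod.snd '' (Set.range G) := by
      ext z
      constructor
      · rintro ⟨_, ⟨t, rfl⟩, rfl⟩
        refine ⟨G (t - Real.pi), ⟨_, rfl⟩, ?_⟩
        apply Subtype.ext
        simp only [G]
        rw [sub_add_cancel]
      · rintro ⟨_, ⟨t, rfl⟩, rfl⟩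
        exact ⟨G (t + Real.pi), ⟨_, rfl⟩, rfl⟩
    refine le_iSup_of_le hproj ?_
    refine le_iInf₂ ?_
    rintro _ ⟨t, rfl⟩
    have hd : (2 : ℝ) ≤ dist (G t).1 (G t).2 := by
      have h3 : dist (F t).2 (F (t + Real.pi)).2 ≤ dist (G t).1 (G t).2 := by
        change _ ≤ dist (F t) (F (t + Real.pi))
        rw [Prod.dist_eq]
        exact le_max_right _ _
      refine le_trans ?_ h3
      have h4 : (F (t + Real.pi)).2 = - (F t).2 := by
        simp only [F]
        push_cast
        rw [add_mul, Complex.exp_add, Complex.exp_pi_mul_I]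
        ring
      rw [h4, dist_eq_norm, sub_neg_eq_add, ← two_mul, norm_mul]
      simp [F, Complex.norm_exp]
    rw [edist_dist]
    have : (2 : ENNReal) = ENNReal.ofReal 2 := by simp
    rw [this]
    exact ENNReal.ofReal_le_ofReal hd
  -- the surjective span is 0
  have h0 : (⨆ (Z : Set (S × S)) (_ : IsConnected Z)
      (_ : Prod.fst '' Z = Set.univ ∧ Prod.snd '' Z = Set.univ),
      ⨅ p ∈ Z, edist p.1 p.2) = (0 : ENNReal) := by
    refine le_antisymm ?_ zero_le
    refine iSup_le fun Z => iSup_le fun hZ => iSup_le fun hpr => ?_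
    -- a diagonal point
    obtain ⟨z1, hz1, hz1p⟩ : (⟨((0 : ℝ), (1 : ℂ)), Or.inr rfl⟩ : S) ∈ Prod.fst '' Z := by
      rw [hpr.1]; trivial
    obtain ⟨z2, hz2, hz2p⟩ : (⟨((0 : ℝ), (1 : ℂ)), Or.inr rfl⟩ : S) ∈ Prod.snd '' Z := by
      rw [hpr.2]; trivial
    have hc : ContinuousOn (fun z : S × S => z.1.1.1 - z.2.1.1) Z := by
      apply Continuous.continuousOn
      fun_prop
    have hle : (fun z : S × S => z.1.1.1 - z.2.1.1) z1 ≤ 0 := by
      simp only [hz1p]
      have := S_nonneg z1.2
      linarith
    have hge : 0 ≤ (fun z : S × S => z.1.1.1 - z.2.1.1) z2 := by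
      simp only [hz2p]
      have := S_nonneg z2.1
      linarith
    obtain ⟨z, hz, hz0⟩ := hZ.isPreconnected.intermediate_value hz1 hz2 hc ⟨hle, hge⟩
    have hzz : z.1 = z.2 := S_inj _ _ (by simpa [sub_eq_zero] using hz0)
    refine le_trans (iInf₂_le z hz) ?_
    rw [hzz, edist_self]
  rw [h0, mul_zero] at h
  have := le_trans h2 h
  simp at this

end Pool.Agent.S3158
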