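-- Proof of the frozen statement S3166 (the negation). The spaces are X_k, sets of strictly growing
-- size with a topology in which proper closed sets are small; K consists of the sober spaces and of
-- one non-sober space Y0, the product of the X_k together with generic points for all sets
-- depending on finitely many coordinates.
import Pool.Statements.S3166

set_option autoImplicit false
open Pool Pool.MP_8503ce_gt

namespace Pool.Agent.S3166

open Cardinal Topology Filter

/-- A growing sequence of infinite types. -/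
def T : ℕ → Type
  | 0 => ℕ
  | n + 1 => Set (T n)

theorem T_lt (n : ℕ) : #(T n) < #(T (n + 1)) := by
  change #(T n) < #(Set (T n))
  rw [Cardinal.mk_set]
  exact Cardinal.cantor _

theorem T_mono {n m : ℕ} (h : n ≤ m) : #(T n) ≤ #(T m) := by
  induction h with
  | refl => exact le_rfl
  | step _ ih => exact ih.trans (T_lt _).le

theorem T_inf (n : ℕ) : ℵ₀ ≤ #(T n) := by
  have h : #(T 0) ≤ #(T n) := T_mono (Nat.zero_le n)
  have h0 : #(T 0) = ℵ₀ := Cardinal.mk_nat
  rwa [h0] at h

/-- The underlying set of the `k`-th space. -/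
def X (k : ℕ) : Type := T (k + 1)

/-- The `k`-th space with a generic point added. -/
def XS (k : ℕ) : Type := Option (X k)

/-- The added point. -/
def gen (k : ℕ) : XS k := (none : Option (X k))

/-- The inclusion. -/
def inc (k : ℕ) (x : X k) : XS k := (some x : Option (X k))

theorem inc_inj (k : ℕ) {x y : X k} (h : inc k x = inc k y) : x = y := Option.some.inj h

theorem inc_ne_gen (k : ℕ) (x : X k) : inc k x ≠ gen k := Option.some_ne_none x

theorem cases_XS (k : ℕ) (z : XS k) : z = gen k ∨ ∃ x, z = inc k x := by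
  rcases z with _ | x
  · exact Or.inl rfl
  · exact Or.inr ⟨x, rfl⟩

/-- Small subsets. -/
def Small {k : ℕ} (C : Set (X k)) : Prop := #C ≤ #(T k)

theorem small_mono {k : ℕ} {C D : Set (X k)} (h : C ⊆ D) (hD : Small D) : Small C :=
  (Cardinal.mk_le_mk_of_subset h).trans hD

theorem small_union {k : ℕ} {C D : Set (X k)} (hC : Small C) (hD : Small D) : Small (C ∪ D) :=
  (Cardinal.mk_union_le C D).trans (Cardinal.add_le_of_le (T_inf k) hC hD)

theorem small_empty {k : ℕ} : Small (∅ : Set (X k)) := by
  unfold Small; simp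

theorem small_singleton {k : ℕ} (x : X k) : Small ({x} : Set (X k)) := by
  unfold Small
  rw [Cardinal.mk_singleton]
  exact (Cardinal.one_le_aleph0).trans (T_inf k)

theorem small_iUnion {k : ℕ} (C : ℕ → Set (X k)) (h : ∀ n, Small (C n)) : Small (⋃ n, C n) := by
  unfold Small
  refine (Cardinal.mk_iUnion_le C).trans ?_
  rw [Cardinal.mk_nat]
  refine Cardinal.mul_le_of_le (T_inf k) (T_inf k) ?_
  exact ciSup_le' h

theorem not_small_univ (k : ℕ) : ¬ Small (Set.univ : Set (X k)) := by
  unfold Small
  rw [Cardinal.mk_univ, not_le]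
  exact T_lt k

instance topXS (k : ℕ) : TopologicalSpace (XS k) where
  IsOpen U := U = ∅ ∨ (gen k ∈ U ∧ Small {x | inc k x ∉ U})
  isOpen_univ := Or.inr ⟨trivial, by
    have : {x | inc k x ∉ (Set.univ : Set (XS k))} = ∅ := by ext; simp
    rw [this]; exact small_empty⟩
  isOpen_inter := by
    rintro U V (hU | ⟨hU1, hU2⟩) (hV | ⟨hV1, hV2⟩)
    · exact Or.inl (by rw [hU, Set.empty_inter])
    · exact Or.inl (by rw [hU, Set.empty_inter])
    · exact Or.inl (by rw [hV, Set.inter_empty])
    · refine Or.inr ⟨⟨hU1, hV1⟩, small_mono ?_ (small_union hU2 hV2)⟩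
      intro x hx
      by_cases h : inc k x ∈ U
      · exact Or.inr (fun h' => hx ⟨h, h'⟩)
      · exact Or.inl h
  isOpen_sUnion := by
    intro 𝒰 h
    by_cases hn : ∃ U ∈ 𝒰, U.Nonempty
    · obtain ⟨U, hU, hne⟩ := hn
      rcases h U hU with h1 | ⟨h1, h2⟩
      · rw [h1] at hne; exact absurd hne Set.not_nonempty_empty
      · refine Or.inr ⟨⟨U, hU, h1⟩, small_mono ?_ h2⟩
        intro x hx hxU
        exact hx ⟨U, hU, hxU⟩
    · left
      push Not at hn
      rw [Set.eq_empty_iff_forall_notMem]
      rintro x ⟨U, hU, hx⟩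
      rw [hn U hU] at hx
      exact hx

theorem isOpen_XS {k : ℕ} (U : Set (XS k)) :
    IsOpen U ↔ U = ∅ ∨ (gen k ∈ U ∧ Small {x | inc k x ∉ U}) := Iff.rfl

theorem gen_mem {k : ℕ} {U : Set (XS k)} (hU : IsOpen U) (hne : U.Nonempty) : gen k ∈ U := by
  rcases hU with h | h
  · rw [h] at hne; exact absurd hne Set.not_nonempty_empty
  · exact h.1

theorem isOpen_compl_singleton_inc {k : ℕ} (x : X k) : IsOpen ({inc k x}ᶜ : Set (XS k)) := by
  refine Or.inr ⟨fun h => inc_ne_gen k x h.symm, small_mono ?_ (small_singleton x)⟩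
  intro y hy
  have h2 : inc k y = inc k x := by simpa using hy
  exact inc_inj k h2

instance (k : ℕ) : T0Space (XS k) := by
  rw [t0Space_iff_inseparable]
  intro a b hab
  have key : ∀ a b : XS k, Inseparable a b → ∀ x, a = inc k x → b = inc k x := by
    intro a b hab x hx
    by_contra hb
    have h := (inseparable_iff_forall_isOpen.1 hab) _ (isOpen_compl_singleton_inc x)
    exact (h.2 hb) hx
  rcases cases_XS k a with ha | ⟨x, hx⟩
  · rcases cases_XS k b with hb | ⟨y, hy⟩
    · rw [ha, hb]
    · rw [key b a hab.symm y hy, hy]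
  · rw [key a b hab x hx, hx]

theorem gen_specializes {k : ℕ} (z : XS k) : gen k ⤳ z := by
  rw [specializes_iff_forall_open]
  intro U hU hz
  exact gen_mem hU ⟨z, hz⟩

instance topX (k : ℕ) : TopologicalSpace (X k) := TopologicalSpace.induced (inc k) (topXS k)

theorem continuous_inc (k : ℕ) : Continuous (inc k) := continuous_induced_dom

instance (k : ℕ) : T0Space (X k) := by
  have h : IsEmbedding (inc k) := ⟨⟨rfl⟩, fun _ _ => inc_inj k⟩
  exact h.t0Space

/-- The filter of sets with small complement. -/
def cos (k : ℕ) : Filter (X k) where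
  sets := {S | Small Sᶜ}
  univ_sets := by
    change Small _
    rw [Set.compl_univ]; exact small_empty
  sets_of_superset := by
    intro x y hx hxy
    exact small_mono (Set.compl_subset_compl.2 hxy) hx
  inter_sets := by
    intro x y hx hy
    change Small _
    rw [Set.compl_inter]
    exact small_union hx hy

theorem mem_cos {k : ℕ} {S : Set (X k)} : S ∈ cos k ↔ Small Sᶜ := Iff.rfl

instance (k : ℕ) : (cos k).NeBot := by
  rw [Filter.neBot_iff]
  intro h
  have h1 : (∅ : Set (X k)) ∈ cos k := by rw [h]; trivial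
  rw [mem_cos, Set.compl_empty] at h1
  exact not_small_univ k h1

/-- Nonempty open sets have small complement. -/
theorem open_mem_cos {k : ℕ} {O : Set (X k)} (hO : IsOpen O) (hne : O.Nonempty) : O ∈ cos k := by
  obtain ⟨U, hU, rfl⟩ := isOpen_induced_iff.1 hO
  obtain ⟨x, hx⟩ := hne
  rcases hU with h | h
  · rw [h] at hx; exact absurd hx (Set.notMem_empty _)
  · exact h.2

theorem irr (k : ℕ) : IsIrreducible (Set.univ : Set (X k)) := by
  constructor
  · obtain ⟨x, -⟩ := (cos k).nonempty_of_mem univ_mem
    exact ⟨x, trivial⟩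
  · intro u v hu hv ⟨x, _, hx⟩ ⟨y, _, hy⟩
    have h := Filter.inter_mem (open_mem_cos hu ⟨x, hx⟩) (open_mem_cos hv ⟨y, hy⟩)
    obtain ⟨z, hz⟩ := (cos k).nonempty_of_mem h
    exact ⟨z, trivial, hz⟩

/-- Countable intersections of sets with small complement. -/
theorem inter_cos {k : ℕ} (N : ℕ → Set (X k)) (K : Set ℕ) (h : ∀ n ∈ K, N n ∈ cos k) :
    ∃ x, ∀ n ∈ K, x ∈ N n := by
  classical
  have h1 : Small (⋃ n, (if n ∈ K then (N n)ᶜ else ∅)) := by
    apply small_iUnion
    intro n
    split_ifs with hn
    · exact h n hn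
    · exact small_empty
  by_contra hcon
  push Not at hcon
  apply not_small_univ k
  refine small_mono ?_ h1
  intro x _
  obtain ⟨n, hn, hx⟩ := hcon x
  rw [Set.mem_iUnion]
  exact ⟨n, by rw [if_pos hn]; exact hx⟩

/-- The extra space. -/
abbrev Y0 : Type := {t : ∀ k, XS k // {k | t k = gen k}.Finite}

theorem no_gen (x : ∀ k, X k) : {k | inc k (x k) = gen k}.Finite := by
  have : {k | inc k (x k) = gen k} = ∅ := by
    ext k; simp [inc_ne_gen]
  rw [this]; exact Set.finite_empty

/-- The product of the spaces sits inside the extra space. -/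
def emb (x : ∀ k, X k) : Y0 := ⟨fun k => inc k (x k), no_gen x⟩

theorem continuous_emb : Continuous emb :=
  Continuous.subtype_mk (continuous_pi fun k => (continuous_inc k).comp (continuous_apply k)) no_gen

theorem const_or_dense {i k : ℕ} (h : X i → XS k) (hc : Continuous h) :
    (∃ c, ∀ x, h x = inc k c) ∨ Tendsto h (cos i) (𝓝 (gen k)) := by
  by_cases hd : ∀ U : Set (XS k), IsOpen U → U.Nonempty → (h ⁻¹' U).Nonempty
  · right
    rw [tendsto_nhds]
    intro U hU hg
    exact open_mem_cos (hU.preimage hc) (hd U hU ⟨_, hg⟩)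
  · left
    push Not at hd
    obtain ⟨U, hU, hne, he⟩ := hd
    have hU' : Small {x | inc k x ∉ U} := by
      rcases hU with h1 | h1
      · rw [h1] at hne; exact absurd hne Set.not_nonempty_empty
      · exact h1.2
    have hnot : ∀ x, h x ∉ U := by
      intro x hx
      have : x ∈ h ⁻¹' U := hx
      rw [he] at this
      exact this
    obtain ⟨x0, -⟩ := (irr i).1
    rcases cases_XS k (h x0) with h0 | ⟨c, h0⟩
    · exact absurd (gen_mem hU hne) (h0 ▸ hnot x0)
    refine ⟨c, ?_⟩
    by_contra hcon
    push Not at hcon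
    obtain ⟨x1, hx1⟩ := hcon
    -- the set of all points except the small set minus c
    have hV : IsOpen (U ∪ {inc k c}) := by
      refine Or.inr ⟨Or.inl (gen_mem hU hne), small_mono ?_ hU'⟩
      intro x hx hxU
      exact hx (Or.inl hxU)
    have h1 := open_mem_cos ((isOpen_compl_singleton_inc c).preimage hc) ⟨x1, hx1⟩
    have h2 := open_mem_cos (hV.preimage hc) ⟨x0, Or.inr h0⟩
    obtain ⟨z, hz1, hz2⟩ := (cos i).nonempty_of_mem (Filter.inter_mem h1 h2)
    rcases hz2 with hz2 | hz2
    · exact hnot z hz2
    · exact hz1 hz2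

theorem exists_generic (i : ℕ) (g : X i → Y0) (hg : Continuous g) :
    ∃ y : Y0, closure (g '' Set.univ) = closure {y} := by
  classical
  have hgk : ∀ k, Continuous (fun x => (g x).1 k) := fun k =>
    (continuous_apply k).comp (continuous_subtype_val.comp hg)
  -- coordinates
  have hex : ∀ k, ∃ z : XS k, (∀ x, z ⤳ (g x).1 k) ∧ Tendsto (fun x => (g x).1 k) (cos i) (𝓝 z) ∧
      (z = gen k → Tendsto (fun x => (g x).1 k) (cos i) (𝓝 (gen k))) := by
    intro k
    rcases const_or_dense _ (hgk k) with ⟨c, hc⟩ | hd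
    · refine ⟨inc k c, fun x => by rw [hc x], ?_, fun h => absurd h (inc_ne_gen k c)⟩
      simp only [hc]
      exact tendsto_const_nhds
    · exact ⟨gen k, fun x => gen_specializes _, hd, fun _ => hd⟩
  choose z hz1 hz2 hz3 using hex
  have hfin : {k | z k = gen k}.Finite := by
    by_contra hinf
    have hinf : {k | z k = gen k}.Infinite := hinf
    -- infinitely many k > i
    let K : Set ℕ := {k | z k = gen k} \ {k | k ≤ i}
    have hK : K.Infinite := hinf.sdiff (Set.finite_le_nat i)
    have hN : ∀ k ∈ K, {x : X i | (g x).1 k = gen k} ∈ cos i := by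
      rintro k ⟨hk1, hk2⟩
      have hik : i < k := not_le.1 hk2
      let B : Set (X k) := {c | ∃ x, (g x).1 k = inc k c}
      have hB : Small B := by
        have h1 : B ⊆ Set.range (fun x : X i => if h : ∃ c, (g x).1 k = inc k c then h.choose
            else Classical.choice (α := X k) ⟨(irr k).1.some⟩) := by
          rintro c ⟨x, hx⟩
          refine ⟨x, ?_⟩
          have h : ∃ c, (g x).1 k = inc k c := ⟨c, hx⟩
          simp only [dif_pos h]
          exact inc_inj k (h.choose_spec.symm.trans hx)
        refine (Cardinal.mk_le_mk_of_subset h1).trans (Cardinal.mk_range_le.trans ?_)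
        exact T_mono hik
      have hU : IsOpen ({w : XS k | ∀ c ∈ B, w ≠ inc k c}) := by
        refine Or.inr ⟨fun c _ h => inc_ne_gen k c h.symm, small_mono ?_ hB⟩
        intro c hc
        by_contra hcB
        apply hc
        intro d hd h
        rw [inc_inj k h] at hcB
        exact hcB hd
      have h2 := (tendsto_nhds.1 (hz3 k hk1)) _ hU (fun c _ h => inc_ne_gen k c h.symm)
      refine Filter.mem_of_superset h2 ?_
      intro x hx
      rcases cases_XS k ((g x).1 k) with h3 | ⟨c, h3⟩
      · exact h3
      · exact absurd h3 (hx c ⟨x, h3⟩)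
    obtain ⟨x, hx⟩ := inter_cos (fun k => {x : X i | (g x).1 k = gen k}) K hN
    exact hK ((g x).2.subset fun k hk => hx k hk)
  refine ⟨⟨z, hfin⟩, ?_⟩
  rw [Set.image_univ]
  apply subset_antisymm
  · apply closure_minimal _ isClosed_closure
    rintro _ ⟨x, rfl⟩
    rw [← specializes_iff_mem_closure]
    rw [subtype_specializes_iff, specializes_pi]
    exact fun k => hz1 k x
  · apply closure_minimal _ isClosed_closure
    rw [Set.singleton_subset_iff]
    have ht : Tendsto g (cos i) (𝓝 (⟨z, hfin⟩ : Y0)) := by
      have : Tendsto (fun x => (g x).1) (cos i) (𝓝 z) := tendsto_pi_nhds.2 hz2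
      exact tendsto_subtype_rng.2 this
    exact mem_closure_of_tendsto ht (Filter.Eventually.of_forall fun x => ⟨x, rfl⟩)

/-- The class of spaces: sober spaces and copies of `Y0`. -/
def KK (Y : Type) [TopologicalSpace Y] : Prop :=
  (T0Space Y ∧ QuasiSober Y) ∨ Nonempty (Y ≃ₜ Y0)

theorem KK_t0 (Y : Type) [TopologicalSpace Y] (h : KK Y) : T0Space Y := by
  rcases h with h | ⟨⟨e⟩⟩
  · exact h.1
  · exact e.isEmbedding.t0Space

theorem uniq {Y : Type} [TopologicalSpace Y] [T0Space Y] {C : Set Y}
    (h : ∃ y : Y, C = closure {y}) : ∃! y : Y, C = closure ({y} : Set Y) := by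
  obtain ⟨y, hy⟩ := h
  refine ⟨y, hy, ?_⟩
  intro y' hy'
  have h1 : Inseparable y' y := by
    rw [inseparable_iff_closure_eq]
    rw [← hy, ← hy']
  exact h1.eq

/-- The negation of the preceding statement: For any class K of T0 spaces containing all sober spaces, and any family of T0 spaces with K-determined subsets A_i, the product of the A_i is K-determined in the product space. -/
theorem result :
    ¬ (∀ (K : ∀ (Y : Type) [TopologicalSpace Y], Prop),
    (∀ (Y : Type) [TopologicalSpace Y], K Y → T0Space Y) →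
    (∀ (Y : Type) [TopologicalSpace Y], T0Space Y → QuasiSober Y → K Y) →
    ∀ (I : Type) (X : I → Type) [∀ i, TopologicalSpace (X i)] [∀ i, T0Space (X i)]
      (A : ∀ i, Set (X i)),
      (∀ i, ∀ (Y : Type) [TopologicalSpace Y], K Y →
        ∀ f : X i → Y, Continuous f →
          ∃! y : Y, closure (f '' A i) = closure ({y} : Set Y)) →
      ∀ (Y : Type) [TopologicalSpace Y], K Y →
        ∀ f : (∀ i, X i) → Y, Continuous f →
          ∃! y : Y, closure (f '' Set.pi Set.univ A) = closure ({y} : Set Y)) := by
  intro H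
  have h1 := H (fun Y _ => KK Y) (fun Y _ h => KK_t0 Y h) (fun Y _ h1 h2 => Or.inl ⟨h1, h2⟩)
    ℕ X (fun _ => Set.univ) ?_ Y0 (Or.inr ⟨Homeomorph.refl _⟩)
    emb continuous_emb
  · obtain ⟨y, hy, -⟩ := h1
    have hy : closure _ = closure _ := hy
    -- pick a coordinate which is not generic
    obtain ⟨k, hk⟩ : ∃ k, y.1 k ≠ gen k := by
      by_contra hcon
      push Not at hcon
      have h2 : {k | y.1 k = gen k} = Set.univ := by
        ext k; simp [hcon k]
      exact Set.infinite_univ (h2 ▸ y.2)
    obtain ⟨c, hc⟩ := (cases_XS k (y.1 k)).resolve_left hk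
    -- a point with another coordinate
    obtain ⟨d, hd⟩ : ∃ d : X k, d ≠ c := by
      by_contra hcon
      push Not at hcon
      apply not_small_univ k
      refine small_mono ?_ (small_singleton c)
      intro d _
      exact hcon d
    let x : ∀ j, X j := Function.update (fun j => (irr j).1.some) k d
    have hxk : x k = d := Function.update_self _ _ _
    have hmem : emb x ∈ closure ({y} : Set Y0) := by
      rw [← hy]
      apply subset_closure
      exact ⟨x, by simp, rfl⟩
    rw [← specializes_iff_mem_closure] at hmem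
    have h3 : y.1 ⤳ (fun k => inc k (x k)) := (subtype_specializes_iff _ _).1 hmem
    rw [specializes_pi] at h3
    have h4 := h3 k
    rw [hc, hxk, specializes_iff_forall_open] at h4
    refine h4 _ (isOpen_compl_singleton_inc c) ?_ rfl
    intro h5
    exact hd (inc_inj k h5)
  · intro i Y _ hK f hf
    have := KK_t0 Y hK
    apply uniq
    rcases hK with ⟨_, h2⟩ | ⟨⟨e⟩⟩
    · have h3 : IsIrreducible (closure (f '' Set.univ)) :=
        ((irr i).image f hf.continuousOn).closure
      obtain ⟨y, hy⟩ := QuasiSober.sober h3 isClosed_closure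
      exact ⟨y, hy.symm⟩
    · obtain ⟨y, hy⟩ := exists_generic i (e ∘ f) (e.continuous.comp hf)
      refine ⟨e.symm y, ?_⟩
      have h4 := congrArg (fun S => e.symm '' S) hy
      simp only [e.symm.image_closure] at h4
      rw [Set.image_singleton, ← Set.image_comp] at h4
      have h5 : (e.symm ∘ e ∘ f) = f := by
        ext x; simp
      rw [h5] at h4
      exact h4

end Pool.Agent.S3166
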