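import Pool.Statements.S3207
-- import your own Pool.Agent.* helpers here

set_option autoImplicit false
open Pool Pool.MP_9de622_gt

namespace Pool.Agent.S3207

open Real

/-- the embedding `(x,y) ↦ (x,y,|y|^2)` -/
def f (x : Fin 4 → ℝ) : Fin 5 → ℝ := ![x 0, x 1, x 2, x 3, x 2 ^ 2 + x 3 ^ 2]

lemma f_contDiff : ContDiff ℝ ((⊤ : ℕ∞) : WithTop ℕ∞) f := by
  rw [contDiff_pi]
  intro i
  fin_cases i
  · exact contDiff_apply ℝ ℝ (0 : Fin 4)
  · exact contDiff_apply ℝ ℝ (1 : Fin 4)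
  · exact contDiff_apply ℝ ℝ (2 : Fin 4)
  · exact contDiff_apply ℝ ℝ (3 : Fin 4)
  · exact ((contDiff_apply ℝ ℝ (2 : Fin 4)).pow 2).add ((contDiff_apply ℝ ℝ (3 : Fin 4)).pow 2)

noncomputable def proj4 : (Fin 5 → ℝ) →L[ℝ] (Fin 4 → ℝ) :=
  ContinuousLinearMap.pi (fun i : Fin 4 => ContinuousLinearMap.proj (R := ℝ) (φ := fun _ : Fin 5 => ℝ)
    (Fin.castSucc i))

lemma proj4_f (x : Fin 4 → ℝ) : proj4 (f x) = x := by
  ext i
  fin_cases i <;> rfl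

lemma f_immersion (x w : Fin 4 → ℝ) (h : fderiv ℝ f x w = 0) : w = 0 := by
  have hd : DifferentiableAt ℝ f x := (f_contDiff.differentiable (by simp)) x
  have h1 : HasFDerivAt (fun x => proj4 (f x)) (proj4.comp (fderiv ℝ f x)) x :=
    proj4.hasFDerivAt.comp x hd.hasFDerivAt
  have h2 : HasFDerivAt (fun x => proj4 (f x)) (ContinuousLinearMap.id ℝ (Fin 4 → ℝ)) x := by
    have : (fun x => proj4 (f x)) = fun x => x := funext proj4_f
    rw [this]; exact hasFDerivAt_id x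
  have h3 := h1.unique h2
  have h4 : (proj4.comp (fderiv ℝ f x)) w = w := by rw [h3]; rfl
  rw [ContinuousLinearMap.comp_apply, h, map_zero] at h4
  exact h4.symm

lemma polar (a b : ℝ) : ∃ A α : ℝ, 0 ≤ A ∧ a = A * cos α ∧ b = A * sin α := by
  refine ⟨‖(⟨a, b⟩ : ℂ)‖, Complex.arg ⟨a, b⟩, norm_nonneg _, ?_, ?_⟩
  · exact (Complex.norm_mul_cos_arg ⟨a, b⟩).symm
  · exact (Complex.norm_mul_sin_arg ⟨a, b⟩).symm

/-- polar representation with base angle `α` and angle in `[-π, π]` -/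
lemma polar' (α a b : ℝ) : ∃ θ : ℝ, |θ| ≤ π ∧ a = √(a ^ 2 + b ^ 2) * cos (α + θ) ∧
    b = √(a ^ 2 + b ^ 2) * sin (α + θ) := by
  set u := a * cos α + b * sin α with hu
  set v := b * cos α - a * sin α with hv
  have hcs := cos_sq_add_sin_sq α
  have hn : ‖(⟨u, v⟩ : ℂ)‖ = √(a ^ 2 + b ^ 2) := by
    rw [Complex.norm_def, Complex.normSq_mk]
    congr 1
    rw [hu, hv]
    linear_combination (a ^ 2 + b ^ 2) * hcs
  have h1 := Complex.norm_mul_cos_arg ⟨u, v⟩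
  have h2 := Complex.norm_mul_sin_arg ⟨u, v⟩
  rw [hn] at h1 h2
  simp only at h1 h2
  refine ⟨Complex.arg ⟨u, v⟩, Complex.abs_arg_le_pi _, ?_, ?_⟩
  · rw [cos_add]
    have : √(a ^ 2 + b ^ 2) * (cos α * cos (Complex.arg ⟨u, v⟩) - sin α * sin (Complex.arg ⟨u, v⟩))
      = cos α * (√(a ^ 2 + b ^ 2) * cos (Complex.arg ⟨u, v⟩))
        - sin α * (√(a ^ 2 + b ^ 2) * sin (Complex.arg ⟨u, v⟩)) := by ring
    rw [this, h1, h2, hu, hv]
    linear_combination -a * hcs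
  · rw [sin_add]
    have : √(a ^ 2 + b ^ 2) * (sin α * cos (Complex.arg ⟨u, v⟩) + cos α * sin (Complex.arg ⟨u, v⟩))
      = sin α * (√(a ^ 2 + b ^ 2) * cos (Complex.arg ⟨u, v⟩))
        + cos α * (√(a ^ 2 + b ^ 2) * sin (Complex.arg ⟨u, v⟩)) := by ring
    rw [this, h1, h2, hu, hv]
    linear_combination -b * hcs

noncomputable def Ψ (α β : ℝ) (p : ℝ × ℝ × ℝ) : Fin 4 → ℝ :=
  ![√(1 - p.2.2) * cos (α + p.1), √(1 - p.2.2) * sin (α + p.1),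
    √p.2.2 * cos (β + p.2.1), √p.2.2 * sin (β + p.2.1)]

lemma Ψ_cont (α β : ℝ) : Continuous (Ψ α β) := by
  unfold Ψ
  refine continuous_pi fun i => ?_
  fin_cases i
  · show Continuous fun p : ℝ × ℝ × ℝ => √(1 - p.2.2) * cos (α + p.1)
    fun_prop
  · show Continuous fun p : ℝ × ℝ × ℝ => √(1 - p.2.2) * sin (α + p.1)
    fun_prop
  · show Continuous fun p : ℝ × ℝ × ℝ => √p.2.2 * cos (β + p.2.1)
    fun_prop
  · show Continuous fun p : ℝ × ℝ × ℝ => √p.2.2 * sin (β + p.2.1)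
    fun_prop

lemma concave_sqrt {p q l m : ℝ} (hp : 0 ≤ p) (hq : 0 ≤ q) (hl : 0 ≤ l) (hm : 0 ≤ m)
    (hlm : l + m = 1) : l * √p + m * √q ≤ √(l * p + m * q) := by
  apply Real.le_sqrt_of_sq_le
  have h1 := Real.sq_sqrt hp
  have h2 := Real.sq_sqrt hq
  have h3 : 0 ≤ l * m * (√p - √q) ^ 2 := by positivity
  have hm' : m = 1 - l := by linarith
  subst hm'
  nlinarith

lemma cos_scale {t θ : ℝ} (ht0 : 0 ≤ t) (ht1 : t ≤ 1) (hθ : |θ| ≤ π) :
    cos θ ≤ cos (t * θ) := by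
  rw [← cos_abs θ, ← cos_abs (t * θ), abs_mul, abs_of_nonneg ht0]
  apply cos_le_cos_of_nonneg_of_le_pi (by positivity) hθ
  have := abs_nonneg θ
  nlinarith

lemma connected_super (v : Fin 5 → ℝ) (c : ℝ) :
    IsPreconnected {x : Fin 4 → ℝ | ∑ i, x i ^ 2 = 1 ∧ c ≤ ∑ j, v j * f x j} := by
  obtain ⟨A, α, hA, ha0, ha1⟩ := polar (v 0) (v 1)
  obtain ⟨B, β, hB, hb0, hb1⟩ := polar (v 2) (v 3)
  set K : Set (Fin 4 → ℝ) := {x : Fin 4 → ℝ | ∑ i, x i ^ 2 = 1 ∧ c ≤ ∑ j, v j * f x j} with hK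
  -- value on the parametrised points
  have hsum : ∀ θ φ σ : ℝ, 0 ≤ σ → σ ≤ 1 → ∑ i, (Ψ α β (θ, φ, σ)) i ^ 2 = 1 := by
    intro θ φ σ h0 h1
    rw [Fin.sum_univ_four]
    show (√(1 - σ) * cos (α + θ)) ^ 2 + (√(1 - σ) * sin (α + θ)) ^ 2 +
      (√σ * cos (β + φ)) ^ 2 + (√σ * sin (β + φ)) ^ 2 = 1
    have e1 := Real.sq_sqrt h0
    have e2 := Real.sq_sqrt (show 0 ≤ 1 - σ by linarith)
    have e3 := cos_sq_add_sin_sq (α + θ)
    have e4 := cos_sq_add_sin_sq (β + φ)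
    rw [mul_pow, mul_pow, mul_pow, mul_pow, e1, e2]
    linear_combination (1 - σ) * e3 + σ * e4
  have hval : ∀ θ φ σ : ℝ, 0 ≤ σ → σ ≤ 1 → ∑ j, v j * f (Ψ α β (θ, φ, σ)) j =
      A * √(1 - σ) * cos θ + B * √σ * cos φ + v 4 * σ := by
    intro θ φ σ h0 h1
    rw [Fin.sum_univ_five]
    show v 0 * (√(1 - σ) * cos (α + θ)) + v 1 * (√(1 - σ) * sin (α + θ)) +
      v 2 * (√σ * cos (β + φ)) + v 3 * (√σ * sin (β + φ)) +
      v 4 * ((√σ * cos (β + φ)) ^ 2 + (√σ * sin (β + φ)) ^ 2) = _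
    have e1 := Real.sq_sqrt h0
    have e3 := cos_sq_add_sin_sq (β + φ)
    have e4 : cos α * cos (α + θ) + sin α * sin (α + θ) = cos θ := by
      have := cos_sub (α + θ) α
      rw [add_sub_cancel_left] at this
      linarith
    have e5 : cos β * cos (β + φ) + sin β * sin (β + φ) = cos φ := by
      have := cos_sub (β + φ) β
      rw [add_sub_cancel_left] at this
      linarith
    rw [ha0, ha1, hb0, hb1, mul_pow, mul_pow, e1]
    linear_combination A * √(1 - σ) * e4 + B * √σ * e5 + v 4 * σ * e3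
  -- every point of the sphere is parametrised
  have hpar : ∀ x : Fin 4 → ℝ, ∑ i, x i ^ 2 = 1 → ∃ θ φ σ : ℝ, |θ| ≤ π ∧ |φ| ≤ π ∧ 0 ≤ σ ∧ σ ≤ 1 ∧
      x = Ψ α β (θ, φ, σ) := by
    intro x hx
    rw [Fin.sum_univ_four] at hx
    obtain ⟨θ, hθ, h0, h1⟩ := polar' α (x 0) (x 1)
    obtain ⟨φ, hφ, h2, h3⟩ := polar' β (x 2) (x 3)
    refine ⟨θ, φ, x 2 ^ 2 + x 3 ^ 2, hθ, hφ, by positivity, by nlinarith [sq_nonneg (x 0), sq_nonneg (x 1)], ?_⟩
    have e : 1 - (x 2 ^ 2 + x 3 ^ 2) = x 0 ^ 2 + x 1 ^ 2 := by linarith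
    ext i
    fin_cases i
    · show x 0 = √(1 - (x 2 ^ 2 + x 3 ^ 2)) * cos (α + θ)
      rw [e]; exact h0
    · show x 1 = √(1 - (x 2 ^ 2 + x 3 ^ 2)) * sin (α + θ)
      rw [e]; exact h1
    · exact h2
    · exact h3
  -- the contraction of the angles
  have hleg : ∀ θ φ σ : ℝ, |θ| ≤ π → |φ| ≤ π → 0 ≤ σ → σ ≤ 1 → Ψ α β (θ, φ, σ) ∈ K →
      ∃ s : Set (Fin 4 → ℝ), s ⊆ K ∧ IsPreconnected s ∧ Ψ α β (θ, φ, σ) ∈ s ∧
        Ψ α β (0, 0, σ) ∈ s := by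
    intro θ φ σ hθ hφ h0 h1 hmem
    refine ⟨(fun t : ℝ => Ψ α β (t * θ, t * φ, σ)) '' Set.Icc 0 1, ?_, ?_, ?_, ?_⟩
    · rintro _ ⟨t, ht, rfl⟩
      refine ⟨hsum _ _ _ h0 h1, ?_⟩
      have hm := hmem.2
      rw [hval _ _ _ h0 h1] at hm ⊢
      have c1 := cos_scale ht.1 ht.2 hθ
      have c2 := cos_scale ht.1 ht.2 hφ
      have p1 : 0 ≤ A * √(1 - σ) := by positivity
      have p2 : 0 ≤ B * √σ := by positivity
      have q1 := mul_le_mul_of_nonneg_left c1 p1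
      have q2 := mul_le_mul_of_nonneg_left c2 p2
      linarith
    · apply isPreconnected_Icc.image
      apply Continuous.continuousOn
      exact (Ψ_cont α β).comp (by fun_prop)
    · exact ⟨1, ⟨by norm_num, le_refl _⟩, by simp⟩
    · exact ⟨0, ⟨le_refl _, by norm_num⟩, by simp⟩
  -- the middle arc
  have hmid : ∀ σ1 σ2 : ℝ, 0 ≤ σ1 → σ1 ≤ 1 → 0 ≤ σ2 → σ2 ≤ 1 → Ψ α β (0, 0, σ1) ∈ K →
      Ψ α β (0, 0, σ2) ∈ K → ∃ s : Set (Fin 4 → ℝ), s ⊆ K ∧ IsPreconnected s ∧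
        Ψ α β (0, 0, σ1) ∈ s ∧ Ψ α β (0, 0, σ2) ∈ s := by
    intro σ1 σ2 h10 h11 h20 h21 hm1 hm2
    refine ⟨(fun t : ℝ => Ψ α β (0, 0, (1 - t) * σ1 + t * σ2)) '' Set.Icc 0 1, ?_, ?_, ?_, ?_⟩
    · rintro _ ⟨t, ht, rfl⟩
      have ht0 := ht.1
      have ht1 : 0 ≤ 1 - t := by linarith [ht.2]
      have g0 : 0 ≤ (1 - t) * σ1 + t * σ2 := by positivity
      have g1 : (1 - t) * σ1 + t * σ2 ≤ 1 := by nlinarith
      refine ⟨hsum _ _ _ g0 g1, ?_⟩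
      have m1 := hm1.2
      have m2 := hm2.2
      rw [hval _ _ _ h10 h11] at m1
      rw [hval _ _ _ h20 h21] at m2
      rw [hval _ _ _ g0 g1]
      have k1 := concave_sqrt h10 h20 ht1 ht0 (by ring)
      have k2 := concave_sqrt (show 0 ≤ 1 - σ1 by linarith) (show 0 ≤ 1 - σ2 by linarith)
        ht1 ht0 (by ring)
      have e : (1 - t) * (1 - σ1) + t * (1 - σ2) = 1 - ((1 - t) * σ1 + t * σ2) := by ring
      rw [e] at k2
      have n1 := mul_le_mul_of_nonneg_left m1 ht1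
      have n2 := mul_le_mul_of_nonneg_left m2 ht0
      have n3 := mul_le_mul_of_nonneg_left k1 hB
      have n4 := mul_le_mul_of_nonneg_left k2 hA
      simp only [cos_zero, mul_one] at *
      nlinarith
    · apply isPreconnected_Icc.image
      apply Continuous.continuousOn
      exact (Ψ_cont α β).comp (by fun_prop)
    · exact ⟨0, ⟨le_refl _, by norm_num⟩, by simp⟩
    · exact ⟨1, ⟨by norm_num, le_refl _⟩, by simp⟩
  apply isPreconnected_of_forall_pair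
  intro x hx y hy
  obtain ⟨θ1, φ1, σ1, a1, a2, a3, a4, rfl⟩ := hpar x hx.1
  obtain ⟨θ2, φ2, σ2, b1, b2, b3, b4, rfl⟩ := hpar y hy.1
  obtain ⟨s1, s1K, s1c, s1x, s1y⟩ := hleg θ1 φ1 σ1 a1 a2 a3 a4 hx
  obtain ⟨s2, s2K, s2c, s2x, s2y⟩ := hleg θ2 φ2 σ2 b1 b2 b3 b4 hy
  obtain ⟨s3, s3K, s3c, s3x, s3y⟩ := hmid σ1 σ2 a3 a4 b3 b4 (s1K s1y) (s2K s2y)
  refine ⟨(s1 ∪ s3) ∪ s2, ?_, Or.inl (Or.inl s1x), Or.inr s2x, ?_⟩
  · exact Set.union_subset (Set.union_subset s1K s3K) s2K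
  · exact (s1c.union _ s1y s3x s3c).union _ (Or.inr s3y) s2y s2c

/-- There is a smooth injective immersion of the unit 3-sphere into R^5 such that the preimage of every closed half-space is connected or empty, and whose image lies in no affine hyperplane. -/
theorem result :
    ∃ f : (Fin 4 → ℝ) → (Fin 5 → ℝ),
      ContDiff ℝ ((⊤ : ℕ∞) : WithTop ℕ∞) f ∧
      Set.InjOn f {x : Fin 4 → ℝ | ∑ i, x i ^ 2 = 1} ∧
      (∀ x : Fin 4 → ℝ, ∑ i, x i ^ 2 = 1 →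
        ∀ w : Fin 4 → ℝ, ∑ i, x i * w i = 0 → fderiv ℝ f x w = 0 → w = 0) ∧
      (∀ v : Fin 5 → ℝ, ∀ c : ℝ,
        IsPreconnected {x : Fin 4 → ℝ |
          ∑ i, x i ^ 2 = 1 ∧ c ≤ ∑ j, v j * f x j}) ∧
      ¬ ∃ v : Fin 5 → ℝ, v ≠ 0 ∧ ∃ c : ℝ,
        ∀ x : Fin 4 → ℝ, ∑ i, x i ^ 2 = 1 → ∑ j, v j * f x j = c := by
  refine ⟨f, f_contDiff, ?_, ?_, connected_super, ?_⟩
  · intro x _ y _ hxy
    rw [← proj4_f x, ← proj4_f y, hxy]
  · intro x _ w _ h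
    exact f_immersion x w h
  · rintro ⟨v, hv, c, h⟩
    apply hv
    have t : ∀ a b p q : ℝ, a ^ 2 + b ^ 2 + p ^ 2 + q ^ 2 = 1 →
        v 0 * a + v 1 * b + v 2 * p + v 3 * q + v 4 * (p ^ 2 + q ^ 2) = c := by
      intro a b p q he
      have := h ![a, b, p, q] (by rw [Fin.sum_univ_four]; exact he)
      rw [Fin.sum_univ_five] at this
      exact this
    have t1 := t 1 0 0 0 (by norm_num)
    have t2 := t (-1) 0 0 0 (by norm_num)
    have t3 := t 0 1 0 0 (by norm_num)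
    have t4 := t 0 0 1 0 (by norm_num)
    have t5 := t 0 0 (-1) 0 (by norm_num)
    have t6 := t 0 0 0 1 (by norm_num)
    norm_num at t1 t2 t3 t4 t5 t6
    have v0 : v 0 = 0 := by linarith
    have hc : c = 0 := by linarith
    have v1 : v 1 = 0 := by linarith
    have v4 : v 4 = 0 := by linarith
    have v2 : v 2 = 0 := by linarith
    have v3 : v 3 = 0 := by linarith
    ext i
    fin_cases i
    · exact v0
    · exact v1
    · exact v2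
    · exact v3
    · exact v4

end Pool.Agent.S3207
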