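import Pool.Statements.S3216
import Pool.Agent.H6.NC3

set_option autoImplicit false
open Pool Pool.MP_a310bd_gt

namespace Pool.Agent.S3216

/-- The negation of the preceding statement: There is an absolute c>0 such that for any compact S in R^n of positive volume with centroid 0: if a random pair x,y from S gives nonconvex S∩span(x,y) with probability at most ε, some compact convex C has vol(S Δ C) ≤ c·n·ε·vol(S). -/
theorem result :
    ¬ (∃ c : ℝ, 0 < c ∧
      ∀ (n : ℕ) (S : Set (EuclideanSpace ℝ (Fin n))),
        IsCompact S → 0 < MeasureTheory.volume S →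
        (∫ x in S, x ∂MeasureTheory.volume) = 0 →
        ∀ ε : ℝ, 0 ≤ ε →
          (MeasureTheory.volume.prod MeasureTheory.volume)
              {p : EuclideanSpace ℝ (Fin n) × EuclideanSpace ℝ (Fin n) |
                p.1 ∈ S ∧ p.2 ∈ S ∧
                  ¬ Convex ℝ (S ∩ (Submodule.span ℝ {p.1, p.2} : Set (EuclideanSpace ℝ (Fin n))))}
            ≤ ENNReal.ofReal ε * MeasureTheory.volume S ^ 2 →
          ∃ C : Set (EuclideanSpace ℝ (Fin n)),
            IsCompact C ∧ Convex ℝ C ∧
              MeasureTheory.volume (symmDiff S C)
                ≤ ENNReal.ofReal (c * (n : ℝ) * ε) * MeasureTheory.volume S) := by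
  exact Pool.Agent.H6.NC.main

end Pool.Agent.S3216
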