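import Pool.Statements.S3229
import Pool.Agent.H2.Hedgehog2
-- import your own Pool.Agent.* helpers here

set_option autoImplicit false
open Pool Pool.MP_abe51b_gt

namespace Pool.Agent.S3229


open Pool.Agent.H2.Hedgehog

theorem F_hom (t : ℝ) (ht : 0 < t) (x : Fin 3 → ℝ) : F (t • x) = t * F x := by
  have hQ0 : 0 ≤ Q x := by
    unfold Q
    nlinarith [mul_self_nonneg (x 0), mul_self_nonneg (x 1), mul_self_nonneg (x 2)]
  have e1 : N (t • x) = t ^ 4 * N x := by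
    simp [N]; ring
  have e2 : Q (t • x) = t ^ 2 * Q x := by
    simp [Q]; ring
  unfold F
  rw [e1, e2, Real.mul_rpow (by positivity) hQ0]
  have e3 : (t ^ 2) ^ (-(3/2) : ℝ) = (t ^ 3)⁻¹ := by
    rw [← Real.rpow_natCast t 2, ← Real.rpow_mul ht.le, ← Real.rpow_natCast t 3, ← Real.rpow_neg ht.le]
    norm_num
  rw [e3]
  field_simp

theorem G_hom (t : ℝ) (ht : 0 < t) (x : Fin 3 → ℝ) : G (t • x) = t * G x := by
  have e1 : P (t • x) = t ^ 3 * P x := by
    simp [P]; ring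
  have e2 : W (t • x) = t ^ 2 * W x := by
    simp [W]; ring
  unfold G
  rw [e1, e2, mul_inv]
  field_simp

theorem an_coord (i : Fin 3) (x : Fin 3 → ℝ) : AnalyticAt ℝ (fun y : Fin 3 → ℝ => y i) x :=
  (ContinuousLinearMap.proj (R := ℝ) (φ := fun _ : Fin 3 => ℝ) i).analyticAt x

theorem F_an : AnalyticOnNhd ℝ F {x : Fin 3 → ℝ | x ≠ 0} := by
  intro x hx
  have a0 := an_coord 0 x
  have a1 := an_coord 1 x
  have a2 := an_coord 2 x
  have aS := (a0.mul a0).add (a1.mul a1)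
  have aZ := a2.mul a2
  have aQ : AnalyticAt ℝ Q x := by
    exact (analyticAt_const.mul aS).add (analyticAt_const.mul aZ)
  have aN : AnalyticAt ℝ N x := by
    exact ((analyticAt_const.mul (aS.mul aS)).add (analyticAt_const.mul (aS.mul aZ))).add (aZ.mul aZ)
  have hq : 0 < Q x := Q_pos hx
  have hl : AnalyticAt ℝ (fun y => Real.log (Q y)) x :=
    AnalyticAt.comp (g := Real.log) (f := Q) (analyticAt_log hq) aQ
  have h2 : AnalyticAt ℝ (fun y => Real.log (Q y) * (-(3/2) : ℝ)) x := hl.mul analyticAt_const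
  have h1 : AnalyticAt ℝ (fun y => N y * Real.exp (Real.log (Q y) * (-(3/2) : ℝ))) x :=
    aN.mul h2.rexp'
  refine h1.congr ?_
  filter_upwards [isOpen_U.mem_nhds hx] with y hy
  rw [F, Real.rpow_def_of_pos (Q_pos hy)]

theorem G_cd : ContDiffOn ℝ 2 G {x : Fin 3 → ℝ | x ≠ 0} := by
  have c0 : ContDiff ℝ 2 (fun y : Fin 3 → ℝ => y 0) := contDiff_apply ℝ ℝ 0
  have c1 : ContDiff ℝ 2 (fun y : Fin 3 → ℝ => y 1) := contDiff_apply ℝ ℝ 1
  have c2 : ContDiff ℝ 2 (fun y : Fin 3 → ℝ => y 2) := contDiff_apply ℝ ℝ 2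
  have cW : ContDiff ℝ 2 W := ((c0.mul c0).add (c1.mul c1)).add (c2.mul c2)
  have cP : ContDiff ℝ 2 P := (c0.mul (c0.mul c0)).add (contDiff_const.mul (c0.mul (c1.mul c1)))
  exact cP.contDiffOn.mul (cW.contDiffOn.inv fun x hx => (W_pos hx).ne')

theorem F_not_linear : ¬ ∃ a : Fin 3 → ℝ, ∀ x : Fin 3 → ℝ, F x = ∑ i : Fin 3, a i * x i := by
  rintro ⟨a, ha⟩
  have h1 := ha ![0, 0, 1]
  have h2 := ha ![0, 0, -1]
  have e1 : F ![0, 0, 1] = (3:ℝ) ^ (-(3/2) : ℝ) := by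
    simp [F, N, Q]
  have e2 : F ![0, 0, -1] = (3:ℝ) ^ (-(3/2) : ℝ) := by
    simp [F, N, Q]
  rw [e1] at h1
  rw [e2] at h2
  simp [Fin.sum_univ_three] at h1 h2
  have : 0 < (3:ℝ) ^ (-(3/2) : ℝ) := by positivity
  linarith

/-- There is a 1-homogeneous function F on R^3, analytic off 0 and not linear, and a 1-homogeneous G, C^2 off 0, such that the mixed curvature (sigma_2 of Hessians) of F and G vanishes on the unit sphere while the curvature of G does not vanish identically there. -/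
theorem result :
    ∀ R : ((Fin 3 → ℝ) → ℝ) → (Fin 3 → ℝ) → ℝ,
      (R = fun F x => (1 / 2 : ℝ) * ∑ i : Fin 3, ∑ j : Fin 3,
          (fderiv ℝ (fderiv ℝ F) x (Pi.single i 1) (Pi.single i 1) *
              fderiv ℝ (fderiv ℝ F) x (Pi.single j 1) (Pi.single j 1) -
            fderiv ℝ (fderiv ℝ F) x (Pi.single i 1) (Pi.single j 1) *
              fderiv ℝ (fderiv ℝ F) x (Pi.single j 1) (Pi.single i 1))) →
      ∃ F : (Fin 3 → ℝ) → ℝ,
        (∀ t : ℝ, 0 < t → ∀ x : Fin 3 → ℝ, F (t • x) = t * F x) ∧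
        AnalyticOnNhd ℝ F {x : Fin 3 → ℝ | x ≠ 0} ∧
        (¬ ∃ a : Fin 3 → ℝ, ∀ x : Fin 3 → ℝ, F x = ∑ i : Fin 3, a i * x i) ∧
        ∃ G : (Fin 3 → ℝ) → ℝ,
          (∀ t : ℝ, 0 < t → ∀ x : Fin 3 → ℝ, G (t • x) = t * G x) ∧
          ContDiffOn ℝ 2 G {x : Fin 3 → ℝ | x ≠ 0} ∧
          (∀ x : Fin 3 → ℝ, ∑ i : Fin 3, x i ^ 2 = 1 →
            R (fun y => F y + G y) x - R F x - R G x = 0) ∧
          ∃ x : Fin 3 → ℝ, ∑ i : Fin 3, x i ^ 2 = 1 ∧ R G x ≠ 0 := by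
  intro R hR
  obtain ⟨gF, JF⟩ := jF
  obtain ⟨gG, JG⟩ := jG
  have hx0 : ∀ x : Fin 3 → ℝ, ∑ i : Fin 3, x i ^ 2 = 1 → x ∈ U := by
    intro x hx h0
    have h0' : x = 0 := h0
    rw [h0'] at hx
    simp at hx
  refine ⟨F, F_hom, F_an, F_not_linear, G, G_hom, G_cd, ?_, ?_⟩
  · intro x hx
    have hxU := hx0 x hx
    subst hR
    simp only [(JF.add JG).fderiv2 isOpen_U hxU, JF.fderiv2 isOpen_U hxU, JG.fderiv2 isOpen_U hxU]
    have hm := mixed x
    simp only [Fin.sum_univ_three] at hm ⊢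
    linear_combination (1/2) * hm
  · refine ⟨![1, 0, 0], by simp [Fin.sum_univ_three], ?_⟩
    have hxU := hx0 ![1, 0, 0] (by simp [Fin.sum_univ_three])
    subst hR
    simp only [JG.fderiv2 isOpen_U hxU, hG_eq]
    simp [Fin.sum_univ_three, pB, W]
    norm_num

end Pool.Agent.S3229
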