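import Pool.Statements.S3246
import Pool.Agent.H13.Simon.Space
-- import your own Pool.Agent.* helpers here

set_option autoImplicit false
open Pool Pool.MP_b3099b_gt

namespace Pool.Agent.S3246

/-- The negation of the preceding statement: A T1 space is Fréchet and semistratifiable if and only if it is the image of some semimetrizable space under a continuous closed surjection. -/
theorem result :
    ¬ (∀ (Y : Type) [TopologicalSpace Y], T1Space Y →
      ((FrechetUrysohnSpace Y ∧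
        ∃ G : Set Y → ℕ → Set Y,
          (∀ F : Set Y, IsClosed F → ∀ n, IsOpen (G F n)) ∧
          (∀ F : Set Y, IsClosed F → ⋂ n, G F n = F) ∧
          (∀ F K : Set Y, IsClosed F → IsClosed K → F ⊆ K → ∀ n, G F n ⊆ G K n))
      ↔
      ∃ (X : Type) (_ : TopologicalSpace X) (d : X → X → ℝ),
        (∀ x y, 0 ≤ d x y) ∧ (∀ x y, d x y = 0 ↔ x = y) ∧ (∀ x y, d x y = d y x) ∧
        (∀ x, (nhds x).HasBasis (fun ε : ℝ => 0 < ε) (fun ε => {y | d x y < ε})) ∧
        ∃ f : X → Y, Continuous f ∧ IsClosedMap f ∧ Function.Surjective f)) := by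
  intro H
  obtain ⟨𝓑, h1, h2, h3⟩ := Pool.Agent.H13.Simon.comb
  letI := Pool.Agent.H13.Simon.topX 𝓑
  obtain ⟨Z, tZ, d, _, _, _, hd, f, hf, hfc, hfs⟩ :=
    (H Pool.Agent.H13.Simon.Pt (Pool.Agent.H13.Simon.t1 𝓑)).1
      ⟨Pool.Agent.H13.Simon.frechet 𝓑 h1 h3, Pool.Agent.H13.Simon.semistrat 𝓑⟩
  exact Pool.Agent.H13.Simon.no_image 𝓑 h1 h2 Z d hd f hf hfc hfs

end Pool.Agent.S3246
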