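import Pool.Statements.S3252

set_option autoImplicit false
open Pool Pool.MP_badb58_gt

namespace Pool.Agent.S3252

/-- The points of the space: `a`, `b` and the isolated points `p i j`. -/
inductive Pt : Type
  | a | b | p (i j : ℕ)

open Pt Set TopologicalSpace

/-- Neighbourhoods of `a` contain all but finitely many rows, neighbourhoods of `b` contain
all but finitely many points of each row. -/
instance topPt : TopologicalSpace Pt where
  IsOpen U := (a ∈ U → ∃ m, ∀ i j, m ≤ i → p i j ∈ U) ∧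
    (b ∈ U → ∀ i, ∃ h, ∀ j, h ≤ j → p i j ∈ U)
  isOpen_univ := ⟨fun _ => ⟨0, fun _ _ _ => trivial⟩, fun _ _ => ⟨0, fun _ _ => trivial⟩⟩
  isOpen_inter := by
    rintro U V ⟨hU1, hU2⟩ ⟨hV1, hV2⟩
    refine ⟨?_, ?_⟩
    · rintro ⟨h1, h2⟩
      obtain ⟨m, hm⟩ := hU1 h1
      obtain ⟨n, hn⟩ := hV1 h2
      exact ⟨max m n, fun i j hi => ⟨hm i j (le_trans (le_max_left _ _) hi),
        hn i j (le_trans (le_max_right _ _) hi)⟩⟩
    · rintro ⟨h1, h2⟩ i
      obtain ⟨m, hm⟩ := hU2 h1 i
      obtain ⟨n, hn⟩ := hV2 h2 i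
      exact ⟨max m n, fun j hj => ⟨hm j (le_trans (le_max_left _ _) hj),
        hn j (le_trans (le_max_right _ _) hj)⟩⟩
  isOpen_sUnion := by
    intro s hs
    refine ⟨?_, ?_⟩
    · rintro ⟨U, hU, h⟩
      obtain ⟨m, hm⟩ := (hs U hU).1 h
      exact ⟨m, fun i j hi => ⟨U, hU, hm i j hi⟩⟩
    · rintro ⟨U, hU, h⟩ i
      obtain ⟨m, hm⟩ := (hs U hU).2 h i
      exact ⟨m, fun j hj => ⟨U, hU, hm j hj⟩⟩

theorem isOpen_def (U : Set Pt) : IsOpen U ↔ ((a ∈ U → ∃ m, ∀ i j, m ≤ i → p i j ∈ U) ∧
    (b ∈ U → ∀ i, ∃ h, ∀ j, h ≤ j → p i j ∈ U)) := Iff.rfl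

theorem isOpen_compl_pt (x : Pt) : IsOpen ({x}ᶜ : Set Pt) := by
  rw [isOpen_def]
  cases x with
  | a => exact ⟨fun h => absurd rfl h, fun _ i => ⟨0, fun j _ => by simp⟩⟩
  | b => exact ⟨fun _ => ⟨0, fun i j _ => by simp⟩, fun h => absurd rfl h⟩
  | p i j =>
    refine ⟨fun _ => ⟨i+1, fun i' j' h => ?_⟩, fun _ i' => ⟨j+1, fun j' h => ?_⟩⟩
    · intro h'
      have := Pt.p.inj h'
      omega
    · intro h'
      have := Pt.p.inj h'
      omega

instance : T1Space Pt := ⟨fun x => ⟨isOpen_compl_pt x⟩⟩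

theorem compact_of_cofinite {Y : Type} [TopologicalSpace Y] (K T : Set Y) (hT : T.Finite)
    (hTK : T ⊆ K) (h : ∀ V, IsOpen V → T ⊆ V → (K \ V).Finite) : IsCompact K := by
  classical
  refine isCompact_of_finite_subcover ?_
  intro ι U hU hK
  obtain ⟨t1, h1⟩ := hT.isCompact.elim_finite_subcover U hU (hTK.trans hK)
  have hf := h (⋃ i ∈ t1, U i) (isOpen_biUnion fun i _ => hU i) h1
  obtain ⟨t2, h2⟩ := hf.isCompact.elim_finite_subcover U hU (Set.sdiff_subset.trans hK)
  refine ⟨t1 ∪ t2, fun x hx => ?_⟩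
  by_cases hx1 : x ∈ ⋃ i ∈ t1, U i
  · simp only [Set.mem_iUnion, Finset.mem_union] at hx1 ⊢
    obtain ⟨i, hi, hxi⟩ := hx1
    exact ⟨i, Or.inl hi, hxi⟩
  · have := h2 ⟨hx, hx1⟩
    simp only [Set.mem_iUnion, Finset.mem_union] at this ⊢
    obtain ⟨i, hi, hxi⟩ := this
    exact ⟨i, Or.inr hi, hxi⟩

theorem finite_box (m : ℕ) (h : ℕ → ℕ) :
    {x : Pt | ∃ i j, i < m ∧ j < h i ∧ x = p i j}.Finite := by
  have h1 : (⋃ i ∈ Set.Iio m, (p i) '' (Set.Iio (h i))).Finite :=
    (Set.finite_Iio m).biUnion (fun i _ => (Set.finite_Iio (h i)).image (p i))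
  refine h1.subset ?_
  rintro x ⟨i, j, hi, hj, rfl⟩
  simp only [Set.mem_iUnion]
  exact ⟨i, hi, j, hj, rfl⟩

/-- Consonance, spelled as in the statement. -/
def ConsP (Y : Type) (t : TopologicalSpace Y) : Prop :=
  ∀ F : Set (Set Y), (∀ U ∈ F, @IsOpen Y t U) →
        (∀ U V : Set Y, U ∈ F → @IsOpen Y t V → U ⊆ V → V ∈ F) →
        (∀ D : Set (Set Y), D.Nonempty → (∀ U ∈ D, @IsOpen Y t U) →
            DirectedOn (· ⊆ ·) D → ⋃₀ D ∈ F → ∃ U ∈ D, U ∈ F) →
        ∀ U ∈ F, ∃ K : Set Y, @IsCompact Y t K ∧ K ⊆ U ∧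
          ∀ V : Set Y, @IsOpen Y t V → K ⊆ V → V ∈ F

theorem seq_of_dir {Y : Type} {t : TopologicalSpace Y} {F : Set (Set Y)}
    (hdir : ∀ D : Set (Set Y), D.Nonempty → (∀ U ∈ D, @IsOpen Y t U) →
            DirectedOn (· ⊆ ·) D → ⋃₀ D ∈ F → ∃ U ∈ D, U ∈ F)
    (W : ℕ → Set Y) (hm : Monotone W) (ho : ∀ n, @IsOpen Y t (W n)) (hU : (⋃ n, W n) ∈ F) :
    ∃ n, W n ∈ F := by
  obtain ⟨U, ⟨n, rfl⟩, h⟩ := hdir (Set.range W) ⟨W 0, 0, rfl⟩
    (by rintro _ ⟨n, rfl⟩; exact ho n)
    (by
      rintro _ ⟨n, rfl⟩ _ ⟨m, rfl⟩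
      exact ⟨W (max n m), ⟨_, rfl⟩, hm (le_max_left _ _), hm (le_max_right _ _)⟩)
    (by rwa [Set.sUnion_range])
  exact ⟨n, h⟩

/-- The space `Pt` is consonant. -/
theorem consPt : ConsP Pt topPt := by
  classical
  intro F hFo hup hdir U hU
  have hUo : IsOpen U := hFo U hU
  have hseq := @seq_of_dir Pt topPt F hdir
  by_cases ha : a ∈ U
  · by_cases hb : b ∈ U
    · -- `U` is compact
      refine ⟨U, ?_, subset_rfl, fun V hV hUV => hup U V hU hV hUV⟩
      refine compact_of_cofinite U {a, b} (by simp) ?_ ?_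
      · rintro x (rfl | rfl)
        · exact ha
        · exact hb
      · intro V hV hTV
        obtain ⟨m, hm⟩ := ((isOpen_def V).1 hV).1 (hTV (by simp))
        choose h hh using ((isOpen_def V).1 hV).2 (hTV (by simp))
        refine (finite_box m h).subset ?_
        rintro x ⟨_, hxV⟩
        cases x with
        | a => exact absurd (hTV (by simp)) hxV
        | b => exact absurd (hTV (by simp)) hxV
        | p i j =>
          refine ⟨i, j, ?_, ?_, rfl⟩
          · by_contra hc
            exact hxV (hm i j (not_lt.1 hc))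
          · by_contra hc
            exact hxV (hh i j (not_lt.1 hc))
    · -- metric fan type
      obtain ⟨mU, hmU⟩ := ((isOpen_def U).1 hUo).1 ha
      let T : (ℕ → ℕ) → ℕ → Set Pt := fun f n => {x | x ∈ U ∧ ∀ i j, x = p i j → i < n → j < f i}
      have hTo : ∀ f n, IsOpen (T f n) := by
        intro f n
        rw [isOpen_def]
        refine ⟨fun _ => ⟨max mU n, fun i j hi => ⟨hmU i j (le_trans (le_max_left _ _) hi), ?_⟩⟩,
          fun h => absurd h.1 hb⟩
        intro i' j' he hi'
        have := Pt.p.inj he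
        have h2 : n ≤ i := le_trans (le_max_right _ _) hi
        omega
      have hstep : ∀ n f, T f n ∈ F → ∃ k, T (Function.update f n k) (n+1) ∈ F := by
        intro n f hf
        refine hseq (fun k => T (Function.update f n k) (n+1)) ?_ (fun k => hTo _ _) ?_
        · intro k l hkl x hx
          refine ⟨hx.1, fun i j he hi => ?_⟩
          have := hx.2 i j he hi
          by_cases hin : i = n
          · subst hin
            simp only [Function.update_self] at this ⊢
            omega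
          · simp only [Function.update_of_ne hin] at this ⊢
            exact this
        · have : (⋃ k, T (Function.update f n k) (n+1)) = T f n := by
            ext x
            simp only [Set.mem_iUnion]
            constructor
            · rintro ⟨k, hk⟩
              refine ⟨hk.1, fun i j he hi => ?_⟩
              have h1 := hk.2 i j he (by omega)
              rwa [Function.update_of_ne (by omega)] at h1
            · intro hx
              cases x with
              | a => exact ⟨0, hx.1, fun i j he => by simp at he⟩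
              | b => exact ⟨0, hx.1, fun i j he => by simp at he⟩
              | p i0 j0 =>
                refine ⟨j0+1, hx.1, fun i j he hi => ?_⟩
                obtain ⟨rfl, rfl⟩ := Pt.p.inj he
                by_cases hin : i0 = n
                · subst hin
                  simp
                · rw [Function.update_of_ne hin]
                  exact hx.2 i0 j0 rfl (by omega)
          rw [this]
          exact hf
      have h0 : T (fun _ => 0) 0 ∈ F := by
        have : T (fun _ => 0) 0 = U := by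
          ext x
          exact ⟨fun h => h.1, fun h => ⟨h, fun i j _ hi => by omega⟩⟩
        rw [this]
        exact hU
      let s : (n : ℕ) → {f : ℕ → ℕ // T f n ∈ F} := fun n => Nat.rec ⟨fun _ => 0, h0⟩
        (fun n f => ⟨Function.update f.1 n (Classical.choose (hstep n f.1 f.2)),
          Classical.choose_spec (hstep n f.1 f.2)⟩) n
      have hs : ∀ n i, i < n → (s (n+1)).1 i = (s n).1 i := by
        intro n i hi
        show Function.update (s n).1 n _ i = (s n).1 i
        rw [Function.update_of_ne (by omega)]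
      let g : ℕ → ℕ := fun n => (s (n+1)).1 n
      have hg : ∀ n i, i < n → (s n).1 i = g i := by
        intro n
        induction n with
        | zero => intro i hi; omega
        | succ n ih =>
          intro i hi
          rcases Nat.lt_succ_iff_lt_or_eq.1 hi with h | h
          · rw [hs n i h]
            exact ih i h
          · subst h
            rfl
      have hgF : ∀ n, T g n ∈ F := by
        intro n
        have : T g n = T (s n).1 n := by
          ext x
          constructor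
          · intro hx
            exact ⟨hx.1, fun i j he hi => by rw [hg n i hi]; exact hx.2 i j he hi⟩
          · intro hx
            exact ⟨hx.1, fun i j he hi => by rw [← hg n i hi]; exact hx.2 i j he hi⟩
        rw [this]
        exact (s n).2
      refine ⟨{x | x ∈ U ∧ ∀ i j, x = p i j → j < g i}, ?_, fun x hx => hx.1, ?_⟩
      · refine compact_of_cofinite _ {a} (by simp) ?_ ?_
        · rintro x rfl
          exact ⟨ha, fun i j he => by simp at he⟩
        · intro V hV hTV
          obtain ⟨m, hm⟩ := ((isOpen_def V).1 hV).1 (hTV (by simp))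
          refine (finite_box m g).subset ?_
          rintro x ⟨hx, hxV⟩
          cases x with
          | a => exact absurd (hTV (by simp)) hxV
          | b => exact absurd hx.1 hb
          | p i j =>
            refine ⟨i, j, ?_, hx.2 i j rfl, rfl⟩
            by_contra hc
            exact hxV (hm i j (not_lt.1 hc))
      · intro V hV hKV
        have haV : a ∈ V := hKV ⟨ha, fun i j he => by simp at he⟩
        obtain ⟨m, hm⟩ := ((isOpen_def V).1 hV).1 haV
        refine hup (T g m) V (hgF m) hV ?_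
        intro x hx
        cases x with
        | a => exact haV
        | b => exact absurd hx.1 hb
        | p i j =>
          by_cases hi : i < m
          · refine hKV ⟨hx.1, fun i' j' he => ?_⟩
            obtain ⟨rfl, rfl⟩ := Pt.p.inj he
            exact hx.2 i j rfl hi
          · exact hm i j (not_lt.1 hi)
  · by_cases hb : b ∈ U
    · -- sequential fan type
      choose hU' hhU using ((isOpen_def U).1 hUo).2 hb
      by_contra hcon
      have hno : ∀ n : ℕ, ∃ V : Set Pt, IsOpen V ∧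
          {x | x ∈ U ∧ ∀ i j, x = p i j → i < n} ⊆ V ∧ V ∉ F := by
        intro n
        by_contra hn
        apply hcon
        refine ⟨{x | x ∈ U ∧ ∀ i j, x = p i j → i < n}, ?_, fun x hx => hx.1, ?_⟩
        · refine compact_of_cofinite _ {b} (by simp) ?_ ?_
          · rintro x rfl
            exact ⟨hb, fun i j he => by simp at he⟩
          · intro V hV hTV
            choose h hh using ((isOpen_def V).1 hV).2 (hTV (by simp))
            refine (finite_box n h).subset ?_
            rintro x ⟨hx, hxV⟩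
            cases x with
            | a => exact absurd hx.1 ha
            | b => exact absurd (hTV (by simp)) hxV
            | p i j =>
              refine ⟨i, j, hx.2 i j rfl, ?_, rfl⟩
              by_contra hc
              exact hxV (hh i j (not_lt.1 hc))
        · intro V hV hKV
          by_contra hVF
          exact hn ⟨V, hV, hKV, hVF⟩
      choose W hWo hKW hWF using hno
      have hbW : ∀ n, b ∈ W n := fun n => hKW n ⟨hb, fun i j he => by simp at he⟩
      have hWt : ∀ n i, ∃ h, ∀ j, h ≤ j → p i j ∈ W n :=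
        fun n => ((isOpen_def (W n)).1 (hWo n)).2 (hbW n)
      choose hW hhW using hWt
      let D : ℕ → Set Pt := fun n => {x | x ∈ U ∧ ∀ k, n ≤ k → x ∈ W k}
      have hDo : ∀ n, IsOpen (D n) := by
        intro n
        rw [isOpen_def]
        refine ⟨fun h => absurd h.1 ha, fun _ i => ?_⟩
        refine ⟨max (hU' i) ((Finset.range (i+1)).sup (fun k => hW k i)), fun j hj => ?_⟩
        have hpU : p i j ∈ U := hhU i j (le_trans (le_max_left _ _) hj)
        refine ⟨hpU, fun k hk => ?_⟩
        by_cases hki : k ≤ i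
        · apply hhW k i j
          refine le_trans ?_ (le_trans (le_max_right _ _) hj)
          exact Finset.le_sup (f := fun k => hW k i) (Finset.mem_range.2 (by omega))
        · apply hKW k
          refine ⟨hpU, fun i' j' he => ?_⟩
          obtain ⟨rfl, rfl⟩ := Pt.p.inj he
          omega
      obtain ⟨n, hn⟩ := hseq D (fun k l hkl x hx => ⟨hx.1, fun m hm => hx.2 m (le_trans hkl hm)⟩)
        hDo (by
          have : (⋃ n, D n) = U := by
            ext x
            simp only [Set.mem_iUnion]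
            constructor
            · rintro ⟨n, hn⟩
              exact hn.1
            · intro hx
              cases x with
              | a => exact absurd hx ha
              | b => exact ⟨0, hx, fun k _ => hbW k⟩
              | p i j =>
                refine ⟨i+1, hx, fun k hk => hKW k ⟨hx, fun i' j' he => ?_⟩⟩
                obtain ⟨rfl, rfl⟩ := Pt.p.inj he
                omega
          rw [this]
          exact hU)
      exact hWF n (hup (D n) (W n) hn (hWo n) (fun x hx => hx.2 n le_rfl))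
    · -- discrete type
      obtain ⟨n, hn⟩ := hseq (fun n => {x | x ∈ U ∧ ∃ i j, i < n ∧ j < n ∧ x = p i j})
        (by
          rintro k l hkl x ⟨hx, i, j, hi, hj, rfl⟩
          exact ⟨hx, i, j, by omega, by omega, rfl⟩)
        (by
          intro n
          rw [isOpen_def]
          exact ⟨fun h => absurd h.1 ha, fun h => absurd h.1 hb⟩)
        (by
          have : (⋃ n, {x | x ∈ U ∧ ∃ i j, i < n ∧ j < n ∧ x = p i j}) = U := by
            ext x
            simp only [Set.mem_iUnion]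
            constructor
            · rintro ⟨n, hn⟩
              exact hn.1
            · intro hx
              cases x with
              | a => exact absurd hx ha
              | b => exact absurd hx hb
              | p i j => exact ⟨max i j + 1, hx, i, j, by omega, by omega, rfl⟩
          rw [this]
          exact hU)
      refine ⟨_, ?_, fun x hx => hx.1, fun V hV hKV => hup _ V hn hV hKV⟩
      refine Set.Finite.isCompact ((finite_box n (fun _ => n)).subset ?_)
      rintro x ⟨_, i, j, hi, hj, rfl⟩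
      exact ⟨i, j, hi, hj, rfl⟩

/-- The underlying set of the Smyth power space. -/
abbrev Q : Type := {K : Set Pt // K.Nonempty ∧ IsCompact K ∧
              ∀ x : Pt, (∀ U : Set Pt, IsOpen U → K ⊆ U → x ∈ U) → x ∈ K}

/-- The upper Vietoris topology. -/
abbrev tQ : TopologicalSpace Q := TopologicalSpace.generateFrom
          {S | ∃ U : Set Pt, IsOpen U ∧ S = {K | K.1 ⊆ U}}

theorem basis (O : Set Q) (hO : @IsOpen Q tQ O) (K : Q) (hK : K ∈ O) :
    ∃ U : Set Pt, IsOpen U ∧ K.1 ⊆ U ∧ ∀ L : Q, L.1 ⊆ U → L ∈ O := by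
  have hO' : TopologicalSpace.GenerateOpen {S | ∃ U : Set Pt, IsOpen U ∧ S = {K : Q | K.1 ⊆ U}} O := hO
  induction hO' with
  | basic S hS =>
    obtain ⟨U, hU, rfl⟩ := hS
    exact ⟨U, hU, hK, fun L hL => hL⟩
  | univ => exact ⟨Set.univ, isOpen_univ, Set.subset_univ _, fun L _ => trivial⟩
  | inter S T hS hT ihS ihT =>
    obtain ⟨U, hU, hKU, hLU⟩ := ihS hS hK.1
    obtain ⟨V, hV, hKV, hLV⟩ := ihT hT hK.2
    exact ⟨U ∩ V, hU.inter hV, Set.subset_inter hKU hKV, fun L hL =>
      ⟨hLU L (hL.trans Set.inter_subset_left), hLV L (hL.trans Set.inter_subset_right)⟩⟩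
  | sUnion S hS ih =>
    obtain ⟨T, hT, hKT⟩ := hK
    obtain ⟨U, hU, hKU, hLU⟩ := ih T hT (hS T hT) hKT
    exact ⟨U, hU, hKU, fun L hL => ⟨T, hT, hLU L hL⟩⟩

theorem box_open (U : Set Pt) (hU : IsOpen U) : @IsOpen Q tQ {K : Q | K.1 ⊆ U} :=
  TopologicalSpace.GenerateOpen.basic _ ⟨U, hU, rfl⟩

theorem sat (K : Set Pt) : ∀ x : Pt, (∀ U : Set Pt, IsOpen U → K ⊆ U → x ∈ U) → x ∈ K := by
  intro x hx
  by_contra h
  exact hx {x}ᶜ (isOpen_compl_pt x) (fun y hy he => h (by rw [Set.mem_singleton_iff] at he; rw [← he]; exact hy)) rfl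

/-- A finite nonempty set as a point of the power space. -/
def ofFin (K : Set Pt) (hK : K.Nonempty) (hf : K.Finite) : Q := ⟨K, hK, hf.isCompact, sat K⟩

def Ka : Q := ofFin {a} (by simp) (by simp)
def Kb : Q := ofFin {b} (by simp) (by simp)
def Kap (i j : ℕ) : Q := ofFin {a, p i j} (by simp) (by simp)
def Kbp (i j : ℕ) : Q := ofFin {b, p i j} (by simp) (by simp)

/-- Open neighbourhoods of compact sets containing `a`. -/
def V1 (m k : ℕ) : Set Pt := {x | x ≠ b ∧ ∀ i j, x = p i j → m < i ∨ j < k}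
/-- Open neighbourhoods of compact sets containing `b`. -/
def V2 (m k : ℕ) : Set Pt := {x | x ≠ a ∧ ∀ i j, x = p i j → i ≤ m ∨ k ≤ j}
/-- The isolated points. -/
def V3 : Set Pt := {x | x ≠ a ∧ x ≠ b}

theorem V1_open (m k : ℕ) : IsOpen (V1 m k) := by
  rw [isOpen_def]
  refine ⟨fun _ => ⟨m+1, fun i j hi => ⟨by simp, fun i' j' he => ?_⟩⟩, fun h => absurd rfl h.1⟩
  obtain ⟨rfl, rfl⟩ := Pt.p.inj he
  left; omega

theorem V2_open (m k : ℕ) : IsOpen (V2 m k) := by
  rw [isOpen_def]
  refine ⟨fun h => absurd rfl h.1, fun _ i => ⟨k, fun j hj => ⟨by simp, fun i' j' he => ?_⟩⟩⟩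
  obtain ⟨rfl, rfl⟩ := Pt.p.inj he
  right; omega

theorem V3_open : IsOpen V3 := by
  rw [isOpen_def]
  exact ⟨fun h => absurd rfl h.1, fun h => absurd rfl h.2⟩

/-- The members of the covering family. -/
def Om (m k : ℕ) : Set Q := {K | K.1 ⊆ V1 m k} ∪ {K | K.1 ⊆ V2 m k} ∪ {K | K.1 ⊆ V3}

theorem Om_open (m k : ℕ) : @IsOpen Q tQ (Om m k) := by
  refine @IsOpen.union Q _ _ tQ (@IsOpen.union Q _ _ tQ (box_open _ (V1_open m k)) (box_open _ (V2_open m k)))
    (box_open _ V3_open)

theorem Kap_not (m k i j : ℕ) (h : Kap i j ∈ Om m k) : m < i ∨ j < k := by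
  rcases h with (h | h) | h
  · exact (h (show p i j ∈ (Kap i j).1 by simp [Kap, ofFin])).2 i j rfl
  · exact absurd rfl (h (show a ∈ (Kap i j).1 by simp [Kap, ofFin])).1
  · exact absurd rfl (h (show a ∈ (Kap i j).1 by simp [Kap, ofFin])).1

theorem Kbp_not (m k i j : ℕ) (h : Kbp i j ∈ Om m k) : i ≤ m ∨ k ≤ j := by
  rcases h with (h | h) | h
  · exact absurd rfl (h (show b ∈ (Kbp i j).1 by simp [Kbp, ofFin])).1
  · exact (h (show p i j ∈ (Kbp i j).1 by simp [Kbp, ofFin])).2 i j rfl
  · exact absurd rfl (h (show b ∈ (Kbp i j).1 by simp [Kbp, ofFin])).2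

/-- The Scott open family. -/
def FF : Set (Set Q) := {O | @IsOpen Q tQ O ∧ Ka ∈ O ∧ Kb ∈ O ∧ ∀ m k, ¬ O ⊆ Om m k}

theorem FF_dir (D : Set (Set Q)) (hDo : ∀ U ∈ D, @IsOpen Q tQ U)
    (hD : DirectedOn (· ⊆ ·) D) (hF : ⋃₀ D ∈ FF) : ∃ U ∈ D, U ∈ FF := by
  classical
  obtain ⟨_, ⟨U1, hU1, ha⟩, ⟨U2, hU2, hb⟩, hnot⟩ := hF
  obtain ⟨U3, hU3, h13, h23⟩ := hD U1 hU1 U2 hU2
  have ha3 : Ka ∈ U3 := h13 ha
  have hb3 : Kb ∈ U3 := h23 hb
  -- the bounds
  obtain ⟨A, hA, hKA, hLA⟩ := basis U3 (hDo U3 hU3) Ka ha3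
  obtain ⟨B, hB, hKB, hLB⟩ := basis U3 (hDo U3 hU3) Kb hb3
  have haA : a ∈ A := hKA (show a ∈ (Ka).1 by simp [Ka, ofFin])
  have hbB : b ∈ B := hKB (show b ∈ (Kb).1 by simp [Kb, ofFin])
  obtain ⟨q, hq⟩ := ((isOpen_def A).1 hA).1 haA
  choose h hh using ((isOpen_def B).1 hB).2 hbB
  have hap : ∀ i j, q ≤ i → Kap i j ∈ U3 := by
    intro i j hi
    apply hLA
    rintro x (rfl | rfl)
    · exact haA
    · exact hq i j hi
  have hbp : ∀ i j, h i ≤ j → Kbp i j ∈ U3 := by
    intro i j hj
    apply hLB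
    rintro x (rfl | rfl)
    · exact hbB
    · exact hh i j hj
  by_contra hcon
  have hcon' : ∀ W ∈ D, W ∉ FF := fun W hW hWF => hcon ⟨W, hW, hWF⟩
  have hclaim : ∀ T : Finset (ℕ × ℕ), ∃ W ∈ D, U3 ⊆ W ∧ ∀ mk ∈ T, ¬ W ⊆ Om mk.1 mk.2 := by
    intro T
    induction T using Finset.induction_on with
    | empty => exact ⟨U3, hU3, subset_rfl, fun mk h => by simp at h⟩
    | insert mk T _ ih =>
      obtain ⟨W, hW, hUW, hWT⟩ := ih
      have hex : ∃ W' ∈ D, ¬ W' ⊆ Om mk.1 mk.2 := by
        by_contra hc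
        apply hnot mk.1 mk.2
        apply Set.sUnion_subset
        intro W' hW'
        by_contra hc'
        exact hc ⟨W', hW', hc'⟩
      obtain ⟨W', hW', hn'⟩ := hex
      obtain ⟨W'', hW'', h1, h2⟩ := hD W hW W' hW'
      refine ⟨W'', hW'', hUW.trans h1, fun mk' hmk' => ?_⟩
      rcases Finset.mem_insert.1 hmk' with rfl | hmk'
      · exact fun hc => hn' (Set.Subset.trans h2 hc)
      · exact fun hc => hWT mk' hmk' (Set.Subset.trans h1 hc)
  obtain ⟨W, hW, hUW, hWT⟩ := hclaim ((Finset.range (q+1)) ×ˢ (Finset.range (h q + 1)))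
  have hWF := hcon' W hW
  apply hWF
  refine ⟨hDo W hW, hUW ha3, hUW hb3, fun m k hc => ?_⟩
  have h1 : m < q := by
    rcases Kap_not m k q k (hc (hUW (hap q k le_rfl))) with h | h
    · exact h
    · omega
  have h2 : k ≤ h q := by
    rcases Kbp_not m k q (h q) (hc (hUW (hbp q (h q) le_rfl))) with h' | h'
    · omega
    · exact h'
  exact hWT (m, k) (Finset.mem_product.2 ⟨Finset.mem_range.2 (by simp; omega),
    Finset.mem_range.2 (by simp; omega)⟩) hc

/-- The open set at which consonance fails. -/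
def OO : Set Q := {K | K.1 ⊆ {b}ᶜ} ∪ {K | K.1 ⊆ {a}ᶜ}

theorem OO_mem : OO ∈ FF := by
  refine ⟨@IsOpen.union Q _ _ tQ (box_open _ (isOpen_compl_pt b)) (box_open _ (isOpen_compl_pt a)),
    Or.inl ?_, Or.inr ?_, fun m k hc => ?_⟩
  · rintro x rfl
    simp
  · rintro x rfl
    simp
  · have h1 : Kap 0 k ∈ OO := by
      left
      rintro x (rfl | rfl) <;> simp
    rcases Kap_not m k 0 k (hc h1) with h | h <;> omega

theorem row_bound (KK : Set Q) (hc : @IsCompact Q tQ KK) (hO : KK ⊆ OO) (i : ℕ) :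
    ∃ k, ∀ K ∈ KK, a ∈ K.1 → ∀ j, p i j ∈ K.1 → j < k := by
  let A : ℕ → Set Pt := fun k => {x | x ≠ b ∧ ∀ j, x = p i j → j < k}
  have hAo : ∀ k, IsOpen (A k) := by
    intro k
    rw [isOpen_def]
    refine ⟨fun _ => ⟨i+1, fun i' j' hi => ⟨by simp, fun j he => ?_⟩⟩, fun h => absurd rfl h.1⟩
    have := (Pt.p.inj he).1
    omega
  have hAm : Monotone A := by
    intro k l hkl x hx
    exact ⟨hx.1, fun j he => lt_of_lt_of_le (hx.2 j he) hkl⟩
  have hcov : ∀ x : Pt, x ≠ b → ∃ k, x ∈ A k := by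
    intro x hx
    cases x with
    | a => exact ⟨0, by simp, fun j he => by simp at he⟩
    | b => exact absurd rfl hx
    | p i0 j0 =>
      refine ⟨j0+1, by simp, fun j he => ?_⟩
      have := (Pt.p.inj he).2
      omega
  let U : ℕ → Set Q := fun k => {K | K.1 ⊆ A k} ∪ {K | K.1 ⊆ {a}ᶜ}
  have hUo : ∀ k, @IsOpen Q tQ (U k) := fun k =>
    @IsOpen.union Q _ _ tQ (box_open _ (hAo k)) (box_open _ (isOpen_compl_pt a))
  have hUm : Monotone U := by
    intro k l hkl K hK
    rcases hK with hK | hK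
    · exact Or.inl (Set.Subset.trans hK (hAm hkl))
    · exact Or.inr hK
  have hKU : KK ⊆ ⋃ k, U k := by
    intro K hK
    rw [Set.mem_iUnion]
    rcases hO hK with h | h
    · obtain ⟨k, hk⟩ := K.2.2.1.elim_directed_cover A hAo (fun x hx => by
        rw [Set.mem_iUnion]
        exact hcov x (fun he => h hx he)) hAm.directed_le
      exact ⟨k, Or.inl hk⟩
    · exact ⟨0, Or.inr h⟩
  obtain ⟨k, hk⟩ := @IsCompact.elim_directed_cover Q tQ KK ℕ _ hc U hUo hKU hUm.directed_le
  refine ⟨k, fun K hK haK j hj => ?_⟩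
  rcases hk hK with h | h
  · exact (h hj).2 j rfl
  · exact absurd rfl (h haK)

theorem col_bound (KK : Set Q) (hc : @IsCompact Q tQ KK) (hO : KK ⊆ OO) :
    ∃ n, ∀ K ∈ KK, b ∈ K.1 → ∀ i j, p i j ∈ K.1 → i ≤ n := by
  classical
  have hq : ∀ i, ∃ q, (∃ K ∈ KK, b ∈ K.1 ∧ ∃ j, p i j ∈ K.1) → ∃ K ∈ KK, b ∈ K.1 ∧ p i q ∈ K.1 := by
    intro i
    by_cases h : ∃ K ∈ KK, b ∈ K.1 ∧ ∃ j, p i j ∈ K.1
    · obtain ⟨K, hK, hb, j, hj⟩ := h
      exact ⟨j, fun _ => ⟨K, hK, hb, hj⟩⟩
    · exact ⟨0, fun h' => absurd h' h⟩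
  choose q hq using hq
  let B : ℕ → Set Pt := fun n => {x | x ≠ a ∧ ∀ i, n < i → x ≠ p i (q i)}
  have hBo : ∀ n, IsOpen (B n) := by
    intro n
    rw [isOpen_def]
    refine ⟨fun h => absurd rfl h.1, fun _ i => ⟨q i + 1, fun j hj => ⟨by simp, fun i' hi' he => ?_⟩⟩⟩
    obtain ⟨rfl, h2⟩ := Pt.p.inj he
    omega
  have hBm : Monotone B := by
    intro k l hkl x hx
    exact ⟨hx.1, fun i hi => hx.2 i (lt_of_le_of_lt hkl hi)⟩
  have hcov : ∀ x : Pt, x ≠ a → ∃ k, x ∈ B k := by
    intro x hx
    cases x with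
    | a => exact absurd rfl hx
    | b => exact ⟨0, by simp, fun j he => by simp⟩
    | p i0 j0 =>
      refine ⟨i0, by simp, fun i hi he => ?_⟩
      have := (Pt.p.inj he).1
      omega
  let U : ℕ → Set Q := fun k => {K | K.1 ⊆ B k} ∪ {K | K.1 ⊆ {b}ᶜ}
  have hUo : ∀ k, @IsOpen Q tQ (U k) := fun k =>
    @IsOpen.union Q _ _ tQ (box_open _ (hBo k)) (box_open _ (isOpen_compl_pt b))
  have hUm : Monotone U := by
    intro k l hkl K hK
    rcases hK with hK | hK
    · exact Or.inl (Set.Subset.trans hK (hBm hkl))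
    · exact Or.inr hK
  have hKU : KK ⊆ ⋃ k, U k := by
    intro K hK
    rw [Set.mem_iUnion]
    rcases hO hK with h | h
    · exact ⟨0, Or.inr h⟩
    · obtain ⟨k, hk⟩ := K.2.2.1.elim_directed_cover B hBo (fun x hx => by
        rw [Set.mem_iUnion]
        exact hcov x (fun he => h hx he)) hBm.directed_le
      exact ⟨k, Or.inl hk⟩
  obtain ⟨n, hn⟩ := @IsCompact.elim_directed_cover Q tQ KK ℕ _ hc U hUo hKU hUm.directed_le
  refine ⟨n, fun K hK hbK i j hj => ?_⟩
  by_contra hin
  obtain ⟨K', hK', hbK', hpK'⟩ := hq i ⟨K, hK, hbK, j, hj⟩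
  rcases hn hK' with h | h
  · exact (h hpK').2 i (by omega) rfl
  · exact absurd rfl (h hbK')

theorem not_consQ : ¬ ConsP Q tQ := by
  classical
  intro hcons
  obtain ⟨KK, hc, hO, hall⟩ := hcons FF (fun U hU => hU.1)
    (fun U V hU hV hUV => ⟨hV, hUV hU.2.1, hUV hU.2.2.1,
      fun m k hc => hU.2.2.2 m k (Set.Subset.trans hUV hc)⟩)
    (fun D _ hDo hD hF => FF_dir D hDo hD hF) OO OO_mem
  obtain ⟨n, hn⟩ := col_bound KK hc hO
  choose g hg using row_bound KK hc hO
  let k := (Finset.range (n+1)).sup g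
  have hsub : KK ⊆ Om n k := by
    intro K hK
    by_cases haK : a ∈ K.1
    · left; left
      have hbK : b ∉ K.1 := by
        rcases hO hK with h | h
        · exact fun hb => h hb rfl
        · exact absurd rfl (h haK)
      intro x hx
      refine ⟨fun he => hbK (he ▸ hx), fun i j he => ?_⟩
      subst he
      by_cases hin : n < i
      · exact Or.inl hin
      · right
        refine lt_of_lt_of_le (hg i K hK haK j hx) ?_
        exact Finset.le_sup (f := g) (Finset.mem_range.2 (by omega))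
    · by_cases hbK : b ∈ K.1
      · left; right
        intro x hx
        refine ⟨fun he => haK (he ▸ hx), fun i j he => ?_⟩
        subst he
        exact Or.inl (hn K hK hbK i j hx)
      · right
        intro x hx
        exact ⟨fun he => haK (he ▸ hx), fun he => hbK (he ▸ hx)⟩
  exact (hall (Om n k) (Om_open n k) hsub).2.2.2 n k subset_rfl

/-- The negation of the preceding statement: For every consonant T0 space X, the space of nonempty compact saturated subsets of X, with the upper Vietoris topology generated by the sets {K : K ⊆ U} for U open, is again consonant. -/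
theorem result :
    ¬ (∀ (Cons : (Y : Type) → TopologicalSpace Y → Prop),
    (∀ (Y : Type) (t : TopologicalSpace Y), Cons Y t ↔
      ∀ F : Set (Set Y), (∀ U ∈ F, @IsOpen Y t U) →
        (∀ U V : Set Y, U ∈ F → @IsOpen Y t V → U ⊆ V → V ∈ F) →
        (∀ D : Set (Set Y), D.Nonempty → (∀ U ∈ D, @IsOpen Y t U) →
            DirectedOn (· ⊆ ·) D → ⋃₀ D ∈ F → ∃ U ∈ D, U ∈ F) →
        ∀ U ∈ F, ∃ K : Set Y, @IsCompact Y t K ∧ K ⊆ U ∧
          ∀ V : Set Y, @IsOpen Y t V → K ⊆ V → V ∈ F) →
    ∀ (X : Type) [TopologicalSpace X] [T0Space X], Cons X inferInstance →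
      Cons {K : Set X // K.Nonempty ∧ IsCompact K ∧
              ∀ x : X, (∀ U : Set X, IsOpen U → K ⊆ U → x ∈ U) → x ∈ K}
        (TopologicalSpace.generateFrom
          {S | ∃ U : Set X, IsOpen U ∧ S = {K | K.1 ⊆ U}})) := by
  intro h
  exact not_consQ (h ConsP (fun _ _ => Iff.rfl) Pt consPt)

end Pool.Agent.S3252
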