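import Pool.Statements.S3269

set_option autoImplicit false
open Pool Pool.MP_c1092b_gt

namespace Pool.Agent.S3269

/-- Points of the poset: columns indexed by `L`, levels in `L ∪ {⊤}`. -/
@[ext] structure Pt (L : Type) where
  c : L
  a : WithTop L

variable {L : Type} [LinearOrder L]

instance : PartialOrder (Pt L) where
  le x y := (x.c = y.c ∧ x.a ≤ y.a) ∨ (y.a = ⊤ ∧ x.a ≤ (y.c : WithTop L))
  le_refl x := Or.inl ⟨rfl, le_rfl⟩
  le_trans x y z h1 h2 := by
    rcases h1 with ⟨h1, h1'⟩ | ⟨h1, h1'⟩ <;> rcases h2 with ⟨h2, h2'⟩ | ⟨h2, h2'⟩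
    · exact Or.inl ⟨h1.trans h2, h1'.trans h2'⟩
    · exact Or.inr ⟨h2, h1'.trans h2'⟩
    · rw [h1] at h2'
      exact Or.inr ⟨top_le_iff.mp h2', by rw [← h2]; exact h1'⟩
    · rw [h1] at h2'
      exact absurd (top_le_iff.mp h2') WithTop.coe_ne_top
  le_antisymm x y h1 h2 := by
    rcases h1 with ⟨h1, h1'⟩ | ⟨h1, h1'⟩ <;> rcases h2 with ⟨h2, h2'⟩ | ⟨h2, h2'⟩
    · exact Pt.ext h1 (le_antisymm h1' h2')
    · rw [h2, top_le_iff] at h1'
      exact Pt.ext h1 (by rw [h2, h1'])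
    · rw [h1, top_le_iff] at h2'
      exact Pt.ext h2.symm (by rw [h2', h1])
    · rw [h2, top_le_iff] at h1'
      exact absurd h1' WithTop.coe_ne_top

lemma le_def (x y : Pt L) :
    x ≤ y ↔ (x.c = y.c ∧ x.a ≤ y.a) ∨ (y.a = ⊤ ∧ x.a ≤ (y.c : WithTop L)) := Iff.rfl

lemma le_same (j : L) {a b : WithTop L} (h : a ≤ b) : (⟨j, a⟩ : Pt L) ≤ ⟨j, b⟩ :=
  Or.inl ⟨rfl, h⟩

lemma le_max' (j m : L) {a : WithTop L} (h : a ≤ (m : WithTop L)) :
    (⟨j, a⟩ : Pt L) ≤ ⟨m, ⊤⟩ := Or.inr ⟨rfl, h⟩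

lemma eq_of_top_le {x z : Pt L} (hx : x.a = ⊤) (h : x ≤ z) : z = x := by
  rcases h with ⟨h1, h2⟩ | ⟨h1, h2⟩
  · rw [hx, top_le_iff] at h2
    exact Pt.ext h1.symm (by rw [h2, hx])
  · rw [hx, top_le_iff] at h2
    exact absurd h2 WithTop.coe_ne_top

theorem not_sober [Nonempty L] [NoMaxOrder L] (t : TopologicalSpace (Pt L))
    (h1 : ∀ x : Pt L, closure ({x} : Set (Pt L)) = Set.Iic x) (h2 : QuasiSober (Pt L)) :
    False := by
  have hup : ∀ U : Set (Pt L), IsOpen U → ∀ x y, x ≤ y → x ∈ U → y ∈ U := by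
    intro U hU x y hxy hx
    have : x ∈ closure ({y} : Set (Pt L)) := by
      rw [h1]
      exact hxy
    obtain ⟨z, hz1, hz2⟩ := mem_closure_iff.mp this U hU hx
    rw [Set.mem_singleton_iff] at hz2
    rw [← hz2]
    exact hz1
  have hcol : ∀ U : Set (Pt L), IsOpen U → ∀ j, (⟨j, ⊤⟩ : Pt L) ∈ U →
      ∃ k : L, (⟨j, (k : WithTop L)⟩ : Pt L) ∈ U := by
    intro U hU j hj
    have hirr : IsIrreducible
        (closure (Set.range (fun k : L => (⟨j, (k : WithTop L)⟩ : Pt L)))) := by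
      apply IsIrreducible.closure
      refine ⟨Set.range_nonempty _, ?_⟩
      rintro U V hU hV ⟨_, ⟨k, rfl⟩, hk⟩ ⟨_, ⟨l, rfl⟩, hl⟩
      refine ⟨_, ⟨max k l, rfl⟩, hup U hU _ _ ?_ hk, hup V hV _ _ ?_ hl⟩
      · exact le_same j (WithTop.coe_le_coe.mpr (le_max_left k l))
      · exact le_same j (WithTop.coe_le_coe.mpr (le_max_right k l))
    obtain ⟨x, hx⟩ := QuasiSober.sober hirr isClosed_closure
    rw [isGenericPoint_def, h1] at hx
    have hxr : ∀ k : L, (⟨j, (k : WithTop L)⟩ : Pt L) ≤ x := fun k => by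
      have : (⟨j, (k : WithTop L)⟩ : Pt L) ∈ Set.Iic x := by
        rw [hx]
        exact subset_closure ⟨k, rfl⟩
      exact this
    have hx' : x = ⟨j, ⊤⟩ := by
      by_cases hc : x.c = j
      · refine Pt.ext hc ?_
        by_contra ha
        obtain ⟨b, hb⟩ := WithTop.ne_top_iff_exists.mp ha
        obtain ⟨k, hk⟩ := exists_gt b
        rcases hxr k with ⟨_, h4⟩ | ⟨h3, _⟩
        · rw [← hb, WithTop.coe_le_coe] at h4
          exact absurd h4 (not_le.mpr hk)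
        · exact ha h3
      · exfalso
        obtain ⟨k, hk⟩ := exists_gt x.c
        rcases hxr k with ⟨h3, _⟩ | ⟨_, h4⟩
        · exact hc h3.symm
        · rw [WithTop.coe_le_coe] at h4
          exact absurd h4 (not_le.mpr hk)
    have : (⟨j, ⊤⟩ : Pt L) ∈
        closure (Set.range (fun k : L => (⟨j, (k : WithTop L)⟩ : Pt L))) := by
      rw [← hx, hx']
      exact Set.mem_Iic.mpr le_rfl
    obtain ⟨_, hz, ⟨k, rfl⟩⟩ := mem_closure_iff.mp this U hU hj
    exact ⟨k, hz⟩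
  have hirr : IsIrreducible (Set.univ : Set (Pt L)) := by
    refine ⟨⟨⟨Classical.arbitrary L, ⊤⟩, trivial⟩, ?_⟩
    rintro U V hU hV ⟨⟨j, a⟩, _, hx⟩ ⟨⟨l, b⟩, _, hy⟩
    obtain ⟨k, hk⟩ := hcol U hU j (hup U hU ⟨j, a⟩ ⟨j, ⊤⟩ (le_same j le_top) hx)
    obtain ⟨k', hk'⟩ := hcol V hV l (hup V hV ⟨l, b⟩ ⟨l, ⊤⟩ (le_same l le_top) hy)
    refine ⟨⟨max k k', ⊤⟩, trivial, hup U hU _ _ ?_ hk, hup V hV _ _ ?_ hk'⟩
    · exact le_max' _ _ (WithTop.coe_le_coe.mpr (le_max_left k k'))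
    · exact le_max' _ _ (WithTop.coe_le_coe.mpr (le_max_right k k'))
  obtain ⟨x, hx⟩ := QuasiSober.sober hirr isClosed_univ
  rw [isGenericPoint_def, h1] at hx
  obtain ⟨m, hm⟩ := exists_gt x.c
  have h3 : (⟨m, ⊤⟩ : Pt L) ≤ x := by
    have : (⟨m, ⊤⟩ : Pt L) ∈ Set.Iic x := by
      rw [hx]
      exact Set.mem_univ _
    exact this
  rcases h3 with ⟨h, _⟩ | ⟨_, h⟩
  · exact hm.ne' h
  · exact absurd (top_le_iff.mp h) WithTop.coe_ne_top

/-- Least upper bounds of nonempty sets in `WithTop L`. -/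
lemma exists_lub [WellFoundedLT L] (D : Set (WithTop L)) :
    ∃ s : WithTop L, (∀ a ∈ D, a ≤ s) ∧ ∀ u, (∀ a ∈ D, a ≤ u) → s ≤ u := by
  have hne : ({u : WithTop L | ∀ a ∈ D, a ≤ u}).Nonempty := ⟨⊤, fun a _ => le_top⟩
  have wf : WellFounded (fun a b : WithTop L => a < b) := wellFounded_lt
  refine ⟨wf.min _ hne, wf.min_mem _ hne, ?_⟩
  intro u hu
  exact not_lt.mp (wf.not_lt_min {u : WithTop L | ∀ a ∈ D, a ≤ u} (x := u) hu)

theorem dcpo [WellFoundedLT L] (d : Set (Pt L)) (hne : d.Nonempty)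
    (hd : DirectedOn (· ≤ ·) d) : ∃ x : Pt L, IsLUB d x := by
  by_cases hg : ∃ x ∈ d, ∀ y ∈ d, y ≤ x
  · obtain ⟨x, hx, hx'⟩ := hg
    exact ⟨x, hx', fun y hy => hy hx⟩
  · push Not at hg
    have hfin : ∀ x ∈ d, x.a ≠ ⊤ := by
      intro x hx hxa
      obtain ⟨y, hy, hyx⟩ := hg x hx
      obtain ⟨z, _, hz1, hz2⟩ := hd x hx y hy
      rw [eq_of_top_le hxa hz1] at hz2
      exact hyx hz2
    have hc : ∀ x ∈ d, ∀ y ∈ d, x.c = y.c := by
      intro x hx y hy
      obtain ⟨z, hz, hz1, hz2⟩ := hd x hx y hy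
      rcases hz1 with ⟨h1, _⟩ | ⟨h1, _⟩
      · rcases hz2 with ⟨h2, _⟩ | ⟨h2, _⟩
        · rw [h1, h2]
        · exact absurd h2 (hfin z hz)
      · exact absurd h1 (hfin z hz)
    obtain ⟨x₀, hx₀⟩ := hne
    obtain ⟨s, hs1, hs2⟩ := exists_lub (Pt.a '' d)
    refine ⟨⟨x₀.c, s⟩, ?_, ?_⟩
    · intro x hx
      exact Or.inl ⟨hc x hx x₀ hx₀, hs1 _ ⟨x, hx, rfl⟩⟩
    · intro y hy
      by_cases hyc : y.c = x₀.c
      · refine Or.inl ⟨hyc.symm, hs2 _ ?_⟩
        rintro _ ⟨x, hx, rfl⟩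
        rcases hy hx with ⟨_, h2⟩ | ⟨h1, _⟩
        · exact h2
        · rw [h1]
          exact le_top
      · have hya : y.a = ⊤ := by
          rcases hy hx₀ with ⟨h1, _⟩ | ⟨h1, _⟩
          · exact absurd h1.symm hyc
          · exact h1
        refine Or.inr ⟨hya, hs2 _ ?_⟩
        rintro _ ⟨x, hx, rfl⟩
        rcases hy hx with ⟨h1, _⟩ | ⟨_, h2⟩
        · exact absurd (h1.symm.trans (hc x hx x₀ hx₀)) hyc
        · exact h2

/-- limit levels -/
def lim (s : WithTop L) : Prop := (∃ a, a < s) ∧ ∀ a < s, ∃ b < s, a < b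

lemma lim_le {s u : WithTop L} (hs : lim s) (h : ∀ a < s, a ≤ u) : s ≤ u := by
  by_contra hc
  obtain ⟨b, hb, hub⟩ := hs.2 u (not_le.mp hc)
  exact absurd (h b hb) (not_le.mpr hub)

/-- the (Scott) topology -/
instance topo : TopologicalSpace (Pt L) where
  IsOpen U := IsUpperSet U ∧ ∀ (j : L) (s : WithTop L), lim s → (⟨j, s⟩ : Pt L) ∈ U →
    ∃ a < s, (⟨j, a⟩ : Pt L) ∈ U
  isOpen_univ := ⟨isUpperSet_univ, fun j s hs _ => by
    obtain ⟨a, ha⟩ := hs.1
    exact ⟨a, ha, trivial⟩⟩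
  isOpen_inter U V hU hV := ⟨hU.1.inter hV.1, fun j s hs h => by
    obtain ⟨a, ha, haU⟩ := hU.2 j s hs h.1
    obtain ⟨b, hb, hbV⟩ := hV.2 j s hs h.2
    exact ⟨max a b, max_lt ha hb, hU.1 (le_same j (le_max_left _ _)) haU,
      hV.1 (le_same j (le_max_right _ _)) hbV⟩⟩
  isOpen_sUnion 𝒰 h := ⟨isUpperSet_sUnion (fun U hU => (h U hU).1), fun j s hs hx => by
    obtain ⟨U, hU, hxU⟩ := hx
    obtain ⟨a, ha, haU⟩ := (h U hU).2 j s hs hxU
    exact ⟨a, ha, U, hU, haU⟩⟩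

lemma open_upper {U : Set (Pt L)} (hU : IsOpen U) : IsUpperSet U := hU.1

lemma closed_of {S : Set (Pt L)} (h1 : ∀ x y : Pt L, y ≤ x → x ∈ S → y ∈ S)
    (h2 : ∀ (j : L) (s : WithTop L), lim s → (∀ a < s, (⟨j, a⟩ : Pt L) ∈ S) →
      (⟨j, s⟩ : Pt L) ∈ S) : IsClosed S := by
  rw [← isOpen_compl_iff]
  refine ⟨?_, ?_⟩
  · intro x y hxy hx hy
    exact hx (h1 y x hxy hy)
  · intro j s hs hx
    by_contra hcon
    push Not at hcon
    apply hx
    apply h2 j s hs
    intro a ha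
    by_contra hc
    exact hcon a ha hc

lemma closed_lower {S : Set (Pt L)} (hS : IsClosed S) {x y : Pt L} (h : y ≤ x) (hx : x ∈ S) :
    y ∈ S := by
  by_contra hy
  exact (open_upper hS.isOpen_compl) h hy hx

lemma closed_lim {S : Set (Pt L)} (hS : IsClosed S) (j : L) (s : WithTop L) (hs : lim s)
    (h : ∀ a < s, (⟨j, a⟩ : Pt L) ∈ S) : (⟨j, s⟩ : Pt L) ∈ S := by
  by_contra hy
  obtain ⟨a, ha, haS⟩ := hS.isOpen_compl.2 j s hs hy
  exact haS (h a ha)

lemma closure_sing (x : Pt L) : closure ({x} : Set (Pt L)) = Set.Iic x := by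
  apply subset_antisymm
  · apply closure_minimal
    · rw [Set.singleton_subset_iff]
      exact Set.mem_Iic.mpr le_rfl
    · apply closed_of
      · intro u v huv hu
        exact huv.trans hu
      · intro j s hs h
        show (⟨j, s⟩ : Pt L) ≤ x
        by_cases hj : j = x.c
        · refine Or.inl ⟨hj, lim_le hs ?_⟩
          intro a ha
          rcases (h a ha : (⟨j, a⟩ : Pt L) ≤ x) with ⟨_, h2⟩ | ⟨h1, _⟩
          · exact h2
          · rw [h1]
            exact le_top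
        · obtain ⟨a₀, ha₀⟩ := hs.1
          have hxa : x.a = ⊤ := by
            rcases (h a₀ ha₀ : (⟨j, a₀⟩ : Pt L) ≤ x) with ⟨h1, _⟩ | ⟨h1, _⟩
            · exact absurd h1 hj
            · exact h1
          refine Or.inr ⟨hxa, lim_le hs ?_⟩
          intro a ha
          rcases (h a ha : (⟨j, a⟩ : Pt L) ≤ x) with ⟨h1, _⟩ | ⟨_, h2⟩
          · exact absurd h1 hj
          · exact h2
  · intro y hy
    rw [mem_closure_iff]
    intro U hU hyU
    exact ⟨x, open_upper hU hy hyU, rfl⟩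

lemma t0 : T0Space (Pt L) := by
  constructor
  intro x y h
  rw [inseparable_iff_closure_eq, closure_sing, closure_sing] at h
  exact Set.Iic_injective h

lemma fin_common {α β : Type} (𝒦 : Set (Set α)) (hdir : DirectedOn (· ⊇ ·) 𝒦)
    (f : Set α → Set β) (hmono : ∀ K K', K' ⊆ K → f K' ⊆ f K)
    (hne : ∀ K ∈ 𝒦, (f K).Nonempty) (hfin : ∃ K ∈ 𝒦, (f K).Finite) :
    ∃ b, ∀ K ∈ 𝒦, b ∈ f K := by
  have hex : ∃ n : ℕ, ∃ K ∈ 𝒦, (f K).Finite ∧ (f K).ncard = n := by
    obtain ⟨K, hK, hf⟩ := hfin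
    exact ⟨_, K, hK, hf, rfl⟩
  classical
  obtain ⟨K₁, hK₁, hf₁, hn₁⟩ := Nat.find_spec hex
  obtain ⟨b, hb⟩ := hne K₁ hK₁
  refine ⟨b, ?_⟩
  intro K hK
  obtain ⟨K₂, hK₂, h21, h2K⟩ := hdir K₁ hK₁ K hK
  have hsub : f K₂ ⊆ f K₁ := hmono _ _ h21
  have hf₂ : (f K₂).Finite := hf₁.subset hsub
  have hle : (f K₁).ncard ≤ (f K₂).ncard := by
    rw [hn₁]
    exact Nat.find_min' hex ⟨K₂, hK₂, hf₂, rfl⟩
  have heq : f K₂ = f K₁ := Set.eq_of_subset_of_ncard_le hsub hle hf₁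
  rw [← heq] at hb
  exact hmono _ _ h2K hb

theorem wellfiltered [WellFoundedLT L]
    (hcount : ∀ s : Set L, s.Countable → BddAbove s) (𝒦 : Set (Set (Pt L)))
    (hne : 𝒦.Nonempty) (hdir : DirectedOn (· ⊇ ·) 𝒦)
    (hK : ∀ K ∈ 𝒦, IsCompact K ∧ IsUpperSet K) (U : Set (Pt L)) (hU : IsOpen U)
    (hsub : ⋂₀ 𝒦 ⊆ U) : ∃ K ∈ 𝒦, K ⊆ U := by
  classical
  by_contra hcon
  push Not at hcon
  set C := Uᶜ with hC
  have hCc : IsClosed C := by
    rw [hC]
    exact hU.isClosed_compl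
  have hmeet : ∀ K ∈ 𝒦, (K ∩ C).Nonempty := by
    intro K hKm
    obtain ⟨x, hx, hxU⟩ := Set.not_subset.mp (hcon K hKm)
    exact ⟨x, hx, hxU⟩
  by_cases hA : ∃ K ∈ 𝒦, ∀ x ∈ K ∩ C, x.a = ⊤
  · obtain ⟨K₀, hK₀, hK₀top⟩ := hA
    have hcomp : IsCompact (K₀ ∩ C) := (hK K₀ hK₀).1.inter_right hCc
    have hS : {m : L | (⟨m, ⊤⟩ : Pt L) ∈ K₀ ∩ C}.Finite := by
      by_contra hinf
      have hinf' : {m : L | (⟨m, ⊤⟩ : Pt L) ∈ K₀ ∩ C}.Infinite := hinf
      let e : ℕ → L := fun n => (hinf'.natEmbedding _ n : L)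
      have he : ∀ n, (⟨e n, ⊤⟩ : Pt L) ∈ K₀ ∩ C := fun n => (hinf'.natEmbedding _ n).2
      have heinj : Function.Injective e := by
        intro m n hmn
        exact (hinf'.natEmbedding _).injective (Subtype.ext hmn)
      obtain ⟨β, hβ⟩ := hcount (Set.range e) (Set.countable_range e)
      have hβ' : ∀ n, e n ≤ β := fun n => hβ ⟨n, rfl⟩
      let T : ℕ → Set (Pt L) := fun n =>
        {x | x.a ≤ (β : WithTop L) ∨ ∃ m, m ≠ n ∧ x.c = e m}
      have hTc : ∀ n, IsClosed (T n) := by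
        intro n
        apply closed_of
        · intro x y hyx hx
          rcases hx with hx | ⟨m, hm, hx⟩
          · rcases hyx with ⟨_, h2⟩ | ⟨h1, _⟩
            · exact Or.inl (h2.trans hx)
            · rw [h1, top_le_iff] at hx
              exact absurd hx WithTop.coe_ne_top
          · rcases hyx with ⟨h1, _⟩ | ⟨_, h2⟩
            · exact Or.inr ⟨m, hm, by rw [h1, hx]⟩
            · refine Or.inl (h2.trans ?_)
              rw [hx]
              exact WithTop.coe_le_coe.mpr (hβ' m)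
        · intro j s hs h
          by_cases hj : ∃ m, m ≠ n ∧ j = e m
          · exact Or.inr hj
          · refine Or.inl (lim_le hs ?_)
            intro a ha
            rcases h a ha with h1 | h1
            · exact h1
            · exact absurd h1 hj
      obtain ⟨x, hx, hxT⟩ := hcomp.inter_iInter_nonempty T hTc (by
        intro u
        obtain ⟨m, hm⟩ := Infinite.exists_notMem_finset u
        refine ⟨⟨e m, ⊤⟩, he m, ?_⟩
        rw [Set.mem_iInter₂]
        intro n hn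
        refine Or.inr ⟨m, ?_, rfl⟩
        rintro rfl
        exact hm hn)
      rw [Set.mem_iInter] at hxT
      have hxa := hK₀top x hx
      have hx2 : ∀ n, ∃ m, m ≠ n ∧ x.c = e m := by
        intro n
        rcases hxT n with h1 | h1
        · rw [hxa, top_le_iff] at h1
          exact absurd h1 WithTop.coe_ne_top
        · exact h1
      obtain ⟨m₀, _, hm₀⟩ := hx2 0
      obtain ⟨m₁, hm₁, hm₁'⟩ := hx2 m₀
      exact hm₁ (heinj (by rw [← hm₁', hm₀]))
    have hfin : (K₀ ∩ C).Finite := by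
      apply (hS.image (fun m => (⟨m, ⊤⟩ : Pt L))).subset
      intro x hx
      have hxa := hK₀top x hx
      have hxe : (⟨x.c, ⊤⟩ : Pt L) = x := Pt.ext rfl hxa.symm
      refine ⟨x.c, ?_, hxe⟩
      show (⟨x.c, ⊤⟩ : Pt L) ∈ K₀ ∩ C
      rw [hxe]
      exact hx
    obtain ⟨b, hb⟩ := fin_common 𝒦 hdir (fun K => K ∩ C)
      (fun K K' h => Set.inter_subset_inter_left C h) hmeet ⟨K₀, hK₀, hfin⟩
    have hbU : b ∈ U := hsub (fun K hKm => (hb K hKm).1)
    exact (hb K₀ hK₀).2 hbU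
  · push Not at hA
    let f : Set (Pt L) → Set L := fun K => {j | ∃ a : L, (⟨j, (a : WithTop L)⟩ : Pt L) ∈ K ∩ C}
    have hfne : ∀ K ∈ 𝒦, (f K).Nonempty := by
      intro K hKm
      obtain ⟨x, hx, hxa⟩ := hA K hKm
      obtain ⟨a, ha⟩ := WithTop.ne_top_iff_exists.mp hxa
      refine ⟨x.c, a, ?_⟩
      have : (⟨x.c, (a : WithTop L)⟩ : Pt L) = x := Pt.ext rfl ha
      rw [this]
      exact hx
    have hffin : ∀ K ∈ 𝒦, (f K).Finite := by
      intro K hKm
      by_contra hinf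
      have hinf' : (f K).Infinite := hinf
      have hcomp : IsCompact (K ∩ C) := (hK K hKm).1.inter_right hCc
      have hg : ∀ j : L, ∃ a : L, j ∈ f K → (⟨j, (a : WithTop L)⟩ : Pt L) ∈ K ∩ C := by
        intro j
        by_cases hj : j ∈ f K
        · obtain ⟨a, ha⟩ := hj
          exact ⟨a, fun _ => ha⟩
        · exact ⟨j, fun h => absurd h hj⟩
      choose g hg using hg
      let T : L → Set (Pt L) := fun n => {x | x.c ∈ f K ∧ x.c ≠ n ∧ x.a ≤ (g x.c : WithTop L)}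
      have hTc : ∀ n, IsClosed (T n) := by
        intro n
        apply closed_of
        · rintro x y hyx ⟨hx1, hx2, hx3⟩
          rcases hyx with ⟨h1, h2⟩ | ⟨h1, _⟩
          · refine ⟨by rw [h1]; exact hx1, by rw [h1]; exact hx2, ?_⟩
            rw [h1]
            exact h2.trans hx3
          · rw [h1, top_le_iff] at hx3
            exact absurd hx3 WithTop.coe_ne_top
        · intro j s hs h
          obtain ⟨a₀, ha₀⟩ := hs.1
          obtain ⟨h1, h2, _⟩ := h a₀ ha₀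
          refine ⟨h1, h2, lim_le hs ?_⟩
          intro a ha
          exact (h a ha).2.2
      obtain ⟨x, hx, hxT⟩ := hcomp.inter_iInter_nonempty T hTc (by
        intro u
        obtain ⟨j, hj, hju⟩ := hinf'.exists_notMem_finset u
        refine ⟨⟨j, (g j : WithTop L)⟩, hg j hj, ?_⟩
        rw [Set.mem_iInter₂]
        intro n hn
        refine ⟨hj, ?_, le_rfl⟩
        rintro rfl
        exact hju hn)
      rw [Set.mem_iInter] at hxT
      exact (hxT x.c).2.1 rfl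
    have hfmono : ∀ K K', K' ⊆ K → f K' ⊆ f K := by
      rintro K K' h j ⟨a, ha⟩
      exact ⟨a, h ha.1, ha.2⟩
    obtain ⟨K₁, hK₁⟩ := hne
    obtain ⟨j, hj⟩ := fin_common 𝒦 hdir f hfmono hfne ⟨K₁, hK₁, hffin K₁ hK₁⟩
    obtain ⟨s, hs1, hs2⟩ := exists_lub {a : WithTop L | (⟨j, a⟩ : Pt L) ∈ C}
    have hsC : (⟨j, s⟩ : Pt L) ∈ C := by
      by_contra hsn
      have hlt : ∀ a : WithTop L, (⟨j, a⟩ : Pt L) ∈ C → a < s := by
        intro a ha
        refine lt_of_le_of_ne (hs1 a ha) ?_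
        rintro rfl
        exact hsn ha
      have hmid : ∀ a < s, ∃ b, a < b ∧ (⟨j, b⟩ : Pt L) ∈ C := by
        intro a ha
        by_contra hc
        push Not at hc
        have : s ≤ a := by
          apply hs2
          intro b hb
          by_contra hba
          exact hc b (not_le.mp hba) hb
        exact absurd this (not_le.mpr ha)
      apply hsn
      apply closed_lim hCc
      · refine ⟨?_, ?_⟩
        · obtain ⟨a, ha⟩ := hj K₁ hK₁
          exact ⟨a, hlt _ ha.2⟩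
        · intro a ha
          obtain ⟨b, hab, hb⟩ := hmid a ha
          exact ⟨b, hlt b hb, hab⟩
      · intro a ha
        obtain ⟨b, hab, hb⟩ := hmid a ha
        exact closed_lower hCc (le_same j hab.le) hb
    have hsU : (⟨j, s⟩ : Pt L) ∈ U := by
      apply hsub
      intro K hKm
      obtain ⟨a, ha⟩ := hj K hKm
      exact (hK K hKm).2 (le_same j (hs1 _ ha.2)) ha.1
    exact hsC hsU

/-- the first uncountable ordinal as a type -/
abbrev W : Type := (Cardinal.aleph 1).ord.ToType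

lemma countable_bdd (s : Set W) (hs : s.Countable) : BddAbove s := by
  by_contra hb
  have hall : ∀ y : W, ∃ x ∈ s, y ≤ x := by
    intro y
    by_contra hc
    push Not at hc
    exact hb ⟨y, fun x hx => (hc x hx).le⟩
  have huniv : (Set.univ : Set W) = ⋃ x ∈ s, Set.Iic x := by
    symm
    rw [Set.eq_univ_iff_forall]
    intro y
    obtain ⟨x, hx, hyx⟩ := hall y
    exact Set.mem_biUnion hx hyx
  have hc : ∀ x : W, (Set.Iic x).Countable := by
    intro x
    have h1 : (Set.Iio x).Countable := by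
      rw [Cardinal.countable_iff_lt_aleph_one]
      exact Cardinal.mk_Iio_toType_ord_lt x
    rw [← Set.Iio_insert]
    exact h1.insert x
  have h2 : (Set.univ : Set W).Countable := by
    rw [huniv]
    exact hs.biUnion (fun x _ => hc x)
  rw [Cardinal.countable_iff_lt_aleph_one, Cardinal.mk_univ, Cardinal.mk_toType,
    Cardinal.card_ord] at h2
  exact lt_irrefl _ h2

instance : NoMaxOrder W := Cardinal.noMaxOrder (Cardinal.aleph0_le_aleph 1)

instance : Nonempty W := by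
  by_contra h
  rw [not_nonempty_iff] at h
  have h2 : Cardinal.mk W = 0 := Cardinal.mk_eq_zero W
  rw [Cardinal.mk_toType, Cardinal.card_ord] at h2
  exact (Cardinal.aleph_pos 1).ne' h2

/-- There is a dcpo with a well-filtered T0 topology whose point closures are the principal down-sets, while no sober topology on it has point closures equal to the principal down-sets. -/
theorem result :
    ∃ (P : Type) (_ : PartialOrder P),
      (∀ d : Set P, d.Nonempty → DirectedOn (· ≤ ·) d → ∃ x : P, IsLUB d x) ∧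
      (∃ t : TopologicalSpace P,
        (∀ x : P, @closure P t {x} = Set.Iic x) ∧ @T0Space P t ∧
        (∀ 𝒦 : Set (Set P), 𝒦.Nonempty → DirectedOn (· ⊇ ·) 𝒦 →
          (∀ K ∈ 𝒦, @IsCompact P t K ∧ IsUpperSet K) →
          ∀ U : Set P, @IsOpen P t U → ⋂₀ 𝒦 ⊆ U → ∃ K ∈ 𝒦, K ⊆ U)) ∧
      ¬ ∃ t : TopologicalSpace P,
        (∀ x : P, @closure P t {x} = Set.Iic x) ∧ @T0Space P t ∧ @QuasiSober P t := by
  refine ⟨Pt W, inferInstance, dcpo, ⟨topo, closure_sing, t0, ?_⟩, ?_⟩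
  · exact wellfiltered countable_bdd
  · rintro ⟨t, h1, _, h2⟩
    exact not_sober t h1 h2

end Pool.Agent.S3269
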