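import Pool.Statements.S3273
import Pool.Agent.Helpers29.Sp5

set_option autoImplicit false
open Pool Pool.MP_c2bc14_gt

namespace Pool.Agent.S3273

open Set Topology Pool.Agent.Helpers29.Sp

lemma split_of {X : Type} [TopologicalSpace X]
    (h : ∀ A : Set X, ∃ (Y : Type) (tY : TopologicalSpace Y), CompactSpace Y ∧
        (∃ (κ : Type) (e : Y → κ → ℝ), Topology.IsEmbedding e ∧
          ∀ y, {i : κ | e y i ≠ 0}.Countable) ∧
        ∃ f : X → Y, Continuous f ∧ f ⁻¹' (f '' A) = A) : Split X := by
  intro A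
  obtain ⟨Y, tY, -, ⟨κ, e, he, hs⟩, f, hf, hfA⟩ := h A
  refine ⟨κ, fun x => e (f x), he.continuous.comp hf, fun x => hs (f x), fun x y hxy => ?_⟩
  have hfe : f x = f y := he.injective hxy
  rw [← hfA]
  simp only [mem_preimage, hfe]

/-- Suppose X is compact Hausdorff and every subset A of X equals f⁻¹(f(A)) for some continuous f from X to a Corson compactum. Then the same holds for every subset of X × X. -/
theorem result :
    ∀ (X : Type) [TopologicalSpace X] [CompactSpace X] [T2Space X],
      (∀ A : Set X, ∃ (Y : Type) (tY : TopologicalSpace Y), CompactSpace Y ∧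
        (∃ (κ : Type) (e : Y → κ → ℝ), Topology.IsEmbedding e ∧
          ∀ y, {i : κ | e y i ≠ 0}.Countable) ∧
        ∃ f : X → Y, Continuous f ∧ f ⁻¹' (f '' A) = A) →
      (∀ A : Set (X × X), ∃ (Y : Type) (tY : TopologicalSpace Y), CompactSpace Y ∧
        (∃ (κ : Type) (e : Y → κ → ℝ), Topology.IsEmbedding e ∧
          ∀ y, {i : κ | e y i ≠ 0}.Countable) ∧
        ∃ f : X × X → Y, Continuous f ∧ f ⁻¹' (f '' A) = A) := by
  intro X _ _ _ h A
  obtain ⟨Γ, φ, hφ, hs⟩ := corson_of_split (split_of h)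
  refine ⟨X × X, inferInstance, inferInstance, ⟨Γ ⊕ Γ, fun p => Sum.elim (φ p.1) (φ p.2), ?_, ?_⟩,
    id, continuous_id, by simp⟩
  · have hc : Continuous (fun p : X × X => (Sum.elim (φ p.1) (φ p.2) : Γ ⊕ Γ → ℝ)) := by
      refine continuous_pi ?_
      rintro (i | i)
      · exact (continuous_apply i).comp (hφ.continuous.comp continuous_fst)
      · exact (continuous_apply i).comp (hφ.continuous.comp continuous_snd)
    refine (hc.isClosedEmbedding ?_).isEmbedding
    rintro ⟨a, b⟩ ⟨c, d⟩ hab
    have h1 : φ a = φ c := funext fun i => congrFun hab (Sum.inl i)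
    have h2 : φ b = φ d := funext fun i => congrFun hab (Sum.inr i)
    rw [hφ.injective h1, hφ.injective h2]
  · intro p
    have h1 : (Sum.inl '' Function.support (φ p.1) : Set (Γ ⊕ Γ)).Countable := (hs _).image _
    have h2 : (Sum.inr '' Function.support (φ p.2) : Set (Γ ⊕ Γ)).Countable := (hs _).image _
    refine (h1.union h2).mono ?_
    rintro (i | i) hi
    · exact Or.inl ⟨i, hi, rfl⟩
    · exact Or.inr ⟨i, hi, rfl⟩

end Pool.Agent.S3273
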