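import Pool.Statements.S3312

set_option autoImplicit false
open Pool Pool.MP_d88d39_gt

namespace Pool.Agent.S3312

open Set Topology TopologicalSpace

/-- The Cantor set as a type. -/
abbrev C : Type := ℕ → Bool

/-- The set of coordinates. -/
abbrev Γ : Type := (ℕ → C) × C × C

theorem mk_C : Cardinal.mk C = Cardinal.continuum := by
  simp

theorem mk_Γ : Cardinal.mk Γ = Cardinal.continuum := by
  rw [Cardinal.mk_prod, Cardinal.mk_prod]
  simp only [Cardinal.lift_id]
  rw [mk_C, Cardinal.continuum_mul_self]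
  have : Cardinal.mk (ℕ → C) = Cardinal.continuum := by
    rw [← Cardinal.power_def, mk_C, Cardinal.mk_nat, Cardinal.continuum_power_aleph0]
  rw [this, Cardinal.continuum_mul_self]

theorem exists_equiv : Nonempty (C ≃ (ℕ → Γ) × C) := by
  rw [← Cardinal.eq, Cardinal.mk_prod, Cardinal.lift_id, Cardinal.lift_id, mk_C]
  have : Cardinal.mk (ℕ → Γ) = Cardinal.continuum := by
    rw [← Cardinal.power_def, mk_Γ, Cardinal.mk_nat, Cardinal.continuum_power_aleph0]
  rw [this, Cardinal.continuum_mul_self]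

theorem exists_inj : ∃ i : Γ → C, Function.Injective i := by
  obtain ⟨e⟩ : Nonempty (Γ ≃ C) := by rw [← Cardinal.eq, mk_C, mk_Γ]
  exact ⟨e, e.injective⟩

/-- an enumeration of requirements -/
noncomputable def e : C ≃ (ℕ → Γ) × C := Classical.choice exists_equiv

open Classical in
/-- The points. -/
noncomputable def xx (ξ : C) : Γ → Bool := fun γ =>
  if h : ∃ n, (e ξ).1 n = γ then (e ξ).2 h.choose
  else if h' : ∃ n, γ.1 n = ξ then γ.2.1 h'.choose else false

/-- The space. -/
abbrev X : Type := {y : Γ → Bool // y ∈ Set.range xx}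

theorem R1 (a : ℕ → Γ) (z : Γ → Bool) : ∃ x : X, ∀ n, x.1 (a n) = z (a n) := by
  refine ⟨⟨xx (e.symm (a, fun n => z (a n))), ⟨_, rfl⟩⟩, fun n => ?_⟩
  have h : ∃ m, (e (e.symm (a, fun n => z (a n)))).1 m = a n :=
    ⟨n, by rw [Equiv.apply_symm_apply]⟩
  change xx _ (a n) = _
  unfold xx
  rw [dif_pos h]
  have h2 := h.choose_spec
  generalize h.choose = m at h2 ⊢
  rw [Equiv.apply_symm_apply] at h2 ⊢
  change z (a m) = z (a n)
  change a m = a n at h2
  rw [h2]

theorem R1set (A : Set Γ) (hA : A.Countable) (z : Γ → Bool) : ∃ x : X, ∀ γ ∈ A, x.1 γ = z γ := by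
  rcases A.eq_empty_or_nonempty with rfl | hne
  · exact ⟨⟨xx (fun _ => false), ⟨_, rfl⟩⟩, fun γ hγ => absurd hγ (notMem_empty _)⟩
  · obtain ⟨a, rfl⟩ := hA.exists_eq_range hne
    obtain ⟨x, hx⟩ := R1 a z
    exact ⟨x, by rintro _ ⟨n, rfl⟩; exact hx n⟩

theorem C_not_countable : ¬ Countable C := by
  intro h
  have := Cardinal.mk_le_aleph0_iff.2 h
  rw [mk_C] at this
  exact absurd this (not_le.2 Cardinal.aleph0_lt_continuum)

theorem R2 (a : ℕ → X) (φ : X → Bool) : ∃ γ : Γ, ∀ n, (a n).1 γ = φ (a n) := by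
  choose σ hσ using fun x : X => x.2
  let b : ℕ → C := fun n => σ (a n)
  let ψ : C := fun n => φ (a n)
  let bad : Set Γ := ⋃ n, Set.range (e (b n)).1
  have hbad : bad.Countable := countable_iUnion fun n => countable_range _
  obtain ⟨δ, hδ⟩ : ∃ δ : C, (b, ψ, δ) ∉ bad := by
    by_contra hcon
    push Not at hcon
    have h1 : ((fun δ : C => ((b, ψ, δ) : Γ)) ⁻¹' bad).Countable :=
      hbad.preimage_of_injOn (fun x _ y _ h => by simpa using h)
    have h2 : ((fun δ : C => ((b, ψ, δ) : Γ)) ⁻¹' bad) = univ :=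
      eq_univ_of_forall hcon
    rw [h2, countable_univ_iff] at h1
    exact C_not_countable h1
  refine ⟨(b, ψ, δ), fun n => ?_⟩
  have hb : xx (b n) = (a n).1 := hσ (a n)
  rw [← hb]
  have h1 : ¬ ∃ m, (e (b n)).1 m = (b, ψ, δ) := by
    rintro ⟨m, hm⟩
    exact hδ (mem_iUnion.2 ⟨n, m, hm⟩)
  have h2 : ∃ m, b m = b n := ⟨n, rfl⟩
  unfold xx
  rw [dif_neg h1, dif_pos h2]
  have h3 := h2.choose_spec
  generalize h2.choose = m at h3 ⊢
  change φ (a m) = φ (a n)
  have h4 : (a m).1 = (a n).1 := by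
    rw [← hσ (a m), ← hσ (a n)]
    exact congrArg xx h3
  rw [Subtype.ext h4]

/-- Interpolation on countable sets. -/
theorem interp (a : ℕ → X) (v : X → ℝ) (N : ℝ) (hN : ∀ x, v x ∈ Icc (-N) N) :
    ∃ f : X → ℝ, Continuous f ∧ ∀ n, f (a n) = v (a n) := by
  have hne : Nonempty (Icc (-N) N) := ⟨⟨v (a 0), hN _⟩⟩
  obtain ⟨c, hc, hcs⟩ := exists_nat_bool_continuous_surjective_of_compact (Icc (-N) N)
  choose w hw using fun x : X => hcs ⟨v x, hN x⟩
  choose γ hγ using fun k : ℕ => R2 a (fun x => w x k)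
  refine ⟨fun x => (c (fun k => x.1 (γ k)) : ℝ), ?_, ?_⟩
  · refine continuous_subtype_val.comp (hc.comp ?_)
    exact continuous_pi fun k => (continuous_apply (γ k)).comp continuous_subtype_val
  · intro n
    have : (fun k => (a n).1 (γ k)) = w (a n) := by
      funext k
      exact hγ k n
    change (c (fun k => (a n).1 (γ k)) : ℝ) = _
    rw [this, hw]

/-- A countable dense set in a product of at most continuum many separable spaces. -/
theorem sep (T : Type) (i : T → C) (hi : Function.Injective i) (R : Type) [TopologicalSpace R]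
    [SeparableSpace R] [Nonempty R] :
    ∃ D : ℕ → T → R, (∀ U : Set (T → R), IsOpen U → U.Nonempty → ∃ n, D n ∈ U) ∧
      ∀ n, (Set.range (D n)).Finite := by
  classical
  let J : Type := Σ n : ℕ, ((Fin n → Bool) → ℕ)
  have : Nonempty J := ⟨⟨0, fun _ => 0⟩⟩
  obtain ⟨d, hd⟩ := exists_surjective_nat J
  let D : J → T → R := fun j t => denseSeq R (j.2 (fun k => i t k))
  refine ⟨fun n => D (d n), ?_, ?_⟩
  · intro U hU hne
    obtain ⟨y, hy⟩ := hne
    obtain ⟨I, u, hu, hIu⟩ := isOpen_pi_iff.1 hU y hy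
    have hk : ∀ t, ∃ k, t ∈ I → denseSeq R k ∈ u t := by
      intro t
      by_cases ht : t ∈ I
      · obtain ⟨h1, h2⟩ := hu t ht
        obtain ⟨k, hk⟩ := (denseRange_denseSeq R).exists_mem_open h1 ⟨_, h2⟩
        exact ⟨k, fun _ => hk⟩
      · exact ⟨0, fun h => absurd h ht⟩
    choose k hk using hk
    -- separate the points of `I`
    have hm : ∀ s t : T, ∃ m, s ≠ t → i s m ≠ i t m := by
      intro s t
      by_cases hst : s = t
      · exact ⟨0, fun h => absurd hst h⟩
      · have : i s ≠ i t := fun h => hst (hi h)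
        obtain ⟨m, hm⟩ := Function.ne_iff.1 this
        exact ⟨m, fun _ => hm⟩
    choose m hm using hm
    let n : ℕ := (I ×ˢ I).sup (fun p => m p.1 p.2) + 1
    have hn : ∀ s ∈ I, ∀ t ∈ I, (fun k : Fin n => i s k) = (fun k : Fin n => i t k) → s = t := by
      intro s hs t ht h
      by_contra hne
      have h1 : m s t < n := Nat.lt_succ_of_le
        (Finset.le_sup (f := fun p : T × T => m p.1 p.2) (Finset.mk_mem_product hs ht))
      exact hm s t hne (congrFun h ⟨m s t, h1⟩)
    let P : (Fin n → Bool) → ℕ := fun s =>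
      if h : ∃ t ∈ I, (fun k : Fin n => i t k) = s then k h.choose else 0
    obtain ⟨l, hl⟩ := hd ⟨n, P⟩
    refine ⟨l, ?_⟩
    change D (d l) ∈ U
    rw [hl]
    apply hIu
    intro t ht
    have h : ∃ t' ∈ I, (fun k : Fin n => i t' k) = (fun k : Fin n => i t k) := ⟨t, ht, rfl⟩
    have h1 : h.choose = t := hn _ h.choose_spec.1 _ ht h.choose_spec.2
    change denseSeq R (P (fun k : Fin n => i t k)) ∈ u t
    have h2 : P (fun k : Fin n => i t k) = k t := by
      change (if h : ∃ t' ∈ I, (fun k : Fin n => i t' k) = (fun k : Fin n => i t k)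
        then k h.choose else 0) = k t
      rw [dif_pos h, h1]
    rw [h2]
    exact hk t ht
  · intro n
    apply Set.Finite.subset (Set.finite_range (fun s : Fin (d n).1 → Bool =>
      denseSeq R ((d n).2 s)))
    rintro _ ⟨t, rfl⟩
    exact ⟨_, rfl⟩

/-- Every point-finite family of nonempty open sets of `C_p(X)` is countable. -/
theorem partA (𝒰 : Set (Set {f : X → ℝ // Continuous f}))
    (hU : ∀ U ∈ 𝒰, IsOpen U ∧ U.Nonempty)
    (hfin : ∀ y : {f : X → ℝ // Continuous f}, {U | U ∈ 𝒰 ∧ y ∈ U}.Finite) :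
    𝒰.Countable := by
  classical
  choose σ hσ using fun x : X => x.2
  have hσi : Function.Injective σ := by
    intro x y h
    apply Subtype.ext
    rw [← hσ x, ← hσ y, h]
  obtain ⟨D, hD, hDfin⟩ := sep X σ hσi ℝ
  have hV : ∀ U : 𝒰, ∃ V : Set (X → ℝ), IsOpen V ∧ Subtype.val ⁻¹' V = U.1 := by
    intro U
    exact isOpen_induced_iff.1 (hU U.1 U.2).1
  choose V hVo hVU using hV
  have hDn : ∀ U : 𝒰, ∃ n, D n ∈ V U := by
    intro U
    obtain ⟨f, hf⟩ := (hU U.1 U.2).2
    rw [← hVU U] at hf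
    exact hD (V U) (hVo U) ⟨f.1, hf⟩
  choose n hn using hDn
  by_contra hcount
  have hunc : ¬ Countable 𝒰 := hcount
  -- pigeonhole
  have hfib : ∃ k, ¬ (n ⁻¹' {k}).Finite := by
    by_contra hcon
    push Not at hcon
    apply hunc
    have h1 : (⋃ k, n ⁻¹' {k}) = (univ : Set 𝒰) := by
      ext U; simp
    have h2 : (univ : Set 𝒰).Countable := by
      rw [← h1]
      exact countable_iUnion fun k => (hcon k).countable
    exact countable_univ_iff.1 h2
  obtain ⟨k, hk⟩ := hfib
  have hinf : (n ⁻¹' {k}).Infinite := hk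
  let s : ℕ → 𝒰 := fun m => (hinf.natEmbedding _ m).1
  have hs : Function.Injective s := by
    intro m m' h
    exact (hinf.natEmbedding _).injective (Subtype.ext h)
  have hsk : ∀ m, n (s m) = k := fun m => (hinf.natEmbedding _ m).2
  have hF : ∀ m, ∃ F : Finset X, ∀ g : X → ℝ, (∀ x ∈ F, g x = D k x) → g ∈ V (s m) := by
    intro m
    have h1 := hn (s m)
    rw [hsk m] at h1
    obtain ⟨I, u, hu, hIu⟩ := isOpen_pi_iff.1 (hVo (s m)) _ h1
    refine ⟨I, fun g hg => hIu ?_⟩
    intro x hx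
    rw [hg x hx]
    exact (hu x hx).2
  choose F hF using hF
  let x0 : X := ⟨xx (fun _ => false), ⟨_, rfl⟩⟩
  have hcA : (insert x0 (⋃ m, (F m : Set X))).Countable :=
    (countable_iUnion fun m => (F m).countable_toSet).insert _
  obtain ⟨a, ha⟩ := hcA.exists_eq_range ⟨x0, mem_insert _ _⟩
  -- boundedness
  obtain ⟨N, hN⟩ : ∃ N : ℝ, ∀ x, D k x ∈ Icc (-N) N := by
    obtain ⟨N, hN⟩ := (hDfin k).isBounded.exists_norm_le
    refine ⟨N, fun x => ?_⟩
    have := hN _ ⟨x, rfl⟩
    rw [Real.norm_eq_abs, abs_le] at this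
    exact this
  obtain ⟨f, hf, hfa⟩ := interp a (D k) N hN
  have hmem : ∀ m, (⟨f, hf⟩ : {f : X → ℝ // Continuous f}) ∈ (s m).1 := by
    intro m
    rw [← hVU (s m)]
    apply hF m
    intro x hx
    have : x ∈ Set.range a := by
      rw [← ha]
      exact Or.inr (mem_iUnion.2 ⟨m, hx⟩)
    obtain ⟨l, rfl⟩ := this
    exact hfa l
  have h1 := hfin ⟨f, hf⟩
  have h2 : (Set.range (fun m => (s m).1)).Finite := by
    apply h1.subset
    rintro _ ⟨m, rfl⟩
    exact ⟨(s m).2, hmem m⟩
  have h3 : Function.Injective (fun m => (s m).1) := fun m m' h => hs (Subtype.ext h)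
  exact (Set.infinite_range_of_injective h3) h2

/-- Basic neighbourhoods in `Γ → Bool`. -/
theorem basic (U : Set (Γ → Bool)) (hU : IsOpen U) (y : Γ → Bool) (hy : y ∈ U) :
    ∃ F : Finset Γ, ∀ y' : Γ → Bool, (∀ γ ∈ F, y' γ = y γ) → y' ∈ U := by
  obtain ⟨I, u, hu, hIu⟩ := isOpen_pi_iff.1 hU y hy
  refine ⟨I, fun g hg => hIu ?_⟩
  intro x hx
  rw [hg x hx]
  exact (hu x hx).2

theorem basic_open (F : Finset Γ) (y : Γ → Bool) : IsOpen {y' : Γ → Bool | ∀ γ ∈ F, y' γ = y γ} := by
  have : {y' : Γ → Bool | ∀ γ ∈ F, y' γ = y γ} = ⋂ γ ∈ F, (fun y' : Γ → Bool => y' γ) ⁻¹' {y γ} := by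
    ext y'; simp
  rw [this]
  apply isOpen_biInter_finset
  intro γ _
  exact (isOpen_discrete _).preimage (continuous_apply γ)

theorem X_dense (U : Set (Γ → Bool)) (hU : IsOpen U) (hne : U.Nonempty) : ∃ x : X, x.1 ∈ U := by
  obtain ⟨y, hy⟩ := hne
  obtain ⟨F, hF⟩ := basic U hU y hy
  obtain ⟨x, hx⟩ := R1set F F.countable_toSet y
  exact ⟨x, hF _ hx⟩

/-- Closures of open sets depend on countably many coordinates. -/
theorem lemC (U : Set (Γ → Bool)) (hU : IsOpen U) : ∃ A : Set Γ, A.Countable ∧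
    ∀ x y : Γ → Bool, x ∈ closure U → (∀ γ ∈ A, x γ = y γ) → y ∈ closure U := by
  classical
  obtain ⟨i, hi⟩ := exists_inj
  obtain ⟨D, hD, -⟩ := sep Γ i hi Bool
  have hF : ∀ n, ∃ F : Finset Γ, D n ∈ U → ∀ y' : Γ → Bool, (∀ γ ∈ F, y' γ = D n γ) → y' ∈ U := by
    intro n
    by_cases h : D n ∈ U
    · obtain ⟨F, hF⟩ := basic U hU _ h
      exact ⟨F, fun _ => hF⟩
    · exact ⟨∅, fun h' => absurd h' h⟩
  choose I hI using hF
  refine ⟨⋃ n, (I n : Set Γ), countable_iUnion fun n => (I n).countable_toSet, ?_⟩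
  intro x y hx hxy
  by_contra hy
  obtain ⟨F, hF⟩ := basic (closure U)ᶜ isClosed_closure.isOpen_compl y hy
  let F' : Finset Γ := F.filter (fun γ => γ ∈ ⋃ n, (I n : Set Γ))
  have hW := basic_open F' x
  have hxW : x ∈ {y' : Γ → Bool | ∀ γ ∈ F', y' γ = x γ} := fun _ _ => rfl
  have hne : ({y' : Γ → Bool | ∀ γ ∈ F', y' γ = x γ} ∩ U).Nonempty :=
    mem_closure_iff.1 hx _ hW hxW
  obtain ⟨n, hn1, hn2⟩ := hD _ (hW.inter hU) hne
  let y' : Γ → Bool := fun γ => if γ ∈ F then y γ else D n γ
  have h1 : y' ∈ (closure U)ᶜ := by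
    apply hF
    intro γ hγ
    simp [y', hγ]
  have h2 : y' ∈ U := by
    apply hI n hn2
    intro γ hγ
    by_cases hγF : γ ∈ F
    · have h3 : γ ∈ ⋃ n, (I n : Set Γ) := mem_iUnion.2 ⟨n, hγ⟩
      have h4 := hn1 γ (Finset.mem_filter.2 ⟨hγF, h3⟩)
      simp only [y', if_pos hγF]
      rw [h4]
      exact (hxy γ h3).symm
    · simp [y', hγF]
  exact h1 (subset_closure h2)

/-- Continuous functions on `X` extend to the cube. -/
theorem factor (f : X → ℝ) (hf : Continuous f) : ∃ h : (Γ → Bool) → ℝ, Continuous h ∧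
    (∀ x : X, h x.1 = f x) ∧ ∀ y, ∃ x : X, h y = f x := by
  classical
  have hU : ∀ q : ℚ, ∃ U : Set (Γ → Bool), IsOpen U ∧ Subtype.val ⁻¹' U = {x : X | f x < q} := by
    intro q
    exact isOpen_induced_iff.1 (isOpen_lt hf continuous_const)
  choose U hUo hUf using hU
  have hV : ∀ q : ℚ, ∃ V : Set (Γ → Bool), IsOpen V ∧ Subtype.val ⁻¹' V = {x : X | q < f x} := by
    intro q
    exact isOpen_induced_iff.1 (isOpen_lt continuous_const hf)
  choose V hVo hVf using hV
  choose A hAc hA using fun q => lemC (U q) (hUo q)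
  let B : Set Γ := ⋃ q, A q
  have hBc : B.Countable := countable_iUnion hAc
  have key : ∀ x y : X, (∀ γ ∈ B, x.1 γ = y.1 γ) → ¬ f x < f y := by
    intro x y hxy hlt
    obtain ⟨q, hq1, hq2⟩ := exists_rat_btwn hlt
    have hx : x.1 ∈ U q := by
      have : x ∈ Subtype.val ⁻¹' U q := by rw [hUf]; exact hq1
      exact this
    have hy : y.1 ∈ V q := by
      have : y ∈ Subtype.val ⁻¹' V q := by rw [hVf]; exact hq2
      exact this
    have hy2 : y.1 ∈ closure (U q) :=
      hA q x.1 y.1 (subset_closure hx) (fun γ hγ => hxy γ (mem_iUnion.2 ⟨q, hγ⟩))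
    have hne : (V q ∩ U q).Nonempty := mem_closure_iff.1 hy2 _ (hVo q) hy
    obtain ⟨z, hz1, hz2⟩ := X_dense _ ((hVo q).inter (hUo q)) hne
    have h1 : z ∈ Subtype.val ⁻¹' U q := hz2
    have h2 : z ∈ Subtype.val ⁻¹' V q := hz1
    rw [hUf] at h1
    rw [hVf] at h2
    exact lt_asymm (show f z < q from h1) h2
  have key2 : ∀ x y : X, (∀ γ ∈ B, x.1 γ = y.1 γ) → f x = f y := by
    intro x y hxy
    apply le_antisymm
    · exact not_lt.1 (key y x (fun γ hγ => (hxy γ hγ).symm))
    · exact not_lt.1 (key x y hxy)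
  choose r hr using fun y : Γ → Bool => R1set B hBc y
  refine ⟨fun y => f (r y), ?_, ?_, fun y => ⟨r y, rfl⟩⟩
  · rw [continuous_iff_continuousAt]
    intro y
    rw [Metric.continuousAt_iff']
    intro ε hε
    have hWo : IsOpen {x' : X | dist (f x') (f (r y)) < ε} :=
      isOpen_lt (hf.dist continuous_const) continuous_const
    obtain ⟨W, hW, hWf⟩ := isOpen_induced_iff.1 hWo
    have hyW : (r y).1 ∈ W := by
      have : r y ∈ Subtype.val ⁻¹' W := by
        rw [hWf]
        change dist _ _ < ε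
        rw [dist_self]; exact hε
      exact this
    obtain ⟨S, hS⟩ := basic W hW _ hyW
    let S' : Finset Γ := S.filter (fun γ => γ ∈ B)
    have hmem : {y' : Γ → Bool | ∀ γ ∈ S', y' γ = y γ} ∈ 𝓝 y :=
      (basic_open S' y).mem_nhds (fun _ _ => rfl)
    filter_upwards [hmem] with y' hy'
    obtain ⟨x', hx'⟩ := R1set (B ∪ S) (hBc.union S.countable_toSet)
      (fun γ => if γ ∈ B then y' γ else (r y).1 γ)
    have h1 : f (r y') = f x' := by
      apply key2
      intro γ hγ
      rw [hr y' γ hγ, hx' γ (Or.inl hγ), if_pos hγ]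
    have h2 : x'.1 ∈ W := by
      apply hS
      intro γ hγ
      rw [hx' γ (Or.inr hγ)]
      by_cases hγB : γ ∈ B
      · rw [if_pos hγB, hy' γ (Finset.mem_filter.2 ⟨hγ, hγB⟩), hr y γ hγB]
      · rw [if_neg hγB]
    have h3 : x' ∈ Subtype.val ⁻¹' W := h2
    rw [hWf] at h3
    rw [h1]
    exact h3
  · intro x
    exact key2 _ _ (fun γ hγ => hr x.1 γ hγ)

theorem Γ_not_countable : ¬ Countable Γ := by
  intro h
  have := Cardinal.mk_le_aleph0_iff.2 h
  rw [mk_Γ] at this
  exact absurd this (not_le.2 Cardinal.aleph0_lt_continuum)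

/-- The projection from the Stone-Čech compactification. -/
noncomputable def q : StoneCech X → (Γ → Bool) :=
  stoneCechExtend (continuous_subtype_val : Continuous (Subtype.val : X → (Γ → Bool)))

theorem q_cont : Continuous q := continuous_stoneCechExtend _

theorem q_unit (x : X) : q (stoneCechUnit x) = x.1 := stoneCechExtend_stoneCechUnit _ x

theorem q_surj (y : Γ → Bool) : ∃ p, q p = y := by
  have h1 : IsClosed (Set.range q) := (isCompact_range q_cont).isClosed
  by_contra hcon
  have hy : y ∈ (Set.range q)ᶜ := hcon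
  obtain ⟨x, hx⟩ := X_dense _ h1.isOpen_compl ⟨y, hy⟩
  exact hx ⟨stoneCechUnit x, q_unit x⟩

theorem ext_real {g h : StoneCech X → ℝ} (hg : Continuous g) (hh : Continuous h)
    (he : ∀ x : X, g (stoneCechUnit x) = h (stoneCechUnit x)) : g = h := by
  apply DenseRange.equalizer (denseRange_stoneCechUnit (α := X)) hg hh
  funext x
  exact he x

theorem all_mem (p : StoneCech X) : ∀ (g : X → Set.Icc (-1 : ℝ) 1) (hg : Continuous g),
    (∀ x, ((g x : ℝ)) ∈ Set.Ioo (-1 : ℝ) 1) →
    ((stoneCechExtend hg p : Set.Icc (-1 : ℝ) 1) : ℝ) ∈ Set.Ioo (-1 : ℝ) 1 := by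
  intro g hg hgi
  obtain ⟨h, hc, hx, hy⟩ := factor (fun x => (g x : ℝ)) (continuous_subtype_val.comp hg)
  have h1 : (fun p => ((stoneCechExtend hg p : Set.Icc (-1 : ℝ) 1) : ℝ)) = fun p => h (q p) := by
    apply ext_real
    · exact continuous_subtype_val.comp (continuous_stoneCechExtend hg)
    · exact hc.comp q_cont
    · intro x
      rw [stoneCechExtend_stoneCechUnit, q_unit, hx]
  have h2 := congrFun h1 p
  obtain ⟨x, hxx⟩ := hy (q p)
  change ((stoneCechExtend hg p : Set.Icc (-1 : ℝ) 1) : ℝ) = h (q p) at h2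
  rw [h2, hxx]
  exact hgi x

/-- The negation of the preceding statement: For every Tychonoff space X: if every point-finite family of nonempty open sets in C_p(X) is countable, then the same holds for C_p of the Hewitt realcompactification of X, taken as a subspace of the Stone–Čech compactification. -/
theorem result :
    ¬ (∀ (X : Type) [TopologicalSpace X] [T35Space X],
      (∀ 𝒰 : Set (Set {f : X → ℝ // Continuous f}),
          (∀ U ∈ 𝒰, IsOpen U ∧ U.Nonempty) →
          (∀ y : {f : X → ℝ // Continuous f}, {U | U ∈ 𝒰 ∧ y ∈ U}.Finite) →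
          𝒰.Countable) →
      (∀ 𝒰 : Set (Set {f : {p : StoneCech X //
              ∀ (g : X → Set.Icc (-1 : ℝ) 1) (hg : Continuous g),
                (∀ x, ((g x : ℝ)) ∈ Set.Ioo (-1 : ℝ) 1) →
                ((stoneCechExtend hg p : Set.Icc (-1 : ℝ) 1) : ℝ) ∈ Set.Ioo (-1 : ℝ) 1}
              → ℝ // Continuous f}),
          (∀ U ∈ 𝒰, IsOpen U ∧ U.Nonempty) →
          (∀ y, {U | U ∈ 𝒰 ∧ y ∈ U}.Finite) →
          𝒰.Countable)) := by
  classical
  intro H
  have H1 := H X partA
  let V : Type := {p : StoneCech X //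
              ∀ (g : X → Set.Icc (-1 : ℝ) 1) (hg : Continuous g),
                (∀ x, ((g x : ℝ)) ∈ Set.Ioo (-1 : ℝ) 1) →
                ((stoneCechExtend hg p : Set.Icc (-1 : ℝ) 1) : ℝ) ∈ Set.Ioo (-1 : ℝ) 1}
  choose r hr using q_surj
  let pt : (Γ → Bool) → V := fun y => ⟨r y, all_mem (r y)⟩
  let O : Γ → Set {f : V → ℝ // Continuous f} := fun γ =>
    {F | 1 < F.1 (pt (fun γ' => decide (γ' = γ))) ∧ F.1 (pt (fun _ => false)) < 0}
  -- the coordinate functions
  let G : Γ → {f : V → ℝ // Continuous f} := fun γ =>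
    ⟨fun v => if q v.1 γ = true then 2 else -1, by
      have h1 : Continuous (fun b : Bool => if b = true then (2 : ℝ) else -1) :=
        continuous_of_discreteTopology
      exact h1.comp ((continuous_apply γ).comp (q_cont.comp continuous_subtype_val))⟩
  have hG : ∀ γ, G γ ∈ O γ := by
    intro γ
    constructor
    · change 1 < if q (r _) γ = true then (2 : ℝ) else -1
      rw [hr]; simp
    · change (if q (r _) γ = true then (2 : ℝ) else -1) < 0
      rw [hr]; simp
  have hOinj : Function.Injective O := by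
    intro γ γ' h
    by_contra hne
    have h1 : G γ ∈ O γ' := by rw [← h]; exact hG γ
    have h2 := h1.1
    change 1 < (if q (r _) γ = true then (2 : ℝ) else -1) at h2
    rw [hr] at h2
    simp [hne] at h2
    norm_num at h2
  have H2 := H1 (Set.range O) (by
    rintro _ ⟨γ, rfl⟩
    refine ⟨?_, ⟨G γ, hG γ⟩⟩
    apply IsOpen.inter
    · exact isOpen_lt continuous_const ((continuous_apply _).comp continuous_subtype_val)
    · exact isOpen_lt ((continuous_apply _).comp continuous_subtype_val) continuous_const) (by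
    intro F
    -- factor `F`
    let f : X → ℝ := fun x => F.1 ⟨stoneCechUnit x, all_mem _⟩
    have hf : Continuous f :=
      F.2.comp (Continuous.subtype_mk continuous_stoneCechUnit _)
    obtain ⟨h, hc, hx, -⟩ := factor f hf
    have hF : ∀ v : V, F.1 v = h (q v.1) := by
      intro v
      have h1 : (fun p : StoneCech X => F.1 ⟨p, all_mem p⟩) = fun p => h (q p) := by
        apply ext_real
        · exact F.2.comp (Continuous.subtype_mk continuous_id _)
        · exact hc.comp q_cont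
        · intro x
          change f x = h (q (stoneCechUnit x))
          rw [q_unit, hx]
      exact congrFun h1 v.1
    by_cases h0 : h (fun _ => false) < 0
    · obtain ⟨S, hS⟩ := basic {y | h y < 0} (isOpen_lt hc continuous_const) _ h0
      apply Set.Finite.subset (S.finite_toSet.image O)
      rintro _ ⟨⟨γ, rfl⟩, hγ⟩
      refine ⟨γ, ?_, rfl⟩
      by_contra hγS
      have h1 := hγ.1
      rw [hF] at h1
      change 1 < h (q (r _)) at h1
      rw [hr] at h1
      have h2 : h (fun γ' => decide (γ' = γ)) < 0 := by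
        apply hS
        intro γ' hγ'
        have : γ' ≠ γ := by
          rintro rfl
          exact hγS hγ'
        simp [this]
      linarith
    · convert Set.finite_empty
      rw [Set.eq_empty_iff_forall_notMem]
      rintro _ ⟨⟨γ, rfl⟩, hγ⟩
      apply h0
      have h1 := hγ.2
      rw [hF] at h1
      change h (q (r _)) < 0 at h1
      rwa [hr] at h1)
  have h3 : Countable Γ := by
    have h4 : Countable (Set.range O) := H2
    exact (Equiv.ofInjective O hOinj).countable_iff.2 h4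
  exact Γ_not_countable h3

end Pool.Agent.S3312
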