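import Pool.Statements.S3325

set_option autoImplicit false
open Pool Pool.MP_dacbbd_gt

namespace Pool.Agent.S3325

open Set Topology Filter

structure St (X : Type) where
  V : Set X
  h : List X

def Dec {X : Type} (V C : Set X) : Prop := Disjoint V C ∨ V ⊆ C

def Child {X : Type} [TopologicalSpace X] (e : Set X → ℕ → Set X) (s s' : St X) : Prop :=
  IsOpen s'.V ∧ s'.V.Nonempty ∧ closure s'.V ⊆ s.V ∧ ∃ x ∈ s.V, s'.h = x :: s.h ∧
    ∀ t : List X, t <:+ s'.h → ∀ j ≤ s'.h.length, Dec s'.V (closure (e {y | y ∈ t} j))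

theorem shrink {X : Type} [TopologicalSpace X] (C : Set (Set X)) (hC : C.Finite)
    (hcl : ∀ c ∈ C, IsClosed c) :
    ∀ W : Set X, IsOpen W → W.Nonempty → ∃ V ⊆ W, IsOpen V ∧ V.Nonempty ∧ ∀ c ∈ C, Dec V c := by
  induction C, hC using Set.Finite.induction_on with
  | empty => intro W hW hne; exact ⟨W, Subset.rfl, hW, hne, by simp⟩
  | @insert a C _ _ ih =>
    intro W hW hne
    obtain ⟨V, hVW, hV, hVne, hdec⟩ := ih (fun c hc => hcl c (mem_insert_of_mem _ hc)) W hW hne
    by_cases h : V ⊆ a
    · refine ⟨V, hVW, hV, hVne, ?_⟩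
      intro c hc
      rcases hc with rfl | hc
      · exact Or.inr h
      · exact hdec c hc
    · have hne' : (V \ a).Nonempty := by
        obtain ⟨x, hx, hxa⟩ := Set.not_subset.mp h
        exact ⟨x, hx, hxa⟩
      refine ⟨V \ a, sdiff_subset.trans hVW, hV.sdiff (hcl a (mem_insert _ _)), hne', ?_⟩
      intro c hc
      rcases hc with rfl | hc
      · exact Or.inl disjoint_sdiff_left
      · rcases hdec c hc with h1 | h1
        · exact Or.inl (h1.mono_left sdiff_subset)
        · exact Or.inr (sdiff_subset.trans h1)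

theorem exists_child {X : Type} [TopologicalSpace X] [CompactSpace X] [T2Space X]
    (e : Set X → ℕ → Set X) (s : St X) (W : Set X) (hW : IsOpen W) (hne : W.Nonempty)
    (hWs : W ⊆ s.V) : ∃ s', Child e s s' ∧ s'.V ⊆ W := by
  obtain ⟨x, hx⟩ := hne
  obtain ⟨K, hK, hKc, hKW⟩ := exists_mem_nhds_isClosed_subset (hW.mem_nhds hx)
  have hfin : {c : Set X | ∃ t : List X, t <:+ (x :: s.h) ∧
      ∃ j ≤ (x :: s.h).length, c = closure (e {y | y ∈ t} j)}.Finite := by
    have h1 : {t : List X | t <:+ (x :: s.h)}.Finite := by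
      refine (List.finite_toSet (x :: s.h).tails).subset ?_
      intro t ht
      exact (List.mem_tails t _).mpr ht
    have h2 : {j : ℕ | j ≤ (x :: s.h).length}.Finite := Set.finite_Iic _
    refine ((h1.prod h2).image (fun p : List X × ℕ => closure (e {y | y ∈ p.1} p.2))).subset ?_
    rintro c ⟨t, ht, j, hj, rfl⟩
    exact ⟨(t, j), ⟨ht, hj⟩, rfl⟩
  obtain ⟨V, hVK, hV, hVne, hdec⟩ := shrink _ hfin (by
    rintro c ⟨t, ht, j, hj, rfl⟩; exact isClosed_closure) (interior K) isOpen_interior
    ⟨x, mem_interior_iff_mem_nhds.mpr hK⟩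
  have hVK' : closure V ⊆ K := hKc.closure_subset_iff.mpr (hVK.trans interior_subset)
  refine ⟨⟨V, x :: s.h⟩, ⟨hV, hVne, (hVK'.trans hKW).trans hWs, x, hWs hx, rfl, ?_⟩,
    (subset_closure.trans hVK').trans hKW⟩
  intro t ht j hj
  exact hdec _ ⟨t, ht, j, hj, rfl⟩

theorem exists_max {X : Type} [TopologicalSpace X] [CompactSpace X] [T2Space X]
    (e : Set X → ℕ → Set X) (s : St X) :
    ∃ F : Set (St X), (∀ s' ∈ F, Child e s s') ∧ F.PairwiseDisjoint St.V ∧
      ∀ W : Set X, IsOpen W → W.Nonempty → W ⊆ s.V → ∃ s' ∈ F, (s'.V ∩ W).Nonempty := by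
  obtain ⟨F, hF⟩ := zorn_subset {F : Set (St X) | (∀ s' ∈ F, Child e s s') ∧
    F.PairwiseDisjoint St.V} (by
    intro c hc hchain
    refine ⟨⋃₀ c, ⟨?_, ?_⟩, fun F hF => subset_sUnion_of_mem hF⟩
    · rintro s' ⟨F, hF, hs'⟩
      exact (hc hF).1 s' hs'
    · rw [Set.PairwiseDisjoint, Set.Pairwise]
      rintro a ⟨F, hF, ha⟩ b ⟨G, hG, hb⟩ hab
      rcases hchain.total hF hG with h | h
      · exact (hc hG).2 (h ha) hb hab
      · exact (hc hF).2 ha (h hb) hab)
  refine ⟨F, hF.prop.1, hF.prop.2, ?_⟩
  intro W hW hne hWs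
  by_contra hcon
  push Not at hcon
  obtain ⟨s', hs', hs'W⟩ := exists_child e s W hW hne hWs
  have hdisj : ∀ f ∈ F, Disjoint f.V s'.V := by
    intro f hf
    rw [Set.disjoint_iff_inter_eq_empty]
    have := hcon f hf
    exact Set.subset_empty_iff.mp (this ▸ Set.inter_subset_inter_right _ hs'W)
  have hins : insert s' F ∈ {F : Set (St X) | (∀ s' ∈ F, Child e s s') ∧
      F.PairwiseDisjoint St.V} := by
    refine ⟨?_, ?_⟩
    · intro a ha
      rcases ha with rfl | ha
      · exact hs'
      · exact hF.prop.1 a ha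
    · refine hF.prop.2.insert ?_
      intro f hf _
      exact (hdisj f hf).symm
  have := hF.le_of_ge hins (subset_insert _ _)
  have hmem : s' ∈ F := this (mem_insert _ _)
  have h1 := hdisj s' hmem
  rw [disjoint_self] at h1
  exact hs'.2.1.ne_empty h1

section main

variable {X : Type} [TopologicalSpace X] [CompactSpace X] [T2Space X]
  (e : Set X → ℕ → Set X)

noncomputable def M (s : St X) : Set (St X) := (exists_max e s).choose

theorem M_child {s s' : St X} (h : s' ∈ M e s) : Child e s s' :=
  (exists_max e s).choose_spec.1 s' h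

theorem M_disj (s : St X) : (M e s).PairwiseDisjoint St.V :=
  (exists_max e s).choose_spec.2.1

theorem M_dense (s : St X) (W : Set X) (hW : IsOpen W) (hne : W.Nonempty) (hs : W ⊆ s.V) :
    ∃ s' ∈ M e s, (s'.V ∩ W).Nonempty :=
  (exists_max e s).choose_spec.2.2 W hW hne hs

noncomputable def L : ℕ → Set (St X)
  | 0 => {⟨univ, []⟩}
  | n + 1 => ⋃ s ∈ L n, M e s

theorem L_open : ∀ n, ∀ s ∈ L e n, IsOpen s.V := by
  intro n
  cases n with
  | zero => intro s hs; rw [L, mem_singleton_iff] at hs; subst hs; exact isOpen_univ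
  | succ n =>
    intro s hs
    rw [L] at hs
    simp only [mem_iUnion] at hs
    obtain ⟨s0, _, hs⟩ := hs
    exact (M_child e hs).1

theorem L_disj : ∀ n, (L e n).PairwiseDisjoint St.V := by
  intro n
  induction n with
  | zero => rw [L]; exact pairwiseDisjoint_singleton _ _
  | succ n ih =>
    rw [L]
    intro a ha b hb hab
    simp only [mem_iUnion] at ha hb
    obtain ⟨s, hs, ha⟩ := ha
    obtain ⟨t, ht, hb⟩ := hb
    by_cases hst : s = t
    · subst hst
      exact M_disj e s ha hb hab
    · have h1 := ih hs ht hst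
      exact h1.mono (subset_closure.trans (M_child e ha).2.2.1)
        (subset_closure.trans (M_child e hb).2.2.1)

theorem L_dense : ∀ n, Dense (⋃ s ∈ L e n, s.V) := by
  intro n
  induction n with
  | zero => rw [L]; simp [dense_univ]
  | succ n ih =>
    rw [dense_iff_inter_open] at ih ⊢
    intro U hU hne
    obtain ⟨x, hxU, hx⟩ := ih U hU hne
    simp only [mem_iUnion] at hx
    obtain ⟨s, hs, hxs⟩ := hx
    obtain ⟨s', hs', y, hy1, hy2⟩ := M_dense e s (U ∩ s.V) (hU.inter (L_open e n s hs))
      ⟨x, hxU, hxs⟩ inter_subset_right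
    refine ⟨y, hy2.1, ?_⟩
    simp only [mem_iUnion]
    exact ⟨s', by rw [L]; simp only [mem_iUnion]; exact ⟨s, hs, hs'⟩, hy1⟩

/-- the dense set -/
def DD : Set X := ⋂ n, ⋃ s ∈ L e n, s.V

theorem DD_dense : Dense (DD e) := by
  refine dense_iInter_of_isOpen (fun n => ?_) (L_dense e)
  exact isOpen_biUnion fun s hs => L_open e n s hs

theorem DD_exists (x : X) (hx : x ∈ DD e) (n : ℕ) : ∃ s ∈ L e n, x ∈ s.V := by
  have := mem_iInter.mp hx n
  simpa only [mem_iUnion, exists_prop] using this

noncomputable def br (x : DD e) (n : ℕ) : St X := (DD_exists e x.1 x.2 n).choose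

theorem br_mem (x : DD e) (n : ℕ) : br e x n ∈ L e n := (DD_exists e x.1 x.2 n).choose_spec.1
theorem br_in (x : DD e) (n : ℕ) : x.1 ∈ (br e x n).V := (DD_exists e x.1 x.2 n).choose_spec.2

theorem br_unique (x : DD e) (n : ℕ) (s : St X) (hs : s ∈ L e n) (hx : x.1 ∈ s.V) :
    br e x n = s := by
  by_contra hne
  have := L_disj e n (br_mem e x n) hs hne
  exact Set.disjoint_left.mp this (br_in e x n) hx

theorem br_succ (x : DD e) (n : ℕ) : Child e (br e x n) (br e x (n + 1)) := by
  have h := br_mem e x (n + 1)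
  rw [L] at h
  simp only [mem_iUnion] at h
  obtain ⟨s, hs, h⟩ := h
  have hc := M_child e h
  have hxs : x.1 ∈ s.V := hc.2.2.1 (subset_closure (br_in e x (n + 1)))
  rw [br_unique e x n s hs hxs]
  exact hc

end main

/-- the key point: along a branch the open sets form a neighbourhood base. -/
theorem branch_base {X : Type} [TopologicalSpace X] [CompactSpace X] [T2Space X]
    (e : Set X → ℕ → Set X) (O : Set X → Set (Set X))
    (he : ∀ A : Set X, A.Finite → O A ⊆ range (e A))
    (hnet : ∀ A : Set X, ∀ x ∈ closure A, ∀ U : Set X, IsOpen U → x ∈ U →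
          ∃ N ∈ O A, x ∈ N ∧ N ⊆ U)
    (hch : ∀ c : Set (Set X), c.Nonempty → IsChain (· ⊆ ·) c →
          O (⋃₀ c) = ⋃ A ∈ c, O A)
    (s : ℕ → St X) (hs0 : (s 0).h = []) (hs : ∀ n, Child e (s n) (s (n + 1)))
    (x : X) (hx : ∀ n, x ∈ (s n).V) (W : Set X) (hW : IsOpen W) (hxW : x ∈ W) :
    ∃ n, (s n).V ⊆ W := by
  classical
  choose p hpV hph hpd using fun n => (hs n).2.2.2
  have hmono : ∀ n m, n ≤ m → (s n).h <:+ (s m).h := by
    intro n m hnm
    induction m, hnm using Nat.le_induction with
    | base => exact List.suffix_rfl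
    | succ m _ ih => rw [hph m]; exact ih.trans (List.suffix_cons _ _)
  have hlen : ∀ n, (s n).h.length = n := by
    intro n
    induction n with
    | zero => rw [hs0]; rfl
    | succ n ih => rw [hph n, List.length_cons, ih]
  have hVmono : ∀ n m, n ≤ m → (s m).V ⊆ (s n).V := by
    intro n m hnm
    induction m, hnm using Nat.le_induction with
    | base => exact Subset.rfl
    | succ m _ ih => exact (subset_closure.trans (hs m).2.2.1).trans ih
  -- cluster point of the sequence `p`
  obtain ⟨y, hy⟩ : ∃ y, ClusterPt y (map p atTop) := exists_clusterPt_of_compactSpace (map p atTop)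
  have hyV : ∀ n, y ∈ (s n).V := by
    intro n
    apply (hs n).2.2.1
    refine hy.mem_closure_of_mem _ ?_
    rw [mem_map]
    filter_upwards [eventually_ge_atTop (n + 1)] with m hm
    exact hVmono (n + 1) m hm (hpV m)
  set A : ℕ → Set X := fun n => {z | z ∈ (s n).h} with hA
  have hAmono : ∀ n m, n ≤ m → A n ⊆ A m := fun n m hnm z hz => (hmono n m hnm).subset hz
  have hchain : IsChain (· ⊆ ·) (range A) := by
    rintro _ ⟨n, rfl⟩ _ ⟨m, rfl⟩ _
    rcases le_total n m with h | h
    · exact Or.inl (hAmono n m h)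
    · exact Or.inr (hAmono m n h)
  have hO := hch (range A) (range_nonempty A) hchain
  have hycl : y ∈ closure (⋃₀ range A) := by
    refine hy.mem_closure_of_mem _ ?_
    rw [mem_map]
    filter_upwards with n
    refine ⟨A (n + 1), mem_range_self _, ?_⟩
    show p n ∈ (s (n + 1)).h
    rw [hph n]
    exact List.mem_cons_self
  have hfinA : ∀ n, (A n).Finite := fun n => List.finite_toSet (s n).h
  have key : ∀ W' : Set X, IsOpen W' → y ∈ W' → ∃ n, (s n).V ⊆ W' := by
    intro W' hW' hyW'
    obtain ⟨K, hK, hKc, hKW⟩ := exists_mem_nhds_isClosed_subset (hW'.mem_nhds hyW')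
    obtain ⟨N, hN, hyN, hNK⟩ := hnet (⋃₀ range A) y hycl (interior K) isOpen_interior
      (mem_interior_iff_mem_nhds.mpr hK)
    rw [hO] at hN
    simp only [mem_iUnion] at hN
    obtain ⟨_, ⟨n, rfl⟩, hN⟩ := hN
    obtain ⟨j, rfl⟩ := he _ (hfinA n) hN
    refine ⟨max n j + 1, ?_⟩
    have hdec := hpd (max n j) (s n).h (hmono n (max n j + 1) (by omega)) j
      (by rw [hlen]; omega)
    rcases hdec with h | h
    · exact absurd (subset_closure hyN) (Set.disjoint_left.mp h (hyV _))
    · exact (h.trans (hKc.closure_subset_iff.mpr (hNK.trans interior_subset))).trans hKW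
  have hxy : x = y := by
    by_contra hne
    obtain ⟨n, hn⟩ := key {x}ᶜ isOpen_compl_singleton (fun h => hne h.symm)
    exact hn (hx n) rfl
  subst hxy
  exact key W hW hxW

/-- Every compact Hausdorff space with a monotone, chain-continuous operator giving each subset A an external network of its closure of size at most max(∣A∣, ℵ₀) has a dense metrizable subspace. -/
theorem result :
    ∀ (X : Type) [TopologicalSpace X] [CompactSpace X] [T2Space X],
      (∃ O : Set X → Set (Set X),
        (∀ A : Set X, Cardinal.mk ↥(O A) ≤ max (Cardinal.mk ↥A) Cardinal.aleph0) ∧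
        (∀ A : Set X, ∀ x ∈ closure A, ∀ U : Set X, IsOpen U → x ∈ U →
          ∃ N ∈ O A, x ∈ N ∧ N ⊆ U) ∧
        (∀ A B : Set X, A ⊆ B → O A ⊆ O B) ∧
        (∀ c : Set (Set X), c.Nonempty → IsChain (· ⊆ ·) c →
          O (⋃₀ c) = ⋃ A ∈ c, O A)) →
      ∃ D : Set X, Dense D ∧ TopologicalSpace.MetrizableSpace ↥D := by
  intro X _ _ _ ⟨O, hcard, hnet, _, hch⟩
  classical
  have hex : ∀ A : Set X, ∃ f : ℕ → Set X, A.Finite → O A ⊆ range f := by
    intro A
    by_cases hA : A.Finite
    · have h1 : Cardinal.mk ↥(O A) ≤ Cardinal.aleph0 :=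
        (hcard A).trans (max_le (Set.Finite.lt_aleph0 hA).le le_rfl)
      have h2 : (O A).Countable := Cardinal.le_aleph0_iff_set_countable.mp h1
      rcases (O A).eq_empty_or_nonempty with h | h
      · exact ⟨fun _ => ∅, fun _ => by rw [h]; exact empty_subset _⟩
      · obtain ⟨f, hf⟩ := h2.exists_eq_range h
        exact ⟨f, fun _ => hf.le⟩
    · exact ⟨fun _ => ∅, fun h => absurd h hA⟩
  choose e he using hex
  refine ⟨DD e, DD_dense e, ?_⟩
  let _ : TopologicalSpace (St X) := ⊥
  have _ : DiscreteTopology (St X) := ⟨rfl⟩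
  have hbase : ∀ (x : DD e) (W : Set X), IsOpen W → x.1 ∈ W → ∃ n, (br e x n).V ⊆ W := by
    intro x W hW hxW
    refine branch_base e O he hnet hch (br e x) ?_ (br_succ e x) x.1 (br_in e x) W hW hxW
    have := br_mem e x 0
    rw [L, mem_singleton_iff] at this
    rw [this]
  have hcont : Continuous (fun (x : DD e) (n : ℕ) => br e x n) := by
    refine continuous_pi fun n => ?_
    rw [continuous_discrete_rng]
    intro s
    by_cases hs : s ∈ L e n
    · have : (fun x : DD e => br e x n) ⁻¹' {s} = Subtype.val ⁻¹' s.V := by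
        ext x
        simp only [mem_preimage, mem_singleton_iff]
        constructor
        · intro h; rw [← h]; exact br_in e x n
        · intro h; exact br_unique e x n s hs h
      rw [this]
      exact (L_open e n s hs).preimage continuous_subtype_val
    · have : (fun x : DD e => br e x n) ⁻¹' {s} = ∅ := by
        ext x
        simp only [mem_preimage, mem_singleton_iff, mem_empty_iff_false, iff_false]
        intro h
        exact hs (h ▸ br_mem e x n)
      rw [this]; exact isOpen_empty
  have hemb : Topology.IsEmbedding (fun (x : DD e) (n : ℕ) => br e x n) := by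
    refine ⟨Topology.isInducing_iff_nhds.mpr fun x => ?_, ?_⟩
    · refine le_antisymm (hcont.tendsto x).le_comap ?_
      intro U hU
      obtain ⟨U', hU'U, hU'o, hxU'⟩ := mem_nhds_iff.mp hU
      obtain ⟨W, hW, rfl⟩ := isOpen_induced_iff.mp hU'o
      obtain ⟨n, hn⟩ := hbase x W hW hxU'
      rw [mem_comap]
      refine ⟨{f | f n = br e x n}, ?_, ?_⟩
      · refine IsOpen.mem_nhds ?_ rfl
        have h1 : IsOpen ({br e x n} : Set (St X)) := isOpen_discrete _
        have h2 : Continuous (fun f : ℕ → St X => f n) := continuous_apply n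
        exact h1.preimage h2
      · intro z hz
        have hz' : br e z n = br e x n := hz
        apply hU'U
        show z.1 ∈ W
        apply hn
        rw [← hz']
        exact br_in e z n
    · intro x z hxz
      by_contra hne
      have hne' : x.1 ≠ z.1 := fun h => hne (Subtype.ext h)
      obtain ⟨n, hn⟩ := hbase x {z.1}ᶜ isOpen_compl_singleton hne'
      have h1 : br e x n = br e z n := congrFun hxz n
      rw [h1] at hn
      exact hn (br_in e z n) rfl
  exact hemb.metrizableSpace

end Pool.Agent.S3325
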