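import Pool.Statements.S3340
import Pool.Agent.H5.Aleph

set_option autoImplicit false
open Pool Pool.MP_e28848_gt

namespace Pool.Agent.S3340

/-- The negation of the preceding statement: For Tychonoff spaces X, Y: if some homeomorphism of ℝ^X onto ℝ^Y carries C_p(X) onto C_p(Y), and X has a countable k-network (is an ℵ0-space), then Y also has a countable k-network. -/
theorem result :
    ¬ (∀ (X Y : Type) [TopologicalSpace X] [TopologicalSpace Y] [T35Space X] [T35Space Y],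
      (∃ φ : (X → ℝ) ≃ₜ (Y → ℝ),
          φ '' {f : X → ℝ | Continuous f} = {g : Y → ℝ | Continuous g}) →
      (∃ 𝒩 : Set (Set X), 𝒩.Countable ∧
          ∀ K U : Set X, IsCompact K → IsOpen U → K ⊆ U →
            ∃ F : Set (Set X), F.Finite ∧ F ⊆ 𝒩 ∧ K ⊆ ⋃₀ F ∧ ⋃₀ F ⊆ U) →
      (∃ 𝒩 : Set (Set Y), 𝒩.Countable ∧
          ∀ K U : Set Y, IsCompact K → IsOpen U → K ⊆ U →
            ∃ F : Set (Set Y), F.Finite ∧ F ⊆ 𝒩 ∧ K ⊆ ⋃₀ F ∧ ⋃₀ F ⊆ U)) := by
  exact Pool.Agent.H5.Aleph.main2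

end Pool.Agent.S3340
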