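import Pool.Statements.S3358
-- import your own Pool.Agent.* helpers here

set_option autoImplicit false
open Topology Pointwise
open Pool Pool.MP_ede847_gt

namespace Pool.Agent.S3358

noncomputable section

/-- hyperreals bounded above by a natural number -/
def T : Type := {x : Hyperreal // ∃ n : ℕ, x < n}

instance : LinearOrder T := inferInstanceAs (LinearOrder {x : Hyperreal // ∃ n : ℕ, x < n})

def G : Type := T ≃o T

instance : Group G := inferInstanceAs (Group (T ≃o T))

def app (g : G) (x : T) : T := (show T ≃o T from g) x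

lemma app_mul (g h : G) (x : T) : app (g * h) x = app g (app h x) := rfl
lemma app_one (x : T) : app (1 : G) x = x := rfl
lemma app_inv (g : G) (x : T) : app g (app g⁻¹ x) = x := by
  rw [← app_mul, mul_inv_cancel, app_one]
lemma app_inv' (g : G) (x : T) : app g⁻¹ (app g x) = x := by
  rw [← app_mul, inv_mul_cancel, app_one]
lemma app_le (g : G) {x y : T} : app g x ≤ app g y ↔ x ≤ y := (show T ≃o T from g).le_iff_le

/-- basic neighbourhoods -/
def B (F : Finset T) (h : G) : Set G := {g | ∀ x ∈ F, app h x ≤ app g x}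

instance : TopologicalSpace G where
  IsOpen O := ∀ h ∈ O, ∃ F : Finset T, B F h ⊆ O
  isOpen_univ := fun _ _ => ⟨∅, Set.subset_univ _⟩
  isOpen_inter := by
    classical
    intro O1 O2 h1 h2 h hh
    obtain ⟨F1, hF1⟩ := h1 h hh.1
    obtain ⟨F2, hF2⟩ := h2 h hh.2
    refine ⟨F1 ∪ F2, fun g hg => ⟨hF1 ?_, hF2 ?_⟩⟩
    · intro x hx; exact hg x (Finset.mem_union_left _ hx)
    · intro x hx; exact hg x (Finset.mem_union_right _ hx)
  isOpen_sUnion := by
    intro S hS h hh
    obtain ⟨O, hO, hhO⟩ := hh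
    obtain ⟨F, hF⟩ := hS O hO h hhO
    exact ⟨F, hF.trans (Set.subset_sUnion_of_mem hO)⟩

lemma B_open (F : Finset T) (h : G) : IsOpen (B F h) := by
  intro g hg
  exact ⟨F, fun k hk x hx => (hg x hx).trans (hk x hx)⟩

lemma mem_B_self (F : Finset T) (h : G) : h ∈ B F h := fun _ _ => le_rfl

lemma nhds_iff (h : G) (U : Set G) : U ∈ 𝓝 h ↔ ∃ F : Finset T, B F h ⊆ U := by
  rw [mem_nhds_iff]
  constructor
  · rintro ⟨O, hOU, hO, hhO⟩
    obtain ⟨F, hF⟩ := hO h hhO
    exact ⟨F, hF.trans hOU⟩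
  · rintro ⟨F, hF⟩
    exact ⟨B F h, hF, B_open F h, mem_B_self F h⟩

instance : ContinuousMul G where
  continuous_mul := by
    classical
    rw [continuous_iff_continuousAt]
    rintro ⟨a, b⟩
    intro U hU
    rw [nhds_iff] at hU
    obtain ⟨F, hF⟩ := hU
    rw [Filter.mem_map]
    have h1 : B (F.image (app b)) a ∈ 𝓝 a := (nhds_iff _ _).2 ⟨_, subset_rfl⟩
    have h2 : B F b ∈ 𝓝 b := (nhds_iff _ _).2 ⟨_, subset_rfl⟩
    filter_upwards [prod_mem_nhds h1 h2]
    rintro ⟨a', b'⟩ ⟨ha, hb⟩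
    apply hF
    intro x hx
    show app (a * b) x ≤ app (a' * b') x
    rw [app_mul, app_mul]
    exact (ha _ (Finset.mem_image_of_mem _ hx)).trans ((app_le a').2 (hb x hx))

/-- countably many hyperreals are bounded above -/
lemma exists_bound (s : ℕ → Hyperreal) : ∃ a : Hyperreal, 0 < a ∧ ∀ i, s i < a := by
  have hs : ∀ i, ∃ f : ℕ → ℝ, Hyperreal.ofSeq f = s i := fun i => Hyperreal.ofSeq_surjective (s i)
  choose f hf using hs
  refine ⟨Hyperreal.ofSeq (fun k => ∑ i ∈ Finset.range (k + 1), |f i k| + 1), ?_, ?_⟩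
  · have : (0 : Hyperreal) = Hyperreal.ofSeq (fun _ => 0) := rfl
    rw [this, Hyperreal.ofSeq_lt_ofSeq]
    apply Filter.Eventually.of_forall
    intro k
    have : 0 ≤ ∑ i ∈ Finset.range (k + 1), |f i k| := Finset.sum_nonneg fun _ _ => abs_nonneg _
    linarith
  · intro i
    rw [← hf i, Hyperreal.ofSeq_lt_ofSeq]
    apply Filter.Eventually.filter_mono Nat.hyperfilter_le_atTop
    filter_upwards [Filter.eventually_ge_atTop i] with k hk
    have h1 : |f i k| ≤ ∑ i ∈ Finset.range (k + 1), |f i k| :=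
      Finset.single_le_sum (f := fun i => |f i k|) (fun _ _ => abs_nonneg _)
        (Finset.mem_range.2 (by omega))
    have h2 := le_abs_self (f i k)
    linarith

/-- translation by a natural number -/
def tr (n : ℕ) : G := (show T ≃o T from
  { toFun := fun x => ⟨x.1 + n, by
      obtain ⟨m, hm⟩ := x.2
      exact ⟨m + n, by push_cast; linarith⟩⟩
    invFun := fun x => ⟨x.1 - n, by
      obtain ⟨m, hm⟩ := x.2
      exact ⟨m, by
        have : (0 : Hyperreal) ≤ n := Nat.cast_nonneg n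
        linarith⟩⟩
    left_inv := fun x => by apply Subtype.ext; simp
    right_inv := fun x => by apply Subtype.ext; simp
    map_rel_iff' := by
      intro x y
      show x.1 + n ≤ y.1 + n ↔ x.1 ≤ y.1
      constructor <;> intro h <;> linarith })

lemma tr_val (n : ℕ) (x : T) : (app (tr n) x).1 = x.1 + n := rfl

def pl (a : Hyperreal) (x : Hyperreal) : Hyperreal :=
  if x ≤ 0 then x - a else if x ≤ 1 then -a + x * (1 + a) else x

lemma pl_mono {a : Hyperreal} (ha : 0 < a) : StrictMono (pl a) := by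
  intro x y hxy
  unfold pl
  split_ifs with h1 h2 h3 h4 h5 h6 <;> first | linarith | nlinarith

lemma pl_surj {a : Hyperreal} (ha : 0 < a) (y : Hyperreal) : ∃ x, pl a x = y := by
  rcases le_or_gt y (-a) with h | h
  · refine ⟨y + a, ?_⟩
    unfold pl
    rw [if_pos (by linarith)]; ring
  · rcases le_or_gt y 1 with h' | h'
    · refine ⟨(y + a) / (1 + a), ?_⟩
      have h1 : 0 < 1 + a := by linarith
      have h2 : 0 < (y + a) / (1 + a) := div_pos (by linarith) h1
      have h3 : (y + a) / (1 + a) ≤ 1 := by rw [div_le_one h1]; linarith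
      unfold pl
      rw [if_neg (not_le.2 h2), if_pos h3]
      field_simp
      ring
    · refine ⟨y, ?_⟩
      unfold pl
      rw [if_neg (by linarith), if_neg (by linarith)]

lemma pl_le {a : Hyperreal} (ha : 0 < a) (x : Hyperreal) : pl a x ≤ x := by
  unfold pl
  split_ifs with h1 h2
  · linarith
  · nlinarith
  · exact le_rfl

lemma pl_big {a x : Hyperreal} (h : 1 < x) : pl a x = x := by
  unfold pl
  rw [if_neg (by linarith), if_neg (by linarith)]

def plT (a : Hyperreal) (ha : 0 < a) (x : T) : T := ⟨pl a x.1, by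
  obtain ⟨n, hn⟩ := x.2
  exact ⟨n, (pl_le ha x.1).trans_lt hn⟩⟩

lemma plT_surj (a : Hyperreal) (ha : 0 < a) : Function.Surjective (plT a ha) := by
  intro y
  obtain ⟨x, hx⟩ := pl_surj ha y.1
  obtain ⟨n, hn⟩ := y.2
  refine ⟨⟨x, ⟨n + 1, ?_⟩⟩, Subtype.ext hx⟩
  rcases le_or_gt x 1 with h | h
  · push_cast
    rcases Nat.eq_zero_or_pos n with h0 | h0
    · subst h0
      rcases h.lt_or_eq with h1 | h1
      · simpa using h1
      · exfalso
        have : pl a x = 1 := by
          unfold pl; rw [h1, if_neg (by norm_num), if_pos le_rfl]; ring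
        rw [this] at hx
        rw [← hx] at hn
        simp at hn
        linarith
    · have : (1 : Hyperreal) ≤ n := by exact_mod_cast h0
      linarith
  · rw [pl_big h] at hx
    rw [hx]; push_cast; linarith

def sh (a : Hyperreal) (ha : 0 < a) : G := (show T ≃o T from
  StrictMono.orderIsoOfSurjective (plT a ha) (fun x y h => by
    show pl a x.1 < pl a y.1
    exact pl_mono ha h) (plT_surj a ha))

lemma sh_val (a : Hyperreal) (ha : 0 < a) (x : T) : (app (sh a ha) x).1 = pl a x.1 := rfl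

def z : T := ⟨0, ⟨1, by norm_num⟩⟩

lemma sh_zero (a : Hyperreal) (ha : 0 < a) : (app (sh a ha) z).1 = -a := by
  rw [sh_val]
  show pl a 0 = -a
  unfold pl; simp

/-- The negation of the preceding statement: In every group with a topology making multiplication continuous, if each neighbourhood U of the identity admits a countable F with U·F = G, then each such U also admits a countable F with F·U = G. -/
theorem result :
    ¬ (∀ (G : Type) [Group G] [TopologicalSpace G] [ContinuousMul G],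
      (∀ U ∈ 𝓝 (1 : G), ∃ F : Set G, F.Countable ∧ U * F = Set.univ) →
      (∀ U ∈ 𝓝 (1 : G), ∃ F : Set G, F.Countable ∧ F * U = Set.univ)) := by
  intro H
  have h1 : ∀ U ∈ 𝓝 (1 : G), ∃ F : Set G, F.Countable ∧ U * F = Set.univ := by
    intro U hU
    obtain ⟨F0, hF0⟩ := (nhds_iff _ _).1 hU
    -- lower bound of F0
    obtain ⟨a, ha, hab⟩ : ∃ a : Hyperreal, 0 < a ∧ ∀ x ∈ F0, -a ≤ x.1 := by
      refine ⟨∑ x ∈ F0, |x.1| + 1, ?_, ?_⟩
      · have : 0 ≤ ∑ x ∈ F0, |x.1| := Finset.sum_nonneg fun _ _ => abs_nonneg _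
        linarith
      · intro x hx
        have h1 : |x.1| ≤ ∑ x ∈ F0, |x.1| :=
          Finset.single_le_sum (f := fun x : T => |x.1|) (fun _ _ => abs_nonneg _) hx
        have h2 := neg_abs_le x.1
        linarith
    refine ⟨Set.range fun n : ℕ => sh a ha * (tr n)⁻¹, Set.countable_range _, ?_⟩
    rw [Set.eq_univ_iff_forall]
    intro h
    -- choose n
    have hn : ∃ n : ℕ, ∀ x ∈ F0, (app h⁻¹ x).1 ≤ n := by
      classical
      have hex : ∀ x : T, ∃ m : ℕ, (app h⁻¹ x).1 < m := fun x => (app h⁻¹ x).2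
      choose m hm using hex
      refine ⟨∑ x ∈ F0, m x, fun x hx => (hm x).le.trans ?_⟩
      have : m x ≤ ∑ x ∈ F0, m x := Finset.single_le_sum (fun _ _ => Nat.zero_le _) hx
      exact_mod_cast this
    obtain ⟨n, hn⟩ := hn
    refine Set.mem_mul.2 ⟨h * (sh a ha * (tr n)⁻¹)⁻¹, ?_, sh a ha * (tr n)⁻¹, ⟨n, rfl⟩, by group⟩
    apply hF0
    intro x hx
    rw [app_one, app_mul]
    have e1 : h * 1 = h := mul_one h
    have e2 : app h (app h⁻¹ x) = x := app_inv h x
    rw [← e2]
    rw [app_le]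
    show (app h⁻¹ x).1 ≤ (app (sh a ha * (tr n)⁻¹)⁻¹ (app h (app h⁻¹ x))).1
    rw [e2]
    have e3 : (sh a ha * (tr n)⁻¹)⁻¹ = tr n * (sh a ha)⁻¹ := by group
    rw [e3, app_mul, tr_val]
    have e4 : z ≤ app (sh a ha)⁻¹ x := by
      rw [← app_le (sh a ha), app_inv]
      show (app (sh a ha) z).1 ≤ x.1
      rw [sh_zero]
      exact hab x hx
    have e5 : (0 : Hyperreal) ≤ (app (sh a ha)⁻¹ x).1 := e4
    linarith [hn x hx]
  obtain ⟨F, hFc, hF⟩ := H G h1 (B {z} 1) ((nhds_iff _ _).2 ⟨{z}, subset_rfl⟩)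
  obtain ⟨s, hs⟩ : ∃ s : ℕ → G, F ⊆ Set.range s := by
    rcases F.eq_empty_or_nonempty with h0 | h0
    · exact ⟨fun _ => 1, by rw [h0]; exact Set.empty_subset _⟩
    · obtain ⟨s, hs⟩ := hFc.exists_eq_range h0
      exact ⟨s, hs.le⟩
  obtain ⟨a, ha, hab⟩ := exists_bound (fun i => -(app (s i) z).1)
  have hmem : sh a ha ∈ F * B {z} 1 := by rw [hF]; trivial
  obtain ⟨g, hg, u, hu, hgu⟩ := Set.mem_mul.1 hmem
  obtain ⟨i, rfl⟩ := hs hg
  have hu' : z ≤ app u z := by simpa [app_one] using hu z (Finset.mem_singleton_self z)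
  have h2 : app (s i) z ≤ app (sh a ha) z := by
    rw [← hgu, app_mul]
    exact (app_le _).2 hu'
  have h3 : (app (s i) z).1 ≤ (app (sh a ha) z).1 := h2
  rw [sh_zero] at h3
  have h4 := hab i
  linarith

end

end Pool.Agent.S3358
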