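-- Proof of the frozen statement S3384.
import Pool.Statements.S3384

set_option autoImplicit false
open Pool Pool.MP_fc9318_gt

namespace Pool.Agent.S3384

open Set Filter Topology

/-- the reals with the discrete topology -/
def D : Type := ℝ

instance : TopologicalSpace D := ⊥
instance : DiscreteTopology D := ⟨rfl⟩

/-- all real functions on `D`, with the discrete topology -/
def Lam : Type := D → ℝ

instance : TopologicalSpace Lam := ⊥
instance : DiscreteTopology Lam := ⟨rfl⟩

/-- The space. -/
abbrev X : Type := D ⊕ OnePoint Lam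

theorem t35 : T35Space X := by
  letI u1 : UniformSpace (OnePoint Lam) := uniformSpaceOfCompactR1
  letI u2 : UniformSpace D := ⊥
  haveI h : CompletelyRegularSpace X := by
    apply CompletelyRegularSpace.of_exists_uniformSpace
    exact ⟨inferInstanceAs (UniformSpace (D ⊕ OnePoint Lam)), rfl⟩
  exact {}

/-- the function on `D` determined by `h` -/
def fn (h : X → ℝ) : Lam := fun d => h (Sum.inl d)

def Y : Set (X → ℝ) :=
  {h | {p : Lam | h (Sum.inr (p : OnePoint Lam)) ≠ h (Sum.inr OnePoint.infty)}.Finite ∧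
    h (Sum.inr ((fn h : Lam) : OnePoint Lam)) ≠ h (Sum.inr OnePoint.infty)}

theorem Y_cont : Y ⊆ {f : X → ℝ | Continuous f} := by
  intro h hh
  show Continuous h
  rw [continuous_sum_dom]
  refine ⟨continuous_of_discreteTopology, ?_⟩
  rw [OnePoint.continuous_iff_from_discrete]
  apply (tendsto_const_nhds (x := h (Sum.inr OnePoint.infty))).congr'
  have h1 : ∀ᶠ p : Lam in cofinite,
      ¬ (h (Sum.inr (p : OnePoint Lam)) ≠ h (Sum.inr OnePoint.infty)) :=
    hh.1.eventually_cofinite_notMem
  filter_upwards [h1] with p hp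
  exact (not_not.1 hp).symm

theorem Y_dense (f : X → ℝ) (hf : Continuous f) (ε : ℝ) (hε : ε > 0) :
    ∃ g ∈ Y, ∀ x : X, |f x - g x| < ε := by
  classical
  rw [continuous_sum_dom] at hf
  have h2 := (OnePoint.continuous_iff_from_discrete _).1 hf.2
  rw [Metric.tendsto_nhds] at h2
  have h3 := h2 (ε / 2) (by positivity)
  rw [eventually_cofinite] at h3
  let c : ℝ := f (Sum.inr OnePoint.infty)
  let v : Lam → ℝ := fun p => f (Sum.inr (p : OnePoint Lam))
  let q : Lam := fn f
  let w : Lam → ℝ := fun p => if p = q then (if v q = c then c + ε / 2 else v q) else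
    if |v p - c| < ε / 2 then c else v p
  let g : X → ℝ := Sum.elim (fun d => f (Sum.inl d)) (fun z => OnePoint.rec c w z)
  have hg1 : ∀ d, g (Sum.inl d) = f (Sum.inl d) := fun d => rfl
  have hg2 : g (Sum.inr OnePoint.infty) = c := rfl
  have hg3 : ∀ p : Lam, g (Sum.inr (p : OnePoint Lam)) = w p := fun p => rfl
  have hgq : fn g = q := rfl
  refine ⟨g, ⟨?_, ?_⟩, ?_⟩
  · refine (h3.union (Set.finite_singleton q)).subset ?_
    intro p hp
    rw [mem_ofPred_eq, hg2, hg3] at hp
    by_cases hpq : p = q
    · exact Or.inr hpq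
    · left
      intro hlt
      apply hp
      have hlt' : |v p - c| < ε / 2 := hlt
      simp only [w, if_neg hpq, if_pos hlt']
  · rw [hg2, hgq, hg3]
    simp only [w, if_true]
    split_ifs with h
    · intro h'; linarith
    · exact h
  · intro x
    rcases x with d | z
    · rw [hg1]; simpa using hε
    · induction z using OnePoint.rec with
      | infty => rw [hg2]; simpa [c] using hε
      | coe p =>
        rw [hg3]
        show |v p - w p| < ε
        by_cases hpq : p = q
        · subst hpq
          simp only [w, if_true]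
          split_ifs with h
          · rw [h, show c - (c + ε / 2) = -(ε / 2) by ring, abs_neg, abs_of_pos (by positivity)]
            linarith
          · simpa using hε
        · simp only [w, if_neg hpq]
          split_ifs with h
          · linarith
          · simpa using hε

theorem Y_mono (A : Set (X → ℝ)) (hA : A ⊆ Y) (hAc : A.Countable) :
    ∃ 𝒩 : Set (Set (X → ℝ)), 𝒩.Countable ∧
      ∀ h ∈ closure A ∩ Y, ∀ U : Set (X → ℝ), IsOpen U → h ∈ U →
        ∃ N ∈ 𝒩, h ∈ N ∧ N ⊆ U ∩ (closure A ∩ Y) := by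
  classical
  let L : Set Lam := ⋃ a ∈ A, {p : Lam | a (Sum.inr (p : OnePoint Lam)) ≠ a (Sum.inr OnePoint.infty)}
  have hL : L.Countable := hAc.biUnion (fun a ha => (hA ha).1.countable)
  haveI : Countable L := hL.to_subtype
  -- functions in the closure are constant off L
  have hoff : ∀ h ∈ closure A, ∀ p : Lam, p ∉ L →
      h (Sum.inr (p : OnePoint Lam)) = h (Sum.inr OnePoint.infty) := by
    intro h hh p hp
    have hcl : IsClosed {h : X → ℝ | h (Sum.inr (p : OnePoint Lam)) = h (Sum.inr OnePoint.infty)} :=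
      isClosed_eq (continuous_apply _) (continuous_apply _)
    have hsub : A ⊆ {h : X → ℝ | h (Sum.inr (p : OnePoint Lam)) = h (Sum.inr OnePoint.infty)} := by
      intro a ha
      by_contra hcon
      exact hp (mem_biUnion ha hcon)
    exact closure_minimal hsub hcl hh
  let Z : Type := L × ((L → ℝ) × ℝ)
  let Psi : Z → (X → ℝ) := fun z x => match x with
    | Sum.inl d => z.1.1 d
    | Sum.inr w => @OnePoint.rec Lam (fun _ => ℝ) z.2.2
        (fun p => if hp : p ∈ L then z.2.1 ⟨p, hp⟩ else z.2.2) w
  have hPsi : Continuous Psi := by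
    rw [continuous_pi_iff]
    intro x
    rcases x with d | w
    · show Continuous (fun z : Z => z.1.1 d)
      exact (continuous_of_discreteTopology (f := fun q : L => q.1 d)).comp continuous_fst
    · induction w using OnePoint.rec with
      | infty =>
        show Continuous (fun z : Z => z.2.2)
        exact continuous_snd.comp continuous_snd
      | coe p =>
        show Continuous (fun z : Z => if hp : p ∈ L then z.2.1 ⟨p, hp⟩ else z.2.2)
        by_cases hp : p ∈ L
        · simp only [dif_pos hp]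
          exact (continuous_apply _).comp (continuous_fst.comp continuous_snd)
        · simp only [dif_neg hp]
          exact continuous_snd.comp continuous_snd
  have hsurj : ∀ h ∈ closure A ∩ Y, ∃ z : Z, Psi z = h := by
    rintro h ⟨hcl, hY⟩
    have hq : fn h ∈ L := by
      by_contra hcon
      exact hY.2 (hoff h hcl _ hcon)
    refine ⟨(⟨fn h, hq⟩, (fun p => h (Sum.inr ((p : Lam) : OnePoint Lam)),
      h (Sum.inr OnePoint.infty))), ?_⟩
    funext x
    rcases x with d | w
    · rfl
    · induction w using OnePoint.rec with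
      | infty => rfl
      | coe p =>
        show (if hp : p ∈ L then h (Sum.inr (p : OnePoint Lam)) else h (Sum.inr OnePoint.infty)) = _
        split_ifs with hp
        · rfl
        · exact (hoff h hcl p hp).symm
  refine ⟨(fun B => Psi '' B ∩ (closure A ∩ Y)) '' TopologicalSpace.countableBasis Z,
    (TopologicalSpace.countable_countableBasis Z).image _, ?_⟩
  intro h hh U hU hhU
  obtain ⟨z, hz⟩ := hsurj h hh
  have hzU : z ∈ Psi ⁻¹' U := by rw [mem_preimage, hz]; exact hhU
  obtain ⟨B, hB, hzB, hBU⟩ := (TopologicalSpace.isBasis_countableBasis Z).exists_subset_of_mem_open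
    hzU (hU.preimage hPsi)
  refine ⟨_, ⟨B, hB, rfl⟩, ⟨⟨z, hzB, hz⟩, hh⟩, ?_⟩
  rintro k ⟨⟨z', hz', rfl⟩, hk⟩
  exact ⟨hBU hz', hk⟩

/-- indicator of a set of reals, extended by zero -/
noncomputable def ind (S : Set ℝ) : X → ℝ := by
  classical
  exact Sum.elim (fun d : D => if (show ℝ from d) ∈ S then 1 else 0) (fun _ => 0)

theorem ind_inl (S : Set ℝ) (d : ℝ) : ind S (Sum.inl (show D from d)) = S.indicator 1 d := by
  classical
  show (if d ∈ S then (1 : ℝ) else 0) = _
  by_cases h : d ∈ S
  · rw [if_pos h, indicator_of_mem h]; rfl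
  · rw [if_neg h, indicator_of_notMem h]

theorem ind_inr (S : Set ℝ) (w : OnePoint Lam) : ind S (Sum.inr w) = 0 := rfl

theorem ind_cont (S : Set ℝ) : Continuous (ind S) := by
  rw [continuous_sum_dom]
  exact ⟨continuous_of_discreteTopology, continuous_const⟩

def A0 : Set (X → ℝ) := range (fun ab : ℚ × ℚ => ind (Ioo (ab.1 : ℝ) (ab.2 : ℝ)))

theorem mem_closure_A0 (d : ℝ) : ind {d} ∈ closure A0 := by
  have h1 : ∀ n : ℕ, ∃ ab : ℚ × ℚ, d - 1 / ((n : ℝ) + 1) < ab.1 ∧ (ab.1 : ℝ) < d ∧
      d < ab.2 ∧ (ab.2 : ℝ) < d + 1 / ((n : ℝ) + 1) := by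
    intro n
    have hpos : (0 : ℝ) < 1 / ((n : ℝ) + 1) := by positivity
    obtain ⟨a, ha1, ha2⟩ := exists_rat_btwn (show d - 1 / ((n : ℝ) + 1) < d by linarith)
    obtain ⟨b, hb1, hb2⟩ := exists_rat_btwn (show d < d + 1 / ((n : ℝ) + 1) by linarith)
    exact ⟨(a, b), ha1, ha2, hb1, hb2⟩
  choose ab hab1 hab2 hab3 hab4 using h1
  refine mem_closure_of_tendsto (f := fun n => ind (Ioo ((ab n).1 : ℝ) ((ab n).2 : ℝ)))
    (b := atTop) ?_ (Eventually.of_forall (fun n => ⟨ab n, rfl⟩))
  rw [tendsto_pi_nhds]
  intro x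
  rcases x with x | w
  · change ℝ at x
    by_cases hx : x = d
    · subst hx
      apply tendsto_const_nhds.congr
      intro n
      have hmem : x ∈ Ioo ((ab n).1 : ℝ) ((ab n).2 : ℝ) := ⟨hab2 n, hab3 n⟩
      rw [ind_inl, ind_inl, indicator_of_mem (mem_singleton x), indicator_of_mem hmem]
    · apply tendsto_const_nhds.congr'
      obtain ⟨N, hN⟩ := exists_nat_one_div_lt (abs_pos.2 (sub_ne_zero.2 hx))
      filter_upwards [eventually_ge_atTop N] with n hn
      rw [ind_inl, ind_inl, indicator_of_notMem (by simpa using hx), indicator_of_notMem]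
      rintro ⟨h3, h4⟩
      have h5 := hab1 n
      have h6 := hab4 n
      have h7 : (1 : ℝ) / ((n : ℝ) + 1) ≤ 1 / ((N : ℝ) + 1) := by
        apply one_div_le_one_div_of_le (by positivity)
        have : (N : ℝ) ≤ n := by exact_mod_cast hn
        linarith
      have h8 : |x - d| < 1 / ((n : ℝ) + 1) := by
        rw [abs_lt]; constructor <;> linarith
      linarith
  · simp only [ind_inr]
    exact tendsto_const_nhds

/-- The negation of the preceding statement: For every Tychonoff X, if C_p(X) (pointwise topology) has a uniformly dense subspace in which closures of countable sets have countable networks, then closures of countable subsets of C_p(X) have countable networks. -/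
theorem result :
    ¬ (∀ (X : Type) [TopologicalSpace X] [T35Space X] (Y : Set (X → ℝ)),
      Y ⊆ {f : X → ℝ | Continuous f} →
      (∀ f : X → ℝ, Continuous f → ∀ ε : ℝ, ε > 0 → ∃ g ∈ Y, ∀ x : X, |f x - g x| < ε) →
      (∀ A : Set (X → ℝ), A ⊆ Y → A.Countable →
        ∃ 𝒩 : Set (Set (X → ℝ)), 𝒩.Countable ∧
          ∀ h ∈ closure A ∩ Y, ∀ U : Set (X → ℝ), IsOpen U → h ∈ U →
            ∃ N ∈ 𝒩, h ∈ N ∧ N ⊆ U ∩ (closure A ∩ Y)) →
      (∀ A : Set (X → ℝ), A ⊆ {f : X → ℝ | Continuous f} → A.Countable →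
        ∃ 𝒩 : Set (Set (X → ℝ)), 𝒩.Countable ∧
          ∀ h ∈ closure A ∩ {f : X → ℝ | Continuous f}, ∀ U : Set (X → ℝ), IsOpen U → h ∈ U →
            ∃ N ∈ 𝒩, h ∈ N ∧ N ⊆ U ∩ (closure A ∩ {f : X → ℝ | Continuous f}))) := by
  intro hall
  haveI := t35
  obtain ⟨𝒩, hNc, hN⟩ := hall X Y Y_cont Y_dense Y_mono A0
    (by rintro _ ⟨ab, rfl⟩; exact ind_cont _) (countable_range _)
  have h1 : ∀ d : ℝ, ∃ N ∈ 𝒩, ind {d} ∈ N ∧
      N ⊆ {h : X → ℝ | 1 / 2 < h (Sum.inl (show D from d))} := by
    intro d
    have hopen : IsOpen {h : X → ℝ | 1 / 2 < h (Sum.inl (show D from d))} :=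
      isOpen_lt continuous_const (continuous_apply _)
    obtain ⟨N, hN1, hN2, hN3⟩ := hN (ind {d}) ⟨mem_closure_A0 d, ind_cont _⟩ _ hopen
      (by rw [mem_ofPred_eq, ind_inl, indicator_of_mem (mem_singleton d)]; norm_num)
    exact ⟨N, hN1, hN2, fun k hk => (hN3 hk).1⟩
  choose N hN1 hN2 hN3 using h1
  have hinj : Function.Injective N := by
    intro d d' hdd
    have h2 := hN3 d' (hdd ▸ hN2 d)
    rw [mem_ofPred_eq, ind_inl] at h2
    by_contra hne
    rw [indicator_of_notMem (by simpa using fun h => hne h.symm)] at h2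
    norm_num at h2
  have hcount : (univ : Set ℝ).Countable := by
    have := hNc.preimage_of_injOn (f := N) hinj.injOn
    refine this.mono ?_
    intro d _
    exact hN1 d
  exact Cardinal.not_countable_real hcount

end Pool.Agent.S3384
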