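import Pool.Statements.S3429
import Pool.Agent.H24.HP

set_option autoImplicit false
open scoped NNReal ENNReal
open Pool Pool.MP_173f50_lc

namespace Pool.Agent.S3429

/-- The family of sets {gauge functions f (nondecreasing, right-continuous, f(0)=0, positive off 0) with positive f-Hausdorff measure on A}, as A ranges over subsets of the reals, has cardinality 2 to the continuum. -/
theorem result :
    Cardinal.mk
      (Set.range (fun A : Set ℝ =>
        {f : ℝ≥0 → ℝ≥0 |
          Monotone f ∧ f 0 = 0 ∧ (∀ r : ℝ≥0, 0 < r → 0 < f r) ∧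
          (∀ x : ℝ≥0, ContinuousWithinAt f (Set.Ici x) x) ∧
          0 < (MeasureTheory.OuterMeasure.mkMetric
                (fun r : ℝ≥0∞ => ((f r.toNNReal : ℝ≥0) : ℝ≥0∞)) :
                MeasureTheory.OuterMeasure ℝ) A}))
      = 2 ^ Cardinal.continuum := by
  apply le_antisymm
  · refine le_trans Cardinal.mk_range_le ?_
    rw [Cardinal.mk_set, Cardinal.mk_real]
  · have hcard : Cardinal.mk (Set (ℕ → Bool)) = 2 ^ Cardinal.continuum := by
      rw [Cardinal.mk_set]
      congr 1
      simp
    rw [← hcard]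
    set F := (fun A : Set ℝ =>
        {f : ℝ≥0 → ℝ≥0 |
          Monotone f ∧ f 0 = 0 ∧ (∀ r : ℝ≥0, 0 < r → 0 < f r) ∧
          (∀ x : ℝ≥0, ContinuousWithinAt f (Set.Ici x) x) ∧
          0 < (MeasureTheory.OuterMeasure.mkMetric
                (fun r : ℝ≥0∞ => ((f r.toNNReal : ℝ≥0) : ℝ≥0∞)) :
                MeasureTheory.OuterMeasure ℝ) A}) with hF
    have hmem : ∀ (X : Set (ℕ → Bool)) (β : ℕ → Bool),
        H24.HP.gg β ∈ F (H24.HP.AA X) ↔ β ∈ X := by
      intro X β
      rw [hF]
      constructor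
      · rintro ⟨-, -, -, -, h⟩
        exact (H24.HP.AA_pos X β).mp h
      · intro h
        exact ⟨H24.HP.gg_mono β, H24.HP.gg_zero β, H24.HP.gg_pos β, H24.HP.gg_cont β,
          (H24.HP.AA_pos X β).mpr h⟩
    apply Cardinal.mk_le_of_injective
      (f := fun X : Set (ℕ → Bool) => (⟨F (H24.HP.AA X), Set.mem_range_self _⟩ : Set.range F))
    intro X Y hXY
    have h1 : F (H24.HP.AA X) = F (H24.HP.AA Y) := congrArg Subtype.val hXY
    ext β
    rw [← hmem X β, h1, hmem Y β]

end Pool.Agent.S3429
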