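import Pool.Statements.S3462
import Pool.Agent.H3.CoPrefixTM

set_option autoImplicit false
open Pool Pool.MP_25e2f4_lc

namespace Pool.Agent.S3462

/-- The negation of the preceding statement: For every context-free language L over a finite alphabet: L is regular iff for some k ≥ 1, whenever uv is nonempty and x uⁿ y vⁿ z ∈ L for all n ≥ 1, then x u^{kn} y v^{km} z ∈ L for all n, m ≥ 1. -/
theorem result :
    ¬ (∀ (α : Type) [Fintype α] (L : Language α), L.IsContextFree →
      (L.IsRegular ↔
        ∃ k : ℕ, 1 ≤ k ∧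
          ∀ x u y v z : List α, u ++ v ≠ [] →
            (∀ n : ℕ, 1 ≤ n →
              x ++ (List.replicate n u).flatten ++ y ++ (List.replicate n v).flatten ++ z ∈ L) →
            ∀ n m : ℕ, 1 ≤ n → 1 ≤ m →
              x ++ (List.replicate (k * n) u).flatten ++ y ++ (List.replicate (k * m) v).flatten ++ z ∈ L)) := by
  intro h
  obtain ⟨L, hcf, hreg, hQ⟩ := Pool.Agent.H3.CoPrefixTM.main
  apply hreg
  rw [h Bool L hcf]
  refine ⟨6, by norm_num, ?_⟩
  intro x u y v z huv _ n m hn hm
  exact hQ x u y v z huv n m hn hm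

end Pool.Agent.S3462
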