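import Pool.Statements.S3522
import Pool.Agent.H21.CylFinal

set_option autoImplicit false
open Pool Pool.MP_52db1d_lc

namespace Pool.Agent.S3522

/-- The negation of the preceding statement: Any family of languages closed under inverse morphisms and intersection with regular languages, all of whose members are context-free and one-locally-linear (marked-position iteration property), contains only regular languages. -/
theorem result :
    ¬ (∀ F : ∀ n : ℕ, Set (Language (Fin n)),
      (∀ (m n : ℕ) (g : Fin m → List (Fin n)) (L : Language (Fin n)), L ∈ F n →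
          ({w : List (Fin m) | w.flatMap g ∈ L} : Set (List (Fin m))) ∈ F m) →
      (∀ (n : ℕ) (L R : Language (Fin n)), L ∈ F n → R.IsRegular →
          ({w : List (Fin n) | w ∈ L ∧ w ∈ R} : Set (List (Fin n))) ∈ F n) →
      (∀ (n : ℕ) (L : Language (Fin n)), L ∈ F n →
          L.IsContextFree ∧
          ∃ N₀ : ℕ, ∀ f : List (Fin n), f ∈ L → ∀ M : Finset ℕ,
            (∀ i ∈ M, i < f.length) → N₀ ≤ M.card →
            ∃ x u y : List (Fin n), f = x ++ u ++ y ∧
              (∀ k : ℕ, x ++ (List.replicate k u).flatten ++ y ∈ L) ∧
              (∃ i ∈ M, i < x.length) ∧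
              (∃ i ∈ M, x.length ≤ i ∧ i < x.length + u.length) ∧
              (∃ i ∈ M, x.length + u.length ≤ i)) →
      ∀ (n : ℕ) (L : Language (Fin n)), L ∈ F n → L.IsRegular) := by
  exact Pool.Agent.H21.Cyl.main

end Pool.Agent.S3522
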