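import Pool.Statements.S3530

set_option autoImplicit false
open Pool Pool.MP_5708a2_lc

namespace Pool.Agent.S3530

/-- The countable family: `S n` codes the set of pairs `(m, y)` with `y m = n`, where `y` is a
finite sequence of naturals, coded by a natural number. -/
def S (n : ℕ) : Set (ℝ × ℝ) :=
  {p | ∃ (m : ℕ) (y : List ℕ), p.1 = (m : ℝ) ∧ p.2 = ((Encodable.encode y : ℕ) : ℝ) ∧ y[m]? = some n}

lemma S_disj {n n' : ℕ} {p : ℝ × ℝ} (h : p ∈ S n) (h' : p ∈ S n') : n = n' := by
  obtain ⟨m, y, h1, h2, h3⟩ := h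
  obtain ⟨m', y', h1', h2', h3'⟩ := h'
  have e1 : m = m' := by
    have : (m : ℝ) = m' := h1.symm.trans h1'
    exact_mod_cast this
  have e2 : y = y' := by
    have : ((Encodable.encode y : ℕ) : ℝ) = ((Encodable.encode y' : ℕ) : ℝ) := h2.symm.trans h2'
    exact Encodable.encode_injective (by exact_mod_cast this)
  subst e1; subst e2
  rw [h3] at h3'
  exact Option.some_injective _ h3'

/-- the pattern of a point with respect to the generators -/
def pat (G : Set (Set (ℝ × ℝ))) (p : ℝ × ℝ) : Set G := {g | p ∈ g.1}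

/-- the sets that are, on each rectangle of a finite rectangular partition, a Boolean combination
of the generators -/
def Cl (G : Set (Set (ℝ × ℝ))) : Set (Set (ℝ × ℝ)) :=
  {T | ∃ (I J : Type) (_ : Finite I) (_ : Finite J) (α : ℝ → I) (β : ℝ → J)
    (W : I → J → Set (Set G)), ∀ p, p ∈ T ↔ pat G p ∈ W (α p.1) (β p.2)}

lemma main (G : Set (Set (ℝ × ℝ))) (hG : G.Finite) (h : ∀ n, S n ∈ Cl G) : False := by
  classical
  have hGf : Finite G := hG
  have hfin : Finite (Set (Set G)) := inferInstance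
  set K := Nat.card (Set (Set G)) with hK
  choose I J hI hJ α β W hW using h
  -- combined partition
  let II := ∀ n : Fin (K + 1), I n
  let JJ := ∀ n : Fin (K + 1), J n
  have hII : Finite II := inferInstance
  have hJJ : Finite JJ := inferInstance
  let a : ℝ → II := fun x n => α n x
  let b : ℝ → JJ := fun x n => β n x
  -- infinitely many m with the same value of `a`
  obtain ⟨i, hi⟩ := Finite.exists_infinite_fiber (fun m : ℕ => a (m : ℝ))
  -- for each j there is a missing colour
  have hmiss : ∀ j : JJ, ∃ n : Fin (K + 1), ∀ x y : ℝ, a x = i → b y = j → (x, y) ∉ S n := by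
    intro j
    have hnotinj : ¬ Function.Injective (fun n : Fin (K + 1) => W n (i n) (j n)) := by
      intro hinj
      have := Nat.card_le_card_of_injective _ hinj
      rw [Nat.card_eq_fintype_card, Fintype.card_fin] at this
      omega
    unfold Function.Injective at hnotinj
    push Not at hnotinj
    obtain ⟨n, n', heq, hne⟩ := hnotinj
    refine ⟨n, fun x y hx hy hmem => ?_⟩
    have h1 : pat G (x, y) ∈ W n (α n x) (β n y) := (hW n (x, y)).1 hmem
    have ex : α n x = i n := congrFun hx n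
    have ey : β n y = j n := congrFun hy n
    have ex' : α n' x = i n' := congrFun hx n'
    have ey' : β n' y = j n' := congrFun hy n'
    have heq' : W n (i n) (j n) = W n' (i n') (j n') := heq
    rw [ex, ey, heq', ← ex', ← ey'] at h1
    have h2 : (x, y) ∈ S n' := (hW n' (x, y)).2 h1
    exact hne (Fin.ext (S_disj hmem h2))
  choose k hk using hmiss
  -- injection of JJ into the fibre
  obtain ⟨N, ⟨e⟩⟩ := Finite.exists_equiv_fin JJ
  let emb : JJ → ((fun m : ℕ => a (m : ℝ)) ⁻¹' {i}) := fun j => Infinite.natEmbedding _ (e j)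
  have hemb : Function.Injective emb := by
    intro j j' hjj
    have := (Infinite.natEmbedding _).injective hjj
    exact e.injective (Fin.ext this)
  let mm : JJ → ℕ := fun j => (emb j).1
  have hmm : Function.Injective mm := fun j j' h => hemb (Subtype.ext h)
  -- function f with f (mm j) = k j
  obtain ⟨f, hf⟩ : ∃ f : ℕ → ℕ, ∀ j, f (mm j) = (k j : ℕ) := by
    refine ⟨fun m => if h : ∃ j, mm j = m then (k h.choose : ℕ) else 0, fun j => ?_⟩
    have hex : ∃ j', mm j' = mm j := ⟨j, rfl⟩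
    simp only [dif_pos hex]
    rw [hmm hex.choose_spec]
  obtain ⟨M, hM⟩ : ∃ M, ∀ j, mm j < M := by
    obtain ⟨M, hM⟩ := (Set.finite_range mm).bddAbove
    exact ⟨M + 1, fun j => Nat.lt_succ_of_le (hM ⟨j, rfl⟩)⟩
  let y : List ℕ := (List.range M).map f
  let j := b ((Encodable.encode y : ℕ) : ℝ)
  apply hk j (mm j : ℝ) ((Encodable.encode y : ℕ) : ℝ) (emb j).2 rfl
  refine ⟨mm j, y, rfl, rfl, ?_⟩
  have : (List.range M)[mm j]? = some (mm j) := List.getElem?_range (hM j)
  rw [List.getElem?_map, this]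
  simp [hf]

/-- The negation of the preceding statement: For every countable family of subsets of the real plane there is a finite family of plane sets such that every class containing it and closed under complement, union, projections onto the axes and products of axis sets contains the whole countable family. -/
theorem result :
    ¬ (∀ F : Set (Set (ℝ × ℝ)), F.Countable →
      ∃ G : Set (Set (ℝ × ℝ)), G.Finite ∧
        ∀ S ∈ F, ∀ C : Set (Set (ℝ × ℝ)),
          (∀ T ∈ C, Tᶜ ∈ C) →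
          (∀ T ∈ C, ∀ U ∈ C, T ∪ U ∈ C) →
          (∀ T ∈ C, {p : ℝ × ℝ | p.2 = 0 ∧ ∃ y : ℝ, (p.1, y) ∈ T} ∈ C) →
          (∀ T ∈ C, {p : ℝ × ℝ | p.1 = 0 ∧ ∃ x : ℝ, (x, p.2) ∈ T} ∈ C) →
          (∀ A ∈ C, ∀ B ∈ C, A ⊆ {p : ℝ × ℝ | p.2 = 0} → B ⊆ {p : ℝ × ℝ | p.1 = 0} →
            {p : ℝ × ℝ | ((p.1, (0:ℝ)) ∈ A) ∧ (((0:ℝ), p.2) ∈ B)} ∈ C) →
          G ⊆ C → S ∈ C) := by
  classical
  intro H
  obtain ⟨G, hG, h⟩ := H (Set.range S) (Set.countable_range S)
  refine main G hG (fun n => h (S n) ⟨n, rfl⟩ (Cl G) ?_ ?_ ?_ ?_ ?_ ?_)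
  · rintro T ⟨I, J, hI, hJ, α, β, W, hW⟩
    refine ⟨I, J, hI, hJ, α, β, fun i j => (W i j)ᶜ, fun p => ?_⟩
    rw [Set.mem_compl_iff, Set.mem_compl_iff, hW]
  · rintro T ⟨I, J, hI, hJ, α, β, W, hW⟩ U ⟨I', J', hI', hJ', α', β', W', hW'⟩
    refine ⟨I × I', J × J', inferInstance, inferInstance, fun x => (α x, α' x),
      fun x => (β x, β' x), fun i j => W i.1 j.1 ∪ W' i.2 j.2, fun p => ?_⟩
    rw [Set.mem_union, Set.mem_union, hW, hW']
  · rintro T -
    refine ⟨Prop, Prop, inferInstance, inferInstance, fun x => ∃ y : ℝ, (x, y) ∈ T, fun y => y = 0,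
      fun i j => {_q | j ∧ i}, fun p => Iff.rfl⟩
  · rintro T -
    refine ⟨Prop, Prop, inferInstance, inferInstance, fun x => x = 0, fun y => ∃ x : ℝ, (x, y) ∈ T,
      fun i j => {_q | i ∧ j}, fun p => Iff.rfl⟩
  · rintro A - B - - -
    refine ⟨Prop, Prop, inferInstance, inferInstance, fun x => (x, (0:ℝ)) ∈ A,
      fun y => ((0:ℝ), y) ∈ B, fun i j => {_q | i ∧ j}, fun p => Iff.rfl⟩
  · intro g hg
    refine ⟨Unit, Unit, inferInstance, inferInstance, fun _ => (), fun _ => (),
      fun _ _ => {q | (⟨g, hg⟩ : G) ∈ q}, fun p => Iff.rfl⟩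

end Pool.Agent.S3530
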