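import Pool.Statements.S3572
import Pool.Agent.H21.Jcs4

set_option autoImplicit false
open Pool Pool.MP_708d71_lc

namespace Pool.Agent.S3572

/-- The negation of the preceding statement: There is a monotone grammar whose language under jumping derivations (delete a rule's left side anywhere, insert its right side anywhere) is generated by no context-sensitive grammar under jumping derivations. -/
theorem result :
    ¬ (∃ (T : Type) (_ : Fintype T) (N : Type) (_ : Fintype N) (S : N)
      (P : Finset (List (Symbol T N) × List (Symbol T N))),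
      (∀ r ∈ P, (∃ A : N, Symbol.nonterminal A ∈ r.1) ∧ r.1.length ≤ r.2.length) ∧
      ∀ (N' : Type) (_ : Fintype N') (S' : N')
        (P' : Finset (List (Symbol T N') × List (Symbol T N'))),
        (∀ r ∈ P', ∃ (α β γ : List (Symbol T N')) (A : N'), γ ≠ [] ∧
            r.1 = α ++ [Symbol.nonterminal A] ++ β ∧ r.2 = α ++ γ ++ β) →
        {w : List T | Relation.ReflTransGen
            (fun (x y : List (Symbol T N)) => ∃ r ∈ P, ∃ (u v u' v' : List (Symbol T N)),
              x = u ++ r.1 ++ v ∧ y = u' ++ r.2 ++ v' ∧ u ++ v = u' ++ v')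
            [Symbol.nonterminal S] (w.map Symbol.terminal)} ≠
        {w : List T | Relation.ReflTransGen
            (fun (x y : List (Symbol T N')) => ∃ r ∈ P', ∃ (u v u' v' : List (Symbol T N')),
              x = u ++ r.1 ++ v ∧ y = u' ++ r.2 ++ v' ∧ u ++ v = u' ++ v')
            [Symbol.nonterminal S'] (w.map Symbol.terminal)}) := by
  rintro ⟨T, _, N, _, S, P, hmon, hne⟩
  obtain ⟨N', i', S', P', hcs, hL⟩ := Pool.Agent.H21.Jcs.main S P hmon
  refine hne N' i' S' P' ?_ ?_
  · intro r hr
    obtain ⟨α, β, γ, A, h1, h2, h3⟩ := hcs r hr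
    exact ⟨α, β, γ, A, h1, h2, h3⟩
  · have e1 : ∀ {M : Type} (Q : Finset (List (Symbol T M) × List (Symbol T M))),
        (fun (x y : List (Symbol T M)) => ∃ r ∈ Q, ∃ (u v u' v' : List (Symbol T M)),
              x = u ++ r.1 ++ v ∧ y = u' ++ r.2 ++ v' ∧ u ++ v = u' ++ v') =
        Pool.Agent.H21.Jcs.JStep (fun l r => (l, r) ∈ Q) := by
      intro M Q
      funext x y
      apply propext
      constructor
      · rintro ⟨⟨l, r⟩, hr, h⟩
        exact ⟨l, r, hr, h⟩
      · rintro ⟨l, r, hr, h⟩
        exact ⟨(l, r), hr, h⟩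
    ext w
    rw [Set.mem_setOf_eq, Set.mem_setOf_eq, e1 P, e1 P']
    exact hL w

end Pool.Agent.S3572
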