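import Pool.Statements.S3575

set_option autoImplicit false
open Pool Pool.MP_73efbe_lc

namespace Pool.Agent.S3575

open Nat.Partrec (Code)
open Nat.Partrec.Code

/-! ### Nodes -/

/-- The `i`-th element (`i = 0, 1`) of the `k`-th pair of children of `n`. -/
def child (n k i : ℕ) : ℕ := 2 * Nat.pair n k + i + 1

theorem lt_child (n k i : ℕ) : n < child n k i := by
  have := Nat.left_le_pair n k
  unfold child; omega

theorem child_inj {n k i n' k' i' : ℕ} (hi : i < 2) (hi' : i' < 2)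
    (h : child n k i = child n' k' i') : n = n' ∧ k = k' ∧ i = i' := by
  unfold child at h
  have h1 : Nat.pair n k = Nat.pair n' k' := by omega
  have h2 : i = i' := by omega
  have := Nat.pair_eq_pair.1 h1
  exact ⟨this.1, this.2, h2⟩

/-- Nodes: `(n, true)` are the `A`-nodes, `(n, false)` the `B`-nodes. -/
abbrev Node := ℕ × Bool

/-- Closure of a set of nodes: both members of a pair of children put the parent in. -/
inductive Cl (P : Set Node) : Node → Prop
  | base {x : Node} : x ∈ P → Cl P x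
  | up {n k : ℕ} {s : Bool} : Cl P (child n k 0, s) → Cl P (child n k 1, s) → Cl P (n, !s)

theorem Cl.mono {P Q : Set Node} (h : ∀ x ∈ P, Cl Q x) {x : Node} (hx : Cl P x) : Cl Q x := by
  induction hx with
  | base hx => exact h _ hx
  | up _ _ h0 h1 => exact Cl.up h0 h1

theorem Cl.subset {P Q : Set Node} (h : P ⊆ Q) {x : Node} (hx : Cl P x) : Cl Q x :=
  hx.mono fun _ hx => Cl.base (h hx)

theorem Cl.bound {P : Set Node} {M : ℕ} (h : ∀ x ∈ P, x.1 ≤ M) {x : Node} (hx : Cl P x) :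
    x.1 ≤ M := by
  induction hx with
  | base hx => exact h _ hx
  | @up n k s _ _ h0 _ => exact le_trans (le_of_lt (lt_child n k 0)) h0

theorem Cl.insert_cases {P : Set Node} {y x : Node} (hx : Cl (insert y P) x) :
    Cl P x ∨ x = y ∨ x.1 < y.1 := by
  induction hx with
  | base hx =>
    rcases hx with rfl | hx
    · exact Or.inr (Or.inl rfl)
    · exact Or.inl (Cl.base hx)
  | @up n k s _ _ h0 h1 =>
    have l0 := lt_child n k 0
    have l1 := lt_child n k 1
    rcases h0 with h0 | h0 | h0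
    · rcases h1 with h1 | h1 | h1
      · exact Or.inl (Cl.up h0 h1)
      · right; right
        rw [← h1]; exact l1
      · right; right
        exact lt_trans l1 h1
    · right; right
      rw [← h0]; exact l0
    · right; right
      exact lt_trans l0 h0

theorem Cl.insert_far {P : Set Node} {M : ℕ} (h : ∀ x ∈ P, x.1 ≤ M) {y x : Node}
    (hy : M + 1 < y.1) (hx : Cl (insert y P) x) : Cl P x ∨ x = y := by
  induction hx with
  | base hx =>
    rcases hx with rfl | hx
    · exact Or.inr rfl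
    · exact Or.inl (Cl.base hx)
  | @up n k s _ _ h0 h1 =>
    left
    rcases h0 with h0 | h0
    · rcases h1 with h1 | h1
      · exact Cl.up h0 h1
      · exfalso
        have b := h0.bound h
        rw [← h1] at hy
        simp only [child] at b hy
        omega
    · rcases h1 with h1 | h1
      · exfalso
        have b := h1.bound h
        rw [← h0] at hy
        simp only [child] at b hy
        omega
      · exfalso
        rw [← h0] at h1
        have := (child_inj (i := 1) (i' := 0) (by norm_num) (by norm_num)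
          (congrArg Prod.fst h1)).2.2
        omega

theorem Cl.insert_children {P : Set Node} {n k : ℕ} {s : Bool} (hP : (n, !s) ∈ P) {x : Node}
    (hx : Cl (insert (child n k 0, s) (insert (child n k 1, s) P)) x) :
    Cl P x ∨ x = (child n k 0, s) ∨ x = (child n k 1, s) := by
  induction hx with
  | base hx =>
    rcases hx with rfl | rfl | hx
    · exact Or.inr (Or.inl rfl)
    · exact Or.inr (Or.inr rfl)
    · exact Or.inl (Cl.base hx)
  | @up n' k' s' _ _ h0 h1 =>
    left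
    have key : ∀ i i' : ℕ, i < 2 → i' < 2 → (child n' k' i, s') = (child n k i', s) →
        Cl P (n', !s') := by
      intro i i' hi hi' h
      have h1 := (child_inj hi hi' (congrArg Prod.fst h)).1
      have h2 : s' = s := congrArg Prod.snd h
      rw [h1, h2]
      exact Cl.base hP
    rcases h0 with h0 | h0 | h0
    · rcases h1 with h1 | h1 | h1
      · exact Cl.up h0 h1
      · exact key 1 0 (by norm_num) (by norm_num) h1
      · exact key 1 1 (by norm_num) (by norm_num) h1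
    · exact key 0 0 (by norm_num) (by norm_num) h0
    · exact key 0 1 (by norm_num) (by norm_num) h0

/-! ### Forcing conditions -/

structure Cond where
  P : Set Node
  N : Set Node
  finP : P.Finite
  finN : N.Finite
  cons : ∀ z ∈ N, ¬ Cl P z

/-- `q` extends `p`. -/
def Ext (q p : Cond) : Prop := p.P ⊆ q.P ∧ p.N ⊆ q.N

theorem Ext.refl (p : Cond) : Ext p p := ⟨subset_rfl, subset_rfl⟩

theorem Ext.trans {p q r : Cond} (h1 : Ext r q) (h2 : Ext q p) : Ext r p :=
  ⟨h2.1.trans h1.1, h2.2.trans h1.2⟩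

/-- The nodes that cannot be added to `p`. -/
def Bad (p : Cond) : Set Node := {y | ∃ z ∈ p.N, Cl (insert y p.P) z}

theorem exists_bound {S : Set Node} (h : S.Finite) : ∃ M : ℕ, ∀ x ∈ S, x.1 ≤ M := by
  obtain ⟨M, hM⟩ := (h.image Prod.fst).bddAbove
  exact ⟨M, fun x hx => hM ⟨x, hx, rfl⟩⟩

theorem bad_finite (p : Cond) : (Bad p).Finite := by
  obtain ⟨M, hM⟩ := exists_bound (p.finP.union p.finN)
  have hP : ∀ x ∈ p.P, x.1 ≤ M := fun x hx => hM x (Or.inl hx)
  have hN : ∀ x ∈ p.N, x.1 ≤ M := fun x hx => hM x (Or.inr hx)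
  refine Set.Finite.subset ((Set.finite_Iic (M + 1)).prod (Set.finite_univ (α := Bool))) ?_
  rintro y ⟨z, hz, hcl⟩
  refine ⟨?_, Set.mem_univ _⟩
  by_contra hcon
  have hy : M + 1 < y.1 := by
    simpa using hcon
  rcases hcl.insert_far hP hy with h | h
  · exact p.cons z hz h
  · have := hN z hz
    rw [h] at this
    omega

/-- Add a node positively. -/
def addP (p : Cond) (y : Node) (h : y ∉ Bad p) : Cond where
  P := insert y p.P
  N := p.N
  finP := p.finP.insert y
  finN := p.finN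
  cons := fun z hz hcl => h ⟨z, hz, hcl⟩

theorem addP_ext (p : Cond) (y : Node) (h : y ∉ Bad p) : Ext (addP p y h) p :=
  ⟨Set.subset_insert _ _, subset_rfl⟩

/-- Add finitely many nodes negatively. -/
def addN (p : Cond) (T : Set Node) (hT : T.Finite) (h : ∀ z ∈ T, ¬ Cl p.P z) : Cond where
  P := p.P
  N := p.N ∪ T
  finP := p.finP
  finN := p.finN.union hT
  cons := by
    rintro z (hz | hz)
    · exact p.cons z hz
    · exact h z hz

theorem addN_ext (p : Cond) (T : Set Node) (hT : T.Finite) (h : ∀ z ∈ T, ¬ Cl p.P z) :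
    Ext (addN p T hT h) p :=
  ⟨subset_rfl, Set.subset_union_left⟩

theorem not_bad_of_cl {p : Cond} {y : Node} (h : Cl p.P y) : y ∉ Bad p := by
  rintro ⟨z, hz, hcl⟩
  refine p.cons z hz (hcl.mono ?_)
  rintro x (rfl | hx)
  · exact h
  · exact Cl.base hx

theorem not_bad_of_mem {p q : Cond} (hqp : Ext q p) {y : Node} (h : y ∈ q.P) : y ∉ Bad p := by
  rintro ⟨z, hz, hcl⟩
  refine q.cons z (hqp.2 hz) (hcl.subset ?_)
  rintro x (rfl | hx)
  · exact h
  · exact hqp.1 hx

/-- Deciding a node. -/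
theorem dense_decide (x : Node) (p : Cond) : ∃ q, Ext q p ∧ (x ∈ q.P ∨ x ∈ q.N) := by
  by_cases h : Cl p.P x
  · exact ⟨addP p x (not_bad_of_cl h), addP_ext _ _ _, Or.inl (Set.mem_insert _ _)⟩
  · refine ⟨addN p {x} (Set.finite_singleton x) ?_, addN_ext _ _ _ _, Or.inr (Or.inr rfl)⟩
    rintro z rfl
    exact h

/-- Supporting a positive node by a pair of children. -/
theorem dense_support (n : ℕ) (s : Bool) (p : Cond) :
    ∃ q, Ext q p ∧ ((n, !s) ∈ q.P → ∃ k, (child n k 0, s) ∈ q.P ∧ (child n k 1, s) ∈ q.P) := by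
  by_cases h : (n, !s) ∈ p.P
  · obtain ⟨M, hM⟩ := exists_bound p.finN
    have hbig : ∀ i, M < child n M i := by
      intro i
      have := Nat.right_le_pair n M
      unfold child; omega
    have hcons : ∀ z ∈ p.N,
        ¬ Cl (insert (child n M 0, s) (insert (child n M 1, s) p.P)) z := by
      intro z hz hcl
      rcases hcl.insert_children h with h1 | h1 | h1
      · exact p.cons z hz h1
      · have := hM z hz
        rw [h1] at this
        exact absurd (hbig 0) (not_lt.2 this)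
      · have := hM z hz
        rw [h1] at this
        exact absurd (hbig 1) (not_lt.2 this)
    refine ⟨⟨insert (child n M 0, s) (insert (child n M 1, s) p.P), p.N,
      (p.finP.insert _).insert _, p.finN, hcons⟩, ⟨?_, subset_rfl⟩, fun _ => ⟨M, ?_, ?_⟩⟩
    · exact (Set.subset_insert _ _).trans (Set.subset_insert _ _)
    · exact Set.mem_insert _ _
    · exact Set.mem_insert_of_mem _ (Set.mem_insert _ _)
  · exact ⟨p, Ext.refl p, fun h' => absurd h' h⟩

/-- Diagonalising against a set `D` of natural numbers. -/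
theorem dense_diag (D : Set ℕ) (s : Bool) (p : Cond) :
    ∃ q, Ext q p ∧ ∃ n, ((n, s) ∈ q.P ∧ n ∉ D) ∨ ((n, s) ∈ q.N ∧ n ∈ D) := by
  obtain ⟨M, hM⟩ := exists_bound p.finP
  obtain ⟨M', hM'⟩ := exists_bound (bad_finite p)
  set n := M + M' + 1 with hn
  by_cases hD : n ∈ D
  · refine ⟨addN p {(n, s)} (Set.finite_singleton _) ?_, addN_ext _ _ _ _, n,
      Or.inr ⟨Or.inr rfl, hD⟩⟩
    rintro z rfl hcl
    have := hcl.bound hM
    simp only at this
    omega
  · have hb : (n, s) ∉ Bad p := by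
      intro hb
      have := hM' _ hb
      simp only at this
      omega
    exact ⟨addP p (n, s) hb, addP_ext _ _ _, n, Or.inl ⟨Set.mem_insert _ _, hD⟩⟩

/-- Deciding whether a set of nodes is met. -/
theorem dense_meet (T : Set Node) (p : Cond) :
    ∃ q, Ext q p ∧ ((∃ y ∈ T, y ∈ q.P) ∨ ∀ r, Ext r q → ∀ y ∈ T, y ∉ r.P) := by
  by_cases h : ∃ q, Ext q p ∧ ∃ y ∈ T, y ∈ q.P
  · obtain ⟨q, hq, hy⟩ := h
    exact ⟨q, hq, Or.inl hy⟩
  · refine ⟨p, Ext.refl p, Or.inr fun r hr y hy hyr => h ⟨r, hr, y, hy, hyr⟩⟩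

/-- The splitting property for a pair of families of sets of nodes. -/
def Split (T : ℕ → Bool → Set Node) (q : Cond) : Prop :=
  ∃ x, ∃ s, (∃ y ∈ T x s, y ∈ q.P) ∧ ∀ r, Ext r q → ∀ y ∈ T x (!s), y ∉ r.P

theorem dense_split (T : ℕ → Bool → Set Node) (p : Cond) :
    ∃ q, Ext q p ∧ (Split T q ∨ ∀ r, Ext r q → ¬ Split T r) := by
  by_cases h : ∃ q, Ext q p ∧ Split T q
  · obtain ⟨q, hq, hs⟩ := h
    exact ⟨q, hq, Or.inl hs⟩
  · exact ⟨p, Ext.refl p, Or.inr fun r hr hs => h ⟨r, hr, hs⟩⟩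

/-! ### Generic sequences -/

theorem generic {ι : Type} [Countable ι] [Nonempty ι] (D : ι → Cond → Prop)
    (dense : ∀ i p, ∃ q, Ext q p ∧ D i q) :
    ∃ p : ℕ → Cond, (∀ m n, m ≤ n → Ext (p n) (p m)) ∧ ∀ i, ∃ n, D i (p n) := by
  obtain ⟨g, hg⟩ := exists_surjective_nat ι
  choose F hF1 hF2 using dense
  let p0 : Cond := ⟨∅, ∅, Set.finite_empty, Set.finite_empty, by simp⟩
  let p : ℕ → Cond := fun n => Nat.rec p0 (fun n q => F (g n) q) n
  have hp : ∀ n, p (n + 1) = F (g n) (p n) := fun n => rfl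
  refine ⟨p, ?_, ?_⟩
  · intro m n hmn
    induction n, hmn using Nat.le_induction with
    | base => exact Ext.refl _
    | succ n _ ih =>
      rw [hp]
      exact (hF1 _ _).trans ih
  · intro i
    obtain ⟨n, hn⟩ := hg i
    refine ⟨n + 1, ?_⟩
    rw [hp, ← hn]
    exact hF2 _ _

/-! ### Computability -/

/-- The c.e. subset of `ℕ × ℕ` with code `c`. -/
def W (c : Code) : Set (ℕ × ℕ) := {p | (eval c (Nat.pair p.1 p.2)).Dom}

theorem exists_W {V : Set (ℕ × ℕ)}
    (h : ∃ f : ℕ × ℕ →. ℕ, Partrec f ∧ ∀ p : ℕ × ℕ, (f p).Dom ↔ p ∈ V) : ∃ c, V = W c := by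
  obtain ⟨f, hf, hV⟩ := h
  obtain ⟨c, hc⟩ := exists_code.1 hf
  refine ⟨c, ?_⟩
  ext p
  rw [← hV p]
  simp only [W, Set.mem_setOf_eq, hc]
  have : (Encodable.decode (α := ℕ × ℕ) (Nat.pair p.1 p.2)) = some p := by
    have := Encodable.encodek p
    simpa using this
  rw [this]
  simp

theorem primrec_mem_finite {F : Set ℕ} (hF : F.Finite) :
    ∃ g : ℕ → Bool, Primrec g ∧ ∀ n, g n = true ↔ n ∈ F := by
  induction F, hF using Set.Finite.induction_on with
  | empty => exact ⟨fun _ => false, Primrec.const false, by simp⟩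
  | @insert a s _ _ ih =>
    obtain ⟨g, hg, hg'⟩ := ih
    refine ⟨fun n => (decide (n = a)) || g n, ?_, ?_⟩
    · exact Primrec.or.comp ((Primrec.eq.comp Primrec.id (Primrec.const a)).decide) hg
    · intro n
      simp [hg']

theorem proj_ce (c : Code) {F : Set ℕ} (hF : F.Finite) :
    ∃ f : ℕ →. ℕ, Partrec f ∧ ∀ x, (f x).Dom ↔ ∃ a, (x, a) ∈ W c ∧ a ∉ F := by
  obtain ⟨g, hg, hg'⟩ := primrec_mem_finite hF
  let h : ℕ → ℕ → Bool := fun x z =>
    (!(g z.unpair.1)) && (evaln z.unpair.2 c (Nat.pair x z.unpair.1)).isSome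
  have hh : Primrec₂ h := by
    have h1 : Primrec fun p : ℕ × ℕ => p.2.unpair.1 :=
      Primrec.fst.comp (Primrec.unpair.comp Primrec.snd)
    have h2 : Primrec fun p : ℕ × ℕ => p.2.unpair.2 :=
      Primrec.snd.comp (Primrec.unpair.comp Primrec.snd)
    have h3 : Primrec fun p : ℕ × ℕ => Nat.pair p.1 p.2.unpair.1 :=
      Primrec₂.natPair.comp Primrec.fst h1
    have h4 : Primrec fun p : ℕ × ℕ => evaln p.2.unpair.2 c (Nat.pair p.1 p.2.unpair.1) :=
      primrec_evaln.comp ((h2.pair (Primrec.const c)).pair h3)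
    exact Primrec.and.comp (Primrec.not.comp (hg.comp h1)) (Primrec.option_isSome.comp h4)
  refine ⟨fun x => Nat.rfind (h x : ℕ →. Bool), ?_, ?_⟩
  · exact Partrec.rfind (p := fun x => (h x : ℕ →. Bool)) hh.to_comp.partrec₂
  · intro x
    refine Iff.trans (Nat.rfind_dom (p := (h x : ℕ →. Bool))) ?_
    constructor
    · rintro ⟨z, hz, -⟩
      have hz' : h x z = true := by simpa using hz
      simp only [h, Bool.and_eq_true, Bool.not_eq_true', Option.isSome_iff_exists] at hz'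
      obtain ⟨h1, v, hv⟩ := hz'
      refine ⟨z.unpair.1, ?_, ?_⟩
      · have : v ∈ eval c (Nat.pair x z.unpair.1) := evaln_sound (k := z.unpair.2) hv
        exact Part.dom_iff_mem.2 ⟨v, this⟩
      · intro hF'
        rw [← hg'] at hF'
        rw [hF'] at h1
        exact absurd h1 (by simp)
    · rintro ⟨a, ha, haF⟩
      obtain ⟨v, hv⟩ := Part.dom_iff_mem.1 ha
      obtain ⟨k, hk⟩ := evaln_complete.1 hv
      refine ⟨Nat.pair a k, ?_, fun _ => trivial⟩
      have : h x (Nat.pair a k) = true := by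
        simp only [h, Nat.unpair_pair, Bool.and_eq_true, Bool.not_eq_true',
          Option.isSome_iff_exists]
        refine ⟨?_, v, hk⟩
        by_contra hcon
        rw [Bool.not_eq_false] at hcon
        exact haF ((hg' a).1 hcon)
      simp [this]

/-- The axioms of the enumeration operator. -/
theorem op_ce : ∃ f : ℕ × List ℕ →. ℕ, Partrec f ∧ ∀ p : ℕ × List ℕ,
    (f p).Dom ↔ p ∈ {p : ℕ × List ℕ | ∃ k, p.2 = [child p.1 k 0, child p.1 k 1]} := by
  let h : ℕ × List ℕ → ℕ → Bool := fun p k => decide (p.2 = [child p.1 k 0, child p.1 k 1])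
  have hch : ∀ i, Primrec fun p : (ℕ × List ℕ) × ℕ => child p.1.1 p.2 i := by
    intro i
    have h1 : Primrec fun p : (ℕ × List ℕ) × ℕ => Nat.pair p.1.1 p.2 :=
      Primrec₂.natPair.comp (Primrec.fst.comp Primrec.fst) Primrec.snd
    have h2 : Primrec fun p : (ℕ × List ℕ) × ℕ => 2 * Nat.pair p.1.1 p.2 :=
      Primrec.nat_mul.comp (Primrec.const 2) h1
    have h3 : Primrec fun p : (ℕ × List ℕ) × ℕ => 2 * Nat.pair p.1.1 p.2 + i :=
      Primrec.nat_add.comp h2 (Primrec.const i)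
    exact Primrec.succ.comp h3
  have hh : Primrec₂ h := by
    have h4 : Primrec fun p : (ℕ × List ℕ) × ℕ =>
        [child p.1.1 p.2 0, child p.1.1 p.2 1] :=
      Primrec.list_cons.comp (hch 0) (Primrec.list_cons.comp (hch 1) (Primrec.const []))
    exact (Primrec.eq.comp (Primrec.snd.comp Primrec.fst) h4).decide
  refine ⟨fun p => Nat.rfind (h p : ℕ →. Bool), ?_, ?_⟩
  · exact Partrec.rfind (p := fun p => (h p : ℕ →. Bool)) hh.to_comp.partrec₂
  · intro p
    refine Iff.trans (Nat.rfind_dom (p := (h p : ℕ →. Bool))) ?_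
    constructor
    · rintro ⟨k, hk, -⟩
      exact ⟨k, by simpa [h] using hk⟩
    · rintro ⟨k, hk⟩
      exact ⟨k, by simpa [h] using hk, fun _ => trivial⟩

/-! ### The main argument -/

/-- The family of sets of nodes attached to a pair of codes. -/
def T (c1 c2 : Code) (x : ℕ) : Bool → Set Node
  | true => {y | y.2 = true ∧ (x, y.1) ∈ W c1}
  | false => {y | y.2 = false ∧ (x, y.1) ∈ W c2}

theorem T_snd {c1 c2 : Code} {x : ℕ} {s : Bool} {y : Node} (h : y ∈ T c1 c2 x s) : y.2 = s := by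
  cases s
  · exact h.1
  · exact h.1

/-- The requirements. -/
inductive Req
  | node (x : Node)
  | supp (n : ℕ) (s : Bool)
  | diag (c : Code) (s : Bool)
  | meet (c1 c2 : Code) (x : ℕ) (s : Bool)
  | split (c1 c2 : Code)

def reqEquiv : Req ≃ ((Node ⊕ (ℕ × Bool)) ⊕ (Code × Bool)) ⊕
    ((Code × Code × ℕ × Bool) ⊕ (Code × Code)) where
  toFun
    | .node x => .inl (.inl (.inl x))
    | .supp n s => .inl (.inl (.inr (n, s)))
    | .diag c s => .inl (.inr (c, s))
    | .meet c1 c2 x s => .inr (.inl (c1, c2, x, s))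
    | .split c1 c2 => .inr (.inr (c1, c2))
  invFun
    | .inl (.inl (.inl x)) => .node x
    | .inl (.inl (.inr (n, s))) => .supp n s
    | .inl (.inr (c, s)) => .diag c s
    | .inr (.inl (c1, c2, x, s)) => .meet c1 c2 x s
    | .inr (.inr (c1, c2)) => .split c1 c2
  left_inv := by rintro (_ | _ | _ | _ | _) <;> rfl
  right_inv := by rintro (((_ | ⟨_, _⟩) | ⟨_, _⟩) | (⟨_, _, _, _⟩ | ⟨_, _⟩)) <;> rfl

instance : Countable Req := reqEquiv.injective.countable
instance : Nonempty Req := ⟨.node (0, true)⟩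

def Dense : Req → Cond → Prop
  | .node x, q => x ∈ q.P ∨ x ∈ q.N
  | .supp n s, q => (n, !s) ∈ q.N ∨ ∃ k, (child n k 0, s) ∈ q.P ∧ (child n k 1, s) ∈ q.P
  | .diag c s, q => ∃ n, ((n, s) ∈ q.P ∧ ¬ (eval c n).Dom) ∨ ((n, s) ∈ q.N ∧ (eval c n).Dom)
  | .meet c1 c2 x s, q => (∃ y ∈ T c1 c2 x s, y ∈ q.P) ∨
      ∀ r, Ext r q → ∀ y ∈ T c1 c2 x s, y ∉ r.P
  | .split c1 c2, q => Split (T c1 c2) q ∨ ∀ r, Ext r q → ¬ Split (T c1 c2) r

theorem dense_all : ∀ i p, ∃ q, Ext q p ∧ Dense i q := by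
  rintro (x | ⟨n, s⟩ | ⟨c, s⟩ | ⟨c1, c2, x, s⟩ | ⟨c1, c2⟩) p
  · exact dense_decide x p
  · obtain ⟨q, hq, h⟩ := dense_decide (n, !s) p
    rcases h with h | h
    · obtain ⟨r, hr, h'⟩ := dense_support n s q
      exact ⟨r, hr.trans hq, Or.inr (h' (hr.1 h))⟩
    · exact ⟨q, hq, Or.inl h⟩
  · exact dense_diag {n | (eval c n).Dom} s p
  · exact dense_meet _ p
  · exact dense_split _ p

/-- There are non-c.e. sets A, B of the same enumeration degree such that every set s-reducible to both A and B is c.e. -/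
theorem result :
    ∃ A B : Set ℕ,
      (∃ W : Set (ℕ × List ℕ),
        (∃ f : ℕ × List ℕ →. ℕ, Partrec f ∧ ∀ p : ℕ × List ℕ, (f p).Dom ↔ p ∈ W) ∧
        ∀ x : ℕ, x ∈ A ↔ ∃ l : List ℕ, (x, l) ∈ W ∧ ∀ y ∈ l, y ∈ B) ∧
      (∃ W : Set (ℕ × List ℕ),
        (∃ f : ℕ × List ℕ →. ℕ, Partrec f ∧ ∀ p : ℕ × List ℕ, (f p).Dom ↔ p ∈ W) ∧
        ∀ x : ℕ, x ∈ B ↔ ∃ l : List ℕ, (x, l) ∈ W ∧ ∀ y ∈ l, y ∈ A) ∧
      (¬ ∃ f : ℕ →. ℕ, Partrec f ∧ ∀ n : ℕ, (f n).Dom ↔ n ∈ A) ∧
      (¬ ∃ f : ℕ →. ℕ, Partrec f ∧ ∀ n : ℕ, (f n).Dom ↔ n ∈ B) ∧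
      ∀ C : Set ℕ,
        (∃ W : Set (ℕ × ℕ),
          (∃ f : ℕ × ℕ →. ℕ, Partrec f ∧ ∀ p : ℕ × ℕ, (f p).Dom ↔ p ∈ W) ∧
          ∀ x : ℕ, x ∈ C ↔ ∃ y ∈ A, (x, y) ∈ W) →
        (∃ W : Set (ℕ × ℕ),
          (∃ f : ℕ × ℕ →. ℕ, Partrec f ∧ ∀ p : ℕ × ℕ, (f p).Dom ↔ p ∈ W) ∧
          ∀ x : ℕ, x ∈ C ↔ ∃ y ∈ B, (x, y) ∈ W) →
        ∃ f : ℕ →. ℕ, Partrec f ∧ ∀ n : ℕ, (f n).Dom ↔ n ∈ C := by
  obtain ⟨p, hmono, hgen⟩ := generic Dense dense_all
  -- the generic set
  let X : Set Node := {x | ∃ n, x ∈ (p n).P}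
  have hXN : ∀ {x : Node} {n : ℕ}, x ∈ (p n).N → x ∉ X := by
    rintro x n hx ⟨m, hm⟩
    have h1 := (hmono n (max m n) (le_max_right _ _)).2 hx
    have h2 := (hmono m (max m n) (le_max_left _ _)).1 hm
    exact (p (max m n)).cons x h1 (Cl.base h2)
  have hXor : ∀ x : Node, x ∈ X ∨ ∃ n, x ∈ (p n).N := by
    intro x
    obtain ⟨n, hn⟩ := hgen (.node x)
    rcases hn with hn | hn
    · exact Or.inl ⟨n, hn⟩
    · exact Or.inr ⟨n, hn⟩
  have hClX : ∀ {n : ℕ} {x : Node}, Cl (p n).P x → x ∈ X := by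
    intro n x hx
    rcases hXor x with h | ⟨m, hm⟩
    · exact h
    · exfalso
      have h1 := (hmono m (max m n) (le_max_left _ _)).2 hm
      have h2 := hx.subset (hmono n (max m n) (le_max_right _ _)).1
      exact (p (max m n)).cons x h1 h2
  have hup : ∀ (n : ℕ) (s : Bool), (n, !s) ∈ X ↔
      ∃ k, (child n k 0, s) ∈ X ∧ (child n k 1, s) ∈ X := by
    intro n s
    constructor
    · intro hx
      obtain ⟨m', hm'⟩ := hgen (.supp n s)
      rcases hm' with hm' | ⟨k, h0, h1⟩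
      · exact absurd hx (hXN hm')
      · exact ⟨k, ⟨m', h0⟩, ⟨m', h1⟩⟩
    · rintro ⟨k, ⟨m0, h0⟩, ⟨m1, h1⟩⟩
      have h0' := (hmono m0 (max m0 m1) (le_max_left _ _)).1 h0
      have h1' := (hmono m1 (max m0 m1) (le_max_right _ _)).1 h1
      exact hClX (Cl.up (Cl.base h0') (Cl.base h1'))
  have hnotce : ∀ s : Bool, ¬ ∃ f : ℕ →. ℕ, Partrec f ∧ ∀ n : ℕ, (f n).Dom ↔ (n, s) ∈ X := by
    rintro s ⟨f, hf, hX⟩
    obtain ⟨c, hc⟩ := exists_code.1 (Partrec.nat_iff.1 hf)
    obtain ⟨m, n, h | h⟩ := hgen (.diag c s)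
    · rw [hc] at h
      exact h.2 ((hX n).2 ⟨m, h.1⟩)
    · rw [hc] at h
      exact hXN h.1 ((hX n).1 h.2)
  have hred : ∀ s : Bool, ∃ W : Set (ℕ × List ℕ),
      (∃ f : ℕ × List ℕ →. ℕ, Partrec f ∧ ∀ p : ℕ × List ℕ, (f p).Dom ↔ p ∈ W) ∧
      ∀ x : ℕ, (x, !s) ∈ X ↔ ∃ l : List ℕ, (x, l) ∈ W ∧ ∀ y ∈ l, (y, s) ∈ X := by
    intro s
    refine ⟨_, op_ce, fun x => ?_⟩
    rw [hup]
    constructor
    · rintro ⟨k, h0, h1⟩
      refine ⟨[child x k 0, child x k 1], ⟨k, rfl⟩, ?_⟩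
      intro y hy
      simp only [List.mem_cons, List.not_mem_nil, or_false] at hy
      rcases hy with rfl | rfl
      · exact h0
      · exact h1
    · rintro ⟨l, ⟨k, hk⟩, hl⟩
      simp only at hk
      subst hk
      exact ⟨k, hl _ (by simp), hl _ (by simp)⟩
  refine ⟨{n | (n, true) ∈ X}, {n | (n, false) ∈ X}, hred false, hred true, hnotce true,
    hnotce false, ?_⟩
  rintro C ⟨W1, hW1, hC1⟩ ⟨W2, hW2, hC2⟩
  obtain ⟨c1, rfl⟩ := exists_W hW1
  obtain ⟨c2, rfl⟩ := exists_W hW2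
  have hC : ∀ x s, x ∈ C ↔ ∃ y ∈ T c1 c2 x s, y ∈ X := by
    intro x s
    cases s
    · rw [hC2]
      constructor
      · rintro ⟨y, hy, hW⟩
        exact ⟨(y, false), ⟨rfl, hW⟩, hy⟩
      · rintro ⟨⟨y, s⟩, ⟨hs, hW⟩, hy⟩
        simp only at hs hW
        subst hs
        exact ⟨y, hy, hW⟩
    · rw [hC1]
      constructor
      · rintro ⟨y, hy, hW⟩
        exact ⟨(y, true), ⟨rfl, hW⟩, hy⟩
      · rintro ⟨⟨y, s⟩, ⟨hs, hW⟩, hy⟩
        simp only at hs hW
        subst hs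
        exact ⟨y, hy, hW⟩
  obtain ⟨m, hm⟩ := hgen (.split c1 c2)
  rcases hm with ⟨x, s, ⟨y, hyT, hyP⟩, hno⟩ | hns
  · exfalso
    have h1 : x ∈ C := (hC x s).2 ⟨y, hyT, m, hyP⟩
    obtain ⟨z, hzT, m', hz⟩ := (hC x (!s)).1 h1
    have h2 := (hmono m' (max m m') (le_max_right _ _)).1 hz
    exact hno _ (hmono m (max m m') (le_max_left _ _)) z hzT h2
  · -- the main case
    have hfin : {a : ℕ | (a, true) ∈ Bad (p m)}.Finite := by
      have := (bad_finite (p m)).image Prod.fst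
      refine this.subset ?_
      intro a ha
      exact ⟨(a, true), ha, rfl⟩
    obtain ⟨f, hf, hfd⟩ := proj_ce c1 hfin
    refine ⟨f, hf, fun x => ?_⟩
    rw [hfd]
    constructor
    swap
    · intro hx
      obtain ⟨⟨a, s⟩, ⟨hs, haW⟩, m', ham⟩ := (hC x true).1 hx
      simp only at hs haW
      subst hs
      refine ⟨a, haW, ?_⟩
      have h2 := (hmono m' (max m m') (le_max_right _ _)).1 ham
      exact not_bad_of_mem (hmono m (max m m') (le_max_left _ _)) h2
    · rintro ⟨a, haW, haB⟩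
      by_contra hxC
      -- both fibres are finite
      have hT : ∀ s, (T c1 c2 x s).Finite := by
        intro s
        obtain ⟨n, hn⟩ := hgen (.meet c1 c2 x s)
        rcases hn with ⟨y, hyT, hyP⟩ | hno
        · exact absurd ((hC x s).2 ⟨y, hyT, n, hyP⟩) hxC
        · refine (bad_finite (p n)).subset ?_
          intro y hy
          by_contra hb
          exact hno (addP (p n) y hb) (addP_ext _ _ _) y hy (Set.mem_insert _ _)
      have hTX : ∀ s, ∀ y ∈ T c1 c2 x s, y ∉ X := fun s y hy hyX =>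
        hxC ((hC x s).2 ⟨y, hy, hyX⟩)
      -- choose a shallowest consistent node
      let S : Set ℕ := {k | ∃ y : Node, y.1 = k ∧ (∃ s, y ∈ T c1 c2 x s) ∧ y ∉ Bad (p m)}
      have hS : ∃ k, k ∈ S := ⟨a, (a, true), rfl, ⟨true, rfl, haW⟩, haB⟩
      classical
      obtain ⟨y, hyk, ⟨s, hyT⟩, hyB⟩ := Nat.find_spec hS
      have hmin : ∀ k, k < y.1 → k ∉ S := by
        intro k hk
        rw [hyk] at hk
        exact Nat.find_min hS hk
      have hcons : ∀ z ∈ T c1 c2 x (!s), ¬ Cl (addP (p m) y hyB).P z := by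
        intro z hz hcl
        rcases hcl.insert_cases with h | h | h
        · exact hTX _ z hz (hClX h)
        · have h1 := T_snd hz
          have h2 := T_snd hyT
          rw [h, h2] at h1
          cases s <;> simp at h1
        · refine hmin z.1 h ⟨z, rfl, ⟨_, hz⟩, ?_⟩
          rintro ⟨w, hw, hwcl⟩
          refine hyB ⟨w, hw, hwcl.mono ?_⟩
          rintro v (rfl | hv)
          · exact hcl
          · exact Cl.base (Set.mem_insert_of_mem _ hv)
      let q := addN (addP (p m) y hyB) (T c1 c2 x (!s)) (hT _) hcons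
      have hq : Ext q (p m) := (addN_ext _ _ _ _).trans (addP_ext _ _ _)
      refine hns q hq ⟨x, s, ⟨y, hyT, Set.mem_insert _ _⟩, ?_⟩
      intro r hr z hz hzr
      exact r.cons z (hr.2 (Or.inr hz)) (Cl.base hzr)

end Pool.Agent.S3575
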