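import Pool.Statements.S3613
import Pool.Agent.Helpers25.ParikhE
-- import your own Pool.Agent.* helpers here

set_option autoImplicit false
open Pool Pool.MP_8b69ee_lc

namespace Pool.Agent.S3613

/-- For every non-regular language L over a finite alphabet that is the commutative closure of a regular set, the commutative closure of {a^m b^n : m ≠ n} equals h(g⁻¹(L) ∩ R) for some morphisms g, h and regular R, i.e. lies in the rational cone of L. -/
theorem result :
    ∀ (A : Type) [Finite A] (L : Language A),
      (∃ (σ : Type) (_ : Finite σ) (M : DFA A σ),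
          ∀ w : List A, w ∈ L ↔ ∃ v : List A, v ∈ M.accepts ∧ w.Perm v) →
      (¬ ∃ (σ : Type) (_ : Finite σ) (M : DFA A σ),
          ∀ w : List A, w ∈ L ↔ w ∈ M.accepts) →
      ∃ (C : Type) (_ : Finite C) (g : C → List A) (h : C → List (Fin 2))
        (τ : Type) (_ : Finite τ) (M : DFA C τ),
        ∀ x : List (Fin 2),
          (∃ m n : ℕ, m ≠ n ∧ x.Perm (List.replicate m (0 : Fin 2) ++ List.replicate n (1 : Fin 2))) ↔
            ∃ w : List C, w ∈ M.accepts ∧ w.flatMap g ∈ L ∧ w.flatMap h = x := by
  exact fun A _ L h1 h2 => Pool.Agent.Helpers25.Parikh.final A L h1 h2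

end Pool.Agent.S3613
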