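import Pool.Statements.S3616
import Pool.Agent.H27.HypMT

set_option autoImplicit false
open Pool Pool.MP_8bf454_lc

namespace Pool.Agent.S3616

open MeasureTheory ENNReal Pool.Agent.H27.HypComb Pool.Agent.H27.HypMT

/-- the finite group `SL₂(ℤ/(n+1))`, discrete. -/
def H (n : ℕ) : Type := Matrix.SpecialLinearGroup (Fin 2) (ZMod (n + 1))

instance (n : ℕ) : Group (H n) :=
  inferInstanceAs (Group (Matrix.SpecialLinearGroup (Fin 2) (ZMod (n + 1))))
instance (n : ℕ) : Finite (H n) :=
  inferInstanceAs (Finite (Matrix.SpecialLinearGroup (Fin 2) (ZMod (n + 1))))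
instance (n : ℕ) : TopologicalSpace (H n) := ⊥
instance (n : ℕ) : DiscreteTopology (H n) := ⟨rfl⟩
instance (n : ℕ) : MeasurableSpace (H n) := ⊤
instance (n : ℕ) : DiscreteMeasurableSpace (H n) := ⟨fun _ => trivial⟩
instance (n : ℕ) : BorelSpace (H n) := ⟨by
  have : borel (H n) = ⊤ := borel_eq_top_of_discrete
  rw [this]; rfl⟩

abbrev GG : Type := (n : ℕ) → H n

def ι : Γ →* GG where
  toFun γ := fun n => (Matrix.SpecialLinearGroup.map (Int.castRingHom (ZMod (n + 1))) γ)
  map_one' := by funext n; exact map_one _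
  map_mul' := fun a b => by funext n; exact map_mul _ a b

lemma ι_inj : Function.Injective ι := by
  rw [injective_iff_map_eq_one]
  intro γ hγ
  have h1 : ∀ n : ℕ, Matrix.SpecialLinearGroup.map (Int.castRingHom (ZMod (n + 1))) γ = 1 :=
    fun n => congrFun hγ n
  have h2 : ∀ i j : Fin 2, γ.1 i j = (1 : Matrix (Fin 2) (Fin 2) ℤ) i j := by
    intro i j
    have hz : ∀ n : ℕ, ((γ.1 i j - (1 : Matrix (Fin 2) (Fin 2) ℤ) i j : ℤ) : ZMod (n + 1)) = 0 := by
      intro n
      have := congrArg (fun m : Matrix.SpecialLinearGroup (Fin 2) (ZMod (n + 1)) => m.1 i j) (h1 n)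
      simp only [Matrix.SpecialLinearGroup.map_apply_coe, RingHom.mapMatrix_apply, Matrix.map_apply,
        Matrix.SpecialLinearGroup.coe_one] at this
      push_cast
      rw [sub_eq_zero]
      have e1 : ((1 : Matrix (Fin 2) (Fin 2) ℤ) i j : ZMod (n + 1)) = (1 : Matrix (Fin 2) (Fin 2) (ZMod (n+1))) i j := by
        by_cases hij : i = j
        · subst hij; simp
        · simp [Matrix.one_apply_ne hij]
      rw [e1]
      simpa using this
    set z := γ.1 i j - (1 : Matrix (Fin 2) (Fin 2) ℤ) i j with hzdef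
    have hd := hz (z.natAbs)
    rw [ZMod.intCast_zmod_eq_zero_iff_dvd] at hd
    have : z = 0 := by
      apply Int.eq_zero_of_abs_lt_dvd hd
      rw [Int.abs_eq_natAbs]; push_cast; omega
    omega
  apply Matrix.SpecialLinearGroup.ext
  intro i j
  simpa using h2 i j

/-- the graph -/
def gr : Digraph (GG × Bool) where
  Adj p q := p.2 = false ∧ q.2 = true ∧ (q.1 = p.1 ∨ q.1 = ι A * p.1 ∨ q.1 = ι B * p.1)

lemma gr_meas : MeasurableSet {p : (GG × Bool) × (GG × Bool) | gr.Adj p.1 p.2} := by
  have m1 : Measurable fun p : (GG × Bool) × (GG × Bool) => p.1.1 := measurable_fst.comp measurable_fst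
  have m2 : Measurable fun p : (GG × Bool) × (GG × Bool) => p.2.1 := measurable_fst.comp measurable_snd
  have m3 : Measurable fun p : (GG × Bool) × (GG × Bool) => p.1.2 := measurable_snd.comp measurable_fst
  have m4 : Measurable fun p : (GG × Bool) × (GG × Bool) => p.2.2 := measurable_snd.comp measurable_snd
  have s1 : MeasurableSet {p : (GG × Bool) × (GG × Bool) | p.1.2 = false} :=
    m3 (measurableSet_singleton false)
  have s2 : MeasurableSet {p : (GG × Bool) × (GG × Bool) | p.2.2 = true} :=
    m4 (measurableSet_singleton true)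
  have s3 : MeasurableSet {p : (GG × Bool) × (GG × Bool) | p.2.1 = p.1.1} :=
    measurableSet_eq_fun m2 m1
  have s4 : MeasurableSet {p : (GG × Bool) × (GG × Bool) | p.2.1 = ι A * p.1.1} :=
    measurableSet_eq_fun m2 (m1.const_mul _)
  have s5 : MeasurableSet {p : (GG × Bool) × (GG × Bool) | p.2.1 = ι B * p.1.1} :=
    measurableSet_eq_fun m2 (m1.const_mul _)
  exact s1.inter (s2.inter (s3.union (s4.union s5)))

lemma out_sub (x : GG × Bool) : {y | gr.Adj x y} ⊆
    ({(x.1, true), (ι A * x.1, true), (ι B * x.1, true)} : Set (GG × Bool)) := by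
  rintro ⟨y, b⟩ ⟨_, h2, h3⟩
  simp only at h2 h3
  subst h2
  rcases h3 with h | h | h <;> simp [h]

lemma in_sub (x : GG × Bool) : {y | gr.Adj y x} ⊆
    ({(x.1, false), ((ι A)⁻¹ * x.1, false), ((ι B)⁻¹ * x.1, false)} : Set (GG × Bool)) := by
  rintro ⟨y, b⟩ ⟨h1, _, h3⟩
  simp only at h1 h3
  subst h1
  rcases h3 with h | h | h
  · simp [h]
  · right; left; simp [h]
  · right; right; simp [h]

lemma three (a b c : GG × Bool) : ({a, b, c} : Set (GG × Bool)).ncard ≤ 3 := by
  have h1 := Set.ncard_insert_le a ({b, c} : Set (GG × Bool))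
  have h2 := Set.ncard_insert_le b ({c} : Set (GG × Bool))
  have h3 : ({c} : Set (GG × Bool)).ncard = 1 := Set.ncard_singleton c
  omega

lemma ball_sub (x : GG × Bool) (n : ℕ) : {y : GG × Bool | ∃ m ≤ n, ∃ f : ℕ → GG × Bool, f 0 = x ∧ f m = y ∧
            ∀ i < m, gr.Adj (f i) (f (i + 1))} ⊆
    insert x ({(x.1, true), (ι A * x.1, true), (ι B * x.1, true)} : Set (GG × Bool)) := by
  rintro y ⟨m, _, f, h0, hm, hf⟩
  rcases m with _ | _ | m
  · left; rw [← hm, h0]
  · right
    apply out_sub
    have := hf 0 (by omega)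
    rw [h0, hm] at this
    exact this
  · exfalso
    have a0 := hf 0 (by omega)
    have a1 := hf 1 (by omega)
    have := a0.2.1
    rw [a1.1] at this
    exact Bool.false_ne_true this

theorem main : ¬ (∃ F : ℕ → (GG × Bool) → (GG × Bool) → Prop,
        (∀ n, Equivalence (F n)) ∧
        (∀ n, MeasurableSet {p : (GG × Bool) × (GG × Bool) | F n p.1 p.2}) ∧
        (∀ n x, {y : GG × Bool | F n x y}.Finite) ∧
        (∀ n x y, F n x y → F (n + 1) x y) ∧
        (∀ x y, Relation.EqvGen gr.Adj x y ↔ ∃ n, F n x y)) := by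
  rintro ⟨F, hE, hM, hfin, hmono, hgen⟩
  let r : ℕ → GG → GG → Prop := fun n x y => F n (x, false) (y, false)
  have hr : ∀ n, Equivalence (r n) := fun n =>
    ⟨fun x => (hE n).refl _, fun h => (hE n).symm h, fun h h' => (hE n).trans h h'⟩
  have hrf : ∀ n x, {γ : Γ | r n x (ι γ * x)}.Finite := by
    intro n x
    have : Function.Injective (fun γ : Γ => ((ι γ * x, false) : GG × Bool)) := by
      intro a b hab
      simp only [Prod.mk.injEq, and_true] at hab
      exact ι_inj (mul_right_cancel hab)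
    exact (hfin n (x, false)).preimage this.injOn
  have hrm : ∀ n (γ : Γ), MeasurableSet {x | r n x (ι γ * x)} := by
    intro n γ
    have m : Measurable (fun x : GG => (((x, false), (ι γ * x, false)) : (GG × Bool) × (GG × Bool))) :=
      (measurable_id.prodMk measurable_const).prodMk
        ((measurable_id.const_mul _).prodMk measurable_const)
    exact m (hM n)
  have mono' : ∀ n m, n ≤ m → ∀ x y, r n x y → r m x y := by
    intro n m hnm
    induction hnm with
    | refl => intro x y h; exact h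
    | step _ ih => intro x y h; exact hmono _ _ _ (ih x y h)
  let μ : Measure GG := Measure.haar
  have htr : ∀ n, ∫⁻ x, e ι (r n) x ∂μ ≤ μ Set.univ := fun n =>
    transport ι (r n) μ (hr n) (hrf n) (hrm n)
  have cmono : ∀ (T : Γ) x, Monotone fun n => c ι (r n) T x := by
    intro T x n m hnm
    simp only [c]
    by_cases h : r n x (ι T * x)
    · rw [if_pos h, if_pos (mono' n m hnm _ _ h)]
    · rw [if_neg h]; exact zero_le
  have hgenT : ∀ (T : Γ), (T = A ∨ T = B) → ∀ x, ∃ n, r n x (ι T * x) := by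
    intro T hT x
    apply (hgen _ _).1
    have h1 : Relation.EqvGen gr.Adj ((x, false) : GG × Bool) ((ι T * x, true) : GG × Bool) := by
      apply Relation.EqvGen.rel
      refine ⟨rfl, rfl, ?_⟩
      rcases hT with rfl | rfl
      · right; left; rfl
      · right; right; rfl
    have h2 : Relation.EqvGen gr.Adj ((ι T * x, false) : GG × Bool) ((ι T * x, true) : GG × Bool) :=
      Relation.EqvGen.rel _ _ ⟨rfl, rfl, Or.inl rfl⟩
    exact Relation.EqvGen.trans _ _ _ h1 (Relation.EqvGen.symm _ _ h2)
  have hsup : ∀ x, ⨆ n, e ι (r n) x = 2 := by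
    intro x
    apply le_antisymm
    · apply iSup_le
      intro n
      have hc : ∀ T, c ι (r n) T x ≤ 1 := by
        intro T; simp only [c]; split_ifs <;> simp
      calc e ι (r n) x ≤ 1 + 1 := add_le_add (hc A) (hc B)
        _ = 2 := one_add_one_eq_two
    · obtain ⟨n1, h1⟩ := hgenT A (Or.inl rfl) x
      obtain ⟨n2, h2⟩ := hgenT B (Or.inr rfl) x
      have g1 := mono' n1 (max n1 n2) (le_max_left _ _) _ _ h1
      have g2 := mono' n2 (max n1 n2) (le_max_right _ _) _ _ h2
      have : e ι (r (max n1 n2)) x = 2 := by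
        simp only [e, c, if_pos g1, if_pos g2]; exact one_add_one_eq_two
      rw [← this]
      exact le_iSup (fun n => e ι (r n) x) (max n1 n2)
  have hlim : ∫⁻ x, ⨆ n, e ι (r n) x ∂μ = ⨆ n, ∫⁻ x, e ι (r n) x ∂μ := by
    apply lintegral_iSup
    · intro n; exact measurable_e ι (r n) (hrm n)
    · intro n m hnm x
      exact add_le_add (cmono A x hnm) (cmono B x hnm)
  have h2 : ∫⁻ x, ⨆ n, e ι (r n) x ∂μ ≤ μ Set.univ := by
    rw [hlim]; exact iSup_le htr
  simp only [hsup, lintegral_const] at h2
  have hpos : μ Set.univ ≠ 0 := by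
    have := (isOpen_univ : IsOpen (Set.univ : Set GG)).measure_pos μ Set.univ_nonempty
    exact this.ne'
  have hfinm : μ Set.univ ≠ ⊤ := measure_ne_top μ _
  have h3 : (2 : ℝ≥0∞) * μ Set.univ ≤ 1 * μ Set.univ := by rw [one_mul]; exact h2
  rw [ENNReal.mul_le_mul_iff_left hpos hfinm] at h3
  norm_num at h3

/-- The negation of the preceding statement: For a Borel locally finite directed graph on a standard Borel space with bounded in-degrees and out-balls of size at most C(n+1)^k, its connectedness relation is an increasing union of Borel equivalence relations with finite classes. -/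
theorem result :
    ¬ (∀ (X : Type) [MeasurableSpace X] [StandardBorelSpace X] (G : Digraph X),
      MeasurableSet {p : X × X | G.Adj p.1 p.2} →
      (∀ x : X, {y : X | G.Adj x y}.Finite) →
      (∀ x : X, {y : X | G.Adj y x}.Finite) →
      (∃ d : ℕ, ∀ x : X, {y : X | G.Adj y x}.ncard ≤ d) →
      (∃ C k : ℕ, ∀ (x : X) (n : ℕ),
        {y : X | ∃ m ≤ n, ∃ f : ℕ → X, f 0 = x ∧ f m = y ∧
            ∀ i < m, G.Adj (f i) (f (i + 1))}.ncard ≤ C * (n + 1) ^ k) →
      ∃ F : ℕ → X → X → Prop,
        (∀ n, Equivalence (F n)) ∧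
        (∀ n, MeasurableSet {p : X × X | F n p.1 p.2}) ∧
        (∀ n x, {y : X | F n x y}.Finite) ∧
        (∀ n x y, F n x y → F (n + 1) x y) ∧
        (∀ x y, Relation.EqvGen G.Adj x y ↔ ∃ n, F n x y)) := by
  intro hall
  apply main
  refine hall (GG × Bool) gr gr_meas (fun x => (Set.toFinite _).subset (out_sub x))
    (fun x => (Set.toFinite _).subset (in_sub x)) ⟨3, fun x => ?_⟩ ⟨4, 0, fun x n => ?_⟩
  · exact (Set.ncard_le_ncard (in_sub x) (Set.toFinite _)).trans (three _ _ _)
  · have h1 := Set.ncard_le_ncard (ball_sub x n) (Set.toFinite _)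
    have h2 := Set.ncard_insert_le x
      ({(x.1, true), (ι A * x.1, true), (ι B * x.1, true)} : Set (GG × Bool))
    have h3 := three (x.1, true) (ι A * x.1, true) (ι B * x.1, true)
    simp only [pow_zero, mul_one]
    omega

end Pool.Agent.S3616
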