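import Pool.Statements.S3636
-- import your own Pool.Agent.* helpers here

set_option autoImplicit false
open Pool Pool.MP_9c356a_lc

namespace Pool.Agent.S3636

/-- the morphism `a ↦ bab`, `b ↦ ab` (with `a = 0`, `b = 1`) -/
def h₀ : Fin 2 → List (Fin 2)
  | 0 => [1, 0, 1]
  | 1 => [0, 1]

/-- its extension to words -/
abbrev H : List (Fin 2) → List (Fin 2) := fun u => u.flatMap h₀

lemma H_nil : H [] = [] := rfl

lemma H_cons (x : Fin 2) (u : List (Fin 2)) : H (x :: u) = h₀ x ++ H u := rfl

lemma H_append (u v : List (Fin 2)) : H (u ++ v) = H u ++ H v := by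
  simp [H, List.flatMap_append]

lemma H_inj : Function.Injective H := by
  intro u
  induction u with
  | nil =>
    intro v hv
    cases v with
    | nil => rfl
    | cons y v =>
      rw [H_cons, H_nil] at hv
      fin_cases y <;> simp [h₀] at hv
  | cons x u ih =>
    intro v hv
    cases v with
    | nil =>
      rw [H_cons, H_nil] at hv
      fin_cases x <;> simp [h₀] at hv
    | cons y v =>
      rw [H_cons, H_cons] at hv
      fin_cases x <;> fin_cases y
      · simp only [h₀, List.cons_append, List.nil_append, List.cons.injEq, true_and] at hv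
        rw [ih hv]
      · simp [h₀] at hv
      · simp [h₀] at hv
      · simp only [h₀, List.cons_append, List.nil_append, List.cons.injEq, true_and] at hv
        rw [ih hv]

lemma Hk_append (k : ℕ) (u v : List (Fin 2)) : H^[k] (u ++ v) = H^[k] u ++ H^[k] v := by
  induction k generalizing u v with
  | zero => rfl
  | succ k ih => rw [Function.iterate_succ_apply, Function.iterate_succ_apply,
      Function.iterate_succ_apply, H_append, ih]

lemma Hk_nil (k : ℕ) : H^[k] [] = [] := by
  induction k with
  | zero => rfl
  | succ k ih => rw [Function.iterate_succ_apply, H_nil, ih]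

lemma Hk_flatten (k : ℕ) (L : List ℕ) (f : ℕ → List (Fin 2)) :
    H^[k] (L.map f).flatten = (L.map (fun i => H^[k] (f i))).flatten := by
  induction L with
  | nil => simp [Hk_nil]
  | cons i L ih => simp only [List.map_cons, List.flatten_cons, Hk_append, ih]

lemma le_foldr (L : List ℕ) : ∀ i ∈ L, i ≤ L.foldr max 0 := by
  induction L with
  | nil => simp
  | cons j L ih =>
    intro i hi
    rw [List.foldr_cons]
    rcases List.mem_cons.mp hi with h | h
    · rw [h]; exact le_max_left _ _
    · exact le_trans (ih i h) (le_max_right _ _)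

/-- the depth 3 formula `ω_n = ω_{n-2} ω_{n-3} ω_{n-2} ω_{n-2} ω_{n-1}` at `n = 3` -/
lemma base : H^[3] [0] = (([2, 3, 2, 2, 1] : List ℕ).map (fun i => H^[3 - i] [0])).flatten := by
  decide

/-- `ω_2` is not a product of copies of `ω_1` and `ω_0` -/
lemma no_two (L : List ℕ) (hL : ∀ i ∈ L, i = 1 ∨ i = 2) :
    H^[2] [0] ≠ (L.map (fun i => H^[2 - i] [0])).flatten := by
  have h2 : H^[2] [0] = [0, 1, 1, 0, 1, 0, 1] := by decide
  have h1 : H^[2 - 1] [0] = [1, 0, 1] := by decide
  have h0 : H^[2 - 2] [0] = [0] := by decide
  rw [h2]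
  intro h
  cases L with
  | nil => simp at h
  | cons i L =>
    rw [List.map_cons, List.flatten_cons] at h
    rcases hL i (by simp) with rfl | rfl
    · rw [h1] at h; simp at h
    · rw [h0] at h
      simp only [List.cons_append, List.nil_append, List.cons.injEq, true_and] at h
      cases L with
      | nil => simp at h
      | cons j L =>
        rw [List.map_cons, List.flatten_cons] at h
        rcases hL j (by simp) with rfl | rfl
        · rw [h1] at h; simp at h
        · rw [h0] at h; simp at h

/-- The negation of the preceding statement: For every D0L system over an n-letter alphabet, words w_m = h^m(w): if eventually w_m = w_{m-i_1}…w_{m-i_k} for some nonempty list of positive i_j, then such a formula exists with max i_j ≤ n!, and conversely. -/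
theorem result :
    ¬ (∀ (n : ℕ) (h : Fin n → List (Fin n)) (w : List (Fin n)),
    (∃ d : ℕ, ∃ L : List ℕ, ∃ N : ℕ, L ≠ [] ∧ (∀ i ∈ L, 0 < i) ∧ L.foldr max 0 = d ∧ d ≤ N ∧
        ∀ m : ℕ, N ≤ m →
          (fun u : List (Fin n) => u.flatMap h)^[m] w =
            (L.map (fun i => (fun u : List (Fin n) => u.flatMap h)^[m - i] w)).flatten) ↔
    (∃ d : ℕ, d ≤ n.factorial ∧ ∃ L : List ℕ, ∃ N : ℕ, L ≠ [] ∧ (∀ i ∈ L, 0 < i) ∧
        L.foldr max 0 = d ∧ d ≤ N ∧
        ∀ m : ℕ, N ≤ m →
          (fun u : List (Fin n) => u.flatMap h)^[m] w =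
            (L.map (fun i => (fun u : List (Fin n) => u.flatMap h)^[m - i] w)).flatten)) := by
  intro hall
  have hf := (hall 2 h₀ [0]).mp ⟨3, [2, 3, 2, 2, 1], 3, by simp, by simp, by simp, le_refl _, ?_⟩
  · obtain ⟨d, hd, L, N, hne, hpos, hmax, hdN, hL⟩ := hf
    have hi : ∀ i ∈ L, i = 1 ∨ i = 2 := by
      intro i hi
      have h1 := hpos i hi
      have h2 := le_foldr L i hi
      have h3 : Nat.factorial 2 = 2 := rfl
      omega
    have key := hL (N + 2) (by omega)
    have e1 : (L.map (fun i => H^[N + 2 - i] [0])).flatten =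
        H^[N] (L.map (fun i => H^[2 - i] [0])).flatten := by
      rw [Hk_flatten]
      congr 1
      apply List.map_congr_left
      intro i hiL
      rw [← Function.iterate_add_apply]
      congr 2
      rcases hi i hiL with rfl | rfl <;> omega
    have e2 : H^[N] (H^[2] [0]) = H^[N] (L.map (fun i => H^[2 - i] [0])).flatten := by
      rw [← Function.iterate_add_apply, ← e1]
      exact key
    exact no_two L hi (H_inj.iterate N e2)
  · intro m hm
    obtain ⟨k, rfl⟩ := Nat.exists_eq_add_of_le hm
    have e1 : H^[3 + k] [0] = H^[k] (H^[3] [0]) := by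
      rw [← Function.iterate_add_apply, add_comm]
    have e2 : (([2, 3, 2, 2, 1] : List ℕ).map (fun i => H^[3 + k - i] [0])).flatten =
        H^[k] (([2, 3, 2, 2, 1] : List ℕ).map (fun i => H^[3 - i] [0])).flatten := by
      rw [Hk_flatten]
      congr 1
      apply List.map_congr_left
      intro i hiL
      rw [← Function.iterate_add_apply]
      congr 2
      have : i ≤ 3 := by
        simp at hiL
        omega
      omega
    change H^[3 + k] [0] = (([2, 3, 2, 2, 1] : List ℕ).map (fun i => H^[3 + k - i] [0])).flatten
    rw [e1, e2, base]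


end Pool.Agent.S3636
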