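import Pool.Statements.S3766
import Pool.Agent.MPdc6d97.Prob

set_option autoImplicit false
open Pool Pool.MP_dc6d97_lc

namespace Pool.Agent.S3766

/-- The negation of the preceding statement: There is a constant c < 3, an additive constant b, and a randomized online algorithm for coloring paths on a line, always proper, whose expected number of colors on every request sequence of load at most L is at most c·L + b. -/
theorem result :
    ¬ (∃ c : ℝ, c < 3 ∧ ∃ b : ℝ, ∃ (Ω : Type) (_ : MeasurableSpace Ω) (μ : MeasureTheory.Measure Ω)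
      (A : List (ℕ × ℕ) → Ω → ℕ),
      MeasureTheory.IsProbabilityMeasure μ ∧
      (∀ s : List (ℕ × ℕ), Measurable (A s)) ∧
      (∀ (ω : Ω) (σ : List (ℕ × ℕ)) (i j : ℕ) (hi : i < σ.length) (hj : j < σ.length), i ≠ j →
         σ[i].1 ≤ σ[j].1 + σ[j].2 → σ[j].1 ≤ σ[i].1 + σ[i].2 →
         A (σ.take (i + 1)) ω ≠ A (σ.take (j + 1)) ω) ∧
      ∀ (σ : List (ℕ × ℕ)) (L : ℕ),
        (∀ x : ℕ, σ.countP (fun p => decide (p.1 ≤ x ∧ x ≤ p.1 + p.2)) ≤ L) →
        ∫ ω, ((((List.range σ.length).map (fun i => A (σ.take (i + 1)) ω)).toFinset.card : ℕ) : ℝ) ∂μ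
          ≤ c * (L : ℝ) + b) := by
  rintro ⟨c, hc, b, Ω, _, μ, A, hμ, hmeas, hprop, hcomp⟩
  obtain ⟨n, hn⟩ := exists_nat_gt ((b + 2) / (3 - c))
  have hc3 : 0 < 3 - c := by linarith
  rw [div_lt_iff₀ hc3] at hn
  set L : ℕ := n + 2 with hL
  have hLn : (L : ℝ) = n + 2 := by rw [hL]; push_cast; ring
  refine MPdc6d97.main μ A hmeas hprop L (by omega) (c * L + b) ?_ (fun σ hσ => hcomp σ L hσ)
  rw [Nat.cast_sub (by omega)]
  push_cast
  rw [hLn]
  nlinarith

end Pool.Agent.S3766
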