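import Pool.Statements.S3843
import Pool.Agent.H3.TBodyH

set_option autoImplicit false
open Pool Pool.MP_436870_mp

namespace Pool.Agent.S3843

/-- For every E>0 there is ε>0 such that no collision-free, bounded, all-time solution of the planar unit-mass Newtonian three-body problem with zero angular momentum and energy −E keeps the potential U strictly between 2(E−ε) and 2(E+ε) forever. -/
theorem result :
  ∀ E : ℝ, 0 < E → ∃ ε : ℝ, 0 < ε ∧
    ∀ x y vx vy : Fin 3 → ℝ → ℝ,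
      (∀ t : ℝ, ∀ i j : Fin 3, i ≠ j → (x i t - x j t) ^ 2 + (y i t - y j t) ^ 2 ≠ 0) →
      (∀ i : Fin 3, ∀ t : ℝ,
        HasDerivAt (x i) (vx i t) t ∧ HasDerivAt (y i) (vy i t) t ∧
        HasDerivAt (vx i)
          (∑ j ∈ Finset.univ.filter (fun j => j ≠ i),
            (x j t - x i t) / (Real.sqrt ((x j t - x i t) ^ 2 + (y j t - y i t) ^ 2)) ^ 3) t ∧
        HasDerivAt (vy i)
          (∑ j ∈ Finset.univ.filter (fun j => j ≠ i),
            (y j t - y i t) / (Real.sqrt ((x j t - x i t) ^ 2 + (y j t - y i t) ^ 2)) ^ 3) t) →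
      (∃ R : ℝ, ∀ i : Fin 3, ∀ t : ℝ, |x i t| ≤ R ∧ |y i t| ≤ R) →
      (∀ t : ℝ, ∑ i, (x i t * vy i t - y i t * vx i t) = 0) →
      (∀ t : ℝ, (1 / 2 : ℝ) * ∑ i, (vx i t ^ 2 + vy i t ^ 2)
          - ∑ i, ∑ j ∈ Finset.univ.filter (fun j => i < j),
              1 / Real.sqrt ((x i t - x j t) ^ 2 + (y i t - y j t) ^ 2) = -E) →
      (∀ t : ℝ,
        2 * (E - ε) < ∑ i, ∑ j ∈ Finset.univ.filter (fun j => i < j),
              1 / Real.sqrt ((x i t - x j t) ^ 2 + (y i t - y j t) ^ 2) ∧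
        ∑ i, ∑ j ∈ Finset.univ.filter (fun j => i < j),
              1 / Real.sqrt ((x i t - x j t) ^ 2 + (y i t - y j t) ^ 2) < 2 * (E + ε)) →
      False := by
  intro E hE
  exact Pool.Agent.H3.TBody.main E hE

end Pool.Agent.S3843
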