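import Pool.Statements.S3850
import Pool.Agent.H16.Borg5

set_option autoImplicit false
open Pool Pool.MP_64ae42_mp

namespace Pool.Agent.S3850

/-- The negation of the preceding statement: Lift a Jacobi matrix (positive symmetric edge weights, potential b) on a finite connected graph to its universal cover tree; if the lifted operator on l2 of the tree has connected spectrum, then b is constant. -/
theorem result :
    ¬ (∀ (V D : Type) [Fintype V] [Fintype D] [DecidableEq D] (src : D → V) (rev : D → D),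
    (∀ d, rev (rev d) = d) → (∀ d, rev d ≠ d) →
    (SimpleGraph.fromRel (fun u v : V => ∃ d, src d = u ∧ src (rev d) = v)).Connected →
    ∀ (a : D → ℝ) (b : V → ℝ), (∀ d, 0 < a d) → (∀ d, a (rev d) = a d) →
    ∀ (v0 : V) (S : Set (List D)),
      (∀ l : List D, l ∈ S ↔ ((∀ d ∈ l.head?, src d = v0) ∧
         ∀ (i : ℕ) (d e : D), l[i]? = some d → l[i+1]? = some e →
           (src e = src (rev d) ∧ e ≠ rev d))) →
    ∀ H : lp (fun _ : S => ℂ) 2 →L[ℂ] lp (fun _ : S => ℂ) 2,
      (∀ (f : lp (fun _ : S => ℂ) 2) (x : S),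
        H f x = (b ((x.1.getLast?.map (fun d => src (rev d))).getD v0) : ℂ) * f x +
          ∑' y : S, (∑ d : D, if (y.1 = x.1 ++ [d] ∨ x.1 = y.1 ++ [d]) then (a d : ℂ) else 0) * f y) →
      IsPreconnected (spectrum ℂ H) → ∀ u v : V, b u = b v) := by
  classical
  intro h
  have hconn : (SimpleGraph.fromRel (fun u v : Bool => ∃ d, Pool.Agent.H16.Borg.dsrc d = u ∧
      Pool.Agent.H16.Borg.dsrc (Pool.Agent.H16.Borg.drev d) = v)).Connected := by
    rw [SimpleGraph.connected_iff]
    refine ⟨?_, ⟨true⟩⟩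
    have hadj : (SimpleGraph.fromRel (fun u v : Bool => ∃ d, Pool.Agent.H16.Borg.dsrc d = u ∧
      Pool.Agent.H16.Borg.dsrc (Pool.Agent.H16.Borg.drev d) = v)).Adj false true := by
      rw [SimpleGraph.fromRel_adj]
      refine ⟨by simp, Or.inl ⟨(true, 0), by simp [Pool.Agent.H16.Borg.dsrc],
        by simp [Pool.Agent.H16.Borg.dsrc, Pool.Agent.H16.Borg.drev]⟩⟩
    intro u v
    cases u <;> cases v
    · exact SimpleGraph.Reachable.refl _
    · exact hadj.reachable
    · exact hadj.symm.reachable
    · exact SimpleGraph.Reachable.refl _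
  have key := h Bool Pool.Agent.H16.Borg.DB Pool.Agent.H16.Borg.dsrc Pool.Agent.H16.Borg.drev
    (by
      rintro ⟨τ, i⟩
      fin_cases i <;> cases τ <;> simp [Pool.Agent.H16.Borg.drev])
    (by
      rintro ⟨τ, i⟩
      fin_cases i <;> cases τ <;> simp [Pool.Agent.H16.Borg.drev])
    hconn (fun _ => 1) Pool.Agent.H16.Borg.dpot (fun _ => one_pos) (fun _ => rfl) false
    Pool.Agent.H16.Borg.dG.S
    (fun l => Pool.Agent.H16.Borg.mem_mk_iff _ _ _ _ _ l)
    Pool.Agent.H16.Borg.dG.H
    (by
      intro f x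
      rw [Pool.Agent.H16.Borg.H_frozen, Pool.Agent.H16.Borg.lst_eq_getLast]
      congr 1
      · congr 2
        cases x.1.getLast? with
        | none => rfl
        | some d => rfl)
    Pool.Agent.H16.Borg.dG_pre true false
  simp [Pool.Agent.H16.Borg.dpot] at key

end Pool.Agent.S3850
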