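import Pool.Statements.S3905
import Pool.Agent.H8.UnifLim
-- import your own Pool.Agent.* helpers here

set_option autoImplicit false
open Pool Pool.MP_03368a_nt

namespace Pool.Agent.S3905

open Pool.Agent.H8Unif

/-- all data needed about the limit point and the approximating sequences -/
structure Data (t : ℕ → ℝ) (f : ℕ → St) (ξ : ℝ) : Prop where
  good : ∀ k, Good (t k) k (f k)
  mono : ∀ k, (f k).q < (f (k + 1)).q
  big : ∀ k, 6 * ((f k).m : ℝ) * (f k).q ≤ ((f (k + 1)).q : ℝ) ^ (2 - t k)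
  pos : 0 < ξ
  lt_one : ξ < 1
  low : ∀ k, 1 / (4 * (f k).m * ((f k).q : ℝ) ^ 3) ≤ |ξ - (f k).p / (f k).q|
  up : ∀ k, |ξ - (f k).p / (f k).q| ≤ 3 / ((f k).m * ((f k).q : ℝ) ^ 3)
  quad : ∀ k, |ξ - (f k).α| ≤ 3 / ((f (k + 1)).q : ℝ) ^ 2

lemma Data.mR {t : ℕ → ℝ} {f : ℕ → St} {ξ : ℝ} (D : Data t f ξ) (k : ℕ) :
    (12 : ℝ) ≤ (f k).m := by exact_mod_cast (D.good k).hm

lemma Data.qR {t : ℕ → ℝ} {f : ℕ → St} {ξ : ℝ} (D : Data t f ξ) (k : ℕ) :
    (k : ℝ) < (f k).q := by exact_mod_cast (D.good k).hk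

lemma Data.q0 {t : ℕ → ℝ} {f : ℕ → St} {ξ : ℝ} (D : Data t f ξ) (k : ℕ) :
    (1 : ℝ) ≤ (f k).q := by
  have := (D.good k).hk
  have h2 : (1 : ℤ) ≤ (f k).q := by omega
  exact_mod_cast h2

/-- the estimate `|P (p/q) - P ξ|` -/
lemma eval_diff (a b c x y B : ℝ) (hx0 : |x| ≤ 2) (hy0 : |y| ≤ 1)
    (ha : |a| ≤ B) (hb : |b| ≤ B) :
    |(a * x ^ 2 + b * x + c) - (a * y ^ 2 + b * y + c)| ≤ 4 * B * |x - y| := by
  have e : (a * x ^ 2 + b * x + c) - (a * y ^ 2 + b * y + c) = (a * (x + y) + b) * (x - y) := by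
    ring
  rw [e, abs_mul]
  apply mul_le_mul_of_nonneg_right _ (abs_nonneg _)
  have h1 : |a * (x + y) + b| ≤ |a| * |x + y| + |b| := by
    rw [← abs_mul]; exact abs_add_le _ _
  have h2 : |x + y| ≤ 3 := (abs_add_le _ _).trans (by linarith)
  have h3 : |a| * |x + y| ≤ B * 3 := mul_le_mul ha h2 (abs_nonneg _) ((abs_nonneg _).trans ha)
  linarith

lemma Data.pq {t : ℕ → ℝ} {f : ℕ → St} {ξ : ℝ} (D : Data t f ξ) (k : ℕ) :
    |((f k).p : ℝ) / (f k).q| ≤ 1 := by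
  have h1 : (0 : ℝ) < (f k).p := by exact_mod_cast (D.good k).hp
  have h2 : ((f k).p : ℝ) < (f k).q := by exact_mod_cast (D.good k).hpq
  rw [abs_of_pos (div_pos h1 (h1.trans h2)), div_le_one (h1.trans h2)]
  exact h2.le

/-- `ξ` is not algebraic of degree at most two. -/
lemma Data.not_alg {t : ℕ → ℝ} {f : ℕ → St} {ξ : ℝ} (D : Data t f ξ)
    (Q : Polynomial ℤ) (hQ : Q ≠ 0) (hdeg : Q.natDegree ≤ 2) : Polynomial.aeval ξ Q ≠ 0 := by
  intro h0
  rw [eq_quad Q hdeg, quad_aeval] at h0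
  set a := Q.coeff 2 with ha
  set b := Q.coeff 1 with hb
  set c := Q.coeff 0 with hc
  set B : ℤ := |a| + |b| with hB
  have haB : |(a : ℝ)| ≤ (B : ℝ) := by
    have : |a| ≤ B := by have := abs_nonneg b; omega
    exact_mod_cast this
  have hbB : |(b : ℝ)| ≤ (B : ℝ) := by
    have : |b| ≤ B := by have := abs_nonneg a; omega
    exact_mod_cast this
  have hBnn : (0 : ℝ) ≤ B := (abs_nonneg _).trans haB
  have hBnnZ : 0 ≤ B := by exact_mod_cast hBnn
  set k : ℕ := B.toNat + 1 with hk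
  have hkB : B < (k : ℤ) := by
    have := Int.toNat_of_nonneg hBnnZ
    push_cast [hk]; omega
  have hG := D.good k
  set p := (f k).p with hp
  set q := (f k).q with hq
  have hq0 : 0 < q := hG.hp.trans hG.hpq
  have hBq : B < q := hkB.trans hG.hk
  have hval : |(((a * p ^ 2 + b * p * q + c * q ^ 2 : ℤ)) : ℝ)| < 1 := by
    rw [form_cast a b c p q hq0, abs_mul]
    have hq1 : (1 : ℝ) ≤ q := D.q0 k
    have hm12 : (12 : ℝ) ≤ (f k).m := D.mR k
    have h1 : |(a : ℝ) * ((p : ℝ) / q) ^ 2 + b * ((p : ℝ) / q) + c| ≤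
        4 * B * |(p : ℝ) / q - ξ| := by
      have := eval_diff a b c ((p : ℝ) / q) ξ B ((D.pq k).trans (by norm_num))
        (by rw [abs_of_pos D.pos]; exact D.lt_one.le) haB hbB
      rw [h0, sub_zero] at this
      exact this
    have h2 : |(p : ℝ) / q - ξ| ≤ 3 / ((f k).m * (q : ℝ) ^ 3) := by
      rw [abs_sub_comm]; exact D.up k
    have h3 : |((q : ℝ) ^ 2)| = (q : ℝ) ^ 2 := abs_of_nonneg (by positivity)
    rw [h3]
    have hBqR : (B : ℝ) < q := by exact_mod_cast hBq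
    calc (q : ℝ) ^ 2 * |(a : ℝ) * ((p : ℝ) / q) ^ 2 + b * ((p : ℝ) / q) + c|
        ≤ (q : ℝ) ^ 2 * (4 * (B : ℝ) * (3 / (((f k).m : ℝ) * (q : ℝ) ^ 3))) := by
          apply mul_le_mul_of_nonneg_left _ (by positivity)
          exact h1.trans (mul_le_mul_of_nonneg_left h2 (by positivity))
      _ = 12 * (B : ℝ) / (((f k).m : ℝ) * (q : ℝ)) := by
          have : (q : ℝ) ≠ 0 := by linarith
          have : ((f k).m : ℝ) ≠ 0 := by linarith
          field_simp; ring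
      _ < 1 := by
          rw [div_lt_one (by positivity)]
          nlinarith
  have hz := int_gap _ hval
  have haq : |a| < q := by have := abs_nonneg b; omega
  have hbq : |b| < q := by have := abs_nonneg a; omega
  obtain ⟨e1, e2, e3⟩ := form_zero a b c p q hq0 hG.hc hz haq hbq
  apply hQ
  rw [eq_quad Q hdeg, ← ha, ← hb, ← hc, e1, e2, e3]
  unfold Pool.Agent.H8Unif.quad
  simp

lemma Data.exists_index {t : ℕ → ℝ} {f : ℕ → St} {ξ : ℝ} (D : Data t f ξ) (K : ℕ) (H : ℝ)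
    (hH : ((f K).q : ℝ) ≤ H) : ∃ k, K ≤ k ∧ ((f k).q : ℝ) ≤ H ∧ H < (f (k + 1)).q := by
  classical
  have hex : ∃ n, H < (f n).q := by
    obtain ⟨n, hn⟩ := exists_nat_gt H
    exact ⟨n, hn.trans (D.qR n)⟩
  have hmono : StrictMono (fun k => (f k).q) := strictMono_nat_of_lt_succ D.mono
  have hfind := Nat.find_spec hex
  set n := Nat.find hex with hn
  have hKn : K < n := by
    by_contra hcon
    push Not at hcon
    have : (f n).q ≤ (f K).q := hmono.monotone hcon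
    have h2 : ((f n).q : ℝ) ≤ (f K).q := by exact_mod_cast this
    linarith
  obtain ⟨k, hk⟩ : ∃ k, n = k + 1 := ⟨n - 1, by omega⟩
  refine ⟨k, by omega, ?_, by rw [← hk]; exact hfind⟩
  have := Nat.find_min hex (show k < Nat.find hex by omega)
  push Not at this
  exact this

/-- lower bound for the uniform exponent -/
lemma Data.lower {t : ℕ → ℝ} {f : ℕ → St} {ξ : ℝ} (D : Data t f ξ)
    (v : ℝ) (hv1 : 1 ≤ v) (hv2 : v ≤ 2) (ht1 : ∀ k, 1 < t k) (ht2 : ∀ k, t k < 2)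
    (ht : Filter.Tendsto t Filter.atTop (nhds v)) (w : ℝ) (hw : w < v) :
    ∃ H₀ : ℝ, ∀ H : ℝ, H₀ ≤ H →
      ∃ (α : ℝ) (h : ℤ), IsApp α h ∧ (h : ℝ) ≤ H ∧ 0 < |ξ - α| ∧
        |ξ - α| ≤ (h : ℝ)⁻¹ * H ^ (-w) := by
  -- reduce to `1/2 ≤ w`
  wlog hw0 : 1 / 2 ≤ w generalizing w with hwlog
  · push Not at hw0
    obtain ⟨H₀, hH₀⟩ := hwlog (1 / 2) (by linarith) le_rfl
    refine ⟨max H₀ 1, fun H hH => ?_⟩
    obtain ⟨α, h, happ, hhH, hpos, hle⟩ := hH₀ H ((le_max_left _ _).trans hH)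
    refine ⟨α, h, happ, hhH, hpos, hle.trans ?_⟩
    have hh : (0 : ℝ) ≤ (h : ℝ)⁻¹ := by
      obtain ⟨P, -, -, -, hc, i, hi⟩ := happ
      have : 0 ≤ h := by rw [← hi]; exact abs_nonneg _
      exact inv_nonneg.mpr (by exact_mod_cast this)
    apply mul_le_mul_of_nonneg_left _ hh
    apply Real.rpow_le_rpow_of_exponent_le ((le_max_right _ _).trans hH)
    linarith
  set ε : ℝ := (v - w) / 2 with hε
  have hε0 : 0 < ε := by rw [hε]; linarith
  have hev1 : ∀ᶠ k in Filter.atTop, w + ε < t k := ht.eventually_const_lt (by rw [hε]; linarith)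
  have hev2 : ∀ᶠ k : ℕ in Filter.atTop, (24 : ℝ) ≤ (k : ℝ) ^ ε :=
    ((tendsto_rpow_atTop hε0).comp tendsto_natCast_atTop_atTop).eventually_ge_atTop 24
  obtain ⟨K, hK⟩ := Filter.eventually_atTop.mp (hev1.and hev2)
  refine ⟨(f K).q, fun H hH => ?_⟩
  obtain ⟨k, hKk, hqH, hHq⟩ := D.exists_index K H hH
  obtain ⟨htk, hkε⟩ := hK k hKk
  have hG := D.good k
  have hm12 := D.mR k
  have hq1 := D.q0 k
  have hqk := D.qR k
  have hH0 : 0 < H := by linarith
  by_cases hcase : H < 2 * (f k).m * (f k).q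
  · -- use the rational p / q
    refine ⟨(f k).p / (f k).q, (f k).q, isApp_rat _ _ hG.hp hG.hpq hG.hc, hqH, ?_, ?_⟩
    · refine lt_of_lt_of_le ?_ (D.low k)
      positivity
    · refine (D.up k).trans ?_
      set m : ℝ := ((f k).m : ℝ) with hm
      set q : ℝ := ((f k).q : ℝ) with hq
      have hmq0 : 0 < m * q := by positivity
      have hHw : H ^ w ≤ (2 * m * q) ^ w :=
        Real.rpow_le_rpow hH0.le hcase.le (by linarith)
      have h2w : (2 : ℝ) ^ w ≤ 4 := by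
        calc (2 : ℝ) ^ w ≤ 2 ^ (2 : ℝ) :=
              Real.rpow_le_rpow_of_exponent_le (by norm_num) (by linarith)
          _ = 4 := by norm_num
      have h3 : (2 * m * q) ^ w = 2 ^ w * (m * q) ^ w := by
        rw [mul_assoc, Real.mul_rpow (by norm_num) hmq0.le]
      have h4 : (m * q) ^ w * (m * q) ^ ε ≤ 2 * (m * q ^ 2) := by
        rw [← Real.rpow_add hmq0]
        refine le_trans (Real.rpow_le_rpow_of_exponent_le ?_ htk.le) hG.hm2
        nlinarith
      have h5 : 24 ≤ (m * q) ^ ε := by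
        refine hkε.trans (Real.rpow_le_rpow (by positivity) ?_ hε0.le)
        nlinarith
      have h6 : 0 < (m * q) ^ w := Real.rpow_pos_of_pos hmq0 w
      have h7 : 12 * (m * q) ^ w ≤ m * q ^ 2 := by nlinarith
      have h8 : 3 * H ^ w ≤ m * q ^ 2 := by
        have : (2 : ℝ) ^ w * (m * q) ^ w ≤ 4 * (m * q) ^ w :=
          mul_le_mul_of_nonneg_right h2w h6.le
        rw [h3] at hHw
        linarith
      have hHwpos : 0 < H ^ w := Real.rpow_pos_of_pos hH0 w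
      rw [Real.rpow_neg hH0.le, div_le_iff₀ (by positivity)]
      have : q⁻¹ * (H ^ w)⁻¹ * (m * q ^ 3) = (m * q ^ 2) / H ^ w := by field_simp
      rw [this, le_div_iff₀ hHwpos]
      exact h8
  · -- use the quadratic irrational
    push Not at hcase
    have hh : ((f k).h : ℝ) ≤ 2 * (f k).m * (f k).q := by exact_mod_cast hG.hh
    have hh0 : (0 : ℝ) < (f k).h := by exact_mod_cast hG.hh0
    refine ⟨(f k).α, (f k).h, hG.happ, hh.trans hcase, ?_, ?_⟩
    · rw [abs_pos, sub_ne_zero]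
      intro heq
      obtain ⟨P, hirr, hdeg, hroot, -⟩ := hG.happ
      rw [← heq] at hroot
      exact D.not_alg P hirr.ne_zero hdeg hroot
    · refine (D.quad k).trans ?_
      have hbig := D.big k
      set m : ℝ := ((f k).m : ℝ) with hm
      set q : ℝ := ((f k).q : ℝ) with hq
      set q' : ℝ := ((f (k + 1)).q : ℝ) with hq'
      have hq'1 : (1 : ℝ) ≤ q' := D.q0 (k + 1)
      have hq'0 : 0 < q' := by linarith
      have hHw : H ^ w ≤ q' ^ t k := by
        calc H ^ w ≤ q' ^ w := Real.rpow_le_rpow hH0.le hHq.le (by linarith)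
          _ ≤ q' ^ t k := Real.rpow_le_rpow_of_exponent_le hq'1 (by linarith)
      have hqq : (q' : ℝ) ^ (2 - t k) * (q' : ℝ) ^ t k = (q' : ℝ) ^ 2 := by
        rw [← Real.rpow_add hq'0]
        have : 2 - t k + t k = (2 : ℕ) := by push_cast; ring
        rw [this, Real.rpow_natCast]
      have hHwpos : 0 < H ^ w := Real.rpow_pos_of_pos hH0 w
      have hq'tpos : 0 < q' ^ t k := Real.rpow_pos_of_pos hq'0 _
      rw [Real.rpow_neg hH0.le, div_le_iff₀ (by positivity)]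
      have : ((f k).h : ℝ)⁻¹ * (H ^ w)⁻¹ * q' ^ 2 = q' ^ 2 / ((f k).h * H ^ w) := by
        field_simp
      rw [this, le_div_iff₀ (by positivity), ← hqq]
      calc 3 * (((f k).h : ℝ) * H ^ w) ≤ 3 * ((2 * m * q) * q' ^ t k) := by gcongr
        _ = (6 * m * q) * q' ^ t k := by ring
        _ ≤ q' ^ (2 - t k) * q' ^ t k := by gcongr

set_option maxHeartbeats 2000000 in
/-- upper bound for the uniform exponent -/
lemma Data.upper {t : ℕ → ℝ} {f : ℕ → St} {ξ : ℝ} (D : Data t f ξ)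
    (v : ℝ) (hv1 : 1 ≤ v) (hv2 : v ≤ 2) (ht1 : ∀ k, 1 < t k) (ht2 : ∀ k, t k < 2)
    (ht : Filter.Tendsto t Filter.atTop (nhds v)) (w : ℝ) (hw : v < w) :
    ¬ ∃ H₀ : ℝ, ∀ H : ℝ, H₀ ≤ H →
      ∃ (α : ℝ) (h : ℤ), IsApp α h ∧ (h : ℝ) ≤ H ∧ 0 < |ξ - α| ∧
        |ξ - α| ≤ (h : ℝ)⁻¹ * H ^ (-w) := by
  rintro ⟨H₀, hH₀⟩
  set ε : ℝ := (w - v) / 2 with hε
  have hε0 : 0 < ε := by rw [hε]; linarith
  have hev1 : ∀ᶠ k in Filter.atTop, t k < w - ε := ht.eventually_lt_const (by rw [hε]; linarith)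
  have hev2 : ∀ᶠ k : ℕ in Filter.atTop, (100 * 100 ^ w : ℝ) ≤ (k : ℝ) ^ ε :=
    ((tendsto_rpow_atTop hε0).comp tendsto_natCast_atTop_atTop).eventually_ge_atTop _
  have hev3 : ∀ᶠ k : ℕ in Filter.atTop, max (100 * H₀) 100 ≤ (k : ℝ) :=
    tendsto_natCast_atTop_atTop.eventually_ge_atTop _
  obtain ⟨k, ⟨htk, hkε⟩, hk3⟩ := ((hev1.and hev2).and hev3).exists
  have hG := D.good k
  have hm12 := D.mR k
  have hq1 := D.q0 k
  have hqk := D.qR k
  have hup := D.up k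
  have hlow := D.low k
  have hpq := D.pq k
  set p : ℤ := (f k).p with hpdef
  set qz : ℤ := (f k).q with hqzdef
  set m : ℝ := ((f k).m : ℝ) with hm
  set q : ℝ := (qz : ℝ) with hq
  have hk100 : (100 : ℝ) ≤ k := (le_max_right _ _).trans hk3
  have hkH : 100 * H₀ ≤ k := (le_max_left _ _).trans hk3
  have hmq0 : 0 < m * q := by positivity
  have hmqk : (k : ℝ) ≤ m * q := by nlinarith
  set H : ℝ := m * q / 100 with hH
  have hH1 : 1 ≤ H := by rw [hH]; linarith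
  have hH0 : 0 < H := by linarith
  have hHH₀ : H₀ ≤ H := by rw [hH]; linarith
  -- H ^ w is large
  have hHw : 100 * (m * q ^ 2) ≤ H ^ w := by
    have h1 : H ^ w = (m * q) ^ w / 100 ^ w := by
      rw [hH, Real.div_rpow hmq0.le (by norm_num)]
    have h2 : (m * q ^ 2) * (m * q) ^ ε ≤ (m * q) ^ w := by
      have : (m * q) ^ (w - ε) * (m * q) ^ ε = (m * q) ^ w := by
        rw [← Real.rpow_add hmq0]; congr 1; ring
      rw [← this]
      apply mul_le_mul_of_nonneg_right _ (Real.rpow_nonneg hmq0.le _)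
      refine le_trans hG.hm1 (Real.rpow_le_rpow_of_exponent_le ?_ htk.le)
      linarith
    have h3 : (100 * 100 ^ w : ℝ) ≤ (m * q) ^ ε :=
      hkε.trans (Real.rpow_le_rpow (by positivity) hmqk hε0.le)
    have h4 : (0 : ℝ) < 100 ^ w := Real.rpow_pos_of_pos (by norm_num) _
    rw [h1, le_div_iff₀ h4]
    have h5 : 0 < m * q ^ 2 := by positivity
    calc 100 * (m * q ^ 2) * 100 ^ w = (m * q ^ 2) * (100 * 100 ^ w) := by ring
      _ ≤ (m * q ^ 2) * (m * q) ^ ε := by gcongr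
      _ ≤ _ := h2
  obtain ⟨α, h, ⟨P, hirr, hdeg, hroot, hcoef, i, hi⟩, hhH, hpos, hle⟩ := hH₀ H hHH₀
  rw [eq_quad P hdeg] at hirr hroot
  rw [quad_aeval] at hroot
  set a := P.coeff 2 with ha
  set b := P.coeff 1 with hb
  set c := P.coeff 0 with hc
  have hh0 : 0 < h := by
    have h0 : 0 ≤ h := by rw [← hi]; exact abs_nonneg _
    rcases h0.lt_or_eq with h1 | h1
    · exact h1
    · exfalso
      have e0 : a = 0 := by have := hcoef 2; rw [← h1] at this; exact abs_nonpos_iff.mp this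
      have e1 : b = 0 := by have := hcoef 1; rw [← h1] at this; exact abs_nonpos_iff.mp this
      have e2 : c = 0 := by have := hcoef 0; rw [← h1] at this; exact abs_nonpos_iff.mp this
      apply hirr.ne_zero
      rw [e0, e1, e2]
      unfold Pool.Agent.H8Unif.quad
      simp
  have hhR : (0 : ℝ) < h := by exact_mod_cast hh0
  have hh1 : (1 : ℝ) ≤ h := by exact_mod_cast (by omega : 1 ≤ h)
  have haR : |(a : ℝ)| ≤ h := by exact_mod_cast hcoef 2
  have hbR : |(b : ℝ)| ≤ h := by exact_mod_cast hcoef 1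
  have hHwpos : 0 < H ^ w := Real.rpow_pos_of_pos hH0 w
  have hmq2 : 0 < m * q ^ 2 := by positivity
  have hHwn : H ^ (-w) ≤ 1 / (100 * (m * q ^ 2)) := by
    rw [Real.rpow_neg hH0.le, ← one_div]
    exact one_div_le_one_div_of_le (by positivity) hHw
  have hHwn0 : 0 ≤ H ^ (-w) := Real.rpow_nonneg hH0.le _
  have hdist : (h : ℝ) * |ξ - α| ≤ 1 / (100 * (m * q ^ 2)) := by
    have : (h : ℝ) * |ξ - α| ≤ h * ((h : ℝ)⁻¹ * H ^ (-w)) := mul_le_mul_of_nonneg_left hle hhR.le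
    rw [← mul_assoc, mul_inv_cancel₀ hhR.ne', one_mul] at this
    exact this.trans hHwn
  have hbd1 : 1 / (100 * (m * q ^ 2)) ≤ 1 := by
    rw [div_le_one (by positivity)]
    nlinarith [sq_nonneg (q - 1)]
  have hξ1 : |ξ| ≤ 1 := by rw [abs_of_pos D.pos]; exact D.lt_one.le
  have hα2 : |α| ≤ 2 := by
    have h1 : |ξ - α| ≤ 1 := by nlinarith [abs_nonneg (ξ - α)]
    have h2 : |α| ≤ |ξ| + |ξ - α| := by
      have e : α = ξ - (ξ - α) := by ring
      nth_rewrite 1 [e]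
      exact abs_sub _ _
    linarith
  -- P ξ is small
  have hPξ : |(a : ℝ) * ξ ^ 2 + b * ξ + c| ≤ 4 * (1 / (100 * (m * q ^ 2))) := by
    have := eval_diff a b c α ξ h hα2 hξ1 haR hbR
    rw [hroot, zero_sub, abs_neg, abs_sub_comm α ξ] at this
    linarith
  have hPpq : |((a : ℝ) * (p / q) ^ 2 + b * (p / q) + c) - ((a : ℝ) * ξ ^ 2 + b * ξ + c)| ≤
      12 / 100 * (1 / q ^ 2) := by
    have h1 := eval_diff a b c ((p : ℝ) / q) ξ h (hpq.trans (by norm_num)) hξ1 haR hbR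
    rw [abs_sub_comm ((p : ℝ) / q) ξ] at h1
    have h2 : 4 * (h : ℝ) * |ξ - p / q| ≤ 4 * (m * q / 100) * (3 / (m * q ^ 3)) := by
      have : (h : ℝ) ≤ m * q / 100 := hhH
      gcongr
    have h3 : 4 * (m * q / 100) * (3 / (m * q ^ 3)) = 12 / 100 * (1 / q ^ 2) := by
      have : m ≠ 0 := by linarith
      have : q ≠ 0 := by linarith
      field_simp; norm_num
    linarith
  have hz : |((a * p ^ 2 + b * p * qz + c * qz ^ 2 : ℤ) : ℝ)| < 1 := by
    rw [form_cast a b c p qz (hG.hp.trans hG.hpq), abs_mul, abs_of_nonneg (by positivity)]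
    have h1 : |(a : ℝ) * (p / q) ^ 2 + b * (p / q) + c| ≤
        12 / 100 * (1 / q ^ 2) + 4 * (1 / (100 * (m * q ^ 2))) := by
      have e : (a : ℝ) * (p / q) ^ 2 + b * (p / q) + c =
        (((a : ℝ) * (p / q) ^ 2 + b * (p / q) + c) - ((a : ℝ) * ξ ^ 2 + b * ξ + c)) +
          ((a : ℝ) * ξ ^ 2 + b * ξ + c) := by ring
      rw [e]
      exact (abs_add_le _ _).trans (add_le_add hPpq hPξ)
    have h2 : 4 * (1 / (100 * (m * q ^ 2))) ≤ 4 / 100 * (1 / q ^ 2) := by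
      have : 4 * (1 / (100 * (m * q ^ 2))) = 4 / 100 * (1 / q ^ 2) * (1 / m) := by
        have : m ≠ 0 := by linarith
        have : q ≠ 0 := by linarith
        field_simp
      rw [this]
      have h5 : 1 / m ≤ 1 := by rw [div_le_one (by linarith)]; linarith
      have h6 : 0 ≤ 4 / 100 * (1 / q ^ 2) := by positivity
      nlinarith
    have h3 : q ^ 2 * (1 / q ^ 2) = 1 := by
      have : q ≠ 0 := by linarith
      field_simp
    have h4 : 0 < q ^ 2 := by positivity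
    calc q ^ 2 * |(a : ℝ) * (p / q) ^ 2 + b * (p / q) + c|
        ≤ q ^ 2 * (16 / 100 * (1 / q ^ 2)) := by
          apply mul_le_mul_of_nonneg_left _ h4.le
          linarith
      _ = 16 / 100 * (q ^ 2 * (1 / q ^ 2)) := by ring
      _ < 1 := by rw [h3]; norm_num
  have hz0 := int_gap _ hz
  obtain ⟨ea, eb, ec⟩ := irred_form_zero a b c p qz (hG.hp.trans hG.hpq) hG.hc hirr hz0
  -- α = p / q and q ≤ h
  have hqh : q ≤ h := by
    have := hcoef 1
    rw [← hb, eb] at this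
    rw [hq]
    exact Int.cast_le.mpr this
  have hbne : (b : ℝ) ≠ 0 := by
    intro h0
    have : b = 0 := by exact_mod_cast h0
    rw [this, abs_zero] at eb
    have := hG.hp.trans hG.hpq
    omega
  have hαpq : α = p / q := by
    have h1 : (b : ℝ) * p + c * q = 0 := by
      rw [hq]
      have := congrArg (fun z : ℤ => (z : ℝ)) ec
      simpa using this
    rw [ea] at hroot
    simp only [Int.cast_zero, zero_mul, zero_add] at hroot
    have h2 : (b : ℝ) * (α * q - p) = 0 := by linear_combination q * hroot - h1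
    have h3 : α * q - p = 0 := (mul_eq_zero.mp h2).resolve_left hbne
    have : q ≠ 0 := by linarith
    field_simp
    linarith
  rw [hαpq] at hdist
  have h1 : q * (1 / (4 * m * q ^ 3)) ≤ h * |ξ - p / q| := by gcongr
  have h2 : q * (1 / (4 * m * q ^ 3)) = 1 / 4 * (1 / (m * q ^ 2)) := by
    have : m ≠ 0 := by linarith
    have : q ≠ 0 := by linarith
    field_simp
  have h3 : 1 / (100 * (m * q ^ 2)) = 1 / 100 * (1 / (m * q ^ 2)) := by
    have : m ≠ 0 := by linarith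
    have : q ≠ 0 := by linarith
    field_simp
  have h4 : 0 < 1 / (m * q ^ 2) := by positivity
  linarith

/-- For every v in [1,2] there is a real number, not algebraic of degree at most 2, whose uniform exponent of approximation by real algebraic numbers of degree at most 2 (hat w_2^*) equals exactly v. -/
theorem result :
    ∀ v : ℝ, 1 ≤ v → v ≤ 2 → ∃ ξ : ℝ,
      (∀ Q : Polynomial ℤ, Q ≠ 0 → Q.natDegree ≤ 2 → Polynomial.aeval ξ Q ≠ 0) ∧
      (∀ w : ℝ, w < v →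
        ∃ H₀ : ℝ, ∀ H : ℝ, H₀ ≤ H →
          ∃ P : Polynomial ℤ, ∃ α : ℝ, ∃ h : ℤ,
            Irreducible P ∧ P.natDegree ≤ 2 ∧ Polynomial.aeval α P = 0 ∧
            (∀ i : ℕ, |P.coeff i| ≤ h) ∧ (∃ i : ℕ, |P.coeff i| = h) ∧
            (h : ℝ) ≤ H ∧ 0 < |ξ - α| ∧ |ξ - α| ≤ (h : ℝ)⁻¹ * H ^ (-w)) ∧
      (∀ w : ℝ, v < w →
        ¬ ∃ H₀ : ℝ, ∀ H : ℝ, H₀ ≤ H →
          ∃ P : Polynomial ℤ, ∃ α : ℝ, ∃ h : ℤ,
            Irreducible P ∧ P.natDegree ≤ 2 ∧ Polynomial.aeval α P = 0 ∧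
            (∀ i : ℕ, |P.coeff i| ≤ h) ∧ (∃ i : ℕ, |P.coeff i| = h) ∧
            (h : ℝ) ≤ H ∧ 0 < |ξ - α| ∧ |ξ - α| ≤ (h : ℝ)⁻¹ * H ^ (-w)) := by
  intro v hv1 hv2
  set t : ℕ → ℝ := fun k => v + (3 / 2 - v) / (k + 2) with htdef
  have hk : ∀ k : ℕ, (0 : ℝ) < 1 / ((k : ℝ) + 2) ∧ 1 / ((k : ℝ) + 2) ≤ 1 / 2 := by
    intro k
    constructor
    · positivity
    · apply one_div_le_one_div_of_le (by norm_num)
      have : (0 : ℝ) ≤ k := by positivity
      linarith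
  have ht1 : ∀ k, 1 < t k := by
    intro k
    obtain ⟨h1, h2⟩ := hk k
    have : t k = v + (3 / 2 - v) * (1 / ((k : ℝ) + 2)) := by rw [htdef]; ring
    rw [this]
    nlinarith
  have ht2 : ∀ k, t k < 2 := by
    intro k
    obtain ⟨h1, h2⟩ := hk k
    have : t k = v + (3 / 2 - v) * (1 / ((k : ℝ) + 2)) := by rw [htdef]; ring
    rw [this]
    nlinarith
  have ht : Filter.Tendsto t Filter.atTop (nhds v) := by
    have h1 : Filter.Tendsto (fun k : ℕ => (3 / 2 - v) / ((k : ℝ) + 2)) Filter.atTop (nhds 0) := by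
      apply Filter.Tendsto.div_atTop tendsto_const_nhds
      exact Filter.tendsto_atTop_add_const_right _ _ tendsto_natCast_atTop_atTop
    have h2 := h1.const_add v
    rw [add_zero] at h2
    exact h2
  obtain ⟨f, hG, hR⟩ := exists_sequence t ht1 ht2
  obtain ⟨ξ, h0, h1, hlow, hup, hquad⟩ := limit_point t f hG hR
  have D : Data t f ξ := ⟨hG, fun k => (hR k).1, fun k => (hR k).2.2.2, h0, h1, hlow, hup, hquad⟩
  refine ⟨ξ, D.not_alg, ?_, ?_⟩
  · intro w hw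
    obtain ⟨H₀, hH₀⟩ := D.lower v hv1 hv2 ht1 ht2 ht w hw
    refine ⟨H₀, fun H hH => ?_⟩
    obtain ⟨α, h, ⟨P, h1, h2, h3, h4, h5⟩, h6, h7, h8⟩ := hH₀ H hH
    exact ⟨P, α, h, h1, h2, h3, h4, h5, h6, h7, h8⟩
  · intro w hw hcon
    apply D.upper v hv1 hv2 ht1 ht2 ht w hw
    obtain ⟨H₀, hH₀⟩ := hcon
    refine ⟨H₀, fun H hH => ?_⟩
    obtain ⟨P, α, h, h1, h2, h3, h4, h5, h6, h7, h8⟩ := hH₀ H hH
    exact ⟨α, h, ⟨P, h1, h2, h3, h4, h5⟩, h6, h7, h8⟩

end Pool.Agent.S3905
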