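import Pool.Statements.S3955
import Pool.Agent.H18.C8f06

set_option autoImplicit false
open Filter
open Pool Pool.MP_0c8f06_nt

namespace Pool.Agent.S3955

/-- For f(n)=n/3 if 3 divides n and f(n)=floor(n·√3) otherwise, the set of positive integers whose orbit under f tends to infinity has natural density 1. -/
theorem result :
    ∀ f : ℕ → ℕ,
      (∀ n : ℕ, f n = if n % 3 = 0 then n / 3 else ⌊(n : ℝ) * Real.sqrt 3⌋₊) →
      Tendsto
        (fun N : ℕ =>
          (({n : ℕ | 1 ≤ n ∧ n ≤ N ∧
              Tendsto (fun k : ℕ => f^[k] n) atTop atTop}.ncard : ℕ) : ℝ) / (N : ℝ))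
        atTop (nhds 1) := by
  intro f hf
  exact Pool.Agent.H18.C8f06.main f hf

end Pool.Agent.S3955
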