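import Pool.Statements.S4025

set_option autoImplicit false
open Filter Topology
open Pool Pool.MP_184037_nt

namespace Pool.Agent.S4025

open Finset

/-- truncated sum over small divisors -/
noncomputable def s (y n : ℕ) : ℝ := ∑ d ∈ (Ioc 0 y).filter (· ∣ n), (d : ℝ)⁻¹
/-- sum over large divisors, up to `x` -/
noncomputable def t (y x n : ℕ) : ℝ := ∑ d ∈ (Ioc y x).filter (· ∣ n), (d : ℝ)⁻¹

theorem sigma_eq (y x n : ℕ) (hn : 0 < n) (hnx : n ≤ x) :
    ((ArithmeticFunction.sigma 1 n : ℕ) : ℝ) = n * (s y n + t y x n) := by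
  have h1 : s y n + t y x n = ∑ d ∈ n.divisors, (d : ℝ)⁻¹ := by
    unfold s t
    rw [← Finset.sum_union]
    · refine Finset.sum_congr ?_ fun _ _ => rfl
      ext d
      simp only [mem_union, mem_filter, mem_Ioc, Nat.mem_divisors]
      constructor
      · rintro (⟨_, h⟩ | ⟨_, h⟩) <;> exact ⟨h, hn.ne'⟩
      · rintro ⟨h, _⟩
        have h2 : 0 < d := Nat.pos_of_dvd_of_pos h hn
        have h3 : d ≤ n := Nat.le_of_dvd hn h
        by_cases hd : d ≤ y
        · exact Or.inl ⟨⟨h2, hd⟩, h⟩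
        · exact Or.inr ⟨⟨by omega, by omega⟩, h⟩
    · rw [Finset.disjoint_left]
      intro d hd hd'
      simp only [mem_filter, mem_Ioc] at hd hd'
      omega
  rw [h1, ArithmeticFunction.sigma_one_apply, ← Nat.sum_div_divisors, Nat.cast_sum, Finset.mul_sum]
  refine Finset.sum_congr rfl fun d hd => ?_
  rw [Nat.cast_div (Nat.dvd_of_mem_divisors hd) (by
    have := Nat.pos_of_mem_divisors hd
    positivity)]
  rfl

theorem sum_t_le (y x : ℕ) (hy : y ≠ 0) (hyx : y ≤ x) :
    ∑ n ∈ Ioc 0 x, t y x n ≤ x * (y : ℝ)⁻¹ := by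
  unfold t
  simp only [Finset.sum_filter]
  rw [Finset.sum_comm]
  have h1 : ∀ d ∈ Ioc y x, ∑ n ∈ Ioc 0 x, (if d ∣ n then (d : ℝ)⁻¹ else 0) ≤
      x * ((d : ℝ) ^ 2)⁻¹ := by
    intro d hd
    rw [mem_Ioc] at hd
    rw [← Finset.sum_filter, Finset.sum_const, Nat.Ioc_filter_dvd_card_eq_div, nsmul_eq_mul]
    have hd0 : (0 : ℝ) < d := by
      have : 0 < d := by omega
      exact_mod_cast this
    have h2 : ((x / d : ℕ) : ℝ) ≤ x / d := Nat.cast_div_le
    calc ((x / d : ℕ) : ℝ) * (d : ℝ)⁻¹ ≤ (x / d) * (d : ℝ)⁻¹ := by gcongr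
      _ = x * ((d : ℝ) ^ 2)⁻¹ := by field_simp
  calc ∑ d ∈ Ioc y x, ∑ n ∈ Ioc 0 x, (if d ∣ n then (d : ℝ)⁻¹ else 0)
      ≤ ∑ d ∈ Ioc y x, x * ((d : ℝ) ^ 2)⁻¹ := Finset.sum_le_sum h1
    _ = x * ∑ d ∈ Ioc y x, ((d : ℝ) ^ 2)⁻¹ := by rw [Finset.mul_sum]
    _ ≤ x * (y : ℝ)⁻¹ := by
      gcongr
      have := sum_Ioc_inv_sq_le_sub (α := ℝ) hy hyx
      have h3 : (0 : ℝ) ≤ (x : ℝ)⁻¹ := by positivity
      linarith

theorem card_residue (S : Finset ℕ) (L : ℕ) (r : ℕ) (hL : 0 < L) (M : ℝ) (hM : 0 ≤ M)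
    (hr : ∀ n ∈ S, n % L = r) (hd : ∀ m ∈ S, ∀ n ∈ S, (n : ℝ) - m ≤ M) :
    (S.card : ℝ) ≤ M / L + 1 := by
  rcases S.eq_empty_or_nonempty with h | h
  · subst h; simp; positivity
  · obtain ⟨m, hm, hmin⟩ : ∃ m, m ∈ S ∧ ∀ b ∈ S, m ≤ b :=
      ⟨S.min' h, S.min'_mem h, fun b hb => S.min'_le b hb⟩
    have hcard : S.card ≤ ⌊M / L⌋₊ + 1 := by
      rw [← Finset.card_range (⌊M / L⌋₊ + 1)]
      refine Finset.card_le_card_of_injOn (fun n => (n - m) / L) ?_ ?_
      · intro n hn
        have hn' : n ∈ S := hn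
        simp only [coe_range, Set.mem_Iio]
        rw [Nat.lt_succ_iff]
        apply Nat.le_floor
        have h1 := hd m hm n hn'
        have h2 : m ≤ n := hmin n hn'
        calc (((n - m) / L : ℕ) : ℝ) ≤ ((n - m : ℕ) : ℝ) / L := Nat.cast_div_le
          _ ≤ M / L := by
            rw [Nat.cast_sub h2]
            gcongr
      · intro a ha b hb hab
        have ha' : a ∈ S := ha
        have hb' : b ∈ S := hb
        have h1 : m ≤ a := hmin a ha'
        have h2 : m ≤ b := hmin b hb'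
        have h3 := hr a ha'
        have h4 := hr b hb'
        have h5 := hr m hm
        have h6 : L ∣ a - m := (Nat.modEq_iff_dvd' h1).mp (by rw [Nat.ModEq, h5, h3])
        have h7 : L ∣ b - m := (Nat.modEq_iff_dvd' h2).mp (by rw [Nat.ModEq, h5, h4])
        have h8 : (a - m) / L = (b - m) / L := hab
        have h9 : a - m = b - m := by
          rw [← Nat.div_mul_cancel h6, ← Nat.div_mul_cancel h7, h8]
        omega
    calc (S.card : ℝ) ≤ ((⌊M / L⌋₊ + 1 : ℕ) : ℝ) := by exact_mod_cast hcard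
      _ = ⌊M / L⌋₊ + 1 := by push_cast; ring
      _ ≤ M / L + 1 := by
        gcongr
        exact Nat.floor_le (by positivity)

theorem s_congr (y m n : ℕ) (h : m % y.factorial = n % y.factorial) : s y m = s y n := by
  unfold s
  refine Finset.sum_congr ?_ fun _ _ => rfl
  ext d
  simp only [mem_filter, mem_Ioc]
  refine and_congr_right fun hd => ?_
  have h1 : d ∣ y.factorial := Nat.dvd_factorial hd.1 hd.2
  exact (Nat.ModEq.of_dvd h1 h).dvd_iff dvd_rfl

theorem one_le_s (y n : ℕ) (hy : 0 < y) : 1 ≤ s y n := by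
  unfold s
  have h1 : (1 : ℕ) ∈ (Ioc 0 y).filter (· ∣ n) := by
    simp only [mem_filter, mem_Ioc]
    exact ⟨⟨by omega, hy⟩, one_dvd n⟩
  have := Finset.single_le_sum (f := fun d : ℕ => (d : ℝ)⁻¹)
    (fun d _ => by positivity) h1
  simpa using this

theorem t_nonneg (y x n : ℕ) : 0 ≤ t y x n := by
  unfold t
  exact Finset.sum_nonneg fun d _ => by positivity

theorem key (k : ℕ) (hk : 0 < k) : ∃ X : ℕ, ∀ x ≥ X,
    (Nat.card {n : ℕ //
          (x : ℝ) < (n : ℝ) + ((ArithmeticFunction.sigma 1 n : ℕ) : ℝ) ∧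
          (n : ℝ) + ((ArithmeticFunction.sigma 1 n : ℕ) : ℝ) < (x : ℝ) + (x : ℝ) / k} : ℝ)
      ≤ 3 * ((x : ℝ) / k) := by
  classical
  set y := k * k with hy
  have hy0 : 0 < y := Nat.mul_pos hk hk
  set L := y.factorial with hL
  have hL0 : 0 < L := Nat.factorial_pos y
  refine ⟨k * L + y + 1, fun x hx => ?_⟩
  have hkR : (0 : ℝ) < k := by exact_mod_cast hk
  have hk1 : (1 : ℝ) ≤ k := by exact_mod_cast hk
  have hLR : (0 : ℝ) < L := by exact_mod_cast hL0
  have hx0 : 0 < x := by omega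
  have hxR : (0 : ℝ) < x := by exact_mod_cast hx0
  have hyx : y ≤ x := by omega
  have hkL : (L : ℝ) ≤ x / k := by
    rw [le_div_iff₀ hkR]
    have : L * k ≤ x := by nlinarith
    exact_mod_cast this
  have hxk : (x : ℝ) / k ≤ x := div_le_self hxR.le hk1
  set A : Finset ℕ := (Ioc 0 x).filter (fun n : ℕ => (x : ℝ) < (n : ℝ) + ((ArithmeticFunction.sigma 1 n : ℕ) : ℝ) ∧
          (n : ℝ) + ((ArithmeticFunction.sigma 1 n : ℕ) : ℝ) < (x : ℝ) + (x : ℝ) / k) with hA
  set B : Finset ℕ := (Ioc 0 x).filter (fun n : ℕ => (1 : ℝ) / k < t y x n) with hB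
  -- the subtype is contained in A
  have hsub : {n : ℕ | (x : ℝ) < (n : ℝ) + ((ArithmeticFunction.sigma 1 n : ℕ) : ℝ) ∧
          (n : ℝ) + ((ArithmeticFunction.sigma 1 n : ℕ) : ℝ) < (x : ℝ) + (x : ℝ) / k} ⊆ ↑A := by
    intro n hn
    have hn1 := hn.1
    have hn2 := hn.2
    have hn0 : 0 < n := by
      rcases Nat.eq_zero_or_pos n with h | h
      · subst h
        simp at hn1
        linarith
      · exact h
    have hσ : (n : ℝ) ≤ ((ArithmeticFunction.sigma 1 n : ℕ) : ℝ) := by
      have : n ≤ ArithmeticFunction.sigma 1 n := by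
        rw [ArithmeticFunction.sigma_one_apply]
        exact Finset.single_le_sum (f := fun d => d) (fun _ _ => Nat.zero_le _)
          (Nat.mem_divisors_self n hn0.ne')
      exact_mod_cast this
    have hnx : n ≤ x := by
      have : (n : ℝ) < x := by linarith
      exact_mod_cast this.le
    simp only [hA, coe_filter, mem_Ioc]
    exact ⟨⟨hn0, hnx⟩, hn1, hn2⟩
  have hcard1 : (Nat.card {n : ℕ //
          (x : ℝ) < (n : ℝ) + ((ArithmeticFunction.sigma 1 n : ℕ) : ℝ) ∧
          (n : ℝ) + ((ArithmeticFunction.sigma 1 n : ℕ) : ℝ) < (x : ℝ) + (x : ℝ) / k}) ≤ A.card := by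
    have h1 := Set.ncard_le_ncard hsub (Finset.finite_toSet A)
    rw [Set.ncard_coe_finset] at h1
    exact h1
  -- B is small
  have hBcard : (B.card : ℝ) ≤ x / k := by
    have h1 : (B.card : ℝ) * (1 / k) ≤ ∑ n ∈ Ioc 0 x, t y x n := by
      calc (B.card : ℝ) * (1 / k) = ∑ n ∈ B, (1 : ℝ) / k := by
            rw [Finset.sum_const, nsmul_eq_mul]
        _ ≤ ∑ n ∈ B, t y x n := by
            refine Finset.sum_le_sum fun n hn => ?_
            rw [hB, mem_filter] at hn
            exact hn.2.le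
        _ ≤ ∑ n ∈ Ioc 0 x, t y x n := by
            refine Finset.sum_le_sum_of_subset_of_nonneg (filter_subset _ _) ?_
            intro n _ _
            exact t_nonneg y x n
    have h2 := sum_t_le y x hy0.ne' hyx
    have h3 : (B.card : ℝ) * (1 / k) ≤ x * (y : ℝ)⁻¹ := h1.trans h2
    rw [hy] at h3
    push_cast at h3
    rw [mul_one_div, div_le_iff₀ hkR] at h3
    calc (B.card : ℝ) ≤ x * ((k : ℝ) * k)⁻¹ * k := h3
      _ = x / k := by field_simp
  -- residue classes
  have hfib : ((A \ B).card : ℝ) ≤ x / k + L := by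
    have hmaps : ∀ n ∈ A \ B, n % L ∈ Finset.range L := fun n _ =>
      Finset.mem_range.mpr (Nat.mod_lt _ hL0)
    rw [Finset.card_eq_sum_card_fiberwise hmaps]
    push_cast
    have hone : ∀ r ∈ Finset.range L,
        ((((A \ B).filter (fun n => n % L = r)).card : ℕ) : ℝ) ≤ (x / k) / L + 1 := by
      intro r _
      refine card_residue _ L r hL0 (x / k) (by positivity) ?_ ?_
      · intro n hn; exact (mem_filter.mp hn).2
      · have hprop : ∀ n ∈ (A \ B).filter (fun n => n % L = r),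
            (x : ℝ) - x / k ≤ n * (1 + s y n) ∧ (n : ℝ) * (1 + s y n) < x + x / k := by
          intro n hn
          rw [mem_filter, Finset.mem_sdiff, hA, hB, mem_filter, mem_filter, mem_Ioc] at hn
          obtain ⟨⟨⟨⟨h1, h2⟩, h3, h4⟩, h5⟩, _⟩ := hn
          have h6 : t y x n ≤ 1 / k := by
            by_contra h; push Not at h; exact h5 ⟨⟨h1, h2⟩, h⟩
          rw [sigma_eq y x n h1 h2] at h3 h4
          have h7 : (0 : ℝ) < n := by exact_mod_cast h1
          have h8 : (n : ℝ) ≤ x := by exact_mod_cast h2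
          have h9 := t_nonneg y x n
          have h10 : (n : ℝ) * t y x n ≤ x / k := by
            calc (n : ℝ) * t y x n ≤ x * (1 / k) := by gcongr
              _ = x / k := by ring
          have h11 : 0 ≤ (n : ℝ) * t y x n := by positivity
          constructor <;> nlinarith
        intro m hm n hn
        have hm' := hprop m hm
        have hn' := hprop n hn
        have hs : s y m = s y n := by
          refine s_congr y m n ?_
          rw [mem_filter] at hm hn
          rw [← hL, hm.2, hn.2]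
        rw [hs] at hm'
        have hs1 := one_le_s y n hy0
        rcases le_total (n : ℝ) m with h | h
        · have : (0 : ℝ) ≤ x / k := by positivity
          linarith
        · nlinarith
    calc ∑ r ∈ Finset.range L, ((((A \ B).filter (fun n => n % L = r)).card : ℕ) : ℝ)
        ≤ ∑ r ∈ Finset.range L, ((x : ℝ) / k / L + 1) := Finset.sum_le_sum hone
      _ = x / k + L := by
        rw [Finset.sum_const, Finset.card_range, nsmul_eq_mul]
        field_simp
  have hAB : (A.card : ℝ) ≤ (A \ B).card + B.card := by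
    have : A.card ≤ (A \ B).card + B.card := by
      have h1 : A ⊆ (A \ B) ∪ B := by
        intro n hn
        rw [mem_union, Finset.mem_sdiff]
        tauto
      exact (Finset.card_le_card h1).trans (Finset.card_union_le _ _)
    exact_mod_cast this
  calc (Nat.card {n : ℕ //
          (x : ℝ) < (n : ℝ) + ((ArithmeticFunction.sigma 1 n : ℕ) : ℝ) ∧
          (n : ℝ) + ((ArithmeticFunction.sigma 1 n : ℕ) : ℝ) < (x : ℝ) + (x : ℝ) / k} : ℝ)
      ≤ A.card := by exact_mod_cast hcard1
    _ ≤ 3 * ((x : ℝ) / k) := by linarith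

/-- It is not true that for every F tending to infinity with F(n)/σ(n) → 0 off a density-zero set, every constant C is beaten by #{n : x < n+σ(n) < x+F(x)} / F(x) for infinitely many x. -/
theorem result :
    ¬ ∀ F : ℕ → ℝ, Tendsto F atTop atTop →
      (∀ ε : ℝ, 0 < ε →
        Tendsto (fun N : ℕ =>
          (((Finset.range N).filter
            (fun n => ε ≤ |F n / ((ArithmeticFunction.sigma 1 n : ℕ) : ℝ)|)).card : ℝ) / (N : ℝ))
          atTop (𝓝 0)) →
      ∀ C : ℝ, ∀ N : ℕ, ∃ x : ℕ, N < x ∧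
        C * F x < (Nat.card {n : ℕ //
          (x : ℝ) < (n : ℝ) + ((ArithmeticFunction.sigma 1 n : ℕ) : ℝ) ∧
          (n : ℝ) + ((ArithmeticFunction.sigma 1 n : ℕ) : ℝ) < (x : ℝ) + F x} : ℝ) := by
  classical
  intro hall
  choose X hX using fun k : ℕ => key (k + 1) (Nat.succ_pos k)
  set κ : ℕ → ℕ := fun x => Nat.findGreatest (fun k => ∀ j ≤ k, X j + j * j ≤ x) x with hκ
  have hκspec : ∀ x, X 0 ≤ x → ∀ j ≤ κ x, X j + j * j ≤ x := by
    intro x hx
    have h0 : ∀ j ≤ 0, X j + j * j ≤ x := by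
      intro j hj
      have : j = 0 := by omega
      subst this; simpa using hx
    exact Nat.findGreatest_spec (P := fun k => ∀ j ≤ k, X j + j * j ≤ x) (Nat.zero_le x) h0
  have hκtop : Tendsto κ atTop atTop := by
    rw [tendsto_atTop]
    intro K
    filter_upwards [eventually_ge_atTop (K + ∑ j ∈ Finset.range (K + 1), (X j + j * j))] with x hx
    refine Nat.le_findGreatest (by omega) ?_
    intro j hj
    have h1 : X j + j * j ≤ ∑ j ∈ Finset.range (K + 1), (X j + j * j) :=
      Finset.single_le_sum (f := fun j => X j + j * j) (fun _ _ => Nat.zero_le _)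
        (Finset.mem_range.mpr (by omega))
    omega
  set F : ℕ → ℝ := fun x => (x : ℝ) / ((κ x + 1 : ℕ) : ℝ) with hF
  have hFtop : Tendsto F atTop atTop := by
    have h1 : Tendsto (fun x => ((κ x : ℕ) : ℝ) - 1) atTop atTop :=
      tendsto_atTop_add_const_right _ _ (tendsto_natCast_atTop_atTop.comp hκtop)
    refine tendsto_atTop_mono' _ ?_ h1
    filter_upwards [eventually_ge_atTop (X 0)] with x hx
    have h2 := hκspec x hx (κ x) le_rfl
    have h3 : ((κ x : ℕ) : ℝ) * (κ x : ℕ) ≤ x := by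
      have : κ x * κ x ≤ x := by omega
      exact_mod_cast this
    rw [hF]
    simp only
    rw [le_div_iff₀ (by positivity)]
    push_cast
    nlinarith
  have hcond : ∀ ε : ℝ, 0 < ε →
        Tendsto (fun N : ℕ =>
          (((Finset.range N).filter
            (fun n => ε ≤ |F n / ((ArithmeticFunction.sigma 1 n : ℕ) : ℝ)|)).card : ℝ) / (N : ℝ))
          atTop (𝓝 0) := by
    intro ε hε
    obtain ⟨M, hM⟩ : ∃ M : ℕ, ∀ n ≥ M, |F n / ((ArithmeticFunction.sigma 1 n : ℕ) : ℝ)| < ε := by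
      have h1 : ∀ᶠ n in atTop, (1 / ε : ℝ) < (κ n : ℕ) :=
        (tendsto_natCast_atTop_atTop.comp hκtop).eventually_gt_atTop _
      have h2 := h1.and (eventually_gt_atTop 0)
      obtain ⟨M, hM⟩ := eventually_atTop.mp h2
      refine ⟨M, fun n hn => ?_⟩
      obtain ⟨h3, h4⟩ := hM n hn
      have h4' : (0 : ℝ) < n := by exact_mod_cast h4
      have hσ : (n : ℝ) ≤ ((ArithmeticFunction.sigma 1 n : ℕ) : ℝ) := by
        have : n ≤ ArithmeticFunction.sigma 1 n := by
          rw [ArithmeticFunction.sigma_one_apply]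
          exact Finset.single_le_sum (f := fun d => d) (fun _ _ => Nat.zero_le _)
            (Nat.mem_divisors_self n h4.ne')
        exact_mod_cast this
      have hσ0 : (0 : ℝ) < ((ArithmeticFunction.sigma 1 n : ℕ) : ℝ) := by linarith
      rw [abs_of_nonneg (by rw [hF]; positivity)]
      rw [div_lt_iff₀ hσ0, hF]
      simp only
      rw [div_lt_iff₀ (by positivity)]
      push_cast
      have h5 : 1 < ε * (κ n : ℕ) := by
        rw [div_lt_iff₀ hε] at h3
        linarith
      have h6 : (0 : ℝ) < ε * ((κ n : ℕ) + 1) := by positivity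
      calc (n : ℝ) ≤ ((ArithmeticFunction.sigma 1 n : ℕ) : ℝ) * 1 := by linarith
        _ < ((ArithmeticFunction.sigma 1 n : ℕ) : ℝ) * (ε * ((κ n : ℕ) + 1)) := by
          refine mul_lt_mul_of_pos_left ?_ hσ0
          nlinarith
        _ = ε * ((ArithmeticFunction.sigma 1 n : ℕ) : ℝ) * ((κ n : ℕ) + 1) := by ring
    have hle : ∀ N : ℕ, (((Finset.range N).filter
            (fun n => ε ≤ |F n / ((ArithmeticFunction.sigma 1 n : ℕ) : ℝ)|)).card : ℝ) / (N : ℝ)
            ≤ (M : ℝ) / N := by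
      intro N
      gcongr
      have : ((Finset.range N).filter
            (fun n => ε ≤ |F n / ((ArithmeticFunction.sigma 1 n : ℕ) : ℝ)|)) ⊆ Finset.range M := by
        intro n hn
        rw [mem_filter] at hn
        rw [Finset.mem_range]
        by_contra h
        push Not at h
        exact absurd (hM n h) (not_lt.mpr hn.2)
      calc _ ≤ (Finset.range M).card := Finset.card_le_card this
        _ = M := Finset.card_range M
    refine squeeze_zero (fun N => by positivity) hle ?_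
    exact tendsto_const_div_atTop_nhds_zero_nat (M : ℝ)
  obtain ⟨x, hx, hlt⟩ := hall F hFtop hcond 3 (X 0)
  have h1 := hκspec x hx.le (κ x) le_rfl
  have h2 := hX (κ x) x (by omega)
  have h3 : F x = (x : ℝ) / ((κ x + 1 : ℕ) : ℝ) := rfl
  rw [h3] at hlt
  exact absurd hlt (not_lt.mpr h2)

end Pool.Agent.S4025
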