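import Pool.Statements.S4042
import Pool.Agent.S4042Aux.Main

set_option autoImplicit false
open N8bd1f7c7
open Finset
open Pool Pool.MP_1ac310_nt

namespace Pool.Agent.S4042

/-- The negation of the preceding statement: For all n>1, 5·#{s∈[1,n) : n²+s² prime} ≥ π(n), and π(2)=a(2), π(10)=a(10), 5·a(12)=π(12). -/
theorem result :
    ¬ ((∀ n : ℕ, 1 < n → 5 * a n ≥ Nat.primeCounting n) ∧ Nat.primeCounting 2 = a 2 ∧ Nat.primeCounting 10 = a 10 ∧ 5 * a 12 = Nat.primeCounting 12) := by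
  rintro ⟨h, _, _, _⟩
  obtain ⟨n, hn, hlt⟩ := Pool.Agent.S4042Aux.exists_bad
  have h1 := h n hn
  have h2 : N8bd1f7c7.a n = ((Finset.Ico 1 n).filter (fun s => (n ^ 2 + s ^ 2).Prime)).card := by
    rw [Finset.card_filter]
    rfl
  rw [h2] at h1
  omega

end Pool.Agent.S4042
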