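import Pool.Statements.S4053

set_option autoImplicit false
open N41f07a28
open Asymptotics Filter
open Pool Pool.MP_1d29c3_nt

namespace Pool.Agent.S4053

/-- the number of `k ≤ K` with `p ∣ 1 + k b` is at most `K / p + 1` -/
theorem count_le (K p b : ℕ) (hp : p.Prime) :
    ((Finset.Icc 1 K).filter (fun k => p ∣ 1 + k * b)).card ≤ K / p + 1 := by
  by_cases hb : p ∣ b
  · have : (Finset.Icc 1 K).filter (fun k => p ∣ 1 + k * b) = ∅ := by
      apply Finset.filter_false_of_mem
      intro k _ h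
      have h2 : p ∣ k * b := hb.mul_left k
      have h3 : p ∣ 1 := (Nat.dvd_add_left h2).1 h
      exact hp.one_lt.ne' (Nat.dvd_one.1 h3)
    rw [this]; simp
  · have hmap : ∀ k ∈ (Finset.Icc 1 K).filter (fun k => p ∣ 1 + k * b), k / p ∈ Finset.range (K / p + 1) := by
      intro k hk
      rw [Finset.mem_filter, Finset.mem_Icc] at hk
      rw [Finset.mem_range]
      exact Nat.lt_succ_of_le (Nat.div_le_div_right hk.1.2)
    have hinj : Set.InjOn (fun k => k / p)
        (((Finset.Icc 1 K).filter (fun k => p ∣ 1 + k * b) : Finset ℕ) : Set ℕ) := by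
      have key : ∀ k l : ℕ, k ≤ l → p ∣ 1 + k * b → p ∣ 1 + l * b → k / p = l / p → k = l := by
        intro k l hkl hk hl hdiv
        have h1 : p ∣ (1 + l * b) - (1 + k * b) := Nat.dvd_sub hl hk
        have h2 : (1 + l * b) - (1 + k * b) = (l - k) * b := by
          rw [Nat.sub_mul]; omega
        rw [h2] at h1
        have h3 : p ∣ l - k := (hp.dvd_mul.1 h1).resolve_right hb
        obtain ⟨c, hc⟩ := h3
        have h4 : l = k + p * c := by omega
        rw [h4, Nat.add_mul_div_left _ _ hp.pos] at hdiv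
        have : c = 0 := by omega
        rw [this] at h4; omega
      intro k hk l hl hkl
      simp only [Finset.coe_filter, Set.mem_ofPred_eq, Finset.mem_Icc] at hk hl
      rcases le_total k l with h | h
      · exact key k l h hk.2 hl.2 hkl
      · exact (key l k h hl.2 hk.2 hkl.symm).symm
    have := Finset.card_le_card_of_injOn _ hmap hinj
    simpa using this

/-- weight of a prime -/
noncomputable def w (m : ℕ) : ℝ := 1 / Real.sqrt m

theorem w_nonneg (m : ℕ) : 0 ≤ w m := by unfold w; positivity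

theorem tele (m : ℕ) (hm : 1 ≤ m) : w (m + 1) / (m + 1 : ℕ) ≤ 2 * (w m - w (m + 1)) := by
  unfold w
  have h1 : (0 : ℝ) < Real.sqrt (m : ℝ) := Real.sqrt_pos.2 (by exact_mod_cast hm)
  have h2 : (0 : ℝ) < Real.sqrt ((m + 1 : ℕ) : ℝ) := Real.sqrt_pos.2 (by positivity)
  set x := Real.sqrt (m : ℝ) with hx
  set y := Real.sqrt ((m + 1 : ℕ) : ℝ) with hy
  have hxx : x * x = m := Real.mul_self_sqrt (by positivity)
  have hyy : y * y = (m + 1 : ℕ) := Real.mul_self_sqrt (by positivity)
  have hxy : x ≤ y := Real.sqrt_le_sqrt (by push_cast; linarith)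
  rw [← hyy]
  have hd : y * y - x * x = 1 := by rw [hxx, hyy]; push_cast; ring
  have e1 : 2 * (1 / x - 1 / y) - 1 / y / (y * y) = (2 * (y - x) * y * y - x) / (x * y * y * y) := by
    field_simp
  have hpos : 0 ≤ 2 * (y - x) * y * y - x := by
    have : (y - x) * (y + x) = 1 := by linarith [hd]
    have h3 : 1 ≤ (y - x) * (2 * y) := by nlinarith
    nlinarith
  have : 0 ≤ 2 * (1 / x - 1 / y) - 1 / y / (y * y) := by
    rw [e1]; positivity
  linarith

theorem tail_sum (X K : ℕ) (hX : 1 ≤ X) (hXK : X ≤ K) :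
    ∑ m ∈ Finset.Ioc X K, w m / m ≤ 2 * (w X - w K) := by
  induction K, hXK using Nat.le_induction with
  | base => simp
  | succ K hK ih =>
    rw [Finset.sum_Ioc_succ_top hK]
    have := tele K (hX.trans hK)
    linarith

theorem w_anti {a b : ℕ} (ha : 1 ≤ a) (hab : a ≤ b) : w b ≤ w a := by
  unfold w
  apply one_div_le_one_div_of_le
  · exact Real.sqrt_pos.2 (by exact_mod_cast ha)
  · exact Real.sqrt_le_sqrt (by exact_mod_cast hab)

/-- the key averaging lemma -/
theorem key (n : ℕ) (ε : ℝ) (hε : 0 < ε) :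
    ∃ t : ℕ, 1 ≤ t ∧ (∀ a, 1 ≤ a → a ≤ n → a ∣ t) ∧
      ∑ a ∈ Finset.Icc 1 n, ∑ p ∈ (1 + t / a).primeFactors, w p ≤ ε := by
  obtain ⟨X, hX1, hX⟩ : ∃ X : ℕ, 1 ≤ X ∧ (n : ℝ) * (5 * w X) ≤ ε := by
    obtain ⟨X, hX⟩ := exists_nat_gt ((5 * n / ε) ^ 2)
    refine ⟨X + 1, by omega, ?_⟩
    unfold w
    have hs : 5 * n / ε ≤ Real.sqrt ((X + 1 : ℕ) : ℝ) := by
      apply Real.le_sqrt_of_sq_le
      push_cast; linarith
    have hpos : (0 : ℝ) < Real.sqrt ((X + 1 : ℕ) : ℝ) := Real.sqrt_pos.2 (by positivity)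
    rw [div_le_iff₀ hε] at hs
    rw [show (n : ℝ) * (5 * (1 / Real.sqrt ((X + 1 : ℕ) : ℝ))) = (5 * n) / Real.sqrt ((X + 1 : ℕ) : ℝ) by ring]
    rw [div_le_iff₀ hpos]
    linarith
  set M : ℕ := n.factorial * X.factorial with hM
  have hMpos : 1 ≤ M := Nat.mul_pos (Nat.factorial_pos n) (Nat.factorial_pos X)
  have hXM : X ≤ M := by
    calc X ≤ X.factorial := Nat.self_le_factorial X
      _ ≤ M := Nat.le_mul_of_pos_left _ (Nat.factorial_pos n)
  -- divisibility facts
  have hdvd : ∀ a, 1 ≤ a → a ≤ n → a ∣ n.factorial := fun a h1 h2 => Nat.dvd_factorial h1 h2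
  have hquot : ∀ a, 1 ≤ a → a ≤ n → ∀ p, p.Prime → p ≤ X → p ∣ M / a := by
    intro a h1 h2 p hp hpX
    obtain ⟨c, hc⟩ := hdvd a h1 h2
    rw [hM, hc, Nat.mul_assoc, Nat.mul_div_cancel_left _ h1]
    exact (Nat.dvd_factorial hp.pos hpX).mul_left c
  have hdiv : ∀ a, 1 ≤ a → a ≤ n → ∀ k, k * M / a = k * (M / a) := by
    intro a h1 h2 k
    exact Nat.mul_div_assoc k ((hdvd a h1 h2).mul_right _)
  -- prime factors are large
  have hlarge : ∀ a, 1 ≤ a → a ≤ n → ∀ k, ∀ p ∈ (1 + k * (M / a)).primeFactors, X < p := by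
    intro a h1 h2 k p hp
    by_contra hle
    have hpp := Nat.prime_of_mem_primeFactors hp
    have hd := Nat.dvd_of_mem_primeFactors hp
    have h3 : p ∣ k * (M / a) := (hquot a h1 h2 p hpp (by omega)).mul_left k
    have h4 : p ∣ 1 := (Nat.dvd_add_left h3).1 hd
    exact hpp.one_lt.ne' (Nat.dvd_one.1 h4)
  -- bound for one a
  have hone : ∀ a ∈ Finset.Icc 1 n,
      ∑ k ∈ Finset.Icc 1 M, ∑ p ∈ (1 + k * (M / a)).primeFactors, w p ≤ M * (5 * w X) := by
    intro a ha
    rw [Finset.mem_Icc] at ha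
    have hMa : M / a ≤ M := Nat.div_le_self _ _
    have hMa1 : 1 ≤ M / a := Nat.div_pos (Nat.le_of_dvd hMpos ((hdvd a ha.1 ha.2).mul_right _)) ha.1
    have hsplit : ∀ k ∈ Finset.Icc 1 M, ∑ p ∈ (1 + k * (M / a)).primeFactors, w p ≤
        ∑ p ∈ (Finset.Ioc X M).filter (fun p => p.Prime), (if p ∣ 1 + k * (M / a) then w p else 0)
          + w X := by
      intro k hk
      rw [Finset.mem_Icc] at hk
      set N := 1 + k * (M / a) with hN
      have hNle : N ≤ 1 + M * M := by
        rw [hN]; have := Nat.mul_le_mul hk.2 hMa; omega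
      rw [← Finset.sum_filter_add_sum_filter_not N.primeFactors (fun p => p ≤ M)]
      apply add_le_add
      · rw [← Finset.sum_filter]
        apply Finset.sum_le_sum_of_subset_of_nonneg
        · intro p hp
          rw [Finset.mem_filter] at hp
          rw [Finset.mem_filter, Finset.mem_filter, Finset.mem_Ioc]
          exact ⟨⟨⟨hlarge a ha.1 ha.2 k p hp.1, hp.2⟩, Nat.prime_of_mem_primeFactors hp.1⟩,
            Nat.dvd_of_mem_primeFactors hp.1⟩
        · intro p _ _; exact w_nonneg p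
      · have hcard : (N.primeFactors.filter (fun p => ¬ p ≤ M)).card ≤ 1 := by
          rw [Finset.card_le_one]
          intro p hp q hq
          rw [Finset.mem_filter] at hp hq
          by_contra hne
          have hpp := Nat.prime_of_mem_primeFactors hp.1
          have hqq := Nat.prime_of_mem_primeFactors hq.1
          have hco : Nat.Coprime p q := (Nat.coprime_primes hpp hqq).2 hne
          have hd : p * q ∣ N := hco.mul_dvd_of_dvd_of_dvd (Nat.dvd_of_mem_primeFactors hp.1)
            (Nat.dvd_of_mem_primeFactors hq.1)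
          have hle := Nat.le_of_dvd (by omega) hd
          have h1 : M + 1 ≤ p := by omega
          have h2 : M + 1 ≤ q := by omega
          have := Nat.mul_le_mul h1 h2
          nlinarith
        calc ∑ p ∈ N.primeFactors.filter (fun p => ¬ p ≤ M), w p
            ≤ ∑ p ∈ N.primeFactors.filter (fun p => ¬ p ≤ M), w X := by
              apply Finset.sum_le_sum
              intro p hp
              rw [Finset.mem_filter] at hp
              exact w_anti hX1 (hXM.trans (by omega))
          _ = (N.primeFactors.filter (fun p => ¬ p ≤ M)).card * w X := by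
              rw [Finset.sum_const, nsmul_eq_mul]
          _ ≤ 1 * w X := by
              apply mul_le_mul_of_nonneg_right _ (w_nonneg X)
              exact_mod_cast hcard
          _ = w X := one_mul _
    calc ∑ k ∈ Finset.Icc 1 M, ∑ p ∈ (1 + k * (M / a)).primeFactors, w p
        ≤ ∑ k ∈ Finset.Icc 1 M, (∑ p ∈ (Finset.Ioc X M).filter (fun p => p.Prime),
            (if p ∣ 1 + k * (M / a) then w p else 0) + w X) := Finset.sum_le_sum hsplit
      _ = ∑ p ∈ (Finset.Ioc X M).filter (fun p => p.Prime),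
            ∑ k ∈ Finset.Icc 1 M, (if p ∣ 1 + k * (M / a) then w p else 0) + M * w X := by
          rw [Finset.sum_add_distrib, Finset.sum_comm, Finset.sum_const, Nat.card_Icc, nsmul_eq_mul]
          simp
      _ ≤ ∑ p ∈ (Finset.Ioc X M).filter (fun p => p.Prime), (2 * M) * (w p / p) + M * w X := by
          gcongr with p hp
          rw [Finset.mem_filter, Finset.mem_Ioc] at hp
          have hc := count_le M p (M / a) hp.2
          rw [← Finset.sum_filter, Finset.sum_const, nsmul_eq_mul]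
          have hp0 : (0 : ℝ) < p := by exact_mod_cast hp.2.pos
          have h1 : (((Finset.Icc 1 M).filter (fun k => p ∣ 1 + k * (M / a))).card : ℝ) ≤ 2 * M / p := by
            calc (((Finset.Icc 1 M).filter (fun k => p ∣ 1 + k * (M / a))).card : ℝ)
                ≤ ((M / p + 1 : ℕ) : ℝ) := by exact_mod_cast hc
              _ ≤ (M : ℝ) / p + 1 := by push_cast; gcongr; exact Nat.cast_div_le
              _ ≤ (M : ℝ) / p + M / p := by
                  gcongr
                  rw [le_div_iff₀ hp0, one_mul]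
                  exact_mod_cast hp.1.2
              _ = 2 * M / p := by ring
          calc (((Finset.Icc 1 M).filter (fun k => p ∣ 1 + k * (M / a))).card : ℝ) * w p
              ≤ (2 * M / p) * w p := mul_le_mul_of_nonneg_right h1 (w_nonneg p)
            _ = (2 * M) * (w p / p) := by ring
      _ ≤ ∑ p ∈ Finset.Ioc X M, (2 * M) * (w p / p) + M * w X := by
          gcongr
          · intro p _ _
            have := w_nonneg p
            positivity
          · exact Finset.filter_subset _ _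
      _ = (2 * M) * ∑ p ∈ Finset.Ioc X M, (w p / p) + M * w X := by rw [Finset.mul_sum]
      _ ≤ (2 * M) * (2 * (w X - w M)) + M * w X := by
          gcongr
          exact tail_sum X M hX1 hXM
      _ ≤ M * (5 * w X) := by
          have h1 := w_nonneg M
          have h2 : (0 : ℝ) ≤ M := by positivity
          nlinarith [mul_nonneg h2 h1]
  -- averaging
  have havg : ∃ k ∈ Finset.Icc 1 M,
      ∑ a ∈ Finset.Icc 1 n, ∑ p ∈ (1 + k * (M / a)).primeFactors, w p ≤ ε := by
    apply Finset.exists_le_of_sum_le (s := Finset.Icc 1 M)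
    · exact ⟨1, by simp [hMpos]⟩
    · rw [Finset.sum_comm]
      calc ∑ a ∈ Finset.Icc 1 n, ∑ k ∈ Finset.Icc 1 M, ∑ p ∈ (1 + k * (M / a)).primeFactors, w p
          ≤ ∑ a ∈ Finset.Icc 1 n, (M : ℝ) * (5 * w X) := Finset.sum_le_sum hone
        _ = n * (M * (5 * w X)) := by
            rw [Finset.sum_const, Nat.card_Icc, nsmul_eq_mul]; simp
        _ = M * (n * (5 * w X)) := by ring
        _ ≤ M * ε := by gcongr
        _ = ∑ k ∈ Finset.Icc 1 M, ε := by
            rw [Finset.sum_const, Nat.card_Icc, nsmul_eq_mul]; simp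
  obtain ⟨k, hk, hkε⟩ := havg
  rw [Finset.mem_Icc] at hk
  refine ⟨k * M, Nat.mul_pos hk.1 hMpos, ?_, ?_⟩
  · intro a h1 h2
    exact ((hdvd a h1 h2).mul_right _).mul_left k
  · refine le_trans (le_of_eq ?_) hkε
    apply Finset.sum_congr rfl
    intro a ha
    rw [Finset.mem_Icc] at ha
    rw [hdiv a ha.1 ha.2 k]

/-- the chosen shifts -/
noncomputable def T (n : ℕ) : ℕ := (key n ((1 / 2) ^ (n + 1)) (by positivity)).choose

theorem T_pos (n : ℕ) : 1 ≤ T n := (key n ((1 / 2) ^ (n + 1)) (by positivity)).choose_spec.1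

theorem T_dvd (n a : ℕ) (h1 : 1 ≤ a) (h2 : a ≤ n) : a ∣ T n :=
  (key n ((1 / 2) ^ (n + 1)) (by positivity)).choose_spec.2.1 a h1 h2

theorem T_sum (n : ℕ) : ∑ a ∈ Finset.Icc 1 n, ∑ p ∈ (1 + T n / a).primeFactors, w p ≤ (1 / 2) ^ (n + 1) :=
  (key n ((1 / 2) ^ (n + 1)) (by positivity)).choose_spec.2.2

/-- the forced primes -/
def F : Set ℕ := {p | ∃ n a, 1 ≤ a ∧ a ≤ n ∧ p ∈ (1 + T n / a).primeFactors}

theorem F_prime {p : ℕ} (h : p ∈ F) : p.Prime := by
  obtain ⟨n, a, _, _, h⟩ := h
  exact Nat.prime_of_mem_primeFactors h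

theorem card_le_of_weight (S : Finset ℕ) (hS : ∀ p ∈ S, 1 ≤ p) (y : ℕ) :
    ((S.filter (fun p => p ≤ y)).card : ℝ) ≤ Real.sqrt y * ∑ p ∈ S, w p := by
  rw [Finset.mul_sum]
  calc ((S.filter (fun p => p ≤ y)).card : ℝ) = ∑ p ∈ S.filter (fun p => p ≤ y), (1 : ℝ) := by simp
    _ ≤ ∑ p ∈ S.filter (fun p => p ≤ y), Real.sqrt y * w p := by
        apply Finset.sum_le_sum
        intro p hp
        rw [Finset.mem_filter] at hp
        have h1 : (0 : ℝ) < Real.sqrt p := Real.sqrt_pos.2 (by exact_mod_cast hS p hp.1)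
        unfold w
        rw [mul_one_div, le_div_iff₀ h1, one_mul]
        exact Real.sqrt_le_sqrt (by exact_mod_cast hp.2)
    _ ≤ ∑ p ∈ S, Real.sqrt y * w p := by
        apply Finset.sum_le_sum_of_subset_of_nonneg (Finset.filter_subset _ _)
        intro p _ _
        have := w_nonneg p
        positivity

theorem F_count (y : ℕ) : ((F ∩ Set.Iic y).ncard : ℝ) ≤ Real.sqrt y := by
  classical
  have hfin : (F ∩ Set.Iic y).Finite := (Set.finite_Iic y).subset Set.inter_subset_right
  -- a bound for the indices needed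
  have hch : ∀ p : ℕ, ∃ n : ℕ, p ∈ F → ∃ a, 1 ≤ a ∧ a ≤ n ∧ p ∈ (1 + T n / a).primeFactors := by
    intro p
    by_cases hp : p ∈ F
    · obtain ⟨n, h⟩ := hp
      exact ⟨n, fun _ => h⟩
    · exact ⟨0, fun h => absurd h hp⟩
  choose f hf using hch
  set N := (Finset.range (y + 1)).sup f + 1 with hN
  set B : Finset ℕ := (Finset.range N).biUnion (fun n => (Finset.Icc 1 n).biUnion
    (fun a => (1 + T n / a).primeFactors.filter (fun p => p ≤ y))) with hB
  have hsub : F ∩ Set.Iic y ⊆ (B : Set ℕ) := by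
    rintro p ⟨hpF, hpy⟩
    obtain ⟨a, h1, h2, h3⟩ := hf p hpF
    have hle : f p ≤ (Finset.range (y + 1)).sup f :=
      Finset.le_sup (f := f) (Finset.mem_range.2 (Nat.lt_succ_of_le hpy))
    rw [Finset.mem_coe, hB, Finset.mem_biUnion]
    refine ⟨f p, Finset.mem_range.2 (by omega), ?_⟩
    rw [Finset.mem_biUnion]
    exact ⟨a, Finset.mem_Icc.2 ⟨h1, h2⟩, Finset.mem_filter.2 ⟨h3, hpy⟩⟩
  have hcard : ((F ∩ Set.Iic y).ncard : ℝ) ≤ (B.card : ℝ) := by
    have := Set.ncard_le_ncard hsub (Finset.finite_toSet B)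
    rw [Set.ncard_coe_finset] at this
    exact_mod_cast this
  refine hcard.trans ?_
  have h1 : B.card ≤ ∑ n ∈ Finset.range N, ∑ a ∈ Finset.Icc 1 n,
      ((1 + T n / a).primeFactors.filter (fun p => p ≤ y)).card := by
    refine Finset.card_biUnion_le.trans (Finset.sum_le_sum fun n _ => ?_)
    exact Finset.card_biUnion_le
  calc (B.card : ℝ) ≤ ((∑ n ∈ Finset.range N, ∑ a ∈ Finset.Icc 1 n,
      ((1 + T n / a).primeFactors.filter (fun p => p ≤ y)).card : ℕ) : ℝ) := by exact_mod_cast h1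
    _ = ∑ n ∈ Finset.range N, ∑ a ∈ Finset.Icc 1 n,
      (((1 + T n / a).primeFactors.filter (fun p => p ≤ y)).card : ℝ) := by push_cast; rfl
    _ ≤ ∑ n ∈ Finset.range N, ∑ a ∈ Finset.Icc 1 n,
        Real.sqrt y * ∑ p ∈ (1 + T n / a).primeFactors, w p := by
        apply Finset.sum_le_sum; intro n _
        apply Finset.sum_le_sum; intro a _
        exact card_le_of_weight _ (fun p hp => (Nat.prime_of_mem_primeFactors hp).one_lt.le) y
    _ = ∑ n ∈ Finset.range N, Real.sqrt y * ∑ a ∈ Finset.Icc 1 n,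
        ∑ p ∈ (1 + T n / a).primeFactors, w p := by
        apply Finset.sum_congr rfl; intro n _
        rw [Finset.mul_sum]
    _ ≤ ∑ n ∈ Finset.range N, Real.sqrt y * (1 / 2) ^ (n + 1) := by
        apply Finset.sum_le_sum; intro n _
        exact mul_le_mul_of_nonneg_left (T_sum n) (Real.sqrt_nonneg _)
    _ = Real.sqrt y * (1 - (1 / 2) ^ N) := by
        rw [← Finset.mul_sum]
        congr 1
        have : ∀ N : ℕ, ∑ n ∈ Finset.range N, ((1 : ℝ) / 2) ^ (n + 1) = 1 - (1 / 2) ^ N := by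
          intro N
          induction N with
          | zero => simp
          | succ N ih => rw [Finset.sum_range_succ, ih, pow_succ]; ring
        exact this N
    _ ≤ Real.sqrt y * 1 := by
        gcongr
        have : (0 : ℝ) ≤ (1 / 2) ^ N := by positivity
        linarith
    _ = Real.sqrt y := mul_one _

/-- primes whose index has the given parity -/
def C (r : ℕ) : Set ℕ := {p | p.Prime ∧ Nat.primeCounting' p % 2 = r}

theorem C_count (r : ℕ) (hr : r < 2) (x : ℕ) : Nat.primeCounting x / 2 ≤ (C r ∩ Set.Iic x).ncard := by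
  classical
  have hfin : (C r ∩ Set.Iic x).Finite := (Set.finite_Iic x).subset Set.inter_subset_right
  have hmaps : ∀ i ∈ Finset.range (Nat.primeCounting x / 2), Nat.nth Nat.Prime (2 * i + r) ∈ hfin.toFinset := by
    intro i hi
    rw [Finset.mem_range] at hi
    rw [Set.Finite.mem_toFinset]
    have hlt : 2 * i + r < Nat.count Nat.Prime (x + 1) := by
      have : Nat.count Nat.Prime (x + 1) = Nat.primeCounting x := rfl
      omega
    refine ⟨⟨Nat.prime_nth_prime _, ?_⟩, Nat.le_of_lt_succ (Nat.nth_lt_of_lt_count hlt)⟩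
    rw [Nat.primeCounting'_nth_eq]
    omega
  have hinj : Set.InjOn (fun i => Nat.nth Nat.Prime (2 * i + r))
      ((Finset.range (Nat.primeCounting x / 2) : Finset ℕ) : Set ℕ) := by
    intro i _ j _ h
    have := Nat.nth_injective Nat.infinite_setOfPred_prime h
    omega
  have := Finset.card_le_card_of_injOn _ hmaps hinj
  rw [Finset.card_range] at this
  rwa [Set.ncard_eq_toFinset_card _ hfin]

/-- from a lower bound `π(x)/2 - √x` to `≫ x / log x` -/
theorem bigO_of (f : ℕ → ℝ) (hf : ∀ x : ℕ, ((Nat.primeCounting x / 2 : ℕ) : ℝ) - Real.sqrt x ≤ f x) :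
    (fun x : ℕ ↦ (x : ℝ) / Real.log x) =O[atTop] f := by
  have hlog : ∀ᶠ x : ℕ in atTop, Real.log (x : ℝ) ≤ (1 / 20) * Real.sqrt (x : ℝ) := by
    have h1 := isLittleO_log_rpow_atTop (r := 1 / 2) (by norm_num)
    have h2 := (h1.comp_tendsto tendsto_natCast_atTop_atTop).bound (show (0 : ℝ) < 1 / 20 by norm_num)
    filter_upwards [h2, eventually_ge_atTop 2] with x hx hx2
    simp only [Function.comp] at hx
    rw [Real.norm_eq_abs, Real.norm_eq_abs, ← Real.sqrt_eq_rpow, abs_of_nonneg (Real.sqrt_nonneg _)] at hx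
    exact (le_abs_self _).trans hx
  refine IsBigO.of_bound 10 ?_
  filter_upwards [hlog, eventually_ge_atTop 3] with x hx hx3
  have hx3' : (3 : ℝ) ≤ x := by exact_mod_cast hx3
  have hL : 0 < Real.log (x : ℝ) := Real.log_pos (by linarith)
  have hpi := Chebyshev.pi_ge x
  have hfx := hf x
  have hfloor : (Nat.primeCounting x : ℝ) / 2 - 1 ≤ ((Nat.primeCounting x / 2 : ℕ) : ℝ) := by
    have : Nat.primeCounting x ≤ 2 * (Nat.primeCounting x / 2) + 2 := by omega
    have : (Nat.primeCounting x : ℝ) ≤ 2 * ((Nat.primeCounting x / 2 : ℕ) : ℝ) + 2 := by exact_mod_cast this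
    linarith
  have hlog2 : (0.69 : ℝ) < Real.log 2 := by have := Real.log_two_gt_d9; linarith
  set L := Real.log (x : ℝ) with hLdef
  set s := Real.sqrt (x : ℝ) with hs
  have hss : s * s = x := Real.mul_self_sqrt (by positivity)
  have hs1 : 1 ≤ s := by
    rw [hs]; apply Real.one_le_sqrt.2; linarith
  have hlog1 : Real.log ((x : ℝ) + 1) ≤ 2 * L := by
    have : Real.log ((x : ℝ) + 1) ≤ Real.log ((x : ℝ) ^ 2) :=
      Real.log_le_log (by positivity) (by nlinarith)
    rwa [Real.log_pow] at this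
  have hpi' : ((x : ℝ) * Real.log 2 - 2 * L) / L ≤ Nat.primeCounting x := by
    refine le_trans ?_ hpi
    gcongr
  have hkey : (x : ℝ) / L ≤ 10 * f x := by
    have h5 : ((x : ℝ) * Real.log 2 - 2 * L) / L / 2 - 1 - s ≤ f x := by linarith
    refine le_trans ?_ (mul_le_mul_of_nonneg_left h5 (by norm_num))
    rw [div_le_iff₀ hL]
    have e : (10 * (((x : ℝ) * Real.log 2 - 2 * L) / L / 2 - 1 - s)) * L =
        5 * ((x : ℝ) * Real.log 2) - 20 * L - 10 * s * L := by
      field_simp; ring
    rw [e]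
    have h6 : s * L ≤ (1 / 20) * x := by rw [← hss]; nlinarith
    have h7 : L ≤ (1 / 20) * x := by rw [← hss]; nlinarith
    have h8 : (x : ℝ) * Real.log 2 ≥ x * 0.69 := by
      apply mul_le_mul_of_nonneg_left hlog2.le (by positivity)
    linarith
  rw [Real.norm_eq_abs, Real.norm_eq_abs, abs_of_nonneg (by positivity)]
  exact hkey.trans (mul_le_mul_of_nonneg_left (le_abs_self _) (by norm_num))

/-- There exists a set P of primes with both P and its complement in the primes having ≫ x/log x elements up to x, such that the set of positive integers with all prime factors in P has the translation property. -/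
theorem result :
    ∃ P : Set ℕ, P ⊆ {p : ℕ | p.Prime} ∧ (fun x : ℕ ↦ (x : ℝ) / Real.log x) =O[atTop] (fun x ↦ ((P ∩ Set.Iic x).ncard : ℝ)) ∧ (fun x : ℕ ↦ (x : ℝ) / Real.log x) =O[atTop] (fun x ↦ ((({p : ℕ | p.Prime} \ P) ∩ Set.Iic x).ncard : ℝ)) ∧ HasTranslationProperty (composedOf P) := by
  refine ⟨F ∪ C 0, ?_, ?_, ?_, ?_⟩
  · rintro p (hp | hp)
    · exact F_prime hp
    · exact hp.1
  · apply bigO_of
    intro x
    have h1 := C_count 0 (by norm_num) x
    have h2 : (C 0 ∩ Set.Iic x).ncard ≤ ((F ∪ C 0) ∩ Set.Iic x).ncard :=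
      Set.ncard_le_ncard (Set.inter_subset_inter_left _ Set.subset_union_right)
        ((Set.finite_Iic x).subset Set.inter_subset_right)
    have h3 : ((Nat.primeCounting x / 2 : ℕ) : ℝ) ≤ (((F ∪ C 0) ∩ Set.Iic x).ncard : ℝ) := by
      exact_mod_cast h1.trans h2
    have := Real.sqrt_nonneg (x : ℝ)
    linarith
  · apply bigO_of
    intro x
    have h1 := C_count 1 (by norm_num) x
    have hfinF : (F ∩ Set.Iic x).Finite := (Set.finite_Iic x).subset Set.inter_subset_right
    have hfinQ : ((({p : ℕ | p.Prime} \ (F ∪ C 0)) ∩ Set.Iic x)).Finite :=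
      (Set.finite_Iic x).subset Set.inter_subset_right
    have hsub : C 1 ∩ Set.Iic x ⊆ (({p : ℕ | p.Prime} \ (F ∪ C 0)) ∩ Set.Iic x) ∪ (F ∩ Set.Iic x) := by
      rintro p ⟨hp, hpx⟩
      by_cases hF : p ∈ F
      · exact Or.inr ⟨hF, hpx⟩
      · refine Or.inl ⟨⟨hp.1, ?_⟩, hpx⟩
        rintro (h | h)
        · exact hF h
        · have h2 := hp.2
          have h3 := h.2
          omega
    have h2 := (Set.ncard_le_ncard hsub (hfinQ.union hfinF)).trans (Set.ncard_union_le _ _)
    have h3 : ((Nat.primeCounting x / 2 : ℕ) : ℝ) ≤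
        ((({p : ℕ | p.Prime} \ (F ∪ C 0)) ∩ Set.Iic x).ncard : ℝ) + ((F ∩ Set.Iic x).ncard : ℝ) := by
      exact_mod_cast h1.trans h2
    have h4 := F_count x
    linarith
  · intro n
    refine ⟨T n, T_pos n, ?_⟩
    intro a ha1 han
    obtain ⟨c, hc⟩ := T_dvd n a ha1 han
    have hdiv : T n / a = c := by rw [hc]; exact Nat.mul_div_cancel_left _ ha1
    have hsum : a + T n = a * (1 + T n / a) := by rw [hdiv, hc]; ring
    constructor
    · rintro ⟨_, h⟩
      refine ⟨by omega, fun p hp hdvd => ?_⟩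
      rw [hsum] at hdvd
      rcases (hp.dvd_mul.1 hdvd) with h1 | h1
      · exact h p hp h1
      · exact Or.inl ⟨n, a, ha1, han, Nat.mem_primeFactors.2 ⟨hp, h1, by omega⟩⟩
    · rintro ⟨_, h⟩
      refine ⟨ha1, fun p hp hdvd => ?_⟩
      apply h p hp
      rw [hsum]
      exact hdvd.mul_right _

end Pool.Agent.S4053
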