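import Pool.Statements.S4132
import Pool.Agent.H18.CH3
import Pool.Agent.H18.CH4
import Pool.Agent.H18.CH5

set_option autoImplicit false
open Filter Topology
open Pool Pool.MP_2ab887_nt

namespace Pool.Agent.S4132

/-- The negation of the preceding statement: For every function field K of a curve over an algebraically closed field, every degree d≥2 endomorphism of projective N-space over K and every K-point, the canonical height, the limit of height(f^n(P))/d^n, is a rational number. -/
theorem result :
    ¬ (∀ (k K : Type) [Field k] [IsAlgClosed k] [Field K] [Algebra (RatFunc k) K],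
      FunctionField k K →
      ∀ (N d : ℕ), 2 ≤ d →
      ∀ F : Fin (N + 1) → MvPolynomial (Fin (N + 1)) K,
        (∀ i, (F i).IsHomogeneous d) →
        (∀ y : Fin (N + 1) → AlgebraicClosure K,
            (∀ i, MvPolynomial.aeval y (F i) = 0) → y = 0) →
        ∀ x : Fin (N + 1) → K, x ≠ 0 →
          ∃ q : ℚ,
            Tendsto
              (fun n : ℕ =>
                (∑ᶠ v : {v : Valuation K (WithZero (Multiplicative ℤ)) //
                      Function.Surjective v ∧
                        ∀ c : k, c ≠ 0 → v (algebraMap (RatFunc k) K (RatFunc.C c)) = 1},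
                    ((sInf {m : ℤ | ∀ i,
                        v.1 (((fun (z : Fin (N + 1) → K) (j : Fin (N + 1)) =>
                                MvPolynomial.eval z (F j))^[n] x) i)
                          ≤ WithZero.coe (Multiplicative.ofAdd m)} : ℤ) : ℝ))
                  / (d : ℝ) ^ n)
              atTop (𝓝 (q : ℝ))) := by
  intro hall
  obtain ⟨q, hq⟩ := hall Pool.Agent.H18.CH.kk (RatFunc Pool.Agent.H18.CH.kk)
    Pool.Agent.H18.CH.hfin 1 4 (by norm_num)
    Pool.Agent.H18.CH.FF Pool.Agent.H18.CH.FF_hom Pool.Agent.H18.CH.FF_nozero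
    ![Pool.Agent.H18.CH.ι (Polynomial.X ^ 2), 1] Pool.Agent.H18.CH.x0_ne
  refine Pool.Agent.H18.CH.no_rat_limit (fun n => (Pool.Agent.H18.CH.orb n).1.natDegree)
    (fun n => Pool.Agent.H18.CH.gg (Pool.Agent.H18.CH.orb n)) Pool.Agent.H18.CH.orb_deg
    (fun n => Pool.Agent.H18.CH.gg_le _)
    (fun m n hmn => Pool.Agent.H18.CH.not_periodic hmn) q ?_
  refine hq.congr fun n => ?_
  have h := Pool.Agent.H18.CH.sum_n n _ rfl
  rw [h]
  norm_num

end Pool.Agent.S4132
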