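import Pool.Statements.S4175
-- import your own Pool.Agent.* helpers here

set_option autoImplicit false
open Pool Pool.MP_2fa2bc_nt

namespace Pool.Agent.S4175

open Polynomial

private noncomputable def PP : Polynomial ℤ := X ^ 4 + X ^ 2 + X + 1
private noncomputable def TT : Polynomial ℤ := X ^ 3 - X + 1

private theorem PP_monic : PP.Monic := by unfold PP; monicity!
private theorem PP_deg : PP.natDegree = 4 := by unfold PP; compute_degree!

private theorem eval_PP (x : ℤ) : PP.eval x = x ^ 4 + x ^ 2 + x + 1 := by simp [PP]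

private theorem PP_irr : Irreducible PP := by
  have h1 : PP ≠ 1 := by
    intro h
    have := PP_deg
    rw [h] at this
    simp at this
  rw [PP_monic.irreducible_iff_lt_natDegree_lt h1]
  intro q hq hmem hdvd
  rw [PP_deg, Finset.mem_Ioc] at hmem
  obtain ⟨s, hs⟩ := hdvd
  have hsm : s.Monic := by
    have := PP_monic
    rw [hs] at this
    exact hq.of_mul_monic_left this
  have hdeg : q.natDegree + s.natDegree = 4 := by
    rw [← PP_deg, hs, hq.natDegree_mul hsm]
  have ev : ∀ x : ℤ, x ^ 4 + x ^ 2 + x + 1 = q.eval x * s.eval x := by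
    intro x
    rw [← eval_PP, hs, eval_mul]
  have hcase : q.natDegree = 1 ∨ q.natDegree = 2 := by omega
  rcases hcase with h | h
  · have hq1 := hq.as_sum
    rw [h] at hq1
    have := ev (-(q.coeff 0))
    have h0 : q.eval (-(q.coeff 0)) = 0 := by
      rw [hq1]; simp
    rw [h0, zero_mul] at this
    set b := q.coeff 0
    nlinarith [sq_nonneg (b ^ 2), sq_nonneg (b - 1), sq_nonneg b]
  · have hs2 : s.natDegree = 2 := by omega
    have hq1 := hq.as_sum
    rw [h] at hq1
    have hs1 := hsm.as_sum
    rw [hs2] at hs1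
    have evq : ∀ x : ℤ, q.eval x = x ^ 2 + (q.coeff 0 + q.coeff 1 * x) := by
      intro x
      conv_lhs => rw [hq1]
      simp [Finset.sum_range_succ, eval_finsetSum]
    have evs : ∀ x : ℤ, s.eval x = x ^ 2 + (s.coeff 0 + s.coeff 1 * x) := by
      intro x
      conv_lhs => rw [hs1]
      simp [Finset.sum_range_succ, eval_finsetSum]
    have e0 := ev 0
    have e1 := ev 1
    have e2 := ev (-1)
    rw [evq, evs] at e0 e1 e2
    generalize q.coeff 0 = b at *
    generalize q.coeff 1 = a at *
    generalize s.coeff 0 = d at *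
    generalize s.coeff 1 = c at *
    have hbd : b * d = 1 := by linarith
    rcases Int.eq_one_or_neg_one_of_mul_eq_one hbd with hb | hb
    · subst hb
      have hd : d = 1 := by linarith
      subst hd
      have : 4 * (a + c) = 2 := by nlinarith
      omega
    · subst hb
      have hd : d = -1 := by linarith
      subst hd
      nlinarith

private noncomputable def L (F : Polynomial ℤ) : ℤ := ∑ i ∈ F.support, |F.coeff i|

private theorem eval_one_eq (F : Polynomial ℤ) : F.eval 1 = ∑ i ∈ F.support, F.coeff i := by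
  rw [eval_eq_sum, Polynomial.sum]
  simp

private theorem abs_eval_le (F : Polynomial ℤ) : |F.eval 1| ≤ L F := by
  rw [eval_one_eq]
  exact Finset.abs_sum_le_sum_abs _ _

private theorem parity (F : Polynomial ℤ) : (2 : ℤ) ∣ L F - F.eval 1 := by
  rw [eval_one_eq, L, ← Finset.sum_sub_distrib]
  apply Finset.dvd_sum
  intro i _
  rcases abs_choice (F.coeff i) with h | h <;> rw [h]
  · simp
  · exact ⟨-F.coeff i, by ring⟩

private theorem card_le (F : Polynomial ℤ) : (F.support.card : ℤ) ≤ L F := by
  rw [L, Finset.card_eq_sum_ones, Nat.cast_sum]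
  apply Finset.sum_le_sum
  intro i hi
  rw [mem_support_iff] at hi
  have := Int.one_le_abs hi
  simpa using this

private theorem conj_root {z : ℂ} {n : ℕ} (hn : 0 < n) (hz : z ^ n = 1) :
    z ≠ 0 ∧ (starRingEnd ℂ) z * z = 1 := by
  have h0 : z ≠ 0 := by
    rintro rfl
    rw [zero_pow hn.ne'] at hz
    exact zero_ne_one hz
  have h1 : ‖z‖ = 1 := Complex.norm_eq_one_of_pow_eq_one hz hn.ne'
  refine ⟨h0, ?_⟩
  rw [← Complex.normSq_eq_conj_mul_self, Complex.normSq_eq_norm_sq, h1]
  norm_num

private theorem PP_root_not_unity {z : ℂ} (hz : z ^ 4 + z ^ 2 + z + 1 = 0) (n : ℕ) (hn : 0 < n) :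
    z ^ n ≠ 1 := by
  intro h
  obtain ⟨h0, h1⟩ := conj_root hn h
  have hc : ((starRingEnd ℂ) z) ^ 4 + ((starRingEnd ℂ) z) ^ 2 + (starRingEnd ℂ) z + 1 = 0 := by
    have := congrArg (starRingEnd ℂ) hz
    simpa using this
  set w := (starRingEnd ℂ) z
  have e : z ^ 4 * (w ^ 4 + w ^ 2 + w + 1) = 0 := by rw [hc, mul_zero]
  have e1 : 1 + z ^ 2 + z ^ 3 + z ^ 4 = 0 := by
    have : z ^ 4 * (w ^ 4 + w ^ 2 + w + 1)
        = (w * z) ^ 4 + z ^ 2 * (w * z) ^ 2 + z ^ 3 * (w * z) + z ^ 4 := by ring
    rw [this, h1] at e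
    linear_combination e
  have e2 : z * (z - 1) * (z + 1) = 0 := by linear_combination e1 - hz
  rcases mul_eq_zero.mp e2 with e3 | e3
  · rcases mul_eq_zero.mp e3 with e4 | e4
    · exact h0 e4
    · have : z = 1 := by linear_combination e4
      rw [this] at hz; norm_num at hz
  · have : z = -1 := by linear_combination e3
    rw [this] at hz; norm_num at hz

private theorem TT_root_not_unity {z : ℂ} (hz : z ^ 3 - z + 1 = 0) (n : ℕ) (hn : 0 < n) :
    z ^ n ≠ 1 := by
  intro h
  obtain ⟨h0, h1⟩ := conj_root hn h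
  have hc : ((starRingEnd ℂ) z) ^ 3 - (starRingEnd ℂ) z + 1 = 0 := by
    have := congrArg (starRingEnd ℂ) hz
    simpa using this
  set w := (starRingEnd ℂ) z
  have e : z ^ 3 * (w ^ 3 - w + 1) = 0 := by rw [hc, mul_zero]
  have e1 : 1 - z ^ 2 + z ^ 3 = 0 := by
    have : z ^ 3 * (w ^ 3 - w + 1) = (w * z) ^ 3 - z ^ 2 * (w * z) + z ^ 3 := by ring
    rw [this, h1] at e
    linear_combination e
  have e2 : z * (z - 1) = 0 := by linear_combination hz - e1
  rcases mul_eq_zero.mp e2 with e3 | e3
  · exact h0 e3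
  · have : z = 1 := by linear_combination e3
    rw [this] at hz; norm_num at hz

private theorem exists_PP_root : ∃ z : ℂ, z ^ 4 + z ^ 2 + z + 1 = 0 := by
  have hd : (PP.map (algebraMap ℤ ℂ)).degree ≠ 0 := by
    rw [PP_monic.degree_map, degree_eq_natDegree PP_monic.ne_zero, PP_deg]
    norm_num
  obtain ⟨z, hz⟩ := IsAlgClosed.exists_root _ hd
  refine ⟨z, ?_⟩
  simpa [PP, IsRoot.def] using hz

private theorem TT_monic : TT.Monic := by unfold TT; monicity!
private theorem TT_deg : TT.natDegree = 3 := by unfold TT; compute_degree!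

private theorem exists_TT_root : ∃ z : ℂ, z ^ 3 - z + 1 = 0 := by
  have hd : (TT.map (algebraMap ℤ ℂ)).degree ≠ 0 := by
    rw [TT_monic.degree_map, degree_eq_natDegree TT_monic.ne_zero, TT_deg]
    norm_num
  obtain ⟨z, hz⟩ := IsAlgClosed.exists_root _ hd
  refine ⟨z, ?_⟩
  simpa [TT, IsRoot.def] using hz

private theorem four_le (S : Polynomial ℤ) (hS : S ≠ 0) : 4 ≤ L (PP * S) := by
  by_contra hlt
  push Not at hlt
  set F := PP * S with hF
  have hF0 : F ≠ 0 := mul_ne_zero PP_monic.ne_zero hS
  have h1 : F.eval 1 = 4 * S.eval 1 := by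
    rw [hF, eval_mul, eval_PP]; norm_num
  have h2 := parity F
  have h3 := abs_eval_le F
  have h4 := card_le F
  have hcard : 0 < F.support.card := by
    rw [Finset.card_pos, Polynomial.nonempty_support_iff]; exact hF0
  rw [h1] at h2 h3
  have hs0 : S.eval 1 = 0 := by
    rw [abs_le] at h3
    omega
  have hL : L F = 2 := by
    rw [hs0] at h2
    omega
  have hev : F.eval 1 = 0 := by rw [h1, hs0]; norm_num
  have hc : F.support.card = 1 ∨ F.support.card = 2 := by omega
  obtain ⟨z, hz⟩ := exists_PP_root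
  have hFz : aeval z F = 0 := by
    rw [hF, map_mul]
    have : aeval z PP = 0 := by simpa [PP] using hz
    rw [this, zero_mul]
  rcases hc with hc | hc
  · obtain ⟨a, ha⟩ := Finset.card_eq_one.mp hc
    rw [eval_one_eq, ha, Finset.sum_singleton] at hev
    have : a ∈ F.support := by rw [ha]; simp
    rw [mem_support_iff] at this
    exact this hev
  · obtain ⟨a, b, hab, hsupp⟩ := Finset.card_eq_two.mp hc
    rw [eval_one_eq, hsupp, Finset.sum_pair hab] at hev
    have ha : F.coeff a ≠ 0 := by
      rw [← mem_support_iff, hsupp]; simp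
    rw [aeval_eq_sum_range' (n := F.natDegree + 1) (by omega)] at hFz
    have hsum : ∑ i ∈ Finset.range (F.natDegree + 1), F.coeff i • z ^ i
        = ∑ i ∈ F.support, F.coeff i • z ^ i := by
      symm
      apply Finset.sum_subset
      · exact supp_subset_range (by omega)
      · intro i _ hi
        rw [notMem_support_iff] at hi
        rw [hi, zero_smul]
    rw [hsum, hsupp, Finset.sum_pair hab] at hFz
    have hb : F.coeff b = - F.coeff a := by linarith
    rw [hb] at hFz
    have hz' : (F.coeff a : ℂ) * (z ^ a - z ^ b) = 0 := by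
      have := hFz
      simp only [zsmul_eq_mul] at this
      push_cast at this
      linear_combination this
    have hca : (F.coeff a : ℂ) ≠ 0 := by exact_mod_cast ha
    have hpow : z ^ a = z ^ b := by
      rcases mul_eq_zero.mp hz' with h | h
      · exact absurd h hca
      · exact sub_eq_zero.mp h
    have hz0 : z ≠ 0 := by
      rintro rfl
      norm_num at hz
    rcases lt_or_gt_of_ne hab with h | h
    · have : z ^ (b - a) = 1 := by
        have e : z ^ b = z ^ a * z ^ (b - a) := by rw [← pow_add]; congr 1; omega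
        rw [hpow] at e
        have hne : z ^ b ≠ 0 := pow_ne_zero _ hz0
        have e' : z ^ b * 1 = z ^ b * z ^ (b - a) := by rw [mul_one]; exact e
        exact (mul_left_cancel₀ hne e').symm
      exact PP_root_not_unity hz _ (by omega) this
    · have : z ^ (a - b) = 1 := by
        have e : z ^ a = z ^ b * z ^ (a - b) := by rw [← pow_add]; congr 1; omega
        rw [hpow] at e
        have hne : z ^ b ≠ 0 := pow_ne_zero _ hz0
        have e' : z ^ b * 1 = z ^ b * z ^ (a - b) := by rw [mul_one]; exact e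
        exact (mul_left_cancel₀ hne e').symm
      exact PP_root_not_unity hz _ (by omega) this

private theorem PT_eq : PP * TT = X ^ 7 + 2 * X ^ 4 + 1 := by
  unfold PP TT; ring

private theorem L_PT : L (PP * TT) = 4 := by
  rw [PT_eq, L]
  have hsub : (X ^ 7 + 2 * X ^ 4 + 1 : Polynomial ℤ).support ⊆ Finset.range 8 := by
    apply supp_subset_range
    have : (X ^ 7 + 2 * X ^ 4 + 1 : Polynomial ℤ).natDegree ≤ 7 := by compute_degree
    omega
  rw [Finset.sum_subset hsub (by
    intro i _ hi
    rw [notMem_support_iff] at hi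
    rw [hi, abs_zero])]
  have hco : ∀ i : ℕ, (X ^ 7 + 2 * X ^ 4 + 1 : Polynomial ℤ).coeff i
      = (if i = 7 then 1 else 0) + 2 * (if i = 4 then 1 else 0) + (if i = 0 then 1 else 0) := by
    intro i
    have h2 : (2 : Polynomial ℤ) = C 2 := by simp
    rw [h2, coeff_add, coeff_add, coeff_C_mul, coeff_X_pow, coeff_X_pow, coeff_one]
  rw [Finset.sum_congr rfl (fun i _ => by rw [hco i])]
  decide

/-- There is a monic irreducible integer polynomial P and a nonzero integer T such that PT has least length among all nonzero multiples of P, and T has a nonzero complex root that is not a root of unity. -/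
theorem result :
    ∃ P T : Polynomial ℤ, P.Monic ∧ Irreducible P ∧ T ≠ 0 ∧
      (∀ S : Polynomial ℤ, S ≠ 0 →
        ∑ i ∈ (P * T).support, |(P * T).coeff i| ≤
          ∑ i ∈ (P * S).support, |(P * S).coeff i|) ∧
      ∃ z : ℂ, z ≠ 0 ∧ Polynomial.aeval z T = 0 ∧ ∀ n : ℕ, 0 < n → z ^ n ≠ 1 := by
  refine ⟨PP, TT, PP_monic, PP_irr, TT_monic.ne_zero, ?_, ?_⟩
  · intro S hS
    have h1 := four_le S hS
    have h2 := L_PT
    rw [L] at h1 h2
    rw [h2]
    exact h1
  · obtain ⟨z, hz⟩ := exists_TT_root
    refine ⟨z, ?_, ?_, fun n hn => TT_root_not_unity hz n hn⟩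
    · rintro rfl
      norm_num at hz
    · simpa [TT] using hz

end Pool.Agent.S4175
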