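-- Proof of frozen statement S4247 (MP_3bec75_nt): for every h ≥ 3 there is an asymptotic basis of order h
-- that stays one exactly under finite deletions.
import Pool.Statements.S4247

set_option autoImplicit false
open Pool Pool.MP_3bec75_nt

namespace Pool.Agent.S4247

/-! Parameters: `h = r + 2`, `r ≥ 1`.  Stage `t` has modulus `q t`, `K t = (2r+7) q t`,
`p t = (r(2r+7)+4) q t + 1`, `q (t+1) = q t * p t`. -/

def cc (r : ℕ) : ℕ := r * (2 * r + 7) + 4

def q (r : ℕ) : ℕ → ℕ
  | 0 => 1
  | t + 1 => q r t * (cc r * q r t + 1)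

def p (r t : ℕ) : ℕ := cc r * q r t + 1

def K (r t : ℕ) : ℕ := (2 * r + 7) * q r t

lemma q_succ (r t : ℕ) : q r (t + 1) = q r t * p r t := rfl

lemma q_pos (r t : ℕ) : 1 ≤ q r t := by
  induction t with
  | zero => exact le_refl 1
  | succ t ih =>
    rw [q_succ]
    exact Nat.mul_pos ih (Nat.succ_pos _)

attribute [irreducible] q

lemma p_ge (r t : ℕ) : 5 ≤ p r t := by
  have := q_pos r t
  unfold p cc
  nlinarith [Nat.zero_le (r * (2 * r + 7) * q r t)]

lemma q_gt (r t : ℕ) : t < q r t := by
  induction t with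
  | zero => exact q_pos r 0
  | succ t ih =>
    rw [q_succ]
    have := p_ge r t
    nlinarith

lemma q_lt_succ (r t : ℕ) : q r t < q r (t + 1) := by
  rw [q_succ]
  have := p_ge r t
  have := q_pos r t
  nlinarith

lemma q_mono (r : ℕ) : StrictMono (q r) := strictMono_nat_of_lt_succ (q_lt_succ r)

/-- the basis -/
def inA (r : ℕ) (c : ℕ) : Prop :=
  ∃ t, ∃ _ : q r t ≤ c, c < q r (t + 1) ∧
    ((c < 2 * q r t ∧ (c = q r t + t → ¬ inA r t)) ∨ (q r t ∣ c ∧ c % p r t ≤ K r t))
termination_by c
decreasing_by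
  have := q_gt r t
  omega

lemma stage_unique (r t s c : ℕ) (h1 : q r t ≤ c) (h2 : c < q r (t + 1)) (h3 : q r s ≤ c)
    (h4 : c < q r (s + 1)) : s = t := by
  have hm := q_mono r
  have a1 : t < s + 1 := hm.lt_iff_lt.mp (lt_of_le_of_lt h1 h4)
  have a2 : s < t + 1 := hm.lt_iff_lt.mp (lt_of_le_of_lt h3 h2)
  omega

lemma inA_iff (r t c : ℕ) (h1 : q r t ≤ c) (h2 : c < q r (t + 1)) :
    inA r c ↔ ((c < 2 * q r t ∧ (c = q r t + t → ¬ inA r t)) ∨
      (q r t ∣ c ∧ c % p r t ≤ K r t)) := by
  rw [inA]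
  constructor
  · rintro ⟨s, h3, h4, h5⟩
    have := stage_unique r t s c h1 h2 h3 h4
    subst this
    exact h5
  · intro h
    exact ⟨t, h1, h2, h⟩

lemma not_inA_zero (r : ℕ) : ¬ inA r 0 := by
  rw [inA]
  rintro ⟨s, h3, _⟩
  have := q_pos r s
  omega

/-- the stage of an element -/
lemma inA_typed (r t c : ℕ) (hc : inA r c) (h2 : c < q r (t + 1)) (hne : c ≠ t)
    (ht : inA r t) :
    (c < 2 * q r t ∧ c % q r t ≠ t) ∨ (q r t ∣ c ∧ c % p r t ≤ K r t) := by
  have hq := q_gt r t
  by_cases h1 : q r t ≤ c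
  · rw [inA_iff r t c h1 h2] at hc
    rcases hc with ⟨h3, h4⟩ | h3
    · left
      refine ⟨h3, ?_⟩
      intro h5
      have : c = q r t + t := by
        have e1 : c % q r t = c - q r t := by
          rw [Nat.mod_eq_sub_mod h1, Nat.mod_eq_of_lt (by omega)]
        omega
      exact h4 this ht
    · right; exact h3
  · left
    rw [not_le] at h1
    refine ⟨by omega, ?_⟩
    rw [Nat.mod_eq_of_lt h1]
    exact hne

lemma K_ge (r t : ℕ) : 7 * q r t ≤ K r t := by
  unfold K
  nlinarith [Nat.zero_le (r * q r t)]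

lemma p_eq (r t : ℕ) : p r t = r * K r t + 4 * q r t + 1 := by
  unfold p K cc
  ring

/-- obstruction -/
lemma obstruct (r t : ℕ) (ht : inA r t) (f : Fin (r + 2) → ℕ) (hf : ∀ i, inA r (f i))
    (hne : ∀ i, f i ≠ t) : ∑ i, f i ≠ (t + 1) * cc r * q r t + t := by
  intro hsum
  set n := (t + 1) * cc r * q r t + t with hn
  have hq := q_gt r t
  have hqp := q_pos r t
  have hKge := K_ge r t
  have hpeq := p_eq r t
  have hn1 : n + 1 = (t + 1) * p r t := by
    rw [hn]; unfold p; ring
  have hnlt : n < q r (t + 1) := by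
    rw [q_succ]
    have : (t + 1) * p r t ≤ q r t * p r t := Nat.mul_le_mul_right _ hq
    omega
  have hle : ∀ i, f i ≤ n := by
    intro i
    rw [← hsum]
    exact Finset.single_le_sum (f := f) (fun _ _ => Nat.zero_le _) (Finset.mem_univ i)
  have htyped : ∀ i, (f i < 2 * q r t ∧ f i % q r t ≠ t) ∨
      (q r t ∣ f i ∧ f i % p r t ≤ K r t) := fun i =>
    inA_typed r t (f i) (hf i) (lt_of_le_of_lt (hle i) hnlt) (hne i) ht
  have ht0 : t ≠ 0 := by
    rintro rfl
    exact not_inA_zero r ht
  have hnq : n % q r t = t := by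
    rw [hn, Nat.add_mod, Nat.mul_mod_left, Nat.zero_add, Nat.mod_mod, Nat.mod_eq_of_lt hq]
  by_cases hcase : ∃ i j, i ≠ j ∧ ¬ (q r t ∣ f i ∧ f i % p r t ≤ K r t) ∧
      ¬ (q r t ∣ f j ∧ f j % p r t ≤ K r t)
  · obtain ⟨i, j, hij, hi, hj⟩ := hcase
    have hi2 : f i < 2 * q r t := by
      rcases htyped i with h | h
      · exact h.1
      · exact absurd h hi
    have hj2 : f j < 2 * q r t := by
      rcases htyped j with h | h
      · exact h.1
      · exact absurd h hj
    have hall : ∀ k, f k % p r t ≤ K r t := by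
      intro k
      rcases htyped k with h | h
      · have := Nat.mod_le (f k) (p r t)
        omega
      · exact h.2
    have hmod : n % p r t = (∑ k, f k % p r t) % p r t := by
      rw [← hsum, Finset.sum_nat_mod]
    have hsumle : ∑ k, f k % p r t ≤ 2 * (2 * q r t - 1) + r * K r t := by
      have e1 : ∑ k, f k % p r t = f i % p r t + (f j % p r t +
          ∑ k ∈ (Finset.univ.erase i).erase j, f k % p r t) := by
        rw [← Finset.add_sum_erase Finset.univ _ (Finset.mem_univ i),
          ← Finset.add_sum_erase (Finset.univ.erase i) _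
            (Finset.mem_erase.mpr ⟨hij.symm, Finset.mem_univ j⟩)]
      have e2 : ∑ k ∈ (Finset.univ.erase i).erase j, f k % p r t ≤
          ((Finset.univ.erase i).erase j).card • K r t :=
        Finset.sum_le_card_nsmul _ _ _ (fun k _ => hall k)
      have e3 : ((Finset.univ.erase i).erase j : Finset (Fin (r + 2))).card = r := by
        rw [Finset.card_erase_of_mem (Finset.mem_erase.mpr ⟨hij.symm, Finset.mem_univ j⟩),
          Finset.card_erase_of_mem (Finset.mem_univ i), Finset.card_univ, Fintype.card_fin]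
        rfl
      rw [e3, smul_eq_mul] at e2
      have e4 := Nat.mod_le (f i) (p r t)
      have e5 := Nat.mod_le (f j) (p r t)
      rw [e1]
      omega
    have hlt : ∑ k, f k % p r t < p r t - 1 := by
      generalize r * K r t = W at hsumle hpeq
      generalize (∑ k, f k % p r t) = Z at hsumle ⊢
      omega
    rw [Nat.mod_eq_of_lt (a := ∑ k, f k % p r t) (by omega)] at hmod
    have hnp : n % p r t = p r t - 1 := by
      have hp5 := p_ge r t
      have e1 : n = t * p r t + (p r t - 1) := by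
        have : (t + 1) * p r t = t * p r t + p r t := by ring
        omega
      rw [e1, Nat.add_mod, Nat.mul_mod_left, Nat.zero_add, Nat.mod_mod,
        Nat.mod_eq_of_lt (by omega)]
    have e5 : ∑ k, f k % p r t = p r t - 1 := by
      rw [← hmod, hnp]
    omega
  · have hex : ∃ i0 : Fin (r + 2), ∀ j, j ≠ i0 → q r t ∣ f j := by
      by_cases hb : ∃ i0, ¬ (q r t ∣ f i0 ∧ f i0 % p r t ≤ K r t)
      · obtain ⟨i0, hi0⟩ := hb
        refine ⟨i0, fun j hj => ?_⟩
        by_contra hnd
        exact hcase ⟨i0, j, hj.symm, hi0, fun h => hnd h.1⟩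
      · refine ⟨0, fun j _ => ?_⟩
        by_contra hnd
        exact hb ⟨j, fun h => hnd h.1⟩
    obtain ⟨i0, hi0⟩ := hex
    have e1 : n % q r t = f i0 % q r t := by
      rw [← hsum, ← Finset.add_sum_erase Finset.univ _ (Finset.mem_univ i0)]
      have : q r t ∣ ∑ k ∈ Finset.univ.erase i0, f k :=
        Finset.dvd_sum (fun k hk => hi0 k (Finset.mem_erase.mp hk).1)
      obtain ⟨w, hw⟩ := this
      rw [hw, Nat.add_mul_mod_self_left]
    rcases htyped i0 with h | h
    · exact h.2 (by omega)
    · have : f i0 % q r t = 0 := Nat.mod_eq_zero_of_dvd h.1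
      omega

/-- `n` elements with property `P` summing to `m` -/
def Rep (P : ℕ → Prop) (n m : ℕ) : Prop :=
  ∃ f : Fin n → ℕ, (∀ i, P (f i)) ∧ ∑ i, f i = m

lemma Rep.add {P : ℕ → Prop} {a b x y : ℕ} (h1 : Rep P a x) (h2 : Rep P b y) :
    Rep P (a + b) (x + y) := by
  obtain ⟨f, hf, rfl⟩ := h1
  obtain ⟨g, hg, rfl⟩ := h2
  refine ⟨Fin.append f g, ?_, ?_⟩
  · intro i
    refine Fin.addCases (fun j => ?_) (fun j => ?_) i
    · rw [Fin.append_left]; exact hf j
    · rw [Fin.append_right]; exact hg j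
  · rw [Fin.sum_univ_add]
    simp [Fin.append_left, Fin.append_right]

lemma Rep.single {P : ℕ → Prop} {x : ℕ} (h : P x) : Rep P 1 x :=
  ⟨fun _ => x, fun _ => h, by simp⟩

lemma Rep.const {P : ℕ → Prop} {x : ℕ} (n : ℕ) (h : P x) : Rep P n (n * x) :=
  ⟨fun _ => x, fun _ => h, by simp⟩

lemma Rep.mono {P Q : ℕ → Prop} {n x : ℕ} (h : Rep P n x) (hPQ : ∀ c, c ≤ x → P c → Q c) :
    Rep Q n x := by
  obtain ⟨f, hf, hs⟩ := h
  refine ⟨f, fun i => hPQ _ ?_ (hf i), hs⟩
  rw [← hs]
  exact Finset.single_le_sum (f := f) (fun _ _ => Nat.zero_le _) (Finset.mem_univ i)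

lemma Rep.zero {P : ℕ → Prop} : Rep P 0 0 := ⟨fun _ => 0, fun i => i.elim0, by simp⟩

/-- splitting a multiple of `Q` into `n` multiples of `Q` between `Q` and `k * Q` -/
lemma split (Q k : ℕ) : ∀ n v : ℕ, n ≤ v → v ≤ n * k →
    Rep (fun c => Q ∣ c ∧ Q ≤ c ∧ c ≤ k * Q) n (v * Q) := by
  intro n
  induction n with
  | zero =>
    intro v _ h2
    have : v = 0 := by omega
    subst this
    simpa using Rep.zero
  | succ n ih =>
    intro v h1 h2
    have e0 : (n + 1) * k = n * k + k := by ring
    have hk : 1 ≤ k := by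
      rcases Nat.eq_zero_or_pos k with h | h
      · subst h; omega
      · exact h
    obtain ⟨a, ha1, ha2, ha3, ha4⟩ : ∃ a, 1 ≤ a ∧ a ≤ k ∧ n ≤ v - a ∧ v - a ≤ n * k ∧ a ≤ v := by
      by_cases h : v - n ≤ k
      · refine ⟨v - n, by omega, h, by omega, ?_, by omega⟩
        have : v - (v - n) = n := by omega
        rw [this]; nlinarith
      · exact ⟨k, hk, le_refl _, by omega, by omega, by omega⟩
    have h3 := ih (v - a) ha3 ha4.1
    have h4 : Rep (fun c => Q ∣ c ∧ Q ≤ c ∧ c ≤ k * Q) 1 (a * Q) :=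
      Rep.single ⟨Dvd.intro_left a rfl, by nlinarith, Nat.mul_le_mul_right Q ha2⟩
    have h5 := h3.add h4
    have e1 : (v - a) * Q + a * Q = v * Q := by
      rw [← Nat.add_mul]; congr 1; omega
    rwa [e1] at h5

/-- typed high elements -/
def High (r t c : ℕ) : Prop := q r t ≤ c ∧ q r t ∣ c ∧ c % p r t ≤ K r t

lemma K_lt_p (r t : ℕ) (hr : 1 ≤ r) : K r t < p r t := by
  rw [p_eq]
  nlinarith [Nat.zero_le (q r t), Nat.zero_le (K r t)]

lemma high_of_small (r t : ℕ) (hr : 1 ≤ r) (c : ℕ) (h1 : q r t ∣ c) (h2 : q r t ≤ c)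
    (h3 : c ≤ K r t) : High r t c := by
  refine ⟨h2, h1, ?_⟩
  rw [Nat.mod_eq_of_lt (lt_of_le_of_lt h3 (K_lt_p r t hr))]
  exact h3

lemma highSum (r t : ℕ) (hr : 1 ≤ r) (z : ℕ) (hz : q r t ∣ z) (hz2 : (r + 2) * q r t ≤ z) :
    Rep (High r t) (r + 1) z := by
  have hq := q_pos r t
  set Q := q r t with hQ
  have hK : K r t = (2 * r + 7) * Q := rfl
  have hp : p r t = r * K r t + 4 * Q + 1 := p_eq r t
  have hKp := K_lt_p r t hr
  by_cases h1 : z ≤ (r + 1) * K r t
  · obtain ⟨v, rfl⟩ := hz
    have h2 : r + 1 ≤ v := by nlinarith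
    have h3 : v ≤ (r + 1) * (2 * r + 7) := by
      rw [hK] at h1
      by_contra h
      rw [not_le] at h
      nlinarith
    have h4 := split Q (2 * r + 7) (r + 1) v h2 h3
    have h4e : v * Q = Q * v := mul_comm _ _
    rw [h4e] at h4
    exact h4.mono (fun c _ hc => high_of_small r t hr c hc.1 hc.2.1 hc.2.2)
  · rw [not_le] at h1
    -- choose s
    set w := z % p r t with hw
    have hwp : w < p r t := Nat.mod_lt _ (by omega)
    have hzw : p r t * (z / p r t) + w = z := Nat.div_add_mod z (p r t)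
    obtain ⟨v, hv1, hv2, hv3⟩ : ∃ v, r ≤ v ∧ v ≤ r * (2 * r + 7) ∧
        (z - v * Q) % p r t ≤ K r t := by
      by_cases h5 : w < r * Q
      · refine ⟨r * (2 * r + 7), by nlinarith, le_refl _, ?_⟩
        have e0 : r * (2 * r + 7) * Q = r * K r t := by rw [hK]; ring
        rw [e0]
        have hz1 : 1 ≤ z / p r t := by
          rw [Nat.one_le_div_iff (by omega)]
          have e3 : (r + 1) * K r t = r * K r t + K r t := by ring
          have e4 : 7 * Q ≤ K r t := K_ge r t
          omega
        obtain ⟨u, hu⟩ : ∃ u, z / p r t = u + 1 := ⟨z / p r t - 1, by omega⟩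
        rw [hu] at hzw
        have e1 : z - r * K r t = p r t * u + (w + 4 * Q + 1) := by
          have e2 : p r t * (u + 1) = p r t * u + p r t := by ring
          omega
        rw [e1, Nat.mul_add_mod]
        have e5 : w + 4 * Q + 1 ≤ (r + 4) * Q := by nlinarith
        have e6 : (r + 4) * Q ≤ K r t := by rw [hK]; nlinarith
        rw [Nat.mod_eq_of_lt (by omega)]
        omega
      · rw [not_lt] at h5
        by_cases h6 : w ≤ r * K r t
        · refine ⟨w / Q, ?_, ?_, ?_⟩
          · rw [Nat.le_div_iff_mul_le (by omega)]; exact h5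
          · have : w ≤ r * (2 * r + 7) * Q := by
              rw [hK] at h6
              calc w ≤ _ := h6
                _ = _ := by ring
            calc w / Q ≤ (r * (2 * r + 7) * Q) / Q := Nat.div_le_div_right this
              _ = _ := Nat.mul_div_cancel _ (by omega)
          · have e1 : w / Q * Q + w % Q = w := Nat.div_add_mod' w Q
            have e2 : z - w / Q * Q = p r t * (z / p r t) + w % Q := by omega
            have e3 : w % Q < Q := Nat.mod_lt _ (by omega)
            have e4 : 7 * Q ≤ K r t := K_ge r t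
            rw [e2, Nat.mul_add_mod, Nat.mod_eq_of_lt (by omega)]
            omega
        · rw [not_le] at h6
          refine ⟨r * (2 * r + 7), by nlinarith, le_refl _, ?_⟩
          have e0 : r * (2 * r + 7) * Q = r * K r t := by rw [hK]; ring
          rw [e0]
          have e2 : z - r * K r t = p r t * (z / p r t) + (w - r * K r t) := by omega
          have e4 : 7 * Q ≤ K r t := K_ge r t
          rw [e2, Nat.mul_add_mod, Nat.mod_eq_of_lt (by omega)]
          omega
    have hvK : v * Q ≤ r * K r t := by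
      calc v * Q ≤ r * (2 * r + 7) * Q := Nat.mul_le_mul_right _ hv2
        _ = _ := by rw [hK]; ring
    have e3 : (r + 1) * K r t = r * K r t + K r t := by ring
    have e4 : 7 * Q ≤ K r t := K_ge r t
    have h7 : High r t (z - v * Q) :=
      ⟨by omega, (Nat.dvd_sub hz (Dvd.intro_left v rfl)), hv3⟩
    have h8 := (split Q (2 * r + 7) r v hv1 hv2).mono
      (fun c _ hc => high_of_small r t hr c hc.1 hc.2.1 hc.2.2)
    have h9 := h8.add (Rep.single h7)
    have e5 : v * Q + (z - v * Q) = z := by omega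
    rwa [e5] at h9

/-- robust elements: in the basis and at least `T` -/
def Rob (r T c : ℕ) : Prop := inA r c ∧ T ≤ c

lemma cover (r T m : ℕ) (hr : 1 ≤ r) (hT : 1 ≤ T) (hm : (r + 4) * q r T ≤ m) :
    Rep (Rob r T) (r + 2) m := by
  -- find the stage
  obtain ⟨t, ht1, ht2, ht3⟩ : ∃ t, T ≤ t ∧ (r + 4) * q r t ≤ m ∧ m < (r + 4) * q r (t + 1) := by
    have hex : ∃ n, m < (r + 4) * q r (n + 1) := by
      refine ⟨m, ?_⟩
      have := q_gt r (m + 1)
      nlinarith
    classical
    set t := Nat.find hex with htdef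
    have h1 : m < (r + 4) * q r (t + 1) := Nat.find_spec hex
    have h2 : ∀ s, s < t → ¬ m < (r + 4) * q r (s + 1) := fun s hs => Nat.find_min hex hs
    have hTt : T ≤ t := by
      by_contra h
      rw [not_le] at h
      have : q r (t + 1) ≤ q r T := (q_mono r).monotone (by omega)
      nlinarith
    refine ⟨t, hTt, ?_, h1⟩
    obtain ⟨s, hs⟩ : ∃ s, t = s + 1 := ⟨t - 1, by omega⟩
    have := h2 s (by omega)
    rw [not_lt] at this
    rw [hs]; exact this
  have hq := q_pos r t
  have hqt := q_gt r t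
  have hqs := q_succ r t
  have hpeq := p_eq r t
  have hKge := K_ge r t
  have hKp := K_lt_p r t hr
  have ht : 1 ≤ t := by omega
  have hqt1 : t + 1 < q r t := by
    obtain ⟨s, rfl⟩ : ∃ s, t = s + 1 := ⟨t - 1, by omega⟩
    have h1 := q_gt r s
    have h2 := p_ge r s
    rw [q_succ]
    nlinarith
  -- old type elements below `2 q'` are in A
  have hHighA : ∀ c, High r t c → c < 2 * q r (t + 1) → inA r c := by
    intro c hc hc2
    by_cases h1 : c < q r (t + 1)
    · rw [inA_iff r t c hc.1 h1]
      right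
      exact hc.2
    · rw [not_lt] at h1
      have h2 : c < q r (t + 1 + 1) := by
        have := q_succ r (t + 1)
        have := p_ge r (t + 1)
        nlinarith
      rw [inA_iff r (t + 1) c h1 h2]
      left
      refine ⟨hc2, fun h3 => ?_⟩
      exfalso
      have h4 : q r t ∣ t + 1 := by
        have h5 : q r t ∣ q r (t + 1) := by rw [hqs]; exact Dvd.intro _ rfl
        have h6 := hc.2.1
        rw [h3] at h6
        exact (Nat.dvd_add_right h5).mp h6
      have := Nat.le_of_dvd (by omega) h4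
      omega
  have hq5 : 34 * q r t ≤ q r t * p r t := by
    have : 34 ≤ p r t := by
      rw [hpeq]
      have h1 : q r t ≥ 3 := by omega
      have h2 : K r t ≥ 21 := by omega
      have h3 : 1 * K r t ≤ r * K r t := Nat.mul_le_mul_right _ hr
      omega
    calc 34 * q r t ≤ p r t * q r t := Nat.mul_le_mul_right _ this
      _ = _ := mul_comm _ _
  have hbig : (2 * r + 7) * q r t * 2 ≤ q r (t + 1) := by
    rw [hqs, hpeq]
    have h1 : q r t ≥ 3 := by omega
    have h2 : K r t = (2 * r + 7) * q r t := rfl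
    have h3 : r * K r t ≥ K r t := by nlinarith
    have h4 : (2 * r + 7) * 2 ≤ r * K r t + 4 * q r t + 1 := by
      rw [h2] at h3 ⊢
      nlinarith
    calc (2 * r + 7) * q r t * 2 = q r t * ((2 * r + 7) * 2) := by ring
      _ ≤ _ := Nat.mul_le_mul_left _ h4
  by_cases hcase : m < 2 * q r (t + 1)
  · -- old rule
    have hmod : m % q r t < q r t := Nat.mod_lt _ (by omega)
    have hdm := Nat.div_add_mod m (q r t)
    have hr4 : (r + 4) * q r t = (r + 2) * q r t + 2 * q r t := by ring
    obtain ⟨e, he1, he2, he3, he4⟩ : ∃ e, Rob r T e ∧ e ≤ m ∧ q r t ∣ m - e ∧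
        (r + 2) * q r t ≤ m - e := by
      by_cases hx : m % q r t = t ∧ inA r t
      · refine ⟨t, ⟨hx.2, ht1⟩, by omega, ?_, by omega⟩
        have h := Nat.dvd_sub_mod (n := q r t) m
        rwa [hx.1] at h
      · refine ⟨q r t + m % q r t, ⟨?_, by omega⟩, by omega, ?_, by omega⟩
        · rw [inA_iff r t _ (by omega) (by
            have := q_lt_succ r t
            rw [hqs]; omega)]
          left
          refine ⟨by omega, fun h3 h4 => hx ⟨by omega, h4⟩⟩
        · have h := Nat.dvd_sub (Nat.dvd_sub_mod (n := q r t) m) (dvd_refl (q r t))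
          rw [Nat.sub_sub] at h
          rwa [Nat.add_comm]
    have h1 := highSum r t hr (m - e) he3 he4
    have h2 : Rep (Rob r T) (r + 1) (m - e) := by
      refine h1.mono (fun c hc hc2 => ⟨hHighA c hc2 (by omega), ?_⟩)
      have := hc2.1
      omega
    have h3 := h2.add (Rep.single he1)
    have e5 : m - e + e = m := by omega
    rwa [e5] at h3
  · rw [not_lt] at hcase
    set Q := q r t with hQ
    set Q' := q r (t + 1) with hQ'
    have hQQ : 34 * Q ≤ Q' := by rw [hqs]; exact hq5
    have hR1 : Rob r T Q := by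
      refine ⟨hHighA Q ?_ (by omega), by omega⟩
      exact high_of_small r t hr _ (dvd_refl _) (le_refl _) (by omega)
    have hR2 : Rob r T (2 * Q) := by
      refine ⟨hHighA (2 * Q) ?_ (by omega), by omega⟩
      exact high_of_small r t hr _ (Dvd.intro_left 2 rfl) (by omega) (by omega)
    have hlow : ∀ y, Q' ≤ y → y < 2 * Q' → y ≠ Q' + (t + 1) → Rob r T y := by
      intro y hy1 hy2 hy3
      refine ⟨?_, by omega⟩
      have h7 : y < q r (t + 1 + 1) := by
        have h8 := q_succ r (t + 1)
        have h9 := p_ge r (t + 1)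
        have h10 : Q' * 5 ≤ Q' * p r (t + 1) := Nat.mul_le_mul_left _ h9
        rw [h8, ← hQ']
        omega
      rw [inA_iff r (t + 1) y hy1 h7]
      left
      exact ⟨hy2, fun h => absurd h hy3⟩
    have hmul : ∀ j, 1 ≤ j → j ≤ r + 3 → Rob r T (j * Q') := by
      intro j hj1 hj2
      have h8 := q_succ r (t + 1)
      have h9 := p_eq r (t + 1)
      have h10 : K r (t + 1) = (2 * r + 7) * Q' := rfl
      have h11 := K_lt_p r (t + 1) hr
      have h12 : j * Q' ≤ K r (t + 1) := by
        rw [h10]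
        exact Nat.mul_le_mul_right Q' (by omega)
      have h13 : Q' ≤ j * Q' := Nat.le_mul_of_pos_left _ (by omega)
      refine ⟨?_, by omega⟩
      have h14 : p r (t + 1) ≤ q r (t + 1 + 1) := by
        rw [h8]
        exact Nat.le_mul_of_pos_left _ (q_pos r (t + 1))
      rw [inA_iff r (t + 1) (j * Q') h13 (by omega)]
      right
      refine ⟨Dvd.intro_left j rfl, ?_⟩
      rw [Nat.mod_eq_of_lt (by omega)]
      exact h12
    have hbig1 : 2 * (r * (2 * Q)) + 14 * Q ≤ Q' := by
      have : (2 * r + 7) * Q * 2 = 2 * (r * (2 * Q)) + 14 * Q := by ring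
      omega
    set X := r * (2 * Q) with hX
    by_cases hB : m < 2 * Q' + X
    · have h1 := hlow (m - X - 2 * Q) (by omega) (by omega) (by omega)
      have h2 := (Rep.const (r + 1) hR2).add (Rep.single h1)
      have e1 : (r + 1) * (2 * Q) + (m - X - 2 * Q) = m := by
        have : (r + 1) * (2 * Q) = X + 2 * Q := by rw [hX]; ring
        omega
      rwa [e1] at h2
    · rw [not_lt] at hB
      set D := m - X with hD
      have hD1 : 2 * Q' ≤ D := by omega
      have hD2 : D < (r + 4) * Q' := by omega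
      have hdm := Nat.div_add_mod D Q'
      have hmod : D % Q' < Q' := Nat.mod_lt _ (by omega)
      have hdiv1 : 2 ≤ D / Q' := by
        rw [Nat.le_div_iff_mul_le (by omega)]; exact hD1
      have hdiv2 : D / Q' < r + 4 := by
        rw [Nat.div_lt_iff_lt_mul (by omega)]; exact hD2
      obtain ⟨j, hj⟩ : ∃ j, D / Q' = j + 1 := ⟨D / Q' - 1, by omega⟩
      have hj2 := hmul j (by omega) (by omega)
      rw [hj] at hdm
      have e0 : Q' * (j + 1) = j * Q' + Q' := by ring
      by_cases hy : D % Q' = t + 1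
      · -- use the shifted representation
        have h1 := hlow (Q' + D % Q' + Q) (by omega) (by omega) (by omega)
        obtain ⟨r', hr'⟩ : ∃ r', r = r' + 1 := ⟨r - 1, by omega⟩
        have h2 := (((Rep.single h1).add (Rep.single hj2)).add (Rep.single hR1)).add
          (Rep.const r' hR2)
        have e1 : Q' + D % Q' + Q + j * Q' + Q + r' * (2 * Q) = m := by
          have : X = r' * (2 * Q) + 2 * Q := by rw [hX, hr']; ring
          omega
        have e2 : 1 + 1 + 1 + r' = r + 2 := by omega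
        rwa [e1, e2] at h2
      · have h1 := hlow (Q' + D % Q') (by omega) (by omega) (by omega)
        have h2 := ((Rep.single h1).add (Rep.single hj2)).add (Rep.const r hR2)
        have e1 : Q' + D % Q' + j * Q' + r * (2 * Q) = m := by
          omega
        have e2 : 1 + 1 + r = r + 2 := by omega
        rwa [e1, e2] at h2

/-- For every h ≥ 3 there is a set A of naturals such that all large n are sums of h elements of A, and for every subset S of A, removing S keeps this property exactly when S is finite. -/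
theorem result :
    ∀ h : ℕ, 3 ≤ h →
      ∃ A : Set ℕ,
        (∃ N : ℕ, ∀ n : ℕ, N ≤ n →
          ∃ f : Fin h → ℕ, (∀ i, f i ∈ A) ∧ ∑ i, f i = n) ∧
        ∀ S : Set ℕ, S ⊆ A →
          ((∃ N : ℕ, ∀ n : ℕ, N ≤ n →
              ∃ f : Fin h → ℕ, (∀ i, f i ∈ A \ S) ∧ ∑ i, f i = n) ↔ S.Finite) := by
  intro h hh
  obtain ⟨r, rfl⟩ : ∃ r, h = r + 2 := ⟨h - 2, by omega⟩
  have hr : 1 ≤ r := by omega
  refine ⟨{c | inA r c}, ?_, ?_⟩
  · refine ⟨(r + 4) * q r 1, fun n hn => ?_⟩
    obtain ⟨f, hf, hs⟩ := cover r 1 n hr le_rfl hn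
    exact ⟨f, fun i => (hf i).1, hs⟩
  · intro S hS
    constructor
    · rintro ⟨N, hN⟩
      by_contra hinf
      have hinf' : S.Infinite := hinf
      obtain ⟨t, htS, htN⟩ := hinf'.exists_gt N
      obtain ⟨f, hf, hs⟩ := hN ((t + 1) * cc r * q r t + t) (by omega)
      exact obstruct r t (hS htS) f (fun i => (hf i).1)
        (fun i h => (hf i).2 (h ▸ htS)) hs
    · intro hfin
      obtain ⟨B, hB⟩ := hfin.bddAbove
      refine ⟨(r + 4) * q r (B + 1), fun n hn => ?_⟩
      obtain ⟨f, hf, hs⟩ := cover r (B + 1) n hr (by omega) hn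
      refine ⟨f, fun i => ⟨(hf i).1, fun hi => ?_⟩, hs⟩
      have h1 := hB hi
      have h2 := (hf i).2
      omega

end Pool.Agent.S4247
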