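import Pool.Statements.S4295
-- import your own Pool.Agent.* helpers here

set_option autoImplicit false
open Pool Pool.MP_444361_nt

namespace Pool.Agent.S4295

theorem step (a p : ℕ) (hp : p.Prime) (hc : Nat.Coprime a p) (t d : ℕ)
    (ht : Nat.totient a = t) (hd : a.divisors.card = d) :
    Nat.totient (a * p) = t * (p - 1) ∧ (a * p).divisors.card = d * 2 := by
  constructor
  · rw [Nat.totient_mul hc, ht, Nat.totient_prime hp]
  · rw [Nat.Coprime.card_divisors_mul hc, hd, Nat.Prime.divisors hp,
      Finset.card_pair (Nat.Prime.one_lt hp).ne]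

/-- There exists a composite natural number n, with n ≠ 4, such that n divides φ(n) times the number of divisors of n, plus 2. -/
theorem result :
    ∃ n : ℕ, 1 < n ∧ ¬ n.Prime ∧ n ≠ 4 ∧
      n ∣ Nat.totient n * n.divisors.card + 2 := by
  have h1 : Nat.totient 1 = 1 ∧ (1 : ℕ).divisors.card = 1 := by simp
  have h2 := step 1 2 (by norm_num) (by norm_num) 1 1 h1.1 h1.2
  norm_num only at h2
  have h3 := step 2 61 (by norm_num) (by norm_num) _ _ h2.1 h2.2
  norm_num only at h3
  have h4 := step 122 67 (by norm_num) (by norm_num) _ _ h3.1 h3.2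
  norm_num only at h4
  have h5 := step 8174 6803 (by norm_num) (by norm_num) _ _ h4.1 h4.2
  norm_num only at h5
  have h6 := step 55607722 29027 (by norm_num) (by norm_num) _ _ h5.1 h5.2
  norm_num only at h6
  have h7 := step 1614125346494 15887233 (by norm_num) (by norm_num) _ _ h6.1 h6.2
  norm_num only at h7
  refine ⟨25643985470955911102, by norm_num, by norm_num, by norm_num, ?_⟩
  rw [h7.1, h7.2]
  norm_num

end Pool.Agent.S4295
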