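import Pool.Statements.S4407

set_option autoImplicit false
open Nebf1142c
open Filter
open Pool Pool.MP_4ffaa3_nt

namespace Pool.Agent.S4407

/-- One step: if all multiples `m x`, `1 ≤ m ≤ N`, have fractional part below `1 - ε`, then the
fractional part of `(N+1) x` is obtained from that of `x` without wrapping around. -/
theorem step (B N : ℕ) (hB : 1 ≤ B) (hN : ∀ b, 1 ≤ b → b ≤ B → b ∣ N) (hBN : B ≤ N) (ε : ℝ)
    (hε : 1 / ((B : ℝ) + 1) < ε) (x : ℝ) (hx : Irrational x)
    (hbad : ∀ m : ℕ, 1 ≤ m → m ≤ N → Int.fract ((m : ℝ) * x) < 1 - ε) :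
    ∃ c : ℤ, (c : ℝ) < N * Int.fract x ∧ Int.fract (((N : ℝ) + 1) * x) = ((N : ℝ) + 1) * Int.fract x - c := by
  obtain ⟨q, hq, hden⟩ := Real.exists_rat_abs_sub_le_and_den_le x (show 0 < B by omega)
  set b : ℕ := q.den with hb
  have hb1 : 1 ≤ b := q.pos
  have hb0 : (0 : ℝ) < b := by exact_mod_cast hb1
  have hB0 : (0 : ℝ) < (B : ℝ) + 1 := by positivity
  set θ : ℝ := x - q with hθ
  have hxq : x = q + θ := by rw [hθ]; ring
  have hqr : (q : ℝ) = (q.num : ℝ) / b := by rw [hb]; exact_mod_cast (Rat.num_div_den q).symm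
  have hqb : (b : ℝ) * q = q.num := by rw [hqr]; field_simp
  have hbθ : |(b : ℝ) * θ| ≤ 1 / ((B : ℝ) + 1) := by
    rw [abs_mul, abs_of_pos hb0]
    calc (b : ℝ) * |θ| ≤ b * (1 / (((B : ℝ) + 1) * b)) := by gcongr
      _ = 1 / ((B : ℝ) + 1) := by field_simp
  have hθ0 : θ ≠ 0 := by
    intro h
    rw [h, add_zero] at hxq
    exact hx ⟨q, hxq.symm⟩
  have hsmall : 1 / ((B : ℝ) + 1) < 1 / b := by
    apply one_div_lt_one_div_of_lt hb0
    have : (b : ℝ) ≤ B := by exact_mod_cast hden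
    linarith
  have hb1' : 1 / (b : ℝ) ≤ 1 := by
    rw [div_le_one hb0]; exact_mod_cast hb1
  -- positivity of θ
  have hθpos : 0 < θ := by
    rcases lt_trichotomy θ 0 with h | h | h
    · exfalso
      have h1 := hbad b hb1 (hden.trans hBN)
      have h2 : (b : ℝ) * x = ((q.num - 1 : ℤ) : ℝ) + (1 + b * θ) := by
        rw [hxq, mul_add, hqb]; push_cast; ring
      have h3 : (b : ℝ) * θ < 0 := mul_neg_of_pos_of_neg hb0 h
      have h4 : -(1 / ((B : ℝ) + 1)) ≤ b * θ := (abs_le.1 hbθ).1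
      have h5 : Int.fract ((b : ℝ) * x) = 1 + b * θ := by
        rw [h2, Int.fract_intCast_add, Int.fract_eq_self]
        constructor <;> linarith
      linarith
    · exact absurd h hθ0
    · exact h
  have hbθ' : (b : ℝ) * θ ≤ 1 / ((B : ℝ) + 1) := (abs_le.1 hbθ).2
  -- m0
  obtain ⟨m0, hm01, hm0b, hm0⟩ : ∃ m0 : ℕ, 1 ≤ m0 ∧ m0 ≤ b ∧ ∃ z : ℤ, (m0 : ℤ) * q.num = z * b - 1 := by
    have hcop : IsCoprime (q.num) (b : ℤ) := by
      rw [Int.isCoprime_iff_gcd_eq_one]; exact q.reduced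
    obtain ⟨u, v, huv⟩ := hcop
    -- u * num ≡ 1 mod b ; m0 ≡ -u mod b, in [1,b]
    have hbz : (0 : ℤ) < b := by exact_mod_cast hb1
    refine ⟨((-u - 1) % b).toNat + 1, by omega, ?_, ?_⟩
    · have h1 := Int.emod_lt_of_pos (-u - 1) hbz
      have h0 := Int.emod_nonneg (-u - 1) hbz.ne'
      omega
    · have h0 := Int.emod_nonneg (-u - 1) hbz.ne'
      have h2 : ((((-u - 1) % b).toNat + 1 : ℕ) : ℤ) = (-u - 1) % b + 1 := by
        push_cast; rw [Int.toNat_of_nonneg h0]
      have h3 : (-u - 1) % b = (-u - 1) - b * ((-u - 1) / b) := by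
        have := Int.emod_add_mul_ediv (-u - 1) b; linarith
      refine ⟨v - ((-u - 1) / b) * q.num, ?_⟩
      rw [h2, h3]
      linear_combination (-1 : ℤ) * huv
  -- induction along the residue class
  have hind : ∀ j : ℕ, m0 + j * b ≤ N → ((m0 + j * b : ℕ) : ℝ) * θ < 1 / b - ε := by
    have hval : ∀ m : ℕ, 1 ≤ m → m ≤ N → (∃ z : ℤ, (m : ℤ) * q.num = z * b - 1) → (m : ℝ) * θ < 1 / b →
        (m : ℝ) * θ < 1 / b - ε := by
      intro m hm1 hmN hz hlt
      obtain ⟨z, hz⟩ := hz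
      have hz' : (m : ℝ) * q = z - 1 / b := by
        have : (m : ℝ) * q.num = z * b - 1 := by exact_mod_cast hz
        rw [hqr, mul_div_assoc', this]; field_simp
      have h1 := hbad m hm1 hmN
      have h2 : (m : ℝ) * x = ((z - 1 : ℤ) : ℝ) + (1 - 1 / b + m * θ) := by
        rw [hxq, mul_add, hz']; push_cast; ring
      have h3 : 0 ≤ (m : ℝ) * θ := by positivity
      have h4 : Int.fract ((m : ℝ) * x) = 1 - 1 / b + m * θ := by
        rw [h2, Int.fract_intCast_add, Int.fract_eq_self]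
        constructor <;> linarith
      linarith
    intro j
    induction j with
    | zero =>
      intro h
      simp only [Nat.zero_mul, Nat.add_zero] at h ⊢
      apply hval m0 hm01 h hm0
      have : (m0 : ℝ) * θ ≤ b * θ := by
        apply mul_le_mul_of_nonneg_right _ hθpos.le
        exact_mod_cast hm0b
      linarith
    | succ j ih =>
      intro h
      have h1 : m0 + j * b ≤ N := by nlinarith
      have h2 := ih h1
      apply hval (m0 + (j + 1) * b) (by omega) h
      · obtain ⟨z, hz⟩ := hm0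
        refine ⟨z + (j + 1) * q.num, ?_⟩
        push_cast
        rw [add_mul, hz]; ring
      · push_cast at h2 ⊢
        nlinarith
  obtain ⟨s, hs⟩ := hN b hb1 hden
  have hs1 : 1 ≤ s := by
    rcases Nat.eq_zero_or_pos s with h | h
    · rw [h, Nat.mul_zero] at hs; omega
    · exact h
  have hQθ : ((N : ℝ) + 1) * θ < 1 / b := by
    have h1 := hind (s - 1) (by
      have : (s - 1) * b + b = N := by
        rw [hs]; obtain ⟨s', rfl⟩ : ∃ s', s = s' + 1 := ⟨s - 1, by omega⟩
        simp; ring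
      omega)
    have h2 : ((N : ℝ) + 1) ≤ ((m0 + (s - 1) * b : ℕ) : ℝ) + b := by
      have : N + 1 ≤ m0 + (s - 1) * b + b := by
        have : (s - 1) * b + b = N := by
          rw [hs]; obtain ⟨s', rfl⟩ : ∃ s', s = s' + 1 := ⟨s - 1, by omega⟩
          simp; ring
        omega
      exact_mod_cast this
    have h3 : ((N : ℝ) + 1) * θ ≤ (((m0 + (s - 1) * b : ℕ) : ℝ) + b) * θ :=
      mul_le_mul_of_nonneg_right h2 hθpos.le
    rw [add_mul] at h3
    linarith
  -- fractional part of q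
  have hfloor : ∀ y : ℝ, 0 ≤ y → y < 1 / b → Int.fract ((q : ℝ) + y) = Int.fract (q : ℝ) + y := by
    intro y hy0 hy1
    have hfl : (⌊(q : ℝ)⌋ : ℝ) + (1 - 1 / b) ≥ q := by
      have h1 : (q.num : ℤ) = b * (q.num / b) + q.num % b := (Int.mul_ediv_add_emod q.num b).symm
      have h2 : q.num % (b : ℤ) ≤ b - 1 := by
        have := Int.emod_lt_of_pos q.num (show (0 : ℤ) < b by exact_mod_cast hb1)
        omega
      have h0 : 0 ≤ q.num % (b : ℤ) := Int.emod_nonneg _ (by exact_mod_cast hb0.ne')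
      have h3 : ⌊(q : ℝ)⌋ = q.num / b := by
        rw [hqr]
        have := Rat.floor_intCast_div_natCast q.num b
        rw [← this]
        exact_mod_cast (Rat.floor_cast (α := ℝ) ((q.num : ℚ) / (b : ℚ)))
      rw [h3, hqr]
      have h4 : (q.num : ℝ) = b * ((q.num / b : ℤ) : ℝ) + ((q.num % b : ℤ) : ℝ) := by exact_mod_cast h1
      have h5 : ((q.num % b : ℤ) : ℝ) ≤ b - 1 := by exact_mod_cast h2
      rw [ge_iff_le, div_le_iff₀ hb0, h4]
      have : (((q.num / b : ℤ) : ℝ) + (1 - 1 / b)) * b = ((q.num / b : ℤ) : ℝ) * b + (b - 1) := by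
        field_simp
      rw [this]; linarith
    have hfr : Int.fract (q : ℝ) = q - ⌊(q : ℝ)⌋ := rfl
    rw [Int.fract_eq_iff]
    refine ⟨?_, ?_, ⟨⌊(q : ℝ)⌋, ?_⟩⟩
    · have := Int.fract_nonneg (q : ℝ); linarith
    · rw [hfr]; linarith
    · rw [hfr]; ring
  have hθlt : θ < 1 / b := by
    have : θ ≤ ((N : ℝ) + 1) * θ := by
      have : (0 : ℝ) ≤ N := by positivity
      nlinarith
    linarith
  have hfx : Int.fract x = Int.fract (q : ℝ) + θ := by rw [hxq]; exact hfloor θ hθpos.le hθlt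
  have hNq : (N : ℝ) * q = ((s * q.num : ℤ) : ℝ) := by
    rw [hs]; push_cast; rw [mul_assoc, mul_comm (s : ℝ) (q : ℝ), ← mul_assoc, hqb]; ring
  have hfQ : Int.fract (((N : ℝ) + 1) * x) = Int.fract (q : ℝ) + ((N : ℝ) + 1) * θ := by
    have : ((N : ℝ) + 1) * x = ((s * q.num : ℤ) : ℝ) + (q + ((N : ℝ) + 1) * θ) := by
      rw [← hNq, hxq]; ring
    rw [this, Int.fract_intCast_add]
    exact hfloor _ (by positivity) hQθ
  refine ⟨s * q.num - N * ⌊(q : ℝ)⌋, ?_, ?_⟩
  · have hfr : Int.fract (q : ℝ) = q - ⌊(q : ℝ)⌋ := rfl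
    have : (((s * q.num - N * ⌊(q : ℝ)⌋ : ℤ)) : ℝ) = N * Int.fract (q : ℝ) := by
      rw [hfr, mul_sub, hNq]; push_cast; ring
    rw [this, hfx]
    have hNpos : (0 : ℝ) < N := by
      have : 0 < N := by omega
      exact_mod_cast this
    nlinarith [mul_pos hNpos hθpos]
  · have hfr : Int.fract (q : ℝ) = q - ⌊(q : ℝ)⌋ := rfl
    have : (((s * q.num - N * ⌊(q : ℝ)⌋ : ℤ)) : ℝ) = N * Int.fract (q : ℝ) := by
      rw [hfr, mul_sub, hNq]; push_cast; ring
    rw [this, hfx, hfQ]; ring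

/-- there is no irrational `ξ` for which all blocks from some point on are bad -/
theorem no_bad (B N : ℕ) (hB : 1 ≤ B) (hN : ∀ b, 1 ≤ b → b ≤ B → b ∣ N) (hBN : B ≤ N) (ε : ℝ)
    (hε : 1 / ((B : ℝ) + 1) < ε) (ξ : ℝ) (hξ : Irrational ξ)
    (hbad : ∀ k : ℕ, ∀ m : ℕ, 1 ≤ m → m ≤ N → Int.fract ((m : ℝ) * (ξ * ((N : ℝ) + 1) ^ k)) < 1 - ε) :
    False := by
  have hirr : ∀ k : ℕ, Irrational (ξ * ((N : ℝ) + 1) ^ k) := by
    intro k
    have : ξ * ((N : ℝ) + 1) ^ k = ξ * (((N + 1) ^ k : ℕ) : ℝ) := by push_cast; ring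
    rw [this]
    exact hξ.mul_natCast (by positivity)
  have hstep := fun k => step B N hB hN hBN ε hε (ξ * ((N : ℝ) + 1) ^ k) (hirr k) (hbad k)
  choose c hc1 hc2 using hstep
  set y : ℕ → ℝ := fun k => Int.fract (ξ * ((N : ℝ) + 1) ^ k) with hy
  have hrec : ∀ k, y (k + 1) = ((N : ℝ) + 1) * y k - c k := by
    intro k
    rw [hy]
    simp only
    rw [← hc2 k]
    congr 1
    rw [pow_succ]; ring
  have hNpos : (0 : ℝ) < N := by
    have : 0 < N := by omega
    exact_mod_cast this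
  have hlt : ∀ k, y k < y (k + 1) := by
    intro k
    rw [hrec k]
    have := hc1 k
    have h : (c k : ℝ) < N * y k := this
    linarith
  have hmono : StrictMono y := strictMono_nat_of_lt_succ hlt
  have hbdd : BddAbove (Set.range y) := ⟨1, by rintro _ ⟨k, rfl⟩; exact (Int.fract_lt_one _).le⟩
  have hlim := tendsto_atTop_ciSup hmono.monotone hbdd
  set L := ⨆ i, y i with hL
  have hyL : ∀ k, y k < L := fun k => lt_of_lt_of_le (hlt k) (le_ciSup hbdd (k + 1))
  have hclim : Tendsto (fun k => (c k : ℝ)) atTop (nhds (N * L)) := by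
    have h1 : Tendsto (fun k => y (k + 1)) atTop (nhds L) := hlim.comp (tendsto_add_atTop_nat 1)
    have h2 : Tendsto (fun k => ((N : ℝ) + 1) * y k - y (k + 1)) atTop (nhds (((N : ℝ) + 1) * L - L)) :=
      (hlim.const_mul _).sub h1
    have h3 : (fun k => ((N : ℝ) + 1) * y k - y (k + 1)) = fun k => (c k : ℝ) := by
      funext k; rw [hrec k]; ring
    rw [h3] at h2
    have h4 : ((N : ℝ) + 1) * L - L = N * L := by ring
    rwa [h4] at h2
  have hcL : ∀ k, (c k : ℝ) ≤ ⌈(N : ℝ) * L⌉ - 1 := by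
    intro k
    have h1 : (c k : ℝ) < N * L := lt_of_lt_of_le (hc1 k) (by
      have := (hyL k).le
      have h : N * y k ≤ N * L := mul_le_mul_of_nonneg_left this hNpos.le
      exact h)
    have h2 : c k < ⌈(N : ℝ) * L⌉ := Int.lt_ceil.2 h1
    have h3 : c k ≤ ⌈(N : ℝ) * L⌉ - 1 := by omega
    exact_mod_cast h3
  have h5 : (N : ℝ) * L ≤ ⌈(N : ℝ) * L⌉ - 1 := le_of_tendsto' hclim hcL
  have h6 := Int.ceil_lt_add_one ((N : ℝ) * L)
  linarith

/-- For every number field K ⊆ ℝ and every ε>0 there is a positive sequence t:ℕ→K with some c>1 such that eventually c·t_k<t_{k+1}, and for every real ξ∉K, limsup fract(ξ t_n) ≥ 1−ε. -/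
theorem result :
    ∀ (K : IntermediateField ℚ ℝ) [FiniteDimensional ℚ K] {ε : ℝ} (hε : 0 < ε), ∃ t : ℕ → K, (∀ n, 0 < (t n : ℝ)) ∧ (∃ c > (1 : ℝ), ∀ᶠ k in atTop, c * (t k : ℝ) < (t (k + 1) : ℝ)) ∧ ∀ ξ : ℝ, ξ ∉ K → (1 - ε) ≤ limsup (fun n => Int.fract (ξ * (t n : ℝ))) atTop := by
  intro K _ ε hε
  obtain ⟨B, hB1, hB⟩ : ∃ B : ℕ, 1 ≤ B ∧ 1 / ((B : ℝ) + 1) < ε := by
    obtain ⟨n, hn⟩ := exists_nat_one_div_lt hε
    refine ⟨n + 1, by omega, lt_of_le_of_lt ?_ hn⟩
    push_cast
    gcongr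
    linarith
  set N : ℕ := B.factorial with hNdef
  have hN : ∀ b, 1 ≤ b → b ≤ B → b ∣ N := fun b h1 h2 => Nat.dvd_factorial h1 h2
  have hBN : B ≤ N := Nat.self_le_factorial B
  have hN0 : 0 < N := Nat.factorial_pos B
  have hNr : (0 : ℝ) < N := by exact_mod_cast hN0
  -- the sequence
  set T : ℕ → ℕ := fun n => (n % N + 1) * (N + 1) ^ (n / N) with hT
  refine ⟨fun n => (T n : K), ?_, ?_, ?_⟩
  · intro n
    have : 0 < T n := by rw [hT]; positivity
    simpa using (by exact_mod_cast this : (0 : ℝ) < (T n : ℝ))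
  · refine ⟨1 + 1 / (2 * N), by have : 0 < 1 / (2 * (N : ℝ)) := by positivity
                                linarith, ?_⟩
    apply Eventually.of_forall
    intro n
    have hcast : ∀ n, ((T n : K) : ℝ) = (T n : ℝ) := by intro n; push_cast; rfl
    have key : (1 + 1 / (2 * (N : ℝ))) * (T n : ℝ) < (T (n + 1) : ℝ) := by
      have hlt := Nat.mod_lt n hN0
      by_cases hcase : n % N + 1 < N
      · -- same block
        have e1 : (n + 1) / N = n / N := by
          have h1 : n + 1 = N * (n / N) + (n % N + 1) := by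
            have := Nat.div_add_mod n N; omega
          rw [h1, Nat.mul_add_div hN0, Nat.div_eq_of_lt hcase]; simp
        have e2 : (n + 1) % N = n % N + 1 := by
          have h1 : n + 1 = N * (n / N) + (n % N + 1) := by
            have := Nat.div_add_mod n N; omega
          rw [h1, Nat.mul_add_mod, Nat.mod_eq_of_lt hcase]
        simp only [hT, e1, e2]
        push_cast
        have hp : (0 : ℝ) < ((N : ℝ) + 1) ^ (n / N) := by positivity
        rw [← mul_assoc]
        apply mul_lt_mul_of_pos_right _ hp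
        have h3 : ((n % N : ℕ) : ℝ) + 1 ≤ N := by exact_mod_cast hcase.le
        have h4 : 1 / (2 * (N : ℝ)) * (((n % N : ℕ) : ℝ) + 1) ≤ 1 / 2 := by
          calc 1 / (2 * (N : ℝ)) * (((n % N : ℕ) : ℝ) + 1) ≤ 1 / (2 * (N : ℝ)) * N := by gcongr
            _ = 1 / 2 := by field_simp
        nlinarith
      · have hmod : n % N + 1 = N := by omega
        have e1 : (n + 1) / N = n / N + 1 := by
          have h1 : n + 1 = N * (n / N + 1) := by
            have := Nat.div_add_mod n N; rw [Nat.mul_add]; omega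
          rw [h1, Nat.mul_div_cancel_left _ hN0]
        have e2 : (n + 1) % N = 0 := by
          have h1 : n + 1 = N * (n / N + 1) := by
            have := Nat.div_add_mod n N; rw [Nat.mul_add]; omega
          rw [h1, Nat.mul_mod_right]
        simp only [hT, e1, e2, hmod]
        push_cast
        have hp : (0 : ℝ) < ((N : ℝ) + 1) ^ (n / N) := by positivity
        rw [pow_succ, ← mul_assoc]
        have h4 : (1 + 1 / (2 * (N : ℝ))) * N = N + 1 / 2 := by field_simp
        rw [h4]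
        nlinarith
    rw [hcast, hcast]
    exact key
  · intro ξ hξ
    have hirr : Irrational ξ := by
      rintro ⟨q, rfl⟩
      exact hξ (by simp)
    have hbd : IsBoundedUnder (· ≤ ·) atTop (fun n => Int.fract (ξ * (((T n : K)) : ℝ))) :=
      ⟨1, by simp only [eventually_map]; exact Eventually.of_forall fun n => (Int.fract_lt_one _).le⟩
    apply le_limsup_of_frequently_le _ hbd
    intro hev
    rw [eventually_atTop] at hev
    obtain ⟨n0, hn0⟩ := hev
    -- block index k0 = n0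
    have hirr' : Irrational (ξ * ((N : ℝ) + 1) ^ n0) := by
      have : ξ * ((N : ℝ) + 1) ^ n0 = ξ * (((N + 1) ^ n0 : ℕ) : ℝ) := by push_cast; ring
      rw [this]
      exact hirr.mul_natCast (by positivity)
    apply no_bad B N hB1 hN hBN ε hB (ξ * ((N : ℝ) + 1) ^ n0) hirr'
    intro k m hm1 hmN
    have hidx : n0 ≤ (m - 1) + N * (n0 + k) := by nlinarith
    have h := hn0 _ hidx
    have hTval : T ((m - 1) + N * (n0 + k)) = m * (N + 1) ^ (n0 + k) := by
      rw [hT]
      simp only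
      rw [Nat.add_mul_mod_self_left, Nat.add_mul_div_left _ _ hN0, Nat.mod_eq_of_lt (by omega),
        Nat.div_eq_of_lt (by omega)]
      rw [Nat.zero_add, Nat.sub_add_cancel hm1]
    simp only [hTval, not_le] at h
    refine lt_of_eq_of_lt ?_ h
    congr 1
    push_cast
    rw [pow_add]; ring

end Pool.Agent.S4407
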