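import Pool.Statements.S4434

set_option autoImplicit false
open Pool Pool.MP_5317dd_nt

namespace Pool.Agent.S4434

/-- The negation of the preceding statement: For every D ≥ 2 and every n ≥ 1, iterating F_D from n eventually gives a value below D. Here F_D(x) is x/D if D divides x, (D+1)x+1 if x ≡ −1 mod D, and (D+1)x − (x mod D) otherwise. -/
theorem result :
    ¬ (∀ D : ℕ, 2 ≤ D → ∀ n : ℕ, 1 ≤ n →
      ∃ k : ℕ,
        (fun x : ℕ =>
          if x % D = 0 then x / D
          else if x % D = D - 1 then (D + 1) * x + 1
          else (D + 1) * x - x % D)^[k] n < D) := by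
  intro h
  obtain ⟨k, hk⟩ := h 13 (by norm_num) 147 (by norm_num)
  revert hk
  generalize hF : (fun x : ℕ =>
          if x % 13 = 0 then x / 13
          else if x % 13 = 13 - 1 then (13 + 1) * x + 1
          else (13 + 1) * x - x % 13) = F
  have key : ∀ k : ℕ, k < 71 → 13 ≤ F^[k] 147 := by
    subst hF
    decide
  have hper : F^[71] 147 = 147 := by
    subst hF
    decide
  have hmod : ∀ q r : ℕ, F^[r + 71 * q] 147 = F^[r] 147 := by
    intro q r
    rw [Function.iterate_add_apply]
    congr 1
    induction q with
    | zero => rfl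
    | succ q ih =>
      rw [Nat.mul_succ, Function.iterate_add_apply, hper, ih]
  have h2 := hmod (k / 71) (k % 71)
  rw [Nat.mod_add_div] at h2
  rw [h2]
  exact not_lt.2 (key _ (Nat.mod_lt _ (by norm_num)))
end Pool.Agent.S4434
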