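import Pool.Statements.S4544
import Pool.Agent.H24.LcmA

set_option autoImplicit false
open Pool Pool.MP_6114cc_nt

namespace Pool.Agent.S4544

/-- The negation of the preceding statement: There is a constant C such that for every N, the largest set of integers in [1,N] with all pairwise lcms at most N has size within C of (3/2^{3/2})·√N. -/
theorem result :
    ¬ (∃ C : ℝ, ∀ N : ℕ,
      (∀ A : Finset ℕ, A ⊆ Finset.Icc 1 N →
          (∀ a ∈ A, ∀ b ∈ A, Nat.lcm a b ≤ N) →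
          (A.card : ℝ) ≤ 3 / (2 * Real.sqrt 2) * Real.sqrt (N : ℝ) + C) ∧
      (∃ A : Finset ℕ, A ⊆ Finset.Icc 1 N ∧
          (∀ a ∈ A, ∀ b ∈ A, Nat.lcm a b ≤ N) ∧
          3 / (2 * Real.sqrt 2) * Real.sqrt (N : ℝ) - C ≤ (A.card : ℝ))) := by
  rintro ⟨C, hC⟩
  obtain ⟨r, hr⟩ := exists_nat_gt (C + 1)
  obtain ⟨y, A, hA1, hA2, hA3⟩ := Pool.Agent.H24.LcmA.main r
  have h1 := (hC (2 * (2 * y + 1) ^ 2)).1 A hA1 hA2
  have h2 : Real.sqrt ((2 * (2 * y + 1) ^ 2 : ℕ) : ℝ) = Real.sqrt 2 * (2 * y + 1) := by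
    push_cast
    rw [Real.sqrt_mul (by norm_num), Real.sqrt_sq (by positivity)]
  have h3 : (0 : ℝ) < Real.sqrt 2 := by positivity
  have h4 : 3 / (2 * Real.sqrt 2) * (Real.sqrt 2 * (2 * (y : ℝ) + 1)) = 3 / 2 * (2 * y + 1) := by
    field_simp
  rw [h2, h4, hA3] at h1
  push_cast at h1
  linarith


end Pool.Agent.S4544
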