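import Pool.Statements.S4692
import Pool.Agent.H9.KlarnerFinal

set_option autoImplicit false
open Pool Pool.MP_75084c_nt

namespace Pool.Agent.S4692

/-- The negation of the preceding statement: Let S be the smallest set of naturals containing 1 and closed under x↦2x, 3x+2, 6x+3. Then there is c>0 such that, for all large n, S has at least c·n elements in [1,n]. -/
theorem result :
    ¬ (∃ c : ℝ, 0 < c ∧ ∃ N : ℕ, ∀ n : ℕ, N ≤ n →
      c * (n : ℝ) ≤
        ((({x : ℕ | ∀ T : Set ℕ, 1 ∈ T →
              (∀ y ∈ T, 2 * y ∈ T ∧ 3 * y + 2 ∈ T ∧ 6 * y + 3 ∈ T) → x ∈ T}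
            ∩ Set.Icc 1 n).ncard : ℕ) : ℝ)) := by
  exact Pool.Agent.H9.Klarner.not_positive_lower_density

end Pool.Agent.S4692
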