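import Pool.Statements.S4755
-- import your own Pool.Agent.* helpers here

set_option autoImplicit false
open Pool Pool.MP_7cf9eb_nt

namespace Pool.Agent.S4755

section aux
open Real Finset Nat Chebyshev Filter Topology

/-- `θ(m) ≥ 0.69 m` for large `m`. -/
lemma ev_theta : ∀ᶠ m : ℕ in atTop, 0.69 * (m : ℝ) ≤ Chebyshev.theta (m : ℝ) := by
  have h1 : ∀ᶠ x : ℝ in atTop, Real.log x ≤ 0.0001 * Real.sqrt x := by
    have := (isLittleO_log_rpow_atTop (r := 1/2) (by norm_num)).bound (c := 0.0001) (by norm_num)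
    filter_upwards [this, eventually_ge_atTop 1] with x hx hx1
    rw [Real.norm_of_nonneg (Real.log_nonneg hx1), Real.norm_of_nonneg (by positivity),
      ← Real.sqrt_eq_rpow] at hx
    exact hx
  have h2 := (tendsto_natCast_atTop_atTop (R := ℝ)).eventually h1
  filter_upwards [h2, eventually_ge_atTop 10000] with m hm hm1
  have hmr : (10000 : ℝ) ≤ (m : ℝ) := by exact_mod_cast hm1
  have hs : Real.sqrt m * Real.sqrt m = (m : ℝ) := Real.mul_self_sqrt (by positivity)
  have hs0 : 0 ≤ Real.sqrt (m : ℝ) := Real.sqrt_nonneg _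
  have hs1 : Real.sqrt (m : ℝ) ≤ m := by
    rw [Real.sqrt_le_left (by positivity)]; nlinarith
  have hl : Real.log ((m : ℝ) + 1) ≤ 1 + 0.0001 * m := by
    have : Real.log ((m : ℝ) + 1) ≤ Real.log (2 * m) := Real.log_le_log (by positivity) (by linarith)
    rw [Real.log_mul (by norm_num) (by positivity)] at this
    have := Real.log_two_lt_d9
    nlinarith
  have h3 := Chebyshev.theta_ge m
  have h4 : 2 * Real.sqrt m * Real.log m ≤ 0.0002 * m := by
    nlinarith [mul_le_mul_of_nonneg_left hm hs0]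
  have h5 := Real.log_two_gt_d9
  nlinarith

lemma count_ge (M : ℕ) (hM : 0 < M) :
    Chebyshev.theta ((8 * M : ℕ) : ℝ) + Real.log 2 *
      (((4 * M).primeCounting : ℝ) + ((2 * M).primeCounting : ℝ) + ((M).primeCounting : ℝ))
      ≤ ((8 * M).primeCounting : ℝ) * Real.log ((8 * M : ℕ) : ℝ) := by
  rw [Chebyshev.theta_eq_sum_primesLE_log]
  have hcount : ∀ a : ℕ, a ≤ 8 * M → ((a.primeCounting : ℕ) : ℝ)
      = ∑ p ∈ (8 * M).primesLE, (if p ≤ a then (1 : ℝ) else 0) := by
    intro a ha
    rw [Finset.sum_ite, Finset.sum_const_zero, add_zero, Finset.sum_const, nsmul_eq_mul, mul_one,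
      ← Nat.primesLE_card_eq_primeCounting]
    congr 2
    ext p
    simp only [Nat.mem_primesLE, Finset.mem_filter]
    constructor
    · rintro ⟨h1, h2⟩; exact ⟨⟨by omega, h2⟩, h1⟩
    · rintro ⟨⟨h1, h2⟩, h3⟩; exact ⟨h3, h2⟩
  rw [hcount (4 * M) (by omega), hcount (2 * M) (by omega), hcount M (by omega),
    ← Finset.sum_add_distrib, ← Finset.sum_add_distrib, Finset.mul_sum, ← Finset.sum_add_distrib,
    ← Nat.primesLE_card_eq_primeCounting, ← nsmul_eq_mul, ← Finset.sum_const]
  apply Finset.sum_le_sum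
  intro p hp
  rw [Nat.mem_primesLE] at hp
  have hp0 : (0 : ℝ) < p := by exact_mod_cast hp.2.pos
  have hl2 : 0 < Real.log 2 := Real.log_pos (by norm_num)
  have key : ∀ c : ℕ, ∀ a : ℕ, 8 * M = 2 ^ c * a → p ≤ a → Real.log p + c * Real.log 2 ≤ Real.log ((8 * M : ℕ) : ℝ) := by
    intro c a h1 h2
    rw [h1]
    push_cast
    have ha : (0 : ℝ) < a := lt_of_lt_of_le hp0 (by exact_mod_cast h2)
    rw [Real.log_mul (by positivity) (by positivity), Real.log_pow]
    have : Real.log p ≤ Real.log a := Real.log_le_log hp0 (by exact_mod_cast h2)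
    linarith
  by_cases h1 : p ≤ M
  · have := key 3 M (by ring) h1
    rw [if_pos (by omega), if_pos (by omega), if_pos h1]
    push_cast at this ⊢; linarith
  by_cases h2 : p ≤ 2 * M
  · have := key 2 (2 * M) (by ring) h2
    rw [if_pos (by omega), if_pos h2, if_neg h1]
    push_cast at this ⊢; linarith
  by_cases h3 : p ≤ 4 * M
  · have := key 1 (4 * M) (by ring) h3
    rw [if_pos h3, if_neg h2, if_neg h1]
    push_cast at this ⊢; linarith
  · have := key 0 (8 * M) (by ring) hp.1
    rw [if_neg h3, if_neg h2, if_neg h1]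
    push_cast at this ⊢; linarith

/-- comparison of `x / log x` with `x / L`, `L = log N`. -/
lemma comp_ge (N x : ℝ) (hN : 2 < N) (hx : N / 2 ≤ x) :
    x / Real.log x ≤ x / Real.log N
      + N * Real.exp (-1) / (Real.log N * (Real.log N - Real.log 2)) := by
  set L := Real.log N with hL
  set y := Real.log x with hy
  have hx0 : 0 < x := by linarith
  have hN0 : 0 < N := by linarith
  have hl2 : 0 < Real.log 2 := Real.log_pos (by norm_num)
  have hLl : 0 < L - Real.log 2 := by
    rw [hL, ← Real.log_div (by positivity) (by norm_num)]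
    exact Real.log_pos (by linarith)
  have hyl : L - Real.log 2 ≤ y := by
    rw [hL, ← Real.log_div (by positivity) (by norm_num)]
    exact Real.log_le_log (by positivity) hx
  have hL0 : 0 < L := by linarith
  have hy0 : 0 < y := by linarith
  have h1 : x * (L - y) ≤ N * Real.exp (-1) := by
    have e1 : x = Real.exp y := (Real.exp_log hx0).symm
    have e2 : N = Real.exp L := (Real.exp_log hN0).symm
    rw [e1, e2, ← Real.exp_add]
    have h := Real.add_one_le_exp (L - y - 1)
    calc Real.exp y * (L - y) ≤ Real.exp y * Real.exp (L - y - 1) :=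
          mul_le_mul_of_nonneg_left (by linarith) (Real.exp_pos _).le
      _ = Real.exp (L + -1) := by rw [← Real.exp_add]; congr 1; ring
  have h2 : x / y - x / L = x * (L - y) / (L * y) := by field_simp
  have h3 : x * (L - y) / (L * y) ≤ N * Real.exp (-1) / (L * y) :=
    div_le_div_of_nonneg_right h1 (by positivity)
  have h4 : N * Real.exp (-1) / (L * y) ≤ N * Real.exp (-1) / (L * (L - Real.log 2)) := by
    apply div_le_div_of_nonneg_left (by positivity) (by positivity)
    exact mul_le_mul_of_nonneg_left hyl hL0.le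
  linarith

/-- The key estimate. -/
lemma key (C : ℝ) (K : ℕ) : ∃ N : ℕ, 2 * K ≤ N ∧ 4 ≤ N ∧
    0.69 * (N : ℝ) ≤ Chebyshev.theta (N : ℝ) ∧
    (Chebyshev.theta (N : ℝ) + Real.log 2) / Real.log (Chebyshev.theta (N : ℝ) + Real.log 2) + C
      ≤ (N.primeCounting : ℝ) := by
  have hA : ∀ᶠ m : ℕ in atTop, 0.69 * (m : ℝ) ≤ Chebyshev.theta (m : ℝ) := ev_theta
  obtain ⟨m0, hm0⟩ := eventually_atTop.1 hA
  have hB : ∀ᶠ x : ℝ in atTop, Real.log x ^ 2 ≤ 0.02 / (|C| + 1) * x := by
    have := (isLittleO_pow_log_id_atTop (n := 2)).bound (c := 0.02 / (|C| + 1)) (by positivity)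
    filter_upwards [this, eventually_ge_atTop 1] with x hx hx1
    rw [Real.norm_of_nonneg (by positivity), Real.norm_of_nonneg (by simp; linarith)] at hx
    simpa using hx
  have hB' := (tendsto_natCast_atTop_atTop (R := ℝ)).eventually hB
  obtain ⟨m1, hm1⟩ := eventually_atTop.1 hB'
  obtain ⟨M, hM⟩ : ∃ M : ℕ, m0 + m1 + 2 * K + 1000000000000 ≤ M := ⟨_, le_rfl⟩
  refine ⟨8 * M, by omega, by omega, hm0 _ (by omega), ?_⟩
  have hMr : (10 : ℝ) ^ 12 ≤ (M : ℝ) := by
    have : 1000000000000 ≤ M := by omega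
    have h2 : ((1000000000000 : ℕ) : ℝ) ≤ (M : ℝ) := by exact_mod_cast this
    norm_num at h2 ⊢; exact h2
  set N : ℕ := 8 * M with hN
  have hNr : (N : ℝ) = 8 * M := by rw [hN]; push_cast; ring
  have hN0 : (0 : ℝ) < N := by rw [hNr]; linarith
  set L := Real.log (N : ℝ) with hL
  set T := Chebyshev.theta (N : ℝ) with hT
  have hTge : 0.69 * (N : ℝ) ≤ T := hm0 _ (by omega)
  have hLbig : 14 ≤ L := by
    rw [hL, Real.le_log_iff_exp_le hN0]
    have h1 : Real.exp 14 = Real.exp 1 ^ 14 := by rw [← Real.exp_nat_mul]; norm_num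
    rw [h1]
    have h2 : Real.exp 1 ^ 14 ≤ 3 ^ 14 := pow_le_pow_left₀ (Real.exp_pos _).le (by linarith [Real.exp_one_lt_d9]) _
    have h3 : (3 : ℝ) ^ 14 ≤ N := by rw [hNr]; norm_num; linarith
    linarith
  have hLsq : L ^ 2 ≤ 0.02 / (|C| + 1) * N := hm1 _ (by omega)
  have hl2a := Real.log_two_gt_d9
  have hl2b := Real.log_two_lt_d9
  have hpc : ∀ m : ℕ, m0 ≤ m → m ≤ N → 0 < m → 0.69 * (m : ℝ) / L ≤ (m.primeCounting : ℝ) := by
    intro m h1 h2 h3
    rw [div_le_iff₀ (by linarith)]
    have h4 := hm0 m h1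
    have h5 := Chebyshev.theta_le_pi_mul_log m
    have h6 : Real.log m ≤ L := Real.log_le_log (by exact_mod_cast h3) (by exact_mod_cast h2)
    have h7 : (0 : ℝ) ≤ (m.primeCounting : ℝ) := by positivity
    have h8 := mul_le_mul_of_nonneg_left h6 h7
    linarith
  have hc := count_ge M (by omega)
  rw [← hN, ← hL, ← hT] at hc
  have hp4 := hpc (4 * M) (by omega) (by omega) (by omega)
  have hp2 := hpc (2 * M) (by omega) (by omega) (by omega)
  have hp1 := hpc M (by omega) (by omega) (by omega)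
  have hL0 : 0 < L := by linarith
  have hsum : 0.60375 * (N : ℝ) / L ≤ (((4 * M).primeCounting : ℝ) + ((2 * M).primeCounting : ℝ) + ((M).primeCounting : ℝ)) := by
    have : 0.60375 * (N : ℝ) / L = 0.69 * ((4 * M : ℕ) : ℝ) / L + 0.69 * ((2 * M : ℕ) : ℝ) / L + 0.69 * (M : ℝ) / L := by
      rw [hNr]; push_cast; field_simp; ring
    rw [this]; linarith
  have h10 : T + 0.41 * (N : ℝ) / L ≤ (N.primeCounting : ℝ) * L := by
    have h11 : 0.41 * (N : ℝ) / L ≤ Real.log 2 * (0.60375 * (N : ℝ) / L) := by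
      rw [← mul_div_assoc]
      apply div_le_div_of_nonneg_right _ hL0.le
      nlinarith
    have h12 := mul_le_mul_of_nonneg_left hsum (by linarith : 0 ≤ Real.log 2)
    linarith
  have h13 : (T + Real.log 2) / L + 0.41 * (N : ℝ) / L ^ 2 - Real.log 2 / L ≤ (N.primeCounting : ℝ) := by
    have : (T + Real.log 2) / L + 0.41 * (N : ℝ) / L ^ 2 - Real.log 2 / L = (T + 0.41 * (N : ℝ) / L) / L := by
      field_simp; ring
    rw [this, div_le_iff₀ hL0]
    exact h10
  have h14 := comp_ge N (T + Real.log 2) (by rw [hNr]; linarith) (by linarith)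
  rw [← hL] at h14
  have he : Real.exp (-1) ≤ 0.368 := by
    rw [Real.exp_neg]
    have := Real.exp_one_gt_d9
    rw [inv_le_comm₀ (Real.exp_pos _) (by norm_num)]
    norm_num; linarith
  have h15 : (N : ℝ) * Real.exp (-1) / (L * (L - Real.log 2)) ≤ 0.39 * (N : ℝ) / L ^ 2 := by
    have h16 : 0.95 * L ≤ L - Real.log 2 := by linarith
    have h17 : (N : ℝ) * Real.exp (-1) / (L * (L - Real.log 2)) ≤ (N : ℝ) * 0.368 / (L * (0.95 * L)) := by
      apply div_le_div₀ (by positivity) (mul_le_mul_of_nonneg_left he hN0.le) (by positivity)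
      exact mul_le_mul_of_nonneg_left h16 hL0.le
    refine h17.trans ?_
    rw [div_le_div_iff₀ (by positivity) (by positivity)]
    have : 0 < (N : ℝ) * L ^ 2 := by positivity
    nlinarith
  have h18 : |C| + 1 ≤ 0.02 * (N : ℝ) / L ^ 2 := by
    rw [le_div_iff₀ (by positivity)]
    have h19 : 0 < |C| + 1 := by positivity
    have h20 := mul_le_mul_of_nonneg_left hLsq h19.le
    have h21 : (|C| + 1) * (0.02 / (|C| + 1) * (N : ℝ)) = 0.02 * N := by field_simp
    linarith
  have h22 : Real.log 2 / L ≤ 1 := by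
    rw [div_le_one hL0]; linarith
  have h23 : 0.41 * (N : ℝ) / L ^ 2 = 0.39 * (N : ℝ) / L ^ 2 + 0.02 * (N : ℝ) / L ^ 2 := by
    field_simp; norm_num
  have h24 := le_abs_self C
  linarith

lemma log_div_mono {a b : ℝ} (ha : Real.exp (Real.exp 1) ≤ a) (hab : a ≤ b) :
    Real.log a / Real.log (Real.log a) ≤ Real.log b / Real.log (Real.log b) := by
  have ha0 : 0 < a := lt_of_lt_of_le (Real.exp_pos _) ha
  have h1 : Real.exp 1 ≤ Real.log a := by rwa [Real.le_log_iff_exp_le ha0]
  have h2 : Real.log a ≤ Real.log b := Real.log_le_log ha0 hab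
  have h3 := Real.log_div_self_antitoneOn (show Real.log a ∈ Set.Ici (Real.exp 1) from h1)
    (show Real.log b ∈ Set.Ici (Real.exp 1) from h1.trans h2) h2
  simp only at h3
  have he : (1 : ℝ) < Real.exp 1 := by linarith [Real.exp_one_gt_d9]
  have h4 : 0 < Real.log (Real.log b) := Real.log_pos (by linarith)
  have h5 : 0 < Real.log b := by linarith
  have h6 : 0 < Real.log (Real.log a) := Real.log_pos (by linarith)
  have h7 : 0 < Real.log a := by linarith
  rw [div_le_div_iff₀ h5 h7] at h3
  rw [div_le_div_iff₀ h6 h4]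
  linarith

end aux

/-- For every constant C and threshold K, only finitely many n satisfy: for all k with K ≤ k < n, the number of distinct prime factors of n−k is less than log k / log log k + C. -/
theorem result :
    ∀ C : ℝ, ∀ K : ℕ,
      Set.Finite {n : ℕ | ∀ k : ℕ, K ≤ k → k < n →
        (((n - k).primeFactors.card : ℕ) : ℝ) <
          Real.log (k : ℝ) / Real.log (Real.log (k : ℝ)) + C} := by
  intro C K
  obtain ⟨N, hN1, hN2, hN3, hN4⟩ := key C (K + 100)
  set P := primorial N with hP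
  have hP0 : 0 < P := primorial_pos N
  have hPr : (0 : ℝ) < P := by exact_mod_cast hP0
  have hth : Chebyshev.theta (N : ℝ) = Real.log P := by
    rw [Chebyshev.theta_eq_log_primorial, Nat.floor_natCast]
  rw [hth] at hN3 hN4
  have hPbig : (K : ℝ) + 100 ≤ P := by
    have h1 : 0.69 * (N : ℝ) + 1 ≤ P := by
      have := Real.add_one_le_exp (Real.log P)
      rw [Real.exp_log hPr] at this
      linarith
    have h2 : 2 * ((K : ℝ) + 100) ≤ N := by exact_mod_cast hN1
    linarith
  apply Set.Finite.subset (Set.finite_lt_nat (K + 100 + P))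
  intro n hn
  simp only [Set.mem_ofPred_eq] at hn ⊢
  by_contra hcon
  push Not at hcon
  have hmod : (n - (K + 100)) % P < P := Nat.mod_lt _ hP0
  have hdm := Nat.div_add_mod (n - (K + 100)) P
  set k := (K + 100) + (n - (K + 100)) % P with hk
  have hkn : k < n := by omega
  have hnk : n - k = P * ((n - (K + 100)) / P) := by omega
  have hlt := hn k (by omega) hkn
  have hcard : N.primeCounting ≤ (n - k).primeFactors.card := by
    rw [← Nat.primesLE_card_eq_primeCounting, ← primeFactors_primorial, ← hP]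
    apply Finset.card_le_card
    apply Nat.primeFactors_mono _ (by omega)
    rw [hnk]
    exact dvd_mul_right _ _
  have hcard' : (N.primeCounting : ℝ) ≤ ((n - k).primeFactors.card : ℝ) := by exact_mod_cast hcard
  have hk2P : (k : ℝ) ≤ 2 * P := by
    have : k < K + 100 + P := by omega
    have h2 : (k : ℝ) < (K : ℝ) + 100 + P := by exact_mod_cast this
    linarith
  have hk100 : (100 : ℝ) ≤ k := by
    have : 100 ≤ k := by omega
    exact_mod_cast this
  have hee : Real.exp (Real.exp 1) ≤ k := by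
    have h1 : Real.exp (Real.exp 1) ≤ Real.exp 3 := Real.exp_le_exp.2 (by linarith [Real.exp_one_lt_d9])
    have h2 : Real.exp 3 = Real.exp 1 ^ 3 := by rw [← Real.exp_nat_mul]; norm_num
    have h3 : Real.exp 1 ^ 3 ≤ 3 ^ 3 := pow_le_pow_left₀ (Real.exp_pos _).le (by linarith [Real.exp_one_lt_d9]) _
    rw [h2] at h1
    norm_num at h3
    linarith
  have hmono := log_div_mono hee hk2P
  have h2P : Real.log (2 * (P : ℝ)) = Real.log P + Real.log 2 := by
    rw [Real.log_mul (by norm_num) (by positivity)]; ring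
  rw [h2P] at hmono
  linarith

end Pool.Agent.S4755
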