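import Pool.Statements.S4860
import Pool.Agent.H24.GC3

set_option autoImplicit false
open N435e839e
open Pool Pool.MP_8f0c89_nt

namespace Pool.Agent.S4860

/-- The negation of the preceding statement: The sum of 1/a over greedy-selected a (a0=0, a1=1, each next a coprime-shifted: gcd(n-a, n-b)=1 for all earlier b incl. 0) with 0<a<n and some prime p≤a dividing n-a tends to +∞ as n→∞. -/
theorem result :
    ¬ (Filter.Tendsto (properSum true) Filter.atTop Filter.atTop) := by
  exact Pool.Agent.H24.GC.main

end Pool.Agent.S4860
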