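import Pool.Statements.S4930
import Pool.Agent.H28.Gal.Main

set_option autoImplicit false
open Pool Pool.MP_9cc257_nt

namespace Pool.Agent.S4930

/-- The negation of the preceding statement: For every B there is N such that if n ≥ N and α is algebraic with Q(α) Galois over Q with group S_n, then the Weil height of α, log Mahler measure of its primitive integer minimal polynomial divided by its degree, exceeds B. -/
theorem result :
    ¬ (∀ B : ℝ, ∃ N : ℕ, ∀ n : ℕ, N ≤ n → ∀ α : ℂ, ∀ p : Polynomial ℤ,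
      Irreducible p → Polynomial.aeval α p = 0 →
      IsGalois ℚ (IntermediateField.adjoin ℚ ({α} : Set ℂ)) →
      Nonempty (((IntermediateField.adjoin ℚ ({α} : Set ℂ)) ≃ₐ[ℚ]
          (IntermediateField.adjoin ℚ ({α} : Set ℂ))) ≃* Equiv.Perm (Fin n)) →
      B < Real.log (Polynomial.mahlerMeasure (p.map (Int.castRingHom ℂ))) / (p.natDegree : ℝ)) := by
  intro h
  obtain ⟨N, hN⟩ := h (Real.log 6 + 15 * Real.log 3 + 1)
  obtain ⟨n, m, hn, hp, h3, hm, hmn, hnm⟩ := H28.Gal.exists_n N
  obtain ⟨α, p, h1, h2, h4, h5, h6⟩ := H28.Gal.main n hp h3 m hm hmn hnm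
  exact absurd (hN n hn α p h1 h2 h4 h5) (not_lt.mpr h6)

end Pool.Agent.S4930
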