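import Pool.Statements.S5399
import Pool.Agent.S5399Aux.Jacobsthal

set_option autoImplicit false
open Pool Pool.MP_e7cd8d_nt

namespace Pool.Agent.S5399

/-- There is c0 such that for every c at least c0: every maximal pairwise coprime set of integers in (m, m + floor((log m)^c)] has size tending to infinity as m grows. -/
theorem result :
    ∃ c₀ : ℝ, ∀ c : ℝ, c₀ ≤ c → ∀ N : ℕ, ∃ M : ℕ, ∀ m : ℕ, M ≤ m →
      ∀ A : Finset ℕ,
        A ⊆ Finset.Ioc m (m + ⌊(Real.log (m : ℝ)) ^ c⌋₊) →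
        (A : Set ℕ).Pairwise Nat.Coprime →
        (∀ n ∈ Finset.Ioc m (m + ⌊(Real.log (m : ℝ)) ^ c⌋₊),
            n ∉ A → ∃ a ∈ A, ¬ Nat.Coprime a n) →
        N ≤ A.card := by
  obtain ⟨C, K, hJ⟩ := Pool.Agent.S5399Aux.jacobsthal
  refine ⟨C + 1, ?_⟩
  intro c hc N
  -- eventually facts
  have e1 : ∀ᶠ x : ℝ in Filter.atTop, Real.log x ^ c ≤ x := by
    have h := (isLittleO_log_rpow_rpow_atTop c (show (0 : ℝ) < 1 by norm_num)).bound
      (show (0 : ℝ) < 1 by norm_num)
    filter_upwards [h, Filter.eventually_gt_atTop 0] with x hx hx0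
    rw [one_mul, Real.rpow_one, Real.norm_of_nonneg hx0.le] at hx
    exact (le_abs_self _).trans hx
  have e2 : ∀ᶠ x : ℝ in Filter.atTop, (K : ℝ) * (3 * N + 1) ^ C + 1 ≤ Real.log x :=
    Real.tendsto_log_atTop.eventually_ge_atTop _
  have e3 := tendsto_natCast_atTop_atTop.eventually (e1.and e2)
  obtain ⟨M, hM⟩ := Filter.eventually_atTop.1 e3
  refine ⟨max M 3, ?_⟩
  intro m hm A hA _ hmax
  obtain ⟨h1, h2⟩ := hM m ((le_max_left _ _).trans hm)
  have hm3 : 3 ≤ m := (le_max_right _ _).trans hm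
  by_contra hcon
  push Not at hcon
  set k := ⌊(Real.log (m : ℝ)) ^ c⌋₊ with hk
  have hmr : (3 : ℝ) ≤ m := by exact_mod_cast hm3
  have hK0 : (0 : ℝ) ≤ (K : ℝ) * (3 * N + 1) ^ C := by positivity
  have hlog1 : 1 ≤ Real.log m := by linarith
  have hkm : k ≤ m := by
    rw [hk]
    apply Nat.floor_le_of_le
    exact h1
  let P : Finset ℕ := A.biUnion Nat.primeFactors
  have hP : ∀ p ∈ P, p.Prime := by
    intro p hp
    obtain ⟨a, _, hpa⟩ := Finset.mem_biUnion.1 hp
    exact Nat.prime_of_mem_primeFactors hpa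
  have hlog2 : (0.6931 : ℝ) < Real.log 2 := by
    have := Real.log_two_gt_d9
    linarith
  have hlog2' : Real.log 2 < 0.7 := by
    have := Real.log_two_lt_d9
    linarith
  have hPcard : (P.card : ℝ) ≤ 3 * N * Real.log m := by
    have h3 : (P.card : ℝ) ≤ ∑ a ∈ A, (a.primeFactors.card : ℝ) := by
      exact_mod_cast Finset.card_biUnion_le
    have h4 : ∀ a ∈ A, (a.primeFactors.card : ℝ) ≤ 3 * Real.log m := by
      intro a ha
      have ha' := Finset.mem_Ioc.1 (hA ha)
      have ha0 : a ≠ 0 := by omega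
      have h5 := Pool.Agent.S5399Aux.card_primeFactors_le a ha0
      have h6 : (a : ℝ) ≤ 2 * m := by
        have : a ≤ 2 * m := by omega
        exact_mod_cast this
      have h7 : Real.log a ≤ Real.log 2 + Real.log m := by
        rw [← Real.log_mul (by norm_num) (by linarith)]
        apply Real.log_le_log _ h6
        have : 0 < a := by omega
        exact_mod_cast this
      have h8 : (0 : ℝ) ≤ a.primeFactors.card := Nat.cast_nonneg _
      nlinarith
    have h9 : ∑ a ∈ A, (a.primeFactors.card : ℝ) ≤ A.card * (3 * Real.log m) := by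
      calc ∑ a ∈ A, (a.primeFactors.card : ℝ) ≤ ∑ a ∈ A, 3 * Real.log m := Finset.sum_le_sum h4
        _ = _ := by rw [Finset.sum_const, nsmul_eq_mul]
    have h10 : (A.card : ℝ) ≤ N := by exact_mod_cast hcon.le
    have h11 : (A.card : ℝ) * (3 * Real.log m) ≤ N * (3 * Real.log m) :=
      mul_le_mul_of_nonneg_right h10 (by linarith)
    linarith
  have hsize : K * (P.card + 1) ^ C ≤ k := by
    rw [hk]
    apply Nat.le_floor
    push_cast
    have h3 : (P.card : ℝ) + 1 ≤ (3 * N + 1) * Real.log m := by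
      nlinarith
    have h4 : ((P.card : ℝ) + 1) ^ C ≤ ((3 * N + 1) * Real.log m) ^ C :=
      pow_le_pow_left₀ (by positivity) h3 C
    have h5 : Real.log m ^ ((C : ℝ) + 1) ≤ Real.log m ^ c :=
      Real.rpow_le_rpow_of_exponent_le hlog1 hc
    have h6 : Real.log m ^ ((C : ℝ) + 1) = Real.log m ^ C * Real.log m := by
      rw [Real.rpow_add (by linarith), Real.rpow_natCast, Real.rpow_one]
    have h7 : 0 ≤ Real.log m ^ C := by positivity
    calc (K : ℝ) * ((P.card : ℝ) + 1) ^ C ≤ K * ((3 * N + 1) * Real.log m) ^ C :=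
          mul_le_mul_of_nonneg_left h4 (Nat.cast_nonneg _)
      _ = (K * (3 * N + 1) ^ C) * Real.log m ^ C := by rw [mul_pow]; ring
      _ ≤ Real.log m * Real.log m ^ C := mul_le_mul_of_nonneg_right (by linarith) h7
      _ = Real.log m ^ ((C : ℝ) + 1) := by rw [h6]; ring
      _ ≤ _ := h5
  obtain ⟨s, hs, hsP⟩ := hJ P hP (m + 1) k hsize
  rw [Finset.mem_range] at hs
  have hnmem : m + 1 + s ∈ Finset.Ioc m (m + k) := by
    rw [Finset.mem_Ioc]; omega
  by_cases hnA : m + 1 + s ∈ A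
  · have hne : m + 1 + s ≠ 1 := by omega
    have hp := Nat.minFac_prime hne
    apply hsP _ _ (Nat.minFac_dvd (m + 1 + s))
    exact Finset.mem_biUnion.2 ⟨_, hnA, Nat.mem_primeFactors.2 ⟨hp, Nat.minFac_dvd _, by omega⟩⟩
  · obtain ⟨a, ha, hnc⟩ := hmax _ hnmem hnA
    obtain ⟨p, hp, hpa, hpn⟩ := Nat.Prime.not_coprime_iff_dvd.1 hnc
    apply hsP p _ hpn
    have ha' := Finset.mem_Ioc.1 (hA ha)
    exact Finset.mem_biUnion.2 ⟨a, ha, Nat.mem_primeFactors.2 ⟨hp, hpa, by omega⟩⟩

end Pool.Agent.S5399
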