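import Pool.Statements.S5608
-- import your own Pool.Agent.* helpers here

set_option autoImplicit false
open MeasureTheory ProbabilityTheory
open Pool Pool.MP_1c00b2_pr

namespace Pool.Agent.S5608

/-- service law on `Bool`: `true` is the long service -/
noncomputable def sg : Measure Bool :=
  (9 / 10 : ENNReal) • Measure.dirac false + (1 / 10 : ENNReal) • Measure.dirac true

lemma ten : (9 / 10 : ENNReal) + 1 / 10 = 1 := by
  rw [ENNReal.div_add_div_same, show (9 : ENNReal) + 1 = 10 by norm_num,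
    ENNReal.div_self (by norm_num) (by norm_num)]

instance sgProb : IsProbabilityMeasure sg := ⟨by
  unfold sg
  simp only [Measure.add_apply, Measure.smul_apply, measure_univ, smul_eq_mul, mul_one]
  exact ten⟩

lemma sg_true : sg {true} = 1 / 10 := by
  unfold sg
  simp [Measure.add_apply, Measure.smul_apply]

lemma sg_false : sg {false} = 9 / 10 := by
  unfold sg
  simp [Measure.add_apply, Measure.smul_apply]

lemma int_sg (f : Bool → ℝ) : ∫ b, f b ∂sg = 9 / 10 * f false + 1 / 10 * f true := by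
  have h : ∀ m : Measure Bool, IsFiniteMeasure m → Integrable f m := by
    intro m hm
    exact Integrable.of_finite
  unfold sg
  rw [integral_add_measure, integral_smul_measure, integral_smul_measure, integral_dirac,
    integral_dirac]
  · simp
  · exact (h _ inferInstance).smul_measure (ENNReal.div_lt_top (by simp) (by simp)).ne
  · exact (h _ inferInstance).smul_measure (ENNReal.div_lt_top (by simp) (by simp)).ne

/-- the probability measure -/
noncomputable def P : Measure (ℕ → Bool) := Measure.infinitePi (fun _ => sg)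

instance PProb : IsProbabilityMeasure P := by unfold P; infer_instance

/-- service time (times 4) -/
def s (b : Bool) : ℤ := if b then 9 else 7

/-- service times -/
noncomputable def S (n : ℕ) (ω : ℕ → Bool) : ℝ := (s (ω n) : ℤ)

/-- one step for the integer workloads -/
def st (w : ℤ × ℤ) (b : Bool) : ℤ × ℤ :=
  if w.1 ≤ w.2 then (max 0 (w.1 + s b - 4), max 0 (w.2 - 4))
    else (max 0 (w.1 - 4), max 0 (w.2 + s b - 4))

/-- integer workloads -/
def v : ℕ → (ℕ → Bool) → ℤ × ℤ
  | 0, _ => (0, 0)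
  | n + 1, ω => st (v n ω) (ω n)

/-- workloads -/
noncomputable def V (n : ℕ) (ω : ℕ → Bool) (i : Fin 2) : ℝ :=
  if i = 0 then ((v n ω).1 : ℝ) else ((v n ω).2 : ℝ)

lemma V_step (n : ℕ) (ω : ℕ → Bool) : ∃ j : Fin 2, (∀ i, V n ω j ≤ V n ω i) ∧
    ∀ i, V (n + 1) ω i = max 0 (V n ω i + (if i = j then S n ω else 0) - 4) := by
  by_cases h : (v n ω).1 ≤ (v n ω).2
  · refine ⟨0, ?_, ?_⟩
    · intro i
      fin_cases i
      · exact le_refl _
      · simp only [V]; simpa using (by exact_mod_cast h : ((v n ω).1 : ℝ) ≤ ((v n ω).2 : ℝ))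
    · intro i
      fin_cases i
      · simp only [V, v, st, if_pos h, S]; simp
      · simp only [V, v, st, if_pos h, S]; simp
  · push Not at h
    refine ⟨1, ?_, ?_⟩
    · intro i
      fin_cases i
      · simp only [V]; simpa using (by exact_mod_cast h.le : ((v n ω).2 : ℝ) ≤ ((v n ω).1 : ℝ))
      · exact le_refl _
    · intro i
      fin_cases i
      · simp only [V, v, st, if_neg (not_le.2 h), S]; simp
      · simp only [V, v, st, if_neg (not_le.2 h), S]; simp

lemma key_dec : ∀ a0 a1 a2 a3 a4 a5 : Bool,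
    (if a4 = true then (1 : ℤ) else 0) + (if a4 = true ∧ a2 = true then 1 else 0) +
      (if a4 = false ∧ a2 = true ∧ a0 = true then 1 else 0) ≤
      min (st (st (st (st (st (st (0, 0) a0) a1) a2) a3) a4) a5).1
        (st (st (st (st (st (st (0, 0) a0) a1) a2) a3) a4) a5).2 := by
  decide

lemma key_int (ω : ℕ → Bool) :
    (if ω 4 = true then (1 : ℤ) else 0) + (if ω 4 = true ∧ ω 2 = true then 1 else 0) +
      (if ω 4 = false ∧ ω 2 = true ∧ ω 0 = true then 1 else 0) ≤
      min (v 6 ω).1 (v 6 ω).2 :=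
  key_dec (ω 0) (ω 1) (ω 2) (ω 3) (ω 4) (ω 5)

lemma cyl {t : ℕ → Set Bool} (u : Finset ℕ) :
    P (Set.pi (u : Set ℕ) t) = ∏ i ∈ u, sg (t i) := by
  unfold P
  rw [Measure.infinitePi_pi]
  intro i _
  exact MeasurableSet.of_discrete

lemma S_meas (n : ℕ) : Measurable (S n) := by
  have h : Measurable (fun b : Bool => ((s b : ℤ) : ℝ)) := measurable_of_countable _
  exact h.comp (measurable_pi_apply n)

lemma int_S (f : ℝ → ℝ) (n : ℕ) : ∫ ω, f (S n ω) ∂P = 9 / 10 * f 7 + 1 / 10 * f 9 := by
  have h1 : MeasurePreserving (Function.eval n) P sg := by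
    unfold P; exact measurePreserving_eval_infinitePi (fun _ => sg) n
  have h2 : ∫ ω, f (S n ω) ∂P = ∫ b, f ((s b : ℤ) : ℝ) ∂sg := by
    rw [← h1.map_eq, integral_map h1.measurable.aemeasurable]
    · rfl
    · exact (measurable_of_countable _).aestronglyMeasurable
  rw [h2, int_sg]
  simp [s]

lemma ident (n : ℕ) : IdentDistrib (S n) (S 0) P P := by
  have h1 : ∀ n, MeasurePreserving (Function.eval n) P sg := fun n => by
    unfold P; exact measurePreserving_eval_infinitePi (fun _ => sg) n
  have hm : Measurable (fun b : Bool => ((s b : ℤ) : ℝ)) := measurable_of_countable _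
  have h2 : ∀ n, P.map (S n) = sg.map (fun b : Bool => ((s b : ℤ) : ℝ)) := by
    intro n
    rw [← (h1 n).map_eq, Measure.map_map hm (h1 n).measurable]
    rfl
  exact ⟨(S_meas n).aemeasurable, (S_meas 0).aemeasurable, by rw [h2, h2]⟩

lemma P_A1 : P {ω | ω 4 = true} = 1 / 10 := by
  have h := cyl (t := fun _ => {true}) {4}
  have h2 : Set.pi ((({4} : Finset ℕ)) : Set ℕ) (fun _ => ({true} : Set Bool)) = {ω | ω 4 = true} := by
    ext ω; simp
  rw [h2] at h
  rw [h, Finset.prod_singleton, sg_true]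

lemma P_A2 : P {ω | ω 4 = true ∧ ω 2 = true} = 1 / 10 * (1 / 10) := by
  have h := cyl (t := fun _ => {true}) {4, 2}
  have h2 : Set.pi ((({4, 2} : Finset ℕ)) : Set ℕ) (fun _ => ({true} : Set Bool)) =
      {ω | ω 4 = true ∧ ω 2 = true} := by
    ext ω; simp
  rw [h2] at h
  rw [h, Finset.prod_pair (by norm_num), sg_true]

lemma P_A3 : P {ω | ω 4 = false ∧ ω 2 = true ∧ ω 0 = true} = 9 / 10 * (1 / 10 * (1 / 10)) := by
  have h := cyl (t := fun i => if i = 4 then {false} else {true}) {4, 2, 0}
  have h2 : Set.pi ((({4, 2, 0} : Finset ℕ)) : Set ℕ)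
      (fun i => (if i = 4 then {false} else {true} : Set Bool)) =
      {ω | ω 4 = false ∧ ω 2 = true ∧ ω 0 = true} := by
    ext ω; simp
  rw [h2] at h
  rw [h, Finset.prod_insert (by norm_num), Finset.prod_pair (by norm_num)]
  simp [sg_true, sg_false]

lemma lower : ENNReal.ofReal (119 / 1000) ≤ ∫⁻ ω, ENNReal.ofReal (⨅ i, V 6 ω i) ∂P := by
  set A1 : Set (ℕ → Bool) := {ω | ω 4 = true} with hA1
  set A2 : Set (ℕ → Bool) := {ω | ω 4 = true ∧ ω 2 = true} with hA2
  set A3 : Set (ℕ → Bool) := {ω | ω 4 = false ∧ ω 2 = true ∧ ω 0 = true} with hA3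
  have hm : ∀ (n : ℕ) (b : Bool), MeasurableSet {ω : ℕ → Bool | ω n = b} := fun n b => by
    have h0 : Measurable (fun ω : ℕ → Bool => ω n) := measurable_pi_apply n
    exact h0 (measurableSet_singleton b)
  have m1 : MeasurableSet A1 := hm 4 true
  have m2 : MeasurableSet A2 := (hm 4 true).inter (hm 2 true)
  have m3 : MeasurableSet A3 := (hm 4 false).inter ((hm 2 true).inter (hm 0 true))
  have hpt : ∀ ω, A1.indicator (1 : (ℕ → Bool) → ENNReal) ω + A2.indicator 1 ω + A3.indicator 1 ω ≤
      ENNReal.ofReal (⨅ i, V 6 ω i) := by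
    intro ω
    have h1 : A1.indicator (1 : (ℕ → Bool) → ENNReal) ω + A2.indicator 1 ω + A3.indicator 1 ω =
        ENNReal.ofReal ((((if ω 4 = true then (1 : ℤ) else 0) +
          (if ω 4 = true ∧ ω 2 = true then 1 else 0) +
          (if ω 4 = false ∧ ω 2 = true ∧ ω 0 = true then 1 else 0) : ℤ)) : ℝ) := by
      push_cast
      rw [ENNReal.ofReal_add (by split_ifs <;> norm_num) (by split_ifs <;> norm_num),
        ENNReal.ofReal_add (by split_ifs <;> norm_num) (by split_ifs <;> norm_num)]
      congr 1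
      · congr 1
        · by_cases h : ω 4 = true
          · rw [if_pos h, Set.indicator_of_mem (show ω ∈ A1 from h)]; simp
          · rw [if_neg h, Set.indicator_of_notMem (show ω ∉ A1 from h)]; simp
        · by_cases h : ω 4 = true ∧ ω 2 = true
          · rw [if_pos h, Set.indicator_of_mem (show ω ∈ A2 from h)]; simp
          · rw [if_neg h, Set.indicator_of_notMem (show ω ∉ A2 from h)]; simp
      · by_cases h : ω 4 = false ∧ ω 2 = true ∧ ω 0 = true
        · rw [if_pos h, Set.indicator_of_mem (show ω ∈ A3 from h)]; simp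
        · rw [if_neg h, Set.indicator_of_notMem (show ω ∉ A3 from h)]; simp
    rw [h1]
    apply ENNReal.ofReal_le_ofReal
    apply le_ciInf
    intro i
    have hk := key_int ω
    have hk1 := hk.trans (min_le_left _ _)
    have hk2 := hk.trans (min_le_right _ _)
    fin_cases i
    · simp only [V]; exact_mod_cast hk1
    · simp only [V]; exact_mod_cast hk2
  calc ENNReal.ofReal (119 / 1000) = P A1 + P A2 + P A3 := by
        rw [hA1, hA2, hA3, P_A1, P_A2, P_A3]
        have e1 : (1 / 10 : ENNReal) = ENNReal.ofReal (1 / 10) := by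
          rw [ENNReal.ofReal_div_of_pos (by norm_num)]; simp
        have e9 : (9 / 10 : ENNReal) = ENNReal.ofReal (9 / 10) := by
          rw [ENNReal.ofReal_div_of_pos (by norm_num)]; simp
        rw [e1, e9, ← ENNReal.ofReal_mul (by norm_num), ← ENNReal.ofReal_mul (by norm_num),
          ← ENNReal.ofReal_add (by norm_num) (by norm_num),
          ← ENNReal.ofReal_add (by norm_num) (by norm_num)]
        norm_num
    _ = ∫⁻ ω, (A1.indicator (1 : (ℕ → Bool) → ENNReal) ω + A2.indicator 1 ω + A3.indicator 1 ω) ∂P := by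
        rw [lintegral_add_right _ (measurable_one.indicator m3),
          lintegral_add_right _ (measurable_one.indicator m2),
          lintegral_indicator_one m1, lintegral_indicator_one m2, lintegral_indicator_one m3]
    _ ≤ _ := lintegral_mono hpt

/-- The negation of the preceding statement: In a FIFO k-server queue with i.i.d. nonnegative interarrival and service times of finite variance and ρ=ES/(kET)<1, started empty, every customer's mean wait is at most (ρ(2−ρ)varT+varS/k²)/(2(1−ρ)ET). -/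
theorem result :
    ¬ (∀ (Ω : Type) [MeasurableSpace Ω] (μ : Measure Ω) [IsProbabilityMeasure μ]
    (k : ℕ) (T S : ℕ → Ω → ℝ) (V : ℕ → Ω → Fin k → ℝ) (ρ : ℝ),
    0 < k →
    (∀ n, Measurable (T n)) → (∀ n, Measurable (S n)) →
    iIndepFun (fun n ω => (T n ω, S n ω)) μ →
    (∀ n, IndepFun (T n) (S n) μ) →
    (∀ n, IdentDistrib (T n) (T 0) μ μ) →
    (∀ n, IdentDistrib (S n) (S 0) μ μ) →
    (∀ n ω, 0 ≤ T n ω) → (∀ n ω, 0 ≤ S n ω) →
    MemLp (T 0) 2 μ → MemLp (S 0) 2 μ →
    0 < ∫ ω, T 0 ω ∂μ →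
    ρ = (∫ ω, S 0 ω ∂μ) / ((k : ℝ) * ∫ ω, T 0 ω ∂μ) →
    ρ < 1 →
    (∀ ω i, V 0 ω i = 0) →
    (∀ n ω, ∃ j : Fin k, (∀ i, V n ω j ≤ V n ω i) ∧
        ∀ i, V (n + 1) ω i = max 0 (V n ω i + (if i = j then S n ω else 0) - T n ω)) →
    ∀ n, ∫⁻ ω, ENNReal.ofReal (⨅ i, V n ω i) ∂μ ≤
      ENNReal.ofReal ((ρ * (2 - ρ) * variance (T 0) μ + variance (S 0) μ / ((k : ℝ) ^ 2)) /
        (2 * (1 - ρ) * ∫ ω, T 0 ω ∂μ))) := by
  intro h
  have hS0 : ∀ n ω, 0 ≤ S n ω := by
    intro n ω; unfold S s; split_ifs <;> norm_num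
  have hSb : ∀ ω, ‖S 0 ω‖ ≤ 9 := by
    intro ω; unfold S s; split_ifs <;> norm_num
  have hindep : iIndepFun (fun n ω => ((4 : ℝ), S n ω)) P := by
    have hm : ∀ _ : ℕ, Measurable (fun b : Bool => ((4 : ℝ), ((s b : ℤ) : ℝ))) :=
      fun _ => measurable_of_countable _
    exact iIndepFun_infinitePi (P := fun _ : ℕ => sg)
      (X := fun _ b => ((4 : ℝ), ((s b : ℤ) : ℝ))) hm
  have hmean : ∫ ω, S 0 ω ∂P = 36 / 5 := by
    have := int_S (fun x => x) 0
    rw [this]; norm_num
  have hmemS : MemLp (S 0) 2 P := MemLp.of_bound (S_meas 0).aestronglyMeasurable 9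
    (Filter.Eventually.of_forall hSb)
  have hvarS : variance (S 0) P = 9 / 25 := by
    rw [variance_eq_integral (S_meas 0).aemeasurable, hmean]
    have := int_S (fun x => (x - 36 / 5) ^ 2) 0
    rw [this]; norm_num
  have hvarT : variance (fun _ : ℕ → Bool => (4 : ℝ)) P = 0 := by
    simp [variance_eq_integral]
  have hT : ∫ ω, (fun _ : ℕ → Bool => (4 : ℝ)) ω ∂P = 4 := by simp
  have := h (ℕ → Bool) P 2 (fun _ _ => 4) S V (9 / 10) (by norm_num) (fun _ => measurable_const)
    S_meas hindep (fun n => indepFun_const_left _ _) (fun n => IdentDistrib.refl (by fun_prop)) ident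
    (fun _ _ => by norm_num) hS0 (memLp_const _) hmemS (by rw [hT]; norm_num)
    (by rw [hT, hmean]; norm_num) (by norm_num) (fun ω i => by unfold V v; simp) V_step 6
  have h2 := lower.trans this
  rw [hvarT, hvarS, hT] at h2
  rw [ENNReal.ofReal_le_ofReal_iff (by norm_num)] at h2
  norm_num at h2

end Pool.Agent.S5608
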