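import Pool.Statements.S5657
import Pool.Agent.H23.RamE
import Pool.Agent.H23.RamA
import Pool.Agent.H23.RamB

set_option autoImplicit false
open Pool Pool.MP_542002_pr

namespace Pool.Agent.S5657

/-- Every infinite connected d-regular graph (d ≥ 3) whose return probabilities have limsup n-th root 2√(d−1)/d carries a bounded non-constant function equal at each vertex to the average of its neighbours. -/
theorem result :
    ∀ (V : Type) (G : SimpleGraph V) [G.LocallyFinite] (d : ℕ),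
      Infinite V → G.Connected → 3 ≤ d → G.IsRegularOfDegree d →
      (∀ v : V, Filter.limsup
          (fun n : ℕ =>
            ((Nat.card {p : G.Walk v v // p.length = n} : ℝ) / (d : ℝ) ^ n) ^ ((1 : ℝ) / (n : ℝ)))
          Filter.atTop = 2 * Real.sqrt ((d : ℝ) - 1) / (d : ℝ)) →
      ∃ f : V → ℝ, (∃ C : ℝ, ∀ v, |f v| ≤ C) ∧
        (∀ v, (d : ℝ) * f v = ∑ w ∈ G.neighborFinset v, f w) ∧
        ∃ x y, f x ≠ f y := by
  intro V G _ d hinf hconn hd hreg hlim
  classical
  obtain ⟨o⟩ : Nonempty V := hconn.nonempty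
  obtain ⟨ψ, hψ, hsup⟩ := Pool.Agent.H23.Ram.partB G d hconn hd hreg o (hlim o)
  have hq : (((d - 1 : ℕ) : ℕ) : ℝ) = (d : ℝ) - 1 := by
    rw [Nat.cast_sub (by omega)]; norm_num
  rw [← hq] at hsup
  have hcard := Pool.Agent.H23.Ram.card_nxt G d hreg
  -- an edge
  have hne : (G.neighborFinset o).Nonempty := by
    rw [← Finset.card_pos, SimpleGraph.card_neighborFinset_eq_degree, hreg]; omega
  obtain ⟨w, hw⟩ := hne
  rw [SimpleGraph.mem_neighborFinset] at hw
  have hedge : ∃ a : G.Dart, ψ a.fst ≤ ψ a.snd := by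
    rcases le_total (ψ o) (ψ w) with h | h
    · exact ⟨⟨(o, w), hw⟩, h⟩
    · exact ⟨⟨(w, o), hw.symm⟩, h⟩
  obtain ⟨a, ha⟩ := hedge
  obtain ⟨e0, c, hc, hgr⟩ := Pool.Agent.H23.Ram.growth G (d - 1) (by omega) hcard ψ hψ hsup a ha
  obtain ⟨F, ⟨C, hC⟩, hF, x, y, hxy⟩ :=
    Pool.Agent.H23.Ram.partA (d - 1) (by omega) (Pool.Agent.H23.Ram.nxt G) hcard e0 c hc hgr
  exact Pool.Agent.H23.Ram.dart_to_vertex G d hd hreg F C hC hF x y hxy

end Pool.Agent.S5657
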