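import Pool.Statements.S5678
import Pool.Agent.H1.PackC

set_option autoImplicit false
open Pool Pool.MP_65c29d_pr

namespace Pool.Agent.S5678

/-- The negation of the preceding statement: Every connected locally finite transient graph (positive capacity) has a connected transient subgraph that is exactly the tangency graph of a packing of balls in 3-space with disjoint interiors. -/
theorem result :
    ¬ (∀ (V : Type) (G : SimpleGraph V),
    G.Connected → (∀ v, (G.neighborSet v).Finite) →
    (∃ o : V, ∃ c : ℝ, 0 < c ∧ ∀ f : V → ℝ, (Function.support f).Finite → f o = 1 →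
        c ≤ ∑' p : {p : V × V // G.Adj p.1 p.2}, (f p.1.1 - f p.1.2) ^ 2) →
    ∃ H : G.Subgraph, H.coe.Connected ∧
      (∃ o : H.verts, ∃ c : ℝ, 0 < c ∧ ∀ f : H.verts → ℝ, (Function.support f).Finite → f o = 1 →
        c ≤ ∑' p : {p : H.verts × H.verts // H.coe.Adj p.1 p.2}, (f p.1.1 - f p.1.2) ^ 2) ∧
      ∃ (x : H.verts → EuclideanSpace ℝ (Fin 3)) (r : H.verts → ℝ),
        (∀ v, 0 < r v) ∧
        (∀ u v, u ≠ v → r u + r v ≤ dist (x u) (x v)) ∧
        (∀ u v, u ≠ v → (H.coe.Adj u v ↔ dist (x u) (x v) = r u + r v))) := by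
  intro hmain
  obtain ⟨H, _, ⟨o, c, hc, hcap⟩, x, r, hr, hd, ht⟩ := hmain Pack3.V Pack3.G Pack3.conn Pack3.locfin
    ⟨Pack3.o, 1, one_pos, Pack3.transient⟩
  exact Pack3.recur H x r hr hd ht o c hc hcap

end Pool.Agent.S5678
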