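import Pool.Statements.S5710
import Mathlib

set_option autoImplicit false
open Filter Topology
open Pool Pool.MP_8aef71_pr

namespace Pool.Agent.S5710

section General

variable {G : Type} [Group G] [Fintype G] [DecidableEq G]

/-- The `k`-fold convolution of `p`. -/
noncomputable def conv (p : G → ℝ) (k : ℕ) (g : G) : ℝ :=
  ∑ f ∈ (Finset.univ : Finset (Fin k → G)).filter (fun f => (List.ofFn f).prod = g), ∏ i, p (f i)

lemma conv_zero (p : G → ℝ) (g : G) : conv p 0 g = if 1 = g then 1 else 0 := by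
  unfold conv
  rw [Finset.sum_filter, Fintype.sum_unique]
  simp

lemma conv_succ (p : G → ℝ) (k : ℕ) (g : G) :
    conv p (k + 1) g = ∑ x, p x * conv p k (x⁻¹ * g) := by
  unfold conv
  rw [Finset.sum_filter]
  rw [← (Fin.consEquiv (fun _ : Fin (k+1) => G)).sum_comp, Fintype.sum_prod_type]
  apply Finset.sum_congr rfl
  intro x _
  rw [Finset.mul_sum, Finset.sum_filter]
  apply Finset.sum_congr rfl
  intro f _
  have e : (List.ofFn (Fin.cons x f : Fin (k + 1) → G)).prod = x * (List.ofFn f).prod := by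
    rw [List.ofFn_succ]
    simp
  have e2 : ∏ i, p ((Fin.cons x f : Fin (k + 1) → G) i) = p x * ∏ i, p (f i) := by
    rw [Fin.prod_univ_succ]
    simp
  change (if (List.ofFn (Fin.cons x f : Fin (k + 1) → G)).prod = g then
    ∏ i, p ((Fin.cons x f : Fin (k + 1) → G) i) else 0) = _
  rw [e, e2]
  have : (x * (List.ofFn f).prod = g) ↔ ((List.ofFn f).prod = x⁻¹ * g) := by
    constructor
    · intro h; rw [← h]; group
    · intro h; rw [h]; group
  simp only [this]

lemma conv_sum (p : G → ℝ) (hp : ∑ g, p g = 1) (k : ℕ) : ∑ g, conv p k g = 1 := by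
  induction k with
  | zero => simp [conv_zero]
  | succ k ih =>
    simp_rw [conv_succ]
    rw [Finset.sum_comm]
    have : ∀ x : G, ∑ g, p x * conv p k (x⁻¹ * g) = p x := by
      intro x
      have h := Equiv.sum_comp (Equiv.mulLeft x⁻¹) (fun g => conv p k g)
      simp only [Equiv.coe_mulLeft] at h
      rw [← Finset.mul_sum, h, ih, mul_one]
    rw [Finset.sum_congr rfl (fun x _ => this x), hp]

/-- Mixing with the uniform measure. -/
noncomputable def mixp (c : ℝ) (p : G → ℝ) (g : G) : ℝ :=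
  (1 - c) * p g + c * (1 / (Fintype.card G : ℝ))

lemma conv_mix (c : ℝ) (p : G → ℝ) (hp : ∑ g, p g = 1) (k : ℕ) (g : G) :
    conv (mixp c p) k g - 1 / (Fintype.card G : ℝ) =
      (1 - c) ^ k * (conv p k g - 1 / (Fintype.card G : ℝ)) := by
  have hcard : (Fintype.card G : ℝ) ≠ 0 := by
    exact_mod_cast Fintype.card_ne_zero
  induction k generalizing g with
  | zero => simp [conv_zero]
  | succ k ih =>
    rw [conv_succ, conv_succ]
    have h1 : ∀ x, conv (mixp c p) k (x⁻¹ * g) = 1 / (Fintype.card G : ℝ) +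
        (1 - c) ^ k * (conv p k (x⁻¹ * g) - 1 / (Fintype.card G : ℝ)) := by
      intro x
      have := ih (x⁻¹ * g)
      linarith
    have h2 : ∑ x, mixp c p x = 1 := by
      unfold mixp
      rw [Finset.sum_add_distrib, ← Finset.mul_sum, hp, Finset.sum_const, Finset.card_univ,
        nsmul_eq_mul]
      field_simp
      ring
    have h3 : ∑ x, conv p k (x⁻¹ * g) = 1 := by
      rw [← conv_sum p hp k]
      rw [← Equiv.sum_comp ((Equiv.inv G).trans (Equiv.mulRight g)) (fun y => conv p k y)]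
      simp
    simp_rw [h1]
    have h4 : ∑ x, mixp c p x * (1 / (Fintype.card G : ℝ) +
        (1 - c) ^ k * (conv p k (x⁻¹ * g) - 1 / (Fintype.card G : ℝ))) =
        (∑ x, mixp c p x) * (1 / (Fintype.card G : ℝ)) + (1 - c) ^ k *
          (∑ x, mixp c p x * conv p k (x⁻¹ * g) - (∑ x, mixp c p x) * (1 / (Fintype.card G : ℝ))) := by
      rw [Finset.sum_mul, mul_sub, Finset.mul_sum, Finset.mul_sum, ← Finset.sum_sub_distrib,
        ← Finset.sum_add_distrib]
      apply Finset.sum_congr rfl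
      intro x _
      ring
    rw [h4, h2]
    have h5 : ∑ x, mixp c p x * conv p k (x⁻¹ * g) =
        (1 - c) * ∑ x, p x * conv p k (x⁻¹ * g) + c * (1 / (Fintype.card G : ℝ)) := by
      unfold mixp
      have h6 : c * (1 / (Fintype.card G : ℝ)) =
          ∑ x, c * (1 / (Fintype.card G : ℝ)) * conv p k (x⁻¹ * g) := by
        rw [← Finset.mul_sum, h3, mul_one]
      rw [Finset.mul_sum]
      conv_rhs => rw [h6]
      rw [← Finset.sum_add_distrib]
      apply Finset.sum_congr rfl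
      intro x _
      ring
    rw [h5]
    ring

/-- Total variation distance to uniform after `k` steps. -/
noncomputable def tv (p : G → ℝ) (k : ℕ) : ℝ :=
  (1 / 2 : ℝ) * ∑ g : G, |conv p k g - 1 / (Fintype.card G : ℝ)|

lemma tv_mix (c : ℝ) (hc : c ≤ 1) (p : G → ℝ) (hp : ∑ g, p g = 1) (k : ℕ) :
    tv (mixp c p) k = (1 - c) ^ k * tv p k := by
  unfold tv
  simp_rw [conv_mix c p hp k, abs_mul]
  rw [← Finset.mul_sum, abs_of_nonneg (pow_nonneg (by linarith) k)]
  ring

lemma conv_nonneg (p : G → ℝ) (hp : ∀ g, 0 ≤ p g) (k : ℕ) (g : G) : 0 ≤ conv p k g :=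
  Finset.sum_nonneg (fun _ _ => Finset.prod_nonneg (fun _ _ => hp _))

lemma tv_nonneg (p : G → ℝ) (k : ℕ) : 0 ≤ tv p k := by
  unfold tv
  have : 0 ≤ ∑ g : G, |conv p k g - 1 / (Fintype.card G : ℝ)| :=
    Finset.sum_nonneg (fun _ _ => abs_nonneg _)
  linarith

lemma sum_unif : ∑ _g : G, 1 / (Fintype.card G : ℝ) = 1 := by
  have hcard : (Fintype.card G : ℝ) ≠ 0 := by
    exact_mod_cast Fintype.card_ne_zero
  rw [Finset.sum_const, Finset.card_univ, nsmul_eq_mul]
  field_simp

lemma tv_le_one (p : G → ℝ) (hp0 : ∀ g, 0 ≤ p g) (hp : ∑ g, p g = 1) (k : ℕ) : tv p k ≤ 1 := by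
  unfold tv
  have : ∑ g : G, |conv p k g - 1 / (Fintype.card G : ℝ)| ≤
      ∑ g : G, (conv p k g + 1 / (Fintype.card G : ℝ)) := by
    apply Finset.sum_le_sum
    intro g _
    have h1 := conv_nonneg p hp0 k g
    have h2 : 0 ≤ 1 / (Fintype.card G : ℝ) := by positivity
    rw [abs_le]
    constructor <;> linarith
  rw [Finset.sum_add_distrib, conv_sum p hp k, sum_unif] at this
  linarith

/-- Lower bound by the size of the support. -/
lemma tv_support (p : G → ℝ) (hp : ∑ g, p g = 1) (k : ℕ)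
    (S : Finset G) (hS : ∀ g, g ∉ S → conv p k g = 0) :
    1 - (S.card : ℝ) / (Fintype.card G : ℝ) ≤ tv p k := by
  unfold tv
  have hcard : (0 : ℝ) < (Fintype.card G : ℝ) := by
    exact_mod_cast Fintype.card_pos
  have h1 : ∑ g : G, |conv p k g - 1 / (Fintype.card G : ℝ)| =
      ∑ g ∈ S, |conv p k g - 1 / (Fintype.card G : ℝ)| +
      ∑ g ∈ Sᶜ, |conv p k g - 1 / (Fintype.card G : ℝ)| := by
    rw [Finset.sum_add_sum_compl]
  have h2 : ∑ g ∈ Sᶜ, |conv p k g - 1 / (Fintype.card G : ℝ)| =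
      1 - (S.card : ℝ) / (Fintype.card G : ℝ) := by
    have : ∀ g ∈ Sᶜ, |conv p k g - 1 / (Fintype.card G : ℝ)| = 1 / (Fintype.card G : ℝ) := by
      intro g hg
      rw [hS g (Finset.mem_compl.1 hg), zero_sub, abs_neg, abs_of_pos (by positivity)]
    rw [Finset.sum_congr rfl this, Finset.sum_const, Finset.card_compl, nsmul_eq_mul,
      Nat.cast_sub (Finset.card_le_univ S)]
    field_simp
  have h3 : 1 - (S.card : ℝ) / (Fintype.card G : ℝ) ≤
      ∑ g ∈ S, |conv p k g - 1 / (Fintype.card G : ℝ)| := by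
    have : ∑ g ∈ S, (conv p k g - 1 / (Fintype.card G : ℝ)) ≤
        ∑ g ∈ S, |conv p k g - 1 / (Fintype.card G : ℝ)| :=
      Finset.sum_le_sum (fun g _ => le_abs_self _)
    refine le_trans ?_ this
    rw [Finset.sum_sub_distrib, Finset.sum_const, nsmul_eq_mul]
    have h4 : ∑ g ∈ S, conv p k g = 1 := by
      rw [← conv_sum p hp k]
      exact Finset.sum_subset (Finset.subset_univ S) (fun g _ hg => hS g hg)
    rw [h4]
    apply le_of_eq
    ring
  rw [h1, h2]
  linarith

end General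

section Base

variable {G : Type} [Group G] [Fintype G] [DecidableEq G] {Ω : Type} [Fintype Ω] [Nonempty Ω]

/-- The law of `φ z` for uniform `z`. -/
noncomputable def push (φ : Ω → G) (g : G) : ℝ :=
  (∑ z : Ω, if φ z = g then (1:ℝ) else 0) / (Fintype.card Ω : ℝ)

lemma cardΩ_pos : (0:ℝ) < (Fintype.card Ω : ℝ) := by exact_mod_cast Fintype.card_pos

lemma push_sum (φ : Ω → G) : ∑ g, push φ g = 1 := by
  unfold push
  rw [← Finset.sum_div, Finset.sum_comm]
  have : ∀ z : Ω, ∑ g : G, (if φ z = g then (1:ℝ) else 0) = 1 := by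
    intro z
    simp
  rw [Finset.sum_congr rfl (fun z _ => this z), Finset.sum_const, Finset.card_univ, nsmul_eq_mul,
    mul_one]
  exact div_self (cardΩ_pos (Ω := Ω)).ne'

lemma push_nonneg (φ : Ω → G) (g : G) : 0 ≤ push φ g := by
  unfold push
  apply div_nonneg
  · exact Finset.sum_nonneg (fun z _ => by split_ifs <;> norm_num)
  · exact (cardΩ_pos (Ω := Ω)).le

lemma conv_push (φ : Ω → G) (k : ℕ) (g : G) : conv (push φ) k g =
    (∑ z : Fin k → Ω, if (List.ofFn (fun i => φ (z i))).prod = g then (1:ℝ) else 0) /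
      (Fintype.card Ω : ℝ) ^ k := by
  induction k generalizing g with
  | zero =>
    rw [conv_zero, Fintype.sum_unique]
    simp
  | succ k ih =>
    rw [conv_succ]
    simp_rw [ih]
    rw [← (Fin.consEquiv (fun _ : Fin (k+1) => Ω)).sum_comp, Fintype.sum_prod_type]
    have e : ∀ (x : Ω) (f : Fin k → Ω),
        (List.ofFn (fun i => φ ((Fin.cons x f : Fin (k + 1) → Ω) i))).prod =
          φ x * (List.ofFn (fun i => φ (f i))).prod := by
      intro x f
      rw [List.ofFn_succ]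
      simp
    have h1 : ∀ x : Ω, ∑ f : Fin k → Ω,
        (if (List.ofFn (fun i => φ (((Fin.consEquiv (fun _ : Fin (k+1) => Ω)) (x, f)) i))).prod = g
          then (1:ℝ) else 0) =
        ∑ f : Fin k → Ω, (if (List.ofFn (fun i => φ (f i))).prod = (φ x)⁻¹ * g
          then (1:ℝ) else 0) := by
      intro x
      apply Finset.sum_congr rfl
      intro f _
      change (if (List.ofFn (fun i => φ ((Fin.cons x f : Fin (k + 1) → Ω) i))).prod = g
          then (1:ℝ) else 0) = _
      rw [e]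
      have : (φ x * (List.ofFn (fun i => φ (f i))).prod = g) ↔
          ((List.ofFn (fun i => φ (f i))).prod = (φ x)⁻¹ * g) := by
        constructor
        · intro h; rw [← h]; group
        · intro h; rw [h]; group
      simp only [this]
    rw [Finset.sum_congr rfl (fun x _ => h1 x)]
    unfold push
    have h2 : ∀ y : G, (∑ z : Ω, if φ z = y then (1:ℝ) else 0) / (Fintype.card Ω : ℝ) *
        ((∑ z : Fin k → Ω, if (List.ofFn (fun i => φ (z i))).prod = y⁻¹ * g then (1:ℝ) else 0) /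
          (Fintype.card Ω : ℝ) ^ k) =
        (∑ x : Ω, if φ x = y then (∑ z : Fin k → Ω,
          if (List.ofFn (fun i => φ (z i))).prod = (φ x)⁻¹ * g then (1:ℝ) else 0) else 0) /
          (Fintype.card Ω : ℝ) ^ (k + 1) := by
      intro y
      rw [div_mul_div_comm, ← pow_succ', Finset.sum_mul]
      congr 1
      apply Finset.sum_congr rfl
      intro x _
      split_ifs with h
      · rw [h, one_mul]
      · rw [zero_mul]
    rw [Finset.sum_congr rfl (fun y _ => h2 y), ← Finset.sum_div, Finset.sum_comm]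
    congr 1
    apply Finset.sum_congr rfl
    intro x _
    rw [Finset.sum_ite_eq]
    simp

end Base

section Concrete

variable (r q : ℕ) [hq : Fact q.Prime]

/-- The group. -/
abbrev GG : Type := Multiplicative (Fin r → ZMod q)

/-- A random multiple of a random point of the moment curve. -/
def φ (z : ZMod q × ZMod q) : GG r q := Multiplicative.ofAdd (fun j : Fin r => z.2 * z.1 ^ j.1)

lemma cardG : (Fintype.card (GG r q) : ℝ) = (q : ℝ) ^ r := by
  have : Fintype.card (GG r q) = q ^ r := by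
    rw [Fintype.card_multiplicative, Fintype.card_fun, ZMod.card, Fintype.card_fin]
  rw [this]
  push_cast
  rfl

lemma cardΩ : (Fintype.card (ZMod q × ZMod q) : ℝ) = (q : ℝ) ^ 2 := by
  have : Fintype.card (ZMod q × ZMod q) = q ^ 2 := by
    rw [Fintype.card_prod, ZMod.card, sq]
  rw [this]
  push_cast
  rfl

/-- The base walk is far from uniform for fewer than `r / 2` steps. -/
lemma base_low (k : ℕ) (hk : 2 * k < r) : 1 / 2 ≤ tv (push (φ r q)) k := by
  classical
  let S : Finset (GG r q) := Finset.univ.image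
    (fun z : Fin k → ZMod q × ZMod q => (List.ofFn (fun i => φ r q (z i))).prod)
  have hS : ∀ g, g ∉ S → conv (push (φ r q)) k g = 0 := by
    intro g hg
    rw [conv_push, div_eq_zero_iff]
    left
    apply Finset.sum_eq_zero
    intro z _
    rw [if_neg]
    intro h
    exact hg (Finset.mem_image.2 ⟨z, Finset.mem_univ _, h⟩)
  have h1 := tv_support (push (φ r q)) (push_sum _) k S hS
  refine le_trans ?_ h1
  have h2 : S.card ≤ q ^ (2 * k) := by
    refine le_trans Finset.card_image_le ?_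
    rw [Finset.card_univ, Fintype.card_fun, Fintype.card_prod, ZMod.card, Fintype.card_fin,
      pow_mul, sq]
  have hq2 : 2 ≤ q := hq.out.two_le
  have h3 : S.card * 2 ≤ q ^ r := by
    calc S.card * 2 ≤ q ^ (2 * k) * q := Nat.mul_le_mul h2 hq2
      _ = q ^ (2 * k + 1) := by rw [pow_succ]
      _ ≤ q ^ r := Nat.pow_le_pow_right (by omega) hk
  rw [cardG]
  have h4 : (S.card : ℝ) * 2 ≤ (q : ℝ) ^ r := by exact_mod_cast h3
  have h5 : (0:ℝ) < (q : ℝ) ^ r := by
    have : (0:ℝ) < (q:ℝ) := by exact_mod_cast (by omega : 0 < q)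
    positivity
  have h6 : (S.card : ℝ) / (q : ℝ) ^ r ≤ 1 / 2 := by
    rw [div_le_iff₀ h5]
    linarith
  linarith

/-- The number of ways, for given points of the curve. -/
noncomputable def MM (x : Fin r → ZMod q) (g : GG r q) : ℝ :=
  ∑ c : Fin r → ZMod q,
    if Multiplicative.ofAdd (fun j : Fin r => ∑ i, c i * x i ^ j.1) = g then (1:ℝ) else 0

lemma MM_inj (x : Fin r → ZMod q) (hx : Function.Injective x) (g : GG r q) : MM r q x g = 1 := by
  have hbij : Function.Bijective (fun c : Fin r → ZMod q =>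
      (Multiplicative.ofAdd (fun j : Fin r => ∑ i, c i * x i ^ j.1) : GG r q)) := by
    have hinj : Function.Injective (fun c : Fin r → ZMod q =>
        (Multiplicative.ofAdd (fun j : Fin r => ∑ i, c i * x i ^ j.1) : GG r q)) := by
      intro c c' h
      have h1 : (fun j : Fin r => ∑ i, c i * x i ^ j.1) = fun j : Fin r => ∑ i, c' i * x i ^ j.1 :=
        Multiplicative.ofAdd.injective h
      have hdet : (Matrix.vandermonde x).det ≠ 0 := Matrix.det_vandermonde_ne_zero_iff.2 hx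
      have h2 : Matrix.vecMul (c - c') (Matrix.vandermonde x) = 0 := by
        ext j
        rw [Matrix.sub_vecMul]
        have := congrFun h1 j
        simp only [Matrix.vecMul, dotProduct, Matrix.vandermonde_apply, Pi.sub_apply, Pi.zero_apply]
        rw [this, sub_self]
      have h3 := Matrix.eq_zero_of_vecMul_eq_zero hdet h2
      exact sub_eq_zero.1 h3
    rw [Fintype.bijective_iff_injective_and_card]
    refine ⟨hinj, ?_⟩
    rw [Fintype.card_multiplicative]
  unfold MM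
  obtain ⟨c0, hc0⟩ := hbij.2 g
  rw [Finset.sum_eq_single c0]
  · rw [if_pos hc0]
  · intro c _ hc
    rw [if_neg]
    intro h
    exact hc (hbij.1 (h.trans hc0.symm))
  · intro h
    exact absurd (Finset.mem_univ _) h

lemma MM_nonneg (x : Fin r → ZMod q) (g : GG r q) : 0 ≤ MM r q x g :=
  Finset.sum_nonneg (fun z _ => by split_ifs <;> norm_num)

lemma MM_sum (x : Fin r → ZMod q) : ∑ g, MM r q x g = (q : ℝ) ^ r := by
  unfold MM
  rw [Finset.sum_comm]
  have : ∀ c : Fin r → ZMod q, ∑ g : GG r q,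
      (if Multiplicative.ofAdd (fun j : Fin r => ∑ i, c i * x i ^ j.1) = g then (1:ℝ) else 0) = 1 := by
    intro c
    simp
  rw [Finset.sum_congr rfl (fun c _ => this c), Finset.sum_const, Finset.card_univ, Fintype.card_fun,
    ZMod.card, Fintype.card_fin, nsmul_eq_mul]
  push_cast
  ring

lemma prod_φ (z : Fin r → ZMod q × ZMod q) : (List.ofFn (fun i => φ r q (z i))).prod =
    Multiplicative.ofAdd (fun j : Fin r => ∑ i, (z i).2 * (z i).1 ^ j.1) := by
  rw [List.prod_ofFn]
  unfold φ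
  rw [← ofAdd_sum]
  congr 1
  ext j
  rw [Finset.sum_apply]

lemma conv_MM (g : GG r q) : conv (push (φ r q)) r g =
    (∑ x : Fin r → ZMod q, MM r q x g) / ((q : ℝ) ^ r * (q : ℝ) ^ r) := by
  rw [conv_push, cardΩ]
  congr 1
  · simp_rw [prod_φ]
    rw [← (Equiv.arrowProdEquivProdArrow (Fin r) (fun _ => ZMod q) (fun _ => ZMod q)).symm.sum_comp,
      Fintype.sum_prod_type]
    rfl
  · rw [← pow_mul, ← pow_add]
    congr 1
    ring

/-- The base walk is close to uniform after `r` steps. -/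
lemma base_up : tv (push (φ r q)) r ≤ (r : ℝ) ^ 2 / q := by
  classical
  have hq0 : (0:ℝ) < (q:ℝ) := by exact_mod_cast hq.out.pos
  have hqr : (0:ℝ) < (q:ℝ) ^ r := by positivity
  set B : Finset (Fin r → ZMod q) := Finset.univ.filter (fun x => ¬ Function.Injective x) with hB
  have h1 : ∀ g : GG r q, |conv (push (φ r q)) r g - 1 / (Fintype.card (GG r q) : ℝ)| ≤
      (∑ x ∈ B, (MM r q x g + 1)) / ((q : ℝ) ^ r * (q : ℝ) ^ r) := by
    intro g
    rw [conv_MM, cardG]
    have h2 : (∑ x : Fin r → ZMod q, MM r q x g) / ((q : ℝ) ^ r * (q : ℝ) ^ r) - 1 / (q : ℝ) ^ r =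
        (∑ x : Fin r → ZMod q, (MM r q x g - 1)) / ((q : ℝ) ^ r * (q : ℝ) ^ r) := by
      rw [Finset.sum_sub_distrib, Finset.sum_const, Finset.card_univ, Fintype.card_fun, ZMod.card,
        Fintype.card_fin, nsmul_eq_mul]
      push_cast
      field_simp
    rw [h2, abs_div, abs_of_pos (by positivity : (0:ℝ) < (q : ℝ) ^ r * (q : ℝ) ^ r)]
    apply div_le_div_of_nonneg_right _ (by positivity)
    have h3 : ∑ x : Fin r → ZMod q, (MM r q x g - 1) = ∑ x ∈ B, (MM r q x g - 1) := by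
      symm
      apply Finset.sum_subset (Finset.subset_univ _)
      intro x _ hx
      have : Function.Injective x := by
        by_contra h
        exact hx (Finset.mem_filter.2 ⟨Finset.mem_univ _, h⟩)
      rw [MM_inj r q x this g, sub_self]
    rw [h3]
    refine le_trans (Finset.abs_sum_le_sum_abs _ _) ?_
    apply Finset.sum_le_sum
    intro x _
    have := MM_nonneg r q x g
    rw [abs_le]
    constructor <;> linarith
  have h4 : ∑ g : GG r q, |conv (push (φ r q)) r g - 1 / (Fintype.card (GG r q) : ℝ)| ≤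
      2 * (B.card : ℝ) / (q : ℝ) ^ r := by
    refine le_trans (Finset.sum_le_sum (fun g _ => h1 g)) ?_
    rw [← Finset.sum_div, Finset.sum_comm]
    have h5 : ∀ x ∈ B, ∑ g : GG r q, (MM r q x g + 1) = 2 * (q : ℝ) ^ r := by
      intro x _
      rw [Finset.sum_add_distrib, MM_sum, Finset.sum_const, Finset.card_univ, nsmul_eq_mul, cardG]
      ring
    rw [Finset.sum_congr rfl h5, Finset.sum_const, nsmul_eq_mul]
    apply le_of_eq
    field_simp
  have h6 : (B.card : ℝ) = (q : ℝ) ^ r - (q.descFactorial r : ℝ) := by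
    have h7 : (Finset.univ.filter (fun x : Fin r → ZMod q => Function.Injective x)).card =
        q.descFactorial r := by
      have := Fintype.card_embedding_eq (α := Fin r) (β := ZMod q)
      rw [ZMod.card, Fintype.card_fin] at this
      rw [← this, ← Fintype.card_subtype]
      exact Fintype.card_congr (Equiv.subtypeInjectiveEquivEmbedding (Fin r) (ZMod q))
    have h8 := Finset.card_filter_add_card_filter_not (s := (Finset.univ : Finset (Fin r → ZMod q)))
      (fun x : Fin r → ZMod q => Function.Injective x)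
    rw [h7, Finset.card_univ, Fintype.card_fun, ZMod.card, Fintype.card_fin] at h8
    have h9 : (q.descFactorial r : ℝ) + (B.card : ℝ) = (q : ℝ) ^ r := by exact_mod_cast h8
    linarith
  unfold tv
  rcases Nat.lt_or_ge r q with hrq | hrq
  · have h10 : (1 - (r:ℝ) / q) ^ r * (q:ℝ) ^ r ≤ (q.descFactorial r : ℝ) := by
      have h11 := Nat.pow_sub_le_descFactorial q r
      have h12 : ((q + 1 - r : ℕ) : ℝ) ^ r ≤ (q.descFactorial r : ℝ) := by exact_mod_cast h11
      refine le_trans ?_ h12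
      rw [← mul_pow]
      apply pow_le_pow_left₀
      · have : (r:ℝ) / q ≤ 1 := by
          rw [div_le_one hq0]
          exact_mod_cast hrq.le
        apply mul_nonneg <;> linarith
      · rw [Nat.cast_sub (by omega)]
        push_cast
        have : (1 - (r:ℝ) / q) * q = q - r := by field_simp
        linarith
    have h13 : 1 + (r:ℝ) * (-((r:ℝ) / q)) ≤ (1 + (-((r:ℝ) / q))) ^ r := by
      apply one_add_mul_le_pow
      have : (r:ℝ) / q ≤ 1 := by
        rw [div_le_one hq0]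
        exact_mod_cast hrq.le
      linarith
    have h14 : (B.card : ℝ) ≤ (r:ℝ) ^ 2 / q * (q:ℝ) ^ r := by
      rw [h6]
      have h15 : (1 - (r:ℝ) ^ 2 / q) * (q:ℝ) ^ r ≤ (q.descFactorial r : ℝ) := by
        refine le_trans ?_ h10
        apply mul_le_mul_of_nonneg_right _ hqr.le
        have e1 : 1 + (r:ℝ) * (-((r:ℝ) / q)) = 1 - (r:ℝ) ^ 2 / q := by ring
        have e2 : 1 + (-((r:ℝ) / q)) = 1 - (r:ℝ) / q := by ring
        rw [e1, e2] at h13
        exact h13
      nlinarith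
    have h16 : 2 * (B.card : ℝ) / (q : ℝ) ^ r ≤ 2 * ((r:ℝ) ^ 2 / q) := by
      rw [div_le_iff₀ hqr]
      linarith
    linarith
  · have h17 := tv_le_one (push (φ r q)) (push_nonneg _) (push_sum _) r
    unfold tv at h17
    refine le_trans h17 ?_
    rw [le_div_iff₀ hq0]
    have h18 : (q:ℝ) ≤ r := by exact_mod_cast hrq
    have h19 : (1:ℝ) ≤ r := by
      have : 1 ≤ r := le_trans hq.out.one_lt.le hrq
      exact_mod_cast this
    nlinarith

end Concrete

/-- The negation of the preceding statement: Every sequence of random walks on finite groups with a precut-off (distance to uniform →0 at b·tₙ but eventually ≥ε at a·tₙ, tₙ→∞) has a cut-off: some sₙ→∞ with distance →0 at (1+ε)sₙ and →1 at (1−ε)sₙ for all ε in (0,1). -/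
theorem result :
    ¬ (∀ (G : ℕ → Type) [∀ n, Group (G n)] [∀ n, Fintype (G n)] [∀ n, DecidableEq (G n)]
    (p : ∀ n, G n → ℝ) (d : ℕ → ℕ → ℝ),
    (∀ n g, 0 ≤ p n g) → (∀ n, ∑ g, p n g = 1) →
    (∀ n k, d n k = (1 / 2 : ℝ) * ∑ g : G n,
        |(∑ f ∈ (Finset.univ : Finset (Fin k → G n)).filter (fun f => (List.ofFn f).prod = g),
            ∏ i, p n (f i)) - 1 / (Fintype.card (G n) : ℝ)|) →
    (∃ t : ℕ → ℝ, Tendsto t atTop atTop ∧ ∃ a b : ℝ, 0 < a ∧ a < b ∧
        Tendsto (fun n => d n ⌊b * t n⌋₊) atTop (𝓝 0) ∧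
        ∃ ε : ℝ, 0 < ε ∧ ∀ᶠ n in atTop, ε ≤ d n ⌊a * t n⌋₊) →
    ∃ s : ℕ → ℝ, Tendsto s atTop atTop ∧ ∀ ε : ℝ, 0 < ε → ε < 1 →
        Tendsto (fun n => d n ⌊(1 + ε) * s n⌋₊) atTop (𝓝 0) ∧
        Tendsto (fun n => d n ⌊(1 - ε) * s n⌋₊) atTop (𝓝 1)) := by
  intro H
  have hprime : ∀ n : ℕ, ∃ q, (n + 1) ^ 3 ≤ q ∧ q.Prime := fun n =>
    Nat.exists_infinite_primes ((n + 1) ^ 3)
  choose q hq1 hq2 using hprime
  haveI hfact : ∀ n, Fact (q n).Prime := fun n => ⟨hq2 n⟩
  have hc : ∀ n : ℕ, (1:ℝ) / ((n:ℝ) + 1) ≤ 1 := by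
    intro n
    rw [div_le_one (by positivity)]
    have : (0:ℝ) ≤ n := Nat.cast_nonneg n
    linarith
  let P : ∀ n : ℕ, GG (n + 1) (q n) → ℝ := fun n => mixp (1 / ((n:ℝ) + 1)) (push (φ (n + 1) (q n)))
  let d : ℕ → ℕ → ℝ := fun n k => tv (P n) k
  have hd : ∀ n k, d n k = (1 - 1 / ((n:ℝ) + 1)) ^ k * tv (push (φ (n + 1) (q n))) k := by
    intro n k
    exact tv_mix _ (hc n) _ (push_sum _) k
  have hlow : ∀ n k : ℕ, 2 * k < n + 1 → (1 - k / ((n:ℝ) + 1)) * (1 / 2) ≤ d n k := by
    intro n k hk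
    rw [hd]
    have h1 := base_low (n + 1) (q n) k hk
    have h2 : 1 + (k:ℝ) * (-(1 / ((n:ℝ) + 1))) ≤ (1 + (-(1 / ((n:ℝ) + 1)))) ^ k := by
      apply one_add_mul_le_pow
      have := hc n
      linarith
    have e1 : 1 + (k:ℝ) * (-(1 / ((n:ℝ) + 1))) = 1 - k / ((n:ℝ) + 1) := by ring
    have e2 : 1 + (-(1 / ((n:ℝ) + 1))) = 1 - 1 / ((n:ℝ) + 1) := by ring
    rw [e1, e2] at h2
    have h3 : 0 ≤ (1 - 1 / ((n:ℝ) + 1)) ^ k := pow_nonneg (by linarith [hc n]) k
    nlinarith
  have hpre : ∃ t : ℕ → ℝ, Tendsto t atTop atTop ∧ ∃ a b : ℝ, 0 < a ∧ a < b ∧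
        Tendsto (fun n => d n ⌊b * t n⌋₊) atTop (𝓝 0) ∧
        ∃ ε : ℝ, 0 < ε ∧ ∀ᶠ n in atTop, ε ≤ d n ⌊a * t n⌋₊ := by
    refine ⟨fun n => (n:ℝ) + 1, tendsto_atTop_add_const_right _ _ tendsto_natCast_atTop_atTop,
      1 / 3, 1, by norm_num, by norm_num, ?_, 1 / 4, by norm_num, ?_⟩
    · have hfl : ∀ n : ℕ, ⌊(1:ℝ) * ((n:ℝ) + 1)⌋₊ = n + 1 := by
        intro n
        rw [one_mul]
        exact_mod_cast Nat.floor_natCast (R := ℝ) (n + 1)
      simp_rw [hfl]
      refine squeeze_zero (fun n => tv_nonneg _ _) (fun n => ?_) tendsto_one_div_add_atTop_nhds_zero_nat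
      rw [hd]
      have h1 := base_up (n + 1) (q n)
      have h2 : (1 - 1 / ((n:ℝ) + 1)) ^ (n + 1) ≤ 1 := by
        apply pow_le_one₀
        · linarith [hc n]
        · have : 0 ≤ 1 / ((n:ℝ) + 1) := by positivity
          linarith
      have h3 := tv_nonneg (push (φ (n + 1) (q n))) (n + 1)
      have h4 : (((n + 1 : ℕ) : ℝ)) ^ 2 / (q n : ℝ) ≤ 1 / ((n:ℝ) + 1) := by
        have hq3 : (((n:ℝ) + 1)) ^ 3 ≤ (q n : ℝ) := by exact_mod_cast hq1 n
        have hpos : (0:ℝ) < (n:ℝ) + 1 := by positivity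
        have hqpos : (0:ℝ) < (q n : ℝ) := lt_of_lt_of_le (by positivity) hq3
        rw [div_le_div_iff₀ hqpos hpos]
        push_cast
        nlinarith
      calc (1 - 1 / ((n:ℝ) + 1)) ^ (n + 1) * tv (push (φ (n + 1) (q n))) (n + 1)
          ≤ 1 * tv (push (φ (n + 1) (q n))) (n + 1) := mul_le_mul_of_nonneg_right h2 h3
        _ = tv (push (φ (n + 1) (q n))) (n + 1) := one_mul _
        _ ≤ _ := h1
        _ ≤ _ := h4
    · refine Eventually.of_forall (fun n => ?_)
      have hpos : (0:ℝ) < (n:ℝ) + 1 := by positivity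
      have h0 : ((⌊(1 / 3 : ℝ) * ((n:ℝ) + 1)⌋₊ : ℕ) : ℝ) ≤ (1 / 3 : ℝ) * ((n:ℝ) + 1) :=
        Nat.floor_le (by positivity)
      set k := ⌊(1 / 3 : ℝ) * ((n:ℝ) + 1)⌋₊ with hk
      have h1 : 2 * k < n + 1 := by
        have : (2:ℝ) * k < n + 1 := by linarith
        exact_mod_cast this
      have h2 := hlow n k h1
      have h3 : (k:ℝ) / ((n:ℝ) + 1) ≤ 1 / 3 := by
        rw [div_le_iff₀ hpos]
        exact h0
      linarith
  obtain ⟨s, hs, hcut⟩ := @H (fun n => GG (n + 1) (q n)) (fun n => inferInstance)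
    (fun n => inferInstance) (fun n => inferInstance) P d
    (fun n g => by
      show 0 ≤ mixp (1 / ((n:ℝ) + 1)) (push (φ (n + 1) (q n))) g
      unfold mixp
      have h1 := push_nonneg (φ (n + 1) (q n)) g
      have h2 := hc n
      have h3 : 0 ≤ 1 / ((n:ℝ) + 1) := by positivity
      have h4 : 0 ≤ 1 / (Fintype.card (GG (n + 1) (q n)) : ℝ) := by positivity
      have h5 : 0 ≤ (1 - 1 / ((n:ℝ) + 1)) * push (φ (n + 1) (q n)) g :=
        mul_nonneg (by linarith) h1
      have h6 := mul_nonneg h3 h4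
      linarith)
    (fun n => by
      show ∑ g, mixp (1 / ((n:ℝ) + 1)) (push (φ (n + 1) (q n))) g = 1
      unfold mixp
      rw [Finset.sum_add_distrib, ← Finset.mul_sum, ← Finset.mul_sum, push_sum, sum_unif]
      ring)
    (fun n k => rfl) hpre
  obtain ⟨h1, h2⟩ := hcut (1 / 2) (by norm_num) (by norm_num)
  have e1 : ∀ᶠ n in atTop, d n ⌊(1 + 1 / 2) * s n⌋₊ < 1 / 8 :=
    h1.eventually (gt_mem_nhds (by norm_num))
  have e2 : ∀ᶠ n in atTop, 9 / 10 < d n ⌊(1 - 1 / 2) * s n⌋₊ :=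
    h2.eventually (lt_mem_nhds (by norm_num))
  have e3 : ∀ᶠ n in atTop, 0 ≤ s n := hs.eventually_ge_atTop 0
  obtain ⟨n, f1, f2, f3, f4⟩ := (e1.and (e2.and (e3.and (eventually_ge_atTop 50)))).exists
  have hn : (50:ℝ) ≤ n := by exact_mod_cast f4
  have hpos : (0:ℝ) < (n:ℝ) + 1 := by positivity
  set k := ⌊(1 - 1 / 2) * s n⌋₊ with hk
  set K := ⌊(1 + 1 / 2) * s n⌋₊ with hK
  have hk1 : (1 - 1 / 2) * s n < k + 1 := Nat.lt_floor_add_one _
  have hK1 : (K:ℝ) ≤ (1 + 1 / 2) * s n := Nat.floor_le (by linarith)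
  -- an upper bound for k
  have hkb : (k:ℝ) / ((n:ℝ) + 1) < 1 / 9 := by
    by_contra hcon
    rw [not_lt] at hcon
    have g1 : d n k ≤ (1 - 1 / ((n:ℝ) + 1)) ^ k := by
      rw [hd]
      have := tv_le_one (push (φ (n + 1) (q n))) (push_nonneg _) (push_sum _) k
      have h3 : 0 ≤ (1 - 1 / ((n:ℝ) + 1)) ^ k := pow_nonneg (by linarith [hc n]) k
      nlinarith
    have g2 : 1 + (k:ℝ) * (1 / ((n:ℝ) + 1)) ≤ (1 + 1 / ((n:ℝ) + 1)) ^ k := by
      apply one_add_mul_le_pow
      have : 0 ≤ 1 / ((n:ℝ) + 1) := by positivity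
      linarith
    have g3 : (1 - 1 / ((n:ℝ) + 1)) ^ k * (1 + 1 / ((n:ℝ) + 1)) ^ k ≤ 1 := by
      rw [← mul_pow]
      apply pow_le_one₀
      · apply mul_nonneg
        · linarith [hc n]
        · positivity
      · have : 0 ≤ 1 / ((n:ℝ) + 1) := by positivity
        nlinarith
    have g4 : (k:ℝ) * (1 / ((n:ℝ) + 1)) = k / ((n:ℝ) + 1) := by ring
    have g5 : 10 / 9 ≤ (1 + 1 / ((n:ℝ) + 1)) ^ k := by linarith
    have g6 : 9 / 10 < (1 - 1 / ((n:ℝ) + 1)) ^ k := by linarith
    nlinarith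
  rw [div_lt_iff₀ hpos] at hkb
  have hK2 : (K:ℝ) < (1 / 2) * ((n:ℝ) + 1) := by linarith
  have hK3 : 2 * K < n + 1 := by
    have : (2:ℝ) * K < n + 1 := by linarith
    exact_mod_cast this
  have hfin := hlow n K hK3
  have hK4 : (K:ℝ) / ((n:ℝ) + 1) < 1 / 2 := by
    rw [div_lt_iff₀ hpos]
    exact hK2
  linarith

end Pool.Agent.S5710
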