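import Pool.Statements.S5730
import Pool.Agent.H11Kac.Final

set_option autoImplicit false
open MeasureTheory ProbabilityTheory Filter Topology
open Pool Pool.MP_9bdf03_pr

namespace Pool.Agent.S5730

/-- The negation of the preceding statement: For an iid standard normal sequence ξ_i, almost surely the number of real roots of ξ_0 + ξ_1 x + … + ξ_n x^n, divided by log n, tends to 2/π as n → ∞. -/
theorem result :
    ¬ (∀ (Ω : Type) [MeasureSpace Ω] [IsProbabilityMeasure (volume : Measure Ω)]
      (ξ : ℕ → Ω → ℝ),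
      (∀ i, Measurable (ξ i)) →
      iIndepFun ξ (volume : Measure Ω) →
      (∀ i, Measure.map (ξ i) (volume : Measure Ω) = gaussianReal 0 1) →
      ∀ᵐ ω ∂(volume : Measure Ω),
        Tendsto
          (fun n : ℕ =>
            ((∑ i ∈ Finset.range (n + 1),
                Polynomial.C (ξ i ω) * Polynomial.X ^ i).roots.card : ℝ)
              / Real.log n)
          atTop (𝓝 (2 / Real.pi))) := by
  intro H
  let inst : MeasureSpace (ℕ → ℝ) := ⟨Measure.infinitePi (fun _ : ℕ => gaussianReal 0 1)⟩
  have hvol : (volume : Measure (ℕ → ℝ)) = Measure.infinitePi (fun _ : ℕ => gaussianReal 0 1) :=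
    rfl
  have hprob : IsProbabilityMeasure (volume : Measure (ℕ → ℝ)) := by
    rw [hvol]; infer_instance
  have hm : ∀ i : ℕ, Measurable (fun ω : ℕ → ℝ => ω i) := fun i => measurable_pi_apply i
  have hind : iIndepFun (fun (i : ℕ) (ω : ℕ → ℝ) => ω i) (volume : Measure (ℕ → ℝ)) := by
    rw [hvol]
    exact iIndepFun_infinitePi (P := fun _ : ℕ => gaussianReal 0 1)
      (X := fun (_ : ℕ) (x : ℝ) => x) (fun _ => measurable_id)
  have hlaw : ∀ i : ℕ, Measure.map (fun ω : ℕ → ℝ => ω i) (volume : Measure (ℕ → ℝ)) =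
      gaussianReal 0 1 := by
    intro i
    rw [hvol]
    exact Measure.infinitePi_map_eval (fun _ : ℕ => gaussianReal 0 1) i
  have h1 := H (ℕ → ℝ) (fun i ω => ω i) hm hind hlaw
  exact H11Kac.not_ae_tendsto (P := (volume : Measure (ℕ → ℝ))) hm hind hlaw h1

end Pool.Agent.S5730
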