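import Pool.Statements.S5736
-- import your own Pool.Agent.* helpers here

set_option autoImplicit false
open MeasureTheory
open Pool Pool.MP_a24ad1_pr

namespace Pool.Agent.S5736

abbrev X := AddCircle (1:ℝ)
abbrev Om := X × Bool

noncomputable def al : ℝ := Real.sqrt 2 - 1

lemma al_pos : 0 < al := by
  unfold al
  have : (1:ℝ) < Real.sqrt 2 := by
    rw [Real.lt_sqrt (by norm_num)]; norm_num
  linarith

lemma al_lt : al < 1 := by
  unfold al
  have : Real.sqrt 2 < 2 := by
    rw [Real.sqrt_lt' (by norm_num)]; norm_num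
  linarith

lemma al_irr : Irrational al := by
  unfold al
  have := irrational_sqrt_two.sub_ratCast 1
  simpa using this

noncomputable def rot (x : X) : X := x + (al : X)

lemma dense_orbit : DenseRange (fun n : ℕ => n • (al : X)) := by
  have h : DenseRange (fun n : ℤ => n • (al : X)) := by
    rw [AddCircle.denseRange_zsmul_coe_iff]
    simpa using al_irr
  exact denseRange_zsmul_iff_nsmul.mp h

lemma rot_ergodic : Ergodic rot (volume : Measure X) := by
  have h : DenseRange (fun n : ℤ => n • (al : X)) := by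
    rw [AddCircle.denseRange_zsmul_coe_iff]
    simpa using al_irr
  have h2 := AddCircle.denseRange_zsmul_iff.mp h
  exact AddCircle.ergodic_add_right.mpr h2

noncomputable def g (x : X) : ℝ := (AddCircle.equivIco 1 0 x : ℝ) / 2

lemma g_meas : Measurable g := by
  unfold g
  have : Measurable (fun x : X => (AddCircle.equivIco 1 0 x : ℝ)) :=
    measurable_subtype_coe.comp (AddCircle.measurableEquivIco (T := (1:ℝ)) 0).measurable
  exact this.div_const 2

lemma g_mk (y : ℝ) : g (y : X) = Int.fract y / 2 := by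
  unfold g
  rw [AddCircle.coe_equivIco_mk_apply]
  simp

lemma g_nonneg (x : X) : 0 ≤ g x := by
  induction x using QuotientAddGroup.induction_on with
  | H y => 
    have := g_mk y
    change 0 ≤ g (y : X)
    rw [this]
    have := Int.fract_nonneg y
    linarith

lemma g_lt (x : X) : g x < 1/2 := by
  induction x using QuotientAddGroup.induction_on with
  | H y => 
    have := g_mk y
    change g (y : X) < _
    rw [this]
    have := Int.fract_lt_one y
    linarith

lemma g_rot (x : X) : g (rot x) - g x = al / 2 ∨ g (rot x) - g x = (al - 1)/2 := by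
  induction x using QuotientAddGroup.induction_on with
  | H y => 
    change g ((y : X) + (al : X)) - g (y : X) = _ ∨ g ((y : X) + (al : X)) - g (y : X) = _
    rw [← AddCircle.coe_add, g_mk, g_mk]
    have h0 := Int.fract_nonneg y
    have h1 := Int.fract_lt_one y
    have hp := al_pos
    have hl := al_lt
    by_cases h : Int.fract y + al < 1
    · left
      have : Int.fract (y + al) = Int.fract y + al := by
        rw [Int.fract_eq_iff]
        refine ⟨by linarith, h, ⌊y⌋, ?_⟩
        have := Int.floor_add_fract y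
        linarith
      rw [this]; ring
    · right
      push Not at h
      have : Int.fract (y + al) = Int.fract y + al - 1 := by
        rw [Int.fract_eq_iff]
        refine ⟨by linarith, by linarith, ⌊y⌋ + 1, ?_⟩
        have := Int.floor_add_fract y
        push_cast
        linarith
      rw [this]; ring

lemma vol_g (c d : ℝ) : (volume : Measure X) {x | c ≤ g x ∧ g x ≤ c + d} ≤ ENNReal.ofReal (2*d) := by
  have hm : MeasurableSet {x : X | c ≤ g x ∧ g x ≤ c + d} := 
    (measurableSet_le measurable_const g_meas).inter (measurableSet_le g_meas measurable_const)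
  have mp := AddCircle.measurePreserving_mk (1:ℝ) 0
  rw [← mp.measure_preimage hm.nullMeasurableSet]
  have hsub : ((fun y : ℝ => (y : X)) ⁻¹' {x : X | c ≤ g x ∧ g x ≤ c + d}) ∩ Set.Ioc 0 (0+1) ⊆ Set.Icc (2*c) (2*c+2*d) ∪ {1} := by
    rintro y ⟨hy, hy2⟩
    simp only [Set.mem_preimage, Set.mem_ofPred_eq] at hy
    rw [g_mk] at hy
    by_cases h1 : y = 1
    · right; exact h1
    · left
      have : Int.fract y = y := by
        rw [Int.fract_eq_self]
        refine ⟨hy2.1.le, lt_of_le_of_ne (by simpa using hy2.2) h1⟩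
      rw [this] at hy
      constructor <;> linarith [hy.1, hy.2]
  calc (volume.restrict (Set.Ioc 0 (0+1))) ((fun y : ℝ => (y : X)) ⁻¹' {x : X | c ≤ g x ∧ g x ≤ c + d}) 
      ≤ volume (((fun y : ℝ => (y : X)) ⁻¹' {x : X | c ≤ g x ∧ g x ≤ c + d}) ∩ Set.Ioc 0 (0+1)) := by
        rw [Measure.restrict_apply' measurableSet_Ioc]
    _ ≤ volume (Set.Icc (2*c) (2*c+2*d) ∪ {1}) := measure_mono hsub
    _ ≤ volume (Set.Icc (2*c) (2*c+2*d)) + volume ({1} : Set ℝ) := measure_union_le _ _
    _ = ENNReal.ofReal (2*d) := by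
        rw [Real.volume_Icc, Real.volume_singleton]; simp

/-- The tower map. -/
noncomputable def th : Om → Om := fun p => if p.2 = true then (rot p.1, false) else (p.1, true)

noncomputable def mu : Measure Om :=
  (1/2 : ENNReal) • (volume : Measure X).map (fun x => (x, false)) +
  (1/2 : ENNReal) • (volume : Measure X).map (fun x => (x, true))

lemma meas_f : Measurable (fun x : X => ((x, false) : Om)) := by fun_prop
lemma meas_t : Measurable (fun x : X => ((x, true) : Om)) := by fun_prop

lemma rot_meas : Measurable rot := rot_ergodic.measurable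

lemma mu_apply {S : Set Om} (hS : MeasurableSet S) : mu S = (1/2) * volume {x : X | (x,false) ∈ S} + (1/2) * volume {x : X | (x,true) ∈ S} := by
  unfold mu
  rw [Measure.add_apply, Measure.smul_apply, Measure.smul_apply, Measure.map_apply meas_f hS, Measure.map_apply meas_t hS]
  rfl

instance : IsProbabilityMeasure mu := by
  constructor
  rw [mu_apply MeasurableSet.univ]
  simp only [Set.mem_univ, Set.ofPred_true]
  have : (volume : Measure X) Set.univ = 1 := by simp
  rw [this]
  simp only [mul_one]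
  exact ENNReal.add_halves 1

lemma th_meas : Measurable th := by
  unfold th
  apply Measurable.ite
  · exact measurable_snd (measurableSet_singleton true)
  · exact (rot_meas.comp measurable_fst).prodMk measurable_const
  · exact measurable_fst.prodMk measurable_const

lemma th_f (x : X) : th (x,false) = (x,true) := by simp [th]
lemma th_t (x : X) : th (x,true) = (rot x,false) := by simp [th]

lemma th_mp : MeasurePreserving th mu mu := by
  refine ⟨th_meas, ?_⟩
  ext S hS
  rw [Measure.map_apply th_meas hS, mu_apply (th_meas hS), mu_apply hS]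
  have h1 : {x : X | (x,false) ∈ th ⁻¹' S} = {x : X | (x,true) ∈ S} := by
    ext x; simp [th_f]
  have h2 : {x : X | (x,true) ∈ th ⁻¹' S} = rot ⁻¹' {x : X | (x,false) ∈ S} := by
    ext x; simp [th_t]
  rw [h1, h2]
  have h3 : (volume : Measure X) (rot ⁻¹' {x : X | (x,false) ∈ S}) = volume {x : X | (x,false) ∈ S} := 
    rot_ergodic.toMeasurePreserving.measure_preimage (meas_f hS).nullMeasurableSet
  rw [h3, add_comm]

lemma th_ergodic : Ergodic th mu := by
  refine ⟨th_mp, ⟨?_⟩⟩
  intro s hs hinv
  have h1 : ∀ x : X, (x,false) ∈ s ↔ (x,true) ∈ s := by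
    intro x
    rw [← hinv, Set.mem_preimage, th_f, hinv]
  have h2 : rot ⁻¹' {x : X | (x,false) ∈ s} = {x : X | (x,false) ∈ s} := by
    ext x
    simp only [Set.mem_preimage, Set.mem_ofPred_eq]
    rw [h1 x]
    constructor
    · intro h
      rw [← hinv, Set.mem_preimage, th_t]; exact h
    · intro h
      rw [← hinv, Set.mem_preimage, th_t] at h; exact h
  have h3 := rot_ergodic.toPreErgodic.aeconst_set (meas_f hs) h2
  rw [Filter.eventuallyConst_set] at h3 ⊢
  rcases h3 with h3 | h3
  · left
    rw [ae_iff] at h3 ⊢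
    have hm : MeasurableSet {a : Om | ¬ a ∈ s} := hs.compl
    rw [mu_apply hm]
    have e1 : {x : X | (x,false) ∈ {a : Om | ¬ a ∈ s}} = {a : X | ¬ a ∈ (fun x : X => ((x,false) : Om)) ⁻¹' s} := by
      ext x; simp
    have e2 : {x : X | (x,true) ∈ {a : Om | ¬ a ∈ s}} = {a : X | ¬ a ∈ (fun x : X => ((x,false) : Om)) ⁻¹' s} := by
      ext x; simp [h1]
    rw [e1, e2, h3]; simp
  · right
    rw [ae_iff] at h3 ⊢
    have hm : MeasurableSet {a : Om | ¬ ¬ a ∈ s} := by simpa using hs
    rw [mu_apply hm]
    have e1 : {x : X | (x,false) ∈ {a : Om | ¬ ¬ a ∈ s}} = {a : X | ¬ ¬ a ∈ (fun x : X => ((x,false) : Om)) ⁻¹' s} := by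
      ext x; simp
    have e2 : {x : X | (x,true) ∈ {a : Om | ¬ ¬ a ∈ s}} = {a : X | ¬ ¬ a ∈ (fun x : X => ((x,false) : Om)) ⁻¹' s} := by
      ext x; simp [h1]
    rw [e1, e2, h3]; simp

/-- interarrival times -/
noncomputable def tt : Om → ℝ := fun p => if p.2 = true then 0 else 1
/-- service times -/
noncomputable def ss : Om → ℝ := fun p => if p.2 = true then 1/2 else 1 + (g (rot p.1) - g p.1)

noncomputable def stp (w : Fin 2 → ℝ) (s t : ℝ) : Fin 2 → ℝ := 
  (fun i : Fin 2 =>
        max ((w + (Pi.single 0 s : Fin 2 → ℝ)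
                - (fun _ : Fin 2 => t))
              (Tuple.sort (w + (Pi.single 0 s : Fin 2 → ℝ)
                - (fun _ : Fin 2 => t)) i)) 0)

noncomputable def W : ℕ → Om → (Fin 2 → ℝ)
  | 0 => fun _ => 0
  | (n+1) => fun ω => stp (W n ω) (ss (th^[n] ω)) (tt (th^[n] ω))

lemma sort2 (f : Fin 2 → ℝ) (h : f 0 ≤ f 1) : f ∘ Tuple.sort f = f := by
  have hm : Monotone (f ∘ (1 : Equiv.Perm (Fin 2))) := by
    intro i j hij
    fin_cases i <;> fin_cases j <;> simp_all
  have := (Tuple.comp_sort_eq_comp_iff_monotone (f := f) (σ := 1)).mpr hm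
  rw [← this]; rfl

lemma sort2' (f : Fin 2 → ℝ) (h : f 1 ≤ f 0) : (f ∘ Tuple.sort f) 0 = f 1 ∧ (f ∘ Tuple.sort f) 1 = f 0 := by
  have hm : Monotone (f ∘ (Equiv.swap 0 1 : Equiv.Perm (Fin 2))) := by
    intro i j hij
    fin_cases i <;> fin_cases j <;> simp_all
  have := (Tuple.comp_sort_eq_comp_iff_monotone (f := f) (σ := Equiv.swap 0 1)).mpr hm
  rw [← this]
  simp

lemma stp_zero (w : Fin 2 → ℝ) (s t : ℝ) : stp w s t 0 = max (min (w 0 + s - t) (w 1 - t)) 0 := by
  set f : Fin 2 → ℝ := w + (Pi.single 0 s : Fin 2 → ℝ) - (fun _ : Fin 2 => t) with hf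
  have h0 : f 0 = w 0 + s - t := by simp [hf]
  have h1 : f 1 = w 1 - t := by simp [hf]
  have e : stp w s t 0 = max ((f ∘ Tuple.sort f) 0) 0 := rfl
  rw [e]
  rcases le_total (f 0) (f 1) with h | h
  · rw [sort2 f h, ← h0, ← h1, min_eq_left h]
  · rw [(sort2' f h).1, ← h0, ← h1, min_eq_right h]

lemma stp_one (w : Fin 2 → ℝ) (s t : ℝ) : stp w s t 1 = max (max (w 0 + s - t) (w 1 - t)) 0 := by
  set f : Fin 2 → ℝ := w + (Pi.single 0 s : Fin 2 → ℝ) - (fun _ : Fin 2 => t) with hf
  have h0 : f 0 = w 0 + s - t := by simp [hf]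
  have h1 : f 1 = w 1 - t := by simp [hf]
  have e : stp w s t 1 = max ((f ∘ Tuple.sort f) 1) 0 := rfl
  rw [e]
  rcases le_total (f 0) (f 1) with h | h
  · rw [sort2 f h, ← h0, ← h1, max_eq_right h]
  · rw [(sort2' f h).2, ← h0, ← h1, max_eq_left h]

noncomputable def G (p : Om) : ℝ := if p.2 = true then g (rot p.1) else g p.1

lemma G_meas : Measurable G := by
  unfold G
  apply Measurable.ite
  · exact measurable_snd (measurableSet_singleton true)
  · exact (g_meas.comp rot_meas).comp measurable_fst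
  · exact g_meas.comp measurable_fst

lemma G_nonneg (p : Om) : 0 ≤ G p := by
  unfold G; split_ifs <;> exact g_nonneg _

lemma inv (ω : Om) (n : ℕ) : ∃ m : ℝ, 0 ≤ m ∧ (∀ j ≤ n, m ≤ G (th^[j] ω)) ∧
   (((th^[n] ω).2 = false ∧ W n ω 0 = G (th^[n] ω) - m ∧ 0 ≤ W n ω 1 ∧ W n ω 1 ≤ 1/2) ∨
    ((th^[n] ω).2 = true ∧ W n ω 0 = 0 ∧ W n ω 1 = G (th^[n] ω) - m)) := by
  induction n with
  | zero =>
    refine ⟨G ω, G_nonneg _, ?_, ?_⟩
    · intro j hj
      have : j = 0 := by omega
      subst this; simp
    · rcases h : ω.2 with _ | _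
      · left; simp [W, h]
      · right; simp [W, h]
  | succ n ih =>
    obtain ⟨m, hm0, hm, hc⟩ := ih
    have hit : th^[n+1] ω = th (th^[n] ω) := by rw [Function.iterate_succ_apply']
    have hW : W (n+1) ω = stp (W n ω) (ss (th^[n] ω)) (tt (th^[n] ω)) := rfl
    set p := th^[n] ω with hp
    rcases hc with ⟨h2, h0, h1a, h1b⟩ | ⟨h2, h0, h1⟩
    · -- A customer
      obtain ⟨x, b⟩ := p
      simp only at h2
      subst h2
      have hss : ss (x,false) = 1 + (g (rot x) - g x) := by simp [ss]
      have htt : tt (x,false) = 1 := by simp [tt]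
      have hG : G (x,false) = g x := by simp [G]
      rw [hG] at h0
      have hth : th^[n+1] ω = (x,true) := by rw [hit, th_f]
      have hG' : G (x,true) = g (rot x) := by simp [G]
      refine ⟨min m (g (rot x)), le_min hm0 (g_nonneg _), ?_, ?_⟩
      · intro j hj
        rcases Nat.lt_or_ge j (n+1) with h | h
        · exact (min_le_left _ _).trans (hm j (by omega))
        · have : j = n+1 := by omega
          subst this
          rw [hth, hG']; exact min_le_right _ _
      · right
        rw [hth, hG', hW, hss, htt]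
        refine ⟨rfl, ?_, ?_⟩
        · rw [stp_zero, h0]
          apply max_eq_right
          exact (min_le_right _ _).trans (by linarith)
        · rw [stp_one, h0]
          have e : g x - m + (1 + (g (rot x) - g x)) - 1 = g (rot x) - m := by ring
          rw [e]
          rcases le_total m (g (rot x)) with h | h
          · rw [min_eq_left h, max_eq_left (by linarith : W n ω 1 - 1 ≤ g (rot x) - m), max_eq_left (by linarith)]
          · rw [min_eq_right h, sub_self]
            apply max_eq_right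
            apply max_le <;> linarith
    · -- B customer
      obtain ⟨x, b⟩ := p
      simp only at h2
      subst h2
      have hss : ss (x,true) = 1/2 := by simp [ss]
      have htt : tt (x,true) = 0 := by simp [tt]
      have hG : G (x,true) = g (rot x) := by simp [G]
      rw [hG] at h1
      have hth : th^[n+1] ω = (rot x,false) := by rw [hit, th_t]
      have hG' : G (rot x,false) = g (rot x) := by simp [G]
      have hmx : m ≤ g (rot x) := by
        have := hm n le_rfl
        rw [← hp, hG] at this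
        exact this
      have hgl := g_lt (rot x)
      refine ⟨m, hm0, ?_, ?_⟩
      · intro j hj
        rcases Nat.lt_or_ge j (n+1) with h | h
        · exact hm j (by omega)
        · have : j = n+1 := by omega
          subst this
          rw [hth, hG']
          exact hmx
      · left
        rw [hth, hG', hW, hss, htt]
        refine ⟨rfl, ?_, ?_, ?_⟩
        · rw [stp_zero, h0, h1]
          rw [min_eq_right (by linarith), max_eq_left (by linarith)]; ring
        · rw [stp_one]; exact le_max_right _ _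
        · rw [stp_one, h0, h1]
          apply max_le
          · apply max_le <;> linarith
          · norm_num

/-- uniform smallness of the running minimum -/
lemma unif (δ : ℝ) (hδ : 0 < δ) : ∃ N : ℕ, ∀ ω : Om, ∃ j ≤ N, G (th^[j] ω) < δ := by
  -- open set V of points with small g
  set e : ℝ := min (2*δ) 1 with he
  have he0 : 0 < e := by positivity
  have he1 : e ≤ 1 := min_le_right _ _
  have he2 : e ≤ 2*δ := min_le_left _ _
  let V : Set X := (fun y : ℝ => (y : X)) '' Set.Ioo 0 e
  have hV : IsOpen V := by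
    exact QuotientAddGroup.isOpenMap_coe _ isOpen_Ioo
  have hVg : ∀ x ∈ V, g x < δ := by
    rintro x ⟨y, hy, rfl⟩
    simp only
    rw [g_mk]
    have : Int.fract y = y := by
      rw [Int.fract_eq_self]; exact ⟨hy.1.le, lt_of_lt_of_le hy.2 he1⟩
    rw [this]
    linarith [hy.2]
  have hVne : V.Nonempty := ⟨_, e/2, ⟨by linarith, by linarith⟩, rfl⟩
  have hcov : (Set.univ : Set X) ⊆ ⋃ j : ℕ, {x : X | x + j • (al : X) ∈ V} := by
    intro x _
    rw [Set.mem_iUnion]
    have hd := dense_orbit
    have ho : IsOpen {z : X | x + z ∈ V} := hV.preimage (continuous_const.add continuous_id)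
    have hne : {z : X | x + z ∈ V}.Nonempty := by
      obtain ⟨v, hv⟩ := hVne
      exact ⟨v - x, by simpa using hv⟩
    obtain ⟨j, hj⟩ := hd.exists_mem_open ho hne
    exact ⟨j, hj⟩
  obtain ⟨F, hF⟩ := isCompact_univ.elim_finite_subcover (fun j : ℕ => {x : X | x + j • (al : X) ∈ V})
    (fun j => hV.preimage (continuous_id.add continuous_const)) hcov
  have key : ∃ N : ℕ, ∀ x : X, ∃ j ≤ N, x + j • (al : X) ∈ V := by
    refine ⟨F.sup id, fun x => ?_⟩
    have := hF (Set.mem_univ x)
    simp only [Set.mem_iUnion] at this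
    obtain ⟨j, hj, hx⟩ := this
    exact ⟨j, Finset.le_sup (f := id) hj, hx⟩
  obtain ⟨N, hN⟩ := key
  have hit : ∀ (j : ℕ) (x : X), th^[2*j] (x,false) = (x + j • (al : X), false) := by
    intro j
    induction j with
    | zero => intro x; simp
    | succ j ih =>
      intro x
      rw [show 2*(j+1) = 2*j+1+1 from by ring, Function.iterate_succ_apply', Function.iterate_succ_apply', ih, th_f, th_t, rot]
      rw [succ_nsmul, add_assoc]
  refine ⟨2*N+1, ?_⟩
  rintro ⟨x, b⟩
  rcases b with _ | _
  · obtain ⟨j, hj, hx⟩ := hN x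
    refine ⟨2*j, by omega, ?_⟩
    rw [hit]
    simp only [G]
    simpa using hVg _ hx
  · obtain ⟨j, hj, hx⟩ := hN (rot x)
    refine ⟨2*j+1, by omega, ?_⟩
    rw [Function.iterate_succ_apply, th_t, hit]
    simp only [G]
    simpa using hVg _ hx

lemma mu_G (c d : ℝ) : mu {p | c ≤ G p ∧ G p ≤ c + d} ≤ ENNReal.ofReal (2*d) := by
  have hm : MeasurableSet {p : Om | c ≤ G p ∧ G p ≤ c + d} := 
    (measurableSet_le measurable_const G_meas).inter (measurableSet_le G_meas measurable_const)
  rw [mu_apply hm]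
  have e1 : {x : X | (x,false) ∈ {p : Om | c ≤ G p ∧ G p ≤ c + d}} = {x | c ≤ g x ∧ g x ≤ c + d} := by
    ext x; simp [G]
  have e2 : {x : X | (x,true) ∈ {p : Om | c ≤ G p ∧ G p ≤ c + d}} = rot ⁻¹' {x | c ≤ g x ∧ g x ≤ c + d} := by
    ext x; simp [G]
  have hm' : MeasurableSet {x : X | c ≤ g x ∧ g x ≤ c + d} := 
    (measurableSet_le measurable_const g_meas).inter (measurableSet_le g_meas measurable_const)
  rw [e1, e2, rot_ergodic.toMeasurePreserving.measure_preimage hm'.nullMeasurableSet]
  rw [← add_mul]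
  have : (1/2 : ENNReal) + 1/2 = 1 := ENNReal.add_halves 1
  rw [this, one_mul]
  exact vol_g c d

lemma pt_small (δ : ℝ) (hδ : 0 < δ) : ∃ N : ℕ, ∀ n ≥ N, ∀ c : Fin 2 → ℝ, mu {ω | W n ω = c} ≤ ENNReal.ofReal (4*δ) := by
  obtain ⟨N, hN⟩ := unif δ hδ
  refine ⟨N, fun n hn c => ?_⟩
  have hsub : {ω | W n ω = c} ⊆ th^[n] ⁻¹' {p | c 0 ≤ G p ∧ G p ≤ c 0 + δ} ∪ th^[n] ⁻¹' {p | c 1 ≤ G p ∧ G p ≤ c 1 + δ} := by
    intro ω hω
    simp only [Set.mem_ofPred_eq] at hω
    obtain ⟨m, hm0, hm, hc⟩ := inv ω n
    obtain ⟨j, hj, hjδ⟩ := hN ω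
    have hmδ : m < δ := lt_of_le_of_lt (hm j (by omega)) hjδ
    rcases hc with ⟨h2, h0, h1a, h1b⟩ | ⟨h2, h0, h1⟩
    · left
      simp only [Set.mem_preimage, Set.mem_ofPred_eq]
      rw [hω] at h0
      constructor <;> linarith
    · right
      simp only [Set.mem_preimage, Set.mem_ofPred_eq]
      rw [hω] at h1
      constructor <;> linarith
  have hm : ∀ a : ℝ, MeasurableSet {p : Om | a ≤ G p ∧ G p ≤ a + δ} := fun a =>
    (measurableSet_le measurable_const G_meas).inter (measurableSet_le G_meas measurable_const)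
  have mp := th_mp.iterate n
  calc mu {ω | W n ω = c} ≤ mu (th^[n] ⁻¹' {p | c 0 ≤ G p ∧ G p ≤ c 0 + δ} ∪ th^[n] ⁻¹' {p | c 1 ≤ G p ∧ G p ≤ c 1 + δ}) := measure_mono hsub
    _ ≤ mu (th^[n] ⁻¹' {p | c 0 ≤ G p ∧ G p ≤ c 0 + δ}) + mu (th^[n] ⁻¹' {p | c 1 ≤ G p ∧ G p ≤ c 1 + δ}) := measure_union_le _ _
    _ = mu {p | c 0 ≤ G p ∧ G p ≤ c 0 + δ} + mu {p | c 1 ≤ G p ∧ G p ≤ c 1 + δ} := by
        rw [mp.measure_preimage (hm _).nullMeasurableSet, mp.measure_preimage (hm _).nullMeasurableSet]
    _ ≤ ENNReal.ofReal (2*δ) + ENNReal.ofReal (2*δ) := add_le_add (mu_G _ _) (mu_G _ _)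
    _ = ENNReal.ofReal (4*δ) := by
        rw [← ENNReal.ofReal_add (by positivity) (by positivity)]; congr 1; ring

lemma W_fin (n : ℕ) : (Set.range (W n)).Finite := by
  induction n with
  | zero => 
    apply (Set.finite_singleton (0 : Fin 2 → ℝ)).subset
    rintro _ ⟨ω, rfl⟩
    simp [W]
  | succ n ih =>
    have hs : ({1/2, 1 + al/2, 1 + (al-1)/2} : Set ℝ).Finite := by simp
    have ht : ({0, 1} : Set ℝ).Finite := by simp
    have hfin : ((fun q : (Fin 2 → ℝ) × ℝ × ℝ => stp q.1 q.2.1 q.2.2) '' (Set.range (W n) ×ˢ (({1/2, 1 + al/2, 1 + (al-1)/2} : Set ℝ) ×ˢ ({0,1} : Set ℝ)))).Finite := 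
      (ih.prod (hs.prod ht)).image _
    apply hfin.subset
    rintro _ ⟨ω, rfl⟩
    refine ⟨(W n ω, ss (th^[n] ω), tt (th^[n] ω)), ⟨⟨ω, rfl⟩, ?_, ?_⟩, rfl⟩
    · simp only [ss]
      split_ifs
      · simp
      · rcases g_rot (th^[n] ω).1 with h | h
        · rw [h]; simp
        · rw [h]; simp
    · simp only [tt]
      split_ifs <;> simp

lemma ss_meas : Measurable ss := by
  unfold ss
  apply Measurable.ite
  · exact measurable_snd (measurableSet_singleton true)
  · exact measurable_const
  · exact measurable_const.add (((g_meas.comp rot_meas).comp measurable_fst).sub (g_meas.comp measurable_fst))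

lemma tt_meas : Measurable tt := by
  unfold tt
  apply Measurable.ite
  · exact measurable_snd (measurableSet_singleton true)
  · exact measurable_const
  · exact measurable_const

lemma ss_bd (p : Om) : 0 ≤ ss p ∧ ss p ≤ 2 := by
  unfold ss
  have h1 := g_nonneg p.1
  have h2 := g_lt p.1
  have h3 := g_nonneg (rot p.1)
  have h4 := g_lt (rot p.1)
  split_ifs
  · norm_num
  · constructor <;> linarith

lemma tt_bd (p : Om) : 0 ≤ tt p ∧ tt p ≤ 1 := by
  unfold tt
  split_ifs <;> norm_num

lemma ss_int : Integrable ss mu := by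
  apply Integrable.of_bound ss_meas.aestronglyMeasurable 2
  filter_upwards with p
  rw [Real.norm_eq_abs, abs_of_nonneg (ss_bd p).1]; exact (ss_bd p).2

lemma tt_int : Integrable tt mu := by
  apply Integrable.of_bound tt_meas.aestronglyMeasurable 1
  filter_upwards with p
  rw [Real.norm_eq_abs, abs_of_nonneg (tt_bd p).1]; exact (tt_bd p).2

lemma integ (f : Om → ℝ) (hf : Measurable f) (hb : ∀ p, |f p| ≤ 2) : ∫ p, f p ∂mu = (1/2) * ∫ x, f (x,false) ∂(volume : Measure X) + (1/2) * ∫ x, f (x,true) ∂(volume : Measure X) := by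
  unfold mu
  have i1 : Integrable f ((volume : Measure X).map (fun x => ((x, false) : Om))) := by
    have : IsFiniteMeasure ((volume : Measure X).map (fun x => ((x, false) : Om))) := inferInstance
    apply Integrable.of_bound hf.aestronglyMeasurable 2
    filter_upwards with p using hb p
  have i2 : Integrable f ((volume : Measure X).map (fun x => ((x, true) : Om))) := by
    have : IsFiniteMeasure ((volume : Measure X).map (fun x => ((x, true) : Om))) := inferInstance
    apply Integrable.of_bound hf.aestronglyMeasurable 2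
    filter_upwards with p using hb p
  rw [integral_add_measure (i1.smul_measure (by simp)) (i2.smul_measure (by simp))]
  rw [integral_smul_measure, integral_smul_measure]
  rw [integral_map meas_f.aemeasurable hf.aestronglyMeasurable, integral_map meas_t.aemeasurable hf.aestronglyMeasurable]
  simp

lemma int_tt : ∫ p, tt p ∂mu = 1/2 := by
  rw [integ tt tt_meas (fun p => by rw [abs_of_nonneg (tt_bd p).1]; linarith [(tt_bd p).2])]
  have hv : (volume : Measure X).real Set.univ = 1 := by
    simp [Measure.real]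
  simp [tt, hv]

lemma int_g_rot : ∫ x, g (rot x) ∂(volume : Measure X) = ∫ x, g x ∂(volume : Measure X) := by
  have := rot_ergodic.toMeasurePreserving.map_eq
  conv_rhs => rw [← this]
  rw [integral_map rot_meas.aemeasurable g_meas.aestronglyMeasurable]

lemma int_ss : ∫ p, ss p ∂mu = 3/4 := by
  rw [integ ss ss_meas (fun p => by rw [abs_of_nonneg (ss_bd p).1]; exact (ss_bd p).2)]
  have hv : (volume : Measure X).real Set.univ = 1 := by
    simp [Measure.real]
  have ig : Integrable g (volume : Measure X) := by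
    apply Integrable.of_bound g_meas.aestronglyMeasurable (1/2)
    filter_upwards with x
    rw [Real.norm_eq_abs, abs_of_nonneg (g_nonneg x)]; exact (g_lt x).le
  have igr : Integrable (fun x => g (rot x)) (volume : Measure X) := by
    apply Integrable.of_bound (g_meas.comp rot_meas).aestronglyMeasurable (1/2)
    filter_upwards with x
    rw [Real.norm_eq_abs]
    change |g (rot x)| ≤ _
    rw [abs_of_nonneg (g_nonneg _)]; exact (g_lt _).le
  have h1 : ∫ x, ss (x,false) ∂(volume : Measure X) = 1 := by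
    have : (fun x : X => ss (x,false)) = fun x => 1 + (g (rot x) - g x) := by
      funext x; simp [ss]
    have e2 : ∫ x, (1 + (g (rot x) - g x)) ∂(volume : Measure X) = ∫ _x, (1:ℝ) ∂(volume : Measure X) + ∫ x, (g (rot x) - g x) ∂(volume : Measure X) := 
      integral_add (integrable_const _) (igr.sub ig)
    have e3 : ∫ x, (g (rot x) - g x) ∂(volume : Measure X) = ∫ x, g (rot x) ∂(volume : Measure X) - ∫ x, g x ∂(volume : Measure X) := 
      integral_sub igr ig
    rw [this, e2, e3, int_g_rot]
    simp [hv]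
  have h2 : ∫ x, ss (x,true) ∂(volume : Measure X) = 1/2 := by
    have : (fun x : X => ss (x,true)) = fun x => 1/2 := by
      funext x; simp [ss]
    rw [this]; simp [hv]
  rw [h1, h2]; norm_num

/-- The negation of the preceding statement: For any stationary ergodic nonnegative integrable input with E service < m·E interarrival, the Kiefer–Wolfowitz workload vectors started at zero converge in total variation to some probability law. -/
theorem result :
    ¬ (∀ (Ω : Type) [MeasurableSpace Ω] (μ : Measure Ω) [IsProbabilityMeasure μ]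
    (θ : Ω → Ω) (k : ℕ) (t σ : Ω → ℝ) (W : ℕ → Ω → (Fin (k+1) → ℝ)),
    Ergodic θ μ → Integrable t μ → Integrable σ μ →
    (∀ᵐ ω ∂μ, 0 ≤ t ω) → (∀ᵐ ω ∂μ, 0 ≤ σ ω) →
    ∫ ω, σ ω ∂μ < ((k : ℝ) + 1) * ∫ ω, t ω ∂μ →
    (∀ ω, W 0 ω = 0) →
    (∀ (n : ℕ) (ω : Ω), W (n+1) ω =
      (fun i : Fin (k+1) =>
        max ((W n ω + (Pi.single 0 (σ (θ^[n] ω)) : Fin (k+1) → ℝ)
                - (fun _ : Fin (k+1) => t (θ^[n] ω)))
              (Tuple.sort (W n ω + (Pi.single 0 (σ (θ^[n] ω)) : Fin (k+1) → ℝ)
                - (fun _ : Fin (k+1) => t (θ^[n] ω))) i)) 0)) →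
    ∃ π : Measure (Fin (k+1) → ℝ), IsProbabilityMeasure π ∧
      ∀ ε > (0 : ℝ), ∃ N : ℕ, ∀ n ≥ N, ∀ A : Set (Fin (k+1) → ℝ), MeasurableSet A →
        |(μ {ω | W n ω ∈ A}).toReal - (π A).toReal| < ε) := by
  intro H
  obtain ⟨π, hπ, hlim⟩ := H Om mu th 1 tt ss W th_ergodic tt_int ss_int
    (Filter.Eventually.of_forall fun p => (tt_bd p).1) (Filter.Eventually.of_forall fun p => (ss_bd p).1)
    (by rw [int_ss, int_tt]; norm_num) (fun _ => rfl) (fun _ _ => rfl)
  obtain ⟨N, hN⟩ := hlim (1/4) (by norm_num)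
  -- finite set of values at time N
  have hfin := W_fin N
  set F := hfin.toFinset with hF
  have hFm : MeasurableSet (Set.range (W N)) := hfin.measurableSet
  have h1 := hN N le_rfl (Set.range (W N)) hFm
  have e1 : {ω | W N ω ∈ Set.range (W N)} = Set.univ := by
    ext ω; simp
  rw [e1, measure_univ] at h1
  -- choose δ
  set K : ℝ := (F.card : ℝ) with hK
  have hK0 : 0 ≤ K := by positivity
  set δ : ℝ := 1 / (16 * (K + 1)) with hδ
  have hδ0 : 0 < δ := by positivity
  obtain ⟨N2, hN2⟩ := pt_small δ hδ0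
  have h2 := hN (max N N2) (le_max_left _ _) (Set.range (W N)) hFm
  have h3 : mu {ω | W (max N N2) ω ∈ Set.range (W N)} ≤ ENNReal.ofReal (1/4) := by
    have hsub : {ω | W (max N N2) ω ∈ Set.range (W N)} ⊆ ⋃ c ∈ F, {ω | W (max N N2) ω = c} := by
      intro ω hω
      simp only [Set.mem_iUnion]
      exact ⟨W (max N N2) ω, hfin.mem_toFinset.mpr hω, rfl⟩
    calc mu {ω | W (max N N2) ω ∈ Set.range (W N)} ≤ mu (⋃ c ∈ F, {ω | W (max N N2) ω = c}) := measure_mono hsub
      _ ≤ ∑ c ∈ F, mu {ω | W (max N N2) ω = c} := measure_biUnion_finset_le _ _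
      _ ≤ ∑ c ∈ F, ENNReal.ofReal (4*δ) := Finset.sum_le_sum fun c _ => hN2 _ (le_max_right _ _) c
      _ = ENNReal.ofReal (K * (4*δ)) := by
          rw [Finset.sum_const, nsmul_eq_mul, ENNReal.ofReal_mul hK0]
          congr 1
          rw [hK]; simp
      _ ≤ ENNReal.ofReal (1/4) := by
          apply ENNReal.ofReal_le_ofReal
          rw [hδ]
          rw [show K * (4 * (1/(16*(K+1)))) = (K / (K+1)) / 4 by field_simp; ring]
          have : K / (K+1) ≤ 1 := by
            rw [div_le_one (by positivity)]; linarith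
          linarith
  have h4 : (mu {ω | W (max N N2) ω ∈ Set.range (W N)}).toReal ≤ 1/4 := 
    ENNReal.toReal_le_of_le_ofReal (by norm_num) h3
  rw [ENNReal.toReal_one] at h1
  rw [abs_lt] at h1 h2
  linarith [h1.1, h1.2, h2.1, h2.2]

end Pool.Agent.S5736
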