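import Pool.Statements.S5749
import Pool.Agent.Helpers.H19DavM

set_option autoImplicit false
open MeasureTheory
open Pool Pool.MP_b4adac_pr

namespace Pool.Agent.S5749

/-- Over standard p-functions (Kingman's canonical Laplace form, continuous on [0,∞)), the infimum of those M in (0,1] for which p(1)=M forces a uniform positive lower bound on p over [0,1] equals 1/e. -/
theorem result :
    IsGLB {M : ℝ | M ∈ Set.Ioc (0:ℝ) 1 ∧ ∃ δ : ℝ, 0 < δ ∧ ∀ p : ℝ → ℝ,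
      (ContinuousOn p (Set.Ici 0) ∧ ∃ μ : Measure ℝ, μ (Set.Iic 0) = 0 ∧
        Integrable (fun x : ℝ => 1 - Real.exp (-x)) μ ∧ ∃ a : ℝ, 0 ≤ a ∧
        ∀ s : ℝ, 0 < s →
          (∫ t in Set.Ioi (0:ℝ), Real.exp (-(s * t)) * p t) *
            (s + a + ∫ x, (1 - Real.exp (-(s * x))) ∂μ) = 1) →
      p 1 = M → ∀ t ∈ Set.Icc (0:ℝ) 1, δ ≤ p t} (Real.exp (-1)) := by
  constructor
  · rintro M ⟨⟨hM0, hM1⟩, δ, hδ, hp⟩
    by_contra hlt
    rw [not_le] at hlt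
    obtain ⟨p, hpc, hp1, hp2⟩ := H19Dav.canon_upper M δ hM0 hlt hδ
    have h1 := hp p hpc hp1 (1/2) ⟨by norm_num, by norm_num⟩
    linarith
  · intro b hb
    refine le_of_forall_gt_imp_ge_of_dense fun M hM => ?_
    by_cases hM1 : M ≤ 1
    · obtain ⟨δ, hδ, h⟩ := H19Dav.canon_lower M hM
      exact hb ⟨⟨(Real.exp_pos _).trans hM, hM1⟩, δ, hδ, h⟩
    · obtain ⟨δ, hδ, h⟩ := H19Dav.canon_lower 1 (by
        have : Real.exp (-1) < Real.exp 0 := Real.exp_lt_exp.2 (by norm_num)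
        rwa [Real.exp_zero] at this)
      have h2 := hb ⟨⟨one_pos, le_rfl⟩, δ, hδ, h⟩
      linarith

end Pool.Agent.S5749
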