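import Pool.Statements.S5759
import Pool.Agent.H17.RA4
-- import your own Pool.Agent.* helpers here

set_option autoImplicit false
open Pool Pool.MP_ba3ff3_pr

namespace Pool.Agent.S5759
open Pool.Agent.H17.RA
open Classical in
noncomputable def ff (x : ℝ) (b : Bool) : ℝ := if h : ∃ s, enc s = x then enc (nt h.choose b) else 0

lemma ff_enc (s : St) (b : Bool) : ff (enc s) b = enc (nt s b) := by
  unfold ff
  have h : ∃ t, enc t = enc s := ⟨s, rfl⟩
  rw [dif_pos h, enc_inj h.choose_spec]

lemma enc_mem (s : St) : enc s ∈ Set.Icc (0:ℝ) 1 := by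
  have h1 := p_pos enc_PH s
  have h2 := p_le enc_PH s
  exact ⟨h1.le, by linarith⟩

open Classical in
noncomputable def ππ (π : ℕ × St → ENNReal) (w : ℕ) (x : ℝ) : ℝ := if h : ∃ s, enc s = x then (π (w, h.choose)).toReal else 0

lemma pi_enc (π : ℕ × St → ENNReal) (w : ℕ) (s : St) : ππ π w (enc s) = (π (w, s)).toReal := by
  unfold ππ
  have h : ∃ t, enc t = enc s := ⟨s, rfl⟩
  rw [dif_pos h, enc_inj h.choose_spec]

noncomputable def em (y : ℕ × St) : ℕ × ℝ := (y.1, enc y.2)

lemma em_inj : Function.Injective em := by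
  rintro ⟨w, s⟩ ⟨w', s'⟩ h
  simp only [em, Prod.mk.injEq] at h
  rw [h.1, enc_inj h.2]

lemma not_range (π : ℕ × St → ENNReal) (x : ℕ × ℝ) (hx : x ∉ Set.range em) : ππ π x.1 x.2 = 0 := by
  unfold ππ
  rw [dif_neg]
  rintro ⟨s, hs⟩
  apply hx
  exact ⟨(x.1, s), by simp [em, hs]⟩

/-- For some λ>0 and some update rule p↦f(p, success) on [0,1], the backlog/probability chain (Poisson(λ) arrivals, slot succeeds iff exactly one backlogged packet transmits) has a discrete stationary probability distribution. -/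
theorem result :
    ∃ lam : ℝ, 0 < lam ∧
      ∃ f : ℝ → Bool → ℝ,
        (∀ p ∈ Set.Icc (0:ℝ) 1, ∀ b : Bool, f p b ∈ Set.Icc (0:ℝ) 1) ∧
        ∃ π : ℕ → ℝ → ℝ,
          (∀ w p, 0 ≤ π w p) ∧
          (∀ w p, π w p ≠ 0 → p ∈ Set.Icc (0:ℝ) 1) ∧
          Summable (fun x : ℕ × ℝ => π x.1 x.2) ∧
          (∑' x : ℕ × ℝ, π x.1 x.2) = 1 ∧
          ∀ w' : ℕ, ∀ p' : ℝ,
            π w' p' = ∑' x : ℕ × ℝ, π x.1 x.2 *
              ((if x.1 ≤ w' + 1 ∧ f x.2 true = p' then
                  ((x.1 : ℝ) * x.2 * (1 - x.2) ^ (x.1 - 1)) *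
                    (Real.exp (-lam) * lam ^ (w' + 1 - x.1) / ((w' + 1 - x.1).factorial : ℝ))
                else 0) +
               (if x.1 ≤ w' ∧ f x.2 false = p' then
                  (1 - (x.1 : ℝ) * x.2 * (1 - x.2) ^ (x.1 - 1)) *
                    (Real.exp (-lam) * lam ^ (w' - x.1) / ((w' - x.1).factorial : ℝ))
                else 0)) := by
  obtain ⟨π, hπ1, hπ2⟩ := exists_stat enc_PH
  have hfin : ∀ y, π y ≠ ⊤ := fun y => ENNReal.ne_top_of_tsum_ne_top (by rw [hπ1]; simp) y
  refine ⟨lam, lam_pos, ff, ?_, ππ π, ?_, ?_, ?_, ?_, ?_⟩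
  · intro x _ b
    unfold ff
    split_ifs
    · exact enc_mem _
    · simp
  · intro w x
    unfold ππ
    split_ifs
    · exact ENNReal.toReal_nonneg
    · exact le_rfl
  · intro w x hx
    by_contra h
    apply hx
    unfold ππ
    rw [dif_neg]
    rintro ⟨s, rfl⟩
    exact h (enc_mem s)
  · rw [← em_inj.summable_iff (fun x hx => not_range π x hx)]
    have : (fun x : ℕ × ℝ => ππ π x.1 x.2) ∘ em = fun y => (π y).toReal := by
      funext y; exact pi_enc π y.1 y.2
    rw [this]
    exact ENNReal.summable_toReal (by rw [hπ1]; simp)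
  · have h1 : ∑' y, (fun x : ℕ × ℝ => ππ π x.1 x.2) (em y) = ∑' x : ℕ × ℝ, ππ π x.1 x.2 := 
      em_inj.tsum_eq (fun x hx => by
        by_contra h
        exact hx (not_range π x h))
    rw [← h1]
    have : ∀ y, (fun x : ℕ × ℝ => ππ π x.1 x.2) (em y) = (π y).toReal := fun y => pi_enc π y.1 y.2
    simp_rw [this]
    rw [← ENNReal.tsum_toReal_eq hfin, hπ1]; simp
  · intro w' p'
    set F : ℕ × ℝ → ℝ := fun x => ππ π x.1 x.2 *
              ((if x.1 ≤ w' + 1 ∧ ff x.2 true = p' then
                  ((x.1 : ℝ) * x.2 * (1 - x.2) ^ (x.1 - 1)) *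
                    (Real.exp (-lam) * lam ^ (w' + 1 - x.1) / ((w' + 1 - x.1).factorial : ℝ))
                else 0) +
               (if x.1 ≤ w' ∧ ff x.2 false = p' then
                  (1 - (x.1 : ℝ) * x.2 * (1 - x.2) ^ (x.1 - 1)) *
                    (Real.exp (-lam) * lam ^ (w' - x.1) / ((w' - x.1).factorial : ℝ))
                else 0)) with hF
    have h1 : ∑' y, F (em y) = ∑' x, F x := 
      em_inj.tsum_eq (fun x hx => by
        by_contra h
        apply hx
        simp only [hF]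
        rw [not_range π x h, zero_mul])
    rw [← h1]
    by_cases hp' : ∃ s', enc s' = p'
    · obtain ⟨s', rfl⟩ := hp'
      rw [pi_enc, hπ2]
      rw [ENNReal.tsum_toReal_eq]
      · congr 1
        funext y
        simp only [hF, em]
        rw [pi_enc, ENNReal.toReal_mul, P_eq enc_PH, ENNReal.toReal_ofReal (pr_nonneg enc_PH _ _)]
        unfold pr
        simp only [ff_enc]
        have e1 : ∀ b, (enc (nt y.2 b) = enc s') ↔ (nt y.2 b = s') := fun b => ⟨enc_inj, fun h => by rw [h]⟩
        simp only [e1]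
        rfl
      · intro y
        exact ENNReal.mul_ne_top (hfin y) (by rw [P_eq enc_PH]; exact ENNReal.ofReal_ne_top)
    · have h0 : ππ π w' p' = 0 := by
        unfold ππ; rw [dif_neg hp']
      rw [h0]
      have : ∀ y, F (em y) = 0 := by
        intro y
        simp only [hF, em, ff_enc]
        rw [if_neg (fun h => hp' ⟨_, h.2⟩), if_neg (fun h => hp' ⟨_, h.2⟩)]
        simp
      simp only [this, tsum_zero]

end Pool.Agent.S5759
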