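import Pool.Statements.S5774
import Pool.Agent.Helpers29.UC5

set_option autoImplicit false
open MeasureTheory Filter Topology
open Pool Pool.MP_c7dc48_pr

namespace Pool.Agent.S5774

open Pool.Agent.Helpers29.UC in
/-- the good realisations -/
def Om : Set (ℕ → ℕ → Bool) := {ω | ∀ a b : ℕ, ¬ Orth (ω a) (ω b)}

open Pool.Agent.Helpers29.UC in
/-- the class -/
def FF : Set ((ℕ → Bool) → ℝ) :=
  {f | ∃ ω ∈ Om, f = (Set.range ω).indicator 1} ∪ {f | ∃ c : ℝ, 0 ≤ c ∧ c ≤ 1 ∧ f = fun _ => c}

lemma FF_infinite : FF.Infinite := by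
  have hinj : Function.Injective (fun (n : ℕ) (_ : ℕ → Bool) => (1 : ℝ) / ((n : ℝ) + 1)) := by
    intro n n' h
    have h1 := congrFun h (fun _ => false)
    have h2 : (1 : ℝ) / ((n : ℝ) + 1) = 1 / ((n' : ℝ) + 1) := h1
    have h3 : ((n : ℝ) + 1) = ((n' : ℝ) + 1) := by
      have := congrArg (fun x : ℝ => 1 / x) h2
      simpa using this
    exact_mod_cast add_right_cancel h3
  refine Set.infinite_of_injective_forall_mem hinj fun n => Or.inr ⟨1 / ((n : ℝ) + 1), ?_, ?_, rfl⟩
  · positivity
  · rw [div_le_one (by positivity)]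
    have : (0 : ℝ) ≤ n := Nat.cast_nonneg n
    linarith

/-- The negation of the preceding statement: Take a stationary α-mixing process on X with marginal P0 and an infinite class of measurable functions into [0,B] whose empirical means converge uniformly in probability under i.i.d. P0 samples. Then empirical means along the process also converge uniformly in probability. -/
theorem result :
    ¬ (∀ (X : Type) [mX : MeasurableSpace X] (P : Measure (ℕ → X)) [IsProbabilityMeasure P]
    (P0 : Measure X) [IsProbabilityMeasure P0] (𝓕 : Set (X → ℝ)) (B : ℝ),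
    P.map (fun (ω : ℕ → X) (n : ℕ) => ω (n + 1)) = P →
    P0 = P.map (fun (ω : ℕ → X) => ω 0) →
    (∀ ε : ℝ, 0 < ε → ∃ K : ℕ, ∀ k : ℕ, K ≤ k → ∀ l : ℕ, ∀ A S : Set (ℕ → X),
       @MeasurableSet (ℕ → X)
         (⨆ (i : ℕ) (_ : i ≤ l), MeasurableSpace.comap (fun ω : ℕ → X => ω i) mX) A →
       @MeasurableSet (ℕ → X)
         (⨆ (i : ℕ) (_ : l + k ≤ i), MeasurableSpace.comap (fun ω : ℕ → X => ω i) mX) S →
       |P.real (A ∩ S) - P.real A * P.real S| ≤ ε) →
    𝓕.Infinite →
    (∀ f ∈ 𝓕, Measurable f ∧ ∀ x, 0 ≤ f x ∧ f x ≤ B) →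
    (∀ ε : ℝ, 0 < ε →
      Tendsto (fun m : ℕ => Measure.pi (fun _ : Fin m => P0)
        {x : Fin m → X | ∃ f ∈ 𝓕,
          ε < |(1 / (m : ℝ)) * ∑ i : Fin m, f (x i) - ∫ y, f y ∂P0|}) atTop (𝓝 0)) →
    (∀ ε : ℝ, 0 < ε →
      Tendsto (fun m : ℕ => P
        {ω : ℕ → X | ∃ f ∈ 𝓕,
          ε < |(1 / (m : ℝ)) * ∑ i ∈ Finset.range m, f (ω i) - ∫ y, f y ∂P0|}) atTop (𝓝 0))) := by
  intro H
  classical
  have hmr : ∀ ω : ℕ → ℕ → Bool, MeasurableSet (Set.range ω) :=
    fun ω => (Set.countable_range ω).measurableSet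
  have hint : ∀ ω : ℕ → ℕ → Bool,
      ∫ y, (Set.range ω).indicator (1 : (ℕ → Bool) → ℝ) y ∂Pool.Agent.Helpers29.UC.Q0 = 0 := by
    intro ω
    rw [integral_indicator_one (hmr ω), measureReal_def, Pool.Agent.Helpers29.UC.Q0_range]
    rfl
  have key := H (ℕ → Bool) Pool.Agent.Helpers29.UC.PP Pool.Agent.Helpers29.UC.Q0 FF 1
    Pool.Agent.Helpers29.UC.PP_shift Pool.Agent.Helpers29.UC.PP_marg.symm ?_ FF_infinite ?_ ?_
    (1 / 2) (by norm_num)
  · -- contradiction
    have hOm : ∀ᵐ ω ∂Pool.Agent.Helpers29.UC.PP, ω ∈ Om := by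
      unfold Om
      simp only [Set.mem_ofPred_eq]
      rw [ae_all_iff]
      intro a
      rw [ae_all_iff]
      intro b
      exact Pool.Agent.Helpers29.UC.chain_not_orth a b
    have hone : ∀ m : ℕ, 1 ≤ m → Pool.Agent.Helpers29.UC.PP
        {ω : ℕ → ℕ → Bool | ∃ f ∈ FF,
          (1 / 2 : ℝ) < |(1 / (m : ℝ)) * ∑ i ∈ Finset.range m, f (ω i) -
            ∫ y, f y ∂Pool.Agent.Helpers29.UC.Q0|} = 1 := by
      intro m hm
      apply le_antisymm prob_le_one
      have h1 : Pool.Agent.Helpers29.UC.PP Set.univ ≤ Pool.Agent.Helpers29.UC.PP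
        {ω : ℕ → ℕ → Bool | ∃ f ∈ FF,
          (1 / 2 : ℝ) < |(1 / (m : ℝ)) * ∑ i ∈ Finset.range m, f (ω i) -
            ∫ y, f y ∂Pool.Agent.Helpers29.UC.Q0|} := by
        apply measure_mono_ae
        filter_upwards [hOm] with ω hω _
        refine ⟨(Set.range ω).indicator 1, Or.inl ⟨ω, hω, rfl⟩, ?_⟩
        rw [hint]
        have h2 : ∀ i ∈ Finset.range m, (Set.range ω).indicator (1 : (ℕ → Bool) → ℝ) (ω i) = 1 := by
          intro i _
          rw [Set.indicator_of_mem (Set.mem_range_self i)]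
          rfl
        rw [Finset.sum_congr rfl h2]
        have hm' : (m : ℝ) ≠ 0 := by positivity
        simp only [Finset.sum_const, Finset.card_range, nsmul_eq_mul, mul_one, sub_zero]
        rw [one_div_mul_cancel hm']
        norm_num
      rwa [measure_univ] at h1
    have h0 := (key.congr' (f₂ := fun _ => (1 : ENNReal)) (by
      filter_upwards [eventually_ge_atTop 1] with m hm
      exact hone m hm))
    have := tendsto_nhds_unique h0 tendsto_const_nhds
    exact zero_ne_one this
  · -- mixing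
    intro ε hε
    obtain ⟨K, hK⟩ := exists_pow_lt_of_lt_one hε (show (1 / 2 : ℝ) < 1 by norm_num)
    refine ⟨K, fun k hk l A S hA hS => ?_⟩
    refine (Pool.Agent.Helpers29.UC.mixing k l hA hS).trans ?_
    have h1 : (1 / 2 : ℝ) ^ k ≤ (1 / 2) ^ K :=
      pow_le_pow_of_le_one (by norm_num) (by norm_num) hk
    have h2 : (0 : ℝ) ≤ (1 / 2) ^ k := by positivity
    linarith
  · -- boundedness
    rintro f (⟨ω, _, rfl⟩ | ⟨c, h0, h1, rfl⟩)
    · refine ⟨(measurable_indicator_const_iff (1 : ℝ)).2 (hmr ω), fun x => ?_⟩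
      by_cases h : x ∈ Set.range ω
      · rw [Set.indicator_of_mem h]
        exact ⟨zero_le_one, le_refl _⟩
      · rw [Set.indicator_of_notMem h]
        exact ⟨le_refl _, zero_le_one⟩
    · exact ⟨measurable_const, fun _ => ⟨h0, h1⟩⟩
  · -- iid
    intro ε hε
    obtain ⟨M, hM⟩ := exists_nat_gt (1 / ε)
    apply tendsto_const_nhds.congr'
    filter_upwards [eventually_ge_atTop (max M 1)] with m hm
    have hm1 : 1 ≤ m := (le_max_right _ _).trans hm
    have hm0 : (0 : ℝ) < m := by exact_mod_cast hm1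
    have hmM : (M : ℝ) ≤ m := by exact_mod_cast (le_max_left _ _).trans hm
    have hmε : 1 / (m : ℝ) < ε := by
      rw [div_lt_iff₀ hm0]
      have : 1 / ε < m := lt_of_lt_of_le hM hmM
      rw [div_lt_iff₀ hε] at this
      linarith
    symm
    have hgood : ∀ᵐ x ∂(Measure.pi (fun _ : Fin m => Pool.Agent.Helpers29.UC.Q0)),
        ∀ i j : Fin m, i ≠ j → Pool.Agent.Helpers29.UC.Orth (x i) (x j) := by
      rw [ae_all_iff]
      intro i
      rw [ae_all_iff]
      intro j
      by_cases hij : i = j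
      · exact Filter.Eventually.of_forall fun x h => absurd hij h
      · filter_upwards [Pool.Agent.Helpers29.UC.iid_orth hij] with x hx _
        exact hx
    refine measure_mono_null ?_ hgood
    rintro x ⟨f, hf, hlt⟩ hx
    rcases hf with ⟨ω, hω, rfl⟩ | ⟨c, h0, h1, rfl⟩
    · rw [hint, sub_zero] at hlt
      -- at most one point in the range
      have hle : ∑ i : Fin m, (Set.range ω).indicator (1 : (ℕ → Bool) → ℝ) (x i) ≤ 1 := by
        by_cases hex : ∃ i : Fin m, x i ∈ Set.range ω
        · obtain ⟨i, hi⟩ := hex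
          rw [Finset.sum_eq_single i]
          · rw [Set.indicator_of_mem hi]
            exact le_refl _
          · intro j _ hj
            rw [Set.indicator_of_notMem]
            intro hj'
            obtain ⟨a, ha⟩ := hj'
            obtain ⟨b, hb⟩ := hi
            apply hω a b
            rw [ha, hb]
            exact hx j i hj
          · intro h
            exact absurd (Finset.mem_univ i) h
        · push Not at hex
          rw [Finset.sum_eq_zero fun i _ => Set.indicator_of_notMem (hex i) _]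
          exact zero_le_one
      have hge : 0 ≤ ∑ i : Fin m, (Set.range ω).indicator (1 : (ℕ → Bool) → ℝ) (x i) :=
        Finset.sum_nonneg fun i _ => Set.indicator_nonneg (fun _ _ => zero_le_one) _
      rw [abs_of_nonneg (mul_nonneg (by positivity) hge)] at hlt
      have : 1 / (m : ℝ) * ∑ i : Fin m, (Set.range ω).indicator (1 : (ℕ → Bool) → ℝ) (x i) ≤
          1 / (m : ℝ) * 1 := mul_le_mul_of_nonneg_left hle (by positivity)
      linarith
    · have hc : (1 / (m : ℝ)) * ∑ _i : Fin m, c - ∫ _y, c ∂Pool.Agent.Helpers29.UC.Q0 = 0 := by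
        simp only [Finset.sum_const, Finset.card_univ, Fintype.card_fin, nsmul_eq_mul,
          integral_const, probReal_univ, one_smul]
        field_simp
        ring
      rw [hc, abs_zero] at hlt
      linarith

end Pool.Agent.S5774
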