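import Pool.Statements.S5786
import Mathlib

set_option autoImplicit false
open Pool Pool.MP_d45cb4_pr

namespace Pool.Agent.S5786

/-- The points of the 3-cube, numbered. -/
def pt (k : Fin 8) : Fin 3 → Bool := fun i => Nat.testBit k.1 i.1

/-- The even points of the 4-cube, numbered. -/
def ev (n : Fin 8) : Fin 4 → Bool :=
  ![Nat.testBit n.1 0, Nat.testBit n.1 1, Nat.testBit n.1 2,
    xor (Nat.testBit n.1 0) (xor (Nat.testBit n.1 1) (Nat.testBit n.1 2))]

/-- The parity of a point of the 4-cube. -/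
def par (v : Fin 4 → Bool) : Bool := xor (xor (v 0) (v 1)) (xor (v 2) (v 3))

lemma ev_par : ∀ n, par (ev n) = false := by decide

lemma ev_inj : ∀ n m, ev n = ev m → n = m := by decide

lemma pt_inj : ∀ n m, pt n = pt m → n = m := by decide

/-- The masks of the balanced linear threshold functions on the 3-cube. -/
def LL : List ℕ := [15, 23, 43, 51, 77, 85, 113, 142, 170, 178, 204, 212, 232, 240]

def toMask (b0 b1 b2 b3 b4 b5 b6 b7 : Bool) : ℕ :=
  b0.toNat + 2 * b1.toNat + 4 * b2.toNat + 8 * b3.toNat + 16 * b4.toNat + 32 * b5.toNat +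
    64 * b6.toNat + 128 * b7.toNat

lemma toMask_bit : ∀ b0 b1 b2 b3 b4 b5 b6 b7 : Bool, ∀ k : Fin 8,
    Nat.testBit (toMask b0 b1 b2 b3 b4 b5 b6 b7) k.1 = ![b0, b1, b2, b3, b4, b5, b6, b7] k := by
  decide +kernel

/-- No obstruction to being a threshold function on the quadruple. -/
def qd (a b c d : Bool) : Bool := !(a && b && !c && !d) && !(c && d && !a && !b)

def asum (b0 b1 b2 b3 b4 b5 b6 b7 : Bool) : Bool :=
  qd b0 b3 b1 b2 && qd b0 b5 b1 b4 && qd b0 b6 b2 b4 && qd b0 b7 b1 b6 && qd b0 b7 b2 b5 &&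
  qd b0 b7 b3 b4 && qd b1 b6 b2 b5 && qd b1 b6 b3 b4 && qd b2 b5 b3 b4 && qd b1 b7 b3 b5 &&
  qd b2 b7 b3 b6 && qd b4 b7 b5 b6

lemma mem_LL : ∀ b0 b1 b2 b3 b4 b5 b6 b7 : Bool, asum b0 b1 b2 b3 b4 b5 b6 b7 = true →
    b0.toNat + b1.toNat + b2.toNat + b3.toNat + b4.toNat + b5.toNat + b6.toNat + b7.toNat = 4 →
    toMask b0 b1 b2 b3 b4 b5 b6 b7 ∈ LL := by
  decide +kernel

/-- The code of the point `k`. -/
def code (a b c d k : ℕ) : ℕ :=
  (a.testBit k).toNat + 2 * (b.testBit k).toNat + 4 * (c.testBit k).toNat +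
    8 * (d.testBit k).toNat

/-- `k` is a deep point of the function with mask `m`. -/
def deepM (m k : ℕ) : Bool :=
  (m.testBit (k ^^^ 1) == m.testBit k) && (m.testBit (k ^^^ 2) == m.testBit k) &&
  (m.testBit (k ^^^ 4) == m.testBit k) && (m.testBit (k ^^^ 6) != m.testBit k) &&
  (m.testBit (k ^^^ 5) != m.testBit k) && (m.testBit (k ^^^ 3) != m.testBit k)

def oddL : List ℕ := [1, 2, 4, 7, 8, 11, 13, 14]

/-- the check for a quadruple of masks -/
def chk (a b c d : ℕ) : Bool :=
  (a ^^^ b ^^^ c ^^^ d != 0) ||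
  (List.range 8).any (fun k => (List.range 8).any (fun l => (k != l) &&
    (code a b c d k == code a b c d l))) ||
  oddL.any (fun o => (List.range 8).all (fun k =>
    ((code a b c d k != o ^^^ 1) || deepM a k) && ((code a b c d k != o ^^^ 2) || deepM b k) &&
    ((code a b c d k != o ^^^ 4) || deepM c k) && ((code a b c d k != o ^^^ 8) || deepM d k)))

lemma chk_all : LL.all (fun a => LL.all (fun b => LL.all (fun c => LL.all (fun d =>
    chk a b c d)))) = true := by
  decide +kernel

def mk (f : Fin 8 → Bool) : ℕ := toMask (f 0) (f 1) (f 2) (f 3) (f 4) (f 5) (f 6) (f 7)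

lemma mk_bit (f : Fin 8 → Bool) (k : Fin 8) : (mk f).testBit k.1 = f k := by
  have h := toMask_bit (f 0) (f 1) (f 2) (f 3) (f 4) (f 5) (f 6) (f 7) k
  unfold mk
  rw [h]
  fin_cases k <;> rfl

lemma toMask_lt (b0 b1 b2 b3 b4 b5 b6 b7 : Bool) : toMask b0 b1 b2 b3 b4 b5 b6 b7 < 2 ^ 8 := by
  have h : ∀ b0 b1 b2 b3 b4 b5 b6 b7 : Bool, toMask b0 b1 b2 b3 b4 b5 b6 b7 < 2 ^ 8 := by
    decide +kernel
  exact h _ _ _ _ _ _ _ _

lemma mk_lt (f : Fin 8 → Bool) : mk f < 2 ^ 8 := toMask_lt _ _ _ _ _ _ _ _

lemma comb (F : Fin 4 → Fin 8 → Bool)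
    (hasum : ∀ j, asum (F j 0) (F j 1) (F j 2) (F j 3) (F j 4) (F j 5) (F j 6) (F j 7) = true)
    (hbal : ∀ j, (F j 0).toNat + (F j 1).toNat + (F j 2).toNat + (F j 3).toNat + (F j 4).toNat +
      (F j 5).toNat + (F j 6).toNat + (F j 7).toNat = 4)
    (hpar : ∀ k, par (fun j => F j k) = false)
    (hinj : ∀ k l, (∀ j, F j k = F j l) → k = l) :
    ∃ o : Fin 4 → Bool, par o = true ∧
      ∀ k j, F j k = !(o j) → (∀ i, i ≠ j → F i k = o i) → deepM (mk (F j)) k.1 = true := by
  have hm : ∀ j, mk (F j) ∈ LL := fun j => mem_LL _ _ _ _ _ _ _ _ (hasum j) (hbal j)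
  have h := chk_all
  rw [List.all_eq_true] at h
  have h := h _ (hm 0)
  rw [List.all_eq_true] at h
  have h := h _ (hm 1)
  rw [List.all_eq_true] at h
  have h := h _ (hm 2)
  rw [List.all_eq_true] at h
  have h := h _ (hm 3)
  unfold chk at h
  rw [Bool.or_eq_true, Bool.or_eq_true] at h
  rcases h with (h | h) | h
  · exfalso
    have h0 : mk (F 0) ^^^ mk (F 1) ^^^ mk (F 2) ^^^ mk (F 3) = 0 := by
      apply Nat.eq_of_testBit_eq
      intro i
      rw [Nat.testBit_xor, Nat.testBit_xor, Nat.testBit_xor, Nat.zero_testBit]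
      rcases Nat.lt_or_ge i 8 with hi | hi
      · rw [mk_bit (F 0) ⟨i, hi⟩, mk_bit (F 1) ⟨i, hi⟩, mk_bit (F 2) ⟨i, hi⟩, mk_bit (F 3) ⟨i, hi⟩]
        have := hpar ⟨i, hi⟩
        unfold par at this
        rw [← this]
        simp only [Bool.xor_assoc]
      · have h2 : ∀ f, (mk f).testBit i = false := fun f =>
          Nat.testBit_lt_two_pow (lt_of_lt_of_le (mk_lt f) (Nat.pow_le_pow_right (by norm_num) hi))
        rw [h2, h2, h2, h2]
        rfl
    rw [h0] at h
    simp at h
  · exfalso
    rw [List.any_eq_true] at h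
    obtain ⟨k, hk, h⟩ := h
    rw [List.any_eq_true] at h
    obtain ⟨l, hl, h⟩ := h
    rw [List.mem_range] at hk hl
    rw [Bool.and_eq_true, bne_iff_ne, beq_iff_eq] at h
    obtain ⟨hkl, h⟩ := h
    unfold code at h
    have hk' := fun j => mk_bit (F j) ⟨k, hk⟩
    have hl' := fun j => mk_bit (F j) ⟨l, hl⟩
    simp only at hk' hl'
    rw [hk' 0, hk' 1, hk' 2, hk' 3, hl' 0, hl' 1, hl' 2, hl' 3] at h
    apply hkl
    have h3 : (⟨k, hk⟩ : Fin 8) = ⟨l, hl⟩ := by
      apply hinj
      have h4 : ∀ a b c d a' b' c' d' : Bool,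
          a.toNat + 2 * b.toNat + 4 * c.toNat + 8 * d.toNat =
          a'.toNat + 2 * b'.toNat + 4 * c'.toNat + 8 * d'.toNat →
          a = a' ∧ b = b' ∧ c = c' ∧ d = d' := by decide
      obtain ⟨e0, e1, e2, e3⟩ := h4 _ _ _ _ _ _ _ _ h
      intro j
      fin_cases j
      · exact e0
      · exact e1
      · exact e2
      · exact e3
    exact congrArg Fin.val h3
  · rw [List.any_eq_true] at h
    obtain ⟨o, ho, h⟩ := h
    rw [List.all_eq_true] at h
    refine ⟨fun j => o.testBit j.1, ?_, ?_⟩
    · clear h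
      revert o
      decide
    · intro k j hj hi
      have hk := h k.1 (List.mem_range.2 k.2)
      simp only [Bool.and_eq_true, Bool.or_eq_true, bne_iff_ne, ne_eq] at hk
      have hb := fun j => mk_bit (F j) k
      have hcode : code (mk (F 0)) (mk (F 1)) (mk (F 2)) (mk (F 3)) k.1 = o ^^^ (2 ^ j.1) := by
        unfold code
        rw [hb 0, hb 1, hb 2, hb 3]
        fin_cases j
        · have e0 : F 0 k = !(o.testBit 0) := hj
          have e1 : F 1 k = o.testBit 1 := hi 1 (by decide)
          have e2 : F 2 k = o.testBit 2 := hi 2 (by decide)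
          have e3 : F 3 k = o.testBit 3 := hi 3 (by decide)
          rw [e0, e1, e2, e3]
          clear hk hb hj hi e0 e1 e2 e3 h
          revert o
          decide
        · have e1 : F 1 k = !(o.testBit 1) := hj
          have e0 : F 0 k = o.testBit 0 := hi 0 (by decide)
          have e2 : F 2 k = o.testBit 2 := hi 2 (by decide)
          have e3 : F 3 k = o.testBit 3 := hi 3 (by decide)
          rw [e0, e1, e2, e3]
          clear hk hb hj hi e0 e1 e2 e3 h
          revert o
          decide
        · have e2 : F 2 k = !(o.testBit 2) := hj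
          have e0 : F 0 k = o.testBit 0 := hi 0 (by decide)
          have e1 : F 1 k = o.testBit 1 := hi 1 (by decide)
          have e3 : F 3 k = o.testBit 3 := hi 3 (by decide)
          rw [e0, e1, e2, e3]
          clear hk hb hj hi e0 e1 e2 e3 h
          revert o
          decide
        · have e3 : F 3 k = !(o.testBit 3) := hj
          have e0 : F 0 k = o.testBit 0 := hi 0 (by decide)
          have e1 : F 1 k = o.testBit 1 := hi 1 (by decide)
          have e2 : F 2 k = o.testBit 2 := hi 2 (by decide)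
          rw [e0, e1, e2, e3]
          clear hk hb hj hi e0 e1 e2 e3 h
          revert o
          decide
      obtain ⟨⟨⟨h0, h1⟩, h2⟩, h3⟩ := hk
      fin_cases j
      · rcases h0 with h0 | h0
        · exact absurd hcode h0
        · exact h0
      · rcases h1 with h1 | h1
        · exact absurd hcode h1
        · exact h1
      · rcases h2 with h2 | h2
        · exact absurd hcode h2
        · exact h2
      · rcases h3 with h3 | h3
        · exact absurd hcode h3
        · exact h3

/-- The value of an affine function at the point number `k`. -/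
noncomputable def aff (β w0 w1 w2 : ℝ) (k : Fin 8) : ℝ :=
  β + w0 * (if pt k 0 then 1 else 0) + w1 * (if pt k 1 then 1 else 0) +
    w2 * (if pt k 2 then 1 else 0)

lemma aff_vals (β w0 w1 w2 : ℝ) :
    aff β w0 w1 w2 0 = β ∧ aff β w0 w1 w2 1 = β + w0 ∧ aff β w0 w1 w2 2 = β + w1 ∧
    aff β w0 w1 w2 3 = β + w0 + w1 ∧ aff β w0 w1 w2 4 = β + w2 ∧
    aff β w0 w1 w2 5 = β + w0 + w2 ∧ aff β w0 w1 w2 6 = β + w1 + w2 ∧
    aff β w0 w1 w2 7 = β + w0 + w1 + w2 := by
  have e : ∀ (k : Fin 8) (i : Fin 3), pt k i = Nat.testBit k.1 i.1 := fun _ _ => rfl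
  refine ⟨?_, ?_, ?_, ?_, ?_, ?_, ?_, ?_⟩ <;>
  · unfold aff
    simp only [e]
    simp [Nat.testBit, Nat.shiftRight]

lemma qd_real (a b c d : ℝ) (h : a + b = c + d) (p q r s : Bool) (ha : p = decide (0 < a))
    (hb : q = decide (0 < b)) (hc : r = decide (0 < c)) (hd : s = decide (0 < d)) :
    qd p q r s = true := by
  subst ha hb hc hd
  unfold qd
  by_cases h1 : 0 < a <;> by_cases h2 : 0 < b <;> by_cases h3 : 0 < c <;> by_cases h4 : 0 < d <;>
    simp only [h1, h2, h3, h4, decide_true, decide_false] <;> first | rfl | (exfalso; linarith)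

lemma asum_real (β w0 w1 w2 : ℝ) (f : Fin 8 → Bool)
    (hf : ∀ k, f k = decide (0 < aff β w0 w1 w2 k)) :
    asum (f 0) (f 1) (f 2) (f 3) (f 4) (f 5) (f 6) (f 7) = true := by
  obtain ⟨h0, h1, h2, h3, h4, h5, h6, h7⟩ := aff_vals β w0 w1 w2
  unfold asum
  rw [qd_real _ _ _ _ ?_ _ _ _ _ (hf 0) (hf 3) (hf 1) (hf 2),
    qd_real _ _ _ _ ?_ _ _ _ _ (hf 0) (hf 5) (hf 1) (hf 4),
    qd_real _ _ _ _ ?_ _ _ _ _ (hf 0) (hf 6) (hf 2) (hf 4),
    qd_real _ _ _ _ ?_ _ _ _ _ (hf 0) (hf 7) (hf 1) (hf 6),
    qd_real _ _ _ _ ?_ _ _ _ _ (hf 0) (hf 7) (hf 2) (hf 5),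
    qd_real _ _ _ _ ?_ _ _ _ _ (hf 0) (hf 7) (hf 3) (hf 4),
    qd_real _ _ _ _ ?_ _ _ _ _ (hf 1) (hf 6) (hf 2) (hf 5),
    qd_real _ _ _ _ ?_ _ _ _ _ (hf 1) (hf 6) (hf 3) (hf 4),
    qd_real _ _ _ _ ?_ _ _ _ _ (hf 2) (hf 5) (hf 3) (hf 4),
    qd_real _ _ _ _ ?_ _ _ _ _ (hf 1) (hf 7) (hf 3) (hf 5),
    qd_real _ _ _ _ ?_ _ _ _ _ (hf 2) (hf 7) (hf 3) (hf 6),
    qd_real _ _ _ _ ?_ _ _ _ _ (hf 4) (hf 7) (hf 5) (hf 6)]
  · rfl
  all_goals linarith

/-- The numeric consequence of being a deep point. -/
lemma deep_real (β w0 w1 w2 M : ℝ) (f : Fin 8 → Bool)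
    (h1 : ∀ k, f k = true → M ≤ aff β w0 w1 w2 k)
    (h0 : ∀ k, f k = false → aff β w0 w1 w2 k ≤ -M) (k : Fin 8)
    (hd : deepM (mk f) k.1 = true) :
    (f k = true → 3 * M ≤ aff β w0 w1 w2 k) ∧ (f k = false → aff β w0 w1 w2 k ≤ -(3 * M)) := by
  obtain ⟨a0, a1, a2, a3, a4, a5, a6, a7⟩ := aff_vals β w0 w1 w2
  have b := mk_bit f
  have b0 := b 0
  have b1 := b 1
  have b2 := b 2
  have b3 := b 3
  have b4 := b 4
  have b5 := b 5
  have b6 := b 6
  have b7 := b 7
  simp only [Fin.isValue, Fin.coe_ofNat_eq_mod, Nat.zero_mod, Nat.one_mod, Nat.reduceMod] at b0 b1 b2 b3 b4 b5 b6 b7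
  unfold deepM at hd
  have t : ∀ j, f j = true → M ≤ aff β w0 w1 w2 j := h1
  have s : ∀ j, f j = false → aff β w0 w1 w2 j ≤ -M := h0
  have t0 := t 0
  have t1 := t 1
  have t2 := t 2
  have t3 := t 3
  have t4 := t 4
  have t5 := t 5
  have t6 := t 6
  have t7 := t 7
  have s0 := s 0
  have s1 := s 1
  have s2 := s 2
  have s3 := s 3
  have s4 := s 4
  have s5 := s 5
  have s6 := s 6
  have s7 := s 7
  rw [a0] at t0 s0
  rw [a1] at t1 s1
  rw [a2] at t2 s2
  rw [a3] at t3 s3
  rw [a4] at t4 s4
  rw [a5] at t5 s5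
  rw [a6] at t6 s6
  rw [a7] at t7 s7
  fin_cases k
  all_goals
    simp only [Fin.isValue, Fin.reduceFinMk, Fin.zero_eta, Fin.mk_one, a0, a1, a2, a3, a4, a5, a6, a7,
      Bool.and_eq_true, beq_iff_eq, bne_iff_ne, ne_eq, Nat.zero_xor, Nat.reduceXor, b0, b1, b2, b3,
      b4, b5, b6, b7] at hd ⊢
    obtain ⟨⟨⟨⟨⟨c1, c2⟩, c3⟩, c4⟩, c5⟩, c6⟩ := hd
    constructor
    · intro h
      rw [h] at c1 c2 c3 c4 c5 c6
      simp only [Bool.not_eq_true] at c4 c5 c6
      simp only [c1, c2, c3, c4, c5, c6, forall_const, reduceCtorEq, IsEmpty.forall_iff]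
        at t0 t1 t2 t3 t4 t5 t6 t7 s0 s1 s2 s3 s4 s5 s6 s7
      linarith
    · intro h
      rw [h] at c1 c2 c3 c4 c5 c6
      simp only [Bool.not_eq_false] at c4 c5 c6
      simp only [c1, c2, c3, c4, c5, c6, forall_const, reduceCtorEq, IsEmpty.forall_iff]
        at t0 t1 t2 t3 t4 t5 t6 t7 s0 s1 s2 s3 s4 s5 s6 s7
      linarith

/-- The exponent. -/
noncomputable def EE (W : Fin 3 → Fin 4 → ℝ) (b : Fin 4 → ℝ) (c : Fin 3 → ℝ)
    (v : Fin 4 → Bool) (h : Fin 3 → Bool) : ℝ :=
  ∑ i : Fin 3, ∑ j : Fin 4, W i j * (if h i then (1:ℝ) else 0) * (if v j then (1:ℝ) else 0)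
    + ∑ j : Fin 4, b j * (if v j then (1:ℝ) else 0)
    + ∑ i : Fin 3, c i * (if h i then (1:ℝ) else 0)

/-- The local field. -/
noncomputable def ll (W : Fin 3 → Fin 4 → ℝ) (b : Fin 4 → ℝ) (j : Fin 4) (h : Fin 3 → Bool) : ℝ :=
  b j + W 0 j * (if h 0 then 1 else 0) + W 1 j * (if h 1 then 1 else 0) +
    W 2 j * (if h 2 then 1 else 0)

lemma EE_eq (W : Fin 3 → Fin 4 → ℝ) (b : Fin 4 → ℝ) (c : Fin 3 → ℝ)
    (v : Fin 4 → Bool) (h : Fin 3 → Bool) :
    EE W b c v h = ∑ j : Fin 4, (if v j then (1:ℝ) else 0) * ll W b j h +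
      ∑ i : Fin 3, c i * (if h i then (1:ℝ) else 0) := by
  unfold EE ll
  simp only [Fin.sum_univ_three, Fin.sum_univ_four]
  ring

/-- Comparing two visible states for the same hidden state. -/
lemma EE_diff (W : Fin 3 → Fin 4 → ℝ) (b : Fin 4 → ℝ) (c : Fin 3 → ℝ)
    (v u : Fin 4 → Bool) (h : Fin 3 → Bool) :
    EE W b c v h - EE W b c u h =
      ((if v 0 then (1:ℝ) else 0) - (if u 0 then 1 else 0)) * ll W b 0 h +
      ((if v 1 then (1:ℝ) else 0) - (if u 1 then 1 else 0)) * ll W b 1 h +
      ((if v 2 then (1:ℝ) else 0) - (if u 2 then 1 else 0)) * ll W b 2 h +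
      ((if v 3 then (1:ℝ) else 0) - (if u 3 then 1 else 0)) * ll W b 3 h := by
  rw [EE_eq, EE_eq]
  simp only [Fin.sum_univ_four]
  ring

/-- The target distribution: almost the uniform distribution on the even points. -/
noncomputable def qq (v : Fin 4 → Bool) : ℝ := if par v then 1 / 10000 else 1 / 8 - 1 / 10000

lemma qq_sum : ∑ v, qq v = 1 := by
  unfold qq
  rw [Finset.sum_ite, Finset.sum_const, Finset.sum_const]
  have h1 : (Finset.univ.filter (fun v : Fin 4 → Bool => par v = true)).card = 8 := by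
    decide +kernel
  have h2 : (Finset.univ.filter (fun v : Fin 4 → Bool => ¬ par v = true)).card = 8 := by
    decide +kernel
  rw [h1, h2]
  norm_num

/-- The negation of the preceding statement: Every probability distribution on {0,1}^4 can be approximated arbitrarily well, in every coordinate, by the visible marginal of a restricted Boltzmann machine with 4 visible and 3 hidden binary units and real parameters. -/
theorem result :
    ¬ (∀ q : (Fin 4 → Bool) → ℝ, (∀ v, 0 ≤ q v) → ∑ v, q v = 1 →
    ∀ ε : ℝ, 0 < ε → ∃ (W : Fin 3 → Fin 4 → ℝ) (b : Fin 4 → ℝ) (c : Fin 3 → ℝ),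
      ∀ v : Fin 4 → Bool,
        |(∑ h : Fin 3 → Bool, Real.exp (∑ i : Fin 3, ∑ j : Fin 4,
              W i j * (if h i then (1:ℝ) else 0) * (if v j then (1:ℝ) else 0)
              + ∑ j : Fin 4, b j * (if v j then (1:ℝ) else 0)
              + ∑ i : Fin 3, c i * (if h i then (1:ℝ) else 0)))
          / (∑ v' : Fin 4 → Bool, ∑ h : Fin 3 → Bool, Real.exp (∑ i : Fin 3, ∑ j : Fin 4,
              W i j * (if h i then (1:ℝ) else 0) * (if v' j then (1:ℝ) else 0)
              + ∑ j : Fin 4, b j * (if v' j then (1:ℝ) else 0)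
              + ∑ i : Fin 3, c i * (if h i then (1:ℝ) else 0)))
          - q v| < ε) := by
  intro H
  obtain ⟨W, b, c, hW⟩ := H qq (by intro v; unfold qq; split_ifs <;> norm_num) qq_sum (1 / 20000)
    (by norm_num)
  change ∀ v, |(∑ h : Fin 3 → Bool, Real.exp (EE W b c v h)) /
    (∑ v' : Fin 4 → Bool, ∑ h : Fin 3 → Bool, Real.exp (EE W b c v' h)) - qq v| < 1 / 20000 at hW
  set Z : ℝ := ∑ v' : Fin 4 → Bool, ∑ h : Fin 3 → Bool, Real.exp (EE W b c v' h) with hZ
  have hZpos : 0 < Z := by
    rw [hZ]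
    exact Finset.sum_pos (fun v _ => Finset.sum_pos (fun h _ => Real.exp_pos _)
      Finset.univ_nonempty) Finset.univ_nonempty
  have hlow : ∀ v, (qq v - 1 / 20000) * Z < ∑ h : Fin 3 → Bool, Real.exp (EE W b c v h) := by
    intro v
    have := (abs_lt.1 (hW v)).1
    rw [← lt_div_iff₀ hZpos]
    linarith
  have hup : ∀ v, ∑ h : Fin 3 → Bool, Real.exp (EE W b c v h) < (qq v + 1 / 20000) * Z := by
    intro v
    have := (abs_lt.1 (hW v)).2
    rw [← div_lt_iff₀ hZpos]
    linarith
  have hcard : Fintype.card (Fin 3 → Bool) = 8 := by decide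
  -- every even point has a hidden state
  have hex : ∀ n : Fin 8, ∃ h : Fin 3 → Bool, (1 / 65) * Z ≤ Real.exp (EE W b c (ev n) h) := by
    intro n
    by_contra hcon
    push Not at hcon
    have h1 := hlow (ev n)
    have h2 : ∑ h : Fin 3 → Bool, Real.exp (EE W b c (ev n) h) ≤
        ∑ h : Fin 3 → Bool, (1 / 65) * Z := Finset.sum_le_sum (fun h _ => (hcon h).le)
    rw [Finset.sum_const, Finset.card_univ, hcard] at h2
    have h3 : qq (ev n) = 1 / 8 - 1 / 10000 := by unfold qq; rw [ev_par]; simp
    rw [h3] at h1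
    simp only [nsmul_eq_mul] at h2
    push_cast at h2
    nlinarith
  choose hf hhf using hex
  -- odd points have small mass
  have hodd : ∀ v, par v = true → ∀ h, Real.exp (EE W b c v h) < (3 / 20000) * Z := by
    intro v hv h
    have h1 := hup v
    have h3 : qq v = 1 / 10000 := by unfold qq; rw [hv]; simp
    rw [h3] at h1
    have h2 : Real.exp (EE W b c v h) ≤ ∑ h : Fin 3 → Bool, Real.exp (EE W b c v h) :=
      Finset.single_le_sum (f := fun h => Real.exp (EE W b c v h))
        (fun _ _ => (Real.exp_pos _).le) (Finset.mem_univ h)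
    linarith
  set M : ℝ := Real.log 100 with hM
  have hMexp : Real.exp M = 100 := Real.exp_log (by norm_num)
  have hMpos : 0 < M := Real.log_pos (by norm_num)
  have hstep : ∀ (n : Fin 8) (v : Fin 4 → Bool), par v = true →
      M ≤ EE W b c (ev n) (hf n) - EE W b c v (hf n) := by
    intro n v hv
    have h1 := hhf n
    have h2 := hodd v hv (hf n)
    rw [hM, Real.log_le_iff_le_exp (by norm_num), Real.exp_sub, le_div_iff₀ (Real.exp_pos _)]
    nlinarith
  -- the local fields at the chosen hidden states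
  have hfield : ∀ (n : Fin 8) (j : Fin 4),
      (ev n j = true → M ≤ ll W b j (hf n)) ∧ (ev n j = false → ll W b j (hf n) ≤ -M) := by
    intro n j
    have hp : par (Function.update (ev n) j (!(ev n j))) = true := by
      have : ∀ (n : Fin 8) (j : Fin 4), par (Function.update (ev n) j (!(ev n j))) = true := by
        decide
      exact this n j
    have h1 := hstep n _ hp
    rw [EE_diff] at h1
    fin_cases j <;>
    · simp [Function.update] at h1 ⊢
      constructor
      · intro h
        simp [h] at h1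
        linarith
      · intro h
        simp [h] at h1
        linarith
  have hsign : ∀ (n : Fin 8) (j : Fin 4), ev n j = decide (0 < ll W b j (hf n)) := by
    intro n j
    obtain ⟨h1, h2⟩ := hfield n j
    cases he : ev n j
    · have := h2 he
      symm
      rw [decide_eq_false_iff_not]
      linarith
    · have := h1 he
      symm
      rw [decide_eq_true_iff]
      linarith
  have hinj : Function.Injective hf := by
    intro n m hnm
    apply ev_inj
    funext j
    rw [hsign n j, hsign m j, hnm]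
  have hbij : Function.Bijective hf := by
    rw [Fintype.bijective_iff_injective_and_card]
    exact ⟨hinj, by decide⟩
  have ptbij : Function.Bijective pt := by
    rw [Fintype.bijective_iff_injective_and_card]
    exact ⟨fun n m h => pt_inj n m h, by decide⟩
  let σ : Fin 8 ≃ Fin 8 := (Equiv.ofBijective pt ptbij).trans (Equiv.ofBijective hf hbij).symm
  have hσ : ∀ k, hf (σ k) = pt k := by
    intro k
    exact (Equiv.ofBijective hf hbij).apply_symm_apply (pt k)
  let F : Fin 4 → Fin 8 → Bool := fun j k => decide (0 < ll W b j (pt k))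
  have hF : ∀ j k, F j k = ev (σ k) j := by
    intro j k
    rw [hsign (σ k) j, hσ]
  have haff : ∀ j k, ll W b j (pt k) = aff (b j) (W 0 j) (W 1 j) (W 2 j) k := by
    intro j k
    unfold ll aff
    rfl
  obtain ⟨o, ho, hdeep⟩ := comb F (fun j => asum_real _ _ _ _ (F j) (fun k => by
      rw [← haff])) (by
    intro j
    have h1 : ∑ k : Fin 8, (F j k).toNat = 4 := by
      have h2 : ∀ k, (F j k).toNat = (fun n => (ev n j).toNat) (σ k) := fun k => by rw [hF]
      rw [Finset.sum_congr rfl (fun k _ => h2 k), Equiv.sum_comp σ (fun n => (ev n j).toNat)]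
      have : ∀ j : Fin 4, ∑ n : Fin 8, (ev n j).toNat = 4 := by decide
      exact this j
    rw [← h1, Fin.sum_univ_eight]) (by
    intro k
    have : (fun j => F j k) = ev (σ k) := by funext j; exact hF j k
    rw [this]
    exact ev_par _) (by
    intro k l h
    apply σ.injective
    apply ev_inj
    funext j
    rw [← hF, ← hF]
    exact h j)
  -- bounds for the fields
  have hpos : ∀ j k, F j k = true → M ≤ aff (b j) (W 0 j) (W 1 j) (W 2 j) k := by
    intro j k h
    rw [← haff, ← hσ]
    rw [hF] at h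
    exact (hfield (σ k) j).1 h
  have hneg : ∀ j k, F j k = false → aff (b j) (W 0 j) (W 1 j) (W 2 j) k ≤ -M := by
    intro j k h
    rw [← haff, ← hσ]
    rw [hF] at h
    exact (hfield (σ k) j).2 h
  -- the main bound
  have hmain : ∀ h : Fin 3 → Bool, Real.exp (EE W b c o h) ≤ (1 / 1000000) * Z := by
    intro h
    obtain ⟨k, rfl⟩ := ptbij.2 h
    have hE : 3 * M ≤ EE W b c (fun j => F j k) (pt k) - EE W b c o (pt k) := by
      rw [EE_diff]
      have hpk : par (fun j => F j k) = false := by
        have : (fun j => F j k) = ev (σ k) := by funext j; exact hF j k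
        rw [this]
        exact ev_par _
      have t0 : ∀ j, F j k = o j →
          ((if F j k then (1:ℝ) else 0) - (if o j then 1 else 0)) * ll W b j (pt k) = 0 := by
        intro j hj
        rw [hj]
        ring
      have t1 : ∀ j, F j k = !(o j) →
          M ≤ ((if F j k then (1:ℝ) else 0) - (if o j then 1 else 0)) * ll W b j (pt k) := by
        intro j hj
        have e1 := hpos j k
        have e2 := hneg j k
        rw [haff]
        cases hFj : F j k
        · rw [hFj] at hj
          have ho2 : o j = true := by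
            cases ho2 : o j
            · rw [ho2] at hj; simp at hj
            · rfl
          rw [ho2]
          have := e2 hFj
          simp
          linarith
        · rw [hFj] at hj
          have ho2 : o j = false := by
            cases ho2 : o j
            · rfl
            · rw [ho2] at hj; simp at hj
          rw [ho2]
          have := e1 hFj
          simp
          linarith
      have t3 : ∀ j, F j k = !(o j) → (∀ i, i ≠ j → F i k = o i) →
          3 * M ≤ ((if F j k then (1:ℝ) else 0) - (if o j then 1 else 0)) * ll W b j (pt k) := by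
        intro j hj hi
        have e := deep_real _ _ _ _ M (F j) (hpos j) (hneg j) k (hdeep k j hj hi)
        rw [haff]
        cases hFj : F j k
        · rw [hFj] at hj
          have ho2 : o j = true := by
            cases ho2 : o j
            · rw [ho2] at hj; simp at hj
            · rfl
          rw [ho2]
          have := e.2 hFj
          simp
          linarith
        · rw [hFj] at hj
          have ho2 : o j = false := by
            cases ho2 : o j
            · rfl
            · rw [ho2] at hj; simp at hj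
          rw [ho2]
          have := e.1 hFj
          simp
          linarith
      have par1 : xor (xor (F 0 k) (F 1 k)) (xor (F 2 k) (F 3 k)) = false := hpk
      have par2 : xor (xor (o 0) (o 1)) (xor (o 2) (o 3)) = true := ho
      have alt : ∀ x y : Bool, x = y ∨ x = !y := by decide
      rcases alt (F 0 k) (o 0) with c0 | c0 <;> rcases alt (F 1 k) (o 1) with c1 | c1 <;>
        rcases alt (F 2 k) (o 2) with c2 | c2 <;> rcases alt (F 3 k) (o 3) with c3 | c3
      · exfalso; rw [c0, c1, c2, c3, par2] at par1; simp at par1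
      · rw [t0 0 c0, t0 1 c1, t0 2 c2]
        have := t3 3 c3 (by intro i hi; fin_cases i <;> first | exact c0 | exact c1 | exact c2 | exact absurd rfl hi)
        linarith
      · rw [t0 0 c0, t0 1 c1, t0 3 c3]
        have := t3 2 c2 (by intro i hi; fin_cases i <;> first | exact c0 | exact c1 | exact c3 | exact absurd rfl hi)
        linarith
      · exfalso; revert par1 par2; rw [c0, c1, c2, c3]
        generalize o 0 = x0; generalize o 1 = x1; generalize o 2 = x2; generalize o 3 = x3
        revert x0 x1 x2 x3; decide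
      · rw [t0 0 c0, t0 2 c2, t0 3 c3]
        have := t3 1 c1 (by intro i hi; fin_cases i <;> first | exact c0 | exact c2 | exact c3 | exact absurd rfl hi)
        linarith
      · exfalso; revert par1 par2; rw [c0, c1, c2, c3]
        generalize o 0 = x0; generalize o 1 = x1; generalize o 2 = x2; generalize o 3 = x3
        revert x0 x1 x2 x3; decide
      · exfalso; revert par1 par2; rw [c0, c1, c2, c3]
        generalize o 0 = x0; generalize o 1 = x1; generalize o 2 = x2; generalize o 3 = x3
        revert x0 x1 x2 x3; decide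
      · rw [t0 0 c0]
        have := t1 1 c1
        have := t1 2 c2
        have := t1 3 c3
        linarith
      · rw [t0 1 c1, t0 2 c2, t0 3 c3]
        have := t3 0 c0 (by intro i hi; fin_cases i <;> first | exact c1 | exact c2 | exact c3 | exact absurd rfl hi)
        linarith
      · exfalso; revert par1 par2; rw [c0, c1, c2, c3]
        generalize o 0 = x0; generalize o 1 = x1; generalize o 2 = x2; generalize o 3 = x3
        revert x0 x1 x2 x3; decide
      · exfalso; revert par1 par2; rw [c0, c1, c2, c3]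
        generalize o 0 = x0; generalize o 1 = x1; generalize o 2 = x2; generalize o 3 = x3
        revert x0 x1 x2 x3; decide
      · rw [t0 1 c1]
        have := t1 0 c0
        have := t1 2 c2
        have := t1 3 c3
        linarith
      · exfalso; revert par1 par2; rw [c0, c1, c2, c3]
        generalize o 0 = x0; generalize o 1 = x1; generalize o 2 = x2; generalize o 3 = x3
        revert x0 x1 x2 x3; decide
      · rw [t0 2 c2]
        have := t1 0 c0
        have := t1 1 c1
        have := t1 3 c3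
        linarith
      · rw [t0 3 c3]
        have := t1 0 c0
        have := t1 1 c1
        have := t1 2 c2
        linarith
      · exfalso; revert par1 par2; rw [c0, c1, c2, c3]
        generalize o 0 = x0; generalize o 1 = x1; generalize o 2 = x2; generalize o 3 = x3
        revert x0 x1 x2 x3; decide
    have h1 : Real.exp (EE W b c (fun j => F j k) (pt k)) ≤ Z := by
      rw [hZ]
      refine le_trans ?_ (Finset.single_le_sum
        (f := fun v => ∑ h : Fin 3 → Bool, Real.exp (EE W b c v h))
        (fun _ _ => Finset.sum_nonneg (fun _ _ => (Real.exp_pos _).le))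
        (Finset.mem_univ (fun j => F j k)))
      exact Finset.single_le_sum (f := fun h => Real.exp (EE W b c (fun j => F j k) h))
        (fun _ _ => (Real.exp_pos _).le) (Finset.mem_univ (pt k))
    have h2 : Real.exp (3 * M) ≤ Real.exp (EE W b c (fun j => F j k) (pt k)) /
        Real.exp (EE W b c o (pt k)) := by
      rw [← Real.exp_sub]
      exact Real.exp_le_exp.2 hE
    rw [le_div_iff₀ (Real.exp_pos _)] at h2
    have h3 : Real.exp (3 * M) = 1000000 := by
      have : Real.exp (3 * M) = (Real.exp M) ^ 3 := by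
        rw [← Real.exp_nat_mul]
        norm_num
      rw [this, hMexp]
      norm_num
    rw [h3] at h2
    linarith
  have h1 := hlow o
  have h2 : ∑ h : Fin 3 → Bool, Real.exp (EE W b c o h) ≤
      ∑ h : Fin 3 → Bool, (1 / 1000000) * Z := Finset.sum_le_sum (fun h _ => hmain h)
  rw [Finset.sum_const, Finset.card_univ, hcard] at h2
  have h3 : qq o = 1 / 10000 := by unfold qq; rw [ho]; simp
  rw [h3] at h1
  simp only [nsmul_eq_mul] at h2
  push_cast at h2
  nlinarith

end Pool.Agent.S5786
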