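import Pool.Statements.S5800
import Pool.Agent.H16.NW4

set_option autoImplicit false
open Classical
open Pool Pool.MP_e18aa1_pr

namespace Pool.Agent.S5800

/-- The negation of the preceding statement: For each C≥1 there is K such that on any connected finite graph, if positive node weights change by factor ≤C, the lazy weighted walk's 1/4-TV mixing time grows by at most factor K. -/
theorem result :
    ¬ (∀ C : ℝ, 1 ≤ C → ∃ K : ℝ, 0 < K ∧
    ∀ (n : ℕ) (G : SimpleGraph (Fin n)), G.Connected →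
    ∀ (W W' : Fin n → ℝ), (∀ v, 0 < W v) → (∀ v, W v ≤ C * W' v ∧ W' v ≤ C * W v) →
    ∀ t : ℕ,
      (∀ x : Fin n, (1/2 : ℝ) * ∑ y : Fin n,
        |((Matrix.of (fun u v : Fin n => (if u = v then (1/2 : ℝ) else 0) +
            (if G.Adj u v then W v / (2 * (∑ w : Fin n, if G.Adj u w then W w else 0)) else 0))) ^ t) x y
          - W y * (∑ w : Fin n, if G.Adj y w then W w else 0) /
              (∑ z : Fin n, W z * (∑ w : Fin n, if G.Adj z w then W w else 0))| ≤ 1/4) →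
      (∀ x : Fin n, (1/2 : ℝ) * ∑ y : Fin n,
        |((Matrix.of (fun u v : Fin n => (if u = v then (1/2 : ℝ) else 0) +
            (if G.Adj u v then W' v / (2 * (∑ w : Fin n, if G.Adj u w then W' w else 0)) else 0))) ^ ⌈K * (t : ℝ)⌉₊) x y
          - W' y * (∑ w : Fin n, if G.Adj y w then W' w else 0) /
              (∑ z : Fin n, W' z * (∑ w : Fin n, if G.Adj z w then W' w else 0))| ≤ 1/4)) := by
  intro h
  obtain ⟨K, hK, h⟩ := h 2 (by norm_num)
  obtain ⟨N, J, u, t, hu, h1, x, hx⟩ := Pool.Agent.H16.NW.example' K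
  have hpos : ∀ aL aR : ℝ, 0 < aL → 0 < aR → ∀ v : Pool.Agent.H16.NW.VV N J,
      0 < Pool.Agent.H16.NW.aa N J aL aR v * u ^ Pool.Agent.H16.NW.dep N J v := by
    intro aL aR hL hR v
    refine mul_pos ?_ (pow_pos hu _)
    rcases v with ⟨s, j, τ⟩ | b
    · simp only [Pool.Agent.H16.NW.aa]; split_ifs <;> assumption
    · simp only [Pool.Agent.H16.NW.aa]; norm_num
  have hcomp : ∀ v : Pool.Agent.H16.NW.VV N J,
      Pool.Agent.H16.NW.aa N J 2 1 v * u ^ Pool.Agent.H16.NW.dep N J v ≤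
        2 * (Pool.Agent.H16.NW.aa N J 1 2 v * u ^ Pool.Agent.H16.NW.dep N J v) ∧
      Pool.Agent.H16.NW.aa N J 1 2 v * u ^ Pool.Agent.H16.NW.dep N J v ≤
        2 * (Pool.Agent.H16.NW.aa N J 2 1 v * u ^ Pool.Agent.H16.NW.dep N J v) := by
    intro v
    have hp : 0 < u ^ Pool.Agent.H16.NW.dep N J v := pow_pos hu _
    rcases v with ⟨s, j, τ⟩ | b
    · simp only [Pool.Agent.H16.NW.aa]; split_ifs <;> constructor <;> nlinarith
    · simp only [Pool.Agent.H16.NW.aa]; constructor <;> nlinarith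
  let e := (Fintype.equivFin (Pool.Agent.H16.NW.VV N J)).symm
  have key := h (Fintype.card (Pool.Agent.H16.NW.VV N J)) ((Pool.Agent.H16.NW.Gr N J).comap e)
    ((SimpleGraph.Iso.comap e (Pool.Agent.H16.NW.Gr N J)).connected_iff.2
      (Pool.Agent.H16.NW.conn N J))
    (fun v => Pool.Agent.H16.NW.aa N J 2 1 (e v) * u ^ Pool.Agent.H16.NW.dep N J (e v))
    (fun v => Pool.Agent.H16.NW.aa N J 1 2 (e v) * u ^ Pool.Agent.H16.NW.dep N J (e v))
    (fun v => hpos 2 1 (by norm_num) (by norm_num) (e v)) (fun v => hcomp (e v)) t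
    (fun y => by
      have h2 := Pool.Agent.H16.NW.TV_transport e (Pool.Agent.H16.NW.Gr N J)
        (fun v => Pool.Agent.H16.NW.aa N J 2 1 v * u ^ Pool.Agent.H16.NW.dep N J v) t y
      have h3 := h1 (e y)
      rw [← h2] at h3
      exact h3)
    (e.symm x)
  have h2 := Pool.Agent.H16.NW.TV_transport e (Pool.Agent.H16.NW.Gr N J)
    (fun v => Pool.Agent.H16.NW.aa N J 1 2 v * u ^ Pool.Agent.H16.NW.dep N J v)
    ⌈K * (t : ℝ)⌉₊ (e.symm x)
  have h3 : Pool.Agent.H16.NW.TV ((Pool.Agent.H16.NW.Gr N J).comap e)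
      (fun v => Pool.Agent.H16.NW.aa N J 1 2 (e v) * u ^ Pool.Agent.H16.NW.dep N J (e v))
      ⌈K * (t : ℝ)⌉₊ (e.symm x) ≤ 1 / 4 := key
  rw [h2, Equiv.apply_symm_apply] at h3
  linarith

end Pool.Agent.S5800
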